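import Mathlib

/-!
# Holomorphic functions of several variables are smooth
-/

namespace Pool.Agent.YTDA

open Complex Set Topology ContDiff MeasureTheory Metric

noncomputable section

set_option linter.unusedSectionVars false

variable {E F : Type} [NormedAddCommGroup E] [NormedSpace ℂ E] [FiniteDimensional ℂ E]
  [NormedAddCommGroup F] [NormedSpace ℂ F] [FiniteDimensional ℂ F]

theorem norm_fderiv_le_of_bound {f : E → F} {w : E} {R C : ℝ} (hR : 0 < R)
    (hd : ∀ z ∈ closedBall w R, DifferentiableAt ℂ f z)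
    (hC : ∀ z ∈ closedBall w R, ‖f z‖ ≤ C) : ‖fderiv ℂ f w‖ ≤ C / R := by
  have hC0 : 0 ≤ C := (norm_nonneg _).trans (hC w (mem_closedBall_self hR.le))
  refine ContinuousLinearMap.opNorm_le_bound _ (by positivity) fun u => ?_
  rcases eq_or_ne u 0 with rfl | hu
  · simp
  have hu0 : 0 < ‖u‖ := norm_pos_iff.2 hu
  have hmem : ∀ t : ℂ, ‖t‖ ≤ R / ‖u‖ → w + t • u ∈ closedBall w R := by
    intro t ht
    rw [mem_closedBall, dist_eq_norm, add_sub_cancel_left, norm_smul]
    rwa [le_div_iff₀ hu0] at ht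
  have hderiv : ∀ t : ℂ, ‖t‖ ≤ R / ‖u‖ →
      HasDerivAt (fun t : ℂ => f (w + t • u)) (fderiv ℂ f (w + t • u) u) t := by
    intro t ht
    have h1 : HasFDerivAt f (fderiv ℂ f (w + t • u)) (w + t • u) :=
      (hd _ (hmem t ht)).hasFDerivAt
    have h2 : HasDerivAt (fun t : ℂ => w + t • u) u t := by
      simpa using ((hasDerivAt_id t).smul_const u).const_add w
    exact h1.comp_hasDerivAt t h2
  have h0 := hderiv 0 (by simpa using (by positivity : 0 ≤ R / ‖u‖))
  have h3 : ‖deriv (fun t : ℂ => f (w + t • u)) 0‖ ≤ C / (R / ‖u‖) := by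
    refine norm_deriv_le_of_forall_mem_sphere_norm_le (by positivity) ?_ ?_
    · refine DifferentiableOn.diffContOnCl ?_
      intro t ht
      rw [closure_ball _ (by positivity : R / ‖u‖ ≠ 0), mem_closedBall_zero_iff] at ht
      exact (hderiv t ht).differentiableAt.differentiableWithinAt
    · intro t ht
      rw [mem_sphere_zero_iff_norm] at ht
      exact hC _ (hmem t ht.le)
  rw [h0.deriv] at h3
  simp only [zero_smul, add_zero] at h3
  calc ‖fderiv ℂ f w u‖ ≤ C / (R / ‖u‖) := h3
    _ = C / R * ‖u‖ := by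
      field_simp

/-- directional derivatives of holomorphic functions are holomorphic -/
theorem differentiableOn_fderiv_apply {f : E → F} {s : Set E} (hs : IsOpen s)
    (hf : DifferentiableOn ℂ f s) (v : E) : DifferentiableOn ℂ (fun z => fderiv ℂ f z v) s := by
  intro z₀ hz₀
  have : ProperSpace E := FiniteDimensional.proper ℂ E
  obtain ⟨R', hR', hR's⟩ := Metric.isOpen_iff.1 hs z₀ hz₀
  obtain ⟨R, hR, hRR'⟩ : ∃ R : ℝ, 0 < R ∧ 2 * R < R' := ⟨R' / 4, by positivity, by linarith⟩
  have hsub : closedBall z₀ (2 * R) ⊆ s := (closedBall_subset_ball hRR').trans hR's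
  have hda : ∀ z ∈ s, DifferentiableAt ℂ f z := fun z hz => hf.differentiableAt (hs.mem_nhds hz)
  obtain ⟨C, hC⟩ := (isCompact_closedBall z₀ (2 * R)).exists_bound_of_continuousOn
    (hf.continuousOn.mono hsub)
  have hC0 : 0 ≤ C := (norm_nonneg _).trans (hC z₀ (mem_closedBall_self (by positivity)))
  have hbd : ∀ w ∈ closedBall z₀ R, ‖fderiv ℂ f w‖ ≤ C / R := by
    intro w hw
    have h1 : closedBall w R ⊆ closedBall z₀ (2 * R) := by
      intro x hx
      rw [mem_closedBall] at hx hw ⊢
      linarith [dist_triangle x w z₀]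
    exact norm_fderiv_le_of_bound hR (fun z hz => hda z (hsub (h1 hz))) fun z hz => hC z (h1 hz)
  obtain ⟨r, hr, hrv⟩ : ∃ r : ℝ, 0 < r ∧ r * ‖v‖ ≤ R / 2 := by
    refine ⟨R / 2 / (‖v‖ + 1), by positivity, ?_⟩
    rw [div_mul_eq_mul_div, div_le_iff₀ (by positivity)]
    nlinarith [norm_nonneg v]
  have hmem : ∀ z ∈ ball z₀ (R / 2), ∀ t : ℂ, ‖t‖ ≤ r → z + t • v ∈ closedBall z₀ R := by
    intro z hz t ht
    rw [mem_ball, dist_eq_norm] at hz
    rw [mem_closedBall, dist_eq_norm]
    have h1 : ‖z + t • v - z₀‖ ≤ ‖z - z₀‖ + ‖t • v‖ := by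
      have h2 : z + t • v - z₀ = (z - z₀) + t • v := by abel
      rw [h2]
      exact norm_add_le _ _
    rw [norm_smul] at h1
    nlinarith [norm_nonneg v]
  have hmems : ∀ z ∈ ball z₀ (R / 2), ∀ t : ℂ, ‖t‖ ≤ r → z + t • v ∈ s := fun z hz t ht =>
    hsub (closedBall_subset_closedBall (by linarith) (hmem z hz t ht))
  have hrepr : ∀ z ∈ ball z₀ (R / 2), fderiv ℂ f z v =
      (2 * Real.pi * I : ℂ)⁻¹ • ∮ t in C(0, r), (1 / (t - 0) ^ 2) • f (z + t • v) := by
    intro z hz
    have hderiv : ∀ t : ℂ, ‖t‖ ≤ r →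
        HasDerivAt (fun t : ℂ => f (z + t • v)) (fderiv ℂ f (z + t • v) v) t := by
      intro t ht
      have h1 : HasFDerivAt f (fderiv ℂ f (z + t • v)) (z + t • v) :=
        (hda _ (hmems z hz t ht)).hasFDerivAt
      have h2 : HasDerivAt (fun t : ℂ => z + t • v) v t := by
        simpa using ((hasDerivAt_id t).smul_const v).const_add z
      exact h1.comp_hasDerivAt t h2
    have h0 := hderiv 0 (by simpa using hr.le)
    have hdo : DifferentiableOn ℂ (fun t : ℂ => f (z + t • v)) (closedBall 0 r) := by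
      intro t ht
      rw [mem_closedBall_zero_iff] at ht
      exact (hderiv t ht).differentiableAt.differentiableWithinAt
    rw [hdo.deriv_eq_smul_circleIntegral hr, h0.deriv, smul_smul,
      inv_mul_cancel₀ two_pi_I_ne_zero, one_smul]
    simp
  have hev : (fun z => fderiv ℂ f z v) =ᶠ[𝓝 z₀] fun z =>
      (2 * Real.pi * I : ℂ)⁻¹ • ∮ t in C(0, r), (1 / (t - 0) ^ 2) • f (z + t • v) :=
    Filter.eventuallyEq_of_mem (ball_mem_nhds z₀ (by positivity)) hrepr
  refine DifferentiableAt.differentiableWithinAt (DifferentiableAt.congr_of_eventuallyEq ?_ hev)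
  refine DifferentiableAt.const_smul ?_ _
  set c : ℝ → ℂ := fun θ => deriv (circleMap 0 r) θ * (1 / (circleMap 0 r θ - 0) ^ 2) with hc
  have hcm : Continuous c := by
    have h1 : Continuous (deriv (circleMap 0 r)) := by
      have : deriv (circleMap 0 r) = fun θ => circleMap 0 r θ * I := by
        ext θ
        rw [deriv_circleMap]
      rw [this]
      exact (continuous_circleMap 0 r).mul continuous_const
    refine h1.mul ?_
    refine continuous_const.div (((continuous_circleMap 0 r).sub continuous_const).pow 2)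
      fun θ => pow_ne_zero 2 ?_
    have h2 := circleMap_ne_center (c := 0) (θ := θ) hr.ne'
    simpa using h2
  have hnc : ∀ θ, ‖circleMap 0 r θ‖ ≤ r := fun θ => by
    rw [norm_circleMap_zero, abs_of_pos hr]
  have hcirc : (fun z => ∮ t in C(0, r), (1 / (t - 0) ^ 2) • f (z + t • v)) =
      fun z => ∫ θ in (0 : ℝ)..2 * Real.pi, c θ • f (z + circleMap 0 r θ • v) := by
    ext z
    simp only [circleIntegral, hc, mul_smul]
  rw [hcirc]
  have hcontF : ∀ z ∈ ball z₀ (R / 2), Continuous fun θ : ℝ =>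
      c θ • f (z + circleMap 0 r θ • v) := by
    intro z hz
    refine hcm.smul ?_
    refine ContinuousOn.comp_continuous hf.continuousOn ?_ fun θ => hmems z hz _ (hnc θ)
    exact continuous_const.add ((continuous_circleMap 0 r).smul continuous_const)
  obtain ⟨B, hB⟩ : ∃ B, ∀ θ ∈ uIcc (0 : ℝ) (2 * Real.pi), ‖c θ‖ ≤ B :=
    isCompact_uIcc.exists_bound_of_continuousOn hcm.continuousOn
  have hB0 : 0 ≤ B := (norm_nonneg _).trans (hB 0 left_mem_uIcc)
  have hmeas : Measurable fun θ : ℝ => fderiv ℂ f (z₀ + circleMap 0 r θ • v) := by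
    let : MeasurableSpace E := borel E
    have : BorelSpace E := ⟨rfl⟩
    have h1 : Measurable fun θ : ℝ => z₀ + circleMap 0 r θ • v :=
      (continuous_const.add ((continuous_circleMap 0 r).smul continuous_const)).measurable
    exact (measurable_fderiv ℂ f).comp h1
  refine (intervalIntegral.hasFDerivAt_integral_of_dominated_of_fderiv_le
    (F' := fun z θ => c θ • fderiv ℂ f (z + circleMap 0 r θ • v)) (bound := fun _ => B * (C / R))
    (s := ball z₀ (R / 2)) (ball_mem_nhds z₀ (by positivity)) ?_ ?_ ?_ ?_ ?_ ?_).differentiableAt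
  · filter_upwards [ball_mem_nhds z₀ (half_pos hR)] with z hz
    exact (hcontF z hz).aestronglyMeasurable
  · exact (hcontF z₀ (mem_ball_self (half_pos hR))).intervalIntegrable _ _
  · exact (hcm.measurable.smul hmeas).aestronglyMeasurable
  · refine Filter.Eventually.of_forall fun θ hθ z hz => ?_
    rw [norm_smul]
    exact mul_le_mul (hB θ (uIoc_subset_uIcc hθ)) (hbd _ (hmem z hz _ (hnc θ))) (norm_nonneg _) hB0
  · exact intervalIntegrable_const
  · refine Filter.Eventually.of_forall fun θ hθ z hz => ?_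
    have h1 : HasFDerivAt f (fderiv ℂ f (z + circleMap 0 r θ • v)) (z + circleMap 0 r θ • v) :=
      (hda _ (hmems z hz _ (hnc θ))).hasFDerivAt
    have h2 : HasFDerivAt (fun z : E => z + circleMap 0 r θ • v)
        (ContinuousLinearMap.id ℂ E) z := (hasFDerivAt_id z).add_const _
    have h3 := h1.comp z h2
    rw [ContinuousLinearMap.comp_id] at h3
    exact h3.const_smul (c θ)

theorem differentiableOn_fderiv {f : E → F} {s : Set E} (hs : IsOpen s)
    (hf : DifferentiableOn ℂ f s) : DifferentiableOn ℂ (fderiv ℂ f) s := by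
  let b := Module.finBasis ℂ E
  let e : (E →L[ℂ] F) →ₗ[ℂ] (Fin (Module.finrank ℂ E) → F) :=
    { toFun := fun A i => A (b i)
      map_add' := fun A B => rfl
      map_smul' := fun c A => rfl }
  have he : Function.Injective e := by
    intro A B h
    have h1 : (A : E →ₗ[ℂ] F) = B := b.ext fun i => congrFun h i
    exact ContinuousLinearMap.coe_injective h1
  have : FiniteDimensional ℂ (E →L[ℂ] F) := inferInstance
  let eC := LinearMap.toContinuousLinearMap e
  obtain ⟨g, hg⟩ := LinearMap.exists_leftInverse_of_injective e (LinearMap.ker_eq_bot.2 he)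
  let gC := LinearMap.toContinuousLinearMap g
  have h1 : fderiv ℂ f = fun z => gC (fun i => fderiv ℂ f z (b i)) := by
    ext1 z
    exact (LinearMap.congr_fun hg (fderiv ℂ f z)).symm
  rw [h1]
  exact gC.differentiable.comp_differentiableOn
    (differentiableOn_pi.2 fun i => differentiableOn_fderiv_apply hs hf (b i))

/-- Holomorphic functions of several variables are smooth. -/
theorem contDiffOn_of_differentiableOn {f : E → F} {s : Set E} (hs : IsOpen s)
    (hf : DifferentiableOn ℂ f s) : ContDiffOn ℂ ∞ f s := by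
  rw [contDiffOn_infty]
  intro n
  have key : ∀ n : ℕ, ∀ (G : Type) [NormedAddCommGroup G] [NormedSpace ℂ G]
      [FiniteDimensional ℂ G] (f : E → G), DifferentiableOn ℂ f s → ContDiffOn ℂ n f s := by
    intro n
    induction n with
    | zero =>
      intro G _ _ _ f hf
      exact contDiffOn_zero.2 hf.continuousOn
    | succ n ih =>
      intro G _ _ _ f hf
      have h1 : ((n + 1 : ℕ) : WithTop ℕ∞) = (n : WithTop ℕ∞) + 1 := by norm_cast
      rw [h1, contDiffOn_succ_iff_fderiv_of_isOpen hs]
      refine ⟨hf, fun h => absurd h (by simp), ih _ _ (differentiableOn_fderiv hs hf)⟩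
  exact key n F f hf

theorem contDiffOn_real_of_differentiableOn {f : E → F} {s : Set E}
    [NormedSpace ℝ E] [IsScalarTower ℝ ℂ E] [NormedSpace ℝ F] [IsScalarTower ℝ ℂ F]
    (hs : IsOpen s) (hf : DifferentiableOn ℂ f s) : ContDiffOn ℝ ∞ f s :=
  (contDiffOn_of_differentiableOn hs hf).restrict_scalars ℝ

end

end Pool.Agent.YTDA
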