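import Pool.Agent.YTDA.Alg

/-!
Variation of the scalar curvature along a derivation `D` which commutes with the coordinate
derivations up to constants (a linear diagonal vector field).
-/

namespace Pool.Agent.YTDA.Alg

open Finset Matrix

variable {A : Type*} [CommRing A] {n : ℕ}

namespace KR

variable (k : KR A n) (D : Derivation ℤ A A) (a b : Fin n → A)
  (ha : ∀ i j, k.d j (a i) = 0) (ha' : ∀ i j, k.db j (a i) = 0)
  (hd : ∀ i f, D (k.d i f) = k.d i (D f) - a i * k.d i f)
  (hdb : ∀ i f, D (k.db i f) = k.db i (D f) - b i * k.db i f)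
  (hb : ∀ i j, k.d j (b i) = 0)
  (v : A) (hg : ∀ i j, D (k.g i j) = k.d i (k.db j v) - (a i + b j) * k.g i j)

include hg in
theorem lin_mder_g : mder D k.g = Matrix.of (fun i j => k.d i (k.db j v)) -
    Matrix.diagonal a * k.g - k.g * Matrix.diagonal b := by
  ext i j
  simp only [mder, hg, Matrix.sub_apply, Matrix.of_apply, Matrix.diagonal_mul,
    Matrix.mul_diagonal]
  ring

include hg in
theorem lin_mder_gi : mder D k.gi =
    - (k.gi * Matrix.of (fun i j => k.d i (k.db j v)) * k.gi) +
    k.gi * Matrix.diagonal a + Matrix.diagonal b * k.gi := by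
  rw [mder_inv D k.inv k.inv', k.lin_mder_g D a b v hg, Matrix.mul_sub, Matrix.mul_sub,
    Matrix.sub_mul, Matrix.sub_mul]
  have h1 : k.gi * (Matrix.diagonal a * k.g) * k.gi = k.gi * Matrix.diagonal a := by
    rw [Matrix.mul_assoc, Matrix.mul_assoc, k.inv', Matrix.mul_one]
  have h2 : k.gi * (k.g * Matrix.diagonal b) * k.gi = Matrix.diagonal b * k.gi := by
    rw [← Matrix.mul_assoc, k.inv, Matrix.one_mul]
  rw [h1, h2]
  abel

include ha hb hd hg in
theorem lin_D_F (i : Fin n) : D (k.F i) = k.d i (k.lap v) - a i * k.F i := by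
  set V : Matrix (Fin n) (Fin n) A := Matrix.of (fun i j => k.d i (k.db j v)) with hV
  have hlap : k.lap v = (k.gi * V).trace := by
    unfold lap
    simp only [Matrix.trace, Matrix.diag, Matrix.mul_apply, hV, Matrix.of_apply]
    rw [Finset.sum_comm]
  have hc : mder D (mder (k.d i) k.g) = mder (k.d i) V - Matrix.diagonal a * mder (k.d i) k.g -
      mder (k.d i) k.g * Matrix.diagonal b - a i • mder (k.d i) k.g := by
    ext p q
    simp only [mder, hd, hg, Matrix.sub_apply, Matrix.smul_apply, Matrix.diagonal_mul,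
      Matrix.mul_diagonal, map_sub, Derivation.leibniz, smul_eq_mul, map_add, ha, hb, hV,
      Matrix.of_apply]
    ring
  rw [hlap]
  unfold F
  rw [der_trace, der_trace, mder_mul, mder_mul, mder_inv (k.d i) k.inv k.inv',
    k.lin_mder_gi D a b v hg, hc]
  rw [← hV]
  simp only [Matrix.mul_sub, Matrix.add_mul, Matrix.neg_mul, Matrix.trace_add, Matrix.trace_sub,
    Matrix.trace_neg, Matrix.mul_smul, Matrix.trace_smul, smul_eq_mul]
  have t1 : (k.gi * V * k.gi * mder (k.d i) k.g).trace =
      (k.gi * mder (k.d i) k.g * k.gi * V).trace := by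
    rw [Matrix.trace_mul_comm, ← Matrix.mul_assoc, ← Matrix.mul_assoc, Matrix.trace_mul_comm]
    simp only [Matrix.mul_assoc]
  have t2 : (Matrix.diagonal b * k.gi * mder (k.d i) k.g).trace =
      (k.gi * (mder (k.d i) k.g * Matrix.diagonal b)).trace := by
    rw [Matrix.mul_assoc, Matrix.trace_mul_comm, Matrix.mul_assoc]
  have t3 : (k.gi * Matrix.diagonal a * mder (k.d i) k.g).trace =
      (k.gi * (Matrix.diagonal a * mder (k.d i) k.g)).trace := by
    rw [Matrix.mul_assoc]
  rw [t1, t2, t3]
  ring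

include ha ha' hb hd hdb hg in
/-- **variation of the scalar curvature** along a derivation commuting with the coordinate
derivations up to constants -/
theorem lin_D_S : D k.S = - k.lich v := by
  have hR : ∀ i j, D (k.R i j) = - k.d i (k.db j (k.lap v)) - (a i + b j) * k.R i j := by
    intro i j
    unfold R
    rw [map_neg, hdb, k.lin_D_F D a b ha hd hb v hg, k.ddb, map_sub, Derivation.leibniz,
      smul_eq_mul, smul_eq_mul, ha']
    ring
  have hgi : ∀ p q, D (k.gi p q) = - ∑ e, (∑ c, k.gi p c * k.d c (k.db e v)) * k.gi e q +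
      (b p + a q) * k.gi p q := by
    intro p q
    have h := congrFun (congrFun (k.lin_mder_gi D a b v hg) p) q
    rw [Matrix.add_apply, Matrix.add_apply, Matrix.neg_apply, Matrix.mul_apply,
      Matrix.mul_diagonal, Matrix.diagonal_mul] at h
    simp only [Matrix.mul_apply, mder, Matrix.of_apply] at h
    rw [h]
    ring
  unfold S lich
  rw [map_sum]
  have h1 : ∀ i, D (∑ j, k.gi j i * k.R i j) = - ∑ j, k.gi j i * k.d i (k.db j (k.lap v)) -
      ∑ j, ∑ e, ∑ c, k.gi j c * k.d c (k.db e v) * k.gi e i * k.R i j := by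
    intro i
    rw [map_sum, ← Finset.sum_neg_distrib, ← Finset.sum_sub_distrib]
    refine Finset.sum_congr rfl fun j _ => ?_
    rw [Derivation.leibniz, smul_eq_mul, smul_eq_mul, hR, hgi]
    have h2 : ∑ e, ∑ c, k.gi j c * k.d c (k.db e v) * k.gi e i * k.R i j =
        (∑ e, (∑ c, k.gi j c * k.d c (k.db e v)) * k.gi e i) * k.R i j := by
      simp only [Finset.sum_mul]
    rw [h2]
    ring
  simp only [h1, Finset.sum_sub_distrib, Finset.sum_neg_distrib]
  rw [neg_add, ← sub_eq_add_neg]
  congr 1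
  unfold Q
  have h3 : ∀ f : Fin n → Fin n → Fin n → Fin n → A,
      ∑ i, ∑ j, ∑ e, ∑ c, f i j e c = ∑ e, ∑ i, ∑ j, ∑ c, f i j e c := by
    intro f
    have : ∀ i, ∑ j, ∑ e, ∑ c, f i j e c = ∑ e, ∑ j, ∑ c, f i j e c := fun i => Finset.sum_comm
    simp only [this]
    rw [Finset.sum_comm]
  rw [h3]
  refine Finset.sum_congr rfl fun e _ => Finset.sum_congr rfl fun i _ =>
    Finset.sum_congr rfl fun j _ => Finset.sum_congr rfl fun c _ => ?_
  rw [k.ddb]
  ring

end KR

end Pool.Agent.YTDA.Alg
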