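import Pool.Agent.YTDA.Alg

/-!
Naturality of the constructions of `Alg.lean` under holomorphic maps.
-/

namespace Pool.Agent.YTDA.Alg

open Finset Matrix

variable {A B : Type*} [CommRing A] [CommRing B] {n : ℕ}

/-- A local holomorphic isometry: `T` is the pull-back of functions, `J b a = ∂_a τ^b`. -/
structure Hol (kB : KR B n) (kA : KR A n) where
  T : B →+* A
  J : Matrix (Fin n) (Fin n) A
  Jb : Matrix (Fin n) (Fin n) A
  Ji : Matrix (Fin n) (Fin n) A
  Jbi : Matrix (Fin n) (Fin n) A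
  hJ : Ji * J = 1
  hJ' : J * Ji = 1
  hJb : Jbi * Jb = 1
  hJb' : Jb * Jbi = 1
  d_T : ∀ a f, kA.d a (T f) = ∑ b, T (kB.d b f) * J b a
  db_T : ∀ a f, kA.db a (T f) = ∑ b, T (kB.db b f) * Jb b a
  db_J : ∀ c b a, kA.db c (J b a) = 0
  d_Jb : ∀ c b a, kA.d c (Jb b a) = 0
  g : kA.g = J.transpose * kB.g.map T * Jb

namespace Hol

variable {kB : KR B n} {kA : KR A n} (t : Hol kB kA)

theorem map_inv : (kB.gi.map t.T) * (kB.g.map t.T) = 1 := by
  rw [← Matrix.map_mul, kB.inv, Matrix.map_one _ (map_zero _) (map_one _)]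

theorem map_inv' : (kB.g.map t.T) * (kB.gi.map t.T) = 1 := by
  rw [← Matrix.map_mul, kB.inv', Matrix.map_one _ (map_zero _) (map_one _)]

theorem JtI : t.Ji.transpose * t.J.transpose = 1 := by
  rw [← Matrix.transpose_mul, t.hJ', Matrix.transpose_one]

theorem JtI' : t.J.transpose * t.Ji.transpose = 1 := by
  rw [← Matrix.transpose_mul, t.hJ, Matrix.transpose_one]

theorem gi : kA.gi = t.Jbi * kB.gi.map t.T * t.Ji.transpose := by
  have h1 : (t.Jbi * kB.gi.map t.T * t.Ji.transpose) * kA.g = 1 := by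
    rw [t.g]
    calc t.Jbi * kB.gi.map t.T * t.Ji.transpose * (t.J.transpose * kB.g.map t.T * t.Jb)
        = t.Jbi * kB.gi.map t.T * (t.Ji.transpose * t.J.transpose) * kB.g.map t.T * t.Jb := by
          simp only [Matrix.mul_assoc]
      _ = t.Jbi * (kB.gi.map t.T * kB.g.map t.T) * t.Jb := by
          rw [t.JtI, Matrix.mul_one]
          simp only [Matrix.mul_assoc]
      _ = 1 := by rw [t.map_inv, Matrix.mul_one, t.hJb]
  calc kA.gi = 1 * kA.gi := (Matrix.one_mul _).symm
    _ = (t.Jbi * kB.gi.map t.T * t.Ji.transpose) * (kA.g * kA.gi) := by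
        rw [← h1, Matrix.mul_assoc]
    _ = _ := by rw [kA.inv', Matrix.mul_one]

theorem sum_JJi (f : Fin n → A) (a : Fin n) : ∑ b, t.J a b * ∑ c, t.Ji b c * f c = f a := by
  simp only [Finset.mul_sum]
  rw [Finset.sum_comm]
  have h1 : ∀ c, ∑ b, t.J a b * (t.Ji b c * f c) = (1 : Matrix _ _ A) a c * f c := by
    intro c
    rw [← t.hJ', Matrix.mul_apply, Finset.sum_mul]
    exact Finset.sum_congr rfl fun b _ => by ring
  simp only [h1, Matrix.one_apply, ite_mul, one_mul, zero_mul, Finset.sum_ite_eq,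
    Finset.mem_univ, if_true]

theorem sum_JbJbi (f : Fin n → A) (a : Fin n) : ∑ b, t.Jb a b * ∑ c, t.Jbi b c * f c = f a := by
  simp only [Finset.mul_sum]
  rw [Finset.sum_comm]
  have h1 : ∀ c, ∑ b, t.Jb a b * (t.Jbi b c * f c) = (1 : Matrix _ _ A) a c * f c := by
    intro c
    rw [← t.hJb', Matrix.mul_apply, Finset.sum_mul]
    exact Finset.sum_congr rfl fun b _ => by ring
  simp only [h1, Matrix.one_apply, ite_mul, one_mul, zero_mul, Finset.sum_ite_eq,
    Finset.mem_univ, if_true]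

theorem gi_apply (m a : Fin n) : kA.gi m a =
    ∑ b, ∑ e, t.Jbi m e * t.T (kB.gi e b) * t.Ji a b := by
  rw [t.gi, Matrix.mul_apply]
  refine Finset.sum_congr rfl fun b _ => ?_
  rw [Matrix.mul_apply, Finset.sum_mul]
  rfl

/-- contraction of the first index of `gi` -/
theorem sum_Jb_gi (e a : Fin n) : ∑ m, t.Jb e m * kA.gi m a = ∑ b, t.T (kB.gi e b) * t.Ji a b := by
  have h : t.Jb * kA.gi = kB.gi.map t.T * t.Ji.transpose := by
    rw [t.gi, ← Matrix.mul_assoc, ← Matrix.mul_assoc, t.hJb', Matrix.one_mul]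
  have h1 := congrFun (congrFun h e) a
  rw [Matrix.mul_apply, Matrix.mul_apply] at h1
  exact h1

/-- contraction of the second index of `gi` -/
theorem sum_gi_J (m b : Fin n) : ∑ a, kA.gi m a * t.J b a = ∑ e, t.Jbi m e * t.T (kB.gi e b) := by
  have h : kA.gi * t.J.transpose = t.Jbi * kB.gi.map t.T := by
    rw [t.gi, Matrix.mul_assoc, t.JtI, Matrix.mul_one]
  have h1 := congrFun (congrFun h m) b
  rw [Matrix.mul_apply, Matrix.mul_apply] at h1
  exact h1

theorem W_eq (f : B) (a : Fin n) : kA.W (t.T f) a = ∑ b, t.Ji a b * t.T (kB.W f b) := by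
  unfold KR.W
  simp only [t.db_T, Finset.sum_mul, map_sum, map_mul, Finset.mul_sum]
  rw [Finset.sum_comm]
  have h1 : ∀ e, ∑ m, t.T (kB.db e f) * t.Jb e m * kA.gi m a =
      ∑ b, t.Ji a b * (t.T (kB.db e f) * t.T (kB.gi e b)) := by
    intro e
    have h2 := t.sum_Jb_gi e a
    calc ∑ m, t.T (kB.db e f) * t.Jb e m * kA.gi m a
        = t.T (kB.db e f) * ∑ m, t.Jb e m * kA.gi m a := by
          rw [Finset.mul_sum]
          exact Finset.sum_congr rfl fun m _ => by ring
      _ = _ := by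
          rw [h2, Finset.mul_sum]
          exact Finset.sum_congr rfl fun m _ => by ring
  simp only [h1]
  rw [Finset.sum_comm]

theorem J_W (f : B) (b : Fin n) : ∑ a, t.J b a * kA.W (t.T f) a = t.T (kB.W f b) := by
  simp only [t.W_eq]
  exact t.sum_JJi _ _

theorem Wb_eq (f : B) (m : Fin n) : kA.Wb (t.T f) m = ∑ e, t.Jbi m e * t.T (kB.Wb f e) := by
  unfold KR.Wb
  simp only [t.d_T, map_sum, map_mul, Finset.mul_sum]
  rw [Finset.sum_comm]
  have h1 : ∀ b, ∑ a, kA.gi m a * (t.T (kB.d b f) * t.J b a) =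
      ∑ e, t.Jbi m e * (t.T (kB.gi e b) * t.T (kB.d b f)) := by
    intro b
    have h2 := t.sum_gi_J m b
    calc ∑ a, kA.gi m a * (t.T (kB.d b f) * t.J b a)
        = (∑ a, kA.gi m a * t.J b a) * t.T (kB.d b f) := by
          rw [Finset.sum_mul]
          exact Finset.sum_congr rfl fun m _ => by ring
      _ = _ := by
          rw [h2, Finset.sum_mul]
          exact Finset.sum_congr rfl fun m _ => by ring
  simp only [h1]
  rw [Finset.sum_comm]

theorem Jb_Wb (f : B) (e : Fin n) : ∑ m, t.Jb e m * kA.Wb (t.T f) m = t.T (kB.Wb f e) := by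
  simp only [t.Wb_eq]
  exact t.sum_JbJbi _ _

theorem ddb_T (i j : Fin n) (f : B) : kA.d i (kA.db j (t.T f)) =
    ∑ b, ∑ e, t.T (kB.d b (kB.db e f)) * t.J b i * t.Jb e j := by
  rw [t.db_T, map_sum]
  have h1 : ∀ e, kA.d i (t.T (kB.db e f) * t.Jb e j) =
      ∑ b, t.T (kB.d b (kB.db e f)) * t.J b i * t.Jb e j := by
    intro e
    rw [Derivation.leibniz, t.d_Jb, t.d_T, smul_zero, zero_add, smul_eq_mul, Finset.mul_sum]
    exact Finset.sum_congr rfl fun b _ => by ring
  simp only [h1]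
  rw [Finset.sum_comm]

/-- contraction of a tensor of type `(1,1)` -/
theorem contract (X : Fin n → Fin n → A) : ∑ i, ∑ j, kA.gi j i *
    ∑ b, ∑ e, X b e * t.J b i * t.Jb e j = ∑ b, ∑ e, t.T (kB.gi e b) * X b e := by
  have h0 : ∀ b e, ∑ i, ∑ j, kA.gi j i * (t.J b i * t.Jb e j) = t.T (kB.gi e b) := by
    intro b e
    rw [Finset.sum_comm]
    have h1 : ∀ j, ∑ i, kA.gi j i * (t.J b i * t.Jb e j) =
        t.Jb e j * ∑ c, t.Jbi j c * t.T (kB.gi c b) := by
      intro j
      rw [← t.sum_gi_J j b, Finset.mul_sum]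
      exact Finset.sum_congr rfl fun m _ => by ring
    simp only [h1]
    exact t.sum_JbJbi (fun c => t.T (kB.gi c b)) e
  calc ∑ i, ∑ j, kA.gi j i * ∑ b, ∑ e, X b e * t.J b i * t.Jb e j
      = ∑ b, ∑ e, X b e * ∑ i, ∑ j, kA.gi j i * (t.J b i * t.Jb e j) := by
        simp only [Finset.mul_sum]
        have : ∀ f : Fin n → Fin n → Fin n → Fin n → A,
            ∑ i, ∑ j, ∑ b, ∑ e, f i j b e = ∑ b, ∑ e, ∑ i, ∑ j, f i j b e := by
          intro f
          have h1 : ∀ i, ∑ j, ∑ b, ∑ e, f i j b e = ∑ b, ∑ e, ∑ j, f i j b e := by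
            intro i
            rw [Finset.sum_comm]
            exact Finset.sum_congr rfl fun b _ => Finset.sum_comm
          simp only [h1]
          rw [Finset.sum_comm]
          exact Finset.sum_congr rfl fun b _ => Finset.sum_comm
        rw [this]
        refine Finset.sum_congr rfl fun b _ => Finset.sum_congr rfl fun e _ =>
          Finset.sum_congr rfl fun i _ => Finset.sum_congr rfl fun j _ => ?_
        ring
    _ = _ := by
        simp only [h0]
        refine Finset.sum_congr rfl fun b _ => Finset.sum_congr rfl fun e _ => ?_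
        ring

theorem lap_eq (f : B) : kA.lap (t.T f) = t.T (kB.lap f) := by
  unfold KR.lap
  simp only [t.ddb_T, map_sum, map_mul]
  rw [t.contract]

theorem mder_T (a : Fin n) (M : Matrix (Fin n) (Fin n) B) :
    mder (kA.d a) (M.map t.T) = ∑ b, t.J b a • (mder (kB.d b) M).map t.T := by
  ext i j
  rw [Matrix.sum_apply]
  show kA.d a (t.T (M i j)) = _
  rw [t.d_T]
  refine Finset.sum_congr rfl fun b _ => ?_
  rw [Matrix.smul_apply, smul_eq_mul, mul_comm]
  rfl

theorem F_T (a : Fin n) : kA.F a = ∑ b, t.T (kB.F b) * t.J b a +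
    (t.Ji * mder (kA.d a) t.J).trace := by
  have h0 : mder (kA.d a) t.Jb = 0 := by
    ext i j
    exact t.d_Jb a i j
  have h1 : mder (kA.d a) kA.g = mder (kA.d a) t.J.transpose * kB.g.map t.T * t.Jb +
      t.J.transpose * mder (kA.d a) (kB.g.map t.T) * t.Jb := by
    rw [t.g, mder_mul, h0, Matrix.mul_zero, add_zero, mder_mul, Matrix.add_mul]
  unfold KR.F
  rw [h1, Matrix.mul_add, Matrix.trace_add, add_comm]
  congr 1
  · rw [t.gi, t.mder_T]
    have e1 : t.Jbi * kB.gi.map t.T * t.Ji.transpose *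
        (t.J.transpose * (∑ b, t.J b a • (mder (kB.d b) kB.g).map t.T) * t.Jb) =
        t.Jbi * (kB.gi.map t.T * (∑ b, t.J b a • (mder (kB.d b) kB.g).map t.T)) * t.Jb := by
      calc _ = t.Jbi * kB.gi.map t.T * (t.Ji.transpose * t.J.transpose) *
            (∑ b, t.J b a • (mder (kB.d b) kB.g).map t.T) * t.Jb := by
              simp only [Matrix.mul_assoc]
        _ = _ := by
              rw [t.JtI, Matrix.mul_one]
              simp only [Matrix.mul_assoc]
    rw [e1, Matrix.trace_mul_comm, ← Matrix.mul_assoc, t.hJb', Matrix.one_mul, Matrix.mul_sum,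
      Matrix.trace_sum]
    refine Finset.sum_congr rfl fun b _ => ?_
    rw [Matrix.mul_smul, Matrix.trace_smul, smul_eq_mul, mul_comm]
    congr 1
    rw [← Matrix.map_mul]
    simp only [Matrix.trace, Matrix.diag, Matrix.map_apply, map_sum]
  · rw [t.gi]
    have e1 : t.Jbi * kB.gi.map t.T * t.Ji.transpose *
        (mder (kA.d a) t.J.transpose * kB.g.map t.T * t.Jb) =
        t.Jbi * (kB.gi.map t.T * (t.Ji.transpose * mder (kA.d a) t.J.transpose) *
          kB.g.map t.T) * t.Jb := by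
      simp only [Matrix.mul_assoc]
    rw [e1, Matrix.trace_mul_comm, ← Matrix.mul_assoc, t.hJb', Matrix.one_mul,
      Matrix.trace_mul_comm, ← Matrix.mul_assoc, t.map_inv', Matrix.one_mul]
    have e2 : mder (kA.d a) t.J.transpose = (mder (kA.d a) t.J).transpose := rfl
    rw [e2, ← Matrix.transpose_mul, Matrix.trace_transpose, Matrix.trace_mul_comm]

theorem R_T (i j : Fin n) : kA.R i j = ∑ b, ∑ e, t.T (kB.R b e) * t.J b i * t.Jb e j := by
  have h0 : ∀ a, kA.db j (t.Ji * mder (kA.d a) t.J).trace = 0 := by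
    intro a
    have e1 : mder (kA.db j) t.J = 0 := by
      ext b c
      exact t.db_J j b c
    rw [der_trace, mder_mul, mder_inv (kA.db j) t.hJ t.hJ', e1, Matrix.mul_zero, Matrix.zero_mul,
      neg_zero, Matrix.zero_mul, zero_add]
    have e2 : mder (kA.db j) (mder (kA.d a) t.J) = 0 := by
      ext b c
      show kA.db j (kA.d a (t.J b c)) = 0
      rw [← kA.ddb, t.db_J, map_zero]
    rw [e2, Matrix.mul_zero, Matrix.trace_zero]
  unfold KR.R
  rw [t.F_T, map_add, h0, add_zero, map_sum, ← Finset.sum_neg_distrib]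
  refine Finset.sum_congr rfl fun b _ => ?_
  rw [Derivation.leibniz, t.db_J, smul_zero, zero_add, t.db_T, smul_eq_mul, Finset.mul_sum,
    ← Finset.sum_neg_distrib]
  refine Finset.sum_congr rfl fun e _ => ?_
  rw [map_neg]
  ring

theorem S_T : kA.S = t.T kB.S := by
  unfold KR.S
  simp only [t.R_T, map_sum, map_mul]
  rw [t.contract]

theorem db_W (f : B) (m a : Fin n) : kA.db m (kA.W (t.T f) a) =
    ∑ b, t.Ji a b * ∑ e, t.T (kB.db e (kB.W f b)) * t.Jb e m := by
  have h0 : ∀ a b, kA.db m (t.Ji a b) = 0 := by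
    intro a b
    have e1 : mder (kA.db m) t.J = 0 := by
      ext b c
      exact t.db_J m b c
    have e2 := mder_inv (kA.db m) t.hJ t.hJ'
    rw [e1, Matrix.mul_zero, Matrix.zero_mul, neg_zero] at e2
    exact congrFun (congrFun e2 a) b
  rw [t.W_eq, map_sum]
  refine Finset.sum_congr rfl fun b _ => ?_
  rw [Derivation.leibniz, h0, smul_zero, add_zero, smul_eq_mul, t.db_T]

theorem d_Wb (f : B) (i m : Fin n) : kA.d i (kA.Wb (t.T f) m) =
    ∑ e, t.Jbi m e * ∑ b, t.T (kB.d b (kB.Wb f e)) * t.J b i := by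
  have h0 : ∀ a b, kA.d i (t.Jbi a b) = 0 := by
    intro a b
    have e1 : mder (kA.d i) t.Jb = 0 := by
      ext b c
      exact t.d_Jb i b c
    have e2 := mder_inv (kA.d i) t.hJb t.hJb'
    rw [e1, Matrix.mul_zero, Matrix.zero_mul, neg_zero] at e2
    exact congrFun (congrFun e2 a) b
  rw [t.Wb_eq, map_sum]
  refine Finset.sum_congr rfl fun b _ => ?_
  rw [Derivation.leibniz, h0, smul_zero, add_zero, smul_eq_mul, t.d_T]

theorem xi_T (v : B) (b : Fin n) : ∑ a, t.J b a * kA.xi (t.T v) a = t.T (kB.xi v b) := by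
  have h1 : ∀ a, kA.xi (t.T v) a = ∑ c, t.Ji a c * t.T (kB.xi v c) := by
    intro a
    unfold KR.xi
    simp only [t.db_W, map_sum, map_mul]
    have h2 : ∀ m, kA.Wb (t.T v) m * ∑ b, t.Ji a b * ∑ e, t.T (kB.db e (kB.W v b)) * t.Jb e m =
        ∑ b, t.Ji a b * ∑ e, t.T (kB.db e (kB.W v b)) * (t.Jb e m * kA.Wb (t.T v) m) := by
      intro m
      simp only [Finset.mul_sum]
      exact Finset.sum_congr rfl fun b _ => Finset.sum_congr rfl fun e _ => by ring
    simp only [h2]
    rw [Finset.sum_comm]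
    refine Finset.sum_congr rfl fun c _ => ?_
    rw [← Finset.mul_sum]
    congr 1
    rw [Finset.sum_comm]
    refine Finset.sum_congr rfl fun e _ => ?_
    rw [← Finset.mul_sum, t.Jb_Wb]
    ring
  simp only [h1]
  exact t.sum_JJi _ _

theorem P_T (v : B) : kA.P (t.T v) = t.T (kB.P v) := by
  unfold KR.P
  simp only [map_sum, map_mul]
  -- first contract the index `m`
  have h1 : ∀ i, ∑ m, kA.d i (kA.Wb (t.T v) m) * kA.db m (kA.W (t.T v) i) =
      ∑ c, t.Ji i c * ∑ e, t.T (kB.db e (kB.W v c)) * ∑ b, t.T (kB.d b (kB.Wb v e)) * t.J b i := by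
    intro i
    have h2 : ∀ m, kA.d i (kA.Wb (t.T v) m) * kA.db m (kA.W (t.T v) i) =
        ∑ c, t.Ji i c * ∑ e, t.T (kB.db e (kB.W v c)) *
          (t.Jb e m * ∑ e', t.Jbi m e' * ∑ b, t.T (kB.d b (kB.Wb v e')) * t.J b i) := by
      intro m
      rw [t.db_W, t.d_Wb]
      rw [Finset.mul_sum]
      refine Finset.sum_congr rfl fun c _ => ?_
      rw [mul_left_comm, Finset.mul_sum]
      congr 1
      exact Finset.sum_congr rfl fun e _ => by ring
    simp only [h2]
    rw [Finset.sum_comm]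
    refine Finset.sum_congr rfl fun c _ => ?_
    rw [← Finset.mul_sum]
    congr 1
    rw [Finset.sum_comm]
    refine Finset.sum_congr rfl fun e _ => ?_
    rw [← Finset.mul_sum]
    congr 1
    exact t.sum_JbJbi (fun e' => ∑ b, t.T (kB.d b (kB.Wb v e')) * t.J b i) e
  simp only [h1]
  -- now contract `i`
  have h3 : ∀ c b, ∑ i, t.Ji i c * t.J b i = (1 : Matrix _ _ A) b c := by
    intro c b
    rw [← t.hJ', Matrix.mul_apply]
    exact Finset.sum_congr rfl fun i _ => mul_comm _ _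
  have h4 : ∀ f : Fin n → Fin n → A, ∑ i, ∑ c, t.Ji i c * ∑ e, f e c *
      ∑ b, t.T (kB.d b (kB.Wb v e)) * t.J b i =
      ∑ c, ∑ e, f e c * t.T (kB.d c (kB.Wb v e)) := by
    intro f
    rw [Finset.sum_comm]
    refine Finset.sum_congr rfl fun c _ => ?_
    simp only [Finset.mul_sum]
    rw [Finset.sum_comm]
    refine Finset.sum_congr rfl fun e _ => ?_
    rw [Finset.sum_comm]
    have h5 : ∀ b, ∑ i, t.Ji i c * (f e c * (t.T (kB.d b (kB.Wb v e)) * t.J b i)) =
        f e c * t.T (kB.d b (kB.Wb v e)) * (1 : Matrix _ _ A) b c := by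
      intro b
      rw [← h3 c b, Finset.mul_sum]
      exact Finset.sum_congr rfl fun i _ => by ring
    simp only [h5, Matrix.one_apply, mul_ite, mul_one, mul_zero, Finset.sum_ite_eq',
      Finset.mem_univ, if_true]
  rw [h4 (fun e c => t.T (kB.db e (kB.W v c)))]
  refine Finset.sum_congr rfl fun c _ => Finset.sum_congr rfl fun e _ => mul_comm _ _

theorem Yv_T (v : B) (e : Fin n) : ∑ q, t.Jb e q * kA.Yv (t.T v) q = t.T (kB.Yv v e) := by
  unfold KR.Yv
  simp only [map_sum, map_mul]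
  have h1 : ∀ i, ∑ j, kA.R i j * kA.Wb (t.T v) j =
      ∑ b, t.J b i * ∑ e, t.T (kB.R b e) * t.T (kB.Wb v e) := by
    intro i
    have h2 : ∀ j, kA.R i j * kA.Wb (t.T v) j = ∑ b, t.J b i * ∑ e, t.T (kB.R b e) *
        (t.Jb e j * kA.Wb (t.T v) j) := by
      intro j
      rw [t.R_T, Finset.sum_mul]
      refine Finset.sum_congr rfl fun b _ => ?_
      rw [Finset.sum_mul, Finset.mul_sum]
      exact Finset.sum_congr rfl fun e _ => by ring
    simp only [h2]
    rw [Finset.sum_comm]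
    refine Finset.sum_congr rfl fun b _ => ?_
    rw [← Finset.mul_sum]
    congr 1
    rw [Finset.sum_comm]
    refine Finset.sum_congr rfl fun e _ => ?_
    rw [← Finset.mul_sum, t.Jb_Wb]
  simp only [h1]
  have h3 : ∀ q, ∑ i, kA.gi q i * ∑ b, t.J b i * ∑ e, t.T (kB.R b e) * t.T (kB.Wb v e) =
      ∑ c, t.Jbi q c * ∑ b, t.T (kB.gi c b) * ∑ e, t.T (kB.R b e) * t.T (kB.Wb v e) := by
    intro q
    have h4 : ∀ i, kA.gi q i * ∑ b, t.J b i * ∑ e, t.T (kB.R b e) * t.T (kB.Wb v e) =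
        ∑ b, kA.gi q i * t.J b i * ∑ e, t.T (kB.R b e) * t.T (kB.Wb v e) := by
      intro i
      rw [Finset.mul_sum]
      exact Finset.sum_congr rfl fun b _ => by ring
    simp only [h4]
    rw [Finset.sum_comm]
    have h5 : ∀ b, ∑ i, kA.gi q i * t.J b i * ∑ e, t.T (kB.R b e) * t.T (kB.Wb v e) =
        ∑ c, t.Jbi q c * (t.T (kB.gi c b) * ∑ e, t.T (kB.R b e) * t.T (kB.Wb v e)) := by
      intro b
      rw [← Finset.sum_mul, t.sum_gi_J, Finset.sum_mul]
      exact Finset.sum_congr rfl fun b _ => by ring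
    simp only [h5]
    rw [Finset.sum_comm]
    refine Finset.sum_congr rfl fun c _ => ?_
    rw [Finset.mul_sum]
  simp only [h3]
  exact t.sum_JbJbi (fun c => ∑ b, t.T (kB.gi c b) * ∑ e, t.T (kB.R b e) * t.T (kB.Wb v e)) e

end Hol

end Pool.Agent.YTDA.Alg
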