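import Pool.Agent.YTDA.Quot2

/-!
# Ampleness in terms of functions on `Y`
-/

namespace Pool.Agent.YTDA

open Complex Set Topology ContDiff Manifold ComplexOrder Module Filter Metric

noncomputable section

namespace PolAtlas

variable {n : ℕ} {Y : Type} [MulAction ℂˣ Y] (A : PolAtlas n Y)

/-- The sections of degree `k` separate points and tangent vectors. -/
def Amp (k : ℕ) : Prop :=
  (∀ y, ∃ F, A.IsSec k F ∧ F y ≠ 0) ∧
  (∀ y y', (∀ c : ℂˣ, y' ≠ c • y) → ∃ F, A.IsSec k F ∧ F y = 0 ∧ F y' ≠ 0) ∧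
  ∀ a, ∀ z ∈ A.U a, ∀ v : E n, v ≠ 0 → ∃ F, A.IsSec k F ∧ F (A.γ a z) = 0 ∧
    fderiv ℂ (fun w => F (A.γ a w)) z v ≠ 0

/-- The invariant sections of degree `k` separate orbits and tangent vectors. -/
def AmpInv (G : Type) [Group G] [MulAction G Y] [SMulCommClass G ℂˣ Y] (k : ℕ) : Prop :=
  (∀ y, ∃ F ∈ A.invSecs G k, F y ≠ 0) ∧
  (∀ y y', (∀ (c : ℂˣ) (g : G), y' ≠ c • g • y) → ∃ F ∈ A.invSecs G k, F y = 0 ∧ F y' ≠ 0) ∧
  ∀ a, ∀ z ∈ A.U a, ∀ v : E n, v ≠ 0 → ∃ F ∈ A.invSecs G k, F (A.γ a z) = 0 ∧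
    fderiv ℂ (fun w => F (A.γ a w)) z v ≠ 0

variable {A}

theorem AmpInv.quot {G : Type} [Group G] [MulAction G Y] [SMulCommClass G ℂˣ Y] [Finite G]
    {k : ℕ} (h : A.AmpInv G k) (hA : A.FreeAct G) (ht : A.IsT2) : (A.quot hA ht).Amp k := by
  obtain ⟨h1, h2, h3⟩ := h
  refine ⟨fun y => ?_, fun y y' hy => ?_, fun p z hz v hv => ?_⟩
  · obtain ⟨y, rfl⟩ := exists_qm y
    obtain ⟨F, hF, hFy⟩ := h1 y
    exact ⟨qlift F hF.2, (quot_isSec_iff hA ht).2 hF.1, hFy⟩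
  · obtain ⟨y, rfl⟩ := exists_qm y
    obtain ⟨y', rfl⟩ := exists_qm y'
    obtain ⟨F, hF, hFy, hFy'⟩ := h2 y y' (by
      intro c g hc
      apply hy c
      rw [hc, smul_qm, ← smul_comm g c, qm_smul])
    exact ⟨qlift F hF.2, (quot_isSec_iff hA ht).2 hF.1, hFy, hFy'⟩
  · obtain ⟨F, hF, hFz, hFv⟩ := h3 p.1.1 z (p.2.2.1 hz) v hv
    exact ⟨qlift F hF.2, (quot_isSec_iff hA ht).2 hF.1, hFz, hFv⟩

theorem gg_par {a b : A.ι} {w : E n} (hw : w ∈ A.O b a) :
    A.gg a b (A.par b w) = A.h b a w := by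
  unfold gg
  rw [A.co_par hw.1]

theorem locs_par_other {k : ℕ} {F : Y → ℂ} (hF : A.IsSec k F) {a b : A.ι} {w : E n}
    (hw : w ∈ A.O b a) : A.locs F a (A.par b w) = (A.h b a w : ℂ) ^ k * F (A.γ b w) := by
  have ha : A.par b w ∈ A.dom a := (A.mem_dom_par hw.1).2 hw
  have hb : A.par b w ∈ A.dom b := A.par_mem hw.1
  rw [A.locs_of_mem F ha, A.γ_co ha hb, hF.hom, gg_par hw, A.co_par hw.1]

theorem Amp.isAmple {k : ℕ} (h : A.Amp k) (hk : 0 < k) : A.lb.IsAmple := by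
  obtain ⟨h1, h2, h3⟩ := h
  refine ⟨k, hk, ?_, ?_, ?_⟩
  · intro (a : A.ι) (b : A.ι) x (hx : x ∈ A.dom a) y (hy : y ∈ A.dom b) hxy
    obtain ⟨F, hF, hFx, hFy⟩ := h2 (A.γ a (A.co a x)) (A.γ b (A.co b y)) (by
      intro c hc
      apply hxy
      have h4 : A.par b (A.co b y) = A.par a (A.co a x) := A.par_eq.2 ⟨c, hc⟩
      rw [A.par_co hx, A.par_co hy] at h4
      exact h4.symm)
    refine ⟨A.locs F, A.locs_mem hF, ?_, ?_⟩
    · rw [A.locs_of_mem F hx]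
      exact hFx
    · rw [A.locs_of_mem F hy]
      exact hFy
  · intro (a : A.ι) x (hx : x ∈ A.dom a)
    obtain ⟨F, hF, hFx⟩ := h1 (A.γ a (A.co a x))
    refine ⟨A.locs F, A.locs_mem hF, ?_⟩
    rw [A.locs_of_mem F hx]
    exact hFx
  · intro (a : A.ι) x (hx : x ∈ A.dom a) (v : E n) hv
    set b := A.ix x with hb
    have hxb : x ∈ A.dom b := A.mem_ix x
    set z := A.co b x with hz
    have hzO : z ∈ A.O b a := A.co_mem_O hxb hx
    obtain ⟨F, hF, hFz, hFv⟩ := h3 b z (A.co_mem hxb) v hv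
    refine ⟨A.locs F, A.locs_mem hF, ?_, ?_⟩
    · have h4 := locs_par_other hF hzO
      rw [A.par_co hxb] at h4
      rw [h4, hFz, mul_zero]
    · have hmd : MDifferentiableAt 𝓘(ℂ, E n) 𝓘(ℂ) (A.locs F a) x := by
        have h5 : MDifferentiableOn 𝓘(ℂ, E n) 𝓘(ℂ) (A.locs F a) (A.dom a) := (A.locs_mem hF).2.1 a
        exact h5.mdifferentiableAt ((A.isOpen_dom a).mem_nhds hx)
      have h6 : mfderiv 𝓘(ℂ, E n) 𝓘(ℂ) (A.locs F a) x =
          fderiv ℂ (fun w => A.locs F a (A.par b w)) z := by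
        rw [hmd.mfderiv]
        simp only [modelWithCornersSelf_coe, range_id, fderivWithin_univ]
        rfl
      have h7 : (fun w => A.locs F a (A.par b w)) =ᶠ[𝓝 z]
          fun w => (A.h b a w : ℂ) ^ k * F (A.γ b w) := by
        filter_upwards [(A.O_open b a).mem_nhds hzO] with w hw
        exact locs_par_other hF hw
      have h8 : DifferentiableAt ℂ (fun w => (A.h b a w : ℂ) ^ k) z :=
        ((A.hol_h' b a).differentiableAt ((A.O_open b a).mem_nhds hzO)).pow k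
      have h9 : DifferentiableAt ℂ (fun w => F (A.γ b w)) z :=
        (hF.hol b).differentiableAt ((A.isOpen_U b).mem_nhds hzO.1)
      have h10 : fderiv ℂ (fun w => A.locs F a (A.par b w)) z v =
          (A.h b a z : ℂ) ^ k * fderiv ℂ (fun w => F (A.γ b w)) z v := by
        rw [h7.fderiv_eq, fderiv_fun_mul h8 h9, hFz]
        show (A.h b a z : ℂ) ^ k * fderiv ℂ (fun w => F (A.γ b w)) z v +
          0 * fderiv ℂ (fun w => (A.h b a w : ℂ) ^ k) z v = _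
        rw [zero_mul, add_zero]
      intro h11
      have h12 : fderiv ℂ (fun w => A.locs F a (A.par b w)) z v = 0 := by
        rw [← h6]
        exact h11
      rw [h10] at h12
      exact mul_ne_zero (pow_ne_zero _ (A.h b a z).ne_zero) hFv h12

end PolAtlas

end

end Pool.Agent.YTDA
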