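import Pool.Agent.YTDA.Defs

/-!
Construction of a `PolAtlas` from local holomorphic transitions between the frames, and
the Hausdorff property.
-/

namespace Pool.Agent.YTDA

open Complex Set Topology Filter

noncomputable section

variable {n : ℕ} {Y : Type} [MulAction ℂˣ Y]

/-- local holomorphic transition between two parametrizations -/
def Loc (γ : E n → Y) (z : E n) (γ' : E n → Y) (z' : E n) : Prop :=
  ∃ f : E n → E n, ∃ g : E n → ℂˣ, AnalyticAt ℂ f z ∧ AnalyticAt ℂ (fun ζ => (g ζ : ℂ)) z ∧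
    f z = z' ∧ ∀ᶠ ζ in 𝓝 z, γ' (f ζ) = g ζ • γ ζ

theorem Loc.refl (γ : E n → Y) (z : E n) : Loc γ z γ z :=
  ⟨id, fun _ => 1, analyticAt_id, by simpa using analyticAt_const, rfl,
    Eventually.of_forall fun ζ => (one_smul _ _).symm⟩

theorem Loc.of_eventuallyEq {γ γ' : E n → Y} {z : E n} (h : ∀ᶠ ζ in 𝓝 z, γ' ζ = γ ζ) :
    Loc γ z γ' z :=
  ⟨id, fun _ => 1, analyticAt_id, by simpa using analyticAt_const, rfl,
    h.mono fun ζ hζ => by simpa using hζ⟩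

theorem Loc.trans {γ γ' γ'' : E n → Y} {z z' z'' : E n} (h : Loc γ z γ' z')
    (h' : Loc γ' z' γ'' z'') : Loc γ z γ'' z'' := by
  obtain ⟨f, g, hf, hg, rfl, h1⟩ := h
  obtain ⟨f', g', hf', hg', rfl, h2⟩ := h'
  refine ⟨fun ζ => f' (f ζ), fun ζ => g' (f ζ) * g ζ, hf'.comp hf, ?_, rfl, ?_⟩
  · have h3 : AnalyticAt ℂ (fun ζ => ((g' (f ζ) : ℂˣ) : ℂ)) z :=
      AnalyticAt.comp (g := fun ζ => ((g' ζ : ℂˣ) : ℂ)) (f := f) hg' hf
    exact (h3.mul hg).congr (Eventually.of_forall fun ζ => (Units.val_mul _ _).symm)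
  · filter_upwards [h1, hf.continuousAt.eventually h2] with ζ e1 e2
    rw [e2, e1, smul_smul]

/-- two-sided local transition -/
def LocS (γ : E n → Y) (z : E n) (γ' : E n → Y) (z' : E n) : Prop :=
  Loc γ z γ' z' ∧ Loc γ' z' γ z

theorem LocS.refl (γ : E n → Y) (z : E n) : LocS γ z γ z := ⟨Loc.refl γ z, Loc.refl γ z⟩

theorem LocS.symm {γ γ' : E n → Y} {z z' : E n} (h : LocS γ z γ' z') : LocS γ' z' γ z :=
  ⟨h.2, h.1⟩

theorem LocS.trans {γ γ' γ'' : E n → Y} {z z' z'' : E n} (h : LocS γ z γ' z')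
    (h' : LocS γ' z' γ'' z'') : LocS γ z γ'' z'' := ⟨h.1.trans h'.1, h'.2.trans h.2⟩

/-- separation of two points of `M` -/
def Sep (γ : E n → Y) (z : E n) (γ' : E n → Y) (z' : E n) : Prop :=
  ∃ V ∈ 𝓝 z, ∃ V' ∈ 𝓝 z', ∀ w ∈ V, ∀ w' ∈ V', ∀ c : ℂˣ, γ' w' ≠ c • γ w

theorem Sep.symm {γ γ' : E n → Y} {z z' : E n} (h : Sep γ z γ' z') : Sep γ' z' γ z := by
  obtain ⟨V, hV, V', hV', h1⟩ := h
  refine ⟨V', hV', V, hV, fun w hw w' hw' c hc => h1 w' hw' w hw c⁻¹ ?_⟩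
  rw [hc, inv_smul_smul]

theorem Sep.of_loc {γ γ₁ γ' : E n → Y} {z z₁ z' : E n} (hl : Loc γ z γ₁ z₁)
    (h : Sep γ₁ z₁ γ' z') : Sep γ z γ' z' := by
  obtain ⟨f, g, hf, _, rfl, h1⟩ := hl
  obtain ⟨V, hV, V', hV', h2⟩ := h
  refine ⟨{ζ | f ζ ∈ V ∧ γ₁ (f ζ) = g ζ • γ ζ},
    (hf.continuousAt.eventually hV).and h1, V', hV', ?_⟩
  rintro w ⟨hw1, hw2⟩ w' hw' c hc
  refine h2 (f w) hw1 w' hw' (c * (g w)⁻¹) ?_
  rw [hc, hw2, smul_smul, inv_mul_cancel_right]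

theorem Sep.of_loc₂ {γ γ₁ γ' γ'₁ : E n → Y} {z z₁ z' z'₁ : E n} (hl : Loc γ z γ₁ z₁)
    (hl' : Loc γ' z' γ'₁ z'₁) (h : Sep γ₁ z₁ γ'₁ z'₁) : Sep γ z γ' z' :=
  Sep.of_loc hl (Sep.symm (Sep.of_loc hl' h.symm))

/-- two different points in one chart are separated -/
theorem Sep.of_inj {γ : E n → Y} {z z' : E n} {U : Set (E n)} (hU : IsOpen U) (hz : z ∈ U)
    (hz' : z' ∈ U) (inj : ∀ z ∈ U, ∀ z' ∈ U, ∀ c : ℂˣ, γ z' = c • γ z → z' = z) (hne : z ≠ z') :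
    Sep γ z γ z' := by
  obtain ⟨V, V', hV, hV', hzV, hzV', hd⟩ := t2_separation hne
  refine ⟨V ∩ U, Filter.inter_mem (hV.mem_nhds hzV) (hU.mem_nhds hz), V' ∩ U,
    Filter.inter_mem (hV'.mem_nhds hzV') (hU.mem_nhds hz'), ?_⟩
  rintro w ⟨hw, hwU⟩ w' ⟨hw', hwU'⟩ c hc
  have := inj w hwU w' hwU' c hc
  subst this
  exact (Set.disjoint_left.1 hd hw hw').elim

/-- A family of frames related by local holomorphic transitions. -/
structure PreAtlas (n : ℕ) (Y : Type) [MulAction ℂˣ Y] where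
  ι : Type
  U : ι → Set (E n)
  γ : ι → E n → Y
  isOpen_U : ∀ a, IsOpen (U a)
  inj : ∀ a, ∀ z ∈ U a, ∀ z' ∈ U a, ∀ c : ℂˣ, γ a z' = c • γ a z → z' = z ∧ c = 1
  cover : ∀ y, ∃ a, ∃ z ∈ U a, ∃ c : ℂˣ, y = c • γ a z
  loc : ∀ a b, ∀ z ∈ U a, ∀ z' ∈ U b, ∀ c : ℂˣ, γ b z' = c • γ a z → Loc (γ a) z (γ b) z'

namespace PreAtlas

variable (B : PreAtlas n Y)

/-- the domain of the transition -/
def O (a b : B.ι) : Set (E n) := {z | z ∈ B.U a ∧ ∃ z' ∈ B.U b, ∃ c : ℂˣ, B.γ b z' = c • B.γ a z}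

open Classical in
/-- the coordinate change -/
def τ (a b : B.ι) (z : E n) : E n :=
  if h : ∃ z' ∈ B.U b, ∃ c : ℂˣ, B.γ b z' = c • B.γ a z then h.choose else 0

open Classical in
/-- the change of frames -/
def h (a b : B.ι) (z : E n) : ℂˣ :=
  if h : ∃ z' ∈ B.U b, ∃ c : ℂˣ, B.γ b z' = c • B.γ a z then h.choose_spec.2.choose else 1

theorem trans (a b : B.ι) (z : E n)
    (h : ∃ z' ∈ B.U b, ∃ c : ℂˣ, B.γ b z' = c • B.γ a z) :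
    B.τ a b z ∈ B.U b ∧ B.γ b (B.τ a b z) = B.h a b z • B.γ a z := by
  unfold τ PreAtlas.h
  rw [dif_pos h, dif_pos h]
  exact ⟨h.choose_spec.1, h.choose_spec.2.choose_spec⟩

theorem exists_germ (a b : B.ι) (z : E n) (hz : z ∈ B.O a b) :
    ∃ f : E n → E n, ∃ g : E n → ℂˣ, AnalyticAt ℂ f z ∧ AnalyticAt ℂ (fun ζ => (g ζ : ℂ)) z ∧
      ∀ᶠ ζ in 𝓝 z, ζ ∈ B.O a b ∧ B.τ a b ζ = f ζ ∧ B.h a b ζ = g ζ := by
  obtain ⟨hza, hzb⟩ := hz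
  obtain ⟨h1, h2⟩ := B.trans a b z hzb
  obtain ⟨f, g, hf, hg, hfz, hfg⟩ := B.loc a b z hza _ h1 _ h2
  refine ⟨f, g, hf, hg, ?_⟩
  have h3 : ∀ᶠ ζ in 𝓝 z, f ζ ∈ B.U b := by
    apply hf.continuousAt.eventually
    rw [hfz]
    exact (B.isOpen_U b).mem_nhds h1
  have h4 : ∀ᶠ ζ in 𝓝 z, ζ ∈ B.U a := (B.isOpen_U a).mem_nhds hza
  filter_upwards [h3, h4, hfg] with ζ e3 e4 e5
  have hO : ∃ z' ∈ B.U b, ∃ c : ℂˣ, B.γ b z' = c • B.γ a ζ := ⟨f ζ, e3, g ζ, e5⟩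
  obtain ⟨h5, h6⟩ := B.trans a b ζ hO
  have h7 : B.γ b (B.τ a b ζ) = (B.h a b ζ * (g ζ)⁻¹) • B.γ b (f ζ) := by
    rw [h6, e5, smul_smul, inv_mul_cancel_right]
  obtain ⟨h8, h9⟩ := B.inj b _ e3 _ h5 _ h7
  exact ⟨⟨e4, hO⟩, h8, mul_inv_eq_one.1 h9⟩

/-- The atlas. -/
def toAtlas : PolAtlas n Y where
  ι := B.ι
  U := B.U
  γ := B.γ
  isOpen_U := B.isOpen_U
  inj := B.inj
  cover := B.cover
  τ := B.τ
  h := B.h
  isOpen_O a b := by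
    rw [isOpen_iff_mem_nhds]
    intro z hz
    obtain ⟨f, g, _, _, h⟩ := B.exists_germ a b z hz
    exact h.mono fun ζ hζ => hζ.1
  trans a b z _ hz := B.trans a b z hz
  hol_τ a b := by
    intro z hz
    obtain ⟨f, g, hf, _, h⟩ := B.exists_germ a b z hz
    exact (hf.differentiableAt.congr_of_eventuallyEq
      (h.mono fun ζ hζ => hζ.2.1)).differentiableWithinAt
  hol_h a b := by
    intro z hz
    obtain ⟨f, g, _, hg, h⟩ := B.exists_germ a b z hz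
    refine (hg.differentiableAt.congr_of_eventuallyEq ?_).differentiableWithinAt
    exact h.mono fun ζ hζ => by simp only [hζ.2.2]

theorem toAtlas_ι : B.toAtlas.ι = B.ι := rfl

/-- The Hausdorff property. -/
theorem isT2 (hs : ∀ a b, ∀ z ∈ B.U a, ∀ z' ∈ B.U b, (∀ c : ℂˣ, B.γ b z' ≠ c • B.γ a z) →
    Sep (B.γ a) z (B.γ b) z') : B.toAtlas.IsT2 := by
  intro a b z hz z' hz' hne
  obtain ⟨V, hV, V', hV', h⟩ := hs a b z hz z' hz' hne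
  exact ⟨V, hV, V', hV', fun w hw w' hw' c => h w hw.1 w' hw'.1 c⟩

end PreAtlas

end

end Pool.Agent.YTDA
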