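import Pool.Agent.YTDA.Pull
import Pool.Agent.YTDA.Glue

/-!
# Holomorphic maps between polarized manifolds

`IsHol A B f`: `f : Y → Y'` commutes with the scalars and is holomorphic in the charts.
`IsBihol A B f`: moreover with invertible derivative. Then `H ∘ f` is Kähler / csc if `H` is.
-/

namespace Pool.Agent.YTDA

open Complex Set Topology ContDiff ComplexOrder Pl

noncomputable section

variable {n : ℕ} {Y Y' Y'' : Type} [MulAction ℂˣ Y] [MulAction ℂˣ Y'] [MulAction ℂˣ Y'']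

/-- A map which commutes with scalars and is holomorphic in the charts. -/
structure IsHol (A : PolAtlas n Y) (B : PolAtlas n Y') (f : Y → Y') : Prop where
  smul : ∀ (c : ℂˣ) y, f (c • y) = c • f y
  loc : ∀ a, ∀ z ∈ A.U a, ∃ b, ∃ z' ∈ B.U b, Loc (fun ζ => f (A.γ a ζ)) z (B.γ b) z'

/-- A map which commutes with scalars and is locally biholomorphic in the charts. -/
structure IsBihol (A : PolAtlas n Y) (B : PolAtlas n Y') (f : Y → Y') : Prop where
  smul : ∀ (c : ℂˣ) y, f (c • y) = c • f y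
  loc : ∀ a, ∀ z ∈ A.U a, ∃ b, ∃ t : E n → E n, ∃ h : E n → ℂˣ, AnalyticAt ℂ t z ∧
    AnalyticAt ℂ (fun ζ => (h ζ : ℂ)) z ∧ t z ∈ B.U b ∧ (jac t z).det ≠ 0 ∧
    ∀ᶠ ζ in 𝓝 z, f (A.γ a ζ) = h ζ • B.γ b (t ζ)

theorem Loc.map {γ : E n → Y} {z : E n} {γ' : E n → Y} {z' : E n} (h : Loc γ z γ' z')
    {f : Y → Y'} (hf : ∀ (c : ℂˣ) y, f (c • y) = c • f y) :
    Loc (fun ζ => f (γ ζ)) z (fun ζ => f (γ' ζ)) z' := by
  obtain ⟨t, g, ht, hg, hz, he⟩ := h
  refine ⟨t, g, ht, hg, hz, ?_⟩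
  filter_upwards [he] with ζ hζ
  rw [hζ, hf]

theorem isHol_id (A : PolAtlas n Y) : IsHol A A id :=
  ⟨fun _ _ => rfl, fun a z hz => ⟨a, z, hz, Loc.refl _ _⟩⟩

theorem IsHol.comp {A : PolAtlas n Y} {B : PolAtlas n Y'} {C : PolAtlas n Y''} {f : Y → Y'}
    {g : Y' → Y''} (hg : IsHol B C g) (hf : IsHol A B f) : IsHol A C (g ∘ f) := by
  refine ⟨fun c y => ?_, fun a z hz => ?_⟩
  · simp only [Function.comp]
    rw [hf.smul, hg.smul]
  · obtain ⟨b, z', hz', h⟩ := hf.loc a z hz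
    obtain ⟨c, z'', hz'', h'⟩ := hg.loc b z' hz'
    exact ⟨c, z'', hz'', (h.map hg.smul).trans h'⟩

theorem isHol_smul (A : PolAtlas n Y) (c : ℂˣ) : IsHol A A (fun y => c • y) := by
  refine ⟨fun c' y => by rw [smul_smul, smul_smul, mul_comm], fun a z hz => ⟨a, z, hz, ?_⟩⟩
  exact ⟨id, fun _ => c⁻¹, analyticAt_id, analyticAt_const, rfl, Filter.Eventually.of_forall
    fun ζ => by simp [smul_smul]⟩

theorem jac_comp {k l m : ℕ} {t : E k → E l} {s : E l → E m} {z : E k}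
    (ht : DifferentiableAt ℂ t z) (hs : DifferentiableAt ℂ s (t z)) :
    jac (fun w => s (t w)) z = jac s (t z) * jac t z := by
  ext i j
  have h1 : fderiv ℂ (fun w => s (t w)) z = (fderiv ℂ s (t z)).comp (fderiv ℂ t z) :=
    fderiv_comp z hs ht
  unfold jac
  rw [h1, Matrix.mul_apply, ContinuousLinearMap.comp_apply]
  have h2 : fderiv ℂ t z (Pi.single j 1) =
      ∑ k, (fderiv ℂ t z (Pi.single j 1) k) • (Pi.single k 1 : E l) := by
    ext r
    rw [Finset.sum_apply, Finset.sum_eq_single r]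
    · simp
    · intro k _ hk
      simp [Pi.single_apply, hk.symm]
    · simp
  conv_lhs => rw [h2]
  rw [map_sum, Finset.sum_apply]
  refine Finset.sum_congr rfl fun k _ => ?_
  rw [map_smul, Pi.smul_apply, smul_eq_mul, mul_comm]

theorem jac_id (z : E n) : jac (fun w : E n => w) z = 1 := by
  ext i j
  unfold jac
  rw [fderiv_id']
  simp [Matrix.one_apply, Pi.single_apply]

/-- A holomorphic map with a holomorphic inverse is biholomorphic. -/
theorem IsHol.isBihol {A : PolAtlas n Y} {B : PolAtlas n Y'} {f : Y → Y'} {g : Y' → Y}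
    (hf : IsHol A B f) (hg : IsHol B A g) (hgf : ∀ y, g (f y) = y) : IsBihol A B f := by
  refine ⟨hf.smul, fun a z hz => ?_⟩
  obtain ⟨b, z', hz', t, h, ht, hh, rfl, he⟩ := hf.loc a z hz
  obtain ⟨c, z'', hz'', s, k, hs, hk, rfl, he'⟩ := hg.loc b _ hz'
  refine ⟨b, t, fun ζ => (h ζ)⁻¹, ht, ?_, hz', ?_, ?_⟩
  · have : AnalyticAt ℂ (fun ζ => ((h ζ : ℂ))⁻¹) z := hh.inv (h z).ne_zero
    simpa only [Units.val_inv_eq_inv_val] using this
  · -- the derivative
    have hc : A.γ c (s (t z)) = (k (t z) * h z) • A.γ a z := by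
      have e1 : A.γ c (s (t z)) = k (t z) • g (B.γ b (t z)) := he'.self_of_nhds
      have e2 : B.γ b (t z) = h z • f (A.γ a z) := he.self_of_nhds
      rw [e1, e2, hg.smul, hgf, smul_smul]
    have hO : s (t z) ∈ A.O c a := ⟨hz'', z, hz, (k (t z) * h z)⁻¹, by rw [hc, inv_smul_smul]⟩
    have hopen : IsOpen (A.O c a) := A.isOpen_O c a
    have hev : ∀ᶠ ζ in 𝓝 z, A.τ c a (s (t ζ)) = ζ := by
      have h1 : ∀ᶠ ζ in 𝓝 z, s (t ζ) ∈ A.O c a :=
        (hs.continuousAt.comp ht.continuousAt).eventually (hopen.mem_nhds hO)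
      have h2 : ∀ᶠ ζ in 𝓝 z, A.γ c (s (t ζ)) = k (t ζ) • g (B.γ b (t ζ)) :=
        ht.continuousAt.eventually he'
      filter_upwards [h1, h2, he, (A.isOpen_U a).mem_nhds hz] with ζ e1 e2 e3 e4
      obtain ⟨e5, e6⟩ := A.trans c a (s (t ζ)) e1.1 e1.2
      have e7 : A.γ a (A.τ c a (s (t ζ))) = (A.h c a (s (t ζ)) * (k (t ζ) * h ζ)) • A.γ a ζ := by
        rw [e6, e2, e3, hg.smul, hgf, smul_smul, smul_smul, mul_assoc]
      exact (A.inj a ζ e4 _ e5 _ e7).1
    have hτ : DifferentiableAt ℂ (A.τ c a) (s (t z)) :=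
      (A.hol_τ c a).differentiableAt (hopen.mem_nhds hO)
    have hst : DifferentiableAt ℂ (fun ζ => s (t ζ)) z :=
      hs.differentiableAt.comp z ht.differentiableAt
    have h3 : jac (fun ζ => A.τ c a (s (t ζ))) z = 1 := by
      have : jac (fun ζ => A.τ c a (s (t ζ))) z = jac (fun ζ : E n => ζ) z := by
        unfold jac
        rw [Filter.EventuallyEq.fderiv_eq hev]
      rw [this, jac_id]
    rw [jac_comp hst hτ, jac_comp ht.differentiableAt hs.differentiableAt] at h3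
    intro h0
    have h4 := congrArg Matrix.det h3
    rw [Matrix.det_mul, Matrix.det_mul, h0, mul_zero, mul_zero, Matrix.det_one] at h4
    exact zero_ne_one h4
  · filter_upwards [he] with ζ hζ
    rw [hζ, inv_smul_smul]

theorem IsBihol.exists_open {A : PolAtlas n Y} {B : PolAtlas n Y'} {f : Y → Y'}
    (hf : IsBihol A B f) (a : A.ι) (z : E n) (hz : z ∈ A.U a) :
    ∃ (b : B.ι) (t : E n → E n) (h : E n → ℂˣ) (V : Set (E n)), IsOpen V ∧ z ∈ V ∧ V ⊆ A.U a ∧
      DifferentiableOn ℂ t V ∧ DifferentiableOn ℂ (fun ζ => (h ζ : ℂ)) V ∧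
      ∀ w ∈ V, t w ∈ B.U b ∧ (jac t w).det ≠ 0 ∧ f (A.γ a w) = h w • B.γ b (t w) := by
  obtain ⟨b, t, h, ht, hh, hb, hj, he⟩ := hf.loc a z hz
  have hdo : DifferentiableOn ℂ t {w | AnalyticAt ℂ t w} := fun w hw =>
    hw.differentiableAt.differentiableWithinAt
  have hjc : ContinuousAt (fun w => (jac t w).det) z :=
    ((jac_det_differentiableOn (isOpen_analyticAt ℂ t) hdo).differentiableAt
      ((isOpen_analyticAt ℂ t).mem_nhds ht)).continuousAt
  have hev : ∀ᶠ w in 𝓝 z, AnalyticAt ℂ t w ∧ AnalyticAt ℂ (fun ζ => (h ζ : ℂ)) w ∧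
      t w ∈ B.U b ∧ (jac t w).det ≠ 0 ∧ f (A.γ a w) = h w • B.γ b (t w) ∧ w ∈ A.U a := by
    filter_upwards [ht.eventually_analyticAt, hh.eventually_analyticAt,
      ht.continuousAt.eventually ((B.isOpen_U b).mem_nhds hb), hjc.eventually_ne hj, he,
      (A.isOpen_U a).mem_nhds hz] with w h1 h2 h3 h4 h5 h6
    exact ⟨h1, h2, h3, h4, h5, h6⟩
  obtain ⟨V, hVs, hV, hzV⟩ := eventually_nhds_iff.1 hev
  exact ⟨b, t, h, V, hV, hzV, fun w hw => (hVs w hw).2.2.2.2.2,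
    fun w hw => (hVs w hw).1.differentiableAt.differentiableWithinAt,
    fun w hw => (hVs w hw).2.1.differentiableAt.differentiableWithinAt,
    fun w hw => ⟨(hVs w hw).2.2.1, (hVs w hw).2.2.2.1, (hVs w hw).2.2.2.2.1⟩⟩

theorem IsBihol.isHol {A : PolAtlas n Y} {B : PolAtlas n Y'} {f : Y → Y'}
    (hf : IsBihol A B f) : IsHol A B f := by
  refine ⟨hf.smul, fun a z hz => ?_⟩
  obtain ⟨b, t, h, ht, hh, hb, hj, he⟩ := hf.loc a z hz
  refine ⟨b, t z, hb, t, fun ζ => (h ζ)⁻¹, ht, ?_, rfl, ?_⟩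
  · have : AnalyticAt ℂ (fun ζ => ((h ζ : ℂ))⁻¹) z := hh.inv (h z).ne_zero
    simpa only [Units.val_inv_eq_inv_val] using this
  · filter_upwards [he] with ζ hζ
    rw [hζ, inv_smul_smul]

theorem isBihol_id (A : PolAtlas n Y) : IsBihol A A id :=
  (isHol_id A).isBihol (isHol_id A) fun _ => rfl

theorem IsBihol.comp {A : PolAtlas n Y} {B : PolAtlas n Y'} {C : PolAtlas n Y''} {f : Y → Y'}
    {g : Y' → Y''} (hg : IsBihol B C g) (hf : IsBihol A B f) : IsBihol A C (g ∘ f) := by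
  refine ⟨fun c y => ?_, fun a z hz => ?_⟩
  · simp only [Function.comp]
    rw [hf.smul, hg.smul]
  · obtain ⟨b, t, h, ht, hh, hb, hj, he⟩ := hf.loc a z hz
    obtain ⟨c, s, k, hs, hk, hc, hj', he'⟩ := hg.loc b _ hb
    refine ⟨c, fun w => s (t w), fun w => h w * k (t w), hs.comp ht, ?_, hc, ?_, ?_⟩
    · have h3 : AnalyticAt ℂ (fun ζ => ((k (t ζ) : ℂˣ) : ℂ)) z :=
        AnalyticAt.comp (g := fun ζ => ((k ζ : ℂˣ) : ℂ)) (f := t) hk ht
      exact (hh.mul h3).congr (Filter.Eventually.of_forall fun ζ => (Units.val_mul _ _).symm)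
    · rw [jac_comp ht.differentiableAt hs.differentiableAt, Matrix.det_mul]
      exact mul_ne_zero hj' hj
    · filter_upwards [he, ht.continuousAt.eventually he'] with ζ e1 e2
      simp only [Function.comp]
      rw [e1, hg.smul, e2, smul_smul]

/-- the potentials of `H ∘ f` -/
theorem pot_comp {A : PolAtlas n Y} {B : PolAtlas n Y'} {f : Y → Y'} {H : Y' → ℝ}
    (hpos : ∀ y, 0 < H y) (hhom : ∀ (c : ℂˣ) y, H (c • y) = ‖(c : ℂ)‖ ^ 2 * H y)
    {a : A.ι} {b : B.ι} {w w' : E n} {c : ℂˣ} (h : f (A.γ a w) = c • B.γ b w') :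
    A.pot (fun y => H (f y)) a w = Real.log (‖(c : ℂ)‖ ^ 2) + B.pot H b w' := by
  unfold PolAtlas.pot
  simp only
  rw [h, hhom, Real.log_mul (by simp) (hpos _).ne']

section ppull

variable {A : PolAtlas n Y} {B : PolAtlas n Y'} {f : Y → Y'} {H : Y' → ℝ}

theorem PolAtlas.IsKahler.smNear (hH : B.IsKahler H) {b : B.ι} {z : E n} (hz : z ∈ B.U b) :
    SmNear (B.pot H b) z := SmNear.of_contDiffOn (B.isOpen_U b) (hH.smooth b) hz

theorem IsBihol.exists_pull (hf : IsBihol A B f) (hH : B.IsKahler H) (a : A.ι) (z : E n)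
    (hz : z ∈ A.U a) : ∃ (b : B.ι) (t : E n → E n) (h : E n → ℂ) (V : Set (E n)), IsOpen V ∧
      z ∈ V ∧ DifferentiableOn ℂ t V ∧ DifferentiableOn ℂ h V ∧ (∀ w ∈ V, h w ≠ 0) ∧
      (∀ w ∈ V, (jac t w).det ≠ 0) ∧ (∀ w ∈ V, t w ∈ B.U b) ∧
      A.pot (fun y => H (f y)) a =ᶠ[𝓝 z] ppull t h (B.pot H b) := by
  obtain ⟨b, t, h, V, hV, hzV, hVU, ht, hh, hw⟩ := hf.exists_open a z hz
  refine ⟨b, t, fun ζ => (h ζ : ℂ), V, hV, hzV, ht, hh, fun w _ => (h w).ne_zero,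
    fun w hwV => (hw w hwV).2.1, fun w hwV => (hw w hwV).1, ?_⟩
  filter_upwards [hV.mem_nhds hzV] with w hwV
  exact pot_comp hH.pos hH.hom (hw w hwV).2.2

/-- The pull-back of a Kähler metric under a locally biholomorphic map. -/
theorem IsBihol.isKahler (hf : IsBihol A B f) (hH : B.IsKahler H) :
    A.IsKahler (fun y => H (f y)) where
  pos y := hH.pos _
  hom c y := by
    rw [hf.smul, hH.hom]
  smooth a := by
    intro z hz
    obtain ⟨b, t, h, V, hV, hzV, ht, hh, h0, hJ, hB, he⟩ := hf.exists_pull hH a z hz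
    have h1 : SmNear (ppull t h (B.pot H b)) z :=
      smNear_pull hV ht hh h0 hzV (hH.smNear (hB z hzV))
    exact (h1.at.congr_of_eventuallyEq he).contDiffWithinAt
  posDef a z hz := by
    obtain ⟨b, t, h, V, hV, hzV, ht, hh, h0, hJ, hB, he⟩ := hf.exists_pull hH a z hz
    rw [hess_congr he, hess_ppull hV ht hh h0 hzV (hH.smNear (hB z hzV))]
    exact posDef_comp (hH.posDef b _ (hB z hzV)) (hJ z hzV)

/-- The pull-back of a csc metric under a locally biholomorphic map. -/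
theorem IsBihol.isCsc (hf : IsBihol A B f) (hH : B.IsKahler H) {s : ℂ} (hs : B.IsCsc H s) :
    A.IsCsc (fun y => H (f y)) s := by
  intro a z hz
  obtain ⟨b, t, h, V, hV, hzV, ht, hh, h0, hJ, hB, he⟩ := hf.exists_pull hH a z hz
  have hp : ∀ᶠ w in 𝓝 (t z), (hess (B.pot H b) w).PosDef := by
    filter_upwards [(B.isOpen_U b).mem_nhds (hB z hzV)] with w hw
    exact hH.posDef b w hw
  rw [scal_congr he, scal_pull hV ht hh h0 hJ hzV (hH.smNear (hB z hzV)) hp]
  exact hs b _ (hB z hzV)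

end ppull

end

end Pool.Agent.YTDA
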