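import Pool.Agent.YTDA.Mfd3

/-!
# A Kähler metric on the manifold of a polarized atlas
-/

namespace Pool.Agent.YTDA

open Complex Set Topology ContDiff Manifold ComplexOrder Module Filter Pl

noncomputable section

namespace PolAtlas

variable {n : ℕ} {Y : Type} [MulAction ℂˣ Y] (A : PolAtlas n Y)

variable {A} in
/-- The metric on the line bundle given by a hermitian metric on `Y`. -/
def toKMetric {H : Y → ℝ} (hH : A.IsKahler H) : A.lb.KMetric where
  h (a : A.ι) x := (H (A.γ a (A.co a x)))⁻¹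
  pos a x _ := inv_pos.2 (hH.pos _)
  smooth := by
    intro (a : A.ι)
    have h1 : ContMDiffOn 𝓘(ℝ, E n) 𝓘(ℝ) ∞ (fun x => (H (A.γ a (A.co a x)))⁻¹) (A.dom a) := by
      rw [A.smooth_dom_iff]
      have h2 : ContDiffOn ℝ ∞ (fun z => Real.exp (-A.pot H a z)) (A.U a) := (hH.smooth a).neg.exp
      apply h2.congr
      intro z hz
      simp only [A.co_par hz]
      unfold pot
      rw [Real.exp_neg, Real.exp_log (hH.pos _)]
    exact h1
  trans := by
    intro (a : A.ι) (b : A.ι) x hx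
    have hg : ‖(A.gg a b x : ℂ)‖ ≠ 0 := norm_ne_zero_iff.2 (A.gg a b x).ne_zero
    have h1 : (H (A.γ b (A.co b x)))⁻¹ =
        ‖(A.gg a b x : ℂ)‖ ^ 2 * (H (A.γ a (A.co a x)))⁻¹ := by
      rw [A.γ_co hx.1 hx.2, hH.hom]
      have h0 := (hH.pos (A.γ b (A.co b x))).ne'
      field_simp
    exact h1
  posDef := by
    rintro (a : A.ι) φ ⟨b, rfl⟩ z (hz : z ∈ A.U b) (hza : A.par b z ∈ A.dom a)
    have hzO : z ∈ A.O b a := (A.mem_dom_par hz).1 hza
    have h1 : (fun w => -Real.log ((H (A.γ a (A.co a ((A.chart b).symm w))))⁻¹)) =ᶠ[𝓝 z]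
        fun w => Real.log (‖(A.h b a w : ℂ)‖ ^ 2) + A.pot H b w := by
      filter_upwards [(A.O_open b a).mem_nhds hzO] with w hw
      rw [A.chart_symm_apply, A.co_par' hw, A.γ_τ hw, hH.hom, Real.log_inv, neg_neg,
        Real.log_mul _ (hH.pos _).ne']
      · rfl
      · exact pow_ne_zero _ (norm_ne_zero_iff.2 (A.h b a w).ne_zero)
    rw [hess_congr h1]
    have h2 : SmNear (fun w => Real.log (‖(A.h b a w : ℂ)‖ ^ 2)) z := by
      apply SmNear.of_contDiffOn (A.O_open b a) _ hzO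
      have h3 : ContDiffOn ℝ ∞ (fun w => (A.h b a w : ℂ)) (A.O b a) :=
        Holo.contDiffOn_real (A.O_open b a) (A.hol_h' b a)
      apply ContDiffOn.log
      · exact h3.norm_sq ℝ
      · intro w _
        exact pow_ne_zero _ (norm_ne_zero_iff.2 (A.h b a w).ne_zero)
    have h4 : SmNear (A.pot H b) z := SmNear.of_contDiffOn (A.isOpen_U b) (hH.smooth b) hz
    rw [hess_add h2 h4, Pl.hess_log_norm (A.O_open b a) (A.hol_h' b a)
      (fun w _ => (A.h b a w).ne_zero) hzO, zero_add]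
    exact hH.posDef b z hz

end PolAtlas

end

end Pool.Agent.YTDA
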