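import Pool.Agent.YTDA.Amp
import Pool.Agent.YTDA.Mfd4
import Pool.Agent.YTDA.Bihol

/-!
# Three commuting involutions generating a free action
-/

namespace Pool.Agent.YTDA

open Complex Set Topology ContDiff Manifold ComplexOrder Module Filter

noncomputable section

/-- The group `(ℤ/2)³`. -/
abbrev G3 : Type := Multiplicative (ZMod 2 × ZMod 2 × ZMod 2)

/-- The power of an involution. -/
def pw {Y : Type} (f : Y → Y) (i : ZMod 2) (y : Y) : Y := if i = 0 then y else f y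

theorem pw_zero {Y : Type} (f : Y → Y) (y : Y) : pw f 0 y = y := if_pos rfl

theorem pw_one {Y : Type} (f : Y → Y) (y : Y) : pw f 1 y = f y := if_neg one_ne_zero

theorem zmod2_cases (i : ZMod 2) : i = 0 ∨ i = 1 := by
  revert i
  decide

theorem pw_add {Y : Type} {f : Y → Y} (hf : ∀ y, f (f y) = y) (i j : ZMod 2) (y : Y) :
    pw f (i + j) y = pw f i (pw f j y) := by
  have h11 : (1 : ZMod 2) + 1 = 0 := by decide
  rcases zmod2_cases i with rfl | rfl <;> rcases zmod2_cases j with rfl | rfl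
  · rw [add_zero, pw_zero, pw_zero]
  · rw [zero_add, pw_zero]
  · rw [add_zero, pw_zero]
  · rw [h11, pw_zero, pw_one, pw_one, hf]

theorem pw_comm {Y : Type} {f g : Y → Y} (h : ∀ y, f (g y) = g (f y)) (i j : ZMod 2) (y : Y) :
    pw f i (pw g j y) = pw g j (pw f i y) := by
  rcases zmod2_cases i with rfl | rfl <;> rcases zmod2_cases j with rfl | rfl <;>
    simp only [pw_zero, pw_one, h]

theorem pw_smul {Y : Type} [MulAction ℂˣ Y] {f : Y → Y} (h : ∀ (c : ℂˣ) y, f (c • y) = c • f y)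
    (i : ZMod 2) (c : ℂˣ) (y : Y) : pw f i (c • y) = c • pw f i y := by
  rcases zmod2_cases i with rfl | rfl <;> simp only [pw_zero, pw_one, h]

/-- Three commuting involutions. -/
structure Inv3 (Y : Type) [MulAction ℂˣ Y] where
  e₁ : Y → Y
  e₂ : Y → Y
  e₃ : Y → Y
  smul₁ : ∀ (c : ℂˣ) y, e₁ (c • y) = c • e₁ y
  smul₂ : ∀ (c : ℂˣ) y, e₂ (c • y) = c • e₂ y
  smul₃ : ∀ (c : ℂˣ) y, e₃ (c • y) = c • e₃ y
  sq₁ : ∀ y, e₁ (e₁ y) = y
  sq₂ : ∀ y, e₂ (e₂ y) = y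
  sq₃ : ∀ y, e₃ (e₃ y) = y
  comm₁₂ : ∀ y, e₁ (e₂ y) = e₂ (e₁ y)
  comm₁₃ : ∀ y, e₁ (e₃ y) = e₃ (e₁ y)
  comm₂₃ : ∀ y, e₂ (e₃ y) = e₃ (e₂ y)

namespace Inv3

variable {Y : Type} [MulAction ℂˣ Y] (e : Inv3 Y)

/-- The action of the group. -/
@[reducible] def act : MulAction G3 Y where
  smul g y := pw e.e₁ g.toAdd.1 (pw e.e₂ g.toAdd.2.1 (pw e.e₃ g.toAdd.2.2 y))
  one_smul y := by
    show pw e.e₁ 0 (pw e.e₂ 0 (pw e.e₃ 0 y)) = y
    rw [pw_zero, pw_zero, pw_zero]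
  mul_smul g g' y := by
    show pw e.e₁ (g.toAdd.1 + g'.toAdd.1) (pw e.e₂ (g.toAdd.2.1 + g'.toAdd.2.1)
      (pw e.e₃ (g.toAdd.2.2 + g'.toAdd.2.2) y)) =
      pw e.e₁ g.toAdd.1 (pw e.e₂ g.toAdd.2.1 (pw e.e₃ g.toAdd.2.2
      (pw e.e₁ g'.toAdd.1 (pw e.e₂ g'.toAdd.2.1 (pw e.e₃ g'.toAdd.2.2 y)))))
    rw [pw_add e.sq₁, pw_add e.sq₂, pw_add e.sq₃,
      ← pw_comm e.comm₁₃ g'.toAdd.1 g.toAdd.2.2, ← pw_comm e.comm₂₃ g'.toAdd.2.1 g.toAdd.2.2,
      ← pw_comm e.comm₁₂ g'.toAdd.1 g.toAdd.2.1]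

theorem smul_def (g : G3) (y : Y) : (e.act.smul g y) =
    pw e.e₁ g.toAdd.1 (pw e.e₂ g.toAdd.2.1 (pw e.e₃ g.toAdd.2.2 y)) := rfl

/-- The subgroup acts freely on `Y / ℂˣ`. -/
structure Free : Prop where
  f₁ : ∀ y (c : ℂˣ), e.e₁ y ≠ c • y
  f₂ : ∀ y (c : ℂˣ), e.e₂ y ≠ c • y
  f₃ : ∀ y (c : ℂˣ), e.e₃ y ≠ c • y
  f₁₂ : ∀ y (c : ℂˣ), e.e₁ (e.e₂ y) ≠ c • y
  f₁₃ : ∀ y (c : ℂˣ), e.e₁ (e.e₃ y) ≠ c • y
  f₂₃ : ∀ y (c : ℂˣ), e.e₂ (e.e₃ y) ≠ c • y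
  f₁₂₃ : ∀ y (c : ℂˣ), e.e₁ (e.e₂ (e.e₃ y)) ≠ c • y

theorem commClass : @SMulCommClass G3 ℂˣ Y e.act.toSMul _ := by
  let _ := e.act
  refine ⟨fun g c y => ?_⟩
  show pw e.e₁ g.toAdd.1 (pw e.e₂ g.toAdd.2.1 (pw e.e₃ g.toAdd.2.2 (c • y))) =
    c • pw e.e₁ g.toAdd.1 (pw e.e₂ g.toAdd.2.1 (pw e.e₃ g.toAdd.2.2 y))
  rw [pw_smul e.smul₃, pw_smul e.smul₂, pw_smul e.smul₁]

theorem _root_.Pool.Agent.YTDA.IsHol.pw {n : ℕ} {A : PolAtlas n Y} {f : Y → Y} (hf : IsHol A A f)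
    (i : ZMod 2) : IsHol A A (pw f i) := by
  rcases zmod2_cases i with rfl | rfl
  · have : YTDA.pw f 0 = id := by
      funext y
      exact pw_zero f y
    rw [this]
    exact isHol_id A
  · have : YTDA.pw f 1 = f := by
      funext y
      exact pw_one f y
    rw [this]
    exact hf

variable {e} in
theorem Free.freeAct (he : e.Free) {n : ℕ} {A : PolAtlas n Y} (h₁ : IsHol A A e.e₁)
    (h₂ : IsHol A A e.e₂) (h₃ : IsHol A A e.e₃) :
    @PolAtlas.FreeAct n Y _ A G3 _ e.act := by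
  let _ := e.act
  constructor
  · intro g a z hz
    have hg : IsHol A A fun y => pw e.e₁ g.toAdd.1 (pw e.e₂ g.toAdd.2.1 (pw e.e₃ g.toAdd.2.2 y)) :=
      (h₁.pw _).comp ((h₂.pw _).comp (h₃.pw _))
    obtain ⟨b, z', hz', t, m, ht, hm, htz, hev⟩ := hg.loc a z hz
    have hev2 : ∀ᶠ w in 𝓝 z, AnalyticAt ℂ t w ∧ AnalyticAt ℂ (fun ζ => (m ζ : ℂ)) w ∧
        t w ∈ A.U b ∧ w ∈ A.U a ∧ A.γ b (t w) = m w • pw e.e₁ g.toAdd.1 (pw e.e₂ g.toAdd.2.1
          (pw e.e₃ g.toAdd.2.2 (A.γ a w))) := by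
      filter_upwards [ht.eventually_analyticAt, hm.eventually_analyticAt,
        ht.continuousAt.eventually ((A.isOpen_U b).mem_nhds (by rw [htz]; exact hz')),
        (A.isOpen_U a).mem_nhds hz, hev] with w h1 h2 h3 h4 h5
      exact ⟨h1, h2, h3, h4, h5⟩
    obtain ⟨O, hOs, hO, hzO⟩ := eventually_nhds_iff.1 hev2
    refine ⟨b, O, t, fun w => (m w)⁻¹, hO, hzO, fun w hw => (hOs w hw).2.2.2.1,
      fun w hw => (hOs w hw).1.differentiableAt.differentiableWithinAt, ?_,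
      fun w hw => ⟨(hOs w hw).2.2.1, ?_⟩⟩
    · intro w hw
      have h6 := ((hOs w hw).2.1.differentiableAt.inv (m w).ne_zero)
      have h7 : (fun w => (((m w)⁻¹ : ℂˣ) : ℂ)) = fun w => ((m w : ℂ))⁻¹ := by
        funext w
        exact Units.val_inv_eq_inv_val _
      rw [h7]
      exact h6.differentiableWithinAt
    · rw [(hOs w hw).2.2.2.2, inv_smul_smul]
      rfl
  · intro g y c h
    have h' : pw e.e₁ g.toAdd.1 (pw e.e₂ g.toAdd.2.1 (pw e.e₃ g.toAdd.2.2 y)) = c • y := h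
    obtain ⟨⟨i, j, k⟩, rfl⟩ := Multiplicative.ofAdd.surjective g
    simp only [toAdd_ofAdd] at h'
    rcases zmod2_cases i with rfl | rfl <;> rcases zmod2_cases j with rfl | rfl <;>
      rcases zmod2_cases k with rfl | rfl <;> simp only [pw_zero, pw_one] at h'
    · rfl
    · exact absurd h' (he.f₃ _ _)
    · exact absurd h' (he.f₂ _ _)
    · exact absurd h' (he.f₂₃ _ _)
    · exact absurd h' (he.f₁ _ _)
    · exact absurd h' (he.f₁₃ _ _)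
    · exact absurd h' (he.f₁₂ _ _)
    · exact absurd h' (he.f₁₂₃ _ _)

/-- Invariance under the group. -/
theorem inv_iff {β : Type} (F : Y → β) : (∀ (g : G3) y, F (e.act.smul g y) = F y) ↔
    (∀ y, F (e.e₁ y) = F y) ∧ (∀ y, F (e.e₂ y) = F y) ∧ ∀ y, F (e.e₃ y) = F y := by
  constructor
  · intro h
    refine ⟨fun y => ?_, fun y => ?_, fun y => ?_⟩
    · have := h (Multiplicative.ofAdd (1, 0, 0)) y
      rw [smul_def] at this
      simpa only [toAdd_ofAdd, pw_zero, pw_one] using this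
    · have := h (Multiplicative.ofAdd (0, 1, 0)) y
      rw [smul_def] at this
      simpa only [toAdd_ofAdd, pw_zero, pw_one] using this
    · have := h (Multiplicative.ofAdd (0, 0, 1)) y
      rw [smul_def] at this
      simpa only [toAdd_ofAdd, pw_zero, pw_one] using this
  · rintro ⟨h1, h2, h3⟩ g y
    have key : ∀ (f : Y → Y), (∀ y, F (f y) = F y) → ∀ i y, F (pw f i y) = F y := by
      intro f hf i y
      rcases zmod2_cases i with rfl | rfl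
      · rw [pw_zero]
      · rw [pw_one, hf]
    rw [smul_def, key _ h1, key _ h2, key _ h3]

end Inv3

end

end Pool.Agent.YTDA
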