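import Pool.Agent.YTDA.P1Map

/-!
# Holomorphic maps of the total space over a product of two projective lines

`P1Y.map f`, `P1Y.gl g` are biholomorphic; the points `mk2 y x x' = [[y, x], x']` of
`P1Y D₁ α' β'` (`D₁` the action induced by `D` on `P1Y D α β`); the maps
`mapY f : [y, x, x'] ↦ [f y, x, x']`, `gl1 g : [y, x, x'] ↦ [y, g x, x']`,
`gl2 g : [y, x, x'] ↦ [y, x, g x']` and `swapX f : [y, x, x'] ↦ [f y, x', x]`.
-/

namespace Pool.Agent.YTDA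

open Complex Set Topology Filter

noncomputable section

variable {n m : ℕ} {Y Y' : Type} [MulAction ℂˣ Y] [MulAction ℂˣ Y']

variable {A : PolAtlas n Y} {F : E m → Y} {z : E m} {D : A.DAct} {α β : ℤ}

/-- the action of `GL₂` on vectors -/
def glv (g : GL (Fin 2) ℂ) (x : V2) : V2 := ⟨g.1.mulVec x.1, by
    intro h
    apply x.2
    have h1 := congrArg (fun v => (g⁻¹).1.mulVec v) h
    simp only [Matrix.mulVec_mulVec, Matrix.mulVec_zero] at h1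
    rwa [← Units.val_mul, inv_mul_cancel, Units.val_one, Matrix.one_mulVec] at h1⟩

theorem coe_glv (g : GL (Fin 2) ℂ) (x : V2) : (glv g x : Fin 2 → ℂ) = g.1.mulVec x.1 := rfl

theorem glv_one (x : V2) : glv 1 x = x := by
  apply Subtype.ext
  rw [coe_glv, Units.val_one, Matrix.one_mulVec]

theorem glv_mul (g h : GL (Fin 2) ℂ) (x : V2) : glv (g * h) x = glv g (glv h x) := by
  apply Subtype.ext
  rw [coe_glv, coe_glv, coe_glv, Units.val_mul, Matrix.mulVec_mulVec]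

theorem glv_smul (g : GL (Fin 2) ℂ) (c : ℂˣ) (x : V2) : glv g (c • x) = c • glv g x := by
  apply Subtype.ext
  rw [coe_glv, V2.coe_smul, V2.coe_smul, Matrix.mulVec_smul, coe_glv]

theorem analyticAt_glv (g : GL (Fin 2) ℂ) {v : E m → V2}
    (hv : AnalyticAt ℂ (fun ζ => (v ζ : Fin 2 → ℂ)) z) :
    AnalyticAt ℂ (fun ζ => (glv g (v ζ) : Fin 2 → ℂ)) z := by
  have hv' := analyticAt_pi_iff.1 hv
  rw [analyticAt_pi_iff]
  intro i
  have h : AnalyticAt ℂ (fun ζ => g.1 i 0 * (v ζ).1 0 + g.1 i 1 * (v ζ).1 1) z :=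
    (analyticAt_const.fun_mul (hv' 0)).fun_add (analyticAt_const.fun_mul (hv' 1))
  refine h.congr (Eventually.of_forall fun ζ => ?_)
  show _ = (g.1.mulVec (v ζ).1) i
  rw [Matrix.mulVec, dotProduct, Fin.sum_univ_two]

namespace P1Y

theorem gl_mk (g : GL (Fin 2) ℂ) (y : Y) (x : V2) :
    gl g (mk y x : P1Y D α β) = mk y (glv g x) := rfl

theorem gl_smul (g : GL (Fin 2) ℂ) (c : ℂˣ) (p : P1Y D α β) : gl g (c • p) = c • gl g p := by
  obtain ⟨y, x, rfl⟩ := exists_mk p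
  rfl

theorem gl_one (p : P1Y D α β) : gl 1 p = p := by
  obtain ⟨y, x, rfl⟩ := exists_mk p
  rw [gl_mk, glv_one]

theorem gl_mul (g h : GL (Fin 2) ℂ) (p : P1Y D α β) : gl (g * h) p = gl g (gl h p) := by
  obtain ⟨y, x, rfl⟩ := exists_mk p
  rw [gl_mk, gl_mk, gl_mk, glv_mul]

theorem gl_inv_gl (g : GL (Fin 2) ℂ) (p : P1Y D α β) : gl g⁻¹ (gl g p) = p := by
  rw [← gl_mul, inv_mul_cancel, gl_one]

theorem map_smul (f : Y → Y) (hf : ∀ (c : ℂˣ) y, f (c • y) = c • f y)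
    (hf' : ∀ (c : ℂˣ) y, f (D.act c y) = D.act c (f y)) (c : ℂˣ) (p : P1Y D α β) :
    map f hf hf' (c • p) = c • map f hf hf' p := by
  obtain ⟨y, x, rfl⟩ := exists_mk p
  rw [smul_mk, map_mk, map_mk, hf, smul_mk]

/-- Maps out of `P1Y`. -/
def lift {Z : Type} (F : Y → V2 → Z)
    (h : ∀ (c : ℂˣ) y x, F y (c • x) = F (c ^ α • D.act (c ^ β) y) x) : P1Y D α β → Z :=
  Quotient.lift (fun p => F p.1 p.2) (by
    rintro ⟨y, x⟩ ⟨y', x'⟩ ⟨c, h1, h2⟩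
    simp only at h1 h2 ⊢
    rw [h1, h, h2])

theorem lift_mk {Z : Type} (F : Y → V2 → Z)
    (h : ∀ (c : ℂˣ) y x, F y (c • x) = F (c ^ α • D.act (c ^ β) y) x) (y : Y) (x : V2) :
    lift F h (mk y x : P1Y D α β) = F y x := rfl

variable {P : PolAtlas (n + 1) (P1Y D α β)}

/-- Maps of the fibre extend to holomorphic maps. -/
theorem isHol_map (hP : P1At P) {f : Y → Y} (h : IsHol A A f)
    (hf : ∀ (c : ℂˣ) y, f (c • y) = c • f y)
    (hf' : ∀ (c : ℂˣ) y, f (D.act c y) = D.act c (f y)) : IsHol P P (map f hf hf') := by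
  refine hP.isHol (fun c y x => ?_) fun a b z hz => ?_
  · rw [map_mk, map_mk, hf, smul_mk]
  · exact (h.holAt (holAt_frame A (analyticAt_castSucc z) hz)).mk hP
      (analyticAt_vec (analyticAt_coord _ z))

theorem isBihol_map (hP : P1At P) {f f' : Y → Y} (h : IsHol A A f) (h' : IsHol A A f')
    (hff : ∀ y, f' (f y) = y) (hff' : ∀ y, f (f' y) = y)
    (hf : ∀ (c : ℂˣ) y, f (c • y) = c • f y)
    (hf' : ∀ (c : ℂˣ) y, f (D.act c y) = D.act c (f y)) : IsBihol P P (map f hf hf') := by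
  have h1 : ∀ (c : ℂˣ) y, f' (D.act c y) = D.act c (f' y) := fun c y => by
    conv_lhs => rw [← hff' y, ← hf', hff]
  refine (isHol_map hP h hf hf').isBihol (isHol_map hP h' h'.smul h1) fun p => ?_
  obtain ⟨y, x, rfl⟩ := exists_mk p
  rw [map_mk, map_mk, hff]

theorem isHol_gl (hP : P1At P) (g : GL (Fin 2) ℂ) : IsHol P P (gl g) := by
  refine hP.isHol (fun c y x => ?_) fun a b z hz => ?_
  · rw [← smul_mk, gl_smul]
  · exact (holAt_frame A (analyticAt_castSucc z) hz).mk hP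
      (analyticAt_glv g (analyticAt_vec (analyticAt_coord _ z)))

/-- The action of `GL₂` is biholomorphic. -/
theorem isBihol_gl (hP : P1At P) (g : GL (Fin 2) ℂ) : IsBihol P P (gl g) :=
  (isHol_gl hP g).isBihol (isHol_gl hP g⁻¹) (gl_inv_gl g)

end P1Y

/-! ### Two factors -/

variable {P : PolAtlas (n + 1) (P1Y D α β)} {D₁ : P.DAct} {α' β' : ℤ}
  {Q : PolAtlas (n + 1 + 1) (P1Y D₁ α' β')}

/-- the point `[[y, x], x']` -/
def mk2 (y : Y) (x x' : V2) : P1Y D₁ α' β' := P1Y.mk (P1Y.mk y x) x'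

/-- the action `D₁` on `P1Y D α β` is induced by the action `D` on `Y`. -/
def Induced (D₁ : P.DAct) : Prop := ∀ c y x, D₁.act c (P1Y.mk y x) = P1Y.mk (D.act c y) x

theorem exists_mk2 (p : P1Y D₁ α' β') : ∃ y x x', p = mk2 y x x' := by
  obtain ⟨p, x', rfl⟩ := P1Y.exists_mk p
  obtain ⟨y, x, rfl⟩ := P1Y.exists_mk p
  exact ⟨y, x, x', rfl⟩

theorem smul_mk2 (c : ℂˣ) (y : Y) (x x' : V2) :
    c • (mk2 y x x' : P1Y D₁ α' β') = mk2 (c • y) x x' := rfl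

theorem mk2_smul_left (c : ℂˣ) (y : Y) (x x' : V2) :
    (mk2 y (c • x) x' : P1Y D₁ α' β') = mk2 (c ^ α • D.act (c ^ β) y) x x' := by
  unfold mk2
  rw [P1Y.mk_smul]

theorem mk2_smul_right (hD : Induced D₁) (c : ℂˣ) (y : Y) (x x' : V2) :
    (mk2 y x (c • x') : P1Y D₁ α' β') = mk2 (c ^ α' • D.act (c ^ β') y) x x' := by
  unfold mk2
  rw [P1Y.mk_smul, hD, P1Y.smul_mk]

theorem HolAt.mk2 (hP : P1At P) (hQ : P1At Q) (hF : HolAt A F z) {v v' : E m → V2}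
    (hv : AnalyticAt ℂ (fun ζ => (v ζ : Fin 2 → ℂ)) z)
    (hv' : AnalyticAt ℂ (fun ζ => (v' ζ : Fin 2 → ℂ)) z) :
    HolAt Q (fun ζ => (mk2 (F ζ) (v ζ) (v' ζ) : P1Y D₁ α' β')) z :=
  (hF.mk hP hv).mk hQ hv'

/-- Criterion for holomorphy of maps on `P1Y D₁ α' β'`. -/
theorem isHol₂ {Z : Type} [MulAction ℂˣ Z] {C : PolAtlas (n + 1 + 1) Z}
    (hP : P1At P) (hQ : P1At Q) {f : P1Y D₁ α' β' → Z}
    (hs : ∀ (c : ℂˣ) y x x', f (mk2 (c • y) x x') = c • f (mk2 y x x'))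
    (hf : ∀ (G : E (n + 1 + 1) → Y) (v v' : E (n + 1 + 1) → V2) (z : E (n + 1 + 1)),
      HolAt A G z → AnalyticAt ℂ (fun ζ => (v ζ : Fin 2 → ℂ)) z →
      AnalyticAt ℂ (fun ζ => (v' ζ : Fin 2 → ℂ)) z →
      HolAt C (fun ζ => f (mk2 (G ζ) (v ζ) (v' ζ))) z) : IsHol Q C f := by
  refine hQ.isHol (fun c p x' => ?_) fun i b' z hz => ?_
  · obtain ⟨y, x, rfl⟩ := P1Y.exists_mk p
    exact hs c y x x'
  · obtain ⟨a, b, hU, hγ⟩ := hP.chart i
    have hz₀ := hz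
    rw [hU] at hz
    have h1 : AnalyticAt ℂ (fun ζ : E (n + 1 + 1) =>
        (fun j : Fin n => ζ (Fin.castSucc (Fin.castSucc j)) : E n)) z := by
      rw [analyticAt_pi_iff]
      intro j
      exact analyticAt_coord _ z
    have h2 := hf (fun ζ => A.γ a fun j => ζ (Fin.castSucc (Fin.castSucc j)))
      (fun ζ => vec b (ζ (Fin.castSucc (Fin.last n)))) (fun ζ => vec b' (ζ (Fin.last (n + 1)))) z
      (holAt_frame A h1 hz) (analyticAt_vec (analyticAt_coord _ z))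
      (analyticAt_vec (analyticAt_coord _ z))
    refine h2.congr ?_
    filter_upwards [(analyticAt_castSucc z).continuousAt.eventually
      ((P.isOpen_U i).mem_nhds hz₀)] with ζ hζ
    rw [hγ _ hζ]
    rfl

/-- `[y, x, x'] ↦ [f y, x, x']` -/
def mapY (f : Y → Y) (hf : ∀ (c : ℂˣ) y, f (c • y) = c • f y)
    (hf' : ∀ (c : ℂˣ) y, f (D.act c y) = D.act c (f y)) (hD : Induced D₁) :
    P1Y D₁ α' β' → P1Y D₁ α' β' :=
  P1Y.map (P1Y.map f hf hf') (P1Y.map_smul f hf hf') fun c p => by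
    obtain ⟨y, x, rfl⟩ := P1Y.exists_mk p
    rw [hD, P1Y.map_mk, P1Y.map_mk, hD, hf']

/-- `[y, x, x'] ↦ [y, g x, x']` -/
def gl1 (g : GL (Fin 2) ℂ) (hD : Induced D₁) : P1Y D₁ α' β' → P1Y D₁ α' β' :=
  P1Y.map (P1Y.gl g) (P1Y.gl_smul g) fun c p => by
    obtain ⟨y, x, rfl⟩ := P1Y.exists_mk p
    rw [hD, P1Y.gl_mk, P1Y.gl_mk, hD]

/-- `[y, x, x'] ↦ [y, x, g x']` -/
def gl2 (g : GL (Fin 2) ℂ) : P1Y D₁ α' β' → P1Y D₁ α' β' := P1Y.gl g

/-- `[y, x, x'] ↦ [f y, x', x]` for `f` with `f (act c y) = act c⁻¹ (f y)`. -/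
def swapX (f : Y → Y) (hf : ∀ (c : ℂˣ) y, f (c • y) = c • f y)
    (hf' : ∀ (c : ℂˣ) y, f (D.act c y) = D.act c⁻¹ (f y)) (hD : Induced D₁) (hα : α' = α)
    (hβ : β' = -β) : P1Y D₁ α' β' → P1Y D₁ α' β' :=
  P1Y.lift (fun p x' => P1Y.lift (fun y x => mk2 (f y) x' x) (fun c y x => by
      rw [mk2_smul_right hD, hf, hf', hα, hβ, zpow_neg]) p) (fun c p x' => by
    obtain ⟨y, x, rfl⟩ := P1Y.exists_mk p
    rw [hD, P1Y.smul_mk, P1Y.lift_mk, P1Y.lift_mk, mk2_smul_left, hf, hf', hα, hβ, zpow_neg,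
      inv_inv])

section

variable (f : Y → Y) (hf : ∀ (c : ℂˣ) y, f (c • y) = c • f y)
    (hf' : ∀ (c : ℂˣ) y, f (D.act c y) = D.act c (f y)) (hf'' : ∀ (c : ℂˣ) y,
      f (D.act c y) = D.act c⁻¹ (f y)) (hD : Induced D₁) (g : GL (Fin 2) ℂ)

theorem mapY_mk2 (y : Y) (x x' : V2) :
    mapY f hf hf' hD (mk2 y x x' : P1Y D₁ α' β') = mk2 (f y) x x' := rfl

theorem gl1_mk2 (y : Y) (x x' : V2) :
    gl1 g hD (mk2 y x x' : P1Y D₁ α' β') = mk2 y (glv g x) x' := rfl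

theorem gl2_mk2 (y : Y) (x x' : V2) :
    gl2 g (mk2 y x x' : P1Y D₁ α' β') = mk2 y x (glv g x') := rfl

theorem swapX_mk2 (hα : α' = α) (hβ : β' = -β) (y : Y) (x x' : V2) :
    swapX f hf hf'' hD hα hβ (mk2 y x x' : P1Y D₁ α' β') = mk2 (f y) x' x := rfl

theorem isHol_mapY (hP : P1At P) (hQ : P1At Q) (h : IsHol A A f) :
    IsHol Q Q (mapY f hf hf' hD) := by
  refine isHol₂ hP hQ (fun c y x x' => ?_) fun G v v' z hG hv hv' => ?_
  · rw [mapY_mk2, mapY_mk2, smul_mk2, hf]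
  · exact (h.holAt hG).mk2 hP hQ hv hv'

theorem isHol_gl1 (hP : P1At P) (hQ : P1At Q) : IsHol Q Q (gl1 g hD) := by
  refine isHol₂ hP hQ (fun c y x x' => ?_) fun G v v' z hG hv hv' => ?_
  · rw [gl1_mk2, gl1_mk2, smul_mk2]
  · exact hG.mk2 hP hQ (analyticAt_glv g hv) hv'

theorem isBihol_gl1 (hP : P1At P) (hQ : P1At Q) : IsBihol Q Q (gl1 g hD) := by
  refine (isHol_gl1 hD g hP hQ).isBihol (isHol_gl1 hD g⁻¹ hP hQ) fun p => ?_
  obtain ⟨y, x, x', rfl⟩ := exists_mk2 p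
  rw [gl1_mk2, gl1_mk2, ← glv_mul, inv_mul_cancel, glv_one]

theorem isBihol_gl2 (hQ : P1At Q) : IsBihol Q Q (gl2 g) := P1Y.isBihol_gl hQ g

theorem isBihol_mapY (hP : P1At P) (hQ : P1At Q) (h : IsHol A A f) {f' : Y → Y}
    (h' : IsHol A A f') (hff : ∀ y, f' (f y) = y) (hff' : ∀ y, f (f' y) = y) :
    IsBihol Q Q (mapY f hf hf' hD) := by
  have h1 : ∀ (c : ℂˣ) y, f' (D.act c y) = D.act c (f' y) := fun c y => by
    conv_lhs => rw [← hff' y, ← hf', hff]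
  refine (isHol_mapY f hf hf' hD hP hQ h).isBihol
    (isHol_mapY f' h'.smul h1 hD hP hQ h') fun p => ?_
  obtain ⟨y, x, x', rfl⟩ := exists_mk2 p
  rw [mapY_mk2, mapY_mk2, hff]

theorem isHol_swapX (hα : α' = α) (hβ : β' = -β) (hP : P1At P) (hQ : P1At Q)
    (h : IsHol A A f) : IsHol Q Q (swapX f hf hf'' hD hα hβ) := by
  refine isHol₂ hP hQ (fun c y x x' => ?_) fun G v v' z hG hv hv' => ?_
  · rw [swapX_mk2, swapX_mk2, smul_mk2, hf]
  · exact (h.holAt hG).mk2 hP hQ hv' hv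

theorem isBihol_swapX (hα : α' = α) (hβ : β' = -β) (hP : P1At P) (hQ : P1At Q)
    (h : IsHol A A f) {f' : Y → Y} (h' : IsHol A A f') (hff : ∀ y, f' (f y) = y)
    (hff' : ∀ y, f (f' y) = y) : IsBihol Q Q (swapX f hf hf'' hD hα hβ) := by
  have h1 : ∀ (c : ℂˣ) y, f' (D.act c y) = D.act c⁻¹ (f' y) := fun c y => by
    conv_lhs => rw [← hff' y, ← inv_inv c, ← hf'', hff]
  refine (isHol_swapX f hf hf'' hD hα hβ hP hQ h).isBihol
    (isHol_swapX f' h'.smul h1 hD hα hβ hP hQ h') fun p => ?_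
  obtain ⟨y, x, x', rfl⟩ := exists_mk2 p
  rw [swapX_mk2, swapX_mk2, hff]

end

/-! ### Metrics -/

section metric

variable (hD : Induced D₁) (hP : P1At P) (hQ : P1At Q) {H : P1Y D₁ α' β' → ℝ}

include hP hQ in
/-- `H ∘ (g, g')` is Kähler. -/
theorem isKahler_gl (g g' : GL (Fin 2) ℂ) (hH : Q.IsKahler H) :
    Q.IsKahler (fun p => H (gl1 g hD (gl2 g' p))) :=
  ((isBihol_gl1 hD g hP hQ).comp (isBihol_gl2 g' hQ)).isKahler hH

include hP hQ in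
/-- `H ∘ (g, g')` has constant scalar curvature. -/
theorem isCsc_gl (g g' : GL (Fin 2) ℂ) (hH : Q.IsKahler H) {s : ℂ} (hs : Q.IsCsc H s) :
    Q.IsCsc (fun p => H (gl1 g hD (gl2 g' p))) s :=
  ((isBihol_gl1 hD g hP hQ).comp (isBihol_gl2 g' hQ)).isCsc hH hs

end metric

end

end Pool.Agent.YTDA
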