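import Pool.Agent.YTDA.Fld
import Pool.Agent.YTDA.XMap

/-!
# The projection of the surface `Σ` to the curve and the automorphisms of `Σ`
-/

set_option autoImplicit false

namespace Pool.Agent.YTDA

open Complex Set Topology Filter Metric
open Pool.Agent.YTD

noncomputable section

/-- the coordinate of the curve in the chart of type `i` -/
def sc (i : Fin 3) (z : E 2) : ℂ := if i = 2 then z 0 * z 1 else z 0

theorem sc_zero (z : E 2) : sc 0 z = z 0 := if_neg (by decide)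

theorem sc_one (z : E 2) : sc 1 z = z 0 := if_neg (by decide)

theorem sc_two (z : E 2) : sc 2 z = z 0 * z 1 := if_pos rfl

theorem continuous_sc (i : Fin 3) : Continuous (sc i) := by
  unfold sc
  split_ifs
  · exact (continuous_apply 0).mul (continuous_apply 1)
  · exact continuous_apply 0

theorem eq_vec2 (z : E 2) : z = ![z 0, z 1] := by
  ext j
  fin_cases j <;> rfl

namespace SigModel

variable {K : Type} [Field K] [Algebra ℂ K] {T : Datum K} {q : ℕ} {D₀ : T.X.Pt →₀ ℤ}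
  {An : AnCurve T.X.toCurveOrd} (M : SigModel T q D₀ An)

theorem norm_sc_lt {P : T.X.Pt} {i : Fin 3} {z : E 2} (hz : z ∈ M.A.U (M.e (P, i))) :
    ‖sc i z‖ < M.r P := by
  have hi : i = 0 ∨ i = 1 ∨ i = 2 := by
    fin_cases i <;> simp
  rcases hi with rfl | rfl | rfl
  · rw [M.U_bot] at hz
    rw [sc_zero]
    exact hz
  · rw [M.U_top] at hz
    rw [sc_one]
    exact hz
  · by_cases h : P ∈ T.S ∨ P ∈ T.S'
    · rw [M.U_mid P h] at hz
      rw [sc_two]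
      exact hz
    · push Not at h
      rw [M.U_mid' P h.1 h.2] at hz
      exact hz.elim

theorem sc_mem_ball {P : T.X.Pt} {i : Fin 3} {z : E 2} (hz : z ∈ M.A.U (M.e (P, i))) :
    sc i z ∈ ball (0 : ℂ) (M.r P) := mem_ball_zero_iff.2 (M.norm_sc_lt hz)

theorem sc_mem_ball' {P : T.X.Pt} {i : Fin 3} {z : E 2} (hz : z ∈ M.A.U (M.e (P, i))) :
    sc i z ∈ ball (0 : ℂ) (An.r P) :=
  mem_ball_zero_iff.2 ((M.norm_sc_lt hz).trans_le (M.r_le P))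

/-- The generic points of the charts are multiples of the frames `o`. -/
theorem exists_o {P : T.X.Pt} {i : Fin 3} {z : E 2} (hz : z ∈ M.A.U (M.e (P, i)))
    (h0 : z 0 ≠ 0) (h1 : z 1 ≠ 0) :
    sc i z ≠ 0 ∧ ∃ c w : ℂˣ, M.A.γ (M.e (P, i)) z = c • M.o P (sc i z) w := by
  have hlt := M.norm_sc_lt hz
  have hb := M.sc_mem_ball hz
  have hi : i = 0 ∨ i = 1 ∨ i = 2 := by
    fin_cases i <;> simp
  rcases hi with rfl | rfl | rfl
  · rw [sc_zero] at *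
    refine ⟨h0, ?_⟩
    by_cases h : P ∈ T.S'
    · have := M.γ_bot' P h (Units.mk0 _ h0) hlt (Units.mk0 _ h1)
      rw [Units.val_mk0, Units.val_mk0, ← eq_vec2] at this
      exact ⟨_, _, this⟩
    · have := M.γ_bot P h (z 0) hb (Or.inl h0) (Units.mk0 _ h1)
      rw [Units.val_mk0, ← eq_vec2] at this
      exact ⟨_, _, this⟩
  · rw [sc_one] at *
    refine ⟨h0, ?_⟩
    by_cases h : P ∈ T.S
    · have := M.γ_top' P h (Units.mk0 _ h0) hlt (Units.mk0 _ h1)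
      rw [Units.val_mk0, Units.val_mk0, ← eq_vec2] at this
      exact ⟨_, _, this⟩
    · have := M.γ_top P h (z 0) hb (Or.inl h0) (Units.mk0 _ h1)
      rw [Units.val_mk0, ← eq_vec2] at this
      exact ⟨_, _, this⟩
  · rw [sc_two] at *
    refine ⟨mul_ne_zero h0 h1, ?_⟩
    by_cases h : P ∈ T.S
    · have := M.γ_mid P h (Units.mk0 _ h0) (Units.mk0 _ h1) hlt
      rw [Units.val_mk0, Units.val_mk0, ← eq_vec2] at this
      exact ⟨_, _, this⟩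
    · by_cases h' : P ∈ T.S'
      · have := M.γ_mid' P h' (Units.mk0 _ h0) (Units.mk0 _ h1) hlt
        rw [Units.val_mk0, Units.val_mk0, ← eq_vec2] at this
        exact ⟨_, _, this⟩
      · rw [M.U_mid' P h h'] at hz
        exact hz.elim

end SigModel

/-- nearby points are in small discs -/
theorem AnCurve.near {K : Type} [Field K] [Algebra ℂ K] {X : CurveOrd K} (An : AnCurve X)
    {P : X.Pt} {s : ℂ} (hs : s ∈ ball (0 : ℂ) (An.r P)) {ε : ℝ} (hε : 0 < ε) :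
    ∀ᶠ σ in 𝓝 s, ∃ s₁ : ℂ, ‖s₁‖ < ε ∧ An.c (An.c P s) s₁ = An.c P σ := by
  obtain ⟨f, hf, hf0, -, hfc, -⟩ := An.tr P (An.c P s) s hs 0 (mem_ball_self (An.r_pos _))
    (An.c_zero _).symm
  have h1 : ∀ᶠ σ in 𝓝 s, ‖f σ‖ < ε := by
    have : Tendsto (fun σ => ‖f σ‖) (𝓝 s) (𝓝 ‖f s‖) := hf.continuousAt.norm
    rw [hf0, norm_zero] at this
    exact this.eventually (gt_mem_nhds hε)
  filter_upwards [h1, hfc] with σ h2 h3
  exact ⟨f σ, h2, h3⟩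

namespace SigModel

variable {K : Type} [Field K] [Algebra ℂ K] {T : Datum K} {q : ℕ} {D₀ : T.X.Pt →₀ ℤ}
  {An : AnCurve T.X.toCurveOrd} (M : SigModel T q D₀ An)

/-- The point of the curve is well-defined. -/
theorem bp_eq {P Q : T.X.Pt} {i j : Fin 3} {z z' : E 2} (hz : z ∈ M.A.U (M.e (P, i)))
    (hz' : z' ∈ M.A.U (M.e (Q, j))) {c : ℂˣ}
    (h : M.A.γ (M.e (Q, j)) z' = c • M.A.γ (M.e (P, i)) z) :
    An.c P (sc i z) = An.c Q (sc j z') := by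
  by_contra hne
  obtain ⟨ε, hε, ht⟩ := An.t2 _ _ hne
  set a := M.e (P, i) with ha
  set b := M.e (Q, j) with hb
  have hO : z ∈ M.A.O a b := PolAtlas.mem_O_mk hz hz' h
  have hτ : M.A.τ a b z = z' := PolAtlas.τ_eq_of hz hz' h
  have hopen := PolAtlas.isOpen_O' (A := M.A) a b
  have hopen' := PolAtlas.isOpen_O' (A := M.A) b a
  have E1 : ∀ᶠ w in 𝓝 z, ∃ s₁ : ℂ, ‖s₁‖ < ε ∧ An.c (An.c P (sc i z)) s₁ = An.c P (sc i w) :=
    (continuous_sc i).continuousAt.eventually (An.near (M.sc_mem_ball' hz) hε)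
  have E2 : ∀ᶠ w in 𝓝 z', ∃ s₁ : ℂ, ‖s₁‖ < ε ∧ An.c (An.c Q (sc j z')) s₁ = An.c Q (sc j w) :=
    (continuous_sc j).continuousAt.eventually (An.near (M.sc_mem_ball' hz') hε)
  have hcont : ContinuousAt (M.A.τ a b) z :=
    ((M.A.hol_τ a b).differentiableAt (hopen.mem_nhds hO)).continuousAt
  have E3 : ∀ᶠ w in 𝓝 z, ∃ s₁ : ℂ, ‖s₁‖ < ε ∧
      An.c (An.c Q (sc j z')) s₁ = An.c Q (sc j (M.A.τ a b w)) := by
    have : Tendsto (M.A.τ a b) (𝓝 z) (𝓝 z') := by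
      have h1 : Tendsto (M.A.τ a b) (𝓝 z) (𝓝 (M.A.τ a b z)) := hcont
      rwa [hτ] at h1
    exact this.eventually E2
  obtain ⟨V, hV, hVo, hzV⟩ := _root_.eventually_nhds_iff.1 ((E1.and E3).and (hopen.mem_nhds hO))
  obtain ⟨w₁, hw₁V, hw₁⟩ := (PolAtlas.dense_nz 2).inter_open_nonempty V hVo ⟨z, hzV⟩
  have hO₁ : w₁ ∈ M.A.O a b := (hV w₁ hw₁V).2
  obtain ⟨e1, e2⟩ := M.A.trans a b w₁ hO₁.1 hO₁.2
  have e3 : M.A.γ a w₁ = (M.A.h a b w₁)⁻¹ • M.A.γ b (M.A.τ a b w₁) := by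
    rw [e2, inv_smul_smul]
  have hO₂ : M.A.τ a b w₁ ∈ M.A.O b a := PolAtlas.mem_O_mk e1 hO₁.1 e3
  have hτ₂ : M.A.τ b a (M.A.τ a b w₁) = w₁ := PolAtlas.τ_eq_of e1 hO₁.1 e3
  have hcont₂ : Tendsto (M.A.τ b a) (𝓝 (M.A.τ a b w₁)) (𝓝 w₁) := by
    have h1 : ContinuousAt (M.A.τ b a) (M.A.τ a b w₁) :=
      ((M.A.hol_τ b a).differentiableAt (hopen'.mem_nhds hO₂)).continuousAt
    have h2 : Tendsto (M.A.τ b a) (𝓝 (M.A.τ a b w₁)) (𝓝 (M.A.τ b a (M.A.τ a b w₁))) := h1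
    rwa [hτ₂] at h2
  have E4 : ∀ᶠ w in 𝓝 w₁, w ∈ V ∧ w 0 ≠ 0 ∧ w 1 ≠ 0 := by
    filter_upwards [hVo.mem_nhds hw₁V,
      (continuous_apply (0 : Fin 2)).continuousAt.eventually_ne (hw₁ 0),
      (continuous_apply (1 : Fin 2)).continuousAt.eventually_ne (hw₁ 1)] with w h1 h2 h3
    exact ⟨h1, h2, h3⟩
  obtain ⟨V', hV', hVo', hzV'⟩ := _root_.eventually_nhds_iff.1
    ((hcont₂.eventually E4).and (hopen'.mem_nhds hO₂))
  obtain ⟨w', hw'V, hw'⟩ := (PolAtlas.dense_nz 2).inter_open_nonempty V' hVo' ⟨_, hzV'⟩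
  obtain ⟨⟨f1, f2, f3⟩, f4⟩ := hV' w' hw'V
  obtain ⟨g1, g2⟩ := M.A.trans b a w' f4.1 f4.2
  set w := M.A.τ b a w' with hw
  have g3 : M.A.γ b w' = (M.A.h b a w')⁻¹ • M.A.γ a w := by
    rw [g2, inv_smul_smul]
  have hτ₃ : M.A.τ a b w = w' := PolAtlas.τ_eq_of g1 f4.1 g3
  obtain ⟨⟨⟨s₁, hs₁, k1⟩, s₂, hs₂, k2⟩, -⟩ := hV w f1
  rw [hτ₃] at k2
  obtain ⟨l1, c₁, v₁, l2⟩ := M.exists_o g1 f2 f3
  obtain ⟨l3, c₂, v₂, l4⟩ := M.exists_o f4.1 (hw' 0) (hw' 1)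
  have l5 : M.o P (sc i w) v₁ = (c₁⁻¹ * (M.A.h b a w') * c₂) • M.o Q (sc j w') v₂ := by
    rw [mul_smul, mul_smul, ← l4, eq_inv_smul_iff, ← l2, g3, smul_inv_smul]
  obtain ⟨l6, -⟩ := M.o_inj P Q (sc i w) (M.sc_mem_ball g1) (sc j w') (M.sc_mem_ball f4.1)
    (Or.inl l1) (Or.inl l3) v₁ v₂ _ l5
  exact ht s₁ s₂ hs₁ hs₂ (by rw [k1, k2, l6])

theorem exists_rep (y : M.Y) : ∃ P i, ∃ z ∈ M.A.U (M.e (P, i)), ∃ c : ℂˣ,
    y = c • M.A.γ (M.e (P, i)) z := by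
  obtain ⟨a, z, hz, c, h⟩ := M.A.cover y
  obtain ⟨⟨P, i⟩, rfl⟩ := M.e.surjective a
  exact ⟨P, i, z, hz, c, h⟩

/-- the projection to the curve -/
def pr (y : M.Y) : T.X.Pt :=
  An.c (M.exists_rep y).choose
    (sc (M.exists_rep y).choose_spec.choose (M.exists_rep y).choose_spec.choose_spec.choose)

theorem pr_smul_γ {P : T.X.Pt} {i : Fin 3} {z : E 2} (hz : z ∈ M.A.U (M.e (P, i))) (c : ℂˣ) :
    M.pr (c • M.A.γ (M.e (P, i)) z) = An.c P (sc i z) := by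
  set y := c • M.A.γ (M.e (P, i)) z with hy
  obtain ⟨h1, c', h2⟩ := (M.exists_rep y).choose_spec.choose_spec.choose_spec
  unfold pr
  have h3 : M.A.γ (M.e (P, i)) z = (c⁻¹ * c') • M.A.γ (M.e ((M.exists_rep y).choose,
      (M.exists_rep y).choose_spec.choose)) (M.exists_rep y).choose_spec.choose_spec.choose := by
    rw [mul_smul, ← h2, hy, inv_smul_smul]
  exact M.bp_eq h1 hz h3

theorem pr_γ {P : T.X.Pt} {i : Fin 3} {z : E 2} (hz : z ∈ M.A.U (M.e (P, i))) :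
    M.pr (M.A.γ (M.e (P, i)) z) = An.c P (sc i z) := by
  have := M.pr_smul_γ hz 1
  rwa [one_smul] at this

theorem pr_smul (c : ℂˣ) (y : M.Y) : M.pr (c • y) = M.pr y := by
  obtain ⟨P, i, z, hz, d, rfl⟩ := M.exists_rep y
  rw [smul_smul, M.pr_smul_γ hz, M.pr_smul_γ hz]

theorem sc_dact {P : T.X.Pt} {i : Fin 3} {z : E 2} (hz : z ∈ M.A.U (M.e (P, i))) (c : ℂˣ) :
    sc i (dact (M.D.k (M.e (P, i))) c z) = sc i z := by
  have hi : i = 0 ∨ i = 1 ∨ i = 2 := by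
    fin_cases i <;> simp
  rcases hi with rfl | rfl | rfl
  · rw [sc_zero, sc_zero, (M.k_bot P).1]
    simp [dact]
  · rw [sc_one, sc_one, (M.k_top P).1]
    simp [dact]
  · rw [sc_two, sc_two]
    have hc := c.ne_zero
    by_cases h : P ∈ T.S
    · rw [(M.k_mid P h).1]
      simp only [dact, Matrix.cons_val_zero, Matrix.cons_val_one, zpow_neg, zpow_one,
        Units.val_inv_eq_inv_val]
      field_simp
    · by_cases h' : P ∈ T.S'
      · rw [(M.k_mid' P h').1]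
        simp only [dact, Matrix.cons_val_zero, Matrix.cons_val_one, zpow_neg, zpow_one,
          Units.val_inv_eq_inv_val]
        field_simp
      · rw [M.U_mid' P h h'] at hz
        exact hz.elim

theorem pr_act (c : ℂˣ) (y : M.Y) : M.pr (M.D.act c y) = M.pr y := by
  obtain ⟨P, i, z, hz, d, rfl⟩ := M.exists_rep y
  rw [M.D.act_smul, M.pr_smul, M.pr_smul, M.D.act_γ _ _ hz, M.pr_smul, M.pr_γ (M.D.dom _ _ hz c),
    M.pr_γ hz, M.sc_dact hz]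

/-- The map `f` is the automorphism of `Σ` given by the permutations `σ` of the points of the
curve and `ρ` of the types of the charts. -/
structure Aut (σ : T.X.Pt → T.X.Pt) (ρ : Fin 3 → Fin 3) (f : M.Y → M.Y) : Prop where
  smul : ∀ (c : ℂˣ) y, f (c • y) = c • f y
  mem : ∀ P i, ∀ z ∈ M.A.U (M.e (P, i)), z ∈ M.A.U (M.e (σ P, ρ i))
  γ : ∀ P i, ∀ z ∈ M.A.U (M.e (P, i)), f (M.A.γ (M.e (P, i)) z) = M.A.γ (M.e (σ P, ρ i)) z

variable {M}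

theorem Aut.comp {σ σ' : T.X.Pt → T.X.Pt} {ρ ρ' : Fin 3 → Fin 3} {f f' : M.Y → M.Y}
    (h : M.Aut σ ρ f) (h' : M.Aut σ' ρ' f') :
    M.Aut (fun P => σ (σ' P)) (fun i => ρ (ρ' i)) (fun y => f (f' y)) where
  smul c y := by rw [h'.smul, h.smul]
  mem P i z hz := h.mem _ _ _ (h'.mem _ _ _ hz)
  γ P i z hz := by rw [h'.γ _ _ _ hz, h.γ _ _ _ (h'.mem _ _ _ hz)]

theorem Aut.id : M.Aut (fun P => P) (fun i => i) (fun y => y) where
  smul c y := rfl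
  mem P i z hz := hz
  γ P i z hz := rfl

theorem Aut.unique {σ : T.X.Pt → T.X.Pt} {ρ : Fin 3 → Fin 3} {f f' : M.Y → M.Y}
    (h : M.Aut σ ρ f) (h' : M.Aut σ ρ f') (y : M.Y) : f y = f' y := by
  obtain ⟨P, i, z, hz, d, rfl⟩ := M.exists_rep y
  rw [h.smul, h'.smul, h.γ _ _ _ hz, h'.γ _ _ _ hz]

theorem Aut.invol {σ : T.X.Pt → T.X.Pt} {ρ : Fin 3 → Fin 3} {f : M.Y → M.Y}
    (h : M.Aut σ ρ f) (hσ : ∀ P, σ (σ P) = P) (hρ : ∀ i, ρ (ρ i) = i) (y : M.Y) :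
    f (f y) = y := by
  have h1 := h.comp h
  simp only [hσ, hρ] at h1
  exact h1.unique Aut.id y

theorem Aut.comm {σ σ' : T.X.Pt → T.X.Pt} {ρ ρ' : Fin 3 → Fin 3} {f f' : M.Y → M.Y}
    (h : M.Aut σ ρ f) (h' : M.Aut σ' ρ' f') (hσ : ∀ P, σ (σ' P) = σ' (σ P))
    (hρ : ∀ i, ρ (ρ' i) = ρ' (ρ i)) (y : M.Y) : f (f' y) = f' (f y) := by
  have h1 := h.comp h'
  simp only [hσ, hρ] at h1
  exact h1.unique (h'.comp h) y

theorem Aut.isHol {σ : T.X.Pt → T.X.Pt} {ρ : Fin 3 → Fin 3} {f : M.Y → M.Y}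
    (h : M.Aut σ ρ f) : IsHol M.A M.A f := by
  refine isHol_of_holAt h.smul fun a z hz => ?_
  obtain ⟨⟨P, i⟩, rfl⟩ := M.e.surjective a
  refine (holAt_frame M.A (t := fun ζ => ζ) analyticAt_id (h.mem P i z hz)).congr ?_
  filter_upwards [(M.A.isOpen_U _).mem_nhds hz] with ζ hζ
  exact h.γ P i ζ hζ

variable (M)

/-- the types of the charts exchanged by the swap -/
def rhoI : Fin 3 → Fin 3 := ![1, 0, 2]

theorem rhoI_rhoI (i : Fin 3) : rhoI (rhoI i) = i := by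
  revert i
  decide

theorem exists_symm {θ : K ≃ₐ[ℂ] K} {σ : T.X.Pt → T.X.Pt} (hE : An.Equiv θ σ)
    (hσ : ∀ P, σ (σ P) = P) (hr : ∀ P, M.r (σ P) = M.r P) (hD : ∀ P, D₀ (σ P) = D₀ P)
    (hS : ∀ P, P ∈ T.S ↔ σ P ∈ T.S) (hS' : ∀ P, P ∈ T.S' ↔ σ P ∈ T.S') :
    ∃ f : M.Y → M.Y, M.Aut σ (fun i => i) f ∧
      ∀ (c : ℂˣ) y, f (M.D.act c y) = M.D.act c (f y) := by
  obtain ⟨f, h1, h2, h3⟩ := M.sym θ σ hE hσ hr hD hS hS'
  refine ⟨f, ⟨h1, ?_, h3⟩, h2⟩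
  intro P i z hz
  have hi : i = 0 ∨ i = 1 ∨ i = 2 := by
    fin_cases i <;> simp
  rcases hi with rfl | rfl | rfl
  · rw [M.U_bot] at hz ⊢
    rwa [hr]
  · rw [M.U_top] at hz ⊢
    rwa [hr]
  · by_cases h : P ∈ T.S ∨ P ∈ T.S'
    · have h' : σ P ∈ T.S ∨ σ P ∈ T.S' := by rwa [← hS, ← hS']
      rw [M.U_mid _ h] at hz
      rw [M.U_mid _ h', hr]
      exact hz
    · push Not at h
      rw [M.U_mid' P h.1 h.2] at hz
      exact hz.elim

theorem exists_swap {θ : K ≃ₐ[ℂ] K} {σ : T.X.Pt → T.X.Pt} (hE : An.Equiv θ σ)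
    (hσ : ∀ P, σ (σ P) = P) (hr : ∀ P, M.r (σ P) = M.r P) (hD : ∀ P, D₀ (σ P) = D₀ P)
    (hS : ∀ P, P ∈ T.S ↔ σ P ∈ T.S') :
    ∃ f : M.Y → M.Y, M.Aut σ rhoI f ∧
      ∀ (c : ℂˣ) y, f (M.D.act c y) = M.D.act c⁻¹ (f y) := by
  obtain ⟨f, h1, h2, h3, h4, h5⟩ := M.swap θ σ hE hσ hr hD hS
  refine ⟨f, ⟨h1, ?_, ?_⟩, h2⟩
  · intro P i z hz
    have hi : i = 0 ∨ i = 1 ∨ i = 2 := by
      fin_cases i <;> simp
    rcases hi with rfl | rfl | rfl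
    · show z ∈ M.A.U (M.e (σ P, 1))
      rw [M.U_bot] at hz
      rw [M.U_top, hr]
      exact hz
    · show z ∈ M.A.U (M.e (σ P, 0))
      rw [M.U_top] at hz
      rw [M.U_bot, hr]
      exact hz
    · show z ∈ M.A.U (M.e (σ P, 2))
      by_cases h : P ∈ T.S ∨ P ∈ T.S'
      · have h' : σ P ∈ T.S ∨ σ P ∈ T.S' := by
          rcases h with h | h
          · exact Or.inr ((hS P).1 h)
          · left
            rw [hS, hσ]
            exact h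
        rw [M.U_mid _ h] at hz
        rw [M.U_mid _ h', hr]
        exact hz
      · push Not at h
        rw [M.U_mid' P h.1 h.2] at hz
        exact hz.elim
  · intro P i z hz
    have hi : i = 0 ∨ i = 1 ∨ i = 2 := by
      fin_cases i <;> simp
    rcases hi with rfl | rfl | rfl
    · exact h3 P z hz
    · exact h4 P z hz
    · exact h5 P z hz

end SigModel

/-- compatibility of the projection with the automorphisms -/
theorem SigModel.Aut.pr {K : Type} [Field K] [Algebra ℂ K] {T : Datum K} {q : ℕ}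
    {D₀ : T.X.Pt →₀ ℤ} {An : AnCurve T.X.toCurveOrd} {M : SigModel T q D₀ An}
    {θ : K ≃ₐ[ℂ] K} {σ : T.X.Pt → T.X.Pt} {ρ : Fin 3 → Fin 3} (hρ : ∀ i, ρ i = 2 ↔ i = 2)
    (hE : An.Equiv θ σ) {f : M.Y → M.Y} (h : M.Aut σ ρ f) (y : M.Y) :
    M.pr (f y) = σ (M.pr y) := by
  obtain ⟨P, i, z, hz, d, rfl⟩ := M.exists_rep y
  have h1 : sc (ρ i) z = sc i z := by
    unfold sc
    rw [if_congr (hρ i) rfl rfl]
  rw [h.smul, M.pr_smul, M.pr_smul, h.γ _ _ _ hz, M.pr_γ (h.mem _ _ _ hz), M.pr_γ hz, h1]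
  exact hE.c P _ (M.sc_mem_ball' hz)

end

end Pool.Agent.YTDA
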