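import Pool.Agent.YTDA.InvH
import Pool.Agent.YTDA.Inv3
import Pool.Agent.YTDA.SigMap

/-!
# Symmetries of the fourfold `X`: the groups `GL₂ × GL₂` and `Γ`
-/

set_option autoImplicit false

namespace Pool.Agent.YTDA

open Complex Set Topology Filter Metric
open Pool.Agent.YTD

noncomputable section

section P1

variable {n : ℕ} {Y : Type} [MulAction ℂˣ Y] {A : PolAtlas n Y} {D : A.DAct} {α β : ℤ}

theorem IsP1e.p1At {B : PolAtlas (n + 1) (P1Y D α β)} {e : A.ι × Bool ≃ B.ι} (h : IsP1e B e) :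
    P1At B where
  chart i := by
    obtain ⟨⟨a, b⟩, rfl⟩ := e.surjective i
    refine ⟨a, b, h.U a b, fun z hz => ?_⟩
    rw [h.U] at hz
    exact h.γ a b z hz
  exists_chart a b := by
    refine ⟨e (a, b), h.U a b, fun z hz => ?_⟩
    rw [h.U] at hz
    exact h.γ a b z hz

end P1

/-! ### Special matrices -/

/-- `diag(1, c)` -/
def gD (c : ℂˣ) : GL (Fin 2) ℂ := Matrix.GeneralLinearGroup.mkOfDetNeZero !![1, 0; 0, (c : ℂ)] (by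
  rw [Matrix.det_fin_two_of]
  simp)

/-- the exchange of the coordinates -/
def gS : GL (Fin 2) ℂ := Matrix.GeneralLinearGroup.mkOfDetNeZero !![0, 1; 1, 0] (by
  rw [Matrix.det_fin_two_of]
  norm_num)

/-- `(x₀, x₁) ↦ (x₀ + x₁, x₀ - x₁)` -/
def gH : GL (Fin 2) ℂ := Matrix.GeneralLinearGroup.mkOfDetNeZero !![1, 1; 1, -1] (by
  rw [Matrix.det_fin_two_of]
  norm_num)

theorem glv_gD (c : ℂˣ) (x : V2) : glv (gD c) x = diagV c x := by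
  rw [V2.ext_iff']
  constructor
  · show (!![1, 0; 0, (c : ℂ)] : Matrix (Fin 2) (Fin 2) ℂ).mulVec x.1 0 = x.1 0
    simp [Matrix.mulVec, dotProduct, Fin.sum_univ_two]
  · show (!![1, 0; 0, (c : ℂ)] : Matrix (Fin 2) (Fin 2) ℂ).mulVec x.1 1 = (c : ℂ) * x.1 1
    simp [Matrix.mulVec, dotProduct, Fin.sum_univ_two]

theorem glv_gS (x : V2) : glv gS x = swapV x := by
  rw [V2.ext_iff']
  constructor
  · show (!![0, 1; 1, 0] : Matrix (Fin 2) (Fin 2) ℂ).mulVec x.1 0 = x.1 1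
    simp [Matrix.mulVec, dotProduct, Fin.sum_univ_two]
  · show (!![0, 1; 1, 0] : Matrix (Fin 2) (Fin 2) ℂ).mulVec x.1 1 = x.1 0
    simp [Matrix.mulVec, dotProduct, Fin.sum_univ_two]

theorem glv_gH (x : V2) : glv gH x = hadV x := by
  rw [V2.ext_iff']
  constructor
  · show (!![1, 1; 1, -1] : Matrix (Fin 2) (Fin 2) ℂ).mulVec x.1 0 = x.1 0 + x.1 1
    simp [Matrix.mulVec, dotProduct, Fin.sum_univ_two]
  · show (!![1, 1; 1, -1] : Matrix (Fin 2) (Fin 2) ℂ).mulVec x.1 1 = x.1 0 - x.1 1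
    simp [Matrix.mulVec, dotProduct, Fin.sum_univ_two, sub_eq_add_neg]

theorem diagV_diagV (c d : ℂˣ) (x : V2) : diagV c (diagV d x) = diagV (c * d) x := by
  rw [V2.ext_iff']
  constructor
  · rfl
  · show (c : ℂ) * ((d : ℂ) * x.1 1) = ((c * d : ℂˣ) : ℂ) * x.1 1
    rw [Units.val_mul, mul_assoc]

theorem diagV_one (x : V2) : diagV 1 x = x := by
  rw [V2.ext_iff']
  constructor
  · rfl
  · show ((1 : ℂˣ) : ℂ) * x.1 1 = x.1 1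
    rw [Units.val_one, one_mul]

theorem diagV_neg_neg (x : V2) : diagV (-1) (diagV (-1) x) = x := by
  rw [diagV_diagV, neg_one_mul, neg_neg, diagV_one]

theorem swapV_swapV (x : V2) : swapV (swapV x) = x := by
  rw [V2.ext_iff']
  exact ⟨rfl, rfl⟩

theorem diagV_swapV (x : V2) : diagV (-1) (swapV x) = (-1 : ℂˣ) • swapV (diagV (-1) x) := by
  rw [V2.ext_iff', V2.coe_smul]
  constructor
  · show x.1 1 = ((-1 : ℂˣ) : ℂ) * (((-1 : ℂˣ) : ℂ) * x.1 1)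
    simp
  · show ((-1 : ℂˣ) : ℂ) * x.1 0 = ((-1 : ℂˣ) : ℂ) * x.1 0
    rfl

namespace TwoP1

section Gen

variable {Y : Type} [MulAction ℂˣ Y] {A : PolAtlas 2 Y} {D : A.DAct} {α β α' β' : ℤ}
  (X : TwoP1 A D α β α' β')

theorem p1At₁ : P1At X.B₁ := X.h₁.p1At

theorem p1At₂ : P1At X.B₂ := X.h₂.p1At

theorem induced : Induced X.D₁ := X.l₁.act

/-- `H ∘ (g, g')` -/
theorem exists_gl {H : P1Y X.D₁ α' β' → ℝ} (g g' : GL (Fin 2) ℂ) (hK : X.B₂.IsKahler H) :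
    ∃ Hg : P1Y X.D₁ α' β' → ℝ, X.B₂.IsKahler Hg ∧ (∀ s, X.B₂.IsCsc H s → X.B₂.IsCsc Hg s) ∧
      ∀ y x x', Hg (P1Y.mk (P1Y.mk y x) x') = H (P1Y.mk (P1Y.mk y (glv g x)) (glv g' x')) :=
  ⟨fun p => H (gl1 g X.induced (gl2 g' p)), isKahler_gl X.induced X.p1At₁ X.p1At₂ g g' hK,
    fun _ hs => isCsc_gl X.induced X.p1At₁ X.p1At₂ g g' hK hs, fun _ _ _ => rfl⟩

/-- `H ∘ (g, g)` for the matrix `g` exchanging the two kinds of symmetries -/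
theorem exists_had {H : P1Y X.D₁ α' β' → ℝ} (hK : X.B₂.IsKahler H) :
    ∃ Hg : P1Y X.D₁ α' β' → ℝ, X.B₂.IsKahler Hg ∧ (∀ s, X.B₂.IsCsc H s → X.B₂.IsCsc Hg s) ∧
      ∀ y x x', Hg (P1Y.mk (P1Y.mk y x) x') = H (P1Y.mk (P1Y.mk y (hadV x)) (hadV x')) := by
  obtain ⟨Hg, h1, h2, h3⟩ := X.exists_gl gH gH hK
  refine ⟨Hg, h1, h2, fun y x x' => ?_⟩
  rw [h3, glv_gH, glv_gH]

end Gen

section Gam

variable {K : Type} [Field K] [Algebra ℂ K] {T : Datum K} {q : ℕ} {D₀ : T.X.Pt →₀ ℤ}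
  {An : AnCurve T.X.toCurveOrd} {M : SigModel T q D₀ An}

section pr

variable {α β α' β' : ℤ} (X : TwoP1 M.A M.D α β α' β')

/-- the projection of `X` to the curve -/
def pr (p : P1Y X.D₁ α' β') : T.X.Pt :=
  P1Y.lift (fun p _ => P1Y.lift (fun y _ => M.pr y) (fun c y _ => by
      rw [M.pr_smul, M.pr_act]) p) (fun c p x' => by
    obtain ⟨y, x, rfl⟩ := P1Y.exists_mk p
    rw [X.induced, P1Y.smul_mk, P1Y.lift_mk, P1Y.lift_mk, M.pr_smul, M.pr_act]) p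

theorem pr_mk (y : M.Y) (x x' : V2) : X.pr (P1Y.mk (P1Y.mk y x) x') = M.pr y := rfl

theorem pr_smul (c : ℂˣ) (p : P1Y X.D₁ α' β') : X.pr (c • p) = X.pr p := by
  obtain ⟨y, x, x', rfl⟩ := exists_mk2 p
  rw [smul_mk2]
  exact M.pr_smul c y

end pr

variable {α β : ℤ} (X : TwoP1 M.A M.D α β α (-β))

/-- The maps of the surface inducing the action of the group `Γ`. -/
structure GamX (γ : Gam T) where
  f₀ : M.Y → M.Y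
  f₁ : M.Y → M.Y
  f₂ : M.Y → M.Y
  aut₀ : M.Aut γ.σ SigModel.rhoI f₀
  aut₁ : M.Aut γ.σ₁ (fun i => i) f₁
  aut₂ : M.Aut γ.σ₂ (fun i => i) f₂
  act₀ : ∀ (c : ℂˣ) y, f₀ (M.D.act c y) = M.D.act c⁻¹ (f₀ y)
  act₁ : ∀ (c : ℂˣ) y, f₁ (M.D.act c y) = M.D.act c (f₁ y)
  act₂ : ∀ (c : ℂˣ) y, f₂ (M.D.act c y) = M.D.act c (f₂ y)
  eqv₀ : An.Equiv γ.θ γ.σ
  eqv₁ : An.Equiv γ.θ₁ γ.σ₁
  eqv₂ : An.Equiv γ.θ₂ γ.σ₂

variable {X} in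
theorem exists_gamX {γ : Gam T} (hE : An.Equiv γ.θ γ.σ) (hE₁ : An.Equiv γ.θ₁ γ.σ₁)
    (hE₂ : An.Equiv γ.θ₂ γ.σ₂) (hr : ∀ P, M.r (γ.σ P) = M.r P)
    (hr₁ : ∀ P, M.r (γ.σ₁ P) = M.r P) (hr₂ : ∀ P, M.r (γ.σ₂ P) = M.r P) (hD : γ.Fixes D₀) :
    Nonempty (GamX (M := M) γ) := by
  obtain ⟨f₀, a₀, b₀⟩ := M.exists_swap hE γ.σσ hr hD.1 γ.S_iff
  obtain ⟨f₁, a₁, b₁⟩ := M.exists_symm hE₁ γ.σσ₁ hr₁ hD.2.1 γ.S_iff₁ γ.S'_iff₁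
  obtain ⟨f₂, a₂, b₂⟩ := M.exists_symm hE₂ γ.σσ₂ hr₂ hD.2.2 γ.S_iff₂ γ.S'_iff₂
  exact ⟨⟨f₀, f₁, f₂, a₀, a₁, a₂, b₀, b₁, b₂, hE, hE₁, hE₂⟩⟩

namespace GamX

variable {γ : Gam T} (G : GamX (M := M) γ)

/-- the involution `[y, x, x'] ↦ [f₁ y, diag(1, -1) x, diag(1, -1) x']` -/
def e₁ (p : P1Y X.D₁ α (-β)) : P1Y X.D₁ α (-β) :=
  gl2 (gD (-1)) (gl1 (gD (-1)) X.induced (mapY G.f₁ G.aut₁.smul G.act₁ X.induced p))

/-- the involution `[y, x, x'] ↦ [f₂ y, swap x, swap x']` -/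
def e₂ (p : P1Y X.D₁ α (-β)) : P1Y X.D₁ α (-β) :=
  gl2 gS (gl1 gS X.induced (mapY G.f₂ G.aut₂.smul G.act₂ X.induced p))

/-- the involution `[y, x, x'] ↦ [f₀ y, x', x]` -/
def e₀ (p : P1Y X.D₁ α (-β)) : P1Y X.D₁ α (-β) :=
  swapX G.f₀ G.aut₀.smul G.act₀ X.induced rfl rfl p

theorem e₁_mk (y : M.Y) (x x' : V2) : G.e₁ X (P1Y.mk (P1Y.mk y x) x') =
    P1Y.mk (P1Y.mk (G.f₁ y) (diagV (-1) x)) (diagV (-1) x') := by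
  rw [← glv_gD, ← glv_gD]
  rfl

theorem e₂_mk (y : M.Y) (x x' : V2) : G.e₂ X (P1Y.mk (P1Y.mk y x) x') =
    P1Y.mk (P1Y.mk (G.f₂ y) (swapV x)) (swapV x') := by
  rw [← glv_gS, ← glv_gS]
  rfl

theorem e₀_mk (y : M.Y) (x x' : V2) : G.e₀ X (P1Y.mk (P1Y.mk y x) x') =
    P1Y.mk (P1Y.mk (G.f₀ y) x') x := rfl

theorem f₀_f₀ (y : M.Y) : G.f₀ (G.f₀ y) = y := G.aut₀.invol γ.σσ SigModel.rhoI_rhoI y

theorem f₁_f₁ (y : M.Y) : G.f₁ (G.f₁ y) = y := G.aut₁.invol γ.σσ₁ (fun _ => rfl) y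

theorem f₂_f₂ (y : M.Y) : G.f₂ (G.f₂ y) = y := G.aut₂.invol γ.σσ₂ (fun _ => rfl) y

theorem f₁_f₂ (y : M.Y) : G.f₁ (G.f₂ y) = G.f₂ (G.f₁ y) :=
  G.aut₁.comm G.aut₂ γ.σcomm₁₂ (fun _ => rfl) y

theorem f₀_f₁ (y : M.Y) : G.f₀ (G.f₁ y) = G.f₁ (G.f₀ y) :=
  G.aut₀.comm G.aut₁ γ.σcomm₁ (fun _ => rfl) y

theorem f₀_f₂ (y : M.Y) : G.f₀ (G.f₂ y) = G.f₂ (G.f₀ y) :=
  G.aut₀.comm G.aut₂ γ.σcomm₂ (fun _ => rfl) y

theorem isBihol_e₁ : IsBihol X.B₂ X.B₂ (G.e₁ X) :=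
  (isBihol_gl2 _ X.p1At₂).comp ((isBihol_gl1 X.induced _ X.p1At₁ X.p1At₂).comp
    (isBihol_mapY _ _ _ X.induced X.p1At₁ X.p1At₂ G.aut₁.isHol G.aut₁.isHol G.f₁_f₁ G.f₁_f₁))

theorem isBihol_e₂ : IsBihol X.B₂ X.B₂ (G.e₂ X) :=
  (isBihol_gl2 _ X.p1At₂).comp ((isBihol_gl1 X.induced _ X.p1At₁ X.p1At₂).comp
    (isBihol_mapY _ _ _ X.induced X.p1At₁ X.p1At₂ G.aut₂.isHol G.aut₂.isHol G.f₂_f₂ G.f₂_f₂))

theorem isBihol_e₀ : IsBihol X.B₂ X.B₂ (G.e₀ X) :=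
  isBihol_swapX _ G.aut₀.smul G.act₀ X.induced rfl rfl X.p1At₁ X.p1At₂ G.aut₀.isHol
    G.aut₀.isHol G.f₀_f₀ G.f₀_f₀

/-- The action of `Γ` on the total space over `X`. -/
def inv3 : Inv3 (P1Y X.D₁ α (-β)) where
  e₁ := G.e₁ X
  e₂ := G.e₂ X
  e₃ := G.e₀ X
  smul₁ := (G.isBihol_e₁ X).smul
  smul₂ := (G.isBihol_e₂ X).smul
  smul₃ := (G.isBihol_e₀ X).smul
  sq₁ p := by
    obtain ⟨y, x, x', rfl⟩ := exists_mk2 p
    unfold mk2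
    rw [e₁_mk, e₁_mk, G.f₁_f₁, diagV_neg_neg, diagV_neg_neg]
  sq₂ p := by
    obtain ⟨y, x, x', rfl⟩ := exists_mk2 p
    unfold mk2
    rw [e₂_mk, e₂_mk, G.f₂_f₂, swapV_swapV, swapV_swapV]
  sq₃ p := by
    obtain ⟨y, x, x', rfl⟩ := exists_mk2 p
    unfold mk2
    rw [e₀_mk, e₀_mk, G.f₀_f₀]
  comm₁₂ p := by
    obtain ⟨y, x, x', rfl⟩ := exists_mk2 p
    have h1 : G.e₁ X (G.e₂ X (mk2 y x x')) =
        mk2 (G.f₁ (G.f₂ y)) (diagV (-1) (swapV x)) (diagV (-1) (swapV x')) := by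
      unfold mk2
      rw [e₂_mk, e₁_mk]
    have h2 : G.e₂ X (G.e₁ X (mk2 y x x')) =
        mk2 (G.f₂ (G.f₁ y)) (swapV (diagV (-1) x)) (swapV (diagV (-1) x')) := by
      unfold mk2
      rw [e₁_mk, e₂_mk]
    rw [h1, h2, diagV_swapV, diagV_swapV, mk2_smul_right X.induced, mk2_smul_left, G.f₁_f₂,
      M.D.act_smul, ← M.D.act_mul, smul_smul, ← zpow_add, ← zpow_add, add_neg_cancel, zpow_zero,
      M.D.act_one, ← two_mul, zpow_mul]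
    norm_num
  comm₁₃ p := by
    obtain ⟨y, x, x', rfl⟩ := exists_mk2 p
    unfold mk2
    rw [e₀_mk, e₁_mk, e₁_mk, e₀_mk, G.f₀_f₁]
  comm₂₃ p := by
    obtain ⟨y, x, x', rfl⟩ := exists_mk2 p
    unfold mk2
    rw [e₀_mk, e₂_mk, e₂_mk, e₀_mk, G.f₀_f₂]

theorem pr_e₁ (p : P1Y X.D₁ α (-β)) : X.pr (G.e₁ X p) = γ.σ₁ (X.pr p) := by
  obtain ⟨y, x, x', rfl⟩ := exists_mk2 p
  unfold mk2
  rw [e₁_mk, X.pr_mk, X.pr_mk]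
  exact G.aut₁.pr (fun _ => Iff.rfl) G.eqv₁ y

theorem pr_e₂ (p : P1Y X.D₁ α (-β)) : X.pr (G.e₂ X p) = γ.σ₂ (X.pr p) := by
  obtain ⟨y, x, x', rfl⟩ := exists_mk2 p
  unfold mk2
  rw [e₂_mk, X.pr_mk, X.pr_mk]
  exact G.aut₂.pr (fun _ => Iff.rfl) G.eqv₂ y

theorem pr_e₀ (p : P1Y X.D₁ α (-β)) : X.pr (G.e₀ X p) = γ.σ (X.pr p) := by
  obtain ⟨y, x, x', rfl⟩ := exists_mk2 p
  unfold mk2
  rw [e₀_mk, X.pr_mk, X.pr_mk]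
  refine G.aut₀.pr (fun i => ?_) G.eqv₀ y
  revert i
  decide

/-- `Γ` acts freely. -/
theorem free : (G.inv3 X).Free where
  f₁ p c h := by
    have h1 := congrArg X.pr h
    rw [X.pr_smul] at h1
    exact γ.free₁ _ ((G.pr_e₁ X p).symm.trans h1)
  f₂ p c h := by
    have h1 := congrArg X.pr h
    rw [X.pr_smul] at h1
    exact γ.free₂ _ ((G.pr_e₂ X p).symm.trans h1)
  f₃ p c h := by
    have h1 := congrArg X.pr h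
    rw [X.pr_smul] at h1
    exact γ.free _ ((G.pr_e₀ X p).symm.trans h1)
  f₁₂ p c h := by
    have h1 : X.pr (G.e₁ X (G.e₂ X p)) = _ := congrArg X.pr h
    rw [X.pr_smul, pr_e₁, pr_e₂] at h1
    exact γ.free₁₂ _ h1
  f₁₃ p c h := by
    have h1 : X.pr (G.e₁ X (G.e₀ X p)) = _ := congrArg X.pr h
    rw [X.pr_smul, pr_e₁, pr_e₀, ← γ.σcomm₁] at h1
    exact γ.free₀₁ _ h1
  f₂₃ p c h := by
    have h1 : X.pr (G.e₂ X (G.e₀ X p)) = _ := congrArg X.pr h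
    rw [X.pr_smul, pr_e₂, pr_e₀, ← γ.σcomm₂] at h1
    exact γ.free₀₂ _ h1
  f₁₂₃ p c h := by
    have h1 : X.pr (G.e₁ X (G.e₂ X (G.e₀ X p))) = _ := congrArg X.pr h
    rw [X.pr_smul, pr_e₁, pr_e₂, pr_e₀, ← γ.σcomm₂, ← γ.σcomm₁] at h1
    exact γ.free₀₁₂ _ h1

end GamX

end Gam

end TwoP1

end

end Pool.Agent.YTDA
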