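import Pool.Agent.YTDA.SecLin
import Pool.Agent.YTDA.XGam

/-!
# The polarization of the quotient is ample; existence of an invariant Kähler metric
-/

set_option autoImplicit false
set_option linter.unusedVariables false

namespace Pool.Agent.YTDA

open Complex Set Topology Filter Metric Module
open Pool.Agent.YTD

noncomputable section

variable {K : Type} [Field K] [Algebra ℂ K] {T : Datum K} {q : ℕ} {D₀ : T.X.Pt →₀ ℤ}
  {An : AnCurve T.X.toCurveOrd} {M : SigModel T q D₀ An}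

theorem GamX.freeAct {γ : Gam T} (G : TwoP1.GamX (M := M) γ)
    (X : TwoP1 M.A M.D (25 * (q : ℤ)) 3 (25 * (q : ℤ)) (-3)) :
    letI := (G.inv3 X).act
    X.B₂.FreeAct G3 :=
  (G.free X).freeAct (G.isBihol_e₁ X).isHol (G.isBihol_e₂ X).isHol (G.isBihol_e₀ X).isHol

/-- The invariant sections of some power are ample. -/
theorem exists_ampInv {γ : Gam T} (G : TwoP1.GamX (M := M) γ)
    (X : TwoP1 M.A M.D (25 * (q : ℤ)) 3 (25 * (q : ℤ)) (-3)) (hq : 0 < q) (hfix : γ.Fixes D₀)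
    (hD : T.X.deg D₀ = 105 * T.t * q) (hc : X.B₂.IsCpt) (ht : X.B₂.IsT2) :
    letI := (G.inv3 X).act
    haveI := (G.inv3 X).commClass
    ∃ k > 0, X.B₂.AmpInv G3 k := by
  let _ := (G.inv3 X).act
  have _ := (G.inv3 X).commClass
  exact ⟨5 * Fintype.card G3, Nat.mul_pos (by norm_num) Fintype.card_pos,
    PolAtlas.ampInv (GamX.freeAct G X) VX_le (separates_VX (N := 5) hq hD le_rfl)⟩

/-- There is an invariant Kähler metric. -/
theorem exists_kahler {γ : Gam T} (G : TwoP1.GamX (M := M) γ)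
    (X : TwoP1 M.A M.D (25 * (q : ℤ)) 3 (25 * (q : ℤ)) (-3)) (hq : 0 < q) (hfix : γ.Fixes D₀)
    (hD : T.X.deg D₀ = 105 * T.t * q) (hc : X.B₂.IsCpt) (ht : X.B₂.IsT2) :
    ∃ H, X.B₂.IsKahler H ∧ (∀ y, H (G.e₁ X y) = H y) ∧ (∀ y, H (G.e₂ X y) = H y) ∧
      ∀ y, H (G.e₀ X y) = H y := by
  let _ := (G.inv3 X).act
  have _ := (G.inv3 X).commClass
  obtain ⟨H, h1, h2⟩ := PolAtlas.exists_isKahler (GamX.freeAct G X) (N := 5) (by norm_num)
    VX_le (separates_VX (N := 5) hq hD le_rfl)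
  exact ⟨H, h1, (G.inv3 X).inv_iff H |>.1 h2⟩

end

end Pool.Agent.YTDA
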