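import Pool.Agent.YTDA.SigD

/-!
The surface `Σ`: the action, the canonical radii, and the model.
-/

namespace Pool.Agent.YTDA

open Complex Set Topology Metric Filter
open Pool.Agent.YTD

noncomputable section

namespace Sig

variable {K : Type} [Field K] [Algebra ℂ K] {T : Datum K}

/-! ### The action -/

/-- action on the fibre coordinate -/
def actF (P : T.X.Pt) (c : ℂˣ) : Fib → Fib
  | .main w => .main (c * w)
  | .fin σ => .fin σ
  | .exc e => .exc (uw (sd T P) c * e)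
  | .node => .node

/-- action on the frame -/
def actU (q : ℕ) (P : T.X.Pt) (c : ℂˣ) : Fib → ℂˣ
  | .main _ => 1
  | .fin σ => uw σ c ^ (-(5 * (q : ℤ)))
  | .exc _ => uw (sd T P) c ^ (-(4 * (q : ℤ)))
  | .node => uw (sd T P) c ^ (-(4 * (q : ℤ)))

theorem val_actF {P : T.X.Pt} (c : ℂˣ) {φ : Fib} (h : Val T P φ) : Val T P (actF P c φ) := by
  cases φ <;> exact h

/-- the action on the line bundle -/
def act (q : ℕ) (c : ℂˣ) (y : YY T) : YY T :=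
  ⟨y.base, actF y.base c y.fib, actU q y.base c y.fib * y.u, val_actF c y.val⟩

theorem act_one (q : ℕ) (y : YY T) : act q 1 y = y := by
  obtain ⟨P, φ, u, h⟩ := y
  have e1 : ∀ σ, uw σ (1 : ℂˣ) = 1 := by
    intro σ
    cases σ
    · rfl
    · exact inv_one
  apply YY.ext'
  · rfl
  · cases φ with
    | main w => show Fib.main (1 * w) = _; rw [one_mul]
    | fin σ => rfl
    | exc e => show Fib.exc (uw (sd T P) 1 * e) = _; rw [e1, one_mul]
    | node => rfl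
  · show actU q P 1 φ * u = u
    cases φ with
    | main w => exact one_mul u
    | fin σ => show uw σ 1 ^ _ * u = u; rw [e1, one_zpow, one_mul]
    | exc e => show uw _ 1 ^ _ * u = u; rw [e1, one_zpow, one_mul]
    | node => show uw _ 1 ^ _ * u = u; rw [e1, one_zpow, one_mul]

theorem act_mul (q : ℕ) (c c' : ℂˣ) (y : YY T) : act q (c * c') y = act q c (act q c' y) := by
  obtain ⟨P, φ, u, h⟩ := y
  apply YY.ext'
  · rfl
  · cases φ with
    | main w => show Fib.main (c * c' * w) = Fib.main (c * (c' * w)); rw [mul_assoc]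
    | fin σ => rfl
    | exc e =>
      show Fib.exc (uw (sd T P) (c * c') * e) = Fib.exc (uw (sd T P) c * (uw (sd T P) c' * e))
      rw [uw_mul, mul_assoc]
    | node => rfl
  · show actU q P (c * c') φ * u = actU q P c (actF P c' φ) * (actU q P c' φ * u)
    cases φ with
    | main w => show 1 * u = 1 * (1 * u); rw [one_mul, one_mul]
    | fin σ =>
      show uw σ (c * c') ^ _ * u = uw σ c ^ _ * (uw σ c' ^ _ * u)
      rw [uw_mul, mul_zpow, mul_assoc]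
    | exc e =>
      show uw _ (c * c') ^ _ * u = uw _ c ^ _ * (uw _ c' ^ _ * u)
      rw [uw_mul, mul_zpow, mul_assoc]
    | node =>
      show uw _ (c * c') ^ _ * u = uw _ c ^ _ * (uw _ c' ^ _ * u)
      rw [uw_mul, mul_zpow, mul_assoc]

theorem act_smul (q : ℕ) (c c' : ℂˣ) (y : YY T) : act q c (c' • y) = c' • act q c y := by
  apply YY.ext'
  · rfl
  · rfl
  · show actU q y.base c y.fib * (c' * y.u) = c' * (actU q y.base c y.fib * y.u)
    rw [mul_left_comm]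

theorem act_mkY (q : ℕ) (c : ℂˣ) {P : T.X.Pt} {φ : Fib} (h : Val T P φ) (u : ℂˣ) :
    act q c (mkY T P φ u) = mkY T P (actF P c φ) (actU q P c φ * u) := by
  rw [mkY_of h, mkY_of (val_actF c h)]
  rfl

variable {q : ℕ} {D₀ : T.X.Pt →₀ ℤ} {An : AnCurve T.X.toCurveOrd} {r : T.X.Pt → ℝ}

theorem act_oo (c w : ℂˣ) (P : T.X.Pt) (s : ℂ) :
    act q c (oo D₀ An P s w) = oo D₀ An P s (c * w) := by
  unfold oo
  rw [act_mkY q c (P := An.c P s) (φ := .main w) trivial]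
  show mkY T (An.c P s) (.main (c * w)) (1 * _) = _
  rw [one_mul]

theorem act_pc (c : ℂˣ) (P : T.X.Pt) (σ : Bool) (s v : ℂ) :
    act q c (pc q D₀ An P σ ![s, v]) =
      uw σ c ^ (-(5 * (q : ℤ))) • pc q D₀ An P σ ![s, ((uw σ c : ℂˣ) : ℂ) * v] := by
  unfold pc
  rw [act_mkY q c (val_pfib _ _ _), smul_mkY]
  show mkY T (An.c P s) (actF (An.c P s) c (pfib σ v)) (actU q (An.c P s) c (pfib σ v) *
    (un v ^ (5 * (q : ℤ)) * upow s (D₀ P))) = mkY T (An.c P s) (pfib σ (((uw σ c : ℂˣ) : ℂ) * v))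
    (uw σ c ^ (-(5 * (q : ℤ))) * (un (((uw σ c : ℂˣ) : ℂ) * v) ^ (5 * (q : ℤ)) *
      upow s (D₀ P)))
  by_cases hv : v = 0
  · subst hv
    rw [mul_zero, pfib_zero]
    rfl
  · rw [pfib_ne hv, pfib_ne (mul_ne_zero (Units.ne_zero _) hv),
      un_mul (Units.ne_zero _) hv, un_coe, uw_mul, uw_uw, mul_zpow]
    show mkY T _ (.main (c * uw σ (un v))) (1 * _) = _
    rw [one_mul, mul_assoc, ← mul_assoc (uw σ c ^ (-(5 * (q : ℤ)))), ← zpow_add,
      neg_add_cancel, zpow_zero, one_mul]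

theorem act_bl (c : ℂˣ) {P : T.X.Pt} {σ : Bool} (hP : Bl T σ P) (s v : ℂ) :
    act q c (bl q D₀ An P σ ![s, v]) =
      uw σ c ^ (-(5 * (q : ℤ))) • bl q D₀ An P σ ![s, ((uw σ c : ℂˣ) : ℂ) * v] := by
  by_cases hs : s = 0
  · subst hs
    unfold bl
    rw [if_pos (show (![0, v] : E 2) 0 = 0 from rfl),
      if_pos (show (![0, ((uw σ c : ℂˣ) : ℂ) * v] : E 2) 0 = 0 from rfl)]
    by_cases hv : v = 0
    · subst hv
      rw [mul_zero, if_pos (show (![0, 0] : E 2) 1 = 0 from rfl),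
        act_mkY q c (P := P) (φ := .fin σ) trivial, smul_mkY]
      rfl
    · rw [if_neg (show (![0, v] : E 2) 1 ≠ 0 from hv),
        if_neg (show (![0, ((uw σ c : ℂˣ) : ℂ) * v] : E 2) 1 ≠ 0 from
          mul_ne_zero (Units.ne_zero _) hv), act_mkY q c (by exact hP.1), smul_mkY]
      show mkY T P (.exc (uw (sd T P) c * un v)) (uw (sd T P) c ^ (-(4 * (q : ℤ))) *
        un v ^ (q : ℤ)) = mkY T P (.exc (un (((uw σ c : ℂˣ) : ℂ) * v)))
          (uw σ c ^ (-(5 * (q : ℤ))) * un (((uw σ c : ℂˣ) : ℂ) * v) ^ (q : ℤ))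
      rw [hP.2, un_mul (Units.ne_zero _) hv, un_coe, mul_zpow, ← mul_assoc, ← zpow_add]
      congr 3
      ring
  · unfold bl
    rw [if_neg (show (![s, v] : E 2) 0 ≠ 0 from hs),
      if_neg (show (![s, ((uw σ c : ℂˣ) : ℂ) * v] : E 2) 0 ≠ 0 from hs), act_smul]
    show un s ^ (-(q : ℤ)) • act q c (pc q D₀ An P σ ![s, s * v]) =
      uw σ c ^ (-(5 * (q : ℤ))) • un s ^ (-(q : ℤ)) • pc q D₀ An P σ
        ![s, s * (((uw σ c : ℂˣ) : ℂ) * v)]
    rw [act_pc, smul_smul, smul_smul, mul_comm (un s ^ (-(q : ℤ))), mul_left_comm s]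

theorem act_mid (c : ℂˣ) {P : T.X.Pt} (hP : Exc T P) (v f : ℂ) :
    act q c (mid q D₀ An P ![v, f]) =
      uw (sd T P) c ^ (-(4 * (q : ℤ))) • mid q D₀ An P ![((uw (sd T P) c : ℂˣ) : ℂ) * v,
        (((uw (sd T P) c)⁻¹ : ℂˣ) : ℂ) * f] := by
  generalize hσ : sd T P = σ
  have hc0 : ((uw σ c : ℂˣ) : ℂ) ≠ 0 := Units.ne_zero _
  by_cases hv : v = 0
  · subst hv
    unfold mid
    rw [mul_zero, if_pos (show (![0, f] : E 2) 0 = 0 from rfl),
      if_pos (show (![0, (((uw σ c)⁻¹ : ℂˣ) : ℂ) * f] : E 2) 0 = 0 from rfl)]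
    by_cases hf : f = 0
    · subst hf
      rw [mul_zero, if_pos (show (![0, 0] : E 2) 1 = 0 from rfl), act_mkY q c (by exact hP),
        smul_mkY]
      show mkY T P .node (uw (sd T P) c ^ (-(4 * (q : ℤ))) * 1) = _
      rw [hσ]
    · rw [if_neg (show (![0, f] : E 2) 1 ≠ 0 from hf),
        if_neg (show (![0, (((uw σ c)⁻¹ : ℂˣ) : ℂ) * f] : E 2) 1 ≠ 0 from
          mul_ne_zero (Units.ne_zero _) hf), act_mkY q c (by exact hP), smul_mkY]
      show mkY T P (.exc (uw (sd T P) c * (un f)⁻¹)) (uw (sd T P) c ^ (-(4 * (q : ℤ))) * 1) =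
        mkY T P (.exc (un ((((uw σ c)⁻¹ : ℂˣ) : ℂ) * f))⁻¹) (uw σ c ^ (-(4 * (q : ℤ))) * 1)
      rw [hσ, un_mul (Units.ne_zero _) hf, un_coe, mul_inv, inv_inv]
  · unfold mid
    rw [if_neg (show (![v, f] : E 2) 0 ≠ 0 from hv),
      if_neg (show (![((uw σ c : ℂˣ) : ℂ) * v, (((uw σ c)⁻¹ : ℂˣ) : ℂ) * f] : E 2) 0 ≠ 0 from
        mul_ne_zero hc0 hv), act_smul]
    show un v ^ (9 * (q : ℤ)) • act q c (pc q D₀ An P (!sd T P) ![v * f, v⁻¹]) =
      uw σ c ^ (-(4 * (q : ℤ))) • un (((uw σ c : ℂˣ) : ℂ) * v) ^ (9 * (q : ℤ)) •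
        pc q D₀ An P (!sd T P) ![((uw σ c : ℂˣ) : ℂ) * v * ((((uw σ c)⁻¹ : ℂˣ) : ℂ) * f),
          (((uw σ c : ℂˣ) : ℂ) * v)⁻¹]
    have e1 : ((uw σ c : ℂˣ) : ℂ) * v * ((((uw σ c)⁻¹ : ℂˣ) : ℂ) * f) = v * f := by
      rw [Units.val_inv_eq_inv_val]
      field_simp
    rw [e1, act_pc, hσ, uw_not, un_mul hc0 hv, un_coe, smul_smul, smul_smul, mul_inv,
      Units.val_inv_eq_inv_val, mul_zpow, inv_zpow', neg_neg, ← mul_assoc, ← zpow_add,
      mul_comm (un v ^ (9 * (q : ℤ)))]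
    congr 3
    ring

/-- the weights of the coordinates -/
def kk (a : T.X.Pt × Fin 3) : Fin 2 → ℤ :=
  match a.2 with
  | 0 => ![0, 1]
  | 1 => ![0, -1]
  | 2 => if sd T a.1 then ![-1, 1] else ![1, -1]

/-- the weights of the frames -/
def mm (q : ℕ) (a : T.X.Pt × Fin 3) : ℤ :=
  match a.2 with
  | 0 => -5 * q
  | 1 => 5 * q
  | 2 => if sd T a.1 then 4 * q else -4 * q

theorem dact2 (k : Fin 2 → ℤ) (c : ℂˣ) (z : E 2) :
    dact k c z = ![((c ^ k 0 : ℂˣ) : ℂ) * z 0, ((c ^ k 1 : ℂˣ) : ℂ) * z 1] := by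
  funext i
  fin_cases i <;> rfl

theorem dact_ei (P : T.X.Pt) (σ : Bool) (c : ℂˣ) (z : E 2) :
    dact (kk (P, ei σ)) c z = ![z 0, ((uw σ c : ℂˣ) : ℂ) * z 1] := by
  rw [dact2]
  cases σ
  · show (![((c ^ (0 : ℤ) : ℂˣ) : ℂ) * z 0, ((c ^ (1 : ℤ) : ℂˣ) : ℂ) * z 1] : E 2) = _
    rw [zpow_zero, zpow_one, Units.val_one, one_mul]
    rfl
  · show (![((c ^ (0 : ℤ) : ℂˣ) : ℂ) * z 0, ((c ^ (-1 : ℤ) : ℂˣ) : ℂ) * z 1] : E 2) = _
    rw [zpow_zero, zpow_neg_one, Units.val_one, one_mul]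
    rfl

theorem mm_ei (P : T.X.Pt) (σ : Bool) (c : ℂˣ) :
    c ^ mm q (P, ei σ) = uw σ c ^ (-(5 * (q : ℤ))) := by
  cases σ
  · show c ^ (-5 * (q : ℤ)) = c ^ (-(5 * (q : ℤ)))
    congr 1
  · show c ^ (5 * (q : ℤ)) = c⁻¹ ^ (-(5 * (q : ℤ)))
    rw [inv_zpow', neg_neg]

theorem dact_two (P : T.X.Pt) (c : ℂˣ) (z : E 2) :
    dact (kk (P, 2)) c z = ![((uw (sd T P) c : ℂˣ) : ℂ) * z 0,
      (((uw (sd T P) c)⁻¹ : ℂˣ) : ℂ) * z 1] := by
  rw [dact2]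
  show (![((c ^ ((if sd T P then ![-1, 1] else ![1, -1] : Fin 2 → ℤ) 0) : ℂˣ) : ℂ) * z 0,
    ((c ^ ((if sd T P then ![-1, 1] else ![1, -1] : Fin 2 → ℤ) 1) : ℂˣ) : ℂ) * z 1] : E 2) = _
  cases sd T P
  · show (![((c ^ (1 : ℤ) : ℂˣ) : ℂ) * z 0, ((c ^ (-1 : ℤ) : ℂˣ) : ℂ) * z 1] : E 2) = _
    rw [zpow_one, zpow_neg_one]
    rfl
  · show (![((c ^ (-1 : ℤ) : ℂˣ) : ℂ) * z 0, ((c ^ (1 : ℤ) : ℂˣ) : ℂ) * z 1] : E 2) = _
    rw [zpow_one, zpow_neg_one, uw_true, inv_inv]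

theorem mm_two (P : T.X.Pt) (c : ℂˣ) :
    c ^ mm q (P, 2) = uw (sd T P) c ^ (-(4 * (q : ℤ))) := by
  show c ^ (if sd T P then 4 * (q : ℤ) else -4 * (q : ℤ)) = _
  cases sd T P
  · show c ^ (-4 * (q : ℤ)) = c ^ (-(4 * (q : ℤ)))
    congr 1
  · show c ^ (4 * (q : ℤ)) = c⁻¹ ^ (-(4 * (q : ℤ)))
    rw [inv_zpow', neg_neg]

theorem act_ch (c : ℂˣ) (a : T.X.Pt × Fin 3) (z : E 2) (hz : z ∈ UU r a) :
    act q c (ch q D₀ An a z) = c ^ mm q a • ch q D₀ An a (dact (kk a) c z) := by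
  revert a
  apply chart_cases
  · intro P σ _
    rw [ch_ei, dact_ei, mm_ei]
    by_cases hb : Bl T σ P
    · rw [endc_bl hb]
      conv_lhs => rw [← eta2 z]
      exact act_bl c hb _ _
    · rw [endc_pc hb]
      conv_lhs => rw [← eta2 z]
      exact act_pc c P σ _ _
  · intro P hz
    rw [UU_two] at hz
    rw [ch_two, dact_two, mm_two]
    conv_lhs => rw [← eta2 z]
    exact act_mid c hz.1 _ _

theorem dom_ch (a : T.X.Pt × Fin 3) (z : E 2) (hz : z ∈ UU r a) (c : ℂˣ) :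
    dact (kk a) c z ∈ UU r a := by
  revert a
  apply chart_cases
  · intro P σ hz
    rw [UU_ei] at hz ⊢
    rw [dact_ei]
    exact hz
  · intro P hz
    rw [UU_two] at hz ⊢
    rw [dact_two]
    refine ⟨hz.1, ?_⟩
    show ‖((uw (sd T P) c : ℂˣ) : ℂ) * z 0 * ((((uw (sd T P) c)⁻¹ : ℂˣ) : ℂ) * z 1)‖ < r P
    have : ((uw (sd T P) c : ℂˣ) : ℂ) * z 0 * ((((uw (sd T P) c)⁻¹ : ℂˣ) : ℂ) * z 1) =
        z 0 * z 1 := by
      rw [Units.val_inv_eq_inv_val]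
      have := Units.ne_zero (uw (sd T P) c)
      field_simp
    rw [this]
    exact hz.2

variable (q) in
/-- the action on the atlas -/
def dAct (hr : IsRad D₀ An r) : (preAtlas q hr).toAtlas.DAct where
  act := act q
  act_one := act_one q
  act_mul := act_mul q
  act_smul := act_smul q
  k := kk
  m := mm q
  dom a z hz c := dom_ch a z hz c
  act_γ a z hz c := act_ch c a z hz

/-! ### The canonical radii -/

variable (D₀ An) in
/-- the bad points -/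
def Bad (P : T.X.Pt) : Prop := P ∈ T.S ∨ P ∈ T.S' ∨ D₀ P ≠ 0

variable (D₀) in
theorem finite_bad : {P : T.X.Pt | Bad D₀ P}.Finite := by
  have : {P : T.X.Pt | Bad D₀ P} = (T.S : Set T.X.Pt) ∪ (T.S' ∪ {P | D₀ P ≠ 0}) := by
    ext P
    rfl
  rw [this]
  refine T.S.finite_toSet.union (T.S'.finite_toSet.union ?_)
  refine D₀.support.finite_toSet.subset fun P hP => ?_
  simpa using hP

variable (D₀ An) in
/-- the set of admissible radii at a point -/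
def radSet (P : T.X.Pt) : Set ℝ :=
  {ρ | 0 < ρ ∧ ρ ≤ An.r P ∧ ∀ s : ℂ, ‖s‖ < ρ → s ≠ 0 → ¬ Bad D₀ (An.c P s)}

theorem radSet_nonempty (P : T.X.Pt) : (radSet D₀ An P).Nonempty := by
  have h : ∀ Q : T.X.Pt, ∃ ε > 0, ∀ s : ℂ, ‖s‖ < ε → ‖s‖ < An.r P → s ≠ 0 → An.c P s ≠ Q := by
    intro Q
    by_cases hPQ : P = Q
    · subst hPQ
      refine ⟨1, one_pos, fun s _ hs h0 he => h0 ?_⟩
      exact An.inj P (mem_b.2 hs) (mem_ball_self (An.r_pos P)) (he.trans (An.c_zero P).symm)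
    · obtain ⟨ε, hε, h⟩ := An.t2 P Q hPQ
      refine ⟨ε, hε, fun s hs _ _ he => h s 0 hs (by rwa [norm_zero]) ?_⟩
      rw [he, An.c_zero]
  choose ε hε hh using h
  obtain ⟨ρ, hρ0, hρ⟩ : ∃ ρ > 0, ∀ Q ∈ (finite_bad D₀).toFinset, ρ ≤ ε Q := by
    by_cases hne : (finite_bad D₀).toFinset.Nonempty
    · refine ⟨(finite_bad D₀).toFinset.inf' hne ε, ?_, fun Q hQ => Finset.inf'_le _ hQ⟩
      rw [gt_iff_lt, Finset.lt_inf'_iff]
      exact fun Q _ => hε Q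
    · refine ⟨1, one_pos, fun Q hQ => (hne ⟨Q, hQ⟩).elim⟩
  refine ⟨min ρ (An.r P), lt_min hρ0 (An.r_pos P), min_le_right _ _, fun s hs h0 hb => ?_⟩
  have h1 := hρ (An.c P s) ((finite_bad D₀).mem_toFinset.2 hb)
  exact hh (An.c P s) s (lt_of_lt_of_le (lt_of_lt_of_le hs (min_le_left _ _)) h1)
    (lt_of_lt_of_le hs (min_le_right _ _)) h0 rfl

variable (D₀ An) in
/-- the largest admissible radius -/
def rad (P : T.X.Pt) : ℝ := sSup (radSet D₀ An P)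

theorem bddAbove_radSet (P : T.X.Pt) : BddAbove (radSet D₀ An P) :=
  ⟨An.r P, fun _ h => h.2.1⟩

variable (D₀ An) in
theorem isRad_rad : IsRad D₀ An (rad D₀ An) where
  pos P := by
    obtain ⟨ρ, hρ⟩ := radSet_nonempty (D₀ := D₀) (An := An) P
    exact lt_of_lt_of_le hρ.1 (le_csSup (bddAbove_radSet P) hρ)
  le P := csSup_le (radSet_nonempty P) fun _ h => h.2.1
  iso P s hs h0 := by
    obtain ⟨ρ, hρ, hlt⟩ := exists_lt_of_lt_csSup (radSet_nonempty (D₀ := D₀) (An := An) P)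
      (mem_b.1 hs)
    have h := hρ.2.2 s hlt h0
    unfold Bad at h
    push Not at h
    exact h

/-- the canonical radii are invariant under automorphisms -/
theorem rad_symm {θ : K ≃ₐ[ℂ] K} {σ : T.X.Pt → T.X.Pt} (h : An.Equiv θ σ)
    (hσ : ∀ P, Bad D₀ P ↔ Bad D₀ (σ P)) (P : T.X.Pt) : rad D₀ An (σ P) = rad D₀ An P := by
  unfold rad
  congr 1
  ext ρ
  have key : ∀ ρ ≤ An.r P, ∀ s : ℂ, ‖s‖ < ρ →
      (¬ Bad D₀ (An.c (σ P) s) ↔ ¬ Bad D₀ (An.c P s)) := by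
    intro ρ hρ s hs
    rw [h.c P s (mem_b.2 (lt_of_lt_of_le hs hρ)), ← hσ]
  constructor
  · rintro ⟨h1, h2, h3⟩
    rw [h.r P] at h2
    exact ⟨h1, h2, fun s hs h0 => (key ρ h2 s hs).1 (h3 s hs h0)⟩
  · rintro ⟨h1, h2, h3⟩
    refine ⟨h1, by rw [h.r P]; exact h2, fun s hs h0 => (key ρ h2 s hs).2 (h3 s hs h0)⟩

end Sig

end

end Pool.Agent.YTDA
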