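import Pool.Agent.YTDA.LocMain
import Pool.Agent.YTDA.SigE

/-!
# Smaller discs

The existence of the analytic structure of the curve, with discs whose punctured part does not meet
the divisor of the differential `dx₀`.
-/

set_option autoImplicit false

namespace Pool.Agent.YTDA

open Complex Set Topology Filter Metric
open Pool.Agent.YTD

noncomputable section

section shrink

variable {K : Type} [Field K] [Algebra ℂ K] {X : CurveOrd K}

/-- The same analytic structure with smaller discs. -/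
def AnCurve.shr (An : AnCurve X) (r : X.Pt → ℝ) (h0 : ∀ P, 0 < r P) (hle : ∀ P, r P ≤ An.r P) :
    AnCurve X where
  r := r
  r_pos := h0
  c := An.c
  c_zero := An.c_zero
  inj P := (An.inj P).mono (ball_subset_ball (hle P))
  fn := An.fn
  fn_mero P z := fun s hs => An.fn_mero P z s (ball_subset_ball (hle P) hs)
  fn_add P z w s hs := An.fn_add P z w s (ball_subset_ball (hle P) hs)
  fn_mul P z w s hs := An.fn_mul P z w s (ball_subset_ball (hle P) hs)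
  fn_const P a s hs := An.fn_const P a s (ball_subset_ball (hle P) hs)
  ord P z hz s hs := An.ord P z hz s (ball_subset_ball (hle P) hs)
  tr P Q s hs s' hs' h :=
    An.tr P Q s (ball_subset_ball (hle P) hs) s' (ball_subset_ball (hle Q) hs') h
  t2 := An.t2
  cpt := An.cpt

theorem AnCurve.Equiv.shr {An : AnCurve X} {θ : K ≃ₐ[ℂ] K} {σ : X.Pt → X.Pt}
    (h : An.Equiv θ σ) (r : X.Pt → ℝ) (h0 : ∀ P, 0 < r P) (hle : ∀ P, r P ≤ An.r P)
    (hr : ∀ P, r (σ P) = r P) : (An.shr r h0 hle).Equiv θ σ where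
  r := hr
  c P s hs := h.c P s (ball_subset_ball (hle P) hs)
  fn P z s hs := h.fn P z s (ball_subset_ball (hle P) hs)

end shrink

/-- a function invariant under an involution -/
def minS {α : Type} (σ : α → α) (r : α → ℝ) (P : α) : ℝ := min (r P) (r (σ P))

theorem minS_self {α : Type} {σ : α → α} (hσ : ∀ P, σ (σ P) = P) (r : α → ℝ) (P : α) :
    minS σ r (σ P) = minS σ r P := by
  unfold minS
  rw [hσ, min_comm]

theorem minS_other {α : Type} {σ τ : α → α} (h : ∀ P, σ (τ P) = τ (σ P)) {r : α → ℝ}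
    (hr : ∀ P, r (τ P) = r P) (P : α) : minS σ r (τ P) = minS σ r P := by
  unfold minS
  rw [h, hr, hr]

theorem minS_pos {α : Type} {σ : α → α} {r : α → ℝ} (hr : ∀ P, 0 < r P) (P : α) :
    0 < minS σ r P := lt_min (hr _) (hr _)

theorem minS_le {α : Type} {σ : α → α} {r : α → ℝ} (P : α) : minS σ r P ≤ r P := min_le_left _ _

/-- The analytic structure, with the punctured discs away from the divisor of `dx₀`. -/
theorem exists_an_iso (s : ℕ) (hs : 0 < s) :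
    ∃ (K : Type) (_ : Field K) (_ : Algebra ℂ K) (T : Datum K) (γ : Gam T)
      (An : AnCurve T.X.toCurveOrd), T.t = 8 * s ∧ An.Equiv γ.θ γ.σ ∧ An.Equiv γ.θ₁ γ.σ₁ ∧
      An.Equiv γ.θ₂ γ.σ₂ ∧ ∃ (x₀ : K) (d : T.X.Pt →₀ ℤ),
        (∀ P, meromorphicOrderAt (deriv (An.fn P x₀)) 0 = ((d P : ℤ) : WithTop ℤ)) ∧
        T.X.deg d = 2 * T.X.genus - 2 ∧ (∀ P ∈ T.S, d P = 0) ∧ (∀ P ∈ T.S', d P = 0) ∧
        ∀ P, ∀ s ∈ ball (0 : ℂ) (An.r P), s ≠ 0 → d (An.c P s) = 0 := by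
  obtain ⟨K, i1, i2, T, γ, An, ht, hE, hE₁, hE₂, x₀, d, hd, hdeg, hdS, hdS'⟩ := exists_an s hs
  have hr := Sig.isRad_rad d An
  set ρ : T.X.Pt → ℝ := minS γ.σ₂ (minS γ.σ₁ (minS γ.σ (Sig.rad d An))) with hρ
  have h0 : ∀ P, 0 < ρ P := minS_pos (minS_pos (minS_pos hr.pos))
  have hle' : ∀ P, ρ P ≤ Sig.rad d An P := fun P =>
    (minS_le P).trans ((minS_le P).trans (minS_le P))
  have hle : ∀ P, ρ P ≤ An.r P := fun P => (hle' P).trans (hr.le P)
  have c1 : ∀ P, γ.σ₁ (γ.σ P) = γ.σ (γ.σ₁ P) := fun P => (γ.σcomm₁ P).symm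
  have c2 : ∀ P, γ.σ₂ (γ.σ P) = γ.σ (γ.σ₂ P) := fun P => (γ.σcomm₂ P).symm
  have c3 : ∀ P, γ.σ₂ (γ.σ₁ P) = γ.σ₁ (γ.σ₂ P) := fun P => (γ.σcomm₁₂ P).symm
  have e0 : ∀ P, ρ (γ.σ P) = ρ P :=
    minS_other c2 (minS_other c1 (minS_self γ.σσ _))
  have e1 : ∀ P, ρ (γ.σ₁ P) = ρ P := minS_other c3 (minS_self γ.σσ₁ _)
  have e2 : ∀ P, ρ (γ.σ₂ P) = ρ P := minS_self γ.σσ₂ _
  exact ⟨K, i1, i2, T, γ, An.shr ρ h0 hle, ht, hE.shr ρ h0 hle e0, hE₁.shr ρ h0 hle e1,
    hE₂.shr ρ h0 hle e2, x₀, d, hd, hdeg, hdS, hdS', fun P s hs h =>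
      (hr.iso P s (ball_subset_ball (hle' P) hs) h).2.2⟩

end

end Pool.Agent.YTDA
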