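import Pool.Agent.YTDA.AlgNat

/-!
Jacobi's formula, divergence with a density, positivity.
-/

namespace Pool.Agent.YTDA.Alg

open Finset Matrix

variable {A B : Type*} [CommRing A] [CommRing B] {n : ℕ}

/-- the ring morphism `a ↦ a + ε D a` -/
def epsHom (D : Derivation ℤ A A) : A →+* DualNumber A where
  toFun a := TrivSqZeroExt.inl a + TrivSqZeroExt.inr (D a)
  map_one' := by
    rw [D.map_one_eq_zero, TrivSqZeroExt.inr_zero, add_zero, TrivSqZeroExt.inl_one]
  map_zero' := by
    rw [map_zero, TrivSqZeroExt.inr_zero, add_zero, TrivSqZeroExt.inl_zero]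
  map_add' a b := by
    rw [map_add, TrivSqZeroExt.inr_add, TrivSqZeroExt.inl_add]
    ring
  map_mul' a b := by
    apply TrivSqZeroExt.ext
    · simp
    · simp [Derivation.leibniz, mul_comm]

theorem der_det (D : Derivation ℤ A A) {g gi : Matrix (Fin n) (Fin n) A}
    (h' : g * gi = 1) : D g.det = g.det * (gi * mder D g).trace := by
  have h2 : (epsHom D).mapMatrix g = ((TrivSqZeroExt.inlHom A A).mapMatrix g) *
      (1 + (DualNumber.eps : DualNumber A) •
        (TrivSqZeroExt.inlHom A A).mapMatrix (gi * mder D g)) := by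
    rw [Matrix.mul_add, Matrix.mul_one, Matrix.mul_smul, ← map_mul, ← Matrix.mul_assoc, h',
      Matrix.one_mul]
    ext i j
    · simp [-DualNumber.inr_eq_smul_eps, epsHom, mder, DualNumber.eps]
    · simp [-DualNumber.inr_eq_smul_eps, epsHom, mder, DualNumber.eps]
  have h3 : epsHom D g.det = TrivSqZeroExt.inlHom A A g.det *
      (1 + TrivSqZeroExt.inlHom A A ((gi * mder D g).trace) * DualNumber.eps) := by
    rw [RingHom.map_det, h2, Matrix.det_mul, ← RingHom.map_det, Matrix.det_one_add_smul]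
    congr 1
    have h4 : (DualNumber.eps : DualNumber A) ^ 2 = 0 := by
      rw [sq]
      exact TrivSqZeroExt.inr_mul_inr A 1 1
    rw [h4, mul_zero, add_zero]
    congr 2
    simp only [Matrix.trace, Matrix.diag, map_sum, RingHom.mapMatrix_apply, Matrix.map_apply]
  have h5 := congrArg TrivSqZeroExt.snd h3
  simpa [-DualNumber.inr_eq_smul_eps, epsHom, DualNumber.eps] using h5

namespace KR

variable (k : KR A n)

theorem d_det (i : Fin n) : k.d i k.g.det = k.g.det * k.F i := der_det (k.d i) k.inv'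

theorem db_det (i : Fin n) : k.db i k.g.det = k.g.det * k.Fb i := der_det (k.db i) k.inv'

theorem rho_div (ξ : Fin n → A) : k.g.det * k.div ξ = ∑ i, k.d i (k.g.det * ξ i) := by
  unfold div
  rw [Finset.mul_sum]
  refine Finset.sum_congr rfl fun i _ => ?_
  rw [Derivation.leibniz, k.d_det, smul_eq_mul, smul_eq_mul]
  ring

theorem rho_divb (ξ : Fin n → A) : k.g.det * k.divb ξ = ∑ i, k.db i (k.g.det * ξ i) := by
  unfold divb
  rw [Finset.mul_sum]
  refine Finset.sum_congr rfl fun i _ => ?_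
  rw [Derivation.leibniz, k.db_det, smul_eq_mul, smul_eq_mul]
  ring

end KR

open scoped MatrixOrder ComplexOrder

theorem trace_pos_aux {G : Matrix (Fin n) (Fin n) ℂ} (hG : G.PosDef)
    {M : Matrix (Fin n) (Fin n) ℂ} (hs : M.transpose = M) :
    ∃ r : ℝ, 0 ≤ r ∧ (G⁻¹ * M.map (starRingEnd ℂ) * G⁻¹.transpose * M).trace = r ∧
      (r = 0 → M = 0) := by
  obtain ⟨B, hB⟩ := CStarAlgebra.nonneg_iff_eq_star_mul_self.mp hG.inv.posSemidef.nonneg
  rw [star_eq_conjTranspose] at hB
  have hBu : IsUnit B := by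
    have h1 : IsUnit (Bᴴ * B) := hB ▸ hG.inv.isUnit
    have h2 : IsUnit (Bᴴ * B).det := (Matrix.isUnit_iff_isUnit_det _).1 h1
    rw [Matrix.det_mul] at h2
    exact (Matrix.isUnit_iff_isUnit_det _).2 (isUnit_of_mul_isUnit_right h2)
  set C : Matrix (Fin n) (Fin n) ℂ := B.map (starRingEnd ℂ) * M * Bᴴ with hC
  have hMc : M.map (starRingEnd ℂ) = Mᴴ := by
    rw [Matrix.conjTranspose, hs]
    rfl
  have hCs : Cᴴ = B * M.map (starRingEnd ℂ) * B.transpose := by
    rw [hC, Matrix.conjTranspose_mul, Matrix.conjTranspose_mul, Matrix.conjTranspose_conjTranspose,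
      ← hMc, Matrix.mul_assoc]
    congr 2
    ext i j
    simp [Matrix.conjTranspose_apply]
  have h1 : (G⁻¹ * M.map (starRingEnd ℂ) * G⁻¹.transpose * M).trace = (Cᴴ * C).trace := by
    have e1 : (Bᴴ * B).transpose = B.transpose * B.map (starRingEnd ℂ) := by
      rw [Matrix.transpose_mul]
      rfl
    rw [hCs, hB, e1, hC]
    have e2 : B * M.map (starRingEnd ℂ) * B.transpose * (B.map (starRingEnd ℂ) * M * Bᴴ) =
        (B * M.map (starRingEnd ℂ) * B.transpose * B.map (starRingEnd ℂ) * M) * Bᴴ := by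
      simp only [Matrix.mul_assoc]
    rw [e2]
    conv_rhs => rw [Matrix.trace_mul_comm]
    simp only [Matrix.mul_assoc]
  have h2 : (Cᴴ * C).trace = ((∑ i, ∑ j, ‖C j i‖ ^ 2 : ℝ) : ℂ) := by
    simp only [Matrix.trace, Matrix.diag, Matrix.mul_apply, Matrix.conjTranspose_apply]
    push_cast
    refine Finset.sum_congr rfl fun i _ => Finset.sum_congr rfl fun j _ => ?_
    rw [← Complex.conj_mul', RCLike.star_def]
  refine ⟨∑ i, ∑ j, ‖C j i‖ ^ 2, ?_, h1.trans h2, fun h0 => ?_⟩
  · positivity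
  · have h3 : (Cᴴ * C).trace = 0 := by
      rw [h2, h0, Complex.ofReal_zero]
    have h4 : C = 0 := Matrix.trace_conjTranspose_mul_self_eq_zero_iff.1 h3
    have hB1 : IsUnit (B.map (starRingEnd ℂ)) := by
      have h5 : IsUnit (Bᴴ) := (Matrix.isUnit_conjTranspose B).2 hBu
      have h6 : IsUnit (Bᴴ).transpose := (Matrix.isUnit_transpose _).2 h5
      exact h6
    have hB2 : IsUnit (Bᴴ) := (Matrix.isUnit_conjTranspose B).2 hBu
    rw [hC] at h4
    have h7 : B.map (starRingEnd ℂ) * M = 0 := by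
      rw [← hB2.mul_left_inj, Matrix.zero_mul]
      exact h4
    rw [← hB1.mul_right_inj, Matrix.mul_zero]
    exact h7

end Pool.Agent.YTDA.Alg
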