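import Pool.Agent.YTDA.Smr2
import Pool.Agent.YTDA.Bochner1

/-!
Pointwise formulas for a Kähler structure on the ring of smooth functions; glueing.
-/

namespace Pool.Agent.YTDA

open Complex Set Topology ContDiff ComplexOrder TopologicalSpace

noncomputable section

variable {n : ℕ}

/-! ### Wirtinger derivatives and conjugation -/

theorem fderiv_conjB (f : E n → ℂ) (z v : E n) :
    fderiv ℝ (fun w => (starRingEnd ℂ) (f w)) z v = (starRingEnd ℂ) (fderiv ℝ f z v) := by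
  have h := Complex.conjCLE.comp_fderiv (f := f) (x := z)
  have h1 : (fun w => (starRingEnd ℂ) (f w)) = Complex.conjCLE ∘ f := rfl
  rw [h1, h]
  rfl

theorem dz_conjB (i : Fin n) (f : E n → ℂ) (z : E n) :
    dz i (fun w => (starRingEnd ℂ) (f w)) z = (starRingEnd ℂ) (dzb i f z) := by
  unfold dz dzb
  rw [fderiv_conjB, fderiv_conjB]
  simp only [map_div₀, map_add, map_mul, conj_I, map_ofNat]
  ring

theorem dzb_conjB (i : Fin n) (f : E n → ℂ) (z : E n) :
    dzb i (fun w => (starRingEnd ℂ) (f w)) z = (starRingEnd ℂ) (dz i f z) := by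
  unfold dz dzb
  rw [fderiv_conjB, fderiv_conjB]
  simp only [map_div₀, map_sub, map_mul, conj_I, map_ofNat]
  ring

theorem re_dz (i : Fin n) (f : E n → ℂ) (z : E n) : (dz i f z).re =
    ((fderiv ℝ f z (Pi.single i 1)).re + (fderiv ℝ f z (Pi.single i I)).im) / 2 := by
  unfold dz
  rw [show (2 : ℂ) = ((2 : ℝ) : ℂ) by norm_num, div_ofReal_re]
  simp

theorem re_dzb (i : Fin n) (f : E n → ℂ) (z : E n) : (dzb i f z).re =
    ((fderiv ℝ f z (Pi.single i 1)).re - (fderiv ℝ f z (Pi.single i I)).im) / 2 := by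
  unfold dzb
  rw [show (2 : ℂ) = ((2 : ℝ) : ℂ) by norm_num, div_ofReal_re]
  simp [sub_eq_add_neg]

/-- a real differentiable function with vanishing `∂̄` is holomorphic -/
theorem differentiableAt_of_dzbB {f : E n → ℂ} {z : E n} (hf : DifferentiableAt ℝ f z)
    (h : ∀ i, dzb i f z = 0) : DifferentiableAt ℂ f z := by
  have h1 : ∀ i, fderiv ℝ f z (Pi.single i I) = I * fderiv ℝ f z (Pi.single i 1) := by
    intro i
    have h2 := h i
    unfold dzb at h2
    rw [div_eq_zero_iff, or_iff_left (two_ne_zero)] at h2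
    have h3 : fderiv ℝ f z (Pi.single i 1) = - (I * fderiv ℝ f z (Pi.single i I)) :=
      eq_neg_of_add_eq_zero_left h2
    rw [h3]
    ring_nf
    rw [I_sq]
    ring
  have hsum : ∀ v : E n, v = ∑ i, ((v i).re • (Pi.single i 1 : E n) +
      (v i).im • (Pi.single i I : E n)) := by
    intro v
    ext j
    rw [Finset.sum_apply]
    have : ∀ i, ((v i).re • (Pi.single i 1 : E n) + (v i).im • (Pi.single i I : E n)) j =
        if j = i then v j else 0 := by
      intro i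
      by_cases hij : j = i
      · subst hij
        simp [Complex.re_add_im]
      · simp [hij]
    simp only [this, Finset.sum_ite_eq, Finset.mem_univ, if_true]
  have h4 : ∀ v : E n, fderiv ℝ f z v = ∑ i, v i * fderiv ℝ f z (Pi.single i 1) := by
    intro v
    conv_lhs => rw [hsum v]
    rw [map_sum]
    refine Finset.sum_congr rfl fun i _ => ?_
    rw [map_add, map_smul, map_smul, h1, real_smul, real_smul]
    conv_rhs => rw [← Complex.re_add_im (v i)]
    ring
  let L : E n →L[ℂ] ℂ := ∑ i, (fderiv ℝ f z (Pi.single i 1)) •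
    (ContinuousLinearMap.proj i : E n →L[ℂ] ℂ)
  have h5 : L.restrictScalars ℝ = fderiv ℝ f z := by
    ext v
    rw [h4 v]
    simp only [L, ContinuousLinearMap.coe_restrictScalars', FunLike.coe_sum, Finset.sum_apply,
      _root_.smul_apply, ContinuousLinearMap.proj_apply, smul_eq_mul]
    exact Finset.sum_congr rfl fun i _ => mul_comm _ _
  exact (differentiableAt_iff_restrictScalars ℝ hf).2 ⟨L, h5⟩

/-! ### Kähler structures -/

/-- The ring of smooth functions on `Ω` with the Kähler structure of potential `φ`. -/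
structure KRAt (Ω : Opens (E n)) (φ : E n → ℝ) where
  k : Alg.KR (Sm Ω) n
  d_eq : ∀ i f, k.d i f = dzD i f
  db_eq : ∀ i f, k.db i f = dzbD i f
  g_eval : ∀ i j (z : Ω), (k.g i j).1 z = hess φ z i j
  S_eval : ∀ z : Ω, (k.S).1 z = scal φ z

namespace PolAtlas

variable {Y : Type} [MulAction ℂˣ Y] (A : PolAtlas n Y)

theorem mem_O_ofB {a b : A.ι} {z z' : E n} {c : ℂˣ} (hz : z ∈ A.U a) (hz' : z' ∈ A.U b)
    (h : A.γ b z' = c • A.γ a z) : z ∈ A.O a b ∧ A.τ a b z = z' ∧ A.h a b z = c := by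
  have h0 : z ∈ A.O a b := ⟨hz, z', hz', c, h⟩
  obtain ⟨h1, h2⟩ := A.trans a b z hz ⟨z', hz', c, h⟩
  have h3 : A.γ b (A.τ a b z) = (A.h a b z * c⁻¹) • A.γ b z' := by
    rw [h2, h, smul_smul, inv_mul_cancel_right]
  obtain ⟨h4, h5⟩ := A.inj b z' hz' (A.τ a b z) h1 _ h3
  refine ⟨h0, h4, ?_⟩
  rwa [mul_inv_eq_one] at h5

/-- glueing of local functions -/
theorem exists_glue {R : Type} (f : A.ι → E n → R)
    (hf : ∀ a b, ∀ z ∈ A.O a b, f a z = f b (A.τ a b z)) :
    ∃ F : Y → R, (∀ (c : ℂˣ) y, F (c • y) = F y) ∧ ∀ a, ∀ z ∈ A.U a, F (A.γ a z) = f a z := by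
  choose ia zz hz cc hc using A.cover
  have key : ∀ y a z (c : ℂˣ), z ∈ A.U a → y = c • A.γ a z → f (ia y) (zz y) = f a z := by
    intro y a z c hza hy
    have h1 : A.γ a z = (c⁻¹ * cc y) • A.γ (ia y) (zz y) := by
      rw [mul_smul, ← hc y, hy, inv_smul_smul]
    obtain ⟨h2, h3, -⟩ := A.mem_O_ofB (hz y) hza h1
    rw [hf _ _ _ h2, h3]
  refine ⟨fun y => f (ia y) (zz y), fun c y => ?_, fun a z hza => ?_⟩
  · exact key (c • y) (ia y) (zz y) (c * cc y) (hz y) (by
      conv_lhs => rw [hc y]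
      rw [mul_smul])
  · exact key _ a z 1 hza (one_smul _ _).symm

theorem O_subsetB (a b : A.ι) : A.O a b ⊆ A.U a := fun _ hz => hz.1

theorem τ_memB {a b : A.ι} {z : E n} (hz : z ∈ A.O a b) : A.τ a b z ∈ A.U b :=
  (A.trans a b z hz.1 hz.2).1

theorem γ_τB {a b : A.ι} {z : E n} (hz : z ∈ A.O a b) :
    A.γ b (A.τ a b z) = A.h a b z • A.γ a z :=
  (A.trans a b z hz.1 hz.2).2

/-! ### The derivative of the potential along the circle action -/

/-- `exp (i θ)` as a unit -/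
def expU (θ : ℝ) : ℂˣ := Units.mk0 (exp (θ * I)) (exp_ne_zero _)

theorem norm_expU (θ : ℝ) : ‖(expU θ : ℂ)‖ = 1 := by
  show ‖exp (θ * I)‖ = 1
  exact norm_exp_ofReal_mul_I θ

theorem expU_zpow (θ : ℝ) (k : ℤ) : ((expU θ ^ k : ℂˣ) : ℂ) = exp ((k : ℂ) * θ * I) := by
  rw [Units.val_zpow_eq_zpow_val]
  show (exp (θ * I)) ^ k = _
  rw [← exp_int_mul]
  congr 1
  ring

theorem dact_expU (k : Fin n → ℤ) (θ : ℝ) (z : E n) :
    dact k (expU θ) z = fun j => exp ((k j : ℂ) * θ * I) * z j := by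
  funext j
  unfold dact
  rw [expU_zpow]

theorem norm_zpow_of {c : ℂˣ} (hc : ‖(c : ℂ)‖ = 1) (m : ℤ) : ‖((c ^ m : ℂˣ) : ℂ)‖ = 1 := by
  rw [Units.val_zpow_eq_zpow_val, norm_zpow, hc, one_zpow]

variable {A}

theorem H_act {H : Y → ℝ} (hK : A.IsKahler H) (D : A.DAct) {a : A.ι} {z : E n} (hz : z ∈ A.U a)
    {c : ℂˣ} (hc : ‖(c : ℂ)‖ = 1) : H (D.act c (A.γ a z)) = H (A.γ a (dact (D.k a) c z)) := by
  rw [D.act_γ a z hz, hK.hom, norm_zpow_of hc, one_pow, one_mul]

end PolAtlas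

end

end Pool.Agent.YTDA
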