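import Pool.Agent.YTDA.Bochner2
import Pool.Agent.YTDA.AlgLin

/-!
Local part of the Bochner argument.
-/

namespace Pool.Agent.YTDA

open Complex Set Topology ContDiff ComplexOrder TopologicalSpace Matrix

noncomputable section

variable {n : ℕ}

/-- real divergence of a vector field on `ℂⁿ = ℝ²ⁿ` -/
def rdiv' (X : E n → E n) (z : E n) : ℝ :=
  ∑ i, ((fderiv ℝ X z (Pi.single i 1) i).re + (fderiv ℝ X z (Pi.single i I) i).im)

theorem rdiv'_eq {X : E n → E n} {z : E n} (hX : DifferentiableAt ℝ X z) :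
    rdiv' X z = ∑ i, ((fderiv ℝ (fun w => X w i) z (Pi.single i 1)).re +
      (fderiv ℝ (fun w => X w i) z (Pi.single i I)).im) := by
  unfold rdiv'
  refine Finset.sum_congr rfl fun i _ => ?_
  have h1 : ∀ v, fderiv ℝ (fun w => X w i) z v = fderiv ℝ X z v i := by
    intro v
    have h2 := (hasFDerivAt_pi'.1 hX.hasFDerivAt) i
    rw [h2.fderiv]
    rfl
  rw [h1, h1]

namespace KRAt

variable {Ω : Opens (E n)} {φ : E n → ℝ} (K : KRAt Ω φ)

theorem star_d (i : Fin n) (f : Sm Ω) : star (K.k.d i f) = K.k.db i (star f) := by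
  rw [K.d_eq, K.db_eq, star_dzD]

theorem star_db (i : Fin n) (f : Sm Ω) : star (K.k.db i f) = K.k.d i (star f) := by
  rw [K.d_eq, K.db_eq, star_dzbD]

variable (hp : ∀ z ∈ Ω, (hess φ z).PosDef)

include hp in
theorem star_g (i j : Fin n) : star (K.k.g i j) = K.k.g j i := by
  apply Sm.ext'
  intro z
  rw [star_apply, K.g_eval, K.g_eval]
  exact (hp z z.2).1.apply j i

include hp in
theorem star_gi (i j : Fin n) : star (K.k.gi i j) = K.k.gi j i := by
  have h1 : K.k.g.conjTranspose = K.k.g := by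
    ext i j
    rw [Matrix.conjTranspose_apply, K.star_g hp]
  have h2 : K.k.gi.conjTranspose * K.k.g = 1 := by
    have := congrArg Matrix.conjTranspose K.k.inv'
    rwa [Matrix.conjTranspose_mul, h1, Matrix.conjTranspose_one] at this
  have h3 : K.k.gi.conjTranspose = K.k.gi := by
    calc K.k.gi.conjTranspose = K.k.gi.conjTranspose * (K.k.g * K.k.gi) := by
          rw [K.k.inv', Matrix.mul_one]
      _ = K.k.gi := by rw [← Matrix.mul_assoc, h2, Matrix.one_mul]
  have h4 := congrFun (congrFun h3 j) i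
  rwa [Matrix.conjTranspose_apply] at h4

variable {v : Sm Ω} (hv : star v = v)

include hp hv in
theorem star_W (i : Fin n) : star (K.k.W v i) = K.k.Wb v i := by
  unfold Alg.KR.W Alg.KR.Wb
  rw [star_sum]
  refine Finset.sum_congr rfl fun m _ => ?_
  rw [star_mul', K.star_db, K.star_gi hp, hv, mul_comm]

include hp hv in
theorem star_Am (l m : Fin n) : star (K.k.Am v l m) = K.k.Bm v l m := by
  unfold Alg.KR.Am Alg.KR.Bm
  rw [star_sum]
  refine Finset.sum_congr rfl fun i _ => ?_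
  rw [star_mul', K.star_db, K.star_g hp, K.star_W hp hv]

theorem gi_eval (z : Ω) : K.k.gi.map (evalS z) = (hess φ z)⁻¹ := by
  have h0 : K.k.g.map (evalS z) = hess φ z := by
    ext i j
    exact K.g_eval i j z
  have h1 : K.k.gi.map (evalS z) * hess φ z = 1 := by
    rw [← h0, ← Matrix.map_mul, K.k.inv, Matrix.map_one _ (map_zero _) (map_one _)]
  exact (Matrix.inv_eq_left_inv h1).symm

theorem gi_apply (z : Ω) (i j : Fin n) : (K.k.gi i j).1 z = (hess φ z)⁻¹ i j :=
  congrFun (congrFun (K.gi_eval z) i) j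

theorem det_eval (z : Ω) : (K.k.g.det).1 z = (hess φ z).det := by
  have h0 : K.k.g.map (evalS z) = hess φ z := by
    ext i j
    exact K.g_eval i j z
  rw [← h0, ← evalS_apply]
  have := RingHom.map_det (evalS z : Sm Ω →+* ℂ) K.k.g
  exact this

include hp in
theorem det_real (z : Ω) : ((hess φ z).det.re : ℂ) = (hess φ z).det := by
  have h1 := (hp z z.2).1
  have h2 : (starRingEnd ℂ) (hess φ z).det = (hess φ z).det := by
    have h3 := Matrix.det_conjTranspose (hess φ z)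
    rw [h1.eq] at h3
    exact h3.symm
  exact Complex.conj_eq_iff_re.1 h2

include hp hv in
/-- positivity of the Bochner term -/
theorem P_pos (z : Ω) : 0 ≤ ((K.k.P v).1 z).re ∧ (((K.k.P v).1 z).re = 0 →
    ∀ m i, (K.k.db m (K.k.W v i)).1 z = 0) := by
  set M : Matrix (Fin n) (Fin n) ℂ := fun l m => (K.k.Am v l m).1 z with hM
  have hs : M.transpose = M := by
    ext l m
    show (K.k.Am v m l).1 z = (K.k.Am v l m).1 z
    rw [K.k.Am_symm]
  obtain ⟨r, hr0, hr, hr1⟩ := Alg.trace_pos_aux (hp z z.2) hs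
  have h1 : (K.k.P v).1 z = r := by
    rw [← hr, K.k.P_eq, ← evalS_apply]
    have e1 : ∀ N : Matrix (Fin n) (Fin n) (Sm Ω), evalS z N.trace = (N.map (evalS z)).trace := by
      intro N
      simp only [Matrix.trace, Matrix.diag, map_sum, Matrix.map_apply]
    have e2 : (Matrix.of (K.k.Bm v)).map (evalS z) = M.map (starRingEnd ℂ) := by
      ext l m
      show (K.k.Bm v l m).1 z = (starRingEnd ℂ) ((K.k.Am v l m).1 z)
      rw [← K.star_Am hp hv, star_apply]
    have e3 : (Matrix.of (K.k.Am v)).map (evalS z) = M := rfl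
    rw [e1, Matrix.map_mul, Matrix.map_mul, Matrix.map_mul, K.gi_eval, e2, e3,
      Matrix.transpose_map, K.gi_eval]
  refine ⟨by rw [h1, ofReal_re]; exact hr0, fun h0 m i => ?_⟩
  rw [h1, ofReal_re] at h0
  have h2 := hr1 h0
  rw [K.k.dbW_eq, Sm.sum_apply]
  refine Finset.sum_eq_zero fun l _ => ?_
  have h3 : (K.k.Am v l m).1 z = 0 := congrFun (congrFun h2 l) m
  rw [Sm.mul_apply, h3, zero_mul]

/-- the vector field of the Bochner argument -/
def Xi (v : Sm Ω) (i : Fin n) : Sm Ω :=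
  (1 / 2 : ℂ) • ((K.k.xi v i - v * K.k.W (K.k.lap v) i) - star (v * K.k.Yv v i))

/-- the same as a function on `ℂⁿ` -/
def XiF (v : Sm Ω) (w : E n) : E n := fun i => ext (K.Xi v i).1 w

theorem contDiffOn_XiF (v : Sm Ω) : ContDiffOn ℝ ∞ (K.XiF v) Ω :=
  contDiffOn_pi.2 fun i => (K.Xi v i).2

include K in
theorem contDiffOn_det : ContDiffOn ℝ ∞ (fun z => (hess φ z).det.re) Ω := by
  have h1 : ContDiffOn ℝ ∞ (ext (K.k.g.det).1) Ω := (K.k.g.det).2
  have h2 : ContDiffOn ℝ ∞ (fun z => (ext (K.k.g.det).1 z).re) Ω :=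
    Complex.reCLM.contDiff.comp_contDiffOn h1
  refine h2.congr fun z hz => ?_
  rw [ext_mk _ hz, K.det_eval]

/-- real part of a Wirtinger derivative -/
theorem re_dzD (i : Fin n) (f : Sm Ω) (z : Ω) : ((dzD i f).1 z).re =
    ((fderiv ℝ (ext f.1) z (Pi.single i 1)).re + (fderiv ℝ (ext f.1) z (Pi.single i I)).im) / 2 := by
  rw [dzD_apply, re_dz]

include hp hv in
theorem local_div (hS : ∀ i, K.k.db i K.k.S = 0) (hl : K.k.lich v = 0) (z : Ω) :
    (hess φ z).det.re * ((K.k.P v).1 z).re =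
      rdiv' (fun w => ((hess φ w).det.re : ℂ) • K.XiF v w) z := by
  -- the vector field as an element of the ring
  set Z : Fin n → Sm Ω := fun i => K.k.g.det * K.Xi v i with hZ
  have hdet : star K.k.g.det = K.k.g.det := by
    apply Sm.ext'
    intro w
    rw [star_apply, K.det_eval, ← KRAt.det_real hp w, conj_ofReal]
  have e1 : K.k.g.det * K.k.P v = ∑ i, (K.k.d i (K.k.g.det * (K.k.xi v i -
      v * K.k.W (K.k.lap v) i)) - K.k.db i (K.k.g.det * (v * K.k.Yv v i))) := by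
    rw [K.k.bochner v, hl]
    simp only [hS, mul_zero, Finset.sum_const_zero, add_zero]
    rw [mul_sub, K.k.rho_div, K.k.rho_divb, ← Finset.sum_sub_distrib]
  have e2 : ∀ i, ((K.k.d i (Z i)).1 z).re = (((K.k.d i (K.k.g.det * (K.k.xi v i -
      v * K.k.W (K.k.lap v) i)) - K.k.db i (K.k.g.det * (v * K.k.Yv v i))).1 z).re) / 2 := by
    intro i
    have f1 : Z i = (1 / 2 : ℂ) • (K.k.g.det * (K.k.xi v i - v * K.k.W (K.k.lap v) i) -
        star (K.k.g.det * (v * K.k.Yv v i))) := by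
      rw [hZ]
      simp only [Xi]
      rw [mul_smul_comm, mul_sub, star_mul', star_mul', hdet, star_mul']
    have f2 : (K.k.d i (Z i)).1 z = (1 / 2 : ℂ) * ((K.k.d i (K.k.g.det * (K.k.xi v i -
        v * K.k.W (K.k.lap v) i))).1 z - (starRingEnd ℂ)
        ((K.k.db i (K.k.g.det * (v * K.k.Yv v i))).1 z)) := by
      rw [f1, K.d_eq]
      have g1 : ∀ f : Sm Ω, dzD i ((1 / 2 : ℂ) • f) = (1 / 2 : ℂ) • dzD i f :=
        fun f => (dzD i).map_smul _ _
      rw [g1, Sm.smul_apply, map_sub, Sm.sub_apply, ← K.d_eq, ← K.d_eq, ← K.star_db, star_apply]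
    rw [f2, Sm.sub_apply, Complex.sub_re]
    rw [show (1 / 2 : ℂ) = ((1 / 2 : ℝ) : ℂ) by norm_num, re_ofReal_mul, Complex.sub_re,
      Complex.conj_re]
    ring
  have e3 : (hess φ z).det.re * ((K.k.P v).1 z).re = 2 * ∑ i, ((K.k.d i (Z i)).1 z).re := by
    have f1 : ((K.k.g.det * K.k.P v).1 z).re = (hess φ z).det.re * ((K.k.P v).1 z).re := by
      rw [Sm.mul_apply, K.det_eval, ← KRAt.det_real hp z, re_ofReal_mul, ofReal_re]
    rw [← f1, e1, Sm.sum_apply, Complex.re_sum, Finset.mul_sum]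
    refine Finset.sum_congr rfl fun i _ => ?_
    rw [e2]
    ring
  have hdiff : DifferentiableAt ℝ (fun w => ((hess φ w).det.re : ℂ) • K.XiF v w) z := by
    have h1 : ContDiffOn ℝ ∞ (fun w => ((hess φ w).det.re : ℂ)) Ω :=
      Complex.ofRealCLM.contDiff.comp_contDiffOn (K.contDiffOn_det)
    have h2 : ContDiffOn ℝ ∞ (fun w => ((hess φ w).det.re : ℂ) • K.XiF v w) Ω :=
      h1.smul (K.contDiffOn_XiF v)
    exact (h2.contDiffAt (Ω.isOpen.mem_nhds z.2)).differentiableAt (by simp)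
  rw [e3, rdiv'_eq hdiff, Finset.mul_sum]
  refine Finset.sum_congr rfl fun i _ => ?_
  have h3 : (fun w => (((hess φ w).det.re : ℂ) • K.XiF v w) i) =ᶠ[𝓝 (z : E n)] ext (Z i).1 := by
    refine Filter.eventuallyEq_of_mem (Ω.isOpen.mem_nhds z.2) fun w hw => ?_
    simp only [Pi.smul_apply, smul_eq_mul, XiF]
    rw [ext_mk _ hw, ext_mk _ hw, hZ]
    simp only [Sm.mul_apply]
    rw [K.det_eval, KRAt.det_real hp ⟨w, hw⟩]
  rw [K.d_eq, re_dzD, h3.fderiv_eq]
  ring

end KRAt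

/-! ### Naturality -/

/-- A local holomorphic isometry `τ`. -/
structure HolIso {Ω' Ω : Opens (E n)} {φ' φ : E n → ℝ} (K' : KRAt Ω' φ') (K : KRAt Ω φ)
    (τ : E n → E n) where
  t : Alg.Hol K'.k K.k
  maps : ∀ z ∈ Ω, τ z ∈ Ω'
  T_eval : ∀ f (z : Ω), (t.T f).1 z = f.1 ⟨τ z, maps z z.2⟩
  J_eval : ∀ b a (z : Ω), (t.J b a).1 z = fderiv ℂ τ z (Pi.single a 1) b
  Jb_eq : ∀ b a, t.Jb b a = star (t.J b a)

namespace HolIso

variable {Ω' Ω : Opens (E n)} {φ' φ : E n → ℝ} {K' : KRAt Ω' φ'} {K : KRAt Ω φ} {τ : E n → E n}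
  (h : HolIso K' K τ)

theorem T_star (f : Sm Ω') : h.t.T (star f) = star (h.t.T f) := by
  apply Sm.ext'
  intro z
  rw [h.T_eval, star_apply, star_apply, h.T_eval]

/-- A vector field which is natural for `J`. -/
theorem fderiv_apply' {X' : Fin n → Sm Ω'} {X : Fin n → Sm Ω}
    (hX : ∀ b, ∑ a, h.t.J b a * X a = h.t.T (X' b)) (z : Ω) :
    fderiv ℂ τ z (fun i => (X i).1 z) = fun b => (X' b).1 ⟨τ z, h.maps z z.2⟩ := by
  have h1 : (fun i => (X i).1 z : E n) = ∑ a, (X a).1 z • (Pi.single a (1 : ℂ) : E n) := by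
    ext i
    simp [Finset.sum_apply, Pi.single_apply]
  funext b
  rw [h1, map_sum, Finset.sum_apply, ← h.T_eval, ← hX b, Sm.sum_apply]
  refine Finset.sum_congr rfl fun a _ => ?_
  rw [map_smul, Pi.smul_apply, smul_eq_mul, Sm.mul_apply, h.J_eval, mul_comm]

theorem Xi_T (v : Sm Ω') (b : Fin n) :
    ∑ a, h.t.J b a * K.Xi (h.t.T v) a = h.t.T (K'.Xi v b) := by
  have h1 : ∀ a, h.t.J b a * K.Xi (h.t.T v) a = (1 / 2 : ℂ) • (h.t.J b a * K.k.xi (h.t.T v) a -
      h.t.T v * (h.t.J b a * K.k.W (K.k.lap (h.t.T v)) a) -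
      star (h.t.T v * (h.t.Jb b a * K.k.Yv (h.t.T v) a))) := by
    intro a
    have f1 : star (h.t.Jb b a) = h.t.J b a := by rw [h.Jb_eq, star_star]
    unfold KRAt.Xi
    rw [mul_smul_comm, star_mul', star_mul', star_mul', f1]
    congr 1
    ring
  simp only [h1]
  rw [← Finset.smul_sum, Finset.sum_sub_distrib, Finset.sum_sub_distrib, h.t.xi_T,
    ← Finset.mul_sum, h.t.lap_eq, h.t.J_W, ← star_sum, ← Finset.mul_sum, h.t.Yv_T]
  unfold KRAt.Xi
  have h2 : ∀ f : Sm Ω', h.t.T ((1 / 2 : ℂ) • f) = (1 / 2 : ℂ) • h.t.T f := by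
    intro f
    apply Sm.ext'
    intro z
    rw [h.T_eval, Sm.smul_apply, Sm.smul_apply, h.T_eval]
  rw [h2, map_sub, map_sub, map_mul, h.T_star, map_mul]

end HolIso

end

end Pool.Agent.YTDA
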