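import Pool.Agent.YTDA.Bochner3

/-!
The derivation along the circle action; the local Lichnerowicz equation.
-/

namespace Pool.Agent.YTDA

open Complex Set Topology ContDiff ComplexOrder TopologicalSpace Matrix

noncomputable section

variable {n : ℕ}

/-- the vector field generating the linear circle action with weights `k` -/
def rot (k : Fin n → ℤ) (z : E n) : E n := fun j => I * (k j : ℂ) * z j

theorem contDiff_rot (k : Fin n → ℤ) : ContDiff ℝ ∞ (rot k) := by
  apply contDiff_pi.2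
  intro i
  unfold rot
  exact contDiff_const.mul (contDiff_apply ℝ ℂ i)

theorem hasDerivAt_rot (k : Fin n → ℤ) (z : E n) :
    HasDerivAt (fun θ : ℝ => (fun j => exp ((k j : ℂ) * θ * I) * z j : E n)) (rot k z) 0 := by
  apply hasDerivAt_pi.2
  intro j
  have h1 : HasDerivAt (fun θ : ℝ => ((k j : ℂ) * θ * I)) ((k j : ℂ) * I) 0 := by
    have h0 : HasDerivAt (fun θ : ℝ => (θ : ℂ)) 1 (0 : ℝ) := Complex.ofRealCLM.hasDerivAt
    have := (h0.const_mul (k j : ℂ)).mul_const I
    simpa using this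
  have h2 := (h1.cexp).mul_const (z j)
  have h3 : rot k z j = exp ((k j : ℂ) * (0 : ℝ) * I) * ((k j : ℂ) * I) * z j := by
    rw [show ((k j : ℂ) * ((0 : ℝ) : ℂ) * I) = 0 by simp, Complex.exp_zero]
    unfold rot
    ring
  rw [h3]
  exact h2

theorem exp_rot_zero (k : Fin n → ℤ) (z : E n) :
    (fun j => exp ((k j : ℂ) * (0 : ℝ) * I) * z j : E n) = z := by
  funext j
  simp

theorem deriv_rot {φ : E n → ℝ} {z : E n} (hφ : DifferentiableAt ℝ φ z) (k : Fin n → ℤ) :
    deriv (fun θ : ℝ => φ (fun j => exp ((k j : ℂ) * θ * I) * z j)) 0 =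
      fderiv ℝ φ z (rot k z) := by
  have h1 : HasFDerivAt φ (fderiv ℝ φ z)
      ((fun θ : ℝ => (fun j => exp ((k j : ℂ) * θ * I) * z j : E n)) 0) := by
    have := exp_rot_zero k z
    simp only at this ⊢
    rw [this]
    exact hφ.hasFDerivAt
  exact (h1.comp_hasDerivAt 0 (hasDerivAt_rot k z)).deriv

theorem fderiv_ofReal {φ : E n → ℝ} {z : E n} (hφ : DifferentiableAt ℝ φ z) (u : E n) :
    fderiv ℝ (fun w => (φ w : ℂ)) z u = (fderiv ℝ φ z u : ℝ) := by
  have h := (Complex.ofRealCLM.hasFDerivAt (x := φ z)).comp z hφ.hasFDerivAt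
  have h2 : fderiv ℝ (fun w => (φ w : ℂ)) z = Complex.ofRealCLM.comp (fderiv ℝ φ z) := h.fderiv
  rw [h2]
  rfl

/-- the derivative of `φ` along the circle action -/
def cvF (φ : E n → ℝ) (k : Fin n → ℤ) (z : E n) : ℝ := fderiv ℝ φ z (rot k z)

theorem contDiffOn_cvF {Ω : Opens (E n)} {φ : E n → ℝ} (hφ : ContDiffOn ℝ ∞ φ Ω)
    (k : Fin n → ℤ) : ContDiffOn ℝ ∞ (cvF φ k) Ω :=
  (hφ.fderiv_of_isOpen Ω.isOpen (by simp)).clm_apply (contDiff_rot k).contDiffOn

variable {Ω : Opens (E n)}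

/-- the coordinate functions -/
def coor (j : Fin n) : Sm Ω := ofFn (fun z => z j) (contDiff_apply ℝ ℂ j).contDiffOn

theorem coor_apply (j : Fin n) (z : Ω) : (coor j : Sm Ω).1 z = (z : E n) j := rfl

theorem fderiv_coor (j : Fin n) (z u : E n) : fderiv ℝ (fun w : E n => w j) z u = u j := by
  have : (fun w : E n => w j) = (ContinuousLinearMap.proj j : E n →L[ℝ] ℂ) := rfl
  rw [this, ContinuousLinearMap.fderiv]
  rfl

theorem dzD_coor (i j : Fin n) : dzD i (coor j : Sm Ω) = if i = j then 1 else 0 := by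
  apply Sm.ext'
  intro z
  unfold coor
  rw [dzD_ofFn]
  unfold dz
  rw [fderiv_coor, fderiv_coor]
  by_cases h : i = j
  · subst h
    simp
  · have h' : j ≠ i := fun e => h e.symm
    simp [h, h']

theorem dzbD_coor (i j : Fin n) : dzbD i (coor j : Sm Ω) = 0 := by
  apply Sm.ext'
  intro z
  unfold coor
  rw [dzbD_ofFn]
  unfold dzb
  rw [fderiv_coor, fderiv_coor]
  by_cases h : i = j
  · subst h
    simp
  · have h' : j ≠ i := fun e => h e.symm
    simp [h']

theorem dzD_star_coor (i j : Fin n) : dzD i (star (coor j : Sm Ω)) = 0 := by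
  rw [← star_dzbD, dzbD_coor, star_zero]

theorem dzbD_star_coor (i j : Fin n) :
    dzbD i (star (coor j : Sm Ω)) = if i = j then 1 else 0 := by
  rw [← star_dzD, dzD_coor]
  split
  · exact star_one _
  · exact star_zero _

/-- constants -/
def cst (c : ℂ) : Sm Ω := algebraMap ℂ (Sm Ω) c

theorem cst_apply (c : ℂ) (z : Ω) : (cst c : Sm Ω).1 z = c := rfl

theorem dzD_cst (i : Fin n) (c : ℂ) : dzD i (cst c : Sm Ω) = 0 := (dzD i).map_algebraMap c

theorem dzbD_cst (i : Fin n) (c : ℂ) : dzbD i (cst c : Sm Ω) = 0 := (dzbD i).map_algebraMap c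

/-- the derivation along the circle action -/
def DX (k : Fin n → ℤ) : Derivation ℂ (Sm Ω) (Sm Ω) :=
  ∑ j, ((cst (I * (k j : ℂ)) * coor j : Sm Ω) • dzD j -
    (cst (I * (k j : ℂ)) * star (coor j) : Sm Ω) • dzbD j)

theorem DX_apply (k : Fin n → ℤ) (f : Sm Ω) : DX k f =
    ∑ j, (cst (I * (k j : ℂ)) * coor j * dzD j f -
      cst (I * (k j : ℂ)) * star (coor j) * dzbD j f) := by
  unfold DX
  have h : ∀ (s : Finset (Fin n)) (F : Fin n → Derivation ℂ (Sm Ω) (Sm Ω)),
      (∑ j ∈ s, F j) f = ∑ j ∈ s, F j f := by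
    intro s F
    induction s using Finset.induction_on with
    | empty => simp
    | insert a s ha ih => rw [Finset.sum_insert ha, Finset.sum_insert ha, Derivation.add_apply, ih]
  rw [h]
  refine Finset.sum_congr rfl fun j _ => ?_
  rw [Derivation.sub_apply, Derivation.smul_apply, Derivation.smul_apply, smul_eq_mul, smul_eq_mul]

theorem DX_dzD (k : Fin n → ℤ) (i : Fin n) (f : Sm Ω) :
    DX k (dzD i f) = dzD i (DX k f) - cst (I * (k i : ℂ)) * dzD i f := by
  rw [DX_apply, DX_apply, map_sum, eq_sub_iff_add_eq]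
  have h1 : ∀ j, dzD i (cst (I * (k j : ℂ)) * coor j * dzD j f -
      cst (I * (k j : ℂ)) * star (coor j) * dzbD j f) =
      (cst (I * (k j : ℂ)) * coor j * dzD j (dzD i f) -
      cst (I * (k j : ℂ)) * star (coor j) * dzbD j (dzD i f)) +
      (if i = j then cst (I * (k j : ℂ)) * dzD j f else 0) := by
    intro j
    rw [map_sub, Derivation.leibniz, Derivation.leibniz, Derivation.leibniz, Derivation.leibniz,
      dzD_coor, dzD_star_coor, dzD_cst, dzD_comm, dzD_dzbD_comm]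
    simp only [smul_eq_mul]
    split
    · ring
    · ring
  simp only [h1, Finset.sum_add_distrib, Finset.sum_ite_eq, Finset.mem_univ, if_true]

theorem DX_dzbD (k : Fin n → ℤ) (i : Fin n) (f : Sm Ω) :
    DX k (dzbD i f) = dzbD i (DX k f) - cst (-(I * (k i : ℂ))) * dzbD i f := by
  rw [DX_apply, DX_apply, map_sum, eq_sub_iff_add_eq]
  have h1 : ∀ j, dzbD i (cst (I * (k j : ℂ)) * coor j * dzD j f -
      cst (I * (k j : ℂ)) * star (coor j) * dzbD j f) =
      (cst (I * (k j : ℂ)) * coor j * dzD j (dzbD i f) -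
      cst (I * (k j : ℂ)) * star (coor j) * dzbD j (dzbD i f)) +
      (if i = j then cst (-(I * (k j : ℂ))) * dzbD j f else 0) := by
    intro j
    have h2 : (cst (-(I * (k j : ℂ))) : Sm Ω) = - cst (I * (k j : ℂ)) := by
      apply Sm.ext'
      intro z
      rw [cst_apply, Sm.neg_apply, cst_apply]
    rw [map_sub, Derivation.leibniz, Derivation.leibniz, Derivation.leibniz, Derivation.leibniz,
      dzbD_coor, dzbD_star_coor, dzbD_cst, dzbD_comm, ← dzD_dzbD_comm, h2]
    simp only [smul_eq_mul]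
    split
    · ring
    · ring
  simp only [h1, Finset.sum_add_distrib, Finset.sum_ite_eq, Finset.mem_univ, if_true]

theorem DX_ofR {φ : E n → ℝ} (hφ : ContDiffOn ℝ ∞ φ Ω) (k : Fin n → ℤ) :
    DX k (ofR φ hφ : Sm Ω) = ofR (cvF φ k) (contDiffOn_cvF hφ k) := by
  apply Sm.ext'
  intro z
  have hd : DifferentiableAt ℝ φ z :=
    (hφ.contDiffAt (Ω.isOpen.mem_nhds z.2)).differentiableAt (by simp)
  rw [DX_apply, Sm.sum_apply, ofR_apply, cvF, ← fderiv_ofReal hd, fderiv_eq_dz_dzb]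
  refine Finset.sum_congr rfl fun j _ => ?_
  have h1 : (dzD j (ofR φ hφ : Sm Ω)).1 z = dz j (fun w => (φ w : ℂ)) z := dzD_ofFn _ _ _ _
  have h2 : (dzbD j (ofR φ hφ : Sm Ω)).1 z = dzb j (fun w => (φ w : ℂ)) z := dzbD_ofFn _ _ _ _
  simp only [Sm.sub_apply, Sm.mul_apply, h1, h2, cst_apply, coor_apply, star_apply, rot]
  simp only [map_mul, conj_I, map_intCast]
  ring

namespace KRAt

variable {φ : E n → ℝ} (K : KRAt Ω φ) (hφ : ContDiffOn ℝ ∞ φ Ω)

theorem g_eq (i j : Fin n) : K.k.g i j = dzD i (dzbD j (ofR φ hφ)) := by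
  apply Sm.ext'
  intro z
  rw [K.g_eval, dzD_apply]
  refine dz_congr ?_
  refine Filter.eventuallyEq_of_mem (Ω.isOpen.mem_nhds z.2) fun w hw => ?_
  rw [ext_mk _ hw]
  exact (dzbD_ofFn j (fun w => (φ w : ℂ)) _ ⟨w, hw⟩).symm

theorem S_const {s : ℂ} (hs : ∀ z ∈ Ω, scal φ z = s) : K.k.S = cst s := by
  apply Sm.ext'
  intro z
  rw [K.S_eval, hs z z.2, cst_apply]

include K hφ in
/-- the Lichnerowicz equation -/
theorem lich_eq {s : ℂ} (hs : ∀ z ∈ Ω, scal φ z = s) (k : Fin n → ℤ) :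
    K.k.lich (ofR (cvF φ k) (contDiffOn_cvF hφ k)) = 0 := by
  have h := K.k.lin_D_S ((DX k).restrictScalars ℤ) (fun i => cst (I * (k i : ℂ)))
    (fun i => cst (-(I * (k i : ℂ))))
    (fun i j => by rw [K.d_eq, dzD_cst]) (fun i j => by rw [K.db_eq, dzbD_cst])
    (fun i f => by
      rw [K.d_eq, K.d_eq]
      exact DX_dzD k i f)
    (fun i f => by
      rw [K.db_eq, K.db_eq]
      exact DX_dzbD k i f)
    (fun i j => by rw [K.d_eq, dzD_cst])
    (ofR (cvF φ k) (contDiffOn_cvF hφ k))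
    (fun i j => by
      rw [K.g_eq hφ, ← DX_ofR hφ, K.d_eq, K.db_eq]
      show DX k _ = _
      rw [DX_dzD, DX_dzbD, map_sub, Derivation.leibniz, dzD_cst]
      simp only [smul_eq_mul]
      ring)
  rw [K.S_const hs] at h
  have h2 : ((DX k).restrictScalars ℤ : Derivation ℤ (Sm Ω) (Sm Ω)) (cst s) = 0 :=
    (DX k).map_algebraMap s
  rw [h2] at h
  exact neg_eq_zero.1 h.symm

end KRAt

end

end Pool.Agent.YTDA
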