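import Pool.Agent.YTDA.Smr4
import Pool.Agent.YTDA.AlgNat

/-!
# The Kähler ring of a potential; naturality under holomorphic maps
-/

namespace Pool.Agent.YTDA

open Complex Set Topology ContDiff ComplexOrder TopologicalSpace Matrix Alg

noncomputable section

set_option linter.unusedSectionVars false

section KrS

variable {n : ℕ} {Ω : Opens (E n)}

/-- the Kähler ring of a function whose complex Hessian is invertible -/
def krS (f : Sm Ω) (hd : IsUnit (hessS f).det) : KR (Sm Ω) n where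
  d i := (dzD i).restrictScalars ℤ
  db i := (dzbD i).restrictScalars ℤ
  dd i j f := dzD_comm i j f
  ddb i j f := dzD_dzbD_comm i j f
  dbdb i j f := dzbD_comm i j f
  g := hessS f
  gi := (hessS f)⁻¹
  inv := Matrix.nonsing_inv_mul _ hd
  inv' := Matrix.mul_nonsing_inv _ hd
  k1 i j a := dzD_hessS f i j a
  k2 a b i := dzbD_hessS f a i b

variable (f : Sm Ω) (hd : IsUnit (hessS f).det)

@[simp] theorem krS_d (i : Fin n) (u : Sm Ω) : (krS f hd).d i u = dzD i u := rfl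

@[simp] theorem krS_db (i : Fin n) (u : Sm Ω) : (krS f hd).db i u = dzbD i u := rfl

@[simp] theorem krS_g (i j : Fin n) : (krS f hd).g i j = dzD i (dzbD j f) := rfl

theorem krS_g' : (krS f hd).g = hessS f := rfl

theorem krS_gi : (krS f hd).gi = (hessS f)⁻¹ := rfl

variable {f} (hf : star f = f)
include hf

theorem star_krS_g (i j : Fin n) : star ((krS f hd).g i j) = (krS f hd).g j i := star_hessS hf i j

theorem star_krS_gi (i j : Fin n) : star ((krS f hd).gi i j) = (krS f hd).gi j i := by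
  have h1 : ((hessS f)⁻¹)ᴴ = (hessS f)⁻¹ := by
    rw [Matrix.conjTranspose_nonsing_inv, (isHermitian_hessS hf).eq]
  have h2 := congrFun (congrFun h1 j) i
  rw [Matrix.conjTranspose_apply] at h2
  exact h2

theorem star_krS_F (i : Fin n) : star ((krS f hd).F i) = (krS f hd).Fb i := by
  rw [KR.F_eq, KR.Fb_eq, star_sum]
  simp only [star_sum, star_mul', star_krS_gi hd hf, krS_d, krS_db, star_dzD, star_krS_g hd hf]
  rw [Finset.sum_comm]

theorem star_krS_R (i j : Fin n) : star ((krS f hd).R i j) = (krS f hd).R j i := by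
  rw [KR.R, KR.R_eq, star_neg, krS_db, krS_d, star_dzbD, star_krS_F hd hf]

theorem star_krS_lap (u : Sm Ω) : star ((krS f hd).lap u) = (krS f hd).lap (star u) := by
  rw [KR.lap, KR.lap, star_sum]
  simp only [star_sum, star_mul', star_krS_gi hd hf, krS_d, krS_db, star_dzD, star_dzbD]
  rw [Finset.sum_comm]
  refine Finset.sum_congr rfl fun i _ => Finset.sum_congr rfl fun j _ => ?_
  rw [dzD_dzbD_comm]

theorem star_krS_W (u : Sm Ω) (i : Fin n) :
    star ((krS f hd).W u i) = (krS f hd).Wb (star u) i := by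
  rw [KR.W, KR.Wb, star_sum]
  refine Finset.sum_congr rfl fun j _ => ?_
  rw [star_mul', star_krS_gi hd hf, krS_db, krS_d, star_dzbD, mul_comm]

theorem star_krS_Wb (u : Sm Ω) (i : Fin n) :
    star ((krS f hd).Wb u i) = (krS f hd).W (star u) i := by
  have h := star_krS_W hd hf (star u) i
  rw [star_star] at h
  rw [← h, star_star]

theorem star_krS_S : star (krS f hd).S = (krS f hd).S := by
  rw [KR.S, star_sum]
  simp only [star_sum, star_mul', star_krS_gi hd hf, star_krS_R hd hf]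
  rw [Finset.sum_comm]

omit hf

/-- the logarithmic derivative of the determinant -/
theorem krS_F (hp : ∀ z, 0 < (hessS f).det.1 z) (i : Fin n) :
    (krS f hd).F i = dzD i (logS (hessS f).det hp) := by
  rw [KR.F_eq, DS_logdet (dzD_mem_DS i) _ hp]
  rfl

theorem krS_Fb (hp : ∀ z, 0 < (hessS f).det.1 z) (i : Fin n) :
    (krS f hd).Fb i = dzbD i (logS (hessS f).det hp) := by
  rw [KR.Fb_eq, DS_logdet (dzbD_mem_DS i) _ hp]
  rfl

theorem krS_R (hp : ∀ z, 0 < (hessS f).det.1 z) (i j : Fin n) :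
    (krS f hd).R i j = -dzD i (dzbD j (logS (hessS f).det hp)) := by
  rw [KR.R_eq, krS_Fb hd hp]
  rfl

theorem krS_S (hp : ∀ z, 0 < (hessS f).det.1 z) :
    (krS f hd).S = -∑ i, ∑ j, (hessS f)⁻¹ j i * dzD i (dzbD j (logS (hessS f).det hp)) := by
  rw [KR.S, ← Finset.sum_neg_distrib]
  refine Finset.sum_congr rfl fun i _ => ?_
  rw [← Finset.sum_neg_distrib]
  refine Finset.sum_congr rfl fun j _ => ?_
  rw [krS_R hd hp, mul_neg, krS_gi]

end KrS

section KrOf

variable {n : ℕ} {Ω : Opens (E n)} {φ : E n → ℝ} (hφ : ContDiffOn ℝ ∞ φ Ω)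
  (hp : ∀ z ∈ Ω, (hess φ z).PosDef)

include hp in
theorem isUnit_det_hessS : IsUnit (hessS (ofR φ hφ : Sm Ω)).det :=
  isUnit_of_pos (det_pos_of_posDef hφ hp)

/-- the Kähler ring of a strictly plurisubharmonic potential -/
def krOf : KR (Sm Ω) n := krS (ofR φ hφ) (isUnit_det_hessS hφ hp)

@[simp] theorem krOf_d (i : Fin n) (u : Sm Ω) : (krOf hφ hp).d i u = dzD i u := rfl

@[simp] theorem krOf_db (i : Fin n) (u : Sm Ω) : (krOf hφ hp).db i u = dzbD i u := rfl

theorem krOf_g (i j : Fin n) : (krOf hφ hp).g i j = dzD i (dzbD j (ofR φ hφ)) := rfl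

theorem krOf_g' : (krOf hφ hp).g = hessS (ofR φ hφ) := rfl

theorem krOf_gi : (krOf hφ hp).gi = (hessS (ofR φ hφ))⁻¹ := rfl

theorem krOf_g_apply (i j : Fin n) (z : Ω) : ((krOf hφ hp).g i j).1 z = hess φ z i j :=
  (hess_apply_eq φ hφ z i j).symm

theorem evM_krOf_g (z : Ω) : evM z (krOf hφ hp).g = hess φ z := (hess_eq φ hφ z).symm

theorem evM_krOf_gi (z : Ω) : evM z (krOf hφ hp).gi = (hess φ z)⁻¹ := by
  rw [krOf_gi, evM_inv z _ (isUnit_det_hessS hφ hp), ← hess_eq]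

theorem krOf_gi_apply (i j : Fin n) (z : Ω) : ((krOf hφ hp).gi i j).1 z = (hess φ z)⁻¹ i j := by
  rw [← evM_krOf_gi hφ hp]
  rfl

theorem krOf_F (i : Fin n) :
    (krOf hφ hp).F i = dzD i (logS (hessS (ofR φ hφ)).det (det_pos_of_posDef hφ hp)) :=
  krS_F _ _ i

theorem krOf_Fb (i : Fin n) :
    (krOf hφ hp).Fb i = dzbD i (logS (hessS (ofR φ hφ)).det (det_pos_of_posDef hφ hp)) :=
  krS_Fb _ _ i

theorem krOf_F_apply (i : Fin n) (z : Ω) :
    ((krOf hφ hp).F i).1 z = dz i (fun w => (logdet φ w : ℂ)) z := by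
  rw [krOf_F, ← ofR_logdet hφ (det_pos_of_posDef hφ hp)
    (contDiffOn_logdet hφ (det_pos_of_posDef hφ hp))]
  exact dzD_ofFn i _ _ z

theorem krOf_Fb_apply (i : Fin n) (z : Ω) :
    ((krOf hφ hp).Fb i).1 z = dzb i (fun w => (logdet φ w : ℂ)) z := by
  rw [krOf_Fb, ← ofR_logdet hφ (det_pos_of_posDef hφ hp)
    (contDiffOn_logdet hφ (det_pos_of_posDef hφ hp))]
  exact dzbD_ofFn i _ _ z

theorem krOf_R_apply (i j : Fin n) (z : Ω) :
    ((krOf hφ hp).R i j).1 z = -hess (logdet φ) z i j := by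
  have h := krS_R (isUnit_det_hessS hφ hp) (det_pos_of_posDef hφ hp) i j
  rw [hess_apply_eq (logdet φ) (contDiffOn_logdet hφ (det_pos_of_posDef hφ hp)),
    ofR_logdet hφ (det_pos_of_posDef hφ hp)]
  show ((krS _ _).R i j).1 z = _
  rw [h]
  rfl

theorem krOf_S_apply (z : Ω) : (krOf hφ hp).S.1 z = scal φ z := by
  rw [scal_eq hφ (det_pos_of_posDef hφ hp) z]
  show (krS _ _).S.1 z = _
  rw [krS_S _ (det_pos_of_posDef hφ hp)]

theorem star_krOf_g (i j : Fin n) : star ((krOf hφ hp).g i j) = (krOf hφ hp).g j i :=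
  star_krS_g _ (star_ofR _ _) i j

theorem star_krOf_gi (i j : Fin n) : star ((krOf hφ hp).gi i j) = (krOf hφ hp).gi j i :=
  star_krS_gi _ (star_ofR _ _) i j

theorem star_krOf_F (i : Fin n) : star ((krOf hφ hp).F i) = (krOf hφ hp).Fb i :=
  star_krS_F _ (star_ofR _ _) i

theorem star_krOf_R (i j : Fin n) : star ((krOf hφ hp).R i j) = (krOf hφ hp).R j i :=
  star_krS_R _ (star_ofR _ _) i j

theorem star_krOf_lap (u : Sm Ω) : star ((krOf hφ hp).lap u) = (krOf hφ hp).lap (star u) :=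
  star_krS_lap _ (star_ofR _ _) u

theorem star_krOf_W (u : Sm Ω) (i : Fin n) :
    star ((krOf hφ hp).W u i) = (krOf hφ hp).Wb (star u) i :=
  star_krS_W _ (star_ofR _ _) u i

theorem star_krOf_Wb (u : Sm Ω) (i : Fin n) :
    star ((krOf hφ hp).Wb u i) = (krOf hφ hp).W (star u) i :=
  star_krS_Wb _ (star_ofR _ _) u i

theorem star_krOf_S : star (krOf hφ hp).S = (krOf hφ hp).S := star_krS_S _ (star_ofR _ _)

end KrOf

section PH

variable {n : ℕ} {Ω : Opens (E n)} {h : E n → ℂ}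

theorem contDiffOn_log_norm (hh : DifferentiableOn ℂ h Ω) (h0 : ∀ z ∈ Ω, h z ≠ 0) :
    ContDiffOn ℝ ∞ (fun z => Real.log (‖h z‖ ^ 2)) Ω := by
  refine ContDiffOn.log ?_ fun z hz => pow_ne_zero 2 (norm_ne_zero_iff.2 (h0 z hz))
  exact (smooth_of_hol' hh).norm_sq ℝ

/-- `log |h|²` is pluriharmonic -/
theorem hess_log_norm (hh : DifferentiableOn ℂ h Ω) (h0 : ∀ z ∈ Ω, h z ≠ 0)
    (hc : ContDiffOn ℝ ∞ (fun z => Real.log (‖h z‖ ^ 2)) Ω) (i j : Fin n) :
    dzD i (dzbD j (ofR (fun z => Real.log (‖h z‖ ^ 2)) hc : Sm Ω)) = 0 := by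
  set H : Sm Ω := ofFn h (smooth_of_hol' hh) with hH
  have hpos : ∀ z : Ω, 0 < (H * star H).1 z := by
    intro z
    rw [Sm.mul_apply, star_apply, mul_conj]
    exact_mod_cast normSq_pos.2 (h0 z z.2)
  have hL : (ofR (fun z => Real.log (‖h z‖ ^ 2)) hc : Sm Ω) = logS (H * star H) hpos := by
    apply Sm.ext'
    intro z
    rw [ofR_apply, logS_apply, Sm.mul_apply, star_apply, mul_conj, ofReal_re, normSq_eq_norm_sq]
    rfl
  have hu : IsUnit H := (isUnit_iff_ne H).2 fun z => h0 z z.2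
  have hus : IsUnit (star H) := by
    rw [isUnit_iff_ne]
    intro z
    rw [star_apply]
    exact (map_ne_zero _).2 (h0 z z.2)
  have h1 : star H * dzbD j (logS (H * star H) hpos) = dzbD j (star H) := by
    apply hu.mul_left_cancel
    rw [← mul_assoc, mul_DS_logS (dzbD_mem_DS j), Derivation.leibniz,
      show dzbD j H = 0 from dzbD_ofFn_hol hh j]
    simp
  have h2 : star H * dzD i (dzbD j (logS (H * star H) hpos)) = 0 := by
    have h3 := congrArg (dzD i) h1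
    rw [Derivation.leibniz, dzD_dzbD_comm i j (star H),
      show dzD i (star H) = 0 from dzD_star_ofFn_hol hh i, map_zero] at h3
    simpa using h3
  rw [hL]
  exact hus.mul_left_cancel (h2.trans (mul_zero _).symm)

end PH

section HolOf

variable {n : ℕ} {Ω Ω' : Opens (E n)} {τ : E n → E n}

/-- the holomorphic Jacobian matrix -/
def jacS (hτ : DifferentiableOn ℂ τ Ω) : Matrix (Fin n) (Fin n) (Sm Ω) :=
  Matrix.of fun b a => dzD a (coS (smooth_of_hol hτ) b)

theorem jacS_apply (hτ : DifferentiableOn ℂ τ Ω) (b a : Fin n) (z : Ω) :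
    (jacS hτ b a).1 z = fderiv ℂ τ z (Pi.single a 1) b := dzD_coS hτ a b z

theorem evM_jacS (hτ : DifferentiableOn ℂ τ Ω) (z : Ω) :
    evM z (jacS hτ) = LinearMap.toMatrix' (fderiv ℂ τ z : E n →ₗ[ℂ] E n) := by
  ext b a
  rw [evM_apply, jacS_apply, LinearMap.toMatrix'_apply]
  congr 2

theorem det_jacS (hτ : DifferentiableOn ℂ τ Ω) (z : Ω) :
    (jacS hτ).det.1 z = (fderiv ℂ τ z).det := by
  rw [← det_evM, evM_jacS, LinearMap.det_toMatrix']

theorem isUnit_det_jacS (hτ : DifferentiableOn ℂ τ Ω)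
    (hdet : ∀ z ∈ Ω, (fderiv ℂ τ z).det ≠ 0) : IsUnit (jacS hτ).det := by
  rw [isUnit_iff_ne]
  intro z
  rw [det_jacS]
  exact hdet z z.2

theorem map_star_mul (M N : Matrix (Fin n) (Fin n) (Sm Ω)) :
    (M * N).map star = M.map star * N.map star := by
  ext i j
  simp only [Matrix.map_apply, Matrix.mul_apply, star_sum, star_mul']

theorem map_star_one : (1 : Matrix (Fin n) (Fin n) (Sm Ω)).map star = 1 := by
  ext i j
  by_cases h : i = j
  · subst h
    simp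
  · simp [h]

variable {φ φ' : E n → ℝ} (hφ : ContDiffOn ℝ ∞ φ Ω) (hp : ∀ z ∈ Ω, (hess φ z).PosDef)
  (hφ' : ContDiffOn ℝ ∞ φ' Ω') (hp' : ∀ z ∈ Ω', (hess φ' z).PosDef)

/-- transformation of the complex Hessian matrix -/
theorem hessS_trans (hτ : DifferentiableOn ℂ τ Ω) (hm : MapsTo τ Ω Ω')
    (h : E n → ℂ) (hh : DifferentiableOn ℂ h Ω) (h0 : ∀ z ∈ Ω, h z ≠ 0)
    (hφφ' : ∀ z ∈ Ω, φ' (τ z) = φ z + Real.log (‖h z‖ ^ 2)) :
    hessS (ofR φ hφ : Sm Ω) = (jacS hτ).transpose *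
      (hessS (ofR φ' hφ')).map (pull (smooth_of_hol hτ) hm : Sm Ω' →+* Sm Ω) *
      (jacS hτ).map star := by
  have hc := contDiffOn_log_norm hh h0
  have h1 : (ofR φ hφ : Sm Ω) = pull (smooth_of_hol hτ) hm (ofR φ' hφ') -
      ofR (fun z => Real.log (‖h z‖ ^ 2)) hc := by
    apply Sm.ext'
    intro z
    rw [Sm.sub_apply, pull_apply, ofR_apply, ofR_apply, ofR_apply]
    have h2 := hφφ' z z.2
    simp only [h2]
    push_cast
    ring
  ext i j
  show dzD i (dzbD j (ofR φ hφ)) = _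
  rw [h1, map_sub, map_sub, hess_log_norm hh h0 hc, sub_zero, hess_pull hτ hm,
    Matrix.mul_apply]
  refine Finset.sum_congr rfl fun b _ => ?_
  rw [Matrix.mul_apply, Finset.sum_mul]
  refine Finset.sum_congr rfl fun a _ => ?_
  show _ = jacS hτ a i * pull (smooth_of_hol hτ) hm (dzD a (dzbD b (ofR φ' hφ'))) *
    star (jacS hτ b j)
  rw [mul_comm (jacS hτ a i)]
  rfl

/-- the pull-back of a Kähler ring under a local biholomorphism; `φ' ∘ τ = φ + log |h|²` -/
def holOf (hτ : DifferentiableOn ℂ τ Ω) (hm : MapsTo τ Ω Ω')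
    (hdet : ∀ z ∈ Ω, (fderiv ℂ τ z).det ≠ 0) (h : E n → ℂ) (hh : DifferentiableOn ℂ h Ω)
    (h0 : ∀ z ∈ Ω, h z ≠ 0) (hφφ' : ∀ z ∈ Ω, φ' (τ z) = φ z + Real.log (‖h z‖ ^ 2)) :
    Hol (krOf hφ' hp') (krOf hφ hp) where
  T := (pull (smooth_of_hol hτ) hm : Sm Ω' →+* Sm Ω)
  J := jacS hτ
  Jb := (jacS hτ).map star
  Ji := (jacS hτ)⁻¹
  Jbi := ((jacS hτ)⁻¹).map star
  hJ := Matrix.nonsing_inv_mul _ (isUnit_det_jacS hτ hdet)
  hJ' := Matrix.mul_nonsing_inv _ (isUnit_det_jacS hτ hdet)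
  hJb := by
    rw [← map_star_mul, Matrix.nonsing_inv_mul _ (isUnit_det_jacS hτ hdet), map_star_one]
  hJb' := by
    rw [← map_star_mul, Matrix.mul_nonsing_inv _ (isUnit_det_jacS hτ hdet), map_star_one]
  d_T a f := dzD_pull hτ hm a f
  db_T a f := dzbD_pull hτ hm a f
  db_J c b a := by
    show dzbD c (dzD a (coS (smooth_of_hol hτ) b)) = 0
    rw [← dzD_dzbD_comm, dzbD_coS hτ, map_zero]
  d_Jb c b a := dzD_star_dzD_coS hτ c a b
  g := hessS_trans hφ hφ' hτ hm h hh h0 hφφ'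

section

variable (hτ : DifferentiableOn ℂ τ Ω) (hm : MapsTo τ Ω Ω')
    (hdet : ∀ z ∈ Ω, (fderiv ℂ τ z).det ≠ 0) (h : E n → ℂ) (hh : DifferentiableOn ℂ h Ω)
    (h0 : ∀ z ∈ Ω, h z ≠ 0) (hφφ' : ∀ z ∈ Ω, φ' (τ z) = φ z + Real.log (‖h z‖ ^ 2))

@[simp] theorem holOf_T (f : Sm Ω') : (holOf hφ hp hφ' hp' hτ hm hdet h hh h0 hφφ').T f =
    pull (smooth_of_hol hτ) hm f := rfl

theorem holOf_T_apply (f : Sm Ω') (z : Ω) :
    ((holOf hφ hp hφ' hp' hτ hm hdet h hh h0 hφφ').T f).1 z = f.1 ⟨τ z, hm z.2⟩ := by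
  rw [holOf_T, pull_apply]

theorem holOf_J_apply (b a : Fin n) (z : Ω) :
    ((holOf hφ hp hφ' hp' hτ hm hdet h hh h0 hφφ').J b a).1 z =
      fderiv ℂ τ z (Pi.single a 1) b := jacS_apply hτ b a z

theorem holOf_Jb_apply (b a : Fin n) (z : Ω) :
    ((holOf hφ hp hφ' hp' hτ hm hdet h hh h0 hφφ').Jb b a).1 z =
      (starRingEnd ℂ) (fderiv ℂ τ z (Pi.single a 1) b) := by
  show (star (jacS hτ b a)).1 z = _
  rw [star_apply, jacS_apply]

end

/-- restriction to a smaller open set -/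
def holRes (hle : Ω ≤ Ω') (hφφ' : ∀ z ∈ Ω, φ' z = φ z) : Hol (krOf hφ' hp') (krOf hφ hp) :=
  holOf hφ hp hφ' hp' (τ := id) differentiableOn_id (fun z hz => hle hz)
    (fun z _ => by
      rw [fderiv_id]
      show LinearMap.det (ContinuousLinearMap.id ℂ (E n) : E n →ₗ[ℂ] E n) ≠ 0
      have : (ContinuousLinearMap.id ℂ (E n) : E n →ₗ[ℂ] E n) = LinearMap.id := rfl
      rw [this, LinearMap.det_id]
      exact one_ne_zero)
    (fun _ => 1) (differentiableOn_const _) (fun _ _ => one_ne_zero)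
    (fun z hz => by
      rw [id, hφφ' z hz]
      simp)

theorem holRes_T_apply (hle : Ω ≤ Ω') (hφφ' : ∀ z ∈ Ω, φ' z = φ z) (f : Sm Ω') (z : Ω) :
    ((holRes hφ hp hφ' hp' hle hφφ').T f).1 z = f.1 ⟨z, hle z.2⟩ :=
  holOf_T_apply _ _ _ _ _ _ _ _ _ _ _ f z

end HolOf

end

end Pool.Agent.YTDA
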