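import Pool.Agent.YTDA.Bochner4
import Pool.Agent.YTDA.KrOf

/-!
The Bochner theorem: the gradient field of the derivative of the potential of a csc Kähler
metric along a circle action is holomorphic.
-/

namespace Pool.Agent.YTDA

open Complex Set Topology ContDiff ComplexOrder TopologicalSpace Matrix

noncomputable section

variable {n : ℕ}

/-- the Kähler structure with potential `φ` -/
def krAt {Ω : Opens (E n)} {φ : E n → ℝ} (h : ContDiffOn ℝ ∞ φ Ω)
    (hp : ∀ z ∈ Ω, (hess φ z).PosDef) : KRAt Ω φ where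
  k := krOf h hp
  d_eq _ _ := rfl
  db_eq _ _ := rfl
  g_eval i j z := krOf_g_apply h hp i j z
  S_eval z := krOf_S_apply h hp z

/-- the isometry given by a local biholomorphism -/
def holIso {Ω' Ω : Opens (E n)} {φ' φ : E n → ℝ} (h : ContDiffOn ℝ ∞ φ Ω)
    (hp : ∀ z ∈ Ω, (hess φ z).PosDef) (h' : ContDiffOn ℝ ∞ φ' Ω')
    (hp' : ∀ z ∈ Ω', (hess φ' z).PosDef)
    {τ : E n → E n} (hτ : DifferentiableOn ℂ τ Ω) (hm : ∀ z ∈ Ω, τ z ∈ Ω')
    (hdet : ∀ z ∈ Ω, (fderiv ℂ τ z).det ≠ 0) (u : E n → ℂ) (hu : DifferentiableOn ℂ u Ω)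
    (hu0 : ∀ z ∈ Ω, u z ≠ 0) (hφ : ∀ z ∈ Ω, φ' (τ z) = φ z + Real.log (‖u z‖ ^ 2)) :
    HolIso (krAt h' hp') (krAt h hp) τ where
  t := holOf h hp h' hp' hτ hm hdet u hu hu0 hφ
  maps := hm
  T_eval f z := holOf_T_apply h hp h' hp' hτ hm hdet u hu hu0 hφ f z
  J_eval b a z := holOf_J_apply h hp h' hp' hτ hm hdet u hu hu0 hφ b a z
  Jb_eq _ _ := rfl

namespace PolAtlas

variable {Y : Type} [MulAction ℂˣ Y] (A : PolAtlas n Y)

/-- the domain of a chart -/
def Ω (a : A.ι) : Opens (E n) := ⟨A.U a, A.isOpen_U a⟩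

/-- the domain of a transition map -/
def Ω₂ (a b : A.ι) : Opens (E n) := ⟨A.O a b, A.isOpen_O a b⟩

theorem τ_mem_OB {a b : A.ι} {z : E n} (hz : z ∈ A.O a b) : A.τ a b z ∈ A.O b a ∧
    A.τ b a (A.τ a b z) = z := by
  have h1 : A.γ a z = (A.h a b z)⁻¹ • A.γ b (A.τ a b z) := by
    rw [A.γ_τB hz, inv_smul_smul]
  obtain ⟨h2, h3, -⟩ := A.mem_O_ofB (A.τ_memB hz) hz.1 h1
  exact ⟨h2, h3⟩

theorem hasFDerivAt_τB {a b : A.ι} {z : E n} (hz : z ∈ A.O a b) :
    DifferentiableAt ℂ (A.τ a b) z :=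
  (A.hol_τ a b).differentiableAt ((A.isOpen_O a b).mem_nhds hz)

theorem fderiv_τ_compB {a b : A.ι} {z : E n} (hz : z ∈ A.O a b) :
    (fderiv ℂ (A.τ b a) (A.τ a b z)).comp (fderiv ℂ (A.τ a b) z) =
      ContinuousLinearMap.id ℂ (E n) := by
  have h1 := (A.hasFDerivAt_τB (A.τ_mem_OB hz).1).hasFDerivAt
  have h2 := (A.hasFDerivAt_τB hz).hasFDerivAt
  have h3 := h1.comp z h2
  have h4 : (A.τ b a ∘ A.τ a b) =ᶠ[𝓝 z] id := by
    refine Filter.eventuallyEq_of_mem ((A.isOpen_O a b).mem_nhds hz) fun w hw => ?_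
    exact (A.τ_mem_OB hw).2
  have h5 := (hasFDerivAt_id (𝕜 := ℂ) z).congr_of_eventuallyEq h4
  exact h3.unique h5

theorem det_τ {a b : A.ι} {z : E n} (hz : z ∈ A.O a b) : (fderiv ℂ (A.τ a b) z).det ≠ 0 := by
  intro h0
  have h1 := congrArg (fun L : E n →L[ℂ] E n => L.det) (A.fderiv_τ_compB hz)
  have h2 : ((fderiv ℂ (A.τ b a) (A.τ a b z)).comp (fderiv ℂ (A.τ a b) z)).det =
      (fderiv ℂ (A.τ b a) (A.τ a b z)).det * (fderiv ℂ (A.τ a b) z).det := by
    unfold ContinuousLinearMap.det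
    rw [ContinuousLinearMap.toLinearMap_comp, LinearMap.det_comp]
  have h3 : (ContinuousLinearMap.id ℂ (E n)).det = 1 := by
    unfold ContinuousLinearMap.det
    exact LinearMap.det_id
  have h4 : ((fderiv ℂ (A.τ b a) (A.τ a b z)).comp (fderiv ℂ (A.τ a b) z)).det =
      (ContinuousLinearMap.id ℂ (E n)).det := h1
  rw [h2, h0, mul_zero, h3] at h4
  exact zero_ne_one h4

variable {A} {H : Y → ℝ}

theorem pot_τ (hK : A.IsKahler H) {a b : A.ι} {z : E n} (hz : z ∈ A.O a b) :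
    A.pot H b (A.τ a b z) = A.pot H a z + Real.log (‖(A.h a b z : ℂ)‖ ^ 2) := by
  unfold pot
  rw [A.γ_τB hz, hK.hom, Real.log_mul, add_comm]
  · have := (A.h a b z).ne_zero
    positivity
  · exact (hK.pos _).ne'

theorem cv_eqB (hK : A.IsKahler H) (D : A.DAct) {a : A.ι} {z : E n} (hz : z ∈ A.U a) :
    deriv (fun θ : ℝ => A.pot H a (fun j => exp ((D.k a j : ℂ) * θ * I) * z j)) 0 =
      cvF (A.pot H a) (D.k a) z :=
  deriv_rot (((hK.smooth a).contDiffAt ((A.isOpen_U a).mem_nhds hz)).differentiableAt (by simp)) _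

/-- the derivative of `log H` along the circle action is a function on `M` -/
theorem cvF_τ (hK : A.IsKahler H) (D : A.DAct) {a b : A.ι} {z : E n} (hz : z ∈ A.O a b) :
    cvF (A.pot H b) (D.k b) (A.τ a b z) = cvF (A.pot H a) (D.k a) z := by
  have key : ∀ {c : A.ι} {w : E n}, w ∈ A.U c → cvF (A.pot H c) (D.k c) w =
      deriv (fun θ : ℝ => Real.log (H (D.act (expU θ) (A.γ c w)))) 0 := by
    intro c w hw
    rw [← cv_eqB hK D hw]
    congr 1
    funext θ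
    rw [H_act hK D hw (norm_expU θ), dact_expU]
    rfl
  rw [key (A.τ_memB hz), key hz.1, A.γ_τB hz]
  have h1 : (fun θ : ℝ => Real.log (H (D.act (expU θ) (A.h a b z • A.γ a z)))) =
      fun θ : ℝ => Real.log (‖(A.h a b z : ℂ)‖ ^ 2) +
        Real.log (H (D.act (expU θ) (A.γ a z))) := by
    funext θ
    rw [D.act_smul, hK.hom, Real.log_mul]
    · have := (A.h a b z).ne_zero
      positivity
    · exact (hK.pos _).ne'
  rw [h1, deriv_const_add]

/-- The Bochner theorem. -/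
theorem exists_holField (hc : A.IsCpt) (ht : A.IsT2) (hK : A.IsKahler H) {s : ℂ}
    (hS : A.IsCsc H s) (D : A.DAct)
    (hdiv : ∀ (F : Y → ℝ) (_ : ∀ (c : ℂˣ) y, F (c • y) = F y)
      (_ : ∀ y, 0 ≤ F y) (_ : ∀ a, ContinuousOn (fun z => F (A.γ a z)) (A.U a))
      (ρ : A.ι → E n → ℝ) (_ : ∀ a, ContDiffOn ℝ ∞ (ρ a) (A.U a))
      (_ : ∀ a, ∀ z ∈ A.U a, 0 < ρ a z)
      (_ : ∀ a b, ∀ z ∈ A.O a b,
        ρ a z = ρ b (A.τ a b z) * ‖(fderiv ℂ (A.τ a b) z).det‖ ^ 2)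
      (Ξ : A.ι → E n → E n) (_ : ∀ a, ContDiffOn ℝ ∞ (Ξ a) (A.U a))
      (_ : ∀ a b, ∀ z ∈ A.O a b, Ξ b (A.τ a b z) = fderiv ℂ (A.τ a b) z (Ξ a z))
      (_ : ∀ a, ∀ z ∈ A.U a, ρ a z * F (A.γ a z) = rdiv' (fun w => (ρ a w : ℂ) • Ξ a w) z),
      ∀ y, F y = 0) : ∃ W : A.HolField,
      ∀ a, ∀ z ∈ A.U a, ∀ m, ∑ k, hess (A.pot H a) z k m * W.W a z k =
        dzb m (fun w => (cvF (A.pot H a) (D.k a) w : ℂ)) z := by
  classical
  obtain ⟨K, hKK⟩ : ∃ K : ∀ a, KRAt (A.Ω a) (A.pot H a),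
      K = fun a => krAt (Ω := A.Ω a) (hK.smooth a) (hK.posDef a) := ⟨_, rfl⟩
  have hsm2 : ∀ a b, ContDiffOn ℝ ∞ (A.pot H a) (A.Ω₂ a b) := fun a b =>
    (hK.smooth a).mono (A.O_subsetB a b)
  obtain ⟨K₂, hKK₂⟩ : ∃ K₂ : ∀ a b, KRAt (A.Ω₂ a b) (A.pot H a),
      K₂ = fun a b => krAt (Ω := A.Ω₂ a b) (hsm2 a b) (fun z hz => hK.posDef a z hz.1) :=
    ⟨_, rfl⟩
  have ht1 : ∀ a b, Nonempty (HolIso (K a) (K₂ a b) id) := by
    intro a b
    rw [hKK, hKK₂]
    exact ⟨holIso _ _ _ _ differentiableOn_id (fun z hz => hz.1)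
      (fun z _ => by
        rw [fderiv_id]
        unfold ContinuousLinearMap.det
        erw [LinearMap.det_id]
        exact one_ne_zero) (fun _ => 1) (differentiableOn_const _) (fun _ _ => one_ne_zero)
      (fun z _ => by simp)⟩
  obtain ⟨t1⟩ := Classical.nonempty_pi.2 fun a => Classical.nonempty_pi.2 (ht1 a)
  have ht2 : ∀ a b, Nonempty (HolIso (K b) (K₂ a b) (A.τ a b)) := by
    intro a b
    rw [hKK, hKK₂]
    exact ⟨holIso _ _ _ _ (A.hol_τ a b) (fun z hz => A.τ_memB hz)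
      (fun z hz => A.det_τ hz) (fun z => (A.h a b z : ℂ)) (A.hol_h a b)
      (fun z _ => (A.h a b z).ne_zero) (fun z hz => pot_τ hK hz)⟩
  clear hKK hKK₂
  obtain ⟨t2⟩ := Classical.nonempty_pi.2 fun a => Classical.nonempty_pi.2 (ht2 a)
  -- the function `v`
  let v : ∀ a, Sm (A.Ω a) := fun a =>
    ofR (cvF (A.pot H a) (D.k a)) (contDiffOn_cvF (Ω := A.Ω a) (hK.smooth a) (D.k a))
  have hv : ∀ a, star (v a) = v a := fun a => star_ofR _ _
  let v₂ : ∀ a b, Sm (A.Ω₂ a b) := fun a b =>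
    ofR (cvF (A.pot H a) (D.k a)) (contDiffOn_cvF (Ω := A.Ω₂ a b) (hsm2 a b) (D.k a))
  have hv1 : ∀ a b, (t1 a b).t.T (v a) = v₂ a b := by
    intro a b
    apply Sm.ext'
    intro z
    rw [(t1 a b).T_eval, ofR_apply, ofR_apply]
    rfl
  have hv2 : ∀ a b, (t2 a b).t.T (v b) = v₂ a b := by
    intro a b
    apply Sm.ext'
    intro z
    rw [(t2 a b).T_eval, ofR_apply, ofR_apply]
    rw [cvF_τ hK D z.2]
  have hl : ∀ a, (K a).k.lich (v a) = 0 := fun a =>
    (K a).lich_eq (hK.smooth a) (fun z hz => hS a z hz) (D.k a)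
  have hdS : ∀ a i, (K a).k.db i (K a).k.S = 0 := by
    intro a i
    rw [(K a).S_const (fun z hz => hS a z hz), (K a).db_eq, dzbD_cst]
  -- natural vector fields
  have nat : ∀ (X : ∀ a, Fin n → Sm (A.Ω a)) (X₂ : ∀ a b, Fin n → Sm (A.Ω₂ a b)),
      (∀ a b i, ∑ j, (t1 a b).t.J i j * X₂ a b j = (t1 a b).t.T (X a i)) →
      (∀ a b i, ∑ j, (t2 a b).t.J i j * X₂ a b j = (t2 a b).t.T (X b i)) →
      ∀ a b, ∀ z ∈ A.O a b, (fun i => ext (X b i).1 (A.τ a b z) : E n) =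
        fderiv ℂ (A.τ a b) z (fun i => ext (X a i).1 z) := by
    intro X X₂ h1 h2 a b z hz
    have e1 := (t1 a b).fderiv_apply' (h1 a b) ⟨z, hz⟩
    have e2 := (t2 a b).fderiv_apply' (h2 a b) ⟨z, hz⟩
    rw [fderiv_id] at e1
    have e3 : (fun i => (X₂ a b i).1 ⟨z, hz⟩ : E n) = fun i => ext (X a i).1 z := by
      refine Eq.trans e1 ?_
      funext i
      exact (ext_mk _ _).symm
    rw [e3] at e2
    refine Eq.trans ?_ e2.symm
    funext i
    exact ext_mk _ _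
  -- natural functions
  have natf : ∀ (f : ∀ a, Sm (A.Ω a)) (f₂ : ∀ a b, Sm (A.Ω₂ a b)),
      (∀ a b, f₂ a b = (t1 a b).t.T (f a)) → (∀ a b, f₂ a b = (t2 a b).t.T (f b)) →
      ∀ a b, ∀ z ∈ A.O a b, ext (f a).1 z = ext (f b).1 (A.τ a b z) := by
    intro f f₂ h1 h2 a b z hz
    have e1 := congrArg (fun g : Sm (A.Ω₂ a b) => g.1 ⟨z, hz⟩) ((h1 a b).symm.trans (h2 a b))
    simp only [(t1 a b).T_eval, (t2 a b).T_eval] at e1
    rw [ext_mk _ (show z ∈ A.Ω a from hz.1), ext_mk _ (show A.τ a b z ∈ A.Ω b from A.τ_memB hz)]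
    exact e1
  -- the Bochner term
  have hP := natf (fun a => (K a).k.P (v a)) (fun a b => (K₂ a b).k.P (v₂ a b))
    (fun a b => by rw [← hv1, (t1 a b).t.P_T]) (fun a b => by rw [← hv2, (t2 a b).t.P_T])
  obtain ⟨F, hF1, hF2⟩ := A.exists_glue (fun a z => (ext ((K a).k.P (v a)).1 z).re)
    (fun a b z hz => congrArg Complex.re (hP a b z hz))
  have hdet := natf (fun a => (K a).k.g.det)
  have hF0 : ∀ y, F y = 0 := by
    refine hdiv F hF1 ?_ ?_ (fun a z => (hess (A.pot H a) z).det.re) ?_ ?_ ?_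
      (fun a => (K a).XiF (v a)) (fun a => (K a).contDiffOn_XiF (v a)) ?_ ?_
    · intro y
      obtain ⟨a, z, hz, c, rfl⟩ := A.cover y
      rw [hF1, hF2 a z hz, ext_mk _ (show z ∈ A.Ω a from hz)]
      exact ((K a).P_pos (hK.posDef a) (hv a) ⟨z, hz⟩).1
    · intro a
      have h1 : ContinuousOn (ext ((K a).k.P (v a)).1) (A.U a) :=
        ((K a).k.P (v a)).2.continuousOn
      exact (Complex.continuous_re.comp_continuousOn h1).congr fun z hz => hF2 a z hz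
    · intro a
      exact (K a).contDiffOn_det
    · intro a z hz
      have h1 := (hK.posDef a z hz).det_pos
      exact (Complex.lt_def.1 h1).1
    · intro a b z hz
      have e0 : (K₂ a b).k.g.det = (t2 a b).t.J.det * (t2 a b).t.T (K b).k.g.det *
          (t2 a b).t.Jb.det := by
        rw [(t2 a b).t.g, Matrix.det_mul, Matrix.det_mul, Matrix.det_transpose,
          RingHom.map_det]
        rfl
      have e1 : (t2 a b).t.Jb.det = star ((t2 a b).t.J.det) := by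
        rw [← Matrix.det_conjTranspose, ← Matrix.det_transpose]
        congr 1
        ext i j
        rw [Matrix.transpose_apply, Matrix.conjTranspose_apply, (t2 a b).Jb_eq]
      have e2 : ((t2 a b).t.J.det).1 ⟨z, hz⟩ = (fderiv ℂ (A.τ a b) z).det := by
        rw [← evalS_apply]
        have f1 := RingHom.map_det (evalS (⟨z, hz⟩ : A.Ω₂ a b) : Sm (A.Ω₂ a b) →+* ℂ)
          (t2 a b).t.J
        refine Eq.trans f1 ?_
        unfold ContinuousLinearMap.det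
        rw [← LinearMap.det_toMatrix']
        congr 1
        ext i j
        rw [LinearMap.toMatrix'_apply]
        refine Eq.trans ((t2 a b).J_eval i j ⟨z, hz⟩) ?_
        rfl
      have e3 := congrArg (fun g : Sm (A.Ω₂ a b) => g.1 ⟨z, hz⟩) e0
      simp only [Sm.mul_apply, e1, star_apply, e2, (t2 a b).T_eval, (K₂ a b).det_eval,
        (K b).det_eval] at e3
      have e4 := KRAt.det_real (Ω := A.Ω a) (hK.posDef a) ⟨z, hz.1⟩
      have e5 := KRAt.det_real (Ω := A.Ω b) (hK.posDef b) ⟨A.τ a b z, A.τ_memB hz⟩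
      simp only at e4 e5
      rw [← e4, ← e5] at e3
      have e6 : ((fderiv ℂ (A.τ a b) z).det) * (starRingEnd ℂ) ((fderiv ℂ (A.τ a b) z).det) =
          ((‖(fderiv ℂ (A.τ a b) z).det‖ ^ 2 : ℝ) : ℂ) := by
        rw [Complex.mul_conj, Complex.normSq_eq_norm_sq]
      have e7 : (((hess (A.pot H a) z).det.re : ℝ) : ℂ) =
          (((hess (A.pot H b) (A.τ a b z)).det.re * ‖(fderiv ℂ (A.τ a b) z).det‖ ^ 2 : ℝ) : ℂ) := by
        rw [e3, Complex.ofReal_mul, ← e6]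
        ring
      exact Complex.ofReal_injective e7
    · exact nat (fun a i => (K a).Xi (v a) i) (fun a b i => (K₂ a b).Xi (v₂ a b) i)
        (fun a b i => by rw [← hv1, (t1 a b).Xi_T]) (fun a b i => by rw [← hv2, (t2 a b).Xi_T])
    · intro a z hz
      rw [hF2 a z hz, ext_mk _ (show z ∈ A.Ω a from hz)]
      exact (K a).local_div (hK.posDef a) (hv a) (hdS a) (hl a) ⟨z, hz⟩
  -- the gradient field is holomorphic
  refine ⟨⟨fun a z i => ext ((K a).k.W (v a) i).1 z, ?_, ?_⟩, ?_⟩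
  · intro a
    apply differentiableOn_pi.2
    intro i z hz
    apply DifferentiableAt.differentiableWithinAt
    refine differentiableAt_of_dzbB (diffAt_ext _ (show z ∈ A.Ω a from hz)) fun m => ?_
    have h1 := hF2 a z hz
    rw [hF0, ext_mk _ (show z ∈ A.Ω a from hz)] at h1
    have h2 := ((K a).P_pos (hK.posDef a) (hv a) ⟨z, hz⟩).2 h1.symm m i
    rw [(K a).db_eq, dzbD_apply] at h2
    exact h2
  · intro a b z hz
    exact nat (fun a i => (K a).k.W (v a) i) (fun a b i => (K₂ a b).k.W (v₂ a b) i)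
      (fun a b i => by rw [← hv1, (t1 a b).t.J_W]) (fun a b i => by rw [← hv2, (t2 a b).t.J_W])
      a b z hz
  · intro a z hz m
    have h1 := congrArg (fun g : Sm (A.Ω a) => g.1 ⟨z, hz⟩) ((K a).k.sum_g_W (v a) m)
    simp only [Sm.sum_apply, Sm.mul_apply, (K a).g_eval] at h1
    have h2 : ((K a).k.db m (v a)).1 ⟨z, hz⟩ =
        dzb m (fun w => (cvF (A.pot H a) (D.k a) w : ℂ)) z := by
      rw [(K a).db_eq]
      exact dzbD_ofFn m _ _ _
    rw [h2] at h1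
    rw [← h1]
    refine Finset.sum_congr rfl fun i _ => ?_
    congr 1
    exact ext_mk _ _

end PolAtlas

end

end Pool.Agent.YTDA
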