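import Pool.Agent.YTDA.Smr4

/-!
# T13: pointwise identities for a circle invariant Kähler potential in one chart
-/

namespace Pool.Agent.YTDA

open Complex Set Topology ContDiff ComplexOrder TopologicalSpace

noncomputable section

/-! ## coordinates -/

section Coord

variable {n : ℕ} {Ω : Opens (E n)}

theorem coord_hol (i : Fin n) : DifferentiableOn ℂ (fun z : E n => z i) Ω :=
  (ContinuousLinearMap.proj (R := ℂ) (φ := fun _ : Fin n => ℂ) i).differentiable.differentiableOn

/-- the coordinate function -/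
def XS (i : Fin n) : Sm Ω := ofFn (fun z => z i) (smooth_of_hol' (coord_hol i))

@[simp] theorem XS_apply (i : Fin n) (z : Ω) : (XS i : Sm Ω).1 z = (z : E n) i := rfl

theorem dzbD_XS (a i : Fin n) : dzbD a (XS i : Sm Ω) = 0 := dzbD_ofFn_hol (coord_hol i) a

theorem dzD_XS (a i : Fin n) : dzD a (XS i : Sm Ω) = if a = i then 1 else 0 := by
  apply Sm.ext'
  intro z
  rw [XS, dzD_ofFn_hol (coord_hol i)]
  have h : fderiv ℂ (fun z : E n => z i) (z : E n) =
      ContinuousLinearMap.proj (R := ℂ) (φ := fun _ : Fin n => ℂ) i :=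
    (ContinuousLinearMap.proj (R := ℂ) (φ := fun _ : Fin n => ℂ) i).fderiv
  rw [h]
  by_cases hai : a = i
  · subst hai
    simp
  · rw [if_neg hai]
    show (Pi.single a (1 : ℂ) : E n) i = _
    rw [Pi.single_eq_of_ne (Ne.symm hai), Sm.zero_apply]

theorem dzD_star_XS (a i : Fin n) : dzD a (star (XS i : Sm Ω)) = 0 :=
  dzD_star_ofFn_hol (coord_hol i) a

theorem dzbD_star_XS (a i : Fin n) : dzbD a (star (XS i : Sm Ω)) = if a = i then 1 else 0 := by
  rw [← star_dzD, dzD_XS]
  split_ifs
  · exact star_one _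
  · exact star_zero _

theorem der_intCast (δ : Derivation ℂ (Sm Ω) (Sm Ω)) (k : ℤ) : δ (k : Sm Ω) = 0 := by
  simp

theorem intCast_apply (k : ℤ) (z : Ω) : (k : Sm Ω).1 z = k := rfl

theorem star_intCast' (k : ℤ) : star (k : Sm Ω) = k := Sm.ext' fun z => by
  rw [star_apply, intCast_apply]
  simp

end Coord

/-! ## one-parameter groups -/

section Exp

variable {n : ℕ}

/-- the exponential as a unit -/
def expU (t : ℂ) : ℂˣ := Units.mk0 (exp t) (exp_ne_zero t)

@[simp] theorem expU_val (t : ℂ) : ((expU t : ℂˣ) : ℂ) = exp t := rfl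

theorem expU_zero : expU 0 = 1 := Units.ext (by simp)

theorem expU_add (s t : ℂ) : expU (s + t) = expU s * expU t := Units.ext (by simp [exp_add])

theorem expU_zpow (t : ℂ) (k : ℤ) : expU t ^ k = expU (k * t) := Units.ext (by
  rw [Units.val_zpow_eq_zpow_val, expU_val, expU_val, exp_int_mul])

theorem norm_expU (t : ℂ) : ‖((expU t : ℂˣ) : ℂ)‖ = Real.exp t.re := by
  rw [expU_val, norm_exp]

theorem dact_expU (k : Fin n → ℤ) (t : ℂ) (z : E n) :
    dact k (expU t) z = fun j => exp (k j * t) * z j := by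
  funext j
  rw [dact, expU_zpow, expU_val]

theorem hasDerivAt_dactC (k : Fin n → ℤ) (a : ℂ) (z : E n) :
    HasDerivAt (fun t : ℝ => dact k (expU (t * a)) z) (fun j => k j * a * z j) 0 := by
  rw [hasDerivAt_pi]
  intro j
  have h1 : HasDerivAt (fun t : ℝ => (k j : ℂ) * ((t : ℂ) * a)) (k j * a) 0 := by
    have h2 : HasDerivAt (fun t : ℝ => (t : ℂ)) 1 0 := ofRealCLM.hasDerivAt
    simpa using (h2.mul_const a).const_mul (k j : ℂ)
  have h3 := (h1.cexp).mul_const (z j)
  simp only [ofReal_zero, zero_mul, mul_zero, exp_zero, one_mul] at h3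
  refine h3.congr_of_eventuallyEq (Filter.Eventually.of_forall fun t => ?_)
  simp only [dact_expU]

/-- derivative in a direction of the torus -/
theorem deriv_dact {F : E n → ℂ} {z : E n} (hF : DifferentiableAt ℝ F z) (k : Fin n → ℤ)
    (a : ℂ) : HasDerivAt (fun t : ℝ => F (dact k (expU (t * a)) z))
      (a * ∑ j, k j * z j * dz j F z +
        (starRingEnd ℂ) a * ∑ j, k j * (starRingEnd ℂ) (z j) * dzb j F z) 0 := by
  have h1 := hasDerivAt_dactC k a z
  have h0 : dact k (expU (((0 : ℝ) : ℂ) * a)) z = z := by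
    rw [ofReal_zero, zero_mul, expU_zero]
    funext j
    simp [dact]
  have h2 : HasFDerivAt F (fderiv ℝ F z) (dact k (expU (((0 : ℝ) : ℂ) * a)) z) := by
    rw [h0]
    exact hF.hasFDerivAt
  have h3 := h2.comp_hasDerivAt (0 : ℝ) h1
  have h4 : fderiv ℝ F z (fun j => (k j : ℂ) * a * z j) =
      (a * ∑ j, k j * z j * dz j F z +
        (starRingEnd ℂ) a * ∑ j, k j * (starRingEnd ℂ) (z j) * dzb j F z) := by
    rw [fderiv_eq_dz_dzb, Finset.mul_sum, Finset.mul_sum, ← Finset.sum_add_distrib]
    refine Finset.sum_congr rfl fun j _ => ?_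
    simp only [map_mul, map_intCast]
    ring
  rw [h4] at h3
  exact h3

/-- (P6) a function that is invariant under the circle -/
theorem circ_inv {F : E n → ℂ} {z : E n} (hF : DifferentiableAt ℝ F z) (k : Fin n → ℤ)
    (h : ∀ c : ℂˣ, ‖(c : ℂ)‖ = 1 → F (dact k c z) = F z) :
    ∑ j, k j * z j * dz j F z = ∑ j, k j * (starRingEnd ℂ) (z j) * dzb j F z := by
  have h1 := deriv_dact hF k I
  have h2 : (fun t : ℝ => F (dact k (expU (t * I)) z)) = fun _ => F z := by
    funext t
    refine h _ ?_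
    rw [norm_expU]
    simp
  rw [h2] at h1
  have h3 := h1.unique (hasDerivAt_const (0 : ℝ) (F z))
  rw [conj_I] at h3
  have h4 : I * (∑ j, k j * z j * dz j F z -
      ∑ j, k j * (starRingEnd ℂ) (z j) * dzb j F z) = 0 := by
    rw [← h3]
    ring
  rcases mul_eq_zero.1 h4 with h5 | h5
  · exact absurd h5 I_ne_zero
  · exact sub_eq_zero.1 h5

/-- the radial derivative of a circle invariant function -/
theorem deriv_radial {F : E n → ℂ} {z : E n} (hF : DifferentiableAt ℝ F z) (k : Fin n → ℤ)
    (h : ∀ c : ℂˣ, ‖(c : ℂ)‖ = 1 → F (dact k c z) = F z) :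
    HasDerivAt (fun t : ℝ => F (dact k (expU t) z)) (2 * ∑ j, k j * z j * dz j F z) 0 := by
  have h1 := deriv_dact hF k 1
  simp only [mul_one, map_one, one_mul] at h1
  rw [← circ_inv hF k h, ← two_mul] at h1
  exact h1

end Exp

/-! ## the identities in the ring of smooth functions -/

section Ring

open Matrix

variable {n : ℕ} {Ω : Opens (E n)} (k : Fin n → ℤ) (m : ℤ) (f : Sm Ω)

/-- the components of the holomorphic vector field of the action -/
def ZS (i : Fin n) : Sm Ω := (k i : Sm Ω) * XS i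

@[simp] theorem ZS_apply (i : Fin n) (z : Ω) : (ZS k i : Sm Ω).1 z = k i * (z : E n) i := rfl

theorem dzbD_ZS (a i : Fin n) : dzbD a (ZS k i : Sm Ω) = 0 := by
  rw [ZS, Derivation.leibniz, dzbD_XS, der_intCast]
  simp

theorem dzD_ZS (a i : Fin n) : dzD a (ZS k i : Sm Ω) = if a = i then (k i : Sm Ω) else 0 := by
  rw [ZS, Derivation.leibniz, dzD_XS, der_intCast]
  simp

theorem dzD_star_ZS (a i : Fin n) : dzD a (star (ZS k i : Sm Ω)) = 0 := by
  rw [← star_dzbD, dzbD_ZS, star_zero]

/-- the moment map -/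
def muSC : Sm Ω := (m : Sm Ω) + ∑ j, ZS k j * dzD j f

theorem dzbD_muS (j : Fin n) : dzbD j (muSC k m f) = ∑ i, ZS k i * hessS f i j := by
  rw [muSC, map_add, der_intCast, zero_add, map_sum]
  refine Finset.sum_congr rfl fun i _ => ?_
  rw [Derivation.leibniz, dzbD_ZS, hessS_apply, dzD_dzbD_comm]
  simp only [smul_eq_mul, mul_zero, add_zero]

variable (hf : star f = f)
  (hinv : ∑ j, ZS k j * dzD j f = ∑ j, star (ZS k j) * dzbD j f)

include hf hinv

theorem star_muS : star (muSC k m f) = muSC k m f := by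
  have h1 : star (∑ j, ZS k j * dzD j f) = ∑ j, star (ZS k j) * dzbD j f := by
    rw [star_sum]
    refine Finset.sum_congr rfl fun j _ => ?_
    rw [star_mul', star_dzD, hf]
  rw [muSC, star_add, star_intCast', h1, hinv]

theorem dzD_muS (i : Fin n) : dzD i (muSC k m f) = ∑ j, star (ZS k j) * hessS f i j := by
  rw [← star_muS k m f hf hinv, ← star_dzbD, dzbD_muS, star_sum]
  refine Finset.sum_congr rfl fun j _ => ?_
  rw [star_mul', star_hessS hf]

omit hf hinv

theorem adj_mul_right (c : Fin n → Sm Ω) (j : Fin n) :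
    ∑ i, (hessS f).adjugate j i * ∑ l, c l * hessS f i l = (hessS f).det * c j := by
  have h1 : ∑ i, (hessS f).adjugate j i * ∑ l, c l * hessS f i l =
      ∑ l, c l * ((hessS f).adjugate * hessS f) j l := by
    simp only [Matrix.mul_apply, Finset.mul_sum]
    rw [Finset.sum_comm]
    refine Finset.sum_congr rfl fun l _ => Finset.sum_congr rfl fun i _ => ?_
    ring
  rw [h1, Matrix.adjugate_mul]
  simp only [Matrix.smul_apply, smul_eq_mul]
  rw [Finset.sum_eq_single j]
  · rw [Matrix.one_apply_eq]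
    ring
  · intro l _ hl
    rw [Matrix.one_apply_ne hl.symm]
    ring
  · intro h
    exact absurd (Finset.mem_univ j) h

theorem adj_mul_left (c : Fin n → Sm Ω) (i : Fin n) :
    ∑ j, (hessS f).adjugate j i * ∑ l, c l * hessS f l j = (hessS f).det * c i := by
  have h1 : ∑ j, (hessS f).adjugate j i * ∑ l, c l * hessS f l j =
      ∑ l, c l * (hessS f * (hessS f).adjugate) l i := by
    simp only [Matrix.mul_apply, Finset.mul_sum]
    rw [Finset.sum_comm]
    refine Finset.sum_congr rfl fun l _ => Finset.sum_congr rfl fun i _ => ?_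
    ring
  rw [h1, Matrix.mul_adjugate]
  simp only [Matrix.smul_apply, smul_eq_mul]
  rw [Finset.sum_eq_single i]
  · rw [Matrix.one_apply_eq]
    ring
  · intro l _ hl
    rw [Matrix.one_apply_ne hl]
    ring
  · intro h
    exact absurd (Finset.mem_univ i) h

theorem adj_dzbD_muS (i : Fin n) :
    ∑ j, (hessS f).adjugate j i * dzbD j (muSC k m f) = (hessS f).det * ZS k i := by
  simp only [dzbD_muS]
  exact adj_mul_left f _ i

include hf hinv in
theorem adj_dzD_muS (j : Fin n) :
    ∑ i, (hessS f).adjugate j i * dzD i (muSC k m f) = (hessS f).det * star (ZS k j) := by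
  simp only [dzD_muS k m f hf hinv]
  exact adj_mul_right f _ j

theorem adj_hessS (i : Fin n) :
    ∑ j, (hessS f).adjugate j i * hessS f i j = (hessS f).det := by
  have h := adj_mul_left f (fun l => if l = i then 1 else 0) i
  simpa using h

theorem dzD_dzbD_muS (i j : Fin n) : dzD i (dzbD j (muSC k m f)) =
    (k i : Sm Ω) * hessS f i j + ∑ l, ZS k l * dzD l (hessS f i j) := by
  rw [dzbD_muS, map_sum]
  have h1 : ∀ l, dzD i (ZS k l * hessS f l j) =
      (if l = i then (k i : Sm Ω) * hessS f i j else 0) + ZS k l * dzD l (hessS f i j) := by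
    intro l
    rw [Derivation.leibniz, dzD_ZS, dzD_hessS f i l j]
    simp only [smul_eq_mul]
    by_cases hl : l = i
    · subst hl
      simp
      ring
    · rw [if_neg hl, if_neg (Ne.symm hl)]
      ring
  simp only [h1]
  rw [Finset.sum_add_distrib]
  simp

/-- (P4) -/
theorem adj_hess_muS (hd : ∀ z, 0 < (hessS f).det.1 z) :
    ∑ i, ∑ j, (hessS f).adjugate j i * dzD i (dzbD j (muSC k m f)) =
      (hessS f).det * (∑ l, ZS k l * dzD l (logS (hessS f).det hd) + ∑ i, (k i : Sm Ω)) := by
  have h1 : ∀ l, (hessS f).det * (ZS k l * dzD l (logS (hessS f).det hd)) =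
      ZS k l * ∑ i, ∑ j, (hessS f).adjugate j i * dzD l (hessS f i j) := by
    intro l
    have h2 := mul_DS_logS (dzD_mem_DS l) (hessS f).det hd
    rw [der_det (dzD l) (hessS f)] at h2
    rw [show (hessS f).det * (ZS k l * dzD l (logS (hessS f).det hd)) =
      ZS k l * ((hessS f).det * dzD l (logS (hessS f).det hd)) by ring, h2,
      Finset.sum_comm]
  rw [mul_add, Finset.mul_sum, Finset.mul_sum]
  simp only [h1, dzD_dzbD_muS, mul_add, Finset.sum_add_distrib]
  rw [add_comm]
  congr 1
  · simp only [Finset.mul_sum]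
    have h3 : ∀ i : Fin n, ∑ j, ∑ l, (hessS f).adjugate j i * (ZS k l *
        dzD l (hessS f i j)) = ∑ l, ∑ j, ZS k l * ((hessS f).adjugate j i *
        dzD l (hessS f i j)) := by
      intro i
      rw [Finset.sum_comm]
      refine Finset.sum_congr rfl fun l _ => Finset.sum_congr rfl fun j _ => ?_
      ring
    simp only [h3]
    rw [Finset.sum_comm]
  · refine Finset.sum_congr rfl fun i _ => ?_
    have h4 := adj_hessS f i
    calc ∑ j, (hessS f).adjugate j i * ((k i : Sm Ω) * hessS f i j)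
        = (k i : Sm Ω) * ∑ j, (hessS f).adjugate j i * hessS f i j := by
          rw [Finset.mul_sum]
          refine Finset.sum_congr rfl fun j _ => ?_
          ring
      _ = _ := by rw [h4]; ring

/-- (P5) -/
theorem sum_adj_hessS :
    ∑ i, ∑ j, (hessS f).adjugate j i * hessS f i j = (n : Sm Ω) * (hessS f).det := by
  rw [Finset.sum_congr rfl fun i _ => adj_hessS f i]
  simp

/-- (P3) -/
theorem V_muS (hf : star f = f)
    (hinv : ∑ j, ZS k j * dzD j f = ∑ j, star (ZS k j) * dzbD j f) :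
    ∑ i, ZS k i * dzD i (muSC k m f) =
      ∑ i, ∑ j, ZS k i * star (ZS k j) * hessS f i j := by
  simp only [dzD_muS k m f hf hinv, Finset.mul_sum]
  refine Finset.sum_congr rfl fun i _ => Finset.sum_congr rfl fun j _ => ?_
  ring

end Ring

section Ring2

variable {Ω : Opens (E 2)} (f : Sm Ω)

/-- (P2) the columns of the adjugate are divergence free -/
theorem div_adj (j : Fin 2) : ∑ i, dzD i ((hessS f).adjugate j i) = 0 := by
  rw [Matrix.adjugate_fin_two, Fin.sum_univ_two]
  fin_cases j
  · show dzD 0 (hessS f 1 1) + dzD 1 (-hessS f 0 1) = 0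
    rw [map_neg, dzD_hessS f 0 1 1]
    ring
  · show dzD 0 (-hessS f 1 0) + dzD 1 (hessS f 0 0) = 0
    rw [map_neg, dzD_hessS f 0 1 0]
    ring

theorem div_adj' (i : Fin 2) : ∑ j, dzbD j ((hessS f).adjugate j i) = 0 := by
  rw [Matrix.adjugate_fin_two, Fin.sum_univ_two]
  fin_cases i
  · show dzbD 0 (hessS f 1 1) + dzbD 1 (-hessS f 1 0) = 0
    rw [map_neg, dzbD_hessS f 0 1 1]
    ring
  · show dzbD 0 (-hessS f 0 1) + dzbD 1 (hessS f 0 0) = 0
    rw [map_neg, dzbD_hessS f 0 0 1]
    ring

end Ring2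

end

end Pool.Agent.YTDA
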