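import Pool.Agent.YTDA.Chart2

/-!
# T13: the moment map of a circle invariant Kähler metric; identities (P1) - (P6) in the charts
-/

namespace Pool.Agent.YTDA

open Complex Set Topology ContDiff ComplexOrder TopologicalSpace

noncomputable section

section Bridge

variable {n : ℕ} {Ω : Opens (E n)}

theorem contDiffOn_of (g : Sm Ω) (F : E n → ℂ) (h : ∀ w : Ω, F w = g.1 w) :
    ContDiffOn ℝ ∞ F Ω :=
  (smooth_ext g).congr fun w hw => by rw [h ⟨w, hw⟩, ext_mk _ hw]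

theorem dz_eq_of (g : Sm Ω) (F : E n → ℂ) (h : ∀ w : Ω, F w = g.1 w) (i : Fin n) (z : Ω) :
    dz i F z = (dzD i g).1 z := by
  rw [dzD_apply]
  refine dz_congr (Filter.eventuallyEq_of_mem (Ω.isOpen.mem_nhds z.2) fun w hw => ?_)
  rw [h ⟨w, hw⟩, ext_mk _ hw]

theorem dzb_eq_of (g : Sm Ω) (F : E n → ℂ) (h : ∀ w : Ω, F w = g.1 w) (i : Fin n) (z : Ω) :
    dzb i F z = (dzbD i g).1 z := by
  rw [dzbD_apply]
  refine dzb_congr (Filter.eventuallyEq_of_mem (Ω.isOpen.mem_nhds z.2) fun w hw => ?_)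
  rw [h ⟨w, hw⟩, ext_mk _ hw]

theorem hess_eq_of (g : Sm Ω) (F : E n → ℝ) (h : ∀ w : Ω, (F w : ℂ) = g.1 w) (i j : Fin n)
    (z : Ω) : hess F z i j = (dzD i (dzbD j g)).1 z := by
  show dz i (dzb j fun w => (F w : ℂ)) z = _
  exact dz_eq_of _ _ (fun w => dzb_eq_of g _ h j w) i z

theorem dzD_ofR (φ : E n → ℝ) (hφ : ContDiffOn ℝ ∞ φ Ω) (i : Fin n) (z : Ω) :
    (dzD i (ofR φ hφ)).1 z = dz i (fun w => (φ w : ℂ)) z :=
  (dz_eq_of _ _ (fun _ => rfl) i z).symm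

theorem dzbD_ofR (φ : E n → ℝ) (hφ : ContDiffOn ℝ ∞ φ Ω) (i : Fin n) (z : Ω) :
    (dzbD i (ofR φ hφ)).1 z = dzb i (fun w => (φ w : ℂ)) z :=
  (dzb_eq_of _ _ (fun _ => rfl) i z).symm

theorem adj_hess_eq (φ : E n → ℝ) (hφ : ContDiffOn ℝ ∞ φ Ω) (z : Ω) (i j : Fin n) :
    (hess φ z).adjugate i j = ((hessS (ofR φ hφ)).adjugate i j).1 z := by
  rw [hess_eq φ hφ z]
  have h := (evalS z).toRingHom.map_adjugate (hessS (ofR φ hφ))
  have h2 := congrFun (congrFun h i) j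
  exact h2.symm

theorem contDiffOn_adj_hess (φ : E n → ℝ) (hφ : ContDiffOn ℝ ∞ φ Ω) (i j : Fin n) :
    ContDiffOn ℝ ∞ (fun w => (hess φ w).adjugate i j) Ω :=
  contDiffOn_of _ _ fun w => adj_hess_eq φ hφ w i j

theorem contDiffOn_hess (φ : E n → ℝ) (hφ : ContDiffOn ℝ ∞ φ Ω) (i j : Fin n) :
    ContDiffOn ℝ ∞ (fun w => hess φ w i j) Ω :=
  contDiffOn_of _ _ fun w => hess_apply_eq φ hφ w i j

theorem contDiffOn_det_hess (φ : E n → ℝ) (hφ : ContDiffOn ℝ ∞ φ Ω) :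
    ContDiffOn ℝ ∞ (fun w => (hess φ w).det) Ω :=
  contDiffOn_of _ _ fun w => det_hess_eq φ hφ w

end Bridge

/-! ## one chart -/

section Chart

variable {n : ℕ} {Ω : Opens (E n)} {k : Fin n → ℤ} {m : ℤ} {φ μ : E n → ℝ} {z : E n}

/-- circle invariance and the moment map in a chart -/
structure ChMu (Ω : Opens (E n)) (k : Fin n → ℤ) (m : ℤ) (φ μ : E n → ℝ) : Prop where
  smooth : ContDiffOn ℝ ∞ φ Ω
  inv : ∀ z ∈ Ω, ∀ c : ℂˣ, ‖(c : ℂ)‖ = 1 → φ (dact k c z) = φ z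
  mu : ∀ z ∈ Ω, (μ z : ℂ) = m + ∑ j, k j * z j * dz j (fun w => (φ w : ℂ)) z

namespace ChMu

variable (h : ChMu Ω k m φ μ)

include h

theorem inv_ring : ∑ j, ZS k j * dzD j (ofR φ h.smooth : Sm Ω) =
    ∑ j, star (ZS k j) * dzbD j (ofR φ h.smooth : Sm Ω) := by
  apply Sm.ext'
  intro z
  have h1 := circ_inv (F := fun w => (φ w : ℂ)) (z := (z : E n))
    (((ofRealCLM.contDiff.comp_contDiffOn h.smooth).contDiffAt
      (Ω.isOpen.mem_nhds z.2)).differentiableAt (by simp)) k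
    (fun c hc => by rw [h.inv z z.2 c hc])
  rw [Sm.sum_apply, Sm.sum_apply]
  simp only [Sm.mul_apply, ZS_apply, star_apply, dzD_ofR, dzbD_ofR, map_mul, map_intCast]
  exact h1

theorem mu_eq (z : Ω) : (μ z : ℂ) = (muSC k m (ofR φ h.smooth : Sm Ω)).1 z := by
  rw [h.mu z z.2, muSC, Sm.add_apply, Sm.sum_apply, intCast_apply]
  simp only [Sm.mul_apply, ZS_apply, dzD_ofR]

theorem smooth_mu : ContDiffOn ℝ ∞ μ Ω := by
  have h1 := contDiffOn_of _ (fun z => (μ z : ℂ)) h.mu_eq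
  have h2 := reCLM.contDiff.comp_contDiffOn h1
  exact h2.congr fun z _ => (ofReal_re _).symm

theorem ofR_mu : (ofR μ h.smooth_mu : Sm Ω) = muSC k m (ofR φ h.smooth) :=
  Sm.ext' fun z => by rw [ofR_apply, h.mu_eq]

/-- (P1) -/
theorem dzb_mu {z : E n} (hz : z ∈ Ω) (j : Fin n) :
    dzb j (fun w => (μ w : ℂ)) z = ∑ i, k i * z i * hess φ z i j := by
  rw [dzb_eq_of _ _ h.mu_eq j ⟨z, hz⟩, dzbD_muS, Sm.sum_apply]
  refine Finset.sum_congr rfl fun i _ => ?_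
  rw [Sm.mul_apply, ZS_apply, hess_eq φ h.smooth ⟨z, hz⟩, evM_apply]

theorem dz_mu {z : E n} (hz : z ∈ Ω) (i : Fin n) :
    dz i (fun w => (μ w : ℂ)) z = ∑ j, (starRingEnd ℂ) (k j * z j) * hess φ z i j := by
  rw [dz_eq_of _ _ h.mu_eq i ⟨z, hz⟩, dzD_muS k m _ (star_ofR _ _) h.inv_ring, Sm.sum_apply]
  refine Finset.sum_congr rfl fun j _ => ?_
  rw [Sm.mul_apply, star_apply, ZS_apply, hess_eq φ h.smooth ⟨z, hz⟩, evM_apply]

theorem adj_dz_mu {z : E n} (hz : z ∈ Ω) (j : Fin n) :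
    ∑ i, (hess φ z).adjugate j i * dz i (fun w => (μ w : ℂ)) z =
      (hess φ z).det * (starRingEnd ℂ) (k j * z j) := by
  have h1 := congrArg (fun f : Sm Ω => f.1 ⟨z, hz⟩)
    (adj_dzD_muS k m (ofR φ h.smooth : Sm Ω) (star_ofR _ _) h.inv_ring j)
  simp only [Sm.sum_apply, Sm.mul_apply, star_apply, ZS_apply] at h1
  rw [det_hess_eq φ h.smooth ⟨z, hz⟩, ← h1]
  refine Finset.sum_congr rfl fun i _ => ?_
  rw [dz_eq_of _ _ h.mu_eq i ⟨z, hz⟩, adj_hess_eq φ h.smooth ⟨z, hz⟩]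

theorem adj_dzb_mu {z : E n} (hz : z ∈ Ω) (i : Fin n) :
    ∑ j, (hess φ z).adjugate j i * dzb j (fun w => (μ w : ℂ)) z =
      (hess φ z).det * (k i * z i) := by
  have h1 := congrArg (fun f : Sm Ω => f.1 ⟨z, hz⟩) (adj_dzbD_muS k m (ofR φ h.smooth : Sm Ω) i)
  simp only [Sm.sum_apply, Sm.mul_apply, ZS_apply] at h1
  rw [det_hess_eq φ h.smooth ⟨z, hz⟩, ← h1]
  refine Finset.sum_congr rfl fun j _ => ?_
  rw [dzb_eq_of _ _ h.mu_eq j ⟨z, hz⟩, adj_hess_eq φ h.smooth ⟨z, hz⟩]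

theorem hess_mu {z : E n} (hz : z ∈ Ω) (i j : Fin n) : hess μ z i j =
    k i * hess φ z i j + ∑ l, k l * z l * dz l (fun w => hess φ w i j) z := by
  rw [hess_eq_of _ _ h.mu_eq i j ⟨z, hz⟩, dzD_dzbD_muS, Sm.add_apply, Sm.mul_apply, Sm.sum_apply,
    intCast_apply, hess_eq φ h.smooth ⟨z, hz⟩, evM_apply]
  congr 1
  refine Finset.sum_congr rfl fun l _ => ?_
  rw [Sm.mul_apply, ZS_apply]
  congr 1
  exact (dz_eq_of _ _ (fun w => hess_apply_eq φ h.smooth w i j) l ⟨z, hz⟩).symm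

/-- (P3) -/
theorem V_mu {z : E n} (hz : z ∈ Ω) : ∑ i, k i * z i * dz i (fun w => (μ w : ℂ)) z =
    ∑ i, ∑ j, (k i * z i) * (starRingEnd ℂ) (k j * z j) * hess φ z i j := by
  simp only [h.dz_mu hz, Finset.mul_sum]
  refine Finset.sum_congr rfl fun i _ => Finset.sum_congr rfl fun j _ => ?_
  ring

/-- (P4) -/
theorem adj_hess_mu (hd : ∀ z ∈ Ω, (hess φ z).PosDef) {z : E n} (hz : z ∈ Ω) :
    ∑ i, ∑ j, (hess φ z).adjugate j i * hess μ z i j =
      (hess φ z).det * (∑ l, k l * z l * dz l (fun w => (logdet φ w : ℂ)) z + ∑ i, (k i : ℂ)) := by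
  have hp := det_pos_of_posDef h.smooth hd
  have h1 := congrArg (fun f : Sm Ω => f.1 ⟨z, hz⟩) (adj_hess_muS k m (ofR φ h.smooth : Sm Ω) hp)
  simp only [Sm.sum_apply, Sm.mul_apply, Sm.add_apply, ZS_apply, intCast_apply] at h1
  rw [det_hess_eq φ h.smooth ⟨z, hz⟩]
  have h2 : ∀ l, dz l (fun w => (logdet φ w : ℂ)) z =
      (dzD l (logS (hessS (ofR φ h.smooth)).det hp)).1 ⟨z, hz⟩ :=
    fun l => dz_eq_of _ _ (fun w => logdet_eq h.smooth hp w) l ⟨z, hz⟩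
  simp only [h2]
  rw [← h1]
  refine Finset.sum_congr rfl fun i _ => Finset.sum_congr rfl fun j _ => ?_
  rw [hess_eq_of _ _ h.mu_eq i j ⟨z, hz⟩, adj_hess_eq φ h.smooth ⟨z, hz⟩]

end ChMu

theorem quad_pos {M : Matrix (Fin n) (Fin n) ℂ} (hM : M.PosDef) {v : Fin n → ℂ} (hv : v ≠ 0) :
    0 < ∑ i, ∑ j, v i * (starRingEnd ℂ) (v j) * M i j := by
  have h1 : star v ≠ 0 := fun h => hv (star_eq_zero.1 h)
  have h2 := hM.dotProduct_mulVec_pos h1
  rw [star_star] at h2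
  refine lt_of_lt_of_eq h2 ?_
  simp only [dotProduct, Matrix.mulVec, Finset.mul_sum]
  refine Finset.sum_congr rfl fun i _ => Finset.sum_congr rfl fun j _ => ?_
  simp only [Pi.star_apply, RCLike.star_def]
  ring

/-- the square of the norm of the vector field of the action -/
def nrm2 (k : Fin n → ℤ) (φ : E n → ℝ) (z : E n) : ℝ :=
  (∑ i, ∑ j, (k i * z i) * (starRingEnd ℂ) (k j * z j) * hess φ z i j).re

theorem nrm2_pos (hp : (hess φ z).PosDef) (h : ∃ j, (k j : ℂ) * z j ≠ 0) : 0 < nrm2 k φ z := by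
  have h1 : (fun j => (k j : ℂ) * z j) ≠ 0 := fun h0 => by
    obtain ⟨j, hj⟩ := h
    exact hj (congrFun h0 j)
  exact (pos_iff.1 (quad_pos hp h1)).1

theorem nrm2_zero (h : ∀ j, (k j : ℂ) * z j = 0) : nrm2 k φ z = 0 := by
  simp [nrm2, h]

theorem nrm2_nonneg (hp : (hess φ z).PosDef) : 0 ≤ nrm2 k φ z := by
  by_cases h : ∃ j, (k j : ℂ) * z j ≠ 0
  · exact (nrm2_pos hp h).le
  · push Not at h
    rw [nrm2_zero h]

theorem nrm2_coe (hp : (hess φ z).PosDef) : ((nrm2 k φ z : ℝ) : ℂ) =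
    ∑ i, ∑ j, (k i * z i) * (starRingEnd ℂ) (k j * z j) * hess φ z i j := by
  by_cases h : ∃ j, (k j : ℂ) * z j ≠ 0
  · have h1 : (fun j => (k j : ℂ) * z j) ≠ 0 := fun h0 => by
      obtain ⟨j, hj⟩ := h
      exact hj (congrFun h0 j)
    have h2 := (pos_iff.1 (quad_pos hp h1)).2
    apply Complex.ext
    · rw [ofReal_re, nrm2]
    · rw [ofReal_im]
      exact h2
  · push Not at h
    rw [nrm2_zero h]
    simp [h]

/-- (P3) -/
theorem ChMu.V_mu' (h : ChMu Ω k m φ μ) (hz : z ∈ Ω) (hp : (hess φ z).PosDef) :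
    ∑ i, k i * z i * dz i (fun w => (μ w : ℂ)) z = (nrm2 k φ z : ℝ) := by
  rw [h.V_mu hz, nrm2_coe hp]

theorem ChMu.mu_fix (h : ChMu Ω k m φ μ) (hz : z ∈ Ω) (h0 : ∀ j, (k j : ℂ) * z j = 0) :
    μ z = m := by
  have h1 := h.mu z hz
  simp only [h0, zero_mul, Finset.sum_const_zero, add_zero] at h1
  exact_mod_cast h1

/-- (P5) -/
theorem sum_adj_hess (φ : E n → ℝ) (z : E n) :
    ∑ i, ∑ j, (hess φ z).adjugate j i * hess φ z i j = n * (hess φ z).det := by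
  have h1 : ∀ i, ∑ j, (hess φ z).adjugate j i * hess φ z i j =
      (hess φ z * (hess φ z).adjugate) i i := by
    intro i
    rw [Matrix.mul_apply]
    refine Finset.sum_congr rfl fun j _ => ?_
    ring
  simp only [h1]
  rw [Matrix.mul_adjugate]
  simp

/-- (P2) -/
theorem dz_adj_hess {Ω : Opens (E 2)} {φ : E 2 → ℝ} (hφ : ContDiffOn ℝ ∞ φ Ω) {z : E 2}
    (hz : z ∈ Ω) (j : Fin 2) : ∑ i, dz i (fun w => (hess φ w).adjugate j i) z = 0 := by
  have h1 := congrArg (fun f : Sm Ω => f.1 ⟨z, hz⟩) (div_adj (ofR φ hφ : Sm Ω) j)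
  simp only [Sm.sum_apply] at h1
  rw [← Sm.zero_apply (⟨z, hz⟩ : Ω), ← h1]
  refine Finset.sum_congr rfl fun i _ => ?_
  exact dz_eq_of _ _ (fun w => adj_hess_eq φ hφ w j i) i ⟨z, hz⟩

theorem dzb_adj_hess {Ω : Opens (E 2)} {φ : E 2 → ℝ} (hφ : ContDiffOn ℝ ∞ φ Ω) {z : E 2}
    (hz : z ∈ Ω) (i : Fin 2) : ∑ j, dzb j (fun w => (hess φ w).adjugate j i) z = 0 := by
  have h1 := congrArg (fun f : Sm Ω => f.1 ⟨z, hz⟩) (div_adj' (ofR φ hφ : Sm Ω) i)
  simp only [Sm.sum_apply] at h1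
  rw [← Sm.zero_apply (⟨z, hz⟩ : Ω), ← h1]
  refine Finset.sum_congr rfl fun j _ => ?_
  exact dzb_eq_of _ _ (fun w => adj_hess_eq φ hφ w j i) j ⟨z, hz⟩

end Chart

/-! ## the moment map on `Y` -/

namespace PolAtlas

variable {n : ℕ} {Y : Type} [MulAction ℂˣ Y] {A : PolAtlas n Y}

/-- the domain of a chart -/
def Om (A : PolAtlas n Y) (a : A.ι) : Opens (E n) := ⟨A.U a, A.isOpen_U a⟩

@[simp] theorem mem_Om (a : A.ι) (z : E n) : z ∈ A.Om a ↔ z ∈ A.U a := Iff.rfl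

/-- the moment map -/
def DAct.mu (D : A.DAct) (H : Y → ℝ) (y : Y) : ℝ :=
  deriv (fun t : ℝ => Real.log (H (D.act (YTDA.expU t) y))) 0 / 2

variable {H : Y → ℝ} (hK : A.IsKahler H) (D : A.DAct)

include hK

theorem log_smul (c : ℂˣ) (y : Y) :
    Real.log (H (c • y)) = 2 * Real.log ‖(c : ℂ)‖ + Real.log (H y) := by
  rw [hK.hom, Real.log_mul (by simp) (hK.pos y).ne', Real.log_pow]
  norm_num

theorem log_actC {a : A.ι} {z : E n} (hz : z ∈ A.U a) (c : ℂˣ) :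
    Real.log (H (D.act c (A.γ a z))) =
      2 * D.m a * Real.log ‖(c : ℂ)‖ + A.pot H a (dact (D.k a) c z) := by
  rw [D.act_γ a z hz c, log_smul hK, Units.val_zpow_eq_zpow_val, norm_zpow, Real.log_zpow, pot]
  ring

theorem mu_smul (c : ℂˣ) (y : Y) : D.mu H (c • y) = D.mu H y := by
  rw [DAct.mu, DAct.mu]
  simp only [D.act_smul, log_smul hK]
  rw [deriv_const_add]

omit hK in
theorem mu_act_expU (t : ℝ) (y : Y) : D.mu H (D.act (YTDA.expU t) y) =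
    deriv (fun s : ℝ => Real.log (H (D.act (YTDA.expU s) y))) t / 2 := by
  rw [DAct.mu]
  have h1 : (fun s : ℝ => Real.log (H (D.act (YTDA.expU s) (D.act (YTDA.expU t) y)))) =
      fun s : ℝ => (fun s : ℝ => Real.log (H (D.act (YTDA.expU s) y))) (s + t) := by
    funext s
    simp only
    rw [← D.act_mul, ← expU_add, ofReal_add]
  rw [h1]
  have h2 := deriv_comp_add_const (fun s : ℝ => Real.log (H (D.act (YTDA.expU s) y))) t 0
  rw [h2, zero_add]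

variable (hc : ∀ (c : ℂˣ) y, ‖(c : ℂ)‖ = 1 → H (D.act c y) = H y)

include hc

theorem pot_inv {a : A.ι} {z : E n} (hz : z ∈ A.U a) (c : ℂˣ) (hc1 : ‖(c : ℂ)‖ = 1) :
    A.pot H a (dact (D.k a) c z) = A.pot H a z := by
  have h1 := log_actC hK D hz c
  rw [hc c _ hc1, hc1, Real.log_one, mul_zero, zero_add] at h1
  exact h1.symm

theorem hasDerivAt_log_act {a : A.ι} {z : E n} (hz : z ∈ A.U a) :
    HasDerivAt (fun t : ℝ => ((Real.log (H (D.act (YTDA.expU t) (A.γ a z))) : ℝ) : ℂ))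
      (2 * (D.m a + ∑ j, D.k a j * z j * dz j (fun w => (A.pot H a w : ℂ)) z)) 0 := by
  have h1 := deriv_radial (F := fun w => (A.pot H a w : ℂ)) (z := z)
    (((ofRealCLM.contDiff.comp_contDiffOn (hK.smooth a)).contDiffAt
      ((A.isOpen_U a).mem_nhds hz)).differentiableAt (by simp)) (D.k a)
    (fun c hc1 => by rw [pot_inv hK D hc hz c hc1])
  have h2 : (fun t : ℝ => ((Real.log (H (D.act (YTDA.expU t) (A.γ a z))) : ℝ) : ℂ)) =
      fun t : ℝ => 2 * (D.m a : ℂ) * (t : ℂ) + (A.pot H a (dact (D.k a) (YTDA.expU t) z) : ℂ) := by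
    funext t
    rw [log_actC hK D hz, YTDA.norm_expU, ofReal_re, Real.log_exp]
    push_cast
    ring
  have h3 : HasDerivAt (fun t : ℝ => (t : ℂ)) 1 0 := ofRealCLM.hasDerivAt
  rw [h2]
  have h4 := (h3.const_mul (2 * (D.m a : ℂ))).add h1
  rw [mul_one] at h4
  rw [mul_add]
  exact h4

theorem mu_γ {a : A.ι} {z : E n} (hz : z ∈ A.U a) : ((D.mu H (A.γ a z) : ℝ) : ℂ) =
    D.m a + ∑ j, D.k a j * z j * dz j (fun w => (A.pot H a w : ℂ)) z := by
  have h1 := hasDerivAt_log_act hK D hc hz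
  have h2 : HasDerivAt (fun t : ℝ => Real.log (H (D.act (YTDA.expU t) (A.γ a z))))
      (2 * (D.m a + ∑ j, D.k a j * z j * dz j (fun w => (A.pot H a w : ℂ)) z)).re 0 := by
    have h5 := (hasDerivAt_iff_hasFDerivAt.1 h1)
    have h6 := (reCLM.hasFDerivAt.comp (0 : ℝ) h5).hasDerivAt
    exact HasDerivAt.congr_deriv h6 (by
      rw [ContinuousLinearMap.comp_apply, ContinuousLinearMap.toSpanSingleton_apply, one_smul,
        reCLM_apply])
  rw [DAct.mu, h2.deriv]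
  have h3 := h2.ofReal_comp.unique h1
  rw [ofReal_div, h3]
  push_cast
  ring

theorem chMu (a : A.ι) : ChMu (A.Om a) (D.k a) (D.m a) (A.pot H a)
    (fun z => D.mu H (A.γ a z)) where
  smooth := hK.smooth a
  inv _ hz c hc1 := pot_inv hK D hc hz c hc1
  mu _ hz := mu_γ hK D hc hz

omit hK in
/-- the moment map is invariant under the circle -/
theorem mu_act_circle (c : ℂˣ) (hc1 : ‖(c : ℂ)‖ = 1) (y : Y) :
    D.mu H (D.act c y) = D.mu H y := by
  rw [DAct.mu, DAct.mu]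
  congr 2
  funext t
  rw [← D.act_mul, mul_comm, D.act_mul, hc c _ hc1]

omit hc in
theorem mu_γ_dact {a : A.ι} {z : E n} (hz : z ∈ A.U a) (c : ℂˣ) :
    D.mu H (A.γ a (dact (D.k a) c z)) = D.mu H (D.act c (A.γ a z)) := by
  rw [D.act_γ a z hz c, mu_smul hK]

/-- the derivative of the moment map along the action -/
theorem hasDerivAt_mu_act {a : A.ι} {z : E n} (hz : z ∈ A.U a) :
    HasDerivAt (fun t : ℝ => D.mu H (D.act (YTDA.expU t) (A.γ a z)))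
      (2 * nrm2 (D.k a) (A.pot H a) z) 0 := by
  have hm := chMu hK D hc a
  have h1 := deriv_radial (F := fun w => (D.mu H (A.γ a w) : ℂ)) (z := z)
    (((ofRealCLM.contDiff.comp_contDiffOn hm.smooth_mu).contDiffAt
      ((A.isOpen_U a).mem_nhds hz)).differentiableAt (by simp)) (D.k a)
    (fun c hc1 => by rw [mu_γ_dact hK D hz, mu_act_circle D hc c hc1])
  rw [hm.V_mu' hz (hK.posDef a z hz)] at h1
  have h5 := (hasDerivAt_iff_hasFDerivAt.1 h1)
  have h6 := (reCLM.hasFDerivAt.comp (0 : ℝ) h5).hasDerivAt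
  have h7 : (reCLM ∘ fun t : ℝ => ((D.mu H (A.γ a (dact (D.k a) (YTDA.expU t) z)) : ℝ) : ℂ)) =
      fun t : ℝ => D.mu H (D.act (YTDA.expU t) (A.γ a z)) := by
    funext t
    rw [Function.comp_apply, reCLM_apply, ofReal_re, mu_γ_dact hK D hz]
  rw [h7] at h6
  refine HasDerivAt.congr_deriv h6 ?_
  rw [ContinuousLinearMap.comp_apply, ContinuousLinearMap.toSpanSingleton_apply, one_smul,
    reCLM_apply, ← ofReal_ofNat, ← ofReal_mul, ofReal_re]

omit hK hc in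
/-- the square of the norm of the vector field -/
def DAct.nv (D : A.DAct) (H : Y → ℝ) (y : Y) : ℝ :=
  deriv (fun t : ℝ => D.mu H (D.act (YTDA.expU t) y)) 0 / 2

theorem nv_γ {a : A.ι} {z : E n} (hz : z ∈ A.U a) :
    D.nv H (A.γ a z) = nrm2 (D.k a) (A.pot H a) z := by
  rw [DAct.nv, (hasDerivAt_mu_act hK D hc hz).deriv]
  ring

omit hc in
theorem nv_smul (c : ℂˣ) (y : Y) : D.nv H (c • y) = D.nv H y := by
  rw [DAct.nv, DAct.nv]
  simp only [D.act_smul, mu_smul hK]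

omit hK in
theorem nv_act_circle (c : ℂˣ) (hc1 : ‖(c : ℂ)‖ = 1) (y : Y) :
    D.nv H (D.act c y) = D.nv H y := by
  rw [DAct.nv, DAct.nv]
  congr 2
  funext t
  rw [← D.act_mul, mul_comm, D.act_mul, mu_act_circle D hc c hc1]

theorem hasDerivAt_mu_act' (y : Y) (t : ℝ) :
    HasDerivAt (fun s : ℝ => D.mu H (D.act (YTDA.expU s) y)) (2 * D.nv H (D.act (YTDA.expU t) y)) t := by
  obtain ⟨a, z, hz, c, hy⟩ := A.cover (D.act (YTDA.expU t) y)
  have h1 := hasDerivAt_mu_act hK D hc hz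
  rw [hy, nv_smul hK, nv_γ hK D hc hz]
  have h2 : (fun s : ℝ => D.mu H (D.act (YTDA.expU s) y)) =
      fun s : ℝ => D.mu H (D.act (YTDA.expU ((s - t : ℝ) : ℂ)) (A.γ a z)) := by
    funext s
    rw [← mu_smul hK D c (D.act (YTDA.expU ((s - t : ℝ) : ℂ)) (A.γ a z)), ← D.act_smul, ← hy,
      ← D.act_mul, ← expU_add]
    congr 3
    push_cast
    ring
  rw [h2]
  have h3 : HasDerivAt (fun s : ℝ => s - t) 1 t := (hasDerivAt_id t).sub_const t
  have h4 := HasDerivAt.comp t (h₂ := fun t : ℝ => D.mu H (D.act (YTDA.expU t) (A.γ a z)))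
    (h := fun s : ℝ => s - t) (by rw [sub_self]; exact h1) h3
  rw [mul_one] at h4
  exact h4

theorem hasDerivAt_log_act' (y : Y) (t : ℝ) :
    HasDerivAt (fun s : ℝ => Real.log (H (D.act (YTDA.expU s) y))) (2 * D.mu H (D.act (YTDA.expU t) y)) t := by
  obtain ⟨a, z, hz, c, hy⟩ := A.cover (D.act (YTDA.expU t) y)
  have h1 := hasDerivAt_log_act hK D hc hz
  have h5 := (hasDerivAt_iff_hasFDerivAt.1 h1)
  have h6 := (reCLM.hasFDerivAt.comp (0 : ℝ) h5).hasDerivAt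
  have h7 : (reCLM ∘ fun t : ℝ => ((Real.log (H (D.act (YTDA.expU t) (A.γ a z))) : ℝ) : ℂ)) =
      fun t : ℝ => Real.log (H (D.act (YTDA.expU t) (A.γ a z))) := by
    funext t
    rw [Function.comp_apply, reCLM_apply, ofReal_re]
  rw [h7] at h6
  have h8 : HasDerivAt (fun t : ℝ => Real.log (H (D.act (YTDA.expU t) (A.γ a z))))
      (2 * D.mu H (A.γ a z)) 0 := by
    refine HasDerivAt.congr_deriv h6 ?_
    rw [ContinuousLinearMap.comp_apply, ContinuousLinearMap.toSpanSingleton_apply, one_smul,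
      reCLM_apply, ← mu_γ hK D hc hz, ← ofReal_ofNat, ← ofReal_mul, ofReal_re]
  rw [hy, mu_smul hK]
  have h2 : (fun s : ℝ => Real.log (H (D.act (YTDA.expU s) y))) =
      fun s : ℝ => 2 * Real.log ‖(c : ℂ)‖ +
        Real.log (H (D.act (YTDA.expU ((s - t : ℝ) : ℂ)) (A.γ a z))) := by
    funext s
    rw [← log_smul hK, ← D.act_smul, ← hy, ← D.act_mul, ← expU_add]
    congr 4
    push_cast
    ring
  rw [h2]
  have h3 : HasDerivAt (fun s : ℝ => s - t) 1 t := (hasDerivAt_id t).sub_const t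
  have h4 := (HasDerivAt.comp t (h₂ := fun t : ℝ => Real.log (H (D.act (YTDA.expU t) (A.γ a z))))
    (h := fun s : ℝ => s - t) (by rw [sub_self]; exact h8) h3).const_add
      (2 * Real.log ‖(c : ℂ)‖)
  rw [mul_one] at h4
  exact h4

end PolAtlas

end

end Pool.Agent.YTDA
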