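import Pool.Agent.YTDA.PartI

/-!
# The divergence theorem with simple poles along coordinate hyperplanes
-/

namespace Pool.Agent.YTDA

open Complex Set Topology ContDiff MeasureTheory

noncomputable section

/-! ## Cutting off -/

variable {n : ℕ}

theorem cut_contDiff {F : Type*} [NormedAddCommGroup F] [NormedSpace ℝ F] {m : ℕ∞}
    {U K : Set (E n)} (hU : IsOpen U) (hK : IsCompact K) (hKU : K ⊆ U) {g : E n → F}
    (hg : ContDiffOn ℝ m g U) (hg0 : ∀ z ∈ U, z ∉ K → g z = 0) : ContDiff ℝ m (U.indicator g) := by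
  rw [contDiff_iff_contDiffAt]
  intro z
  by_cases hz : z ∈ U
  · refine ((hg.contDiffAt (hU.mem_nhds hz)).congr_of_eventuallyEq ?_)
    filter_upwards [hU.mem_nhds hz] with w hw
    exact indicator_of_mem hw g
  · have hzK : z ∈ Kᶜ := fun h => hz (hKU h)
    refine (contDiffAt_const (c := (0 : F))).congr_of_eventuallyEq ?_
    filter_upwards [hK.isClosed.isOpen_compl.mem_nhds hzK] with w hw
    by_cases hwU : w ∈ U
    · rw [indicator_of_mem hwU, hg0 w hwU hw]
    · exact indicator_of_notMem hwU g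

theorem cut_continuous {F : Type*} [NormedAddCommGroup F]
    {U K : Set (E n)} (hU : IsOpen U) (hK : IsCompact K) (hKU : K ⊆ U) {g : E n → F}
    (hg : ContinuousOn g U) (hg0 : ∀ z ∈ U, z ∉ K → g z = 0) : Continuous (U.indicator g) := by
  rw [continuous_iff_continuousAt]
  intro z
  by_cases hz : z ∈ U
  · refine ((hg.continuousAt (hU.mem_nhds hz)).congr ?_)
    filter_upwards [hU.mem_nhds hz] with w hw
    exact (indicator_of_mem hw g).symm
  · have hzK : z ∈ Kᶜ := fun h => hz (hKU h)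
    refine (continuousAt_const (y := (0 : F))).congr ?_
    filter_upwards [hK.isClosed.isOpen_compl.mem_nhds hzK] with w hw
    by_cases hwU : w ∈ U
    · rw [indicator_of_mem hwU, hg0 w hwU hw]
    · exact (indicator_of_notMem hwU g).symm

theorem cut_compact {F : Type*} [NormedAddCommGroup F]
    {U K : Set (E n)} (hK : IsCompact K) {g : E n → F}
    (hg0 : ∀ z ∈ U, z ∉ K → g z = 0) : HasCompactSupport (U.indicator g) := by
  refine HasCompactSupport.intro hK fun z hz => ?_
  by_cases hzU : z ∈ U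
  · rw [indicator_of_mem hzU, hg0 z hzU hz]
  · exact indicator_of_notMem hzU g

theorem integrableOn_cut_div {U K : Set (E (n + 1))} (hU : IsOpen U) (hK : IsCompact K)
    (hKU : K ⊆ U) {g : E (n + 1) → ℂ} (hg : ContinuousOn g U) (hg0 : ∀ z ∈ U, z ∉ K → g z = 0)
    (j : Fin (n + 1)) : IntegrableOn (fun z => g z / (starRingEnd ℂ) (z j)) U := by
  rw [← integrable_indicator_iff hU.measurableSet]
  have h := integrable_div_conj j (cut_continuous hU hK hKU hg hg0) (cut_compact hK hg0)
  refine h.congr (Filter.Eventually.of_forall fun z => ?_)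
  by_cases hz : z ∈ U
  · simp only [indicator_of_mem hz]
  · simp only [indicator_of_notMem hz, zero_div]

theorem integrableOn_cut {U K : Set (E n)} (hU : IsOpen U) (hK : IsCompact K)
    (hKU : K ⊆ U) {g : E n → ℂ} (hg : ContinuousOn g U) (hg0 : ∀ z ∈ U, z ∉ K → g z = 0) :
    IntegrableOn g U := by
  rw [← integrable_indicator_iff hU.measurableSet]
  exact (cut_continuous hU hK hKU hg hg0).integrable_of_hasCompactSupport (cut_compact hK hg0)

/-! ## Derivatives -/

theorem res_dz_mul {f g : E n → ℂ} {z : E n} (hf : DifferentiableAt ℝ f z)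
    (hg : DifferentiableAt ℝ g z) (i : Fin n) :
    dz i (fun w => f w * g w) z = f z * dz i g z + dz i f z * g z := by
  unfold dz
  rw [fderiv_fun_mul hf hg]
  simp only [_root_.add_apply, _root_.smul_apply, smul_eq_mul]
  ring

theorem dz_indicator {U : Set (E n)} (hU : IsOpen U) {g : E n → ℂ} {z : E n} (hz : z ∈ U)
    (i : Fin n) : dz i (U.indicator g) z = dz i g z :=
  dz_congr (Filter.eventuallyEq_of_mem (hU.mem_nhds hz) fun _ hw => indicator_of_mem hw g)

theorem continuousOn_dz {U : Set (E n)} (hU : IsOpen U) {g : E n → ℂ} (hg : ContDiffOn ℝ 1 g U)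
    (i : Fin n) : ContinuousOn (dz i g) U := by
  have h : ContinuousOn (fderiv ℝ g) U := hg.continuousOn_fderiv_of_isOpen hU le_rfl
  unfold dz
  fun_prop

theorem dz_eq_zero_of_min {g : E n → ℝ} {z : E n} (h : IsLocalMin g z) (i : Fin n) :
    dz i (fun w => (g w : ℂ)) z = 0 := by
  have h1 : fderiv ℝ (fun w => (g w : ℂ)) z = 0 := by
    by_cases hd : DifferentiableAt ℝ g z
    · have h2 := (ofRealCLM.hasFDerivAt (x := g z)).comp z hd.hasFDerivAt
      have h3 : fderiv ℝ (fun w => (g w : ℂ)) z = ofRealCLM.comp (fderiv ℝ g z) := h2.fderiv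
      rw [h3, h.fderiv_eq_zero]
      ext
      simp
    · refine fderiv_zero_of_not_differentiableAt fun hd' => hd ?_
      have h4 : g = fun w => ((g w : ℂ)).re := by
        ext w
        simp
      rw [h4]
      exact reCLM.differentiableAt.comp z hd'
  unfold dz
  rw [h1]
  simp

namespace PolAtlas.Part

variable {Y : Type} [MulAction ℂˣ Y]

section

variable {A : PolAtlas n Y} (P : A.Part)

/-- `χ_k` in the chart `b` -/
def X (k : Fin P.m) (b : A.ι) (z : E n) : ℂ := (P.χ k (A.γ b z) : ℂ)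

theorem contDiffOn_X (k : Fin P.m) (b : A.ι) : ContDiffOn ℝ ∞ (P.X k b) (A.U b) :=
  ofRealCLM.contDiff.comp_contDiffOn (P.smooth k b)

theorem X_zero (k : Fin P.m) {z : E n} (hz : z ∈ A.U (P.a k)) (hzK : z ∉ P.K k) :
    P.X k (P.a k) z = 0 := by
  unfold X
  rw [ofReal_eq_zero]
  by_contra h
  obtain ⟨w, hw, c, hc⟩ := P.supp k _ h
  have h1 := (A.inj (P.a k) w (P.sub k hw) z hz c hc).1
  exact hzK (h1 ▸ hw)

theorem dz_X_zero (k : Fin P.m) {z : E n} (hz : z ∈ A.U (P.a k)) (hzK : z ∉ P.K k) (i : Fin n) :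
    dz i (P.X k (P.a k)) z = 0 := by
  have h1 : P.X k (P.a k) =ᶠ[𝓝 z] fun _ => 0 := by
    have hzK' : z ∈ (P.K k)ᶜ := hzK
    filter_upwards [(A.isOpen_U _).mem_nhds hz,
      (P.cpt k).isClosed.isOpen_compl.mem_nhds hzK'] with w hw hw'
    exact P.X_zero k hw hw'
  rw [dz_congr h1]
  simp [dz]

theorem sum_X (b : A.ι) (z : E n) : ∑ k, P.X k b z = 1 := by
  unfold X
  rw [← ofReal_sum, P.sum, ofReal_one]

theorem sum_dz_X (b : A.ι) {z : E n} (hz : z ∈ A.U b) (i : Fin n) :
    ∑ k, dz i (P.X k b) z = 0 := by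
  have hd : ∀ k ∈ Finset.univ, DifferentiableAt ℝ (P.X k b) z := fun k _ =>
    ((P.contDiffOn_X k b).contDiffAt ((A.isOpen_U b).mem_nhds hz)).differentiableAt (by simp)
  have h1 : fderiv ℝ (fun w => ∑ k, P.X k b w) z = ∑ k, fderiv ℝ (P.X k b) z :=
    fderiv_fun_sum hd
  have h2 : (fun w => ∑ k, P.X k b w) = fun _ => 1 := funext fun w => P.sum_X b w
  rw [h2] at h1
  simp only [fderiv_fun_const, Pi.zero_apply] at h1
  unfold dz
  rw [← Finset.sum_div, Finset.sum_sub_distrib, ← Finset.mul_sum]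
  have h3 : ∀ v, ∑ k, fderiv ℝ (P.X k b) z v = 0 := by
    intro v
    rw [← _root_.sum_apply, ← h1]
    rfl
  rw [h3, h3]
  simp

/-- `χ_l` vanishes outside the overlap -/
theorem X_zero_of_notMem_O (l : Fin P.m) (b : A.ι) {z : E n} (hz : z ∈ A.U b)
    (h : z ∉ A.O b (P.a l)) : P.X l b z = 0 := by
  unfold X
  rw [ofReal_eq_zero]
  by_contra h0
  obtain ⟨w, hw, c, hc⟩ := P.supp l _ h0
  apply h
  refine ⟨hz, w, P.sub l hw, c⁻¹, ?_⟩
  rw [hc, inv_smul_smul]

theorem dz_X_zero_of_notMem_O (l : Fin P.m) (b : A.ι) {z : E n} (hz : z ∈ A.U b)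
    (h : z ∉ A.O b (P.a l)) (i : Fin n) : dz i (P.X l b) z = 0 := by
  apply dz_eq_zero_of_min
  have h0 := P.X_zero_of_notMem_O l b hz h
  unfold X at h0
  rw [ofReal_eq_zero] at h0
  refine Filter.Eventually.of_forall fun w => ?_
  show P.χ l (A.γ b z) ≤ P.χ l (A.γ b w)
  rw [h0]
  exact P.nonneg l _

theorem X_τ (k : Fin P.m) {a b : A.ι} {z : E n} (hz : z ∈ A.O a b) :
    P.X k b (A.τ a b z) = P.X k a z := by
  unfold X
  rw [γ_τP hz, P.inv]

theorem dz_X_τ (k : Fin P.m) {a b : A.ι} {z : E n} (hz : z ∈ A.O a b) (i : Fin n) :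
    dz i (P.X k a) z = ∑ l, dz l (P.X k b) (A.τ a b z) * fderiv ℂ (A.τ a b) z (Pi.single i 1) l := by
  have h1 : P.X k a =ᶠ[𝓝 z] fun w => P.X k b (A.τ a b w) := by
    filter_upwards [(isOpenO a b).mem_nhds hz] with w hw
    exact (P.X_τ k hw).symm
  have hd : DifferentiableAt ℝ (P.X k b) (A.τ a b z) :=
    ((P.contDiffOn_X k b).contDiffAt ((A.isOpen_U b).mem_nhds (τ_memP hz))).differentiableAt
      (by simp)
  have h2 : ∀ v, fderiv ℝ (fun w => P.X k b (A.τ a b w)) z v =
      fderiv ℝ (P.X k b) (A.τ a b z) (fderiv ℂ (A.τ a b) z v) := by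
    intro v
    have h3 := hd.hasFDerivAt.comp z (hasFDerivAt_τP hz)
    have h4 : fderiv ℝ (fun w => P.X k b (A.τ a b w)) z =
        (fderiv ℝ (P.X k b) (A.τ a b z)).comp ((fderiv ℂ (A.τ a b) z).restrictScalars ℝ) :=
      h3.fderiv
    rw [h4]
    rfl
  have h5 : (Pi.single i I : E n) = I • (Pi.single i 1 : E n) := by
    rw [← Pi.single_smul, smul_eq_mul, mul_one]
  have h6 : dz i (fun w => P.X k b (A.τ a b w)) z =
      (fderiv ℝ (fun w => P.X k b (A.τ a b w)) z (Pi.single i 1) -
        I * fderiv ℝ (fun w => P.X k b (A.τ a b w)) z (Pi.single i I)) / 2 := rfl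
  rw [dz_congr h1, h6, h2, h2, h5, map_smul, fderiv_eq_dz_dzb, fderiv_eq_dz_dzb, Finset.mul_sum,
    ← Finset.sum_sub_distrib, Finset.sum_div]
  refine Finset.sum_congr rfl fun l _ => ?_
  simp only [Pi.smul_apply, smul_eq_mul, map_mul, conj_I]
  linear_combination (-(dz l (P.X k b) (A.τ a b z) * fderiv ℂ (A.τ a b) z (Pi.single i 1) l) / 2 +
    dzb l (P.X k b) (A.τ a b z) * (starRingEnd ℂ) (fderiv ℂ (A.τ a b) z (Pi.single i 1) l) / 2) *
    I_sq

/-- derivative of `χ_k` along a (weighted) vector field -/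
def Q (X : A.ι → Fin n → E n → ℂ) (k : Fin P.m) (b : A.ι) (z : E n) : ℂ :=
  ∑ i, dz i (P.X k b) z * X b i z

/-- the transformation law of a weighted vector field at a point -/
def Law (X : A.ι → Fin n → E n → ℂ) (a b : A.ι) (z : E n) : Prop :=
  ∀ l, ∑ i, fderiv ℂ (A.τ a b) z (Pi.single i 1) l * X a i z =
    (‖(fderiv ℂ (A.τ a b) z).det‖ : ℂ) ^ 2 * X b l (A.τ a b z)

theorem Q_τ (X : A.ι → Fin n → E n → ℂ) (k : Fin P.m) {a b : A.ι} {z : E n} (hz : z ∈ A.O a b)
    (h : Law X a b z) :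
    P.Q X k a z = (‖(fderiv ℂ (A.τ a b) z).det‖ : ℂ) ^ 2 * P.Q X k b (A.τ a b z) := by
  unfold Q
  have h1 : ∀ i, dz i (P.X k a) z * X a i z = ∑ l, dz l (P.X k b) (A.τ a b z) *
      (fderiv ℂ (A.τ a b) z (Pi.single i 1) l * X a i z) := by
    intro i
    rw [P.dz_X_τ k hz i, Finset.sum_mul]
    exact Finset.sum_congr rfl fun l _ => by ring
  simp_rw [h1]
  rw [Finset.sum_comm, Finset.mul_sum]
  refine Finset.sum_congr rfl fun l _ => ?_
  rw [← Finset.mul_sum, h l]
  ring

theorem transfer (X : A.ι → Fin n → E n → ℂ)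
    (h : ∀ a b, ∀ᵐ z, z ∈ A.O a b → Law X a b z) (k l : Fin P.m) :
    ∫ z in A.U (P.a k), P.X l (P.a k) z * P.Q X k (P.a k) z =
    ∫ z in A.U (P.a l), P.X l (P.a l) z * P.Q X k (P.a l) z := by
  have h1 : ∫ z in A.U (P.a k), P.X l (P.a k) z * P.Q X k (P.a k) z =
      ∫ z in A.O (P.a k) (P.a l), P.X l (P.a k) z * P.Q X k (P.a k) z := by
    refine setIntegral_eq_of_subset_of_forall_sdiff_eq_zero (A.isOpen_U _).measurableSet
      (fun z hz => hz.1) ?_
    rintro z ⟨hz, hz'⟩
    rw [P.X_zero_of_notMem_O l _ hz hz', zero_mul]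
  have h2 : ∫ z in A.U (P.a l), P.X l (P.a l) z * P.Q X k (P.a l) z =
      ∫ z in A.O (P.a l) (P.a k), P.X l (P.a l) z * P.Q X k (P.a l) z := by
    refine setIntegral_eq_of_subset_of_forall_sdiff_eq_zero (A.isOpen_U _).measurableSet
      (fun z hz => hz.1) ?_
    rintro z ⟨hz, hz'⟩
    have h3 : P.Q X k (P.a l) z = 0 := by
      unfold Q
      refine Finset.sum_eq_zero fun i _ => ?_
      rw [P.dz_X_zero_of_notMem_O k _ hz hz', zero_mul]
    rw [h3, mul_zero]
  rw [h1, h2]
  apply integral_O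
  filter_upwards [h (P.a k) (P.a l)] with z hz hz'
  rw [P.Q_τ X k hz' (hz hz'), P.X_τ l hz']
  ring

theorem sum_Q (X : A.ι → Fin n → E n → ℂ) (b : A.ι) {z : E n} (hz : z ∈ A.U b) :
    ∑ k, P.Q X k b z = 0 := by
  unfold Q
  rw [Finset.sum_comm]
  refine Finset.sum_eq_zero fun i _ => ?_
  rw [← Finset.sum_mul, P.sum_dz_X b hz i, zero_mul]

/-- The vector field part cancels. -/
theorem sum_integral_Q (X : A.ι → Fin n → E n → ℂ)
    (h : ∀ a b, ∀ᵐ z, z ∈ A.O a b → Law X a b z)
    (hint : ∀ k l, IntegrableOn (fun z => P.X l (P.a k) z * P.Q X k (P.a k) z) (A.U (P.a k)))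
    (hint' : ∀ k l, IntegrableOn (fun z => P.X l (P.a l) z * P.Q X k (P.a l) z) (A.U (P.a l))) :
    ∑ k, ∫ z in A.U (P.a k), P.Q X k (P.a k) z = 0 := by
  have h1 : ∀ k, ∫ z in A.U (P.a k), P.Q X k (P.a k) z =
      ∑ l, ∫ z in A.U (P.a k), P.X l (P.a k) z * P.Q X k (P.a k) z := by
    intro k
    rw [← integral_finsetSum _ (fun l _ => hint k l)]
    congr 1
    ext z
    rw [← Finset.sum_mul, P.sum_X, one_mul]
  have h2 : ∀ k, ∫ z in A.U (P.a k), P.Q X k (P.a k) z =
      ∑ l, ∫ z in A.U (P.a l), P.X l (P.a l) z * P.Q X k (P.a l) z := fun k =>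
    (h1 k).trans (Finset.sum_congr rfl fun l _ => P.transfer X h k l)
  rw [Finset.sum_congr rfl fun k _ => h2 k, Finset.sum_comm]
  refine Finset.sum_eq_zero fun l _ => ?_
  rw [← integral_finsetSum _ (fun k _ => hint' k l)]
  rw [← integral_zero (E n) ℂ (μ := volume.restrict (A.U (P.a l)))]
  refine setIntegral_congr_fun (A.isOpen_U _).measurableSet ?_
  intro z hz
  show ∑ k, P.X l (P.a l) z * P.Q X k (P.a l) z = 0
  rw [← Finset.mul_sum, P.sum_Q X _ hz, mul_zero]

end

section

variable {A : PolAtlas (n + 1) Y} (P : A.Part)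

/-- A weighted vector field with simple poles: `∑_j W_ij / z̄_j + R_i`. -/
def polar (W : A.ι → Fin (n + 1) → Fin (n + 1) → E (n + 1) → ℂ)
    (R : A.ι → Fin (n + 1) → E (n + 1) → ℂ) (b : A.ι) (i : Fin (n + 1)) (z : E (n + 1)) : ℂ :=
  ∑ j, W b i j z / (starRingEnd ℂ) (z j) + R b i z

/-- its divergence (off the poles) -/
def polarDiv (W : A.ι → Fin (n + 1) → Fin (n + 1) → E (n + 1) → ℂ)
    (R : A.ι → Fin (n + 1) → E (n + 1) → ℂ) (b : A.ι) (z : E (n + 1)) : ℂ :=
  ∑ i, (∑ j, dz i (W b i j) z / (starRingEnd ℂ) (z j) + dz i (R b i) z)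

/-- **The divergence theorem with simple poles.** -/
theorem residue (W : A.ι → Fin (n + 1) → Fin (n + 1) → E (n + 1) → ℂ)
    (R : A.ι → Fin (n + 1) → E (n + 1) → ℂ)
    (hW : ∀ a i j, ContDiffOn ℝ 1 (W a i j) (A.U a)) (hR : ∀ a i, ContDiffOn ℝ 1 (R a i) (A.U a))
    (h : ∀ a b, ∀ᵐ z, z ∈ A.O a b → Law (polar W R) a b z) :
    ∑ k, ∫ z in A.U (P.a k), P.X k (P.a k) z * polarDiv W R (P.a k) z =
      - Real.pi * ∑ k, ∑ j, ∫ b : E n, (A.U (P.a k)).indicator
        (fun z => P.X k (P.a k) z * W (P.a k) j j z) (j.insertNth 0 b) := by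
  have hXc : ∀ k b, ContDiffOn ℝ 1 (P.X k b) (A.U b) := fun k b =>
    (P.contDiffOn_X k b).of_le (by exact_mod_cast le_top)
  -- integrability of products with the vector field
  have hgen : ∀ (k : Fin P.m) (g : E (n + 1) → ℂ) (i : Fin (n + 1)),
      ContinuousOn g (A.U (P.a k)) → (∀ z ∈ A.U (P.a k), z ∉ P.K k → g z = 0) →
      IntegrableOn (fun z => g z * polar W R (P.a k) i z) (A.U (P.a k)) := by
    intro k g i hg hg0
    have h1 : ∀ z, g z * polar W R (P.a k) i z =
        ∑ j, (g z * W (P.a k) i j z) / (starRingEnd ℂ) (z j) + g z * R (P.a k) i z := by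
      intro z
      unfold polar
      rw [mul_add, Finset.mul_sum]
      congr 1
      exact Finset.sum_congr rfl fun j _ => by ring
    simp_rw [h1]
    refine Integrable.add (integrable_finsetSum _ fun j _ => ?_) ?_
    · refine integrableOn_cut_div (A.isOpen_U _) (P.cpt k) (P.sub k)
        (g := fun z => g z * W (P.a k) i j z)
        (hg.mul (hW _ i j).continuousOn) (fun z hz hz' => ?_) j
      rw [hg0 z hz hz', zero_mul]
    · refine integrableOn_cut (A.isOpen_U _) (P.cpt k) (P.sub k)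
        (g := fun z => g z * R (P.a k) i z)
        (hg.mul (hR _ i).continuousOn) (fun z hz hz' => ?_)
      rw [hg0 z hz hz', zero_mul]
  have hcd : ∀ k b i, ContinuousOn (dz i (P.X k b)) (A.U b) := fun k b i =>
    continuousOn_dz (A.isOpen_U b) (hXc k b) i
  have hQ0 : ∀ k l, IntegrableOn (fun z => P.X l (P.a k) z * P.Q (polar W R) k (P.a k) z)
      (A.U (P.a k)) := by
    intro k l
    unfold Q
    simp_rw [Finset.mul_sum, ← mul_assoc]
    refine integrable_finsetSum _ fun i _ => ?_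
    refine hgen k (fun z => P.X l (P.a k) z * dz i (P.X k (P.a k)) z) i
      ((hXc l _).continuousOn.mul (hcd _ _ _)) ?_
    intro z hz hz'
    rw [P.dz_X_zero k hz hz', mul_zero]
  have hQ1 : ∀ k l, IntegrableOn (fun z => P.X l (P.a l) z * P.Q (polar W R) k (P.a l) z)
      (A.U (P.a l)) := by
    intro k l
    unfold Q
    simp_rw [Finset.mul_sum, ← mul_assoc]
    refine integrable_finsetSum _ fun i _ => ?_
    refine hgen l (fun z => P.X l (P.a l) z * dz i (P.X k (P.a l)) z) i
      ((hXc l _).continuousOn.mul (hcd _ _ _)) ?_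
    intro z hz hz'
    rw [P.X_zero l hz hz', zero_mul]
  have hcancel := P.sum_integral_Q (polar W R) h hQ0 hQ1
  -- one chart
  have hone : ∀ k, (∫ z in A.U (P.a k), P.X k (P.a k) z * polarDiv W R (P.a k) z) +
      ∫ z in A.U (P.a k), P.Q (polar W R) k (P.a k) z =
      - Real.pi * ∑ j, ∫ b : E n, (A.U (P.a k)).indicator
        (fun z => P.X k (P.a k) z * W (P.a k) j j z) (j.insertNth 0 b) := by
    intro k
    set U := A.U (P.a k) with hU
    have hUo : IsOpen U := A.isOpen_U _
    set χ := P.X k (P.a k) with hχ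
    have hχ0 : ∀ z ∈ U, z ∉ P.K k → χ z = 0 := fun z hz hz' => P.X_zero k hz hz'
    have hcut : ∀ g : E (n + 1) → ℂ, ContDiffOn ℝ 1 g U →
        ContDiff ℝ 1 (U.indicator fun z => χ z * g z) ∧
        HasCompactSupport (U.indicator fun z => χ z * g z) := by
      intro g hg
      have h0 : ∀ z ∈ U, z ∉ P.K k → χ z * g z = 0 := fun z hz hz' => by
        rw [hχ0 z hz hz', zero_mul]
      exact ⟨cut_contDiff hUo (P.cpt k) (P.sub k) ((hXc _ _).mul hg) h0,
        cut_compact (P.cpt k) h0⟩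
    -- the total divergence
    have htot : ∑ i, ((∑ j, ∫ z, dz i (U.indicator fun z => χ z * W (P.a k) i j z) z /
        (starRingEnd ℂ) (z j)) + ∫ z, dz i (U.indicator fun z => χ z * R (P.a k) i z) z) =
        - Real.pi * ∑ j, ∫ b : E n, U.indicator
        (fun z => χ z * W (P.a k) j j z) (j.insertNth 0 b) := by
      have h1 : ∀ i, ((∑ j, ∫ z, dz i (U.indicator fun z => χ z * W (P.a k) i j z) z /
          (starRingEnd ℂ) (z j)) + ∫ z, dz i (U.indicator fun z => χ z * R (P.a k) i z) z) =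
          - Real.pi * ∫ b : E n, U.indicator
            (fun z => χ z * W (P.a k) i i z) (i.insertNth 0 b) := by
        intro i
        rw [integral_dz i (hcut _ (hR _ i)).1 (hcut _ (hR _ i)).2, add_zero]
        rw [Finset.sum_eq_single i]
        · rw [integral_dz_div i i (hcut _ (hW _ i i)).1 (hcut _ (hW _ i i)).2, if_pos rfl]
        · intro j _ hj
          rw [integral_dz_div i j (hcut _ (hW _ i j)).1 (hcut _ (hW _ i j)).2,
            if_neg (Ne.symm hj)]
        · simp
      simp_rw [h1]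
      rw [Finset.mul_sum]
    rw [← htot]
    have hsupp : ∀ g : E (n + 1) → ℂ, ∀ i, ∀ z ∉ U,
        dz i (U.indicator fun z => χ z * g z) z = 0 := by
      intro g i z hz
      have hzK : z ∈ (P.K k)ᶜ := fun h => hz (P.sub k h)
      have h1 : (U.indicator fun z => χ z * g z) =ᶠ[𝓝 z] fun _ => 0 := by
        filter_upwards [(P.cpt k).isClosed.isOpen_compl.mem_nhds hzK] with w hw
        by_cases hwU : w ∈ U
        · rw [indicator_of_mem hwU, hχ0 w hwU hw, zero_mul]
        · exact indicator_of_notMem hwU _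
      rw [dz_congr h1]
      simp [dz]
    have hA : ∀ i j, ∫ z, dz i (U.indicator fun z => χ z * W (P.a k) i j z) z /
        (starRingEnd ℂ) (z j) = ∫ z in U, dz i (U.indicator fun z => χ z * W (P.a k) i j z) z /
        (starRingEnd ℂ) (z j) := by
      intro i j
      symm
      refine setIntegral_eq_integral_of_forall_compl_eq_zero fun z hz => ?_
      rw [hsupp _ i z hz, zero_div]
    have hB : ∀ i, ∫ z, dz i (U.indicator fun z => χ z * R (P.a k) i z) z =
        ∫ z in U, dz i (U.indicator fun z => χ z * R (P.a k) i z) z := by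
      intro i
      symm
      exact setIntegral_eq_integral_of_forall_compl_eq_zero fun z hz => hsupp _ i z hz
    have hAi : ∀ i j, IntegrableOn (fun z => dz i (U.indicator fun z => χ z * W (P.a k) i j z) z /
        (starRingEnd ℂ) (z j)) U := fun i j =>
      (integrable_div_conj j (continuous_dz i (hcut _ (hW _ i j)).1)
        (hasCompactSupport_dz i (hcut _ (hW _ i j)).2)).integrableOn
    have hBi : ∀ i, IntegrableOn (fun z => dz i (U.indicator fun z => χ z * R (P.a k) i z) z) U :=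
      fun i => ((continuous_dz i (hcut _ (hR _ i)).1).integrable_of_hasCompactSupport
        (hasCompactSupport_dz i (hcut _ (hR _ i)).2)).integrableOn
    have hsum : ∑ i, ((∑ j, ∫ z, dz i (U.indicator fun z => χ z * W (P.a k) i j z) z /
        (starRingEnd ℂ) (z j)) + ∫ z, dz i (U.indicator fun z => χ z * R (P.a k) i z) z) =
        ∫ z in U, ∑ i, (∑ j, dz i (U.indicator fun z => χ z * W (P.a k) i j z) z /
        (starRingEnd ℂ) (z j) + dz i (U.indicator fun z => χ z * R (P.a k) i z) z) := by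
      have hI : ∀ i ∈ (Finset.univ : Finset (Fin (n + 1))), IntegrableOn (fun z =>
          ∑ j, dz i (U.indicator fun z => χ z * W (P.a k) i j z) z / (starRingEnd ℂ) (z j) +
          dz i (U.indicator fun z => χ z * R (P.a k) i z) z) U := fun i _ =>
        (integrable_finsetSum _ fun j _ => hAi i j).add (hBi i)
      rw [integral_finsetSum _ hI]
      refine Finset.sum_congr rfl fun i _ => ?_
      rw [integral_add (integrable_finsetSum _ fun j _ => hAi i j) (hBi i),
        integral_finsetSum _ fun j _ => hAi i j, hB i]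
      congr 1
      exact Finset.sum_congr rfl fun j _ => hA i j
    rw [hsum]
    -- pointwise identity
    have hpt : ∀ z ∈ U, ∑ i, (∑ j, dz i (U.indicator fun z => χ z * W (P.a k) i j z) z /
        (starRingEnd ℂ) (z j) + dz i (U.indicator fun z => χ z * R (P.a k) i z) z) =
        χ z * polarDiv W R (P.a k) z + P.Q (polar W R) k (P.a k) z := by
      intro z hz
      have hd : ∀ g : E (n + 1) → ℂ, ContDiffOn ℝ 1 g U → DifferentiableAt ℝ g z := fun g hg =>
        (hg.contDiffAt (hUo.mem_nhds hz)).differentiableAt one_ne_zero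
      have h1 : ∀ g : E (n + 1) → ℂ, ContDiffOn ℝ 1 g U → ∀ i,
          dz i (U.indicator fun z => χ z * g z) z = χ z * dz i g z + dz i χ z * g z := by
        intro g hg i
        rw [dz_indicator hUo hz, res_dz_mul (hd _ (hXc _ _)) (hd _ hg)]
      unfold polarDiv Q polar
      rw [Finset.mul_sum, ← Finset.sum_add_distrib]
      refine Finset.sum_congr rfl fun i _ => ?_
      rw [h1 _ (hR _ i), mul_add, mul_add, Finset.mul_sum, Finset.mul_sum]
      have h2 : ∀ j, dz i (U.indicator fun z => χ z * W (P.a k) i j z) z / (starRingEnd ℂ) (z j) =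
          χ z * (dz i (W (P.a k) i j) z / (starRingEnd ℂ) (z j)) +
          dz i χ z * (W (P.a k) i j z / (starRingEnd ℂ) (z j)) := by
        intro j
        rw [h1 _ (hW _ i j)]
        ring
      simp_rw [h2]
      rw [Finset.sum_add_distrib]
      ring
    rw [setIntegral_congr_fun hUo.measurableSet hpt]
    have hI2 : IntegrableOn (fun z => P.Q (polar W R) k (P.a k) z) U := by
      unfold Q
      refine integrable_finsetSum _ fun i _ => ?_
      exact hgen k (fun z => dz i (P.X k (P.a k)) z) i (hcd _ _ _)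
        (fun z hz hz' => P.dz_X_zero k hz hz' i)
    have hI1 : IntegrableOn (fun z => χ z * polarDiv W R (P.a k) z) U := by
      have h3 : IntegrableOn (fun z => ∑ i, (∑ j, dz i (U.indicator
          fun z => χ z * W (P.a k) i j z) z / (starRingEnd ℂ) (z j) +
          dz i (U.indicator fun z => χ z * R (P.a k) i z) z)) U :=
        integrable_finsetSum _ fun i _ =>
          (integrable_finsetSum _ fun j _ => hAi i j).add (hBi i)
      have h4 := (h3.congr_fun hpt hUo.measurableSet).sub hI2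
      refine h4.congr (Filter.Eventually.of_forall fun z => ?_)
      simp
    rw [integral_add hI1 hI2]
  have hsum := Finset.sum_congr rfl fun k (_ : k ∈ Finset.univ) => hone k
  rw [Finset.sum_add_distrib, hcancel, add_zero, ← Finset.mul_sum] at hsum
  exact hsum

end

end PolAtlas.Part

end

end Pool.Agent.YTDA
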