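import Pool.Agent.YTDA.RedDefs
import Pool.Agent.YTDA.Residue

/-!
# T13: definitions (moment map, density, integration over `M`, labels of the coordinate axes)
-/

namespace Pool.Agent.YTDA

open Complex Set Topology ContDiff MeasureTheory

noncomputable section

/-- `∑ k_j z̄_j ∂̄_j f` -/
def wdzb {n : ℕ} (k : Fin n → ℤ) (f : E n → ℂ) (z : E n) : ℂ :=
  ∑ j, (k j : ℂ) * (starRingEnd ℂ) (z j) * dzb j f z

/-- the point of the axis `z_j = 0` of `ℂ²` with other coordinate `w` -/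
def axis (j : Fin 2) (w : ℂ) : E 2 := j.insertNth 0 (fun _ : Fin 1 => w)

theorem axis_zero (w : ℂ) : axis 0 w = ![0, w] := by
  ext i
  fin_cases i <;> rfl

theorem axis_one (w : ℂ) : axis 1 w = ![w, 0] := by
  ext i
  fin_cases i <;> rfl

theorem axis_same (j : Fin 2) (w : ℂ) : axis j w j = 0 := Fin.insertNth_apply_same _ _ _

theorem axis_other (j : Fin 2) (w : ℂ) : axis j w (1 - j) = w := by
  fin_cases j <;> rfl

namespace PolAtlas

variable {n : ℕ} {Y : Type} [MulAction ℂˣ Y]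

section

variable (A : PolAtlas n Y) (D : A.DAct) (H : Y → ℝ)

/-- the moment map in the chart `a` -/
def mu (a : A.ι) (z : E n) : ℝ := mom (D.k a) (D.m a) (A.pot H a) z

/-- the volume density -/
def rho (a : A.ι) (z : E n) : ℝ := (hess (A.pot H a) z).det.re

/-- `|V|²`, `V = ∑ k_j z_j ∂_j` -/
def vv (a : A.ι) (z : E n) : ℝ :=
  (∑ i, ∑ j, (D.k a i : ℂ) * z i * ((D.k a j : ℂ) * (starRingEnd ℂ) (z j)) *
    hess (A.pot H a) z i j).re

/-- `∑ C_{ji} ∂_i ∂̄_j G`, `C` the adjugate of the metric -/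
def trC (a : A.ι) (G : E n → ℝ) (z : E n) : ℂ :=
  ∑ i, ∑ j, (hess (A.pot H a) z).adjugate j i * hess G z i j

/-- the integrand of the residue theorem -/
def resF (u : ℝ → ℝ) (G : A.ι → E n → ℝ) (M : A.ι → Fin n → ℝ) (a : A.ι) (z : E n) : ℂ :=
  (u (A.mu D H a z) : ℂ) * A.trC H a (G a) z + (A.rho H a z : ℂ) * ((deriv u (A.mu D H a z) : ℝ) : ℂ) *
    (wdzb (D.k a) (fun w => (G a w : ℂ)) z + ((∑ j, M a j * D.k a j : ℝ) : ℂ))

end

namespace Part

variable {A : PolAtlas n Y} (P : A.Part)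

/-- the integral over `M` of the density with local expressions `f a` -/
def int (f : A.ι → E n → ℂ) : ℂ := ∑ k, ∫ z in A.U (P.a k), P.X k (P.a k) z * f (P.a k) z

end Part

/-- `∫_w (χ_k u(μ) g_oo)` over the axis `z_j = 0` of the `k`-th chart (`o` the other index) -/
def Part.axisInt {A : PolAtlas 2 Y} (P : A.Part) (D : A.DAct) (H : Y → ℝ) (u : ℝ → ℝ)
    (k : Fin P.m) (j : Fin 2) : ℝ :=
  ∫ w : ℂ, (A.U (P.a k)).indicator (fun z => P.χ k (A.γ (P.a k) z) * u (A.mu D H (P.a k) z) *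
    (hess (A.pot H (P.a k)) z (1 - j) (1 - j)).re) (axis j w)

/-- sum of the integrals over all axes with label `l` -/
def Part.labInt {A : PolAtlas 2 Y} (P : A.Part) (D : A.DAct) (H : Y → ℝ) {W : Type}
    (lab : A.ι → Fin 2 → W) (l : W) (u : ℝ → ℝ) : ℝ :=
  open Classical in ∑ k, ∑ j, if lab (P.a k) j = l then P.axisInt D H u k j else 0

end PolAtlas

/-- labels of the coordinate axes -/
inductive Lb (V : Type) where
  | none : Lb V
  | zero : Lb V
  | inf : Lb V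
  | vert (v : V) : Lb V

/-- A labelling of (some of) the coordinate axes of the charts of a surface with `ℂˣ`-action:
`zero`, `inf` : curves of fixed points with moments `m0`, `mi`; `vert v`: the closure of the orbit of
`p v`, with moments between `mm v` and `mp v`. -/
structure Labels {Y : Type} [MulAction ℂˣ Y] (A : PolAtlas 2 Y) (D : A.DAct) where
  V : Type
  lab : A.ι → Fin 2 → Lb V
  m0 : ℤ
  mi : ℤ
  zero_k : ∀ a j, lab a j = Lb.zero → D.k a (1 - j) = 0 ∧ D.m a = m0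
  inf_k : ∀ a j, lab a j = Lb.inf → D.k a (1 - j) = 0 ∧ D.m a = mi
  p : V → Y
  mm : V → ℤ
  mp : V → ℤ
  vert_k : ∀ a j v, lab a j = Lb.vert v → D.k a (1 - j) = 1 ∨ D.k a (1 - j) = -1
  vert_ne : ∀ a j v, lab a j = Lb.vert v → lab a (1 - j) ≠ Lb.vert v
  vert_orb : ∀ a j v, lab a j = Lb.vert v → ∀ w : ℂ, w ≠ 0 → axis j w ∈ A.U a →
    ∃ c c' : ℂˣ, A.γ a (axis j w) = c • D.act c' (p v)
  vert_axis : ∀ v a, ∀ z ∈ A.U a, ∀ c c' : ℂˣ, A.γ a z = c • D.act c' (p v) →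
    ∃ j, lab a j = Lb.vert v ∧ z j = 0
  exists_minus : ∀ v, ∃ a j, lab a j = Lb.vert v ∧ D.k a (1 - j) = 1 ∧ D.m a = mm v ∧
    axis j 0 ∈ A.U a
  exists_plus : ∀ v, ∃ a j, lab a j = Lb.vert v ∧ D.k a (1 - j) = -1 ∧ D.m a = mp v ∧
    axis j 0 ∈ A.U a

/-- multiplicities given by labels -/
def Lb.mult {V : Type} (M0 Mi : ℝ) (Mv : V → ℝ) : Lb V → ℝ
  | .none => 0
  | .zero => M0
  | .inf => Mi
  | .vert v => Mv v

end

end Pool.Agent.YTDA
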