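import Pool.Agent.YTDA.Chart3
import Pool.Agent.YTDA.T13Defs

/-!
# T13: the identities (P1) - (P6) for the definitions of `T13Defs`
-/

namespace Pool.Agent.YTDA

open Complex Set Topology ContDiff ComplexOrder TopologicalSpace

noncomputable section

namespace PolAtlas

variable {n : ℕ} {Y : Type} [MulAction ℂˣ Y] {A : PolAtlas n Y}

section

variable {H : Y → ℝ} (hK : A.IsKahler H) (D : A.DAct)
  (hc : ∀ (c : ℂˣ) y, ‖(c : ℂ)‖ = 1 → H (D.act c y) = H y)
  {a : A.ι} {z : E n} (hz : z ∈ A.U a)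

include hK hc hz in
theorem mu_eq : A.mu D H a z = D.mu H (A.γ a z) := by
  have h := mu_γ hK D hc hz
  have h1 := congrArg re h
  rw [ofReal_re] at h1
  rw [h1, mu, mom, wdz, add_re, intCast_re]

include hK hc in
theorem chMu' (a : A.ι) : ChMu (A.Om a) (D.k a) (D.m a) (A.pot H a) (A.mu D H a) where
  smooth := hK.smooth a
  inv := (chMu hK D hc a).inv
  mu z hz := by
    rw [mu_eq hK D hc hz]
    exact (chMu hK D hc a).mu z hz

include hK hc in
theorem contDiffOn_mu (a : A.ι) : ContDiffOn ℝ ∞ (A.mu D H a) (A.U a) :=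
  (chMu' hK D hc a).smooth_mu

theorem vv_eq : A.vv D H a z = nrm2 (D.k a) (A.pot H a) z := by
  rw [vv, nrm2]
  simp only [map_mul, map_intCast]

include hK hc hz in
theorem vv_eq_nv : A.vv D H a z = D.nv H (A.γ a z) := by
  rw [vv_eq, nv_γ hK D hc hz]

include hK hz in
theorem vv_nonneg : 0 ≤ A.vv D H a z := by
  rw [vv_eq]
  exact nrm2_nonneg (hK.posDef a z hz)

include hK hz in
theorem vv_pos (h : ∃ j, (D.k a j : ℂ) * z j ≠ 0) : 0 < A.vv D H a z := by
  rw [vv_eq]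
  exact nrm2_pos (hK.posDef a z hz) h

include hK hc hz in
theorem mu_fix (h : ∀ j, (D.k a j : ℂ) * z j = 0) : A.mu D H a z = D.m a :=
  (chMu' hK D hc a).mu_fix hz h

include hK in
theorem contDiffOn_vv (a : A.ι) : ContDiffOn ℝ ∞ (A.vv D H a) (A.U a) := by
  have h1 : ContDiffOn ℝ ∞ (fun z => ∑ i, ∑ j, ((D.k a i : ℂ) * z i *
      ((D.k a j : ℂ) * (starRingEnd ℂ) (z j)) * hess (A.pot H a) z i j)) (A.U a) := by
    have h2 : ∀ i : Fin n, ContDiffOn ℝ ∞ (fun z : E n => z i) (A.U a) := fun i =>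
      (contDiff_apply ℝ ℂ i).contDiffOn
    refine ContDiffOn.sum fun i _ => ContDiffOn.sum fun j _ => ?_
    exact ((contDiffOn_const.mul (h2 i)).mul (contDiffOn_const.mul
      (conjCLE.contDiff.comp_contDiffOn (h2 j)))).mul
      (contDiffOn_hess (Ω := A.Om a) (A.pot H a) (hK.smooth a) i j)
  exact reCLM.contDiff.comp_contDiffOn h1

include hK hz in
theorem rho_pos : 0 < A.rho H a z := (pos_iff.1 (hK.posDef a z hz).det_pos).1

include hK hz in
theorem rho_coe : ((A.rho H a z : ℝ) : ℂ) = (hess (A.pot H a) z).det := by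
  apply Complex.ext
  · rw [ofReal_re, rho]
  · rw [ofReal_im]
    exact (pos_iff.1 (hK.posDef a z hz).det_pos).2

include hK in
theorem contDiffOn_rho (a : A.ι) : ContDiffOn ℝ ∞ (A.rho H a) (A.U a) :=
  reCLM.contDiff.comp_contDiffOn (contDiffOn_det_hess (Ω := A.Om a) (A.pot H a) (hK.smooth a))

include hK in
theorem contDiffOn_logdet' (a : A.ι) : ContDiffOn ℝ ∞ (logdet (A.pot H a)) (A.U a) := by
  refine (contDiffOn_rho hK a).log fun z hz => (rho_pos hK hz).ne'

include hK hc hz in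
/-- (P1) -/
theorem dz_mu (i : Fin n) : dz i (fun w => (A.mu D H a w : ℂ)) z =
    ∑ j, (starRingEnd ℂ) (D.k a j * z j) * hess (A.pot H a) z i j :=
  (chMu' hK D hc a).dz_mu hz i

include hK hc hz in
theorem dzb_mu (j : Fin n) : dzb j (fun w => (A.mu D H a w : ℂ)) z =
    ∑ i, D.k a i * z i * hess (A.pot H a) z i j :=
  (chMu' hK D hc a).dzb_mu hz j

include hK hc hz in
theorem adj_dz_mu (j : Fin n) :
    ∑ i, (hess (A.pot H a) z).adjugate j i * dz i (fun w => (A.mu D H a w : ℂ)) z =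
      (A.rho H a z : ℂ) * ((D.k a j : ℂ) * (starRingEnd ℂ) (z j)) := by
  rw [rho_coe hK hz, (chMu' hK D hc a).adj_dz_mu hz j, map_mul, map_intCast]

include hK hc hz in
theorem adj_dzb_mu (i : Fin n) :
    ∑ j, (hess (A.pot H a) z).adjugate j i * dzb j (fun w => (A.mu D H a w : ℂ)) z =
      (A.rho H a z : ℂ) * ((D.k a i : ℂ) * z i) := by
  rw [rho_coe hK hz, (chMu' hK D hc a).adj_dzb_mu hz i]

include hK hc hz in
/-- (P3) -/
theorem wdz_mu : wdz (D.k a) (fun w => (A.mu D H a w : ℂ)) z = (A.vv D H a z : ℂ) := by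
  rw [vv_eq]
  exact (chMu' hK D hc a).V_mu' hz (hK.posDef a z hz)

omit hK hc in
/-- (P6) -/
theorem wdzb_eq_wdz {G : E n → ℂ} (hG : DifferentiableAt ℝ G z)
    (h : ∀ c : ℂˣ, ‖(c : ℂ)‖ = 1 → G (dact (D.k a) c z) = G z) :
    wdzb (D.k a) G z = wdz (D.k a) G z := by
  have h1 := circ_inv hG (D.k a) h
  rw [wdz, wdzb, h1]

omit hK hc in
/-- the conjugate of `wdz` of a real function -/
theorem conj_wdz {G : E n → ℝ} (k : Fin n → ℤ) :
    (starRingEnd ℂ) (wdz k (fun w => (G w : ℂ)) z) = wdzb k (fun w => (G w : ℂ)) z := by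
  rw [wdz, wdzb, map_sum]
  refine Finset.sum_congr rfl fun j _ => ?_
  rw [map_mul, map_mul, map_intCast]
  congr 1
  have h1 : ∀ v, (starRingEnd ℂ) (fderiv ℝ (fun w => (G w : ℂ)) z v) =
      fderiv ℝ (fun w => (G w : ℂ)) z v := by
    intro v
    by_cases hd : DifferentiableAt ℝ G z
    · have h2 : fderiv ℝ (fun w => (G w : ℂ)) z = ofRealCLM.comp (fderiv ℝ G z) :=
        (ofRealCLM.hasFDerivAt.comp z hd.hasFDerivAt).fderiv
      rw [h2]
      exact conj_ofReal _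
    · have h3 : ¬ DifferentiableAt ℝ (fun w => (G w : ℂ)) z := by
        intro h4
        exact hd (reCLM.differentiableAt.comp z h4)
      rw [fderiv_zero_of_not_differentiableAt h3]
      simp
  have h5 : (starRingEnd ℂ) (2 : ℂ) = 2 := Complex.conj_ofNat 2
  rw [dz, dzb, map_div₀, map_sub, map_mul, h1, h1, conj_I, h5]
  ring

omit hK hc in
/-- (P6) for real functions -/
theorem wdz_real {G : E n → ℝ} (hG : DifferentiableAt ℝ G z)
    (h : ∀ c : ℂˣ, ‖(c : ℂ)‖ = 1 → G (dact (D.k a) c z) = G z) :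
    wdz (D.k a) (fun w => (G w : ℂ)) z = ((wdz (D.k a) (fun w => (G w : ℂ)) z).re : ℂ) := by
  have h0 : DifferentiableAt ℝ (fun w => (G w : ℂ)) z :=
    ofRealCLM.differentiableAt.comp z hG
  have h1 := wdzb_eq_wdz D (a := a) h0 (fun c hc => by rw [h c hc])
  rw [← conj_wdz] at h1
  exact (conj_eq_iff_re.1 h1).symm

include hK hc hz in
theorem mu_circle (c : ℂˣ) (hc1 : ‖(c : ℂ)‖ = 1) :
    A.mu D H a (dact (D.k a) c z) = A.mu D H a z := by
  rw [mu_eq hK D hc hz, mu_eq hK D hc (D.dom a z hz c), mu_γ_dact hK D hz,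
    mu_act_circle D hc c hc1]

include hK hc hz in
theorem wdzb_mu : wdzb (D.k a) (fun w => (A.mu D H a w : ℂ)) z = (A.vv D H a z : ℂ) := by
  rw [← wdz_mu hK D hc hz]
  refine wdzb_eq_wdz D ?_ fun c hc1 => by rw [mu_circle hK D hc hz c hc1]
  exact ofRealCLM.differentiableAt.comp z (((contDiffOn_mu hK D hc a).contDiffAt
    ((A.isOpen_U a).mem_nhds hz)).differentiableAt (by simp))

include hK hc hz in
theorem wdz_pot : (D.m a : ℂ) + wdz (D.k a) (fun w => (A.pot H a w : ℂ)) z =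
    (A.mu D H a z : ℂ) := ((chMu' hK D hc a).mu z hz).symm

include hK hc hz in
theorem wdzb_pot : (D.m a : ℂ) + wdzb (D.k a) (fun w => (A.pot H a w : ℂ)) z =
    (A.mu D H a z : ℂ) := by
  rw [← wdz_pot hK D hc hz]
  congr 1
  refine wdzb_eq_wdz D ?_ fun c hc1 => by rw [pot_inv hK D hc hz c hc1]
  exact ofRealCLM.differentiableAt.comp z (((hK.smooth a).contDiffAt
    ((A.isOpen_U a).mem_nhds hz)).differentiableAt (by simp))

include hK hz in
/-- (P5) -/
theorem trC_pot : A.trC H a (A.pot H a) z = n * (A.rho H a z : ℂ) := by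
  rw [rho_coe hK hz]
  exact sum_adj_hess _ _

include hK hc hz in
/-- (P4) -/
theorem trC_mu : A.trC H a (A.mu D H a) z = (A.rho H a z : ℂ) *
    (wdz (D.k a) (fun w => (logdet (A.pot H a) w : ℂ)) z + ((∑ j, D.k a j : ℤ) : ℂ)) := by
  rw [rho_coe hK hz]
  have h := (chMu' hK D hc a).adj_hess_mu (fun z hz => hK.posDef a z hz) hz
  rw [trC, h, wdz]
  push_cast
  rfl

include hK hz in
theorem trC_inv (G : E n → ℝ) : A.trC H a G z = (A.rho H a z : ℂ) *
    ∑ i, ∑ j, (hess (A.pot H a) z)⁻¹ j i * hess G z i j := by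
  have hd : (hess (A.pot H a) z).det ≠ 0 := (hK.posDef a z hz).det_pos.ne'
  rw [trC, rho_coe hK hz, Finset.mul_sum]
  refine Finset.sum_congr rfl fun i _ => ?_
  rw [Finset.mul_sum]
  refine Finset.sum_congr rfl fun j _ => ?_
  rw [Matrix.inv_def, Matrix.smul_apply, Ring.inverse_eq_inv', smul_eq_mul]
  field_simp

end

/-- (P2) -/
theorem dz_adj {A : PolAtlas 2 Y} {H : Y → ℝ} (hK : A.IsKahler H) {a : A.ι} {z : E 2}
    (hz : z ∈ A.U a) (j : Fin 2) :
    ∑ i, dz i (fun w => (hess (A.pot H a) w).adjugate j i) z = 0 :=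
  dz_adj_hess (Ω := A.Om a) (hK.smooth a) hz j

theorem dzb_adj {A : PolAtlas 2 Y} {H : Y → ℝ} (hK : A.IsKahler H) {a : A.ι} {z : E 2}
    (hz : z ∈ A.U a) (i : Fin 2) :
    ∑ j, dzb j (fun w => (hess (A.pot H a) w).adjugate j i) z = 0 :=
  dzb_adj_hess (Ω := A.Om a) (hK.smooth a) hz i

end PolAtlas

end

end Pool.Agent.YTDA
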