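import Pool.Agent.YTDA.Cv
import Pool.Agent.YTDA.Osgood

/-!
# T3b: from a holomorphic gradient commuting with the circle to invariance

`circle_of_field`: if the gradient `W` of the hamiltonian `v = d/dθ log H` is a holomorphic vector
field which is invariant under the circle, then `H` is invariant under the circle.
-/

namespace Pool.Agent.YTDA

open Complex Set Topology ContDiff ComplexOrder

noncomputable section

/-! ## Wirtinger calculus in terms of `fderiv` -/

section Wirtinger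
variable {n : ℕ}

/-- `e^{iθ}` as a unit -/
def cb_uexp (θ : ℝ) : ℂˣ := Units.mk0 (Complex.exp (θ * I)) (Complex.exp_ne_zero _)

theorem uexp_coe (θ : ℝ) : ((cb_uexp θ : ℂˣ) : ℂ) = Complex.exp (θ * I) := rfl

theorem uexp_zero : cb_uexp 0 = 1 := by
  ext; simp [uexp_coe]

theorem uexp_add (θ η : ℝ) : cb_uexp (θ + η) = cb_uexp θ * cb_uexp η := by
  ext; simp [uexp_coe, add_mul, Complex.exp_add]

theorem uexp_two_pi : cb_uexp (2 * Real.pi) = 1 := by
  ext; simp [uexp_coe, Complex.exp_two_pi_mul_I]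

theorem cb_norm_uexp (θ : ℝ) : ‖((cb_uexp θ : ℂˣ) : ℂ)‖ = 1 := by
  rw [uexp_coe, Complex.norm_exp_ofReal_mul_I]

theorem cb_norm_uexp_zpow (θ : ℝ) (m : ℤ) : ‖(((cb_uexp θ) ^ m : ℂˣ) : ℂ)‖ = 1 := by
  rw [Units.val_zpow_eq_zpow_val, norm_zpow, cb_norm_uexp, one_zpow]

theorem exists_uexp (c : ℂˣ) (hc : ‖(c : ℂ)‖ = 1) : ∃ θ : ℝ, c = cb_uexp θ := by
  refine ⟨Complex.arg c, ?_⟩
  ext
  rw [uexp_coe]
  have := Complex.norm_mul_exp_arg_mul_I (c : ℂ)
  rw [hc] at this
  simpa using this.symm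

/-- the generator of the diagonal circle action -/
def gen (k : Fin n → ℤ) : E n →L[ℂ] E n :=
  ContinuousLinearMap.pi fun j => ((k j : ℂ) * I) • ContinuousLinearMap.proj j

theorem gen_apply (k : Fin n → ℤ) (z : E n) (j : Fin n) : gen k z j = (k j : ℂ) * I * z j := rfl

theorem dact_uexp (k : Fin n → ℤ) (θ : ℝ) (z : E n) :
    dact k (cb_uexp θ) z = fun j => Complex.exp ((k j : ℂ) * θ * I) * z j := by
  funext j
  unfold dact
  rw [Units.val_zpow_eq_zpow_val, uexp_coe, ← Complex.exp_int_mul]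
  congr 2
  ring

theorem dact_one (k : Fin n → ℤ) (z : E n) : dact k 1 z = z := by
  funext j; simp [dact]

theorem dact_mul (k : Fin n → ℤ) (c c' : ℂˣ) (z : E n) :
    dact k (c * c') z = dact k c (dact k c' z) := by
  funext j; simp [dact, mul_zpow, mul_assoc]

theorem cb_hasDerivAt_dact (k : Fin n → ℤ) (θ : ℝ) (z : E n) :
    HasDerivAt (fun t : ℝ => dact k (cb_uexp t) z) (gen k (dact k (cb_uexp θ) z)) θ := by
  rw [hasDerivAt_pi]
  intro j
  simp only [dact_uexp, gen_apply]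
  have h1 : HasDerivAt (fun t : ℝ => (k j : ℂ) * t * I) ((k j : ℂ) * I) θ := by
    have h0 : HasDerivAt (fun t : ℝ => (t : ℂ)) 1 θ := Complex.ofRealCLM.hasDerivAt
    have := (h0.const_mul (k j : ℂ)).mul_const I
    simpa using this
  have h2 := h1.cexp.mul_const (z j)
  have h3 : (k j : ℂ) * I * (Complex.exp ((k j : ℂ) * θ * I) * z j)
      = Complex.exp ((k j : ℂ) * θ * I) * ((k j : ℂ) * I) * z j := by ring
  rw [h3]
  exact h2

theorem hasDerivAt_comp_dact (k : Fin n → ℤ) {f : E n → ℝ} {z : E n}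
    (hd : DifferentiableAt ℝ f z) (θ₀ : ℝ) :
    HasDerivAt (fun θ : ℝ => f (dact k (cb_uexp (θ - θ₀)) z)) (fderiv ℝ f z (gen k z)) θ₀ := by
  have h3 := cb_hasDerivAt_dact k 0 z
  rw [uexp_zero, dact_one] at h3
  have h4 : HasFDerivAt f (fderiv ℝ f z) (dact k (cb_uexp 0) z) := by
    rw [uexp_zero, dact_one]; exact hd.hasFDerivAt
  have h5 : HasDerivAt (fun θ : ℝ => f (dact k (cb_uexp θ) z))
      (fderiv ℝ f z (gen k z)) (θ₀ - θ₀) := by
    rw [sub_self]; exact h4.comp_hasDerivAt 0 h3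
  exact h5.comp_sub_const θ₀ θ₀

/-- a real-linear map -/
theorem fderiv_dz (f : E n → ℂ) (z : E n) (w : E n) :
    fderiv ℝ f z w = ∑ i, (dz i f z * w i + dzb i f z * (starRingEnd ℂ) (w i)) := by
  have hw : w = ∑ i, ((w i).re • (Pi.single i (1 : ℂ) : E n)
      + (w i).im • (Pi.single i I : E n)) := by
    funext j
    rw [Finset.sum_apply, Finset.sum_eq_single j]
    · simp [Complex.re_add_im]
    · intro b _ hb
      simp [Pi.single_eq_of_ne hb.symm]
    · intro h; exact absurd (Finset.mem_univ j) h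
  conv_lhs => rw [hw]
  rw [map_sum]
  refine Finset.sum_congr rfl fun i _ => ?_
  rw [map_add, map_smul, map_smul]
  unfold dz dzb
  have h1 : w i = (w i).re + (w i).im * I := (Complex.re_add_im (w i)).symm
  have h2 : (starRingEnd ℂ) (w i) = (w i).re - (w i).im * I := by
    apply Complex.ext <;> simp
  have h3 : (fderiv ℝ f z (Pi.single i 1) - I * fderiv ℝ f z (Pi.single i I)) / 2 * w i
      = (fderiv ℝ f z (Pi.single i 1) - I * fderiv ℝ f z (Pi.single i I)) / 2
        * ((w i).re + (w i).im * I) := by rw [← h1]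
  rw [h2, h3]
  simp only [Complex.real_smul]
  generalize (fderiv ℝ f z) (Pi.single i 1) = p
  generalize (fderiv ℝ f z) (Pi.single i I) = q
  generalize ((w i).re : ℂ) = a
  generalize ((w i).im : ℂ) = b
  linear_combination (q * b) * Complex.I_sq

theorem differentiableAt_of_dzb {f : E n → ℂ} {z : E n} (hf : DifferentiableAt ℝ f z)
    (h : ∀ i, dzb i f z = 0) : DifferentiableAt ℂ f z := by
  rw [differentiableAt_iff_restrictScalars ℝ hf]
  refine ⟨∑ i, (dz i f z) • ContinuousLinearMap.proj (R := ℂ) (φ := fun _ : Fin n => ℂ) i, ?_⟩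
  ext w
  rw [fderiv_dz]
  simp [h]

theorem pair_dz (f : E n → ℂ) (z w : E n) :
    ∑ i, dz i f z * w i = (fderiv ℝ f z w - I * fderiv ℝ f z (I • w)) / 2 := by
  rw [fderiv_dz f z w, fderiv_dz f z (I • w), Finset.mul_sum, ← Finset.sum_sub_distrib,
    Finset.sum_div]
  refine Finset.sum_congr rfl fun i _ => ?_
  simp only [Pi.smul_apply, smul_eq_mul, map_mul, Complex.conj_I]
  linear_combination (dz i f z * w i / 2 - dzb i f z * (starRingEnd ℂ) (w i) / 2)
    * Complex.I_sq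

theorem cb_dz_mul {f g : E n → ℂ} {z : E n} (hf : DifferentiableAt ℝ f z)
    (hg : DifferentiableAt ℝ g z) (i : Fin n) :
    dz i (fun w => f w * g w) z = dz i f z * g z + f z * dz i g z := by
  unfold dz
  have h : fderiv ℝ (fun w => f w * g w) z = f z • fderiv ℝ g z + g z • fderiv ℝ f z :=
    fderiv_fun_mul hf hg
  rw [h]
  simp only [add_apply, smul_apply, smul_eq_mul]
  ring

theorem cb_dzb_mul {f g : E n → ℂ} {z : E n} (hf : DifferentiableAt ℝ f z)
    (hg : DifferentiableAt ℝ g z) (i : Fin n) :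
    dzb i (fun w => f w * g w) z = dzb i f z * g z + f z * dzb i g z := by
  unfold dzb
  have h : fderiv ℝ (fun w => f w * g w) z = f z • fderiv ℝ g z + g z • fderiv ℝ f z :=
    fderiv_fun_mul hf hg
  rw [h]
  simp only [add_apply, smul_apply, smul_eq_mul]
  ring

theorem dzb_sum {ι : Type*} (s : Finset ι) {f : ι → E n → ℂ} {z : E n}
    (hf : ∀ j ∈ s, DifferentiableAt ℝ (f j) z) (i : Fin n) :
    dzb i (fun w => ∑ j ∈ s, f j w) z = ∑ j ∈ s, dzb i (f j) z := by
  unfold dzb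
  rw [fderiv_fun_sum hf]
  simp only [sum_apply]
  rw [Finset.mul_sum, ← Finset.sum_add_distrib, Finset.sum_div]

theorem dzb_sub {f g : E n → ℂ} {z : E n} (hf : DifferentiableAt ℝ f z)
    (hg : DifferentiableAt ℝ g z) (i : Fin n) :
    dzb i (fun w => f w - g w) z = dzb i f z - dzb i g z := by
  unfold dzb
  rw [fderiv_fun_sub hf hg]
  simp only [sub_apply]
  ring

theorem dzb_of_holo {f : E n → ℂ} {z : E n} (hf : DifferentiableAt ℂ f z) (i : Fin n) :
    dzb i f z = 0 := by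
  unfold dzb
  have h : fderiv ℝ f z = (fderiv ℂ f z).restrictScalars ℝ :=
    (hf.hasFDerivAt.restrictScalars ℝ).fderiv
  rw [h]
  simp only [ContinuousLinearMap.coe_restrictScalars']
  have h1 : (Pi.single i I : E n) = I • Pi.single i (1 : ℂ) := by
    rw [← Pi.single_smul]; simp
  rw [h1, map_smul, smul_eq_mul]
  linear_combination ((fderiv ℂ f z) (Pi.single i 1) / 2) * Complex.I_sq

theorem dz_conj_real (f : E n → ℝ) {z : E n} (hf : DifferentiableAt ℝ f z) (i : Fin n) :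
    dz i (fun w => (f w : ℂ)) z = (starRingEnd ℂ) (dzb i (fun w => (f w : ℂ)) z) := by
  have h : fderiv ℝ (fun w => (f w : ℂ)) z = Complex.ofRealCLM.comp (fderiv ℝ f z) :=
    (Complex.ofRealCLM.hasFDerivAt.comp z hf.hasFDerivAt).fderiv
  unfold dz dzb
  rw [h]
  simp only [ContinuousLinearMap.comp_apply, Complex.ofRealCLM_apply, map_div₀, map_add, map_mul,
    Complex.conj_ofReal, Complex.conj_I]
  congr 1
  · ring
  · exact (map_ofNat (starRingEnd ℂ) 2).symm

/-- smoothness of the Wirtinger derivatives -/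
theorem contDiffOn_dz {f : E n → ℂ} {U : Set (E n)} (hU : IsOpen U) (hf : ContDiffOn ℝ ∞ f U)
    (i : Fin n) : ContDiffOn ℝ ∞ (dz i f) U := by
  have h := hf.fderiv_of_isOpen (m := ∞) hU (by simp)
  unfold dz
  exact ((h.clm_apply contDiffOn_const).sub
    (contDiffOn_const.mul (h.clm_apply contDiffOn_const))).div_const _

theorem contDiffOn_dzb {f : E n → ℂ} {U : Set (E n)} (hU : IsOpen U) (hf : ContDiffOn ℝ ∞ f U)
    (i : Fin n) : ContDiffOn ℝ ∞ (dzb i f) U := by
  have h := hf.fderiv_of_isOpen (m := ∞) hU (by simp)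
  unfold dzb
  exact ((h.clm_apply contDiffOn_const).add
    (contDiffOn_const.mul (h.clm_apply contDiffOn_const))).div_const _


theorem dzb_dz_symm {f : E n → ℂ} {U : Set (E n)} (hU : IsOpen U) (hf : ContDiffOn ℝ ∞ f U)
    {z : E n} (hz : z ∈ U) (i m : Fin n) : dzb m (dz i f) z = dz i (dzb m f) z := by
  have h1 : ContDiffAt ℝ ∞ f z := hf.contDiffAt (hU.mem_nhds hz)
  have hsym : IsSymmSndFDerivAt ℝ f z := h1.isSymmSndFDerivAt (by
    rw [minSmoothness_of_isRCLikeNormedField]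
    exact ENat.LEInfty.out)
  have hd : DifferentiableAt ℝ (fderiv ℝ f) z := by
    have h := hf.fderiv_of_isOpen (m := ∞) hU (by simp)
    exact (h.contDiffAt (hU.mem_nhds hz)).differentiableAt (by simp)
  have e : ∀ w : E n, HasFDerivAt (fun y => fderiv ℝ f y w)
      ((ContinuousLinearMap.apply ℝ ℂ w).comp (fderiv ℝ (fderiv ℝ f) z)) z := fun w =>
    (ContinuousLinearMap.apply ℝ ℂ w).hasFDerivAt.comp z hd.hasFDerivAt
  have e1 : fderiv ℝ (dz i f) z = (2 : ℂ)⁻¹ •
      (((ContinuousLinearMap.apply ℝ ℂ (Pi.single i 1 : E n)).comp (fderiv ℝ (fderiv ℝ f) z))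
        - I • ((ContinuousLinearMap.apply ℝ ℂ (Pi.single i I : E n)).comp
          (fderiv ℝ (fderiv ℝ f) z))) := by
    have h := (((e (Pi.single i 1)).sub ((e (Pi.single i I)).const_mul I)).mul_const
      (2 : ℂ)⁻¹).fderiv
    unfold dz
    simp only [div_eq_mul_inv]
    exact h
  have e2 : fderiv ℝ (dzb m f) z = (2 : ℂ)⁻¹ •
      (((ContinuousLinearMap.apply ℝ ℂ (Pi.single m 1 : E n)).comp (fderiv ℝ (fderiv ℝ f) z))
        + I • ((ContinuousLinearMap.apply ℝ ℂ (Pi.single m I : E n)).comp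
          (fderiv ℝ (fderiv ℝ f) z))) := by
    have h := (((e (Pi.single m 1)).add ((e (Pi.single m I)).const_mul I)).mul_const
      (2 : ℂ)⁻¹).fderiv
    unfold dzb
    simp only [div_eq_mul_inv]
    exact h
  have l1 : dzb m (dz i f) z = (fderiv ℝ (dz i f) z (Pi.single m 1)
      + I * fderiv ℝ (dz i f) z (Pi.single m I)) / 2 := rfl
  have l2 : dz i (dzb m f) z = (fderiv ℝ (dzb m f) z (Pi.single i 1)
      - I * fderiv ℝ (dzb m f) z (Pi.single i I)) / 2 := rfl
  rw [l1, l2, e1, e2]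
  simp only [smul_apply, sub_apply, add_apply, ContinuousLinearMap.comp_apply,
    ContinuousLinearMap.apply_apply, smul_eq_mul]
  rw [hsym (Pi.single m 1) (Pi.single i 1), hsym (Pi.single m 1) (Pi.single i I),
    hsym (Pi.single m I) (Pi.single i 1), hsym (Pi.single m I) (Pi.single i I)]
  ring

end Wirtinger

/-! ## The chart computation -/

section Chart

variable {n : ℕ}

/-- hypotheses in a chart -/
structure ChartHyp (U : Set (E n)) (φ v : E n → ℝ) (k : Fin n → ℤ) (W : E n → E n) : Prop where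
  hU : IsOpen U
  hφ : ContDiffOn ℝ ∞ φ U
  pos : ∀ z ∈ U, (hess φ z).PosDef
  hv : ∀ z ∈ U, v z = fderiv ℝ φ z (gen k z)
  hW : DifferentiableOn ℂ W U
  grad : ∀ z ∈ U, ∀ m, ∑ i, hess φ z i m * W z i = dzb m (fun w => (v w : ℂ)) z
  comm : ∀ z ∈ U, fderiv ℝ W z (gen k z) = gen k (W z)

variable {U : Set (E n)} {φ v : E n → ℝ} {k : Fin n → ℤ} {W : E n → E n}

namespace ChartHyp

variable (h : ChartHyp U φ v k W)
include h

theorem smooth_φc : ContDiffOn ℝ ∞ (fun w => (φ w : ℂ)) U :=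
  Complex.ofRealCLM.contDiff.comp_contDiffOn h.hφ

theorem smooth_v : ContDiffOn ℝ ∞ v U := by
  have h1 := h.hφ.fderiv_of_isOpen (m := ∞) h.hU (by simp)
  have h2 : ContDiffOn ℝ ∞ (fun z => fderiv ℝ φ z (gen k z)) U :=
    h1.clm_apply ((gen k).restrictScalars ℝ).contDiff.contDiffOn
  exact h2.congr h.hv

theorem smooth_vc : ContDiffOn ℝ ∞ (fun w => (v w : ℂ)) U :=
  Complex.ofRealCLM.contDiff.comp_contDiffOn h.smooth_v

theorem smooth_W : ContDiffOn ℝ ∞ W U := contDiffOn_real_of_differentiableOn h.hU h.hW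

theorem smooth_Wi (i : Fin n) : ContDiffOn ℝ ∞ (fun z => W z i) U :=
  contDiffOn_pi.1 h.smooth_W i

theorem diffAt {G : Type*} [NormedAddCommGroup G] [NormedSpace ℝ G] {f : E n → G}
    (hf : ContDiffOn ℝ ∞ f U) {z : E n} (hz : z ∈ U) : DifferentiableAt ℝ f z :=
  (hf.contDiffAt (h.hU.mem_nhds hz)).differentiableAt (by simp)

/-- `W v = |W|² ` -/
theorem Wv_eq {z : E n} (hz : z ∈ U) : ∑ i, dz i (fun w => (v w : ℂ)) z * W z i
    = star (fun i => (starRingEnd ℂ) (W z i)) ⬝ᵥ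
      Matrix.mulVec (hess φ z) (fun i => (starRingEnd ℂ) (W z i)) := by
  have hH := (h.pos z hz).isHermitian
  have e1 : ∀ m, dz m (fun w => (v w : ℂ)) z
      = ∑ i, hess φ z m i * (starRingEnd ℂ) (W z i) := by
    intro m
    rw [dz_conj_real v (h.diffAt h.smooth_v hz), ← h.grad z hz m, map_sum]
    refine Finset.sum_congr rfl fun i _ => ?_
    rw [map_mul]
    congr 1
    exact hH.apply m i
  simp only [dotProduct, Matrix.mulVec, Pi.star_apply, RCLike.star_def, Complex.conj_conj]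
  refine Finset.sum_congr rfl fun m _ => ?_
  rw [e1 m, mul_comm]

/-- the function `N = |W|²` -/
theorem N_eq {z : E n} (hz : z ∈ U) : ∑ i, dz i (fun w => (v w : ℂ)) z * W z i
    = ((fderiv ℝ v z (W z) / 2 : ℝ) : ℂ) := by
  -- real part from `pair_dz`, the imaginary part vanishes by positivity
  have h1 := h.Wv_eq hz
  have him : (∑ i, dz i (fun w => (v w : ℂ)) z * W z i).im = 0 := by
    rw [h1]
    by_cases hW0 : (fun i => (starRingEnd ℂ) (W z i)) = 0
    · rw [hW0]; simp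
    · have := (h.pos z hz).dotProduct_mulVec_pos hW0
      exact ((Complex.lt_def.1 this).2).symm
  have hfd : fderiv ℝ (fun w => (v w : ℂ)) z = Complex.ofRealCLM.comp (fderiv ℝ v z) :=
    (Complex.ofRealCLM.hasFDerivAt.comp z (h.diffAt h.smooth_v hz).hasFDerivAt).fderiv
  have h2 := pair_dz (fun w => (v w : ℂ)) z (W z)
  rw [hfd] at h2
  simp only [ContinuousLinearMap.comp_apply, Complex.ofRealCLM_apply] at h2
  apply Complex.ext
  · rw [h2]
    simp
  · rw [him, Complex.ofReal_im]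

theorem N_nonneg {z : E n} (hz : z ∈ U) : 0 ≤ fderiv ℝ v z (W z) / 2 := by
  have h1 := h.Wv_eq hz
  rw [h.N_eq hz] at h1
  have h2 : (0 : ℂ) ≤ ((fderiv ℝ v z (W z) / 2 : ℝ) : ℂ) := by
    rw [h1]
    exact (h.pos z hz).posSemidef.dotProduct_mulVec_nonneg _
  exact_mod_cast h2

theorem W_eq_zero {z : E n} (hz : z ∈ U) (h0 : fderiv ℝ v z (W z) / 2 = 0) : W z = 0 := by
  have h1 := h.Wv_eq hz
  rw [h.N_eq hz, h0] at h1
  by_contra hW0
  have hne : (fun i => (starRingEnd ℂ) (W z i)) ≠ 0 := by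
    intro hc
    apply hW0
    funext i
    have := congrFun hc i
    simpa using this
  have := (h.pos z hz).dotProduct_mulVec_pos hne
  rw [← h1] at this
  simp at this

/-- if the differential of `v` vanishes then `W` vanishes -/
theorem W_eq_zero' {z : E n} (hz : z ∈ U) (h0 : fderiv ℝ v z = 0) : W z = 0 := by
  apply h.W_eq_zero hz
  rw [h0]; simp

/-- the function `a = W φ - v` -/
def _root_.Pool.Agent.YTDA.afun (φ v : E n → ℝ) (W : E n → E n) (z : E n) : ℂ :=
  ∑ i, dz i (fun w => (φ w : ℂ)) z * W z i - (v z : ℂ)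

theorem smooth_a : ContDiffOn ℝ ∞ (afun φ v W) U := by
  unfold afun
  refine ContDiffOn.sub ?_ h.smooth_vc
  exact ContDiffOn.sum fun i _ => (contDiffOn_dz h.hU h.smooth_φc i).mul (h.smooth_Wi i)

theorem dzb_a {z : E n} (hz : z ∈ U) (m : Fin n) : dzb m (afun φ v W) z = 0 := by
  have hd : ∀ i, DifferentiableAt ℝ (dz i (fun w => (φ w : ℂ))) z := fun i =>
    h.diffAt (contDiffOn_dz h.hU h.smooth_φc i) hz
  have hw : ∀ i, DifferentiableAt ℝ (fun w => W w i) z := fun i => h.diffAt (h.smooth_Wi i) hz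
  have hwc : ∀ i, DifferentiableAt ℂ (fun w => W w i) z := fun i =>
    differentiableAt_pi.1 (h.hW.differentiableAt (h.hU.mem_nhds hz)) i
  have hp : ∀ i ∈ Finset.univ, DifferentiableAt ℝ
      (fun w => dz i (fun w => (φ w : ℂ)) w * W w i) z := fun i _ => (hd i).mul (hw i)
  have hs : DifferentiableAt ℝ (fun w => ∑ i, dz i (fun w => (φ w : ℂ)) w * W w i) z :=
    DifferentiableAt.fun_sum hp
  have e0 : dzb m (afun φ v W) z = dzb m (fun w => ∑ i, dz i (fun w => (φ w : ℂ)) w * W w i) z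
      - dzb m (fun w => (v w : ℂ)) z := dzb_sub hs (h.diffAt h.smooth_vc hz) m
  rw [e0, dzb_sum _ hp, ← h.grad z hz m, ← Finset.sum_sub_distrib]
  refine Finset.sum_eq_zero fun i _ => ?_
  rw [cb_dzb_mul (hd i) (hw i), dzb_of_holo (hwc i), mul_zero, add_zero,
    dzb_dz_symm h.hU h.smooth_φc hz]
  exact sub_self _

/-- `Z a = W v - Z v` -/
theorem Za_eq {z : E n} (hz : z ∈ U) : fderiv ℝ (afun φ v W) z (gen k z)
    = ((fderiv ℝ v z (W z) / 2 - fderiv ℝ v z (gen k z) : ℝ) : ℂ) := by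
  set Φ : E n → ℂ := fun w => (φ w : ℂ) with hΦ
  set V : E n → ℂ := fun w => (v w : ℂ) with hV
  have hsm := h.smooth_φc
  have h1 : ContDiffAt ℝ ∞ Φ z := hsm.contDiffAt (h.hU.mem_nhds hz)
  have hsym : IsSymmSndFDerivAt ℝ Φ z := h1.isSymmSndFDerivAt (by
    rw [minSmoothness_of_isRCLikeNormedField]
    exact ENat.LEInfty.out)
  have hd : DifferentiableAt ℝ (fderiv ℝ Φ) z :=
    h.diffAt (hsm.fderiv_of_isOpen (m := ∞) h.hU (by simp)) hz
  have hdv : HasFDerivAt V (fderiv ℝ V z) z := (h.diffAt h.smooth_vc hz).hasFDerivAt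
  have hdW : HasFDerivAt W (fderiv ℝ W z) z := (h.diffAt h.smooth_W hz).hasFDerivAt
  have hdIW : HasFDerivAt (fun w => I • W w) (I • fderiv ℝ W z) z := hdW.const_smul I
  -- `F w = (Φ'(W) - I Φ'(I W)) / 2`
  have ea : ∀ w, afun φ v W w = (fderiv ℝ Φ w (W w) - I * fderiv ℝ Φ w (I • W w)) * (2 : ℂ)⁻¹
      - V w := by
    intro w
    unfold afun
    rw [pair_dz, div_eq_mul_inv]
  have hF := (((hd.hasFDerivAt.clm_apply hdW).sub
    ((hd.hasFDerivAt.clm_apply hdIW).const_mul I)).mul_const (2 : ℂ)⁻¹).sub hdv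
  have hFa : HasFDerivAt (afun φ v W) _ z := hF.congr_of_eventuallyEq
    (Filter.Eventually.of_forall ea)
  rw [hFa.fderiv]
  -- `v w = Φ'(gen w)`
  have ev : V =ᶠ[𝓝 z] fun w => fderiv ℝ Φ w (gen k w) := by
    filter_upwards [h.hU.mem_nhds hz] with w hw
    have hfd : fderiv ℝ Φ w = Complex.ofRealCLM.comp (fderiv ℝ φ w) :=
      (Complex.ofRealCLM.hasFDerivAt.comp w (h.diffAt h.hφ hw).hasFDerivAt).fderiv
    rw [hfd, hV]
    simp only [ContinuousLinearMap.comp_apply, Complex.ofRealCLM_apply]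
    rw [h.hv w hw]
  have hgen : HasFDerivAt (fun w => gen k w) ((gen k).restrictScalars ℝ) z :=
    ((gen k).restrictScalars ℝ).hasFDerivAt
  have hv' := (hd.hasFDerivAt.clm_apply hgen).congr_of_eventuallyEq ev
  have hfdv : ∀ w, fderiv ℝ V z w = fderiv ℝ (fderiv ℝ Φ) z w (gen k z)
      + fderiv ℝ Φ z (gen k w) := by
    intro w
    rw [hv'.fderiv]
    simp [add_comm]
  have hN := h.N_eq hz
  rw [pair_dz] at hN
  have hfdV : fderiv ℝ V z (gen k z) = ((fderiv ℝ v z (gen k z) : ℝ) : ℂ) := by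
    have : fderiv ℝ V z = Complex.ofRealCLM.comp (fderiv ℝ v z) :=
      (Complex.ofRealCLM.hasFDerivAt.comp z (h.diffAt h.smooth_v hz).hasFDerivAt).fderiv
    rw [this]; rfl
  rw [Complex.ofReal_sub, ← hN, ← hfdV]
  rw [hfdv (W z), hfdv (I • W z)]
  simp only [sub_apply, smul_apply, add_apply, ContinuousLinearMap.comp_apply,
    ContinuousLinearMap.flip_apply, smul_eq_mul, h.comm z hz, map_smul]
  rw [hsym (gen k z) (W z), hsym (gen k z) (I • W z)]
  ring

theorem smooth_c0 :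
    ContDiffOn ℝ ∞ (fun z => fderiv ℝ v z (W z) / 2 - fderiv ℝ v z (gen k z)) U := by
  have h1 := h.smooth_v.fderiv_of_isOpen (m := ∞) h.hU (by simp)
  exact ((h1.clm_apply h.smooth_W).div_const 2).sub
    (h1.clm_apply ((gen k).restrictScalars ℝ).contDiff.contDiffOn)

/-- `c₀ = |W|² - Z v` is locally constant -/
theorem fderiv_c0 {z : E n} (hz : z ∈ U) :
    fderiv ℝ (fun z => fderiv ℝ v z (W z) / 2 - fderiv ℝ v z (gen k z)) z = 0 := by
  set c0 : E n → ℝ := fun z => fderiv ℝ v z (W z) / 2 - fderiv ℝ v z (gen k z) with hc0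
  set a := afun φ v W with ha
  have hsm := h.smooth_a
  have h1 : ContDiffAt ℝ ∞ a z := hsm.contDiffAt (h.hU.mem_nhds hz)
  have hsym : IsSymmSndFDerivAt ℝ a z := h1.isSymmSndFDerivAt (by
    rw [minSmoothness_of_isRCLikeNormedField]
    exact ENat.LEInfty.out)
  have hd : DifferentiableAt ℝ (fderiv ℝ a) z :=
    h.diffAt (hsm.fderiv_of_isOpen (m := ∞) h.hU (by simp)) hz
  set B := fderiv ℝ (fderiv ℝ a) z with hB
  have l1 : ∀ z' ∈ U, ∀ x : E n, fderiv ℝ a z' (I • x) = I * fderiv ℝ a z' x := by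
    intro z' hz' x
    rw [fderiv_dz, fderiv_dz, Finset.mul_sum]
    refine Finset.sum_congr rfl fun i _ => ?_
    rw [h.dzb_a hz' i]
    simp only [Pi.smul_apply, smul_eq_mul, zero_mul, add_zero]
    ring
  have l2 : ∀ w x : E n, B w (I • x) = I * B w x := by
    intro w x
    have e1 : HasFDerivAt (fun z' => fderiv ℝ a z' (I • x))
        ((ContinuousLinearMap.apply ℝ ℂ (I • x)).comp B) z :=
      (ContinuousLinearMap.apply ℝ ℂ (I • x)).hasFDerivAt.comp z hd.hasFDerivAt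
    have e2 : HasFDerivAt (fun z' => I * fderiv ℝ a z' x)
        (I • (ContinuousLinearMap.apply ℝ ℂ x).comp B) z :=
      ((ContinuousLinearMap.apply ℝ ℂ x).hasFDerivAt.comp z hd.hasFDerivAt).const_mul I
    have e3 : (fun z' => fderiv ℝ a z' (I • x)) =ᶠ[𝓝 z] fun z' => I * fderiv ℝ a z' x := by
      filter_upwards [h.hU.mem_nhds hz] with z' hz'
      exact l1 z' hz' x
    have e4 := (e1.congr_of_eventuallyEq e3.symm).unique e2
    have e5 := congrArg (fun T => T w) e4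
    simpa using e5
  have hgen : HasFDerivAt (fun w => gen k w) ((gen k).restrictScalars ℝ) z :=
    ((gen k).restrictScalars ℝ).hasFDerivAt
  have l3 := hd.hasFDerivAt.clm_apply hgen
  have l4 : (fun y => fderiv ℝ a y (gen k y)) =ᶠ[𝓝 z] fun y => (c0 y : ℂ) := by
    filter_upwards [h.hU.mem_nhds hz] with y hy
    rw [ha, h.Za_eq hy]
  have l5 : HasFDerivAt (fun y => (c0 y : ℂ)) (Complex.ofRealCLM.comp (fderiv ℝ c0 z)) z :=
    Complex.ofRealCLM.hasFDerivAt.comp z (h.diffAt h.smooth_c0 hz).hasFDerivAt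
  have l6 := (l3.congr_of_eventuallyEq l4.symm).unique l5
  have l7 : ∀ w : E n, ((fderiv ℝ c0 z w : ℝ) : ℂ) = B w (gen k z) + fderiv ℝ a z (gen k w) := by
    intro w
    have := congrArg (fun T => T w) l6
    simp at this
    rw [← this]; ring
  ext w
  have e1 := l7 w
  have e2 := l7 (I • w)
  have e0 : gen k (I • w) = I • gen k w := (gen k).map_smul I w
  rw [hsym (I • w) (gen k z), l2, e0, l1 z hz, ← mul_add, hsym (gen k z) w, ← e1] at e2
  have e3 := congrArg Complex.im e2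
  simp at e3
  simpa using e3.symm

end ChartHyp

end Chart

/-! ## Global part -/

namespace PolAtlas

variable {n : ℕ} {Y : Type} [MulAction ℂˣ Y] (A : PolAtlas n Y)

/-- a continuous invariant function on a compact `M` has a maximum -/
theorem exists_max (hc : A.IsCpt) [Nonempty Y] (F : Y → ℝ) (hF : ∀ (c : ℂˣ) y, F (c • y) = F y)
    (hcont : ∀ a, ContinuousOn (fun z => F (A.γ a z)) (A.U a)) : ∃ y₀, ∀ y, F y ≤ F y₀ := by
  classical
  obtain ⟨m, a, K, hK, hcov⟩ := hc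
  -- the maximum on each nonempty compact piece
  have h1 : ∀ k, (K k).Nonempty → ∃ z ∈ K k, ∀ w ∈ K k, F (A.γ (a k) w) ≤ F (A.γ (a k) z) := by
    intro k hk
    obtain ⟨z, hz, hmax⟩ := (hK k).1.exists_isMaxOn hk ((hcont (a k)).mono (hK k).2)
    exact ⟨z, hz, fun w hw => hmax hw⟩
  choose! z hz hmax using h1
  let s : Finset (Fin m) := Finset.univ.filter fun k => (K k).Nonempty
  obtain ⟨y₁⟩ := ‹Nonempty Y›
  have hs : s.Nonempty := by
    obtain ⟨k, w, hw, c, -⟩ := hcov y₁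
    exact ⟨k, by simpa [s] using ⟨w, hw⟩⟩
  obtain ⟨k₀, hk₀, hmax₀⟩ := s.exists_max_image (fun k => F (A.γ (a k) (z k))) hs
  refine ⟨A.γ (a k₀) (z k₀), fun y => ?_⟩
  obtain ⟨k, w, hw, c, rfl⟩ := hcov y
  rw [hF]
  have hk : (K k).Nonempty := ⟨w, hw⟩
  exact (hmax k hk w hw).trans (hmax₀ k (by simpa [s] using hk))

variable {A}

section Circle

variable (D : A.DAct) (H : Y → ℝ)

/-- the hamiltonian as a function on `Y` -/
def Vg (y : Y) : ℝ := deriv (fun θ : ℝ => Real.log (H (D.act (cb_uexp θ) y))) 0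

variable {H}

theorem cb_log_act (hK : A.IsKahler H) {a : A.ι} {z : E n} (hz : z ∈ A.U a) (c : ℂˣ) (θ : ℝ) :
    Real.log (H (D.act (cb_uexp θ) (c • A.γ a z)))
      = Real.log (‖(c : ℂ)‖ ^ 2) + A.pot H a (dact (D.k a) (cb_uexp θ) z) := by
  rw [D.act_smul, D.act_γ a z hz, hK.hom, hK.hom, cb_norm_uexp_zpow, one_pow, one_mul,
    Real.log_mul (by have := c.ne_zero; positivity) (hK.pos _).ne']
  rfl

theorem diffAt_pot (hK : A.IsKahler H) {a : A.ι} {z : E n} (hz : z ∈ A.U a) :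
    DifferentiableAt ℝ (A.pot H a) z :=
  ((hK.smooth a).contDiffAt ((A.isOpen_U a).mem_nhds hz)).differentiableAt (by simp)

theorem cv_eq (hK : A.IsKahler H) {a : A.ι} {z : E n} (hz : z ∈ A.U a) :
    A.cv D H a z = fderiv ℝ (A.pot H a) z (gen (D.k a) z) := by
  unfold cv
  have h1 : (fun θ : ℝ => A.pot H a (fun j => exp ((D.k a j : ℂ) * θ * I) * z j))
      = fun θ : ℝ => A.pot H a (dact (D.k a) (cb_uexp θ) z) := by
    funext θ; rw [dact_uexp]
  rw [h1]
  have h2 := cb_hasDerivAt_dact (D.k a) 0 z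
  rw [uexp_zero, dact_one] at h2
  have h3 : HasFDerivAt (A.pot H a) (fderiv ℝ (A.pot H a) z) (dact (D.k a) (cb_uexp 0) z) := by
    rw [uexp_zero, dact_one]; exact (diffAt_pot hK hz).hasFDerivAt
  exact (h3.comp_hasDerivAt 0 h2).deriv

theorem Vg_eq (hK : A.IsKahler H) {a : A.ι} {z : E n} (hz : z ∈ A.U a) (c : ℂˣ) :
    Vg D H (c • A.γ a z) = A.cv D H a z := by
  unfold Vg
  have h1 : (fun θ : ℝ => Real.log (H (D.act (cb_uexp θ) (c • A.γ a z))))
      = fun θ : ℝ => Real.log (‖(c : ℂ)‖ ^ 2) + A.pot H a (dact (D.k a) (cb_uexp θ) z) := by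
    funext θ; exact cb_log_act D hK hz c θ
  rw [h1, deriv_const_add]
  unfold cv
  congr 1
  funext θ; rw [dact_uexp]

/-- derivative of an invariant function along the orbits of the circle -/
theorem hasDerivAt_orbit {F : Y → ℝ} {a : A.ι} {f : E n → ℝ}
    (hf : ∀ z ∈ A.U a, ∀ c : ℂˣ, F (c • A.γ a z) = f z)
    (y : Y) (θ₀ : ℝ) {z : E n} (hz : z ∈ A.U a) (hd : DifferentiableAt ℝ f z) (c : ℂˣ)
    (hy : D.act (cb_uexp θ₀) y = c • A.γ a z) :
    HasDerivAt (fun θ : ℝ => F (D.act (cb_uexp θ) y)) (fderiv ℝ f z (gen (D.k a) z)) θ₀ := by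
  have h1 : ∀ θ : ℝ, F (D.act (cb_uexp θ) y) = f (dact (D.k a) (cb_uexp (θ - θ₀)) z) := by
    intro θ
    have e1 : D.act (cb_uexp θ) y = (c * cb_uexp (θ - θ₀) ^ D.m a) •
        A.γ a (dact (D.k a) (cb_uexp (θ - θ₀)) z) := by
      have : cb_uexp θ = cb_uexp (θ - θ₀) * cb_uexp θ₀ := by rw [← uexp_add]; congr 1; ring
      rw [this, D.act_mul, hy, D.act_smul, D.act_γ a z hz, mul_smul]
    rw [e1, hf _ (D.dom a z hz _)]
  have h2 : (fun θ : ℝ => F (D.act (cb_uexp θ) y))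
      = fun θ : ℝ => f (dact (D.k a) (cb_uexp (θ - θ₀)) z) := funext h1
  rw [h2]
  exact hasDerivAt_comp_dact (D.k a) hd θ₀

/-- the log of `H` along the orbits -/
theorem hasDerivAt_log (hK : A.IsKahler H) (y : Y) (θ₀ : ℝ) :
    HasDerivAt (fun θ : ℝ => Real.log (H (D.act (cb_uexp θ) y)))
      (Vg D H (D.act (cb_uexp θ₀) y)) θ₀ := by
  obtain ⟨a, z, hz, c, hy⟩ := A.cover (D.act (cb_uexp θ₀) y)
  have h1 : ∀ θ : ℝ, Real.log (H (D.act (cb_uexp θ) y)) = Real.log (‖(c : ℂ)‖ ^ 2)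
      + A.pot H a (dact (D.k a) (cb_uexp (θ - θ₀)) z) := by
    intro θ
    have : cb_uexp θ = cb_uexp (θ - θ₀) * cb_uexp θ₀ := by rw [← uexp_add]; congr 1; ring
    rw [this, D.act_mul, hy, cb_log_act D hK hz]
  have h2 : (fun θ : ℝ => Real.log (H (D.act (cb_uexp θ) y))) = fun θ : ℝ =>
      Real.log (‖(c : ℂ)‖ ^ 2) + A.pot H a (dact (D.k a) (cb_uexp (θ - θ₀)) z) := funext h1
  rw [h2, hy, Vg_eq D hK hz, cv_eq D hK hz]
  exact (hasDerivAt_comp_dact (D.k a) (diffAt_pot hK hz) θ₀).const_add _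

/-- the chart hypotheses for a circle-invariant holomorphic gradient -/
theorem chartHyp (hK : A.IsKahler H) (W : A.HolField)
    (hW : ∀ a, ∀ z ∈ A.U a, ∀ m, ∑ k, hess (A.pot H a) z k m * W.W a z k =
        dzb m (fun w => (A.cv D H a w : ℂ)) z)
    (hinv : ∀ a, ∀ z ∈ A.U a, ∀ c : ℂˣ, ‖(c : ℂ)‖ = 1 →
        W.W a (dact (D.k a) c z) = dact (D.k a) c (W.W a z)) (a : A.ι) :
    ChartHyp (A.U a) (A.pot H a) (A.cv D H a) (D.k a) (W.W a) where
  hU := A.isOpen_U a
  hφ := hK.smooth a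
  pos := hK.posDef a
  hv := fun z hz => cv_eq D hK hz
  hW := W.hol a
  grad := hW a
  comm := by
    intro z hz
    have hd : DifferentiableAt ℝ (W.W a) z :=
      ((W.hol a).differentiableAt ((A.isOpen_U a).mem_nhds hz)).restrictScalars ℝ
    have h3 := cb_hasDerivAt_dact (D.k a) 0 z
    rw [uexp_zero, dact_one] at h3
    have h4 : HasFDerivAt (W.W a) (fderiv ℝ (W.W a) z) (dact (D.k a) (cb_uexp 0) z) := by
      rw [uexp_zero, dact_one]; exact hd.hasFDerivAt
    have h5 : HasDerivAt (fun θ : ℝ => W.W a (dact (D.k a) (cb_uexp θ) z))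
        (fderiv ℝ (W.W a) z (gen (D.k a) z)) 0 := h4.comp_hasDerivAt (0 : ℝ) h3
    have h6 := cb_hasDerivAt_dact (D.k a) 0 (W.W a z)
    rw [uexp_zero, dact_one] at h6
    have h7 : (fun θ : ℝ => W.W a (dact (D.k a) (cb_uexp θ) z))
        = fun θ : ℝ => dact (D.k a) (cb_uexp θ) (W.W a z) := by
      funext θ; exact hinv a z hz _ (cb_norm_uexp θ)
    rw [h7] at h5
    exact h5.unique h6

/-- **T3b.** If the gradient of the hamiltonian is a holomorphic vector field which is invariant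
under the circle, then the metric is invariant under the circle. -/
theorem circle_of_field (hc : A.IsCpt) (hK : A.IsKahler H) (W : A.HolField)
    (hW : ∀ a, ∀ z ∈ A.U a, ∀ m, ∑ k, hess (A.pot H a) z k m * W.W a z k =
        dzb m (fun w => (A.cv D H a w : ℂ)) z)
    (hinv : ∀ a, ∀ z ∈ A.U a, ∀ c : ℂˣ, ‖(c : ℂ)‖ = 1 →
        W.W a (dact (D.k a) c z) = dact (D.k a) c (W.W a z)) :
    ∀ (c : ℂˣ) y, ‖(c : ℂ)‖ = 1 → H (D.act c y) = H y := by
  classical
  have hC := fun a => chartHyp D hK W hW hinv a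
  -- the global functions
  have hVinv : ∀ (c : ℂˣ) y, Vg D H (c • y) = Vg D H y := by
    intro c y
    obtain ⟨a, z, hz, c', rfl⟩ := A.cover y
    rw [← mul_smul, Vg_eq D hK hz, Vg_eq D hK hz]
  -- `N = |W|²`, independent of the chart
  have hNex : ∀ y : Y, ∃ r : ℝ, ∀ a, ∀ z ∈ A.U a, ∀ c : ℂˣ, y = c • A.γ a z →
      r = fderiv ℝ (A.cv D H a) z (W.W a z) / 2 := by
    intro y
    obtain ⟨a, z, hz, c, hy⟩ := A.cover y
    refine ⟨fderiv ℝ (A.cv D H a) z (W.W a z) / 2, ?_⟩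
    intro b z' hz' c' hy'
    have hO : z ∈ A.O a b := by
      refine ⟨hz, z', hz', c'⁻¹ * c, ?_⟩
      rw [mul_smul, ← hy, hy', inv_smul_smul]
    obtain ⟨t1, t2⟩ := A.trans a b z hz hO.2
    have hτ : A.τ a b z = z' := by
      have e : A.γ b (A.τ a b z) = (A.h a b z * c⁻¹ * c') • A.γ b z' := by
        rw [t2, mul_smul, mul_smul, ← hy', hy, inv_smul_smul]
      exact (A.inj b z' hz' _ t1 _ e).1
    have hOo : A.O a b ∈ 𝓝 z := (A.isOpen_O a b).mem_nhds hO
    have hdτ : DifferentiableAt ℂ (A.τ a b) z := (A.hol_τ a b).differentiableAt hOo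
    have hdτ' : HasFDerivAt (A.τ a b) ((fderiv ℂ (A.τ a b) z).restrictScalars ℝ) z :=
      hdτ.hasFDerivAt.restrictScalars ℝ
    have hv : A.cv D H a =ᶠ[𝓝 z] fun w => A.cv D H b (A.τ a b w) := by
      filter_upwards [hOo] with w hw
      obtain ⟨s1, s2⟩ := A.trans a b w hw.1 hw.2
      have e1 := Vg_eq D hK hw.1 (1 : ℂˣ)
      have e2 := Vg_eq D hK s1 (1 : ℂˣ)
      rw [one_smul] at e1 e2
      rw [← e1, ← e2, s2, hVinv]
    have hdb : HasFDerivAt (A.cv D H b) (fderiv ℝ (A.cv D H b) z') (A.τ a b z) := by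
      rw [hτ]
      exact ((hC b).diffAt (hC b).smooth_v hz').hasFDerivAt
    have hcomp := (hdb.comp z hdτ').congr_of_eventuallyEq hv
    rw [hcomp.fderiv, ContinuousLinearMap.comp_apply]
    have hWt := W.trans a b z hO
    rw [hτ] at hWt
    rw [hWt]
    rfl
  choose N hN using hNex
  have hN' : ∀ a, ∀ z ∈ A.U a, ∀ c : ℂˣ, N (c • A.γ a z)
      = fderiv ℝ (A.cv D H a) z (W.W a z) / 2 := fun a z hz c => hN _ a z hz c rfl
  -- `Z v`
  set ZV : Y → ℝ := fun y => deriv (fun θ : ℝ => Vg D H (D.act (cb_uexp θ) y)) 0 with hZV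
  have hdV : ∀ a, ∀ z ∈ A.U a, DifferentiableAt ℝ (A.cv D H a) z := fun a z hz =>
    (hC a).diffAt (hC a).smooth_v hz
  have hact0 : ∀ y, D.act (cb_uexp 0) y = y := fun y => by rw [uexp_zero, D.act_one]
  have hZV' : ∀ a, ∀ z ∈ A.U a, ∀ c : ℂˣ, ZV (c • A.γ a z)
      = fderiv ℝ (A.cv D H a) z (gen (D.k a) z) := by
    intro a z hz c
    exact (hasDerivAt_orbit D (F := Vg D H) (fun z hz c => Vg_eq D hK hz c) _ 0 hz (hdV a z hz) c
      (hact0 _)).deriv
  have hVd : ∀ y θ₀, HasDerivAt (fun θ : ℝ => Vg D H (D.act (cb_uexp θ) y))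
      (ZV (D.act (cb_uexp θ₀) y)) θ₀ := by
    intro y θ₀
    obtain ⟨a, z, hz, c, hy⟩ := A.cover (D.act (cb_uexp θ₀) y)
    rw [hy, hZV' a z hz c]
    exact hasDerivAt_orbit D (F := Vg D H) (fun z hz c => Vg_eq D hK hz c) _ θ₀ hz (hdV a z hz) c hy
  set C0 : Y → ℝ := fun y => N y - ZV y with hC0
  have hC0' : ∀ a, ∀ z ∈ A.U a, ∀ c : ℂˣ, C0 (c • A.γ a z)
      = fderiv ℝ (A.cv D H a) z (W.W a z) / 2 - fderiv ℝ (A.cv D H a) z (gen (D.k a) z) := by
    intro a z hz c
    rw [hC0]; simp only; rw [hN' a z hz c, hZV' a z hz c]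
  have hC0inv : ∀ (c : ℂˣ) y, C0 (c • y) = C0 y := by
    intro c y
    obtain ⟨a, z, hz, c', rfl⟩ := A.cover y
    rw [← mul_smul, hC0' a z hz, hC0' a z hz]
  -- `C0` is constant in charts near every point
  have hC0loc : ∀ a, ∀ z ∈ A.U a, ∀ᶠ w in 𝓝 z, C0 (A.γ a w) = C0 (A.γ a z) := by
    intro a z hz
    obtain ⟨ε, hε, hball⟩ := Metric.isOpen_iff.1 (A.isOpen_U a) z hz
    filter_upwards [Metric.ball_mem_nhds z hε] with w hw
    have h1 : ∀ x ∈ A.U a, C0 (A.γ a x) = (fun z => fderiv ℝ (A.cv D H a) z (W.W a z) / 2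
        - fderiv ℝ (A.cv D H a) z (gen (D.k a) z)) x := by
      intro x hx
      have := hC0' a x hx 1
      rwa [one_smul] at this
    rw [h1 w (hball hw), h1 z hz]
    have hconv : Convex ℝ (Metric.ball z ε) := convex_ball z ε
    refine hconv.is_const_of_fderivWithin_eq_zero (𝕜 := ℝ)
      (f := fun z => fderiv ℝ (A.cv D H a) z (W.W a z) / 2
        - fderiv ℝ (A.cv D H a) z (gen (D.k a) z)) ?_ ?_ hw (Metric.mem_ball_self hε)
    · intro x hx
      exact ((hC a).diffAt (hC a).smooth_c0 (hball hx)).differentiableWithinAt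
    · intro x hx
      rw [fderivWithin_of_isOpen Metric.isOpen_ball hx]
      exact (hC a).fderiv_c0 (hball hx)
  have hC0cont : ∀ a, ContinuousOn (fun z => C0 (A.γ a z)) (A.U a) := by
    intro a z hz
    refine ContinuousAt.continuousWithinAt ?_
    exact continuousAt_const.congr (Filter.EventuallyEq.symm (hC0loc a z hz))
  have hVcont : ∀ a, ContinuousOn (fun z => Vg D H (A.γ a z)) (A.U a) := by
    intro a
    refine (hC a).smooth_v.continuousOn.congr fun z hz => ?_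
    have := Vg_eq D hK hz (1 : ℂˣ)
    rwa [one_smul] at this
  -- `C0 = 0`
  intro c₁ y₁ hc₁
  have _ : Nonempty Y := ⟨y₁⟩
  have hmax : ∀ κ : ℝ, ∃ y₀, C0 y₀ = 0 ∧ ∀ y, κ * C0 y + Vg D H y ≤ Vg D H y₀ := by
    intro κ
    obtain ⟨y₀, hy₀⟩ := A.exists_max hc (fun y => κ * C0 y + Vg D H y)
      (fun c y => by simp only [hC0inv, hVinv])
      (fun a => (continuousOn_const.mul (hC0cont a)).add (hVcont a))
    obtain ⟨a, z, hz, c, rfl⟩ := A.cover y₀
    have hloc : IsLocalMax (A.cv D H a) z := by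
      filter_upwards [hC0loc a z hz, (A.isOpen_U a).mem_nhds hz] with w hw hwU
      have h1 := hy₀ (c • A.γ a w)
      simp only [hC0inv] at h1
      rw [hw, Vg_eq D hK hwU, Vg_eq D hK hz] at h1
      linarith
    have hfd := hloc.fderiv_eq_zero
    have h0 : C0 (c • A.γ a z) = 0 := by
      rw [hC0' a z hz c, hfd]; simp
    refine ⟨_, h0, fun y => ?_⟩
    have h1 := hy₀ y
    rw [h0, mul_zero, zero_add] at h1
    exact h1
  have hC0z : ∀ y, C0 y = 0 := by
    intro y
    by_contra hne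
    obtain ⟨y₂, -, h2⟩ := hmax 0
    obtain ⟨y₃, -, h3⟩ := hmax ((Vg D H y₂ - Vg D H y + 1) / C0 y)
    have e1 := h3 y
    rw [div_mul_cancel₀ _ hne] at e1
    have e2 := h2 y₃
    rw [zero_mul, zero_add] at e2
    linarith
  -- `N ≥ 0`, so `v` is nondecreasing along the orbits
  have hNnn : ∀ y, 0 ≤ N y := by
    intro y
    obtain ⟨a, z, hz, c, rfl⟩ := A.cover y
    rw [hN' a z hz c]
    exact (hC a).N_nonneg hz
  have hZN : ∀ y, ZV y = N y := fun y => by
    have := hC0z y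
    simp only [hC0] at this
    linarith
  have hact2 : ∀ y (θ : ℝ), D.act (cb_uexp (θ + 2 * Real.pi)) y = D.act (cb_uexp θ) y := by
    intro y θ; rw [uexp_add, uexp_two_pi, mul_one]
  have hZ0 : ∀ y, ZV y = 0 := by
    intro y
    set f : ℝ → ℝ := fun θ => Vg D H (D.act (cb_uexp θ) y) with hf
    have hmono : Monotone f := by
      refine monotone_of_deriv_nonneg (fun θ => (hVd y θ).differentiableAt) fun θ => ?_
      rw [(hVd y θ).deriv, hZN]
      exact hNnn _
    have hper : ∀ θ, f (θ + 2 * Real.pi) = f θ := fun θ => by rw [hf]; simp only [hact2]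
    have hconst : ∀ θ, f θ = f 0 := by
      have key : ∀ θ η, θ ≤ η → f η = f θ := by
        intro θ η hθη
        obtain ⟨m, hm⟩ := exists_nat_ge ((η - θ) / (2 * Real.pi))
        have hper' : ∀ m : ℕ, f (θ + m * (2 * Real.pi)) = f θ := by
          intro m
          induction m with
          | zero => simp
          | succ m ih =>
            rw [← ih, ← hper (θ + m * (2 * Real.pi))]
            congr 1
            push_cast
            ring
        refine le_antisymm ?_ (hmono hθη)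
        rw [← hper' m]
        apply hmono
        have hpi := Real.two_pi_pos
        have := (div_le_iff₀ hpi).1 hm
        linarith
      intro θ
      rcases le_total θ 0 with h | h
      · exact (key θ 0 h).symm
      · exact key 0 θ h
    have h1 := (hVd y 0)
    rw [hact0] at h1
    have h2 : HasDerivAt f 0 0 := by
      have : f = fun _ => f 0 := funext hconst
      rw [this]
      exact hasDerivAt_const _ _
    exact h1.unique h2
  -- conclusion
  set g : ℝ → ℝ := fun θ => Real.log (H (D.act (cb_uexp θ) y₁)) with hg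
  have hgd : ∀ θ, HasDerivAt g (Vg D H (D.act (cb_uexp θ) y₁)) θ := fun θ =>
    hasDerivAt_log D hK y₁ θ
  have hVc : ∀ θ, Vg D H (D.act (cb_uexp θ) y₁) = Vg D H y₁ := by
    intro θ
    have h1 := is_const_of_deriv_eq_zero (f := fun θ => Vg D H (D.act (cb_uexp θ) y₁))
      (fun θ => (hVd y₁ θ).differentiableAt) (fun θ => by rw [(hVd y₁ θ).deriv, hZ0]) θ 0
    rw [h1, hact0]
  have hg2 : ∀ θ, g θ - Vg D H y₁ * θ = g 0 := by
    intro θ
    have hd : ∀ θ, HasDerivAt (fun θ => g θ - Vg D H y₁ * θ) 0 θ := by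
      intro θ
      have h1 := (hgd θ).sub ((hasDerivAt_id θ).const_mul (Vg D H y₁))
      simp only [hVc, id, mul_one, sub_self] at h1
      exact h1
    have h1 := is_const_of_deriv_eq_zero (f := fun θ => g θ - Vg D H y₁ * θ)
      (fun θ => (hd θ).differentiableAt) (fun θ => (hd θ).deriv) θ 0
    simp only [mul_zero, sub_zero] at h1
    exact h1
  have hV0 : Vg D H y₁ = 0 := by
    have h1 := hg2 (2 * Real.pi)
    have h2 : g (2 * Real.pi) = g 0 := by
      have := hact2 y₁ 0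
      rw [zero_add] at this
      simp only [hg, this]
    rw [h2] at h1
    have h3 : Vg D H y₁ * (2 * Real.pi) = 0 := by linarith
    rcases mul_eq_zero.1 h3 with h | h
    · exact h
    · exact absurd h Real.two_pi_pos.ne'
  obtain ⟨θ, rfl⟩ := exists_uexp c₁ hc₁
  have h1 := hg2 θ
  rw [hV0, zero_mul, sub_zero] at h1
  simp only [hg, hact0] at h1
  exact Real.log_injOn_pos (Set.mem_Ioi.2 (hK.pos _)) (Set.mem_Ioi.2 (hK.pos _)) h1

end Circle

end PolAtlas

end

end Pool.Agent.YTDA
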