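import Pool.Agent.YTDA.Residue
import Pool.Agent.YTDA.Bochner3

/-!
The divergence theorem in the form used in the Bochner argument.
-/

namespace Pool.Agent.YTDA

open Complex Set Topology ContDiff MeasureTheory

noncomputable section

namespace PolAtlas

variable {n : ℕ} {Y : Type} [MulAction ℂˣ Y]

theorem nonneg_div_succ {A : PolAtlas (n + 1) Y} (P : A.Part)
    (F : Y → ℝ) (h0 : ∀ y, 0 ≤ F y) (hF : ∀ (c : ℂˣ) y, F (c • y) = F y)
    (hcont : ∀ a, ContinuousOn (fun z => F (A.γ a z)) (A.U a))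
    (ρ : A.ι → E (n + 1) → ℝ) (hρ : ∀ a, ContDiffOn ℝ ∞ (ρ a) (A.U a))
    (hρ0 : ∀ a, ∀ z ∈ A.U a, 0 < ρ a z)
    (hρt : ∀ a b, ∀ z ∈ A.O a b,
      ρ a z = ρ b (A.τ a b z) * ‖(fderiv ℂ (A.τ a b) z).det‖ ^ 2)
    (Ξ : A.ι → E (n + 1) → E (n + 1)) (hΞ : ∀ a, ContDiffOn ℝ ∞ (Ξ a) (A.U a))
    (hΞt : ∀ a b, ∀ z ∈ A.O a b, Ξ b (A.τ a b z) = fderiv ℂ (A.τ a b) z (Ξ a z))
    (hdiv : ∀ a, ∀ z ∈ A.U a, ρ a z * F (A.γ a z) = rdiv' (fun w => (ρ a w : ℂ) • Ξ a w) z) :
    ∀ y, F y = 0 := by
  set W : A.ι → Fin (n + 1) → Fin (n + 1) → E (n + 1) → ℂ := fun _ _ _ _ => 0 with hW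
  set R : A.ι → Fin (n + 1) → E (n + 1) → ℂ := fun a i z => (ρ a z : ℂ) * Ξ a z i with hR
  have hRs : ∀ a i, ContDiffOn ℝ ∞ (R a i) (A.U a) := fun a i =>
    (ofRealCLM.contDiff.comp_contDiffOn (hρ a)).mul ((contDiffOn_pi.1 (hΞ a)) i)
  have hpol : ∀ a i z, Part.polar W R a i z = R a i z := by
    intro a i z
    simp only [Part.polar, hW, zero_div, Finset.sum_const_zero, zero_add]
  have hres := P.residue W R (fun a i j => contDiffOn_const)
    (fun a i => (hRs a i).of_le (by exact_mod_cast le_top)) (fun a b => by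
      refine Filter.Eventually.of_forall fun z hz l => ?_
      simp only [hpol]
      have h1 : ∑ i, fderiv ℂ (A.τ a b) z (Pi.single i 1) l * R a i z =
          (ρ a z : ℂ) * fderiv ℂ (A.τ a b) z (Ξ a z) l := by
        have h2 : Ξ a z = ∑ i, Ξ a z i • (Pi.single i (1 : ℂ) : E (n + 1)) := by
          ext i
          simp [Finset.sum_apply, Pi.single_apply]
        conv_rhs => rw [h2, map_sum, Finset.sum_apply, Finset.mul_sum]
        refine Finset.sum_congr rfl fun i _ => ?_
        rw [map_smul, Pi.smul_apply, smul_eq_mul, hR]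
        ring
      rw [h1, ← hΞt a b z hz, hρt a b z hz]
      simp only [hR]
      push_cast
      ring)
  have hzero : - (Real.pi : ℂ) * ∑ k, ∑ j, ∫ b : E n, (A.U (P.a k)).indicator
        (fun z => P.X k (P.a k) z * W (P.a k) j j z) (j.insertNth 0 b) = 0 := by
    simp only [hW, Set.indicator_zero, integral_zero, Finset.sum_const_zero, mul_zero]
  rw [hzero] at hres
  -- the divergence
  have hre : ∀ a, ∀ z ∈ A.U a, (Part.polarDiv W R a z).re = ρ a z * F (A.γ a z) / 2 := by
    intro a z hz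
    have hd : DifferentiableAt ℝ (fun w => (ρ a w : ℂ) • Ξ a w) z := by
      have h2 : ContDiffOn ℝ ∞ (fun w => (ρ a w : ℂ) • Ξ a w) (A.U a) :=
        (ofRealCLM.contDiff.comp_contDiffOn (hρ a)).smul (hΞ a)
      exact (h2.contDiffAt ((A.isOpen_U a).mem_nhds hz)).differentiableAt (by simp)
    rw [hdiv a z hz, rdiv'_eq hd]
    simp only [Part.polarDiv, Complex.re_sum, add_re]
    rw [Finset.sum_div]
    refine Finset.sum_congr rfl fun i _ => ?_
    have h3 : ∀ j, (dz i (W a i j) z / (starRingEnd ℂ) (z j)).re = 0 := by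
      intro j
      have : dz i (W a i j) z = 0 := by
        simp only [hW, dz]
        simp
      rw [this, zero_div, zero_re]
    simp only [h3, Finset.sum_const_zero, zero_add]
    rw [re_dz]
    rfl
  have hcd : ∀ a, ContinuousOn (Part.polarDiv W R a) (A.U a) := by
    intro a
    have h3 : ∀ z, Part.polarDiv W R a z = ∑ i, dz i (R a i) z := by
      intro z
      simp only [Part.polarDiv]
      refine Finset.sum_congr rfl fun i _ => ?_
      have : ∀ j, dz i (W a i j) z / (starRingEnd ℂ) (z j) = 0 := by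
        intro j
        have h4 : dz i (W a i j) z = 0 := by
          simp only [hW, dz]
          simp
        rw [h4, zero_div]
      simp only [this, Finset.sum_const_zero, zero_add]
    have h5 : Part.polarDiv W R a = fun z => ∑ i, dz i (R a i) z := funext h3
    rw [h5]
    exact continuousOn_finsetSum _ fun i _ =>
      continuousOn_dz (A.isOpen_U a) ((hRs a i).of_le (by exact_mod_cast le_top)) i
  have hint : ∀ k, IntegrableOn (fun z => P.X k (P.a k) z * Part.polarDiv W R (P.a k) z)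
      (A.U (P.a k)) := by
    intro k
    refine integrableOn_cut (A.isOpen_U _) (P.cpt k) (P.sub k)
      ((P.contDiffOn_X k _).continuousOn.mul (hcd _)) (fun z hz hz' => ?_)
    rw [P.X_zero k hz hz', zero_mul]
  have hterm : ∀ k, (∫ z in A.U (P.a k), P.X k (P.a k) z * Part.polarDiv W R (P.a k) z).re =
      ∫ z in A.U (P.a k), P.χ k (A.γ (P.a k) z) * (ρ (P.a k) z * F (A.γ (P.a k) z) / 2) := by
    intro k
    have h1 := integral_re (hint k)
    have h2 : (∫ z in A.U (P.a k), RCLike.re (P.X k (P.a k) z * Part.polarDiv W R (P.a k) z)) =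
        ∫ z in A.U (P.a k), P.χ k (A.γ (P.a k) z) * (ρ (P.a k) z * F (A.γ (P.a k) z) / 2) := by
      refine setIntegral_congr_fun (A.isOpen_U _).measurableSet fun z hz => ?_
      show (P.X k (P.a k) z * Part.polarDiv W R (P.a k) z).re = _
      rw [Part.X, re_ofReal_mul, hre _ z hz]
    rw [← h2]
    exact h1.symm
  have hnn : ∀ k z, 0 ≤ P.χ k (A.γ (P.a k) z) * (ρ (P.a k) z * F (A.γ (P.a k) z) / 2) ∨
      z ∉ A.U (P.a k) := by
    intro k z
    by_cases hz : z ∈ A.U (P.a k)
    · left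
      have h1 := P.nonneg k (A.γ (P.a k) z)
      have h2 := (hρ0 _ z hz).le
      have h3 := h0 (A.γ (P.a k) z)
      positivity
    · right
      exact hz
  have hnn' : ∀ k, 0 ≤ ∫ z in A.U (P.a k),
      P.χ k (A.γ (P.a k) z) * (ρ (P.a k) z * F (A.γ (P.a k) z) / 2) := fun k =>
    setIntegral_nonneg (A.isOpen_U _).measurableSet fun z hz =>
      (hnn k z).resolve_right (not_not.2 hz)
  have hsum : ∑ k, ∫ z in A.U (P.a k),
      P.χ k (A.γ (P.a k) z) * (ρ (P.a k) z * F (A.γ (P.a k) z) / 2) = 0 := by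
    simp_rw [← hterm]
    rw [← Complex.re_sum, hres, zero_re]
  have hall := (Finset.sum_eq_zero_iff_of_nonneg fun k _ => hnn' k).1 hsum
  have hcont' : ∀ k, ContinuousOn (fun z => P.χ k (A.γ (P.a k) z) *
      (ρ (P.a k) z * F (A.γ (P.a k) z) / 2)) (A.U (P.a k)) := fun k =>
    (P.smooth k _).continuousOn.mul ((((hρ _).continuousOn).mul (hcont _)).div_const 2)
  have hpt : ∀ k, ∀ z ∈ A.U (P.a k), P.χ k (A.γ (P.a k) z) *
      (ρ (P.a k) z * F (A.γ (P.a k) z) / 2) = 0 := by
    intro k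
    have hi : IntegrableOn (fun z => P.χ k (A.γ (P.a k) z) *
        (ρ (P.a k) z * F (A.γ (P.a k) z) / 2)) (A.U (P.a k)) := by
      have h1 : IntegrableOn (fun z => (P.X k (P.a k) z * Part.polarDiv W R (P.a k) z).re)
          (A.U (P.a k)) := (hint k).re
      refine h1.congr_fun (fun z hz => ?_) (A.isOpen_U _).measurableSet
      show (P.X k (P.a k) z * Part.polarDiv W R (P.a k) z).re = _
      rw [Part.X, re_ofReal_mul, hre _ z hz]
    have h2 := (setIntegral_eq_zero_iff_of_nonneg_ae ((ae_restrict_iff'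
      (A.isOpen_U _).measurableSet).2 (Filter.Eventually.of_forall fun z hz =>
        (hnn k z).resolve_right (not_not.2 hz))) hi).1 (hall k (Finset.mem_univ k))
    intro z hz
    exact MeasureTheory.Measure.eqOn_open_of_ae_eq h2 (A.isOpen_U _) (hcont' k)
      continuousOn_const hz
  intro y
  by_contra hne
  have hsy := P.sum y
  have hk : ∃ k, P.χ k y ≠ 0 := by
    by_contra hcon
    push Not at hcon
    rw [Finset.sum_eq_zero fun k _ => hcon k] at hsy
    exact zero_ne_one hsy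
  obtain ⟨k, hk⟩ := hk
  obtain ⟨z, hz, c, rfl⟩ := P.supp k y hk
  have hzU := P.sub k hz
  have h1 := hpt k z hzU
  rw [P.inv] at hk
  rw [hF] at hne
  have h2 := (hρ0 _ z hzU).ne'
  rcases mul_eq_zero.1 h1 with h3 | h3
  · exact hk h3
  · rw [div_eq_zero_iff, or_iff_left two_ne_zero] at h3
    rcases mul_eq_zero.1 h3 with h4 | h4
    · exact h2 h4
    · exact hne h4

end PolAtlas

end

end Pool.Agent.YTDA
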