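import Pool.Agent.YTDA.FldX

/-!
# Invariance of a Kähler metric of constant scalar curvature on the fourfold `X`
-/

set_option autoImplicit false

namespace Pool.Agent.YTDA

open Complex Set Topology Filter Metric ComplexOrder
open Pool.Agent.YTD

noncomputable section

/-! ## Changes of signs of the coordinates -/

/-- multiplication of the coordinates by signs -/
def sgn {n : ℕ} (ε : Fin n → ℝ) (z : E n) : E n := fun j => (ε j : ℂ) * z j

/-- `sgn` as a linear equivalence -/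
def sgnE {n : ℕ} (ε : Fin n → ℝ) (hε : ∀ j, ε j * ε j = 1) : E n ≃L[ℝ] E n :=
  ContinuousLinearEquiv.equivOfInverse
    (ContinuousLinearMap.pi fun j => (ε j) • ContinuousLinearMap.proj j)
    (ContinuousLinearMap.pi fun j => (ε j) • ContinuousLinearMap.proj j)
    (fun z => by ext j; simp [← mul_assoc, ← ofReal_mul, hε])
    (fun z => by ext j; simp [← mul_assoc, ← ofReal_mul, hε])

theorem sgnE_apply {n : ℕ} (ε : Fin n → ℝ) (hε : ∀ j, ε j * ε j = 1) (z : E n) :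
    sgnE ε hε z = sgn ε z := by
  ext j
  simp [sgnE, sgn]

theorem sgn_single {n : ℕ} (ε : Fin n → ℝ) (i : Fin n) (c : ℂ) :
    sgn ε (Pi.single i c : E n) = (ε i) • (Pi.single i c : E n) := by
  ext j
  by_cases h : j = i
  · subst h; simp [sgn]
  · simp [sgn, h]

theorem fderiv_sgn {n : ℕ} {ε : Fin n → ℝ} (hε : ∀ j, ε j * ε j = 1) (f : E n → ℂ) (z : E n)
    (i : Fin n) (c : ℂ) : fderiv ℝ (fun w => f (sgn ε w)) z (Pi.single i c) =
      (ε i : ℂ) * fderiv ℝ f (sgn ε z) (Pi.single i c) := by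
  have h1 : (fun w => f (sgn ε w)) = f ∘ (sgnE ε hε) := by
    funext w
    rw [Function.comp_apply, sgnE_apply]
  rw [h1, (sgnE ε hε).comp_right_fderiv, ContinuousLinearMap.comp_apply]
  show fderiv ℝ f (sgnE ε hε z) (sgnE ε hε (Pi.single i c)) = _
  rw [sgnE_apply, sgnE_apply, sgn_single, map_smul, real_smul]

theorem dz_sgn {n : ℕ} {ε : Fin n → ℝ} (hε : ∀ j, ε j * ε j = 1) (f : E n → ℂ) (z : E n)
    (i : Fin n) : dz i (fun w => f (sgn ε w)) z = (ε i : ℂ) * dz i f (sgn ε z) := by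
  unfold dz
  rw [fderiv_sgn hε, fderiv_sgn hε]
  ring

theorem dzb_sgn {n : ℕ} {ε : Fin n → ℝ} (hε : ∀ j, ε j * ε j = 1) (f : E n → ℂ) (z : E n)
    (i : Fin n) : dzb i (fun w => f (sgn ε w)) z = (ε i : ℂ) * dzb i f (sgn ε z) := by
  unfold dzb
  rw [fderiv_sgn hε, fderiv_sgn hε]
  ring

theorem dz_const_mul' {n : ℕ} {ε : ℝ} (hε : ε * ε = 1) (f : E n → ℂ) (z : E n) (i : Fin n) :
    dz i (fun w => (ε : ℂ) * f w) z = (ε : ℂ) * dz i f z := by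
  have h0 : ε ≠ 0 := by rintro rfl; norm_num at hε
  have h1 : ∀ v, fderiv ℝ (fun w => (ε : ℂ) * f w) z v = (ε : ℂ) * fderiv ℝ f z v := by
    intro v
    have e1 : (fun w => (ε : ℂ) * f w) = ε • f := by
      funext w; rw [Pi.smul_apply, real_smul]
    have h2 : fderiv ℝ (ε • f) z = ε • fderiv ℝ f z := by
      let _ := invertibleOfNonzero h0
      exact fderiv_const_smul_of_invertible ε
    rw [e1, h2]
    show ε • fderiv ℝ f z v = _
    rw [real_smul]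
  unfold dz
  rw [h1, h1]
  ring

theorem hess_sgn {n : ℕ} {ε : Fin n → ℝ} (hε : ∀ j, ε j * ε j = 1) (φ : E n → ℝ) (z : E n)
    (i j : Fin n) : hess (fun w => φ (sgn ε w)) z i j =
      (ε i : ℂ) * ((ε j : ℂ) * hess φ (sgn ε z) i j) := by
  unfold hess
  have h1 : dzb j (fun w => ((φ (sgn ε w) : ℝ) : ℂ)) =
      fun w => (fun u => (ε j : ℂ) * dzb j (fun w => (φ w : ℂ)) u) (sgn ε w) := by
    funext w
    exact dzb_sgn hε (fun w => (φ w : ℂ)) w j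
  rw [h1]
  exact (dz_sgn hε (fun u => (ε j : ℂ) * dzb j (fun w => (φ w : ℂ)) u) z i).trans (by
    rw [dz_const_mul' (hε j)])

/-! ## Symmetries of the vector field of the circle theorem -/

section Circle

variable {n : ℕ} {Y : Type} [MulAction ℂˣ Y] {A : PolAtlas n Y}

/-- derivative of the potential along the circle action -/
def cvf (D : A.DAct) (H : Y → ℝ) (a : A.ι) (z : E n) : ℝ :=
  deriv (fun θ : ℝ => A.pot H a (fun j => exp ((D.k a j : ℂ) * θ * I) * z j)) 0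

/-- the vector field is the gradient of the derivative of the potential -/
def IsGrad (H : Y → ℝ) (D : A.DAct) (W : A.HolField) : Prop :=
  ∀ a, ∀ z ∈ A.U a, ∀ m, ∑ k, hess (A.pot H a) z k m * W.W a z k =
    dzb m (fun w => (cvf D H a w : ℂ)) z

/-- the conclusion of the circle theorem -/
def CircleThm (H : Y → ℝ) (D : A.DAct) : Prop :=
  ∃ W : A.HolField, IsGrad H D W ∧
    ((∀ a, ∀ z ∈ A.U a, ∀ c : ℂˣ, ‖(c : ℂ)‖ = 1 →
          W.W a (dact (D.k a) c z) = dact (D.k a) c (W.W a z)) →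
        ∀ (c : ℂˣ) y, ‖(c : ℂ)‖ = 1 → H (D.act c y) = H y)

theorem exp_dact (k : Fin n → ℤ) (θ : ℝ) (z : E n) :
    (fun j => exp ((k j : ℂ) * θ * I) * z j) =
      dact k (Units.mk0 (exp (θ * I)) (exp_ne_zero _)) z := by
  ext j
  simp only [dact]
  congr 1
  rw [Units.val_zpow_eq_zpow_val, Units.val_mk0, ← exp_int_mul]
  congr 1
  ring

theorem sgn_dact {ε : Fin n → ℝ} (k : Fin n → ℤ) (c : ℂˣ) (z : E n) :
    dact k c (sgn ε z) = sgn ε (dact k c z) := by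
  ext j
  simp only [dact, sgn]
  ring

theorem cvf_sym {H : Y → ℝ} {D : A.DAct} {a b : A.ι} {ε : Fin n → ℝ}
    (hk : D.k b = D.k a) (hpot : ∀ z ∈ A.U a, A.pot H b (sgn ε z) = A.pot H a z)
    {z : E n} (hz : z ∈ A.U a) : cvf D H b (sgn ε z) = cvf D H a z := by
  unfold cvf
  congr 1
  funext θ
  rw [exp_dact, exp_dact, hk, sgn_dact]
  exact hpot _ (D.dom a z hz _)

/-- a symmetry of the metric is a symmetry of the vector field -/
theorem field_sym {H : Y → ℝ} (hK : A.IsKahler H) {D : A.DAct} {W : A.HolField}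
    (hW : IsGrad H D W) {a b : A.ι} {ε : Fin n → ℝ} (hε : ∀ j, ε j * ε j = 1)
    (hk : D.k b = D.k a) (hU : ∀ z ∈ A.U a, sgn ε z ∈ A.U b)
    (hpot : ∀ z ∈ A.U a, A.pot H b (sgn ε z) = A.pot H a z) {z : E n} (hz : z ∈ A.U a) :
    W.W b (sgn ε z) = sgn ε (W.W a z) := by
  have hnh : ∀ᶠ w in 𝓝 z, w ∈ A.U a := (A.isOpen_U a).mem_nhds hz
  -- hessians
  have h1 : ∀ k m, hess (A.pot H a) z k m =
      (ε k : ℂ) * ((ε m : ℂ) * hess (A.pot H b) (sgn ε z) k m) := by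
    intro k m
    rw [← hess_sgn hε]
    unfold hess
    have e : (fun w => ((A.pot H a w : ℝ) : ℂ)) =ᶠ[𝓝 z]
        fun w => ((A.pot H b (sgn ε w) : ℝ) : ℂ) := by
      filter_upwards [hnh] with w hw
      rw [hpot w hw]
    have e2 : dzb m (fun w => ((A.pot H a w : ℝ) : ℂ)) =ᶠ[𝓝 z]
        dzb m (fun w => ((A.pot H b (sgn ε w) : ℝ) : ℂ)) := by
      filter_upwards [e.eventuallyEq_nhds] with w hw
      unfold dzb
      rw [hw.fderiv_eq]
    unfold dz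
    rw [e2.fderiv_eq]
  have h2 : ∀ m, dzb m (fun w => (cvf D H a w : ℂ)) z =
      (ε m : ℂ) * dzb m (fun w => (cvf D H b w : ℂ)) (sgn ε z) := by
    intro m
    rw [← dzb_sgn hε]
    have e : (fun w => ((cvf D H a w : ℝ) : ℂ)) =ᶠ[𝓝 z]
        fun w => ((cvf D H b (sgn ε w) : ℝ) : ℂ) := by
      filter_upwards [hnh] with w hw
      rw [cvf_sym hk hpot hw]
    unfold dzb
    rw [e.fderiv_eq]
  have hεc : ∀ j, (ε j : ℂ) * (ε j : ℂ) = 1 := fun j => by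
    rw [← ofReal_mul, hε, ofReal_one]
  have h3 : ∀ m, ∑ k, hess (A.pot H b) (sgn ε z) k m *
      (W.W b (sgn ε z) k - sgn ε (W.W a z) k) = 0 := by
    intro m
    have e1 := hW a z hz m
    have e2 := hW b (sgn ε z) (hU z hz) m
    simp only [mul_sub, Finset.sum_sub_distrib]
    rw [e2, sub_eq_zero]
    rw [h2 m] at e1
    have e3 : (ε m : ℂ) * ((ε m : ℂ) * dzb m (fun w => (cvf D H b w : ℂ)) (sgn ε z)) =
        (ε m : ℂ) * ∑ k, hess (A.pot H a) z k m * W.W a z k := by rw [e1]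
    rw [← mul_assoc, hεc, one_mul] at e3
    rw [e3, Finset.mul_sum]
    refine Finset.sum_congr rfl fun k _ => ?_
    rw [h1 k m]
    simp only [sgn]
    linear_combination (hess (A.pot H b) (sgn ε z) k m * W.W a z k * (ε k : ℂ)) * hεc m
  have hpd := hK.posDef b (sgn ε z) (hU z hz)
  have hdet : (hess (A.pot H b) (sgn ε z)).det ≠ 0 := hpd.det_pos.ne'
  have h4 : (fun k => W.W b (sgn ε z) k - sgn ε (W.W a z) k) = 0 := by
    refine Matrix.eq_zero_of_vecMul_eq_zero hdet ?_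
    ext m
    rw [Pi.zero_apply, ← h3 m]
    simp only [Matrix.vecMul, dotProduct]
    exact Finset.sum_congr rfl fun k _ => mul_comm _ _
  ext k
  exact sub_eq_zero.1 (congrFun h4 k)

end Circle

/-! ## The invariance theorems on `X` -/

section Main

variable {K : Type} [Field K] [Algebra ℂ K] {T : Datum K} {q : ℕ} {D₀ : T.X.Pt →₀ ℤ}
  {An : AnCurve T.X.toCurveOrd} {M : SigModel T q D₀ An} {α α' : ℤ}
  (X : TwoP1 M.A M.D α 3 α' (-3))

namespace TwoP1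

/-- T11 (i): invariance under the circle acting on the fibres of `Σ → C` -/
theorem w_circle {H : P1Y X.D₁ α' (-3) → ℝ} {R : X.B₂.DAct}
    (hR : ∀ P, R.k (X.bt P) = ![0, 1, 0, 0]) (hc : CircleThm H R) (c : ℂˣ)
    (p : P1Y X.D₁ α' (-3)) (h1 : ‖(c : ℂ)‖ = 1) : H (R.act c p) = H p := by
  obtain ⟨W, -, h⟩ := hc
  exact h (fun a z hz c _ => X.inv_w W R hR a z hz c) c p h1

/-- A symmetry of the metric of the type `[y, x, x'] ↦ [f y, diag(1,-1) x, diag(1,-1) x']`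
where `f` induces the permutation `σ` on the curve. -/
structure IsSymm (H : P1Y X.D₁ α' (-3) → ℝ) (f : M.Y → M.Y) (σ : T.X.Pt → T.X.Pt) : Prop where
  r : ∀ P, M.r (σ P) = M.r P
  γ : ∀ P, ∀ z ∈ M.A.U (M.e (P, 0)), f (M.A.γ (M.e (P, 0)) z) = M.A.γ (M.e (σ P, 0)) z
  H : ∀ y (u v : ℂ), H (P1Y.mk (P1Y.mk (f y) (vec false (-u))) (vec false (-v))) =
    H (P1Y.mk (P1Y.mk y (vec false u)) (vec false v))

/-- the signs -/
def eps : Fin 4 → ℝ := ![1, 1, -1, -1]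

theorem eps_sq (j : Fin 4) : eps j * eps j = 1 := by
  fin_cases j <;> simp [eps]

theorem sgn_eps (z : E 4) : sgn eps z = ![z 0, z 1, -z 2, -z 3] := by
  ext j
  fin_cases j <;> simp [sgn, eps]

/-- T11 (ii), first part: invariance under the diagonal circles -/
theorem rot_circle (hconst : ∀ f : T.X.Pt → ℂ,
      (∀ P, DifferentiableOn ℂ (fun s => f (An.c P s)) (ball 0 (M.r P))) → ∀ P Q, f P = f Q)
    {H : P1Y X.D₁ α' (-3) → ℝ} (hK : X.B₂.IsKahler H) {f : M.Y → M.Y} {σ : T.X.Pt → T.X.Pt}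
    (hs : X.IsSymm H f σ) {R : X.B₂.DAct} {k₁ k₂ k₃ : ℤ}
    (hR : ∀ P, R.k (X.bt P) = ![0, k₁, k₂, k₃]) (hc : CircleThm H R) (c : ℂˣ)
    (p : P1Y X.D₁ α' (-3)) (h1 : ‖(c : ℂ)‖ = 1) : H (R.act c p) = H p := by
  obtain ⟨W, hW, h⟩ := hc
  refine h (fun a z hz c _ => X.inv_rot hconst W σ ?_ hs.r R k₁ k₂ k₃ hR a z hz c) c p h1
  intro P z hz z' hz' e2 e3 e0 e1
  have hU : ∀ z ∈ X.B₂.U (X.bt P), sgn eps z ∈ X.B₂.U (X.bt (σ P)) := by
    intro z hz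
    rw [sgn_eps, X.mem_bt, hs.r]
    have := X.mem_bt.1 hz
    exact this
  have hpot : ∀ z ∈ X.B₂.U (X.bt P),
      X.B₂.pot H (X.bt (σ P)) (sgn eps z) = X.B₂.pot H (X.bt P) z := by
    intro z hz
    have hz1 := X.mem_U.1 hz
    have hz2 : (![(sgn eps z) 0, (sgn eps z) 1] : E 2) ∈ M.A.U (M.e (σ P, 0)) :=
      X.mem_U.1 (hU z hz)
    unfold PolAtlas.pot
    congr 1
    rw [bt, bt, X.γ_eq hz1, X.γ_eq hz2, sgn_eps]
    show H (P1Y.mk (P1Y.mk (M.A.γ (M.e (σ P, 0)) ![z 0, z 1]) (vec false (-z 2)))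
      (vec false (-z 3))) = H (P1Y.mk (P1Y.mk (M.A.γ (M.e (P, 0)) ![z 0, z 1]) (vec false (z 2)))
      (vec false (z 3)))
    rw [← hs.γ P _ hz1, hs.H]
  have key := field_sym hK hW eps_sq (by rw [hR, hR]) hU hpot hz
  have e4 : z' = sgn eps z := by
    rw [sgn_eps]
    ext j
    fin_cases j
    · exact e0
    · exact e1
    · exact e2
    · exact e3
  rw [e4, key, sgn_eps]
  exact ⟨rfl, rfl⟩

end TwoP1

end Main

/-! ## The unitary group -/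

section Unitary

/-- `(x₀, c x₁)` -/
def diagV (c : ℂˣ) (x : V2) : V2 := ⟨![x.1 0, (c : ℂ) * x.1 1], by
  intro h
  apply x.2
  have h0 := congrFun h 0
  have h1 := congrFun h 1
  ext j
  fin_cases j
  · exact h0
  · have : (c : ℂ) * x.1 1 = 0 := h1
    exact (mul_eq_zero.1 this).resolve_left c.ne_zero⟩

/-- `(x₀ + x₁, x₀ - x₁)` -/
def hadV (x : V2) : V2 := ⟨![x.1 0 + x.1 1, x.1 0 - x.1 1], by
  intro h
  apply x.2
  have h0 : x.1 0 + x.1 1 = 0 := congrFun h 0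
  have h1 : x.1 0 - x.1 1 = 0 := congrFun h 1
  ext j
  fin_cases j
  · show x.1 0 = 0
    linear_combination (h0 + h1) / 2
  · show x.1 1 = 0
    linear_combination (h0 - h1) / 2⟩

/-- square of the norm -/
def nsq (x : V2) : ℝ := ‖x.1 0‖ ^ 2 + ‖x.1 1‖ ^ 2

theorem nsq_pos (x : V2) : 0 < nsq x := by
  unfold nsq
  by_cases h : x.1 0 = 0
  · have h1 : x.1 1 ≠ 0 := by
      intro h1; apply x.2; ext j; fin_cases j
      · exact h
      · exact h1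
    have := norm_pos_iff.2 h1
    positivity
  · have := norm_pos_iff.2 h
    positivity

/-- a vector of `ℂ²` with given coordinates -/
def vv (a b : ℂ) (h : a ≠ 0 ∨ b ≠ 0) : V2 := ⟨![a, b], by
  intro h0
  rcases h with h | h
  · exact h (congrFun h0 0)
  · exact h (congrFun h0 1)⟩

theorem vv_ext {x : V2} {a b : ℂ} {h : a ≠ 0 ∨ b ≠ 0} (h0 : x.1 0 = a) (h1 : x.1 1 = b) :
    x = vv a b h := by
  apply Subtype.ext
  ext j
  fin_cases j
  · exact h0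
  · exact h1

theorem exists_phase (z : ℂ) : ∃ u : ℂˣ, ‖(u : ℂ)‖ = 1 ∧ (u : ℂ) * z = ‖z‖ := by
  by_cases h : z = 0
  · exact ⟨1, by simp, by simp [h]⟩
  · have hn : (‖z‖ : ℂ) ≠ 0 := by exact_mod_cast norm_ne_zero_iff.2 h
    refine ⟨Units.mk0 (‖z‖ / z) (div_ne_zero hn h), ?_, ?_⟩
    · rw [Units.val_mk0, norm_div, norm_real, norm_norm, div_self (norm_ne_zero_iff.2 h)]
    · rw [Units.val_mk0, div_mul_cancel₀ _ h]

/-- a function on `ℂ² ∖ 0` with the three kinds of invariance only depends on the norm -/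
theorem norm_dep {F : V2 → ℝ} (h1 : ∀ c : ℂˣ, ‖(c : ℂ)‖ = 1 → ∀ x, F (c • x) = F x)
    (h2 : ∀ c : ℂˣ, ‖(c : ℂ)‖ = 1 → ∀ x, F (diagV c x) = F x)
    (h3 : ∀ c : ℂˣ, ‖(c : ℂ)‖ = 1 → ∀ x, F (hadV (diagV c x)) = F (hadV x)) (x x' : V2)
    (hx : nsq x = nsq x') : F x = F x' := by
  have key : ∀ x : V2, ∀ (h : ((Real.sqrt (nsq x) : ℝ) : ℂ) ≠ 0 ∨ (0 : ℂ) ≠ 0),
      F x = F (vv (Real.sqrt (nsq x) : ℝ) 0 h) := by
    intro x h
    set N : ℝ := Real.sqrt (nsq x) with hN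
    have hNpos : 0 < N := Real.sqrt_pos.2 (nsq_pos x)
    have hNsq : N ^ 2 = nsq x := Real.sq_sqrt (nsq_pos x).le
    set r₀ : ℝ := ‖x.1 0‖ with hr0
    set r₁ : ℝ := ‖x.1 1‖ with hr1
    have hsum : r₀ ^ 2 + r₁ ^ 2 = N ^ 2 := by rw [hNsq]; rfl
    obtain ⟨u, hu, hu'⟩ := exists_phase (x.1 0)
    obtain ⟨v, hv, hv'⟩ := exists_phase ((u : ℂ) * x.1 1)
    have hv'' : ‖(u : ℂ) * x.1 1‖ = r₁ := by rw [norm_mul, hu, one_mul]
    have hI : ‖((Units.mk0 I I_ne_zero : ℂˣ) : ℂ)‖ = 1 := by simp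
    -- first step: reduce to `(r₀, i r₁)`
    have e1 : F x = F (diagV (Units.mk0 I I_ne_zero * v) (u • x)) := by
      rw [h2 _ (by rw [Units.val_mul, norm_mul, hI, hv, mul_one]), h1 _ hu]
    -- second step
    set w : ℂ := (r₀ + r₁ * I) / N with hw
    have hNc : (N : ℂ) ≠ 0 := by exact_mod_cast hNpos.ne'
    have hwn : ‖w‖ = 1 := by
      rw [hw, norm_div, norm_real, Real.norm_of_nonneg hNpos.le, div_eq_one_iff_eq hNpos.ne']
      have : ‖(r₀ : ℂ) + r₁ * I‖ = Real.sqrt (r₀ ^ 2 + r₁ ^ 2) := by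
        rw [Complex.norm_add_mul_I]
      rw [this, hsum, Real.sqrt_sq hNpos.le]
    have hw0 : w ≠ 0 := by rw [← norm_ne_zero_iff, hwn]; norm_num
    have hwconj : w⁻¹ = (r₀ - r₁ * I) / N := by
      rw [inv_eq_iff_eq_inv, hw, inv_div]
      have h0 : ((r₀ : ℂ) - r₁ * I) ≠ 0 := by
        intro h0
        have : ((r₀ : ℂ) - r₁ * I) * (r₀ + r₁ * I) = 0 := by rw [h0, zero_mul]
        have e : ((r₀ : ℂ) - r₁ * I) * (r₀ + r₁ * I) = ((N ^ 2 : ℝ) : ℂ) := by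
          rw [← hsum]; push_cast; linear_combination (-(r₁ : ℂ) ^ 2) * I_sq
        rw [e] at this
        have := ofReal_eq_zero.1 this
        nlinarith
      rw [div_eq_div_iff hNc h0]
      have : ((N : ℝ) : ℂ) ^ 2 = r₀ ^ 2 + r₁ ^ 2 := by
        rw [← ofReal_pow, ← hsum]; push_cast; ring
      linear_combination -this - (r₁ : ℂ) ^ 2 * I_sq
    set c : ℂˣ := (Units.mk0 w hw0) ^ (-2 : ℤ) with hc
    have hcv : (c : ℂ) = w⁻¹ * w⁻¹ := by
      rw [hc, Units.val_zpow_eq_zpow_val, Units.val_mk0, zpow_neg, ← mul_inv]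
      norm_cast
      rw [pow_two]
    have hcn : ‖(c : ℂ)‖ = 1 := by rw [hcv, norm_mul, norm_inv, hwn]; norm_num
    have hhalf : ((N / 2 : ℝ) : ℂ) ≠ 0 := by
      exact_mod_cast (by positivity : N / 2 ≠ 0)
    set v₀ : V2 := vv ((N / 2 : ℝ) : ℂ) ((N / 2 : ℝ) : ℂ) (Or.inl hhalf) with hv0
    have e2 : diagV (Units.mk0 I I_ne_zero * v) (u • x) =
        (Units.mk0 w hw0) • hadV (diagV c v₀) := by
      apply Subtype.ext
      rw [V2.coe_smul]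
      ext j
      fin_cases j
      · show (u : ℂ) * x.1 0 = w * (((N / 2 : ℝ) : ℂ) + (c : ℂ) * ((N / 2 : ℝ) : ℂ))
        rw [hu', hcv]
        have : w * (((N / 2 : ℝ) : ℂ) + w⁻¹ * w⁻¹ * ((N / 2 : ℝ) : ℂ)) =
            ((N / 2 : ℝ) : ℂ) * (w + w⁻¹) := by field_simp
        rw [this, hwconj, hw]
        push_cast
        field_simp
        ring
      · show ((Units.mk0 I I_ne_zero * v : ℂˣ) : ℂ) * ((u : ℂ) * x.1 1) =
          w * (((N / 2 : ℝ) : ℂ) - (c : ℂ) * ((N / 2 : ℝ) : ℂ))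
        rw [Units.val_mul, Units.val_mk0, mul_assoc, hv', hv'', hcv]
        have : w * (((N / 2 : ℝ) : ℂ) - w⁻¹ * w⁻¹ * ((N / 2 : ℝ) : ℂ)) =
            ((N / 2 : ℝ) : ℂ) * (w - w⁻¹) := by field_simp
        rw [this, hwconj, hw]
        push_cast
        field_simp
        ring
    have e3 : hadV v₀ = vv (N : ℝ) 0 h := by
      refine vv_ext ?_ ?_
      · show ((N / 2 : ℝ) : ℂ) + ((N / 2 : ℝ) : ℂ) = (N : ℂ)
        push_cast; ring
      · show ((N / 2 : ℝ) : ℂ) - ((N / 2 : ℝ) : ℂ) = 0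
        ring
    rw [e1, e2, h1 _ (by rw [Units.val_mk0, hwn]), h3 c hcn, e3]
  have hne : ((Real.sqrt (nsq x) : ℝ) : ℂ) ≠ 0 := by
    exact_mod_cast (Real.sqrt_pos.2 (nsq_pos x)).ne'
  have hne' : ((Real.sqrt (nsq x') : ℝ) : ℂ) ≠ 0 := by
    exact_mod_cast (Real.sqrt_pos.2 (nsq_pos x')).ne'
  rw [key x (Or.inl hne), key x' (Or.inl hne')]
  congr 1
  apply Subtype.ext
  show ![((Real.sqrt (nsq x) : ℝ) : ℂ), 0] = ![((Real.sqrt (nsq x') : ℝ) : ℂ), 0]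
  rw [hx]

/-- exchange of the coordinates -/
def swapV (x : V2) : V2 := ⟨![x.1 1, x.1 0], by
  intro h
  apply x.2
  have h0 : x.1 1 = 0 := congrFun h 0
  have h1 : x.1 0 = 0 := congrFun h 1
  ext j
  fin_cases j
  · exact h1
  · exact h0⟩

theorem hadV_surj (x : V2) : ∃ x', hadV x' = x := by
  refine ⟨(Units.mk0 (1 / 2 : ℂ) (by norm_num)) • hadV x, ?_⟩
  apply Subtype.ext
  ext j
  fin_cases j
  · show (1 / 2 : ℂ) * (x.1 0 + x.1 1) + (1 / 2 : ℂ) * (x.1 0 - x.1 1) = x.1 0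
    ring
  · show (1 / 2 : ℂ) * (x.1 0 + x.1 1) - (1 / 2 : ℂ) * (x.1 0 - x.1 1) = x.1 1
    ring

theorem vec_neg (u : ℂ) : vec false (-u) = diagV (-1) (vec false u) := by
  apply Subtype.ext
  ext j
  fin_cases j
  · rfl
  · show -u = ((-1 : ℂˣ) : ℂ) * u
    simp

theorem hadV_vec_neg (u : ℂ) : hadV (vec false (-u)) = swapV (hadV (vec false u)) := by
  apply Subtype.ext
  ext j
  fin_cases j
  · show (1 : ℂ) + -u = 1 - u
    ring
  · show (1 : ℂ) - -u = 1 + u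
    ring

end Unitary

/-! ## The final statement of T11 -/

section Final

variable {K : Type} [Field K] [Algebra ℂ K] {T : Datum K} {q : ℕ} {D₀ : T.X.Pt →₀ ℤ}
  {An : AnCurve T.X.toCurveOrd} {M : SigModel T q D₀ An} {α α' : ℤ}
  (X : TwoP1 M.A M.D α 3 α' (-3))

namespace TwoP1

theorem norm_zpow_one {c : ℂˣ} (h : ‖(c : ℂ)‖ = 1) (k : ℤ) : ‖((c ^ k : ℂˣ) : ℂ)‖ = 1 := by
  rw [Units.val_zpow_eq_zpow_val, norm_zpow, h, one_zpow]

/-- the symmetries of `H` in the form of `IsSymm` -/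
theorem isSymm_of {H : P1Y X.D₁ α' (-3) → ℝ} {f : M.Y → M.Y} {σ : T.X.Pt → T.X.Pt}
    (hr : ∀ P, M.r (σ P) = M.r P)
    (hγ : ∀ P, ∀ z ∈ M.A.U (M.e (P, 0)), f (M.A.γ (M.e (P, 0)) z) = M.A.γ (M.e (σ P, 0)) z)
    (hH : ∀ y x x', H (P1Y.mk (P1Y.mk (f y) (diagV (-1) x)) (diagV (-1) x')) =
      H (P1Y.mk (P1Y.mk y x) x')) : X.IsSymm H f σ :=
  ⟨hr, hγ, fun y u v => by rw [vec_neg, vec_neg, hH]⟩

theorem isSymm_had {H Hg : P1Y X.D₁ α' (-3) → ℝ} {f : M.Y → M.Y} {σ : T.X.Pt → T.X.Pt}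
    (hHg : ∀ y x x', Hg (P1Y.mk (P1Y.mk y x) x') = H (P1Y.mk (P1Y.mk y (hadV x)) (hadV x')))
    (hr : ∀ P, M.r (σ P) = M.r P)
    (hγ : ∀ P, ∀ z ∈ M.A.U (M.e (P, 0)), f (M.A.γ (M.e (P, 0)) z) = M.A.γ (M.e (σ P, 0)) z)
    (hH : ∀ y x x', H (P1Y.mk (P1Y.mk (f y) (swapV x)) (swapV x')) =
      H (P1Y.mk (P1Y.mk y x) x')) : X.IsSymm Hg f σ :=
  ⟨hr, hγ, fun y u v => by rw [hHg, hHg, hadV_vec_neg, hadV_vec_neg, hH]⟩

/-- T11: a metric of constant scalar curvature which is invariant under `Γ` is invariant under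
the circle acting on `Σ` and under `U(2) × U(2)`. -/
theorem inv_main (hconst : ∀ f : T.X.Pt → ℂ,
      (∀ P, DifferentiableOn ℂ (fun s => f (An.c P s)) (ball 0 (M.r P))) → ∀ P Q, f P = f Q)
    (Dw Rx Ry : X.B₂.DAct)
    (hDw : ∀ P, Dw.k (X.bt P) = ![0, 1, 0, 0])
    (hDw' : ∀ c y x x', Dw.act c (P1Y.mk (P1Y.mk y x) x') =
      P1Y.mk (P1Y.mk (M.D.act c y) x) x')
    (hRx : ∀ P, Rx.k (X.bt P) = ![0, 0, 1, 0])
    (hRx' : ∀ c y x x', Rx.act c (P1Y.mk (P1Y.mk y x) x') = P1Y.mk (P1Y.mk y (diagV c x)) x')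
    (hRy : ∀ P, Ry.k (X.bt P) = ![0, 0, 0, 1])
    (hRy' : ∀ c y x x', Ry.act c (P1Y.mk (P1Y.mk y x) x') = P1Y.mk (P1Y.mk y x) (diagV c x'))
    {H Hg : P1Y X.D₁ α' (-3) → ℝ} (hK : X.B₂.IsKahler H) (hKg : X.B₂.IsKahler Hg)
    (hHg : ∀ y x x', Hg (P1Y.mk (P1Y.mk y x) x') = H (P1Y.mk (P1Y.mk y (hadV x)) (hadV x')))
    (hc : ∀ R : X.B₂.DAct, CircleThm H R) (hcg : ∀ R : X.B₂.DAct, CircleThm Hg R)
    {f₁ f₂ : M.Y → M.Y} {σ₁ σ₂ : T.X.Pt → T.X.Pt} (s₁ : X.IsSymm H f₁ σ₁)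
    (s₂ : X.IsSymm Hg f₂ σ₂) :
    (∀ (c : ℂˣ) y x x', ‖(c : ℂ)‖ = 1 →
      H (P1Y.mk (P1Y.mk (M.D.act c y) x) x') = H (P1Y.mk (P1Y.mk y x) x')) ∧
    ∀ y x x₁ x' x₁', nsq x = nsq x₁ → nsq x' = nsq x₁' →
      H (P1Y.mk (P1Y.mk y x) x') = H (P1Y.mk (P1Y.mk y x₁) x₁') := by
  have i1 : ∀ (c : ℂˣ) y x x', ‖(c : ℂ)‖ = 1 →
      H (P1Y.mk (P1Y.mk (M.D.act c y) x) x') = H (P1Y.mk (P1Y.mk y x) x') := by
    intro c y x x' h
    rw [← hDw']
    exact X.w_circle hDw (hc Dw) c _ h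
  refine ⟨i1, ?_⟩
  have hom1 : ∀ (c : ℂˣ) p, ‖(c : ℂ)‖ = 1 → H (c • p) = H p := by
    intro c p h
    rw [hK.hom, h, one_pow, one_mul]
  -- the first factor
  have a1 : ∀ y x x₁ x', nsq x = nsq x₁ →
      H (P1Y.mk (P1Y.mk y x) x') = H (P1Y.mk (P1Y.mk y x₁) x') := by
    intro y x x₁ x' hx
    refine norm_dep (F := fun x => H (P1Y.mk (P1Y.mk y x) x')) ?_ ?_ ?_ x x₁ hx
    · intro c h x
      show H (P1Y.mk (P1Y.mk y (c • x)) x') = _
      rw [P1Y.mk_smul, ← P1Y.smul_mk, ← P1Y.smul_mk, hom1 _ _ (norm_zpow_one h _),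
        i1 _ _ _ _ (norm_zpow_one h _)]
    · intro c h x
      show H (P1Y.mk (P1Y.mk y (diagV c x)) x') = _
      rw [← hRx']
      exact X.rot_circle hconst hK s₁ hRx (hc Rx) c _ h
    · intro c h x
      obtain ⟨x₀, rfl⟩ := hadV_surj x'
      show H (P1Y.mk (P1Y.mk y (hadV (diagV c x))) (hadV x₀)) =
        H (P1Y.mk (P1Y.mk y (hadV x)) (hadV x₀))
      rw [← hHg, ← hHg, ← hRx']
      exact X.rot_circle hconst hKg s₂ hRx (hcg Rx) c _ h
  -- the second factor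
  have a2 : ∀ y x x' x₁', nsq x' = nsq x₁' →
      H (P1Y.mk (P1Y.mk y x) x') = H (P1Y.mk (P1Y.mk y x) x₁') := by
    intro y x x' x₁' hx
    refine norm_dep (F := fun x' => H (P1Y.mk (P1Y.mk y x) x')) ?_ ?_ ?_ x' x₁' hx
    · intro c h x'
      show H (P1Y.mk (P1Y.mk y x) (c • x')) = _
      rw [P1Y.mk_smul, ← P1Y.smul_mk, hom1 _ _ (norm_zpow_one h _), X.l₁.act,
        i1 _ _ _ _ (norm_zpow_one h _)]
    · intro c h x'
      show H (P1Y.mk (P1Y.mk y x) (diagV c x')) = _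
      rw [← hRy']
      exact X.rot_circle hconst hK s₁ hRy (hc Ry) c _ h
    · intro c h x'
      obtain ⟨x₀, rfl⟩ := hadV_surj x
      show H (P1Y.mk (P1Y.mk y (hadV x₀)) (hadV (diagV c x'))) =
        H (P1Y.mk (P1Y.mk y (hadV x₀)) (hadV x'))
      rw [← hHg, ← hHg, ← hRy']
      exact X.rot_circle hconst hKg s₂ hRy (hcg Ry) c _ h
  intro y x x₁ x' x₁' hx hx'
  rw [a1 y x x₁ x' hx, a2 y x₁ x' x₁' hx']

end TwoP1

end Final

end

end Pool.Agent.YTDA
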