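import Pool.Agent.YTDA.Bochner5
import Pool.Agent.YTDA.CircleB
import Pool.Agent.YTDA.InvH
import Pool.Agent.YTDA.DivM

/-!
The circle theorem.
-/

namespace Pool.Agent.YTDA

open Complex Set Topology ContDiff ComplexOrder TopologicalSpace Matrix

noncomputable section

namespace PolAtlas

variable {n : ℕ} {Y : Type} [MulAction ℂˣ Y] {A : PolAtlas (n + 1) Y}

/-- The circle theorem. -/
theorem circleThm (P : A.Part) (hc : A.IsCpt) (ht : A.IsT2) {H : Y → ℝ} (hK : A.IsKahler H)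
    {s : ℂ} (hS : A.IsCsc H s) (D : A.DAct) : CircleThm H D := by
  obtain ⟨W, hW⟩ := exists_holField hc ht hK hS D
    (fun F h1 h2 h3 ρ h4 h5 h6 Ξ h7 h8 h9 => nonneg_div_succ P F h2 h1 h3 ρ h4 h5 h6 Ξ h7 h8 h9)
  have hW' : ∀ a, ∀ z ∈ A.U a, ∀ m, ∑ k, hess (A.pot H a) z k m * W.W a z k =
      dzb m (fun w => (A.cv D H a w : ℂ)) z := by
    intro a z hz m
    rw [hW a z hz m]
    refine dzb_congr ?_
    refine Filter.eventuallyEq_of_mem ((A.isOpen_U a).mem_nhds hz) fun w hw => ?_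
    show (cvF (A.pot H a) (D.k a) w : ℂ) = (A.cv D H a w : ℂ)
    rw [← cv_eqB hK D hw]
    rfl
  exact ⟨W, hW', fun hinv => circle_of_field D hc hK W hW' hinv⟩

end PolAtlas

end

end Pool.Agent.YTDA
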