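import Pool.Agent.YTDA.Curve
import Pool.Agent.YTDA.Bihol

/-!
# The logarithm of the volume form of the surface `Σ`

`logdet φ_a` plus explicit logarithmic terms is a global function on `Σ`.
-/

set_option autoImplicit false

namespace Pool.Agent.YTDA

open Complex Set Topology Filter Metric
open Pl
open Pool.Agent.YTD

noncomputable section

/-! ## Transition functions of atlases -/

namespace PolAtlas

variable {n : ℕ} {Y : Type} [MulAction ℂˣ Y] {A : PolAtlas n Y}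

theorem mem_O_of_smul {a b : A.ι} {z z' : E n} (hz : z ∈ A.U a) (hz' : z' ∈ A.U b) {c : ℂˣ}
    (h : A.γ b z' = c • A.γ a z) : z ∈ A.O a b := ⟨hz, z', hz', c, h⟩

theorem τ_eq_of_smul {a b : A.ι} {z z' : E n} (hz : z ∈ A.U a) (hz' : z' ∈ A.U b) {c : ℂˣ}
    (h : A.γ b z' = c • A.γ a z) : A.τ a b z = z' := by
  obtain ⟨h1, h2⟩ := A.trans a b z hz ⟨z', hz', c, h⟩
  refine (A.inj b z' hz' _ h1 (A.h a b z * c⁻¹) ?_).1
  rw [h2, h, smul_smul, mul_assoc, inv_mul_cancel, mul_one]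

theorem O_symm {a b : A.ι} {z : E n} (hz : z ∈ A.O a b) : A.τ a b z ∈ A.O b a := by
  obtain ⟨h1, h2⟩ := A.trans a b z hz.1 hz.2
  exact ⟨h1, z, hz.1, (A.h a b z)⁻¹, by rw [h2, inv_smul_smul]⟩

theorem τ_τF {a b : A.ι} {z : E n} (hz : z ∈ A.O a b) : A.τ b a (A.τ a b z) = z := by
  obtain ⟨h1, h2⟩ := A.trans a b z hz.1 hz.2
  exact τ_eq_of_smul h1 hz.1 (c := (A.h a b z)⁻¹) (by rw [h2, inv_smul_smul])

theorem jac_τ_det {a b : A.ι} {z : E n} (hz : z ∈ A.O a b) : (jac (A.τ a b) z).det ≠ 0 := by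
  have h1 : DifferentiableAt ℂ (A.τ a b) z :=
    (A.hol_τ a b).differentiableAt ((A.isOpen_O a b).mem_nhds hz)
  have h2 : DifferentiableAt ℂ (A.τ b a) (A.τ a b z) :=
    (A.hol_τ b a).differentiableAt ((A.isOpen_O b a).mem_nhds (O_symm hz))
  have h3 : (fun w => A.τ b a (A.τ a b w)) =ᶠ[𝓝 z] fun w => w := by
    filter_upwards [(A.isOpen_O a b).mem_nhds hz] with w hw
    exact τ_τF hw
  have h4 : jac (fun w => A.τ b a (A.τ a b w)) z = jac (fun w : E n => w) z := by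
    unfold jac
    rw [h3.fderiv_eq]
  rw [jac_comp h1 h2, jac_id] at h4
  intro h5
  have h6 := congrArg Matrix.det h4
  rw [Matrix.det_mul, h5, mul_zero, Matrix.det_one] at h6
  exact zero_ne_one h6

/-- the logarithm of the volume under a transition function -/
theorem logdet_τ {H : Y → ℝ} (hH : A.IsKahler H) {a b : A.ι} {z : E n} (hz : z ∈ A.O a b) :
    logdet (A.pot H a) z = Real.log (‖(jac (A.τ a b) z).det‖ ^ 2) +
      logdet (A.pot H b) (A.τ a b z) := by
  have hV := A.isOpen_O a b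
  have ht := A.hol_τ a b
  have hh : DifferentiableOn ℂ (fun w => ((A.h a b w : ℂ))⁻¹) (A.O a b) := by
    intro w hw
    exact (((A.hol_h a b).differentiableAt (hV.mem_nhds hw)).inv
      (A.h a b w).ne_zero).differentiableWithinAt
  have h0 : ∀ w ∈ A.O a b, ((A.h a b w : ℂ))⁻¹ ≠ 0 := fun w _ =>
    inv_ne_zero (A.h a b w).ne_zero
  have hz' : A.τ a b z ∈ A.U b := (A.trans a b z hz.1 hz.2).1
  have e1 : A.pot H a =ᶠ[𝓝 z] ppull (A.τ a b) (fun w => ((A.h a b w : ℂ))⁻¹) (A.pot H b) := by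
    filter_upwards [hV.mem_nhds hz] with w hw
    obtain ⟨_, h2⟩ := A.trans a b w hw.1 hw.2
    rw [ppull_apply]
    unfold pot
    rw [h2, hH.hom, Real.log_mul (by
      have := norm_pos_iff.2 (A.h a b w).ne_zero
      positivity) (hH.pos _).ne', norm_inv, inv_pow, Real.log_inv]
    ring
  rw [(logdet_eventuallyEq e1).self_of_nhds,
    logdet_pull hV ht hh h0 (fun w hw => jac_τ_det hw) hz
      (SmNear.of_contDiffOn (A.isOpen_U b) (hH.smooth b) hz') (hH.posDef b _ hz'), ppull_apply]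

end PolAtlas

/-! ## The coordinates `(s, w)` -/

section Sig

variable {K : Type} [Field K] [Algebra ℂ K] {T : Datum K} {q : ℕ} {D₀ : T.X.Pt →₀ ℤ}
  {An : AnCurve T.X.toCurveOrd}

/-- the coordinate `s` -/
def sco (i : Fin 3) (z : E 2) : ℂ := if i = 2 then z 0 * z 1 else z 0

open Classical in
/-- the coordinate `w` -/
def wco (T : Datum K) (P : T.X.Pt) (i : Fin 3) (z : E 2) : ℂ :=
  if i = 0 then (if P ∈ T.S' then z 0 * z 1 else z 1)
  else if i = 1 then (if P ∈ T.S then (z 0 * z 1)⁻¹ else (z 1)⁻¹)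
  else (if P ∈ T.S then (z 0)⁻¹ else z 0)

theorem sco_ne {i : Fin 3} {z : E 2} (h0 : z 0 ≠ 0) (h1 : z 1 ≠ 0) : sco i z ≠ 0 := by
  unfold sco
  split_ifs
  · exact mul_ne_zero h0 h1
  · exact h0

theorem wco_ne {P : T.X.Pt} {i : Fin 3} {z : E 2} (h0 : z 0 ≠ 0) (h1 : z 1 ≠ 0) :
    wco T P i z ≠ 0 := by
  have h2 := mul_ne_zero h0 h1
  unfold wco
  split_ifs <;> first | exact h0 | exact h1 | exact h2 | exact inv_ne_zero h0 |
    exact inv_ne_zero h1 | exact inv_ne_zero h2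

/-- the map to `(s, w)` -/
def psi (T : Datum K) (P : T.X.Pt) (i : Fin 3) (z : E 2) : E 2 := ![sco i z, wco T P i z]

/-- the logarithm of the jacobian of `(s, log w)`, with the opposite sign -/
def jm (i : Fin 3) (z : E 2) : ℝ := if i = 2 then 0 else Real.log (‖z 1‖ ^ 2)

theorem hasFDerivAt_pr (j : Fin 2) (z : E 2) : HasFDerivAt (fun z : E 2 => z j)
    (ContinuousLinearMap.proj (R := ℂ) (φ := fun _ : Fin 2 => ℂ) j) z :=
  (ContinuousLinearMap.proj (R := ℂ) (φ := fun _ : Fin 2 => ℂ) j).hasFDerivAt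

theorem jac_of_hasFDerivAt {f g : E 2 → ℂ} {f' g' : E 2 →L[ℂ] ℂ} {z : E 2}
    (hf : HasFDerivAt f f' z) (hg : HasFDerivAt g g' z) :
    jac (fun z => (![f z, g z] : E 2)) z =
      !![f' (Pi.single 0 1), f' (Pi.single 1 1); g' (Pi.single 0 1), g' (Pi.single 1 1)] := by
  have h : HasFDerivAt (fun z => (![f z, g z] : E 2)) (ContinuousLinearMap.pi ![f', g']) z := by
    rw [hasFDerivAt_pi]
    intro i
    fin_cases i
    · exact hf
    · exact hg
  ext i j
  show fderiv ℂ (fun z => (![f z, g z] : E 2)) z (Pi.single j 1) i = _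
  rw [h.fderiv]
  fin_cases i <;> fin_cases j <;> rfl

theorem hasFDerivAt_pm (z : E 2) : HasFDerivAt (fun z : E 2 => z 0 * z 1)
    (z 0 • ContinuousLinearMap.proj (R := ℂ) (φ := fun _ : Fin 2 => ℂ) 1 +
      z 1 • ContinuousLinearMap.proj (R := ℂ) (φ := fun _ : Fin 2 => ℂ) 0) z :=
  (hasFDerivAt_pr 0 z).mul (hasFDerivAt_pr 1 z)

theorem hasFDerivAt_in {f : E 2 → ℂ} {f' : E 2 →L[ℂ] ℂ} {z : E 2} (hf : HasFDerivAt f f' z)
    (h0 : f z ≠ 0) : HasFDerivAt (fun z : E 2 => (f z)⁻¹) (-((f z) ^ 2)⁻¹ • f') z :=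
  (hasDerivAt_inv h0).comp_hasFDerivAt z hf

theorem differentiableAt_psi_of {f g : E 2 → ℂ} {f' g' : E 2 →L[ℂ] ℂ} {z : E 2}
    (hf : HasFDerivAt f f' z) (hg : HasFDerivAt g g' z) :
    DifferentiableAt ℂ (fun z => (![f z, g z] : E 2)) z := by
  rw [differentiableAt_pi]
  intro i
  fin_cases i
  · exact hf.differentiableAt
  · exact hg.differentiableAt

theorem det_psi {P : T.X.Pt} {i : Fin 3} {z : E 2} (h0 : z 0 ≠ 0) (h1 : z 1 ≠ 0) :
    DifferentiableAt ℂ (psi T P i) z ∧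
    Real.log (‖(jac (psi T P i) z).det‖ ^ 2) = Real.log (‖wco T P i z‖ ^ 2) - jm i z := by
  have h2 : z 0 * z 1 ≠ 0 := mul_ne_zero h0 h1
  have n0 : ‖z 0‖ ≠ 0 := norm_ne_zero_iff.2 h0
  have n1 : ‖z 1‖ ≠ 0 := norm_ne_zero_iff.2 h1
  have s01 : (Pi.single 0 1 : E 2) 1 = 0 := by simp
  have s10 : (Pi.single 1 1 : E 2) 0 = 0 := by simp
  have s00 : (Pi.single 0 1 : E 2) 0 = 1 := by simp
  have s11 : (Pi.single 1 1 : E 2) 1 = 1 := by simp
  fin_cases i
  · by_cases hP : P ∈ T.S'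
    · have e : psi T P ⟨0, by norm_num⟩ = fun z => (![z 0, z 0 * z 1] : E 2) := by
        funext z; simp [psi, sco, wco, hP]
      have e2 : wco T P ⟨0, by norm_num⟩ z = z 0 * z 1 := by simp [wco, hP]
      have e3 : jm ⟨0, by norm_num⟩ z = Real.log (‖z 1‖ ^ 2) := by simp [jm]
      refine ⟨?_, ?_⟩
      · show DifferentiableAt ℂ (psi T P ⟨0, by norm_num⟩) z
        rw [e]; exact differentiableAt_psi_of (hasFDerivAt_pr 0 z) (hasFDerivAt_pm z)
      · show Real.log (‖(jac (psi T P ⟨0, by norm_num⟩) z).det‖ ^ 2) =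
          Real.log (‖wco T P ⟨0, by norm_num⟩ z‖ ^ 2) - jm ⟨0, by norm_num⟩ z
        rw [e, e2, e3, jac_of_hasFDerivAt (hasFDerivAt_pr 0 z) (hasFDerivAt_pm z),
          Matrix.det_fin_two_of]
        simp only [ContinuousLinearMap.proj_apply, _root_.add_apply,
          _root_.smul_apply, smul_eq_mul, s00, s01, s10, s11, mul_one, mul_zero,
          add_zero, zero_mul, sub_zero, one_mul, zero_add, norm_mul, mul_pow]
        rw [Real.log_mul (by positivity) (by positivity)]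
        ring
    · have e : psi T P ⟨0, by norm_num⟩ = fun z => (![z 0, z 1] : E 2) := by
        funext z; simp [psi, sco, wco, hP]
      have e2 : wco T P ⟨0, by norm_num⟩ z = z 1 := by simp [wco, hP]
      have e3 : jm ⟨0, by norm_num⟩ z = Real.log (‖z 1‖ ^ 2) := by simp [jm]
      refine ⟨?_, ?_⟩
      · show DifferentiableAt ℂ (psi T P ⟨0, by norm_num⟩) z
        rw [e]; exact differentiableAt_psi_of (hasFDerivAt_pr 0 z) (hasFDerivAt_pr 1 z)
      · show Real.log (‖(jac (psi T P ⟨0, by norm_num⟩) z).det‖ ^ 2) =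
          Real.log (‖wco T P ⟨0, by norm_num⟩ z‖ ^ 2) - jm ⟨0, by norm_num⟩ z
        rw [e, e2, e3, jac_of_hasFDerivAt (hasFDerivAt_pr 0 z) (hasFDerivAt_pr 1 z),
          Matrix.det_fin_two_of]
        simp only [ContinuousLinearMap.proj_apply, s00, s01, s10, s11, mul_one, mul_zero,
          sub_zero, norm_one, one_pow, Real.log_one, sub_self]
  · by_cases hP : P ∈ T.S
    · have e : psi T P ⟨1, by norm_num⟩ = fun z => (![z 0, (z 0 * z 1)⁻¹] : E 2) := by
        funext z; simp [psi, sco, wco, hP]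
      have e2 : wco T P ⟨1, by norm_num⟩ z = (z 0 * z 1)⁻¹ := by simp [wco, hP]
      have e3 : jm ⟨1, by norm_num⟩ z = Real.log (‖z 1‖ ^ 2) := by simp [jm]
      refine ⟨?_, ?_⟩
      · show DifferentiableAt ℂ (psi T P ⟨1, by norm_num⟩) z
        rw [e]
        exact differentiableAt_psi_of (hasFDerivAt_pr 0 z) (hasFDerivAt_in (hasFDerivAt_pm z) h2)
      · show Real.log (‖(jac (psi T P ⟨1, by norm_num⟩) z).det‖ ^ 2) =
          Real.log (‖wco T P ⟨1, by norm_num⟩ z‖ ^ 2) - jm ⟨1, by norm_num⟩ z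
        rw [e, e2, e3, jac_of_hasFDerivAt (hasFDerivAt_pr 0 z)
          (hasFDerivAt_in (hasFDerivAt_pm z) h2), Matrix.det_fin_two_of]
        simp only [ContinuousLinearMap.proj_apply, _root_.add_apply,
          _root_.smul_apply, smul_eq_mul, s00, s01, s10, s11, mul_one, mul_zero,
          add_zero, zero_mul, sub_zero, one_mul, zero_add, norm_mul, norm_neg, norm_inv,
          norm_pow]
        rw [show ((‖z 0‖ * ‖z 1‖) ^ 2)⁻¹ * ‖z 0‖ = ‖z 0‖⁻¹ * (‖z 1‖⁻¹ * ‖z 1‖⁻¹) by field_simp]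
        rw [Real.log_pow, Real.log_pow, Real.log_pow, Real.log_mul (by positivity) (by positivity),
          Real.log_mul (by positivity) (by positivity), Real.log_inv, Real.log_inv, Real.log_inv,
          Real.log_mul (by positivity) (by positivity)]
        ring
    · have e : psi T P ⟨1, by norm_num⟩ = fun z => (![z 0, (z 1)⁻¹] : E 2) := by
        funext z; simp [psi, sco, wco, hP]
      have e2 : wco T P ⟨1, by norm_num⟩ z = (z 1)⁻¹ := by simp [wco, hP]
      have e3 : jm ⟨1, by norm_num⟩ z = Real.log (‖z 1‖ ^ 2) := by simp [jm]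
      refine ⟨?_, ?_⟩
      · show DifferentiableAt ℂ (psi T P ⟨1, by norm_num⟩) z
        rw [e]
        exact differentiableAt_psi_of (hasFDerivAt_pr 0 z) (hasFDerivAt_in (hasFDerivAt_pr 1 z) h1)
      · show Real.log (‖(jac (psi T P ⟨1, by norm_num⟩) z).det‖ ^ 2) =
          Real.log (‖wco T P ⟨1, by norm_num⟩ z‖ ^ 2) - jm ⟨1, by norm_num⟩ z
        rw [e, e2, e3, jac_of_hasFDerivAt (hasFDerivAt_pr 0 z)
          (hasFDerivAt_in (hasFDerivAt_pr 1 z) h1), Matrix.det_fin_two_of]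
        simp only [ContinuousLinearMap.proj_apply,
          _root_.smul_apply, smul_eq_mul, s00, s01, s10, s11, mul_one, mul_zero,
          zero_mul, sub_zero, one_mul, norm_neg, norm_inv, norm_pow]
        rw [Real.log_pow, Real.log_inv, Real.log_pow, Real.log_pow, Real.log_inv]
        push_cast
        ring
  · by_cases hP : P ∈ T.S
    · have e : psi T P ⟨2, by norm_num⟩ = fun z => (![z 0 * z 1, (z 0)⁻¹] : E 2) := by
        funext z; simp [psi, sco, wco, hP]
      have e2 : wco T P ⟨2, by norm_num⟩ z = (z 0)⁻¹ := by simp [wco, hP]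
      have e3 : jm ⟨2, by norm_num⟩ z = 0 := by simp [jm]
      refine ⟨?_, ?_⟩
      · show DifferentiableAt ℂ (psi T P ⟨2, by norm_num⟩) z
        rw [e]
        exact differentiableAt_psi_of (hasFDerivAt_pm z) (hasFDerivAt_in (hasFDerivAt_pr 0 z) h0)
      · show Real.log (‖(jac (psi T P ⟨2, by norm_num⟩) z).det‖ ^ 2) =
          Real.log (‖wco T P ⟨2, by norm_num⟩ z‖ ^ 2) - jm ⟨2, by norm_num⟩ z
        rw [e, e2, e3, jac_of_hasFDerivAt (hasFDerivAt_pm z)
          (hasFDerivAt_in (hasFDerivAt_pr 0 z) h0), Matrix.det_fin_two_of]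
        simp only [ContinuousLinearMap.proj_apply, _root_.add_apply,
          _root_.smul_apply, smul_eq_mul, s00, s01, s10, s11, mul_one, mul_zero,
          add_zero, zero_add]
        congr 3
        rw [show z 0 * -(z 0 ^ 2)⁻¹ = -(z 0)⁻¹ by field_simp]
        simp
    · have e : psi T P ⟨2, by norm_num⟩ = fun z => (![z 0 * z 1, z 0] : E 2) := by
        funext z; simp [psi, sco, wco, hP]
      have e2 : wco T P ⟨2, by norm_num⟩ z = z 0 := by simp [wco, hP]
      have e3 : jm ⟨2, by norm_num⟩ z = 0 := by simp [jm]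
      refine ⟨?_, ?_⟩
      · show DifferentiableAt ℂ (psi T P ⟨2, by norm_num⟩) z
        rw [e]
        exact differentiableAt_psi_of (hasFDerivAt_pm z) (hasFDerivAt_pr 0 z)
      · show Real.log (‖(jac (psi T P ⟨2, by norm_num⟩) z).det‖ ^ 2) =
          Real.log (‖wco T P ⟨2, by norm_num⟩ z‖ ^ 2) - jm ⟨2, by norm_num⟩ z
        rw [e, e2, e3, jac_of_hasFDerivAt (hasFDerivAt_pm z) (hasFDerivAt_pr 0 z),
          Matrix.det_fin_two_of]
        simp only [ContinuousLinearMap.proj_apply, _root_.add_apply,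
          _root_.smul_apply, smul_eq_mul, s00, s01, s10, s11, mul_one, mul_zero,
          add_zero, zero_add, zero_sub, norm_neg, sub_zero]

theorem det_psi_ne {P : T.X.Pt} {i : Fin 3} {z : E 2} (h0 : z 0 ≠ 0) (h1 : z 1 ≠ 0) :
    (jac (psi T P i) z).det ≠ 0 := by
  have h2 : z 0 * z 1 ≠ 0 := mul_ne_zero h0 h1
  have s01 : (Pi.single 0 1 : E 2) 1 = 0 := by simp
  have s10 : (Pi.single 1 1 : E 2) 0 = 0 := by simp
  have s00 : (Pi.single 0 1 : E 2) 0 = 1 := by simp
  have s11 : (Pi.single 1 1 : E 2) 1 = 1 := by simp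
  fin_cases i
  · by_cases hP : P ∈ T.S'
    · have e : psi T P ⟨0, by norm_num⟩ = fun z => (![z 0, z 0 * z 1] : E 2) := by
        funext z; simp [psi, sco, wco, hP]
      show (jac (psi T P ⟨0, by norm_num⟩) z).det ≠ 0
      rw [e, jac_of_hasFDerivAt (hasFDerivAt_pr 0 z) (hasFDerivAt_pm z), Matrix.det_fin_two_of]
      simpa using h0
    · have e : psi T P ⟨0, by norm_num⟩ = fun z => (![z 0, z 1] : E 2) := by
        funext z; simp [psi, sco, wco, hP]
      show (jac (psi T P ⟨0, by norm_num⟩) z).det ≠ 0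
      rw [e, jac_of_hasFDerivAt (hasFDerivAt_pr 0 z) (hasFDerivAt_pr 1 z), Matrix.det_fin_two_of]
      simp
  · by_cases hP : P ∈ T.S
    · have e : psi T P ⟨1, by norm_num⟩ = fun z => (![z 0, (z 0 * z 1)⁻¹] : E 2) := by
        funext z; simp [psi, sco, wco, hP]
      show (jac (psi T P ⟨1, by norm_num⟩) z).det ≠ 0
      rw [e, jac_of_hasFDerivAt (hasFDerivAt_pr 0 z)
          (hasFDerivAt_in (hasFDerivAt_pm z) h2), Matrix.det_fin_two_of]
      simp [h0, h1]
    · have e : psi T P ⟨1, by norm_num⟩ = fun z => (![z 0, (z 1)⁻¹] : E 2) := by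
        funext z; simp [psi, sco, wco, hP]
      show (jac (psi T P ⟨1, by norm_num⟩) z).det ≠ 0
      rw [e, jac_of_hasFDerivAt (hasFDerivAt_pr 0 z)
          (hasFDerivAt_in (hasFDerivAt_pr 1 z) h1), Matrix.det_fin_two_of]
      simp [h1]
  · by_cases hP : P ∈ T.S
    · have e : psi T P ⟨2, by norm_num⟩ = fun z => (![z 0 * z 1, (z 0)⁻¹] : E 2) := by
        funext z; simp [psi, sco, wco, hP]
      show (jac (psi T P ⟨2, by norm_num⟩) z).det ≠ 0
      rw [e, jac_of_hasFDerivAt (hasFDerivAt_pm z)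
          (hasFDerivAt_in (hasFDerivAt_pr 0 z) h0), Matrix.det_fin_two_of]
      simp [h0]
    · have e : psi T P ⟨2, by norm_num⟩ = fun z => (![z 0 * z 1, z 0] : E 2) := by
        funext z; simp [psi, sco, wco, hP]
      show (jac (psi T P ⟨2, by norm_num⟩) z).det ≠ 0
      rw [e, jac_of_hasFDerivAt (hasFDerivAt_pm z) (hasFDerivAt_pr 0 z), Matrix.det_fin_two_of]
      simp [h0]

namespace SigModel

variable (M : SigModel T q D₀ An)

theorem sco_mem {P : T.X.Pt} {i : Fin 3} {z : E 2} (hz : z ∈ M.A.U (M.e (P, i))) :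
    ‖sco i z‖ < M.r P := by
  fin_cases i
  · have hz' : z ∈ M.A.U (M.e (P, 0)) := hz
    rw [M.U_bot] at hz'
    simpa [sco] using hz'
  · have hz' : z ∈ M.A.U (M.e (P, 1)) := hz
    rw [M.U_top] at hz'
    simpa [sco] using hz'
  · have hz' : z ∈ M.A.U (M.e (P, 2)) := hz
    by_cases hP : P ∈ T.S ∨ P ∈ T.S'
    · rw [M.U_mid P hP] at hz'
      simpa [sco] using hz'
    · push Not at hP
      rw [M.U_mid' P hP.1 hP.2] at hz'
      exact hz'.elim

/-- general points in terms of the frames `o` -/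
theorem γ_o {P : T.X.Pt} {i : Fin 3} {z : E 2} (hz : z ∈ M.A.U (M.e (P, i))) (h0 : z 0 ≠ 0)
    (h1 : z 1 ≠ 0) : ∃ c : ℂˣ, M.A.γ (M.e (P, i)) z =
      c • M.o P (sco i z) (Units.mk0 (wco T P i z) (wco_ne h0 h1)) := by
  have hz2 : z = ![z 0, z 1] := by ext j; fin_cases j <;> rfl
  have fin : ∀ (s : ℂ) (w c : ℂˣ) (y : M.Y), y = c • M.o P s w → s = sco i z →
      (w : ℂ) = wco T P i z → ∃ c : ℂˣ, y =
      c • M.o P (sco i z) (Units.mk0 (wco T P i z) (wco_ne h0 h1)) := by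
    intro s w c y hy hs hw
    refine ⟨c, ?_⟩
    rw [hy, hs]
    congr 2
    exact Units.ext hw
  fin_cases i
  · have hz' : ‖z 0‖ < M.r P := by
      have : z ∈ M.A.U (M.e (P, 0)) := hz
      rw [M.U_bot] at this; exact this
    by_cases hP : P ∈ T.S'
    · have h := M.γ_bot' P hP (Units.mk0 (z 0) h0) hz' (Units.mk0 (z 1) h1)
      rw [Units.val_mk0, Units.val_mk0, ← hz2] at h
      exact fin _ _ _ _ h (by simp [sco]) (by simp [wco, hP])
    · have h := M.γ_bot P hP (z 0) (by simpa using hz') (Or.inl h0) (Units.mk0 (z 1) h1)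
      rw [Units.val_mk0, ← hz2] at h
      exact fin _ _ _ _ h (by simp [sco]) (by simp [wco, hP])
  · have hz' : ‖z 0‖ < M.r P := by
      have : z ∈ M.A.U (M.e (P, 1)) := hz
      rw [M.U_top] at this; exact this
    by_cases hP : P ∈ T.S
    · have h := M.γ_top' P hP (Units.mk0 (z 0) h0) hz' (Units.mk0 (z 1) h1)
      rw [Units.val_mk0, Units.val_mk0, ← hz2] at h
      exact fin _ _ _ _ h (by simp [sco]) (by simp [wco, hP])
    · have h := M.γ_top P hP (z 0) (by simpa using hz') (Or.inl h0) (Units.mk0 (z 1) h1)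
      rw [Units.val_mk0, ← hz2] at h
      exact fin _ _ _ _ h (by simp [sco]) (by simp [wco, hP])
  · have hzU : z ∈ M.A.U (M.e (P, 2)) := hz
    by_cases hP : P ∈ T.S
    · have hz' : ‖z 0 * z 1‖ < M.r P := by
        rw [M.U_mid P (Or.inl hP)] at hzU; exact hzU
      have h := M.γ_mid P hP (Units.mk0 (z 0) h0) (Units.mk0 (z 1) h1) hz'
      rw [Units.val_mk0, Units.val_mk0, ← hz2] at h
      exact fin _ _ _ _ h (by simp [sco]) (by simp [wco, hP])
    · by_cases hP' : P ∈ T.S'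
      · have hz' : ‖z 0 * z 1‖ < M.r P := by
          rw [M.U_mid P (Or.inr hP')] at hzU; exact hzU
        have h := M.γ_mid' P hP' (Units.mk0 (z 0) h0) (Units.mk0 (z 1) h1) hz'
        rw [Units.val_mk0, Units.val_mk0, ← hz2] at h
        exact fin _ _ _ _ h (by simp [sco]) (by simp [wco, hP])
      · rw [M.U_mid' P hP hP'] at hzU
        exact hzU.elim

/-- the coordinates of the same point in two charts -/
theorem same_o {P Q : T.X.Pt} {i j : Fin 3} {z z' : E 2} (hz : z ∈ M.A.U (M.e (P, i)))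
    (hz' : z' ∈ M.A.U (M.e (Q, j))) (h0 : z 0 ≠ 0) (h1 : z 1 ≠ 0) (h0' : z' 0 ≠ 0)
    (h1' : z' 1 ≠ 0) {c : ℂˣ} (h : M.A.γ (M.e (Q, j)) z' = c • M.A.γ (M.e (P, i)) z) :
    An.c P (sco i z) = An.c Q (sco j z') ∧ wco T P i z = wco T Q j z' := by
  obtain ⟨d, hd⟩ := M.γ_o hz h0 h1
  obtain ⟨d', hd'⟩ := M.γ_o hz' h0' h1'
  have h2 : M.o P (sco i z) (Units.mk0 (wco T P i z) (wco_ne h0 h1)) = (d⁻¹ * c⁻¹ * d') •
      M.o Q (sco j z') (Units.mk0 (wco T Q j z') (wco_ne h0' h1')) := by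
    rw [← smul_smul, ← hd', h, smul_smul, hd, smul_smul]
    group
    rw [one_smul]
  obtain ⟨h3, h4⟩ := M.o_inj P Q (sco i z) (by simpa using M.sco_mem hz) (sco j z')
    (by simpa using M.sco_mem hz') (Or.inl (sco_ne h0 h1)) (Or.inl (sco_ne h0' h1')) _ _ _ h2
  exact ⟨h3, congrArg Units.val h4⟩

/-- the logarithm of the volume form in terms of `(s, log w)` is defined globally, up to the
change of the coordinate `s` -/
theorem logdet_compat {H : M.Y → ℝ} (hH : M.A.IsKahler H) {P Q : T.X.Pt} {i j : Fin 3}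
    {z z' : E 2} (hz : z ∈ M.A.U (M.e (P, i)))
    (hz' : z' ∈ M.A.U (M.e (Q, j))) (h0 : z 0 ≠ 0) (h1 : z 1 ≠ 0) (h0' : z' 0 ≠ 0)
    (h1' : z' 1 ≠ 0) {c : ℂˣ} (h : M.A.γ (M.e (Q, j)) z' = c • M.A.γ (M.e (P, i)) z) :
    ∃ f : ℂ → ℂ, AnalyticAt ℂ f (sco i z) ∧ f (sco i z) = sco j z' ∧ deriv f (sco i z) ≠ 0 ∧
      (∀ᶠ σ in 𝓝 (sco i z), An.c Q (f σ) = An.c P σ) ∧
      (∀ x, (fun σ => An.fn Q x (f σ)) =ᶠ[𝓝[≠] (sco i z)] An.fn P x) ∧
      logdet (M.A.pot H (M.e (P, i))) z + jm i z =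
        logdet (M.A.pot H (M.e (Q, j))) z' + jm j z' + Real.log (‖deriv f (sco i z)‖ ^ 2) := by
  obtain ⟨e1, e2⟩ := M.same_o hz hz' h0 h1 h0' h1' h
  have hs : sco i z ∈ ball (0 : ℂ) (M.r P) := by simpa using M.sco_mem hz
  have hs' : sco j z' ∈ ball (0 : ℂ) (M.r Q) := by simpa using M.sco_mem hz'
  have hsA : sco i z ∈ ball (0 : ℂ) (An.r P) := ball_subset_ball (M.r_le P) hs
  have hsA' : sco j z' ∈ ball (0 : ℂ) (An.r Q) := ball_subset_ball (M.r_le Q) hs'
  obtain ⟨f, hf, hfs, hf', hfc, hfn⟩ := An.tr P Q _ hsA _ hsA' e1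
  refine ⟨f, hf, hfs, hf', hfc, hfn, ?_⟩
  set a := M.e (P, i) with ha
  set b := M.e (Q, j) with hb
  have hO : z ∈ M.A.O a b := PolAtlas.mem_O_of_smul hz hz' h
  have hτ : M.A.τ a b z = z' := PolAtlas.τ_eq_of_smul hz hz' h
  have hdτ : DifferentiableAt ℂ (M.A.τ a b) z :=
    (M.A.hol_τ a b).differentiableAt ((M.A.isOpen_O a b).mem_nhds hO)
  have hdP := (det_psi (T := T) (P := P) (i := i) h0 h1).1
  have hdQ : DifferentiableAt ℂ (psi T Q j) (M.A.τ a b z) := by
    rw [hτ]; exact (det_psi h0' h1').1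
  -- the map `(s, w) ↦ (f s, w)`
  have hfd : HasFDerivAt (fun v : E 2 => f (v 0)) (deriv f (sco i z) •
      ContinuousLinearMap.proj (R := ℂ) (φ := fun _ : Fin 2 => ℂ) 0) (psi T P i z) := by
    have : HasDerivAt f (deriv f (sco i z)) ((psi T P i z) 0) :=
      hf.differentiableAt.hasDerivAt
    exact this.comp_hasFDerivAt (psi T P i z) (hasFDerivAt_pr 0 _)
  have hFd : DifferentiableAt ℂ (fun v : E 2 => (![f (v 0), v 1] : E 2)) (psi T P i z) :=
    differentiableAt_psi_of hfd (hasFDerivAt_pr 1 _)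
  have key : (fun v => psi T Q j (M.A.τ a b v)) =ᶠ[𝓝 z]
      fun v => (![f (psi T P i v 0), psi T P i v 1] : E 2) := by
    have c0 : ∀ᶠ v in 𝓝 z, v 0 ≠ 0 :=
      (continuous_apply 0).continuousAt.eventually_ne h0
    have c1 : ∀ᶠ v in 𝓝 z, v 1 ≠ 0 :=
      (continuous_apply 1).continuousAt.eventually_ne h1
    have c0' : ∀ᶠ v in 𝓝 z, (M.A.τ a b v) 0 ≠ 0 :=
      ((continuous_apply 0).continuousAt.comp hdτ.continuousAt).eventually_ne
        (by show M.A.τ a b z 0 ≠ 0; rw [hτ]; exact h0')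
    have c1' : ∀ᶠ v in 𝓝 z, (M.A.τ a b v) 1 ≠ 0 :=
      ((continuous_apply 1).continuousAt.comp hdτ.continuousAt).eventually_ne
        (by show M.A.τ a b z 1 ≠ 0; rw [hτ]; exact h1')
    have cs : ContinuousAt (fun v => psi T P i v 0) z :=
      (continuous_apply 0).continuousAt.comp hdP.continuousAt
    have c2 : ∀ᶠ v in 𝓝 z, An.c Q (f (psi T P i v 0)) = An.c P (psi T P i v 0) :=
      cs.eventually hfc
    have c3 : ∀ᶠ v in 𝓝 z, f (psi T P i v 0) ∈ ball (0 : ℂ) (An.r Q) := by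
      have : ContinuousAt (fun v => f (psi T P i v 0)) z :=
        ContinuousAt.comp (g := f) (f := fun v => psi T P i v 0) hf.continuousAt cs
      refine this.eventually (isOpen_ball.mem_nhds ?_)
      show f (sco i z) ∈ _
      rw [hfs]; exact hsA'
    filter_upwards [(M.A.isOpen_O a b).mem_nhds hO, c0, c1, c0', c1', c2, c3] with v v1 v2 v3 v4 v5
      v6 v7
    obtain ⟨w1, w2⟩ := M.A.trans a b v v1.1 v1.2
    obtain ⟨u1, u2⟩ := M.same_o v1.1 w1 v2 v3 v4 v5 w2
    have u3 : An.c Q (f (sco i v)) = An.c Q (sco j (M.A.τ a b v)) := by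
      rw [← u1]; exact v6
    have u4 : f (sco i v) = sco j (M.A.τ a b v) :=
      An.inj Q v7 (ball_subset_ball (M.r_le Q) (by simpa using M.sco_mem w1)) u3
    show (![sco j (M.A.τ a b v), wco T Q j (M.A.τ a b v)] : E 2) =
      ![f (sco i v), wco T P i v]
    rw [u4, u2]
  have hj := congrArg (fun L : E 2 →L[ℂ] E 2 => L) (key.fderiv_eq (𝕜 := ℂ))
  have hj2 : jac (fun v => psi T Q j (M.A.τ a b v)) z =
      jac (fun v => (![f (psi T P i v 0), psi T P i v 1] : E 2)) z := by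
    unfold jac
    rw [key.fderiv_eq]
  rw [jac_comp hdτ hdQ, jac_comp (s := fun v : E 2 => (![f (v 0), v 1] : E 2)) hdP hFd,
    jac_of_hasFDerivAt hfd (hasFDerivAt_pr 1 _), hτ] at hj2
  have hj3 := congrArg Matrix.det hj2
  rw [Matrix.det_mul, Matrix.det_mul, Matrix.det_fin_two_of] at hj3
  have s01 : (Pi.single 0 1 : E 2) 1 = 0 := by simp
  have s10 : (Pi.single 1 1 : E 2) 0 = 0 := by simp
  have s00 : (Pi.single 0 1 : E 2) 0 = 1 := by simp
  have s11 : (Pi.single 1 1 : E 2) 1 = 1 := by simp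
  simp only [ContinuousLinearMap.proj_apply, _root_.smul_apply, smul_eq_mul, s00, s01, s10, s11,
    mul_one, mul_zero, sub_zero] at hj3
  have d1 := (det_psi (T := T) (P := P) (i := i) h0 h1).2
  have d2 := (det_psi (T := T) (P := Q) (i := j) h0' h1').2
  have n1 : (jac (M.A.τ a b) z).det ≠ 0 := PolAtlas.jac_τ_det hO
  have n3 : ∀ (P : T.X.Pt) (i : Fin 3) (z : E 2), z 0 ≠ 0 → z 1 ≠ 0 →
      (jac (psi T P i) z).det ≠ 0 := fun P i z h0 h1 => det_psi_ne h0 h1
  have e3 := congrArg (fun x : ℂ => Real.log (‖x‖ ^ 2)) hj3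
  simp only [norm_mul, mul_pow] at e3
  rw [Real.log_mul (by have := norm_ne_zero_iff.2 (n3 Q j z' h0' h1'); positivity)
    (by have := norm_ne_zero_iff.2 n1; positivity),
    Real.log_mul (by have := norm_ne_zero_iff.2 hf'; positivity)
    (by have := norm_ne_zero_iff.2 (n3 P i z h0 h1); positivity), d1, d2, e2] at e3
  rw [PolAtlas.logdet_τ hH hO, hτ]
  linarith

end SigModel

end Sig

end

end Pool.Agent.YTDA
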