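import Pool.Agent.YTDA.T13Fin
import Pool.Agent.YTDA.SigF

/-!
# T13, F1: the residue identity for `log |w|²`
-/

namespace Pool.Agent.YTDA

open Complex Set Topology ContDiff MeasureTheory
open Pool.Agent.YTD

noncomputable section

theorem hess_zero {n : ℕ} (z : E n) : hess (fun _ : E n => (0 : ℝ)) z = 0 := by
  ext i j
  unfold hess dz dzb
  simp

theorem wdzb_zero {n : ℕ} (k : Fin n → ℤ) (z : E n) :
    wdzb k (fun _ : E n => ((0 : ℝ) : ℂ)) z = 0 := by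
  unfold wdzb dzb
  simp

namespace PolAtlas.Part

variable {n : ℕ} {Y : Type} [MulAction ℂˣ Y] {A : PolAtlas n Y} (P : A.Part)

theorem int_congr {f g : A.ι → E n → ℂ} (h : ∀ a, ∀ z ∈ A.U a, f a z = g a z) :
    P.int f = P.int g := by
  unfold int
  refine Finset.sum_congr rfl fun k _ => ?_
  refine setIntegral_congr_fun (A.isOpen_U _).measurableSet fun z hz => ?_
  show P.X k (P.a k) z * f (P.a k) z = P.X k (P.a k) z * g (P.a k) z
  rw [h _ z hz]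

end PolAtlas.Part

section Sig

variable {K : Type} [Field K] [Algebra ℂ K] {T : Datum K} {q : ℕ} {D₀ : T.X.Pt →₀ ℤ}
  {An : AnCurve T.X.toCurveOrd}

open Classical in
/-- multiplicities of `w` along the coordinate axes -/
def wm (T : Datum K) (P : T.X.Pt) (i : Fin 3) (j : Fin 2) : ℝ :=
  if i = 0 then (if j = 0 then (if P ∈ T.S' then 1 else 0) else 1)
  else if i = 1 then (if j = 0 then (if P ∈ T.S then -1 else 0) else -1)
  else (if j = 0 then (if P ∈ T.S then -1 else 1) else 0)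

theorem log_wco (P : T.X.Pt) (i : Fin 3) {z : E 2} (h0 : z 0 ≠ 0) (h1 : z 1 ≠ 0) :
    Real.log (‖wco T P i z‖ ^ 2) = ∑ j, wm T P i j * Real.log (‖z j‖ ^ 2) := by
  have n0 : ‖z 0‖ ≠ 0 := norm_ne_zero_iff.2 h0
  have n1 : ‖z 1‖ ≠ 0 := norm_ne_zero_iff.2 h1
  rw [Fin.sum_univ_two]
  fin_cases i
  · by_cases hP : P ∈ T.S'
    · simp only [wco, wm, hP, Fin.zero_eta, Fin.isValue, ↓reduceIte, one_ne_zero, one_mul,
        norm_mul, Real.log_pow]
      rw [Real.log_mul n0 n1]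
      ring
    · simp [wco, wm, hP]
  · by_cases hP : P ∈ T.S
    · simp only [wco, wm, hP, Fin.mk_one, Fin.isValue, one_ne_zero, ↓reduceIte,
        norm_mul, norm_inv, Real.log_pow, Real.log_inv]
      rw [Real.log_mul n0 n1]
      ring
    · simp [wco, wm, hP]
  · by_cases hP : P ∈ T.S <;> simp [wco, wm, hP]

namespace SigModel

variable (M : SigModel T q D₀ An)

/-- every chart with nonempty domain -/
theorem sum_wm {P : T.X.Pt} {i : Fin 3} {z : E 2} (hz : z ∈ M.A.U (M.e (P, i))) :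
    ∑ j, wm T P i j * (M.D.k (M.e (P, i)) j : ℝ) = 1 := by
  rw [Fin.sum_univ_two]
  fin_cases i
  · have h := (M.k_bot P).1
    show wm T P 0 0 * (M.D.k (M.e (P, 0)) 0 : ℝ) + wm T P 0 1 * (M.D.k (M.e (P, 0)) 1 : ℝ) = 1
    rw [h]
    simp [wm]
  · have h := (M.k_top P).1
    show wm T P 1 0 * (M.D.k (M.e (P, 1)) 0 : ℝ) + wm T P 1 1 * (M.D.k (M.e (P, 1)) 1 : ℝ) = 1
    rw [h]
    simp [wm]
  · show wm T P 2 0 * (M.D.k (M.e (P, 2)) 0 : ℝ) + wm T P 2 1 * (M.D.k (M.e (P, 2)) 1 : ℝ) = 1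
    by_cases hP : P ∈ T.S
    · rw [(M.k_mid P hP).1]
      simp [wm, hP]
    · by_cases hP' : P ∈ T.S'
      · rw [(M.k_mid' P hP').1]
        simp [wm, hP]
      · have hz' : z ∈ M.A.U (M.e (P, 2)) := hz
        rw [M.U_mid' P hP hP'] at hz'
        exact hz'.elim

/-- general points -/
def IsGen (y : M.Y) (x : ℝ) : Prop := ∃ (P : T.X.Pt) (i : Fin 3) (z : E 2) (c : ℂˣ),
  z ∈ M.A.U (M.e (P, i)) ∧ z 0 ≠ 0 ∧ z 1 ≠ 0 ∧ y = c • M.A.γ (M.e (P, i)) z ∧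
  x = Real.log (‖wco T P i z‖ ^ 2)

open Classical in
/-- the function `log |w|²` -/
def lw (y : M.Y) : ℝ := if h : ∃ x, M.IsGen y x then h.choose else 0

theorem lw_γ {P : T.X.Pt} {i : Fin 3} {z : E 2} (hz : z ∈ M.A.U (M.e (P, i))) (h0 : z 0 ≠ 0)
    (h1 : z 1 ≠ 0) : M.lw (M.A.γ (M.e (P, i)) z) = Real.log (‖wco T P i z‖ ^ 2) := by
  have h : ∃ x, M.IsGen (M.A.γ (M.e (P, i)) z) x :=
    ⟨_, P, i, z, 1, hz, h0, h1, (one_smul _ _).symm, rfl⟩
  unfold lw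
  rw [dif_pos h]
  obtain ⟨Q, j, z', c, hz', h0', h1', hy, hx⟩ := h.choose_spec
  rw [hx]
  have h2 : M.A.γ (M.e (Q, j)) z' = c⁻¹ • M.A.γ (M.e (P, i)) z := by
    rw [hy, inv_smul_smul]
  rw [(M.same_o hz hz' h0 h1 h0' h1' h2).2]

theorem isGen_smul (c : ℂˣ) (y : M.Y) (x : ℝ) : M.IsGen (c • y) x ↔ M.IsGen y x := by
  constructor
  · rintro ⟨P, i, z, d, hz, h0, h1, hy, hx⟩
    refine ⟨P, i, z, c⁻¹ * d, hz, h0, h1, ?_, hx⟩
    rw [← smul_smul, ← hy, inv_smul_smul]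
  · rintro ⟨P, i, z, d, hz, h0, h1, hy, hx⟩
    refine ⟨P, i, z, c * d, hz, h0, h1, ?_, hx⟩
    rw [← smul_smul, ← hy]

theorem lw_smul (c : ℂˣ) (y : M.Y) : M.lw (c • y) = M.lw y := by
  have h : M.IsGen (c • y) = M.IsGen y := by
    ext x
    exact M.isGen_smul c y x
  classical
  have h2 : ∀ p p' : ℝ → Prop, p = p' →
      (if h : ∃ x, p x then h.choose else 0) = (if h : ∃ x, p' x then h.choose else 0) := by
    rintro p _ rfl
    rfl
  unfold lw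
  convert h2 _ _ h

/-- **F1** -/
theorem f1 (Q : M.A.Part) {H : M.Y → ℝ} (L : Labels M.A M.D) (Mv : L.V → ℝ) (s : Finset L.V)
    (hlab : ∀ P i j, (M.A.U (M.e (P, i))).Nonempty →
      (L.lab (M.e (P, i)) j).mult 1 (-1) Mv = wm T P i j)
    (u : ℝ → ℝ) (R : ℝ)
    (hres : Q.int (M.A.resF M.D H u (fun _ _ => 0) (fun a j => (L.lab a j).mult 1 (-1) Mv)) =
      (R : ℂ)) : Q.dhI M.D H (deriv u) = R := by
  have h1 : Q.int (M.A.resF M.D H u (fun _ _ => 0) (fun a j => (L.lab a j).mult 1 (-1) Mv)) =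
      Q.int (fun a z => ((deriv u (M.A.mu M.D H a z) * M.A.rho H a z : ℝ) : ℂ)) := by
    apply Q.int_congr
    intro a z hz
    obtain ⟨⟨P, i⟩, rfl⟩ := M.e.surjective a
    unfold PolAtlas.resF
    have h2 : M.A.trC H (M.e (P, i)) (fun _ => 0) z = 0 := by
      unfold PolAtlas.trC
      rw [hess_zero]
      simp
    have h3 : ∑ j, (L.lab (M.e (P, i)) j).mult 1 (-1) Mv * (M.D.k (M.e (P, i)) j : ℝ) = 1 := by
      refine Eq.trans ?_ (M.sum_wm hz)
      refine Finset.sum_congr rfl fun j _ => ?_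
      rw [hlab P i j ⟨z, hz⟩]
    rw [h2, wdzb_zero, h3]
    push_cast
    ring
  unfold PolAtlas.Part.dhI
  rw [← h1, hres, ofReal_re]

end SigModel

end Sig

end

end Pool.Agent.YTDA
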