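import Pool.Agent.YTDA.FinalIneq

/-!
# T13, M5.4: from the three residue identities to the contradiction
-/

namespace Pool.Agent.YTDA

open Set Topology ContDiff MeasureTheory Real

noncomputable section

/-- The Duistermaat-Heckman identity for a smooth function from the identity for primitives. -/
theorem dh_primitive {q t : ℝ} (hq : 0 < q) {u k : ℝ → ℝ} (hu : ∀ x, HasDerivAt u (k x) x)
    (hk : Continuous k) :
    -u (-(5 * q)) * (5 * t * q) + u (5 * q) * (5 * t * q) -
      100 * t * (∫ x in (-(5 * q))..(-(4 * q)), u x) + 100 * t * (∫ x in (4 * q)..(5 * q), u x) =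
    ∫ x in (-(5 * q))..(5 * q), k x * dd q t x := by
  have hcu : Continuous u := continuous_iff_continuousAt.2 fun x => (hu x).continuousAt
  have hint : ∀ (g : ℝ → ℝ), Continuous g → ∀ a b, IntervalIntegrable g volume a b :=
    fun g hg a b => hg.intervalIntegrable _ _
  have hcd := continuous_dd q t
  -- split the right hand side
  have e0 : ∫ x in (-(5 * q))..(5 * q), k x * dd q t x =
      (∫ x in (-(5 * q))..(-(4 * q)), k x * dd q t x) +
      (∫ x in (-(4 * q))..(4 * q), k x * dd q t x) +
      (∫ x in (4 * q)..(5 * q), k x * dd q t x) := by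
    have hcm : Continuous (fun x => k x * dd q t x) := hk.mul hcd
    rw [intervalIntegral.integral_add_adjacent_intervals (hint _ hcm _ _)
      (hint _ hcm _ _), intervalIntegral.integral_add_adjacent_intervals
      (hint _ hcm _ _) (hint _ hcm _ _)]
  -- the middle part
  have e1 : ∫ x in (-(4 * q))..(4 * q), k x * dd q t x = (u (4 * q) - u (-(4 * q))) *
      (105 * t * q) := by
    rw [← intervalIntegral.integral_eq_sub_of_hasDerivAt (fun x _ => hu x) (hint k hk _ _),
      ← intervalIntegral.integral_mul_const]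
    apply intervalIntegral.integral_congr
    intro x hx
    rw [uIcc_of_le (by linarith)] at hx
    have h1 : |x| - 4 * q ≤ 0 := by
      have := abs_le.2 ⟨hx.1, hx.2⟩
      linarith
    show k x * dd q t x = _
    unfold dd
    rw [max_eq_right h1]
    ring
  -- the right part
  have e2 : ∫ x in (4 * q)..(5 * q), k x * dd q t x =
      u (5 * q) * (5 * t * q) - u (4 * q) * (105 * t * q) +
        100 * t * ∫ x in (4 * q)..(5 * q), u x := by
    have h1 : ∀ x, HasDerivAt (fun x : ℝ => 105 * t * q - 100 * t * (x - 4 * q)) (-(100 * t)) x := by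
      intro x
      have := (((hasDerivAt_id x).sub_const (4 * q)).const_mul (100 * t)).const_sub (105 * t * q)
      simpa using this
    have h2 := intervalIntegral.integral_mul_deriv_eq_deriv_mul (a := 4 * q) (b := 5 * q)
      (fun x _ => h1 x) (fun x _ => hu x) (hint _ continuous_const _ _) (hint _ hk _ _)
    have h3 : ∫ x in (4 * q)..(5 * q), k x * dd q t x =
        ∫ x in (4 * q)..(5 * q), (105 * t * q - 100 * t * (x - 4 * q)) * k x := by
      apply intervalIntegral.integral_congr
      intro x hx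
      rw [uIcc_of_le (by linarith)] at hx
      show k x * dd q t x = _
      unfold dd
      rw [abs_of_pos (by linarith [hx.1]), max_eq_left (by linarith [hx.1])]
      ring
    rw [h3, h2, intervalIntegral.integral_const_mul]
    ring
  -- the left part
  have e3 : ∫ x in (-(5 * q))..(-(4 * q)), k x * dd q t x =
      u (-(4 * q)) * (105 * t * q) - u (-(5 * q)) * (5 * t * q) -
        100 * t * ∫ x in (-(5 * q))..(-(4 * q)), u x := by
    have h1 : ∀ x, HasDerivAt (fun x : ℝ => 105 * t * q - 100 * t * (-x - 4 * q)) (100 * t) x := by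
      intro x
      have := ((((hasDerivAt_id x).neg).sub_const (4 * q)).const_mul (100 * t)).const_sub
        (105 * t * q)
      simpa using this
    have h2 := intervalIntegral.integral_mul_deriv_eq_deriv_mul (a := -(5 * q)) (b := -(4 * q))
      (fun x _ => h1 x) (fun x _ => hu x) (hint _ continuous_const _ _) (hint _ hk _ _)
    have h3 : ∫ x in (-(5 * q))..(-(4 * q)), k x * dd q t x =
        ∫ x in (-(5 * q))..(-(4 * q)), (105 * t * q - 100 * t * (-x - 4 * q)) * k x := by
      apply intervalIntegral.integral_congr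
      intro x hx
      rw [uIcc_of_le (by linarith)] at hx
      show k x * dd q t x = _
      unfold dd
      rw [abs_of_neg (by linarith [hx.2]), max_eq_left (by linarith [hx.2])]
      ring
    rw [h3, h2, intervalIntegral.integral_const_mul]
    ring
  rw [e0, e1, e2, e3]
  ring

/-- **T13 (M5.4)**: the three residue identities, the positivity and the equation are
contradictory. `I k = ∫ k(μ) ρ`, `Λ k = ∫ k(μ) P(μ) |V|² ρ`. -/
theorem dh_final {q t : ℝ} (hq : 0 < q) (ht : 0 < t) (I Λ : (ℝ → ℝ) → ℝ) (s α β : ℝ)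
    (hΛ : Λ (fun _ => 0) = 0) (hI : ∀ (c : ℝ) (k : ℝ → ℝ), I (fun x => c * k x) = c * I k)
    (F1 : ∀ u : ℝ → ℝ, ContDiff ℝ ∞ u → I (deriv u) = π ^ 2 *
      (-u (-(5 * q)) * α + u (5 * q) * β - 100 * t * (∫ x in (-(5 * q))..(-(4 * q)), u x) +
        100 * t * (∫ x in (4 * q)..(5 * q), u x)))
    (F2 : ∀ u : ℝ → ℝ, ContDiff ℝ ∞ u → I (fun x => 2 * u x + (x + 5 * q) * deriv u x) = π ^ 2 *
      (105 * t * q * (∫ x in (-(5 * q))..(5 * q), u x) -
        q * (100 * t) * (∫ x in (-(5 * q))..(-(4 * q)), u x) +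
        9 * q * (100 * t) * (∫ x in (4 * q)..(5 * q), u x) + 10 * q * β * u (5 * q)))
    (F3 : ∀ f : ℝ → ℝ, ContDiff ℝ ∞ f →
      Λ (deriv (deriv f)) + s * I (fun x => f x * PP q x) = 100 * q * I f + π ^ 2 *
      (f (-(5 * q)) * PP q (-(5 * q)) * α + f (5 * q) * PP q (5 * q) * β -
        18 * t * (∫ x in (-(5 * q))..(5 * q), f x * PP q x)))
    (H3 : ∃ c > 0, ∀ k : ℝ → ℝ, ContDiff ℝ ∞ k → (∀ x, 0 ≤ k x) →
      (∀ x, 39 / 10 * q ≤ |x| → k x = 0) → c * I k ≤ Λ k) : False := by
  have hI0 : I (fun _ => 0) = 0 := by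
    have := hI 0 (fun _ => 0)
    simpa using this
  -- `α = β`
  have hαβ : α = β := by
    have h1 := F1 (fun _ => 1) contDiff_const
    have h2 : deriv (fun _ : ℝ => (1 : ℝ)) = fun _ => 0 := by
      ext x
      simp
    rw [h2, hI0] at h1
    simp only [intervalIntegral.integral_const, smul_eq_mul, mul_one] at h1
    have h3 : (π ^ 2 : ℝ) ≠ 0 := by positivity
    have h4 := (mul_eq_zero.1 h1.symm).resolve_left h3
    linarith
  have hβ : β = 5 * t * q := by
    have h1 := F1 (fun x => x) contDiff_id
    have h2 : deriv (fun x : ℝ => x) = fun _ => 1 := by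
      ext x
      exact (hasDerivAt_id x).deriv
    rw [h2] at h1
    have h3 := F2 (fun _ => 1) contDiff_const
    have h4 : (fun x : ℝ => 2 * (1 : ℝ) + (x + 5 * q) * deriv (fun _ : ℝ => (1 : ℝ)) x) =
        fun x => 2 * (fun _ : ℝ => (1 : ℝ)) x := by
      ext x
      simp
    rw [h4, hI 2 (fun _ => 1)] at h3
    simp only [intervalIntegral.integral_const, smul_eq_mul, mul_one, integral_id] at h1 h3
    rw [h1, hαβ] at h3
    have h5 : (π ^ 2 : ℝ) ≠ 0 := by positivity
    have h6 : π ^ 2 * (10 * q * (β - 5 * t * q)) = 0 := by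
      linear_combination h3
    have h7 := (mul_eq_zero.1 h6).resolve_left h5
    have h8 := (mul_eq_zero.1 h7).resolve_left (by positivity)
    linarith
  have hα : α = 5 * t * q := hαβ.trans hβ
  -- the Duistermaat-Heckman measure
  have hDH : ∀ k : ℝ → ℝ, ContDiff ℝ ∞ k →
      I k = π ^ 2 * ∫ x in (-(5 * q))..(5 * q), k x * dd q t x := by
    intro k hk
    have hkc : Continuous k := hk.continuous
    have hu' : ∀ x, HasDerivAt (fun x => ∫ y in (0 : ℝ)..x, k y) (k x) x := fun x =>
      intervalIntegral.integral_hasDerivAt_right (hkc.intervalIntegrable _ _)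
        (hkc.stronglyMeasurableAtFilter _ _) hkc.continuousAt
    have hud : deriv (fun x => ∫ y in (0 : ℝ)..x, k y) = k := funext fun x => (hu' x).deriv
    have hus : ContDiff ℝ ∞ (fun x => ∫ y in (0 : ℝ)..x, k y) := by
      rw [contDiff_infty_iff_deriv]
      exact ⟨fun x => (hu' x).differentiableAt, by rw [hud]; exact hk⟩
    have h1 := F1 _ hus
    rw [hud, hα, hβ, dh_primitive hq hu' hkc] at h1
    exact h1
  have g4 : dd q t (5 * q) = 5 * t * q := by
    unfold dd
    rw [abs_of_pos (by positivity), max_eq_left (by linarith)]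
    ring
  have g5 : dd q t (-(5 * q)) = 5 * t * q := by
    unfold dd
    rw [abs_neg, abs_of_pos (by positivity), max_eq_left (by linarith)]
    ring
  refine final_ineq hq ht (fun k => 4 * I k) (fun k => 4 * Λ k) s ?_ ?_ ?_ ?_
  · show 4 * Λ (fun _ => 0) = 0
    rw [hΛ, mul_zero]
  · intro f hf _
    have h1 := F3 f hf
    rw [hDH f hf, hα, hβ] at h1
    show 4 * Λ (deriv (deriv f)) + s * (4 * I (fun x => f x * PP q x)) = _
    rw [g4, g5]
    linear_combination 4 * h1
  · intro k hk
    show 4 * I k = _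
    rw [hDH k hk]
    ring
  · obtain ⟨c, hc, h⟩ := H3
    refine ⟨c, hc, fun k hk h0 h1 => ?_⟩
    have h2 := h k hk h0 h1
    show c * (4 * I k) ≤ 4 * Λ k
    linarith

end

end Pool.Agent.YTDA
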