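import Pool.Agent.YTDA.T13Defs
import Pool.Agent.YTDA.DHFin

/-!
# T13: end of the proof, given the three residue identities
-/

namespace Pool.Agent.YTDA

open Complex Set Topology ContDiff MeasureTheory ComplexOrder

noncomputable section

theorem contDiffOn_hess_apply {n : ℕ} {U : Set (E n)} (hU : IsOpen U) {φ : E n → ℝ}
    (hφ : ContDiffOn ℝ ∞ φ U) (i j : Fin n) : ContDiffOn ℝ ∞ (fun z => hess φ z i j) U := by
  have h := smooth_ext (dzD i (dzbD j (ofR (Ω := ⟨U, hU⟩) φ hφ)))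
  refine h.congr fun z hz => ?_
  rw [hess_apply_eq (Ω := ⟨U, hU⟩) φ hφ ⟨z, hz⟩ i j]
  exact (ext_mk _ hz).symm

theorem continuousOn_hess_apply {n : ℕ} {U : Set (E n)} (hU : IsOpen U) {φ : E n → ℝ}
    (hφ : ContDiffOn ℝ ∞ φ U) (i j : Fin n) : ContinuousOn (fun z => hess φ z i j) U :=
  (contDiffOn_hess_apply hU hφ i j).continuousOn

theorem continuousOn_det_hess {n : ℕ} {U : Set (E n)} (hU : IsOpen U) {φ : E n → ℝ}
    (hφ : ContDiffOn ℝ ∞ φ U) : ContinuousOn (fun z => (hess φ z).det) U := by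
  have h : ContinuousOn (fun z => hess φ z) U :=
    continuousOn_pi.2 fun i => continuousOn_pi.2 fun j => continuousOn_hess_apply hU hφ i j
  exact (Continuous.matrix_det continuous_id).comp_continuousOn h

theorem continuousOn_mom {n : ℕ} {U : Set (E n)} (hU : IsOpen U) {φ : E n → ℝ}
    (hφ : ContDiffOn ℝ ∞ φ U) (k : Fin n → ℤ) (m : ℤ) : ContinuousOn (mom k m φ) U := by
  have h1 : ContDiffOn ℝ 1 (fun w => (φ w : ℂ)) U :=
    ofRealCLM.contDiff.comp_contDiffOn (hφ.of_le (by exact_mod_cast le_top))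
  have h2 : ContinuousOn (wdz k (fun w => (φ w : ℂ))) U := by
    unfold wdz
    refine continuousOn_finsetSum _ fun j _ => ?_
    exact ((continuousOn_const.mul (continuous_apply j).continuousOn)).mul
      (continuousOn_dz hU h1 j)
  unfold mom
  exact continuousOn_const.add (continuous_re.comp_continuousOn h2)

/-- `|V|²` is positive where `V ≠ 0`. -/
theorem vvec_pos {n : ℕ} {g : Matrix (Fin n) (Fin n) ℂ} (hg : g.PosDef) (k : Fin n → ℤ) (z : E n)
    (h : ∃ j, (k j : ℂ) * z j ≠ 0) :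
    0 < (∑ i, ∑ j, (k i : ℂ) * z i * ((k j : ℂ) * (starRingEnd ℂ) (z j)) * g i j).re := by
  set x : Fin n → ℂ := fun j => (k j : ℂ) * (starRingEnd ℂ) (z j) with hx
  have hx0 : x ≠ 0 := by
    obtain ⟨j, hj⟩ := h
    intro h0
    apply hj
    have h1 := congrFun h0 j
    simp only [hx, Pi.zero_apply, mul_eq_zero, map_eq_zero] at h1
    exact mul_eq_zero.2 h1
  have h1 := hg.dotProduct_mulVec_pos hx0
  have h2 : star x ⬝ᵥ (g.mulVec x) =
      ∑ i, ∑ j, (k i : ℂ) * z i * ((k j : ℂ) * (starRingEnd ℂ) (z j)) * g i j := by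
    unfold dotProduct Matrix.mulVec dotProduct
    refine Finset.sum_congr rfl fun i _ => ?_
    rw [Finset.mul_sum]
    refine Finset.sum_congr rfl fun j _ => ?_
    have h3 : star x i = (k i : ℂ) * z i := by
      rw [Pi.star_apply, hx]
      simp
    rw [h3, hx]
    ring
  rw [← h2]
  exact (Complex.lt_def.1 h1).1

namespace PolAtlas.Part

variable {n : ℕ} {Y : Type} [MulAction ℂˣ Y] {A : PolAtlas n Y} (P : A.Part) (D : A.DAct)
  (H : Y → ℝ)

/-- real integral over `M` -/
theorem int_re (f : A.ι → E n → ℝ) : (P.int fun a z => (f a z : ℂ)).re =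
    ∑ k, ∫ z in A.U (P.a k), P.χ k (A.γ (P.a k) z) * f (P.a k) z := by
  unfold int
  rw [Complex.re_sum]
  refine Finset.sum_congr rfl fun k _ => ?_
  have h1 : ∀ z, P.X k (P.a k) z * (f (P.a k) z : ℂ) =
      ((P.χ k (A.γ (P.a k) z) * f (P.a k) z : ℝ) : ℂ) := by
    intro z
    unfold X
    push_cast
    ring
  simp_rw [h1]
  rw [integral_complex_ofReal, ofReal_re]

/-- `∫ k(μ) ρ` -/
def dhI (k : ℝ → ℝ) : ℝ := (P.int fun a z => ((k (A.mu D H a z) * A.rho H a z : ℝ) : ℂ)).re

/-- `∫ k(μ) P(μ) |V|² ρ` -/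
def dhL (q : ℝ) (k : ℝ → ℝ) : ℝ :=
  (P.int fun a z => ((k (A.mu D H a z) * PP q (A.mu D H a z) * A.vv D H a z *
    A.rho H a z : ℝ) : ℂ)).re

theorem dhI_smul (c : ℝ) (k : ℝ → ℝ) : P.dhI D H (fun x => c * k x) = c * P.dhI D H k := by
  unfold dhI
  rw [P.int_re (fun a z => c * k (A.mu D H a z) * A.rho H a z),
    P.int_re (fun a z => k (A.mu D H a z) * A.rho H a z), Finset.mul_sum]
  refine Finset.sum_congr rfl fun i _ => ?_
  rw [← integral_const_mul]
  congr 1
  ext z
  ring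

theorem dhL_zero (q : ℝ) : P.dhL D H q (fun _ => 0) = 0 := by
  unfold dhL
  rw [P.int_re (fun a z => 0 * PP q (A.mu D H a z) * A.vv D H a z * A.rho H a z)]
  refine Finset.sum_eq_zero fun i _ => ?_
  simp

theorem χ_zero (k : Fin P.m) {z : E n} (hz : z ∈ A.U (P.a k)) (hzK : z ∉ P.K k) :
    P.χ k (A.γ (P.a k) z) = 0 := by
  have := P.X_zero k hz hzK
  unfold X at this
  exact ofReal_eq_zero.1 this

theorem integrableOn_χ (k : Fin P.m) {f : E n → ℝ} (hf : ContinuousOn f (A.U (P.a k))) :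
    IntegrableOn (fun z => P.χ k (A.γ (P.a k) z) * f z) (A.U (P.a k)) := by
  have hU := A.isOpen_U (P.a k)
  have hc : ContinuousOn (fun z => P.χ k (A.γ (P.a k) z) * f z) (A.U (P.a k)) :=
    ((P.smooth k (P.a k)).continuousOn).mul hf
  have h0 : ∀ z ∈ A.U (P.a k), z ∉ P.K k → P.χ k (A.γ (P.a k) z) * f z = 0 := fun z hz hz' => by
    rw [P.χ_zero k hz hz', zero_mul]
  rw [← integrable_indicator_iff hU.measurableSet]
  exact (cut_continuous hU (P.cpt k) (P.sub k) hc h0).integrable_of_hasCompactSupport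
    (cut_compact (P.cpt k) h0)

variable {H}

theorem rho_pos (hK : A.IsKahler H) (a : A.ι) {z : E n} (hz : z ∈ A.U a) : 0 < A.rho H a z :=
  (Complex.lt_def.1 (hK.posDef a z hz).det_pos).1

/-- **H3** -/
theorem dh_lower {q : ℝ} (hq : 0 < q) (hK : A.IsKahler H)
    (hm : ∀ a, (A.U a).Nonempty → 4 * q ≤ |(D.m a : ℝ)|) :
    ∃ c > 0, ∀ k : ℝ → ℝ, ContDiff ℝ ∞ k → (∀ x, 0 ≤ k x) →
      (∀ x, 39 / 10 * q ≤ |x| → k x = 0) → c * P.dhI D H k ≤ P.dhL D H q k := by
  have hmu : ∀ a, ContinuousOn (A.mu D H a) (A.U a) := fun a =>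
    continuousOn_mom (A.isOpen_U a) (hK.smooth a) _ _
  have hrho : ∀ a, ContinuousOn (A.rho H a) (A.U a) := fun a =>
    continuous_re.comp_continuousOn (continuousOn_det_hess (A.isOpen_U a) (hK.smooth a))
  have hvv : ∀ a, ContinuousOn (A.vv D H a) (A.U a) := by
    intro a
    refine continuous_re.comp_continuousOn ?_
    refine continuousOn_finsetSum _ fun i _ => continuousOn_finsetSum _ fun j _ => ?_
    refine ContinuousOn.mul ?_ (continuousOn_hess_apply (A.isOpen_U a) (hK.smooth a) i j)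
    have : Continuous fun z : E n => (D.k a i : ℂ) * z i * ((D.k a j : ℂ) * (starRingEnd ℂ) (z j)) := by
      have h1 : Continuous fun z : E n => (starRingEnd ℂ) (z j) :=
        Complex.continuous_conj.comp (continuous_apply j)
      fun_prop
    exact this.continuousOn
  have hPm : ∀ a, ContinuousOn (fun z => PP q (A.mu D H a z)) (A.U a) := fun a =>
    (continuous_PP q).comp_continuousOn (hmu a)
  -- positivity
  have hpos : ∀ a, ∀ z ∈ A.U a, |A.mu D H a z| ≤ 39 / 10 * q →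
      0 < PP q (A.mu D H a z) * A.vv D H a z := by
    intro a z hz hle
    have hle' := abs_le.1 hle
    refine mul_pos ?_ ?_
    · unfold PP
      exact mul_pos (by linarith [hle'.1]) (by linarith [hle'.2])
    · apply vvec_pos (hK.posDef a z hz)
      by_contra h
      push Not at h
      have h1 : A.mu D H a z = D.m a := by
        show mom (D.k a) (D.m a) (A.pot H a) z = _
        unfold mom wdz
        have h2 : ∑ j, (D.k a j : ℂ) * z j * dz j (fun w => (A.pot H a w : ℂ)) z = 0 :=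
          Finset.sum_eq_zero fun j _ => by rw [h j, zero_mul]
        rw [h2, zero_re, add_zero]
      have h3 := hm a ⟨z, hz⟩
      rw [h1] at hle
      linarith
  -- lower bounds on the compact pieces
  have h1 : ∀ k, ∃ c > 0, ∀ z ∈ P.K k, |A.mu D H (P.a k) z| ≤ 39 / 10 * q →
      c ≤ PP q (A.mu D H (P.a k) z) * A.vv D H (P.a k) z := by
    intro k
    have hc1 : ContinuousOn (fun z => |A.mu D H (P.a k) z|) (P.K k) :=
      ((hmu (P.a k)).mono (P.sub k)).abs
    have hcl : IsClosed (P.K k ∩ (fun z => |A.mu D H (P.a k) z|) ⁻¹' Iic (39 / 10 * q)) :=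
      hc1.preimage_isClosed_of_isClosed (P.cpt k).isClosed isClosed_Iic
    have hcp : IsCompact (P.K k ∩ (fun z => |A.mu D H (P.a k) z|) ⁻¹' Iic (39 / 10 * q)) :=
      (P.cpt k).of_isClosed_subset hcl inter_subset_left
    rcases (P.K k ∩ (fun z => |A.mu D H (P.a k) z|) ⁻¹' Iic (39 / 10 * q)).eq_empty_or_nonempty
      with he | hne
    · refine ⟨1, one_pos, fun z hz hz' => ?_⟩
      exfalso
      have : z ∈ P.K k ∩ (fun z => |A.mu D H (P.a k) z|) ⁻¹' Iic (39 / 10 * q) := ⟨hz, hz'⟩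
      rw [he] at this
      exact this
    · obtain ⟨z₀, hz₀, hmin⟩ := hcp.exists_isMinOn hne
        ((((hPm (P.a k)).mul (hvv (P.a k))).mono (P.sub k)).mono inter_subset_left)
      refine ⟨_, hpos (P.a k) z₀ (P.sub k hz₀.1) hz₀.2, fun z hz hz' => ?_⟩
      exact hmin ⟨hz, hz'⟩
  choose c hc0 hc using h1
  refine ⟨(∏ k, min (c k) 1), Finset.prod_pos fun k _ => lt_min (hc0 k) one_pos, ?_⟩
  set C := ∏ k, min (c k) 1 with hC
  have hCle : ∀ k, C ≤ c k := by
    intro k
    calc ∏ k, min (c k) 1 ≤ min (c k) 1 := by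
          rw [← Finset.mul_prod_erase Finset.univ _ (Finset.mem_univ k)]
          refine mul_le_of_le_one_right (le_min (hc0 k).le zero_le_one) ?_
          exact Finset.prod_le_one (fun i _ => le_min (hc0 i).le zero_le_one)
            (fun i _ => min_le_right _ _)
      _ ≤ c k := min_le_left _ _
  intro k hk hk0 hks
  have hkc : Continuous k := hk.continuous
  unfold dhI dhL
  rw [P.int_re (fun a z => k (A.mu D H a z) * A.rho H a z),
    P.int_re (fun a z => k (A.mu D H a z) * PP q (A.mu D H a z) * A.vv D H a z * A.rho H a z),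
    Finset.mul_sum]
  refine Finset.sum_le_sum fun i _ => ?_
  rw [← integral_const_mul]
  have hkm : ContinuousOn (fun z => k (A.mu D H (P.a i) z)) (A.U (P.a i)) :=
    hkc.comp_continuousOn (hmu _)
  refine setIntegral_mono_on ?_ ?_ (A.isOpen_U _).measurableSet ?_
  · exact (P.integrableOn_χ i (hkm.mul (hrho _))).const_mul C
  · exact P.integrableOn_χ i (((hkm.mul (hPm _)).mul (hvv _)).mul (hrho _))
  · intro z hz
    by_cases hzK : z ∈ P.K i
    · by_cases hle : |A.mu D H (P.a i) z| ≤ 39 / 10 * q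
      · have h2 := (hCle i).trans (hc i z hzK hle)
        have h3 := P.nonneg i (A.γ (P.a i) z)
        have h4 := hk0 (A.mu D H (P.a i) z)
        have h5 := (rho_pos hK (P.a i) hz).le
        have h6 : 0 ≤ P.χ i (A.γ (P.a i) z) * k (A.mu D H (P.a i) z) * A.rho H (P.a i) z :=
          mul_nonneg (mul_nonneg h3 h4) h5
        calc C * (P.χ i (A.γ (P.a i) z) * (k (A.mu D H (P.a i) z) * A.rho H (P.a i) z))
            = (P.χ i (A.γ (P.a i) z) * k (A.mu D H (P.a i) z) * A.rho H (P.a i) z) * C := by ring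
          _ ≤ (P.χ i (A.γ (P.a i) z) * k (A.mu D H (P.a i) z) * A.rho H (P.a i) z) *
              (PP q (A.mu D H (P.a i) z) * A.vv D H (P.a i) z) :=
            mul_le_mul_of_nonneg_left h2 h6
          _ = _ := by ring
      · have h2 := hks (A.mu D H (P.a i) z) (le_of_lt (not_le.1 hle))
        rw [h2]
        simp
    · rw [P.χ_zero i hz hzK]
      simp

/-- **T13**, given the three residue identities. -/
theorem t13_of {q t : ℝ} (hq : 0 < q) (ht : 0 < t) (hK : A.IsKahler H)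
    (hm : ∀ a, (A.U a).Nonempty → 4 * q ≤ |(D.m a : ℝ)|) (s α β : ℝ)
    (F1 : ∀ u : ℝ → ℝ, ContDiff ℝ ∞ u → P.dhI D H (deriv u) = Real.pi ^ 2 *
      (-u (-(5 * q)) * α + u (5 * q) * β - 100 * t * (∫ x in (-(5 * q))..(-(4 * q)), u x) +
        100 * t * (∫ x in (4 * q)..(5 * q), u x)))
    (F2 : ∀ u : ℝ → ℝ, ContDiff ℝ ∞ u →
      P.dhI D H (fun x => 2 * u x + (x + 5 * q) * deriv u x) = Real.pi ^ 2 *
      (105 * t * q * (∫ x in (-(5 * q))..(5 * q), u x) -
        q * (100 * t) * (∫ x in (-(5 * q))..(-(4 * q)), u x) +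
        9 * q * (100 * t) * (∫ x in (4 * q)..(5 * q), u x) + 10 * q * β * u (5 * q)))
    (F3 : ∀ f : ℝ → ℝ, ContDiff ℝ ∞ f →
      P.dhL D H q (deriv (deriv f)) + s * P.dhI D H (fun x => f x * PP q x) =
      100 * q * P.dhI D H f + Real.pi ^ 2 *
      (f (-(5 * q)) * PP q (-(5 * q)) * α + f (5 * q) * PP q (5 * q) * β -
        18 * t * (∫ x in (-(5 * q))..(5 * q), f x * PP q x))) : False :=
  dh_final hq ht (P.dhI D H) (P.dhL D H q) s α β (P.dhL_zero D H q) (P.dhI_smul D H) F1 F2 F3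
    (P.dh_lower D hq hK hm)

end PolAtlas.Part

end

end Pool.Agent.YTDA
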