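import Pool.Agent.YTDA.F3Glob
import Pool.Agent.YTDA.T13Fin

/-!
# The curvature identity on `Σ`
-/

set_option autoImplicit false

namespace Pool.Agent.YTDA

open Complex Set Topology ContDiff Filter Metric MeasureTheory
open Pool.Agent.YTD

noncomputable section

section Sig

variable {K : Type} [Field K] [Algebra ℂ K] {T : Datum K} {q : ℕ} {D₀ : T.X.Pt →₀ ℤ}
  {An : AnCurve T.X.toCurveOrd} {M : SigModel T q D₀ An} {x₀ : K} {d : T.X.Pt →₀ ℤ}
  {H : M.Y → ℝ} {s : ℂ}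

namespace SigModel

theorem mF_log (hd : M.DiffHyp x₀ d) (P : T.X.Pt) (i : Fin 3) {z : E 2}
    (hz : z ∈ M.A.U (M.e (P, i))) :
    ∑ j, mF d P i j * Real.log (‖z j‖ ^ 2) =
      jm i z - d P * Real.log (‖sco i z‖ ^ 2) := by
  rw [Fin.sum_univ_two]
  fin_cases i
  · show mF d P 0 0 * Real.log (‖z 0‖ ^ 2) + mF d P 0 1 * Real.log (‖z 1‖ ^ 2) =
      jm 0 z - d P * Real.log (‖sco 0 z‖ ^ 2)
    simp [mF, jm, sco]
    ring
  · show mF d P 1 0 * Real.log (‖z 0‖ ^ 2) + mF d P 1 1 * Real.log (‖z 1‖ ^ 2) =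
      jm 1 z - d P * Real.log (‖sco 1 z‖ ^ 2)
    simp [mF, jm, sco]
    ring
  · have hzU : z ∈ M.A.U (M.e (P, 2)) := hz
    have h0 : d P = 0 := by
      by_cases hP : P ∈ T.S
      · exact hd.S P hP
      · by_cases hP' : P ∈ T.S'
        · exact hd.S' P hP'
        · rw [M.U_mid' P hP hP'] at hzU
          exact hzU.elim
    show mF d P 2 0 * Real.log (‖z 0‖ ^ 2) + mF d P 2 1 * Real.log (‖z 1‖ ^ 2) =
      jm 2 z - d P * Real.log (‖sco 2 z‖ ^ 2)
    rw [h0]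
    simp [mF, jm]

/-- the global function -/
theorem exists_F (hd : M.DiffHyp x₀ d) (hK : M.A.IsKahler H) (hp : M.A.IsPde M.D q s H) :
    ∃ F : M.Y → ℝ, (∀ (c : ℂˣ) y, F (c • y) = F y) ∧
      ∀ P i, ∀ z ∈ M.A.U (M.e (P, i)), z 0 ≠ 0 → z 1 ≠ 0 →
        F (M.A.γ (M.e (P, i)) z) =
          M.GF x₀ d H P i z + ∑ j, mF d P i j * Real.log (‖z j‖ ^ 2) := by
  obtain ⟨F, hF, hF'⟩ := f3_glue (A := M.A)
    (fun a z => M.GF x₀ d H (M.e.symm a).1 (M.e.symm a).2 z +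
      ∑ j, mF d (M.e.symm a).1 (M.e.symm a).2 j * Real.log (‖z j‖ ^ 2))
    (fun z => z 0 ≠ 0 ∧ z 1 ≠ 0) (by
      intro a b z hz z' hz' hg hg' c h
      obtain ⟨⟨P, i⟩, rfl⟩ := M.e.surjective a
      obtain ⟨⟨Q, j⟩, rfl⟩ := M.e.surjective b
      simp only [Equiv.symm_apply_apply]
      rw [mF_log hd P i hz, mF_log hd Q j hz']
      obtain ⟨f, hf, hfs, hf', hfc, hfn, hld⟩ :=
        M.logdet_compat hK hz hz' hg.1 hg.2 hg'.1 hg'.2 h
      have hs : sco i z ∈ ball (0 : ℂ) (M.r P) := by simpa using M.sco_mem hz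
      have hs' : sco j z' ∈ ball (0 : ℂ) (M.r Q) := by simpa using M.sco_mem hz'
      have h0 := sco_ne (i := i) hg.1 hg.2
      have h0' := sco_ne (i := j) hg'.1 hg'.2
      have hgx := gx_compat hd.ord M.r_le hd.iso hs hs' h0 h0' hf hfs hf' (hfn x₀)
      have hmu := PolAtlas.f3_mu_compat (D := M.D) hK hp.inv hz hz' h
      have n1 : ‖gx An x₀ d M.r P (sco i z)‖ ≠ 0 :=
        norm_ne_zero_iff.2 ((gs_spec hd P i).2 z hz)
      have n2 : ‖gx An x₀ d M.r Q (sco j z')‖ ≠ 0 :=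
        norm_ne_zero_iff.2 ((gs_spec hd Q j).2 z' hz')
      have n3 : ‖sco i z‖ ≠ 0 := norm_ne_zero_iff.2 h0
      have n4 : ‖sco j z'‖ ≠ 0 := norm_ne_zero_iff.2 h0'
      have n5 : ‖deriv f (sco i z)‖ ≠ 0 := norm_ne_zero_iff.2 hf'
      have hlog := congrArg (fun x : ℂ => Real.log ‖x‖) hgx
      simp only [norm_mul, norm_zpow] at hlog
      rw [Real.log_mul (by positivity) n1, Real.log_mul (by positivity) n5,
        Real.log_mul (by positivity) n2, Real.log_zpow, Real.log_zpow] at hlog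
      have e1 : ∀ (P : T.X.Pt) (i : Fin 3) (z : E 2), M.GF x₀ d H P i z =
          logdet (M.A.pot H (M.e (P, i))) z + Real.log (PP q (M.A.mu M.D H (M.e (P, i)) z)) -
            2 * Real.log ‖gx An x₀ d M.r P (sco i z)‖ := by
        intro P i z
        unfold GF gs
        rw [PolAtlas.fred_eq, Real.log_pow]
        push_cast
        ring
      rw [e1, e1, hmu]
      rw [Real.log_pow] at hld
      rw [Real.log_pow, Real.log_pow]
      push_cast at hld ⊢
      linarith)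
  refine ⟨F, hF, fun P i z hz h0 h1 => ?_⟩
  have := hF' (M.e (P, i)) z hz ⟨h0, h1⟩
  simpa only [Equiv.symm_apply_apply] using this

/-! ## The integrands -/

/-- the integrand for `F` -/
theorem resF_GF (hd : M.DiffHyp x₀ d) (hK : M.A.IsKahler H) (hp : M.A.IsPde M.D q s H)
    {f : ℝ → ℝ} (hf : Differentiable ℝ f) (P : T.X.Pt) (i : Fin 3) {z : E 2}
    (hz : z ∈ M.A.U (M.e (P, i))) (G : M.A.ι → E 2 → ℝ) (Mu : M.A.ι → Fin 2 → ℝ)
    (hG : G (M.e (P, i)) = M.GF x₀ d H P i) (hM : Mu (M.e (P, i)) = mF d P i) :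
    M.A.resF M.D H (fun x => f x * PP q x) G Mu (M.e (P, i)) z =
      (M.A.rho H (M.e (P, i)) z : ℂ) *
        ((f (M.A.mu M.D H (M.e (P, i)) z) : ℂ) *
          (100 * q - s * (PP q (M.A.mu M.D H (M.e (P, i)) z) : ℝ)) +
        (deriv f (M.A.mu M.D H (M.e (P, i)) z) : ℝ) *
          (PP q (M.A.mu M.D H (M.e (P, i)) z) : ℝ) *
          (wdz (M.D.k (M.e (P, i))) (fun w => (M.A.fred M.D H q (M.e (P, i)) w : ℂ)) z +
            ((∑ j, (M.D.k (M.e (P, i)) j : ℝ) : ℝ) : ℂ))) := by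
  have hpde := hp.pde (M.e (P, i)) z hz
  have hder : deriv (fun x => f x * PP q x) (M.A.mu M.D H (M.e (P, i)) z) =
      deriv f (M.A.mu M.D H (M.e (P, i)) z) * PP q (M.A.mu M.D H (M.e (P, i)) z) +
        f (M.A.mu M.D H (M.e (P, i)) z) * (-18 * M.A.mu M.D H (M.e (P, i)) z) :=
    ((hf _).hasDerivAt.mul (f3_hasDerivAt_PP q _)).deriv
  unfold PolAtlas.resF
  rw [hG, hM, hder, trC_GF hd hK hp P i hz, wdzb_GF hd hK hp P i hz, mF_sum P i hz,
    PolAtlas.f3_trC_eq hK hz]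
  have e1 : mom (M.D.k (M.e (P, i))) (M.D.m (M.e (P, i))) (M.A.pot H (M.e (P, i))) z =
      M.A.mu M.D H (M.e (P, i)) z := rfl
  have e2 : redF q (M.D.k (M.e (P, i))) (M.D.m (M.e (P, i))) (M.A.pot H (M.e (P, i))) =
      M.A.fred M.D H q (M.e (P, i)) := rfl
  rw [e1, e2] at hpde
  have e3 : ((∑ j, M.D.k (M.e (P, i)) j : ℤ) : ℂ) =
      ((∑ j, (M.D.k (M.e (P, i)) j : ℝ) : ℝ) : ℂ) := by push_cast; rfl
  rw [e3] at hpde
  generalize M.A.mu M.D H (M.e (P, i)) z = μ at *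
  generalize (∑ i_1, ∑ j, (hess (M.A.pot H (M.e (P, i))) z)⁻¹ j i_1 *
    hess (M.A.fred M.D H q (M.e (P, i))) z i_1 j) = Δ at *
  generalize wdz (M.D.k (M.e (P, i))) (fun w => (M.A.fred M.D H q (M.e (P, i)) w : ℂ)) z = V at *
  generalize ((∑ j, (M.D.k (M.e (P, i)) j : ℝ) : ℝ) : ℂ) = k at *
  generalize M.A.rho H (M.e (P, i)) z = ρ at *
  push_cast
  linear_combination ((ρ : ℂ) * (f μ : ℂ)) * hpde

end SigModel

end Sig

namespace PolAtlas

variable {n : ℕ} {Y : Type} [MulAction ℂˣ Y] {A : PolAtlas n Y} {D : A.DAct} {H : Y → ℝ}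
  {q : ℕ} {s : ℂ}

/-- the integrand for `μ` -/
theorem f3_resF_mu (hK : A.IsKahler H) (hp : A.IsPde D q s H)
    {g : ℝ → ℝ} (hg : Differentiable ℝ g) {a : A.ι} {z : E n} (hz : z ∈ A.U a) :
    A.resF D H (fun x => g x * PP q x) (fun a => A.mu D H a) (fun _ _ => 0) a z =
      (A.rho H a z : ℂ) *
        ((g (A.mu D H a z) : ℝ) * (PP q (A.mu D H a z) : ℝ) *
          (wdz (D.k a) (fun w => (A.fred D H q a w : ℂ)) z +
            ((∑ j, (D.k a j : ℝ) : ℝ) : ℂ)) +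
        (deriv g (A.mu D H a z) : ℝ) * (PP q (A.mu D H a z) : ℝ) * (A.vv D H a z : ℝ)) := by
  have hder : deriv (fun x => g x * PP q x) (A.mu D H a z) =
      deriv g (A.mu D H a z) * PP q (A.mu D H a z) +
        g (A.mu D H a z) * (-18 * A.mu D H a z) :=
    ((hg _).hasDerivAt.mul (f3_hasDerivAt_PP q _)).deriv
  have hmu : DifferentiableAt ℝ (A.mu D H a) z :=
    ((f3_contDiffOn_mu hK hp.inv a).contDiffAt
      ((A.isOpen_U a).mem_nhds hz)).differentiableAt (by simp)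
  have h1 : wdzb (D.k a) (fun w => (A.mu D H a w : ℂ)) z = (A.vv D H a z : ℂ) := by
    rw [(f3_wdz_im_of_inv hmu fun c hc => f3_mu_dact hK hp.inv hz hc).1, f3_wdz_mu hK hp.inv hz]
  have h2 := f3_wdz_fred hK hp hz
  unfold resF
  rw [hder, f3_trC_mu hK hp.inv hz, h1]
  simp only [zero_mul, Finset.sum_const_zero, ofReal_zero, add_zero]
  generalize A.mu D H a z = μ at *
  generalize wdz (D.k a) (fun w => (A.fred D H q a w : ℂ)) z = V at *
  generalize wdz (D.k a) (fun w => (logdet (A.pot H a) w : ℂ)) z = V' at *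
  generalize ((∑ j, (D.k a j : ℝ) : ℝ) : ℂ) = k at *
  generalize A.rho H a z = ρ at *
  push_cast
  linear_combination (-(ρ : ℂ) * (g μ : ℂ)) * h2

end PolAtlas

/-! ## Integration -/

namespace PolAtlas.Part

variable {n : ℕ} {Y : Type} [MulAction ℂˣ Y] {A : PolAtlas n Y} (P : A.Part)

theorem f3_int_congr {f g : A.ι → E n → ℂ} (h : ∀ a, ∀ z ∈ A.U a, f a z = g a z) :
    P.int f = P.int g := by
  unfold int
  refine Finset.sum_congr rfl fun k _ => ?_
  refine setIntegral_congr_fun (A.isOpen_U _).measurableSet fun z hz => ?_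
  show P.X k (P.a k) z * f (P.a k) z = P.X k (P.a k) z * g (P.a k) z
  rw [h _ z hz]

theorem f3_integrable (k : Fin P.m) {f : E n → ℂ} (hf : ContinuousOn f (A.U (P.a k))) :
    IntegrableOn (fun z => P.X k (P.a k) z * f z) (A.U (P.a k)) := by
  have hU := A.isOpen_U (P.a k)
  have hc : ContinuousOn (fun z => P.X k (P.a k) z * f z) (A.U (P.a k)) :=
    ((P.contDiffOn_X k (P.a k)).continuousOn).mul hf
  have h0 : ∀ z ∈ A.U (P.a k), z ∉ P.K k → P.X k (P.a k) z * f z = 0 := fun z hz hz' => by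
    rw [P.X_zero k hz hz', zero_mul]
  rw [← integrable_indicator_iff hU.measurableSet]
  exact (cut_continuous hU (P.cpt k) (P.sub k) hc h0).integrable_of_hasCompactSupport
    (cut_compact (P.cpt k) h0)

theorem f3_int_add {f g : A.ι → E n → ℂ} (hf : ∀ a, ContinuousOn (f a) (A.U a))
    (hg : ∀ a, ContinuousOn (g a) (A.U a)) :
    P.int (fun a z => f a z + g a z) = P.int f + P.int g := by
  unfold int
  rw [← Finset.sum_add_distrib]
  refine Finset.sum_congr rfl fun k _ => ?_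
  rw [← integral_add (P.f3_integrable k (hf _)) (P.f3_integrable k (hg _))]
  congr 1
  funext z
  ring

theorem f3_int_mul (c : ℂ) (f : A.ι → E n → ℂ) :
    P.int (fun a z => c * f a z) = c * P.int f := by
  unfold int
  rw [Finset.mul_sum]
  refine Finset.sum_congr rfl fun k _ => ?_
  rw [← integral_const_mul]
  congr 1
  funext z
  ring

theorem f3_int_real (f : A.ι → E n → ℝ) : P.int (fun a z => (f a z : ℂ)) =
    (((P.int fun a z => (f a z : ℂ)).re : ℝ) : ℂ) := by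
  rw [P.int_re]
  unfold int
  rw [ofReal_sum]
  refine Finset.sum_congr rfl fun k _ => ?_
  rw [← integral_complex_ofReal]
  congr 1
  funext z
  unfold X
  push_cast
  ring

end PolAtlas.Part

namespace SigModel

variable {K : Type} [Field K] [Algebra ℂ K] {T : Datum K} {q : ℕ} {D₀ : T.X.Pt →₀ ℤ}
  {An : AnCurve T.X.toCurveOrd} {M : SigModel T q D₀ An} {x₀ : K} {d : T.X.Pt →₀ ℤ}
  {H : M.Y → ℝ} {s : ℂ}

variable (M) in
/-- the smooth parts of `F` in all charts -/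
def GFa (x₀ : K) (d : T.X.Pt →₀ ℤ) (H : M.Y → ℝ) (a : M.A.ι) : E 2 → ℝ :=
  M.GF x₀ d H (M.e.symm a).1 (M.e.symm a).2

theorem contDiffOn_GFa (hd : M.DiffHyp x₀ d) (hK : M.A.IsKahler H) (hp : M.A.IsPde M.D q s H)
    (a : M.A.ι) : ContDiffOn ℝ ∞ (M.GFa x₀ d H a) (M.A.U a) := by
  have h := contDiffOn_GF hd hK hp (M.e.symm a).1 (M.e.symm a).2
  rw [show M.e ((M.e.symm a).1, (M.e.symm a).2) = a from M.e.apply_symm_apply a] at h
  exact h

/-- the hypotheses of the residue theorem -/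
theorem exists_Fa (hd : M.DiffHyp x₀ d) (hK : M.A.IsKahler H) (hp : M.A.IsPde M.D q s H)
    (L : Labels M.A M.D) (Mv : L.V → ℝ)
    (hlab : ∀ P i j, (M.A.U (M.e (P, i))).Nonempty →
      (L.lab (M.e (P, i)) j).mult 1 1 Mv = mF d P i j) :
    ∃ F : M.Y → ℝ, (∀ (c : ℂˣ) y, F (c • y) = F y) ∧
      ∀ a, ∀ z ∈ M.A.U a, z 0 ≠ 0 → z 1 ≠ 0 → F (M.A.γ a z) =
        M.GFa x₀ d H a z + ∑ j, (L.lab a j).mult 1 1 Mv * Real.log (‖z j‖ ^ 2) := by
  obtain ⟨F, hF, hF'⟩ := exists_F hd hK hp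
  refine ⟨F, hF, fun a z hz h0 h1 => ?_⟩
  obtain ⟨⟨P, i⟩, rfl⟩ := M.e.surjective a
  rw [hF' P i z hz h0 h1]
  unfold GFa
  rw [Equiv.symm_apply_apply]
  congr 1
  refine Finset.sum_congr rfl fun j _ => ?_
  rw [hlab P i j ⟨z, hz⟩]

/-- **F3** -/
theorem f3 (Q : M.A.Part) (hd : M.DiffHyp x₀ d) (hK : M.A.IsKahler H)
    (hp : M.A.IsPde M.D q s H) (L : Labels M.A M.D) (Mv : L.V → ℝ)
    (hlab : ∀ P i j, (M.A.U (M.e (P, i))).Nonempty →
      (L.lab (M.e (P, i)) j).mult 1 1 Mv = mF d P i j)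
    {f : ℝ → ℝ} (hf : ContDiff ℝ ∞ f) (R : ℝ)
    (hres : Q.int (M.A.resF M.D H (fun x => f x * PP q x) (M.GFa x₀ d H)
      (fun a j => (L.lab a j).mult 1 1 Mv)) = (R : ℂ))
    (hres0 : Q.int (M.A.resF M.D H (fun x => deriv f x * PP q x) (fun a => M.A.mu M.D H a)
      (fun _ _ => 0)) = 0) :
    Q.dhL M.D H q (deriv (deriv f)) + s.re * Q.dhI M.D H (fun x => f x * PP q x) =
      100 * q * Q.dhI M.D H f - R := by
  have hf1 : ContDiff ℝ ∞ (deriv f) := hf.deriv'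
  have hf2 : ContDiff ℝ ∞ (deriv (deriv f)) := hf1.deriv'
  set W : M.A.ι → E 2 → ℂ := fun a z => (M.A.rho H a z : ℂ) *
    ((deriv f (M.A.mu M.D H a z) : ℝ) * (PP q (M.A.mu M.D H a z) : ℝ) *
      (wdz (M.D.k a) (fun w => (M.A.fred M.D H q a w : ℂ)) z +
        ((∑ j, (M.D.k a j : ℝ) : ℝ) : ℂ))) with hW
  have e1 : Q.int (M.A.resF M.D H (fun x => f x * PP q x) (M.GFa x₀ d H)
      (fun a j => (L.lab a j).mult 1 1 Mv)) = Q.int (fun a z =>
      (100 * (q : ℂ) * ((f (M.A.mu M.D H a z) * M.A.rho H a z : ℝ) : ℂ) +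
        (-s) * (((fun x => f x * PP q x) (M.A.mu M.D H a z) * M.A.rho H a z : ℝ) : ℂ)) +
        W a z) := by
    apply Q.f3_int_congr
    intro a z hz
    obtain ⟨⟨P, i⟩, rfl⟩ := M.e.surjective a
    rw [resF_GF hd hK hp (hf.differentiable (by simp)) P i hz _ _ (by
      unfold GFa; rw [Equiv.symm_apply_apply]) (by
      funext j
      exact hlab P i j ⟨z, hz⟩), hW]
    push_cast
    ring
  have e2 : Q.int (M.A.resF M.D H (fun x => deriv f x * PP q x) (fun a => M.A.mu M.D H a)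
      (fun _ _ => 0)) = Q.int (fun a z => W a z + ((deriv (deriv f) (M.A.mu M.D H a z) *
        PP q (M.A.mu M.D H a z) * M.A.vv M.D H a z * M.A.rho H a z : ℝ) : ℂ)) := by
    apply Q.f3_int_congr
    intro a z hz
    rw [PolAtlas.f3_resF_mu hK hp (hf1.differentiable (by simp)) hz, hW]
    push_cast
    ring
  -- continuity
  have cmu : ∀ a, ContinuousOn (M.A.mu M.D H a) (M.A.U a) := fun a =>
    (PolAtlas.f3_contDiffOn_mu hK hp.inv a).continuousOn
  have crho : ∀ a, ContinuousOn (M.A.rho H a) (M.A.U a) := fun a =>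
    continuous_re.comp_continuousOn (continuousOn_det_hess (M.A.isOpen_U a) (hK.smooth a))
  have cvv : ∀ a, ContinuousOn (M.A.vv M.D H a) (M.A.U a) := by
    intro a
    refine continuous_re.comp_continuousOn ?_
    refine continuousOn_finsetSum _ fun i _ => continuousOn_finsetSum _ fun j _ => ?_
    refine ContinuousOn.mul ?_ (continuousOn_hess_apply (M.A.isOpen_U a) (hK.smooth a) i j)
    have : Continuous fun z : E 2 => (M.D.k a i : ℂ) * z i *
        ((M.D.k a j : ℂ) * (starRingEnd ℂ) (z j)) := by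
      have h1 : Continuous fun z : E 2 => (starRingEnd ℂ) (z j) :=
        Complex.continuous_conj.comp (continuous_apply j)
      fun_prop
    exact this.continuousOn
  have cP : ∀ a, ContinuousOn (fun z => PP q (M.A.mu M.D H a z)) (M.A.U a) := fun a =>
    (continuous_PP q).comp_continuousOn (cmu a)
  have cI : ∀ (k : ℝ → ℝ), Continuous k → ∀ a, ContinuousOn (fun z =>
      ((k (M.A.mu M.D H a z) * M.A.rho H a z : ℝ) : ℂ)) (M.A.U a) := fun k hk a =>
    continuous_ofReal.comp_continuousOn ((hk.comp_continuousOn (cmu a)).mul (crho a))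
  have cW : ∀ a, ContinuousOn (W a) (M.A.U a) := by
    intro a
    have h1 : ContDiffOn ℝ 1 (fun w => (M.A.fred M.D H q a w : ℂ)) (M.A.U a) :=
      ofRealCLM.contDiff.comp_contDiffOn
        ((PolAtlas.f3_contDiffOn_fred hK hp a).of_le (by exact_mod_cast le_top))
    have h2 : ContinuousOn (wdz (M.D.k a) (fun w => (M.A.fred M.D H q a w : ℂ))) (M.A.U a) := by
      unfold wdz
      refine continuousOn_finsetSum _ fun j _ => ?_
      exact ((continuousOn_const.mul (continuous_apply j).continuousOn)).mul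
        (continuousOn_dz (M.A.isOpen_U a) h1 j)
    exact (continuous_ofReal.comp_continuousOn (crho a)).mul
      (((continuous_ofReal.comp_continuousOn (hf1.continuous.comp_continuousOn (cmu a))).mul
        (continuous_ofReal.comp_continuousOn (cP a))).mul (h2.add continuousOn_const))
  have cL : ∀ a, ContinuousOn (fun z => ((deriv (deriv f) (M.A.mu M.D H a z) *
        PP q (M.A.mu M.D H a z) * M.A.vv M.D H a z * M.A.rho H a z : ℝ) : ℂ)) (M.A.U a) :=
    fun a => continuous_ofReal.comp_continuousOn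
      ((((hf2.continuous.comp_continuousOn (cmu a)).mul (cP a)).mul (cvv a)).mul (crho a))
  have c1 := cI f hf.continuous
  have c2 := cI (fun x => f x * PP q x) (hf.continuous.mul (continuous_PP q))
  rw [e2, Q.f3_int_add cW cL] at hres0
  rw [e1, Q.f3_int_add
    (f := fun a z => 100 * (q : ℂ) * ((f (M.A.mu M.D H a z) * M.A.rho H a z : ℝ) : ℂ) +
        (-s) * (((fun x => f x * PP q x) (M.A.mu M.D H a z) * M.A.rho H a z : ℝ) : ℂ))
    (g := W) (fun a => (continuousOn_const.mul (c1 a)).add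
    (continuousOn_const.mul (c2 a))) cW, Q.f3_int_add
    (f := fun a z => 100 * (q : ℂ) * ((f (M.A.mu M.D H a z) * M.A.rho H a z : ℝ) : ℂ))
    (g := fun a z => (-s) * (((fun x => f x * PP q x) (M.A.mu M.D H a z) *
      M.A.rho H a z : ℝ) : ℂ)) (fun a => continuousOn_const.mul (c1 a))
    (fun a => continuousOn_const.mul (c2 a)), Q.f3_int_mul, Q.f3_int_mul] at hres
  rw [Q.f3_int_real (fun a z => f (M.A.mu M.D H a z) * M.A.rho H a z),
    Q.f3_int_real (fun a z => (fun x => f x * PP q x) (M.A.mu M.D H a z) * M.A.rho H a z)] at hres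
  rw [Q.f3_int_real (fun a z => deriv (deriv f) (M.A.mu M.D H a z) *
        PP q (M.A.mu M.D H a z) * M.A.vv M.D H a z * M.A.rho H a z)] at hres0
  have r1 := congrArg Complex.re hres
  have r2 := congrArg Complex.re hres0
  have q1 : (100 * (q : ℂ)) = ((100 * (q : ℝ) : ℝ) : ℂ) := by push_cast; rfl
  rw [Complex.add_re, Complex.add_re, q1, Complex.re_ofReal_mul, Complex.re_mul_ofReal,
    Complex.neg_re, ofReal_re, ofReal_re] at r1
  rw [Complex.add_re, ofReal_re, Complex.zero_re] at r2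
  unfold PolAtlas.Part.dhL PolAtlas.Part.dhI
  linarith

/-- **F3** in the form of `t13_of`, given the labelled residue theorem `hM4` (for this metric) and
the residue theorem `hM2` for global functions. -/
theorem f3_target (Q : M.A.Part) (hd : M.DiffHyp x₀ d) (hK : M.A.IsKahler H)
    (hp : M.A.IsPde M.D q s H) (L : Labels M.A M.D) (Mv : L.V → ℝ) (S : Finset L.V)
    (hs : ∀ v ∉ S, Mv v = 0) (t : ℝ)
    (hlab : ∀ P i j, (M.A.U (M.e (P, i))).Nonempty →
      (L.lab (M.e (P, i)) j).mult 1 1 Mv = mF d P i j)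
    (hm0 : L.m0 = -5 * q) (hmi : L.mi = 5 * q)
    (hsum : ∀ u : ℝ → ℝ, Continuous u →
      ∑ v ∈ S, Mv v * (Real.pi * ∫ x in (L.mm v : ℝ)..(L.mp v : ℝ), u x) =
        -(18 * t) * (Real.pi * ∫ x in (-(5 * q) : ℝ)..(5 * q : ℝ), u x))
    (hM2 : ∀ G : M.A.ι → E 2 → ℝ, (∀ a, ContDiffOn ℝ ∞ (G a) (M.A.U a)) →
      (∀ a b, ∀ z ∈ M.A.U a, ∀ z' ∈ M.A.U b, ∀ c : ℂˣ, M.A.γ b z' = c • M.A.γ a z →
        G b z' = G a z) → ∀ u : ℝ → ℝ, ContDiff ℝ ∞ u →
      Q.int (M.A.resF M.D H u G (fun _ _ => 0)) = 0)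
    (hM4 : ∀ (F : M.Y → ℝ), (∀ (c : ℂˣ) y, F (c • y) = F y) →
      ∀ G : M.A.ι → E 2 → ℝ, (∀ a, ContDiffOn ℝ ∞ (G a) (M.A.U a)) →
      (∀ a, ∀ z ∈ M.A.U a, z 0 ≠ 0 → z 1 ≠ 0 →
        F (M.A.γ a z) = G a z + ∑ j, (L.lab a j).mult 1 1 Mv * Real.log (‖z j‖ ^ 2)) →
      ∀ u : ℝ → ℝ, ContDiff ℝ ∞ u →
      Q.int (M.A.resF M.D H u G (fun a j => (L.lab a j).mult 1 1 Mv)) =
      ((- Real.pi * (1 * (u L.m0 * Q.labInt M.D H L.lab Lb.zero (fun _ => 1)) +
        1 * (u L.mi * Q.labInt M.D H L.lab Lb.inf (fun _ => 1)) +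
        ∑ v ∈ S, Mv v * (Real.pi * ∫ x in (L.mm v : ℝ)..(L.mp v : ℝ), u x)) : ℝ) : ℂ))
    {f : ℝ → ℝ} (hf : ContDiff ℝ ∞ f) :
    Q.dhL M.D H q (deriv (deriv f)) + s.re * Q.dhI M.D H (fun x => f x * PP q x) =
      100 * q * Q.dhI M.D H f + Real.pi ^ 2 *
        (f (-(5 * q)) * PP q (-(5 * q)) *
            (1 / Real.pi * Q.labInt M.D H L.lab Lb.zero (fun _ => 1)) +
          f (5 * q) * PP q (5 * q) *
            (1 / Real.pi * Q.labInt M.D H L.lab Lb.inf (fun _ => 1)) -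
        18 * t * (∫ x in (-(5 * q) : ℝ)..(5 * q : ℝ), f x * PP q x)) := by
  obtain ⟨F, hF, hF'⟩ := exists_Fa hd hK hp L Mv hlab
  have hu : ContDiff ℝ ∞ (fun x => f x * PP q x) := hf.mul (f3_contDiff_PP q)
  have h1 := hM4 F hF (M.GFa x₀ d H) (contDiffOn_GFa hd hK hp) hF' _ hu
  have h2 := hM2 (fun a => M.A.mu M.D H a) (PolAtlas.f3_contDiffOn_mu hK hp.inv)
    (fun a b z hz z' hz' c h => PolAtlas.f3_mu_compat hK hp.inv hz hz' h)
    (fun x => deriv f x * PP q x) ((hf.deriv').mul (f3_contDiff_PP q))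
  rw [f3 Q hd hK hp L Mv hlab hf _ h1 h2, hsum _ hu.continuous, hm0, hmi]
  have hpi := Real.pi_ne_zero
  have e0 : (((-5 * (q : ℤ) : ℤ)) : ℝ) = -(5 * (q : ℝ)) := by push_cast; ring
  have e1 : (((5 * (q : ℤ) : ℤ)) : ℝ) = 5 * (q : ℝ) := by push_cast; ring
  rw [e0, e1]
  field_simp
  ring

end SigModel

end

end Pool.Agent.YTDA
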