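import Pool.Agent.YTDA.Orbit4

/-!
# M3: integrals over vertical curves
-/

namespace Pool.Agent.YTDA

open Complex Set Topology ContDiff MeasureTheory Filter

noncomputable section

namespace Orb

variable {Y : Type} [MulAction ℂˣ Y] {A : PolAtlas 2 Y} {D : A.DAct}

variable {H : Y → ℝ} (hK : A.IsKahler H)
    (hinv : ∀ (c : ℂˣ) y, ‖(c : ℂ)‖ = 1 → H (D.act c y) = H y)

theorem chi_le_one (P : A.Part) (k : Fin P.m) (y : Y) : P.χ k y ≤ 1 := by
  rw [← P.sum y]
  exact Finset.single_le_sum (f := fun k => P.χ k y) (fun i _ => P.nonneg i y) (Finset.mem_univ k)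

include hK hinv

theorem radial (L : Labels A D) (v : L.V) {u : ℝ → ℝ} (hu : Continuous u) :
    Integrable (fun c : ℂ => u (2 * D.mu H (D.act (expU (Real.log ‖c‖)) (L.p v)) / 2) *
      (4 * D.nv H (D.act (expU (Real.log ‖c‖)) (L.p v)) / (4 * ‖c‖ ^ 2))) ∧
    ∫ c : ℂ, u (2 * D.mu H (D.act (expU (Real.log ‖c‖)) (L.p v)) / 2) *
      (4 * D.nv H (D.act (expU (Real.log ‖c‖)) (L.p v)) / (4 * ‖c‖ ^ 2)) =
      Real.pi * ∫ x in (L.mm v : ℝ)..(L.mp v : ℝ), u x := by
  refine integral_radial (f := fun t : ℝ => 2 * D.mu H (D.act (expU t) (L.p v)))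
    (f' := fun t : ℝ => 4 * D.nv H (D.act (expU t) (L.p v))) ?_ ?_ ?_ ?_ ?_ hu
  · intro t
    have h := (PolAtlas.hasDerivAt_mu_act' hK D hinv (L.p v) t).const_mul 2
    refine h.congr_deriv ?_
    ring
  · intro t
    exact mul_nonneg (by norm_num) (nv_nonneg hK hinv _)
  · exact continuous_const.mul ((cont_orbit (PolAtlas.nv_smul hK D) (continuousOn_nv hK hinv)
      (L.p v)).comp continuous_expU)
  · obtain ⟨a, j, h1, h2, h3, h4⟩ := L.exists_minus v
    have h5 := (tendsto_mu hK hinv L h1 h4 (l := atBot) (by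
      rw [h2]
      refine tendsto_id.congr fun t => ?_
      simp)).const_mul 2
    rw [h3] at h5
    exact h5
  · obtain ⟨a, j, h1, h2, h3, h4⟩ := L.exists_plus v
    have h5 := (tendsto_mu hK hinv L h1 h4 (l := atTop) (by
      rw [h2]
      simpa using tendsto_neg_atTop_atBot)).const_mul 2
    rw [h3] at h5
    exact h5

theorem integrable_G (P : A.Part) (L : Labels A D) (v : L.V) {u : ℝ → ℝ} (hu : Continuous u)
    (k : Fin P.m) : Integrable (G P D H u (L.p v) k) := by
  have h1 := (radial hK hinv L v hu).1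
  have h2 : ContinuousOn (fun c : ℂ => P.χ k (D.act (toU c) (L.p v))) {0}ᶜ :=
    (cont_orbit (fun c y => P.inv k c y) (fun a => (P.smooth k a).continuousOn)
      (L.p v)).comp_continuousOn continuousOn_toU
  have h0 : ∀ᵐ w : ℂ, w ≠ 0 := by
    rw [ae_iff]
    simp
  have h3 : AEStronglyMeasurable (fun c : ℂ => P.χ k (D.act (toU c) (L.p v))) volume := by
    have := h2.aestronglyMeasurable (μ := volume) (measurableSet_singleton (0 : ℂ)).compl
    rwa [Measure.restrict_eq_self_of_ae_mem (s := ({0}ᶜ : Set ℂ)) h0] at this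
  refine h1.bdd_mul (c := 1) h3 (Filter.Eventually.of_forall fun c => ?_)
  rw [Real.norm_of_nonneg (P.nonneg k _)]
  exact chi_le_one P k _

theorem sum_G (P : A.Part) (L : Labels A D) (v : L.V) {u : ℝ → ℝ} (hu : Continuous u) :
    ∑ k, ∫ c, G P D H u (L.p v) k c = Real.pi * ∫ x in (L.mm v : ℝ)..(L.mp v : ℝ), u x := by
  rw [← integral_finsetSum _ fun k _ => integrable_G hK hinv P L v hu k,
    ← (radial hK hinv L v hu).2]
  congr 1
  funext c
  simp only [G]
  rw [← Finset.sum_mul, P.sum, one_mul]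

open Classical in
theorem sum_axisInt (P : A.Part) (L : Labels A D) (v : L.V) (u : ℝ → ℝ) (k : Fin P.m) :
    (∑ j, if L.lab (P.a k) j = Lb.vert v then P.axisInt D H u k j else 0) =
      ∫ c, G P D H u (L.p v) k c := by
  by_cases hex : ∃ j w₁, L.lab (P.a k) j = Lb.vert v ∧ w₁ ≠ 0 ∧ axis j w₁ ∈ A.U (P.a k)
  · obtain ⟨j, w₁, h, hw₁, hm⟩ := hex
    rw [Finset.sum_eq_single j, if_pos h, axisInt_eq L P hK hinv u h hw₁ hm]
    · intro i _ hi
      rw [if_neg]
      have h1 : i = 1 - j := by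
        revert hi
        fin_cases i <;> fin_cases j <;> simp
      rw [h1]
      exact L.vert_ne _ j v h
    · simp
  · have h1 : ∀ c : ℂˣ, P.χ k (D.act c (L.p v)) = 0 := by
      intro c
      by_contra h0
      obtain ⟨z, hz, d, hd⟩ := P.supp k _ h0
      have hzU := P.sub k hz
      obtain ⟨j, hj, hzj⟩ := L.vert_axis v (P.a k) z hzU d⁻¹ c (by rw [hd, inv_smul_smul])
      rw [eq_axis hzj] at hzU
      obtain ⟨w₁, hw₁, hm⟩ := exists_ne hzU
      exact hex ⟨j, w₁, hj, hw₁, hm⟩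
    have h2 : G P D H u (L.p v) k = fun _ => 0 := by
      funext c
      rw [G, h1, zero_mul]
    rw [h2, integral_zero]
    refine Finset.sum_eq_zero fun j _ => ?_
    split_ifs with h
    · rw [PolAtlas.Part.axisInt]
      have h3 : ∀ w : ℂ, axis j w ∉ A.U (P.a k) := by
        intro w hw
        obtain ⟨w₁, hw₁, hm⟩ := exists_ne hw
        exact hex ⟨j, w₁, h, hw₁, hm⟩
      simp only [indicator_of_notMem (h3 _), integral_zero]
    · rfl

end Orb

namespace PolAtlas

variable {Y : Type} [MulAction ℂˣ Y] {A : PolAtlas 2 Y}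

/-- M3: the integral over a vertical curve -/
theorem Part.vert_int (P : A.Part) (D : A.DAct) {H : Y → ℝ} (hK : A.IsKahler H)
    (hinv : ∀ (c : ℂˣ) y, ‖(c : ℂ)‖ = 1 → H (D.act c y) = H y) (L : Labels A D) (v : L.V)
    (u : ℝ → ℝ) (hu : ContDiff ℝ ∞ u) :
    P.labInt D H L.lab (Lb.vert v) u = Real.pi * ∫ x in (L.mm v : ℝ)..(L.mp v : ℝ), u x := by
  rw [← Orb.sum_G hK hinv P L v hu.continuous, Part.labInt]
  exact Finset.sum_congr rfl fun k _ => Orb.sum_axisInt hK hinv P L v u k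

end PolAtlas

end

end Pool.Agent.YTDA

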