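import Pool.Agent.YTDA.PartI

/-!
# Existence of smooth partitions of unity on `M = Y / ℂˣ`
-/

namespace Pool.Agent.YTDA

open Complex Set Topology ContDiff MeasureTheory Manifold

noncomputable section

/-- smooth cut-off functions -/
theorem exists_cutoff {n : ℕ} {K U : Set (E n)} (hK : IsCompact K) (hU : IsOpen U) (hKU : K ⊆ U) :
    ∃ (ψ : E n → ℝ) (L : Set (E n)), ContDiff ℝ ∞ ψ ∧ (∀ z, 0 ≤ ψ z) ∧ (∀ z ∈ K, ψ z = 1) ∧
      IsCompact L ∧ L ⊆ U ∧ ∀ z, ψ z ≠ 0 → z ∈ L := by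
  obtain ⟨L, hL, hKL, hLU⟩ := exists_compact_between hK hU hKU
  have hd : Disjoint (interior L)ᶜ K := by
    rw [Set.disjoint_compl_left_iff_subset]
    exact hKL
  obtain ⟨f, hf0, hf1, hf⟩ := exists_contMDiffMap_zero_one_of_isClosed (n := (⊤ : ℕ∞))
    (modelWithCornersSelf ℝ (E n)) isOpen_interior.isClosed_compl hK.isClosed hd
  refine ⟨f, L, f.contMDiff.contDiff, fun z => (hf z).1, fun z hz => hf1 hz, hL, hLU, ?_⟩
  intro z hz
  by_contra hzL
  exact hz (hf0 fun h => hzL (interior_subset h))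

namespace PolAtlas

variable {n : ℕ} {Y : Type} [MulAction ℂˣ Y] {A : PolAtlas n Y}

/-- push a function on a chart to `Y` -/
def push (A : PolAtlas n Y) (a : A.ι) (ψ : E n → ℝ) (y : Y) : ℝ :=
  open Classical in
  if h : ∃ z, z ∈ A.U a ∧ ∃ c : ℂˣ, y = c • A.γ a z then ψ h.choose else 0

theorem push_eq (a : A.ι) (ψ : E n → ℝ) {z : E n} (hz : z ∈ A.U a) (c : ℂˣ) :
    A.push a ψ (c • A.γ a z) = ψ z := by
  have h : ∃ z', z' ∈ A.U a ∧ ∃ c' : ℂˣ, c • A.γ a z = c' • A.γ a z' := ⟨z, hz, c, rfl⟩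
  unfold push
  rw [dif_pos h]
  congr 1
  obtain ⟨h1, c', h2⟩ := h.choose_spec
  have h3 : A.γ a z = (c⁻¹ * c') • A.γ a h.choose := by
    rw [mul_smul, ← h2, inv_smul_smul]
  exact (A.inj a h.choose h1 z hz _ h3).1.symm

theorem push_of_not {a : A.ι} (ψ : E n → ℝ) {y : Y}
    (h : ¬ ∃ z, z ∈ A.U a ∧ ∃ c : ℂˣ, y = c • A.γ a z) : A.push a ψ y = 0 := by
  unfold push
  rw [dif_neg h]

theorem push_inv (a : A.ι) (ψ : E n → ℝ) (c : ℂˣ) (y : Y) :
    A.push a ψ (c • y) = A.push a ψ y := by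
  by_cases h : ∃ z, z ∈ A.U a ∧ ∃ c : ℂˣ, y = c • A.γ a z
  · obtain ⟨z, hz, c', rfl⟩ := h
    rw [smul_smul, push_eq a ψ hz, push_eq a ψ hz]
  · rw [push_of_not ψ h, push_of_not]
    rintro ⟨z, hz, c', h'⟩
    exact h ⟨z, hz, c⁻¹ * c', by rw [mul_smul, ← h', inv_smul_smul]⟩

theorem push_nonneg (a : A.ι) {ψ : E n → ℝ} (h : ∀ z, 0 ≤ ψ z) (y : Y) : 0 ≤ A.push a ψ y := by
  unfold push
  split_ifs
  · exact h _
  · exact le_rfl

theorem push_smooth (ht : A.IsT2) (a b : A.ι) {ψ : E n → ℝ} (hψ : ContDiff ℝ ∞ ψ) {L : Set (E n)}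
    (hL : IsCompact L) (hLU : L ⊆ A.U a) (hs : ∀ z, ψ z ≠ 0 → z ∈ L) :
    ContDiffOn ℝ ∞ (fun z => A.push a ψ (A.γ b z)) (A.U b) := by
  intro z hz
  apply ContDiffAt.contDiffWithinAt
  by_cases hzO : z ∈ A.O b a
  · have h1 : (fun w => A.push a ψ (A.γ b w)) =ᶠ[𝓝 z] fun w => ψ (A.τ b a w) := by
      filter_upwards [(isOpenO b a).mem_nhds hzO] with w hw
      have h2 := γ_τP hw
      have h3 : A.γ b w = (A.h b a w)⁻¹ • A.γ a (A.τ b a w) := by
        rw [h2, inv_smul_smul]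
      rw [h3, push_eq a ψ (τ_memP hw)]
    refine ContDiffAt.congr_of_eventuallyEq ?_ h1
    refine hψ.contDiffAt.comp z ?_
    exact (contDiffOn_real_of_differentiableOn (isOpenO b a) (A.hol_τ b a)).contDiffAt
      ((isOpenO b a).mem_nhds hzO)
  · -- vanishes near z
    have h1 : ∀ z' ∈ L, ∃ V ∈ 𝓝 z, ∃ V' ∈ 𝓝 z', ∀ w ∈ V ∩ A.U b, ∀ w' ∈ V' ∩ A.U a, ∀ c : ℂˣ,
        A.γ a w' ≠ c • A.γ b w := by
      intro z' hz'
      refine ht b a z hz z' (hLU hz') fun c hc => hzO ⟨hz, z', hLU hz', c, hc⟩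
    choose! V hV V' hV' hVV using h1
    obtain ⟨t, htL, hcov⟩ := hL.elim_nhds_subcover V' hV'
    have h2 : (fun w => A.push a ψ (A.γ b w)) =ᶠ[𝓝 z] fun _ => 0 := by
      have h3 : (⋂ x ∈ t, V x) ∈ 𝓝 z :=
        (Filter.biInter_finset_mem t).2 fun x hx => hV x (htL x hx)
      filter_upwards [h3, (A.isOpen_U b).mem_nhds hz] with w hw hwU
      by_cases h : ∃ z', z' ∈ A.U a ∧ ∃ c : ℂˣ, A.γ b w = c • A.γ a z'
      · obtain ⟨z', hz', c, hc⟩ := h
        rw [hc, push_eq a ψ hz']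
        by_contra hne
        have hz'L := hs z' hne
        obtain ⟨x, hx, hxz⟩ := mem_iUnion₂.1 (hcov hz'L)
        refine hVV x (htL x hx) w ⟨mem_iInter₂.1 hw x hx, hwU⟩ z' ⟨hxz, hz'⟩ c⁻¹ ?_
        rw [hc, inv_smul_smul]
      · exact push_of_not ψ h
    exact contDiffAt_const.congr_of_eventuallyEq h2

/-- **Partition of unity.** -/
theorem exists_part (hc : A.IsCpt) (ht : A.IsT2) : Nonempty A.Part := by
  obtain ⟨m, a, K, hK, hcov⟩ := hc
  choose ψ L hψ hψ0 hψ1 hL hLU hψL using fun k =>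
    exists_cutoff (hK k).1 (A.isOpen_U (a k)) (hK k).2
  have hpos : ∀ y, 0 < ∑ k, A.push (a k) (ψ k) y := by
    intro y
    obtain ⟨k, z, hz, c, rfl⟩ := hcov y
    refine Finset.sum_pos' (fun j _ => push_nonneg (a j) (hψ0 j) _) ⟨k, Finset.mem_univ _, ?_⟩
    rw [push_eq (a k) (ψ k) ((hK k).2 hz), hψ1 k z hz]
    exact one_pos
  refine ⟨{
    m := m
    a := a
    χ := fun k y => A.push (a k) (ψ k) y / ∑ j, A.push (a j) (ψ j) y
    K := L
    nonneg := fun k y => div_nonneg (push_nonneg (a k) (hψ0 k) y) (hpos y).le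
    inv := fun k c y => by simp only [push_inv]
    sum := fun y => by
      rw [← Finset.sum_div, div_self (hpos y).ne']
    smooth := fun k b => by
      refine (push_smooth ht (a k) b (hψ k) (hL k) (hLU k) (hψL k)).div ?_
        fun z _ => (hpos _).ne'
      exact ContDiffOn.sum fun j _ => push_smooth ht (a j) b (hψ j) (hL j) (hLU j) (hψL j)
    cpt := hL
    sub := hLU
    supp := fun k y hy => by
      have h1 : A.push (a k) (ψ k) y ≠ 0 := fun h => hy (by simp only [h, zero_div])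
      by_cases h : ∃ z, z ∈ A.U (a k) ∧ ∃ c : ℂˣ, y = c • A.γ (a k) z
      · obtain ⟨z, hz, c, rfl⟩ := h
        rw [push_eq (a k) (ψ k) hz] at h1
        exact ⟨z, hψL k z h1, c, rfl⟩
      · exact absurd (push_of_not (ψ k) h) h1 }⟩

end PolAtlas

end

end Pool.Agent.YTDA
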