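import Pool.Agent.YTDA.T13Defs
import Pool.Agent.YTDA.KrOf

/-!
# T13, M2: the residue theorem on a Kähler surface with circle action
-/

namespace Pool.Agent.YTDA

open Complex Set Topology ContDiff MeasureTheory TopologicalSpace

noncomputable section

namespace ResK

section Ring

variable {Ω : Opens (E 2)}

theorem dzD_ofR (i : Fin 2) (φ : E 2 → ℝ) (hφ : ContDiffOn ℝ ∞ φ Ω) (z : Ω) :
    (dzD i (ofR φ hφ)).1 z = dz i (fun w => (φ w : ℂ)) z :=
  dzD_ofFn i (fun w => (φ w : ℂ)) (ofRealCLM.contDiff.comp_contDiffOn hφ) z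

theorem dzbD_ofR (i : Fin 2) (φ : E 2 → ℝ) (hφ : ContDiffOn ℝ ∞ φ Ω) (z : Ω) :
    (dzbD i (ofR φ hφ)).1 z = dzb i (fun w => (φ w : ℂ)) z :=
  dzbD_ofFn i (fun w => (φ w : ℂ)) (ofRealCLM.contDiff.comp_contDiffOn hφ) z

/-- the coordinate function -/
def co (j : Fin 2) : Sm Ω := ofFn (fun z => z j) (by fun_prop)

theorem co_apply (j : Fin 2) (z : Ω) : (co j : Sm Ω).1 z = (z : E 2) j := rfl

theorem dzD_co (i j : Fin 2) : dzD i (co j : Sm Ω) = if i = j then 1 else 0 := by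
  apply Sm.ext'
  intro z
  have h1 : DifferentiableOn ℂ (fun z : E 2 => z j) Ω := by fun_prop
  have h2 := dzD_ofFn_hol h1 i z
  have h3 : fderiv ℂ (fun z : E 2 => z j) z (Pi.single i 1) = if i = j then 1 else 0 := by
    have h4 : HasFDerivAt (fun z : E 2 => z j)
      (ContinuousLinearMap.proj (R := ℂ) (φ := fun _ : Fin 2 => ℂ) j) (z : E 2) :=
      (ContinuousLinearMap.proj (R := ℂ) (φ := fun _ : Fin 2 => ℂ) j).hasFDerivAt
    rw [h4.fderiv]
    simp [Pi.single_apply, eq_comm]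
  have h5 : (dzD i (co j : Sm Ω)).1 z = if i = j then 1 else 0 := h2.trans h3
  rw [h5]
  split_ifs <;> rfl

theorem dzD_star_co (i j : Fin 2) : dzD i (star (co j) : Sm Ω) = 0 := by
  have h1 : DifferentiableOn ℂ (fun z : E 2 => z j) Ω := by fun_prop
  exact dzD_star_ofFn_hol h1 i

/-- chain rule for real functions of a real function -/
theorem dzD_ofR_comp (i : Fin 2) (u : ℝ → ℝ) (hu : ContDiff ℝ ∞ u) (μ : E 2 → ℝ)
    (hμ : ContDiffOn ℝ ∞ μ Ω) (h1 : ContDiffOn ℝ ∞ (fun z => u (μ z)) Ω)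
    (h2 : ContDiffOn ℝ ∞ (fun z => deriv u (μ z)) Ω) :
    dzD i (ofR (fun z => u (μ z)) h1 : Sm Ω) = ofR (fun z => deriv u (μ z)) h2 *
      dzD i (ofR μ hμ) := by
  apply Sm.ext'
  intro z
  have hd : DifferentiableAt ℝ μ z :=
    (hμ.contDiffAt (Ω.isOpen.mem_nhds z.2)).differentiableAt (by simp)
  have hud : DifferentiableAt ℝ u (μ z) := hu.differentiable (by simp) _
  have e1 : ∀ v, fderiv ℝ (fun w => ((u (μ w) : ℝ) : ℂ)) z v =
      ((deriv u (μ z) : ℝ) : ℂ) * fderiv ℝ (fun w => ((μ w : ℝ) : ℂ)) z v := by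
    intro v
    have h3 : HasFDerivAt (fun w => ((u (μ w) : ℝ) : ℂ))
        (ofRealCLM.comp (deriv u (μ z) • fderiv ℝ μ z)) z := by
      have h4 : HasFDerivAt (fun w => u (μ w)) (deriv u (μ z) • fderiv ℝ μ z) z :=
        hud.hasDerivAt.comp_hasFDerivAt (z : E 2) hd.hasFDerivAt
      exact ofRealCLM.hasFDerivAt.comp (z : E 2) h4
    have h5 : HasFDerivAt (fun w => ((μ w : ℝ) : ℂ)) (ofRealCLM.comp (fderiv ℝ μ z)) z :=
      ofRealCLM.hasFDerivAt.comp (z : E 2) hd.hasFDerivAt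
    rw [h3.fderiv, h5.fderiv]
    simp
  rw [Sm.mul_apply, dzD_ofR, dzD_ofR, ofR_apply]
  unfold dz
  rw [e1, e1]
  ring

/-- (P2) the adjugate of the metric is divergence free -/
theorem div_adj (f : Sm Ω) (j : Fin 2) : ∑ i, dzD i ((hessS f).adjugate j i) = 0 := by
  rw [Fin.sum_univ_two, Matrix.adjugate_fin_two]
  fin_cases j
  · simp only [Fin.zero_eta, Matrix.of_apply, Matrix.cons_val', Matrix.cons_val_zero,
      Matrix.cons_val_one, Matrix.cons_val_fin_one]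
    rw [map_neg, dzD_hessS f 0 1 1]
    simp
  · simp only [Fin.mk_one, Matrix.of_apply, Matrix.cons_val', Matrix.cons_val_zero,
      Matrix.cons_val_one, Matrix.cons_val_fin_one]
    rw [map_neg, dzD_hessS f 0 1 0]
    simp

/-- the moment map in the ring -/
def muS (f : Sm Ω) (k : Fin 2 → ℤ) (m : ℤ) : Sm Ω :=
  ((m : ℂ) • (1 : Sm Ω)) + ∑ j, ((k j : ℂ) • (co j * dzD j f))

theorem star_muS (f : Sm Ω) (hf : star f = f) (k : Fin 2 → ℤ) (m : ℤ) :
    star (muS f k m) = ((m : ℂ) • (1 : Sm Ω)) + ∑ j, ((k j : ℂ) • (star (co j) * dzbD j f)) := by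
  unfold muS
  rw [star_add, star_smul, star_one, star_sum]
  have h1 : star (m : ℂ) = m := by simp
  rw [h1]
  congr 1
  refine Finset.sum_congr rfl fun j _ => ?_
  have h2 : star (k j : ℂ) = k j := by simp
  rw [star_smul, star_mul', star_dzD, hf, h2]

/-- (P1) -/
theorem dzD_muS (f : Sm Ω) (hf : star f = f) (k : Fin 2 → ℤ) (m : ℤ)
    (hr : star (muS f k m) = muS f k m) (i : Fin 2) :
    dzD i (muS f k m) = ∑ j, (k j : ℂ) • (star (co j) * hessS f i j) := by
  rw [← hr, star_muS f hf, map_add, map_sum]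
  have h1 : dzD i ((m : ℂ) • (1 : Sm Ω)) = 0 := by
    rw [Derivation.map_smul, Derivation.map_one_eq_zero, smul_zero]
  rw [h1, zero_add]
  refine Finset.sum_congr rfl fun j _ => ?_
  rw [Derivation.map_smul, Derivation.leibniz, dzD_star_co, smul_zero, add_zero, hessS_apply,
    smul_eq_mul]

theorem adj_dzD_muS (f : Sm Ω) (hf : star f = f) (k : Fin 2 → ℤ) (m : ℤ)
    (hr : star (muS f k m) = muS f k m) (j : Fin 2) :
    ∑ i, (hessS f).adjugate j i * dzD i (muS f k m) =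
      (k j : ℂ) • (star (co j) * (hessS f).det) := by
  simp_rw [dzD_muS f hf k m hr, Finset.mul_sum]
  rw [Finset.sum_comm]
  have h1 : ∀ l, ∑ i, (hessS f).adjugate j i * ((k l : ℂ) • (star (co l) * hessS f i l)) =
      (k l : ℂ) • (star (co l) * ((hessS f).adjugate * hessS f) j l) := by
    intro l
    rw [Matrix.mul_apply, Finset.mul_sum, Finset.smul_sum]
    refine Finset.sum_congr rfl fun i _ => ?_
    rw [mul_smul_comm]
    congr 1
    ring
  simp_rw [h1, Matrix.adjugate_mul, Matrix.smul_apply, Matrix.one_apply]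
  rw [Finset.sum_eq_single j]
  · simp
  · intro l _ hl
    simp [Ne.symm hl]
  · simp

end Ring

section Chart

variable {n : ℕ} {Y : Type} [MulAction ℂˣ Y] {A : PolAtlas n Y}

/-- `exp w` as a unit -/
def expU (w : ℂ) : ℂˣ := Units.mk0 (exp w) (exp_ne_zero w)

theorem dact_expU (k : Fin n → ℤ) (w : ℂ) (z : E n) :
    dact k (expU w) z = fun j => exp ((k j : ℂ) * w) * z j := by
  ext j
  unfold dact expU
  rw [Units.val_zpow_eq_zpow_val, Units.val_mk0, Complex.exp_int_mul]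

theorem hasDerivAt_dact (k : Fin n → ℤ) (v : ℂ) (z : E n) :
    HasDerivAt (fun t : ℝ => dact k (expU (t * v)) z) (fun j => (k j : ℂ) * v * z j) 0 := by
  simp_rw [dact_expU]
  rw [hasDerivAt_pi]
  intro j
  have h1 : HasDerivAt (fun t : ℝ => (k j : ℂ) * ((t : ℂ) * v)) ((k j : ℂ) * v) 0 := by
    have h2 : HasDerivAt (fun t : ℝ => (t : ℂ)) 1 0 := Complex.ofRealCLM.hasDerivAt
    simpa using (h2.mul_const v).const_mul (k j : ℂ)
  have h3 := (h1.cexp).mul_const (z j)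
  simpa using h3

variable {H : Y → ℝ} (D : A.DAct)

theorem smoothAt_pot (hK : A.IsKahler H) {a : A.ι} {z : E n} (hz : z ∈ A.U a) :
    ContDiffAt ℝ ∞ (A.pot H a) z := (hK.smooth a).contDiffAt ((A.isOpen_U a).mem_nhds hz)

theorem dact_zero (k : Fin n → ℤ) (v : ℂ) (z : E n) : dact k (expU ((0 : ℝ) * v)) z = z := by
  rw [dact_expU]
  simp

theorem hasDerivAt_pot (hK : A.IsKahler H) {a : A.ι} {z : E n} (hz : z ∈ A.U a) (v : ℂ) :
    HasDerivAt (fun t : ℝ => A.pot H a (dact (D.k a) (expU (t * v)) z))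
      (fderiv ℝ (A.pot H a) z (fun j => (D.k a j : ℂ) * v * z j)) 0 := by
  have h1 : DifferentiableAt ℝ (A.pot H a) (dact (D.k a) (expU ((0 : ℝ) * v)) z) := by
    rw [dact_zero]
    exact (smoothAt_pot hK hz).differentiableAt (by simp)
  have h2 := h1.hasFDerivAt.comp_hasDerivAt (0 : ℝ) (hasDerivAt_dact (D.k a) v z)
  rw [dact_zero] at h2
  exact h2

/-- the potential along the action -/
theorem pot_dact (hK : A.IsKahler H) {a : A.ι} {z : E n} (hz : z ∈ A.U a) (c : ℂˣ) :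
    Real.log (H (D.act c (A.γ a z))) =
      D.m a * Real.log (‖(c : ℂ)‖ ^ 2) + A.pot H a (dact (D.k a) c z) := by
  rw [D.act_γ a z hz c, hK.hom]
  have h1 : 0 < ‖(c : ℂ)‖ := norm_pos_iff.2 c.ne_zero
  have h2 : ‖((c ^ D.m a : ℂˣ) : ℂ)‖ ^ 2 = (‖(c : ℂ)‖ ^ 2) ^ (D.m a) := by
    rw [Units.val_zpow_eq_zpow_val, norm_zpow, ← zpow_natCast, ← zpow_natCast, zpow_comm]
  rw [h2, Real.log_mul (by positivity) (hK.pos _).ne', Real.log_zpow]
  rfl

theorem norm_expU (w : ℂ) : ‖((expU w : ℂˣ) : ℂ)‖ = Real.exp w.re := Complex.norm_exp w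

/-- `∑ k_j z_j ∂_j φ` is real -/
theorem wdz_real (hK : A.IsKahler H)
    (hinv : ∀ (c : ℂˣ) y, ‖(c : ℂ)‖ = 1 → H (D.act c y) = H y) {a : A.ι} {z : E n}
    (hz : z ∈ A.U a) : (wdz (D.k a) (fun w => (A.pot H a w : ℂ)) z).im = 0 := by
  have h1 := hasDerivAt_pot D hK hz I
  have h2 : (fun t : ℝ => A.pot H a (dact (D.k a) (expU (t * I)) z)) =
      fun _ => A.pot H a z := by
    ext t
    have h3 := pot_dact D hK hz (expU (t * I))
    have h4 : ‖((expU (t * I) : ℂˣ) : ℂ)‖ = 1 := by rw [norm_expU]; simp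
    rw [hinv _ _ h4, h4] at h3
    simp only [one_pow, Real.log_one, mul_zero, zero_add] at h3
    exact h3.symm
  rw [h2] at h1
  have h5 := h1.unique (hasDerivAt_const _ _)
  have hd : DifferentiableAt ℝ (A.pot H a) z :=
    (smoothAt_pot hK hz).differentiableAt (by simp)
  have h6 : fderiv ℝ (fun w => (A.pot H a w : ℂ)) z (fun j => (D.k a j : ℂ) * I * z j) = 0 := by
    have h7 : HasFDerivAt (fun w => (A.pot H a w : ℂ)) (ofRealCLM.comp (fderiv ℝ (A.pot H a) z)) z :=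
      ofRealCLM.hasFDerivAt.comp z hd.hasFDerivAt
    rw [h7.fderiv]
    simp [h5]
  rw [fderiv_eq_dz_dzb] at h6
  have h8 : ∀ j, dzb j (fun w => (A.pot H a w : ℂ)) z =
      (starRingEnd ℂ) (dz j (fun w => (A.pot H a w : ℂ)) z) := by
    intro j
    have h9 : ∀ v, (starRingEnd ℂ) (fderiv ℝ (fun w => (A.pot H a w : ℂ)) z v) =
        fderiv ℝ (fun w => (A.pot H a w : ℂ)) z v := by
      intro v
      have h7 : HasFDerivAt (fun w => (A.pot H a w : ℂ))
          (ofRealCLM.comp (fderiv ℝ (A.pot H a) z)) z :=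
        ofRealCLM.hasFDerivAt.comp z hd.hasFDerivAt
      rw [h7.fderiv]
      simp
    unfold dz dzb
    have h10 : (starRingEnd ℂ) 2 = 2 := map_ofNat _ 2
    rw [map_div₀, map_sub, map_mul, h9, h9, conj_I, h10]
    ring
  have h11 : ∑ j, (dz j (fun w => (A.pot H a w : ℂ)) z * ((D.k a j : ℂ) * I * z j) +
      dzb j (fun w => (A.pot H a w : ℂ)) z * (starRingEnd ℂ) ((D.k a j : ℂ) * I * z j)) =
      I * (wdz (D.k a) (fun w => (A.pot H a w : ℂ)) z -
        (starRingEnd ℂ) (wdz (D.k a) (fun w => (A.pot H a w : ℂ)) z)) := by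
    unfold wdz
    rw [map_sum, ← Finset.sum_sub_distrib, Finset.mul_sum]
    refine Finset.sum_congr rfl fun j _ => ?_
    rw [h8 j]
    simp only [map_mul, map_intCast, conj_I]
    ring
  rw [h11, Complex.sub_conj] at h6
  have h12 : wdz (D.k a) (fun w => (A.pot H a w : ℂ)) z = wdz (D.k a)
    (fun w => (A.pot H a w : ℂ)) z := rfl
  have h13 : ((2 * (wdz (D.k a) (fun w => (A.pot H a w : ℂ)) z).im : ℝ) : ℂ) * I = 0 := by
    rcases mul_eq_zero.1 h6 with h | h
    · exact absurd h I_ne_zero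
    · exact h
  have h14 := (mul_eq_zero.1 h13).resolve_right I_ne_zero
  have h15 : 2 * (wdz (D.k a) (fun w => (A.pot H a w : ℂ)) z).im = 0 := by exact_mod_cast h14
  linarith

theorem mu_coe (hK : A.IsKahler H)
    (hinv : ∀ (c : ℂˣ) y, ‖(c : ℂ)‖ = 1 → H (D.act c y) = H y) {a : A.ι} {z : E n}
    (hz : z ∈ A.U a) :
    ((A.mu D H a z : ℝ) : ℂ) = D.m a + wdz (D.k a) (fun w => (A.pot H a w : ℂ)) z := by
  apply Complex.ext
  · simp [PolAtlas.mu, mom]
  · simp [wdz_real D hK hinv hz]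

/-- `μ` is half of the derivative of `log H` along the action -/
theorem hasDerivAt_act (hK : A.IsKahler H) {a : A.ι} {z : E n} (hz : z ∈ A.U a) :
    HasDerivAt (fun t : ℝ => Real.log (H (D.act (expU t) (A.γ a z)))) (2 * A.mu D H a z) 0 := by
  have h1 := hasDerivAt_pot D hK hz 1
  simp only [mul_one] at h1
  have h2 : (fun t : ℝ => Real.log (H (D.act (expU t) (A.γ a z)))) = fun t : ℝ =>
      D.m a * (2 * t) + A.pot H a (dact (D.k a) (expU t) z) := by
    ext t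
    rw [pot_dact D hK hz, norm_expU, ofReal_re, Real.log_pow, Real.log_exp]
    push_cast
    ring
  rw [h2]
  have h3 : HasDerivAt (fun t : ℝ => (D.m a : ℝ) * (2 * t)) ((D.m a : ℝ) * 2) 0 := by
    simpa using ((hasDerivAt_id (0 : ℝ)).const_mul 2).const_mul (D.m a : ℝ)
  refine (h3.add h1).congr_deriv ?_
  have hd : DifferentiableAt ℝ (A.pot H a) z :=
    (smoothAt_pot hK hz).differentiableAt (by simp)
  have h4 : (fderiv ℝ (A.pot H a) z (fun j => (D.k a j : ℂ) * z j) : ℂ) =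
      fderiv ℝ (fun w => (A.pot H a w : ℂ)) z (fun j => (D.k a j : ℂ) * z j) := by
    have h7 : HasFDerivAt (fun w => (A.pot H a w : ℂ)) (ofRealCLM.comp (fderiv ℝ (A.pot H a) z)) z :=
      ofRealCLM.hasFDerivAt.comp z hd.hasFDerivAt
    rw [h7.fderiv]
    rfl
  have h5 : ∀ j, dzb j (fun w => (A.pot H a w : ℂ)) z =
      (starRingEnd ℂ) (dz j (fun w => (A.pot H a w : ℂ)) z) := by
    intro j
    have h9 : ∀ v, (starRingEnd ℂ) (fderiv ℝ (fun w => (A.pot H a w : ℂ)) z v) =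
        fderiv ℝ (fun w => (A.pot H a w : ℂ)) z v := by
      intro v
      have h7 : HasFDerivAt (fun w => (A.pot H a w : ℂ))
          (ofRealCLM.comp (fderiv ℝ (A.pot H a) z)) z :=
        ofRealCLM.hasFDerivAt.comp z hd.hasFDerivAt
      rw [h7.fderiv]
      simp
    unfold dz dzb
    have h10 : (starRingEnd ℂ) 2 = 2 := map_ofNat _ 2
    rw [map_div₀, map_sub, map_mul, h9, h9, conj_I, h10]
    ring
  have h6 : (fderiv ℝ (A.pot H a) z (fun j => (D.k a j : ℂ) * z j) : ℂ) =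
      ((2 * (wdz (D.k a) (fun w => (A.pot H a w : ℂ)) z).re : ℝ) : ℂ) := by
    rw [h4, fderiv_eq_dz_dzb, ← Complex.add_conj]
    unfold wdz
    rw [map_sum, ← Finset.sum_add_distrib]
    refine Finset.sum_congr rfl fun j _ => ?_
    rw [h5 j]
    simp only [map_mul, map_intCast]
    ring
  have h7 : fderiv ℝ (A.pot H a) z (fun j => (D.k a j : ℂ) * z j) =
      2 * (wdz (D.k a) (fun w => (A.pot H a w : ℂ)) z).re := by exact_mod_cast h6
  rw [h7]
  unfold PolAtlas.mu mom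
  ring

theorem mu_τ (hK : A.IsKahler H) {a b : A.ι} {z : E n} (hz : z ∈ A.O a b) :
    A.mu D H b (A.τ a b z) = A.mu D H a z := by
  have h1 := hasDerivAt_act D hK (PolAtlas.τ_memP hz)
  have h2 := hasDerivAt_act D hK hz.1
  have h3 : (fun t : ℝ => Real.log (H (D.act (expU t) (A.γ b (A.τ a b z))))) = fun t : ℝ =>
      Real.log (‖((A.h a b z : ℂˣ) : ℂ)‖ ^ 2) + Real.log (H (D.act (expU t) (A.γ a z))) := by
    ext t
    have h5 : ‖((A.h a b z : ℂˣ) : ℂ)‖ ^ 2 ≠ 0 :=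
      pow_ne_zero 2 (norm_ne_zero_iff.2 (A.h a b z).ne_zero)
    rw [PolAtlas.γ_τP hz, D.act_smul, hK.hom, Real.log_mul h5 (hK.pos _).ne']
  rw [h3] at h1
  have h4 := h1.unique (h2.const_add _)
  linarith

end Chart

section Log

variable {n : ℕ}

theorem fderiv_real {F : Type*} [NormedAddCommGroup F] [NormedSpace ℂ F] {t : E n → F} {z : E n}
    (ht : DifferentiableAt ℂ t z) (v : E n) : fderiv ℝ t z v = fderiv ℂ t z v := by
  rw [ht.fderiv_restrictScalars ℝ]
  rfl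

theorem single_I (i : Fin n) : (Pi.single i I : E n) = I • (Pi.single i 1 : E n) := by
  rw [← Pi.single_smul, smul_eq_mul, mul_one]

theorem dzb_log_norm {g : E n → ℂ} {z : E n} (hg : DifferentiableAt ℂ g z) (h0 : g z ≠ 0)
    (j : Fin n) : dzb j (fun w => ((Real.log (‖g w‖ ^ 2) : ℝ) : ℂ)) z =
      (starRingEnd ℂ) (fderiv ℂ g z (Pi.single j 1) / g z) := by
  have hgR : HasFDerivAt g (fderiv ℝ g z) z := (hg.restrictScalars ℝ).hasFDerivAt
  have h1 : HasFDerivAt (fun w => ‖g w‖ ^ 2) (2 • (innerSL ℝ (g z)).comp (fderiv ℝ g z)) z :=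
    hgR.norm_sq
  have h2 : HasFDerivAt (fun w => Real.log (‖g w‖ ^ 2))
      ((‖g z‖ ^ 2)⁻¹ • (2 • (innerSL ℝ (g z)).comp (fderiv ℝ g z))) z :=
    h1.log (by simpa using h0)
  have h3 : HasFDerivAt (fun w => ((Real.log (‖g w‖ ^ 2) : ℝ) : ℂ))
      (Complex.ofRealCLM.comp ((‖g z‖ ^ 2)⁻¹ • (2 • (innerSL ℝ (g z)).comp (fderiv ℝ g z)))) z :=
    Complex.ofRealCLM.hasFDerivAt.comp z h2
  have key : ∀ v, fderiv ℝ (fun w => ((Real.log (‖g w‖ ^ 2) : ℝ) : ℂ)) z v =
      fderiv ℂ g z v / g z + (starRingEnd ℂ) (fderiv ℂ g z v / g z) := by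
    intro v
    rw [h3.fderiv]
    have h4 : fderiv ℝ g z v = fderiv ℂ g z v := fderiv_real hg v
    have hn : ((‖g z‖ ^ 2 : ℝ) : ℂ) = g z * (starRingEnd ℂ) (g z) := by
      rw [mul_conj, normSq_eq_norm_sq]
    have hc : (starRingEnd ℂ) (g z) ≠ 0 := by simpa using h0
    rw [Complex.add_conj]
    have h5 : (Complex.ofRealCLM.comp ((‖g z‖ ^ 2)⁻¹ • (2 • (innerSL ℝ (g z)).comp
        (fderiv ℝ g z)))) v = (((‖g z‖ ^ 2)⁻¹ * (2 * inner ℝ (g z) (fderiv ℂ g z v)) : ℝ) : ℂ) := by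
      simp [h4]
      ring_nf
    rw [h5]
    congr 1
    rw [Complex.inner]
    have h6 : fderiv ℂ g z v / g z = ((starRingEnd ℂ) (g z) * fderiv ℂ g z v) /
        ((‖g z‖ ^ 2 : ℝ) : ℂ) := by
      rw [hn]; field_simp
    rw [h6, Complex.div_ofReal_re]
    ring
  unfold dzb
  rw [key, key, single_I, map_smul, smul_eq_mul]
  simp only [map_div₀, map_mul, conj_I]
  have hc : (starRingEnd ℂ) (g z) ≠ 0 := by simpa using h0
  field_simp
  linear_combination (fderiv ℂ g z (Pi.single j 1) * (starRingEnd ℂ) (g z) -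
    (starRingEnd ℂ) (fderiv ℂ g z (Pi.single j 1)) * g z) * I_sq

theorem dzb_log_coord (j l : Fin n) {z : E n} (hz : z l ≠ 0) :
    dzb j (fun w => ((Real.log (‖w l‖ ^ 2) : ℝ) : ℂ)) z =
      if j = l then 1 / (starRingEnd ℂ) (z l) else 0 := by
  have h4 : HasFDerivAt (fun z : E n => z l)
      (ContinuousLinearMap.proj (R := ℂ) (φ := fun _ : Fin n => ℂ) l) z :=
      (ContinuousLinearMap.proj (R := ℂ) (φ := fun _ : Fin n => ℂ) l).hasFDerivAt
  rw [dzb_log_norm h4.differentiableAt hz, h4.fderiv]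
  by_cases h : j = l
  · subst h
    simp
  · rw [if_neg h]
    simp [Ne.symm h]

theorem diff_log_coord (l : Fin n) {z : E n} (hz : z l ≠ 0) :
    DifferentiableAt ℝ (fun w : E n => Real.log (‖w l‖ ^ 2)) z := by
  have h4 : HasFDerivAt (fun z : E n => z l)
      (ContinuousLinearMap.proj (R := ℝ) (φ := fun _ : Fin n => ℂ) l) z :=
      (ContinuousLinearMap.proj (R := ℝ) (φ := fun _ : Fin n => ℂ) l).hasFDerivAt
  exact (h4.norm_sq.log (by simpa using hz)).differentiableAt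

/-- chain rule for `∂̄` -/
theorem dzb_comp_hol {t : E n → E n} {z : E n} (ht : DifferentiableAt ℂ t z) {f : E n → ℂ}
    (hf : DifferentiableAt ℝ f (t z)) (i : Fin n) :
    dzb i (fun w => f (t w)) z =
      ∑ l, dzb l f (t z) * (starRingEnd ℂ) (fderiv ℂ t z (Pi.single i 1) l) := by
  have h2 : ∀ v, fderiv ℝ (fun w => f (t w)) z v = fderiv ℝ f (t z) (fderiv ℂ t z v) := by
    intro v
    have h3 := hf.hasFDerivAt.comp z (ht.hasFDerivAt.restrictScalars ℝ)
    have h4 : fderiv ℝ (fun w => f (t w)) z =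
        (fderiv ℝ f (t z)).comp ((fderiv ℂ t z).restrictScalars ℝ) := h3.fderiv
    rw [h4]
    rfl
  have h6 : dzb i (fun w => f (t w)) z =
      (fderiv ℝ (fun w => f (t w)) z (Pi.single i 1) +
        I * fderiv ℝ (fun w => f (t w)) z (Pi.single i I)) / 2 := rfl
  rw [h6, h2, h2, single_I, map_smul, fderiv_eq_dz_dzb, fderiv_eq_dz_dzb, Finset.mul_sum,
    ← Finset.sum_add_distrib, Finset.sum_div]
  refine Finset.sum_congr rfl fun l _ => ?_
  simp only [Pi.smul_apply, smul_eq_mul, map_mul, conj_I]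
  linear_combination ((dz l f (t z) * fderiv ℂ t z (Pi.single i 1) l) / 2 -
    dzb l f (t z) * (starRingEnd ℂ) (fderiv ℂ t z (Pi.single i 1) l) / 2) * I_sq

theorem dzb_add {f g : E n → ℂ} {z : E n} (hf : DifferentiableAt ℝ f z)
    (hg : DifferentiableAt ℝ g z) (i : Fin n) :
    dzb i (fun w => f w + g w) z = dzb i f z + dzb i g z := by
  unfold dzb
  rw [fderiv_fun_add hf hg]
  simp only [_root_.add_apply]
  ring

theorem dzb_const_mul {f : E n → ℂ} {z : E n} (hf : DifferentiableAt ℝ f z) (c : ℂ)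
    (i : Fin n) : dzb i (fun w => c * f w) z = c * dzb i f z := by
  unfold dzb
  rw [fderiv_const_mul hf]
  simp only [_root_.smul_apply, smul_eq_mul]
  ring

end Log

section Main

variable {Y : Type} [MulAction ℂˣ Y] {A : PolAtlas 2 Y} {H : Y → ℝ} (D : A.DAct)

/-- the domain of a chart -/
def dom (A : PolAtlas 2 Y) (a : A.ι) : Opens (E 2) := ⟨A.U a, A.isOpen_U a⟩

theorem smooth_dom (hK : A.IsKahler H) (a : A.ι) : ContDiffOn ℝ ∞ (A.pot H a) (dom A a) :=
  hK.smooth a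

/-- the potential as an element of the ring -/
def potS (hK : A.IsKahler H) (a : A.ι) : Sm (dom A a) := ofR (A.pot H a) (smooth_dom hK a)

theorem star_potS (hK : A.IsKahler H) (a : A.ι) : star (potS hK a) = potS hK a := star_ofR _ _

theorem adj_apply {Ω : Opens (E 2)} (g : Matrix (Fin 2) (Fin 2) (Sm Ω)) (i j : Fin 2) (z : Ω) :
    (g.adjugate i j).1 z = (evM z g).adjugate i j := by
  have h := RingHom.map_adjugate (evalS z).toRingHom g
  have h2 := congrFun (congrFun h i) j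
  exact h2

theorem adjS_apply (hK : A.IsKahler H) (a : A.ι) (i j : Fin 2) (z : dom A a) :
    ((hessS (potS hK a)).adjugate i j).1 z = (hess (A.pot H a) z).adjugate i j := by
  rw [adj_apply]
  unfold potS
  rw [← hess_eq]

theorem muS_apply (hK : A.IsKahler H)
    (hinv : ∀ (c : ℂˣ) y, ‖(c : ℂ)‖ = 1 → H (D.act c y) = H y) (a : A.ι) (z : dom A a) :
    (muS (potS hK a) (D.k a) (D.m a)).1 z = ((A.mu D H a z : ℝ) : ℂ) := by
  rw [mu_coe D hK hinv z.2]
  unfold muS wdz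
  rw [Sm.add_apply, Sm.sum_apply]
  congr 1
  · show (D.m a : ℂ) * 1 = _
    rw [mul_one]
  · refine Finset.sum_congr rfl fun j _ => ?_
    show (D.k a j : ℂ) * ((co j : Sm (dom A a)).1 z * (dzD j (potS hK a)).1 z) = _
    unfold potS
    rw [dzD_ofR, co_apply]
    ring

theorem star_muS_eq (hK : A.IsKahler H)
    (hinv : ∀ (c : ℂˣ) y, ‖(c : ℂ)‖ = 1 → H (D.act c y) = H y) (a : A.ι) :
    star (muS (potS hK a) (D.k a) (D.m a)) = muS (potS hK a) (D.k a) (D.m a) := by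
  apply Sm.ext'
  intro z
  rw [star_apply, muS_apply D hK hinv, conj_ofReal]

theorem smooth_mu (hK : A.IsKahler H)
    (hinv : ∀ (c : ℂˣ) y, ‖(c : ℂ)‖ = 1 → H (D.act c y) = H y) (a : A.ι) :
    ContDiffOn ℝ ∞ (A.mu D H a) (A.U a) := by
  have h1 : ContDiffOn ℝ ∞ (fun z => (ext (muS (potS hK a) (D.k a) (D.m a)).1 z).re) (dom A a) :=
    reCLM.contDiff.comp_contDiffOn (muS (potS hK a) (D.k a) (D.m a)).2
  refine h1.congr fun z hz => ?_
  rw [ext_mk _ hz, muS_apply D hK hinv]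
  simp

theorem muS_eq_ofR (hK : A.IsKahler H)
    (hinv : ∀ (c : ℂˣ) y, ‖(c : ℂ)‖ = 1 → H (D.act c y) = H y) (a : A.ι)
    (h : ContDiffOn ℝ ∞ (A.mu D H a) (dom A a)) :
    (ofR (A.mu D H a) h : Sm (dom A a)) = muS (potS hK a) (D.k a) (D.m a) := by
  apply Sm.ext'
  intro z
  rw [ofR_apply, muS_apply D hK hinv]

theorem det_apply (hK : A.IsKahler H) (a : A.ι) (z : dom A a) :
    ((hessS (potS hK a)).det).1 z = ((A.rho H a z : ℝ) : ℂ) := by
  unfold potS
  rw [← det_hess_eq]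
  have := (Complex.pos_iff.1 (hK.posDef a z z.2).det_pos).2
  unfold PolAtlas.rho
  apply Complex.ext
  · simp
  · simp [← this]

/-- the pole part of the vector field -/
def Wf (H : Y → ℝ) (u : ℝ → ℝ) (M : A.ι → Fin 2 → ℝ) (a : A.ι) (i j : Fin 2) (z : E 2) : ℂ :=
  (u (A.mu D H a z) : ℂ) * ((hess (A.pot H a) z).adjugate j i * (M a j : ℂ))

/-- the smooth part of the vector field -/
def Rf (H : Y → ℝ) (u : ℝ → ℝ) (G : A.ι → E 2 → ℝ) (a : A.ι) (i : Fin 2) (z : E 2) : ℂ :=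
  (u (A.mu D H a z) : ℂ) * ∑ j, (hess (A.pot H a) z).adjugate j i *
    dzb j (fun w => (G a w : ℂ)) z

section RingEls

variable (hK : A.IsKahler H)
  (hinv : ∀ (c : ℂˣ) y, ‖(c : ℂ)‖ = 1 → H (D.act c y) = H y)
  {u : ℝ → ℝ} (hu : ContDiff ℝ ∞ u) (a : A.ι)
  {G : A.ι → E 2 → ℝ} (hG : ∀ a, ContDiffOn ℝ ∞ (G a) (A.U a)) (M : A.ι → Fin 2 → ℝ)

include hK hinv in
theorem smooth_umu {u : ℝ → ℝ} (hu : ContDiff ℝ ∞ u) :
    ContDiffOn ℝ ∞ (fun z => u (A.mu D H a z)) (dom A a) :=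
  hu.comp_contDiffOn (smooth_mu D hK hinv a)

/-- `W` in the ring -/
def WS (i j : Fin 2) : Sm (dom A a) :=
  ofR _ (smooth_umu D hK hinv a hu) * ((hessS (potS hK a)).adjugate j i * ((M a j : ℂ) • 1))

/-- `G` in the ring -/
def GS : Sm (dom A a) :=
  ofR (G a) (show ContDiffOn ℝ ∞ (G a) (dom A a) from hG a)

theorem dzbD_GS (j : Fin 2) (z : dom A a) :
    (dzbD j (GS a hG)).1 z = dzb j (fun w => (G a w : ℂ)) z :=
  dzbD_ofR j (G a) _ z

/-- `R` in the ring -/
def RS (i : Fin 2) : Sm (dom A a) :=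
  ofR _ (smooth_umu D hK hinv a hu) * ∑ j, (hessS (potS hK a)).adjugate j i *
    dzbD j (GS a hG)

theorem WS_apply (i j : Fin 2) (z : dom A a) :
    (WS D hK hinv hu a M i j).1 z = Wf D H u M a i j z := by
  unfold WS Wf
  rw [Sm.mul_apply, Sm.mul_apply, ofR_apply, adjS_apply]
  congr 2
  show (M a j : ℂ) * 1 = _
  rw [mul_one]

theorem RS_apply (i : Fin 2) (z : dom A a) :
    (RS D hK hinv hu a hG i).1 z = Rf D H u G a i z := by
  unfold RS Rf
  rw [Sm.mul_apply, Sm.sum_apply, ofR_apply]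
  congr 1
  refine Finset.sum_congr rfl fun j _ => ?_
  rw [Sm.mul_apply, adjS_apply, dzbD_GS]

include hK hinv hu in
theorem smooth_Wf (i j : Fin 2) : ContDiffOn ℝ ∞ (Wf D H u M a i j) (A.U a) := by
  refine (WS D hK hinv hu a M i j).2.congr fun z hz => ?_
  rw [ext_mk _ hz, WS_apply]

include hK hinv hu hG in
theorem smooth_Rf (i : Fin 2) : ContDiffOn ℝ ∞ (Rf D H u G a i) (A.U a) := by
  refine (RS D hK hinv hu a hG i).2.congr fun z hz => ?_
  rw [ext_mk _ hz, RS_apply]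

theorem dz_Wf (i j : Fin 2) (l : Fin 2) (z : dom A a) :
    dz l (Wf D H u M a i j) z = (dzD l (WS D hK hinv hu a M i j)).1 z := by
  rw [dzD_apply]
  apply dz_congr
  refine Filter.eventuallyEq_of_mem ((dom A a).isOpen.mem_nhds z.2) fun w hw => ?_
  rw [ext_mk _ hw, WS_apply]

theorem dz_Rf (i : Fin 2) (l : Fin 2) (z : dom A a) :
    dz l (Rf D H u G a i) z = (dzD l (RS D hK hinv hu a hG i)).1 z := by
  rw [dzD_apply]
  apply dz_congr
  refine Filter.eventuallyEq_of_mem ((dom A a).isOpen.mem_nhds z.2) fun w hw => ?_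
  rw [ext_mk _ hw, RS_apply]

theorem hess_G (i j : Fin 2) (z : dom A a) :
    hess (G a) z i j = (dzD i (dzbD j (GS a hG))).1 z :=
  hess_apply_eq (G a) _ z i j

/-- the divergence computed in the ring -/
theorem div_WS (j : Fin 2) (h1 : ContDiffOn ℝ ∞ (fun z => deriv u (A.mu D H a z)) (dom A a)) :
    ∑ i, dzD i (WS D hK hinv hu a M i j) =
      ofR _ h1 * ((D.k a j : ℂ) • (star (co j) * (hessS (potS hK a)).det)) * ((M a j : ℂ) • 1) := by
  have hμ := smooth_mu D hK hinv a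
  have e1 : ∀ i, dzD i (WS D hK hinv hu a M i j) =
      ofR _ (smooth_umu D hK hinv a hu) * ((M a j : ℂ) • 1) *
        dzD i ((hessS (potS hK a)).adjugate j i) +
      ofR _ h1 * ((hessS (potS hK a)).adjugate j i *
        dzD i (muS (potS hK a) (D.k a) (D.m a))) * ((M a j : ℂ) • 1) := by
    intro i
    have e2 : dzD i ((M a j : ℂ) • (1 : Sm (dom A a))) = 0 := by
      rw [Derivation.map_smul, Derivation.map_one_eq_zero, smul_zero]
    unfold WS
    rw [Derivation.leibniz, Derivation.leibniz, e2, dzD_ofR_comp i u hu (A.mu D H a) hμ _ h1,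
      muS_eq_ofR D hK hinv a hμ]
    simp only [smul_eq_mul, mul_zero, zero_add]
    ring
  simp_rw [e1]
  rw [Finset.sum_add_distrib, ← Finset.mul_sum, div_adj, mul_zero, zero_add, ← Finset.sum_mul,
    ← Finset.mul_sum, adj_dzD_muS (potS hK a) (star_potS hK a) _ _ (star_muS_eq D hK hinv a)]

theorem div_RS (h1 : ContDiffOn ℝ ∞ (fun z => deriv u (A.mu D H a z)) (dom A a)) :
    ∑ i, dzD i (RS D hK hinv hu a hG i) =
      ofR _ (smooth_umu D hK hinv a hu) * (∑ i, ∑ j, (hessS (potS hK a)).adjugate j i *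
        dzD i (dzbD j (GS a hG))) +
      ofR _ h1 * (hessS (potS hK a)).det * ∑ j, ((D.k a j : ℂ) • (star (co j))) *
        dzbD j (GS a hG) := by
  have hμ := smooth_mu D hK hinv a
  have e1 : ∀ i, dzD i (RS D hK hinv hu a hG i) =
      ofR _ (smooth_umu D hK hinv a hu) * (∑ j, (hessS (potS hK a)).adjugate j i *
        dzD i (dzbD j (GS a hG))) +
      ofR _ (smooth_umu D hK hinv a hu) * (∑ j, dzD i ((hessS (potS hK a)).adjugate j i) *
        dzbD j (GS a hG)) +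
      ofR _ h1 * (∑ j, ((hessS (potS hK a)).adjugate j i *
        dzD i (muS (potS hK a) (D.k a) (D.m a))) * dzbD j (GS a hG)) := by
    intro i
    unfold RS
    rw [Derivation.leibniz, map_sum, dzD_ofR_comp i u hu (A.mu D H a) hμ _ h1,
      muS_eq_ofR D hK hinv a hμ]
    simp only [smul_eq_mul, Derivation.leibniz, Finset.sum_add_distrib, Finset.mul_sum,
      Finset.sum_mul]
    rw [mul_add, Finset.mul_sum, Finset.mul_sum]
    congr 1
    · congr 1
      refine Finset.sum_congr rfl fun j _ => ?_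
      ring
    · refine Finset.sum_congr rfl fun j _ => ?_
      ring
  simp_rw [e1]
  rw [Finset.sum_add_distrib, Finset.sum_add_distrib, ← Finset.mul_sum, ← Finset.mul_sum,
    ← Finset.mul_sum]
  have e3 : ∑ i, ∑ j, dzD i ((hessS (potS hK a)).adjugate j i) * dzbD j (GS a hG) = 0 := by
    rw [Finset.sum_comm]
    refine Finset.sum_eq_zero fun j _ => ?_
    rw [← Finset.sum_mul, div_adj, zero_mul]
  have e4 : ∑ i, ∑ j, ((hessS (potS hK a)).adjugate j i *
      dzD i (muS (potS hK a) (D.k a) (D.m a))) * dzbD j (GS a hG) =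
      ∑ j, ((D.k a j : ℂ) • (star (co j) * (hessS (potS hK a)).det)) * dzbD j (GS a hG) := by
    rw [Finset.sum_comm]
    refine Finset.sum_congr rfl fun j _ => ?_
    rw [← Finset.sum_mul, adj_dzD_muS (potS hK a) (star_potS hK a) _ _ (star_muS_eq D hK hinv a)]
  have e5 : ∑ j, ((D.k a j : ℂ) • (star (co j) * (hessS (potS hK a)).det)) * dzbD j (GS a hG) =
      (hessS (potS hK a)).det * ∑ j, ((D.k a j : ℂ) • (star (co j))) * dzbD j (GS a hG) := by
    rw [Finset.mul_sum]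
    refine Finset.sum_congr rfl fun j _ => ?_
    rw [smul_mul_assoc, smul_mul_assoc, mul_smul_comm]
    congr 1
    ring
  rw [e3, mul_zero, add_zero, e4, e5, mul_assoc]

include hinv hK hu hG in
/-- the divergence of the vector field -/
theorem polarDiv_eq {z : E 2} (hz : z ∈ A.U a) (hz0 : ∀ j, z j ≠ 0) :
    PolAtlas.Part.polarDiv (Wf D H u M) (Rf D H u G) a z = A.resF D H u G M a z := by
  have hd1 : ContDiff ℝ ∞ (deriv u) := (contDiff_infty_iff_deriv.1 hu).2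
  have h1 : ContDiffOn ℝ ∞ (fun z => deriv u (A.mu D H a z)) (dom A a) :=
    smooth_umu D hK hinv a hd1
  have hz' : z ∈ dom A a := hz
  set y : dom A a := ⟨z, hz'⟩ with hy
  unfold PolAtlas.Part.polarDiv
  rw [Finset.sum_add_distrib, Finset.sum_comm]
  have e1 : ∑ j, ∑ i, dz i (Wf D H u M a i j) z / (starRingEnd ℂ) (z j) =
      ((deriv u (A.mu D H a z) : ℝ) : ℂ) * (A.rho H a z : ℂ) *
        ((∑ j, M a j * D.k a j : ℝ) : ℂ) := by
    rw [ofReal_sum, Finset.mul_sum]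
    refine Finset.sum_congr rfl fun j _ => ?_
    rw [← Finset.sum_div]
    have e2 : ∑ i, dz i (Wf D H u M a i j) z = (∑ i, dzD i (WS D hK hinv hu a M i j)).1 y := by
      rw [Sm.sum_apply]
      exact Finset.sum_congr rfl fun i _ => dz_Wf D hK hinv hu a M i j i y
    rw [e2, div_WS D hK hinv hu a M j h1, Sm.mul_apply, Sm.mul_apply, ofR_apply]
    have e3 : (((D.k a j : ℂ) • (star (co j) * (hessS (potS hK a)).det) : Sm (dom A a))).1 y =
        (D.k a j : ℂ) * ((starRingEnd ℂ) (z j) * (A.rho H a z : ℂ)) := by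
      show (D.k a j : ℂ) * ((star (co j) : Sm (dom A a)).1 y * ((hessS (potS hK a)).det).1 y) = _
      rw [star_apply, co_apply, det_apply]
    have e4 : (((M a j : ℂ) • (1 : Sm (dom A a)))).1 y = (M a j : ℂ) := by
      show (M a j : ℂ) * 1 = _
      rw [mul_one]
    rw [e3, e4]
    have hc : (starRingEnd ℂ) (z j) ≠ 0 := (map_ne_zero _).2 (hz0 j)
    field_simp
    push_cast
    ring
  have e5 : ∑ i, dz i (Rf D H u G a i) z =
      (u (A.mu D H a z) : ℂ) * A.trC H a (G a) z + ((deriv u (A.mu D H a z) : ℝ) : ℂ) *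
        (A.rho H a z : ℂ) * wdzb (D.k a) (fun w => (G a w : ℂ)) z := by
    have e6 : ∑ i, dz i (Rf D H u G a i) z = (∑ i, dzD i (RS D hK hinv hu a hG i)).1 y := by
      rw [Sm.sum_apply]
      exact Finset.sum_congr rfl fun i _ => dz_Rf D hK hinv hu a hG i i y
    rw [e6, div_RS D hK hinv hu a hG h1, Sm.add_apply, Sm.mul_apply, Sm.mul_apply, Sm.mul_apply,
      ofR_apply, ofR_apply, det_apply, Sm.sum_apply, Sm.sum_apply]
    congr 2
    · unfold PolAtlas.trC
      refine Finset.sum_congr rfl fun i _ => ?_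
      rw [Sm.sum_apply]
      refine Finset.sum_congr rfl fun j _ => ?_
      rw [Sm.mul_apply, adjS_apply, ← hess_G]
    · unfold wdzb
      refine Finset.sum_congr rfl fun j _ => ?_
      rw [Sm.mul_apply, dzbD_GS]
      congr 1
      show (D.k a j : ℂ) * (star (co j) : Sm (dom A a)).1 y = _
      rw [star_apply, co_apply]
  rw [e1, e5]
  unfold PolAtlas.resF
  ring

end RingEls

/-! ### The transformation law -/

/-- the Jacobian matrix `J_{li} = ∂_i τ^l` -/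
def jacM (A : PolAtlas 2 Y) (a b : A.ι) (z : E 2) : Matrix (Fin 2) (Fin 2) ℂ :=
  fun l i => fderiv ℂ (A.τ a b) z (Pi.single i 1) l

theorem det_jacM (a b : A.ι) (z : E 2) :
    (jacM A a b z).det = (fderiv ℂ (A.τ a b) z).det := by
  rw [ContinuousLinearMap.det, ← LinearMap.det_toMatrix (Pi.basisFun ℂ (Fin 2))]
  congr 1

/-- transformation of the metric -/
theorem hess_τ (hK : A.IsKahler H) {a b : A.ι} {z : E 2} (hz : z ∈ A.O a b) :
    hess (A.pot H a) z = (jacM A a b z).transpose * hess (A.pot H b) (A.τ a b z) *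
      (jacM A a b z).map (starRingEnd ℂ) := by
  set Ω : Opens (E 2) := ⟨A.O a b, A.isOpen_O a b⟩ with hΩ
  have hτ : DifferentiableOn ℂ (A.τ a b) Ω := A.hol_τ a b
  have hm : MapsTo (A.τ a b) Ω (dom A b) := fun w hw => PolAtlas.τ_memP hw
  have hh : DifferentiableOn ℂ (fun z => (A.h a b z : ℂ)) Ω := A.hol_h a b
  have h0 : ∀ w ∈ Ω, (A.h a b w : ℂ) ≠ 0 := fun w _ => (A.h a b w).ne_zero
  have hc := contDiffOn_log_norm hh h0
  have ha : ContDiffOn ℝ ∞ (A.pot H a) Ω := (hK.smooth a).mono fun w hw => hw.1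
  have key : (ofR (A.pot H a) ha : Sm Ω) =
      pull (smooth_of_hol hτ) hm (potS hK b) - ofR (fun z => Real.log (‖(A.h a b z : ℂ)‖ ^ 2)) hc := by
    apply Sm.ext'
    intro w
    rw [Sm.sub_apply, ofR_apply, ofR_apply]
    unfold potS
    rw [pull_ofR, ofR_apply, ← ofReal_sub]
    congr 1
    have h1 : A.pot H b (A.τ a b w) = Real.log (‖(A.h a b w : ℂ)‖ ^ 2) + A.pot H a w := by
      unfold PolAtlas.pot
      rw [PolAtlas.γ_τP w.2, hK.hom, Real.log_mul
        (pow_ne_zero 2 (norm_ne_zero_iff.2 (A.h a b w).ne_zero)) (hK.pos _).ne']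
    rw [h1]
    ring
  ext i j
  have e1 := hess_apply_eq (A.pot H a) ha ⟨z, hz⟩ i j
  rw [e1, key, map_sub, map_sub, hess_log_norm hh h0 hc, sub_zero, YTDA.hess_pull hτ hm, Sm.sum_apply,
    Matrix.mul_apply]
  refine Finset.sum_congr rfl fun l _ => ?_
  rw [Sm.sum_apply, Matrix.mul_apply, Finset.sum_mul]
  refine Finset.sum_congr rfl fun m _ => ?_
  rw [Sm.mul_apply, Sm.mul_apply, star_apply, dzD_coS hτ, dzD_coS hτ]
  have e2 : (pull (smooth_of_hol hτ) hm (dzD m (dzbD l (potS hK b)))).1 ⟨z, hz⟩ =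
      hess (A.pot H b) (A.τ a b z) m l := by
    rw [pull_apply]
    exact (hess_apply_eq (A.pot H b) (smooth_dom hK b) ⟨A.τ a b z, hm hz⟩ m l).symm
  rw [e2]
  simp only [Matrix.transpose_apply, Matrix.map_apply, jacM]
  ring

/-- the antiholomorphic derivatives of `F = G + ∑ M_j log |z_j|²` -/
def vF (G : A.ι → E 2 → ℝ) (M : A.ι → Fin 2 → ℝ) (a : A.ι) (z : E 2) (j : Fin 2) : ℂ :=
  (M a j : ℂ) / (starRingEnd ℂ) (z j) + dzb j (fun w => (G a w : ℂ)) z

theorem polar_eq (u : ℝ → ℝ) (G : A.ι → E 2 → ℝ) (M : A.ι → Fin 2 → ℝ) (a : A.ι) (z : E 2)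
    (i : Fin 2) : PolAtlas.Part.polar (Wf D H u M) (Rf D H u G) a i z =
      (u (A.mu D H a z) : ℂ) * (Matrix.vecMul (vF G M a z) (hess (A.pot H a) z).adjugate) i := by
  unfold PolAtlas.Part.polar Wf Rf vF Matrix.vecMul dotProduct
  rw [Finset.mul_sum, Finset.mul_sum, ← Finset.sum_add_distrib]
  refine Finset.sum_congr rfl fun j _ => ?_
  ring

/-- the function `G + ∑ M_j log |z_j|²` -/
def Fl (G : A.ι → E 2 → ℝ) (M : A.ι → Fin 2 → ℝ) (a : A.ι) (z : E 2) : ℝ :=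
  G a z + ∑ j, M a j * Real.log (‖z j‖ ^ 2)

theorem diff_Fl {G : A.ι → E 2 → ℝ} (hG : ∀ a, ContDiffOn ℝ ∞ (G a) (A.U a))
    (M : A.ι → Fin 2 → ℝ) {a : A.ι} {z : E 2} (hz : z ∈ A.U a) (hz0 : ∀ j, z j ≠ 0) :
    DifferentiableAt ℝ (fun w => (Fl G M a w : ℂ)) z := by
  have h1 : DifferentiableAt ℝ (G a) z :=
    ((hG a).contDiffAt ((A.isOpen_U a).mem_nhds hz)).differentiableAt (by simp)
  have h2 : DifferentiableAt ℝ (Fl G M a) z := by
    unfold Fl
    refine h1.add (DifferentiableAt.fun_sum fun j _ => ?_)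
    exact (diff_log_coord j (hz0 j)).const_mul _
  exact ofRealCLM.differentiableAt.comp z h2

theorem dzb_Fl {G : A.ι → E 2 → ℝ} (hG : ∀ a, ContDiffOn ℝ ∞ (G a) (A.U a))
    (M : A.ι → Fin 2 → ℝ) {a : A.ι} {z : E 2} (hz : z ∈ A.U a) (hz0 : ∀ j, z j ≠ 0) (j : Fin 2) :
    dzb j (fun w => (Fl G M a w : ℂ)) z = vF G M a z j := by
  have h1 : DifferentiableAt ℝ (fun w => (G a w : ℂ)) z :=
    ofRealCLM.differentiableAt.comp z
      (((hG a).contDiffAt ((A.isOpen_U a).mem_nhds hz)).differentiableAt (by simp))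
  have hl : ∀ l, DifferentiableAt ℝ (fun w : E 2 => ((Real.log (‖w l‖ ^ 2) : ℝ) : ℂ)) z := fun l =>
    ofRealCLM.differentiableAt.comp z (diff_log_coord l (hz0 l))
  have e1 : (fun w => (Fl G M a w : ℂ)) = fun w => (G a w : ℂ) +
      ((M a 0 : ℂ) * ((Real.log (‖w 0‖ ^ 2) : ℝ) : ℂ) +
        (M a 1 : ℂ) * ((Real.log (‖w 1‖ ^ 2) : ℝ) : ℂ)) := by
    ext w
    unfold Fl
    rw [Fin.sum_univ_two]
    push_cast
    ring
  have h01 : DifferentiableAt ℝ (fun w : E 2 =>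
      (M a 0 : ℂ) * ((Real.log (‖w 0‖ ^ 2) : ℝ) : ℂ)) z := (hl 0).const_mul _
  have h11 : DifferentiableAt ℝ (fun w : E 2 =>
      (M a 1 : ℂ) * ((Real.log (‖w 1‖ ^ 2) : ℝ) : ℂ)) z := (hl 1).const_mul _
  have h21 : DifferentiableAt ℝ (fun w : E 2 => (M a 0 : ℂ) * ((Real.log (‖w 0‖ ^ 2) : ℝ) : ℂ) +
      (M a 1 : ℂ) * ((Real.log (‖w 1‖ ^ 2) : ℝ) : ℂ)) z := h01.fun_add h11
  rw [e1, dzb_add h1 h21, dzb_add h01 h11, dzb_const_mul (hl 0),
    dzb_const_mul (hl 1), dzb_log_coord j 0 (hz0 0), dzb_log_coord j 1 (hz0 1)]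
  unfold vF
  fin_cases j
  · simp
    ring
  · simp
    ring

/-- transformation of the derivatives -/
theorem vF_τ {F : Y → ℝ} (hF : ∀ (c : ℂˣ) y, F (c • y) = F y)
    {G : A.ι → E 2 → ℝ} (hG : ∀ a, ContDiffOn ℝ ∞ (G a) (A.U a)) {M : A.ι → Fin 2 → ℝ}
    (hFG : ∀ a, ∀ z ∈ A.U a, z 0 ≠ 0 → z 1 ≠ 0 →
      F (A.γ a z) = G a z + ∑ j, M a j * Real.log (‖z j‖ ^ 2))
    {a b : A.ι} {z : E 2} (hz : z ∈ A.O a b) (hz0 : ∀ j, z j ≠ 0)
    (hτ0 : ∀ j, A.τ a b z j ≠ 0) :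
    vF G M a z = Matrix.vecMul (vF G M b (A.τ a b z)) ((jacM A a b z).map (starRingEnd ℂ)) := by
  ext i
  rw [← dzb_Fl hG M hz.1 hz0]
  have hne : ∀ (w : E 2), (∀ j, w j ≠ 0) → ∀ᶠ w' in 𝓝 w, ∀ j, w' j ≠ 0 := by
    intro w hw
    rw [Filter.eventually_all]
    intro j
    exact (continuous_apply j).continuousAt.eventually_ne (hw j)
  have hc : ContinuousAt (A.τ a b) z := (PolAtlas.diff_τ hz).continuousAt
  have h1 : (fun w => (Fl G M a w : ℂ)) =ᶠ[𝓝 z] fun w => (Fl G M b (A.τ a b w) : ℂ) := by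
    filter_upwards [(A.isOpen_O a b).mem_nhds hz, hne z hz0, hc.eventually (hne _ hτ0)] with w hw
      hw0 hwτ
    have e1 := hFG a w hw.1 (hw0 0) (hw0 1)
    have e2 := hFG b (A.τ a b w) (PolAtlas.τ_memP hw) (hwτ 0) (hwτ 1)
    rw [PolAtlas.γ_τP hw, hF, e1] at e2
    unfold Fl
    rw [e2]
  rw [dzb_congr h1, dzb_comp_hol (PolAtlas.diff_τ hz)
    (diff_Fl hG M (PolAtlas.τ_memP hz) hτ0)]
  unfold Matrix.vecMul dotProduct
  refine Finset.sum_congr rfl fun l _ => ?_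
  rw [dzb_Fl hG M (PolAtlas.τ_memP hz) hτ0]
  rfl

/-- **the transformation law** -/
theorem law (hK : A.IsKahler H) (u : ℝ → ℝ) {F : Y → ℝ} (hF : ∀ (c : ℂˣ) y, F (c • y) = F y)
    {G : A.ι → E 2 → ℝ} (hG : ∀ a, ContDiffOn ℝ ∞ (G a) (A.U a)) {M : A.ι → Fin 2 → ℝ}
    (hFG : ∀ a, ∀ z ∈ A.U a, z 0 ≠ 0 → z 1 ≠ 0 →
      F (A.γ a z) = G a z + ∑ j, M a j * Real.log (‖z j‖ ^ 2))
    {a b : A.ι} {z : E 2} (hz : z ∈ A.O a b) (hz0 : ∀ j, z j ≠ 0)
    (hτ0 : ∀ j, A.τ a b z j ≠ 0) :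
    PolAtlas.Part.Law (PolAtlas.Part.polar (Wf D H u M) (Rf D H u G)) a b z := by
  intro l
  set J := jacM A a b z with hJ
  have e1 : ∑ i, fderiv ℂ (A.τ a b) z (Pi.single i 1) l *
      PolAtlas.Part.polar (Wf D H u M) (Rf D H u G) a i z =
      (u (A.mu D H a z) : ℂ) * (Matrix.vecMul (Matrix.vecMul (vF G M a z)
        (hess (A.pot H a) z).adjugate) J.transpose) l := by
    rw [Matrix.vecMul, dotProduct, Finset.mul_sum]
    refine Finset.sum_congr rfl fun i _ => ?_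
    rw [polar_eq, Matrix.transpose_apply]
    show J l i * _ = _
    ring
  rw [e1, polar_eq, mu_τ D hK hz, hess_τ hK hz, vF_τ hF hG hFG hz hz0 hτ0,
    Matrix.adjugate_mul_distrib, Matrix.adjugate_mul_distrib, Matrix.vecMul_vecMul,
    Matrix.vecMul_vecMul, ← det_jacM, ← hJ]
  have e2 : J.map (starRingEnd ℂ) * ((J.map (starRingEnd ℂ)).adjugate *
      ((hess (A.pot H b) (A.τ a b z)).adjugate * J.transpose.adjugate) * J.transpose) =
      ((starRingEnd ℂ) J.det * J.det) • (hess (A.pot H b) (A.τ a b z)).adjugate := by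
    have h1 : J.map (starRingEnd ℂ) * ((J.map (starRingEnd ℂ)).adjugate *
      ((hess (A.pot H b) (A.τ a b z)).adjugate * J.transpose.adjugate) * J.transpose) =
      (J.map (starRingEnd ℂ) * (J.map (starRingEnd ℂ)).adjugate) *
      ((hess (A.pot H b) (A.τ a b z)).adjugate * (J.transpose.adjugate * J.transpose)) := by
      simp only [Matrix.mul_assoc]
    rw [h1, Matrix.mul_adjugate, Matrix.adjugate_mul, Matrix.det_transpose]
    have h2 : (J.map (starRingEnd ℂ)).det = (starRingEnd ℂ) J.det := by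
      rw [RingHom.map_det]; rfl
    rw [h2, Matrix.smul_mul, Matrix.one_mul, Matrix.mul_smul, Matrix.mul_one, smul_smul]
  rw [e2]
  have e3 : ((starRingEnd ℂ) J.det * J.det) = (‖J.det‖ : ℂ) ^ 2 := by
    rw [mul_comm, mul_conj, normSq_eq_norm_sq]
    push_cast
    rfl
  rw [e3, Matrix.vecMul_smul, Pi.smul_apply, smul_eq_mul]
  ring

/-- the adjugate on the diagonal -/
theorem adj_diag (g : Matrix (Fin 2) (Fin 2) ℂ) (j : Fin 2) :
    g.adjugate j j = g (1 - j) (1 - j) := by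
  rw [Matrix.adjugate_fin_two]
  fin_cases j <;> rfl

end Main

end ResK

/-- **M2**: the residue theorem for `F = G_a + ∑ M_{a,j} log |z_j|²` -/
theorem PolAtlas.Part.res {Y : Type} [MulAction ℂˣ Y] {A : PolAtlas 2 Y} (P : A.Part)
    (D : A.DAct) {H : Y → ℝ} (hK : A.IsKahler H)
    (hinv : ∀ (c : ℂˣ) y, ‖(c : ℂ)‖ = 1 → H (D.act c y) = H y)
    (F : Y → ℝ) (hF : ∀ (c : ℂˣ) y, F (c • y) = F y)
    (G : A.ι → E 2 → ℝ) (hG : ∀ a, ContDiffOn ℝ ∞ (G a) (A.U a)) (M : A.ι → Fin 2 → ℝ)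
    (hFG : ∀ a, ∀ z ∈ A.U a, z 0 ≠ 0 → z 1 ≠ 0 →
      F (A.γ a z) = G a z + ∑ j, M a j * Real.log (‖z j‖ ^ 2))
    (u : ℝ → ℝ) (hu : ContDiff ℝ ∞ u) :
    P.int (A.resF D H u G M) =
      ((- Real.pi * ∑ k, ∑ j, M (P.a k) j * P.axisInt D H u k j : ℝ) : ℂ) := by
  have h1 : ∀ a i j, ContDiffOn ℝ 1 (ResK.Wf D H u M a i j) (A.U a) := fun a i j =>
    (ResK.smooth_Wf D hK hinv hu a M i j).of_le (by exact_mod_cast le_top)
  have h2 : ∀ a i, ContDiffOn ℝ 1 (ResK.Rf D H u G a i) (A.U a) := fun a i =>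
    (ResK.smooth_Rf D hK hinv hu a hG i).of_le (by exact_mod_cast le_top)
  have h3 : ∀ a b, ∀ᵐ z, z ∈ A.O a b →
      PolAtlas.Part.Law (PolAtlas.Part.polar (ResK.Wf D H u M) (ResK.Rf D H u G)) a b z := by
    intro a b
    filter_upwards [PolAtlas.ae_coord_ne, PolAtlas.ae_coord_τ_ne a b] with z hz hτ hO
    exact ResK.law D hK u hF hG hFG hO hz (hτ hO)
  have h4 := P.residue (ResK.Wf D H u M) (ResK.Rf D H u G) h1 h2 h3
  have h5 : P.int (A.resF D H u G M) = ∑ k, ∫ z in A.U (P.a k), P.X k (P.a k) z *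
      PolAtlas.Part.polarDiv (ResK.Wf D H u M) (ResK.Rf D H u G) (P.a k) z := by
    unfold PolAtlas.Part.int
    refine Finset.sum_congr rfl fun k _ => ?_
    apply integral_congr_ae
    rw [Filter.EventuallyEq, ae_restrict_iff' (A.isOpen_U _).measurableSet]
    filter_upwards [PolAtlas.ae_coord_ne] with z hz hU
    rw [ResK.polarDiv_eq D hK hinv hu _ hG M hU hz]
  rw [h5, h4]
  have h6 : ∀ k j, ∫ b : E 1, (A.U (P.a k)).indicator
      (fun z => P.X k (P.a k) z * ResK.Wf D H u M (P.a k) j j z) (j.insertNth 0 b) =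
      ((M (P.a k) j * P.axisInt D H u k j : ℝ) : ℂ) := by
    intro k j
    rw [integral_E1]
    unfold PolAtlas.Part.axisInt
    rw [← integral_const_mul]
    refine Eq.trans ?_ (integral_ofReal (𝕜 := ℂ))
    congr 1
    ext w
    show (A.U (P.a k)).indicator (fun z => P.X k (P.a k) z * ResK.Wf D H u M (P.a k) j j z)
      (axis j w) = _
    by_cases hw : axis j w ∈ A.U (P.a k)
    · rw [indicator_of_mem hw, indicator_of_mem hw]
      unfold ResK.Wf PolAtlas.Part.X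
      rw [ResK.adj_diag]
      have h7 : hess (A.pot H (P.a k)) (axis j w) (1 - j) (1 - j) =
          ((hess (A.pot H (P.a k)) (axis j w) (1 - j) (1 - j)).re : ℂ) := by
        have h8 := (hK.posDef _ _ hw).1.apply (1 - j) (1 - j)
        apply Complex.ext
        · simp
        · have h9 := congrArg Complex.im h8
          simp only [star_def, conj_im] at h9
          simp only [ofReal_im]
          linarith
      have h10 : ∀ x y v w : ℂ, x * (y * (v * w)) = w * (x * y * v) := fun x y v w => by ring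
      have h11 : ∀ x y v w : ℝ, ((w * (x * y * v) : ℝ) : ℂ) = (w : ℂ) * ((x : ℂ) * y * v) :=
        fun x y v w => by push_cast; rfl
      refine Eq.trans ?_ (h11 _ _ _ _).symm
      refine Eq.trans ?_ (h10 _ _ _ _)
      rw [← h7]
    · rw [indicator_of_notMem hw, indicator_of_notMem hw]
      simp
  simp_rw [h6]
  push_cast
  rfl

end

end Pool.Agent.YTDA
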