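import Pool.Agent.YTDA.T13Defs

/-!
# M4: the residue theorem with labelled axes
-/

namespace Pool.Agent.YTDA

open Complex Set Topology ContDiff MeasureTheory

noncomputable section

namespace PolAtlas

variable {Y : Type} [MulAction ℂˣ Y] {A : PolAtlas 2 Y}

/-- On an axis whose other coordinate has weight zero the moment is the weight of the frame. -/
theorem mu_axis (D : A.DAct) (H : Y → ℝ) (a : A.ι) (j : Fin 2) (hk : D.k a (1 - j) = 0) (w : ℂ) :
    A.mu D H a (axis j w) = D.m a := by
  unfold mu mom wdz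
  have h : ∑ i, (D.k a i : ℂ) * axis j w i * dz i (fun w => ((A.pot H a w : ℝ) : ℂ)) (axis j w) =
      0 := by
    refine Finset.sum_eq_zero (fun i _ => ?_)
    by_cases hi : i = j
    · rw [hi, axis_same]
      ring
    · have h1 : i = 1 - j := by
        fin_cases i <;> fin_cases j <;> first | rfl | exact absurd rfl hi
      rw [h1, hk]
      push_cast
      ring
  rw [h, Complex.zero_re, add_zero]

/-- the axis integral over a curve of fixed points -/
theorem axisInt_fix (P : A.Part) (D : A.DAct) (H : Y → ℝ) (u : ℝ → ℝ) (k : Fin P.m) (j : Fin 2)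
    (hk : D.k (P.a k) (1 - j) = 0) :
    P.axisInt D H u k j = u (D.m (P.a k)) * P.axisInt D H (fun _ => 1) k j := by
  unfold Part.axisInt
  rw [← integral_const_mul]
  refine integral_congr_ae (Filter.Eventually.of_forall fun w => ?_)
  show (A.U (P.a k)).indicator _ (axis j w) = _ * (A.U (P.a k)).indicator _ (axis j w)
  by_cases hz : axis j w ∈ A.U (P.a k)
  · rw [indicator_of_mem hz, indicator_of_mem hz, mu_axis D H (P.a k) j hk w]
    ring
  · rw [indicator_of_notMem hz, indicator_of_notMem hz, mul_zero]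

/-- M4, with M2 and M3 as hypotheses. -/
theorem Part.res_lab_of (P : A.Part) (D : A.DAct) {H : Y → ℝ} (L : Labels A D)
    (G : A.ι → E 2 → ℝ) (M0 Mi : ℝ) (Mv : L.V → ℝ) (s : Finset L.V) (hs : ∀ v ∉ s, Mv v = 0)
    (u : ℝ → ℝ)
    (hres : P.int (A.resF D H u G (fun a j => (L.lab a j).mult M0 Mi Mv)) =
      ((- Real.pi * ∑ k, ∑ j, (L.lab (P.a k) j).mult M0 Mi Mv * P.axisInt D H u k j : ℝ) : ℂ))
    (hvert : ∀ v ∈ s, P.labInt D H L.lab (Lb.vert v) u =
      Real.pi * ∫ x in (L.mm v : ℝ)..(L.mp v : ℝ), u x) :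
    P.int (A.resF D H u G (fun a j => (L.lab a j).mult M0 Mi Mv)) =
      ((- Real.pi * (M0 * (u L.m0 * P.labInt D H L.lab Lb.zero (fun _ => 1)) +
        Mi * (u L.mi * P.labInt D H L.lab Lb.inf (fun _ => 1)) +
        ∑ v ∈ s, Mv v * (Real.pi * ∫ x in (L.mm v : ℝ)..(L.mp v : ℝ), u x)) : ℝ) : ℂ) := by
  classical
  rw [hres]
  have h1 : ∑ v ∈ s, Mv v * (Real.pi * ∫ x in (L.mm v : ℝ)..(L.mp v : ℝ), u x) =
      ∑ v ∈ s, Mv v * P.labInt D H L.lab (Lb.vert v) u :=
    Finset.sum_congr rfl (fun v hv => by rw [hvert v hv])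
  rw [h1]
  have key : ∑ k, ∑ j, (L.lab (P.a k) j).mult M0 Mi Mv * P.axisInt D H u k j =
      M0 * (u L.m0 * P.labInt D H L.lab Lb.zero (fun _ => 1)) +
        Mi * (u L.mi * P.labInt D H L.lab Lb.inf (fun _ => 1)) +
        ∑ v ∈ s, Mv v * P.labInt D H L.lab (Lb.vert v) u := by
    unfold Part.labInt
    have e3 : ∑ v ∈ s, Mv v * (∑ k, ∑ j,
          if L.lab (P.a k) j = Lb.vert v then P.axisInt D H u k j else 0) =
        ∑ k, ∑ j, ∑ v ∈ s, Mv v *
          (if L.lab (P.a k) j = Lb.vert v then P.axisInt D H u k j else 0) := by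
      simp only [Finset.mul_sum]
      rw [Finset.sum_comm]
      refine Finset.sum_congr rfl (fun k _ => ?_)
      rw [Finset.sum_comm]
    rw [e3]
    simp only [Finset.mul_sum, ← Finset.sum_add_distrib]
    refine Finset.sum_congr rfl (fun k _ => Finset.sum_congr rfl (fun j _ => ?_))
    rcases hl : L.lab (P.a k) j with _ | _ | _ | v
    · simp [Lb.mult]
    · obtain ⟨hk, hm⟩ := L.zero_k _ _ hl
      rw [axisInt_fix P D H u k j hk, hm]
      simp [Lb.mult]
    · obtain ⟨hk, hm⟩ := L.inf_k _ _ hl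
      rw [axisInt_fix P D H u k j hk, hm]
      simp [Lb.mult]
    · have e4 : ∑ v' ∈ s, Mv v' *
          (if Lb.vert v = Lb.vert v' then P.axisInt D H u k j else 0) =
            Mv v * P.axisInt D H u k j := by
        by_cases hv : v ∈ s
        · rw [Finset.sum_eq_single v]
          · rw [if_pos rfl]
          · intro v' _ hne
            rw [if_neg (fun h => hne (by injection h with h; exact h.symm)), mul_zero]
          · intro h
            exact absurd hv h
        · rw [hs v hv, zero_mul]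
          refine Finset.sum_eq_zero (fun v' hv' => ?_)
          rw [if_neg (fun h => hv (by injection h with h; rw [h]; exact hv')), mul_zero]
      rw [e4]
      simp [Lb.mult]
  rw [key]

end PolAtlas

end

end Pool.Agent.YTDA
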