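import Pool.Agent.YTDA.SigLabels
import Pool.Agent.YTDA.Chart4
import Pool.Agent.YTDA.ResLab
import Pool.Agent.YTDA.T13Fin

/-!
# T13: the second residue identity (F2)
-/

namespace Pool.Agent.YTDA

open Complex Set Topology Metric Filter ContDiff
open Pool.Agent.YTD

noncomputable section

namespace Sig

variable {K : Type} [Field K] [Algebra ℂ K] {T : Datum K}
variable {q : ℕ} {D₀ : T.X.Pt →₀ ℤ} {An : AnCurve T.X.toCurveOrd} {r : T.X.Pt → ℝ}

/-- `log H - log |u|² + 5 q log |w|²` -/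
def f2 (q : ℕ) (H : YY T → ℝ) (y : YY T) : ℝ :=
  Real.log (H y) - Real.log (‖((y.u : ℂˣ) : ℂ)‖ ^ 2) +
    5 * q * Real.log (‖((wv y : ℂˣ) : ℂ)‖ ^ 2)

theorem f2_smul (hr : IsRad D₀ An r) {H : YY T → ℝ} (hK : (preAtlas q hr).toAtlas.IsKahler H)
    (c : ℂˣ) (y : YY T) : f2 q H (c • y) = f2 q H y := by
  unfold f2
  have hc : (‖(c : ℂ)‖ ^ 2 : ℝ) ≠ 0 := pow_ne_zero _ (norm_ne_zero_iff.2 c.ne_zero)
  have hu : (‖((y.u : ℂˣ) : ℂ)‖ ^ 2 : ℝ) ≠ 0 :=
    pow_ne_zero _ (norm_ne_zero_iff.2 (Units.ne_zero _))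
  rw [hK.hom, wv_smul, smul_u, Units.val_mul, norm_mul, mul_pow, Real.log_mul hc (hK.pos y).ne',
    Real.log_mul hc hu]
  ring

/-- the function `f2` in the charts -/
theorem f2_ch (hr : IsRad D₀ An r) (H : YY T → ℝ) (a : T.X.Pt × Fin 3) {z : E 2}
    (hz : z ∈ UU r a) (h0 : z 0 ≠ 0) (h1 : z 1 ≠ 0) :
    f2 q H (ch q D₀ An a z) = (preAtlas q hr).toAtlas.pot H a z +
      ∑ j, (toLb An r (lab a j)).mult 0 (-10 * q) (mU q D₀) * Real.log (‖z j‖ ^ 2) := by
  obtain ⟨w0, hw0⟩ : ∃ w : ℂˣ, (w : ℂ) = z 0 := ⟨Units.mk0 _ h0, rfl⟩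
  obtain ⟨w1, hw1⟩ : ∃ w : ℂˣ, (w : ℂ) = z 1 := ⟨Units.mk0 _ h1, rfl⟩
  have hz2 : z = ![(w0 : ℂ), (w1 : ℂ)] := by rw [hw0, hw1, eta2]
  rw [Fin.sum_univ_two, ← u_mult hr a 0 hz, ← u_mult hr a 1 hz, ← hw0, ← hw1]
  unfold f2
  have e1 : (preAtlas q hr).toAtlas.pot H a z = Real.log (H (ch q D₀ An a z)) := rfl
  rw [e1, hz2, log_wv_ch, log_u_ch]
  push_cast
  ring

/-- the integrand of the residue theorem for `f2` -/
theorem resF_f2 (hr : IsRad D₀ An r) {H : YY T → ℝ} (hK : (preAtlas q hr).toAtlas.IsKahler H)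
    (hinv : ∀ (c : ℂˣ) y, ‖(c : ℂ)‖ = 1 → H ((dAct q hr).act c y) = H y) (u : ℝ → ℝ)
    (a : T.X.Pt × Fin 3) {z : E 2} (hz : z ∈ UU r a) :
    (preAtlas q hr).toAtlas.resF (dAct q hr) H u (fun a => (preAtlas q hr).toAtlas.pot H a)
      (fun a j => (toLb An r (lab a j)).mult 0 (-10 * q) (mU q D₀)) a z =
    (((2 * u ((preAtlas q hr).toAtlas.mu (dAct q hr) H a z) +
      ((preAtlas q hr).toAtlas.mu (dAct q hr) H a z + 5 * q) *
        deriv u ((preAtlas q hr).toAtlas.mu (dAct q hr) H a z)) *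
        (preAtlas q hr).toAtlas.rho H a z : ℝ) : ℂ) := by
  have h1 := PolAtlas.trC_pot (A := (preAtlas q hr).toAtlas) hK (a := a) hz
  have h2 := PolAtlas.wdzb_pot (A := (preAtlas q hr).toAtlas) hK (dAct q hr) hinv (a := a) hz
  have h3 : (∑ j, (toLb An r (lab a j)).mult 0 (-10 * q) (mU q D₀) *
      (((dAct q hr).k a j : ℤ) : ℝ)) = ((dAct q hr).m a : ℝ) + 5 * q := by
    have h4 : ∀ j, (toLb An r (lab a j)).mult 0 (-10 * q) (mU q D₀) *
        (((dAct q hr).k a j : ℤ) : ℝ) =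
        (((-(eg q a j * kk a j) - D₀ a.1 * (es a j * kk a j) + 5 * q * (ew a j * kk a j)) : ℤ)
          : ℝ) := by
      intro j
      rw [← u_mult hr a j hz]
      show _ * ((kk a j : ℤ) : ℝ) = _
      push_cast
      ring
    simp_rw [h4]
    rw [← Int.cast_sum, Finset.sum_add_distrib, Finset.sum_sub_distrib, Finset.sum_neg_distrib,
      ← Finset.mul_sum, ← Finset.mul_sum, sum_eg, sum_es, sum_ew]
    show _ = ((mm q a : ℤ) : ℝ) + 5 * q
    push_cast
    ring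
  unfold PolAtlas.resF
  rw [h1, h3]
  have h5 : wdzb ((dAct q hr).k a) (fun w => (((preAtlas q hr).toAtlas.pot H a w : ℝ) : ℂ)) z =
      ((preAtlas q hr).toAtlas.mu (dAct q hr) H a z : ℂ) - ((dAct q hr).m a : ℂ) := by
    rw [← h2]
    ring
  rw [h5]
  push_cast
  ring

/-- the finite set of vertical curves with nonzero multiplicity -/
def sV (hr : IsRad D₀ An r) : Finset (VL An r) :=
  open Classical in
  (D₀.support.attach.image fun Q => Sum.inl ⟨Q.1, isoPt_D hr (Finsupp.mem_support_iff.1 Q.2)⟩) ∪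
    ((T.S.attach.image fun Q => Sum.inr ⟨Q.1, Or.inl Q.2⟩) ∪
      (T.S'.attach.image fun Q => Sum.inr ⟨Q.1, Or.inr Q.2⟩))

theorem sum_sV (hr : IsRad D₀ An r) (g : VL An r → ℝ) (gD gE : T.X.Pt → ℝ)
    (hD : ∀ (Q : T.X.Pt) (h : IsoPt An r Q), g (Sum.inl ⟨Q, h⟩) = gD Q)
    (hE : ∀ (Q : T.X.Pt) (h : Exc T Q), g (Sum.inr ⟨Q, h⟩) = gE Q) :
    ∑ v ∈ sV hr, g v = ∑ Q ∈ D₀.support, gD Q + (∑ Q ∈ T.S, gE Q + ∑ Q ∈ T.S', gE Q) := by
  classical
  unfold sV
  rw [Finset.sum_union, Finset.sum_union, Finset.sum_image, Finset.sum_image, Finset.sum_image]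
  · rw [← Finset.sum_attach D₀.support, ← Finset.sum_attach T.S, ← Finset.sum_attach T.S']
    congr 1
    · exact Finset.sum_congr rfl fun Q _ => hD _ _
    · congr 1
      · exact Finset.sum_congr rfl fun Q _ => hE _ _
      · exact Finset.sum_congr rfl fun Q _ => hE _ _
  · intro Q _ Q' _ h
    have h1 : Q.1 = Q'.1 := by
      injection h with h2
      injection h2
    exact Subtype.ext h1
  · intro Q _ Q' _ h
    have h1 : Q.1 = Q'.1 := by
      injection h with h2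
      injection h2
    exact Subtype.ext h1
  · intro Q _ Q' _ h
    have h1 : Q.1 = Q'.1 := by
      injection h with h2
      injection h2
    exact Subtype.ext h1
  · rw [Finset.disjoint_left]
    intro v hv hv'
    rw [Finset.mem_image] at hv hv'
    obtain ⟨Q, _, rfl⟩ := hv
    obtain ⟨Q', _, h⟩ := hv'
    have h1 : Q'.1 = Q.1 := by
      injection h with h2
      injection h2
    exact Finset.disjoint_left.1 T.disj Q.2 (h1 ▸ Q'.2)
  · rw [Finset.disjoint_left]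
    intro v hv hv'
    rw [Finset.mem_image] at hv
    obtain ⟨Q, _, rfl⟩ := hv
    rw [Finset.mem_union, Finset.mem_image, Finset.mem_image] at hv'
    rcases hv' with ⟨Q', _, h⟩ | ⟨Q', _, h⟩ <;> cases h

theorem not_mem_sV (hr : IsRad D₀ An r) {v : VL An r} (hv : v ∉ sV hr) : mU q D₀ v = 0 := by
  classical
  rcases v with Q | Q
  · show -((D₀ Q.1 : ℤ) : ℝ) = 0
    have : D₀ Q.1 = 0 := by
      by_contra h
      apply hv
      unfold sV
      rw [Finset.mem_union, Finset.mem_image]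
      exact Or.inl ⟨⟨Q.1, Finsupp.mem_support_iff.2 h⟩, Finset.mem_attach _ _, rfl⟩
    rw [this, Int.cast_zero, neg_zero]
  · exfalso
    apply hv
    unfold sV
    simp only [Finset.mem_union, Finset.mem_image]
    rcases Q with ⟨Q, hQ | hQ⟩
    · exact Or.inr (Or.inl ⟨⟨Q, hQ⟩, Finset.mem_attach _ _, rfl⟩)
    · exact Or.inr (Or.inr ⟨⟨Q, hQ⟩, Finset.mem_attach _ _, rfl⟩)

/-- **F2**, given the residue theorem (M2) and the integrals over vertical curves (M3). -/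
theorem F2_of (hr : IsRad D₀ An r) (P : (preAtlas q hr).toAtlas.Part) {H : YY T → ℝ}
    (hK : (preAtlas q hr).toAtlas.IsKahler H)
    (hinv : ∀ (c : ℂˣ) y, ‖(c : ℂ)‖ = 1 → H ((dAct q hr).act c y) = H y)
    (hD0 : ∀ Q, Exc T Q → D₀ Q = 0) (hdeg : T.X.deg D₀ = 105 * T.t * q)
    (M2 : ∀ (F : YY T → ℝ) (_ : ∀ (c : ℂˣ) y, F (c • y) = F y)
      (G : (preAtlas q hr).toAtlas.ι → E 2 → ℝ)
      (_ : ∀ a, ContDiffOn ℝ ∞ (G a) ((preAtlas q hr).toAtlas.U a))
      (M : (preAtlas q hr).toAtlas.ι → Fin 2 → ℝ)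
      (_ : ∀ a, ∀ z ∈ (preAtlas q hr).toAtlas.U a, z 0 ≠ 0 → z 1 ≠ 0 →
        F ((preAtlas q hr).toAtlas.γ a z) = G a z + ∑ j, M a j * Real.log (‖z j‖ ^ 2))
      (u : ℝ → ℝ) (_ : ContDiff ℝ ∞ u),
      P.int ((preAtlas q hr).toAtlas.resF (dAct q hr) H u G M) =
        ((- Real.pi * ∑ k, ∑ j, M (P.a k) j * P.axisInt (dAct q hr) H u k j : ℝ) : ℂ))
    (M3 : ∀ (v : (labels q hr).V) (u : ℝ → ℝ), ContDiff ℝ ∞ u →
      P.labInt (dAct q hr) H (labels q hr).lab (Lb.vert v) u =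
        Real.pi * ∫ x in ((labels q hr).mm v : ℝ)..((labels q hr).mp v : ℝ), u x)
    (u : ℝ → ℝ) (hu : ContDiff ℝ ∞ u) :
    P.dhI (dAct q hr) H (fun x => 2 * u x + (x + 5 * q) * deriv u x) = Real.pi ^ 2 *
      (105 * T.t * q * (∫ x in (-(5 * (q : ℝ)))..(5 * q), u x) -
        q * (100 * T.t) * (∫ x in (-(5 * (q : ℝ)))..(-(4 * q)), u x) +
        9 * q * (100 * T.t) * (∫ x in (4 * (q : ℝ))..(5 * q), u x) +
        10 * q * (1 / Real.pi * P.labInt (dAct q hr) H (labels q hr).lab Lb.inf (fun _ => 1)) *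
          u (5 * q)) := by
  have h1 := M2 (f2 q H) (f2_smul hr hK) (fun a => (preAtlas q hr).toAtlas.pot H a)
    (fun a => hK.smooth a)
    (fun a j => (toLb An r (lab a j)).mult 0 (-10 * q) (mU q D₀))
    (fun a z hz h0 h1 => f2_ch hr H a hz h0 h1) u hu
  have h2 := PolAtlas.Part.res_lab_of P (dAct q hr) (labels q hr)
    (fun a => (preAtlas q hr).toAtlas.pot H a) 0 (-10 * q) (mU q D₀) (sV hr)
    (fun v hv => not_mem_sV hr hv) u h1 (fun v _ => M3 v u hu)
  have h3 : P.dhI (dAct q hr) H (fun x => 2 * u x + (x + 5 * q) * deriv u x) =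
      (P.int ((preAtlas q hr).toAtlas.resF (dAct q hr) H u
        (fun a => (preAtlas q hr).toAtlas.pot H a)
        (fun a j => ((labels q hr).lab a j).mult 0 (-10 * q) (mU q D₀)))).re := by
    unfold PolAtlas.Part.dhI
    congr 1
    unfold PolAtlas.Part.int
    refine Finset.sum_congr rfl fun k _ => ?_
    refine MeasureTheory.setIntegral_congr_fun
      ((preAtlas q hr).toAtlas.isOpen_U _).measurableSet fun z hz => ?_
    show P.X k (P.a k) z * _ = P.X k (P.a k) z * _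
    congr 1
    exact (resF_f2 hr hK hinv u (P.a k) hz).symm
  refine h3.trans ((congrArg Complex.re h2).trans ?_)
  rw [ofReal_re]
  have hmi : (((labels q hr).mi : ℤ) : ℝ) = 5 * q := by
    show ((5 * q : ℤ) : ℝ) = 5 * q
    push_cast
    ring
  have hsum : ∑ v ∈ sV hr, mU q D₀ v * (Real.pi *
      ∫ x in ((labels q hr).mm v : ℝ)..((labels q hr).mp v : ℝ), u x) =
      Real.pi * (-(105 * T.t * q) * (∫ x in (-(5 * (q : ℝ)))..(5 * q), u x) +
        q * (100 * T.t) * (∫ x in (-(5 * (q : ℝ)))..(-(4 * q)), u x) -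
        9 * q * (100 * T.t) * (∫ x in (4 * (q : ℝ))..(5 * q), u x)) := by
    rw [sum_sV hr (fun v => mU q D₀ v * (Real.pi *
      ∫ x in ((labels q hr).mm v : ℝ)..((labels q hr).mp v : ℝ), u x))
      (fun Q => -D₀ Q * (Real.pi * ∫ x in (loF T q Q : ℝ)..(hiF T q Q : ℝ), u x))
      (fun Q => (5 * q * sg (sd T Q) - 4 * q - D₀ Q) *
        (Real.pi * ∫ x in (loE T q Q : ℝ)..(hiE T q Q : ℝ), u x))
      (fun Q h => rfl) (fun Q h => rfl)]
    have e1 : ∑ Q ∈ D₀.support, -((D₀ Q : ℤ) : ℝ) *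
        (Real.pi * ∫ x in (loF T q Q : ℝ)..(hiF T q Q : ℝ), u x) =
        -(105 * T.t * q) * (Real.pi * ∫ x in (-(5 * (q : ℝ)))..(5 * q), u x) := by
      have e2 : ∀ Q ∈ D₀.support, -((D₀ Q : ℤ) : ℝ) *
          (Real.pi * ∫ x in (loF T q Q : ℝ)..(hiF T q Q : ℝ), u x) =
          -((D₀ Q : ℤ) : ℝ) * (Real.pi * ∫ x in (-(5 * (q : ℝ)))..(5 * q), u x) := by
        intro Q hQ
        have hE : ¬ Exc T Q := fun h => Finsupp.mem_support_iff.1 hQ (hD0 Q h)
        have hl : ((loF T q Q : ℤ) : ℝ) = -(5 * q) := by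
          unfold loF
          rw [if_neg fun h => hE h.1]
          push_cast
          ring
        have hh : ((hiF T q Q : ℤ) : ℝ) = 5 * q := by
          unfold hiF
          rw [if_neg fun h => hE h.1]
          push_cast
          ring
        rw [hl, hh]
      rw [Finset.sum_congr rfl e2, ← Finset.sum_mul, Finset.sum_neg_distrib, ← Int.cast_sum]
      have e3 : (∑ Q ∈ D₀.support, D₀ Q) = 105 * T.t * q := hdeg
      rw [e3]
      push_cast
      ring
    have e4 : ∑ Q ∈ T.S, ((5 * q * sg (sd T Q) - 4 * q - D₀ Q : ℝ)) *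
        (Real.pi * ∫ x in (loE T q Q : ℝ)..(hiE T q Q : ℝ), u x) =
        (100 * T.t) * (-(9 * q) * (Real.pi * ∫ x in (4 * (q : ℝ))..(5 * q), u x)) := by
      have e5 : ∀ Q ∈ T.S, ((5 * q * sg (sd T Q) - 4 * q - D₀ Q : ℝ)) *
          (Real.pi * ∫ x in (loE T q Q : ℝ)..(hiE T q Q : ℝ), u x) =
          -(9 * q) * (Real.pi * ∫ x in (4 * (q : ℝ))..(5 * q), u x) := by
        intro Q hQ
        have hb : ¬ Bl T false Q := fun h => not_S_of_S' (bl_false.1 h) hQ
        have hl : ((loE T q Q : ℤ) : ℝ) = 4 * q := by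
          unfold loE
          rw [if_neg hb]
          push_cast
          ring
        have hh : ((hiE T q Q : ℤ) : ℝ) = 5 * q := by
          unfold hiE
          rw [if_neg hb]
          push_cast
          ring
        rw [hl, hh, hD0 Q (Or.inl hQ), sd_true hQ]
        show (5 * q * ((-1 : ℤ) : ℝ) - 4 * q - ((0 : ℤ) : ℝ)) * _ = _
        push_cast
        ring
      rw [Finset.sum_congr rfl e5, Finset.sum_const, T.card_S, nsmul_eq_mul]
      push_cast
      ring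
    have e6 : ∑ Q ∈ T.S', ((5 * q * sg (sd T Q) - 4 * q - D₀ Q : ℝ)) *
        (Real.pi * ∫ x in (loE T q Q : ℝ)..(hiE T q Q : ℝ), u x) =
        (100 * T.t) * (q * (Real.pi * ∫ x in (-(5 * (q : ℝ)))..(-(4 * q)), u x)) := by
      have e7 : ∀ Q ∈ T.S', ((5 * q * sg (sd T Q) - 4 * q - D₀ Q : ℝ)) *
          (Real.pi * ∫ x in (loE T q Q : ℝ)..(hiE T q Q : ℝ), u x) =
          q * (Real.pi * ∫ x in (-(5 * (q : ℝ)))..(-(4 * q)), u x) := by
        intro Q hQ
        have hb : Bl T false Q := bl_false.2 hQ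
        have hl : ((loE T q Q : ℤ) : ℝ) = -(5 * q) := by
          unfold loE
          rw [if_pos hb]
          push_cast
          ring
        have hh : ((hiE T q Q : ℤ) : ℝ) = -(4 * q) := by
          unfold hiE
          rw [if_pos hb]
          push_cast
          ring
        rw [hl, hh, hD0 Q (Or.inr hQ), sd_false (not_S_of_S' hQ)]
        show (5 * q * ((1 : ℤ) : ℝ) - 4 * q - ((0 : ℤ) : ℝ)) * _ = _
        push_cast
        ring
      rw [Finset.sum_congr rfl e7, Finset.sum_const, T.card_S', nsmul_eq_mul]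
      push_cast
      ring
    rw [e1, e4, e6]
    ring
  change -Real.pi * (0 * (u ((labels q hr).m0 : ℝ) *
    P.labInt (dAct q hr) H (labels q hr).lab Lb.zero (fun _ => 1)) +
    -10 * q * (u ((labels q hr).mi : ℝ) *
      P.labInt (dAct q hr) H (labels q hr).lab Lb.inf (fun _ => 1)) +
    ∑ v ∈ sV hr, mU q D₀ v * (Real.pi *
      ∫ x in ((labels q hr).mm v : ℝ)..((labels q hr).mp v : ℝ), u x)) = _
  rw [hsum, hmi]
  have hpi : Real.pi ≠ 0 := Real.pi_ne_zero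
  field_simp
  ring

end Sig

end

end Pool.Agent.YTDA
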