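import Pool.Agent.YTDA.SigLabels
import Pool.Agent.YTDA.F3Main
import Pool.Agent.YTDA.F1
import Pool.Agent.YTDA.ResK
import Pool.Agent.YTDA.Orbit5
import Pool.Agent.YTDA.ResLab
import Pool.Agent.YTDA.SigF2
import Pool.Agent.YTDA.Pou

/-!
# T13: the residue identities on the concrete surface
-/

set_option autoImplicit false

namespace Pool.Agent.YTDA

open Complex Set Topology ContDiff Filter Metric MeasureTheory
open Pool.Agent.YTD

noncomputable section

/-! ### The residue theorem with labels -/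

namespace PolAtlas

variable {Y : Type} [MulAction ℂˣ Y] {A : PolAtlas 2 Y}

/-- **M4** -/
theorem Part.res_labels (P : A.Part) (D : A.DAct) {H : Y → ℝ} (hK : A.IsKahler H)
    (hinv : ∀ (c : ℂˣ) y, ‖(c : ℂ)‖ = 1 → H (D.act c y) = H y) (L : Labels A D)
    (F : Y → ℝ) (hF : ∀ (c : ℂˣ) y, F (c • y) = F y)
    (G : A.ι → E 2 → ℝ) (hG : ∀ a, ContDiffOn ℝ ∞ (G a) (A.U a))
    (M0 Mi : ℝ) (Mv : L.V → ℝ) (s : Finset L.V) (hs : ∀ v ∉ s, Mv v = 0)
    (hFG : ∀ a, ∀ z ∈ A.U a, z 0 ≠ 0 → z 1 ≠ 0 →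
      F (A.γ a z) = G a z + ∑ j, (L.lab a j).mult M0 Mi Mv * Real.log (‖z j‖ ^ 2))
    (u : ℝ → ℝ) (hu : ContDiff ℝ ∞ u) :
    P.int (A.resF D H u G (fun a j => (L.lab a j).mult M0 Mi Mv)) =
      ((- Real.pi * (M0 * (u L.m0 * P.labInt D H L.lab Lb.zero (fun _ => 1)) +
        Mi * (u L.mi * P.labInt D H L.lab Lb.inf (fun _ => 1)) +
        ∑ v ∈ s, Mv v * (Real.pi * ∫ x in (L.mm v : ℝ)..(L.mp v : ℝ), u x)) : ℝ) : ℂ) :=
  P.res_lab_of D L G M0 Mi Mv s hs u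
    (P.res D hK hinv F hF G hG (fun a j => (L.lab a j).mult M0 Mi Mv) hFG u hu)
    (fun v _ => P.vert_int D hK hinv L v u hu)

/-- the residue theorem for smooth functions -/
theorem Part.res_smooth (P : A.Part) (D : A.DAct) {H : Y → ℝ} (hK : A.IsKahler H)
    (hinv : ∀ (c : ℂˣ) y, ‖(c : ℂ)‖ = 1 → H (D.act c y) = H y)
    (G : A.ι → E 2 → ℝ) (hG : ∀ a, ContDiffOn ℝ ∞ (G a) (A.U a))
    (hGG : ∀ a b, ∀ z ∈ A.U a, ∀ z' ∈ A.U b, ∀ c : ℂˣ, A.γ b z' = c • A.γ a z →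
      G b z' = G a z) (u : ℝ → ℝ) (hu : ContDiff ℝ ∞ u) :
    P.int (A.resF D H u G (fun _ _ => 0)) = 0 := by
  obtain ⟨F, hF, hF'⟩ := f3_glue (A := A) G (fun _ => True)
    (fun a b z hz z' hz' _ _ c h => hGG a b z hz z' hz' c h)
  rw [P.res D hK hinv F hF G hG (fun _ _ => 0) (fun a z hz _ _ => by
    rw [hF' a z hz trivial]
    simp) u hu]
  simp

end PolAtlas

namespace Sig

variable {K : Type} [Field K] [Algebra ℂ K] {T : Datum K} {q : ℕ} {D₀ : T.X.Pt →₀ ℤ}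
  {An : AnCurve T.X.toCurveOrd} {r : T.X.Pt → ℝ} {x₀ : K} {d : T.X.Pt →₀ ℤ}

/-! ### F3 -/

/-- multiplicities of the volume form on the vertical curves -/
def mV (d : T.X.Pt →₀ ℤ) : VL An r → ℝ
  | .inl Q => -(d Q.1 : ℝ)
  | .inr _ => 0

theorem isoPt_d (hiso : ∀ P, ∀ s ∈ ball (0 : ℂ) (r P), s ≠ 0 → d (An.c P s) = 0) {Q : T.X.Pt}
    (hQ : d Q ≠ 0) : IsoPt An r Q := by
  intro P s hs h0 he
  apply hQ
  rw [← he]
  exact hiso P s hs h0

theorem mV_mult (hiso : ∀ P, ∀ s ∈ ball (0 : ℂ) (r P), s ≠ 0 → d (An.c P s) = 0)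
    (hdS : ∀ P ∈ T.S, d P = 0) (hdS' : ∀ P ∈ T.S', d P = 0) :
    ∀ (a : T.X.Pt × Fin 3), (UU r a).Nonempty → ∀ j,
      (toLb An r (lab a j)).mult 1 1 (mV d) = SigModel.mF d a.1 a.2 j := by
  have hw : ∀ Q, (toLb An r (.fi Q)).mult 1 1 (mV d) = -(d Q : ℝ) := by
    intro Q
    by_cases h : IsoPt An r Q
    · rw [toLb_fi h]
      rfl
    · rw [toLb_fi' h]
      have h0 : d Q = 0 := by
        by_contra h1
        exact h (isoPt_d hiso h1)
      rw [h0, Int.cast_zero, neg_zero]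
      rfl
  have hx : ∀ Q, Exc T Q → (toLb An r (.ex Q)).mult 1 1 (mV d) = 0 := by
    intro Q h
    rw [toLb_ex h]
    rfl
  have hh : ∀ σ, (toLb An r (hor T σ)).mult 1 1 (mV d) = 1 := by
    intro σ
    cases σ <;> rfl
  have hd0 : ∀ P, Exc T P → d P = 0 := by
    rintro P (h | h)
    · exact hdS P h
    · exact hdS' P h
  have hei : ∀ σ : Bool, ei σ ≠ 2 := by
    intro σ h
    cases σ <;> cases h
  apply chart_types'
  · intro P σ hb _ j
    rw [lab_pc hb]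
    show _ = SigModel.mF d P (ei σ) j
    unfold SigModel.mF
    rw [if_neg (hei σ)]
    fin_cases j
    · exact hw P
    · exact hh σ
  · intro P σ hb _ j
    rw [lab_bl hb]
    show _ = SigModel.mF d P (ei σ) j
    unfold SigModel.mF
    rw [if_neg (hei σ)]
    fin_cases j
    · show (toLb An r (.ex P)).mult 1 1 (mV d) = -(d P : ℝ)
      rw [hx P hb.1, hd0 P hb.1, Int.cast_zero, neg_zero]
    · exact hh σ
  · intro P hP _ j
    rw [lab_two hP]
    show _ = SigModel.mF d P 2 j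
    unfold SigModel.mF
    rw [if_pos rfl]
    fin_cases j
    · exact hx P hP
    · show (toLb An r (.fi P)).mult 1 1 (mV d) = 0
      rw [hw, hd0 P hP, Int.cast_zero, neg_zero]
  · rintro P hP ⟨z, hz⟩
    rw [UU_two] at hz
    exact (hP hz.1).elim

theorem mV_vert (hd : ∀ P, Exc T P → d P = 0) (v : VL An r) (hv : mV d v ≠ 0) :
    loV q v = -(5 * q) ∧ hiV q v = 5 * q := by
  rcases v with Q | Q
  · have h0 : d Q.1 ≠ 0 := by
      intro h
      apply hv
      show -(d Q.1 : ℝ) = 0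
      rw [h, Int.cast_zero, neg_zero]
    have hb : ∀ σ, ¬ Bl T σ Q.1 := fun σ h => h0 (hd _ h.1)
    constructor
    · show loF T q Q.1 = _
      unfold loF
      rw [if_neg (hb false)]
      ring
    · show hiF T q Q.1 = _
      unfold hiF
      rw [if_neg (hb true)]
  · exact (hv rfl).elim

open Classical in
/-- the vertical curves with non-zero multiplicity -/
def sVd (hiso : ∀ P, ∀ s ∈ ball (0 : ℂ) (r P), s ≠ 0 → d (An.c P s) = 0) :
    Finset (VL An r) :=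
  d.support.attach.image fun Q => Sum.inl ⟨Q.1, isoPt_d hiso (Finsupp.mem_support_iff.1 Q.2)⟩

theorem sVd_zero (hiso : ∀ P, ∀ s ∈ ball (0 : ℂ) (r P), s ≠ 0 → d (An.c P s) = 0)
    (v : VL An r) (hv : v ∉ sVd hiso) : mV d v = 0 := by
  classical
  rcases v with Q | Q
  · by_contra h
    apply hv
    unfold sVd
    have h0 : d Q.1 ≠ 0 := by
      intro h'
      apply h
      show -(d Q.1 : ℝ) = 0
      rw [h', Int.cast_zero, neg_zero]
    rw [Finset.mem_image]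
    exact ⟨⟨Q.1, Finsupp.mem_support_iff.2 h0⟩, Finset.mem_attach _ _, rfl⟩
  · rfl

theorem sum_mV (hiso : ∀ P, ∀ s ∈ ball (0 : ℂ) (r P), s ≠ 0 → d (An.c P s) = 0) :
    ∑ v ∈ sVd hiso, mV d v = -(T.X.deg d : ℝ) := by
  classical
  unfold sVd
  rw [Finset.sum_image]
  · show ∑ Q ∈ d.support.attach, -(d Q.1 : ℝ) = _
    rw [Finset.sum_attach d.support (fun Q => -(d Q : ℝ)), Finset.sum_neg_distrib]
    have e2 : T.X.deg d = ∑ P ∈ d.support, d P := rfl
    rw [e2]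
    push_cast
    rfl
  · intro a _ b _ h
    have h1 := Subtype.mk.inj (Sum.inl.inj h)
    exact Subtype.ext h1

/-! ### F1 -/

theorem ew_wm (a : T.X.Pt × Fin 3) (j : Fin 2) (h : a.2 = 2 → Exc T a.1) :
    ((ew a j : ℤ) : ℝ) = wm T a.1 a.2 j := by
  obtain ⟨P, i⟩ := a
  unfold ew wm
  fin_cases i
  · by_cases hP : P ∈ T.S'
    · have hb : Bl T false P := bl_false.2 hP
      fin_cases j <;> simp [side, ev, sg, hb, hP]
    · have hb : ¬ Bl T false P := fun h' => hP (bl_false.1 h')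
      fin_cases j <;> simp [side, ev, sg, hb, hP]
  · by_cases hP : P ∈ T.S
    · have hb : Bl T true P := bl_true.2 hP
      fin_cases j <;> simp [side, ev, sg, hb, hP]
    · have hb : ¬ Bl T true P := fun h' => hP (bl_true.1 h')
      fin_cases j <;> simp [side, ev, sg, hb, hP]
  · by_cases hP : P ∈ T.S
    · have hb : sd T P = true := sd_true hP
      fin_cases j <;> simp [side, ev, sg, hb, hP]
    · have hb : sd T P = false := sd_false hP
      fin_cases j <;> simp [side, ev, sg, hb, hP]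

open Classical in
variable (An r) in
/-- the exceptional curves over a set of points -/
def sE (S : Finset T.X.Pt) (hS : ∀ P ∈ S, Exc T P) : Finset (VL An r) :=
  S.attach.image fun Q => Sum.inr ⟨Q.1, hS Q.1 Q.2⟩

theorem mem_sE {S : Finset T.X.Pt} {hS : ∀ P ∈ S, Exc T P} {v : VL An r} :
    v ∈ sE An r S hS ↔ ∃ (P : T.X.Pt) (hP : P ∈ S), v = Sum.inr ⟨P, hS P hP⟩ := by
  classical
  unfold sE
  rw [Finset.mem_image]
  constructor
  · rintro ⟨Q, _, rfl⟩
    exact ⟨Q.1, Q.2, rfl⟩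
  · rintro ⟨P, hP, rfl⟩
    exact ⟨⟨P, hP⟩, Finset.mem_attach _ _, rfl⟩

theorem sum_sE {S : Finset T.X.Pt} {hS : ∀ P ∈ S, Exc T P} (g : VL An r → ℝ) (c : ℝ)
    (hg : ∀ P (hP : P ∈ S), g (Sum.inr ⟨P, hS P hP⟩) = c) :
    ∑ v ∈ sE An r S hS, g v = S.card * c := by
  classical
  unfold sE
  rw [Finset.sum_image]
  · rw [Finset.sum_congr rfl (fun Q _ => hg Q.1 Q.2), Finset.sum_const, Finset.card_attach,
      nsmul_eq_mul]
  · intro a _ b _ h
    have h1 := Subtype.mk.inj (Sum.inr.inj h)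
    exact Subtype.ext h1

theorem wm_mult {P : T.X.Pt} {i : Fin 3} {j : Fin 2} (h : (UU r (P, i)).Nonempty) :
    (toLb An r (lab (P, i) j)).mult 1 (-1) mW = wm T P i j := by
  obtain ⟨z, hz⟩ := h
  rw [← ew_mult (P, i) j hz]
  refine ew_wm (P, i) j fun hi => ?_
  have hi' : i = 2 := hi
  subst hi'
  rw [UU_two] at hz
  exact hz.1

variable (T) in
theorem exc_S : ∀ P ∈ T.S, Exc T P := fun _ h => Or.inl h

variable (T) in
theorem exc_S' : ∀ P ∈ T.S', Exc T P := fun _ h => Or.inr h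

variable (An r) in
open Classical in
/-- the exceptional curves -/
def sW : Finset (VL An r) := sE An r T.S (exc_S T) ∪ sE An r T.S' (exc_S' T)

theorem mem_sW (Q : {Q : T.X.Pt // Exc T Q}) : (Sum.inr Q : VL An r) ∈ sW An r := by
  classical
  unfold sW
  rw [Finset.mem_union, mem_sE, mem_sE]
  obtain ⟨Q, h | h⟩ := Q
  · exact Or.inl ⟨Q, h, rfl⟩
  · exact Or.inr ⟨Q, h, rfl⟩

theorem sW_zero (v : VL An r) (hv : v ∉ sW An r) : mW v = 0 := by
  rcases v with Q | Q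
  · rfl
  · exact (hv (mem_sW Q)).elim

theorem disj_sE : Disjoint (sE An r T.S (exc_S T)) (sE An r T.S' (exc_S' T)) := by
  rw [Finset.disjoint_left]
  intro v h1 h2
  rw [mem_sE] at h1 h2
  obtain ⟨P, hP, rfl⟩ := h1
  obtain ⟨P', hP', h⟩ := h2
  have h3 : P = P' := congrArg Subtype.val (Sum.inr.inj h)
  subst h3
  exact Finset.disjoint_left.1 T.disj hP hP'

theorem sum_sW (g : VL An r → ℝ) (c c' : ℝ)
    (hg : ∀ P (hP : P ∈ T.S), g (Sum.inr ⟨P, exc_S T P hP⟩) = c)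
    (hg' : ∀ P (hP : P ∈ T.S'), g (Sum.inr ⟨P, exc_S' T P hP⟩) = c') :
    ∑ v ∈ sW An r, g v = 100 * T.t * (c + c') := by
  classical
  unfold sW
  rw [Finset.sum_union disj_sE, sum_sE g c hg, sum_sE g c' hg', T.card_S, T.card_S']
  push_cast
  ring

theorem loV_S {P : T.X.Pt} (h : P ∈ T.S) : loV q (Sum.inr ⟨P, exc_S T P h⟩ : VL An r) = 4 * q := by
  show loE T q P = _
  unfold loE
  rw [if_neg]
  intro hb
  exact Finset.disjoint_left.1 T.disj h (bl_false.1 hb)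

theorem hiV_S {P : T.X.Pt} (h : P ∈ T.S) : hiV q (Sum.inr ⟨P, exc_S T P h⟩ : VL An r) = 5 * q := by
  show hiE T q P = _
  unfold hiE
  rw [if_neg]
  intro hb
  exact Finset.disjoint_left.1 T.disj h (bl_false.1 hb)

theorem loV_S' {P : T.X.Pt} (h : P ∈ T.S') :
    loV q (Sum.inr ⟨P, exc_S' T P h⟩ : VL An r) = -(5 * q) := by
  show loE T q P = _
  unfold loE
  rw [if_pos (bl_false.2 h)]
  ring

theorem hiV_S' {P : T.X.Pt} (h : P ∈ T.S') :
    hiV q (Sum.inr ⟨P, exc_S' T P h⟩ : VL An r) = -(4 * q) := by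
  show hiE T q P = _
  unfold hiE
  rw [if_pos (bl_false.2 h)]
  ring

theorem mW_S {P : T.X.Pt} (h : P ∈ T.S) : mW (Sum.inr ⟨P, exc_S T P h⟩ : VL An r) = -1 := by
  show ((sg (sd T P) : ℤ) : ℝ) = -1
  rw [sd_true h]
  show ((-1 : ℤ) : ℝ) = -1
  norm_num

theorem mW_S' {P : T.X.Pt} (h : P ∈ T.S') : mW (Sum.inr ⟨P, exc_S' T P h⟩ : VL An r) = 1 := by
  show ((sg (sd T P) : ℤ) : ℝ) = 1
  rw [sd_false (not_S_of_S' h)]
  show ((1 : ℤ) : ℝ) = 1
  norm_num

end Sig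

open Sig

section Main

variable {K : Type} [Field K] [Algebra ℂ K] {T : Datum K} {q : ℕ} {D₀ : T.X.Pt →₀ ℤ}
  {An : AnCurve T.X.toCurveOrd} {r : T.X.Pt → ℝ} {x₀ : K} {d : T.X.Pt →₀ ℤ}

/-- **F3** -/
theorem sig_f3 (hr : IsRad D₀ An r) (Q : (sigModelOf T q D₀ An hr).A.Part)
    {H : (sigModelOf T q D₀ An hr).Y → ℝ} {s : ℂ}
    (hd : (sigModelOf T q D₀ An hr).DiffHyp x₀ d) (hdeg : T.X.deg d = 2 * T.X.genus - 2)
    (hK : (sigModelOf T q D₀ An hr).A.IsKahler H)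
    (hp : (sigModelOf T q D₀ An hr).A.IsPde (sigModelOf T q D₀ An hr).D q s H)
    {f : ℝ → ℝ} (hf : ContDiff ℝ ∞ f) :
    Q.dhL (sigModelOf T q D₀ An hr).D H q (deriv (deriv f)) +
        s.re * Q.dhI (sigModelOf T q D₀ An hr).D H (fun x => f x * PP q x) =
      100 * q * Q.dhI (sigModelOf T q D₀ An hr).D H f + Real.pi ^ 2 *
        (f (-(5 * q)) * PP q (-(5 * q)) *
            (1 / Real.pi * Q.labInt (sigModelOf T q D₀ An hr).D H (labels q hr).lab Lb.zero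
              (fun _ => 1)) +
          f (5 * q) * PP q (5 * q) *
            (1 / Real.pi * Q.labInt (sigModelOf T q D₀ An hr).D H (labels q hr).lab Lb.inf
              (fun _ => 1)) -
        18 * T.t * (∫ x in (-(5 * q) : ℝ)..(5 * q : ℝ), f x * PP q x)) := by
  have hd0 : ∀ P, Exc T P → d P = 0 := by
    rintro P (h | h)
    · exact hd.S P h
    · exact hd.S' P h
  refine SigModel.f3_target Q hd hK hp (labels q hr) (mV d) (sVd hd.iso) (sVd_zero hd.iso) T.t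
    ?_ rfl rfl ?_ ?_ ?_ hf
  · intro P i j hne
    exact mV_mult hd.iso hd.S hd.S' (P, i) hne j
  · intro u _
    have h1 : ∀ v ∈ sVd hd.iso, mV d v * (Real.pi * ∫ x in ((loV q v : ℤ) : ℝ)..((hiV q v : ℤ) : ℝ), u x) =
        mV d v * (Real.pi * ∫ x in (-(5 * q) : ℝ)..(5 * q : ℝ), u x) := by
      intro v _
      by_cases hv : mV d v = 0
      · rw [hv, zero_mul, zero_mul]
      · obtain ⟨e1, e2⟩ := mV_vert (q := q) hd0 v hv
        rw [e1, e2]
        push_cast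
        rfl
    refine (Finset.sum_congr rfl h1).trans ?_
    rw [← Finset.sum_mul, sum_mV, hdeg, T.genus_eq]
    push_cast
    ring
  · intro G hG hGG u hu
    exact Q.res_smooth _ hK hp.inv G hG hGG u hu
  · intro F hF G hG hFG u hu
    exact Q.res_labels _ hK hp.inv (labels q hr) F hF G hG 1 1 (mV d) (sVd hd.iso)
      (sVd_zero hd.iso) hFG u hu

theorem f1_alg {p a0 ai u0 ui S I J t : ℝ} (hp : p ≠ 0)
    (h : S = 100 * t * (-1 * (p * J) + 1 * (p * I))) :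
    -p * (1 * (u0 * a0) + -1 * (ui * ai) + S) =
      p ^ 2 * (-u0 * (1 / p * a0) + ui * (1 / p * ai) - 100 * t * I + 100 * t * J) := by
  rw [h]
  field_simp
  ring

/-- **F1** -/
theorem sig_f1 (hr : IsRad D₀ An r) (Q : (sigModelOf T q D₀ An hr).A.Part)
    {H : (sigModelOf T q D₀ An hr).Y → ℝ}
    (hK : (sigModelOf T q D₀ An hr).A.IsKahler H)
    (hinv : ∀ (c : ℂˣ) y, ‖(c : ℂ)‖ = 1 → H ((sigModelOf T q D₀ An hr).D.act c y) = H y)
    {u : ℝ → ℝ} (hu : ContDiff ℝ ∞ u) :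
    Q.dhI (sigModelOf T q D₀ An hr).D H (deriv u) = Real.pi ^ 2 *
      (-u (-(5 * q)) *
            (1 / Real.pi * Q.labInt (sigModelOf T q D₀ An hr).D H (labels q hr).lab Lb.zero
              (fun _ => 1)) +
        u (5 * q) *
            (1 / Real.pi * Q.labInt (sigModelOf T q D₀ An hr).D H (labels q hr).lab Lb.inf
              (fun _ => 1)) -
        100 * T.t * (∫ x in (-(5 * q) : ℝ)..(-(4 * q) : ℝ), u x) +
        100 * T.t * (∫ x in (4 * q : ℝ)..(5 * q : ℝ), u x)) := by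
  refine (SigModel.f1 (sigModelOf T q D₀ An hr) Q (labels q hr) mW (sW An r)
    (fun P i j hne => wm_mult hne) u _
    (Q.res_labels _ hK hinv (labels q hr) (sigModelOf T q D₀ An hr).lw
      (sigModelOf T q D₀ An hr).lw_smul (fun _ _ => 0) (fun _ => contDiffOn_const) 1 (-1) mW
      (sW An r) sW_zero ?_ u hu)).trans ?_
  · rintro ⟨P, i⟩ z hz h0 h1
    refine ((sigModelOf T q D₀ An hr).lw_γ (P := P) (i := i) hz h0 h1).trans ?_
    rw [log_wco P i h0 h1, zero_add]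
    refine Finset.sum_congr rfl fun j _ => ?_
    have h := wm_mult (An := An) (P := P) (i := i) (j := j) (r := r) ⟨z, hz⟩
    rw [← h]
    rfl
  · have e0 : (((-5 * (q : ℤ) : ℤ)) : ℝ) = -(5 * (q : ℝ)) := by push_cast; ring
    have e1 : (((5 * (q : ℤ) : ℤ)) : ℝ) = 5 * (q : ℝ) := by push_cast; ring
    have hm0 : (labels q hr).m0 = -5 * q := rfl
    have hmi : (labels q hr).mi = 5 * q := rfl
    rw [hm0, hmi, e0, e1]
    have hsum := sum_sW (An := An) (r := r) (fun v => mW v *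
      (Real.pi * ∫ x in ((loV q v : ℤ) : ℝ)..((hiV q v : ℤ) : ℝ), u x))
      (-1 * (Real.pi * ∫ x in (4 * q : ℝ)..(5 * q : ℝ), u x))
      (1 * (Real.pi * ∫ x in (-(5 * q) : ℝ)..(-(4 * q) : ℝ), u x))
      (fun P hP => by
        show mW _ * (Real.pi * ∫ x in ((loV q _ : ℤ) : ℝ)..((hiV q _ : ℤ) : ℝ), u x) = _
        rw [mW_S hP, loV_S hP, hiV_S hP]
        push_cast
        rfl)
      (fun P hP => by
        show mW _ * (Real.pi * ∫ x in ((loV q _ : ℤ) : ℝ)..((hiV q _ : ℤ) : ℝ), u x) = _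
        rw [mW_S' hP, loV_S' hP, hiV_S' hP]
        push_cast
        rfl)
    exact f1_alg Real.pi_ne_zero hsum

theorem mm_bound (a : T.X.Pt × Fin 3) : 4 * (q : ℝ) ≤ |((mm q a : ℤ) : ℝ)| := by
  revert a
  have hq : (0 : ℝ) ≤ q := Nat.cast_nonneg q
  apply chart_cases
  · intro P σ
    rw [mm_ei']
    cases σ
    · show 4 * (q : ℝ) ≤ |((-(5 * q * 1) : ℤ) : ℝ)|
      push_cast
      rw [mul_one, abs_neg, abs_of_nonneg (by linarith)]
      linarith
    · show 4 * (q : ℝ) ≤ |((-(5 * q * -1) : ℤ) : ℝ)|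
      push_cast
      rw [mul_neg, mul_one, neg_neg, abs_of_nonneg (by linarith)]
      linarith
  · intro P
    rw [mm_two']
    cases sd T P
    · show 4 * (q : ℝ) ≤ |((-(4 * q * 1) : ℤ) : ℝ)|
      push_cast
      rw [mul_one, abs_neg, abs_of_nonneg (by linarith)]
    · show 4 * (q : ℝ) ≤ |((-(4 * q * -1) : ℤ) : ℝ)|
      push_cast
      rw [mul_neg, mul_one, neg_neg, abs_of_nonneg (by linarith)]

/-- **T13**: the equation has no solution on `Σ`. -/
theorem sigOf_false (hr : IsRad D₀ An r) (hq : 0 < q) (hD : T.X.deg D₀ = 105 * T.t * q)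
    (hS : ∀ P ∈ T.S, D₀ P = 0) (hS' : ∀ P ∈ T.S', D₀ P = 0)
    (hd : (sigModelOf T q D₀ An hr).DiffHyp x₀ d) (hdeg : T.X.deg d = 2 * T.X.genus - 2)
    {H : (sigModelOf T q D₀ An hr).Y → ℝ} {s : ℂ}
    (hK : (sigModelOf T q D₀ An hr).A.IsKahler H)
    (hp : (sigModelOf T q D₀ An hr).A.IsPde (sigModelOf T q D₀ An hr).D q s H) : False := by
  obtain ⟨Q⟩ := PolAtlas.exists_part (sigModelOf T q D₀ An hr).cpt (sigModelOf T q D₀ An hr).t2
  have hE : ∀ Q, Exc T Q → D₀ Q = 0 := by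
    rintro P (h | h)
    · exact hS P h
    · exact hS' P h
  have hinv := hp.inv
  have ht : (0 : ℝ) < T.t := by exact_mod_cast T.t_pos
  have hq' : (0 : ℝ) < q := by exact_mod_cast hq
  refine Q.t13_of (sigModelOf T q D₀ An hr).D (H := H) (q := (q : ℝ)) (t := (T.t : ℝ)) hq' ht hK
    (fun a _ => mm_bound a) s.re
    (1 / Real.pi * Q.labInt (sigModelOf T q D₀ An hr).D H (labels q hr).lab Lb.zero
      (fun _ => 1))
    (1 / Real.pi * Q.labInt (sigModelOf T q D₀ An hr).D H (labels q hr).lab Lb.inf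
      (fun _ => 1))
    (fun u hu => sig_f1 hr Q hK hinv hu)
    (fun u hu => F2_of hr Q hK hinv hE hD
      (fun F hF G hG M hFG u hu => Q.res (dAct q hr) hK hinv F hF G hG M hFG u hu)
      (fun v u hu => Q.vert_int (dAct q hr) hK hinv (labels q hr) v u hu) u hu)
    (fun f hf => sig_f3 hr Q hd hdeg hK hp hf)

/-- **T13** for the canonical radii. -/
theorem sig_false (hq : 0 < q) (hD : T.X.deg D₀ = 105 * T.t * q)
    (hS : ∀ P ∈ T.S, D₀ P = 0) (hS' : ∀ P ∈ T.S', D₀ P = 0)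
    (hd : ∀ P, meromorphicOrderAt (deriv (An.fn P x₀)) 0 = ((d P : ℤ) : WithTop ℤ))
    (hiso : ∀ P, ∀ s ∈ ball (0 : ℂ) ((sigModel T q D₀ An).r P), s ≠ 0 → d (An.c P s) = 0)
    (hdeg : T.X.deg d = 2 * T.X.genus - 2)
    (hdS : ∀ P ∈ T.S, d P = 0) (hdS' : ∀ P ∈ T.S', d P = 0)
    {H : (sigModel T q D₀ An).Y → ℝ} {s : ℂ} (hK : (sigModel T q D₀ An).A.IsKahler H)
    (hp : (sigModel T q D₀ An).A.IsPde (sigModel T q D₀ An).D q s H) : False :=
  sigOf_false (isRad_rad D₀ An) hq hD hS hS' (x₀ := x₀) (d := d) ⟨hd, hiso, hdS, hdS'⟩ hdeg hK hp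

end Main

end

end Pool.Agent.YTDA
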