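import Pool.Agent.YTDA.CscX
import Pool.Agent.YTDA.SigFalse

/-!
# There is no invariant Kähler metric of constant scalar curvature on `X`
-/

set_option autoImplicit false

namespace Pool.Agent.YTDA

open Complex Set Topology Filter Metric Module
open Pool.Agent.YTD

noncomputable section

variable {K : Type} [Field K] [Algebra ℂ K] {T : Datum K} {q : ℕ} {D₀ : T.X.Pt →₀ ℤ}
  {An : AnCurve T.X.toCurveOrd}

/-- NOCSC: there is no metric of constant scalar curvature on `X` which is invariant under the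
first two involutions. -/
theorem noCsc {γ : Gam T} (G : TwoP1.GamX (M := sigModel T q D₀ An) γ)
    (X : TwoP1 (sigModel T q D₀ An).A (sigModel T q D₀ An).D (25 * (q : ℤ)) 3 (25 * (q : ℤ)) (-3))
    (hq : 0 < q) (hD : T.X.deg D₀ = 105 * T.t * q) (hc : X.B₂.IsCpt) (ht : X.B₂.IsT2)
    (hS : ∀ P ∈ T.S, D₀ P = 0) (hS' : ∀ P ∈ T.S', D₀ P = 0)
    (x₀ : K) (d : T.X.Pt →₀ ℤ)
    (hd : ∀ P, meromorphicOrderAt (deriv (An.fn P x₀)) 0 = ((d P : ℤ) : WithTop ℤ))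
    (hiso : ∀ P, ∀ s ∈ ball (0 : ℂ) (An.r P), s ≠ 0 → d (An.c P s) = 0)
    (hdeg : T.X.deg d = 2 * T.X.genus - 2) (hdS : ∀ P ∈ T.S, d P = 0) (hdS' : ∀ P ∈ T.S', d P = 0)
    (H : P1Y X.D₁ (25 * (q : ℤ)) (-3) → ℝ) (hH : X.B₂.IsKahler H)
    (h₁ : ∀ y, H (G.e₁ X y) = H y) (h₂ : ∀ y, H (G.e₂ X y) = H y)
    (s : ℂ) : ¬ X.B₂.IsCsc H s := by
  intro hcsc
  obtain ⟨h, hK, hp⟩ := X.exists_pde G hc ht H hH h₁ h₂ s hcsc
  exact sig_false (x₀ := x₀) (d := d) hq hD hS hS' hd (fun P t hts h0 => hiso P t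
    (ball_subset_ball ((sigModel T q D₀ An).r_le P) hts) h0) hdeg hdS hdS' hK hp

end

end Pool.Agent.YTDA
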