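import Pool.Agent.YTDA.HolC

/-!
# No holomorphic vector fields on an analytic curve with a differential of positive degree

T6 (c).
-/

namespace Pool.Agent.YTDA

open Complex Set Topology Metric Filter Module
open Pool.Agent.YTD

noncomputable section

namespace AnCurve

variable {K : Type} [Field K] [Algebra ℂ K] {X : CurveOrd K} (An : AnCurve X)

/-- A holomorphic vector field on an analytic curve, as a family of local expressions. -/
structure VecFam (W : X.Pt → ℂ → ℂ) : Prop where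
  hol : ∀ P, DifferentiableOn ℂ (W P) (ball 0 (An.r P))
  tr : ∀ P Q, ∀ s ∈ ball 0 (An.r P), ∀ s' ∈ ball 0 (An.r Q), An.c P s = An.c Q s' →
    ∀ f : ℂ → ℂ, AnalyticAt ℂ f s → f s = s' → deriv f s ≠ 0 →
    (∀ᶠ σ in 𝓝 s, An.c Q (f σ) = An.c P σ) → W Q s' = deriv f s * W P s

/-- the order of the differential of a rational function at a point -/
def ordd (x : K) (P : X.Pt) : ℤ := (meromorphicOrderAt (deriv (An.fn P x)) 0).untop₀

variable {An}

/-- A rational function which is constant near a point of a disc is constant. -/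
theorem eq_const_of_eventually' {z : K} {P : X.Pt} {a s : ℂ} (hs : s ∈ ball 0 (An.r P))
    (h : An.fn P z =ᶠ[𝓝[≠] s] fun _ => a) : z = algebraMap ℂ K a := by
  by_contra hne
  have h0 : z + algebraMap ℂ K (-a) ≠ 0 := by
    rw [map_neg, ← sub_eq_add_neg]
    exact sub_ne_zero.2 hne
  have h1 := An.ord P _ h0 s hs
  have h2 : An.fn P (z + algebraMap ℂ K (-a)) =ᶠ[𝓝[≠] s] 0 := by
    filter_upwards [An.fn_add P z (algebraMap ℂ K (-a)) s hs,
      An.fn_const P (-a) s hs, h] with σ h3 h4 h5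
    rw [h3, Pi.add_apply, h4, h5, Pi.zero_apply]
    ring
  rw [meromorphicOrderAt_eq_top_iff.2 h2] at h1
  exact WithTop.top_ne_coe h1

/-- the derivative of the local expression of a non-constant function vanishes nowhere
identically -/
theorem deriv_fn_ne {x : K} (hx : ∀ a : ℂ, x ≠ algebraMap ℂ K a) {P : X.Pt} {s : ℂ}
    (hs : s ∈ ball 0 (An.r P)) : ∀ᶠ σ in 𝓝[≠] s, deriv (An.fn P x) σ ≠ 0 := by
  have hm := An.fn_mero P x s hs
  rcases hm.deriv.eventually_eq_zero_or_eventually_ne_zero with h | h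
  · exfalso
    have h1 : ∀ᶠ σ in 𝓝[≠] s, AnalyticAt ℂ (An.fn P x) σ ∧ σ ∈ ball 0 (An.r P) ∧
        deriv (An.fn P x) =ᶠ[𝓝 σ] 0 := by
      have h2 := eventually_eventually_nhdsWithin.2 h
      filter_upwards [hm.eventually_analyticAt,
        nhdsWithin_le_nhds (isOpen_ball.mem_nhds hs), h2, self_mem_nhdsWithin]
        with σ h3 h4 h5 h6
      refine ⟨h3, h4, ?_⟩
      have h7 : 𝓝[{s}ᶜ] σ = 𝓝 σ := isOpen_compl_singleton.nhdsWithin_eq h6
      rw [h7] at h5
      exact h5
    obtain ⟨σ, h3, h4, h5⟩ := h1.exists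
    -- `fn P x` is locally constant at `σ`
    obtain ⟨ε, hε, hball⟩ := Metric.eventually_nhds_iff_ball.1
      (h3.eventually_analyticAt.and h5)
    have hconst : ∀ t ∈ ball σ ε, An.fn P x t = An.fn P x σ := by
      intro t ht
      refine (convex_ball σ ε).is_const_of_fderivWithin_eq_zero (𝕜 := ℂ)
        (f := An.fn P x) ?_ ?_ ht (mem_ball_self hε)
      · intro u hu
        exact (hball u hu).1.differentiableAt.differentiableWithinAt
      · intro u hu
        rw [fderivWithin_of_isOpen isOpen_ball hu]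
        ext
        have := (hball u hu).2
        rw [fderiv_apply_one_eq_deriv, this]
        rfl
    apply hx (An.fn P x σ)
    apply eq_const_of_eventually' h4
    apply Filter.Eventually.filter_mono nhdsWithin_le_nhds
    filter_upwards [ball_mem_nhds σ hε] with t ht
    exact hconst t ht
  · exact h

/-- the chain rule for the transition functions -/
theorem deriv_fn_tr (x : K) {P Q : X.Pt} {s s' : ℂ} (hs : s ∈ ball 0 (An.r P))
    (hs' : s' ∈ ball 0 (An.r Q)) (hc : An.c P s = An.c Q s') {f : ℂ → ℂ}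
    (hf : AnalyticAt ℂ f s) (hfs : f s = s') (hf' : deriv f s ≠ 0)
    (hfc : ∀ᶠ σ in 𝓝 s, An.c Q (f σ) = An.c P σ) :
    ∀ᶠ σ in 𝓝[≠] s, deriv (An.fn Q x) (f σ) * deriv f σ = deriv (An.fn P x) σ := by
  have h1 := (merFam_fn (An := An) x).tr P Q s hs s' hs' hc f hf hfs hf' hfc
  have h2 := eventually_eventually_nhdsWithin.2 h1
  have h3 : Tendsto f (𝓝[≠] s) (𝓝[≠] s') := by
    rw [← hfs]
    exact tendsto_trans hf hf'
  have h4 := h3.eventually ((An.fn_mero Q x s' hs').eventually_analyticAt)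
  have h5 := nhdsWithin_le_nhds (s := {s}ᶜ) hf.eventually_analyticAt
  filter_upwards [h2, h4, h5, self_mem_nhdsWithin] with σ g1 g2 g3 g4
  have h7 : 𝓝[{s}ᶜ] σ = 𝓝 σ := isOpen_compl_singleton.nhdsWithin_eq g4
  rw [h7] at g1
  have h8 : deriv (fun σ => An.fn Q x (f σ)) σ = deriv (An.fn P x) σ :=
    Filter.EventuallyEq.deriv_eq g1
  rw [← h8]
  have h9 : HasDerivAt (fun σ => An.fn Q x (f σ)) (deriv (An.fn Q x) (f σ) * deriv f σ) σ :=
    HasDerivAt.comp σ g2.differentiableAt.hasDerivAt g3.differentiableAt.hasDerivAt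
  exact h9.deriv.symm

theorem order_deriv_fn (x : K) {P : X.Pt} {s : ℂ} (hs : s ∈ ball 0 (An.r P)) :
    meromorphicOrderAt (deriv (An.fn P x)) s =
      meromorphicOrderAt (deriv (An.fn (An.c P s) x)) 0 := by
  obtain ⟨f, hf, hfs, hf', hfc, -⟩ := An.tr P (An.c P s) s hs 0 (mem_ball_zero _)
    (An.c_zero _).symm
  have h1 := deriv_fn_tr x hs (mem_ball_zero _) (An.c_zero _).symm hf hfs hf' hfc
  have h2 : (fun σ => deriv (An.fn (An.c P s) x) (f σ) * deriv f σ) =ᶠ[𝓝[≠] s]
      deriv (An.fn P x) := h1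
  have hcomp : MeromorphicAt (deriv (An.fn (An.c P s) x) ∘ f) s :=
    (meromorphicAt_comp_iff_of_deriv_ne_zero hf hf').2
      (by rw [hfs]; exact (An.fn_mero _ x 0 (mem_ball_zero _)).deriv)
  have hder : AnalyticAt ℂ (deriv f) s := hf.deriv
  rw [← meromorphicOrderAt_congr h2]
  have h3 : meromorphicOrderAt (fun σ => deriv (An.fn (An.c P s) x) (f σ) * deriv f σ) s =
      meromorphicOrderAt (deriv (An.fn (An.c P s) x) ∘ f) s + meromorphicOrderAt (deriv f) s :=
    meromorphicOrderAt_mul hcomp hder.meromorphicAt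
  have h4 : meromorphicOrderAt (deriv f) s = 0 := by
    rw [hder.meromorphicOrderAt_eq, hder.analyticOrderAt_eq_zero.2 hf']
    rfl
  rw [h3, h4, add_zero, meromorphicOrderAt_comp_of_deriv_ne_zero hf hf', hfs]

theorem finite_ordd {x : K} (hx : ∀ a : ℂ, x ≠ algebraMap ℂ K a) :
    (Function.support (An.ordd x)).Finite := by
  have h1 : ∀ P : X.Pt, ∃ ρ > 0, ρ ≤ An.r P ∧ ∀ σ : ℂ, σ ≠ 0 → ‖σ‖ < ρ →
      AnalyticAt ℂ (deriv (An.fn P x)) σ ∧ deriv (An.fn P x) σ ≠ 0 := by
    intro P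
    have h2 := ((An.fn_mero P x 0 (mem_ball_zero P)).deriv.eventually_analyticAt).and
      (deriv_fn_ne (An := An) hx (mem_ball_zero P))
    rw [eventually_nhdsWithin_iff, Metric.eventually_nhds_iff] at h2
    obtain ⟨ε, hε, h⟩ := h2
    refine ⟨min ε (An.r P), lt_min hε (An.r_pos P), min_le_right _ _, fun σ h0 hσ => ?_⟩
    exact h (by rw [dist_zero_right]; exact hσ.trans_le (min_le_left _ _)) h0
  choose ρ hρ hρr hρa using h1
  obtain ⟨F, hF⟩ := An.cpt ρ hρ
  apply F.finite_toSet.subset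
  intro Q hQ
  obtain ⟨P, hP, s, hs, rfl⟩ := hF Q
  by_cases h0 : s = 0
  · subst h0
    rw [An.c_zero]
    exact hP
  · exfalso
    apply hQ
    have h1 := hρa P s h0 hs
    unfold ordd
    rw [← order_deriv_fn x (by rw [mem_ball_zero_iff]; exact hs.trans_le (hρr P)),
      h1.1.meromorphicOrderAt_eq, h1.1.analyticOrderAt_eq_zero.2 h1.2]
    rfl

/-- the pairing of a vector field with the differential of a rational function -/
theorem VecFam.merFam {W : X.Pt → ℂ → ℂ} (hW : An.VecFam W) (x : K) :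
    An.MerFam fun P s => W P s * deriv (An.fn P x) s where
  mero P s hs := by
    have h1 : AnalyticAt ℂ (W P) s := (hW.hol P).analyticAt (isOpen_ball.mem_nhds hs)
    exact h1.meromorphicAt.mul (An.fn_mero P x s hs).deriv
  tr P Q s hs s' hs' hc f hf hfs hf' hfc := by
    have h1 := deriv_fn_tr x hs hs' hc hf hfs hf' hfc
    have h2 : ∀ᶠ σ in 𝓝 s, W Q (f σ) = deriv f σ * W P σ := by
      have g1 := eventually_eventually_nhds.2 hfc
      have g2 := hf.continuousAt.preimage_mem_nhds (isOpen_ball.mem_nhds (by rw [hfs]; exact hs'))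
      have g3 : ∀ᶠ σ in 𝓝 s, deriv f σ ≠ 0 := hf.deriv.continuousAt.eventually_ne hf'
      filter_upwards [g1, g2, g3, hf.eventually_analyticAt, isOpen_ball.mem_nhds hs]
        with σ k1 k2 k3 k4 k5
      exact hW.tr P Q σ k5 (f σ) k2 k1.self_of_nhds.symm f k4 rfl k3 k1
    filter_upwards [h1, h2.filter_mono nhdsWithin_le_nhds] with σ k1 k2
    rw [k2, ← k1]
    ring

end AnCurve

open AnCurve in
/-- T6 (c): a curve with a differential `d x` of positive degree has no holomorphic vector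
fields. -/
theorem AnCurve.VecFam.eq_zero {K : Type} [Field K] [Algebra ℂ K] {X : Curve K}
    {An : AnCurve X.toCurveOrd} {W : X.Pt → ℂ → ℂ} (hW : An.VecFam W) {x : K}
    (hx : ∀ a : ℂ, x ≠ algebraMap ℂ K a) (hsum : 0 < ∑ᶠ P, An.ordd x P) (P : X.Pt) (s : ℂ)
    (hs : s ∈ ball 0 (An.r P)) : W P s = 0 := by
  obtain ⟨z, hz⟩ := (hW.merFam x).exists_fn An.holConst P
  have hz0 : z = 0 := by
    by_contra hne
    have hle : ∀ Q, An.ordd x Q ≤ X.ord Q z := by
      intro Q
      have h1 := An.ord_fn Q hne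
      rw [meromorphicOrderAt_congr (hz Q 0 (mem_ball_zero Q))] at h1
      have hWQ : AnalyticAt ℂ (W Q) 0 :=
        (hW.hol Q).analyticAt (isOpen_ball.mem_nhds (mem_ball_zero Q))
      have h2 : meromorphicOrderAt (fun s => W Q s * deriv (An.fn Q x) s) 0 =
          meromorphicOrderAt (W Q) 0 + meromorphicOrderAt (deriv (An.fn Q x)) 0 :=
        meromorphicOrderAt_mul hWQ.meromorphicAt (An.fn_mero Q x 0 (mem_ball_zero Q)).deriv
      rw [h2] at h1
      have h3 : 0 ≤ meromorphicOrderAt (W Q) 0 := hWQ.meromorphicOrderAt_nonneg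
      unfold ordd
      generalize meromorphicOrderAt (deriv (An.fn Q x)) 0 = b at h1 ⊢
      generalize meromorphicOrderAt (W Q) 0 = a at h1 h3
      induction b using WithTop.recTopCoe with
      | top => rw [add_top] at h1; exact absurd h1 WithTop.top_ne_coe
      | coe b =>
        induction a using WithTop.recTopCoe with
        | top => rw [top_add] at h1; exact absurd h1 WithTop.top_ne_coe
        | coe a =>
          have h4 : a + b = X.ord Q z := by exact_mod_cast h1
          have h5 : 0 ≤ a := by exact_mod_cast h3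
          show b ≤ X.ord Q z
          linarith
    have h1 := finsum_le_finsum' (finite_ordd (An := An) hx) (X.finite_ord z hne) hle
    rw [X.sum_ord z hne] at h1
    linarith
  -- the vector field vanishes
  have h1 : ∀ᶠ σ in 𝓝[≠] s, W P σ = 0 := by
    have h2 := hz P s hs
    rw [hz0] at h2
    filter_upwards [h2, An.fn_zero P hs, deriv_fn_ne hx hs] with σ k1 k2 k3
    rw [k2] at k1
    rcases mul_eq_zero.1 k1.symm with h | h
    · exact h
    · exact absurd h k3
  have hc : ContinuousAt (W P) s :=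
    ((hW.hol P).differentiableAt (isOpen_ball.mem_nhds hs)).continuousAt
  have h3 : Tendsto (W P) (𝓝[≠] s) (𝓝 (W P s)) := hc.tendsto.mono_left nhdsWithin_le_nhds
  have h4 : Tendsto (W P) (𝓝[≠] s) (𝓝 0) :=
    (tendsto_congr' (f₁ := W P) (f₂ := fun _ => (0 : ℂ)) h1).2 tendsto_const_nhds
  exact tendsto_nhds_unique h3 h4

/-- the same analytic structure with smaller discs -/
def AnCurve.shrink {K : Type} [Field K] [Algebra ℂ K] {X : CurveOrd K} (An : AnCurve X)
    (r : X.Pt → ℝ) (h0 : ∀ P, 0 < r P) (h1 : ∀ P, r P ≤ An.r P) : AnCurve X where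
  r := r
  r_pos := h0
  c := An.c
  c_zero := An.c_zero
  inj P := (An.inj P).mono (ball_subset_ball (h1 P))
  fn := An.fn
  fn_mero P z s hs := An.fn_mero P z s (ball_subset_ball (h1 P) hs)
  fn_add P z w s hs := An.fn_add P z w s (ball_subset_ball (h1 P) hs)
  fn_mul P z w s hs := An.fn_mul P z w s (ball_subset_ball (h1 P) hs)
  fn_const P a s hs := An.fn_const P a s (ball_subset_ball (h1 P) hs)
  ord P z hz s hs := An.ord P z hz s (ball_subset_ball (h1 P) hs)
  tr P Q s hs s' hs' h := An.tr P Q s (ball_subset_ball (h1 P) hs) s'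
    (ball_subset_ball (h1 Q) hs') h
  t2 := An.t2
  cpt := An.cpt

/-- T6 (a) with smaller discs. -/
theorem AnCurve.const_of_hol {K : Type} [Field K] [Algebra ℂ K] {X : Curve K}
    (An : AnCurve X.toCurveOrd) (r : X.Pt → ℝ) (h0 : ∀ P, 0 < r P) (h1 : ∀ P, r P ≤ An.r P)
    (f : X.Pt → ℂ) (hf : ∀ P, DifferentiableOn ℂ (fun s => f (An.c P s)) (ball 0 (r P)))
    (P Q : X.Pt) : f P = f Q := by
  obtain ⟨a, ha⟩ := (An.shrink r h0 h1).holConst f hf
  rw [ha P, ha Q]

/-- T6 (c) with smaller discs. -/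
theorem AnCurve.noField {K : Type} [Field K] [Algebra ℂ K] {X : Curve K}
    (An : AnCurve X.toCurveOrd) (r : X.Pt → ℝ) (h0 : ∀ P, 0 < r P) (h1 : ∀ P, r P ≤ An.r P)
    {x : K} (hx : ∀ a : ℂ, x ≠ algebraMap ℂ K a) (hsum : 0 < ∑ᶠ P, An.ordd x P)
    (κ : X.Pt → ℂ → ℂ) (hκ : ∀ P, DifferentiableOn ℂ (κ P) (ball 0 (r P)))
    (htr : ∀ P Q, ∀ s ∈ ball (0 : ℂ) (r P), ∀ s' ∈ ball (0 : ℂ) (r Q), ∀ f : ℂ → ℂ,
      AnalyticAt ℂ f s → f s = s' → (∀ᶠ u in 𝓝 s, An.c Q (f u) = An.c P u) →
      κ Q s' = deriv f s * κ P s) :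
    ∀ P, ∀ s ∈ ball (0 : ℂ) (r P), κ P s = 0 := by
  have hW : (An.shrink r h0 h1).VecFam κ :=
    { hol := hκ
      tr := fun P Q s hs s' hs' _ f hf hfs _ hfc => htr P Q s hs s' hs' f hf hfs hfc }
  exact fun P s hs => hW.eq_zero hx hsum P s hs

end

end Pool.Agent.YTDA
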