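import Pool.Agent.YTDA.Fld

/-!
# Diagonal actions on the bundles over the projective line

For the standard atlas `B` (with index set `e`) of `P1Y D α β`:
`liftD`: lifting of a diagonal action `D₂` of `A` commuting with `D`;
`rotD`: the rotation of the projective line.
-/

set_option autoImplicit false

namespace Pool.Agent.YTDA

open Complex Set Topology

noncomputable section

variable {n : ℕ} {Y : Type} [MulAction ℂˣ Y] {A : PolAtlas n Y} {D : A.DAct} {α β : ℤ}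

/-- append an entry -/
def snocZ {n : ℕ} (k : Fin n → ℤ) (l : ℤ) : Fin (n + 1) → ℤ := Fin.snoc (α := fun _ => ℤ) k l

@[simp] theorem snocZ_castSucc {n : ℕ} (k : Fin n → ℤ) (l : ℤ) (j : Fin n) :
    snocZ k l j.castSucc = k j := by
  simp [snocZ]

@[simp] theorem snocZ_last {n : ℕ} (k : Fin n → ℤ) (l : ℤ) :
    snocZ k l (Fin.last n) = l := by
  simp [snocZ]

theorem ini_dact {n : ℕ} (k : Fin n → ℤ) (l : ℤ) (c : ℂˣ) (z : E (n + 1)) :
    ini (dact (snocZ k l) c z) = dact k c (ini z) := by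
  ext j
  simp [ini, dact]

theorem last_dact {n : ℕ} (k : Fin n → ℤ) (l : ℤ) (c : ℂˣ) (z : E (n + 1)) :
    dact (snocZ k l) c z (Fin.last n) = ((c ^ l : ℂˣ) : ℂ) * z (Fin.last n) := by
  simp [dact]

theorem dact_zero {n : ℕ} (c : ℂˣ) (z : E n) : dact (fun _ => 0) c z = z := by
  ext j
  simp [dact]

theorem dact_mul_left {n : ℕ} (k : Fin n → ℤ) (b : ℤ) (c : ℂˣ) (z : E n) :
    dact (fun j => b * k j) c z = dact k (c ^ b) z := by
  ext j
  simp only [dact, zpow_mul]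

/-! ## Lifting of an action -/

/-- the lift to the bundle of an action commuting with `D` -/
def P1Y.liftAct (D₂ : A.DAct) (hc : ∀ (c c' : ℂˣ) y, D₂.act c (D.act c' y) = D.act c' (D₂.act c y))
    (c : ℂˣ) : P1Y D α β → P1Y D α β :=
  P1Y.map (D₂.act c) (fun c' y => D₂.act_smul c c' y) (fun c' y => hc c c' y)

theorem P1Y.liftAct_mk (D₂ : A.DAct)
    (hc : ∀ (c c' : ℂˣ) y, D₂.act c (D.act c' y) = D.act c' (D₂.act c y)) (c : ℂˣ) (y : Y)
    (x : V2) : P1Y.liftAct D₂ hc c (P1Y.mk y x : P1Y D α β) = P1Y.mk (D₂.act c y) x := rfl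

/-- Lift of a diagonal action commuting with `D`. -/
def liftD {B : PolAtlas (n + 1) (P1Y D α β)} {e : A.ι × Bool ≃ B.ι} (h : IsP1e B e)
    (D₂ : A.DAct) (hc : ∀ (c c' : ℂˣ) y, D₂.act c (D.act c' y) = D.act c' (D₂.act c y)) :
    B.DAct where
  act := P1Y.liftAct D₂ hc
  act_one p := by
    obtain ⟨y, x, rfl⟩ := P1Y.exists_mk p
    rw [P1Y.liftAct_mk, D₂.act_one]
  act_mul c c' p := by
    obtain ⟨y, x, rfl⟩ := P1Y.exists_mk p
    rw [P1Y.liftAct_mk, P1Y.liftAct_mk, P1Y.liftAct_mk, D₂.act_mul]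
  act_smul c c' p := by
    obtain ⟨y, x, rfl⟩ := P1Y.exists_mk p
    rw [P1Y.smul_mk, P1Y.liftAct_mk, P1Y.liftAct_mk, P1Y.smul_mk, D₂.act_smul]
  k i := snocZ (D₂.k (e.symm i).1) 0
  m i := D₂.m (e.symm i).1
  dom i z hz c := by
    obtain ⟨⟨a, b⟩, rfl⟩ := e.surjective i
    rw [h.U, mem_ofPred_eq] at hz ⊢
    rw [Equiv.symm_apply_apply, ini_dact]
    exact D₂.dom a _ hz c
  act_γ i z hz c := by
    obtain ⟨⟨a, b⟩, rfl⟩ := e.surjective i
    rw [h.U, mem_ofPred_eq] at hz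
    have h1 : ini (dact (snocZ (D₂.k a) 0) c z) ∈ A.U a := by
      rw [ini_dact]
      exact D₂.dom a _ hz c
    rw [Equiv.symm_apply_apply, h.γ a b z hz, h.γ a b _ h1, P1Y.liftAct_mk, P1Y.smul_mk,
      D₂.act_γ a _ hz c, ini_dact, last_dact, zpow_zero, Units.val_one, one_mul]

section lift

variable {B : PolAtlas (n + 1) (P1Y D α β)} {e : A.ι × Bool ≃ B.ι} (h : IsP1e B e)
    (D₂ : A.DAct) (hc : ∀ (c c' : ℂˣ) y, D₂.act c (D.act c' y) = D.act c' (D₂.act c y))

theorem liftD_act (c : ℂˣ) (y : Y) (x : V2) :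
    (liftD h D₂ hc).act c (P1Y.mk y x) = P1Y.mk (D₂.act c y) x := rfl

theorem liftD_k (a : A.ι) (b : Bool) :
    (liftD h D₂ hc).k (e (a, b)) = snocZ (D₂.k a) 0 := by
  show snocZ (D₂.k (e.symm (e (a, b))).1) 0 = _
  rw [Equiv.symm_apply_apply]

theorem liftD_m (a : A.ι) (b : Bool) : (liftD h D₂ hc).m (e (a, b)) = D₂.m a := by
  show D₂.m (e.symm (e (a, b))).1 = _
  rw [Equiv.symm_apply_apply]

end lift

theorem PolAtlas.DAct.act_comm (D : A.DAct) (c c' : ℂˣ) (y : Y) :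
    D.act c (D.act c' y) = D.act c' (D.act c y) := by
  rw [← D.act_mul, ← D.act_mul, mul_comm]

/-- The lift of `D` itself. -/
def liftD' {B : PolAtlas (n + 1) (P1Y D α β)} {e : A.ι × Bool ≃ B.ι} (h : IsP1e B e) : B.DAct :=
  liftD h D D.act_comm

theorem isLift_liftD' {B : PolAtlas (n + 1) (P1Y D α β)} {e : A.ι × Bool ≃ B.ι}
    (h : IsP1e B e) : IsLift e (liftD' h) := ⟨fun _ _ _ => rfl⟩

theorem liftD'_k {B : PolAtlas (n + 1) (P1Y D α β)} {e : A.ι × Bool ≃ B.ι}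
    (h : IsP1e B e) (a : A.ι) (b : Bool) : (liftD' h).k (e (a, b)) = snocZ (D.k a) 0 :=
  liftD_k h D _ a b

theorem liftD'_m {B : PolAtlas (n + 1) (P1Y D α β)} {e : A.ι × Bool ≃ B.ι}
    (h : IsP1e B e) (a : A.ι) (b : Bool) : (liftD' h).m (e (a, b)) = D.m a :=
  liftD_m h D _ a b

/-! ## The rotation of the projective line -/

/-- `diag(1, c) x` -/
def V2.rot (c : ℂˣ) (x : V2) : V2 := ⟨![x.1 0, (c : ℂ) * x.1 1], by
  intro h
  apply x.2
  have h0 := congrFun h 0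
  have h1 := congrFun h 1
  simp at h0 h1
  ext i
  fin_cases i
  · exact h0
  · exact h1⟩

theorem V2.coe_rot (c : ℂˣ) (x : V2) : (V2.rot c x : Fin 2 → ℂ) = ![x.1 0, (c : ℂ) * x.1 1] := rfl

theorem V2.rot_one (x : V2) : V2.rot 1 x = x := by
  apply Subtype.ext
  rw [V2.coe_rot]
  ext i
  fin_cases i <;> simp

theorem V2.rot_mul (c c' : ℂˣ) (x : V2) : V2.rot (c * c') x = V2.rot c (V2.rot c' x) := by
  apply Subtype.ext
  rw [V2.coe_rot, V2.coe_rot, V2.coe_rot]
  ext i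
  fin_cases i <;> simp [mul_assoc]

theorem V2.rot_smul (c d : ℂˣ) (x : V2) : V2.rot c (d • x) = d • V2.rot c x := by
  apply Subtype.ext
  rw [V2.coe_rot, V2.coe_smul, V2.coe_smul, V2.coe_rot]
  ext i
  fin_cases i
  · simp
  · simp only [Fin.mk_one, Pi.smul_apply, smul_eq_mul, Matrix.cons_val_one,
      Matrix.cons_val_fin_one]
    ring

theorem V2.rot_vec_false (c : ℂˣ) (z : ℂ) : V2.rot c (vec false z) = vec false ((c : ℂ) * z) := by
  apply Subtype.ext
  rw [V2.coe_rot, vec_false, vec_false]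
  rfl

theorem V2.rot_vec_true (c : ℂˣ) (z : ℂ) :
    V2.rot c (vec true z) = c • vec true (((c ^ (-1 : ℤ) : ℂˣ) : ℂ) * z) := by
  apply Subtype.ext
  rw [V2.coe_rot, V2.coe_smul, vec_true, vec_true]
  ext i
  fin_cases i
  · simp
  · simp

/-- the rotation of the base `ℙ¹` by `diag(1, c)` -/
def P1Y.rotAct (c : ℂˣ) : P1Y D α β → P1Y D α β :=
  Quotient.map (fun p => (p.1, V2.rot c p.2)) (by
    rintro ⟨y, x⟩ ⟨y', x'⟩ ⟨d, h1, h2⟩
    refine ⟨d, ?_, h2⟩
    simp only at h1 ⊢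
    rw [h1, V2.rot_smul])

theorem P1Y.rotAct_mk (c : ℂˣ) (y : Y) (x : V2) :
    P1Y.rotAct c (P1Y.mk y x : P1Y D α β) = P1Y.mk y (V2.rot c x) := rfl

/-- the rotation is the action of a diagonal matrix -/
theorem P1Y.rotAct_eq_gl (c : ℂˣ) (g : GL (Fin 2) ℂ) (hg : g.1 = !![1, 0; 0, (c : ℂ)])
    (p : P1Y D α β) : P1Y.rotAct c p = P1Y.gl g p := by
  obtain ⟨y, x, rfl⟩ := P1Y.exists_mk p
  rw [P1Y.rotAct_mk]
  show _ = P1Y.mk y _
  congr 1
  apply Subtype.ext
  rw [V2.coe_rot]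
  simp only
  rw [hg]
  ext i
  fin_cases i
  · simp [Matrix.mulVec, dotProduct]
  · simp [Matrix.mulVec, dotProduct]

/-- The rotation of the base as a diagonal action. -/
def rotD {B : PolAtlas (n + 1) (P1Y D α β)} {e : A.ι × Bool ≃ B.ι} (h : IsP1e B e) :
    B.DAct where
  act := P1Y.rotAct
  act_one p := by
    obtain ⟨y, x, rfl⟩ := P1Y.exists_mk p
    rw [P1Y.rotAct_mk, V2.rot_one]
  act_mul c c' p := by
    obtain ⟨y, x, rfl⟩ := P1Y.exists_mk p
    rw [P1Y.rotAct_mk, P1Y.rotAct_mk, P1Y.rotAct_mk, V2.rot_mul]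
  act_smul c c' p := by
    obtain ⟨y, x, rfl⟩ := P1Y.exists_mk p
    rw [P1Y.smul_mk, P1Y.rotAct_mk, P1Y.rotAct_mk, P1Y.smul_mk]
  k i := if (e.symm i).2 then snocZ (fun j => β * D.k (e.symm i).1 j) (-1)
    else snocZ (fun _ => 0) 1
  m i := if (e.symm i).2 then α + β * D.m (e.symm i).1 else 0
  dom i z hz c := by
    obtain ⟨⟨a, b⟩, rfl⟩ := e.surjective i
    rw [h.U, mem_ofPred_eq] at hz ⊢
    rw [Equiv.symm_apply_apply]
    cases b
    · simp only [Bool.false_eq_true, if_false]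
      rw [ini_dact, dact_zero]
      exact hz
    · simp only [if_true]
      rw [ini_dact, dact_mul_left]
      exact D.dom a _ hz _
  act_γ i z hz c := by
    obtain ⟨⟨a, b⟩, rfl⟩ := e.surjective i
    rw [h.U, mem_ofPred_eq] at hz
    rw [Equiv.symm_apply_apply, h.γ a b z hz, P1Y.rotAct_mk]
    cases b
    · simp only [Bool.false_eq_true, if_false]
      have h1 : ini (dact (snocZ (fun _ => 0) 1) c z) ∈ A.U a := by
        rw [ini_dact, dact_zero]
        exact hz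
      rw [h.γ a false _ h1, V2.rot_vec_false, ini_dact, dact_zero, last_dact, zpow_zero, one_smul,
        zpow_one]
    · simp only [if_true]
      have h1 : ini (dact (snocZ (fun j => β * D.k a j) (-1)) c z) ∈ A.U a := by
        rw [ini_dact, dact_mul_left]
        exact D.dom a _ hz _
      rw [h.γ a true _ h1, V2.rot_vec_true, P1Y.mk_smul, D.act_γ a _ hz, ini_dact, dact_mul_left,
        last_dact, smul_smul, P1Y.smul_mk, ← zpow_mul, ← zpow_add]

section rot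

variable {B : PolAtlas (n + 1) (P1Y D α β)} {e : A.ι × Bool ≃ B.ι} (h : IsP1e B e)

theorem rotD_act (c : ℂˣ) (y : Y) (x : V2) :
    (rotD h).act c (P1Y.mk y x) = P1Y.mk y (V2.rot c x) := rfl

theorem rotD_k_false (a : A.ι) : (rotD h).k (e (a, false)) = snocZ (fun _ => 0) 1 := by
  show (if (e.symm (e (a, false))).2 then _ else _) = _
  rw [Equiv.symm_apply_apply]
  rfl

theorem rotD_m_false (a : A.ι) : (rotD h).m (e (a, false)) = 0 := by
  show (if (e.symm (e (a, false))).2 then _ else _) = _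
  rw [Equiv.symm_apply_apply]
  rfl

theorem rotD_k_true (a : A.ι) :
    (rotD h).k (e (a, true)) = snocZ (fun j => β * D.k a j) (-1) := by
  show (if (e.symm (e (a, true))).2 then _ else _) = _
  rw [Equiv.symm_apply_apply]
  rfl

theorem rotD_m_true (a : A.ι) : (rotD h).m (e (a, true)) = α + β * D.m a := by
  show (if (e.symm (e (a, true))).2 then _ else _) = _
  rw [Equiv.symm_apply_apply]
  rfl

/-- the rotation commutes with every lifted action -/
theorem rotD_liftD_comm (D₂ : A.DAct)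
    (hc : ∀ (c c' : ℂˣ) y, D₂.act c (D.act c' y) = D.act c' (D₂.act c y)) (c c' : ℂˣ)
    (p : P1Y D α β) : (rotD h).act c ((liftD h D₂ hc).act c' p) =
      (liftD h D₂ hc).act c' ((rotD h).act c p) := by
  obtain ⟨y, x, rfl⟩ := P1Y.exists_mk p
  rfl

/-- lifted actions of commuting actions commute -/
theorem liftD_liftD_comm (D₂ D₃ : A.DAct)
    (hc : ∀ (c c' : ℂˣ) y, D₂.act c (D.act c' y) = D.act c' (D₂.act c y))
    (hc' : ∀ (c c' : ℂˣ) y, D₃.act c (D.act c' y) = D.act c' (D₃.act c y))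
    (h23 : ∀ (c c' : ℂˣ) y, D₂.act c (D₃.act c' y) = D₃.act c' (D₂.act c y)) (c c' : ℂˣ)
    (p : P1Y D α β) : (liftD h D₂ hc).act c ((liftD h D₃ hc').act c' p) =
      (liftD h D₃ hc').act c' ((liftD h D₂ hc).act c p) := by
  obtain ⟨y, x, rfl⟩ := P1Y.exists_mk p
  rw [liftD_act, liftD_act, liftD_act, liftD_act, h23]

end rot

end

end Pool.Agent.YTDA
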