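import Pool.Agent.YTDA.RedInv

/-!
# The reduced equation
-/

namespace Pool.Agent.YTDA

open Complex Set Topology ContDiff ComplexOrder TopologicalSpace Matrix

noncomputable section

set_option linter.unusedSectionVars false

theorem wdz_congr {n : ℕ} (k : Fin n → ℤ) {f g : E n → ℂ} {z : E n} (h : f =ᶠ[𝓝 z] g) :
    wdz k f z = wdz k g z := by
  rw [wdz, wdz]
  exact Finset.sum_congr rfl fun b _ => by rw [dz_congr h]

theorem VS_ofR {n : ℕ} {U : Opens (E n)} (k : Fin n → ℤ) (f : E n → ℝ)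
    (hf : ContDiffOn ℝ ∞ f U) (z : U) :
    (VS k (ofR f hf)).1 z = wdz k (fun w => (f w : ℂ)) z := by
  rw [VS_apply]
  exact wdz_congr k (ext_ofFn_eventuallyEq _ _ z.2)

section Mom

variable {n : ℕ} {U : Opens (E n)} {k : Fin n → ℤ} (m : ℤ) {φ : E n → ℝ}
  (hφ : ContDiffOn ℝ ∞ φ U)

/-- the moment map as a smooth function -/
def muS (k : Fin n → ℤ) (m : ℤ) (G : Sm U) : Sm U := algebraMap ℂ _ (m : ℂ) + VS k G

theorem muS_apply (hc : Cinv k (ofR φ hφ : Sm U)) (z : U) :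
    (muS k m (ofR φ hφ)).1 z = (mom k m φ z : ℝ) := by
  have h1 : star (VS k (ofR φ hφ : Sm U)) = VS k (ofR φ hφ) := by
    rw [star_VS, star_ofR, hc]
  have h2 : (starRingEnd ℂ) ((VS k (ofR φ hφ : Sm U)).1 z) = (VS k (ofR φ hφ : Sm U)).1 z := by
    rw [← star_apply, h1]
  rw [VS_ofR] at h2
  rw [muS, Sm.add_apply, VS_ofR, Sm.algebraMap_apply, mom]
  push_cast
  rw [conj_eq_iff_re.1 h2]

theorem mom_eq (z : U) : mom k m φ z = ((muS k m (ofR φ hφ)).1 z).re := by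
  rw [muS, Sm.add_apply, VS_ofR, Sm.algebraMap_apply, mom, add_re]
  simp

/-- `(25q + 3μ)(25q - 3μ)` -/
def ppS (q : ℕ) (k : Fin n → ℤ) (m : ℤ) (G : Sm U) : Sm U :=
  (algebraMap ℂ _ (25 * q : ℂ) + (3 : ℂ) • muS k m G) *
    (algebraMap ℂ _ (25 * q : ℂ) - (3 : ℂ) • muS k m G)

theorem ppS_apply (q : ℕ) (hc : Cinv k (ofR φ hφ : Sm U)) (z : U) :
    (ppS q k m (ofR φ hφ)).1 z = (PP q (mom k m φ z) : ℝ) := by
  rw [ppS, Sm.mul_apply, Sm.add_apply, Sm.sub_apply, Sm.smul_apply, muS_apply m hφ hc,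
    Sm.algebraMap_apply, PP]
  push_cast
  ring

theorem Cinv.muS {G : Sm U} (h : Cinv k G) : Cinv k (muS k m G) :=
  Cinv.add k (Cinv.const _) (Cinv.VS h)

theorem Cinv.ppS (q : ℕ) {G : Sm U} (h : Cinv k G) : Cinv k (ppS q k m G) :=
  Cinv.mul (Cinv.add k (Cinv.const _) (Cinv.smul _ (Cinv.muS m h)))
    (Cinv.sub (Cinv.const _) (Cinv.smul _ (Cinv.muS m h)))

variable (q : ℕ)

theorem redF_eq (hc : Cinv k (ofR φ hφ : Sm U)) (hd : ∀ z, 0 < (hessS (ofR φ hφ : Sm U)).det.1 z)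
    (hp : ∀ z, 0 < (ppS q k m (ofR φ hφ : Sm U)).1 z) (z : U) :
    ((redF q k m φ z : ℝ) : ℂ) = (logS _ hd + logS _ hp).1 z := by
  rw [redF, Sm.add_apply, ← logdet_eq hφ hd, logS_apply, ppS_apply m hφ q hc, ofReal_re]
  push_cast
  rfl

theorem contDiffOn_redF (hc : Cinv k (ofR φ hφ : Sm U))
    (hd : ∀ z, 0 < (hessS (ofR φ hφ : Sm U)).det.1 z)
    (hp : ∀ z, 0 < (ppS q k m (ofR φ hφ : Sm U)).1 z) : ContDiffOn ℝ ∞ (redF q k m φ) U := by
  have h1 := (smooth_ext (logS _ hd + logS _ hp : Sm U))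
  have h2 : ContDiffOn ℝ ∞ (fun z => (ext (logS _ hd + logS _ hp : Sm U).1 z).re) U :=
    reCLM.contDiff.comp_contDiffOn h1
  refine h2.congr fun z hz => ?_
  rw [ext_mk _ hz, ← redF_eq m hφ q hc hd hp ⟨z, hz⟩, ofReal_re]

theorem ofR_redF (hc : Cinv k (ofR φ hφ : Sm U))
    (hd : ∀ z, 0 < (hessS (ofR φ hφ : Sm U)).det.1 z)
    (hp : ∀ z, 0 < (ppS q k m (ofR φ hφ : Sm U)).1 z)
    (hF : ContDiffOn ℝ ∞ (redF q k m φ) U) :
    (ofR (redF q k m φ) hF : Sm U) = logS _ hd + logS _ hp := by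
  apply Sm.ext'
  intro z
  rw [ofR_apply, redF_eq m hφ q hc hd hp]

theorem cinv_redF (hc : Cinv k (ofR φ hφ : Sm U))
    (hd : ∀ z, 0 < (hessS (ofR φ hφ : Sm U)).det.1 z)
    (hp : ∀ z, 0 < (ppS q k m (ofR φ hφ : Sm U)).1 z)
    (hF : ContDiffOn ℝ ∞ (redF q k m φ) U) : Cinv k (ofR (redF q k m φ) hF : Sm U) := by
  rw [ofR_redF m hφ q hc hd hp hF]
  exact Cinv.add k (Cinv.logS (Cinv.det hc) hd) (Cinv.logS (Cinv.ppS m q hc) hp)

end Mom

section Core

/-- the embedding of the base -/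
def emb (z : E 2) : E 4 := ![z 0, z 1, 0, 0]

theorem prB_emb (z : E 2) : prB (emb z) = z := by
  funext b
  fin_cases b <;> rfl

theorem emb_fib (z : E 2) (p : Fin 2) : emb z (fib p) = 0 := by
  fin_cases p <;> rfl

theorem tR_emb (z : E 2) : tR (emb z) = 0 := by
  have h2 : emb z 2 = 0 := rfl
  have h3 : emb z 3 = 0 := rfl
  rw [tR, h2, h3]
  simp

variable {U : Opens (E 2)} {k : Fin 2 → ℤ}

theorem tau_emb (z : E 2) : tau k (emb z) = z := by
  funext b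
  rw [tau, tR_emb, prB_emb]
  simp

theorem emb_mem (z : U) : emb z ∈ Om U := by
  show prB (emb z) ∈ U
  rw [prB_emb]
  exact z.2

/-- the point of the zero section -/
def embU (z : U) : Om U := ⟨emb z, emb_mem z⟩

theorem co_embU (z : U) (p : Fin 2) : (co (fib p) : Sm (Om U)).1 (embU z) = 0 := emb_fib z p

theorem vS_embU (z : U) (p : Fin 2) : (vS (fib p) : Sm (Om U)).1 (embU z) = 1 := by
  rw [vS, invS_apply, wS_apply]
  have h : ((embU z : Om U) : E 4) (fib p) = 0 := emb_fib z p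
  rw [h]
  simp

theorem eS_embU (z : U) (b : Fin 2) : (eS k b : Sm (Om U)).1 (embU z) = 1 := by
  have h : tR ((embU z : Om U) : E 4) = 0 := tR_emb z
  rw [eS_apply, h]
  simp

theorem dzD_tS_embU (z : U) (p : Fin 2) : (dzD (fib p) (tS : Sm (Om U))).1 (embU z) = 0 := by
  rw [dzD_fib_tS, Sm.smul_apply, Sm.mul_apply, star_apply, co_embU]
  simp

theorem dzbD_tS_embU (z : U) (p : Fin 2) : (dzbD (fib p) (tS : Sm (Om U))).1 (embU z) = 0 := by
  rw [dzbD_fib_tS, Sm.smul_apply, Sm.mul_apply, co_embU]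
  simp

variable (hdom : ∀ z ∈ U, ∀ c : ℂˣ, dact k c z ∈ U)

theorem pl_embU (G : Sm U) (z : U) : (pl hdom G).1 (embU z) = G.1 z := by
  rw [pl, pull_apply]
  congr 1
  apply Subtype.ext
  exact tau_emb z.1

section Values

variable (a b : ℂ) {ψ : Sm U} (hψ : Cinv k ψ) (z : U)

theorem val_bb (i j : Fin 2) : (dzD (bse i) (dzbD (bse j) (PS hdom a b ψ))).1 (embU z) =
    (dzD i (dzbD j ψ)).1 z := by
  rw [hess_bb, Sm.mul_apply, Sm.mul_apply, eS_embU, eS_embU, pl_embU, mul_one, mul_one]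

include hψ in
theorem val_fb (p j : Fin 2) :
    (dzD (fib p) (dzbD (bse j) (PS hdom a b ψ))).1 (embU z) = 0 := by
  rw [hess_fb hdom a b hψ, Sm.mul_apply, dzD_tS_embU, zero_mul]

include hψ in
theorem val_bf (i q : Fin 2) :
    (dzD (bse i) (dzbD (fib q) (PS hdom a b ψ))).1 (embU z) = 0 := by
  rw [hess_bf hdom a b hψ, Sm.mul_apply, dzbD_tS_embU, zero_mul]

include hψ in
theorem val_ff (p q : Fin 2) : (dzD (fib p) (dzbD (fib q) (PS hdom a b ψ))).1 (embU z) =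
    if p = q then a + sgR p * (b + (VS k ψ).1 z) else 0 := by
  rw [hess_ff hdom a b hψ, Sm.add_apply, Sm.mul_apply, Sm.mul_apply, dzD_tS_embU, zero_mul,
    zero_mul, add_zero]
  split_ifs with h
  · rw [Sm.mul_apply, Sm.mul_apply, vS_embU, Sm.add_apply, Sm.smul_apply, Sm.add_apply,
      Sm.algebraMap_apply, Sm.algebraMap_apply, pl_embU, mul_one, mul_one]
  · rfl

end Values

section Final

variable (q : ℕ) (m : ℤ) {φ : E 2 → ℝ} (hφ : ContDiffOn ℝ ∞ φ U)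
  (hinv : ∀ z ∈ U, ∀ c : ℂˣ, ‖(c : ℂ)‖ = 1 → φ (dact k c z) = φ z) {Φ : E 4 → ℝ}
  (hΦ : ∀ z ∈ Om U, Φ z = 25 * q * (Real.log (1 + ‖z 2‖ ^ 2) + Real.log (1 + ‖z 3‖ ^ 2)) +
    m * tR z + φ (tau k z))
  (hpos : ∀ z ∈ Om U, (hess Φ z).PosDef)

include hdom hinv in
theorem cinv_phi : Cinv k (ofR φ hφ : Sm U) := by
  refine Cinv.of_inv k _ fun z hz c hc => ?_
  rw [ext_mk _ hz, ext_mk _ (hdom z hz c), ofR_apply, ofR_apply, hinv z hz c hc]

include hΦ in
theorem Phi_eq (z : Om U) : ((Φ z : ℝ) : ℂ) = (PS hdom (25 * q) m (ofR φ hφ)).1 z := by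
  rw [hΦ z z.2, PS, Sm.add_apply, Sm.add_apply, Sm.smul_apply, Sm.smul_apply, rS_apply, tS_apply,
    pl, pull_apply, ofR_apply]
  push_cast
  rfl

include hdom hφ hΦ in
theorem smooth_Phi : ContDiffOn ℝ ∞ Φ (Om U) := by
  have h1 : ContDiffOn ℝ ∞ (fun z => (ext (PS hdom (25 * q) m (ofR φ hφ)).1 z).re) (Om U) :=
    reCLM.contDiff.comp_contDiffOn (smooth_ext _)
  refine h1.congr fun z hz => ?_
  rw [ext_mk _ hz, ← Phi_eq hdom q m hφ hΦ ⟨z, hz⟩, ofReal_re]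

include hΦ in
theorem ofR_Phi (hs : ContDiffOn ℝ ∞ Φ (Om U)) :
    (ofR Φ hs : Sm (Om U)) = PS hdom (25 * q) m (ofR φ hφ) :=
  Sm.ext' fun z => by rw [ofR_apply, Phi_eq hdom q m hφ hΦ]

include hdom hφ hΦ in
theorem hess_emb_bb (z : U) (i j : Fin 2) :
    hess Φ (emb z) (bse i) (bse j) = hess φ z i j := by
  have hs := smooth_Phi hdom q m hφ hΦ
  refine (hess_apply_eq Φ hs (embU z) (bse i) (bse j)).trans ?_
  rw [ofR_Phi hdom q m hφ hΦ, val_bb, ← hess_apply_eq]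

include hdom hφ hinv hΦ in
theorem hess_emb_fb (z : U) (p j : Fin 2) : hess Φ (emb z) (fib p) (bse j) = 0 := by
  have hs := smooth_Phi hdom q m hφ hΦ
  refine (hess_apply_eq Φ hs (embU z) (fib p) (bse j)).trans ?_
  rw [ofR_Phi hdom q m hφ hΦ, val_fb hdom _ _ (cinv_phi hdom hφ hinv)]

include hdom hφ hinv hΦ in
theorem hess_emb_bf (z : U) (i q' : Fin 2) : hess Φ (emb z) (bse i) (fib q') = 0 := by
  have hs := smooth_Phi hdom q m hφ hΦ
  refine (hess_apply_eq Φ hs (embU z) (bse i) (fib q')).trans ?_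
  rw [ofR_Phi hdom q m hφ hΦ, val_bf hdom _ _ (cinv_phi hdom hφ hinv)]

include hdom hφ hinv hΦ in
theorem hess_emb_ff (z : U) (p p' : Fin 2) : hess Φ (emb z) (fib p) (fib p') =
    if p = p' then 25 * q + sgR p * (mom k m φ z : ℝ) else 0 := by
  have hs := smooth_Phi hdom q m hφ hΦ
  have hc := cinv_phi hdom hφ hinv
  refine (hess_apply_eq Φ hs (embU z) (fib p) (fib p')).trans ?_
  rw [ofR_Phi hdom q m hφ hΦ, val_ff hdom _ _ hc, ← muS_apply m hφ hc, muS, Sm.add_apply, Sm.algebraMap_apply]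

include hdom hφ hΦ hpos in
theorem posDef_phi (z : U) : (hess φ z).PosDef := by
  have h1 := hpos _ (emb_mem z)
  have h2 : hess φ z = (hess Φ (emb z)).submatrix bse bse := by
    ext i j
    rw [Matrix.submatrix_apply, hess_emb_bb hdom q m hφ hΦ]
  rw [h2]
  exact h1.submatrix fun _ _ h => bse_inj.1 h

include hdom hφ hinv hΦ hpos in
theorem pos_mom (z : U) : 0 < 25 * (q : ℝ) + 3 * mom k m φ z := by
  have h1 := (hpos _ (emb_mem z)).diag_pos (i := fib 0)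
  rw [hess_emb_ff hdom q m hφ hinv hΦ, if_pos rfl, sgR, if_pos rfl] at h1
  exact_mod_cast h1

include hdom hφ hinv hΦ hpos in
theorem pos_mom' (z : U) : 0 < 25 * (q : ℝ) - 3 * mom k m φ z := by
  have h1 := (hpos _ (emb_mem z)).diag_pos (i := fib 1)
  rw [hess_emb_ff hdom q m hφ hinv hΦ, if_pos rfl, sgR, if_neg one_ne_zero] at h1
  have h2 : (25 * (q : ℂ) + -3 * (mom k m φ z : ℝ)) = ((25 * (q : ℝ) - 3 * mom k m φ z : ℝ) : ℂ) := by
    push_cast
    ring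
  rw [h2] at h1
  exact_mod_cast h1

include hdom hφ hinv hΦ hpos in
theorem ppS_pos (z : U) : 0 < (ppS q k m (ofR φ hφ : Sm U)).1 z := by
  rw [ppS_apply m hφ q (cinv_phi hdom hφ hinv), PP, zero_lt_real]
  exact mul_pos (pos_mom hdom q m hφ hinv hΦ hpos z) (pos_mom' hdom q m hφ hinv hΦ hpos z)

include hinv hΦ in
theorem det_Phi (hs : ContDiffOn ℝ ∞ Φ (Om U)) : (hessS (ofR Φ hs : Sm (Om U))).det =
    pl hdom ((hessS (ofR φ hφ)).det * ppS q k m (ofR φ hφ)) * (eS k 0 * eS k 1) ^ 2 *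
      (vS 2 * vS 3) ^ 2 := by
  have hc := cinv_phi hdom hφ hinv
  rw [det_four (hessS (ofR Φ hs : Sm (Om U))) (fun i => (k i : ℂ) • co (bse i))
    (fun i => (k i : ℂ) • star (co (bse i))) (fun p => dzD (fib p) tS)
    (fun p => dzbD (fib p) tS)
    (fun p => (algebraMap ℂ _ (25 * q : ℂ) + sgR p • (algebraMap ℂ _ (m : ℂ) +
      pl hdom (VS k (ofR φ hφ)))) * (vS (fib p) * vS (fib p)))]
  · simp only [hessS_apply]
    rw [ofR_Phi hdom q m hφ hΦ]
    simp only [hess_bb]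
    rw [Matrix.det_fin_two, ppS, muS]
    simp only [map_mul, map_sub, map_add, hessS_apply, pl_smul, AlgHom.commutes]
    have f0 : fib 0 = 2 := rfl
    have f1 : fib 1 = 3 := rfl
    have s0 : sgR 0 = 3 := rfl
    have s1 : sgR 1 = -3 := rfl
    rw [f0, f1, s0, s1, neg_smul]
    ring
  · intro p j
    simp only [hessS_apply]
    rw [ofR_Phi hdom q m hφ hΦ, hess_fb hdom _ _ hc]
    congr 1
    refine Finset.sum_congr rfl fun i _ => ?_
    rw [hess_bb, smul_mul_assoc]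
  · intro p j
    simp only [hessS_apply]
    rw [ofR_Phi hdom q m hφ hΦ, hess_bf hdom _ _ hc]
    congr 1
    refine Finset.sum_congr rfl fun i _ => ?_
    rw [hess_bb, smul_mul_assoc]
  · intro p p'
    simp only [hessS_apply]
    rw [ofR_Phi hdom q m hφ hΦ, hess_ff hdom _ _ hc]
    congr 2
    refine Finset.sum_congr rfl fun i _ => Finset.sum_congr rfl fun j _ => ?_
    rw [hess_bb]
    simp only [Algebra.smul_def, map_mul]
    ring

theorem eS_real (b : Fin 2) (z : Om U) :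
    (eS k b : Sm (Om U)).1 z = ((Real.exp ((k b : ℝ) / 2 * tR z) : ℝ) : ℂ) := by
  rw [eS_apply]
  push_cast
  rfl

theorem vS_real (i : Fin 4) (z : Om U) :
    (vS i : Sm (Om U)).1 z = (((1 + ‖(z : E 4) i‖ ^ 2)⁻¹ : ℝ) : ℂ) := by
  rw [vS, invS_apply, wS_apply]
  push_cast
  rfl

include hdom hφ hinv hΦ hpos in
theorem logdet_Phi (z : Om U) : logdet Φ z =
    -2 * (Real.log (1 + ‖(z : E 4) 2‖ ^ 2) + Real.log (1 + ‖(z : E 4) 3‖ ^ 2)) +
      ((k 0 : ℝ) + k 1) * tR z + redF q k m φ (tau k z) := by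
  have hs := smooth_Phi hdom q m hφ hΦ
  have hc := cinv_phi hdom hφ hinv
  set u : U := ⟨tau k z, mapsTo_tau hdom z.2⟩ with hu
  have hD := posDef_phi hdom q m hφ hΦ hpos u
  have hDpos : 0 < (hess φ u).det.re := (pos_iff.1 hD.det_pos).1
  have hDre : (hess φ u).det = ((hess φ u).det.re : ℂ) := by
    apply Complex.ext
    · simp
    · simp [← (pos_iff.1 hD.det_pos).2]
  have hP : 0 < PP q (mom k m φ u) :=
    mul_pos (pos_mom hdom q m hφ hinv hΦ hpos u) (pos_mom' hdom q m hφ hinv hΦ hpos u)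
  have hdet : (hess Φ z).det = (((hess φ u).det.re * PP q (mom k m φ u) *
      (Real.exp ((k 0 : ℝ) / 2 * tR z) * Real.exp ((k 1 : ℝ) / 2 * tR z)) ^ 2 *
      ((1 + ‖(z : E 4) 2‖ ^ 2)⁻¹ * (1 + ‖(z : E 4) 3‖ ^ 2)⁻¹) ^ 2 : ℝ) : ℂ) := by
    rw [det_hess_eq Φ hs z, det_Phi hdom q m hφ hinv hΦ hs, Sm.mul_apply, Sm.mul_apply,
      Sm.pow_apply, Sm.pow_apply, Sm.mul_apply, Sm.mul_apply, eS_real, eS_real, vS_real, vS_real,
      pl, pull_apply, Sm.mul_apply, ← det_hess_eq φ hφ, ppS_apply m hφ q hc]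
    push_cast
    rw [← hDre]
  rw [logdet, hdet, ofReal_re, redF, logdet]
  have w2 : 0 < 1 + ‖(z : E 4) 2‖ ^ 2 := by positivity
  have w3 : 0 < 1 + ‖(z : E 4) 3‖ ^ 2 := by positivity
  rw [Real.log_mul (by positivity) (by positivity), Real.log_mul (by positivity) (by positivity),
    Real.log_mul hDpos.ne' hP.ne', Real.log_pow, Real.log_pow, ← Real.exp_add, Real.log_exp,
    Real.log_mul (by positivity) (by positivity), Real.log_inv, Real.log_inv]
  push_cast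
  ring

include hdom hφ hinv hΦ hpos in
theorem hess_logdet_emb : ∃ hF : ContDiffOn ℝ ∞ (redF q k m φ) U,
    ∃ hL : ContDiffOn ℝ ∞ (logdet Φ) (Om U),
    Cinv k (ofR (redF q k m φ) hF : Sm U) ∧
    (ofR (logdet Φ) hL : Sm (Om U)) =
      PS hdom (-2) ((k 0 : ℂ) + k 1) (ofR (redF q k m φ) hF) := by
  have hs := smooth_Phi hdom q m hφ hΦ
  have hc := cinv_phi hdom hφ hinv
  have hd : ∀ z, 0 < (hessS (ofR φ hφ : Sm U)).det.1 z := fun z => by
    rw [← det_hess_eq]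
    exact (posDef_phi hdom q m hφ hΦ hpos z).det_pos
  have hp := ppS_pos hdom q m hφ hinv hΦ hpos
  have hF := contDiffOn_redF m hφ q hc hd hp
  have hL : ContDiffOn ℝ ∞ (logdet Φ) (Om U) := contDiffOn_logdet hs (det_pos_of_posDef hs hpos)
  refine ⟨hF, hL, cinv_redF m hφ q hc hd hp hF, Sm.ext' fun z => ?_⟩
  rw [ofR_apply, logdet_Phi hdom q m hφ hinv hΦ hpos, PS, Sm.add_apply, Sm.add_apply,
    Sm.smul_apply, Sm.smul_apply, rS_apply, tS_apply, pl, pull_apply, ofR_apply]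
  push_cast
  rfl

include hdom hφ hinv hΦ hpos in
/-- the reduced equation -/
theorem scal_Phi (z : U) : scal Φ (emb z) * (PP q (mom k m φ z) : ℝ) =
    -((PP q (mom k m φ z) : ℝ) *
        ∑ i, ∑ j, (hess φ z)⁻¹ j i * hess (redF q k m φ) z i j +
      -18 * (mom k m φ z : ℝ) *
        (wdz k (fun w => (redF q k m φ w : ℂ)) z + ((∑ j, k j : ℤ) : ℂ)) - 100 * (q : ℂ)) := by
  obtain ⟨hF, hL, hcF, hPS⟩ := hess_logdet_emb hdom q m hφ hinv hΦ hpos
  have h1 := pos_mom hdom q m hφ hinv hΦ hpos z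
  have h2 := pos_mom' hdom q m hφ hinv hΦ hpos z
  have hg := (posDef_phi hdom q m hφ hΦ hpos z).det_pos.ne'
  set d : Fin 2 → ℂ := fun p => 25 * q + sgR p * (mom k m φ z : ℝ) with hd
  have hd0 : ∀ p, d p ≠ 0 := by
    intro p
    fin_cases p
    · have : d 0 = ((25 * (q : ℝ) + 3 * mom k m φ z : ℝ) : ℂ) := by
        rw [hd]
        push_cast
        rfl
      show d 0 ≠ 0
      rw [this]
      exact_mod_cast h1.ne'
    · have : d 1 = ((25 * (q : ℝ) - 3 * mom k m φ z : ℝ) : ℂ) := by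
        have s1 : sgR 1 = -3 := rfl
        rw [hd]
        simp only [s1]
        push_cast
        ring
      show d 1 ≠ 0
      rw [this]
      exact_mod_cast h2.ne'
  obtain ⟨i1, i2, i3, i4⟩ := inv_four (hess Φ (emb z)) (hess φ z) d hg hd0
    (hess_emb_bb hdom q m hφ hΦ z) (hess_emb_bf hdom q m hφ hinv hΦ z)
    (hess_emb_fb hdom q m hφ hinv hΦ z) (hess_emb_ff hdom q m hφ hinv hΦ z)
  have v1 : ∀ i j, hess (logdet Φ) (emb z) (bse i) (bse j) = hess (redF q k m φ) z i j := by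
    intro i j
    refine (hess_apply_eq (logdet Φ) hL (embU z) _ _).trans ?_
    rw [hPS, val_bb, ← hess_apply_eq]
  have v2 : ∀ p p', hess (logdet Φ) (emb z) (fib p) (fib p') = if p = p' then
      -2 + sgR p * ((k 0 : ℂ) + k 1 + wdz k (fun w => (redF q k m φ w : ℂ)) z) else 0 := by
    intro p p'
    refine (hess_apply_eq (logdet Φ) hL (embU z) _ _).trans ?_
    rw [hPS, val_ff hdom _ _ hcF, VS_ofR]
  have hsum : scal Φ (emb z) = -(∑ i, ∑ j, (hess φ z)⁻¹ j i * hess (redF q k m φ) z i j +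
      ∑ p, (d p)⁻¹ * (-2 + sgR p * ((k 0 : ℂ) + k 1 +
        wdz k (fun w => (redF q k m φ w : ℂ)) z))) := by
    have b0 : bse 0 = 0 := rfl
    have b1 : bse 1 = 1 := rfl
    have f0 : fib 0 = 2 := rfl
    have f1 : fib 1 = 3 := rfl
    rw [scal]
    simp only [Fin.sum_univ_four, Fin.sum_univ_two]
    have a00 := i1 0 0
    have a01 := i1 0 1
    have a10 := i1 1 0
    have a11 := i1 1 1
    have a20 := i3 0 0
    have a21 := i3 0 1
    have a30 := i3 1 0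
    have a31 := i3 1 1
    have a02 := i2 0 0
    have a03 := i2 0 1
    have a12 := i2 1 0
    have a13 := i2 1 1
    have a22 := i4 0 0
    have a23 := i4 0 1
    have a32 := i4 1 0
    have a33 := i4 1 1
    have c00 := v1 0 0
    have c01 := v1 0 1
    have c10 := v1 1 0
    have c11 := v1 1 1
    have c22 := v2 0 0
    have c33 := v2 1 1
    simp only [b0, b1, f0, f1, if_true, one_ne_zero, zero_ne_one, if_false] at a00 a01 a10 a11 a20 a21 a30 a31 a02 a03 a12 a13 a22 a23 a32 a33 c00 c01 c10 c11 c22 c33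
    rw [a00, a01, a10, a11, a20, a21, a30, a31, a02, a03, a12, a13, a22, a23, a32, a33, c00, c01,
      c10, c11, c22, c33]
    ring
  rw [hsum]
  generalize (∑ i, ∑ j, (hess φ z)⁻¹ j i * hess (redF q k m φ) z i j) = T
  simp only [Fin.sum_univ_two, PP]
  have e0 := hd0 0
  have e1 := hd0 1
  have s0 : sgR 0 = 3 := rfl
  have s1 : sgR 1 = -3 := rfl
  have hd0' : d 0 = 25 * q + 3 * (mom k m φ z : ℝ) := rfl
  have hd1' : d 1 = 25 * q - 3 * (mom k m φ z : ℝ) := by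
    rw [hd]
    simp only [s1]
    ring
  rw [s0, s1]
  rw [hd0'] at e0
  rw [hd1'] at e1
  rw [hd0', hd1']
  push_cast
  field_simp
  ring

end Final

end Core

end

end Pool.Agent.YTDA
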