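import Pool.Agent.YTDA.P1Defs
import Pool.Agent.YTDA.RedPde

/-!
# T12: reduction of the equation of constant scalar curvature from the fourfold to the surface
-/

namespace Pool.Agent.YTDA

open Complex Set Topology ContDiff ComplexOrder TopologicalSpace Matrix

noncomputable section

set_option linter.unusedSectionVars false

/-- `e^{l/2}` as a unit -/
def uexpR (l : ℝ) : ℂˣ := Units.mk0 (exp ((l / 2 : ℝ) : ℂ)) (exp_ne_zero _)

theorem norm_uexpR (l : ℝ) : ‖(uexpR l : ℂ)‖ = Real.exp (l / 2) := by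
  rw [uexpR, Units.val_mk0, norm_exp_ofReal]

theorem norm_uexpR_zpow (l : ℝ) (n : ℤ) : ‖((uexpR l ^ n : ℂˣ) : ℂ)‖ = Real.exp (n * (l / 2)) := by
  rw [Units.val_zpow_eq_zpow_val, norm_zpow, norm_uexpR, ← Real.rpow_intCast, ← Real.exp_mul,
    mul_comm]

theorem uexpR_zpow_mul (l l' : ℝ) (n : ℤ) :
    uexpR l ^ n * uexpR l' ^ (-n) = Units.mk0 (exp (((n * (l - l') : ℝ) : ℂ) / 2)) (exp_ne_zero _) := by
  apply Units.ext
  rw [Units.val_mul, Units.val_zpow_eq_zpow_val, Units.val_zpow_eq_zpow_val, Units.val_mk0, uexpR,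
    uexpR, Units.val_mk0, Units.val_mk0, ← exp_int_mul, ← exp_int_mul, ← Complex.exp_add]
  congr 1
  push_cast
  ring

section Main

variable {Y : Type} [MulAction ℂˣ Y] {A : PolAtlas 2 Y} {D : A.DAct} {q : ℕ}
  {B₁ : PolAtlas 3 (P1Y D (25 * q) 3)} {D₁ : B₁.DAct}

/-- the metric on the surface -/
def hred (H : P1Y D₁ (25 * q) (-3) → ℝ) (y : Y) : ℝ :=
  H (P1Y.mk (P1Y.mk y (vec false 0)) (vec false 0))

variable (l₁ : ∀ c y x, D₁.act c (P1Y.mk y x) = P1Y.mk (D.act c y) x)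

include l₁ in
theorem mk_mk_smul (y : Y) (x x' : V2) (c c' : ℂˣ) :
    (P1Y.mk (P1Y.mk y (c • x)) (c' • x') : P1Y D₁ (25 * q) (-3)) =
      (c ^ (25 * q : ℤ) * c' ^ (25 * q : ℤ)) •
        P1Y.mk (P1Y.mk (D.act (c ^ (3 : ℤ) * c' ^ (-3 : ℤ)) y) x) x' := by
  rw [P1Y.mk_smul, P1Y.mk_smul, l₁, D.act_smul, ← D.act_mul, mul_comm (c' ^ (-3 : ℤ)),
    P1Y.smul_mk, P1Y.smul_mk, P1Y.smul_mk, smul_smul, mul_comm (c' ^ (25 * q : ℤ))]

variable {H : P1Y D₁ (25 * q) (-3) → ℝ} {B₂ : PolAtlas 4 (P1Y D₁ (25 * q) (-3))}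
  (hK : B₂.IsKahler H)
  (i1 : ∀ (c : ℂˣ) y x x', ‖(c : ℂ)‖ = 1 →
    H (P1Y.mk (P1Y.mk (D.act c y) x) x') = H (P1Y.mk (P1Y.mk y x) x'))
  (i2 : ∀ y (x x₁ x' x₁' : V2), ‖x.1 0‖ ^ 2 + ‖x.1 1‖ ^ 2 = ‖x₁.1 0‖ ^ 2 + ‖x₁.1 1‖ ^ 2 →
    ‖x'.1 0‖ ^ 2 + ‖x'.1 1‖ ^ 2 = ‖x₁'.1 0‖ ^ 2 + ‖x₁'.1 1‖ ^ 2 →
    H (P1Y.mk (P1Y.mk y x) x') = H (P1Y.mk (P1Y.mk y x₁) x₁'))

include hK in
theorem hred_pos (y : Y) : 0 < hred H y := hK.pos _

include hK in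
theorem hred_hom (c : ℂˣ) (y : Y) : hred H (c • y) = ‖(c : ℂ)‖ ^ 2 * hred H y := by
  rw [hred, ← P1Y.smul_mk, ← P1Y.smul_mk, hK.hom]
  rfl

include i1 in
theorem hred_act (c : ℂˣ) (y : Y) (h : ‖(c : ℂ)‖ = 1) : hred H (D.act c y) = hred H y :=
  i1 c y _ _ h

theorem nsq_vec (u : ℂ) : ‖(vec false u).1 0‖ ^ 2 + ‖(vec false u).1 1‖ ^ 2 =
    ‖(uexpR (Real.log (1 + ‖u‖ ^ 2)) • vec false 0 : V2).1 0‖ ^ 2 +
    ‖(uexpR (Real.log (1 + ‖u‖ ^ 2)) • vec false 0 : V2).1 1‖ ^ 2 := by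
  have h : 0 < 1 + ‖u‖ ^ 2 := by positivity
  rw [V2.coe_smul]
  show ‖(![1, u] : Fin 2 → ℂ) 0‖ ^ 2 + ‖(![1, u] : Fin 2 → ℂ) 1‖ ^ 2 =
    ‖((uexpR (Real.log (1 + ‖u‖ ^ 2)) : ℂ) • (![1, 0] : Fin 2 → ℂ)) 0‖ ^ 2 +
    ‖((uexpR (Real.log (1 + ‖u‖ ^ 2)) : ℂ) • (![1, 0] : Fin 2 → ℂ)) 1‖ ^ 2
  simp only [Pi.smul_apply, smul_eq_mul, norm_mul, norm_uexpR]
  have e : Real.exp (Real.log (1 + ‖u‖ ^ 2) / 2) ^ 2 = 1 + ‖u‖ ^ 2 := by
    rw [← Real.exp_nat_mul]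
    push_cast
    rw [mul_div_cancel₀ _ (two_ne_zero), Real.exp_log h]
  simp [e]

include l₁ hK i2 in
theorem H_eq {a : A.ι} {w : E 2} (hw : w ∈ A.U a) (u v : ℂ) :
    Real.log (H (P1Y.mk (P1Y.mk (A.γ a w) (vec false u)) (vec false v))) =
      25 * q * (Real.log (1 + ‖u‖ ^ 2) + Real.log (1 + ‖v‖ ^ 2)) +
      D.m a * (3 * (Real.log (1 + ‖u‖ ^ 2) - Real.log (1 + ‖v‖ ^ 2))) +
      A.pot (hred H) a (dact (D.k a) (Units.mk0 (exp (((3 * (Real.log (1 + ‖u‖ ^ 2) -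
        Real.log (1 + ‖v‖ ^ 2)) : ℝ) : ℂ) / 2)) (exp_ne_zero _)) w) := by
  set l := Real.log (1 + ‖u‖ ^ 2) with hl
  set l' := Real.log (1 + ‖v‖ ^ 2) with hl'
  have h3 : uexpR l ^ (3 : ℤ) * uexpR l' ^ (-3 : ℤ) =
      Units.mk0 (exp (((3 * (l - l') : ℝ) : ℂ) / 2)) (exp_ne_zero _) := by
    have := uexpR_zpow_mul l l' 3
    rw [this]
    apply Units.ext
    simp only [Units.val_mk0]
    norm_num
  rw [i2 _ _ _ _ _ (nsq_vec u) (nsq_vec v), ← hl, ← hl', mk_mk_smul l₁, hK.hom, h3]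
  have hh := hred_hom hK (H := H)
  show Real.log (_ * hred H _) = _
  rw [D.act_γ a w hw, hh]
  have hpos := hred_pos hK (H := H)
  have n1 : 0 < ‖((uexpR l ^ (25 * q : ℤ) * uexpR l' ^ (25 * q : ℤ) : ℂˣ) : ℂ)‖ :=
    norm_pos_iff.2 (Units.ne_zero _)
  have n2 : 0 < ‖((Units.mk0 (exp (((3 * (l - l') : ℝ) : ℂ) / 2)) (exp_ne_zero _) ^ D.m a :
    ℂˣ) : ℂ)‖ := norm_pos_iff.2 (Units.ne_zero _)
  rw [Real.log_mul (by positivity) (mul_pos (by positivity) (hpos _)).ne',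
    Real.log_mul (by positivity) (hpos _).ne', Real.log_pow, Real.log_pow, Units.val_mul,
    norm_mul, norm_uexpR_zpow, norm_uexpR_zpow, ← Real.exp_add, Real.log_exp,
    Units.val_zpow_eq_zpow_val, Units.val_mk0, norm_zpow]
  have e : ‖exp (((3 * (l - l') : ℝ) : ℂ) / 2)‖ = Real.exp (3 * (l - l') / 2) := by
    have : (((3 * (l - l') : ℝ) : ℂ) / 2) = ((3 * (l - l') / 2 : ℝ) : ℂ) := by push_cast; rfl
    rw [this, norm_exp_ofReal]
  rw [e, Real.log_zpow, Real.log_exp]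
  show _ = _ + Real.log (hred H _)
  push_cast
  ring

variable (i : A.ι → B₂.ι) (hU : ∀ a z, z ∈ B₂.U (i a) ↔ ![z 0, z 1] ∈ A.U a)
  (hγ : ∀ a z, ![z 0, z 1] ∈ A.U a → B₂.γ (i a) z =
    P1Y.mk (P1Y.mk (A.γ a ![z 0, z 1]) (vec false (z 2))) (vec false (z 3)))

theorem prB_eq (z : E 4) : prB z = ![z 0, z 1] := by
  funext b
  fin_cases b <;> rfl

/-- the chart domain as an open set -/
def opU (A : PolAtlas 2 Y) (a : A.ι) : Opens (E 2) := ⟨A.U a, A.isOpen_U a⟩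

include l₁ hK i2 hγ in
theorem pot_eq (a : A.ι) (z : E 4) (hz : z ∈ Om (opU A a)) : B₂.pot H (i a) z =
    25 * q * (Real.log (1 + ‖z 2‖ ^ 2) + Real.log (1 + ‖z 3‖ ^ 2)) + D.m a * tR z +
      A.pot (hred H) a (tau (D.k a) z) := by
  have hz' : ![z 0, z 1] ∈ A.U a := by
    rw [← prB_eq]
    exact hz
  rw [PolAtlas.pot, hγ a z hz', H_eq l₁ hK i2 hz', tau_eq_dact, prB_eq]
  rfl

include hγ in
theorem pot_hred (a : A.ι) (z : E 2) (hz : z ∈ A.U a) :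
    A.pot (hred H) a z = B₂.pot H (i a) (emb z) := by
  have e : (![emb z 0, emb z 1] : E 2) = z := by
    funext b
    fin_cases b <;> rfl
  rw [PolAtlas.pot, PolAtlas.pot, hγ a (emb z) (by rw [e]; exact hz), e]
  rfl

theorem contDiff_emb : ContDiff ℝ ∞ emb := by
  rw [contDiff_pi]
  intro j
  fin_cases j
  · exact contDiff_apply ℝ ℂ (0 : Fin 2)
  · exact contDiff_apply ℝ ℂ (1 : Fin 2)
  · exact contDiff_const
  · exact contDiff_const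

include hK hU hγ in
theorem smooth_hred (a : A.ι) : ContDiffOn ℝ ∞ (A.pot (hred H) a) (A.U a) := by
  have h1 : ContDiffOn ℝ ∞ (fun z => B₂.pot H (i a) (emb z)) (A.U a) := by
    refine (hK.smooth (i a)).comp contDiff_emb.contDiffOn fun z hz => ?_
    rw [hU]
    have e : (![emb z 0, emb z 1] : E 2) = z := by
      funext b
      fin_cases b <;> rfl
    rw [e]
    exact hz
  exact h1.congr fun z hz => pot_hred i hγ a z hz

include hK i1 in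
theorem inv_hred (a : A.ι) (z : E 2) (hz : z ∈ A.U a) (c : ℂˣ) (hc : ‖(c : ℂ)‖ = 1) :
    A.pot (hred H) a (dact (D.k a) c z) = A.pot (hred H) a z := by
  have h1 := D.act_γ a z hz c
  have h2 : A.γ a (dact (D.k a) c z) = (c ^ D.m a)⁻¹ • D.act c (A.γ a z) := by
    rw [h1, inv_smul_smul]
  rw [PolAtlas.pot, PolAtlas.pot, h2, hred_hom hK, hred_act i1 _ _ hc, Units.val_inv_eq_inv_val,
    Units.val_zpow_eq_zpow_val, norm_inv, norm_zpow, hc]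
  simp

include l₁ hK i1 i2 hU hγ in
/-- T12, the metric on the surface -/
theorem isKahler_hred : A.IsKahler (hred H) := by
  refine ⟨hred_pos hK, hred_hom hK, smooth_hred hK i hU hγ, fun a z hz => ?_⟩
  refine posDef_phi (U := opU A a) (k := D.k a) (fun w hw c => D.dom a w hw c) q (D.m a)
    (smooth_hred hK i hU hγ a) (Φ := B₂.pot H (i a)) (pot_eq l₁ hK i2 i hγ a)
    (fun w hw => hK.posDef _ w ?_) ⟨z, hz⟩
  rw [hU, ← prB_eq]
  exact hw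

include l₁ hK i1 i2 hU hγ in
/-- T12, the reduced equation -/
theorem isPde_hred {s : ℂ} (hs : B₂.IsCsc H s) : A.IsPde D q s (hred H) := by
  have hp : ∀ a, ∀ w ∈ Om (opU A a), (hess (B₂.pot H (i a)) w).PosDef := fun a w hw =>
    hK.posDef _ w (by
      rw [hU, ← prB_eq]
      exact hw)
  refine ⟨fun c y h => hred_act i1 c y h, fun a z hz => ?_, fun a z hz => ?_, fun a z hz => ?_⟩
  · exact pos_mom (U := opU A a) (k := D.k a) (fun w hw c => D.dom a w hw c) q (D.m a)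
      (smooth_hred hK i hU hγ a) (inv_hred hK i1 a) (Φ := B₂.pot H (i a))
      (pot_eq l₁ hK i2 i hγ a) (hp a) ⟨z, hz⟩
  · exact pos_mom' (U := opU A a) (k := D.k a) (fun w hw c => D.dom a w hw c) q (D.m a)
      (smooth_hred hK i hU hγ a) (inv_hred hK i1 a) (Φ := B₂.pot H (i a))
      (pot_eq l₁ hK i2 i hγ a) (hp a) ⟨z, hz⟩
  · have h1 := scal_Phi (U := opU A a) (k := D.k a) (fun w hw c => D.dom a w hw c) q (D.m a)
      (smooth_hred hK i hU hγ a) (inv_hred hK i1 a) (Φ := B₂.pot H (i a))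
      (pot_eq l₁ hK i2 i hγ a) (hp a) ⟨z, hz⟩
    have h2 : emb z ∈ B₂.U (i a) := by
      rw [hU, ← prB_eq, prB_emb]
      exact hz
    rw [hs (i a) (emb z) h2] at h1
    exact h1

end Main

end

end Pool.Agent.YTDA
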