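import Pool.Agent.YTDA.Circ
import Pool.Agent.YTDA.XGam
import Pool.Agent.YTDA.P1Act
import Pool.Agent.YTDA.Red
import Pool.Agent.YTDA.Pou
import Pool.Agent.YTDA.NoVec

/-!
There is no invariant Kähler metric of constant scalar curvature on the fourfold `X`:
reduction to the surface.
-/

set_option autoImplicit false

namespace Pool.Agent.YTDA

open Complex Set Topology ContDiff Metric
open Pool.Agent.YTD

noncomputable section

section Main

variable {K : Type} [Field K] [Algebra ℂ K] {T : Datum K} {q : ℕ} {D₀ : T.X.Pt →₀ ℤ}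
  {An : AnCurve T.X.toCurveOrd} {M : SigModel T q D₀ An}

theorem SigModel.Aut.r_eq {σ : T.X.Pt → T.X.Pt} {f : M.Y → M.Y} (h : M.Aut σ (fun i => i) f)
    (hσ : ∀ P, σ (σ P) = P) (P : T.X.Pt) : M.r (σ P) = M.r P := by
  have key : ∀ Q, M.r Q ≤ M.r (σ Q) := by
    intro Q
    by_contra hcon
    push Not at hcon
    have h0 : (0 : ℝ) < M.r (σ Q) := M.r_pos _
    have h1 : (![((M.r (σ Q) : ℝ) : ℂ), 0] : E 2) ∈ M.A.U (M.e (Q, 0)) := by
      rw [M.U_bot]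
      show ‖((M.r (σ Q) : ℝ) : ℂ)‖ < M.r Q
      rwa [Complex.norm_real, Real.norm_of_nonneg h0.le]
    have h2 := h.mem Q 0 _ h1
    rw [M.U_bot] at h2
    have h3 : ‖((M.r (σ Q) : ℝ) : ℂ)‖ < M.r (σ Q) := h2
    rw [Complex.norm_real, Real.norm_of_nonneg h0.le] at h3
    exact lt_irrefl _ h3
  refine le_antisymm ?_ (key P)
  have := key (σ P)
  rwa [hσ] at this

namespace TwoP1

variable (X : TwoP1 M.A M.D (25 * (q : ℤ)) 3 (25 * (q : ℤ)) (-3))

/-- Reduction to the surface: a metric of constant scalar curvature on `X` which is invariant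
under `Γ` gives a metric on `Σ` satisfying the reduced equation. -/
theorem exists_pde {γ : Gam T} (G : TwoP1.GamX (M := M) γ) (hc : X.B₂.IsCpt) (ht : X.B₂.IsT2)
    (H : P1Y X.D₁ (25 * (q : ℤ)) (-3) → ℝ) (hK : X.B₂.IsKahler H)
    (h₁ : ∀ y, H (G.e₁ X y) = H y) (h₂ : ∀ y, H (G.e₂ X y) = H y)
    (s : ℂ) (hS : X.B₂.IsCsc H s) : ∃ h : M.Y → ℝ, M.A.IsKahler h ∧ M.A.IsPde M.D q s h := by
  obtain ⟨P⟩ := PolAtlas.exists_part hc ht
  obtain ⟨Hg, hKg, hSg, hHg⟩ := X.exists_had hK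
  have hconst : ∀ f : T.X.Pt → ℂ,
      (∀ P, DifferentiableOn ℂ (fun s => f (An.c P s)) (ball 0 (M.r P))) → ∀ P Q, f P = f Q :=
    fun f hf P Q => AnCurve.const_of_hol (X := T.X) An M.r M.r_pos M.r_le f hf P Q
  -- the actions
  have comm : ∀ (c c' : ℂˣ) y, M.D.act c (M.D.act c' y) = M.D.act c' (M.D.act c y) :=
    fun c c' y => M.D.act_comm c c' y
  let L := liftD X.h₁ M.D comm
  have hL : ∀ (c c' : ℂˣ) p, L.act c (X.D₁.act c' p) = X.D₁.act c' (L.act c p) := by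
    intro c c' p
    obtain ⟨y, x, rfl⟩ := P1Y.exists_mk p
    rw [X.l₁.act, liftD_act, liftD_act, X.l₁.act, comm]
  let R := rotD X.h₁
  have hR : ∀ (c c' : ℂˣ) p, R.act c (X.D₁.act c' p) = X.D₁.act c' (R.act c p) := by
    intro c c' p
    obtain ⟨y, x, rfl⟩ := P1Y.exists_mk p
    rw [X.l₁.act, rotD_act, rotD_act, X.l₁.act]
  let Dw := liftD X.h₂ L hL
  let Rx := liftD X.h₂ R hR
  let Ry := rotD X.h₂
  have hrot : ∀ (c : ℂˣ) (x : V2), V2.rot c x = diagV c x := fun _ _ => rfl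
  obtain ⟨i1, i2⟩ := X.inv_main hconst Dw Rx Ry
    (fun P => by
      rw [bt, TwoP1.i, liftD_k, liftD_k, (M.k_bot P).1]
      funext j
      fin_cases j <;> rfl)
    (fun c y x x' => by rw [liftD_act, liftD_act])
    (fun P => by
      rw [bt, TwoP1.i, liftD_k, rotD_k_false]
      funext j
      fin_cases j <;> rfl)
    (fun c y x x' => by rw [liftD_act, rotD_act, hrot])
    (fun P => by
      rw [bt, TwoP1.i, rotD_k_false]
      funext j
      fin_cases j <;> rfl)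
    (fun c y x x' => by rw [rotD_act, hrot])
    hK hKg hHg
    (fun R => PolAtlas.circleThm P hc ht hK hS R)
    (fun R => PolAtlas.circleThm P hc ht hKg (hSg s hS) R)
    (X.isSymm_of (G.aut₁.r_eq γ.σσ₁) (fun P z hz => G.aut₁.γ P 0 z hz)
      (fun y x x' => by rw [← G.e₁_mk X, h₁]))
    (X.isSymm_had hHg (G.aut₂.r_eq γ.σσ₂) (fun P z hz => G.aut₂.γ P 0 z hz)
      (fun y x x' => by rw [← G.e₂_mk X, h₂]))
  have i2' : ∀ y (x x₁ x' x₁' : V2), ‖x.1 0‖ ^ 2 + ‖x.1 1‖ ^ 2 = ‖x₁.1 0‖ ^ 2 + ‖x₁.1 1‖ ^ 2 →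
      ‖x'.1 0‖ ^ 2 + ‖x'.1 1‖ ^ 2 = ‖x₁'.1 0‖ ^ 2 + ‖x₁'.1 1‖ ^ 2 →
      H (P1Y.mk (P1Y.mk y x) x') = H (P1Y.mk (P1Y.mk y x₁) x₁') :=
    fun y x x₁ x' x₁' e e' => i2 y x x₁ x' x₁' e e'
  exact ⟨hred H, isKahler_hred X.l₁.act hK i1 i2' (fun a => X.i a false false)
      (fun a z => X.mem_U) (fun a z hz => X.γ_eq hz),
    isPde_hred X.l₁.act hK i1 i2' (fun a => X.i a false false)
      (fun a z => X.mem_U) (fun a z hz => X.γ_eq hz) hS⟩

end TwoP1

end Main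

end

end Pool.Agent.YTDA
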