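import Pool.Agent.YTDA.P1Defs
import Pool.Agent.YTD.Gam

/-!
Interfaces: analytic structure on the points of a curve; the surface `Σ` (the blow-up of
`C × ℙ¹` in the points `(y, ∞)`, `y ∈ S`, and `(y, 0)`, `y ∈ S'`) with its line bundle.
-/

namespace Pool.Agent.YTDA

open Complex Set Topology Metric
open Pool.Agent.YTD

noncomputable section

/-- An analytic structure on the set of points of a curve. -/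
structure AnCurve {K : Type} [Field K] [Algebra ℂ K] (X : CurveOrd K) where
  /-- radius of the coordinate disc at `P` -/
  r : X.Pt → ℝ
  r_pos : ∀ P, 0 < r P
  /-- parametrization of the coordinate disc at `P` -/
  c : X.Pt → ℂ → X.Pt
  c_zero : ∀ P, c P 0 = P
  inj : ∀ P, InjOn (c P) (ball 0 (r P))
  /-- local expression of a rational function -/
  fn : X.Pt → K → ℂ → ℂ
  fn_mero : ∀ P z, MeromorphicOn (fn P z) (ball 0 (r P))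
  fn_add : ∀ P z w, ∀ s ∈ ball 0 (r P), fn P (z + w) =ᶠ[𝓝[≠] s] fn P z + fn P w
  fn_mul : ∀ P z w, ∀ s ∈ ball 0 (r P), fn P (z * w) =ᶠ[𝓝[≠] s] fn P z * fn P w
  fn_const : ∀ P (a : ℂ), ∀ s ∈ ball 0 (r P), fn P (algebraMap ℂ K a) =ᶠ[𝓝[≠] s] fun _ => a
  ord : ∀ P z, z ≠ 0 → ∀ s ∈ ball 0 (r P), meromorphicOrderAt (fn P z) s = X.ord (c P s) z
  tr : ∀ P Q, ∀ s ∈ ball 0 (r P), ∀ s' ∈ ball 0 (r Q), c P s = c Q s' → ∃ f : ℂ → ℂ,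
    AnalyticAt ℂ f s ∧ f s = s' ∧ deriv f s ≠ 0 ∧ (∀ᶠ σ in 𝓝 s, c Q (f σ) = c P σ) ∧
    ∀ z, (fun σ => fn Q z (f σ)) =ᶠ[𝓝[≠] s] fn P z
  t2 : ∀ P Q, P ≠ Q → ∃ ε > 0, ∀ s s' : ℂ, ‖s‖ < ε → ‖s'‖ < ε → c P s ≠ c Q s'
  cpt : ∀ ρ : X.Pt → ℝ, (∀ P, 0 < ρ P) →
    ∃ F : Finset X.Pt, ∀ Q, ∃ P ∈ F, ∃ s, ‖s‖ < ρ P ∧ c P s = Q

/-- compatibility of the analytic structure with an automorphism of the curve -/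
structure AnCurve.Equiv {K : Type} [Field K] [Algebra ℂ K] {X : CurveOrd K} (An : AnCurve X)
    (θ : K ≃ₐ[ℂ] K) (σ : X.Pt → X.Pt) : Prop where
  r : ∀ P, An.r (σ P) = An.r P
  c : ∀ P, ∀ s ∈ ball 0 (An.r P), An.c (σ P) s = σ (An.c P s)
  fn : ∀ P z, ∀ s ∈ ball 0 (An.r P), An.fn (σ P) (θ z) =ᶠ[𝓝[≠] s] An.fn P z

/-- `s^d` as a unit, with the convention that it is `1` for `s = 0` -/
def upow (s : ℂ) (d : ℤ) : ℂˣ := if h : s = 0 then 1 else (Units.mk0 s h) ^ d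

variable {K : Type} [Field K] [Algebra ℂ K]

/-- the point with coordinate `s` of the disc at `P` is not in `S ∪ S'` (for small discs) -/
def Ok (T : Datum K) (P : T.X.Pt) (s : ℂ) : Prop := s ≠ 0 ∨ (P ∉ T.S ∧ P ∉ T.S')

/-- The surface `Σ` with its line bundle. Charts: at every point `P` of `C` a chart `bot`
(index `(P, 0)`), a chart `top` (index `(P, 1)`), a chart `mid` (index `(P, 2)`).
`s` is the coordinate of the disc at `P`, `w` the fibre coordinate.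
`bot`: `(s, w)`, for `P ∈ S'`: `(s, b)` with `w = s b`.
`top`: `(s, 1/w)`, for `P ∈ S`: `(s, a)` with `1/w = s a`.
`mid`: for `P ∈ S`: `(ζ, e)` with `w = 1/ζ`, `s = ζ e`; for `P ∈ S'`: `(w, e)` with `s = w e`;
empty for the other points.
`o P s w` is the frame (of weight `0`) at the point `(s, w)`, `w ≠ 0`. -/
structure SigModel (T : Datum K) (q : ℕ) (D₀ : T.X.Pt →₀ ℤ) (An : AnCurve T.X.toCurveOrd) where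
  Y : Type
  [inst : MulAction ℂˣ Y]
  A : PolAtlas 2 Y
  D : A.DAct
  cpt : A.IsCpt
  t2 : A.IsT2
  e : T.X.Pt × Fin 3 ≃ A.ι
  r : T.X.Pt → ℝ
  r_pos : ∀ P, 0 < r P
  r_le : ∀ P, r P ≤ An.r P
  iso : ∀ P, ∀ s ∈ ball 0 (r P), s ≠ 0 →
    An.c P s ∉ T.S ∧ An.c P s ∉ T.S' ∧ D₀ (An.c P s) = 0
  U_bot : ∀ P, A.U (e (P, 0)) = {z | ‖z 0‖ < r P}
  U_top : ∀ P, A.U (e (P, 1)) = {z | ‖z 0‖ < r P}
  U_mid : ∀ P, (P ∈ T.S ∨ P ∈ T.S') → A.U (e (P, 2)) = {z | ‖z 0 * z 1‖ < r P}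
  U_mid' : ∀ P, P ∉ T.S → P ∉ T.S' → A.U (e (P, 2)) = ∅
  k_bot : ∀ P, D.k (e (P, 0)) = ![0, 1] ∧ D.m (e (P, 0)) = -5 * q
  k_top : ∀ P, D.k (e (P, 1)) = ![0, -1] ∧ D.m (e (P, 1)) = 5 * q
  k_mid : ∀ P, P ∈ T.S → D.k (e (P, 2)) = ![-1, 1] ∧ D.m (e (P, 2)) = 4 * q
  k_mid' : ∀ P, P ∈ T.S' → D.k (e (P, 2)) = ![1, -1] ∧ D.m (e (P, 2)) = -4 * q
  o : T.X.Pt → ℂ → ℂˣ → Y
  γ_bot : ∀ P, P ∉ T.S' → ∀ s ∈ ball 0 (r P), (s ≠ 0 ∨ P ∉ T.S) → ∀ w : ℂˣ,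
    A.γ (e (P, 0)) ![s, w] = w ^ (5 * (q : ℤ)) • o P s w
  γ_bot' : ∀ P, P ∈ T.S' → ∀ s : ℂˣ, ‖(s : ℂ)‖ < r P → ∀ b : ℂˣ,
    A.γ (e (P, 0)) ![s, b] = ((s * b) ^ (5 * (q : ℤ)) * s ^ (-(q : ℤ))) • o P s (s * b)
  γ_top : ∀ P, P ∉ T.S → ∀ s ∈ ball 0 (r P), (s ≠ 0 ∨ P ∉ T.S') → ∀ z : ℂˣ,
    A.γ (e (P, 1)) ![s, z] = z ^ (5 * (q : ℤ)) • o P s z⁻¹
  γ_top' : ∀ P, P ∈ T.S → ∀ s : ℂˣ, ‖(s : ℂ)‖ < r P → ∀ a : ℂˣ,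
    A.γ (e (P, 1)) ![s, a] = ((s * a) ^ (5 * (q : ℤ)) * s ^ (-(q : ℤ))) • o P s (s * a)⁻¹
  γ_mid : ∀ P, P ∈ T.S → ∀ z f : ℂˣ, ‖(z : ℂ) * f‖ < r P →
    A.γ (e (P, 2)) ![z, f] = z ^ (4 * (q : ℤ)) • o P (z * f) z⁻¹
  γ_mid' : ∀ P, P ∈ T.S' → ∀ w f : ℂˣ, ‖(w : ℂ) * f‖ < r P →
    A.γ (e (P, 2)) ![w, f] = w ^ (4 * (q : ℤ)) • o P (w * f) w
  act_o : ∀ P, ∀ s ∈ ball 0 (r P), Ok T P s → ∀ c w : ℂˣ,
    D.act c (o P s w) = o P s (c * w)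
  o_tr : ∀ P Q, ∀ s ∈ ball 0 (r P), ∀ s' ∈ ball 0 (r Q), Ok T P s →
    Ok T Q s' → An.c P s = An.c Q s' → ∀ w : ℂˣ,
    o Q s' w = (upow s' (D₀ Q) / upow s (D₀ P)) • o P s w
  o_inj : ∀ P Q, ∀ s ∈ ball 0 (r P), ∀ s' ∈ ball 0 (r Q), Ok T P s →
    Ok T Q s' → ∀ w w' c : ℂˣ, o P s w = c • o Q s' w' →
    An.c P s = An.c Q s' ∧ w = w'
  /-- automorphisms of the curve preserving `S`, `S'`, `D₀` -/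
  sym : ∀ (θ : K ≃ₐ[ℂ] K) (σ : T.X.Pt → T.X.Pt), An.Equiv θ σ → (∀ P, σ (σ P) = P) →
    (∀ P, r (σ P) = r P) → (∀ P, D₀ (σ P) = D₀ P) → (∀ P, P ∈ T.S ↔ σ P ∈ T.S) →
    (∀ P, P ∈ T.S' ↔ σ P ∈ T.S') → ∃ f : Y → Y, (∀ (c : ℂˣ) y, f (c • y) = c • f y) ∧
    (∀ (c : ℂˣ) y, f (D.act c y) = D.act c (f y)) ∧
    ∀ P i, ∀ z ∈ A.U (e (P, i)), f (A.γ (e (P, i)) z) = A.γ (e (σ P, i)) z
  /-- automorphisms of the curve exchanging `S` and `S'` -/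
  swap : ∀ (θ : K ≃ₐ[ℂ] K) (σ : T.X.Pt → T.X.Pt), An.Equiv θ σ → (∀ P, σ (σ P) = P) →
    (∀ P, r (σ P) = r P) → (∀ P, D₀ (σ P) = D₀ P) → (∀ P, P ∈ T.S ↔ σ P ∈ T.S') →
    ∃ f : Y → Y, (∀ (c : ℂˣ) y, f (c • y) = c • f y) ∧
    (∀ (c : ℂˣ) y, f (D.act c y) = D.act c⁻¹ (f y)) ∧
    (∀ P, ∀ z ∈ A.U (e (P, 0)), f (A.γ (e (P, 0)) z) = A.γ (e (σ P, 1)) z) ∧
    (∀ P, ∀ z ∈ A.U (e (P, 1)), f (A.γ (e (P, 1)) z) = A.γ (e (σ P, 0)) z) ∧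
    ∀ P, ∀ z ∈ A.U (e (P, 2)), f (A.γ (e (P, 2)) z) = A.γ (e (σ P, 2)) z

attribute [instance] SigModel.inst

end

end Pool.Agent.YTDA
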