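import Pool.Agent.YTDA.Defs

/-! The hamiltonian of a diagonal circle action. -/

namespace Pool.Agent.YTDA

open Complex Set Topology ContDiff ComplexOrder

noncomputable section

namespace PolAtlas

variable {n : ℕ} {Y : Type} [MulAction ℂˣ Y] (A : PolAtlas n Y)

/-- derivative of the potential along the circle action -/
def cv (D : A.DAct) (H : Y → ℝ) (a : A.ι) (z : E n) : ℝ :=
  deriv (fun θ : ℝ => A.pot H a (fun j => exp ((D.k a j : ℂ) * θ * I) * z j)) 0

end PolAtlas

end

end Pool.Agent.YTDA
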