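import Mathlib

/-!
# Polarized complex manifolds presented by atlases

`PolAtlas n Y`: the complement `Y` of the zero section of (the dual of) a holomorphic line bundle
over a complex manifold `M = Y / ℂˣ` of dimension `n`, presented by local frames
`γ a : U a → Y`, `U a ⊆ ℂⁿ`.
-/

namespace Pool.Agent.YTDA

open Complex Set Topology ContDiff ComplexOrder

noncomputable section

/-- `ℂⁿ` -/
abbrev E (n : ℕ) := Fin n → ℂ

/-- `∂/∂z_i` -/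
def dz {n : ℕ} (i : Fin n) (f : E n → ℂ) (z : E n) : ℂ :=
  (fderiv ℝ f z (Pi.single i 1) - I * fderiv ℝ f z (Pi.single i I)) / 2

/-- `∂/∂z̄_i` -/
def dzb {n : ℕ} (i : Fin n) (f : E n → ℂ) (z : E n) : ℂ :=
  (fderiv ℝ f z (Pi.single i 1) + I * fderiv ℝ f z (Pi.single i I)) / 2

/-- the complex Hessian `(∂²φ/∂z_i ∂z̄_j)` -/
def hess {n : ℕ} (φ : E n → ℝ) (z : E n) : Matrix (Fin n) (Fin n) ℂ :=
  fun i j => dz i (dzb j (fun w => (φ w : ℂ))) z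

/-- the logarithm of the determinant of the complex Hessian -/
def logdet {n : ℕ} (φ : E n → ℝ) (z : E n) : ℝ := Real.log ((hess φ z).det.re)

/-- the scalar curvature `- g^{i j̄} ∂_i ∂_j̄ log det g` of the Kähler metric with potential `φ` -/
def scal {n : ℕ} (φ : E n → ℝ) (z : E n) : ℂ :=
  - ∑ i, ∑ j, (hess φ z)⁻¹ j i * hess (logdet φ) z i j

/-- action of `λ ∈ ℂˣ` on `ℂⁿ` with weights `k` -/
def dact {n : ℕ} (k : Fin n → ℤ) (c : ℂˣ) (z : E n) : E n := fun j => ((c ^ k j : ℂˣ) : ℂ) * z j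

/-- See the header. The action of `ℂˣ` on `Y` is `•`. -/
structure PolAtlas (n : ℕ) (Y : Type) [MulAction ℂˣ Y] where
  ι : Type
  U : ι → Set (E n)
  γ : ι → E n → Y
  isOpen_U : ∀ a, IsOpen (U a)
  inj : ∀ a, ∀ z ∈ U a, ∀ z' ∈ U a, ∀ c : ℂˣ, γ a z' = c • γ a z → z' = z ∧ c = 1
  cover : ∀ y, ∃ a, ∃ z ∈ U a, ∃ c : ℂˣ, y = c • γ a z
  /-- transition maps -/
  τ : ι → ι → E n → E n
  /-- the transition functions of the line bundle -/
  h : ι → ι → E n → ℂˣ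
  isOpen_O : ∀ a b, IsOpen {z | z ∈ U a ∧ ∃ z' ∈ U b, ∃ c : ℂˣ, γ b z' = c • γ a z}
  trans : ∀ a b, ∀ z ∈ U a, (∃ z' ∈ U b, ∃ c : ℂˣ, γ b z' = c • γ a z) →
    τ a b z ∈ U b ∧ γ b (τ a b z) = h a b z • γ a z
  hol_τ : ∀ a b, DifferentiableOn ℂ (τ a b)
    {z | z ∈ U a ∧ ∃ z' ∈ U b, ∃ c : ℂˣ, γ b z' = c • γ a z}
  hol_h : ∀ a b, DifferentiableOn ℂ (fun z => (h a b z : ℂ))
    {z | z ∈ U a ∧ ∃ z' ∈ U b, ∃ c : ℂˣ, γ b z' = c • γ a z}

namespace PolAtlas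

variable {n : ℕ} {Y : Type} [MulAction ℂˣ Y] (A : PolAtlas n Y)

/-- the domain of the transition from `a` to `b` -/
def O (a b : A.ι) : Set (E n) := {z | z ∈ A.U a ∧ ∃ z' ∈ A.U b, ∃ c : ℂˣ, A.γ b z' = c • A.γ a z}

/-- `M = Y / ℂˣ` is compact: finitely many compact pieces of charts cover it. -/
def IsCpt : Prop := ∃ (m : ℕ) (a : Fin m → A.ι) (K : Fin m → Set (E n)),
  (∀ k, IsCompact (K k) ∧ K k ⊆ A.U (a k)) ∧
  ∀ y, ∃ k, ∃ z ∈ K k, ∃ c : ℂˣ, y = c • A.γ (a k) z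

/-- `M = Y / ℂˣ` is Hausdorff. -/
def IsT2 : Prop := ∀ a b, ∀ z ∈ A.U a, ∀ z' ∈ A.U b, (∀ c : ℂˣ, A.γ b z' ≠ c • A.γ a z) →
  ∃ V ∈ 𝓝 z, ∃ V' ∈ 𝓝 z', ∀ w ∈ V ∩ A.U a, ∀ w' ∈ V' ∩ A.U b, ∀ c : ℂˣ,
    A.γ b w' ≠ c • A.γ a w

/-- the local potentials of a function on `Y` -/
def pot (H : Y → ℝ) (a : A.ι) (z : E n) : ℝ := Real.log (H (A.γ a z))

/-- A hermitian metric on the line bundle `L`, i.e. a function `H > 0` on `Y` with
`H (c y) = |c|² H y`, smooth, with positive curvature. -/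
structure IsKahler (H : Y → ℝ) : Prop where
  pos : ∀ y, 0 < H y
  hom : ∀ (c : ℂˣ) y, H (c • y) = ‖(c : ℂ)‖ ^ 2 * H y
  smooth : ∀ a, ContDiffOn ℝ ∞ (A.pot H a) (A.U a)
  posDef : ∀ a, ∀ z ∈ A.U a, (hess (A.pot H a) z).PosDef

/-- constant scalar curvature `s` -/
def IsCsc (H : Y → ℝ) (s : ℂ) : Prop := ∀ a, ∀ z ∈ A.U a, scal (A.pot H a) z = s

/-- A holomorphic function on `Y`, homogeneous of degree `N`: a holomorphic section of `L^N`. -/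
structure IsSec (N : ℕ) (F : Y → ℂ) : Prop where
  hom : ∀ (c : ℂˣ) y, F (c • y) = (c : ℂ) ^ N * F y
  hol : ∀ a, DifferentiableOn ℂ (fun z => F (A.γ a z)) (A.U a)

/-- A holomorphic vector field on `M`. -/
structure HolField where
  W : A.ι → E n → E n
  hol : ∀ a, DifferentiableOn ℂ (W a) (A.U a)
  trans : ∀ a b, ∀ z ∈ A.O a b, W b (A.τ a b z) = fderiv ℂ (A.τ a b) z (W a z)

/-- An action of `ℂˣ` on `Y` commuting with the scalar action, given by linear diagonal actions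
in the charts. -/
structure DAct where
  act : ℂˣ → Y → Y
  act_one : ∀ y, act 1 y = y
  act_mul : ∀ c c' y, act (c * c') y = act c (act c' y)
  act_smul : ∀ (c c' : ℂˣ) y, act c (c' • y) = c' • act c y
  /-- weights on the coordinates -/
  k : A.ι → Fin n → ℤ
  /-- weight on the frame -/
  m : A.ι → ℤ
  dom : ∀ a, ∀ z ∈ A.U a, ∀ c : ℂˣ, dact (k a) c z ∈ A.U a
  act_γ : ∀ a, ∀ z ∈ A.U a, ∀ c : ℂˣ, act c (A.γ a z) = (c ^ m a) • A.γ a (dact (k a) c z)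

end PolAtlas

end

end Pool.Agent.YTDA
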