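import Pool.Agent.YTDA.FinDefs
import Pool.Agent.YTD.SatK4

/-!
# K-stability only depends on the graded ring of sections

Transport of test configurations of a polarized manifold `(M, L)` along an isomorphism of its
section ring with the ring `⊕ secQ N`.
-/

namespace Pool.Agent.YTDA

open Complex Set Topology ContDiff Manifold Module MvPolynomial
open Pool.Agent.YTD

noncomputable section

namespace LineBundle

variable {n : ℕ} {M : Type} [TopologicalSpace M] [ChartedSpace (E n) M] (L : LineBundle n M)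

theorem H0_mul {k k' : ℕ} {f f' : L.ι → M → ℂ} (hf : f ∈ L.H0 k) (hf' : f' ∈ L.H0 k') :
    f * f' ∈ L.H0 (k + k') := by
  obtain ⟨h1, h2, h3⟩ := hf
  obtain ⟨h1', h2', h3'⟩ := hf'
  refine ⟨fun i x hx => ?_, fun i => (h2 i).mul (h2' i), fun i j x hx => ?_⟩
  · rw [Pi.mul_apply, Pi.mul_apply, h1 i x hx, zero_mul]
  · rw [Pi.mul_apply, Pi.mul_apply, Pi.mul_apply, Pi.mul_apply, h3 i j x hx, h3' i j x hx, pow_add]
    ring

/-- An isomorphism of the ring of sections with a graded ring. -/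
structure RingIso {B : Type} [CommRing B] [Algebra ℂ B] (S : ℕ → Submodule ℂ B) where
  Φ : ∀ k, L.H0 k ≃ₗ[ℂ] S k
  mul : ∀ (k k' : ℕ) (f : L.H0 k) (f' : L.H0 k') (h : f.1 * f'.1 ∈ L.H0 (k + k')),
    (Φ (k + k') ⟨f.1 * f'.1, h⟩ : B) = Φ k f * Φ k' f'

namespace RingIso

variable {L} {B : Type} [CommRing B] [Algebra ℂ B] {S : ℕ → Submodule ℂ B} (R : L.RingIso S)

open Classical in
/-- The isomorphism, extended by zero. -/
def φ (k : ℕ) (f : L.ι → M → ℂ) : B := if h : f ∈ L.H0 k then (R.Φ k ⟨f, h⟩ : B) else 0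

theorem φ_of_mem {k : ℕ} {f : L.ι → M → ℂ} (h : f ∈ L.H0 k) : R.φ k f = (R.Φ k ⟨f, h⟩ : B) :=
  dif_pos h

theorem φ_mem {k : ℕ} {f : L.ι → M → ℂ} (h : f ∈ L.H0 k) : R.φ k f ∈ S k := by
  rw [R.φ_of_mem h]
  exact (R.Φ k ⟨f, h⟩).2

theorem φ_add {k : ℕ} {f f' : L.ι → M → ℂ} (h : f ∈ L.H0 k) (h' : f' ∈ L.H0 k) :
    R.φ k (f + f') = R.φ k f + R.φ k f' := by
  rw [R.φ_of_mem h, R.φ_of_mem h', R.φ_of_mem (add_mem h h')]
  have e : (⟨f + f', add_mem h h'⟩ : L.H0 k) = ⟨f, h⟩ + ⟨f', h'⟩ := rfl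
  rw [e, map_add]
  rfl

theorem φ_smul {k : ℕ} {f : L.ι → M → ℂ} (h : f ∈ L.H0 k) (c : ℂ) :
    R.φ k (c • f) = c • R.φ k f := by
  rw [R.φ_of_mem h, R.φ_of_mem ((L.H0 k).smul_mem c h)]
  have e : (⟨c • f, (L.H0 k).smul_mem c h⟩ : L.H0 k) = c • ⟨f, h⟩ := rfl
  rw [e, map_smul]
  rfl

theorem φ_zero (k : ℕ) : R.φ k 0 = 0 := by
  have h := R.φ_smul (L.H0 k).zero_mem 0
  rw [zero_smul, zero_smul] at h
  exact h

theorem φ_mul {k k' : ℕ} {f f' : L.ι → M → ℂ} (h : f ∈ L.H0 k) (h' : f' ∈ L.H0 k') :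
    R.φ (k + k') (f * f') = R.φ k f * R.φ k' f' := by
  rw [R.φ_of_mem h, R.φ_of_mem h', R.φ_of_mem (L.H0_mul h h')]
  exact R.mul k k' ⟨f, h⟩ ⟨f', h'⟩ (L.H0_mul h h')

theorem exists_of_mem {k : ℕ} {y : B} (hy : y ∈ S k) : ∃ f ∈ L.H0 k, R.φ k f = y := by
  refine ⟨((R.Φ k).symm ⟨y, hy⟩ : L.H0 k), Subtype.coe_prop _, ?_⟩
  rw [R.φ_of_mem (Subtype.coe_prop _)]
  simp

/-- The image of a space of sections. -/
def im (k : ℕ) (W : Submodule ℂ (L.ι → M → ℂ)) : Submodule ℂ B :=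
  (W.comap (L.H0 k).subtype).map ((S k).subtype ∘ₗ (R.Φ k : L.H0 k →ₗ[ℂ] S k))

theorem mem_im {k : ℕ} {W : Submodule ℂ (L.ι → M → ℂ)} {y : B} :
    y ∈ R.im k W ↔ ∃ f ∈ W, f ∈ L.H0 k ∧ R.φ k f = y := by
  unfold im
  rw [Submodule.mem_map]
  constructor
  · rintro ⟨f, hf, rfl⟩
    refine ⟨f.1, hf, f.2, ?_⟩
    rw [R.φ_of_mem f.2]
    rfl
  · rintro ⟨f, hf, hf', rfl⟩
    refine ⟨⟨f, hf'⟩, hf, ?_⟩
    rw [R.φ_of_mem hf']
    rfl

theorem im_mono {k : ℕ} {W W' : Submodule ℂ (L.ι → M → ℂ)} (h : W ≤ W') : R.im k W ≤ R.im k W' := by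
  intro y hy
  obtain ⟨f, hf, hf', rfl⟩ := R.mem_im.1 hy
  exact R.mem_im.2 ⟨f, h hf, hf', rfl⟩

theorem im_le (k : ℕ) (W : Submodule ℂ (L.ι → M → ℂ)) : R.im k W ≤ S k := by
  intro y hy
  obtain ⟨f, _, hf', rfl⟩ := R.mem_im.1 hy
  exact R.φ_mem hf'

theorem im_H0 (k : ℕ) : R.im k (L.H0 k) = S k := by
  apply le_antisymm (R.im_le k _)
  intro y hy
  obtain ⟨f, hf, rfl⟩ := R.exists_of_mem hy
  exact R.mem_im.2 ⟨f, hf, hf, rfl⟩

theorem im_bot (k : ℕ) : R.im k ⊥ = ⊥ := by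
  rw [eq_bot_iff]
  intro y hy
  obtain ⟨f, hf, _, rfl⟩ := R.mem_im.1 hy
  rw [(Submodule.mem_bot ℂ).1 hf, R.φ_zero]
  exact zero_mem _

theorem finrank_im {k : ℕ} {W : Submodule ℂ (L.ι → M → ℂ)} (hW : W ≤ L.H0 k) :
    finrank ℂ (R.im k W) = finrank ℂ W := by
  have hinj : Function.Injective ((S k).subtype ∘ₗ (R.Φ k : L.H0 k →ₗ[ℂ] S k)) := by
    intro x y hxy
    exact (R.Φ k).injective (Subtype.ext hxy)
  have e1 := (Submodule.equivMapOfInjective _ hinj (W.comap (L.H0 k).subtype)).finrank_eq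
  have e2 := (Submodule.comapSubtypeEquivOfLe hW).finrank_eq
  unfold im
  rw [← e1, e2]

include R in
theorem finrank_eq (k : ℕ) : finrank ℂ (L.H0 k) = finrank ℂ (S k) :=
  LinearEquiv.finrank_eq (R.Φ k)

end RingIso

variable {K : Type} [Field K] [Algebra ℂ K] {T : Datum K} {q : ℕ} {D₀ : T.X.Pt →₀ ℤ}

/-- The sections of degree zero are the constants. -/
theorem sec_zero_le (T : Datum K) (q : ℕ) (D₀ : T.X.Pt →₀ ℤ) {f : MvPolynomial (Fin 4) K}
    (hf : f ∈ T.sec q D₀ 0) : ∃ c : ℂ, f = c • (1 : MvPolynomial (Fin 4) K) := by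
  obtain ⟨P₀⟩ := T.exists_pt
  have h0 : ∀ e, f.coeff e ≠ 0 → e = 0 ∧ f.coeff e ∈ T.X.L 0 := by
    intro e he
    obtain ⟨j, h1, h2, h3, h4⟩ := hf e he
    have hj : j = 0 := by simpa using h1
    subst hj
    simp only [Nat.cast_zero, mul_zero, add_zero, sub_zero] at h2 h3
    refine ⟨?_, ?_⟩
    · ext i
      have a0 : e 0 = 0 := by omega
      have a1 : e 1 = 0 := by omega
      have a2 : e 2 = 0 := by omega
      have a3 : e 3 = 0 := by omega
      fin_cases i
      · exact a0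
      · exact a1
      · exact a2
      · exact a3
    · have h5 : T.dvs q D₀ 0 0 = 0 := by
        unfold Datum.dvs
        simp
      unfold Datum.V at h4
      rwa [h5] at h4
  by_cases hf0 : f.coeff 0 = 0
  · refine ⟨0, ?_⟩
    rw [zero_smul]
    ext e
    rw [coeff_zero]
    by_contra he
    rw [(h0 e he).1] at he
    exact he hf0
  · obtain ⟨c, hc⟩ := T.X.exists_const P₀ (h0 0 hf0).2
    refine ⟨c, ?_⟩
    ext e
    rw [coeff_smul, coeff_one]
    by_cases he : 0 = e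
    · rw [if_pos he, ← he, hc, Algebra.smul_def, mul_one]
    · rw [if_neg he, smul_zero]
      by_contra h1
      exact he (h0 e h1).1.symm

variable {L} {γ : Gam T}

/-- The products of generators. -/
theorem RingIso.prod_pow (R : L.RingIso (γ.secQ q D₀)) {r : ℕ} (χ : L.TestConfiguration r) {p : ℕ}
    {m : Fin p → ℕ} {w : Fin p → ℤ} {f : Fin p → L.ι → M → ℂ} (hf : ∀ i, f i ∈ χ.F (m i) (w i)) :
    ∀ (N : ℕ) (e : Fin p → ℕ), ∑ i, e i = N + 1 →
      ∏ i, f i ^ e i ∈ χ.F (∑ i, e i * m i) (∑ i, (e i : ℤ) * w i) ∧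
      R.φ (r * ∑ i, e i * m i) (∏ i, f i ^ e i) = ∏ i, R.φ (r * m i) (f i) ^ e i := by
  classical
  intro N
  induction N with
  | zero =>
    intro e he
    obtain ⟨i₀, hi₀⟩ : ∃ i, e i ≠ 0 := by
      by_contra hcon
      push Not at hcon
      rw [Finset.sum_eq_zero fun i _ => hcon i] at he
      omega
    have h1 : e = Pi.single i₀ 1 := by
      funext i
      have h2 := Finset.add_sum_erase Finset.univ e (Finset.mem_univ i₀)
      by_cases hi : i = i₀
      · rw [hi, Pi.single_eq_same]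
        omega
      · rw [Pi.single_eq_of_ne hi]
        have h3 := Finset.single_le_sum (f := e) (fun _ _ => Nat.zero_le _)
          (Finset.mem_erase.2 ⟨hi, Finset.mem_univ i⟩)
        omega
    have s1 : ∀ v : Fin p → ℕ, ∑ i, (Pi.single i₀ 1 : Fin p → ℕ) i * v i = v i₀ := by
      intro v
      rw [Finset.sum_eq_single i₀]
      · rw [Pi.single_eq_same, one_mul]
      · intro j _ hj
        rw [Pi.single_eq_of_ne hj, zero_mul]
      · intro h
        exact (h (Finset.mem_univ _)).elim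
    have s2 : ∑ i, (((Pi.single i₀ 1 : Fin p → ℕ) i : ℕ) : ℤ) * w i = w i₀ := by
      rw [Finset.sum_eq_single i₀]
      · rw [Pi.single_eq_same, Nat.cast_one, one_mul]
      · intro j _ hj
        rw [Pi.single_eq_of_ne hj, Nat.cast_zero, zero_mul]
      · intro h
        exact (h (Finset.mem_univ _)).elim
    have s3 : ∀ {C : Type} [CommRing C] (x : Fin p → C),
        ∏ i, x i ^ (Pi.single i₀ 1 : Fin p → ℕ) i = x i₀ := by
      intro C _ x
      rw [Finset.prod_eq_single i₀]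
      · rw [Pi.single_eq_same, pow_one]
      · intro j _ hj
        rw [Pi.single_eq_of_ne hj, pow_zero]
      · intro h
        exact (h (Finset.mem_univ _)).elim
    rw [h1, s1, s2, s3, s3]
    exact ⟨hf i₀, rfl⟩
  | succ N ih =>
    intro e he
    obtain ⟨i₀, hi₀⟩ : ∃ i, e i ≠ 0 := by
      by_contra hcon
      push Not at hcon
      rw [Finset.sum_eq_zero fun i _ => hcon i] at he
      omega
    set e' : Fin p → ℕ := Function.update e i₀ (e i₀ - 1) with he'
    have hupd : ∀ i, e i = e' i + (if i = i₀ then 1 else 0) := by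
      intro i
      by_cases hi : i = i₀
      · subst hi
        rw [he', Function.update_self, if_pos rfl]
        omega
      · rw [he', Function.update_of_ne hi, if_neg hi, add_zero]
    have hs : ∑ i, e' i = N + 1 := by
      have h1 : ∑ i, e i = ∑ i, e' i + 1 := by
        rw [Finset.sum_congr rfl fun i _ => hupd i, Finset.sum_add_distrib]
        simp
      omega
    obtain ⟨h1, h2⟩ := ih e' hs
    have s1 : ∑ i, e i * m i = ∑ i, e' i * m i + m i₀ := by
      have : ∀ i, e i * m i = e' i * m i + (if i = i₀ then m i else 0) := by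
        intro i
        rw [hupd i, add_mul]
        split_ifs <;> simp
      rw [Finset.sum_congr rfl fun i _ => this i, Finset.sum_add_distrib]
      simp
    have s2 : ∑ i, (e i : ℤ) * w i = ∑ i, (e' i : ℤ) * w i + w i₀ := by
      have : ∀ i, (e i : ℤ) * w i = (e' i : ℤ) * w i + (if i = i₀ then w i else 0) := by
        intro i
        rw [hupd i]
        push_cast
        split_ifs <;> ring
      rw [Finset.sum_congr rfl fun i _ => this i, Finset.sum_add_distrib]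
      simp
    have s3 : ∀ {C : Type} [CommRing C] (x : Fin p → C),
        ∏ i, x i ^ e i = (∏ i, x i ^ e' i) * x i₀ := by
      intro C _ x
      have : ∀ i, x i ^ e i = x i ^ e' i * (if i = i₀ then x i else 1) := by
        intro i
        rw [hupd i]
        split_ifs with h
        · rw [pow_add, pow_one]
        · rw [add_zero, mul_one]
      rw [Finset.prod_congr rfl fun i _ => this i, Finset.prod_mul_distrib]
      simp
    rw [s1, s2, s3, s3]
    refine ⟨χ.mul _ _ _ _ _ h1 _ (hf i₀), ?_⟩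
    rw [mul_add, R.φ_mul (χ.le _ _ h1) (χ.le _ _ (hf i₀)), h2]

/-- The test configuration of the graded ring. -/
def RingIso.toQ (R : L.RingIso (γ.secQ q D₀)) {r : ℕ} (χ : L.TestConfiguration r) :
    QTestConf γ q D₀ r where
  F k l := R.im (r * k) (χ.F k l)
  le k l := R.im_le _ _
  anti k l l' h := R.im_mono (χ.anti k l l' h)
  mul := by
    intro k k' l l' x hx y hy
    obtain ⟨f, hf, hf', rfl⟩ := R.mem_im.1 hx
    obtain ⟨g, hg, hg', rfl⟩ := R.mem_im.1 hy
    rw [mul_add, R.mem_im]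
    exact ⟨f * g, χ.mul _ _ _ _ f hf g hg, L.H0_mul hf' hg', R.φ_mul hf' hg'⟩
  bound := by
    obtain ⟨b, hb⟩ := χ.bound
    refine ⟨b, fun k => ⟨?_, ?_⟩⟩
    · rw [(hb k).1, R.im_H0]
    · rw [(hb k).2, R.im_bot]
  fg := by
    classical
    obtain ⟨p, m, w, f, hf, hspan⟩ := χ.fg
    refine ⟨p, m, w, fun i => R.φ (r * m i) (f i), fun i =>
      R.mem_im.2 ⟨f i, hf i, χ.le _ _ (hf i), rfl⟩, ?_⟩
    intro k l y hy
    obtain ⟨x, hx, hx', rfl⟩ := R.mem_im.1 hy
    rcases Nat.eq_zero_or_pos k with rfl | hk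
    · -- degree zero
      rcases le_or_gt l 0 with hl | hl
      · have h1 := R.φ_mem hx'
        rw [mul_zero] at h1 ⊢
        obtain ⟨c, hc⟩ := sec_zero_le T q D₀ (γ.secQ_le q D₀ 0 h1)
        rw [hc]
        apply Submodule.smul_mem
        apply Submodule.subset_span
        refine ⟨0, ?_, ?_, ?_⟩
        · simp
        · simpa using hl
        · simp
      · obtain ⟨b, hb⟩ := χ.bound
        have h1 := (hb 0).2
        have h2 : x ∈ χ.F 0 (b * (0 : ℕ) + 1) := χ.anti 0 _ _ (by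
          push_cast
          rw [mul_zero, zero_add]
          omega) hx
        rw [h1, Submodule.mem_bot] at h2
        rw [h2, R.φ_zero]
        exact zero_mem _
    · have h1 := hspan k l hx
      clear hy hx
      -- the linear span
      have key : ∀ z ∈ Submodule.span ℂ {g | ∃ e : Fin p → ℕ,
          ∑ i, e i * m i = k ∧ l ≤ ∑ i, e i * w i ∧ g = ∏ i, f i ^ e i},
          z ∈ L.H0 (r * k) ∧ R.φ (r * k) z ∈ Submodule.span ℂ {g | ∃ e : Fin p → ℕ,
          ∑ i, e i * m i = k ∧ l ≤ ∑ i, e i * w i ∧ g = ∏ i, R.φ (r * m i) (f i) ^ e i} := by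
        intro z hz
        induction hz using Submodule.span_induction with
        | mem z h =>
          obtain ⟨e, e1, e2, rfl⟩ := h
          obtain ⟨N, hN⟩ : ∃ N, ∑ i, e i = N + 1 := by
            refine ⟨∑ i, e i - 1, ?_⟩
            have h3 : ∑ i, e i ≠ 0 := by
              intro h4
              rw [Finset.sum_eq_zero_iff] at h4
              rw [Finset.sum_eq_zero fun i _ => by rw [h4 i (Finset.mem_univ i), zero_mul]] at e1
              omega
            omega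
          obtain ⟨h5, h6⟩ := R.prod_pow χ hf N e hN
          rw [e1] at h5 h6
          refine ⟨χ.le _ _ h5, ?_⟩
          rw [h6]
          exact Submodule.subset_span ⟨e, e1, e2, rfl⟩
        | zero =>
          rw [R.φ_zero]
          exact ⟨zero_mem _, zero_mem _⟩
        | add z z' _ _ h h' =>
          rw [R.φ_add h.1 h'.1]
          exact ⟨add_mem h.1 h'.1, add_mem h.2 h'.2⟩
        | smul c z _ h =>
          rw [R.φ_smul h.1]
          exact ⟨Submodule.smul_mem _ _ h.1, Submodule.smul_mem _ _ h.2⟩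
      exact (key x h1).2

theorem RingIso.toQ_F (R : L.RingIso (γ.secQ q D₀)) {r : ℕ} (χ : L.TestConfiguration r) (k : ℕ)
    (l : ℤ) : (R.toQ χ).F k l = R.im (r * k) (χ.F k l) := rfl

theorem RingIso.toQ_wt (R : L.RingIso (γ.secQ q D₀)) {r : ℕ} (χ : L.TestConfiguration r) (k : ℕ)
    (l : ℤ) : (R.toQ χ).wt k l = χ.wt k l := by
  unfold QFilt.wt TestConfiguration.wt
  rw [R.toQ_F, R.toQ_F, R.finrank_im (χ.le k l), R.finrank_im (χ.le k (l + 1))]

theorem RingIso.toQ_tr (R : L.RingIso (γ.secQ q D₀)) {r : ℕ} (χ : L.TestConfiguration r)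
    (p k : ℕ) : (R.toQ χ).tr p k = χ.tr p k := by
  unfold QFilt.tr TestConfiguration.tr
  simp only [R.toQ_wt]

theorem RingIso.toQ_dimN (R : L.RingIso (γ.secQ q D₀)) {r : ℕ} (χ : L.TestConfiguration r)
    (k : ℕ) : (R.toQ χ).dimN k = finrank ℂ (L.H0 (r * k)) := by
  unfold QFilt.dimN
  rw [R.finrank_eq]

end LineBundle

/-- K-stability of a polarized fourfold whose ring of sections is isomorphic to `⊕ secQ N`. -/
theorem LineBundle.kStable_of_ringIso {M : Type} [TopologicalSpace M] [ChartedSpace (E 4) M]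
    {L : LineBundle 4 M} {K : Type} [Field K] [Algebra ℂ K] {T : Datum K} {q : ℕ}
    {D₀ : T.X.Pt →₀ ℤ} {γ : Gam T} (R : L.RingIso (γ.secQ q D₀))
    (hfut : ∀ r : ℕ, 0 < r → ∀ (χ : QTestConf γ q D₀ r) (a₀ a₁ b₀ b₁ c₀ : ℝ),
      χ.Expansion a₀ a₁ b₀ b₁ c₀ → 0 < c₀ - b₀ ^ 2 / a₀ →
      0 < (a₁ * b₀ - a₀ * b₁) / a₀ ^ 2) : L.KStable := by
  intro r hr χ a₀ a₁ b₀ b₁ c₀ hE hn
  have hr' : (0 : ℝ) < r := by exact_mod_cast hr
  refine hfut r hr (R.toQ χ) a₀ a₁ b₀ b₁ c₀ ?_ ?_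
  · obtain ⟨⟨C₁, h₁⟩, ⟨C₂, h₂⟩, ⟨C₃, h₃⟩⟩ := hE
    refine ⟨⟨C₁, ?_⟩, ⟨C₂, ?_⟩, ⟨C₃, ?_⟩⟩
    · filter_upwards [h₁, Filter.eventually_gt_atTop 0] with k hk hk0
      have hk' : (0 : ℝ) < k := by exact_mod_cast hk0
      rw [R.toQ_dimN]
      have e1 : a₀ * (k : ℝ) ^ 4 + a₁ * k ^ 3 = k ^ 4 * (a₀ + a₁ / k) := by
        field_simp
      have e2 : C₁ * (k : ℝ) ^ 2 = C₁ * (k ^ 4 / k ^ 2) := by
        field_simp
      rw [e1, e2]
      exact hk
    · filter_upwards [h₂, Filter.eventually_gt_atTop 0] with k hk hk0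
      have hk' : (0 : ℝ) < k := by exact_mod_cast hk0
      rw [R.toQ_tr]
      have e1 : b₀ * (k : ℝ) ^ 5 + b₁ * k ^ 4 = k ^ (4 + 1) * (b₀ + b₁ / k) := by
        have h7 : (k : ℝ) ^ (4 + 1) * (b₁ / k) = b₁ * k ^ 4 := by
          rw [pow_succ]
          field_simp
        rw [mul_add, h7]
        ring
      have e2 : C₂ * (k : ℝ) ^ 3 = C₂ * (k ^ (4 + 1) / k ^ 2) := by
        have h7 : (k : ℝ) ^ (4 + 1) = k ^ 3 * k ^ 2 := by ring
        rw [h7, mul_div_assoc, div_self (by positivity), mul_one]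
      rw [e1, e2]
      exact hk
    · filter_upwards [h₃] with k hk
      rw [R.toQ_tr]
      exact hk
  · have h6 : (0 : ℝ) < r ^ (4 + 2) := by positivity
    rcases div_pos_iff.1 hn with h | h
    · exact h.1
    · linarith [h.2]

end

end Pool.Agent.YTDA
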