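import Pool.Agent.YTDA.Final17
import Pool.Agent.YTDA.KStabIso

/-!
# The ring of sections of the quotient
-/

set_option autoImplicit false

namespace Pool.Agent.YTDA

open Complex Set Topology ContDiff Manifold Module

noncomputable section

/-- A correspondence between the invariant sections and the elements of a graded ring. -/
structure InvCor {n : ℕ} {Y : Type} [MulAction ℂˣ Y] (e : Inv3 Y) (A : PolAtlas n Y)
    {B : Type} [CommRing B] [Algebra ℂ B] (S : ℕ → Submodule ℂ B)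
    (Rel : ℕ → (Y → ℂ) → B → Prop) : Prop where
  toB : ∀ N F, A.IsSec N F → (∀ y, F (e.e₁ y) = F y) → (∀ y, F (e.e₂ y) = F y) →
    (∀ y, F (e.e₃ y) = F y) → ∃ b ∈ S N, Rel N F b
  ofB : ∀ N, ∀ b ∈ S N, ∃ F, A.IsSec N F ∧ (∀ y, F (e.e₁ y) = F y) ∧ (∀ y, F (e.e₂ y) = F y) ∧
    (∀ y, F (e.e₃ y) = F y) ∧ Rel N F b
  uniqueF : ∀ N F F' b, A.IsSec N F → A.IsSec N F' → Rel N F b → Rel N F' b → F = F'
  uniqueb : ∀ N F, ∀ b ∈ S N, ∀ b' ∈ S N, Rel N F b → Rel N F b' → b = b'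
  add : ∀ N F F' b b', Rel N F b → Rel N F' b' → Rel N (F + F') (b + b')
  smul : ∀ N (c : ℂ) F b, Rel N F b → Rel N (c • F) (c • b)
  mul : ∀ N N' F F' b b', Rel N F b → Rel N' F' b' → Rel (N + N') (F * F') (b * b')

namespace InvCor

variable {n : ℕ} {Y : Type} [MulAction ℂˣ Y] {e : Inv3 Y} {A : PolAtlas n Y}
  {B : Type} [CommRing B] [Algebra ℂ B] {S : ℕ → Submodule ℂ B} {Rel : ℕ → (Y → ℂ) → B → Prop}
  (hC : InvCor e A S Rel)

theorem mem_inv {N : ℕ} {F : Y → ℂ} : letI := e.act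
    F ∈ A.invSecs G3 N ↔ A.IsSec N F ∧ (∀ y, F (e.e₁ y) = F y) ∧ (∀ y, F (e.e₂ y) = F y) ∧
      ∀ y, F (e.e₃ y) = F y := by
  let _ := e.act
  exact and_congr_right fun _ => e.inv_iff F

include hC

theorem toB' {N : ℕ} {F : Y → ℂ} (hF : letI := e.act; F ∈ A.invSecs G3 N) :
    ∃ b ∈ S N, Rel N F b := by
  obtain ⟨h, h1, h2, h3⟩ := mem_inv.1 hF
  exact hC.toB N F h h1 h2 h3

/-- The linear isomorphism. -/
def equiv (N : ℕ) : letI := e.act; A.invSecs G3 N ≃ₗ[ℂ] S N :=
  letI := e.act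
  LinearEquiv.ofBijective
    { toFun := fun F => ⟨(hC.toB' F.2).choose, (hC.toB' F.2).choose_spec.1⟩
      map_add' := fun F F' => by
        apply Subtype.ext
        have h := (hC.toB' (F + F').2).choose_spec
        have h1 := (hC.toB' F.2).choose_spec
        have h2 := (hC.toB' F'.2).choose_spec
        exact hC.uniqueb N _ _ h.1 _ (add_mem h1.1 h2.1) h.2 (hC.add _ _ _ _ _ h1.2 h2.2)
      map_smul' := fun c F => by
        apply Subtype.ext
        have h := (hC.toB' (c • F).2).choose_spec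
        have h1 := (hC.toB' F.2).choose_spec
        exact hC.uniqueb N _ _ h.1 _ (Submodule.smul_mem _ c h1.1) h.2 (hC.smul _ _ _ _ h1.2) }
    ⟨fun F F' h => by
      have h1 := (hC.toB' F.2).choose_spec
      have h2 := (hC.toB' F'.2).choose_spec
      have h3 : (hC.toB' F.2).choose = (hC.toB' F'.2).choose := congrArg Subtype.val h
      rw [← h3] at h2
      exact Subtype.ext (hC.uniqueF N _ _ _ F.2.1 F'.2.1 h1.2 h2.2),
    fun b => by
      obtain ⟨F, hF, h1, h2, h3, hr⟩ := hC.ofB N b.1 b.2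
      have hF' : F ∈ A.invSecs G3 N := mem_inv.2 ⟨hF, h1, h2, h3⟩
      refine ⟨⟨F, hF'⟩, Subtype.ext ?_⟩
      have h4 := (hC.toB' hF').choose_spec
      exact hC.uniqueb N F _ h4.1 _ b.2 h4.2 hr⟩

theorem equiv_rel (N : ℕ) (F : letI := e.act; A.invSecs G3 N) :
    letI := e.act; Rel N F.1 (hC.equiv N F : B) := by
  let _ := e.act
  exact (hC.toB' F.2).choose_spec.2

theorem equiv_eq {N : ℕ} (F : letI := e.act; A.invSecs G3 N) {b : B} (hb : b ∈ S N)
    (h : letI := e.act; Rel N F.1 b) : letI := e.act; (hC.equiv N F : B) = b :=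
  hC.uniqueb N _ _ (Subtype.coe_prop _) _ hb (hC.equiv_rel N F) h

/-- The ring of sections of the quotient. -/
def ringIso (hmul : ∀ N N', ∀ b ∈ S N, ∀ b' ∈ S N', b * b' ∈ S (N + N')) (ht : A.IsT2)
    (hA : letI := e.act; A.FreeAct G3) :
    letI := e.act; haveI := e.commClass; (A.quot hA ht).lb.RingIso S :=
  letI := e.act
  haveI := e.commClass
  { Φ := fun k => (PolAtlas.quotH0 hA ht k).trans (hC.equiv k)
    mul := fun k k' f f' h => by
      refine hC.equiv_eq _ (hmul _ _ _ (Subtype.coe_prop _) _ (Subtype.coe_prop _)) ?_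
      have h1 := PolAtlas.quotH0_mul hA ht f f' h
      have h2 := hC.mul _ _ _ _ _ _ (hC.equiv_rel k (PolAtlas.quotH0 hA ht k f))
        (hC.equiv_rel k' (PolAtlas.quotH0 hA ht k' f'))
      exact (congrArg (fun F => Rel (k + k') F _) h1).mpr h2 }

end InvCor

end

end Pool.Agent.YTDA
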