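import Pool.Agent.YTDA.SecRep
import Pool.Agent.YTDA.XGam
import Pool.Agent.YTDA.KStabQuot
import Pool.Agent.YTD.SatI2

/-!
# Equivariance of the correspondence between sections on `X` and polynomials
-/

set_option autoImplicit false

namespace Pool.Agent.YTDA

open Complex Set Topology Filter Metric MvPolynomial
open Pool.Agent.YTD

noncomputable section

/-- Holomorphic maps pull back sections. -/
theorem IsHol.isSec {n : ℕ} {Y Y' : Type} [MulAction ℂˣ Y] [MulAction ℂˣ Y']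
    {A : PolAtlas n Y} {B : PolAtlas n Y'} {f : Y → Y'} (hf : IsHol A B f) {N : ℕ}
    {F : Y' → ℂ} (hF : B.IsSec N F) : A.IsSec N fun y => F (f y) := by
  refine ⟨fun c y => by rw [hf.smul, hF.hom], fun a z hz => ?_⟩
  obtain ⟨b, z', hz', t, g, ht, hg, htz, hev⟩ := hf.loc a z hz
  have h1 : DifferentiableAt ℂ (fun w => F (B.γ b w)) (t z) := by
    rw [htz]
    exact (hF.hol b).differentiableAt ((B.isOpen_U b).mem_nhds hz')
  have h2 : DifferentiableAt ℂ (fun w => ((g w : ℂ)⁻¹) ^ N * F (B.γ b (t w))) z :=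
    ((hg.differentiableAt.inv (g z).ne_zero).pow N).mul
      (DifferentiableAt.comp (g := fun w => F (B.γ b w)) z h1 ht.differentiableAt)
  refine (h2.congr_of_eventuallyEq ?_).differentiableWithinAt
  filter_upwards [hev] with w hw
  have h3 : f (A.γ a w) = (g w)⁻¹ • B.γ b (t w) := by
    rw [hw, inv_smul_smul]
  rw [h3, hF.hom, Units.val_inv_eq_inv_val]

section spec

variable {K : Type} [Field K] [Algebra ℂ K] {X : CurveOrd K} {An : AnCurve X} {P : X.Pt} {s : ℂ}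

/-- Specialization commutes with the substitutions. -/
theorem spec_subst (hs : s ∈ ball 0 (An.r P)) (g h : Matrix (Fin 2) (Fin 2) ℂ)
    (f : MvPolynomial (Fin 4) K) :
    ∀ᶠ σ in 𝓝[≠] s, spec An P σ (subst g h f) = subst g h (spec An P σ f) := by
  have lin : ∀ (a b : ℂ) (i j : Fin 4), ∀ᶠ σ in 𝓝[≠] s,
      spec An P σ (a • MvPolynomial.X i + b • MvPolynomial.X j) =
        a • MvPolynomial.X i + b • MvPolynomial.X j := by
    intro a b i j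
    filter_upwards [spec_add hs (a • MvPolynomial.X i) (b • MvPolynomial.X j),
      spec_smul hs a (MvPolynomial.X i), spec_smul hs b (MvPolynomial.X j),
      spec_X hs i, spec_X hs j] with σ h1 h2 h3 h4 h5
    rw [h1, h2, h3, h4, h5]
  induction f using MvPolynomial.induction_on with
  | C a =>
    have e1 : subst g h (C a) = C a := (subst (K := K) g h).commutes a
    rw [e1]
    filter_upwards [spec_monomial hs 0 a] with σ h1
    rw [C_apply, h1, ← C_apply]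
    exact ((subst (K := ℂ) g h).commutes _).symm
  | add p p' h1 h2 =>
    rw [map_add]
    filter_upwards [h1, h2, spec_add hs (subst g h p) (subst g h p'), spec_add hs p p']
      with σ h3 h4 h5 h6
    rw [h5, h6, map_add, h3, h4]
  | mul_X p i hp =>
    rw [map_mul]
    have hX : ∀ᶠ σ in 𝓝[≠] s, spec An P σ (subst g h (MvPolynomial.X i)) =
        subst g h (MvPolynomial.X i) := by
      have hi : i = 0 ∨ i = 1 ∨ i = 2 ∨ i = 3 := by
        fin_cases i <;> simp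
      rcases hi with rfl | rfl | rfl | rfl
      · rw [subst_X0, subst_X0]
        exact lin _ _ _ _
      · rw [subst_X1, subst_X1]
        exact lin _ _ _ _
      · rw [subst_X2, subst_X2]
        exact lin _ _ _ _
      · rw [subst_X3, subst_X3]
        exact lin _ _ _ _
    filter_upwards [hp, spec_mul hs (subst g h p) (subst g h (MvPolynomial.X i)),
      spec_mul hs p (MvPolynomial.X i), hX, spec_X hs i] with σ h3 h4 h5 h6 h7
    rw [h4, h5, map_mul, h3, h6, h7]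

/-- Specialization commutes with the renaming of the variables. -/
theorem spec_rename (hs : s ∈ ball 0 (An.r P)) (ρ : Fin 4 → Fin 4)
    (f : MvPolynomial (Fin 4) K) :
    ∀ᶠ σ in 𝓝[≠] s, spec An P σ (rename ρ f) = rename ρ (spec An P σ f) := by
  induction f using MvPolynomial.induction_on with
  | C a =>
    rw [rename_C]
    filter_upwards [spec_monomial hs 0 a] with σ h1
    rw [C_apply, h1, ← C_apply, rename_C]
  | add p p' h1 h2 =>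
    rw [map_add]
    filter_upwards [h1, h2, spec_add hs (rename ρ p) (rename ρ p'), spec_add hs p p']
      with σ h3 h4 h5 h6
    rw [h5, h6, map_add, h3, h4]
  | mul_X p i hp =>
    rw [map_mul, rename_X]
    filter_upwards [hp, spec_mul hs (rename ρ p) (MvPolynomial.X (ρ i)),
      spec_mul hs p (MvPolynomial.X i), spec_X hs i, spec_X hs (ρ i)] with σ h3 h4 h5 h6 h7
    rw [h4, h5, map_mul, h3, h6, h7, rename_X]

/-- Specialization and automorphisms of the curve. -/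
theorem spec_coefE {θ : K ≃ₐ[ℂ] K} {τ : X.Pt → X.Pt} (hE : An.Equiv θ τ)
    (hτ : ∀ P, τ (τ P) = P) (hs : s ∈ ball 0 (An.r P)) (f : MvPolynomial (Fin 4) K) :
    ∀ᶠ σ in 𝓝[≠] s, spec An P σ (coefE θ f) = spec An (τ P) σ f := by
  have hs' : s ∈ ball 0 (An.r (τ P)) := by
    rw [hE.r]
    exact hs
  have h1 : ∀ᶠ σ in 𝓝[≠] s, ∀ e ∈ f.support,
      An.fn P (θ (f.coeff e)) σ = An.fn (τ P) (f.coeff e) σ := by
    refine (eventually_all_finset _).2 fun e _ => ?_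
    have h2 := hE.fn (τ P) (f.coeff e) s hs'
    rw [hτ] at h2
    exact h2
  filter_upwards [h1, coeff_spec hs (coefE θ f), coeff_spec hs' f, eventually_fn_zero hs,
    eventually_fn_zero hs'] with σ h1 h2 h3 h4 h5
  apply MvPolynomial.ext
  intro e
  rw [h2, h3, coeff_coefE]
  by_cases he : e ∈ f.support
  · exact h1 e he
  · rw [notMem_support_iff.1 he, map_zero, h4, h5]

end spec

/-- Evaluation of the substitutions. -/
theorem eval_subst (g h : Matrix (Fin 2) (Fin 2) ℂ) (v : Fin 4 → ℂ)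
    (p : MvPolynomial (Fin 4) ℂ) : eval v (subst g h p) =
      eval ![g 0 0 * v 0 + g 0 1 * v 1, g 1 0 * v 0 + g 1 1 * v 1,
        h 0 0 * v 2 + h 0 1 * v 3, h 1 0 * v 2 + h 1 1 * v 3] p := by
  induction p using MvPolynomial.induction_on with
  | C a =>
    have e1 : subst g h (C a) = C a := (subst (K := ℂ) g h).commutes a
    rw [e1, eval_C, eval_C]
  | add p p' h1 h2 => rw [map_add, map_add, map_add, h1, h2]
  | mul_X p i hp =>
    rw [map_mul, map_mul, map_mul, hp]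
    congr 1
    have hi : i = 0 ∨ i = 1 ∨ i = 2 ∨ i = 3 := by
      fin_cases i <;> simp
    rcases hi with rfl | rfl | rfl | rfl
    · rw [subst_X0, eval_X, map_add, smul_eval, smul_eval, eval_X, eval_X]
      rfl
    · rw [subst_X1, eval_X, map_add, smul_eval, smul_eval, eval_X, eval_X]
      rfl
    · rw [subst_X2, eval_X, map_add, smul_eval, smul_eval, eval_X, eval_X]
      rfl
    · rw [subst_X3, eval_X, map_add, smul_eval, smul_eval, eval_X, eval_X]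
      rfl

theorem glv_apply (g : GL (Fin 2) ℂ) (x : V2) (i : Fin 2) :
    (glv g x).1 i = g.1 i 0 * x.1 0 + g.1 i 1 * x.1 1 := by
  show g.1.mulVec x.1 i = _
  rw [Matrix.mulVec, dotProduct, Fin.sum_univ_two]

theorem eval_pv_subst (g h : GL (Fin 2) ℂ) (u : ℂˣ) (x x' : V2) (p : MvPolynomial (Fin 4) ℂ) :
    eval (pv u x x') (subst g.1 h.1 p) = eval (pv u (glv g x) (glv h x')) p := by
  rw [eval_subst]
  congr 2
  funext i
  have hi : i = 0 ∨ i = 1 ∨ i = 2 ∨ i = 3 := by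
    fin_cases i <;> simp
  rcases hi with rfl | rfl | rfl | rfl
  · show g.1 0 0 * (u * x.1 0) + g.1 0 1 * (u * x.1 1) = u * (glv g x).1 0
    rw [glv_apply]
    ring
  · show g.1 1 0 * (u * x.1 0) + g.1 1 1 * (u * x.1 1) = u * (glv g x).1 1
    rw [glv_apply]
    ring
  · show h.1 0 0 * (((u⁻¹ : ℂˣ) : ℂ) * x'.1 0) + h.1 0 1 * (((u⁻¹ : ℂˣ) : ℂ) * x'.1 1) =
      ((u⁻¹ : ℂˣ) : ℂ) * (glv h x').1 0
    rw [glv_apply]
    ring
  · show h.1 1 0 * (((u⁻¹ : ℂˣ) : ℂ) * x'.1 0) + h.1 1 1 * (((u⁻¹ : ℂˣ) : ℂ) * x'.1 1) =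
      ((u⁻¹ : ℂˣ) : ℂ) * (glv h x').1 1
    rw [glv_apply]
    ring

theorem eval_pv_rename (u : ℂˣ) (x x' : V2) (p : MvPolynomial (Fin 4) ℂ) :
    eval (pv u x x') (rename Inv.swp p) = eval (pv u⁻¹ x' x) p := by
  rw [eval_rename]
  congr 2
  funext i
  have hi : i = 0 ∨ i = 1 ∨ i = 2 ∨ i = 3 := by
    fin_cases i <;> simp
  rcases hi with rfl | rfl | rfl | rfl
  · show pv u x x' (Inv.swp 0) = ((u⁻¹ : ℂˣ) : ℂ) * x'.1 0
    rw [Inv.swp_0]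
    rfl
  · show pv u x x' (Inv.swp 1) = ((u⁻¹ : ℂˣ) : ℂ) * x'.1 1
    rw [Inv.swp_1]
    rfl
  · show pv u x x' (Inv.swp 2) = ((u⁻¹⁻¹ : ℂˣ) : ℂ) * x.1 0
    rw [Inv.swp_2, inv_inv]
    rfl
  · show pv u x x' (Inv.swp 3) = ((u⁻¹⁻¹ : ℂˣ) : ℂ) * x.1 1
    rw [Inv.swp_3, inv_inv]
    rfl

section

variable {K : Type} [Field K] [Algebra ℂ K] {T : Datum K} {q : ℕ} {D₀ : T.X.Pt →₀ ℤ}
  {An : AnCurve T.X.toCurveOrd} {Sg : SigModel T q D₀ An}

/-- Symmetries of `Σ` preserving the two sections act on the frames. -/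
theorem SigModel.Aut.o {σ : T.X.Pt → T.X.Pt} {f : Sg.Y → Sg.Y}
    (h : Sg.Aut σ (fun i => i) f) (hS' : ∀ P, P ∈ T.S' ↔ σ P ∈ T.S') {P : T.X.Pt} {s : ℂ}
    (hs : s ∈ ball (0 : ℂ) (Sg.r P)) (hs' : s ∈ ball (0 : ℂ) (Sg.r (σ P))) (h0 : s ≠ 0) (w : ℂˣ) :
    f (Sg.o P s w) = Sg.o (σ P) s w := by
  have hlt : ‖s‖ < Sg.r P := mem_ball_zero_iff.1 hs
  have hlt' : ‖s‖ < Sg.r (σ P) := mem_ball_zero_iff.1 hs'
  by_cases hP : P ∈ T.S'
  · have h1 := Sg.γ_bot' P hP (Units.mk0 s h0) hlt ((Units.mk0 s h0)⁻¹ * w)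
    have h2 := Sg.γ_bot' (σ P) ((hS' P).1 hP) (Units.mk0 s h0) hlt' ((Units.mk0 s h0)⁻¹ * w)
    have hU : (![(Units.mk0 s h0 : ℂ), (((Units.mk0 s h0)⁻¹ * w : ℂˣ) : ℂ)] : E 2) ∈
        Sg.A.U (Sg.e (P, 0)) := by
      rw [Sg.U_bot]
      exact hlt
    have h3 := h.γ P 0 _ hU
    rw [h1, h2, h.smul, mul_inv_cancel_left] at h3
    exact smul_left_cancel _ h3
  · have h1 := Sg.γ_bot P hP s hs (Or.inl h0) w
    have h2 := Sg.γ_bot (σ P) (fun h => hP ((hS' P).2 h)) s hs' (Or.inl h0) w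
    have hU : (![s, (w : ℂ)] : E 2) ∈ Sg.A.U (Sg.e (P, 0)) := by
      rw [Sg.U_bot]
      exact hlt
    have h3 := h.γ P 0 _ hU
    rw [h1, h2, h.smul] at h3
    exact smul_left_cancel _ h3

/-- Symmetries of `Σ` exchanging the two sections act on the frames. -/
theorem SigModel.Aut.o_swap {σ : T.X.Pt → T.X.Pt} {f : Sg.Y → Sg.Y}
    (h : Sg.Aut σ SigModel.rhoI f) (hS : ∀ P, P ∈ T.S' ↔ σ P ∈ T.S) {P : T.X.Pt} {s : ℂ}
    (hs : s ∈ ball (0 : ℂ) (Sg.r P)) (hs' : s ∈ ball (0 : ℂ) (Sg.r (σ P))) (h0 : s ≠ 0) (w : ℂˣ) :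
    f (Sg.o P s w) = Sg.o (σ P) s w⁻¹ := by
  have hlt : ‖s‖ < Sg.r P := mem_ball_zero_iff.1 hs
  have hlt' : ‖s‖ < Sg.r (σ P) := mem_ball_zero_iff.1 hs'
  by_cases hP : P ∈ T.S'
  · have h1 := Sg.γ_bot' P hP (Units.mk0 s h0) hlt ((Units.mk0 s h0)⁻¹ * w)
    have h2 := Sg.γ_top' (σ P) ((hS P).1 hP) (Units.mk0 s h0) hlt' ((Units.mk0 s h0)⁻¹ * w)
    have hU : (![(Units.mk0 s h0 : ℂ), (((Units.mk0 s h0)⁻¹ * w : ℂˣ) : ℂ)] : E 2) ∈
        Sg.A.U (Sg.e (P, 0)) := by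
      rw [Sg.U_bot]
      exact hlt
    have h3 : f (Sg.A.γ (Sg.e (P, 0)) _) = Sg.A.γ (Sg.e (σ P, 1)) _ := h.γ P 0 _ hU
    rw [h1, h2, h.smul, mul_inv_cancel_left] at h3
    exact smul_left_cancel _ h3
  · have h1 := Sg.γ_bot P hP s hs (Or.inl h0) w
    have h2 := Sg.γ_top (σ P) (fun h => hP ((hS P).2 h)) s hs' (Or.inl h0) w
    have hU : (![s, (w : ℂ)] : E 2) ∈ Sg.A.U (Sg.e (P, 0)) := by
      rw [Sg.U_bot]
      exact hlt
    have h3 : f (Sg.A.γ (Sg.e (P, 0)) _) = Sg.A.γ (Sg.e (σ P, 1)) _ := h.γ P 0 _ hU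
    rw [h1, h2, h.smul] at h3
    exact smul_left_cancel _ h3

theorem SigModel.Aut.ball {σ : T.X.Pt → T.X.Pt} {ρ : Fin 3 → Fin 3} {f : Sg.Y → Sg.Y}
    (h : Sg.Aut σ ρ f) (hρ : ρ 0 = 0 ∨ ρ 0 = 1) {P : T.X.Pt} {s : ℂ}
    (hs : s ∈ ball (0 : ℂ) (Sg.r P)) : s ∈ ball (0 : ℂ) (Sg.r (σ P)) := by
  have hU : (![s, 0] : E 2) ∈ Sg.A.U (Sg.e (P, 0)) := by
    rw [Sg.U_bot]
    exact mem_ball_zero_iff.1 hs
  have h1 := h.mem P 0 _ hU
  rcases hρ with h2 | h2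
  · rw [h2, Sg.U_bot] at h1
    exact mem_ball_zero_iff.2 h1
  · rw [h2, Sg.U_top] at h1
    exact mem_ball_zero_iff.2 h1

variable (X : TwoP1 Sg.A Sg.D (25 * (q : ℤ)) 3 (25 * (q : ℤ)) (-3)) {γ : Gam T}
  (G : TwoP1.GamX (M := Sg) γ) {N : ℕ} {F : P1Y X.D₁ (25 * (q : ℤ)) (-3) → ℂ}
  {f : MvPolynomial (Fin 4) K}

theorem Rep.sym {κ : Sym T} {f₁ : Sg.Y → Sg.Y} (aut : Sg.Aut κ.σ (fun i => i) f₁)
    (eqv : An.Equiv κ.θ κ.σ) (hD : κ.Fixes D₀) (g h : GL (Fin 2) ℂ) (hg : IsUnit g.1)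
    (hh : IsUnit h.1) {F' : P1Y X.D₁ (25 * (q : ℤ)) (-3) → ℂ}
    (hF' : ∀ y x x', F' (P1Y.mk (P1Y.mk y x) x') =
      F (P1Y.mk (P1Y.mk (f₁ y) (glv g x)) (glv h x')))
    (hr : Rep X N F f) : Rep X N F' (κ.autE g.1 h.1 hg hh f) := by
  intro P s hs
  have hs' := aut.ball (Or.inl rfl) hs
  have hb : ∀ᶠ σ in 𝓝[≠] s, σ ∈ ball (0 : ℂ) (Sg.r P) :=
    nhdsWithin_le_nhds (isOpen_ball.mem_nhds hs)
  have e1 : κ.autE g.1 h.1 hg hh f = coefE κ.θ (subst g.1 h.1 f) := rfl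
  rw [e1]
  filter_upwards [hr (κ.σ P) s hs', hb, eventually_ne_zero',
    spec_coefE eqv κ.σσ (ball_mono hs) (subst g.1 h.1 f),
    spec_subst (ball_mono hs') g.1 h.1 f] with σ h1 h2 h3 h4 h5 u x x'
  have e2 : Psi X F' P σ (u ^ 6) x x' = Psi X F (κ.σ P) σ (u ^ 6) (glv g x) (glv h x') := by
    unfold Psi
    rw [hF', aut.o κ.S'_iff h2 (aut.ball (Or.inl rfl) h2) h3]
  rw [e2, h1, hD P, h4, h5, eval_pv_subst]

theorem gD_val : (gD (-1)).1 = s1 := by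
  show (!![1, 0; 0, ((-1 : ℂˣ) : ℂ)] : Matrix (Fin 2) (Fin 2) ℂ) = s1
  rw [s1, Units.val_neg, Units.val_one]

theorem gS_val : gS.1 = s2 := rfl

theorem TwoP1.GamX.rep_e₁ (hD : γ.Fixes D₀) (hr : Rep X N F f) :
    Rep X N (fun p => F (G.e₁ X p)) (γ.E₁ f) := by
  have h := Rep.sym X (κ := γ.sym₁) G.aut₁ G.eqv₁ hD.fst (gD (-1)) (gD (-1))
    (by rw [gD_val]; exact isUnit_s1) (by rw [gD_val]; exact isUnit_s1)
    (F' := fun p => F (G.e₁ X p)) (F := F) (N := N) (f := f) (fun y x x' => by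
      rw [G.e₁_mk, glv_gD, glv_gD]) hr
  have e : γ.sym₁.autE (gD (-1)).1 (gD (-1)).1 (by rw [gD_val]; exact isUnit_s1)
      (by rw [gD_val]; exact isUnit_s1) f = γ.E₁ f := by
    rw [Sym.autE_apply, γ.E₁_apply, gD_val]
    rfl
  rwa [e] at h

theorem TwoP1.GamX.rep_e₂ (hD : γ.Fixes D₀) (hr : Rep X N F f) :
    Rep X N (fun p => F (G.e₂ X p)) (γ.E₂ f) :=
  Rep.sym X (κ := γ.sym₂) G.aut₂ G.eqv₂ hD.snd gS gS isUnit_s2 isUnit_s2
    (F' := fun p => F (G.e₂ X p)) (F := F) (N := N) (f := f) (fun y x x' => by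
      rw [G.e₂_mk, glv_gS, glv_gS]) hr

theorem TwoP1.GamX.rep_e₀ (hD : γ.Fixes D₀) (hr : Rep X N F f) :
    Rep X N (fun p => F (G.e₀ X p)) (γ.tauE f) := by
  intro P s hs
  have hρ : SigModel.rhoI 0 = 0 ∨ SigModel.rhoI 0 = 1 := Or.inr rfl
  have hs' := G.aut₀.ball hρ hs
  have hb : ∀ᶠ σ in 𝓝[≠] s, σ ∈ ball (0 : ℂ) (Sg.r P) :=
    nhdsWithin_le_nhds (isOpen_ball.mem_nhds hs)
  have e1 : γ.tauE f = coefE γ.θ (rename Inv.swp f) := rfl
  have hS : ∀ P, P ∈ T.S' ↔ γ.σ P ∈ T.S := by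
    intro P
    rw [γ.S_iff, γ.σσ]
  rw [e1]
  filter_upwards [hr (γ.σ P) s hs', hb, eventually_ne_zero',
    spec_coefE G.eqv₀ γ.σσ (ball_mono hs) (rename Inv.swp f),
    spec_rename (ball_mono hs') Inv.swp f] with σ h1 h2 h3 h4 h5 u x x'
  have e2 : Psi X (fun p => F (G.e₀ X p)) P σ (u ^ 6) x x' =
      Psi X F (γ.σ P) σ (u⁻¹ ^ 6) x' x := by
    show F (G.e₀ X (P1Y.mk (P1Y.mk (Sg.o P σ (u ^ 6)) x) x')) = _
    rw [G.e₀_mk, G.aut₀.o_swap hS h2 (G.aut₀.ball hρ h2) h3, inv_pow]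
    rfl
  rw [e2, h1, hD.1 P, h4, h5, eval_pv_rename]

/-- The correspondence between the sections on `X` and polynomials over the function field. -/
structure SecCor : Prop where
  toPoly : ∀ (N : ℕ) (F : P1Y X.D₁ (25 * (q : ℤ)) (-3) → ℂ), X.B₂.IsSec N F →
    ∃ f ∈ T.sec q D₀ N, Rep X N F f
  ofPoly : ∀ (N : ℕ) (f : MvPolynomial (Fin 4) K), f ∈ T.sec q D₀ N →
    ∃ F : P1Y X.D₁ (25 * (q : ℤ)) (-3) → ℂ, X.B₂.IsSec N F ∧ Rep X N F f
  uniqueF : ∀ (N : ℕ) (F F' : P1Y X.D₁ (25 * (q : ℤ)) (-3) → ℂ) (f : MvPolynomial (Fin 4) K),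
    X.B₂.IsSec N F → X.B₂.IsSec N F' → Rep X N F f → Rep X N F' f → F = F'
  uniquef : ∀ (N : ℕ) (F : P1Y X.D₁ (25 * (q : ℤ)) (-3) → ℂ) (f f' : MvPolynomial (Fin 4) K),
    f ∈ T.sec q D₀ N → f' ∈ T.sec q D₀ N → Rep X N F f → Rep X N F f' → f = f'

namespace SecCor

variable {X} (hC : SecCor X)

include hC

theorem mem_secQ_iff (hD : γ.Fixes D₀) (hF : X.B₂.IsSec N F) (hf : f ∈ T.sec q D₀ N)
    (hr : Rep X N F f) : f ∈ γ.secQ q D₀ N ↔
      (∀ p, F (G.e₁ X p) = F p) ∧ (∀ p, F (G.e₂ X p) = F p) ∧ ∀ p, F (G.e₀ X p) = F p := by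
  have r1 := G.rep_e₁ X hD hr
  have r2 := G.rep_e₂ X hD hr
  have r0 := G.rep_e₀ X hD hr
  have s1 := (G.isBihol_e₁ X).isHol.isSec hF
  have s2 := (G.isBihol_e₂ X).isHol.isSec hF
  have s0 := (G.isBihol_e₀ X).isHol.isSec hF
  have m1 : γ.E₁ f ∈ T.sec q D₀ N := (Gam.pres_E₁ hD).mem hf
  have m2 : γ.E₂ f ∈ T.sec q D₀ N := (Gam.pres_E₂ hD).mem hf
  have m0 : γ.tauE f ∈ T.sec q D₀ N := (Gam.pres_tauE hD).mem hf
  rw [Gam.mem_secQ]
  constructor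
  · rintro ⟨-, h1, h2, h0⟩
    rw [h1] at r1
    rw [h2] at r2
    rw [h0] at r0
    exact ⟨congrFun (hC.uniqueF N _ _ f s1 hF r1 hr), congrFun (hC.uniqueF N _ _ f s2 hF r2 hr),
      congrFun (hC.uniqueF N _ _ f s0 hF r0 hr)⟩
  · rintro ⟨h1, h2, h0⟩
    rw [funext h1] at r1
    rw [funext h2] at r2
    rw [funext h0] at r0
    exact ⟨hf, hC.uniquef N F _ _ m1 hf r1 hr, hC.uniquef N F _ _ m2 hf r2 hr,
      hC.uniquef N F _ _ m0 hf r0 hr⟩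

theorem invCor (hD : γ.Fixes D₀) : InvCor (G.inv3 X) X.B₂ (γ.secQ q D₀) (Rep X) where
  toB N F hF h1 h2 h0 := by
    obtain ⟨f, hf, hr⟩ := hC.toPoly N F hF
    exact ⟨f, (hC.mem_secQ_iff G hD hF hf hr).2 ⟨h1, h2, h0⟩, hr⟩
  ofB N f hf := by
    have hf' : f ∈ T.sec q D₀ N := γ.secQ_le q D₀ N hf
    obtain ⟨F, hF, hr⟩ := hC.ofPoly N f hf'
    obtain ⟨h1, h2, h0⟩ := (hC.mem_secQ_iff G hD hF hf' hr).1 hf
    exact ⟨F, hF, h1, h2, h0, hr⟩
  uniqueF N F F' f hF hF' hr hr' := hC.uniqueF N F F' f hF hF' hr hr'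
  uniqueb N F f hf f' hf' hr hr' :=
    hC.uniquef N F f f' (γ.secQ_le q D₀ N hf) (γ.secQ_le q D₀ N hf') hr hr'
  add N F F' f f' h h' := h.add h'
  smul N c F f h := h.smul c
  mul N N' F F' f f' h h' := h.mul h'

/-- K-stability of the quotient of `X` by `Γ`. -/
theorem kStable (hD : γ.Fixes D₀) (ht : X.B₂.IsT2)
    (hA : letI := (G.inv3 X).act; X.B₂.FreeAct G3)
    (hfut : ∀ r : ℕ, 0 < r → ∀ (χ : QTestConf γ q D₀ r) (a₀ a₁ b₀ b₁ c₀ : ℝ),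
      χ.Expansion a₀ a₁ b₀ b₁ c₀ → 0 < c₀ - b₀ ^ 2 / a₀ →
      0 < (a₁ * b₀ - a₀ * b₁) / a₀ ^ 2) :
    letI := (G.inv3 X).act; haveI := (G.inv3 X).commClass
    (X.B₂.quot hA ht).lb.KStable :=
  LineBundle.kStable_of_ringIso ((hC.invCor G hD).ringIso (by
    intro N N' f hf f' hf'
    rw [Gam.mem_secQ] at hf hf' ⊢
    refine ⟨T.sec_mul_mem hf.1 hf'.1, ?_, ?_, ?_⟩
    · rw [map_mul, hf.2.1, hf'.2.1]
    · rw [map_mul, hf.2.2.1, hf'.2.2.1]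
    · rw [map_mul, hf.2.2.2, hf'.2.2.2]) ht hA) hfut

end SecCor

end

end

end Pool.Agent.YTDA
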