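import Pool.Agent.YTDA.F3Loc

/-!
# The global function `log det + log P(μ) + log |jac|² - log |dx₀|²` on `Σ`
-/

set_option autoImplicit false

namespace Pool.Agent.YTDA

open Complex Set Topology ContDiff Filter Metric
open Pool.Agent.YTD

noncomputable section

/-! ## Gluing functions given in generic points of charts -/

theorem f3_glue {n : ℕ} {Y : Type} [MulAction ℂˣ Y] {A : PolAtlas n Y} (L : A.ι → E n → ℝ)
    (gen : E n → Prop)
    (h : ∀ a b, ∀ z ∈ A.U a, ∀ z' ∈ A.U b, gen z → gen z' → ∀ c : ℂˣ,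
      A.γ b z' = c • A.γ a z → L b z' = L a z) :
    ∃ F : Y → ℝ, (∀ (c : ℂˣ) y, F (c • y) = F y) ∧
      ∀ a, ∀ z ∈ A.U a, gen z → F (A.γ a z) = L a z := by
  classical
  let S : Y → Prop := fun y => ∃ a, ∃ z ∈ A.U a, gen z ∧ ∃ c : ℂˣ, y = c • A.γ a z
  let F : Y → ℝ := fun y => if h : S y then
    L h.choose h.choose_spec.choose else 0
  have key : ∀ a, ∀ z ∈ A.U a, gen z → ∀ c : ℂˣ, F (c • A.γ a z) = L a z := by
    intro a z hz hg c
    have hS : S (c • A.γ a z) := ⟨a, z, hz, hg, c, rfl⟩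
    have e1 : F (c • A.γ a z) = L hS.choose hS.choose_spec.choose := dif_pos hS
    rw [e1]
    obtain ⟨h1, h2, d, h3⟩ := hS.choose_spec.choose_spec
    refine h a hS.choose z hz _ h1 hg h2 (d⁻¹ * c) ?_
    have h4 := congrArg (fun y => d⁻¹ • y) h3
    simp only [inv_smul_smul] at h4
    rw [mul_smul]
    exact h4.symm
  refine ⟨F, ?_, ?_⟩
  · intro c y
    by_cases hS : S y
    · obtain ⟨a, z, hz, hg, d, rfl⟩ := hS
      rw [smul_smul, key a z hz hg, key a z hz hg]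
    · have hS' : ¬ S (c • y) := by
        rintro ⟨a, z, hz, hg, d, h1⟩
        refine hS ⟨a, z, hz, hg, c⁻¹ * d, ?_⟩
        rw [mul_smul, ← h1, inv_smul_smul]
      have e1 : F (c • y) = 0 := dif_neg hS'
      have e2 : F y = 0 := dif_neg hS
      rw [e1, e2]
  · intro a z hz hg
    have := key a z hz hg 1
    rwa [one_smul] at this

section Sig

variable {K : Type} [Field K] [Algebra ℂ K] {T : Datum K} {q : ℕ} {D₀ : T.X.Pt →₀ ℤ}
  {An : AnCurve T.X.toCurveOrd} (M : SigModel T q D₀ An) {x₀ : K} {d : T.X.Pt →₀ ℤ}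
  {H : M.Y → ℝ} {s : ℂ}

namespace SigModel

/-- `dx₀ / ds` without its zero or pole, in the chart `(P, i)` -/
def gs (x₀ : K) (d : T.X.Pt →₀ ℤ) (P : T.X.Pt) (i : Fin 3) (z : E 2) : ℂ :=
  gx An x₀ d M.r P (sco i z)

/-- the smooth part of `F` -/
def GF (x₀ : K) (d : T.X.Pt →₀ ℤ) (H : M.Y → ℝ) (P : T.X.Pt) (i : Fin 3) (z : E 2) : ℝ :=
  M.A.fred M.D H q (M.e (P, i)) z + -Real.log (‖M.gs x₀ d P i z‖ ^ 2)

/-- the logarithmic multiplicities of `F` -/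
def mF (d : T.X.Pt →₀ ℤ) (P : T.X.Pt) (i : Fin 3) (j : Fin 2) : ℝ :=
  if i = 2 then 0 else if j = 0 then -(d P : ℝ) else 1

/-- hypotheses on the differential -/
structure DiffHyp (x₀ : K) (d : T.X.Pt →₀ ℤ) : Prop where
  ord : ∀ P, meromorphicOrderAt (deriv (An.fn P x₀)) 0 = ((d P : ℤ) : WithTop ℤ)
  iso : ∀ P, ∀ s ∈ ball (0 : ℂ) (M.r P), s ≠ 0 → d (An.c P s) = 0
  S : ∀ P ∈ T.S, d P = 0
  S' : ∀ P ∈ T.S', d P = 0

variable {M}

theorem mF_sum (P : T.X.Pt) (i : Fin 3) {z : E 2} (hz : z ∈ M.A.U (M.e (P, i))) :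
    ∑ j, mF d P i j * (M.D.k (M.e (P, i)) j : ℝ) = ∑ j, (M.D.k (M.e (P, i)) j : ℝ) := by
  rw [Fin.sum_univ_two, Fin.sum_univ_two]
  fin_cases i
  · show mF d P 0 0 * (M.D.k (M.e (P, 0)) 0 : ℝ) + mF d P 0 1 * (M.D.k (M.e (P, 0)) 1 : ℝ) =
      (M.D.k (M.e (P, 0)) 0 : ℝ) + (M.D.k (M.e (P, 0)) 1 : ℝ)
    rw [(M.k_bot P).1]
    simp [mF]
  · show mF d P 1 0 * (M.D.k (M.e (P, 1)) 0 : ℝ) + mF d P 1 1 * (M.D.k (M.e (P, 1)) 1 : ℝ) =
      (M.D.k (M.e (P, 1)) 0 : ℝ) + (M.D.k (M.e (P, 1)) 1 : ℝ)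
    rw [(M.k_top P).1]
    simp [mF]
  · show mF d P 2 0 * (M.D.k (M.e (P, 2)) 0 : ℝ) + mF d P 2 1 * (M.D.k (M.e (P, 2)) 1 : ℝ) =
      (M.D.k (M.e (P, 2)) 0 : ℝ) + (M.D.k (M.e (P, 2)) 1 : ℝ)
    have hzU : z ∈ M.A.U (M.e (P, 2)) := hz
    by_cases hP : P ∈ T.S
    · rw [(M.k_mid P hP).1]
      simp [mF]
    · by_cases hP' : P ∈ T.S'
      · rw [(M.k_mid' P hP').1]
        simp [mF]
      · rw [M.U_mid' P hP hP'] at hzU
        exact hzU.elim

/-- `s` is invariant under the action -/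
theorem sco_dact (P : T.X.Pt) (i : Fin 3) {z : E 2} (hz : z ∈ M.A.U (M.e (P, i))) (c : ℂˣ)
    (v : E 2) : sco i (dact (M.D.k (M.e (P, i))) c v) = sco i v := by
  fin_cases i
  · show sco 0 (dact (M.D.k (M.e (P, 0))) c v) = sco 0 v
    rw [(M.k_bot P).1]
    simp [sco, dact]
  · show sco 1 (dact (M.D.k (M.e (P, 1))) c v) = sco 1 v
    rw [(M.k_top P).1]
    simp [sco, dact]
  · show sco 2 (dact (M.D.k (M.e (P, 2))) c v) = sco 2 v
    have hzU : z ∈ M.A.U (M.e (P, 2)) := hz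
    by_cases hP : P ∈ T.S
    · rw [(M.k_mid P hP).1]
      simp only [sco, dact]
      simp
      field_simp
    · by_cases hP' : P ∈ T.S'
      · rw [(M.k_mid' P hP').1]
        simp only [sco, dact]
        simp
        field_simp
      · rw [M.U_mid' P hP hP'] at hzU
        exact hzU.elim

theorem hol_sco (i : Fin 3) (z : E 2) : DifferentiableAt ℂ (sco i) z := by
  unfold sco
  split_ifs
  · exact (hasFDerivAt_pm z).differentiableAt
  · exact (hasFDerivAt_pr 0 z).differentiableAt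

variable (hd : M.DiffHyp x₀ d)

include hd

theorem gs_spec (P : T.X.Pt) (i : Fin 3) : DifferentiableOn ℂ (M.gs x₀ d P i)
    (M.A.U (M.e (P, i))) ∧ ∀ z ∈ M.A.U (M.e (P, i)), M.gs x₀ d P i z ≠ 0 := by
  constructor
  · intro z hz
    obtain ⟨a1, -, -⟩ := gx_spec hd.ord M.r_le hd.iso P
      (show sco i z ∈ ball (0 : ℂ) (M.r P) by simpa using M.sco_mem hz)
    exact (a1.differentiableAt.comp z (hol_sco i z)).differentiableWithinAt
  · intro z hz
    obtain ⟨-, a2, -⟩ := gx_spec hd.ord M.r_le hd.iso P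
      (show sco i z ∈ ball (0 : ℂ) (M.r P) by simpa using M.sco_mem hz)
    exact a2

/-- the smooth part is smooth -/
theorem contDiffOn_GF (hK : M.A.IsKahler H) (hp : M.A.IsPde M.D q s H) (P : T.X.Pt) (i : Fin 3) :
    ContDiffOn ℝ ∞ (M.GF x₀ d H P i) (M.A.U (M.e (P, i))) := by
  obtain ⟨h1, h2⟩ := gs_spec hd P i
  have h3 : ContDiffOn ℝ ∞ (fun z => Real.log (‖M.gs x₀ d P i z‖ ^ 2)) (M.A.U (M.e (P, i))) :=
    fun z hz => (Pl.smNear_log_norm (M.A.isOpen_U _) h1 h2 hz).at.contDiffWithinAt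
  exact (PolAtlas.f3_contDiffOn_fred hK hp _).add h3.neg

/-- the trace of the Hessian -/
theorem trC_GF (hK : M.A.IsKahler H) (hp : M.A.IsPde M.D q s H) (P : T.X.Pt) (i : Fin 3)
    {z : E 2} (hz : z ∈ M.A.U (M.e (P, i))) :
    M.A.trC H (M.e (P, i)) (M.GF x₀ d H P i) z =
      M.A.trC H (M.e (P, i)) (M.A.fred M.D H q (M.e (P, i))) z := by
  obtain ⟨h1, h2⟩ := gs_spec hd P i
  -- the logarithm of the inverse
  have h1' : DifferentiableOn ℂ (fun z => (M.gs x₀ d P i z)⁻¹) (M.A.U (M.e (P, i))) :=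
    h1.inv h2
  have h2' : ∀ z ∈ M.A.U (M.e (P, i)), (M.gs x₀ d P i z)⁻¹ ≠ 0 := fun z hz =>
    inv_ne_zero (h2 z hz)
  have h3 : M.GF x₀ d H P i = fun z => M.A.fred M.D H q (M.e (P, i)) z +
      Real.log (‖(M.gs x₀ d P i z)⁻¹‖ ^ 2) := by
    funext w
    unfold GF
    rw [norm_inv, inv_pow, Real.log_inv]
  have hU := M.A.isOpen_U (M.e (P, i))
  have h4 : hess (M.GF x₀ d H P i) z = hess (M.A.fred M.D H q (M.e (P, i))) z := by
    rw [h3, Pl.hess_add (Pl.SmNear.of_contDiffOn hU (PolAtlas.f3_contDiffOn_fred hK hp _) hz)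
      (Pl.smNear_log_norm hU h1' h2' hz), Pl.hess_log_norm hU h1' h2' hz, add_zero]
  unfold PolAtlas.trC
  rw [h4]

omit hd in
theorem gs_dact (P : T.X.Pt) (i : Fin 3) {z : E 2} (hz : z ∈ M.A.U (M.e (P, i))) (c : ℂˣ) :
    M.gs x₀ d P i (dact (M.D.k (M.e (P, i))) c z) = M.gs x₀ d P i z := by
  unfold gs
  rw [sco_dact P i hz]

/-- the derivative along the action -/
theorem wdzb_GF (hK : M.A.IsKahler H) (hp : M.A.IsPde M.D q s H) (P : T.X.Pt) (i : Fin 3)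
    {z : E 2} (hz : z ∈ M.A.U (M.e (P, i))) :
    wdzb (M.D.k (M.e (P, i))) (fun w => (M.GF x₀ d H P i w : ℂ)) z =
      wdz (M.D.k (M.e (P, i))) (fun w => (M.A.fred M.D H q (M.e (P, i)) w : ℂ)) z := by
  obtain ⟨h1, h2⟩ := gs_spec hd P i
  have hU := (M.A.isOpen_U (M.e (P, i)))
  have h3 : DifferentiableAt ℝ (fun z => -Real.log (‖M.gs x₀ d P i z‖ ^ 2)) z :=
    ((Pl.smNear_log_norm hU h1 h2 hz).at.differentiableAt (by simp)).neg
  have h4 := PolAtlas.f3_diffAt_fred hK hp hz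
  have h5 := f3_wdzb_of_inv (φ := fun z => -Real.log (‖M.gs x₀ d P i z‖ ^ 2))
    (k := M.D.k (M.e (P, i))) h3 fun c => by
    show -Real.log (‖M.gs x₀ d P i (dact (M.D.k (M.e (P, i))) c z)‖ ^ 2) = _
    rw [gs_dact P i hz]
  have h6 := (f3_wdz_im_of_inv h4 fun c hc => PolAtlas.f3_fred_dact hK hp hz hc).1
  have h7 : wdzb (M.D.k (M.e (P, i))) (fun w => (M.GF x₀ d H P i w : ℂ)) z =
      wdzb (M.D.k (M.e (P, i))) (fun w => (M.A.fred M.D H q (M.e (P, i)) w : ℂ)) z +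
      wdzb (M.D.k (M.e (P, i))) (fun w => ((-Real.log (‖M.gs x₀ d P i w‖ ^ 2) : ℝ) : ℂ)) z := by
    unfold wdzb
    rw [← Finset.sum_add_distrib]
    refine Finset.sum_congr rfl fun j _ => ?_
    rw [← mul_add]
    congr 1
    have h8 : DifferentiableAt ℝ (fun w => (M.A.fred M.D H q (M.e (P, i)) w : ℂ)) z :=
      Complex.ofRealCLM.differentiableAt.comp z h4
    have h9 : DifferentiableAt ℝ (fun w => ((-Real.log (‖M.gs x₀ d P i w‖ ^ 2) : ℝ) : ℂ)) z :=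
      Complex.ofRealCLM.differentiableAt.comp z h3
    rw [← Pl.dzb_add h8 h9]
    congr 1
    funext w
    unfold GF
    push_cast
    rfl
  rw [h7, h5, h6, add_zero]

end SigModel

end Sig

end

end Pool.Agent.YTDA
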