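import Pool.Agent.YTDA.SigDx
import Pool.Agent.YTDA.Chart3
import Pool.Agent.YTDA.T13Defs

/-!
# Local facts on `F = log det + log P(μ)`
-/

set_option autoImplicit false

namespace Pool.Agent.YTDA

open Complex Set Topology ContDiff Filter TopologicalSpace

noncomputable section

theorem f3_hasDerivAt_PP (q x : ℝ) : HasDerivAt (PP q) (-18 * x) x := by
  have h : PP q = fun x : ℝ => (25 * q) ^ 2 - 9 * x ^ 2 := by
    funext x
    unfold PP
    ring
  rw [h]
  have h1 := ((hasDerivAt_pow 2 x).const_mul 9).const_sub ((25 * q) ^ 2)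
  refine h1.congr_deriv ?_
  norm_num
  ring

theorem f3_contDiff_PP (q : ℝ) : ContDiff ℝ ∞ (PP q) := by
  unfold PP
  fun_prop

section Wdz

variable {n : ℕ}

/-- derivative of a real function in terms of `dz` -/
theorem mi_fderiv_ofReal {φ : E n → ℝ} {z : E n} (hφ : DifferentiableAt ℝ φ z) (u : E n) :
    fderiv ℝ (fun w => (φ w : ℂ)) z u = ((fderiv ℝ φ z u : ℝ) : ℂ) := by
  have h : HasFDerivAt (fun w => (φ w : ℂ)) (Complex.ofRealCLM.comp (fderiv ℝ φ z)) z :=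
    Complex.ofRealCLM.hasFDerivAt.comp z hφ.hasFDerivAt
  rw [h.fderiv]
  rfl

theorem mi_dzb_ofReal {φ : E n → ℝ} {z : E n} (hφ : DifferentiableAt ℝ φ z) (i : Fin n) :
    dzb i (fun w => (φ w : ℂ)) z = (starRingEnd ℂ) (dz i (fun w => (φ w : ℂ)) z) := by
  unfold dz dzb
  rw [mi_fderiv_ofReal hφ, mi_fderiv_ofReal hφ]
  simp only [map_div₀, map_sub, map_mul, conj_I, map_ofNat, conj_ofReal]
  ring

theorem mi_fderiv_real {φ : E n → ℝ} {z : E n} (hφ : DifferentiableAt ℝ φ z) (u : E n) :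
    fderiv ℝ φ z u = 2 * (∑ j, u j * dz j (fun w => (φ w : ℂ)) z).re := by
  have h1 := fderiv_eq_dz_dzb (fun w => (φ w : ℂ)) z u
  rw [mi_fderiv_ofReal hφ] at h1
  have h2 := congrArg Complex.re h1
  rw [ofReal_re, Complex.re_sum] at h2
  rw [h2, Complex.re_sum, Finset.mul_sum]
  refine Finset.sum_congr rfl fun j _ => ?_
  rw [mi_dzb_ofReal hφ, ← map_mul, Complex.add_re, Complex.conj_re, mul_comm (u j)]
  ring

/-- `e^t` as a unit -/
def f3u (t : ℝ) : ℂˣ := Units.mk0 (Complex.exp t) (Complex.exp_ne_zero _)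

theorem f3u_coe (t : ℝ) : ((f3u t : ℂˣ) : ℂ) = Complex.exp t := rfl

theorem f3u_zero : f3u 0 = 1 := by
  ext; simp [f3u_coe]

theorem norm_f3u_zpow (t : ℝ) (m : ℤ) : Real.log (‖((f3u t ^ m : ℂˣ) : ℂ)‖ ^ 2) = 2 * m * t := by
  rw [Units.val_zpow_eq_zpow_val, norm_zpow, f3u_coe, Complex.norm_exp, ofReal_re, Real.log_pow,
    Real.log_zpow, Real.log_exp]
  push_cast
  ring

theorem f3_hasDerivAt_dact_u (k : Fin n → ℤ) (z : E n) :
    HasDerivAt (fun t : ℝ => dact k (f3u t) z) (fun j => (k j : ℂ) * z j) 0 := by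
  rw [hasDerivAt_pi]
  intro j
  unfold dact
  simp only [Units.val_zpow_eq_zpow_val, f3u_coe, ← Complex.exp_int_mul]
  have h0 : HasDerivAt (fun t : ℝ => (t : ℂ)) 1 (0 : ℝ) := Complex.ofRealCLM.hasDerivAt
  have h1 : HasDerivAt (fun t : ℝ => (k j : ℂ) * t) ((k j : ℂ) * 1) 0 := h0.const_mul (k j : ℂ)
  have h2 := h1.cexp.mul_const (z j)
  simpa using h2

theorem f3_dact_one (k : Fin n → ℤ) (z : E n) : dact k 1 z = z := by
  funext j; simp [dact]

theorem f3_dact_mul (k : Fin n → ℤ) (c c' : ℂˣ) (z : E n) :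
    dact k (c * c') z = dact k c (dact k c' z) := by
  funext j; simp [dact, mul_zpow, mul_assoc]

/-! ## Circle invariant functions -/

/-- `i ∑ k_j z_j ∂_j f` is real for a circle invariant real function -/
theorem f3_wdz_im_of_inv {φ : E n → ℝ} {k : Fin n → ℤ} {z : E n} (hφ : DifferentiableAt ℝ φ z)
    (hinv : ∀ c : ℂˣ, ‖(c : ℂ)‖ = 1 → φ (dact k c z) = φ z) :
    wdzb k (fun w => (φ w : ℂ)) z = wdz k (fun w => (φ w : ℂ)) z ∧
      (wdz k (fun w => (φ w : ℂ)) z).im = 0 := by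
  have hd : HasDerivAt (fun t : ℝ => dact k (Units.mk0 (Complex.exp (t * I)) (exp_ne_zero _)) z)
      (fun j => (k j : ℂ) * I * z j) 0 := by
    rw [hasDerivAt_pi]
    intro j
    unfold dact
    simp only [Units.val_zpow_eq_zpow_val, Units.val_mk0, ← Complex.exp_int_mul]
    have h0 : HasDerivAt (fun t : ℝ => (t : ℂ)) 1 (0 : ℝ) := Complex.ofRealCLM.hasDerivAt
    have h1 : HasDerivAt (fun t : ℝ => (k j : ℂ) * (t * I)) ((k j : ℂ) * (1 * I)) 0 :=
      (h0.mul_const I).const_mul (k j : ℂ)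
    have h2 := h1.cexp.mul_const (z j)
    simpa using h2
  have e0 : dact k (Units.mk0 (Complex.exp (((0 : ℝ) : ℂ) * I)) (exp_ne_zero _)) z = z := by
    have : (Units.mk0 (Complex.exp (((0 : ℝ) : ℂ) * I)) (exp_ne_zero _)) = 1 := by
      ext; simp
    rw [this, f3_dact_one]
  have h5 : HasFDerivAt φ (fderiv ℝ φ z)
      (dact k (Units.mk0 (Complex.exp (((0 : ℝ) : ℂ) * I)) (exp_ne_zero _)) z) := by
    rw [e0]
    exact hφ.hasFDerivAt
  have h6 := h5.comp_hasDerivAt 0 hd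
  have h7 : (φ ∘ fun t : ℝ => dact k (Units.mk0 (Complex.exp (t * I)) (exp_ne_zero _)) z) =
      fun _ => φ z := by
    funext t
    exact hinv _ (by rw [Units.val_mk0, Complex.norm_exp_ofReal_mul_I])
  rw [h7] at h6
  have h8 := h6.unique (hasDerivAt_const (0 : ℝ) (φ z))
  rw [mi_fderiv_real hφ] at h8
  have h9 : ∑ j, (k j : ℂ) * I * z j * dz j (fun w => (φ w : ℂ)) z =
      I * wdz k (fun w => (φ w : ℂ)) z := by
    unfold wdz
    rw [Finset.mul_sum]
    exact Finset.sum_congr rfl fun j _ => by ring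
  rw [h9, Complex.I_mul_re] at h8
  have h10 : (wdz k (fun w => (φ w : ℂ)) z).im = 0 := by linarith
  have h11 : wdzb k (fun w => (φ w : ℂ)) z =
      (starRingEnd ℂ) (wdz k (fun w => (φ w : ℂ)) z) := by
    unfold wdz wdzb
    rw [map_sum]
    refine Finset.sum_congr rfl fun j _ => ?_
    rw [mi_dzb_ofReal hφ, map_mul, map_mul, map_intCast]
  refine ⟨?_, h10⟩
  rw [h11]
  exact Complex.conj_eq_iff_im.2 h10


/-- functions invariant under the action of `ℂˣ` -/
theorem f3_wdzb_of_inv {φ : E n → ℝ} {k : Fin n → ℤ} {z : E n} (hφ : DifferentiableAt ℝ φ z)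
    (hinv : ∀ c : ℂˣ, φ (dact k c z) = φ z) : wdzb k (fun w => (φ w : ℂ)) z = 0 := by
  obtain ⟨h1, h2⟩ := f3_wdz_im_of_inv hφ fun c _ => hinv c
  rw [h1]
  have h4 := f3_hasDerivAt_dact_u k z
  have h5 : HasFDerivAt φ (fderiv ℝ φ z) (dact k (f3u 0) z) := by
    rw [f3u_zero, f3_dact_one]
    exact hφ.hasFDerivAt
  have h6 := h5.comp_hasDerivAt 0 h4
  have h7 : (φ ∘ fun t : ℝ => dact k (f3u t) z) = fun _ => φ z := by
    funext t
    exact hinv _
  rw [h7] at h6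
  have h8 := h6.unique (hasDerivAt_const (0 : ℝ) (φ z))
  rw [mi_fderiv_real hφ] at h8
  apply Complex.ext
  · rw [zero_re]
    unfold wdz
    linarith
  · rw [h2, zero_im]

end Wdz

namespace PolAtlas

variable {n : ℕ} {Y : Type} [MulAction ℂˣ Y] {A : PolAtlas n Y} {D : A.DAct} {H : Y → ℝ}

section

variable (hK : A.IsKahler H) (hinv : ∀ (c : ℂˣ) y, ‖(c : ℂ)‖ = 1 → H (D.act c y) = H y)

include hK hinv

theorem f3_mu_eq {a : A.ι} {z : E n} (hz : z ∈ A.U a) : A.mu D H a z = D.mu H (A.γ a z) := by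
  have h := congrArg Complex.re (mu_γ hK D hinv hz)
  rw [ofReal_re] at h
  rw [h]
  unfold mu mom wdz
  simp

theorem f3_chMu (a : A.ι) : ChMu (A.Om a) (D.k a) (D.m a) (A.pot H a) (A.mu D H a) where
  smooth := hK.smooth a
  inv _ hz c hc1 := pot_inv hK D hinv hz c hc1
  mu _ hz := by
    rw [f3_mu_eq hK hinv hz]
    exact mu_γ hK D hinv hz

theorem f3_mu_compat {a b : A.ι} {z z' : E n} (hz : z ∈ A.U a)
    (hz' : z' ∈ A.U b) {c : ℂˣ} (h : A.γ b z' = c • A.γ a z) :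
    A.mu D H b z' = A.mu D H a z := by
  rw [f3_mu_eq hK hinv hz, f3_mu_eq hK hinv hz', h, mu_smul hK]

theorem f3_mu_dact {a : A.ι} {z : E n} (hz : z ∈ A.U a) {c : ℂˣ} (hc : ‖(c : ℂ)‖ = 1) :
    A.mu D H a (dact (D.k a) c z) = A.mu D H a z := by
  rw [f3_mu_eq hK hinv hz, f3_mu_eq hK hinv (D.dom a z hz c), mu_γ_dact hK D hz,
    mu_act_circle D hinv c hc]

/-- `V μ = |V|²` -/
theorem f3_wdz_mu {a : A.ι} {z : E n} (hz : z ∈ A.U a) :
    wdz (D.k a) (fun w => (A.mu D H a w : ℂ)) z = (A.vv D H a z : ℂ) := by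
  have h := (f3_chMu hK hinv a).V_mu' hz (hK.posDef a z hz)
  have h2 : nrm2 (D.k a) (A.pot H a) z = A.vv D H a z := by
    unfold nrm2 vv
    congr 1
    refine Finset.sum_congr rfl fun i _ => Finset.sum_congr rfl fun j _ => ?_
    rw [map_mul, map_intCast]
  rw [← h2, ← h]
  rfl

/-- (P4) -/
theorem f3_trC_mu {a : A.ι} {z : E n} (hz : z ∈ A.U a) :
    A.trC H a (A.mu D H a) z = (A.rho H a z : ℂ) *
      (wdz (D.k a) (fun w => (logdet (A.pot H a) w : ℂ)) z + ((∑ j, (D.k a j : ℝ) : ℝ) : ℂ)) := by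
  have h := (f3_chMu hK hinv a).adj_hess_mu (fun z hz => hK.posDef a z hz) hz
  unfold trC
  rw [h]
  have h2 : (hess (A.pot H a) z).det = (A.rho H a z : ℂ) := by
    unfold rho
    exact Pl.det_eq_re (hK.posDef a z hz)
  rw [h2]
  push_cast
  rfl

theorem f3_contDiffOn_mu (a : A.ι) : ContDiffOn ℝ ∞ (A.mu D H a) (A.U a) :=
  (f3_chMu hK hinv a).smooth_mu

end

section

variable (hK : A.IsKahler H)

include hK

theorem f3_contDiffAt_pot {a : A.ι} {z : E n} (hz : z ∈ A.U a) :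
    ContDiffAt ℝ ∞ (A.pot H a) z :=
  (hK.smooth a).contDiffAt ((A.isOpen_U a).mem_nhds hz)

theorem f3_contDiffOn_logdet (a : A.ι) : ContDiffOn ℝ ∞ (logdet (A.pot H a)) (A.U a) :=
  fun z hz => (Pl.contDiffAt_logdet (f3_contDiffAt_pot hK hz)
    (hK.posDef a z hz)).contDiffWithinAt

theorem f3_rho_pos {a : A.ι} {z : E n} (hz : z ∈ A.U a) : 0 < A.rho H a z :=
  Pl.det_re_pos (hK.posDef a z hz)

/-- the trace with the inverse metric -/
theorem f3_trC_eq {a : A.ι} {z : E n} (hz : z ∈ A.U a) (G : E n → ℝ) :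
    A.trC H a G z = (A.rho H a z : ℂ) *
      ∑ i, ∑ j, (hess (A.pot H a) z)⁻¹ j i * hess G z i j := by
  have h2 : (hess (A.pot H a) z).det = (A.rho H a z : ℂ) := by
    unfold rho
    exact Pl.det_eq_re (hK.posDef a z hz)
  have h3 : (A.rho H a z : ℂ) ≠ 0 := by
    exact_mod_cast (f3_rho_pos hK hz).ne'
  unfold trC
  rw [Finset.mul_sum]
  refine Finset.sum_congr rfl fun i _ => ?_
  rw [Finset.mul_sum]
  refine Finset.sum_congr rfl fun j _ => ?_
  rw [Matrix.inv_def, Matrix.smul_apply, Ring.inverse_eq_inv', h2, smul_eq_mul, ← mul_assoc,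
    ← mul_assoc, mul_inv_cancel₀ h3, one_mul]

end

/-- the jacobian of the action has norm one -/
theorem f3_logdet_dact (hK : A.IsKahler H)
    (hinv : ∀ (c : ℂˣ) y, ‖(c : ℂ)‖ = 1 → H (D.act c y) = H y) {a : A.ι} {z : E n}
    (hz : z ∈ A.U a) {c : ℂˣ} (hc : ‖(c : ℂ)‖ = 1) :
    logdet (A.pot H a) (dact (D.k a) c z) = logdet (A.pot H a) z := by
  have hd : ∀ z : E n, HasFDerivAt (dact (D.k a) c) (ContinuousLinearMap.pi fun j =>
      ((c ^ D.k a j : ℂˣ) : ℂ) • ContinuousLinearMap.proj (R := ℂ) (φ := fun _ : Fin n => ℂ) j)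
      z := by
    intro z
    rw [hasFDerivAt_pi]
    intro j
    exact (ContinuousLinearMap.proj (R := ℂ) (φ := fun _ : Fin n => ℂ) j).hasFDerivAt.const_mul _
  have hJ : ∀ z : E n, Pl.jac (dact (D.k a) c) z =
      Matrix.diagonal fun j => ((c ^ D.k a j : ℂˣ) : ℂ) := by
    intro z
    ext i j
    show fderiv ℂ (dact (D.k a) c) z (Pi.single j 1) i = _
    rw [(hd z).fderiv]
    show ((c ^ D.k a i : ℂˣ) : ℂ) * (Pi.single j (1 : ℂ) : E n) i = _
    by_cases hij : i = j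
    · subst hij
      rw [Matrix.diagonal_apply_eq, Pi.single_eq_same, mul_one]
    · rw [Matrix.diagonal_apply_ne _ hij, Pi.single_eq_of_ne hij, mul_zero]
  have hdet : ∀ z : E n, ‖(Pl.jac (dact (D.k a) c) z).det‖ = 1 := by
    intro z
    rw [hJ, Matrix.det_diagonal, norm_prod]
    refine Finset.prod_eq_one fun j _ => ?_
    rw [Units.val_zpow_eq_zpow_val, norm_zpow, hc, one_zpow]
  have e1 : A.pot H a =ᶠ[𝓝 z] Pl.ppull (dact (D.k a) c) (fun _ => 1) (A.pot H a) := by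
    filter_upwards [(A.isOpen_U a).mem_nhds hz] with w hw
    rw [Pl.ppull_apply, norm_one, one_pow, Real.log_one, zero_add, pot_inv hK D hinv hw c hc]
  have h := Pl.logdet_pull (t := dact (D.k a) c) (h := fun _ => (1 : ℂ)) (A.isOpen_U a)
    (fun w _ => (hd w).differentiableAt.differentiableWithinAt) (differentiableOn_const _)
    (fun _ _ => one_ne_zero) (fun w _ => by
      intro h0
      have := hdet w
      rw [h0, norm_zero] at this
      exact zero_ne_one this) hz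
    (Pl.SmNear.of_contDiffOn (A.isOpen_U a) (hK.smooth a) (D.dom a z hz c))
    (hK.posDef a _ (D.dom a z hz c))
  rw [(Pl.logdet_eventuallyEq e1).self_of_nhds, h, Pl.ppull_apply, hdet, one_pow, Real.log_one,
    zero_add]

section

variable {q : ℕ} {s : ℂ}

/-- the function `F` in the chart `a` -/
def fred (A : PolAtlas n Y) (D : A.DAct) (H : Y → ℝ) (q : ℕ) (a : A.ι) (z : E n) : ℝ :=
  redF q (D.k a) (D.m a) (A.pot H a) z

theorem fred_eq (a : A.ι) (z : E n) : A.fred D H q a z =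
    logdet (A.pot H a) z + Real.log (PP q (A.mu D H a z)) := rfl

theorem f3_PP_pos (hp : A.IsPde D q s H) {a : A.ι} {z : E n} (hz : z ∈ A.U a) :
    0 < PP q (A.mu D H a z) :=
  mul_pos (hp.pos a z hz) (hp.pos' a z hz)

theorem f3_contDiffOn_fred (hK : A.IsKahler H) (hp : A.IsPde D q s H) (a : A.ι) :
    ContDiffOn ℝ ∞ (A.fred D H q a) (A.U a) := by
  have h1 : ContDiffOn ℝ ∞ (fun z => PP q (A.mu D H a z)) (A.U a) :=
    (f3_contDiff_PP q).comp_contDiffOn (f3_contDiffOn_mu hK hp.inv a)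
  exact (f3_contDiffOn_logdet hK a).add (h1.log fun z hz => (f3_PP_pos hp hz).ne')

theorem f3_fred_dact (hK : A.IsKahler H) (hp : A.IsPde D q s H) {a : A.ι} {z : E n}
    (hz : z ∈ A.U a) {c : ℂˣ} (hc : ‖(c : ℂ)‖ = 1) :
    A.fred D H q a (dact (D.k a) c z) = A.fred D H q a z := by
  rw [fred_eq, fred_eq, f3_logdet_dact hK hp.inv hz hc, f3_mu_dact hK hp.inv hz hc]

theorem f3_diffAt_fred (hK : A.IsKahler H) (hp : A.IsPde D q s H) {a : A.ι} {z : E n}
    (hz : z ∈ A.U a) : DifferentiableAt ℝ (A.fred D H q a) z :=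
  ((f3_contDiffOn_fred hK hp a).contDiffAt ((A.isOpen_U a).mem_nhds hz)).differentiableAt
    (by simp)

/-- derivative of `log P(μ)` -/
theorem f3_wdz_fred (hK : A.IsKahler H) (hp : A.IsPde D q s H) {a : A.ι} {z : E n}
    (hz : z ∈ A.U a) :
    ((PP q (A.mu D H a z) : ℝ) : ℂ) * wdz (D.k a) (fun w => (A.fred D H q a w : ℂ)) z =
      ((PP q (A.mu D H a z) : ℝ) : ℂ) * wdz (D.k a) (fun w => (logdet (A.pot H a) w : ℂ)) z +
        -18 * (A.mu D H a z : ℂ) * (A.vv D H a z : ℂ) := by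
  have hP := f3_PP_pos hp hz
  have hPc : ((PP q (A.mu D H a z) : ℝ) : ℂ) ≠ 0 := by exact_mod_cast hP.ne'
  have hU := (A.isOpen_U a).mem_nhds hz
  have hmu : DifferentiableAt ℝ (A.mu D H a) z :=
    ((f3_contDiffOn_mu hK hp.inv a).contDiffAt hU).differentiableAt (by simp)
  have hld : DifferentiableAt ℝ (logdet (A.pot H a)) z :=
    ((f3_contDiffOn_logdet hK a).contDiffAt hU).differentiableAt (by simp)
  have hlog : HasFDerivAt (fun w => Real.log (PP q (A.mu D H a w)))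
      ((PP q (A.mu D H a z))⁻¹ • ((-18 * A.mu D H a z) • fderiv ℝ (A.mu D H a) z)) z := by
    have h1 : HasFDerivAt (fun w => PP q (A.mu D H a w))
        ((-18 * A.mu D H a z) • fderiv ℝ (A.mu D H a) z) z :=
      (f3_hasDerivAt_PP q _).comp_hasFDerivAt z hmu.hasFDerivAt
    exact h1.log hP.ne'
  have hf : HasFDerivAt (fun w => ((A.fred D H q a w : ℝ) : ℂ))
      (Complex.ofRealCLM.comp (fderiv ℝ (logdet (A.pot H a)) z +
        (PP q (A.mu D H a z))⁻¹ • ((-18 * A.mu D H a z) • fderiv ℝ (A.mu D H a) z))) z :=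
    Complex.ofRealCLM.hasFDerivAt.comp z (hld.hasFDerivAt.add hlog)
  have hmuc : HasFDerivAt (fun w => ((A.mu D H a w : ℝ) : ℂ))
      (Complex.ofRealCLM.comp (fderiv ℝ (A.mu D H a) z)) z :=
    Complex.ofRealCLM.hasFDerivAt.comp z hmu.hasFDerivAt
  have hldc : HasFDerivAt (fun w => ((logdet (A.pot H a) w : ℝ) : ℂ))
      (Complex.ofRealCLM.comp (fderiv ℝ (logdet (A.pot H a)) z)) z :=
    Complex.ofRealCLM.hasFDerivAt.comp z hld.hasFDerivAt
  have key : ∀ j, dz j (fun w => (A.fred D H q a w : ℂ)) z =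
      dz j (fun w => (logdet (A.pot H a) w : ℂ)) z +
        (((PP q (A.mu D H a z))⁻¹ * (-18 * A.mu D H a z) : ℝ) : ℂ) *
          dz j (fun w => (A.mu D H a w : ℂ)) z := by
    intro j
    unfold dz
    rw [hf.fderiv, hmuc.fderiv, hldc.fderiv]
    simp only [ContinuousLinearMap.comp_apply, _root_.add_apply, _root_.smul_apply,
      Complex.ofRealCLM_apply, smul_eq_mul, ofReal_add, ofReal_mul]
    ring
  have h2 : wdz (D.k a) (fun w => (A.fred D H q a w : ℂ)) z =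
      wdz (D.k a) (fun w => (logdet (A.pot H a) w : ℂ)) z +
        (((PP q (A.mu D H a z))⁻¹ * (-18 * A.mu D H a z) : ℝ) : ℂ) * (A.vv D H a z : ℂ) := by
    rw [← f3_wdz_mu hK hp.inv hz]
    unfold wdz
    rw [Finset.mul_sum, ← Finset.sum_add_distrib]
    refine Finset.sum_congr rfl fun j _ => ?_
    rw [key]
    ring
  rw [h2]
  push_cast
  field_simp

end

end PolAtlas

end

end Pool.Agent.YTDA
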