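import Pool.Agent.YTDA.Smr2
import Pool.Agent.YTDA.Osgood

/-!
# Fubini-Study potentials

For holomorphic functions `F a` without common zero which separate tangent vectors, the function
`log (∑ ‖F a‖²)` is smooth and its complex Hessian is positive definite.
-/

namespace Pool.Agent.YTDA

open Complex Set Topology ContDiff ComplexOrder TopologicalSpace

noncomputable section

variable {n : ℕ} {Ω : Opens (E n)}

/-- the element of the ring of smooth functions given by a holomorphic function -/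
def ofHol (f : E n → ℂ) (hf : DifferentiableOn ℂ f Ω) : Sm Ω :=
  ofFn f (contDiffOn_real_of_differentiableOn Ω.isOpen hf)

theorem ofHol_apply (f : E n → ℂ) (hf : DifferentiableOn ℂ f Ω) (z : Ω) :
    (ofHol f hf).1 z = f z := rfl

theorem dzbD_ofHol (f : E n → ℂ) (hf : DifferentiableOn ℂ f Ω) (i : Fin n) :
    dzbD i (ofHol f hf) = 0 := by
  apply Sm.ext'
  intro z
  unfold ofHol
  rw [dzbD_ofFn, dzb_eq_zero ((hf z z.2).differentiableAt (Ω.isOpen.mem_nhds z.2))]
  rfl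

theorem dzD_ofHol (f : E n → ℂ) (hf : DifferentiableOn ℂ f Ω) (i : Fin n) (z : Ω) :
    (dzD i (ofHol f hf)).1 z = fderiv ℂ f z (Pi.single i 1) := by
  unfold ofHol
  rw [dzD_ofFn, dz_eq_fderiv ((hf z z.2).differentiableAt (Ω.isOpen.mem_nhds z.2))]

theorem dzD_star_ofHol (f : E n → ℂ) (hf : DifferentiableOn ℂ f Ω) (i : Fin n) :
    dzD i (star (ofHol f hf)) = 0 := by
  rw [← star_dzbD, dzbD_ofHol, star_zero]

/-- the entries of the complex Hessian in the ring of smooth functions -/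
theorem dzD_dzbD_ofR (φ : E n → ℝ) (hφ : ContDiffOn ℝ ∞ φ Ω) (i j : Fin n) (z : Ω) :
    (dzD i (dzbD j (ofR φ hφ))).1 z = hess φ z i j := by
  rw [dzD_apply]
  unfold hess
  apply dz_congr
  refine Filter.eventuallyEq_of_mem (Ω.isOpen.mem_nhds z.2) fun w hw => ?_
  rw [ext_mk _ hw]
  exact dzbD_ofFn j _ _ ⟨w, hw⟩

section FS

variable {α : Type*} [Fintype α] (F : α → E n → ℂ) (hF : ∀ a, DifferentiableOn ℂ (F a) Ω)

/-- `∑ F_a * conj F_a` -/
def fsS : Sm Ω := ∑ a, ofHol (F a) (hF a) * star (ofHol (F a) (hF a))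

theorem fsS_apply (z : Ω) : (fsS F hF).1 z = ((∑ a, ‖F a z‖ ^ 2 : ℝ) : ℂ) := by
  unfold fsS
  rw [Sm.sum_apply]
  push_cast
  refine Finset.sum_congr rfl fun a _ => ?_
  rw [Sm.mul_apply, star_apply, ofHol_apply, mul_conj']

theorem fs_pos {F : α → E n → ℂ} {z : E n} (h0 : ∃ a, F a z ≠ 0) : 0 < ∑ a, ‖F a z‖ ^ 2 := by
  obtain ⟨a, ha⟩ := h0
  exact Finset.sum_pos' (fun _ _ => by positivity) ⟨a, Finset.mem_univ _, by positivity⟩

theorem dzD_fsS (i : Fin n) : dzD i (fsS F hF) =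
    ∑ a, dzD i (ofHol (F a) (hF a)) * star (ofHol (F a) (hF a)) := by
  unfold fsS
  rw [map_sum]
  refine Finset.sum_congr rfl fun a _ => ?_
  rw [Derivation.leibniz, dzD_star_ofHol, smul_zero, zero_add, smul_eq_mul, mul_comm]

theorem dzbD_fsS (j : Fin n) : dzbD j (fsS F hF) =
    ∑ a, ofHol (F a) (hF a) * star (dzD j (ofHol (F a) (hF a))) := by
  unfold fsS
  rw [map_sum]
  refine Finset.sum_congr rfl fun a _ => ?_
  rw [Derivation.leibniz, dzbD_ofHol, smul_zero, add_zero, smul_eq_mul, star_dzD]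

theorem dzD_dzbD_fsS (i j : Fin n) : dzD i (dzbD j (fsS F hF)) =
    ∑ a, dzD i (ofHol (F a) (hF a)) * star (dzD j (ofHol (F a) (hF a))) := by
  rw [dzbD_fsS, map_sum]
  refine Finset.sum_congr rfl fun a _ => ?_
  have h1 : dzD i (star (dzD j (ofHol (F a) (hF a)))) = 0 := by
    rw [← star_dzbD, ← dzD_dzbD_comm, dzbD_ofHol, map_zero, star_zero]
  rw [Derivation.leibniz, h1, smul_zero, zero_add, smul_eq_mul, mul_comm]

end FS

section Main

variable {α : Type*} [Fintype α] {F : α → E n → ℂ} {U : Set (E n)}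

theorem contDiffOn_fs (hU : IsOpen U) (hF : ∀ a, DifferentiableOn ℂ (F a) U)
    (h0 : ∀ z ∈ U, ∃ a, F a z ≠ 0) (c : ℝ) :
    ContDiffOn ℝ ∞ (fun w => c * Real.log (∑ a, ‖F a w‖ ^ 2)) U := by
  have h1 : ContDiffOn ℝ ∞ (fun w => ∑ a, ‖F a w‖ ^ 2) U :=
    ContDiffOn.sum fun a _ => (contDiffOn_real_of_differentiableOn hU (hF a)).norm_sq ℝ
  exact contDiffOn_const.mul (h1.log fun z hz => (fs_pos (h0 z hz)).ne')

/-- The complex Hessian of `c log ∑ ‖F a‖²`. -/
theorem hess_fs (hU : IsOpen U) (hF : ∀ a, DifferentiableOn ℂ (F a) U)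
    (h0 : ∀ z ∈ U, ∃ a, F a z ≠ 0) (c : ℝ) {z : E n} (hz : z ∈ U) (i j : Fin n) :
    (((∑ a, ‖F a z‖ ^ 2 : ℝ) : ℂ)) ^ 2 *
      hess (fun w => c * Real.log (∑ a, ‖F a w‖ ^ 2)) z i j =
      c * (((∑ a, ‖F a z‖ ^ 2 : ℝ) : ℂ) * (∑ a, fderiv ℂ (F a) z (Pi.single i 1) *
        (starRingEnd ℂ) (fderiv ℂ (F a) z (Pi.single j 1))) -
      (∑ a, fderiv ℂ (F a) z (Pi.single i 1) * (starRingEnd ℂ) (F a z)) *
        ∑ a, F a z * (starRingEnd ℂ) (fderiv ℂ (F a) z (Pi.single j 1))) := by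
  obtain ⟨Ω, rfl⟩ : ∃ Ω : Opens (E n), (Ω : Set (E n)) = U := ⟨⟨U, hU⟩, rfl⟩
  have hpos : ∀ w : Ω, 0 < (fsS F hF).1 w := fun w => by
    rw [fsS_apply]
    exact_mod_cast fs_pos (h0 w w.2)
  have hcd := contDiffOn_fs hU hF h0 c
  have e1 : ofR (fun w => c * Real.log (∑ a, ‖F a w‖ ^ 2)) hcd =
      (c : ℂ) • logS (fsS F hF) hpos := by
    apply Sm.ext'
    intro w
    rw [ofR_apply, Sm.smul_apply, logS_apply, fsS_apply, ofReal_re]
    push_cast
    ring
  have e2 := dzD_dzbD_ofR _ hcd i j ⟨z, hz⟩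
  rw [e1, Derivation.map_smul, Derivation.map_smul, Sm.smul_apply] at e2
  rw [← e2]
  set S := fsS F hF with hS
  set L := logS S hpos with hL
  have e3 : S * dzbD j L = dzbD j S := mul_DS_logS (dzbD_mem_DS j) S hpos
  have e4 : S * dzD i L = dzD i S := mul_DS_logS (dzD_mem_DS i) S hpos
  have e5 : dzD i (dzbD j S) = S * dzD i (dzbD j L) + dzbD j L * dzD i S := by
    rw [← e3, Derivation.leibniz, smul_eq_mul, smul_eq_mul]
  have e6 : S ^ 2 * dzD i (dzbD j L) = S * dzD i (dzbD j S) - dzD i S * dzbD j S := by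
    rw [e5, ← e3]
    ring
  have e7 := congrArg (fun f : Sm Ω => f.1 ⟨z, hz⟩) e6
  simp only [Sm.mul_apply, Sm.sub_apply, Sm.pow_apply] at e7
  rw [dzD_dzbD_fsS, dzD_fsS, dzbD_fsS, hS, fsS_apply] at e7
  simp only [Sm.sum_apply, Sm.mul_apply, star_apply, dzD_ofHol, ofHol_apply] at e7
  rw [← mul_assoc, mul_comm _ (c : ℂ), mul_assoc, e7]

/-- `log ∑ ‖F a‖²` has positive definite complex Hessian if the functions have no common zero and
separate tangent vectors. -/
theorem hess_fs_posDef (hU : IsOpen U) (hF : ∀ a, DifferentiableOn ℂ (F a) U)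
    (h0 : ∀ z ∈ U, ∃ a, F a z ≠ 0) {c : ℝ} (hc : 0 < c) {z : E n} (hz : z ∈ U)
    (hsep : ∀ (v : E n) (t : ℂ), (∀ a, fderiv ℂ (F a) z v = t * F a z) → v = 0) :
    (hess (fun w => c * Real.log (∑ a, ‖F a w‖ ^ 2)) z).PosDef := by
  classical
  have hT : 0 < ∑ a, ‖F a z‖ ^ 2 := fs_pos (h0 z hz)
  set T : ℝ := ∑ a, ‖F a z‖ ^ 2 with hTdef
  -- the matrix of minors
  set k : ℂ := ((Real.sqrt (c / 2) / T : ℝ) : ℂ) with hk
  have hkpos : 0 < Real.sqrt (c / 2) / T := div_pos (Real.sqrt_pos.2 (by positivity)) hT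
  have hk2 : k * k * 2 * (T : ℂ) ^ 2 = c := by
    have h1 : (Real.sqrt (c / 2) / T) * (Real.sqrt (c / 2) / T) * 2 * T ^ 2 = c := by
      have h2 : Real.sqrt (c / 2) * Real.sqrt (c / 2) = c / 2 :=
        Real.mul_self_sqrt (by positivity)
      field_simp
      nlinarith [h2]
    rw [hk]
    exact_mod_cast h1
  set B : Matrix (Fin n) (α × α) ℂ := fun i p =>
    k * (F p.1 z * fderiv ℂ (F p.2) z (Pi.single i 1) -
      F p.2 z * fderiv ℂ (F p.1) z (Pi.single i 1)) with hB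
  have hH : hess (fun w => c * Real.log (∑ a, ‖F a w‖ ^ 2)) z = B * B.conjTranspose := by
    ext i j
    have h1 := hess_fs hU hF h0 c hz i j
    rw [← hTdef] at h1
    have hT0 : (T : ℂ) ^ 2 ≠ 0 := pow_ne_zero _ (ofReal_ne_zero.2 hT.ne')
    apply mul_left_cancel₀ hT0
    rw [h1, Matrix.mul_apply]
    simp only [hB]
    set u : α → ℂ := fun a => fderiv ℂ (F a) z (Pi.single i 1) with hu
    set w : α → ℂ := fun a => fderiv ℂ (F a) z (Pi.single j 1) with hw
    set f : α → ℂ := fun a => F a z with hf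
    have hTf : (T : ℂ) = ∑ a, f a * (starRingEnd ℂ) (f a) := by
      rw [hTdef]
      push_cast
      refine Finset.sum_congr rfl fun a _ => ?_
      rw [hf, mul_conj']
    rw [Fintype.sum_prod_type]
    have hkr : (starRingEnd ℂ) k = k := by rw [hk]; exact conj_ofReal _
    have h2 : ∀ a b, k * (f a * u b - f b * u a) * star (k * (f a * w b - f b * w a)) =
        k * k * ((f a * (starRingEnd ℂ) (f a)) * (u b * (starRingEnd ℂ) (w b)) +
          (f b * (starRingEnd ℂ) (f b)) * (u a * (starRingEnd ℂ) (w a)) -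
          (u b * (starRingEnd ℂ) (f b)) * (f a * (starRingEnd ℂ) (w a)) -
          (u a * (starRingEnd ℂ) (f a)) * (f b * (starRingEnd ℂ) (w b))) := by
      intro a b
      have h3 : star (k * (f a * w b - f b * w a)) = k * ((starRingEnd ℂ) (f a) *
          (starRingEnd ℂ) (w b) - (starRingEnd ℂ) (f b) * (starRingEnd ℂ) (w a)) := by
        show (starRingEnd ℂ) (k * (f a * w b - f b * w a)) = _
        rw [map_mul, map_sub, map_mul, map_mul, hkr]
      rw [h3]
      ring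
    have h4 : ∑ a, ∑ b, k * (f a * u b - f b * u a) * star (k * (f a * w b - f b * w a)) =
        k * k * (2 * ((∑ a, f a * (starRingEnd ℂ) (f a)) *
          (∑ b, u b * (starRingEnd ℂ) (w b)) -
          (∑ b, u b * (starRingEnd ℂ) (f b)) * ∑ a, f a * (starRingEnd ℂ) (w a))) := by
      simp only [h2]
      simp only [← Finset.mul_sum, Finset.sum_sub_distrib, Finset.sum_add_distrib,
        ← Finset.sum_mul]
      ring
    show _ = (T : ℂ) ^ 2 * ∑ a, ∑ b, k * (f a * u b - f b * u a) *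
      star (k * (f a * w b - f b * w a))
    rw [h4, ← hTf, ← hk2]
    ring
  rw [hH]
  apply Matrix.PosDef.mul_conjTranspose_self
  -- injectivity
  have hker : ∀ v : Fin n → ℂ, B.vecMul v = 0 → v = 0 := by
    intro v hv
    have hD : ∀ a, fderiv ℂ (F a) z v = ∑ i, v i * fderiv ℂ (F a) z (Pi.single i 1) := by
      intro a
      have h5 : v = ∑ i, v i • (Pi.single i 1 : E n) := by
        ext j
        simp [Finset.sum_apply, Pi.single_apply]
      conv_lhs => rw [h5]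
      rw [map_sum]
      simp only [map_smul, smul_eq_mul]
    have h6 : ∀ a b, F a z * fderiv ℂ (F b) z v = F b z * fderiv ℂ (F a) z v := by
      intro a b
      have h7 := congrFun hv (a, b)
      rw [Matrix.vecMul, dotProduct] at h7
      simp only [hB, Pi.zero_apply] at h7
      rw [hD, hD, Finset.mul_sum, Finset.mul_sum, ← sub_eq_zero, ← Finset.sum_sub_distrib]
      have hk0 : k ≠ 0 := by rw [hk]; exact ofReal_ne_zero.2 hkpos.ne'
      apply mul_left_cancel₀ hk0
      rw [mul_zero, ← h7, Finset.mul_sum]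
      refine Finset.sum_congr rfl fun i _ => ?_
      ring
    obtain ⟨a, ha⟩ := h0 z hz
    refine hsep v (fderiv ℂ (F a) z v / F a z) fun b => ?_
    rw [div_mul_eq_mul_div, eq_div_iff ha, mul_comm, h6 a b, mul_comm]
  intro v w hvw
  have h8 : B.vecMul (v - w) = 0 := by
    rw [Matrix.sub_vecMul]
    exact sub_eq_zero.2 hvw
  exact sub_eq_zero.1 (hker _ h8)

end Main

end

end Pool.Agent.YTDA
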