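import Pool.Agent.YTDA.Defs

/-!
# Polarized complex manifolds, Kähler metrics of constant scalar curvature, K-stability

The definitions used in the final statement.
-/

namespace Pool.Agent.YTDA

open Complex Set Topology ContDiff Manifold ComplexOrder Module

noncomputable section

/-- A holomorphic line bundle `L` on the complex manifold `M`, given by an open covering `V` and
the transition functions `g`. -/
structure LineBundle (n : ℕ) (M : Type) [TopologicalSpace M] [ChartedSpace (E n) M] where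
  ι : Type
  V : ι → Set M
  isOpen : ∀ i, IsOpen (V i)
  cover : ∀ x, ∃ i, x ∈ V i
  g : ι → ι → M → ℂ
  ne_zero : ∀ i j, ∀ x ∈ V i ∩ V j, g i j x ≠ 0
  hol : ∀ i j, MDifferentiableOn 𝓘(ℂ, E n) 𝓘(ℂ) (g i j) (V i ∩ V j)
  cocycle : ∀ i j k, ∀ x ∈ V i ∩ V j ∩ V k, g i j x * g j k x = g i k x

/-- There are no holomorphic vector fields on `M` except zero. -/
def NoVectorField (n : ℕ) (M : Type) [TopologicalSpace M] [ChartedSpace (E n) M]
    [IsManifold 𝓘(ℂ, E n) 1 M] : Prop :=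
  ∀ v : (x : M) → TangentSpace 𝓘(ℂ, E n) x,
    MDifferentiable 𝓘(ℂ, E n) 𝓘(ℂ, E n).tangent
      (fun x => (⟨x, v x⟩ : TangentBundle 𝓘(ℂ, E n) M)) → ∀ x, v x = 0

namespace LineBundle

variable {n : ℕ} {M : Type} [TopologicalSpace M] [ChartedSpace (E n) M] (L : LineBundle n M)

/-- `H⁰(M, L ^ k)`. A section is given by holomorphic functions `f i` on `V i` such that
`f i = (g i j) ^ k * f j` on `V i ∩ V j`; the functions are extended by zero. -/
def H0 (k : ℕ) : Submodule ℂ (L.ι → M → ℂ) where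
  carrier := {f | (∀ i, ∀ x ∉ L.V i, f i x = 0) ∧
    (∀ i, MDifferentiableOn 𝓘(ℂ, E n) 𝓘(ℂ) (f i) (L.V i)) ∧
    ∀ i j, ∀ x ∈ L.V i ∩ L.V j, f i x = L.g i j x ^ k * f j x}
  zero_mem' := ⟨fun _ _ _ => rfl, fun _ => mdifferentiableOn_const, fun _ _ _ _ => by simp⟩
  add_mem' := by
    rintro f f' ⟨h1, h2, h3⟩ ⟨h1', h2', h3'⟩
    refine ⟨fun i x hx => ?_, fun i => (h2 i).add (h2' i), fun i j x hx => ?_⟩
    · rw [Pi.add_apply, Pi.add_apply, h1 i x hx, h1' i x hx, add_zero]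
    · rw [Pi.add_apply, Pi.add_apply, Pi.add_apply, Pi.add_apply, h3 i j x hx, h3' i j x hx]
      ring
  smul_mem' := by
    rintro c f ⟨h1, h2, h3⟩
    refine ⟨fun i x hx => ?_, fun i => (h2 i).const_smul c, fun i j x hx => ?_⟩
    · rw [Pi.smul_apply, Pi.smul_apply, h1 i x hx, smul_zero]
    · rw [Pi.smul_apply, Pi.smul_apply, Pi.smul_apply, Pi.smul_apply, h3 i j x hx]
      simp only [smul_eq_mul]
      ring

/-- `L` is ample: the sections of some power `L ^ k`, `k > 0`, embed `M` in a projective space,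
that is they separate the points and the tangent vectors of `M`. -/
def IsAmple : Prop := ∃ k > 0,
  (∀ i j, ∀ x ∈ L.V i, ∀ y ∈ L.V j, x ≠ y → ∃ f ∈ L.H0 k, f i x = 0 ∧ f j y ≠ 0) ∧
  (∀ i, ∀ x ∈ L.V i, ∃ f ∈ L.H0 k, f i x ≠ 0) ∧
  ∀ i, ∀ x ∈ L.V i, ∀ v : TangentSpace 𝓘(ℂ, E n) x, v ≠ 0 → ∃ f ∈ L.H0 k,
    f i x = 0 ∧ mfderiv 𝓘(ℂ, E n) 𝓘(ℂ) (f i) x v ≠ 0

/-- A Kähler metric in `c₁(L)`: a smooth hermitian metric on `L` with positive curvature. The
square of the norm of the section `f` is `h i * ‖f i‖ ^ 2` on `V i`; in a holomorphic chart the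
Kähler metric is the complex Hessian of `- log (h i)`. -/
structure KMetric where
  h : L.ι → M → ℝ
  pos : ∀ i, ∀ x ∈ L.V i, 0 < h i x
  smooth : ∀ i, ContMDiffOn 𝓘(ℝ, E n) 𝓘(ℝ) ∞ (h i) (L.V i)
  trans : ∀ i j, ∀ x ∈ L.V i ∩ L.V j, h j x = ‖L.g i j x‖ ^ 2 * h i x
  posDef : ∀ i, ∀ φ ∈ atlas (E n) M, ∀ z ∈ φ.target, φ.symm z ∈ L.V i →
    (hess (fun w => -Real.log (h i (φ.symm w))) z).PosDef

/-- The scalar curvature is constant. -/
def KMetric.IsCsc {L : LineBundle n M} (m : L.KMetric) : Prop := ∃ s : ℂ, ∀ i,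
  ∀ φ ∈ atlas (E n) M, ∀ z ∈ φ.target, φ.symm z ∈ L.V i →
    scal (fun w => -Real.log (m.h i (φ.symm w))) z = s

/-- A test configuration of exponent `r` of `(M, L)`, given by the corresponding filtration of the
ring `⊕ H⁰(M, L ^ (r k))`: the section `s` belongs to `F k l` if `t ^ (-l) s` extends to a section
of the polarization over the total space of the test configuration. So it is a decreasing
multiplicative linearly bounded filtration whose Rees algebra is finitely generated. -/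
structure TestConfiguration (r : ℕ) where
  F : ℕ → ℤ → Submodule ℂ (L.ι → M → ℂ)
  le : ∀ k l, F k l ≤ L.H0 (r * k)
  anti : ∀ k l l', l ≤ l' → F k l' ≤ F k l
  mul : ∀ k k' l l', ∀ f ∈ F k l, ∀ g ∈ F k' l', f * g ∈ F (k + k') (l + l')
  bound : ∃ b : ℕ, ∀ k : ℕ, F k (-(b * k)) = L.H0 (r * k) ∧ F k (b * k + 1) = ⊥
  fg : ∃ (p : ℕ) (m : Fin p → ℕ) (w : Fin p → ℤ) (f : Fin p → L.ι → M → ℂ),
    (∀ i, f i ∈ F (m i) (w i)) ∧
    ∀ k l, F k l ≤ Submodule.span ℂ {g | ∃ e : Fin p → ℕ,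
      ∑ i, e i * m i = k ∧ l ≤ ∑ i, e i * w i ∧ g = ∏ i, f i ^ e i}

namespace TestConfiguration

variable {L} {r : ℕ} (χ : L.TestConfiguration r)

/-- The dimension of the space of sections of weight `l` of the `k`-th power of the polarization
of the central fibre. -/
def wt (k : ℕ) (l : ℤ) : ℝ := finrank ℂ (χ.F k l) - finrank ℂ (χ.F k (l + 1))

/-- The trace of the `p`-th power of the generator of the action of `ℂˣ` on the space of sections
of the `k`-th power of the polarization of the central fibre. -/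
def tr (p k : ℕ) : ℝ := ∑ᶠ l : ℤ, (l : ℝ) ^ p * χ.wt k l

/-- `a₀, a₁, b₀, b₁, c₀` are the coefficients of the asymptotic expansions of
`dim H⁰(M₀, L₀ ^ k) = dim H⁰(M, L ^ (r k))`, `Tr A_k` and `Tr A_k²`. -/
def Expansion (a₀ a₁ b₀ b₁ c₀ : ℝ) : Prop :=
  (∃ C : ℝ, ∀ᶠ k : ℕ in Filter.atTop,
    |(finrank ℂ (L.H0 (r * k)) : ℝ) - k ^ n * (a₀ + a₁ / k)| ≤ C * (k ^ n / k ^ 2)) ∧
  (∃ C : ℝ, ∀ᶠ k : ℕ in Filter.atTop,
    |χ.tr 1 k - k ^ (n + 1) * (b₀ + b₁ / k)| ≤ C * (k ^ (n + 1) / k ^ 2)) ∧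
  (∃ C : ℝ, ∀ᶠ k : ℕ in Filter.atTop, |χ.tr 2 k - c₀ * k ^ (n + 2)| ≤ C * k ^ (n + 1))

end TestConfiguration

/-- `(M, L)` is K-stable: every test configuration of positive norm has positive Futaki
invariant. -/
def KStable : Prop := ∀ r > 0, ∀ χ : L.TestConfiguration r, ∀ a₀ a₁ b₀ b₁ c₀ : ℝ,
  χ.Expansion a₀ a₁ b₀ b₁ c₀ → 0 < (c₀ - b₀ ^ 2 / a₀) / r ^ (n + 2) →
    0 < (a₁ * b₀ - a₀ * b₁) / a₀ ^ 2

end LineBundle

end

end Pool.Agent.YTDA
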