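import Pool.Agent.YTDA.Inv3

/-!
# Assembly: from a polarized atlas with a free action of `(ℤ/2)³` to the manifold
-/

namespace Pool.Agent.YTDA

open Complex Set Topology ContDiff Manifold ComplexOrder Module Filter

noncomputable section

namespace PolAtlas

variable {n : ℕ} {Y : Type} [MulAction ℂˣ Y] {A : PolAtlas n Y}

/-- Invariance of a vector field under a holomorphic map. -/
def FieldInv (A : PolAtlas n Y) (f : Y → Y) (W : A.HolField) : Prop :=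
  ∀ (a b : A.ι) (z : E n) (t : E n → E n), z ∈ A.U a → t z ∈ A.U b → ContinuousAt t z →
    (∀ᶠ w in 𝓝 z, ∃ c : ℂˣ, f (A.γ a w) = c • A.γ b (t w)) →
    W.W b (t z) = fderiv ℂ t z (W.W a z)

section

variable {G : Type} [Group G] [MulAction G Y] [SMulCommClass G ℂˣ Y]
variable [Finite G] (hA : A.FreeAct G) (ht : A.IsT2)

theorem quot_isKahler_lift {H : Y → ℝ} (hH : A.IsKahler H) (hinv : ∀ (g : G) y, H (g • y) = H y) :
    (A.quot hA ht).IsKahler (qlift H hinv) where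
  pos y := by
    obtain ⟨y, rfl⟩ := exists_qm y
    exact hH.pos y
  hom c y := by
    obtain ⟨y, rfl⟩ := exists_qm y
    exact hH.hom c y
  smooth p := (hH.smooth p.1.1).mono p.2.2.1
  posDef p z hz := hH.posDef p.1.1 z (p.2.2.1 hz)

theorem pullField_fieldInv (W : (A.quot hA ht).HolField) (g : G) :
    FieldInv A (fun y => g • y) (pullField hA ht W) :=
  fun _ _ _ _ hz hz' hf h => pullField_inv hA ht W g hz hz' hf h

/-- The section spaces of the line bundle on the quotient. -/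
def quotH0 (k : ℕ) : (A.quot hA ht).lb.H0 k ≃ₗ[ℂ] A.invSecs G k :=
  ((A.quot hA ht).secEquiv k).symm.trans (quotSecs hA ht k)

theorem ofLocs_mul (B : PolAtlas n Y) {k k' : ℕ} {f f' : B.ι → B.Mfd → ℂ} (hf : f ∈ B.lb.H0 k)
    (hf' : f' ∈ B.lb.H0 k') (hff' : f * f' ∈ B.lb.H0 (k + k')) :
    B.ofLocs (k + k') (f * f') = B.ofLocs k f * B.ofLocs k' f' := by
  funext y
  obtain ⟨a, z, hz, c, rfl⟩ := B.cover y
  rw [Pi.mul_apply, B.ofLocs_eq hff' hz, B.ofLocs_eq hf hz, B.ofLocs_eq hf' hz, pow_add]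
  show _ * (f a _ * f' a _) = _
  ring

theorem quotH0_apply {k : ℕ} (f : (A.quot hA ht).lb.H0 k) (y : Y) :
    (quotH0 hA ht k f : Y → ℂ) y = (A.quot hA ht).ofLocs k f.1 (qm y) := rfl

theorem quotH0_mul {k k' : ℕ} (f : (A.quot hA ht).lb.H0 k) (f' : (A.quot hA ht).lb.H0 k')
    (hff' : f.1 * f'.1 ∈ (A.quot hA ht).lb.H0 (k + k')) :
    (quotH0 hA ht (k + k') ⟨f.1 * f'.1, hff'⟩ : Y → ℂ) =
      (quotH0 hA ht k f : Y → ℂ) * (quotH0 hA ht k' f' : Y → ℂ) := by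
  funext y
  exact congrFun (ofLocs_mul (A.quot hA ht) f.2 f'.2 hff') (qm y)

end

/-- The final construction. -/
theorem exists_manifold (hc : A.IsCpt) (ht : A.IsT2) (hne : Nonempty Y) (e : Inv3 Y)
    (he : e.Free) (h₁ : IsHol A A e.e₁) (h₂ : IsHol A A e.e₂) (h₃ : IsHol A A e.e₃)
    (hsec : ∀ F, A.IsSec 0 F → ∃ c, ∀ y, F y = c)
    (hfield : ∀ W : A.HolField, FieldInv A e.e₁ W → FieldInv A e.e₂ W → FieldInv A e.e₃ W →
      ∀ a, ∀ z ∈ A.U a, W.W a z = 0)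
    (hamp : letI := e.act; haveI := e.commClass; ∃ k > 0, A.AmpInv G3 k)
    (hK : ∃ H, A.IsKahler H ∧ (∀ y, H (e.e₁ y) = H y) ∧ (∀ y, H (e.e₂ y) = H y) ∧
      ∀ y, H (e.e₃ y) = H y)
    (hcsc : ∀ H, A.IsKahler H → (∀ y, H (e.e₁ y) = H y) → (∀ y, H (e.e₂ y) = H y) →
      (∀ y, H (e.e₃ y) = H y) → ∀ s, ¬ A.IsCsc H s)
    (hstab : letI := e.act; haveI := e.commClass; ∀ hA : A.FreeAct G3,
      (A.quot hA ht).lb.KStable) :
    ∃ (M : Type) (_ : TopologicalSpace M) (_ : ChartedSpace (E n) M)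
      (_ : IsManifold 𝓘(ℂ, E n) ω M) (L : LineBundle n M),
      CompactSpace M ∧ T2Space M ∧ ConnectedSpace M ∧ NoVectorField n M ∧
      L.IsAmple ∧ L.KStable ∧ Nonempty L.KMetric ∧ ∀ m : L.KMetric, ¬ m.IsCsc := by
  let _ := e.act
  have _ := e.commClass
  have hA : A.FreeAct G3 := he.freeAct h₁ h₂ h₃
  have hinv : ∀ {β : Type} (F : Y → β), (∀ (g : G3) y, F (g • y) = F y) ↔
      (∀ y, F (e.e₁ y) = F y) ∧ (∀ y, F (e.e₂ y) = F y) ∧ ∀ y, F (e.e₃ y) = F y :=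
    fun F => e.inv_iff F
  set B := A.quot hA ht with hB
  have hneQ : Nonempty (QY Y G3) := ⟨qm hne.some⟩
  refine ⟨B.Mfd, inferInstance, inferInstance, B.isManifold, B.lb,
    B.compactSpace (quot_isCpt hA ht hc), B.t2Space (quot_isT2 hA ht),
    B.connectedSpace ?_, B.noVectorField ?_, ?_, hstab hA, ?_, ?_⟩
  · intro F hF
    obtain ⟨c, hc⟩ := hsec _ ((quot_isSec_iff hA ht).1 hF)
    refine ⟨c, fun y => ?_⟩
    obtain ⟨y, rfl⟩ := exists_qm y
    exact hc y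
  · intro W
    have hW : ∀ g : G3, FieldInv A (fun y => g • y) (pullField hA ht W) :=
      pullField_fieldInv hA ht W
    apply pullField_eq_zero hA ht
    have e₁ : (fun y => (Multiplicative.ofAdd (1, 0, 0) : G3) • y) = e.e₁ := by
      funext y
      show pw e.e₁ 1 (pw e.e₂ 0 (pw e.e₃ 0 y)) = e.e₁ y
      rw [pw_zero, pw_zero, pw_one]
    have e₂ : (fun y => (Multiplicative.ofAdd (0, 1, 0) : G3) • y) = e.e₂ := by
      funext y
      show pw e.e₁ 0 (pw e.e₂ 1 (pw e.e₃ 0 y)) = e.e₂ y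
      rw [pw_zero, pw_zero, pw_one]
    have e₃ : (fun y => (Multiplicative.ofAdd (0, 0, 1) : G3) • y) = e.e₃ := by
      funext y
      show pw e.e₁ 0 (pw e.e₂ 0 (pw e.e₃ 1 y)) = e.e₃ y
      rw [pw_zero, pw_zero, pw_one]
    have h1 := hW (Multiplicative.ofAdd (1, 0, 0))
    have h2 := hW (Multiplicative.ofAdd (0, 1, 0))
    have h3 := hW (Multiplicative.ofAdd (0, 0, 1))
    rw [e₁] at h1
    rw [e₂] at h2
    rw [e₃] at h3
    exact hfield _ h1 h2 h3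
  · obtain ⟨k, hk, h⟩ := hamp
    exact (AmpInv.quot h hA ht).isAmple hk
  · obtain ⟨H, hH, i1, i2, i3⟩ := hK
    exact ⟨toKMetric (quot_isKahler_lift hA ht hH ((hinv H).2 ⟨i1, i2, i3⟩))⟩
  · intro m hm
    obtain ⟨s, hs⟩ := B.toH_isCsc hm
    have hK1 := quot_isKahler hA ht (B.toH_isKahler m)
    have hs1 := quot_isCsc hA ht hs
    have hi : ∀ (g : G3) y, (fun y => B.toH m (qm y)) (g • y) = (fun y => B.toH m (qm y)) y :=
      fun g y => congrArg (B.toH m) (qm_smul g y)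
    obtain ⟨i1, i2, i3⟩ := (hinv (fun y => B.toH m (qm y))).1 hi
    exact hcsc _ hK1 i1 i2 i3 s hs1

end PolAtlas

end

end Pool.Agent.YTDA
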