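import Mathlib

/-!
# T13(e): the final inequality

`PP q x = (25q + 3x)(25q - 3x)`, `dd q t x` is the density of the Duistermaat-Heckman measure.
-/

namespace Pool.Agent.YTDA

open Set Topology ContDiff MeasureTheory Real

noncomputable section

/-- `P(x) = (25q+3x)(25q-3x)` -/
def PP (q x : ℝ) : ℝ := (25 * q + 3 * x) * (25 * q - 3 * x)

/-- the Duistermaat-Heckman density `105 t q - 100 t (|x| - 4q)⁺` -/
def dd (q t x : ℝ) : ℝ := 105 * t * q - 100 * t * max (|x| - 4 * q) 0

theorem continuous_PP (q : ℝ) : Continuous (PP q) := by unfold PP; fun_prop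

theorem continuous_dd (q t : ℝ) : Continuous (dd q t) := by unfold dd; fun_prop

theorem hasDerivAt_max_pow (n : ℕ) (x : ℝ) :
    HasDerivAt (fun x : ℝ => (max x 0) ^ (n + 2)) ((n + 2 : ℝ) * (max x 0) ^ (n + 1)) x := by
  rcases lt_trichotomy x 0 with h | h | h
  · have h1 : (fun _ : ℝ => (0 : ℝ)) =ᶠ[𝓝 x] fun x : ℝ => (max x 0) ^ (n + 2) := by
      filter_upwards [Iio_mem_nhds h] with y hy
      rw [max_eq_right (le_of_lt hy), zero_pow (by omega)]
    rw [max_eq_right h.le, zero_pow (by omega), mul_zero]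
    exact (hasDerivAt_const x (0 : ℝ)).congr_of_eventuallyEq h1.symm
  · subst h
    rw [max_self, zero_pow (by omega), mul_zero]
    have h2 : HasDerivWithinAt (fun x : ℝ => (max x 0) ^ (n + 2)) 0 (Iic 0) 0 := by
      refine (hasDerivWithinAt_const (0 : ℝ) (Iic 0) (0 : ℝ)).congr ?_ ?_
      · intro y hy
        rw [max_eq_right hy, zero_pow (by omega)]
      · simp
    have h3 : HasDerivWithinAt (fun x : ℝ => (max x 0) ^ (n + 2)) 0 (Ici 0) 0 := by
      have h4 : HasDerivAt (fun x : ℝ => x ^ (n + 2)) 0 0 := by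
        have := hasDerivAt_pow (n + 2) (0 : ℝ)
        simpa using this
      refine h4.hasDerivWithinAt.congr ?_ ?_
      · intro y hy
        rw [max_eq_left hy]
      · simp
    have h5 := h2.union h3
    rw [Iic_union_Ici] at h5
    exact hasDerivWithinAt_univ.1 h5
  · have h1 : (fun y : ℝ => y ^ (n + 2)) =ᶠ[𝓝 x] fun x : ℝ => (max x 0) ^ (n + 2) := by
      filter_upwards [Ioi_mem_nhds h] with y hy
      rw [max_eq_left (le_of_lt hy)]
    rw [max_eq_left h.le]
    have := hasDerivAt_pow (n + 2) x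
    push_cast at this
    refine HasDerivAt.congr_of_eventuallyEq ?_ h1.symm
    convert this using 2

/-- the kernel `G` on `[0, 5q]` -/
def GG (q t u : ℝ) : ℝ :=
  t / 6 * ((9 * u ^ 2 - 125 * q ^ 2) ^ 2 - 10000 * q * (max (u - 4 * q) 0) ^ 3)

/-- its derivative -/
def GG' (q t u : ℝ) : ℝ :=
  t / 6 * (36 * u * (9 * u ^ 2 - 125 * q ^ 2) - 30000 * q * (max (u - 4 * q) 0) ^ 2)

theorem hasDerivAt_GG (q t u : ℝ) : HasDerivAt (GG q t) (GG' q t u) u := by
  have h1 : HasDerivAt (fun u : ℝ => (max (u - 4 * q) 0) ^ 3)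
      (((1 : ℕ) + 2 : ℝ) * (max (u - 4 * q) 0) ^ 2) u := by
    exact (hasDerivAt_max_pow 1 (u - 4 * q)).comp_sub_const u (4 * q)
  have h2 : HasDerivAt (fun u : ℝ => (9 * u ^ 2 - 125 * q ^ 2) ^ 2)
      (2 * (9 * u ^ 2 - 125 * q ^ 2) * (9 * (2 * u))) u := by
    have h3 : HasDerivAt (fun u : ℝ => 9 * u ^ 2 - 125 * q ^ 2) (9 * (2 * u)) u := by
      have := ((hasDerivAt_pow 2 u).const_mul 9).sub_const (125 * q ^ 2)
      simpa using this
    have := h3.fun_pow 2
    simpa using this
  have h4 := (h2.sub (h1.const_mul (10000 * q))).const_mul (t / 6)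
  refine h4.congr_deriv ?_
  unfold GG'
  push_cast
  ring

theorem hasDerivAt_GG' (q t u : ℝ) (hu : 0 ≤ u) :
    HasDerivAt (GG' q t) (100 * q * dd q t u - 18 * t * PP q u) u := by
  have h1 : HasDerivAt (fun u : ℝ => (max (u - 4 * q) 0) ^ 2)
      (((0 : ℕ) + 2 : ℝ) * (max (u - 4 * q) 0) ^ 1) u := by
    exact (hasDerivAt_max_pow 0 (u - 4 * q)).comp_sub_const u (4 * q)
  have h2 : HasDerivAt (fun u : ℝ => 36 * u * (9 * u ^ 2 - 125 * q ^ 2))
      (36 * (9 * u ^ 2 - 125 * q ^ 2) + 36 * u * (9 * (2 * u))) u := by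
    have h3 : HasDerivAt (fun u : ℝ => 9 * u ^ 2 - 125 * q ^ 2) (9 * (2 * u)) u := by
      have := ((hasDerivAt_pow 2 u).const_mul 9).sub_const (125 * q ^ 2)
      simpa using this
    have h5 : HasDerivAt (fun u : ℝ => 36 * u) 36 u := by
      simpa using (hasDerivAt_id u).const_mul (36 : ℝ)
    exact h5.mul h3
  have h4 := (h2.sub (h1.const_mul (30000 * q))).const_mul (t / 6)
  refine h4.congr_deriv ?_
  unfold dd PP
  rw [abs_of_nonneg hu]
  push_cast
  ring

theorem even_integral {f : ℝ → ℝ} (hf : Continuous f) (he : ∀ x, f (-x) = f x) (a : ℝ) :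
    ∫ x in (-a)..a, f x = 2 * ∫ x in (0 : ℝ)..a, f x := by
  have h1 : ∫ x in (-a)..0, f x = ∫ x in (0 : ℝ)..a, f x := by
    have := intervalIntegral.integral_comp_neg (a := 0) (b := a) f
    rw [neg_zero] at this
    rw [← this]
    simp_rw [he]
  rw [← intervalIntegral.integral_add_adjacent_intervals (hf.intervalIntegrable (-a) 0)
    (hf.intervalIntegrable 0 a), h1]
  ring

/-- the right hand side for even functions -/
theorem rhs_even {q t : ℝ} (hq : 0 < q) {f f' f'' : ℝ → ℝ} (h1 : ∀ x, HasDerivAt f (f' x) x)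
    (h2 : ∀ x, HasDerivAt f' (f'' x) x) (h3 : Continuous f'') (he : ∀ x, f (-x) = f x) :
    100 * q * (∫ x in (-(5 * q))..(5 * q), f x * dd q t x) -
      18 * t * (∫ x in (-(5 * q))..(5 * q), f x * PP q x) +
      f (5 * q) * PP q (5 * q) * dd q t (5 * q) +
      f (-(5 * q)) * PP q (-(5 * q)) * dd q t (-(5 * q)) =
    2 * ∫ x in (0 : ℝ)..(5 * q), f'' x * GG q t x := by
  have hcf : Continuous f := continuous_iff_continuousAt.2 fun x => (h1 x).continuousAt
  have hcf' : Continuous f' := continuous_iff_continuousAt.2 fun x => (h2 x).continuousAt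
  have hcG : Continuous (GG q t) :=
    continuous_iff_continuousAt.2 fun x => (hasDerivAt_GG q t x).continuousAt
  have hcG' : Continuous (GG' q t) := by unfold GG'; fun_prop
  have hf'0 : f' 0 = 0 := by
    have h4 : HasDerivAt (fun x => f (-x)) (-f' 0) 0 := by
      have h5 : HasDerivAt f (f' 0) (-0) := by rw [neg_zero]; exact h1 0
      have h6 : HasDerivAt (fun x => f (-x)) (f' 0 * (-1)) 0 :=
        h5.comp (0 : ℝ) (hasDerivAt_neg (0 : ℝ))
      rwa [mul_neg_one] at h6
    have h5 : (fun x => f (-x)) = f := funext he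
    rw [h5] at h4
    have := h4.unique (h1 0)
    linarith
  have hcd := continuous_dd q t
  have hcP := continuous_PP q
  rw [even_integral (f := fun x => f x * dd q t x) (hcf.mul hcd)
      (fun x => by simp only [he]; unfold dd; rw [abs_neg]),
    even_integral (f := fun x => f x * PP q x) (hcf.mul hcP)
      (fun x => by simp only [he]; unfold PP; ring)]
  have hint : ∀ g : ℝ → ℝ, Continuous g → IntervalIntegrable g volume 0 (5 * q) :=
    fun g hg => hg.intervalIntegrable _ _
  have e1 : 100 * q * (2 * ∫ x in (0 : ℝ)..(5 * q), f x * dd q t x) -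
      18 * t * (2 * ∫ x in (0 : ℝ)..(5 * q), f x * PP q x) =
      2 * ∫ x in (0 : ℝ)..(5 * q), f x * (100 * q * dd q t x - 18 * t * PP q x) := by
    have e2 : ∀ x, f x * (100 * q * dd q t x - 18 * t * PP q x) =
      100 * q * (f x * dd q t x) - 18 * t * (f x * PP q x) := fun x => by ring
    simp_rw [e2]
    rw [intervalIntegral.integral_sub (hint _ (by fun_prop)) (hint _ (by fun_prop)),
      intervalIntegral.integral_const_mul, intervalIntegral.integral_const_mul]
    ring
  rw [e1]
  -- two integrations by parts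
  have e3 : ∫ x in (0 : ℝ)..(5 * q), f x * (100 * q * dd q t x - 18 * t * PP q x) =
      f (5 * q) * GG' q t (5 * q) - f 0 * GG' q t 0 - ∫ x in (0 : ℝ)..(5 * q), f' x * GG' q t x := by
    refine intervalIntegral.integral_mul_deriv_eq_deriv_mul (fun x _ => h1 x) ?_ (hint _ hcf')
      (hint _ (by fun_prop))
    intro x hx
    rw [uIcc_of_le (by positivity)] at hx
    exact hasDerivAt_GG' q t x hx.1
  have e4 : ∫ x in (0 : ℝ)..(5 * q), f' x * GG' q t x =
      f' (5 * q) * GG q t (5 * q) - f' 0 * GG q t 0 - ∫ x in (0 : ℝ)..(5 * q), f'' x * GG q t x :=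
    intervalIntegral.integral_mul_deriv_eq_deriv_mul (fun x _ => h2 x)
      (fun x _ => hasDerivAt_GG q t x) (hint _ h3) (hint _ hcG')
  have e5 : max (5 * q - 4 * q) 0 = q := by rw [max_eq_left (by linarith)]; ring
  have e6 : max (0 - 4 * q) 0 = 0 := max_eq_right (by linarith)
  have e7 : |5 * q| = 5 * q := abs_of_pos (by positivity)
  have g1 : GG q t (5 * q) = 0 := by unfold GG; rw [e5]; ring
  have g2 : GG' q t (5 * q) = - 2000 * t * q ^ 3 := by unfold GG'; rw [e5]; ring
  have g3 : GG' q t 0 = 0 := by unfold GG'; rw [e6]; ring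
  have g4 : dd q t (5 * q) = 5 * t * q := by unfold dd; rw [e7, e5]; ring
  have g5 : dd q t (-(5 * q)) = 5 * t * q := by unfold dd; rw [abs_neg, e7, e5]; ring
  have g6 : PP q (5 * q) = 400 * q ^ 2 := by unfold PP; ring
  have g7 : PP q (-(5 * q)) = 400 * q ^ 2 := by unfold PP; ring
  rw [e3, e4, g1, g2, g3, g4, g5, g6, g7, he, hf'0]
  ring

/-- **T13(e)** -/
theorem final_ineq {q t : ℝ} (hq : 0 < q) (ht : 0 < t) (J Λ : (ℝ → ℝ) → ℝ) (s : ℝ)
    (hΛ : Λ (fun _ => 0) = 0)
    (H1 : ∀ f : ℝ → ℝ, ContDiff ℝ ∞ f → (∀ x, f (-x) = f x) →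
      Λ (deriv (deriv f)) + s * J (fun x => f x * PP q x) = (2 * π) ^ 2 *
      (100 * q * (∫ x in (-(5 * q))..(5 * q), f x * dd q t x) -
      18 * t * (∫ x in (-(5 * q))..(5 * q), f x * PP q x) +
      f (5 * q) * PP q (5 * q) * dd q t (5 * q) +
      f (-(5 * q)) * PP q (-(5 * q)) * dd q t (-(5 * q))))
    (H2 : ∀ k : ℝ → ℝ, ContDiff ℝ ∞ k → J k = (2 * π) ^ 2 *
      ∫ x in (-(5 * q))..(5 * q), k x * dd q t x)
    (H3 : ∃ c > 0, ∀ k : ℝ → ℝ, ContDiff ℝ ∞ k → (∀ x, 0 ≤ k x) →
      (∀ x, 39 / 10 * q ≤ |x| → k x = 0) → c * J k ≤ Λ k) : False := by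
  -- `s = 0`
  have hs : s = 0 := by
    have h1 := H1 (fun _ => 1) contDiff_const (fun _ => rfl)
    rw [rhs_even hq (f' := fun _ => 0) (f'' := fun _ => 0) (fun x => hasDerivAt_const x 1)
      (fun x => hasDerivAt_const x 0) continuous_const (fun _ => rfl)] at h1
    have h2 : deriv (deriv (fun _ : ℝ => (1 : ℝ))) = fun _ => 0 := by
      ext x
      simp
    rw [h2, hΛ] at h1
    simp only [one_mul, zero_mul, intervalIntegral.integral_zero, mul_zero, zero_add] at h1
    rcases mul_eq_zero.1 h1 with h | h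
    · exact h
    · exfalso
      rw [H2 (fun x => PP q x) (by unfold PP; fun_prop)] at h
      have h3 : 0 < ∫ x in (-(5 * q))..(5 * q), PP q x * dd q t x := by
        refine intervalIntegral.intervalIntegral_pos_of_pos_on
          (((continuous_PP q).mul (continuous_dd q t)).intervalIntegrable _ _) ?_ (by linarith)
        intro x hx
        have hx' : |x| < 5 * q := abs_lt.2 hx
        refine mul_pos ?_ ?_
        · unfold PP
          exact mul_pos (by linarith [hx.1]) (by linarith [hx.2])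
        · unfold dd
          have : max (|x| - 4 * q) 0 ≤ q := max_le (by linarith) hq.le
          nlinarith
      have h4 : (0 : ℝ) < (2 * π) ^ 2 := by positivity
      exact (mul_pos h4 h3).ne' h
  obtain ⟨c, hc, H3⟩ := H3
  -- the bump
  set x₀ : ℝ := √125 / 3 * q with hx₀
  have hsq : √125 ^ 2 = 125 := Real.sq_sqrt (by norm_num)
  have hs1 : √125 < 11.2 := by
    rw [Real.sqrt_lt' (by norm_num)]
    norm_num
  have hs2 : 11.1 < √125 := by
    apply Real.lt_sqrt_of_sq_lt
    norm_num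
  have hx0l : 3.6 * q < x₀ := by
    rw [hx₀]
    exact mul_lt_mul_of_pos_right (by linarith) hq
  have hx0u : x₀ < 3.75 * q := by
    rw [hx₀]
    exact mul_lt_mul_of_pos_right (by linarith) hq
  have hx0sq : 9 * x₀ ^ 2 = 125 * q ^ 2 := by
    rw [hx₀, mul_pow, div_pow, hsq]
    ring
  obtain ⟨ε, hε, hε1, hε2⟩ : ∃ ε > 0, ε ≤ q / 10 ∧ 1350 * q ^ 2 * ε ^ 2 < 105 * q * c := by
    refine ⟨min (q / 10) (√(c / (20 * q))), lt_min (by positivity) (by positivity),
      min_le_left _ _, ?_⟩
    have h1 : (min (q / 10) (√(c / (20 * q)))) ^ 2 ≤ c / (20 * q) := by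
      have h2 : (√(c / (20 * q))) ^ 2 = c / (20 * q) := Real.sq_sqrt (by positivity)
      calc (min (q / 10) (√(c / (20 * q)))) ^ 2 ≤ (√(c / (20 * q))) ^ 2 :=
            pow_le_pow_left₀ (le_min (by positivity) (by positivity)) (min_le_right _ _) 2
        _ = _ := h2
    have h3 : 1350 * q ^ 2 * (c / (20 * q)) = 67.5 * q * c := by
      field_simp
      norm_num
    have h4 : 0 < q * c := by positivity
    calc 1350 * q ^ 2 * (min (q / 10) (√(c / (20 * q)))) ^ 2 ≤ 1350 * q ^ 2 * (c / (20 * q)) :=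
          mul_le_mul_of_nonneg_left h1 (by positivity)
      _ = 67.5 * q * c := h3
      _ < 105 * q * c := by nlinarith
  let ψ : ContDiffBump x₀ := ⟨ε / 2, ε, by positivity, by linarith⟩
  have hψs : ContDiff ℝ ∞ ψ := ψ.contDiff
  have hψ0 : ∀ x, ε ≤ |x - x₀| → ψ x = 0 := by
    intro x hx
    apply ψ.zero_of_le_dist
    rw [Real.dist_eq]
    exact hx
  set φ : ℝ → ℝ := fun x => ψ x + ψ (-x) with hφ
  have hφs : ContDiff ℝ ∞ φ := hψs.add (hψs.comp contDiff_neg)
  have hφc : Continuous φ := hφs.continuous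
  have hφe : ∀ x, φ (-x) = φ x := by
    intro x
    rw [hφ]
    simp only [neg_neg]
    exact add_comm _ _
  have hφ0 : ∀ x, 0 ≤ φ x := fun x => add_nonneg ψ.nonneg ψ.nonneg
  -- the function `f`
  set g : ℝ → ℝ := fun x => ∫ y in (0 : ℝ)..x, φ y with hg
  have hg' : ∀ x, HasDerivAt g (φ x) x := fun x =>
    intervalIntegral.integral_hasDerivAt_right (hφc.intervalIntegrable _ _)
      (hφc.stronglyMeasurableAtFilter _ _) hφc.continuousAt
  have hgc : Continuous g := continuous_iff_continuousAt.2 fun x => (hg' x).continuousAt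
  have hgd : deriv g = φ := funext fun x => (hg' x).deriv
  have hgs : ContDiff ℝ ∞ g := by
    rw [contDiff_infty_iff_deriv]
    exact ⟨fun x => (hg' x).differentiableAt, by rw [hgd]; exact hφs⟩
  set f : ℝ → ℝ := fun x => ∫ y in (0 : ℝ)..x, g y with hf
  have hf' : ∀ x, HasDerivAt f (g x) x := fun x =>
    intervalIntegral.integral_hasDerivAt_right (hgc.intervalIntegrable _ _)
      (hgc.stronglyMeasurableAtFilter _ _) hgc.continuousAt
  have hfd : deriv f = g := funext fun x => (hf' x).deriv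
  have hfs : ContDiff ℝ ∞ f := by
    rw [contDiff_infty_iff_deriv]
    exact ⟨fun x => (hf' x).differentiableAt, by rw [hfd]; exact hgs⟩
  have hgo : ∀ x, g (-x) = - g x := by
    intro x
    rw [hg]
    simp only
    have := intervalIntegral.integral_comp_neg (a := 0) (b := x) φ
    rw [neg_zero] at this
    simp_rw [hφe] at this
    rw [intervalIntegral.integral_symm, ← this]
  have hfe : ∀ x, f (-x) = f x := by
    intro x
    rw [hf]
    simp only
    have := intervalIntegral.integral_comp_neg (a := 0) (b := x) g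
    rw [neg_zero] at this
    simp_rw [hgo] at this
    rw [intervalIntegral.integral_neg] at this
    rw [intervalIntegral.integral_symm, ← this, neg_neg]
  have hmain := H1 f hfs hfe
  rw [hfd, hgd, hs, zero_mul, add_zero, rhs_even hq hf' hg' hφc hfe] at hmain
  -- support of `φ`
  have hsupp : ∀ x, 39 / 10 * q ≤ |x| → φ x = 0 := by
    intro x hx
    rw [hφ]
    simp only
    rw [hψ0 x, hψ0 (-x), add_zero]
    · rw [le_abs] at hx ⊢
      rcases hx with h | h
      · right; linarith
      · left; linarith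
    · rw [le_abs] at hx ⊢
      rcases hx with h | h
      · left; linarith
      · right; linarith
  have hlow := H3 φ hφs hφ0 hsupp
  rw [H2 φ hφs, hmain] at hlow
  have hd : ∫ x in (-(5 * q))..(5 * q), φ x * dd q t x =
      105 * t * q * (2 * ∫ x in (0 : ℝ)..(5 * q), φ x) := by
    rw [← even_integral hφc hφe, ← intervalIntegral.integral_const_mul]
    congr 1
    ext x
    by_cases hx : 39 / 10 * q ≤ |x|
    · rw [hsupp x hx]; ring
    · unfold dd
      rw [max_eq_right (by push Not at hx; linarith)]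
      ring
  rw [hd] at hlow
  have hpos : 0 < ∫ x in (0 : ℝ)..(5 * q), φ x := by
    refine intervalIntegral.integral_pos (by positivity) hφc.continuousOn (fun x _ => hφ0 x)
      ⟨x₀, ⟨by linarith, by linarith⟩, ?_⟩
    refine add_pos_of_pos_of_nonneg ?_ ψ.nonneg
    exact ψ.pos_of_mem_ball (by
      rw [Metric.mem_ball, dist_self]
      exact hε)
  have hup : ∫ x in (0 : ℝ)..(5 * q), φ x * GG q t x ≤
      ∫ x in (0 : ℝ)..(5 * q), φ x * (1350 * t * q ^ 2 * ε ^ 2) := by
    have hcG : Continuous (GG q t) :=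
      continuous_iff_continuousAt.2 fun x => (hasDerivAt_GG q t x).continuousAt
    refine intervalIntegral.integral_mono_on (by positivity)
      ((hφc.mul hcG).intervalIntegrable _ _) ((hφc.mul continuous_const).intervalIntegrable _ _) ?_
    intro x hx
    by_cases h : ε ≤ |x - x₀|
    · have h1 : φ x = 0 := by
        rw [hφ]
        simp only
        rw [hψ0 x h, hψ0 (-x), add_zero]
        rw [le_abs]
        right
        linarith [hx.1]
      rw [h1, zero_mul, zero_mul]
    · refine mul_le_mul_of_nonneg_left ?_ (hφ0 x)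
      rw [not_le, abs_lt] at h
      have h1 : 0 ≤ 10000 * q * (max (x - 4 * q) 0) ^ 3 := by
        have : 0 ≤ max (x - 4 * q) 0 := le_max_right _ _
        positivity
      have h2 : (9 * x ^ 2 - 125 * q ^ 2) ^ 2 ≤ 8100 * q ^ 2 * ε ^ 2 := by
        have h3 : 9 * x ^ 2 - 125 * q ^ 2 = 9 * (x - x₀) * (x + x₀) := by
          rw [← hx0sq]; ring
        rw [h3]
        have h4 : (x - x₀) ^ 2 ≤ ε ^ 2 := by nlinarith
        have h5 : (x + x₀) ^ 2 ≤ (10 * q) ^ 2 := by
          apply pow_le_pow_left₀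
          · linarith [hx.1]
          · linarith [hx.2]
        have h6 : (9 * (x - x₀) * (x + x₀)) ^ 2 = 81 * ((x - x₀) ^ 2 * (x + x₀) ^ 2) := by ring
        have h7 : (x - x₀) ^ 2 * (x + x₀) ^ 2 ≤ ε ^ 2 * (10 * q) ^ 2 :=
          mul_le_mul h4 h5 (by positivity) (by positivity)
        rw [h6]
        linarith
      have h8 : GG q t x ≤ t / 6 * (8100 * q ^ 2 * ε ^ 2) := by
        unfold GG
        exact mul_le_mul_of_nonneg_left (by linarith) (by positivity)
      linarith
  rw [intervalIntegral.integral_mul_const] at hup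
  set S := ∫ x in (0 : ℝ)..(5 * q), φ x with hS
  set R := ∫ x in (0 : ℝ)..(5 * q), φ x * GG q t x with hR
  have hpi : (0 : ℝ) < (2 * π) ^ 2 := by positivity
  have h9 : c * (105 * t * q * (2 * S)) ≤ 2 * R := by
    have : (2 * π) ^ 2 * (c * (105 * t * q * (2 * S))) ≤ (2 * π) ^ 2 * (2 * R) := by linarith
    exact le_of_mul_le_mul_left this hpi
  have h10 : S * (t * (105 * q * c - 1350 * q ^ 2 * ε ^ 2)) ≤ 0 := by nlinarith
  have h11 : 0 < S * (t * (105 * q * c - 1350 * q ^ 2 * ε ^ 2)) := by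
    apply mul_pos hpos
    apply mul_pos ht
    linarith
  linarith

end

end Pool.Agent.YTDA
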