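import Mathlib

/-!
# Holomorphic vector fields on the four charts over a disc: pointwise structure

`W b₁ b₂ w z₁ z₂` are the components (`s`, `w`, `z₁`, `z₂`) of a holomorphic vector field at the
point `(s, w, z₁, z₂)` (for fixed `s`) of the chart `(b₁, b₂)`.
-/

set_option autoImplicit false

namespace Pool.Agent.YTDA

open Complex Set Topology Filter Metric

noncomputable section

namespace FldLoc

theorem inv_tendsto : Tendsto (fun z : ℂ => z⁻¹) (cocompact ℂ) (𝓝 0) := by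
  rw [← Metric.cobounded_eq_cocompact]; exact tendsto_inv₀_cobounded

theorem ne_zero_ev : ∀ᶠ z : ℂ in cocompact ℂ, z ≠ 0 :=
  (isCompact_singleton (x := (0 : ℂ))).compl_mem_cocompact

theorem norm_ev (R : ℝ) : ∀ᶠ z : ℂ in cocompact ℂ, R < ‖z‖ := by
  have := (isCompact_closedBall (0 : ℂ) R).compl_mem_cocompact
  filter_upwards [this] with z hz
  simpa using hz

theorem liou0 {f : ℂ → ℂ} (hf : Differentiable ℂ f) {c : ℂ}
    (h : Tendsto f (cocompact ℂ) (𝓝 c)) (z : ℂ) : f z = c :=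
  hf.apply_eq_of_tendsto_cocompact z h

theorem liouB {f : ℂ → ℂ} (hf : Differentiable ℂ f) {M : ℝ}
    (h : ∀ᶠ z in cocompact ℂ, ‖f z‖ ≤ M) (z w : ℂ) : f z = f w := by
  refine hf.apply_eq_apply_of_bounded ?_ z w
  obtain ⟨t, ht, hts⟩ := mem_cocompact.1 h
  have h1 : Bornology.IsBounded (f '' t) := (ht.image hf.continuous).isBounded
  have h2 : Bornology.IsBounded (f '' {z | ‖f z‖ ≤ M}) := by
    refine isBounded_closedBall.subset (s := f '' {z | ‖f z‖ ≤ M}) (t := closedBall 0 M) ?_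
    rintro _ ⟨z, hz, rfl⟩
    simpa using hz
  refine (h1.union h2).subset ?_
  rintro _ ⟨z, rfl⟩
  by_cases hz : z ∈ t
  · exact Or.inl ⟨z, hz, rfl⟩
  · exact Or.inr ⟨z, hts hz, rfl⟩

theorem diff_dslope {f : ℂ → ℂ} (hf : Differentiable ℂ f) : Differentiable ℂ (dslope f 0) := by
  rw [← differentiableOn_univ] at hf ⊢
  exact (Complex.differentiableOn_dslope univ_mem).2 hf

theorem eq_dslope (f : ℂ → ℂ) (z : ℂ) : f z = f 0 + z * dslope f 0 z := by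
  have := sub_smul_dslope f 0 z
  rw [sub_zero, smul_eq_mul] at this
  rw [this]; ring

theorem dslope_eq (f : ℂ → ℂ) {z : ℂ} (hz : z ≠ 0) : dslope f 0 z = (f z - f 0) / z := by
  rw [eq_div_iff hz, mul_comm]
  have := eq_dslope f z
  rw [this]; ring

theorem liou1 {f : ℂ → ℂ} (hf : Differentiable ℂ f) {c : ℂ}
    (h : Tendsto (fun z => f z / z) (cocompact ℂ) (𝓝 c)) (z : ℂ) : f z = f 0 + c * z := by
  have ht : Tendsto (dslope f 0) (cocompact ℂ) (𝓝 c) := by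
    have h1 : ∀ᶠ z in cocompact ℂ, f z / z - f 0 * z⁻¹ = dslope f 0 z := by
      filter_upwards [ne_zero_ev] with z hz
      rw [dslope_eq f hz]; field_simp
    refine Tendsto.congr' h1 ?_
    have := h.sub (inv_tendsto.const_mul (f 0))
    rwa [mul_zero, sub_zero] at this
  rw [eq_dslope f z, liou0 (diff_dslope hf) ht z]
  ring

theorem liou2 {f : ℂ → ℂ} (hf : Differentiable ℂ f) {c : ℂ}
    (h : Tendsto (fun z => f z / z ^ 2) (cocompact ℂ) (𝓝 c)) (z : ℂ) :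
    f z = f 0 + deriv f 0 * z + c * z ^ 2 := by
  have ht : Tendsto (fun z => dslope f 0 z / z) (cocompact ℂ) (𝓝 c) := by
    have h1 : ∀ᶠ z in cocompact ℂ, f z / z ^ 2 - f 0 * (z⁻¹ * z⁻¹) = dslope f 0 z / z := by
      filter_upwards [ne_zero_ev] with z hz
      rw [dslope_eq f hz]; field_simp
    refine Tendsto.congr' h1 ?_
    have := h.sub ((inv_tendsto.mul inv_tendsto).const_mul (f 0))
    rwa [mul_zero, mul_zero, sub_zero] at this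
  rw [eq_dslope f z, liou1 (diff_dslope hf) ht z, dslope_same]
  ring

/-- the transition relations -/
structure Loc (W : Bool → Bool → ℂ → ℂ → ℂ → Fin 4 → ℂ) : Prop where
  diff : ∀ b₁ b₂ i, Differentiable ℂ (fun p : ℂ × ℂ × ℂ => W b₁ b₂ p.1 p.2.1 p.2.2 i)
  t1 : ∀ b₂ w z₁ z₂, z₁ ≠ 0 → W true b₂ (z₁ ^ 3 * w) z₁⁻¹ z₂ =
    ![W false b₂ w z₁ z₂ 0, z₁ ^ 3 * W false b₂ w z₁ z₂ 1 + 3 * z₁ ^ 2 * w * W false b₂ w z₁ z₂ 2,
      -W false b₂ w z₁ z₂ 2 / z₁ ^ 2, W false b₂ w z₁ z₂ 3]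
  t2 : ∀ b₁ w z₁ z₂, z₂ ≠ 0 → W b₁ true (w / z₂ ^ 3) z₁ z₂⁻¹ =
    ![W b₁ false w z₁ z₂ 0,
      W b₁ false w z₁ z₂ 1 / z₂ ^ 3 - 3 * w * W b₁ false w z₁ z₂ 3 / z₂ ^ 4,
      W b₁ false w z₁ z₂ 2, -W b₁ false w z₁ z₂ 3 / z₂ ^ 2]

namespace Loc

variable {W : Bool → Bool → ℂ → ℂ → ℂ → Fin 4 → ℂ} (h : Loc W)

include h

theorem dw (b₁ b₂ : Bool) (i : Fin 4) (z₁ z₂ : ℂ) :
    Differentiable ℂ (fun w => W b₁ b₂ w z₁ z₂ i) :=
  (h.diff b₁ b₂ i).comp (g := fun p : ℂ × ℂ × ℂ => W b₁ b₂ p.1 p.2.1 p.2.2 i)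
    (f := fun w : ℂ => (w, z₁, z₂)) (by fun_prop)

theorem d1 (b₁ b₂ : Bool) (i : Fin 4) (w z₂ : ℂ) :
    Differentiable ℂ (fun z₁ => W b₁ b₂ w z₁ z₂ i) :=
  (h.diff b₁ b₂ i).comp (g := fun p : ℂ × ℂ × ℂ => W b₁ b₂ p.1 p.2.1 p.2.2 i)
    (f := fun z₁ : ℂ => (w, z₁, z₂)) (by fun_prop)

theorem d2 (b₁ b₂ : Bool) (i : Fin 4) (w z₁ : ℂ) :
    Differentiable ℂ (fun z₂ => W b₁ b₂ w z₁ z₂ i) :=
  (h.diff b₁ b₂ i).comp (g := fun p : ℂ × ℂ × ℂ => W b₁ b₂ p.1 p.2.1 p.2.2 i)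
    (f := fun z₂ : ℂ => (w, z₁, z₂)) (by fun_prop)

/-- limit at infinity in the direction `z₂` -/
theorem lim2 (b₁ b₂ : Bool) (i : Fin 4) (w z₁ : ℂ) :
    Tendsto (fun z => W b₁ b₂ (w / z ^ 3) z₁ z⁻¹ i) (cocompact ℂ) (𝓝 (W b₁ b₂ 0 z₁ 0 i)) := by
  have h1 : Tendsto (fun z : ℂ => (w / z ^ 3, z₁, z⁻¹)) (cocompact ℂ)
      (𝓝 ((0 : ℂ), z₁, (0 : ℂ))) := by
    refine Tendsto.prodMk_nhds ?_ (Tendsto.prodMk_nhds tendsto_const_nhds inv_tendsto)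
    have h2 := ((inv_tendsto.pow 3).const_mul w)
    rw [zero_pow (by norm_num), mul_zero] at h2
    refine h2.congr fun z => ?_
    rw [inv_pow, div_eq_mul_inv]
  exact ((h.diff b₁ b₂ i).continuous.tendsto ((0 : ℂ), z₁, (0 : ℂ))).comp h1

theorem lim1 (b₁ b₂ : Bool) (i : Fin 4) (z₂ : ℂ) :
    Tendsto (fun z => W b₁ b₂ 0 z⁻¹ z₂ i) (cocompact ℂ) (𝓝 (W b₁ b₂ 0 0 z₂ i)) := by
  have h1 : Tendsto (fun z : ℂ => ((0 : ℂ), z⁻¹, z₂)) (cocompact ℂ)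
      (𝓝 ((0 : ℂ), (0 : ℂ), z₂)) :=
    Tendsto.prodMk_nhds tendsto_const_nhds (Tendsto.prodMk_nhds inv_tendsto tendsto_const_nhds)
  exact ((h.diff b₁ b₂ i).continuous.tendsto ((0 : ℂ), (0 : ℂ), z₂)).comp h1

/-- the component `s` -/
theorem comp0 (w z₁ z₂ : ℂ) : W false false w z₁ z₂ 0 = W false false 0 0 0 0 := by
  have key : ∀ w z₁ z₂, W false false w z₁ z₂ 0 = W false true 0 z₁ 0 0 := by
    intro w z₁ z₂
    refine liou0 (h.d2 false false 0 w z₁) (Tendsto.congr' ?_ (h.lim2 false true 0 w z₁)) z₂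
    filter_upwards [ne_zero_ev] with z hz
    rw [h.t2 false w z₁ z hz]; rfl
  have k2 : ∀ z₁, W false false 0 z₁ 0 0 = W true false 0 0 0 0 := by
    intro z₁
    refine liou0 (h.d1 false false 0 0 0) (Tendsto.congr' ?_ (h.lim1 true false 0 0)) z₁
    filter_upwards [ne_zero_ev] with z hz
    have := h.t1 false 0 z 0 hz
    rw [mul_zero] at this
    rw [this]; rfl
  rw [key w z₁ z₂, ← key 0 z₁ 0, k2 z₁, k2 0]

/-- the component `z₁` -/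
theorem comp2 : ∃ p₀ p₁ p₂ : ℂ, ∀ w z₁ z₂,
    W false false w z₁ z₂ 2 = p₀ + p₁ * z₁ + p₂ * z₁ ^ 2 := by
  have key : ∀ w z₁ z₂, W false false w z₁ z₂ 2 = W false true 0 z₁ 0 2 := by
    intro w z₁ z₂
    refine liou0 (h.d2 false false 2 w z₁) (Tendsto.congr' ?_ (h.lim2 false true 2 w z₁)) z₂
    filter_upwards [ne_zero_ev] with z hz
    rw [h.t2 false w z₁ z hz]; rfl
  have k2 : Tendsto (fun z => W false false 0 z 0 2 / z ^ 2) (cocompact ℂ)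
      (𝓝 (-W true false 0 0 0 2)) := by
    refine Tendsto.congr' ?_ (h.lim1 true false 2 0).neg
    filter_upwards [ne_zero_ev] with z hz
    have := h.t1 false 0 z 0 hz
    rw [mul_zero] at this
    rw [this]
    show -(-W false false 0 z 0 2 / z ^ 2) = _
    ring
  refine ⟨W false false 0 0 0 2, deriv (fun z => W false false 0 z 0 2) 0,
    -W true false 0 0 0 2, fun w z₁ z₂ => ?_⟩
  rw [key w z₁ z₂, ← key 0 z₁ 0]
  exact liou2 (h.d1 false false 2 0 0) k2 z₁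

/-- Schwarz lemma in the variable `w` -/
theorem schwarz (b₁ b₂ : Bool) (i : Fin 4) (z₁ : ℂ) : ∃ K : ℝ, 0 ≤ K ∧ ∀ v u : ℂ, ‖v‖ < 1 →
    ‖u‖ ≤ 1 → ‖W b₁ b₂ v z₁ u i - W b₁ b₂ 0 z₁ u i‖ ≤ K * ‖v‖ := by
  have hc : Continuous fun p : ℂ × ℂ => W b₁ b₂ p.1 z₁ p.2 i :=
    (h.diff b₁ b₂ i).continuous.comp (f := fun p : ℂ × ℂ => (p.1, z₁, p.2)) (by fun_prop)
  obtain ⟨M, hM⟩ := ((isCompact_closedBall (0 : ℂ) 1).prod
    (isCompact_closedBall (0 : ℂ) 1)).exists_bound_of_continuousOn hc.continuousOn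
  refine ⟨2 * |M|, by positivity, fun v u hv hu => ?_⟩
  have hMv : ∀ v : ℂ, ‖v‖ < 1 → ‖W b₁ b₂ v z₁ u i‖ ≤ |M| := by
    intro v hv
    refine (hM (v, u) ⟨?_, ?_⟩).trans (le_abs_self M)
    · simpa using hv.le
    · simpa using hu
  have h1 := Complex.dist_le_div_mul_dist_of_mapsTo_ball (f := fun v => W b₁ b₂ v z₁ u i)
    (c := 0) (R₁ := 1) (R₂ := 2 * |M|) (z := v) (h.dw b₁ b₂ i z₁ u).differentiableOn ?_
    (by simpa using hv)
  · rw [dist_eq_norm, dist_eq_norm, div_one, sub_zero] at h1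
    exact h1
  · intro v' hv'
    rw [mem_closedBall, dist_eq_norm]
    have a1 := hMv v' (by simpa using hv')
    have a2 := hMv 0 (by simp)
    calc _ ≤ ‖W b₁ b₂ v' z₁ u i‖ + ‖W b₁ b₂ 0 z₁ u i‖ := norm_sub_le _ _
      _ ≤ _ := by linarith

omit h in
/-- eventually we are in the domain of the Schwarz lemma -/
theorem ev_small (w : ℂ) : ∀ᶠ z : ℂ in cocompact ℂ, z ≠ 0 ∧ ‖w / z ^ 3‖ < 1 ∧ ‖z⁻¹‖ ≤ 1 := by
  filter_upwards [norm_ev (max 1 ‖w‖)] with z hz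
  have h1 : 1 < ‖z‖ := (le_max_left _ _).trans_lt hz
  have h2 : ‖w‖ < ‖z‖ := (le_max_right _ _).trans_lt hz
  refine ⟨fun h0 => ?_, ?_, ?_⟩
  · rw [h0, norm_zero] at h1; linarith
  · rw [norm_div, norm_pow, div_lt_one (by positivity)]
    have : ‖z‖ ≤ ‖z‖ ^ 3 := by
      calc ‖z‖ = ‖z‖ ^ 1 := (pow_one _).symm
        _ ≤ ‖z‖ ^ 3 := pow_le_pow_right₀ h1.le (by norm_num)
    linarith
  · rw [norm_inv]; exact inv_le_one_of_one_le₀ h1.le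

/-- the component `z₂` does not depend on `w` -/
theorem comp3_w (b₁ : Bool) (w z₁ z₂ : ℂ) : W b₁ false w z₁ z₂ 3 = W b₁ false 0 z₁ z₂ 3 := by
  obtain ⟨K, hK, hKb⟩ := h.schwarz b₁ true 3 z₁
  have hd : Differentiable ℂ fun z₂ => W b₁ false w z₁ z₂ 3 - W b₁ false 0 z₁ z₂ 3 :=
    (h.d2 b₁ false 3 w z₁).sub (h.d2 b₁ false 3 0 z₁)
  have ht : Tendsto (fun z₂ => W b₁ false w z₁ z₂ 3 - W b₁ false 0 z₁ z₂ 3) (cocompact ℂ)
      (𝓝 0) := by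
    have hb : Tendsto (fun z : ℂ => K * ‖w‖ * ‖z⁻¹‖) (cocompact ℂ) (𝓝 0) := by
      have := (inv_tendsto.norm).const_mul (K * ‖w‖)
      rwa [norm_zero, mul_zero] at this
    refine squeeze_zero_norm' ?_ hb
    filter_upwards [ev_small w] with z hz
    obtain ⟨hz0, hz1, hz2⟩ := hz
    have e1 := congrFun (h.t2 b₁ w z₁ z hz0) 3
    have e2 := congrFun (h.t2 b₁ 0 z₁ z hz0) 3
    rw [zero_div] at e2
    have e1' : W b₁ false w z₁ z 3 = -(z ^ 2) * W b₁ true (w / z ^ 3) z₁ z⁻¹ 3 := by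
      rw [e1]
      show _ = -(z ^ 2) * (-W b₁ false w z₁ z 3 / z ^ 2)
      field_simp
    have e2' : W b₁ false 0 z₁ z 3 = -(z ^ 2) * W b₁ true 0 z₁ z⁻¹ 3 := by
      rw [e2]
      show _ = -(z ^ 2) * (-W b₁ false 0 z₁ z 3 / z ^ 2)
      field_simp
    rw [e1', e2', ← mul_sub, norm_mul, norm_neg, norm_pow]
    have e3 := hKb (w / z ^ 3) z⁻¹ hz1 hz2
    have hzn : 0 < ‖z‖ := norm_pos_iff.2 hz0
    calc ‖z‖ ^ 2 * ‖W b₁ true (w / z ^ 3) z₁ z⁻¹ 3 - W b₁ true 0 z₁ z⁻¹ 3‖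
        ≤ ‖z‖ ^ 2 * (K * ‖w / z ^ 3‖) := mul_le_mul_of_nonneg_left e3 (by positivity)
      _ = K * ‖w‖ * ‖z⁻¹‖ := by
        rw [norm_div, norm_pow, norm_inv]; field_simp
  have := liou0 hd ht z₂
  exact sub_eq_zero.1 this

/-- the component `z₂` -/
theorem comp3 : ∃ q₀ q₁ q₂ : ℂ, ∀ b₁ w z₁ z₂,
    W b₁ false w z₁ z₂ 3 = q₀ + q₁ * z₂ + q₂ * z₂ ^ 2 := by
  -- independence of `z₁`
  have k1 : ∀ z₁ z₂, W false false 0 z₁ z₂ 3 = W true false 0 0 z₂ 3 := by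
    intro z₁ z₂
    refine liou0 (h.d1 false false 3 0 z₂) (Tendsto.congr' ?_ (h.lim1 true false 3 z₂)) z₁
    filter_upwards [ne_zero_ev] with z hz
    have := h.t1 false 0 z z₂ hz
    rw [mul_zero] at this
    rw [this]; rfl
  have k1' : ∀ z₁ z₂, W true false 0 z₁ z₂ 3 = W true false 0 0 z₂ 3 := by
    intro z₁ z₂
    by_cases hz : z₁ = 0
    · rw [hz]
    · have := congrFun (h.t1 false 0 z₁⁻¹ z₂ (inv_ne_zero hz)) 3
      rw [mul_zero, inv_inv] at this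
      rw [this]
      exact k1 _ _
  have k2 : Tendsto (fun z => W true false 0 0 z 3 / z ^ 2) (cocompact ℂ)
      (𝓝 (-W true true 0 0 0 3)) := by
    have h3 := h.lim2 true true 3 0 0
    refine Tendsto.congr' ?_ h3.neg
    filter_upwards [ne_zero_ev] with z hz
    rw [h.t2 true 0 0 z hz]
    show -(-W true false 0 0 z 3 / z ^ 2) = _
    ring
  refine ⟨W true false 0 0 0 3, deriv (fun z => W true false 0 0 z 3) 0,
    -W true true 0 0 0 3, fun b₁ w z₁ z₂ => ?_⟩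
  have e : W b₁ false w z₁ z₂ 3 = W true false 0 0 z₂ 3 := by
    rw [h.comp3_w b₁ w z₁ z₂]
    cases b₁
    · exact k1 z₁ z₂
    · exact k1' z₁ z₂
  rw [e]
  exact liou2 (h.d2 true false 3 0 0) k2 z₂

/-- the component `w` vanishes on `w = 0` -/
theorem comp1_zero (b₁ b₂ : Bool) (z₁ z₂ : ℂ) : W b₁ b₂ 0 z₁ z₂ 1 = 0 := by
  have kF : ∀ z₁, W false b₂ 0 z₁ z₂ 1 = 0 := by
    intro z₁
    have h1 : Tendsto (fun z : ℂ => (z⁻¹) ^ 3 * W true b₂ 0 z⁻¹ z₂ 1) (cocompact ℂ) (𝓝 0) := by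
      have := (inv_tendsto.pow 3).mul (h.lim1 true b₂ 1 z₂)
      rwa [zero_pow (by norm_num), zero_mul] at this
    refine liou0 (h.d1 false b₂ 1 0 z₂) (Tendsto.congr' ?_ h1) z₁
    filter_upwards [ne_zero_ev] with z hz
    have := h.t1 b₂ 0 z z₂ hz
    rw [mul_zero] at this
    rw [this]
    show (z⁻¹) ^ 3 * (z ^ 3 * W false b₂ 0 z z₂ 1 + 3 * z ^ 2 * 0 * W false b₂ 0 z z₂ 2) = _
    field_simp
    ring
  cases b₁
  · exact kF z₁
  · -- density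
    have hne : ∀ z, z ≠ 0 → W true b₂ 0 z z₂ 1 = 0 := by
      intro z hz
      have := congrFun (h.t1 b₂ 0 z⁻¹ z₂ (inv_ne_zero hz)) 1
      rw [mul_zero, inv_inv] at this
      rw [this]
      show (z⁻¹) ^ 3 * W false b₂ 0 z⁻¹ z₂ 1 + 3 * z⁻¹ ^ 2 * 0 * W false b₂ 0 z⁻¹ z₂ 2 = 0
      rw [kF]; ring
    have hd : Dense {z : ℂ | z ≠ 0} := dense_compl_singleton 0
    have := Continuous.ext_on hd (h.d1 true b₂ 1 0 z₂).continuous continuous_const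
      (fun z hz => hne z hz)
    exact congrFun this z₁

/-- the component `w` -/
theorem comp1_lin {q₀ q₁ q₂ : ℂ} (hq : ∀ b₁ w z₁ z₂,
    W b₁ false w z₁ z₂ 3 = q₀ + q₁ * z₂ + q₂ * z₂ ^ 2) (b₁ : Bool) (w z₁ z₂ : ℂ) :
    W b₁ false w z₁ z₂ 1 = w * (W b₁ false 1 z₁ 0 1 + 3 * q₂ * z₂) := by
  have ht2 : ∀ w z, z ≠ 0 → W b₁ false w z₁ z 1 - 3 * w * q₂ * z =
      z ^ 3 * W b₁ true (w / z ^ 3) z₁ z⁻¹ 1 + 3 * w * (q₀ * z⁻¹ + q₁) := by
    intro w z hz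
    have e1 := congrFun (h.t2 b₁ w z₁ z hz) 1
    rw [e1]
    show _ = z ^ 3 * (W b₁ false w z₁ z 1 / z ^ 3 - 3 * w * W b₁ false w z₁ z 3 / z ^ 4) +
      3 * w * (q₀ * z⁻¹ + q₁)
    rw [hq]
    field_simp
    ring
  -- first step: dependence on `z₂`
  have s1 : ∀ w z, W b₁ false w z₁ z 1 - 3 * w * q₂ * z = W b₁ false w z₁ 0 1 := by
    intro w z
    obtain ⟨K, hK, hKb⟩ := h.schwarz b₁ true 1 z₁
    have hd : Differentiable ℂ fun z => W b₁ false w z₁ z 1 - 3 * w * q₂ * z :=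
      (h.d2 b₁ false 1 w z₁).sub (by fun_prop)
    have hb : ∀ᶠ z in cocompact ℂ, ‖W b₁ false w z₁ z 1 - 3 * w * q₂ * z‖ ≤
        K * ‖w‖ + 3 * ‖w‖ * (‖q₀‖ + ‖q₁‖) := by
      filter_upwards [ev_small w] with z hz
      obtain ⟨hz0, hz1, hz2⟩ := hz
      rw [ht2 w z hz0]
      have e3 := hKb (w / z ^ 3) z⁻¹ hz1 hz2
      rw [h.comp1_zero, sub_zero] at e3
      have hzn : 0 < ‖z‖ := norm_pos_iff.2 hz0
      refine (norm_add_le _ _).trans (add_le_add ?_ ?_)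
      · rw [norm_mul, norm_pow]
        calc ‖z‖ ^ 3 * ‖W b₁ true (w / z ^ 3) z₁ z⁻¹ 1‖ ≤ ‖z‖ ^ 3 * (K * ‖w / z ^ 3‖) :=
              mul_le_mul_of_nonneg_left e3 (by positivity)
          _ = K * ‖w‖ := by rw [norm_div, norm_pow]; field_simp
      · rw [norm_mul, norm_mul]
        have : ‖q₀ * z⁻¹ + q₁‖ ≤ ‖q₀‖ + ‖q₁‖ := by
          refine (norm_add_le _ _).trans (add_le_add ?_ le_rfl)
          rw [norm_mul]
          calc ‖q₀‖ * ‖z⁻¹‖ ≤ ‖q₀‖ * 1 := mul_le_mul_of_nonneg_left hz2 (norm_nonneg _)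
            _ = _ := mul_one _
        have h3 : ‖(3 : ℂ)‖ = 3 := by simp
        rw [h3]
        exact mul_le_mul_of_nonneg_left this (by positivity)
    have := liouB hd hb z 0
    rw [this]; ring
  -- second step: linearity in `w`
  have hdk : Differentiable ℂ (dslope (fun w => W b₁ false w z₁ 0 1) 0) :=
    diff_dslope (h.dw b₁ false 1 z₁ 0)
  have hk0 : W b₁ false 0 z₁ 0 1 = 0 := h.comp1_zero b₁ false z₁ 0
  have hc : Continuous fun u : ℂ => W b₁ true 1 z₁ u 1 := (h.d2 b₁ true 1 1 z₁).continuous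
  obtain ⟨M, hM⟩ := (isCompact_closedBall (0 : ℂ) 1).exists_bound_of_continuousOn hc.continuousOn
  have hb : ∀ᶠ w in cocompact ℂ, ‖dslope (fun w => W b₁ false w z₁ 0 1) 0 w‖ ≤
      M + 3 * (‖q₀‖ + ‖q₁‖) := by
    filter_upwards [norm_ev 1] with w hw
    have hw0 : w ≠ 0 := by rintro rfl; rw [norm_zero] at hw; linarith
    obtain ⟨z, hz⟩ := IsAlgClosed.exists_pow_nat_eq w (n := 3) (by norm_num)
    have hz0 : z ≠ 0 := by rintro rfl; rw [zero_pow (by norm_num)] at hz; exact hw0 hz.symm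
    have hz1 : 1 ≤ ‖z‖ := by
      by_contra hlt
      push Not at hlt
      have : ‖w‖ ≤ 1 := by
        rw [← hz, norm_pow]
        exact pow_le_one₀ (norm_nonneg _) hlt.le
      linarith
    have hz2 : ‖z⁻¹‖ ≤ 1 := by rw [norm_inv]; exact inv_le_one_of_one_le₀ hz1
    rw [dslope_eq _ hw0, hk0, sub_zero, ← s1 w z, ht2 w z hz0, hz, div_self hw0]
    have e4 : (w * W b₁ true 1 z₁ z⁻¹ 1 + 3 * w * (q₀ * z⁻¹ + q₁)) / w =
        W b₁ true 1 z₁ z⁻¹ 1 + 3 * (q₀ * z⁻¹ + q₁) := by field_simp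
    rw [e4]
    refine (norm_add_le _ _).trans (add_le_add (hM _ (by simpa using hz2)) ?_)
    rw [norm_mul]
    have : ‖q₀ * z⁻¹ + q₁‖ ≤ ‖q₀‖ + ‖q₁‖ := by
      refine (norm_add_le _ _).trans (add_le_add ?_ le_rfl)
      rw [norm_mul]
      calc ‖q₀‖ * ‖z⁻¹‖ ≤ ‖q₀‖ * 1 := mul_le_mul_of_nonneg_left hz2 (norm_nonneg _)
        _ = _ := mul_one _
    have h3 : ‖(3 : ℂ)‖ = 3 := by simp
    rw [h3]
    exact mul_le_mul_of_nonneg_left this (by norm_num)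
  have s2 : W b₁ false w z₁ 0 1 = w * W b₁ false 1 z₁ 0 1 := by
    have e1 := eq_dslope (fun w => W b₁ false w z₁ 0 1) w
    have e2 := eq_dslope (fun w => W b₁ false w z₁ 0 1) 1
    simp only [hk0, zero_add, one_mul] at e1 e2
    rw [e1, liouB hdk hb w 1, ← e2]
  have := s1 w z₂
  rw [s2] at this
  linear_combination this

/-- the structure of holomorphic vector fields over a fixed point `s` -/
theorem main : ∃ α e p₀ p₁ p₂ q₀ q₁ q₂ : ℂ, ∀ w z₁ z₂, W false false w z₁ z₂ =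
    ![α, w * (e - 3 * p₂ * z₁ + 3 * q₂ * z₂), p₀ + p₁ * z₁ + p₂ * z₁ ^ 2,
      q₀ + q₁ * z₂ + q₂ * z₂ ^ 2] := by
  obtain ⟨p₀, p₁, p₂, hp⟩ := h.comp2
  obtain ⟨q₀, q₁, q₂, hq⟩ := h.comp3
  have hl := h.comp1_lin hq
  have key : ∀ z₁, W false false 1 z₁ 0 1 + 3 * p₂ * z₁ = W true false 1 0 0 1 - 3 * p₁ := by
    intro z₁
    have hd : Differentiable ℂ fun z₁ => W false false 1 z₁ 0 1 + 3 * p₂ * z₁ :=
      (h.d1 false false 1 1 0).add (by fun_prop)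
    have h1 : Tendsto (fun z : ℂ => W true false 1 z⁻¹ 0 1 - 3 * p₀ * z⁻¹ - 3 * p₁) (cocompact ℂ)
        (𝓝 (W true false 1 0 0 1 - 3 * p₁)) := by
      have a1 : Tendsto (fun z : ℂ => W true false 1 z⁻¹ 0 1) (cocompact ℂ)
          (𝓝 (W true false 1 0 0 1)) :=
        ((h.d1 true false 1 1 0).continuous.tendsto 0).comp inv_tendsto
      have a2 := (a1.sub (inv_tendsto.const_mul (3 * p₀))).sub_const (3 * p₁)
      rwa [mul_zero, sub_zero] at a2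
    refine liou0 hd (Tendsto.congr' ?_ h1) z₁
    filter_upwards [ne_zero_ev] with z hz
    have e1 := congrFun (h.t1 false 1 z 0 hz) 1
    have e2 : W true false (z ^ 3 * 1) z⁻¹ 0 1 = z ^ 3 * W true false 1 z⁻¹ 0 1 := by
      rw [hl true (z ^ 3 * 1) z⁻¹ 0]; ring
    rw [e2] at e1
    have e3 : z ^ 3 * W true false 1 z⁻¹ 0 1 =
        z ^ 3 * W false false 1 z 0 1 + 3 * z ^ 2 * 1 * W false false 1 z 0 2 := e1
    rw [hp] at e3
    have hz3 : z ^ 3 ≠ 0 := pow_ne_zero 3 hz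
    apply mul_left_cancel₀ hz3
    have e4 : z ^ 3 * (W true false 1 z⁻¹ 0 1 - 3 * p₀ * z⁻¹ - 3 * p₁) =
        z ^ 3 * W true false 1 z⁻¹ 0 1 - 3 * p₀ * z ^ 2 - 3 * p₁ * z ^ 3 := by
      field_simp
    rw [e4, e3]
    ring
  refine ⟨W false false 0 0 0 0, W true false 1 0 0 1 - 3 * p₁, p₀, p₁, p₂, q₀, q₁, q₂,
    fun w z₁ z₂ => ?_⟩
  ext i
  fin_cases i
  · exact h.comp0 w z₁ z₂
  · show W false false w z₁ z₂ 1 = w * (W true false 1 0 0 1 - 3 * p₁ - 3 * p₂ * z₁ + 3 * q₂ * z₂)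
    rw [hl false w z₁ z₂]
    linear_combination w * key z₁
  · exact hp w z₁ z₂
  · exact hq false w z₁ z₂

end Loc

end FldLoc

end

end Pool.Agent.YTDA
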