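import Pool.Agent.YTDA.Curve
import Pool.Agent.YTDA.FldLoc

/-!
# Holomorphic vector fields on the fourfold `X`
-/

set_option autoImplicit false

namespace Pool.Agent.YTDA

open Complex Set Topology Filter Metric
open Pool.Agent.YTD

noncomputable section

/-! ## General lemmas on atlases -/

namespace PolAtlas

variable {n : ℕ} {Y : Type} [MulAction ℂˣ Y] {A : PolAtlas n Y}

theorem mem_O_mk {a b : A.ι} {z z' : E n} (hz : z ∈ A.U a) (hz' : z' ∈ A.U b) {c : ℂˣ}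
    (h : A.γ b z' = c • A.γ a z) : z ∈ A.O a b := ⟨hz, z', hz', c, h⟩

theorem τ_eq_of {a b : A.ι} {z z' : E n} (hz : z ∈ A.U a) (hz' : z' ∈ A.U b) {c : ℂˣ}
    (h : A.γ b z' = c • A.γ a z) : A.τ a b z = z' := by
  obtain ⟨h1, h2⟩ := A.trans a b z hz ⟨z', hz', c, h⟩
  refine (A.inj b z' hz' _ h1 (A.h a b z * c⁻¹) ?_).1
  rw [h2, h, smul_smul, mul_assoc, inv_mul_cancel, mul_one]

theorem isOpen_O' (a b : A.ι) : IsOpen (A.O a b) := A.isOpen_O a b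

/-- transition of a vector field through an explicit formula for the coordinate change -/
theorem HolField.trans' (W : A.HolField) {a b : A.ι} {z : E n} {f : E n → E n}
    {f' : E n →L[ℂ] E n} (hf : HasFDerivAt f f' z)
    (hev : ∀ᶠ w in 𝓝 z, w ∈ A.U a ∧ f w ∈ A.U b ∧ ∃ c : ℂˣ, A.γ b (f w) = c • A.γ a w) :
    W.W b (f z) = f' (W.W a z) := by
  have h1 : A.τ a b =ᶠ[𝓝 z] f := by
    filter_upwards [hev] with w hw
    obtain ⟨h1, h2, c, h3⟩ := hw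
    exact τ_eq_of h1 h2 h3
  obtain ⟨h2, h3, c, h4⟩ := hev.self_of_nhds
  have h5 := W.trans a b z (mem_O_mk h2 h3 h4)
  rw [h1.fderiv_eq, hf.fderiv, h1.self_of_nhds] at h5
  exact h5

/-- the linear map `dact k c` -/
def dactL {n : ℕ} (k : Fin n → ℤ) (c : ℂˣ) : E n →L[ℂ] E n :=
  ContinuousLinearMap.pi fun j => ((c ^ k j : ℂˣ) : ℂ) • ContinuousLinearMap.proj j

theorem dactL_apply {n : ℕ} (k : Fin n → ℤ) (c : ℂˣ) (z : E n) : dactL k c z = dact k c z := by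
  ext j
  simp [dactL, dact]

/-- invariance of a vector field at a point of a chart -/
def Inv (W : A.HolField) (D : A.DAct) (a : A.ι) (z : E n) : Prop :=
  ∀ c : ℂˣ, W.W a (dact (D.k a) c z) = dact (D.k a) c (W.W a z)

theorem act_chart (D : A.DAct) {a b : A.ι} {z : E n} (hz : z ∈ A.O b a) (c : ℂˣ) :
    dact (D.k b) c z ∈ A.O b a ∧
      A.τ b a (dact (D.k b) c z) = dact (D.k a) c (A.τ b a z) := by
  have hz0 := hz.1
  obtain ⟨h1, h2⟩ := A.trans b a z hz.1 hz.2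
  have e1 := D.act_γ b z hz.1 c
  have e2 := D.act_γ a _ h1 c
  rw [h2, D.act_smul, e1] at e2
  -- γ a (dact k_a c (τ z)) is a multiple of γ b (dact k_b c z)
  have e3 : A.γ a (dact (D.k a) c (A.τ b a z)) =
      ((c ^ D.m a)⁻¹ * (A.h b a z * c ^ D.m b)) • A.γ b (dact (D.k b) c z) := by
    rw [mul_smul, eq_inv_smul_iff, ← e2, smul_smul]
  exact ⟨mem_O_mk (D.dom b z hz.1 c) (D.dom a _ h1 c) e3,
    τ_eq_of (D.dom b z hz.1 c) (D.dom a _ h1 c) e3⟩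

theorem inv_of (W : A.HolField) (D : A.DAct) {a b : A.ι} {z : E n} (hz : z ∈ A.O b a)
    (h : Inv W D b z) : Inv W D a (A.τ b a z) := by
  intro c
  obtain ⟨h1, h2⟩ := act_chart D hz c
  have hO : ∀ᶠ w in 𝓝 z, w ∈ A.O b a := (A.isOpen_O b a).mem_nhds hz
  have hd1 : DifferentiableAt ℂ (A.τ b a) z :=
    (A.hol_τ b a).differentiableAt ((A.isOpen_O b a).mem_nhds hz)
  have hd2 : DifferentiableAt ℂ (A.τ b a) (dact (D.k b) c z) :=
    (A.hol_τ b a).differentiableAt ((A.isOpen_O b a).mem_nhds h1)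
  have e1 : (fun w => A.τ b a (dactL (D.k b) c w)) =ᶠ[𝓝 z]
      fun w => dactL (D.k a) c (A.τ b a w) := by
    filter_upwards [hO] with w hw
    rw [dactL_apply, dactL_apply]
    exact (act_chart D hw c).2
  have e2 := e1.fderiv_eq (𝕜 := ℂ)
  have e3 : fderiv ℂ (fun w => A.τ b a (dactL (D.k b) c w)) z =
      (fderiv ℂ (A.τ b a) (dact (D.k b) c z)).comp (dactL (D.k b) c) := by
    have h3 : HasFDerivAt (A.τ b a) (fderiv ℂ (A.τ b a) (dact (D.k b) c z))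
        (dactL (D.k b) c z) := by
      rw [dactL_apply]; exact hd2.hasFDerivAt
    exact (h3.comp z (dactL (D.k b) c).hasFDerivAt).fderiv
  have e4 : fderiv ℂ (fun w => dactL (D.k a) c (A.τ b a w)) z =
      (dactL (D.k a) c).comp (fderiv ℂ (A.τ b a) z) :=
    ((dactL (D.k a) c).hasFDerivAt.comp z hd1.hasFDerivAt).fderiv
  rw [e3, e4] at e2
  rw [← h2, W.trans b a _ h1, h c, W.trans b a z hz]
  have e5 := congrArg (fun L : E n →L[ℂ] E n => L (W.W b z)) e2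
  simp only [ContinuousLinearMap.comp_apply, dactL_apply] at e5
  exact e5

/-- points with nonzero coordinates are dense -/
theorem dense_nz (n : ℕ) : Dense {z : E n | ∀ i, z i ≠ 0} := by
  have h := dense_pi (α := fun _ : Fin n => ℂ) Set.univ
    (s := fun _ => ({0}ᶜ : Set ℂ)) (fun i _ => dense_compl_singleton 0)
  refine h.mono ?_
  intro z hz i
  exact hz i (Set.mem_univ i)

/-- invariance extends by density -/
theorem inv_dense (W : A.HolField) (D : A.DAct) (a : A.ι)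
    (h : ∀ z ∈ A.U a, (∀ i, z i ≠ 0) → Inv W D a z) : ∀ z ∈ A.U a, Inv W D a z := by
  intro z hz c
  have hU : A.U a ∈ 𝓝 z := (A.isOpen_U a).mem_nhds hz
  have hU' : A.U a ∈ 𝓝 (dact (D.k a) c z) := (A.isOpen_U a).mem_nhds (D.dom a z hz c)
  have c1 : ContinuousAt (fun w => W.W a (dactL (D.k a) c w)) z := by
    have : ContinuousAt (W.W a) (dactL (D.k a) c z) := by
      rw [dactL_apply]; exact ((W.hol a).differentiableAt hU').continuousAt
    exact this.comp (dactL (D.k a) c).continuous.continuousAt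
  have c2 : ContinuousAt (fun w => dactL (D.k a) c (W.W a w)) z :=
    (dactL (D.k a) c).continuous.continuousAt.comp ((W.hol a).differentiableAt hU).continuousAt
  have hne : (𝓝[{z : E n | ∀ i, z i ≠ 0}] z).NeBot :=
    mem_closure_iff_nhdsWithin_neBot.1 ((dense_nz n) z)
  have hev : ∀ᶠ w in 𝓝[{z : E n | ∀ i, z i ≠ 0}] z,
      W.W a (dactL (D.k a) c w) = dactL (D.k a) c (W.W a w) := by
    filter_upwards [self_mem_nhdsWithin, mem_nhdsWithin_of_mem_nhds hU] with w h1 h2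
    rw [dactL_apply, dactL_apply]
    exact h w h2 h1 c
  have t1 := c1.tendsto.mono_left (nhdsWithin_le_nhds (s := {z : E n | ∀ i, z i ≠ 0}))
  have t2 := c2.tendsto.mono_left (nhdsWithin_le_nhds (s := {z : E n | ∀ i, z i ≠ 0}))
  have := tendsto_nhds_unique_of_eventuallyEq t1 t2 hev
  rwa [dactL_apply, dactL_apply] at this

end PolAtlas

/-! ## The atlases of the bundles over the projective line -/

section P1

variable {n : ℕ} {Y : Type} [MulAction ℂˣ Y] {A : PolAtlas n Y} {D : A.DAct} {α β : ℤ}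

/-- all coordinates but the last one -/
def ini {n : ℕ} (z : E (n + 1)) : E n := fun j => z j.castSucc

/-- `B` (with index set `e`) is the standard atlas of the bundle over `ℙ¹`. -/
structure IsP1e (B : PolAtlas (n + 1) (P1Y D α β)) (e : A.ι × Bool ≃ B.ι) : Prop where
  U : ∀ a b, B.U (e (a, b)) = {z | ini z ∈ A.U a}
  γ : ∀ a b z, ini z ∈ A.U a →
    B.γ (e (a, b)) z = P1Y.mk (A.γ a (ini z)) (vec b (z (Fin.last n)))

/-- `D'` is the action of the fibre direction on the bundle. -/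
structure IsLift {B : PolAtlas (n + 1) (P1Y D α β)} (e : A.ι × Bool ≃ B.ι) (D' : B.DAct) :
    Prop where
  act : ∀ c y x, D'.act c (P1Y.mk y x) = P1Y.mk (D.act c y) x

theorem vec_swap {u : ℂ} (hu : u ≠ 0) (b : Bool) :
    vec b u = (Units.mk0 u hu) • vec (!b) u⁻¹ := by
  apply Subtype.ext
  rw [V2.coe_smul]
  cases b
  · show (vec false u : Fin 2 → ℂ) = u • (vec true u⁻¹ : Fin 2 → ℂ)
    rw [vec_false, vec_true]
    ext i; fin_cases i <;> simp [hu]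
  · show (vec true u : Fin 2 → ℂ) = u • (vec false u⁻¹ : Fin 2 → ℂ)
    rw [vec_false, vec_true]
    ext i; fin_cases i <;> simp [hu]

theorem mk_swap {u : ℂ} (hu : u ≠ 0) (b : Bool) (y : Y) :
    (P1Y.mk y (vec b u) : P1Y D α β) =
      P1Y.mk ((Units.mk0 u hu) ^ α • D.act ((Units.mk0 u hu) ^ β) y) (vec (!b) u⁻¹) := by
  rw [vec_swap hu b, P1Y.mk_smul]

theorem vec_false_inj {c : ℂˣ} {x x' : ℂ} (h : vec false x = c • vec false x') :
    c = 1 ∧ x = x' := by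
  have h1 := congrArg (fun v : V2 => (v : Fin 2 → ℂ)) h
  simp only [V2.coe_smul, vec_false] at h1
  have h2 := congrFun h1 0
  have h3 := congrFun h1 1
  simp at h2 h3
  have hc : c = 1 := Units.ext h2.symm
  rw [hc] at h3
  exact ⟨hc, by simpa using h3⟩

theorem mk_false_inj {y y' : Y} {x x' : ℂ}
    (h : (P1Y.mk y (vec false x) : P1Y D α β) = P1Y.mk y' (vec false x')) :
    x = x' ∧ y' = y := by
  obtain ⟨c, h1, h2⟩ := P1Y.mk_eq.1 h
  obtain ⟨h3, h4⟩ := vec_false_inj h1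
  subst h3
  simp [D.act_one] at h2
  exact ⟨h4, h2⟩

end P1

/-- The data of the double bundle over `ℙ¹ × ℙ¹`. -/
structure TwoP1 {Y : Type} [MulAction ℂˣ Y] (A : PolAtlas 2 Y) (D : A.DAct)
    (α β α' β' : ℤ) where
  B₁ : PolAtlas 3 (P1Y D α β)
  e₁ : A.ι × Bool ≃ B₁.ι
  h₁ : IsP1e B₁ e₁
  D₁ : B₁.DAct
  l₁ : IsLift e₁ D₁
  B₂ : PolAtlas 4 (P1Y D₁ α' β')
  e₂ : B₁.ι × Bool ≃ B₂.ι
  h₂ : IsP1e B₂ e₂

namespace TwoP1

variable {Y : Type} [MulAction ℂˣ Y] {A : PolAtlas 2 Y} {D : A.DAct} {α β α' β' : ℤ}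
  (X : TwoP1 A D α β α' β')

/-- index of a chart -/
def i (a : A.ι) (b₁ b₂ : Bool) : X.B₂.ι := X.e₂ (X.e₁ (a, b₁), b₂)

theorem i_surj (j : X.B₂.ι) : ∃ a b₁ b₂, j = X.i a b₁ b₂ := by
  obtain ⟨⟨c, b₂⟩, rfl⟩ := X.e₂.surjective j
  obtain ⟨⟨a, b₁⟩, rfl⟩ := X.e₁.surjective c
  exact ⟨a, b₁, b₂, rfl⟩

theorem init_init (z : E 4) : ini (ini z) = ![z 0, z 1] := by
  ext j; fin_cases j <;> rfl

theorem mem_U {a : A.ι} {b₁ b₂ : Bool} {z : E 4} :
    z ∈ X.B₂.U (X.i a b₁ b₂) ↔ ![z 0, z 1] ∈ A.U a := by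
  rw [TwoP1.i, X.h₂.U, mem_ofPred_eq, X.h₁.U, mem_ofPred_eq, init_init]

/-- the point with given coordinates -/
def pt (a : A.ι) (b₁ b₂ : Bool) (z : E 4) : P1Y X.D₁ α' β' :=
  P1Y.mk (P1Y.mk (A.γ a ![z 0, z 1]) (vec b₁ (z 2))) (vec b₂ (z 3))

theorem γ_eq {a : A.ι} {b₁ b₂ : Bool} {z : E 4} (hz : ![z 0, z 1] ∈ A.U a) :
    X.B₂.γ (X.i a b₁ b₂) z = X.pt a b₁ b₂ z := by
  have hz' : ini (ini z) ∈ A.U a := by rw [init_init]; exact hz
  have hz'' : ini z ∈ X.B₁.U (X.e₁ (a, b₁)) := by rw [X.h₁.U]; exact hz'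
  rw [TwoP1.i, X.h₂.γ _ _ _ hz'', X.h₁.γ _ _ _ hz', init_init]
  rfl

/-- change of the first `ℙ¹` chart -/
theorem swap1 {a : A.ι} {b₂ : Bool} {z : E 4} (hz : ![z 0, z 1] ∈ A.U a) (h2 : z 2 ≠ 0)
    (b₁ : Bool) : ∃ c : ℂˣ, X.pt a b₁ b₂ z = c • X.pt a (!b₁) b₂
      ![dact (D.k a) (Units.mk0 (z 2) h2 ^ β) ![z 0, z 1] 0,
        dact (D.k a) (Units.mk0 (z 2) h2 ^ β) ![z 0, z 1] 1, (z 2)⁻¹, z 3] := by
  refine ⟨(Units.mk0 (z 2) h2) ^ α * ((Units.mk0 (z 2) h2) ^ β) ^ D.m a, ?_⟩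
  have e : ![dact (D.k a) (Units.mk0 (z 2) h2 ^ β) ![z 0, z 1] 0,
      dact (D.k a) (Units.mk0 (z 2) h2 ^ β) ![z 0, z 1] 1] =
      dact (D.k a) (Units.mk0 (z 2) h2 ^ β) ![z 0, z 1] := by
    ext j; fin_cases j <;> rfl
  show (P1Y.mk (P1Y.mk (A.γ a ![z 0, z 1]) (vec b₁ (z 2))) (vec b₂ (z 3)) : P1Y X.D₁ α' β') =
    _ • P1Y.mk (P1Y.mk (A.γ a ![_, _]) (vec (!b₁) (z 2)⁻¹)) (vec b₂ (z 3))
  rw [mk_swap h2 b₁, D.act_γ a _ hz, smul_smul, P1Y.smul_mk, P1Y.smul_mk]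
  congr 4
  exact e.symm

/-- change of the second `ℙ¹` chart -/
theorem swap2 {a : A.ι} {b₁ : Bool} {z : E 4} (hz : ![z 0, z 1] ∈ A.U a) (h3 : z 3 ≠ 0)
    (b₂ : Bool) : ∃ c : ℂˣ, X.pt a b₁ b₂ z = c • X.pt a b₁ (!b₂)
      ![dact (D.k a) (Units.mk0 (z 3) h3 ^ β') ![z 0, z 1] 0,
        dact (D.k a) (Units.mk0 (z 3) h3 ^ β') ![z 0, z 1] 1, z 2, (z 3)⁻¹] := by
  refine ⟨(Units.mk0 (z 3) h3) ^ α' * ((Units.mk0 (z 3) h3) ^ β') ^ D.m a, ?_⟩
  have e : ![dact (D.k a) (Units.mk0 (z 3) h3 ^ β') ![z 0, z 1] 0,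
      dact (D.k a) (Units.mk0 (z 3) h3 ^ β') ![z 0, z 1] 1] =
      dact (D.k a) (Units.mk0 (z 3) h3 ^ β') ![z 0, z 1] := by
    ext j; fin_cases j <;> rfl
  show (P1Y.mk (P1Y.mk (A.γ a ![z 0, z 1]) (vec b₁ (z 2))) (vec b₂ (z 3)) : P1Y X.D₁ α' β') =
    _ • P1Y.mk (P1Y.mk (A.γ a ![_, _]) (vec b₁ (z 2))) (vec (!b₂) (z 3)⁻¹)
  rw [mk_swap h3 b₂, X.l₁.act, D.act_γ a _ hz, P1Y.smul_mk, P1Y.smul_mk, smul_smul]
  congr 4
  exact e.symm

end TwoP1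

end

end Pool.Agent.YTDA
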