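import Pool.Agent.YTDA.Fld

/-!
# Holomorphic vector fields on the fourfold `X`, continued
-/

set_option autoImplicit false

namespace Pool.Agent.YTDA

open Complex Set Topology Filter Metric
open Pool.Agent.YTD

noncomputable section

/-- derivative of the change of the first `ℙ¹` chart -/
theorem hasFDerivAt_c1 {z : E 4} (hz : z 2 ≠ 0) :
    HasFDerivAt (fun z : E 4 => (![z 0, z 2 ^ 3 * z 1, (z 2)⁻¹, z 3] : E 4))
      (ContinuousLinearMap.pi ![ContinuousLinearMap.proj 0,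
        (z 2 ^ 3) • ContinuousLinearMap.proj 1 + (3 * z 2 ^ 2 * z 1) • ContinuousLinearMap.proj 2,
        (-(z 2 ^ 2)⁻¹) • ContinuousLinearMap.proj 2, ContinuousLinearMap.proj 3] :
          E 4 →L[ℂ] E 4) z := by
  rw [hasFDerivAt_pi']
  intro i
  have h0 : ∀ j : Fin 4, HasFDerivAt (fun z : E 4 => z j)
      (ContinuousLinearMap.proj j : E 4 →L[ℂ] ℂ) z := fun j => hasFDerivAt_apply j z
  fin_cases i
  · exact h0 0
  · have := ((h0 2).pow 3).mul (h0 1)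
    refine this.congr_fderiv ?_
    ext v
    simp
    ring
  · have := (hasDerivAt_inv hz).comp_hasFDerivAt z (h0 2)
    exact this
  · exact h0 3

theorem hasFDerivAt_c2 {z : E 4} (hz : z 3 ≠ 0) :
    HasFDerivAt (fun z : E 4 => (![z 0, z 1 / z 3 ^ 3, z 2, (z 3)⁻¹] : E 4))
      (ContinuousLinearMap.pi ![ContinuousLinearMap.proj 0,
        ((z 3 ^ 3)⁻¹) • ContinuousLinearMap.proj 1 + (-3 * z 1 / z 3 ^ 4) • ContinuousLinearMap.proj 3,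
        ContinuousLinearMap.proj 2, (-(z 3 ^ 2)⁻¹) • ContinuousLinearMap.proj 3] :
          E 4 →L[ℂ] E 4) z := by
  rw [hasFDerivAt_pi']
  intro i
  have h0 : ∀ j : Fin 4, HasFDerivAt (fun z : E 4 => z j)
      (ContinuousLinearMap.proj j : E 4 →L[ℂ] ℂ) z := fun j => hasFDerivAt_apply j z
  fin_cases i
  · exact h0 0
  · have h3 : z 3 ^ 3 ≠ 0 := pow_ne_zero 3 hz
    have h1 := (hasDerivAt_inv h3).comp_hasFDerivAt z ((h0 3).pow 3)
    have := (h0 1).mul h1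
    refine this.congr_fderiv ?_
    ext v
    simp
    field_simp
    ring
  · exact h0 2
  · have := (hasDerivAt_inv hz).comp_hasFDerivAt z (h0 3)
    exact this


namespace TwoP1

variable {Y : Type} [MulAction ℂˣ Y] {A : PolAtlas 2 Y} {D : A.DAct} {α α' : ℤ}
  (X : TwoP1 A D α 3 α' (-3))

theorem dact01 {a : A.ι} (hk : D.k a = ![0, 1]) (c : ℂˣ) (x y : ℂ) :
    dact (D.k a) c ![x, y] = ![x, c * y] := by
  rw [hk]
  ext j; fin_cases j <;> simp [dact]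

theorem dom01 {a : A.ι} (hk : D.k a = ![0, 1]) {x y : ℂ} (h : ![x, y] ∈ A.U a) (c : ℂˣ) :
    ![x, c * y] ∈ A.U a := by
  rw [← dact01 hk]; exact D.dom a _ h c

/-- first transition law -/
theorem W_t1 (W : X.B₂.HolField) {a : A.ι} (hk : D.k a = ![0, 1]) (b₂ : Bool) {z : E 4}
    (hz : ![z 0, z 1] ∈ A.U a) (h2 : z 2 ≠ 0) :
    W.W (X.i a true b₂) ![z 0, z 2 ^ 3 * z 1, (z 2)⁻¹, z 3] =
      ![W.W (X.i a false b₂) z 0,
        z 2 ^ 3 * W.W (X.i a false b₂) z 1 + 3 * z 2 ^ 2 * z 1 * W.W (X.i a false b₂) z 2,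
        -W.W (X.i a false b₂) z 2 / z 2 ^ 2, W.W (X.i a false b₂) z 3] := by
  have hev : ∀ᶠ w : E 4 in 𝓝 z, w ∈ X.B₂.U (X.i a false b₂) ∧
      (![w 0, w 2 ^ 3 * w 1, (w 2)⁻¹, w 3] : E 4) ∈ X.B₂.U (X.i a true b₂) ∧
      ∃ c : ℂˣ, X.B₂.γ (X.i a true b₂) ![w 0, w 2 ^ 3 * w 1, (w 2)⁻¹, w 3] =
        c • X.B₂.γ (X.i a false b₂) w := by
    have o1 : ∀ᶠ w : E 4 in 𝓝 z, w ∈ X.B₂.U (X.i a false b₂) :=
      (X.B₂.isOpen_U _).mem_nhds (X.mem_U.2 hz)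
    have o2 : ∀ᶠ w : E 4 in 𝓝 z, w 2 ≠ 0 :=
      (continuous_apply 2).continuousAt.eventually_ne h2
    filter_upwards [o1, o2] with w hw hw2
    have hw' := X.mem_U.1 hw
    have hw'' : (![w 0, w 2 ^ 3 * w 1] : E 2) ∈ A.U a := by
      have := dom01 hk hw' ((Units.mk0 (w 2) hw2) ^ 3)
      simpa using this
    refine ⟨hw, X.mem_U.2 hw'', ?_⟩
    obtain ⟨c, hc⟩ := X.swap1 (b₂ := b₂) hw' hw2 false
    rw [dact01 hk] at hc
    refine ⟨c⁻¹, ?_⟩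
    rw [X.γ_eq hw', hc, inv_smul_smul, X.γ_eq hw'']
    congr 1
  have := W.trans' (hasFDerivAt_c1 h2) hev
  rw [this]
  ext j
  fin_cases j <;> simp
  ring

/-- second transition law -/
theorem W_t2 (W : X.B₂.HolField) {a : A.ι} (hk : D.k a = ![0, 1]) (b₁ : Bool) {z : E 4}
    (hz : ![z 0, z 1] ∈ A.U a) (h3 : z 3 ≠ 0) :
    W.W (X.i a b₁ true) ![z 0, z 1 / z 3 ^ 3, z 2, (z 3)⁻¹] =
      ![W.W (X.i a b₁ false) z 0,
        W.W (X.i a b₁ false) z 1 / z 3 ^ 3 - 3 * z 1 * W.W (X.i a b₁ false) z 3 / z 3 ^ 4,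
        W.W (X.i a b₁ false) z 2, -W.W (X.i a b₁ false) z 3 / z 3 ^ 2] := by
  have hev : ∀ᶠ w : E 4 in 𝓝 z, w ∈ X.B₂.U (X.i a b₁ false) ∧
      (![w 0, w 1 / w 3 ^ 3, w 2, (w 3)⁻¹] : E 4) ∈ X.B₂.U (X.i a b₁ true) ∧
      ∃ c : ℂˣ, X.B₂.γ (X.i a b₁ true) ![w 0, w 1 / w 3 ^ 3, w 2, (w 3)⁻¹] =
        c • X.B₂.γ (X.i a b₁ false) w := by
    have o1 : ∀ᶠ w : E 4 in 𝓝 z, w ∈ X.B₂.U (X.i a b₁ false) :=
      (X.B₂.isOpen_U _).mem_nhds (X.mem_U.2 hz)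
    have o2 : ∀ᶠ w : E 4 in 𝓝 z, w 3 ≠ 0 :=
      (continuous_apply 3).continuousAt.eventually_ne h3
    filter_upwards [o1, o2] with w hw hw3
    have hw' := X.mem_U.1 hw
    have hw'' : (![w 0, w 1 / w 3 ^ 3] : E 2) ∈ A.U a := by
      have := dom01 hk hw' ((Units.mk0 (w 3) hw3) ^ (-3 : ℤ))
      have e : (((Units.mk0 (w 3) hw3) ^ (-3 : ℤ) : ℂˣ) : ℂ) * w 1 = w 1 / w 3 ^ 3 := by
        rw [Units.val_zpow_eq_zpow_val, Units.val_mk0, zpow_neg, div_eq_mul_inv, mul_comm]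
        norm_cast
      rwa [e] at this
    refine ⟨hw, X.mem_U.2 hw'', ?_⟩
    obtain ⟨c, hc⟩ := X.swap2 (b₁ := b₁) hw' hw3 false
    rw [dact01 hk] at hc
    refine ⟨c⁻¹, ?_⟩
    rw [X.γ_eq hw', hc, inv_smul_smul, X.γ_eq hw'']
    congr 1
    have e : (((Units.mk0 (w 3) hw3) ^ (-3 : ℤ) : ℂˣ) : ℂ) * w 1 = w 1 / w 3 ^ 3 := by
      rw [Units.val_zpow_eq_zpow_val, Units.val_mk0, zpow_neg, div_eq_mul_inv, mul_comm]
      norm_cast
    ext j; fin_cases j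
    · rfl
    · exact e.symm
    · rfl
    · rfl
  have := W.trans' (hasFDerivAt_c2 h3) hev
  rw [this]
  ext j
  fin_cases j <;> simp
  · ring
  · ring

/-- structure of a holomorphic vector field on the bottom charts -/
theorem W_main (W : X.B₂.HolField) {a : A.ι} (hk : D.k a = ![0, 1]) {s : ℂ}
    (hs : ∀ w : ℂ, ![s, w] ∈ A.U a) :
    ∃ κ e p₀ p₁ p₂ q₀ q₁ q₂ : ℂ, ∀ w z₁ z₂, W.W (X.i a false false) ![s, w, z₁, z₂] =
      ![κ, w * (e - 3 * p₂ * z₁ + 3 * q₂ * z₂), p₀ + p₁ * z₁ + p₂ * z₁ ^ 2,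
        q₀ + q₁ * z₂ + q₂ * z₂ ^ 2] := by
  have h : FldLoc.Loc (fun b₁ b₂ w z₁ z₂ => W.W (X.i a b₁ b₂) ![s, w, z₁, z₂]) := by
    refine ⟨fun b₁ b₂ j => ?_, fun b₂ w z₁ z₂ h1 => ?_, fun b₁ w z₁ z₂ h1 => ?_⟩
    · intro p
      have hU : (![s, p.1, p.2.1, p.2.2] : E 4) ∈ X.B₂.U (X.i a b₁ b₂) := X.mem_U.2 (hs p.1)
      have d1 : DifferentiableAt ℂ (W.W (X.i a b₁ b₂)) ![s, p.1, p.2.1, p.2.2] :=
        (W.hol _).differentiableAt ((X.B₂.isOpen_U _).mem_nhds hU)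
      have d2 : DifferentiableAt ℂ (fun p : ℂ × ℂ × ℂ => (![s, p.1, p.2.1, p.2.2] : E 4)) p := by
        rw [differentiableAt_pi]
        intro k; fin_cases k <;> simp
      have d3 := d1.comp p (f := fun p : ℂ × ℂ × ℂ => (![s, p.1, p.2.1, p.2.2] : E 4)) d2
      exact (differentiableAt_pi.1 d3) j
    · have := X.W_t1 W hk b₂ (z := ![s, w, z₁, z₂]) (hs w) h1
      exact this
    · have := X.W_t2 W hk b₁ (z := ![s, w, z₁, z₂]) (hs w) h1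
      exact this
  exact h.main

/-! ### Points in the chart `(a, false, false)` -/

/-- the point `y` of `Y` lies in the chart `a` -/
def Gd (A : PolAtlas 2 Y) (a : A.ι) (y : Y) : Prop :=
  ∃ z ∈ A.U a, ∃ c : ℂˣ, y = c • A.γ a z

theorem Gd.smul {a : A.ι} {y : Y} (h : Gd A a y) (c : ℂˣ) : Gd A a (c • y) := by
  obtain ⟨z, hz, d, rfl⟩ := h
  exact ⟨z, hz, c * d, smul_smul _ _ _⟩

theorem Gd.act {a : A.ι} {y : Y} (h : Gd A a y) (c : ℂˣ) : Gd A a (D.act c y) := by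
  obtain ⟨z, hz, d, rfl⟩ := h
  exact ⟨_, D.dom a z hz c, d * c ^ D.m a, by rw [D.act_smul, D.act_γ a z hz, smul_smul]⟩

/-- if `y` lies in the chart `a` then `[y, x, x']` lies in the chart `(a, false, false)`
(for nonzero coordinates) -/
theorem exists_pt {a : A.ι} {y : Y} (h : Gd A a y) (b₁ b₂ : Bool) {u v : ℂ} (hu : u ≠ 0)
    (hv : v ≠ 0) : ∃ z : E 4, ![z 0, z 1] ∈ A.U a ∧ ∃ c : ℂˣ,
      (P1Y.mk (P1Y.mk y (vec b₁ u)) (vec b₂ v) : P1Y X.D₁ α' (-3)) =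
        c • X.pt a false false z := by
  -- reduce to `b₂ = false`
  have key1 : ∀ (y : Y) (b₁ : Bool) (u : ℂ), u ≠ 0 → Gd A a y → ∃ y' u', Gd A a y' ∧
      (P1Y.mk y (vec b₁ u) : P1Y D α 3) = P1Y.mk y' (vec false u') := by
    intro y b₁ u hu hy
    cases b₁
    · exact ⟨y, u, hy, rfl⟩
    · exact ⟨_, _, (hy.act _).smul _, mk_swap hu true y⟩
  obtain ⟨y₁, u₁, hy₁, e₁⟩ := key1 y b₁ u hu h
  obtain ⟨y₂, v₂, hy₂, e₂⟩ : ∃ y' v', Gd A a y' ∧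
      (P1Y.mk (P1Y.mk y (vec b₁ u)) (vec b₂ v) : P1Y X.D₁ α' (-3)) =
        P1Y.mk (P1Y.mk y' (vec false u₁)) (vec false v') := by
    rw [e₁]
    cases b₂
    · exact ⟨y₁, v, hy₁, rfl⟩
    · refine ⟨_, v⁻¹, (hy₁.act (D := D) ((Units.mk0 v hv) ^ (-3 : ℤ))).smul
        ((Units.mk0 v hv) ^ α'), ?_⟩
      rw [mk_swap hv true, X.l₁.act, P1Y.smul_mk]
      rfl
  obtain ⟨z, hz, c, e₃⟩ := hy₂
  refine ⟨![z 0, z 1, u₁, v₂], ?_, c, ?_⟩
  · have : ![z 0, z 1] = z := by ext j; fin_cases j <;> rfl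
    show ![z 0, z 1] ∈ A.U a
    rw [this]; exact hz
  · rw [e₂, e₃]
    have : ![z 0, z 1] = z := by ext j; fin_cases j <;> rfl
    show _ = c • (P1Y.mk (P1Y.mk (A.γ a ![z 0, z 1]) (vec false u₁)) (vec false v₂) :
      P1Y X.D₁ α' (-3))
    rw [this, P1Y.smul_mk, P1Y.smul_mk]

/-- transitions between the charts `(a, false, false)` do not change the last two coordinates -/
theorem τ_last {a b : A.ι} {z : E 4}
    (hz : z ∈ X.B₂.O (X.i a false false) (X.i b false false)) :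
    X.B₂.τ (X.i a false false) (X.i b false false) z 2 = z 2 ∧
    X.B₂.τ (X.i a false false) (X.i b false false) z 3 = z 3 := by
  obtain ⟨h1, h2⟩ := X.B₂.trans _ _ z hz.1 hz.2
  rw [X.γ_eq (X.mem_U.1 hz.1), X.γ_eq (X.mem_U.1 h1)] at h2
  have h3 : (P1Y.mk (P1Y.mk (A.γ b ![X.B₂.τ (X.i a false false) (X.i b false false) z 0,
      X.B₂.τ (X.i a false false) (X.i b false false) z 1])
      (vec false (X.B₂.τ (X.i a false false) (X.i b false false) z 2)))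
      (vec false (X.B₂.τ (X.i a false false) (X.i b false false) z 3)) : P1Y X.D₁ α' (-3)) =
      P1Y.mk (X.B₂.h (X.i a false false) (X.i b false false) z •
        P1Y.mk (A.γ a ![z 0, z 1]) (vec false (z 2))) (vec false (z 3)) := h2
  obtain ⟨e3, e4⟩ := mk_false_inj h3
  rw [P1Y.smul_mk] at e4
  obtain ⟨e5, -⟩ := mk_false_inj e4
  exact ⟨e5.symm, e3⟩

/-- the last two components of a vector field are unchanged -/
theorem W_last (W : X.B₂.HolField) {a b : A.ι} {z : E 4}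
    (hz : z ∈ X.B₂.O (X.i a false false) (X.i b false false)) (j : Fin 4) (hj : j = 2 ∨ j = 3) :
    W.W (X.i b false false) (X.B₂.τ (X.i a false false) (X.i b false false) z) j =
      W.W (X.i a false false) z j := by
  have hO := (X.B₂.isOpen_O (X.i a false false) (X.i b false false)).mem_nhds hz
  have hd : DifferentiableAt ℂ (X.B₂.τ (X.i a false false) (X.i b false false)) z :=
    (X.B₂.hol_τ _ _).differentiableAt hO
  rw [W.trans _ _ z hz]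
  have e1 : (fun w => X.B₂.τ (X.i a false false) (X.i b false false) w j) =ᶠ[𝓝 z]
      fun w : E 4 => w j := by
    filter_upwards [hO] with w hw
    rcases hj with rfl | rfl
    · exact (X.τ_last hw).1
    · exact (X.τ_last hw).2
  have e2 := e1.fderiv_eq (𝕜 := ℂ)
  have e3 : fderiv ℂ (fun w => X.B₂.τ (X.i a false false) (X.i b false false) w j) z =
      (ContinuousLinearMap.proj j).comp
        (fderiv ℂ (X.B₂.τ (X.i a false false) (X.i b false false)) z) :=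
    ((ContinuousLinearMap.proj (R := ℂ) (φ := fun _ : Fin 4 => ℂ) j).hasFDerivAt.comp z
      hd.hasFDerivAt).fderiv
  have e4 : fderiv ℂ (fun w : E 4 => w j) z =
      ContinuousLinearMap.proj (R := ℂ) (φ := fun _ : Fin 4 => ℂ) j :=
    (hasFDerivAt_apply j z).fderiv
  rw [e3, e4] at e2
  have := congrArg (fun L : E 4 →L[ℂ] ℂ => L (W.W (X.i a false false) z)) e2
  simpa using this

end TwoP1

/-! ## Vector fields on the fourfold -/

section Main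

variable {K : Type} [Field K] [Algebra ℂ K] {T : Datum K} {q : ℕ} {D₀ : T.X.Pt →₀ ℤ}
  {An : AnCurve T.X.toCurveOrd} (M : SigModel T q D₀ An) {α α' : ℤ}
  (X : TwoP1 M.A M.D α 3 α' (-3))

namespace SigModel

theorem k_bot' (P : T.X.Pt) : M.D.k (M.e (P, 0)) = ![0, 1] := (M.k_bot P).1

theorem mem_bot {P : T.X.Pt} {s w : ℂ} (hs : ‖s‖ < M.r P) :
    (![s, w] : E 2) ∈ M.A.U (M.e (P, 0)) := by
  rw [M.U_bot]; exact hs

/-- general points lie in the bottom chart -/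
theorem gd_o {P : T.X.Pt} {s : ℂ} (hs : ‖s‖ < M.r P) (hs0 : s ≠ 0) (w : ℂˣ) :
    ∃ b : ℂ, ∃ c : ℂˣ, M.o P s w = c • M.A.γ (M.e (P, 0)) ![s, b] := by
  have hsb : s ∈ ball (0 : ℂ) (M.r P) := by simpa using hs
  by_cases hP : P ∈ T.S'
  · have h := M.γ_bot' P hP (Units.mk0 s hs0) hs ((Units.mk0 s hs0)⁻¹ * w)
    rw [mul_inv_cancel_left] at h
    exact ⟨_, _, (inv_smul_eq_iff.2 h).symm⟩
  · have h := M.γ_bot P hP s hsb (Or.inl hs0) w
    exact ⟨_, _, (inv_smul_eq_iff.2 h).symm⟩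

theorem gd {P : T.X.Pt} {j : Fin 3} {z : E 2} (hz : z ∈ M.A.U (M.e (P, j))) (h0 : z 0 ≠ 0)
    (h1 : z 1 ≠ 0) : TwoP1.Gd M.A (M.e (P, 0)) (M.A.γ (M.e (P, j)) z) := by
  have hz2 : z = ![z 0, z 1] := by ext j; fin_cases j <;> rfl
  have fin : ∀ (s : ℂ) (_ : ‖s‖ < M.r P) (_ : s ≠ 0) (w c : ℂˣ) (y : M.Y),
      y = c • M.o P s w → TwoP1.Gd M.A (M.e (P, 0)) y := by
    intro s hs hs0 w c y hy
    obtain ⟨b, d, hb⟩ := M.gd_o hs hs0 w
    exact ⟨![s, b], M.mem_bot hs, c * d, by rw [hy, hb, smul_smul]⟩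
  fin_cases j
  · exact ⟨z, hz, 1, (one_smul _ _).symm⟩
  · have hz' : ‖z 0‖ < M.r P := by
      have : z ∈ M.A.U (M.e (P, 1)) := hz
      rw [M.U_top] at this; exact this
    show TwoP1.Gd M.A (M.e (P, 0)) (M.A.γ (M.e (P, 1)) z)
    by_cases hP : P ∈ T.S
    · have h := M.γ_top' P hP (Units.mk0 (z 0) h0) hz' (Units.mk0 (z 1) h1)
      rw [Units.val_mk0, Units.val_mk0, ← hz2] at h
      exact fin (z 0) hz' h0 _ _ _ h
    · have h := M.γ_top P hP (z 0) (by simpa using hz') (Or.inl h0) (Units.mk0 (z 1) h1)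
      rw [Units.val_mk0, ← hz2] at h
      exact fin (z 0) hz' h0 _ _ _ h
  · show TwoP1.Gd M.A (M.e (P, 0)) (M.A.γ (M.e (P, 2)) z)
    have hzU : z ∈ M.A.U (M.e (P, 2)) := hz
    have h01 : z 0 * z 1 ≠ 0 := mul_ne_zero h0 h1
    by_cases hP : P ∈ T.S
    · have hz' : ‖z 0 * z 1‖ < M.r P := by
        rw [M.U_mid P (Or.inl hP)] at hzU; exact hzU
      have h := M.γ_mid P hP (Units.mk0 (z 0) h0) (Units.mk0 (z 1) h1) hz'
      rw [Units.val_mk0, Units.val_mk0, ← hz2] at h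
      exact fin _ hz' h01 _ _ _ h
    · by_cases hP' : P ∈ T.S'
      · have hz' : ‖z 0 * z 1‖ < M.r P := by
          rw [M.U_mid P (Or.inr hP')] at hzU; exact hzU
        have h := M.γ_mid' P hP' (Units.mk0 (z 0) h0) (Units.mk0 (z 1) h1) hz'
        rw [Units.val_mk0, Units.val_mk0, ← hz2] at h
        exact fin _ hz' h01 _ _ _ h
      · rw [M.U_mid' P hP hP'] at hzU
        exact hzU.elim

end SigModel

namespace TwoP1

variable {M}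

/-- the bottom chart at `P` -/
def bt (P : T.X.Pt) : X.B₂.ι := X.i (M.e (P, 0)) false false

theorem mem_bt {P : T.X.Pt} {z : E 4} : z ∈ X.B₂.U (X.bt P) ↔ ‖z 0‖ < M.r P := by
  rw [bt, X.mem_U, M.U_bot]; rfl

/-- invariance on the bottom charts implies invariance everywhere -/
theorem inv_all (W : X.B₂.HolField) (R : X.B₂.DAct)
    (h : ∀ P, ∀ z ∈ X.B₂.U (X.bt P), PolAtlas.Inv W R (X.bt P) z) :
    ∀ a, ∀ z ∈ X.B₂.U a, PolAtlas.Inv W R a z := by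
  intro a
  obtain ⟨a, b₁, b₂, rfl⟩ := X.i_surj a
  obtain ⟨⟨P, j⟩, rfl⟩ := M.e.surjective a
  refine PolAtlas.inv_dense W R _ fun z hz hne => ?_
  have hz' := X.mem_U.1 hz
  obtain ⟨z', hz1, c, hc⟩ := X.exists_pt
    (M.gd hz' (hne 0) (hne 1)) b₁ b₂ (hne 2) (hne 3)
  have hz2 : z' ∈ X.B₂.U (X.bt P) := X.mem_U.2 hz1
  have e : X.B₂.γ (X.i (M.e (P, j)) b₁ b₂) z = c • X.B₂.γ (X.bt P) z' := by
    rw [X.γ_eq hz', bt, X.γ_eq hz1]
    exact hc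
  have := PolAtlas.inv_of W R (PolAtlas.mem_O_mk hz2 hz e) (h P z' hz2)
  rwa [PolAtlas.τ_eq_of hz2 hz e] at this

/-- T10 (A): every holomorphic vector field is invariant under the action on the fibres of
`Σ → C`. -/
theorem inv_w (W : X.B₂.HolField) (R : X.B₂.DAct)
    (hR : ∀ P, R.k (X.bt P) = ![0, 1, 0, 0]) : ∀ a, ∀ z ∈ X.B₂.U a, PolAtlas.Inv W R a z := by
  refine X.inv_all W R fun P z hz c => ?_
  have hz0 := X.mem_bt.1 hz
  obtain ⟨κ, e, p₀, p₁, p₂, q₀, q₁, q₂, h⟩ := X.W_main W (M.k_bot' P) (s := z 0)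
    (fun w => M.mem_bot hz0)
  have e1 : z = ![z 0, z 1, z 2, z 3] := by ext j; fin_cases j <;> rfl
  have e2 : dact (R.k (X.bt P)) c z = ![z 0, c * z 1, z 2, z 3] := by
    rw [hR]; ext j; fin_cases j <;> simp [dact]
  rw [e2, hR, bt, h]
  conv_rhs => rw [e1, h]
  ext j
  fin_cases j <;> simp [dact]
  ring

/-- the third component in the bottom chart at `P` -/
theorem const_aux (W : X.B₂.HolField) (j : Fin 4) (hj : j = 2 ∨ j = 3) (P : T.X.Pt) {s : ℂ}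
    (hs : ‖s‖ < M.r P) (w z₁ z₂ : ℂ) :
    W.W (X.bt P) ![s, w, z₁, z₂] j = W.W (X.bt (An.c P s)) ![0, 0, z₁, z₂] j := by
  have indep : ∀ (P : T.X.Pt) (s : ℂ), ‖s‖ < M.r P → ∀ w w', W.W (X.bt P) ![s, w, z₁, z₂] j =
      W.W (X.bt P) ![s, w', z₁, z₂] j := by
    intro P s hs w w'
    obtain ⟨κ, e, p₀, p₁, p₂, q₀, q₁, q₂, h⟩ := X.W_main W (M.k_bot' P) (s := s)
      (fun w => M.mem_bot hs)
    rw [bt, h, h]
    rcases hj with rfl | rfl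
    · rfl
    · rfl
  by_cases hs0 : s = 0
  · subst hs0
    rw [An.c_zero]
    exact indep P 0 hs w 0
  · have hsb : s ∈ ball (0 : ℂ) (M.r P) := by simpa using hs
    obtain ⟨i1, i2, i3⟩ := M.iso P s hsb hs0
    set Q := An.c P s with hQ
    have hQ0 : An.c Q 0 = Q := An.c_zero Q
    have h0b : (0 : ℂ) ∈ ball (0 : ℂ) (M.r Q) := mem_ball_self (M.r_pos Q)
    have t1 := M.o_tr P Q s hsb 0 h0b (Or.inl hs0) (Or.inr ⟨i1, i2⟩) hQ0.symm 1
    have t2 := M.γ_bot Q i2 0 h0b (Or.inr i1) 1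
    obtain ⟨b, c, hb⟩ := M.gd_o hs hs0 1
    have t3 : ∃ d : ℂˣ, M.A.γ (M.e (Q, 0)) ![0, ((1 : ℂˣ) : ℂ)] =
        d • M.A.γ (M.e (P, 0)) ![s, b] := by
      rw [t2, t1, hb, smul_smul, smul_smul]
      exact ⟨_, rfl⟩
    obtain ⟨d, hd⟩ := t3
    have m1 : (![s, b, z₁, z₂] : E 4) ∈ X.B₂.U (X.bt P) := X.mem_bt.2 hs
    have m2 : (![0, ((1 : ℂˣ) : ℂ), z₁, z₂] : E 4) ∈ X.B₂.U (X.bt Q) :=
      X.mem_bt.2 (by simpa using M.r_pos Q)
    have t4 : X.B₂.γ (X.bt Q) ![0, ((1 : ℂˣ) : ℂ), z₁, z₂] =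
        d • X.B₂.γ (X.bt P) ![s, b, z₁, z₂] := by
      rw [bt, bt, X.γ_eq (X.mem_U.1 m1), X.γ_eq (X.mem_U.1 m2)]
      show (P1Y.mk (P1Y.mk (M.A.γ (M.e (Q, 0)) ![0, ((1 : ℂˣ) : ℂ)]) (vec false z₁))
        (vec false z₂) : P1Y X.D₁ α' (-3)) = d • P1Y.mk (P1Y.mk (M.A.γ (M.e (P, 0)) ![s, b])
        (vec false z₁)) (vec false z₂)
      rw [hd, P1Y.smul_mk, P1Y.smul_mk]
    have t5 := X.W_last W (PolAtlas.mem_O_mk m1 m2 t4) j hj
    have t6 : X.B₂.τ (X.bt P) (X.bt Q) ![s, b, z₁, z₂] = ![0, ((1 : ℂˣ) : ℂ), z₁, z₂] :=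
      PolAtlas.τ_eq_of m1 m2 t4
    have t7 : W.W (X.bt Q) ![0, ((1 : ℂˣ) : ℂ), z₁, z₂] j = W.W (X.bt P) ![s, b, z₁, z₂] j := by
      rw [← t6]; exact t5
    rw [indep P s hs w b, ← t7]
    exact indep Q 0 (by simpa using M.r_pos Q) _ _

/-- the last two components are the same in all bottom charts and for all `s` -/
theorem const_last (hconst : ∀ f : T.X.Pt → ℂ,
      (∀ P, DifferentiableOn ℂ (fun s => f (An.c P s)) (ball 0 (M.r P))) → ∀ P Q, f P = f Q)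
    (W : X.B₂.HolField) (j : Fin 4) (hj : j = 2 ∨ j = 3) (P Q : T.X.Pt) {s s' : ℂ}
    (hs : ‖s‖ < M.r P) (hs' : ‖s'‖ < M.r Q) (w w' z₁ z₂ : ℂ) :
    W.W (X.bt P) ![s, w, z₁, z₂] j = W.W (X.bt Q) ![s', w', z₁, z₂] j := by
  rw [X.const_aux W j hj P hs, X.const_aux W j hj Q hs']
  refine hconst (fun R => W.W (X.bt R) ![0, 0, z₁, z₂] j) (fun R => ?_) _ _
  have h1 : ∀ s ∈ ball (0 : ℂ) (M.r R), W.W (X.bt (An.c R s)) ![0, 0, z₁, z₂] j =
      W.W (X.bt R) ![s, 0, z₁, z₂] j := by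
    intro s hs
    exact (X.const_aux W j hj R (by simpa using hs) 0 z₁ z₂).symm
  refine DifferentiableOn.congr ?_ h1
  intro s hs
  have hU : (![s, 0, z₁, z₂] : E 4) ∈ X.B₂.U (X.bt R) := X.mem_bt.2 (by simpa using hs)
  have d1 : DifferentiableAt ℂ (W.W (X.bt R)) ![s, 0, z₁, z₂] :=
    (W.hol _).differentiableAt ((X.B₂.isOpen_U _).mem_nhds hU)
  have d2 : DifferentiableAt ℂ (fun s : ℂ => (![s, 0, z₁, z₂] : E 4)) s := by
    rw [differentiableAt_pi]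
    intro k; fin_cases k <;> simp
  have d3 := d1.comp s (f := fun s : ℂ => (![s, 0, z₁, z₂] : E 4)) d2
  exact (differentiableAt_pi.1 d3 j).differentiableWithinAt

/-- the structure of a symmetric vector field -/
theorem sym_main (hconst : ∀ f : T.X.Pt → ℂ,
      (∀ P, DifferentiableOn ℂ (fun s => f (An.c P s)) (ball 0 (M.r P))) → ∀ P Q, f P = f Q)
    (W : X.B₂.HolField) (σ : T.X.Pt → T.X.Pt)
    (hE : ∀ P, ∀ z ∈ X.B₂.U (X.bt P), ∀ z' ∈ X.B₂.U (X.bt (σ P)), z' 2 = -z 2 → z' 3 = -z 3 →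
      z' 0 = z 0 → z' 1 = z 1 → W.W (X.bt (σ P)) z' 2 = -W.W (X.bt P) z 2 ∧
        W.W (X.bt (σ P)) z' 3 = -W.W (X.bt P) z 3) (hr : ∀ P, M.r (σ P) = M.r P)
    (P : T.X.Pt) {s : ℂ} (hs : ‖s‖ < M.r P) : ∃ κ e p₁ q₁ : ℂ, ∀ w z₁ z₂,
      W.W (X.bt P) ![s, w, z₁, z₂] = ![κ, w * e, p₁ * z₁, q₁ * z₂] := by
  obtain ⟨κ, e, p₀, p₁, p₂, q₀, q₁, q₂, h⟩ := X.W_main W (M.k_bot' P) (s := s)
    (fun w => M.mem_bot hs)
  have hs' : ‖s‖ < M.r (σ P) := by rw [hr]; exact hs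
  have key : ∀ z₁ z₂, W.W (X.bt P) ![s, 0, -z₁, -z₂] 2 = -W.W (X.bt P) ![s, 0, z₁, z₂] 2 ∧
      W.W (X.bt P) ![s, 0, -z₁, -z₂] 3 = -W.W (X.bt P) ![s, 0, z₁, z₂] 3 := by
    intro z₁ z₂
    have h1 := hE P ![s, 0, z₁, z₂] (X.mem_bt.2 hs) ![s, 0, -z₁, -z₂] (X.mem_bt.2 hs') rfl rfl
      rfl rfl
    rw [X.const_last hconst W 2 (Or.inl rfl) (σ P) P hs' hs 0 0,
      X.const_last hconst W 3 (Or.inr rfl) (σ P) P hs' hs 0 0] at h1
    exact h1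
  have k0 := key 0 0
  have k1 := key 1 1
  simp only [bt, h] at k0 k1
  have hp0 : p₀ = 0 := by
    have : p₀ + p₁ * -0 + p₂ * (-0) ^ 2 = -(p₀ + p₁ * 0 + p₂ * 0 ^ 2) := k0.1
    linear_combination this / 2
  have hq0 : q₀ = 0 := by
    have : q₀ + q₁ * -0 + q₂ * (-0) ^ 2 = -(q₀ + q₁ * 0 + q₂ * 0 ^ 2) := k0.2
    linear_combination this / 2
  have hp2 : p₂ = 0 := by
    have : p₀ + p₁ * -1 + p₂ * (-1) ^ 2 = -(p₀ + p₁ * 1 + p₂ * 1 ^ 2) := k1.1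
    linear_combination this / 2 - hp0
  have hq2 : q₂ = 0 := by
    have : q₀ + q₁ * -1 + q₂ * (-1) ^ 2 = -(q₀ + q₁ * 1 + q₂ * 1 ^ 2) := k1.2
    linear_combination this / 2 - hq0
  refine ⟨κ, e, p₁, q₁, fun w z₁ z₂ => ?_⟩
  rw [bt, h, hp0, hq0, hp2, hq2]
  ext j
  fin_cases j <;> simp

/-- T10 (B): a symmetric vector field is invariant under the diagonal actions on the two
projective lines. -/
theorem inv_rot (hconst : ∀ f : T.X.Pt → ℂ,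
      (∀ P, DifferentiableOn ℂ (fun s => f (An.c P s)) (ball 0 (M.r P))) → ∀ P Q, f P = f Q)
    (W : X.B₂.HolField) (σ : T.X.Pt → T.X.Pt)
    (hE : ∀ P, ∀ z ∈ X.B₂.U (X.bt P), ∀ z' ∈ X.B₂.U (X.bt (σ P)), z' 2 = -z 2 → z' 3 = -z 3 →
      z' 0 = z 0 → z' 1 = z 1 → W.W (X.bt (σ P)) z' 2 = -W.W (X.bt P) z 2 ∧
        W.W (X.bt (σ P)) z' 3 = -W.W (X.bt P) z 3) (hr : ∀ P, M.r (σ P) = M.r P)
    (R : X.B₂.DAct) (k₁ k₂ k₃ : ℤ) (hR : ∀ P, R.k (X.bt P) = ![0, k₁, k₂, k₃]) :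
    ∀ a, ∀ z ∈ X.B₂.U a, PolAtlas.Inv W R a z := by
  refine X.inv_all W R fun P z hz c => ?_
  have hz0 := X.mem_bt.1 hz
  obtain ⟨κ, e, p₁, q₁, h⟩ := X.sym_main hconst W σ hE hr P hz0
  have e1 : z = ![z 0, z 1, z 2, z 3] := by ext j; fin_cases j <;> rfl
  have e2 : dact (R.k (X.bt P)) c z = ![z 0, ((c ^ k₁ : ℂˣ) : ℂ) * z 1,
      ((c ^ k₂ : ℂˣ) : ℂ) * z 2, ((c ^ k₃ : ℂˣ) : ℂ) * z 3] := by
    rw [hR]; ext j; fin_cases j <;> simp [dact]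
  rw [e2, hR, h]
  conv_rhs => rw [e1, h]
  ext j
  fin_cases j <;> simp [dact]
  · ring
  · ring
  · ring

end TwoP1

end Main

end

end Pool.Agent.YTDA
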