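import Pool.Agent.YTDA.Curve
import Pool.Agent.YTD.CurveRR

/-!
# Meromorphic functions on an analytic curve are rational

`MerFam`: meromorphic functions on the analytic curve `An`, as families of local expressions.
`MerFam.exists_fn`: they come from the function field, if the curve satisfies Riemann-Roch and
everywhere holomorphic functions are constant.
-/

namespace Pool.Agent.YTDA

open Complex Set Topology Metric Filter Module
open Pool.Agent.YTD

noncomputable section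

/-- If any two elements of `M` have a non-trivial combination in `N`, then `dim M ≤ dim N + 1`. -/
theorem finrank_le_add_one {V : Type*} [AddCommGroup V] [Module ℂ V] [FiniteDimensional ℂ V]
    {M N : Submodule ℂ V}
    (h : ∀ x ∈ M, ∀ y ∈ M, ∃ a b : ℂ, (a ≠ 0 ∨ b ≠ 0) ∧ a • x + b • y ∈ N) :
    finrank ℂ M ≤ finrank ℂ N + 1 := by
  by_cases hMN : M ≤ N
  · exact (Submodule.finrank_mono hMN).trans (Nat.le_succ _)
  · obtain ⟨x, hxM, hxN⟩ := SetLike.not_le_iff_exists.1 hMN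
    have h1 : M ≤ N ⊔ Submodule.span ℂ {x} := by
      intro y hy
      obtain ⟨a, b, hab, hN⟩ := h x hxM y hy
      have hb : b ≠ 0 := by
        rintro rfl
        have ha : a ≠ 0 := by simpa using hab
        apply hxN
        rw [zero_smul, add_zero] at hN
        have := N.smul_mem a⁻¹ hN
        rwa [smul_smul, inv_mul_cancel₀ ha, one_smul] at this
      have e : y = b⁻¹ • (a • x + b • y) + (-(b⁻¹ * a)) • x := by
        rw [smul_add, smul_smul, smul_smul, inv_mul_cancel₀ hb, one_smul]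
        module
      rw [e]
      exact Submodule.add_mem_sup (N.smul_mem _ hN)
        (Submodule.smul_mem _ _ (Submodule.mem_span_singleton_self x))
    calc finrank ℂ M ≤ finrank ℂ (N ⊔ Submodule.span ℂ {x} : Submodule ℂ V) :=
          Submodule.finrank_mono h1
      _ ≤ finrank ℂ N + finrank ℂ (Submodule.span ℂ {x}) := Submodule.finrank_add_le_finrank_add_finrank _ _
      _ ≤ finrank ℂ N + 1 := by
          have : finrank ℂ (Submodule.span ℂ ({x} : Set V)) ≤ 1 := by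
            have := finrank_span_le_card (R := ℂ) ({x} : Set V)
            simpa using this
          omega

namespace AnCurve

variable {K : Type} [Field K] [Algebra ℂ K] {X : CurveOrd K} (An : AnCurve X)

/-- A meromorphic function on the analytic curve, as a family of local expressions. -/
structure MerFam (g : X.Pt → ℂ → ℂ) : Prop where
  mero : ∀ P, MeromorphicOn (g P) (ball 0 (An.r P))
  tr : ∀ P Q, ∀ s ∈ ball 0 (An.r P), ∀ s' ∈ ball 0 (An.r Q), An.c P s = An.c Q s' →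
    ∀ f : ℂ → ℂ, AnalyticAt ℂ f s → f s = s' → deriv f s ≠ 0 →
    (∀ᶠ σ in 𝓝 s, An.c Q (f σ) = An.c P σ) → (fun σ => g Q (f σ)) =ᶠ[𝓝[≠] s] g P

variable {An}

theorem mem_ball_zero (P : X.Pt) : (0 : ℂ) ∈ ball (0 : ℂ) (An.r P) := mem_ball_self (An.r_pos P)

theorem tendsto_trans {f : ℂ → ℂ} {s : ℂ} (hf : AnalyticAt ℂ f s) (hf' : deriv f s ≠ 0) :
    Tendsto f (𝓝[≠] s) (𝓝[≠] (f s)) :=
  (hf.differentiableAt.hasDerivAt).tendsto_nhdsNE hf'

/-- transition functions are unique as germs -/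
theorem trans_unique {P Q : X.Pt} {s : ℂ} {f f' : ℂ → ℂ}
    (hfs : f s ∈ ball 0 (An.r Q)) (hf's : f' s ∈ ball 0 (An.r Q)) (hf : ContinuousAt f s)
    (hf' : ContinuousAt f' s) (h : ∀ᶠ σ in 𝓝 s, An.c Q (f σ) = An.c P σ)
    (h' : ∀ᶠ σ in 𝓝 s, An.c Q (f' σ) = An.c P σ) : f =ᶠ[𝓝 s] f' := by
  have h1 := hf.preimage_mem_nhds (isOpen_ball.mem_nhds hfs)
  have h2 := hf'.preimage_mem_nhds (isOpen_ball.mem_nhds hf's)
  filter_upwards [h1, h2, h, h'] with σ h1 h2 h h'
  exact An.inj Q h1 h2 (h.trans h'.symm)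

theorem merFam_fn (z : K) : An.MerFam fun P => An.fn P z where
  mero P := An.fn_mero P z
  tr P Q s hs s' hs' hc f hf hfs hf' hfc := by
    obtain ⟨f₁, hf₁, hf₁s, -, hf₁c, hfn⟩ := An.tr P Q s hs s' hs' hc
    have h1 : f =ᶠ[𝓝 s] f₁ := trans_unique (by rw [hfs]; exact hs') (by rw [hf₁s]; exact hs')
      hf.continuousAt hf₁.continuousAt hfc hf₁c
    filter_upwards [hfn z, h1.filter_mono nhdsWithin_le_nhds] with σ h2 h3
    rw [← h2, h3]

namespace MerFam

variable {g h : X.Pt → ℂ → ℂ}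

/-- transition to the disc centred at the point itself -/
theorem exists_tr (hg : An.MerFam g) (P : X.Pt) {s : ℂ} (hs : s ∈ ball 0 (An.r P)) :
    ∃ f : ℂ → ℂ, AnalyticAt ℂ f s ∧ f s = 0 ∧ deriv f s ≠ 0 ∧
      (∀ᶠ σ in 𝓝 s, An.c (An.c P s) (f σ) = An.c P σ) ∧
      (fun σ => g (An.c P s) (f σ)) =ᶠ[𝓝[≠] s] g P := by
  obtain ⟨f, hf, hfs, hf', hfc, -⟩ := An.tr P (An.c P s) s hs 0 (mem_ball_zero _) (An.c_zero _).symm
  exact ⟨f, hf, hfs, hf', hfc, hg.tr P (An.c P s) s hs 0 (mem_ball_zero _) (An.c_zero _).symm f hf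
    hfs hf' hfc⟩

theorem ord_eq (hg : An.MerFam g) (P : X.Pt) {s : ℂ} (hs : s ∈ ball 0 (An.r P)) :
    meromorphicOrderAt (g P) s = meromorphicOrderAt (g (An.c P s)) 0 := by
  obtain ⟨f, hf, hfs, hf', -, he⟩ := hg.exists_tr P hs
  rw [← meromorphicOrderAt_congr he, ← hfs, ← meromorphicOrderAt_comp_of_deriv_ne_zero hf hf']
  rfl

/-- A family which vanishes at all centres vanishes everywhere. -/
theorem eventually_zero (hg : An.MerFam g) (h0 : ∀ P, g P =ᶠ[𝓝[≠] 0] 0) (P : X.Pt) {s : ℂ}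
    (hs : s ∈ ball 0 (An.r P)) : g P =ᶠ[𝓝[≠] s] 0 := by
  have h1 : meromorphicOrderAt (g P) s = ⊤ := by
    rw [hg.ord_eq P hs, meromorphicOrderAt_eq_top_iff]
    exact h0 _
  exact meromorphicOrderAt_eq_top_iff.1 h1

theorem congr (hg : An.MerFam g) (he : ∀ P, ∀ s ∈ ball 0 (An.r P), h P =ᶠ[𝓝[≠] s] g P) :
    An.MerFam h where
  mero P s hs := (hg.mero P s hs).congr (he P s hs).symm
  tr P Q s hs s' hs' hc f hf hfs hf' hfc := by
    have h1 := hg.tr P Q s hs s' hs' hc f hf hfs hf' hfc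
    have h2 := he P s hs
    have h3 := he Q s' hs'
    have h4 : Tendsto f (𝓝[≠] s) (𝓝[≠] s') := by
      rw [← hfs]
      exact tendsto_trans hf hf'
    exact ((h3.comp_tendsto h4).trans h1).trans h2.symm

theorem add (hg : An.MerFam g) (hh : An.MerFam h) : An.MerFam fun P => g P + h P where
  mero P := (hg.mero P).add (hh.mero P)
  tr P Q s hs s' hs' hc f hf hfs hf' hfc := by
    filter_upwards [hg.tr P Q s hs s' hs' hc f hf hfs hf' hfc,
      hh.tr P Q s hs s' hs' hc f hf hfs hf' hfc] with σ h1 h2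
    simp only [Pi.add_apply]
    rw [h1, h2]

theorem mul (hg : An.MerFam g) (hh : An.MerFam h) : An.MerFam fun P => g P * h P where
  mero P := (hg.mero P).mul (hh.mero P)
  tr P Q s hs s' hs' hc f hf hfs hf' hfc := by
    filter_upwards [hg.tr P Q s hs s' hs' hc f hf hfs hf' hfc,
      hh.tr P Q s hs s' hs' hc f hf hfs hf' hfc] with σ h1 h2
    simp only [Pi.mul_apply]
    rw [h1, h2]

/-- The value at the points of a family without poles. -/
theorem tendsto_val (hg : An.MerFam g) (h0 : ∀ P, 0 ≤ meromorphicOrderAt (g P) 0) (P : X.Pt)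
    {s : ℂ} (hs : s ∈ ball 0 (An.r P)) :
    Tendsto (g P) (𝓝[≠] s) (𝓝 (limUnder (𝓝[≠] (0 : ℂ)) (g (An.c P s)))) := by
  obtain ⟨f, hf, hfs, hf', -, he⟩ := hg.exists_tr P hs
  have h1 : Tendsto (g (An.c P s)) (𝓝[≠] 0) (𝓝 (limUnder (𝓝[≠] (0 : ℂ)) (g (An.c P s)))) :=
    tendsto_nhds_limUnder (tendsto_nhds_of_meromorphicOrderAt_nonneg
      (hg.mero _ 0 (mem_ball_zero _)) (h0 _))
  have h2 : Tendsto f (𝓝[≠] s) (𝓝[≠] 0) := by
    have := tendsto_trans hf hf'
    rwa [hfs] at this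
  exact (h1.comp h2).congr' he

/-- the function on the points defined by a family without poles is holomorphic -/
theorem differentiableOn_val (hg : An.MerFam g) (h0 : ∀ P, 0 ≤ meromorphicOrderAt (g P) 0)
    (P : X.Pt) : DifferentiableOn ℂ (fun s => limUnder (𝓝[≠] (0 : ℂ)) (g (An.c P s)))
      (ball 0 (An.r P)) := by
  intro s hs
  apply DifferentiableAt.differentiableWithinAt
  apply AnalyticAt.differentiableAt
  -- near `s` the function agrees with `g P` off `s`
  have hev : ∀ᶠ σ in 𝓝[≠] s, AnalyticAt ℂ (g P) σ ∧ σ ∈ ball 0 (An.r P) :=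
    ((hg.mero P s hs).eventually_analyticAt).and
      (nhdsWithin_le_nhds (isOpen_ball.mem_nhds hs))
  have hval : ∀ σ, AnalyticAt ℂ (g P) σ → σ ∈ ball 0 (An.r P) →
      limUnder (𝓝[≠] (0 : ℂ)) (g (An.c P σ)) = g P σ := by
    intro σ h1 h2
    exact tendsto_nhds_unique (hg.tendsto_val h0 P h2)
      (h1.continuousAt.tendsto.mono_left nhdsWithin_le_nhds)
  have heq : (fun s => limUnder (𝓝[≠] (0 : ℂ)) (g (An.c P s))) =ᶠ[𝓝[≠] s] g P := by
    filter_upwards [hev] with σ hσ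
    exact hval σ hσ.1 hσ.2
  apply Complex.analyticAt_of_differentiable_on_punctured_nhds_of_continuousAt
  · have h2 := eventually_eventually_nhdsWithin.2 heq
    filter_upwards [hev, h2, self_mem_nhdsWithin] with σ h1 h3 h4
    have h5 : 𝓝[≠] s ≤ 𝓝[≠] s := le_rfl
    have h6 : (fun s => limUnder (𝓝[≠] (0 : ℂ)) (g (An.c P s))) =ᶠ[𝓝 σ] g P := by
      have h7 : 𝓝[{s}ᶜ] σ = 𝓝 σ := isOpen_compl_singleton.nhdsWithin_eq h4
      rw [← h7]
      exact h3
    exact (h1.1.congr h6.symm).differentiableAt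
  · rw [continuousAt_iff_punctured_nhds]
    exact (hg.tendsto_val h0 P hs).congr' heq.symm

end MerFam

variable (An) in
/-- Everywhere holomorphic functions are constant. -/
def HolConst : Prop := ∀ G : X.Pt → ℂ,
  (∀ P, DifferentiableOn ℂ (fun s => G (An.c P s)) (ball 0 (An.r P))) → ∃ a, ∀ P, G P = a

theorem MerFam.const {g : X.Pt → ℂ → ℂ} (hg : An.MerFam g) (hc : An.HolConst)
    (h0 : ∀ P, 0 ≤ meromorphicOrderAt (g P) 0) : ∃ a : ℂ, ∀ P, g P =ᶠ[𝓝[≠] 0] fun _ => a := by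
  obtain ⟨a, ha⟩ := hc (fun Q => limUnder (𝓝[≠] (0 : ℂ)) (g Q)) (hg.differentiableOn_val h0)
  refine ⟨a, fun P => ?_⟩
  have hev : ∀ᶠ σ in 𝓝[≠] (0 : ℂ), AnalyticAt ℂ (g P) σ ∧ σ ∈ ball 0 (An.r P) :=
    ((hg.mero P 0 (mem_ball_zero P)).eventually_analyticAt).and
      (nhdsWithin_le_nhds (isOpen_ball.mem_nhds (mem_ball_zero P)))
  filter_upwards [hev] with σ hσ
  have h1 := tendsto_nhds_unique (hg.tendsto_val h0 P hσ.2)
      (hσ.1.continuousAt.tendsto.mono_left nhdsWithin_le_nhds)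
  rw [← h1]
  exact ha _

theorem MerFam.finite_poles {g : X.Pt → ℂ → ℂ} (hg : An.MerFam g) :
    {P | meromorphicOrderAt (g P) 0 < 0}.Finite := by
  have h1 : ∀ P : X.Pt, ∃ ρ > 0, ρ ≤ An.r P ∧ ∀ σ : ℂ, σ ≠ 0 → ‖σ‖ < ρ → AnalyticAt ℂ (g P) σ := by
    intro P
    have h2 := (hg.mero P 0 (mem_ball_zero P)).eventually_analyticAt
    rw [eventually_nhdsWithin_iff, Metric.eventually_nhds_iff] at h2
    obtain ⟨ε, hε, h⟩ := h2
    refine ⟨min ε (An.r P), lt_min hε (An.r_pos P), min_le_right _ _, fun σ h0 hσ => ?_⟩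
    exact h (by rw [dist_zero_right]; exact hσ.trans_le (min_le_left _ _)) h0
  choose ρ hρ hρr hρa using h1
  obtain ⟨F, hF⟩ := An.cpt ρ hρ
  apply F.finite_toSet.subset
  intro Q hQ
  obtain ⟨P, hP, s, hs, rfl⟩ := hF Q
  by_cases h0 : s = 0
  · subst h0
    rw [An.c_zero]
    exact hP
  · exfalso
    have h1 := (hρa P s h0 hs).meromorphicOrderAt_nonneg
    rw [hg.ord_eq P (by rw [mem_ball_zero_iff]; exact hs.trans_le (hρr P))] at h1
    exact absurd hQ (not_lt.2 h1)

theorem one_le_of_pos {x : WithTop ℤ} (h : 0 < x) : (1 : ℤ) ≤ x := by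
  induction x using WithTop.recTopCoe with
  | top => exact le_top
  | coe n =>
    have : 0 < n := by exact_mod_cast h
    exact_mod_cast this

theorem exists_comb {u v : ℂ → ℂ} (hu : MeromorphicAt u 0) (hv : MeromorphicAt v 0) {n : ℤ}
    (h1 : (n : WithTop ℤ) ≤ meromorphicOrderAt u 0) (h2 : (n : WithTop ℤ) ≤ meromorphicOrderAt v 0) :
    ∃ a b : ℂ, (a ≠ 0 ∨ b ≠ 0) ∧
      ((n + 1 : ℤ) : WithTop ℤ) ≤ meromorphicOrderAt (fun s => a * u s + b * v s) 0 := by
  have hid : MeromorphicAt (fun s : ℂ => s) 0 := MeromorphicAt.id 0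
  have hz : ∀ m : ℤ, MeromorphicAt (fun s : ℂ => s ^ m) 0 := fun m => hid.zpow m
  have hzo : ∀ m : ℤ, meromorphicOrderAt (fun s : ℂ => s ^ m) 0 = m := by
    intro m
    have h3 := fun_meromorphicOrderAt_zpow hid (n := m)
    have h4 : meromorphicOrderAt (fun s : ℂ => s) 0 = 1 := meromorphicOrderAt_id
    rw [h3, h4, mul_one]
  have key : ∀ w : ℂ → ℂ, MeromorphicAt w 0 → (n : WithTop ℤ) ≤ meromorphicOrderAt w 0 →
      ∃ α : ℂ, Tendsto (fun s => s ^ (-n) * w s) (𝓝[≠] 0) (𝓝 α) := by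
    intro w hw hwn
    apply tendsto_nhds_of_meromorphicOrderAt_nonneg ((hz _).fun_mul hw)
    rw [fun_meromorphicOrderAt_mul (hz _) hw, hzo]
    calc (0 : WithTop ℤ) = ((-n : ℤ) : WithTop ℤ) + (n : WithTop ℤ) := by
          rw [← WithTop.coe_add, neg_add_cancel]; rfl
      _ ≤ _ := by gcongr
  obtain ⟨α, hα⟩ := key u hu h1
  obtain ⟨β, hβ⟩ := key v hv h2
  obtain ⟨a, b, hab, h0⟩ : ∃ a b : ℂ, (a ≠ 0 ∨ b ≠ 0) ∧ a * α + b * β = 0 := by
    by_cases h : β ≠ 0 ∨ -α ≠ 0
    · exact ⟨β, -α, h, by ring⟩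
    · push Not at h
      refine ⟨1, 0, Or.inl one_ne_zero, ?_⟩
      rw [neg_eq_zero.1 h.2]
      ring
  refine ⟨a, b, hab, ?_⟩
  have h3 : Tendsto (fun s => s ^ (-n) * (a * u s + b * v s)) (𝓝[≠] 0) (𝓝 0) := by
    have h4 := (hα.const_mul a).add (hβ.const_mul b)
    rw [h0] at h4
    apply h4.congr
    intro s
    ring
  have hm : MeromorphicAt (fun s => a * u s + b * v s) 0 := by fun_prop
  have h5 := (tendsto_zero_iff_meromorphicOrderAt_pos ((hz (-n)).fun_mul hm)).1 h3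
  rw [fun_meromorphicOrderAt_mul (hz _) hm, hzo] at h5
  have h6 := one_le_of_pos h5
  generalize meromorphicOrderAt (fun s => a * u s + b * v s) 0 = x at h6 ⊢
  induction x using WithTop.recTopCoe with
  | top => exact le_top
  | coe m =>
    have : (1 : ℤ) ≤ -n + m := by exact_mod_cast h6
    have : n + 1 ≤ m := by linarith
    exact_mod_cast this

section main

variable {g : X.Pt → ℂ → ℂ}

theorem fn_smul (An : AnCurve X) (P : X.Pt) (c : ℂ) (z : K) {s : ℂ} (hs : s ∈ ball 0 (An.r P)) :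
    An.fn P (c • z) =ᶠ[𝓝[≠] s] fun σ => c * An.fn P z σ := by
  rw [Algebra.smul_def]
  filter_upwards [An.fn_mul P (algebraMap ℂ K c) z s hs, An.fn_const P c s hs] with σ h1 h2
  rw [h1, Pi.mul_apply, h2]

theorem fn_zero (An : AnCurve X) (P : X.Pt) {s : ℂ} (hs : s ∈ ball 0 (An.r P)) :
    An.fn P 0 =ᶠ[𝓝[≠] s] 0 := by
  have := An.fn_const P 0 s hs
  rw [map_zero] at this
  exact this

theorem fn_neg (An : AnCurve X) (P : X.Pt) (z : K) {s : ℂ} (hs : s ∈ ball 0 (An.r P)) :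
    An.fn P (-z) =ᶠ[𝓝[≠] s] fun σ => -An.fn P z σ := by
  have h := An.fn_smul P (-1) z hs
  rw [neg_one_smul] at h
  filter_upwards [h] with σ h1
  rw [h1]
  ring

/-- the family `a + g b` -/
def comb (An : AnCurve X) (g : X.Pt → ℂ → ℂ) (w : K × K) (P : X.Pt) : ℂ → ℂ :=
  An.fn P w.1 + g P * An.fn P w.2

theorem MerFam.comb (hg : An.MerFam g) (w : K × K) : An.MerFam (An.comb g w) :=
  (merFam_fn w.1).add (hg.mul (merFam_fn w.2))

theorem comb_lin (g : X.Pt → ℂ → ℂ) (w w' : K × K) (a b : ℂ) (P : X.Pt) {s : ℂ}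
    (hs : s ∈ ball 0 (An.r P)) : An.comb g (a • w + b • w') P =ᶠ[𝓝[≠] s]
      fun σ => a * An.comb g w P σ + b * An.comb g w' P σ := by
  filter_upwards [An.fn_add P (a • w.1) (b • w'.1) s hs, An.fn_add P (a • w.2) (b • w'.2) s hs,
    An.fn_smul P a w.1 hs, An.fn_smul P b w'.1 hs, An.fn_smul P a w.2 hs, An.fn_smul P b w'.2 hs]
    with σ h1 h2 h3 h4 h5 h6
  simp only [AnCurve.comb, Prod.fst_add, Prod.smul_fst, Prod.snd_add, Prod.smul_snd, Pi.add_apply,
    Pi.mul_apply] at *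
  rw [h1, h2, h3, h4, h5, h6]
  ring

/-- The combinations `a + g b`, `a ∈ L(D₁)`, `b ∈ L(D₂)`, with poles bounded by `D`. -/
def WW (hg : An.MerFam g) (D₁ D₂ D : X.Pt →₀ ℤ) : Submodule ℂ (X.L D₁ × X.L D₂) where
  carrier := {w | ∀ P, ((-D P : ℤ) : WithTop ℤ) ≤
    meromorphicOrderAt (An.comb g ((w.1 : K), (w.2 : K)) P) 0}
  zero_mem' := by
    intro P
    have h1 : An.comb g ((0 : K), (0 : K)) P =ᶠ[𝓝[≠] 0] 0 := by
      filter_upwards [An.fn_zero P (mem_ball_zero P)] with σ h1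
      simp only [AnCurve.comb, Pi.add_apply, Pi.mul_apply, h1, Pi.zero_apply, mul_zero, add_zero]
    have h2 := meromorphicOrderAt_eq_top_iff.2 h1
    show _ ≤ meromorphicOrderAt (An.comb g ((0 : K), (0 : K)) P) 0
    rw [h2]
    exact le_top
  add_mem' := by
    intro w w' h h' P
    have h1 := An.comb_lin g ((w.1 : K), (w.2 : K)) ((w'.1 : K), (w'.2 : K)) 1 1 P
      (mem_ball_zero P)
    simp only [one_smul, one_mul, Prod.mk_add_mk] at h1
    show _ ≤ meromorphicOrderAt (An.comb g (((w.1 : K) + (w'.1 : K)), ((w.2 : K) + (w'.2 : K))) P) 0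
    rw [meromorphicOrderAt_congr h1]
    exact (le_min (h P) (h' P)).trans (meromorphicOrderAt_add
      ((hg.comb _).mero P 0 (mem_ball_zero P)) ((hg.comb _).mero P 0 (mem_ball_zero P)))
  smul_mem' := by
    intro c w h P
    have h1 := An.comb_lin g ((w.1 : K), (w.2 : K)) 0 c 0 P (mem_ball_zero P)
    simp only [smul_zero, add_zero, zero_mul, Prod.smul_mk] at h1
    show _ ≤ meromorphicOrderAt (An.comb g ((c • (w.1 : K)), (c • (w.2 : K))) P) 0
    rw [meromorphicOrderAt_congr h1, fun_meromorphicOrderAt_mul (MeromorphicAt.const c 0)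
      ((hg.comb _).mero P 0 (mem_ball_zero P))]
    refine (h P).trans ?_
    have h2 : (0 : WithTop ℤ) ≤ meromorphicOrderAt (fun _ : ℂ => c) 0 :=
      analyticAt_const.meromorphicOrderAt_nonneg
    calc _ = 0 + meromorphicOrderAt (An.comb g ((w.1 : K), (w.2 : K)) P) 0 := (zero_add _).symm
      _ ≤ _ := by gcongr

theorem mem_WW {hg : An.MerFam g} {D₁ D₂ D : X.Pt →₀ ℤ} {w : X.L D₁ × X.L D₂} :
    w ∈ WW hg D₁ D₂ D ↔ ∀ P, ((-D P : ℤ) : WithTop ℤ) ≤
      meromorphicOrderAt (An.comb g ((w.1 : K), (w.2 : K)) P) 0 := Iff.rfl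

theorem finrank_WW_le (hg : An.MerFam g) (D₁ D₂ : X.Pt →₀ ℤ) [FiniteDimensional ℂ (X.L D₁)]
    [FiniteDimensional ℂ (X.L D₂)] (n : ℕ) : ∀ D : X.Pt →₀ ℤ, (∀ P, 0 ≤ D P) → X.deg D = n →
      finrank ℂ (WW hg D₁ D₂ D) ≤ n + finrank ℂ (WW hg D₁ D₂ 0) := by
  classical
  induction n with
  | zero =>
    intro D hD hdeg
    have h0 : D = 0 := by
      ext P
      have h1 : X.deg (D - Finsupp.single P (D P)) = - D P := by
        rw [X.deg_sub, X.deg_single, hdeg]
        simp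
      have h2 := X.deg_nonneg (D := D - Finsupp.single P (D P)) (by
        intro Q
        rw [Finsupp.sub_apply, Finsupp.single_apply]
        split_ifs with h
        · subst h
          simp
        · rw [sub_zero]
          exact hD Q)
      have h3 := hD P
      rw [h1] at h2
      rw [Finsupp.zero_apply]
      linarith
    rw [h0, zero_add]
  | succ n ih =>
    intro D hD hdeg
    obtain ⟨P, hP⟩ : ∃ P, 0 < D P := by
      by_contra h
      push Not at h
      have h1 : D = 0 := by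
        ext P
        exact le_antisymm (h P) (hD P)
      rw [h1, X.deg_zero] at hdeg
      push_cast at hdeg
      linarith
    have h1 := ih (D - Finsupp.single P 1) (by
      intro Q
      rw [Finsupp.sub_apply, Finsupp.single_apply]
      split_ifs with h
      · subst h
        linarith
      · rw [sub_zero]
        exact hD Q) (by
      rw [X.deg_sub, X.deg_single, hdeg]
      push_cast
      ring)
    have h2 : finrank ℂ (WW hg D₁ D₂ D) ≤
        finrank ℂ (WW hg D₁ D₂ (D - Finsupp.single P 1)) + 1 := by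
      apply finrank_le_add_one
      intro x hx y hy
      have hmx := (hg.comb ((x.1 : K), (x.2 : K))).mero P 0 (mem_ball_zero P)
      have hmy := (hg.comb ((y.1 : K), (y.2 : K))).mero P 0 (mem_ball_zero P)
      obtain ⟨a, b, hab, hc⟩ := exists_comb hmx hmy (mem_WW.1 hx P) (mem_WW.1 hy P)
      refine ⟨a, b, hab, ?_⟩
      have hxy : a • x + b • y ∈ WW hg D₁ D₂ D :=
        add_mem (Submodule.smul_mem _ _ hx) (Submodule.smul_mem _ _ hy)
      rw [mem_WW]
      intro Q
      rw [Finsupp.sub_apply, Finsupp.single_apply]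
      split_ifs with h
      · subst h
        have h3 := An.comb_lin g ((x.1 : K), (x.2 : K)) ((y.1 : K), (y.2 : K)) a b P
          (mem_ball_zero P)
        have h4 : An.comb g (((a • x + b • y).1 : K), ((a • x + b • y).2 : K)) P =
            An.comb g (a • ((x.1 : K), (x.2 : K)) + b • ((y.1 : K), (y.2 : K))) P := rfl
        rw [h4, meromorphicOrderAt_congr h3]
        have h5 : -(D P - 1) = -D P + 1 := by ring
        rw [h5]
        exact hc
      · rw [sub_zero]
        exact mem_WW.1 hxy Q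
    omega

end main

variable {g : X.Pt → ℂ → ℂ}

theorem ord_fn (An : AnCurve X) (P : X.Pt) {z : K} (hz : z ≠ 0) :
    meromorphicOrderAt (An.fn P z) 0 = X.ord P z := by
  rw [An.ord P z hz 0 (mem_ball_zero P), An.c_zero]

theorem le_ord_fn (An : AnCurve X) (P : X.Pt) {z : K} {D : X.Pt →₀ ℤ} (hz : z ∈ X.L D) :
    ((-D P : ℤ) : WithTop ℤ) ≤ meromorphicOrderAt (An.fn P z) 0 := by
  by_cases h0 : z = 0
  · subst h0
    rw [meromorphicOrderAt_eq_top_iff.2 (An.fn_zero P (mem_ball_zero P))]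
    exact le_top
  · rw [An.ord_fn P h0]
    have h1 := hz h0 P
    have : -D P ≤ X.ord P z := by linarith
    exact_mod_cast this

theorem fn_inj (An : AnCurve X) [Nonempty X.Pt] {z w : K}
    (h : ∀ P, An.fn P z =ᶠ[𝓝[≠] 0] An.fn P w) : z = w := by
  by_contra hne
  have h0 : z - w ≠ 0 := sub_ne_zero.2 hne
  obtain ⟨P⟩ := ‹Nonempty X.Pt›
  have h1 := An.ord_fn P h0
  have h2 : An.fn P (z - w) =ᶠ[𝓝[≠] 0] 0 := by
    rw [sub_eq_add_neg]
    filter_upwards [An.fn_add P z (-w) 0 (mem_ball_zero P), An.fn_neg P w (mem_ball_zero P), h P]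
      with σ h3 h4 h5
    rw [h3, Pi.add_apply, h4, h5, Pi.zero_apply]
    ring
  rw [meromorphicOrderAt_eq_top_iff.2 h2] at h1
  exact WithTop.top_ne_coe h1

end AnCurve

/-- GAGA: a meromorphic function on the analytic curve is rational. -/
theorem AnCurve.MerFam.exists_fn {K : Type} [Field K] [Algebra ℂ K] {X : Curve K}
    {An : AnCurve X.toCurveOrd} {g : X.Pt → ℂ → ℂ} (hg : An.MerFam g) (hc : An.HolConst)
    (P₀ : X.Pt) : ∃ z : K, ∀ P, ∀ s ∈ ball 0 (An.r P), An.fn P z =ᶠ[𝓝[≠] s] g P := by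
  classical
  have hfin := hg.finite_poles
  -- the polar divisor
  have hE0 : ∀ P, meromorphicOrderAt (g P) 0 < 0 ∨ max 0 (-(meromorphicOrderAt (g P) 0).untop₀) = 0 := by
    intro P
    by_cases h : meromorphicOrderAt (g P) 0 < 0
    · exact Or.inl h
    · right
      rw [not_lt] at h
      have : 0 ≤ (meromorphicOrderAt (g P) 0).untop₀ := WithTop.untop₀_nonneg.2 h
      rw [max_eq_left]
      linarith
  let E : X.Pt →₀ ℤ := Finsupp.ofSupportFinite
    (fun P => max 0 (-(meromorphicOrderAt (g P) 0).untop₀)) (by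
      apply hfin.subset
      intro P hP
      rcases hE0 P with h | h
      · exact h
      · exact absurd h hP)
  have hE : ∀ P, E P = max 0 (-(meromorphicOrderAt (g P) 0).untop₀) := fun P => rfl
  have hE1 : ∀ P, 0 ≤ E P := fun P => by rw [hE]; exact le_max_left _ _
  have hE2 : ∀ P, ((-E P : ℤ) : WithTop ℤ) ≤ meromorphicOrderAt (g P) 0 := by
    intro P
    by_cases h : meromorphicOrderAt (g P) 0 = ⊤
    · rw [h]
      exact le_top
    · rw [← WithTop.coe_untop₀_of_ne_top h]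
      have : -E P ≤ (meromorphicOrderAt (g P) 0).untop₀ := by
        rw [hE]
        have := le_max_right 0 (-(meromorphicOrderAt (g P) 0).untop₀)
        linarith
      exact_mod_cast this
  set D₂ : X.Pt →₀ ℤ := Finsupp.single P₀ (2 * (X.genus : ℤ)) with hD₂
  set D₁ : X.Pt →₀ ℤ := D₂ + E with hD₁
  have hD₂0 : ∀ P, 0 ≤ D₂ P := by
    intro P
    rw [hD₂, Finsupp.single_apply]
    split_ifs
    · have := Int.natCast_nonneg X.genus
      linarith
    · exact le_rfl
  have hD₁0 : ∀ P, 0 ≤ D₁ P := fun P => by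
    rw [hD₁, Finsupp.add_apply]
    exact add_nonneg (hD₂0 P) (hE1 P)
  have hdeg2 : X.deg D₂ = 2 * (X.genus : ℤ) := X.deg_single _ _
  have hdegE : 0 ≤ X.deg E := X.deg_nonneg hE1
  have hdeg1 : X.deg D₁ = 2 * (X.genus : ℤ) + X.deg E := by rw [hD₁, X.deg_add, hdeg2]
  have := X.finite_L P₀ D₁
  have := X.finite_L P₀ D₂
  have hr1 := X.riemann_roch D₁ (by rw [hdeg1]; linarith)
  have hr2 := X.riemann_roch D₂ (by rw [hdeg2]; linarith)
  obtain ⟨n, hn⟩ := Int.eq_ofNat_of_zero_le (X.deg_nonneg hD₁0)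
  have h1 := finrank_WW_le hg D₁ D₂ n D₁ hD₁0 hn
  have htop : WW hg D₁ D₂ D₁ = ⊤ := by
    rw [eq_top_iff]
    rintro ⟨a, b⟩ -
    rw [mem_WW]
    intro P
    have h2 := An.le_ord_fn P a.2
    have h3 := An.le_ord_fn P b.2
    have h4 := hE2 P
    have hm1 := An.fn_mero P (a : K) 0 (mem_ball_zero P)
    have hm2 := An.fn_mero P (b : K) 0 (mem_ball_zero P)
    have hm3 := hg.mero P 0 (mem_ball_zero P)
    refine le_trans ?_ (meromorphicOrderAt_add hm1 (hm3.mul hm2))
    refine le_min h2 ?_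
    rw [meromorphicOrderAt_mul hm3 hm2, hD₁, Finsupp.add_apply]
    calc ((-(D₂ P + E P) : ℤ) : WithTop ℤ) = ((-E P : ℤ) : WithTop ℤ) + ((-D₂ P : ℤ) : WithTop ℤ) := by
          rw [← WithTop.coe_add]
          congr 1
          ring
      _ ≤ _ := add_le_add h4 h3
  -- the holomorphic combinations are constants
  let N : Submodule ℂ (X.L D₁ × X.L D₂) :=
    { carrier := {w | ∀ P, An.comb g ((w.1 : K), (w.2 : K)) P =ᶠ[𝓝[≠] 0] 0}
      zero_mem' := by
        intro P
        filter_upwards [An.fn_zero P (mem_ball_zero P)] with σ h1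
        show An.fn P 0 σ + g P σ * An.fn P 0 σ = 0
        rw [h1]
        simp
      add_mem' := by
        intro w w' h h' P
        have h1 := An.comb_lin g ((w.1 : K), (w.2 : K)) ((w'.1 : K), (w'.2 : K)) 1 1 P
          (mem_ball_zero P)
        simp only [one_smul, one_mul, Prod.mk_add_mk] at h1
        filter_upwards [h1, h P, h' P] with σ h1 h2 h3
        show An.comb g (((w.1 : K) + (w'.1 : K)), ((w.2 : K) + (w'.2 : K))) P σ = 0
        rw [h1, h2, h3]
        simp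
      smul_mem' := by
        intro c w h P
        have h1 := An.comb_lin g ((w.1 : K), (w.2 : K)) 0 c 0 P (mem_ball_zero P)
        simp only [smul_zero, add_zero, zero_mul, Prod.smul_mk] at h1
        filter_upwards [h1, h P] with σ h1 h2
        show An.comb g ((c • (w.1 : K)), (c • (w.2 : K))) P σ = 0
        rw [h1, h2]
        simp }
  have h2 : finrank ℂ (WW hg D₁ D₂ 0) ≤ finrank ℂ N + 1 := by
    apply finrank_le_add_one
    intro x hx y hy
    have hx' : ∀ P, 0 ≤ meromorphicOrderAt (An.comb g ((x.1 : K), (x.2 : K)) P) 0 := by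
      intro P
      have := mem_WW.1 hx P
      simpa using this
    have hy' : ∀ P, 0 ≤ meromorphicOrderAt (An.comb g ((y.1 : K), (y.2 : K)) P) 0 := by
      intro P
      have := mem_WW.1 hy P
      simpa using this
    obtain ⟨α, hα⟩ := (hg.comb ((x.1 : K), (x.2 : K))).const hc hx'
    obtain ⟨β, hβ⟩ := (hg.comb ((y.1 : K), (y.2 : K))).const hc hy'
    obtain ⟨a, b, hab, h0⟩ : ∃ a b : ℂ, (a ≠ 0 ∨ b ≠ 0) ∧ a * α + b * β = 0 := by
      by_cases h : β ≠ 0 ∨ -α ≠ 0
      · exact ⟨β, -α, h, by ring⟩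
      · push Not at h
        refine ⟨1, 0, Or.inl one_ne_zero, ?_⟩
        rw [neg_eq_zero.1 h.2]
        ring
    refine ⟨a, b, hab, fun P => ?_⟩
    have h3 := An.comb_lin g ((x.1 : K), (x.2 : K)) ((y.1 : K), (y.2 : K)) a b P
      (mem_ball_zero P)
    filter_upwards [h3, hα P, hβ P] with σ h4 h5 h6
    show An.comb g (a • ((x.1 : K), (x.2 : K)) + b • ((y.1 : K), (y.2 : K))) P σ = 0
    rw [h4, h5, h6, h0]
  have h3 : finrank ℂ (X.L D₁ × X.L D₂) = finrank ℂ (X.L D₁) + finrank ℂ (X.L D₂) :=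
    finrank_prod
  rw [htop, finrank_top, h3] at h1
  have h4 : 0 < finrank ℂ N := by
    have h5 : (finrank ℂ (X.L D₁) : ℤ) + finrank ℂ (X.L D₂) ≤ n + (finrank ℂ N + 1) := by
      exact_mod_cast h1.trans (Nat.add_le_add_left h2 n)
    rw [hr1, hr2, hdeg2] at h5
    have h6 : (n : ℤ) = X.deg D₁ := hn.symm
    rw [h6] at h5
    have h7 : (0 : ℤ) < finrank ℂ N := by linarith
    exact_mod_cast h7
  have h5 : N ≠ ⊥ := by
    intro h
    rw [h, finrank_bot] at h4
    exact lt_irrefl _ h4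
  obtain ⟨w, hw, hw0⟩ := Submodule.exists_mem_ne_zero_of_ne_bot h5
  obtain ⟨a, b⟩ := w
  have : Nonempty X.Pt := ⟨P₀⟩
  have hab : ∀ P, ∀ s ∈ ball 0 (An.r P), An.comb g ((a : K), (b : K)) P =ᶠ[𝓝[≠] s] 0 :=
    fun P s hs => (hg.comb ((a : K), (b : K))).eventually_zero hw P hs
  have hb : (b : K) ≠ 0 := by
    intro hb
    have ha : (a : K) = 0 := by
      apply An.fn_inj
      intro P
      have h6 := hw P
      filter_upwards [h6, An.fn_zero P (mem_ball_zero P)] with σ h7 h8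
      have h9 : An.fn P (a : K) σ + g P σ * An.fn P (b : K) σ = 0 := h7
      rw [hb, h8] at h9
      rw [h8]
      simpa using h9
    apply hw0
    exact Prod.ext (Subtype.ext ha) (Subtype.ext hb)
  refine ⟨-(a : K) / b, fun P s hs => ?_⟩
  have h6 := An.fn_mul P (-(a : K) / b) b s hs
  rw [div_mul_cancel₀ _ hb] at h6
  have h7 : meromorphicOrderAt (An.fn P b) s ≠ ⊤ := by
    rw [An.ord P _ hb s hs]
    exact WithTop.coe_ne_top
  have h8 := (meromorphicOrderAt_ne_top_iff_eventually_ne_zero (An.fn_mero P b s hs)).1 h7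
  filter_upwards [h6, h8, hab P s hs, An.fn_neg P (a : K) hs] with σ h9 h10 h11 h12
  have h13 : An.fn P (a : K) σ + g P σ * An.fn P (b : K) σ = 0 := h11
  rw [h12, Pi.mul_apply] at h9
  have h14 : (An.fn P (-(a : K) / b) σ - g P σ) * An.fn P (b : K) σ = 0 := by
    linear_combination -h9 - h13
  rcases mul_eq_zero.1 h14 with h | h
  · linear_combination h
  · exact absurd h h10

end

end Pool.Agent.YTDA
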