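import Pool.Agent.YTD.HypLoc

/-!
The field of germs at `0` of meromorphic functions of one complex variable.
-/

namespace Pool.Agent.YTDA

open Complex Set Topology Filter Metric
open Pool.Agent.YTD

noncomputable section

/-- the ring of germs at `0` of meromorphic functions, as germs on punctured neighbourhoods -/
def MGs : Subring (Filter.Germ (𝓝[≠] (0 : ℂ)) ℂ) where
  carrier := {g | ∃ f : ℂ → ℂ, MeromorphicAt f 0 ∧ (f : Filter.Germ (𝓝[≠] (0 : ℂ)) ℂ) = g}
  mul_mem' := by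
    rintro _ _ ⟨f, hf, rfl⟩ ⟨g, hg, rfl⟩
    exact ⟨f * g, hf.mul hg, rfl⟩
  one_mem' := ⟨1, MeromorphicAt.const 1 0, rfl⟩
  add_mem' := by
    rintro _ _ ⟨f, hf, rfl⟩ ⟨g, hg, rfl⟩
    exact ⟨f + g, hf.add hg, rfl⟩
  zero_mem' := ⟨0, MeromorphicAt.const 0 0, rfl⟩
  neg_mem' := by
    rintro _ ⟨f, hf, rfl⟩
    exact ⟨-f, hf.neg, rfl⟩

/-- the field of germs at `0` of meromorphic functions -/
def Germ : Type := MGs

instance : CommRing Germ := inferInstanceAs (CommRing MGs)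

/-- the germ of a function (`0` if the function is not meromorphic at `0`) -/
def gm (f : ℂ → ℂ) : Germ :=
  open Classical in
  if h : MeromorphicAt f 0 then (⟨(f : Filter.Germ (𝓝[≠] (0 : ℂ)) ℂ), f, h, rfl⟩ : MGs) else (0 : MGs)

theorem gm_val {f : ℂ → ℂ} (hf : MeromorphicAt f 0) :
    (show MGs from gm f).1 = (f : Filter.Germ (𝓝[≠] (0 : ℂ)) ℂ) := by
  unfold gm
  rw [dif_pos hf]

theorem gm_eq_iff {f g : ℂ → ℂ} (hf : MeromorphicAt f 0) (hg : MeromorphicAt g 0) :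
    gm f = gm g ↔ f =ᶠ[𝓝[≠] 0] g := by
  rw [← Filter.Germ.coe_eq, ← gm_val hf, ← gm_val hg]
  exact Subtype.ext_iff

theorem gm_congr {f g : ℂ → ℂ} (h : f =ᶠ[𝓝[≠] 0] g) : gm f = gm g := by
  by_cases hf : MeromorphicAt f 0
  · exact (gm_eq_iff hf (hf.congr h)).2 h
  · have hg : ¬ MeromorphicAt g 0 := fun hg => hf (hg.congr h.symm)
    unfold gm
    rw [dif_neg hf, dif_neg hg]

theorem gm_surj (x : Germ) : ∃ f : ℂ → ℂ, MeromorphicAt f 0 ∧ gm f = x := by
  obtain ⟨f, hf, hx⟩ := (show MGs from x).2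
  refine ⟨f, hf, ?_⟩
  apply Subtype.ext
  rw [← hx]
  exact gm_val hf

theorem gm_add {f g : ℂ → ℂ} (hf : MeromorphicAt f 0) (hg : MeromorphicAt g 0) :
    gm (f + g) = gm f + gm g := by
  apply Subtype.ext
  refine (gm_val (hf.add hg)).trans ?_
  show _ = (show MGs from gm f).1 + (show MGs from gm g).1
  rw [gm_val hf, gm_val hg]
  rfl

theorem gm_mul {f g : ℂ → ℂ} (hf : MeromorphicAt f 0) (hg : MeromorphicAt g 0) :
    gm (f * g) = gm f * gm g := by
  apply Subtype.ext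
  refine (gm_val (hf.mul hg)).trans ?_
  show _ = (show MGs from gm f).1 * (show MGs from gm g).1
  rw [gm_val hf, gm_val hg]
  rfl

theorem gm_neg {f : ℂ → ℂ} (hf : MeromorphicAt f 0) : gm (-f) = - gm f := by
  apply Subtype.ext
  refine (gm_val hf.neg).trans ?_
  show _ = - (show MGs from gm f).1
  rw [gm_val hf]
  rfl

theorem gm_one : gm 1 = 1 := by
  apply Subtype.ext
  exact gm_val (MeromorphicAt.const 1 0)

theorem gm_zero : gm 0 = 0 := by
  apply Subtype.ext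
  exact gm_val (MeromorphicAt.const 0 0)

theorem gm_eq_zero_iff {f : ℂ → ℂ} (hf : MeromorphicAt f 0) :
    gm f = 0 ↔ ∀ᶠ z in 𝓝[≠] (0 : ℂ), f z = 0 := by
  rw [← gm_zero]
  exact gm_eq_iff hf (MeromorphicAt.const 0 0)

theorem gm_inv_mul {f : ℂ → ℂ} (hf : MeromorphicAt f 0) (h0 : gm f ≠ 0) :
    gm f * gm f⁻¹ = 1 := by
  rw [← gm_mul hf hf.inv, ← gm_one]
  apply gm_congr
  have h1 := hf.eventually_eq_zero_or_eventually_ne_zero
  rw [Ne, gm_eq_zero_iff hf] at h0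
  rcases h1 with h1 | h1
  · exact absurd h1 h0
  · filter_upwards [h1] with z hz
    show f z * (f z)⁻¹ = 1
    exact mul_inv_cancel₀ hz

theorem germ_isField : IsField Germ where
  exists_pair_ne := ⟨0, 1, by
    rw [← gm_zero, ← gm_one]
    intro h0
    have h := (gm_eq_iff (MeromorphicAt.const 0 0) (MeromorphicAt.const 1 0)).1 h0
    obtain ⟨z, hz⟩ := h.exists
    exact zero_ne_one hz⟩
  mul_comm := mul_comm
  mul_inv_cancel := by
    intro a ha
    obtain ⟨f, hf, rfl⟩ := gm_surj a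
    exact ⟨gm f⁻¹, gm_inv_mul hf ha⟩

instance : Field Germ := germ_isField.toField

theorem gm_inv {f : ℂ → ℂ} (hf : MeromorphicAt f 0) : gm f⁻¹ = (gm f)⁻¹ := by
  by_cases h : gm f = 0
  · rw [h, inv_zero]
    rw [gm_eq_zero_iff hf] at h
    rw [gm_eq_zero_iff hf.inv]
    filter_upwards [h] with z hz
    show (f z)⁻¹ = 0
    rw [hz, inv_zero]
  · exact eq_inv_of_mul_eq_one_right (gm_inv_mul hf h)

theorem gm_pow {f : ℂ → ℂ} (hf : MeromorphicAt f 0) (n : ℕ) : gm (f ^ n) = gm f ^ n := by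
  induction n with
  | zero => rw [pow_zero, pow_zero, gm_one]
  | succ n ih => rw [pow_succ, pow_succ, gm_mul (hf.pow n) hf, ih]

theorem gm_zpow {f : ℂ → ℂ} (hf : MeromorphicAt f 0) (n : ℤ) : gm (f ^ n) = gm f ^ n := by
  cases n with
  | ofNat n => exact (congrArg gm (zpow_natCast f n)).trans ((gm_pow hf n).trans (zpow_natCast _ n).symm)
  | negSucc n =>
    rw [zpow_negSucc, zpow_negSucc, gm_inv (hf.pow _), gm_pow hf]

theorem gm_sub {f g : ℂ → ℂ} (hf : MeromorphicAt f 0) (hg : MeromorphicAt g 0) :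
    gm (f - g) = gm f - gm g := by
  rw [sub_eq_add_neg, gm_add hf hg.neg, gm_neg hg, ← sub_eq_add_neg]

/-- the constant germs -/
def gmC : ℂ →+* Germ where
  toFun c := gm (fun _ => c)
  map_one' := gm_one
  map_zero' := gm_zero
  map_mul' a b := gm_mul (MeromorphicAt.const a 0) (MeromorphicAt.const b 0)
  map_add' a b := gm_add (MeromorphicAt.const a 0) (MeromorphicAt.const b 0)

instance : Algebra ℂ Germ := gmC.toAlgebra

theorem algebraMap_germ (c : ℂ) : algebraMap ℂ Germ c = gm (fun _ => c) := rfl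

theorem smul_germ (c : ℂ) {f : ℂ → ℂ} (hf : MeromorphicAt f 0) :
    c • gm f = gm (fun z => c * f z) := by
  rw [Algebra.smul_def, algebraMap_germ, ← gm_mul (MeromorphicAt.const c 0) hf]
  rfl

/-! ### Order and leading coefficient -/

/-- a representative -/
def rep₀ (x : Germ) : ℂ → ℂ := (gm_surj x).choose

theorem rep₀_mero (x : Germ) : MeromorphicAt (rep₀ x) 0 := (gm_surj x).choose_spec.1

theorem gm_rep₀ (x : Germ) : gm (rep₀ x) = x := (gm_surj x).choose_spec.2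

theorem rep₀_gm {f : ℂ → ℂ} (hf : MeromorphicAt f 0) : rep₀ (gm f) =ᶠ[𝓝[≠] 0] f :=
  (gm_eq_iff (rep₀_mero _) hf).1 (gm_rep₀ _)

/-- order of a germ, with values in `ℤ ∪ {∞}` -/
def mo (x : Germ) : WithTop ℤ := meromorphicOrderAt (rep₀ x) 0

theorem mo_gm {f : ℂ → ℂ} (hf : MeromorphicAt f 0) : mo (gm f) = meromorphicOrderAt f 0 :=
  meromorphicOrderAt_congr (rep₀_gm hf)

theorem mo_eq_top {x : Germ} : mo x = ⊤ ↔ x = 0 := by
  unfold mo
  rw [meromorphicOrderAt_eq_top_iff, ← gm_eq_zero_iff (rep₀_mero x), gm_rep₀]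

/-- order of a germ -/
def go (x : Germ) : ℤ := (mo x).untop₀

theorem go_gm {f : ℂ → ℂ} (hf : MeromorphicAt f 0) :
    go (gm f) = (meromorphicOrderAt f 0).untop₀ := by
  unfold go
  rw [mo_gm hf]

theorem coe_go {x : Germ} (hx : x ≠ 0) : ((go x : ℤ) : WithTop ℤ) = mo x :=
  WithTop.coe_untop₀_of_ne_top (fun h => hx (mo_eq_top.1 h))

/-- leading coefficient of a germ -/
def glc (x : Germ) : ℂ := meromorphicTrailingCoeffAt (rep₀ x) 0

theorem glc_gm {f : ℂ → ℂ} (hf : MeromorphicAt f 0) :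
    glc (gm f) = meromorphicTrailingCoeffAt f 0 :=
  meromorphicTrailingCoeffAt_congr_nhdsNE (rep₀_gm hf)

/-- standard form of a nonzero germ -/
theorem exists_std {x : Germ} (hx : x ≠ 0) : ∃ g : ℂ → ℂ, AnalyticAt ℂ g 0 ∧ g 0 = glc x ∧ glc x ≠ 0 ∧
    x = gm (fun z => z ^ go x * g z) := by
  have h1 := rep₀_mero x
  have h2 : meromorphicOrderAt (rep₀ x) 0 = (go x : ℤ) := (coe_go hx).symm
  obtain ⟨g, hg, hg0, he⟩ := (meromorphicOrderAt_eq_int_iff h1).1 h2
  have h3 := hg.meromorphicTrailingCoeffAt_of_ne_zero_of_eq_nhdsNE hg0 he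
  refine ⟨g, hg, h3.symm, by rw [glc, h3]; exact hg0, ?_⟩
  nth_rewrite 1 [← gm_rep₀ x]
  apply gm_congr
  filter_upwards [he] with z hz
  rw [hz, sub_zero, smul_eq_mul]

theorem std_mero {g : ℂ → ℂ} (hg : AnalyticAt ℂ g 0) (n : ℤ) :
    MeromorphicAt (fun z => z ^ n * g z) 0 := by
  have h1 : MeromorphicAt (fun z : ℂ => z ^ n) 0 := (MeromorphicAt.id 0).zpow n
  exact h1.mul hg.meromorphicAt

theorem std_ord {g : ℂ → ℂ} (hg : AnalyticAt ℂ g 0) (hg0 : g 0 ≠ 0) (n : ℤ) :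
    gm (fun z => z ^ n * g z) ≠ 0 ∧ go (gm (fun z => z ^ n * g z)) = n ∧
      glc (gm (fun z => z ^ n * g z)) = g 0 := by
  have h1 := std_mero hg n
  have h2 : meromorphicOrderAt (fun z => z ^ n * g z) 0 = n := by
    rw [meromorphicOrderAt_eq_int_iff h1]
    refine ⟨g, hg, hg0, ?_⟩
    filter_upwards with z
    rw [sub_zero, smul_eq_mul]
  refine ⟨?_, ?_, ?_⟩
  · rw [Ne, ← mo_eq_top, mo_gm h1, h2]
    exact WithTop.coe_ne_top
  · rw [go_gm h1, h2]
    rfl
  · rw [glc_gm h1]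
    apply hg.meromorphicTrailingCoeffAt_of_ne_zero_of_eq_nhdsNE (n := n) hg0
    filter_upwards with z
    rw [sub_zero, smul_eq_mul]

theorem go_mul {x y : Germ} (hx : x ≠ 0) (hy : y ≠ 0) : go (x * y) = go x + go y := by
  obtain ⟨f, hf, rfl⟩ := gm_surj x
  obtain ⟨g, hg, rfl⟩ := gm_surj y
  have h1 : mo (gm f) ≠ ⊤ := fun h => hx (mo_eq_top.1 h)
  have h2 : mo (gm g) ≠ ⊤ := fun h => hy (mo_eq_top.1 h)
  rw [mo_gm hf] at h1
  rw [mo_gm hg] at h2
  rw [← gm_mul hf hg, go_gm (hf.mul hg), go_gm hf, go_gm hg, meromorphicOrderAt_mul hf hg,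
    WithTop.untop₀_add h1 h2]

theorem go_add {x y : Germ} (h : x + y ≠ 0) : min (go x) (go y) ≤ go (x + y) := by
  by_cases hx : x = 0
  · rw [hx, zero_add]
    exact min_le_right _ _
  by_cases hy : y = 0
  · rw [hy, add_zero]
    exact min_le_left _ _
  have key : min (mo x) (mo y) ≤ mo (x + y) := by
    obtain ⟨f, hf, rfl⟩ := gm_surj x
    obtain ⟨g, hg, rfl⟩ := gm_surj y
    rw [← gm_add hf hg, mo_gm (hf.add hg), mo_gm hf, mo_gm hg]
    exact meromorphicOrderAt_add hf hg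
  rw [← coe_go hx, ← coe_go hy, ← coe_go h] at key
  exact_mod_cast key

theorem go_const (c : ℂ) : go (algebraMap ℂ Germ c) = 0 := by
  classical
  rw [algebraMap_germ, go_gm (MeromorphicAt.const c 0), meromorphicOrderAt_const]
  split_ifs <;> rfl

theorem glc_mul (x y : Germ) : glc (x * y) = glc x * glc y := by
  obtain ⟨f, hf, rfl⟩ := gm_surj x
  obtain ⟨g, hg, rfl⟩ := gm_surj y
  rw [← gm_mul hf hg, glc_gm (hf.mul hg), glc_gm hf, glc_gm hg]
  exact hf.meromorphicTrailingCoeffAt_mul hg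

theorem glc_const (c : ℂ) : glc (algebraMap ℂ Germ c) = c := by
  rw [algebraMap_germ, glc_gm (MeromorphicAt.const c 0)]
  exact meromorphicTrailingCoeffAt_const

theorem glc_neg (x : Germ) : glc (-x) = - glc x := by
  obtain ⟨f, hf, rfl⟩ := gm_surj x
  rw [← gm_neg hf, glc_gm hf.neg, glc_gm hf]
  exact meromorphicTrailingCoeffAt_neg

theorem glc_add {x y : Germ} (hx : x ≠ 0) (hy : y ≠ 0) (h : go x < go y) :
    glc (x + y) = glc x := by
  have h2 : mo x < mo y := by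
    rw [← coe_go hx, ← coe_go hy]
    exact_mod_cast h
  obtain ⟨f, hf, rfl⟩ := gm_surj x
  obtain ⟨g, hg, rfl⟩ := gm_surj y
  rw [mo_gm hf, mo_gm hg] at h2
  rw [← gm_add hf hg, glc_gm (hf.add hg), glc_gm hf]
  exact hg.meromorphicTrailingCoeffAt_add_eq_left_of_lt h2

theorem glc_ne {x : Germ} (hx : x ≠ 0) : glc x ≠ 0 := by
  obtain ⟨_, _, _, h, _⟩ := exists_std hx
  exact h

theorem go_res {x y : Germ} (hx : x ≠ 0) (hy : y ≠ 0) (h : go x = go y) :
    ∃ c : ℂ, x - c • y = 0 ∨ go x < go (x - c • y) := by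
  obtain ⟨f, hf, hf0, hf1, hfx⟩ := exists_std hx
  obtain ⟨g, hg, hg0, hg1, hgx⟩ := exists_std hy
  refine ⟨glc x / glc y, ?_⟩
  rw [← h] at hgx
  set n := go x with hn
  set c := glc x / glc y with hc
  have hk : AnalyticAt ℂ (fun z => f z - c * g z) 0 := hf.sub (analyticAt_const.mul hg)
  have e1 : x - c • y = gm (fun z => z ^ n * (f z - c * g z)) := by
    nth_rewrite 1 [hfx]
    nth_rewrite 1 [hgx]
    rw [smul_germ c (std_mero hg n)]
    refine (gm_sub (std_mero hf n) ((MeromorphicAt.const c 0).mul (std_mero hg n))).symm.trans ?_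
    congr 1
    funext z
    simp only [Pi.sub_apply, Pi.mul_apply]
    ring
  by_cases h0 : x - c • y = 0
  · exact Or.inl h0
  right
  have h2 : (n : WithTop ℤ) < mo (x - c • y) := by
    rw [e1, mo_gm (std_mero hk n)]
    have h3 : meromorphicOrderAt (fun z : ℂ => z ^ n * (f z - c * g z)) 0 =
        n + meromorphicOrderAt (fun z => f z - c * g z) 0 := by
      have h4 : MeromorphicAt (fun z : ℂ => z ^ n) 0 := (MeromorphicAt.id 0).zpow n
      have h5 : meromorphicOrderAt (fun z : ℂ => z ^ n) 0 = n := by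
        rw [meromorphicOrderAt_eq_int_iff h4]
        refine ⟨fun _ => 1, analyticAt_const, one_ne_zero, ?_⟩
        filter_upwards with z
        rw [sub_zero, smul_eq_mul, mul_one]
      rw [← h5]
      exact meromorphicOrderAt_mul h4 hk.meromorphicAt
    rw [h3]
    have h6 : 0 < meromorphicOrderAt (fun z => f z - c * g z) 0 := by
      rw [← tendsto_zero_iff_meromorphicOrderAt_pos hk.meromorphicAt]
      have h7 := hk.continuousAt.tendsto
      have h8 : f 0 - c * g 0 = 0 := by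
        rw [hf0, hg0, hc, div_mul_cancel₀ _ hg1, sub_self]
      simp only [h8] at h7
      exact h7.mono_left nhdsWithin_le_nhds
    cases h9 : meromorphicOrderAt (fun z => f z - c * g z) 0 with
    | top => exact WithTop.coe_lt_top n
    | coe m =>
      rw [h9] at h6
      have h10 : 0 < m := by exact_mod_cast h6
      have h11 : n < n + m := by linarith
      exact_mod_cast h11
  rw [← coe_go h0] at h2
  exact_mod_cast h2

/-- analytic square roots -/
theorem exists_sqrt_analytic {g : ℂ → ℂ} {a : ℂ} (hg : AnalyticAt ℂ g a) (hg0 : g a ≠ 0) {b : ℂ}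
    (hb : b ^ 2 = g a) : ∃ r : ℂ → ℂ, AnalyticAt ℂ r a ∧ r a = b ∧ ∀ᶠ z in 𝓝 a, r z ^ 2 = g z := by
  have h1 : AnalyticAt ℂ (fun z => g z / g a) a := hg.div analyticAt_const hg0
  have h2 : g a / g a ∈ slitPlane := by
    rw [div_self hg0]
    exact one_mem_slitPlane
  have h3 : AnalyticAt ℂ (fun z => log (g z / g a)) a := h1.clog h2
  refine ⟨fun z => b * exp (log (g z / g a) / 2), ?_, ?_, ?_⟩
  · exact analyticAt_const.mul ((h3.div analyticAt_const two_ne_zero).cexp)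
  · show b * exp (log (g a / g a) / 2) = b
    rw [div_self hg0, log_one, zero_div, exp_zero, mul_one]
  · filter_upwards [hg.continuousAt.eventually_ne hg0] with z hz
    rw [mul_pow, ← exp_nat_mul, hb]
    have : ((2 : ℕ) : ℂ) * (log (g z / g a) / 2) = log (g z / g a) := by
      push_cast
      ring
    rw [this, exp_log (div_ne_zero hz hg0), mul_div_cancel₀ _ hg0]

theorem go_sqrt {z : Germ} (hz : z ≠ 0) (he : Even (go z)) (b : ℂ) (hb : b ^ 2 = glc z) :
    ∃ η : Germ, η ^ 2 = z ∧ glc η = b := by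
  obtain ⟨g, hg, hg0, hg1, hgz⟩ := exists_std hz
  obtain ⟨m, hm⟩ := he
  obtain ⟨r, hr, hr0, hr1⟩ := exists_sqrt_analytic hg (by rw [hg0]; exact hg1) (by rw [hb, hg0])
  have hb0 : r 0 ≠ 0 := by
    rw [hr0]
    rintro rfl
    apply hg1
    rw [← hb]
    ring
  obtain ⟨h1, h2, h3⟩ := std_ord hr hb0 m
  refine ⟨gm (fun z => z ^ m * r z), ?_, by rw [h3, hr0]⟩
  rw [← gm_pow (std_mero hr m)]
  refine Eq.trans ?_ hgz.symm
  apply gm_congr
  filter_upwards [hr1.filter_mono nhdsWithin_le_nhds, self_mem_nhdsWithin] with w hw hw0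
  show (w ^ m * r w) ^ 2 = w ^ go z * g w
  rw [mul_pow, hw, hm, zpow_add₀ hw0]
  ring

/-- the germ of the identity -/
def gs : Germ := gm (fun z => z)

theorem gs_spec : gs ≠ 0 ∧ go gs = 1 ∧ glc gs = 1 := by
  have h := std_ord (g := fun _ => (1 : ℂ)) analyticAt_const one_ne_zero 1
  have e : (fun z : ℂ => z ^ (1 : ℤ) * 1) = fun z => z := by
    funext z
    rw [zpow_one, mul_one]
  rw [e] at h
  exact h

/-- The field of germs of meromorphic functions has the properties of the field of Laurent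
series. -/
def lam : Hyp.LF Germ where
  ord := go
  lc := glc
  ord_mul := go_mul
  ord_add := go_add
  ord_const := go_const
  lc_mul := glc_mul
  lc_const := glc_const
  lc_neg := glc_neg
  lc_add := glc_add
  res := go_res
  sqrt := go_sqrt
  s := gs
  s_ne := gs_spec.1
  ord_s := gs_spec.2.1
  lc_s := gs_spec.2.2

/-! ### Interface -/

namespace Germ

/-- the germ of a meromorphic function -/
def mk (f : ℂ → ℂ) (_ : MeromorphicAt f 0) : Germ := gm f

/-- a representative of a germ -/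
def rep (x : Germ) : ℂ → ℂ := rep₀ x

theorem rep_mero (x : Germ) : MeromorphicAt x.rep 0 := rep₀_mero x

theorem rep_mk (f : ℂ → ℂ) (hf : MeromorphicAt f 0) : (mk f hf).rep =ᶠ[𝓝[≠] 0] f := rep₀_gm hf

theorem gm_rep (x : Germ) : gm x.rep = x := gm_rep₀ x

theorem mk_rep (x : Germ) : mk x.rep x.rep_mero = x := gm_rep₀ x

theorem ext {x y : Germ} (h : x.rep =ᶠ[𝓝[≠] 0] y.rep) : x = y := by
  rw [← gm_rep x, ← gm_rep y]
  exact gm_congr h

theorem ext_iff {x y : Germ} : x = y ↔ x.rep =ᶠ[𝓝[≠] 0] y.rep := by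
  constructor
  · rintro rfl
    exact EventuallyEq.rfl
  · exact ext

theorem mk_eq_iff {f : ℂ → ℂ} (hf : MeromorphicAt f 0) {x : Germ} :
    mk f hf = x ↔ f =ᶠ[𝓝[≠] 0] x.rep := by
  rw [ext_iff]
  exact ⟨fun h => (rep_mk f hf).symm.trans h, fun h => (rep_mk f hf).trans h⟩

theorem eq_mk_iff {f : ℂ → ℂ} (hf : MeromorphicAt f 0) {x : Germ} :
    x = mk f hf ↔ x.rep =ᶠ[𝓝[≠] 0] f := by
  rw [eq_comm, mk_eq_iff]
  exact ⟨fun h => h.symm, fun h => h.symm⟩

theorem rep_gm {f : ℂ → ℂ} (hf : MeromorphicAt f 0) : (gm f).rep =ᶠ[𝓝[≠] 0] f := rep₀_gm hf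

theorem rep_add (x y : Germ) : (x + y).rep =ᶠ[𝓝[≠] 0] fun s => x.rep s + y.rep s := by
  have h := rep_gm (x.rep_mero.add y.rep_mero)
  rw [gm_add x.rep_mero y.rep_mero, gm_rep, gm_rep] at h
  exact h

theorem rep_mul (x y : Germ) : (x * y).rep =ᶠ[𝓝[≠] 0] fun s => x.rep s * y.rep s := by
  have h := rep_gm (x.rep_mero.mul y.rep_mero)
  rw [gm_mul x.rep_mero y.rep_mero, gm_rep, gm_rep] at h
  exact h

theorem rep_neg (x : Germ) : (-x).rep =ᶠ[𝓝[≠] 0] fun s => - x.rep s := by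
  have h := rep_gm x.rep_mero.neg
  rw [gm_neg x.rep_mero, gm_rep] at h
  exact h

theorem rep_sub (x y : Germ) : (x - y).rep =ᶠ[𝓝[≠] 0] fun s => x.rep s - y.rep s := by
  have h := rep_gm (x.rep_mero.sub y.rep_mero)
  rw [gm_sub x.rep_mero y.rep_mero, gm_rep, gm_rep] at h
  exact h

theorem rep_one : (1 : Germ).rep =ᶠ[𝓝[≠] 0] fun _ => 1 := by
  have h := rep_gm (MeromorphicAt.const (1 : ℂ) 0)
  have h1 : gm (fun _ => (1 : ℂ)) = 1 := gm_one
  rw [h1] at h
  exact h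

theorem rep_zero : (0 : Germ).rep =ᶠ[𝓝[≠] 0] fun _ => 0 := by
  have h := rep_gm (MeromorphicAt.const (0 : ℂ) 0)
  have h1 : gm (fun _ => (0 : ℂ)) = 0 := gm_zero
  rw [h1] at h
  exact h

theorem rep_inv (x : Germ) : (x⁻¹).rep =ᶠ[𝓝[≠] 0] fun s => (x.rep s)⁻¹ := by
  have h := rep_gm x.rep_mero.inv
  rw [gm_inv x.rep_mero, gm_rep] at h
  exact h

theorem rep_div (x y : Germ) : (x / y).rep =ᶠ[𝓝[≠] 0] fun s => x.rep s / y.rep s := by
  rw [div_eq_mul_inv]
  filter_upwards [rep_mul x y⁻¹, rep_inv y] with s h1 h2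
  rw [h1, h2, div_eq_mul_inv]

theorem rep_pow (x : Germ) (n : ℕ) : (x ^ n).rep =ᶠ[𝓝[≠] 0] fun s => x.rep s ^ n := by
  have h := rep_gm (x.rep_mero.pow n)
  rw [gm_pow x.rep_mero, gm_rep] at h
  exact h

theorem rep_zpow (x : Germ) (n : ℤ) : (x ^ n).rep =ᶠ[𝓝[≠] 0] fun s => x.rep s ^ n := by
  have h := rep_gm (x.rep_mero.zpow n)
  rw [gm_zpow x.rep_mero, gm_rep] at h
  exact h

theorem rep_const (a : ℂ) : (algebraMap ℂ Germ a).rep =ᶠ[𝓝[≠] 0] fun _ => a :=
  rep_gm (MeromorphicAt.const a 0)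

theorem rep_smul (a : ℂ) (x : Germ) : (a • x).rep =ᶠ[𝓝[≠] 0] fun s => a * x.rep s := by
  rw [Algebra.smul_def]
  filter_upwards [rep_mul (algebraMap ℂ Germ a) x, rep_const a] with s h1 h2
  rw [h1, h2]

theorem ord_eq {x : Germ} (hx : x ≠ 0) : meromorphicOrderAt x.rep 0 = (lam.ord x : ℤ) :=
  (coe_go hx).symm

theorem rep_s : lam.s.rep =ᶠ[𝓝[≠] 0] fun s => s := rep_gm (MeromorphicAt.id 0)

theorem lc_eq {x : Germ} {n : ℤ} {g : ℂ → ℂ} (hg : AnalyticAt ℂ g 0) (hg0 : g 0 ≠ 0)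
    (h : x.rep =ᶠ[𝓝[≠] 0] fun s => s ^ n * g s) : lam.ord x = n ∧ lam.lc x = g 0 := by
  have h1 := std_ord hg hg0 n
  have h2 : x = gm (fun z => z ^ n * g z) := by
    rw [← gm_rep x]
    exact gm_congr h
  rw [← h2] at h1
  exact h1.2

/-- standard form of a nonzero germ -/
theorem exists_std {x : Germ} (hx : x ≠ 0) : ∃ g : ℂ → ℂ, AnalyticAt ℂ g 0 ∧ g 0 = lam.lc x ∧
    g 0 ≠ 0 ∧ x.rep =ᶠ[𝓝[≠] 0] fun s => s ^ lam.ord x * g s := by
  obtain ⟨g, h1, h2, h3, h4⟩ := Pool.Agent.YTDA.exists_std hx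
  refine ⟨g, h1, h2, by rw [h2]; exact h3, ?_⟩
  have h5 := rep_gm (std_mero h1 (go x))
  rw [← h4] at h5
  exact h5

theorem lc_ne {x : Germ} (hx : x ≠ 0) : lam.lc x ≠ 0 := glc_ne hx

theorem eq_zero_iff {x : Germ} : x = 0 ↔ ∀ᶠ s in 𝓝[≠] (0 : ℂ), x.rep s = 0 := by
  rw [← gm_eq_zero_iff x.rep_mero, gm_rep]

theorem eventually_ne {x : Germ} (hx : x ≠ 0) : ∀ᶠ s in 𝓝[≠] (0 : ℂ), x.rep s ≠ 0 := by
  rcases x.rep_mero.eventually_eq_zero_or_eventually_ne_zero with h | h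
  · exact absurd (eq_zero_iff.2 h) hx
  · exact h

/-- a radius for the representative: on the punctured disc the representative is analytic and
has no zeros unless it vanishes identically -/
theorem exists_rad (x : Germ) : ∃ r : ℝ, 0 < r ∧
    ∀ s : ℂ, s ≠ 0 → ‖s‖ < r → AnalyticAt ℂ x.rep s ∧ (x ≠ 0 → x.rep s ≠ 0) := by
  have h1 : ∀ᶠ s in 𝓝[≠] (0 : ℂ), AnalyticAt ℂ x.rep s ∧ (x ≠ 0 → x.rep s ≠ 0) := by
    by_cases hx : x = 0
    · filter_upwards [x.rep_mero.eventually_analyticAt] with s h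
      exact ⟨h, fun h' => absurd hx h'⟩
    · filter_upwards [x.rep_mero.eventually_analyticAt, eventually_ne hx] with s h h'
      exact ⟨h, fun _ => h'⟩
  rw [eventually_nhdsWithin_iff, Metric.eventually_nhds_iff] at h1
  obtain ⟨r, hr, h⟩ := h1
  refine ⟨r, hr, fun s hs hs' => h (by rwa [dist_zero_right]) hs⟩

/-- radius of the representative -/
def rad (x : Germ) : ℝ := x.exists_rad.choose

theorem rad_pos (x : Germ) : 0 < x.rad := x.exists_rad.choose_spec.1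

theorem rep_analytic (x : Germ) {s : ℂ} (h0 : s ≠ 0) (hs : ‖s‖ < x.rad) : AnalyticAt ℂ x.rep s :=
  (x.exists_rad.choose_spec.2 s h0 hs).1

theorem rep_ne {x : Germ} (hx : x ≠ 0) {s : ℂ} (h0 : s ≠ 0) (hs : ‖s‖ < x.rad) : x.rep s ≠ 0 :=
  (x.exists_rad.choose_spec.2 s h0 hs).2 hx

theorem rep_meroOn (x : Germ) : MeromorphicOn x.rep (ball 0 x.rad) := by
  intro s hs
  by_cases h0 : s = 0
  · rw [h0]
    exact x.rep_mero
  · exact (x.rep_analytic h0 (by simpa using hs)).meromorphicAt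

end Germ

end

end Pool.Agent.YTDA
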