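import Pool.Agent.YTDA.Gaga

/-!
# Holomorphic functions on an analytic curve are constant

`AnCurve.holConst`: `HolConst` for every analytic structure on a curve satisfying Riemann-Roch.
-/

namespace Pool.Agent.YTDA

open Complex Set Topology Metric Filter Module
open Pool.Agent.YTD

noncomputable section

namespace AnCurve

variable {K : Type} [Field K] [Algebra ℂ K] {X : CurveOrd K} (An : AnCurve X)

/-- A function which is continuous in all discs attains its maximum. -/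
theorem exists_max [Nonempty X.Pt] (φ : X.Pt → ℝ)
    (hφ : ∀ P, ContinuousOn (fun s => φ (An.c P s)) (ball 0 (An.r P))) :
    ∃ Q, ∀ P, φ P ≤ φ Q := by
  classical
  obtain ⟨F, hF⟩ := An.cpt (fun P => An.r P / 2) (fun P => half_pos (An.r_pos P))
  have hmax : ∀ P, ∃ s₀ : ℂ, ‖s₀‖ ≤ An.r P / 2 ∧ ∀ s : ℂ, ‖s‖ ≤ An.r P / 2 →
      φ (An.c P s) ≤ φ (An.c P s₀) := by
    intro P
    have hsub : closedBall (0 : ℂ) (An.r P / 2) ⊆ ball 0 (An.r P) :=
      closedBall_subset_ball (half_lt_self (An.r_pos P))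
    obtain ⟨s₀, hs₀, h⟩ := (isCompact_closedBall (0 : ℂ) (An.r P / 2)).exists_isMaxOn
      ⟨0, mem_closedBall_self (half_pos (An.r_pos P)).le⟩ ((hφ P).mono hsub)
    refine ⟨s₀, mem_closedBall_zero_iff.1 hs₀, fun s hs => h (mem_closedBall_zero_iff.2 hs)⟩
  choose m hm1 hm2 using hmax
  have hne : F.Nonempty := by
    obtain ⟨Q⟩ := ‹Nonempty X.Pt›
    obtain ⟨P, hP, -⟩ := hF Q
    exact ⟨P, hP⟩
  obtain ⟨P₀, hP₀, h₀⟩ := F.exists_max_image (fun P => φ (An.c P (m P))) hne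
  refine ⟨An.c P₀ (m P₀), fun Q => ?_⟩
  obtain ⟨P, hP, s, hs, rfl⟩ := hF Q
  exact (hm2 P s hs.le).trans (h₀ P hP)

/-- Maximum principle: at a maximum of the norm a holomorphic function is constant in the disc. -/
theorem const_of_max {G : X.Pt → ℂ}
    (hG : ∀ P, DifferentiableOn ℂ (fun s => G (An.c P s)) (ball 0 (An.r P))) {Q : X.Pt}
    (hQ : ∀ P, ‖G P‖ ≤ ‖G Q‖) {s : ℂ} (hs : s ∈ ball 0 (An.r Q)) : G (An.c Q s) = G Q := by
  have h1 : IsMaxOn (norm ∘ fun s => G (An.c Q s)) (ball 0 (An.r Q)) 0 := by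
    intro σ _
    show ‖G (An.c Q σ)‖ ≤ ‖G (An.c Q 0)‖
    rw [An.c_zero]
    exact hQ _
  have h2 := Complex.eqOn_of_isPreconnected_of_isMaxOn_norm
    (convex_ball (0 : ℂ) (An.r Q)).isPreconnected isOpen_ball (hG Q)
    (mem_ball_self (An.r_pos Q)) h1 hs
  simp only [Function.const_apply] at h2
  rw [An.c_zero] at h2
  exact h2

/-- `A` is open and closed -/
def Clop (A : Set X.Pt) : Prop := ∀ P, ∀ s ∈ ball (0 : ℂ) (An.r P), (An.c P s ∈ A ↔ P ∈ A)

variable {An}

theorem Clop.iff {A : Set X.Pt} (hA : An.Clop A) {P Q : X.Pt} {s s' : ℂ}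
    (hs : s ∈ ball (0 : ℂ) (An.r P)) (hs' : s' ∈ ball (0 : ℂ) (An.r Q))
    (h : An.c P s = An.c Q s') : P ∈ A ↔ Q ∈ A := by
  rw [← hA P s hs, ← hA Q s' hs', h]

theorem clop_of_locally {A : Set X.Pt}
    (h1 : ∀ P ∈ A, ∀ᶠ s in 𝓝 (0 : ℂ), An.c P s ∈ A)
    (h2 : ∀ P, P ∉ A → ∀ᶠ s in 𝓝 (0 : ℂ), An.c P s ∉ A) : An.Clop A := by
  have key : ∀ B : Set X.Pt, (∀ P ∈ B, ∀ᶠ s in 𝓝 (0 : ℂ), An.c P s ∈ B) → ∀ P,
      IsOpen {s | s ∈ ball (0 : ℂ) (An.r P) ∧ An.c P s ∈ B} := by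
    intro B hB P
    rw [isOpen_iff_mem_nhds]
    rintro s ⟨hs, hsB⟩
    obtain ⟨f, hf, hfs, -, hfc, -⟩ := An.tr P (An.c P s) s hs 0 (mem_ball_zero _)
      (An.c_zero _).symm
    have h3 : Tendsto f (𝓝 s) (𝓝 0) := by
      have := hf.continuousAt.tendsto
      rwa [hfs] at this
    filter_upwards [isOpen_ball.mem_nhds hs, h3.eventually (hB _ hsB), hfc] with σ h4 h5 h6
    rw [h6] at h5
    exact ⟨h4, h5⟩
  intro P s hs
  have hconn : IsPreconnected (ball (0 : ℂ) (An.r P)) := (convex_ball _ _).isPreconnected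
  have o1 := key A h1 P
  have o2 := key Aᶜ h2 P
  have hcov : ball (0 : ℂ) (An.r P) ⊆ {s | s ∈ ball (0 : ℂ) (An.r P) ∧ An.c P s ∈ A} ∪
      {s | s ∈ ball (0 : ℂ) (An.r P) ∧ An.c P s ∈ Aᶜ} := by
    intro σ hσ
    by_cases h : An.c P σ ∈ A
    · exact Or.inl ⟨hσ, h⟩
    · exact Or.inr ⟨hσ, h⟩
  by_contra hne
  have h0 : (0 : ℂ) ∈ ball (0 : ℂ) (An.r P) := mem_ball_zero P
  have hboth : (ball (0 : ℂ) (An.r P) ∩ {s | s ∈ ball (0 : ℂ) (An.r P) ∧ An.c P s ∈ A}).Nonempty ∧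
      (ball (0 : ℂ) (An.r P) ∩ {s | s ∈ ball (0 : ℂ) (An.r P) ∧ An.c P s ∈ Aᶜ}).Nonempty := by
    by_cases h : P ∈ A
    · have h3 : An.c P s ∉ A := fun h' => hne ⟨fun _ => h, fun _ => h'⟩
      exact ⟨⟨0, h0, h0, by rw [An.c_zero]; exact h⟩, ⟨s, hs, hs, h3⟩⟩
    · have h3 : An.c P s ∈ A := by
        by_contra h'
        exact hne ⟨fun h'' => absurd h'' h', fun h'' => absurd h'' h⟩
      exact ⟨⟨s, hs, hs, h3⟩, ⟨0, h0, h0, by rw [An.c_zero]; exact h⟩⟩
  obtain ⟨σ, -, ⟨-, h4⟩, ⟨-, h5⟩⟩ := hconn _ _ o1 o2 hcov hboth.1 hboth.2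
  exact h5 h4

/-- A rational function which is constant near a point is constant. -/
theorem eq_const_of_eventually {z : K} {P : X.Pt} {a : ℂ}
    (h : An.fn P z =ᶠ[𝓝[≠] 0] fun _ => a) : z = algebraMap ℂ K a := by
  by_contra hne
  have h0 : z + algebraMap ℂ K (-a) ≠ 0 := by
    rw [map_neg, ← sub_eq_add_neg]
    exact sub_ne_zero.2 hne
  have h1 := An.ord_fn P h0
  have h2 : An.fn P (z + algebraMap ℂ K (-a)) =ᶠ[𝓝[≠] 0] 0 := by
    filter_upwards [An.fn_add P z (algebraMap ℂ K (-a)) 0 (mem_ball_zero P),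
      An.fn_const P (-a) 0 (mem_ball_zero P), h] with σ h3 h4 h5
    rw [h3, Pi.add_apply, h4, h5, Pi.zero_apply]
    ring
  rw [meromorphicOrderAt_eq_top_iff.2 h2] at h1
  exact WithTop.top_ne_coe h1

/-- the family which is `z` on `B` and zero off `B` is meromorphic if `B` is open and closed -/
theorem MerFam.restrict {B : Set X.Pt} [DecidablePred (· ∈ B)] (hB : An.Clop B) (z : K) :
    An.MerFam fun P => if P ∈ B then An.fn P z else 0 where
  mero P := by
    by_cases h : P ∈ B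
    · rw [if_pos h]
      exact An.fn_mero P z
    · rw [if_neg h]
      exact MeromorphicOn.const 0
  tr P Q s hs s' hs' hc f hf hfs hf' hfc := by
    have h1 := hB.iff hs hs' hc
    by_cases h : P ∈ B
    · rw [if_pos h, if_pos (h1.1 h)]
      exact (merFam_fn z).tr P Q s hs s' hs' hc f hf hfs hf' hfc
    · rw [if_neg h, if_neg (fun h' => h (h1.2 h'))]
      exact Eventually.of_forall fun _ => rfl

end AnCurve

open AnCurve in
/-- T6 (a): everywhere holomorphic functions are constant. -/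
theorem AnCurve.holConst {K : Type} [Field K] [Algebra ℂ K] {X : Curve K}
    (An : AnCurve X.toCurveOrd) : An.HolConst := by
  classical
  intro G hG
  rcases isEmpty_or_nonempty X.Pt with hE | hN
  · exact ⟨0, fun P => (hE.false P).elim⟩
  obtain ⟨Q₀, hQ₀⟩ := An.exists_max (fun P => ‖G P‖) (fun P => (hG P).continuousOn.norm)
  refine ⟨G Q₀, ?_⟩
  by_contra hcon
  push Not at hcon
  obtain ⟨Q₁, hQ₁⟩ := hcon
  set A : Set X.Pt := {P | G P = G Q₀} with hA
  have hclop : An.Clop A := by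
    apply clop_of_locally
    · intro P hP
      have hmax : ∀ Q, ‖G Q‖ ≤ ‖G P‖ := fun Q => by rw [show G P = G Q₀ from hP]; exact hQ₀ Q
      filter_upwards [isOpen_ball.mem_nhds (mem_ball_zero (An := An) P)] with s hs
      exact (An.const_of_max hG hmax hs).trans hP
    · intro P hP
      have h1 : ContinuousAt (fun s => G (An.c P s)) 0 :=
        ((hG P).differentiableAt (isOpen_ball.mem_nhds (mem_ball_zero P))).continuousAt
      have h2 : (fun s => G (An.c P s)) 0 ≠ G Q₀ := by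
        show G (An.c P 0) ≠ G Q₀
        rw [An.c_zero]
        exact hP
      exact h1.eventually_ne h2
  have hclop' : An.Clop Aᶜ := by
    intro P s hs
    rw [mem_compl_iff, mem_compl_iff, hclop P s hs]
  -- a rational function with poles only at `Q₀`
  set D : X.Pt →₀ ℤ := Finsupp.single Q₀ (2 * (X.genus : ℤ) + 1) with hD
  have hdeg : X.deg D = 2 * (X.genus : ℤ) + 1 := X.deg_single _ _
  have := X.finite_L Q₀ D
  have hrr := X.riemann_roch D (by rw [hdeg]; linarith)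
  obtain ⟨z, hz, hzc⟩ : ∃ z ∈ X.L D, ∀ a : ℂ, z ≠ algebraMap ℂ K a := by
    by_contra h
    push Not at h
    have h1 : X.L D ≤ Submodule.span ℂ {(1 : K)} := by
      intro z hz
      obtain ⟨a, ha⟩ := h z hz
      rw [ha, Submodule.mem_span_singleton]
      exact ⟨a, by rw [Algebra.smul_def, mul_one]⟩
    have h2 := Submodule.finrank_mono h1
    have h3 : finrank ℂ (Submodule.span ℂ ({1} : Set K)) ≤ 1 := by
      have := finrank_span_le_card (R := ℂ) ({1} : Set K)
      simpa using this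
    have h4 : (finrank ℂ (X.L D) : ℤ) ≤ 1 := by exact_mod_cast h2.trans h3
    rw [hrr, hdeg] at h4
    have := Int.natCast_nonneg X.genus
    linarith
  have hz0 : z ≠ 0 := by
    intro h
    exact hzc 0 (by rw [h, map_zero])
  have hgm := MerFam.restrict (An := An) hclop' z
  have hg0 : ∀ P, 0 ≤ meromorphicOrderAt ((fun P => if P ∈ Aᶜ then An.fn P z else 0) P) 0 := by
    intro P
    by_cases h : P ∈ Aᶜ
    · simp only [if_pos h]
      rw [An.ord_fn P hz0]
      have h1 := hz hz0 P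
      have hne : Q₀ ≠ P := by
        rintro rfl
        exact h rfl
      rw [hD, Finsupp.single_eq_of_ne hne.symm, add_zero] at h1
      exact_mod_cast h1
    · simp only [if_neg h]
      have h1 : meromorphicOrderAt (0 : ℂ → ℂ) 0 = ⊤ :=
        meromorphicOrderAt_eq_top_iff.2 (Eventually.of_forall fun _ => rfl)
      rw [h1]
      exact le_top
  set g : X.Pt → ℂ → ℂ := fun P => if P ∈ Aᶜ then An.fn P z else 0 with hg
  set G' : X.Pt → ℂ := fun Q => limUnder (𝓝[≠] (0 : ℂ)) (g Q) with hG'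
  have hdiff : ∀ P, DifferentiableOn ℂ (fun s => G' (An.c P s)) (ball 0 (An.r P)) :=
    hgm.differentiableOn_val hg0
  -- near a point of the complement, `G'` is given by `z`
  have hval : ∀ Q ∈ Aᶜ, ∀ a : ℂ, (∀ s ∈ ball 0 (An.r Q), G' (An.c Q s) = a) → False := by
    intro Q hQ a ha
    apply hzc a
    apply eq_const_of_eventually (An := An) (P := Q)
    have hgQ : g Q = An.fn Q z := by
      rw [hg]
      simp only [if_pos hQ]
    have hev : ∀ᶠ σ in 𝓝[≠] (0 : ℂ), AnalyticAt ℂ (g Q) σ ∧ σ ∈ ball 0 (An.r Q) :=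
      ((hgm.mero Q 0 (mem_ball_zero Q)).eventually_analyticAt).and
        (nhdsWithin_le_nhds (isOpen_ball.mem_nhds (mem_ball_zero Q)))
    filter_upwards [hev] with σ hσ
    rw [← hgQ]
    have h1 := tendsto_nhds_unique (hgm.tendsto_val hg0 Q hσ.2)
      (hσ.1.continuousAt.tendsto.mono_left nhdsWithin_le_nhds)
    have h2 := ha σ hσ.2
    rw [hG'] at h2
    simp only at h2
    exact h1.symm.trans h2
  obtain ⟨R, hR⟩ := An.exists_max (fun P => ‖G' P‖) (fun P => (hdiff P).continuousOn.norm)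
  by_cases hRA : R ∈ Aᶜ
  · exact hval R hRA (G' R) (fun s hs => An.const_of_max hdiff hR hs)
  · have hR0 : G' R = 0 := by
      rw [hG', hg]
      simp only [if_neg hRA]
      exact (tendsto_const_nhds (x := (0 : ℂ)) (f := 𝓝[≠] (0 : ℂ))).limUnder_eq
    have hz' : ∀ P, G' P = 0 := by
      intro P
      have h1 : ‖G' P‖ ≤ ‖G' R‖ := hR P
      rw [hR0, norm_zero] at h1
      exact norm_le_zero_iff.1 h1
    exact hval Q₁ hQ₁ 0 (fun s _ => hz' _)

end

end Pool.Agent.YTDA
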