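import Mathlib

/-!
# Holomorphic functions of several variables are analytic

Cauchy estimates and Taylor expansions for Fréchet differentiable functions on open subsets of a
finite-dimensional complex normed space.
-/

namespace Pool.Agent.YTDA.Holo

open Complex Set Topology ContDiff Metric Filter

universe u

variable {E F : Type u} [NormedAddCommGroup E] [NormedSpace ℂ E] [NormedAddCommGroup F]
  [NormedSpace ℂ F]

/-- Cauchy's estimate. -/
theorem norm_fderiv_le {f : E → F} {c : E} {R M : ℝ} (hR : 0 < R)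
    (hf : DifferentiableOn ℂ f (ball c R)) (hM : ∀ z ∈ ball c R, ‖f z‖ ≤ M) :
    ‖fderiv ℂ f c‖ ≤ 2 * M / R := by
  apply norm_fderiv_le_div_of_mapsTo_ball hf _ hR
  intro z hz
  rw [mem_closedBall, dist_eq_norm]
  have h1 := hM z hz
  have h2 := hM c (mem_ball_self hR)
  have h3 := norm_sub_le (f z) (f c)
  linarith

/-- Differentiable limits. -/
theorem differentiableAt_of_limit [CompleteSpace F] {f : ℕ → E → F} {g : E → F} {c : E} {R : ℝ}
    (hR : 0 < R) (hf : ∀ k, DifferentiableOn ℂ (f k) (ball c R))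
    (hu : UniformCauchySeqOn f atTop (ball c R))
    (hg : ∀ z ∈ ball c R, Tendsto (fun k => f k z) atTop (𝓝 (g z))) :
    DifferentiableAt ℂ g c := by
  have hu' : UniformCauchySeqOn (fun k => fderiv ℂ (f k)) atTop (ball c (R / 2)) := by
    rw [Metric.uniformCauchySeqOn_iff] at hu ⊢
    intro ε hε
    obtain ⟨N, hN⟩ := hu (ε * R / 8) (by positivity)
    refine ⟨N, fun m hm n hn x hx => ?_⟩
    have hsub : ball x (R / 2) ⊆ ball c R := by
      intro y hy
      rw [mem_ball] at hx hy ⊢
      have := dist_triangle y x c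
      linarith
    have hx' : x ∈ ball c R := hsub (mem_ball_self (by positivity))
    have hd : ∀ k, DifferentiableAt ℂ (f k) x := fun k =>
      (hf k x hx').differentiableAt (isOpen_ball.mem_nhds hx')
    rw [dist_eq_norm, ← fderiv_sub (hd m) (hd n)]
    have h1 : ‖fderiv ℂ (f m - f n) x‖ ≤ 2 * (ε * R / 8) / (R / 2) := by
      apply norm_fderiv_le (by positivity)
      · exact ((hf m).mono hsub).sub ((hf n).mono hsub)
      · intro z hz
        have := hN m hm n hn z (hsub hz)
        rw [dist_eq_norm] at this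
        exact this.le
    have h2 : 2 * (ε * R / 8) / (R / 2) = ε / 2 := by
      field_simp
      norm_num
    rw [h2] at h1
    linarith
  have hlim : ∀ z ∈ ball c (R / 2), ∃ L, Tendsto (fun k => fderiv ℂ (f k) z) atTop (𝓝 L) := by
    intro z hz
    apply cauchySeq_tendsto_of_complete
    rw [Metric.cauchySeq_iff]
    intro ε hε
    obtain ⟨N, hN⟩ := (Metric.uniformCauchySeqOn_iff.1 hu') ε hε
    exact ⟨N, fun m hm n hn => hN m hm n hn z hz⟩
  choose! g' hg' using hlim
  have ht : TendstoUniformlyOn (fun k => fderiv ℂ (f k)) g' atTop (ball c (R / 2)) :=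
    hu'.tendstoUniformlyOn_of_tendsto hg'
  have hsub : ball c (R / 2) ⊆ ball c R := ball_subset_ball (by linarith)
  exact (hasFDerivAt_of_tendstoUniformlyOn isOpen_ball ht
    (fun k x hx => ((hf k x (hsub hx)).differentiableAt
      (isOpen_ball.mem_nhds (hsub hx))).hasFDerivAt)
    (fun x hx => hg x (hsub hx)) (mem_ball_self (by positivity))).differentiableAt

/-- Directional derivatives of a holomorphic function are holomorphic. -/
theorem differentiableAt_fderiv_apply [CompleteSpace F] {f : E → F} {c : E} {R M : ℝ}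
    (hR : 0 < R) (hf : DifferentiableOn ℂ f (ball c R)) (hM : ∀ z ∈ ball c R, ‖f z‖ ≤ M)
    (v : E) : DifferentiableAt ℂ (fun z => fderiv ℂ f z v) c := by
  have hM0 : 0 ≤ M := (norm_nonneg _).trans (hM c (mem_ball_self hR))
  -- the radius
  set ρ : ℝ := R / 4 with hρ
  have hρ0 : 0 < ρ := by positivity
  -- the Taylor estimate
  have key : ∀ z ∈ ball c (2 * ρ), ∀ w ∈ ball z (2 * ρ),
      ‖f w - f z - fderiv ℂ f z (w - z)‖ ≤ 4 * M * (dist w z / (2 * ρ)) ^ 2 := by
    intro z hz w hw
    have hsub : ball z (2 * ρ) ⊆ ball c R := by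
      intro y hy
      rw [mem_ball] at hz hy ⊢
      have := dist_triangle y z c
      linarith
    have hdz : DifferentiableAt ℂ f z := by
      have hz' : z ∈ ball c R := hsub (mem_ball_self (by positivity))
      exact (hf z hz').differentiableAt (isOpen_ball.mem_nhds hz')
    have hn : ‖fderiv ℂ f z‖ ≤ 2 * M / (2 * ρ) :=
      norm_fderiv_le (by positivity) (hf.mono hsub) (fun y hy => hM y (hsub hy))
    set g : E → F := fun y => f y - f z - fderiv ℂ f z (y - z) with hg
    have hgz : g z = 0 := by simp [hg]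
    have hgd : DifferentiableOn ℂ g (ball z (2 * ρ)) := by
      apply DifferentiableOn.sub
      · exact (hf.mono hsub).sub (differentiableOn_const _)
      · exact ((fderiv ℂ f z).differentiable.comp
          (differentiable_id.sub (differentiable_const z))).differentiableOn
    have hmaps : MapsTo g (ball z (2 * ρ)) (closedBall (g z) (4 * M)) := by
      intro y hy
      rw [hgz, mem_closedBall, dist_zero_right]
      have h1 := hM y (hsub hy)
      have h2 := hM z (hsub (mem_ball_self (by positivity)))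
      have h3 : ‖fderiv ℂ f z (y - z)‖ ≤ 2 * M := by
        calc ‖fderiv ℂ f z (y - z)‖ ≤ ‖fderiv ℂ f z‖ * ‖y - z‖ := ContinuousLinearMap.le_opNorm _ _
          _ ≤ (2 * M / (2 * ρ)) * (2 * ρ) := by
              apply mul_le_mul hn _ (norm_nonneg _) (by positivity)
              rw [← dist_eq_norm]
              exact (mem_ball.1 hy).le
          _ = 2 * M := by field_simp
      calc ‖f y - f z - fderiv ℂ f z (y - z)‖ ≤ ‖f y - f z‖ + ‖fderiv ℂ f z (y - z)‖ :=
            norm_sub_le _ _
        _ ≤ (‖f y‖ + ‖f z‖) + ‖fderiv ℂ f z (y - z)‖ := by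
            gcongr
            exact norm_sub_le _ _
        _ ≤ 4 * M := by linarith
    have ho : (fun y => g y - g z) =o[𝓝 z] fun y => ‖y - z‖ ^ 1 := by
      rw [hgz]
      simp only [sub_zero, pow_one]
      have := hdz.hasFDerivAt.isLittleO
      exact this.norm_right
    have h4 := dist_le_mul_div_pow_of_mapsTo_ball_of_isLittleO (n := 1) hgd hmaps ho hw
    rw [hgz, dist_zero_right] at h4
    exact h4
  -- the difference quotients
  obtain ⟨δ, hδ0, hδ⟩ : ∃ δ : ℝ, 0 < δ ∧ δ * ‖v‖ < ρ := by
    refine ⟨ρ / (‖v‖ + 1), by positivity, ?_⟩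
    rw [div_mul_eq_mul_div, div_lt_iff₀ (by positivity)]
    nlinarith [norm_nonneg v]
  set t : ℕ → ℝ := fun k => δ / (k + 1) with ht
  have ht0 : ∀ k, 0 < t k := fun k => by positivity
  have htδ : ∀ k, t k ≤ δ := by
    intro k
    rw [ht]
    apply div_le_self hδ0.le
    have : (0 : ℝ) ≤ k := Nat.cast_nonneg k
    linarith
  have htv : ∀ k, ‖((t k : ℝ) : ℂ) • v‖ < ρ := by
    intro k
    rw [norm_smul, Complex.norm_real, Real.norm_eq_abs, abs_of_pos (ht0 k)]
    calc t k * ‖v‖ ≤ δ * ‖v‖ := by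
          apply mul_le_mul_of_nonneg_right (htδ k) (norm_nonneg _)
      _ < ρ := hδ
  have htlim : Tendsto t atTop (𝓝 0) := by
    have := tendsto_one_div_add_atTop_nhds_zero_nat (𝕜 := ℝ)
    have h := this.const_mul δ
    rw [mul_zero] at h
    refine h.congr fun k => ?_
    rw [ht]
    ring
  set q : ℕ → E → F := fun k z => ((t k : ℝ) : ℂ)⁻¹ • (f (z + ((t k : ℝ) : ℂ) • v) - f z) with hq
  have hmem : ∀ k, ∀ z ∈ ball c ρ, z + ((t k : ℝ) : ℂ) • v ∈ ball c R := by
    intro k z hz
    rw [mem_ball] at hz ⊢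
    have h1 := dist_triangle (z + ((t k : ℝ) : ℂ) • v) z c
    have h2 : dist (z + ((t k : ℝ) : ℂ) • v) z = ‖((t k : ℝ) : ℂ) • v‖ := by
      rw [dist_eq_norm, add_sub_cancel_left]
    have h3 := htv k
    linarith
  have hqd : ∀ k, DifferentiableOn ℂ (q k) (ball c ρ) := by
    intro k
    apply DifferentiableOn.const_smul
    apply DifferentiableOn.sub
    · exact hf.comp (differentiable_id.add (differentiable_const _)).differentiableOn (hmem k)
    · exact hf.mono (ball_subset_ball (by linarith))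
  have herr : ∀ k, ∀ z ∈ ball c ρ, ‖q k z - fderiv ℂ f z v‖ ≤
      (4 * M * (‖v‖ / (2 * ρ)) ^ 2) * t k := by
    intro k z hz
    have htk := ht0 k
    have htk' : ((t k : ℝ) : ℂ) ≠ 0 := by exact_mod_cast htk.ne'
    have h1 := key z (ball_subset_ball (by linarith) hz) (z + ((t k : ℝ) : ℂ) • v) (by
      rw [mem_ball, dist_eq_norm, add_sub_cancel_left]
      have := htv k
      linarith)
    rw [dist_eq_norm, add_sub_cancel_left, map_smul, norm_smul, Complex.norm_real,
      Real.norm_eq_abs, abs_of_pos htk] at h1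
    have e1 : q k z - fderiv ℂ f z v = ((t k : ℝ) : ℂ)⁻¹ •
        (f (z + ((t k : ℝ) : ℂ) • v) - f z - ((t k : ℝ) : ℂ) • fderiv ℂ f z v) := by
      rw [hq, smul_sub _ (f (z + ((t k : ℝ) : ℂ) • v) - f z), inv_smul_smul₀ htk']
    rw [e1, norm_smul, norm_inv, Complex.norm_real, Real.norm_eq_abs, abs_of_pos htk]
    calc (t k)⁻¹ * ‖f (z + ((t k : ℝ) : ℂ) • v) - f z - ((t k : ℝ) : ℂ) • fderiv ℂ f z v‖
        ≤ (t k)⁻¹ * (4 * M * (t k * ‖v‖ / (2 * ρ)) ^ 2) := by gcongr
      _ = (4 * M * (‖v‖ / (2 * ρ)) ^ 2) * t k := by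
          field_simp
  set C : ℝ := 4 * M * (‖v‖ / (2 * ρ)) ^ 2 with hC
  have hC0 : 0 ≤ C := by positivity
  apply differentiableAt_of_limit hρ0 hqd
  · rw [Metric.uniformCauchySeqOn_iff]
    intro ε hε
    have h1 : Tendsto (fun k => C * t k) atTop (𝓝 0) := by
      have := htlim.const_mul C
      rwa [mul_zero] at this
    obtain ⟨N, hN⟩ := (Metric.tendsto_atTop.1 h1) (ε / 2) (by positivity)
    refine ⟨N, fun m hm n hn z hz => ?_⟩
    have h2 := herr m z hz
    have h3 := herr n z hz
    have h4 := hN m hm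
    have h5 := hN n hn
    rw [dist_zero_right, Real.norm_eq_abs, abs_of_nonneg (mul_nonneg hC0 (ht0 _).le)] at h4 h5
    rw [← dist_eq_norm] at h2 h3
    have h6 := dist_triangle_right (q m z) (q n z) (fderiv ℂ f z v)
    linarith
  · intro z hz
    rw [tendsto_iff_norm_sub_tendsto_zero]
    have h1 : Tendsto (fun k => C * t k) atTop (𝓝 0) := by
      have := htlim.const_mul C
      rwa [mul_zero] at this
    exact squeeze_zero (fun k => norm_nonneg _) (fun k => herr k z hz) h1

/-- local boundedness -/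
theorem exists_ball {f : E → F} {U : Set E} (hU : IsOpen U) (hf : DifferentiableOn ℂ f U) {c : E}
    (hc : c ∈ U) : ∃ R > 0, ∃ M : ℝ, ball c R ⊆ U ∧ ∀ z ∈ ball c R, ‖f z‖ ≤ M := by
  have h1 : ContinuousAt f c := (hf.continuousOn c hc).continuousAt (hU.mem_nhds hc)
  have h2 : ∀ᶠ z in 𝓝 c, ‖f z‖ < ‖f c‖ + 1 := by
    have := h1.norm
    exact this.eventually_lt continuousAt_const (by linarith)
  obtain ⟨R, hR, hR'⟩ := Metric.eventually_nhds_iff_ball.1 (h2.and (hU.mem_nhds hc))
  exact ⟨R, hR, ‖f c‖ + 1, fun z hz => (hR' z hz).2, fun z hz => (hR' z hz).1.le⟩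

theorem differentiableOn_fderiv_apply [CompleteSpace F] {f : E → F} {U : Set E} (hU : IsOpen U)
    (hf : DifferentiableOn ℂ f U) (v : E) :
    DifferentiableOn ℂ (fun z => fderiv ℂ f z v) U := by
  intro c hc
  obtain ⟨R, hR, M, h1, h2⟩ := exists_ball hU hf hc
  exact (differentiableAt_fderiv_apply hR (hf.mono h1) h2 v).differentiableWithinAt

theorem contDiffOn_nat [CompleteSpace F] [FiniteDimensional ℂ E] {U : Set E} (hU : IsOpen U)
    (m : ℕ) : ∀ {f : E → F}, DifferentiableOn ℂ f U → ContDiffOn ℂ m f U := by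
  induction m with
  | zero =>
    intro f hf
    exact contDiffOn_zero.2 hf.continuousOn
  | succ m ih =>
    intro f hf
    rw [Nat.cast_add, Nat.cast_one, contDiffOn_succ_iff_fderiv_of_isOpen hU]
    refine ⟨hf, fun h => ?_, ?_⟩
    · exact absurd h (by simp)
    · rw [contDiffOn_clm_apply]
      intro v
      exact ih (differentiableOn_fderiv_apply hU hf v)

theorem contDiffOn_top [CompleteSpace F] [FiniteDimensional ℂ E] {U : Set E} (hU : IsOpen U)
    {f : E → F} (hf : DifferentiableOn ℂ f U) : ContDiffOn ℂ ∞ f U :=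
  contDiffOn_infty.2 fun m => contDiffOn_nat hU m hf

omit [NormedAddCommGroup F] [NormedSpace ℂ F] in
/-- Cauchy's estimates for the higher derivatives. -/
theorem norm_iteratedFDeriv_le [FiniteDimensional ℂ E] (k : ℕ) :
    ∀ (F : Type u) [NormedAddCommGroup F] [NormedSpace ℂ F] [CompleteSpace F] {f : E → F} {c : E}
    {ρ M : ℝ}, 0 < ρ → DifferentiableOn ℂ f (ball c ((k + 1) * ρ)) →
    (∀ z ∈ ball c ((k + 1) * ρ), ‖f z‖ ≤ M) → ‖iteratedFDeriv ℂ k f c‖ ≤ M * (2 / ρ) ^ k := by
  induction k with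
  | zero =>
    intro F _ _ _ f c ρ M hρ hf hM
    rw [norm_iteratedFDeriv_zero, pow_zero, mul_one]
    exact hM c (mem_ball_self (by positivity))
  | succ k ih =>
    intro F _ _ _ f c ρ M hρ hf hM
    have hsub : ∀ z ∈ ball c ((k + 1) * ρ), ball z ρ ⊆ ball c (((k + 1 : ℕ) + 1) * ρ) := by
      intro z hz y hy
      rw [mem_ball] at hz hy ⊢
      have := dist_triangle y z c
      push_cast
      linarith
    have h1 : ∀ z ∈ ball c ((k + 1) * ρ), ‖fderiv ℂ f z‖ ≤ 2 * M / ρ := fun z hz =>
      norm_fderiv_le hρ (hf.mono (hsub z hz)) (fun y hy => hM y (hsub z hz hy))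
    have h2 : DifferentiableOn ℂ (fderiv ℂ f) (ball c ((k + 1) * ρ)) := by
      have h3 : ContDiffOn ℂ ∞ (fderiv ℂ f) (ball c (((k + 1 : ℕ) + 1) * ρ)) :=
        ((contDiffOn_infty_iff_fderiv_of_isOpen isOpen_ball).1 (contDiffOn_top isOpen_ball hf)).2
      exact (h3.differentiableOn (by simp)).mono fun z hz => hsub z hz (mem_ball_self hρ)
    have h4 := ih (E →L[ℂ] F) hρ h2 h1
    rw [norm_iteratedFDeriv_fderiv] at h4
    calc _ ≤ _ := h4
      _ = _ := by
        rw [pow_succ]
        ring

theorem analyticAt_zero [CompleteSpace F] [FiniteDimensional ℂ E] {f : E → F} {R M : ℝ}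
    (hR : 0 < R) (hf : DifferentiableOn ℂ f (ball 0 R)) (hM : ∀ z ∈ ball 0 R, ‖f z‖ ≤ M) :
    AnalyticAt ℂ f 0 := by
  have hM0 : 0 ≤ M := (norm_nonneg _).trans (hM 0 (mem_ball_self hR))
  set p : FormalMultilinearSeries ℂ E F := fun k =>
    ((k.factorial : ℂ)⁻¹) • iteratedFDeriv ℂ k f 0 with hp
  have hbound : ∀ k, ‖p k‖ * (R / 6) ^ k ≤ 3 * M := by
    intro k
    have hk : (0 : ℝ) < (k : ℝ) + 1 := by positivity
    have e1 : ((k : ℝ) + 1) * (R / (k + 1)) = R := by field_simp
    have h1 := norm_iteratedFDeriv_le k F (f := f) (c := 0) (ρ := R / (k + 1)) (M := M)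
      (by positivity) (by rw [e1]; exact hf) (by rw [e1]; exact hM)
    have h2 : ‖p k‖ = (k.factorial : ℝ)⁻¹ * ‖iteratedFDeriv ℂ k f 0‖ := by
      rw [hp, norm_smul, norm_inv, Complex.norm_natCast]
    have h3 := Real.pow_div_factorial_le_exp _ hk.le k
    have h4 : Real.exp ((k : ℝ) + 1) ≤ 3 ^ (k + 1) := by
      have : Real.exp 1 ≤ 3 := by
        have := Real.exp_one_lt_d9
        linarith
      calc Real.exp ((k : ℝ) + 1) = Real.exp 1 ^ (k + 1) := by
            rw [← Real.exp_nat_mul]
            push_cast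
            ring_nf
        _ ≤ 3 ^ (k + 1) := by
            gcongr
    rw [h2]
    calc (k.factorial : ℝ)⁻¹ * ‖iteratedFDeriv ℂ k f 0‖ * (R / 6) ^ k
        ≤ (k.factorial : ℝ)⁻¹ * (M * (2 / (R / (k + 1))) ^ k) * (R / 6) ^ k := by gcongr
      _ = M * (((k : ℝ) + 1) ^ k / k.factorial) * (1 / 3) ^ k := by
          rw [div_div_eq_mul_div, div_pow, div_pow, mul_pow]
          field_simp
          have : (6 : ℝ) ^ k * (1 / 3) ^ k = 2 ^ k := by
            rw [← mul_pow]
            norm_num
          rw [mul_assoc, this]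
      _ ≤ M * 3 ^ (k + 1) * (1 / 3) ^ k := by
          gcongr
          exact h3.trans h4
      _ = 3 * M := by
          rw [pow_succ, one_div, inv_pow]
          field_simp
  refine ⟨p, ENNReal.ofReal (R / 6), ?_⟩
  have hR6 : 0 < R / 6 := by positivity
  refine ⟨?_, by simpa using hR, ?_⟩
  · have := p.le_radius_of_bound (r := Real.toNNReal (R / 6)) (3 * M) (fun k => by
      rw [Real.coe_toNNReal _ hR6.le]
      exact hbound k)
    exact this
  · intro y hy
    have hy' : ‖y‖ < R / 6 := by
      rw [Metric.mem_eball, edist_zero_right, ← ofReal_norm] at hy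
      exact (ENNReal.ofReal_lt_ofReal_iff hR6).1 hy
    set L : ℂ →L[ℂ] E := ContinuousLinearMap.toSpanSingleton ℂ y with hL
    have hLy : ∀ t : ℂ, L t = t • y := fun t => by
      rw [hL, ContinuousLinearMap.toSpanSingleton_apply]
    set s : Set ℂ := L ⁻¹' ball 0 R with hs
    have hso : IsOpen s := isOpen_ball.preimage L.continuous
    have h0s : (0 : ℂ) ∈ s := by
      rw [hs, mem_preimage, map_zero]
      exact mem_ball_self hR
    have hgd : DifferentiableOn ℂ (f ∘ L) (ball 0 2) := by
      apply hf.comp L.differentiable.differentiableOn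
      intro t ht
      rw [mem_ball, dist_zero_right] at ht ⊢
      rw [hLy, norm_smul]
      nlinarith [norm_nonneg t, norm_nonneg y]
    have h1 := Complex.hasSum_taylorSeries_on_ball hgd (z := 1) (by simp)
    have e2 : (f ∘ L) 1 = f (0 + y) := by
      rw [Function.comp_apply, hLy, one_smul, zero_add]
    rw [e2] at h1
    have e3 : (fun n : ℕ => ((n.factorial : ℂ)⁻¹) • ((1 : ℂ) - 0) ^ n •
        iteratedDeriv n (f ∘ L) 0) = fun n : ℕ => p n fun _ : Fin n => y := by
      funext n
      have e4 : iteratedFDeriv ℂ n (f ∘ L) 0 =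
          (iteratedFDeriv ℂ n f 0).compContinuousLinearMap fun _ => L := by
        have h5 := L.iteratedFDerivWithin_comp_right (n := ∞) (i := n)
          (contDiffOn_top isOpen_ball hf) isOpen_ball.uniqueDiffOn hso.uniqueDiffOn (x := 0)
          h0s (by exact_mod_cast le_top)
        rw [iteratedFDerivWithin_of_isOpen n hso h0s] at h5
        rw [h5, iteratedFDerivWithin_of_isOpen n isOpen_ball h0s, map_zero]
      rw [sub_zero, one_pow, one_smul, iteratedDeriv_eq_iteratedFDeriv, e4, hp]
      rw [ContinuousMultilinearMap.compContinuousLinearMap_apply]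
      simp only [hLy, one_smul]
      rfl
    rw [e3] at h1
    exact h1

/-- Holomorphic functions are analytic. -/
theorem analyticOnNhd [CompleteSpace F] [FiniteDimensional ℂ E] {U : Set E} (hU : IsOpen U)
    {f : E → F} (hf : DifferentiableOn ℂ f U) : AnalyticOnNhd ℂ f U := by
  intro c hc
  obtain ⟨R, hR, M, h1, h2⟩ := exists_ball hU hf hc
  have h3 : AnalyticAt ℂ (fun y => f (y + c)) 0 := by
    apply analyticAt_zero (M := M) hR
    · apply (hf.mono h1).comp (differentiable_id.add_const c).differentiableOn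
      intro z hz
      rw [mem_ball, dist_zero_right] at hz
      rw [mem_ball, dist_eq_norm]
      simpa using hz
    · intro z hz
      apply h2
      rw [mem_ball, dist_zero_right] at hz
      rw [mem_ball, dist_eq_norm, add_sub_cancel_right]
      exact hz
  have h4 : AnalyticAt ℂ (fun y : E => y - c) c := analyticAt_id.sub analyticAt_const
  have h5 : AnalyticAt ℂ ((fun y => f (y + c)) ∘ fun y : E => y - c) c := by
    apply AnalyticAt.comp _ h4
    rw [sub_self]
    exact h3
  refine h5.congr (Eventually.of_forall fun y => ?_)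
  simp

/-- Holomorphic functions are analytic. -/
theorem contDiffOn_omega [CompleteSpace F] [FiniteDimensional ℂ E] {U : Set E} (hU : IsOpen U)
    {f : E → F} (hf : DifferentiableOn ℂ f U) {m : ℕ∞ω} : ContDiffOn ℂ m f U :=
  (analyticOnNhd hU hf).contDiffOn hU.uniqueDiffOn

/-- Holomorphic functions are smooth as functions of real variables. -/
theorem contDiffOn_real [NormedSpace ℝ E] [NormedSpace ℝ F] [IsScalarTower ℝ ℂ E]
    [IsScalarTower ℝ ℂ F] [CompleteSpace F] [FiniteDimensional ℂ E] {U : Set E} (hU : IsOpen U)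
    {f : E → F} (hf : DifferentiableOn ℂ f U) {m : ℕ∞ω} : ContDiffOn ℝ m f U :=
  (contDiffOn_omega hU hf).restrict_scalars ℝ

end Pool.Agent.YTDA.Holo
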