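import Pool.Agent.YTDA.Mfd

/-!
# Holomorphic functions and the line bundle on the manifold of a polarized atlas
-/

namespace Pool.Agent.YTDA

open Complex Set Topology ContDiff Manifold ComplexOrder Module

noncomputable section

namespace PolAtlas

variable {n : ℕ} {Y : Type} [MulAction ℂˣ Y] (A : PolAtlas n Y)

theorem mdiff_co (a : A.ι) : MDifferentiableOn 𝓘(ℂ, E n) 𝓘(ℂ, E n) (A.co a) (A.dom a) :=
  mdifferentiableOn_atlas (I := 𝓘(ℂ, E n)) (e := A.chart a) ⟨a, rfl⟩

theorem mdiff_par (a : A.ι) : MDifferentiableOn 𝓘(ℂ, E n) 𝓘(ℂ, E n) (A.par a) (A.U a) :=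
  mdifferentiableOn_atlas_symm (I := 𝓘(ℂ, E n)) (e := A.chart a) ⟨a, rfl⟩

/-- Holomorphic functions in terms of charts. -/
theorem mdiff_iff {F : Type} [NormedAddCommGroup F] [NormedSpace ℂ F] {f : A.Mfd → F} {a : A.ι}
    {W : Set A.Mfd} (hW : W ⊆ A.dom a) : MDifferentiableOn 𝓘(ℂ, E n) 𝓘(ℂ, F) f W ↔
      DifferentiableOn ℂ (fun z => f (A.par a z)) (A.U a ∩ A.par a ⁻¹' W) := by
  constructor
  · intro h
    rw [← mdifferentiableOn_iff_differentiableOn]
    exact h.comp ((A.mdiff_par a).mono inter_subset_left) inter_subset_right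
  · intro h
    rw [← mdifferentiableOn_iff_differentiableOn] at h
    have h1 : MDifferentiableOn 𝓘(ℂ, E n) 𝓘(ℂ, F)
        ((fun z => f (A.par a z)) ∘ A.co a) W := by
      apply h.comp ((A.mdiff_co a).mono hW)
      intro x hx
      refine ⟨A.co_mem (hW hx), ?_⟩
      rw [mem_preimage, A.par_co (hW hx)]
      exact hx
    apply h1.congr
    intro x hx
    rw [Function.comp_apply, A.par_co (hW hx)]

theorem mdiff_dom_iff {F : Type} [NormedAddCommGroup F] [NormedSpace ℂ F] {f : A.Mfd → F}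
    {a : A.ι} : MDifferentiableOn 𝓘(ℂ, E n) 𝓘(ℂ, F) f (A.dom a) ↔
      DifferentiableOn ℂ (fun z => f (A.par a z)) (A.U a) := by
  rw [A.mdiff_iff Subset.rfl]
  have : A.U a ∩ A.par a ⁻¹' A.dom a = A.U a := by
    apply inter_eq_left.2
    intro z hz
    exact A.par_mem hz
  rw [this]

theorem mem_dom_par {a b : A.ι} {z : E n} (hz : z ∈ A.U a) :
    A.par a z ∈ A.dom b ↔ z ∈ A.O a b := by
  rw [A.mem_O_iff_par]
  exact ⟨fun h => ⟨hz, h⟩, fun h => h.2⟩

theorem U_inter_preimage (a b : A.ι) :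
    A.U a ∩ A.par a ⁻¹' (A.dom a ∩ A.dom b) = A.O a b := by
  ext z
  constructor
  · rintro ⟨h1, h2⟩
    exact (A.mem_dom_par h1).1 h2.2
  · intro h
    exact ⟨h.1, A.par_mem h.1, (A.mem_dom_par h.1).2 h⟩

/-! ### The line bundle -/

include A in
/-- The action of `ℂˣ` is free. -/
theorem smul_inj {c c' : ℂˣ} {y : Y} (h : c • y = c' • y) : c = c' := by
  obtain ⟨a, z, hz, d, rfl⟩ := A.cover y
  have h1 : A.γ a z = ((d⁻¹ * c'⁻¹) * (c * d)) • A.γ a z := by
    rw [← smul_smul, ← smul_smul c, h, smul_smul, smul_smul]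
    have : d⁻¹ * c'⁻¹ * c' * d = 1 := by
      rw [inv_mul_cancel_right, inv_mul_cancel]
    rw [this, one_smul]
  have h2 := (A.inj a z hz z hz _ h1).2
  have h3 : d⁻¹ * c'⁻¹ * (c * d) = c * c'⁻¹ := by
    rw [mul_comm c d, mul_assoc, mul_comm (c'⁻¹), ← mul_assoc, ← mul_assoc, inv_mul_cancel,
      one_mul]
  rw [h3] at h2
  exact mul_inv_eq_one.1 h2

/-- The cocycle. -/
def gg (a b : A.ι) (x : A.Mfd) : ℂˣ := A.h b a (A.co b x)

theorem γ_co {a b : A.ι} {x : A.Mfd} (ha : x ∈ A.dom a) (hb : x ∈ A.dom b) :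
    A.γ a (A.co a x) = A.gg a b x • A.γ b (A.co b x) := by
  have h1 : A.co b x ∈ A.O b a := by
    rw [← A.mem_dom_par (A.co_mem hb), A.par_co hb]
    exact ha
  have h2 := A.γ_τ h1
  rw [← A.co_par' h1, A.par_co hb] at h2
  exact h2

theorem gg_unique {a b : A.ι} {x : A.Mfd} (ha : x ∈ A.dom a) (hb : x ∈ A.dom b) {c : ℂˣ}
    (h : A.γ a (A.co a x) = c • A.γ b (A.co b x)) : A.gg a b x = c := by
  apply A.smul_inj (y := A.γ b (A.co b x))
  rw [← A.γ_co ha hb, h]

theorem gg_mul {a b c : A.ι} {x : A.Mfd} (ha : x ∈ A.dom a) (hb : x ∈ A.dom b)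
    (hc : x ∈ A.dom c) : A.gg a b x * A.gg b c x = A.gg a c x := by
  symm
  apply A.gg_unique ha hc
  rw [← smul_smul, ← A.γ_co hb hc, ← A.γ_co ha hb]

theorem gg_self {a : A.ι} {x : A.Mfd} (ha : x ∈ A.dom a) : A.gg a a x = 1 :=
  A.gg_unique ha ha (one_smul _ _).symm

/-- The line bundle on the manifold. -/
def lb : LineBundle n A.Mfd where
  ι := A.ι
  V := A.dom
  isOpen := A.isOpen_dom
  cover := A.exists_dom
  g a b x := A.gg a b x
  ne_zero a b x _ := (A.gg a b x).ne_zero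
  hol a b := by
    rw [A.mdiff_iff (a := b) inter_subset_right, inter_comm (A.dom a), A.U_inter_preimage]
    apply (A.hol_h' b a).congr
    intro z hz
    simp only [gg, A.co_par hz.1]
  cocycle a b c x hx := by
    rw [← Units.val_mul, A.gg_mul hx.1.1 hx.1.2 hx.2]

theorem lb_ι : A.lb.ι = A.ι := rfl

theorem lb_V (a : A.ι) : A.lb.V a = A.dom a := rfl

theorem lb_g (a b : A.ι) (x : A.Mfd) : A.lb.g a b x = A.gg a b x := rfl

/-! ### Extension of local data -/

/-- A function on `Y` constructed from local data: `y = c • γ a z` is sent to `φ c a (par a z)`. -/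
def glue {β : Type} (φ : ℂˣ → A.ι → A.Mfd → β) (y : Y) : β :=
  φ (A.cover y).choose_spec.choose_spec.2.choose (A.cover y).choose
    (A.par (A.cover y).choose (A.cover y).choose_spec.choose)

theorem glue_eq {β : Type} {φ : ℂˣ → A.ι → A.Mfd → β}
    (hφ : ∀ (c : ℂˣ) (a b : A.ι) (x : A.Mfd), x ∈ A.dom a → x ∈ A.dom b →
      φ c a x = φ (c * A.gg a b x) b x) {a : A.ι} {z : E n} (hz : z ∈ A.U a) (c : ℂˣ) :
    A.glue φ (c • A.γ a z) = φ c a (A.par a z) := by
  set y := c • A.γ a z with hy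
  set b := (A.cover y).choose with hb
  set w := (A.cover y).choose_spec.choose with hw
  have hwU : w ∈ A.U b := (A.cover y).choose_spec.choose_spec.1
  set d := (A.cover y).choose_spec.choose_spec.2.choose with hd
  have h1 : y = d • A.γ b w := (A.cover y).choose_spec.choose_spec.2.choose_spec
  have e : A.glue φ y = φ d b (A.par b w) := rfl
  have hx : A.par b w = A.par a z := by
    unfold par
    rw [← A.pr_smul d, ← h1, hy, A.pr_smul]
  rw [e, hx]
  have ha : A.par a z ∈ A.dom a := A.par_mem hz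
  have hb' : A.par a z ∈ A.dom b := by
    rw [← hx]
    exact A.par_mem hwU
  rw [hφ c a b _ ha hb']
  congr 1
  apply A.smul_inj (y := A.γ b w)
  have h2 := A.γ_co ha hb'
  rw [A.co_par hz, ← hx, A.co_par hwU] at h2
  rw [← h1, hy, h2, smul_smul, hx]

/-! ### Sections -/

/-- The space of sections. -/
def secs (k : ℕ) : Submodule ℂ (Y → ℂ) where
  carrier := {F | A.IsSec k F}
  zero_mem' := ⟨fun c y => by simp, fun a => differentiableOn_const _⟩
  add_mem' := by
    rintro F F' hF hF'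
    exact ⟨fun c y => by rw [Pi.add_apply, Pi.add_apply, hF.hom, hF'.hom, mul_add],
      fun a => (hF.hol a).add (hF'.hol a)⟩
  smul_mem' := by
    rintro c F hF
    refine ⟨fun d y => ?_, fun a => (hF.hol a).const_smul c⟩
    rw [Pi.smul_apply, Pi.smul_apply, hF.hom, smul_eq_mul, smul_eq_mul]
    ring

theorem mem_secs {k : ℕ} {F : Y → ℂ} : F ∈ A.secs k ↔ A.IsSec k F := Iff.rfl

open Classical in
/-- local expressions of a function on `Y` -/
def locs (F : Y → ℂ) (a : A.ι) (x : A.Mfd) : ℂ := if x ∈ A.dom a then F (A.γ a (A.co a x)) else 0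

theorem locs_of_mem (F : Y → ℂ) {a : A.ι} {x : A.Mfd} (hx : x ∈ A.dom a) :
    A.locs F a x = F (A.γ a (A.co a x)) := if_pos hx

theorem locs_par (F : Y → ℂ) {a : A.ι} {z : E n} (hz : z ∈ A.U a) :
    A.locs F a (A.par a z) = F (A.γ a z) := by
  rw [A.locs_of_mem F (A.par_mem hz), A.co_par hz]

theorem locs_mem {k : ℕ} {F : Y → ℂ} (hF : A.IsSec k F) : A.locs F ∈ A.lb.H0 k := by
  have h1 : ∀ a : A.ι, MDifferentiableOn 𝓘(ℂ, E n) 𝓘(ℂ) (A.locs F a) (A.dom a) := by
    intro a
    rw [A.mdiff_dom_iff]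
    apply (hF.hol a).congr
    intro z hz
    exact A.locs_par F hz
  have h2 : ∀ (a b : A.ι) (x : A.Mfd), x ∈ A.dom a ∩ A.dom b →
      A.locs F a x = (A.gg a b x : ℂ) ^ k * A.locs F b x := by
    intro a b x hx
    rw [A.locs_of_mem F hx.1, A.locs_of_mem F hx.2, A.γ_co hx.1 hx.2, hF.hom]
  exact ⟨fun a x hx => if_neg hx, h1, h2⟩

/-- The function on `Y` given by a section. -/
def ofLocs (k : ℕ) (f : A.ι → A.Mfd → ℂ) : Y → ℂ := A.glue fun c a x => (c : ℂ) ^ k * f a x

theorem ofLocs_eq {k : ℕ} {f : A.ι → A.Mfd → ℂ} (hf : f ∈ A.lb.H0 k) {a : A.ι} {z : E n}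
    (hz : z ∈ A.U a) (c : ℂˣ) :
    A.ofLocs k f (c • A.γ a z) = (c : ℂ) ^ k * f a (A.par a z) := by
  unfold ofLocs
  rw [A.glue_eq _ hz]
  intro c a b x ha hb
  have h := hf.2.2 a b x ⟨ha, hb⟩
  rw [A.lb_g] at h
  rw [h, Units.val_mul, mul_pow, mul_assoc]

theorem ofLocs_isSec {k : ℕ} {f : A.ι → A.Mfd → ℂ} (hf : f ∈ A.lb.H0 k) :
    A.IsSec k (A.ofLocs k f) := by
  constructor
  · intro c y
    obtain ⟨a, z, hz, d, rfl⟩ := A.cover y
    rw [smul_smul, A.ofLocs_eq hf hz, A.ofLocs_eq hf hz, Units.val_mul, mul_pow, mul_assoc]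
  · intro a
    have h : MDifferentiableOn 𝓘(ℂ, E n) 𝓘(ℂ) (f a) (A.dom a) := hf.2.1 a
    rw [A.mdiff_dom_iff] at h
    apply h.congr
    intro z hz
    have := A.ofLocs_eq hf hz 1
    rw [one_smul, Units.val_one, one_pow, one_mul] at this
    exact this

/-- Sections of the line bundle are the homogeneous functions. -/
def secEquiv (k : ℕ) : A.secs k ≃ₗ[ℂ] A.lb.H0 k where
  toFun F := ⟨A.locs F.1, A.locs_mem F.2⟩
  invFun f := ⟨A.ofLocs k f.1, A.ofLocs_isSec f.2⟩
  map_add' F F' := by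
    apply Subtype.ext
    funext a x
    show A.locs (F.1 + F'.1) a x = A.locs F.1 a x + A.locs F'.1 a x
    unfold locs
    split_ifs
    · rfl
    · rw [add_zero]
  map_smul' c F := by
    apply Subtype.ext
    funext a x
    show A.locs (c • F.1) a x = c • A.locs F.1 a x
    unfold locs
    split_ifs
    · rfl
    · rw [smul_zero]
  left_inv F := by
    apply Subtype.ext
    funext y
    obtain ⟨a, z, hz, c, rfl⟩ := A.cover y
    show A.ofLocs k (A.locs F.1) (c • A.γ a z) = F.1 (c • A.γ a z)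
    rw [A.ofLocs_eq (A.locs_mem F.2) hz, A.locs_par _ hz, F.2.hom]
  right_inv f := by
    apply Subtype.ext
    funext a x
    show A.locs (A.ofLocs k f.1) a x = f.1 a x
    by_cases hx : x ∈ A.dom a
    · rw [A.locs_of_mem _ hx]
      have := A.ofLocs_eq f.2 (A.co_mem hx) 1
      rw [one_smul, Units.val_one, one_pow, one_mul] at this
      rw [this, A.par_co hx]
    · rw [f.2.1 a x hx]
      exact if_neg hx

theorem secEquiv_apply {k : ℕ} (F : A.secs k) : (A.secEquiv k F : A.lb.ι → A.Mfd → ℂ) =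
    A.locs F.1 := rfl

theorem locs_mul (F F' : Y → ℂ) : A.locs (F * F') = (A.locs F * A.locs F' : A.ι → A.Mfd → ℂ) := by
  funext a x
  show A.locs (F * F') a x = A.locs F a x * A.locs F' a x
  unfold locs
  split_ifs
  · rfl
  · rw [mul_zero]

/-! ### Connectedness -/

theorem connectedSpace [Nonempty Y] (h : ∀ F, A.IsSec 0 F → ∃ c, ∀ y, F y = c) :
    ConnectedSpace A.Mfd := by
  classical
  have hne : Nonempty A.Mfd := ⟨A.pr (Classical.arbitrary Y)⟩
  rw [connectedSpace_iff_clopen]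
  refine ⟨hne, fun V hV => ?_⟩
  set F : Y → ℂ := fun y => if A.pr y ∈ V then 1 else 0 with hF
  have hsec : A.IsSec 0 F := by
    constructor
    · intro c y
      rw [hF, pow_zero, one_mul]
      simp only [A.pr_smul]
    · intro a z hz
      apply DifferentiableAt.differentiableWithinAt
      have hO : ∀ W : Set A.Mfd, IsOpen W → A.par a z ∈ W → ∀ᶠ w in 𝓝 z, A.par a w ∈ W := by
        intro W hW hzW
        have := ((A.isOpen_iff.1 hW a).mem_nhds ⟨hz, hzW⟩)
        filter_upwards [this] with w hw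
        exact hw.2
      by_cases hzV : A.par a z ∈ V
      · have : (fun w => F (A.γ a w)) =ᶠ[𝓝 z] fun _ => 1 := by
          filter_upwards [hO V hV.2 hzV] with w hw
          exact if_pos hw
        exact (differentiableAt_const _).congr_of_eventuallyEq this
      · have : (fun w => F (A.γ a w)) =ᶠ[𝓝 z] fun _ => 0 := by
          filter_upwards [hO Vᶜ hV.1.isOpen_compl hzV] with w hw
          exact if_neg hw
        exact (differentiableAt_const _).congr_of_eventuallyEq this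
  obtain ⟨c, hc⟩ := h F hsec
  by_cases hc1 : c = 1
  · right
    apply eq_univ_of_forall
    intro x
    obtain ⟨y, rfl⟩ := A.exists_pr x
    by_contra hx
    have h1 := hc y
    rw [hF] at h1
    simp only [if_neg hx] at h1
    rw [← h1] at hc1
    exact zero_ne_one hc1
  · left
    apply eq_empty_of_forall_notMem
    intro x hx
    obtain ⟨y, rfl⟩ := A.exists_pr x
    have h1 := hc y
    rw [hF] at h1
    simp only [if_pos hx] at h1
    exact hc1 h1.symm

end PolAtlas

end

end Pool.Agent.YTDA
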