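import Pool.Agent.YTDA.Fld
import Pool.Agent.YTDA.Mfd2

/-!
# Sections on the bundle over the projective line

For a section `F` of weight `j` on the fibre and `a + b = α N + β j` the section
`x₀ ^ a x₁ ^ b F`; separation of points and tangent vectors.
-/

namespace Pool.Agent.YTDA

open Complex Set Topology Filter

noncomputable section

variable {n : ℕ} {Y : Type} [MulAction ℂˣ Y] {A : PolAtlas n Y}

/-- a section of `L ^ N` of weight `j` -/
structure Wt (D : A.DAct) (N : ℕ) (j : ℤ) (F : Y → ℂ) : Prop where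
  sec : A.IsSec N F
  act : ∀ (c : ℂˣ) y, F (D.act c y) = ((c ^ j : ℂˣ) : ℂ) * F y

section lift

variable {D : A.DAct} {α β : ℤ}

/-- the function `x₀ ^ a x₁ ^ b F` -/
def liftP (D : A.DAct) (α β : ℤ) (a b : ℕ) (F : Y → ℂ) (p : P1Y D α β) : ℂ :=
  (Quotient.out (s := p1Setoid D α β) p).2.1 0 ^ a *
    (Quotient.out (s := p1Setoid D α β) p).2.1 1 ^ b *
    F (Quotient.out (s := p1Setoid D α β) p).1

variable {N : ℕ} {j : ℤ} {F : Y → ℂ} {a b : ℕ}

theorem liftP_mk (hF : Wt D N j F) (hab : (a : ℤ) + b = α * N + β * j) (y : Y) (x : V2) :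
    liftP D α β a b F (P1Y.mk y x) = x.1 0 ^ a * x.1 1 ^ b * F y := by
  unfold liftP
  set r := Quotient.out (s := p1Setoid D α β) (P1Y.mk y x : P1Y D α β) with hr
  have h1 : (P1Y.mk r.1 r.2 : P1Y D α β) = P1Y.mk y x := by
    have h2 := Quotient.out_eq (s := p1Setoid D α β) (P1Y.mk y x : P1Y D α β)
    rw [← hr] at h2
    exact h2
  obtain ⟨c, h2, h3⟩ := P1Y.mk_eq.1 h1
  rw [h2, h3, hF.sec.hom, hF.act]
  have e0 : (c • x).1 0 = (c : ℂ) * x.1 0 := rfl
  have e1 : (c • x).1 1 = (c : ℂ) * x.1 1 := rfl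
  rw [e0, e1, mul_pow, mul_pow]
  have e2 : c ^ a * c ^ b = (c ^ α) ^ N * (c ^ β) ^ j := by
    rw [← zpow_natCast (c ^ α), ← zpow_mul, ← zpow_mul, ← zpow_add, ← zpow_natCast c a,
      ← zpow_natCast c b, ← zpow_add, hab]
  have e3 := congrArg (fun t : ℂˣ => (t : ℂ)) e2
  simp only [Units.val_mul, Units.val_pow_eq_pow_val] at e3
  linear_combination (x.1 0 ^ a * x.1 1 ^ b * F r.1) * e3

theorem differentiable_ini (z : E (n + 1)) : DifferentiableAt ℂ (ini : E (n + 1) → E n) z :=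
  differentiableAt_pi.2 fun i => differentiableAt_apply i.castSucc z

theorem vec_coord (b : Bool) (t : ℂ) (i : Fin 2) : (vec b t).1 i = 1 ∨ (vec b t).1 i = t := by
  cases b
  · fin_cases i
    · exact Or.inl rfl
    · exact Or.inr rfl
  · fin_cases i
    · exact Or.inr rfl
    · exact Or.inl rfl

theorem differentiable_vec (b : Bool) (i : Fin 2) (z : E (n + 1)) :
    DifferentiableAt ℂ (fun w : E (n + 1) => (vec b (w (Fin.last n))).1 i) z := by
  have h : DifferentiableAt ℂ (fun w : E (n + 1) => w (Fin.last n)) z :=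
    differentiableAt_apply (Fin.last n) z
  cases b
  · fin_cases i
    · exact differentiableAt_const 1
    · exact h
  · fin_cases i
    · exact h
    · exact differentiableAt_const 1

/-- the projection as a linear map -/
def iniL : E (n + 1) →L[ℂ] E n :=
  ContinuousLinearMap.pi fun j => ContinuousLinearMap.proj (R := ℂ) j.castSucc

theorem hasFDerivAt_ini (z : E (n + 1)) : HasFDerivAt (ini : E (n + 1) → E n) iniL z :=
  iniL.hasFDerivAt

theorem hasFDerivAt_last (z : E (n + 1)) : HasFDerivAt (fun w : E (n + 1) => w (Fin.last n))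
    (ContinuousLinearMap.proj (R := ℂ) (φ := fun _ => ℂ) (Fin.last n)) z :=
  (ContinuousLinearMap.proj (R := ℂ) (φ := fun _ : Fin (n + 1) => ℂ) (Fin.last n)).hasFDerivAt

variable {B : PolAtlas (n + 1) (P1Y D α β)} {e : A.ι × Bool ≃ B.ι}

/-- the two sections `F` and `z F` in a chart -/
theorem liftP_chart (hF : Wt D N j F) {m : ℕ} (hm : ((m + 1 : ℕ) : ℤ) = α * N + β * j)
    (b' : Bool) : (∃ a b : ℕ, (a : ℤ) + b = α * N + β * j ∧
      ∀ y u, liftP D α β a b F (P1Y.mk y (vec b' u)) = F y) ∧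
    ∃ a b : ℕ, (a : ℤ) + b = α * N + β * j ∧
      ∀ y u, liftP D α β a b F (P1Y.mk y (vec b' u)) = u * F y := by
  cases b'
  · refine ⟨⟨m + 1, 0, by rw [← hm]; simp, fun y u => ?_⟩,
      ⟨m, 1, by rw [← hm]; push_cast; ring, fun y u => ?_⟩⟩
    · rw [liftP_mk hF (by rw [← hm]; simp)]
      show (1 : ℂ) ^ (m + 1) * u ^ 0 * F y = F y
      simp
    · rw [liftP_mk hF (by rw [← hm]; push_cast; ring)]
      show (1 : ℂ) ^ m * u ^ 1 * F y = u * F y
      simp
  · refine ⟨⟨0, m + 1, by rw [← hm]; simp, fun y u => ?_⟩,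
      ⟨1, m, by rw [← hm]; push_cast; ring, fun y u => ?_⟩⟩
    · rw [liftP_mk hF (by rw [← hm]; simp)]
      show u ^ 0 * (1 : ℂ) ^ (m + 1) * F y = F y
      simp
    · rw [liftP_mk hF (by rw [← hm]; push_cast; ring)]
      show u ^ 1 * (1 : ℂ) ^ m * F y = u * F y
      simp

theorem liftP_isSec (hB : IsP1e B e) (hF : Wt D N j F) (hab : (a : ℤ) + b = α * N + β * j) :
    B.IsSec N (liftP D α β a b F) := by
  refine ⟨fun c p => ?_, fun k => ?_⟩
  · obtain ⟨y, x, rfl⟩ := P1Y.exists_mk p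
    rw [P1Y.smul_mk, liftP_mk hF hab, liftP_mk hF hab, hF.sec.hom]
    ring
  · obtain ⟨⟨k, b'⟩, rfl⟩ := e.surjective k
    intro z hz
    rw [hB.U] at hz
    have h1 : DifferentiableAt ℂ (fun w => F (A.γ k w)) (ini z) :=
      (hF.sec.hol k _ hz).differentiableAt ((A.isOpen_U k).mem_nhds hz)
    have h2 : DifferentiableAt ℂ (fun w : E (n + 1) => (vec b' (w (Fin.last n))).1 0 ^ a *
        (vec b' (w (Fin.last n))).1 1 ^ b * F (A.γ k (ini w))) z :=
      (((differentiable_vec b' 0 z).pow a).mul ((differentiable_vec b' 1 z).pow b)).mul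
        (DifferentiableAt.comp z (g := fun w => F (A.γ k w)) h1 (differentiable_ini z))
    refine (h2.congr_of_eventuallyEq ?_).differentiableWithinAt
    have h3 : ∀ᶠ w in 𝓝 z, ini w ∈ A.U k :=
      (differentiable_ini z).continuousAt.eventually_mem ((A.isOpen_U k).mem_nhds hz)
    filter_upwards [h3] with w hw
    rw [hB.γ k b' w hw, liftP_mk hF hab]

theorem liftP_wt (hB : IsP1e B e) {D' : B.DAct} (hD' : IsLift e D') (hF : Wt D N j F)
    (hab : (a : ℤ) + b = α * N + β * j) : Wt D' N j (liftP D α β a b F) := by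
  refine ⟨liftP_isSec hB hF hab, fun c p => ?_⟩
  obtain ⟨y, x, rfl⟩ := P1Y.exists_mk p
  rw [hD'.act, liftP_mk hF hab, liftP_mk hF hab, hF.act]
  ring

end lift

/-! ### Separation -/

/-- The sections in the sets `W j` separate points and tangent vectors. -/
structure WSep (A : PolAtlas n Y) (W : ℤ → Set (Y → ℂ)) : Prop where
  base : ∀ y, ∃ j, ∃ F ∈ W j, F y ≠ 0
  pts : ∀ (y y' : Y) (t : ℂ), (∀ j, ∀ F ∈ W j, F y' = t * F y) → ∃ c : ℂˣ, y' = c • y
  tan : ∀ a, ∀ z ∈ A.U a, ∀ (v : E n) (t : ℂ), (∀ j, ∀ F ∈ W j,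
    fderiv ℂ (fun w => F (A.γ a w)) z v = t * F (A.γ a z)) → v = 0

/-- the lifted sections -/
def liftW (D : A.DAct) (α β : ℤ) (N : ℕ) (W : ℤ → Set (Y → ℂ)) (j : ℤ) :
    Set (P1Y D α β → ℂ) :=
  {G | ∃ F ∈ W j, ∃ a b : ℕ, (a : ℤ) + b = α * N + β * j ∧ G = liftP D α β a b F}

theorem WSep.lift {D : A.DAct} {α β : ℤ} {B : PolAtlas (n + 1) (P1Y D α β)}
    {e : A.ι × Bool ≃ B.ι} (hB : IsP1e B e) {N : ℕ} {W : ℤ → Set (Y → ℂ)} (hW : WSep A W)
    (hwt : ∀ j, ∀ F ∈ W j, Wt D N j F) (hpos : ∀ j, (W j).Nonempty → 1 ≤ α * N + β * j) :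
    WSep B (liftW D α β N W) := by
  -- choice of the exponents
  have hA : ∀ j, (W j).Nonempty → ∃ m : ℕ, 1 ≤ m ∧ (m : ℤ) = α * N + β * j := by
    intro j hj
    have h1 := hpos j hj
    refine ⟨(α * N + β * j).toNat, ?_, Int.toNat_of_nonneg (by linarith)⟩
    have h2 : ((α * N + β * j).toNat : ℤ) = α * N + β * j := Int.toNat_of_nonneg (by linarith)
    exact_mod_cast (by rw [h2]; exact h1 : (1 : ℤ) ≤ ((α * N + β * j).toNat : ℤ))
  refine ⟨?_, ?_, ?_⟩
  · -- base points
    intro p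
    obtain ⟨y, x, rfl⟩ := P1Y.exists_mk p
    obtain ⟨j, F, hF, hF0⟩ := hW.base y
    obtain ⟨m, -, hm⟩ := hA j ⟨F, hF⟩
    have hx : x.1 0 ≠ 0 ∨ x.1 1 ≠ 0 := by
      by_contra hcon
      push Not at hcon
      exact x.2 (by ext i; fin_cases i; exacts [hcon.1, hcon.2])
    rcases hx with hx | hx
    · refine ⟨j, liftP D α β m 0 F, ⟨F, hF, m, 0, by rw [← hm]; simp, rfl⟩, ?_⟩
      rw [liftP_mk (hwt j F hF) (by rw [← hm]; simp)]
      exact mul_ne_zero (mul_ne_zero (pow_ne_zero _ hx) (by simp)) hF0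
    · refine ⟨j, liftP D α β 0 m F, ⟨F, hF, 0, m, by rw [← hm]; simp, rfl⟩, ?_⟩
      rw [liftP_mk (hwt j F hF) (by rw [← hm]; simp)]
      exact mul_ne_zero (mul_ne_zero (by simp) (pow_ne_zero _ hx)) hF0
  · -- points
    intro p p' t ht
    obtain ⟨y, x, rfl⟩ := P1Y.exists_mk p
    obtain ⟨y', x', rfl⟩ := P1Y.exists_mk p'
    have hval : ∀ j, ∀ F ∈ W j, ∀ a b : ℕ, (a : ℤ) + b = α * N + β * j →
        x'.1 0 ^ a * x'.1 1 ^ b * F y' = t * (x.1 0 ^ a * x.1 1 ^ b * F y) := by
      intro j F hF a b hab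
      have h1 := ht j _ ⟨F, hF, a, b, hab, rfl⟩
      rwa [liftP_mk (hwt j F hF) hab, liftP_mk (hwt j F hF) hab] at h1
    -- the points of the projective line agree
    obtain ⟨j, F, hF, hF0⟩ := hW.base y'
    obtain ⟨m, hm1, hm⟩ := hA j ⟨F, hF⟩
    obtain ⟨m, rfl⟩ : ∃ m', m = m' + 1 := ⟨m - 1, by omega⟩
    have hv : ∀ a b : ℕ, a + b = m + 1 →
        x'.1 0 ^ a * x'.1 1 ^ b * F y' = t * (x.1 0 ^ a * x.1 1 ^ b * F y) := by
      intro a b hab
      refine hval j F hF a b ?_
      rw [← hm, ← hab]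
      push_cast
      ring
    have hc : ∃ c : ℂˣ, x' = c • x := by
      have hx' : x'.1 0 ≠ 0 ∨ x'.1 1 ≠ 0 := by
        by_contra hcon
        push Not at hcon
        exact x'.2 (by ext i; fin_cases i; exacts [hcon.1, hcon.2])
      rcases hx' with hx' | hx'
      · have h1 := hv (m + 1) 0 (by ring)
        have h2 := hv m 1 (by ring)
        rw [pow_zero, mul_one, pow_zero, mul_one] at h1
        rw [pow_one, pow_one] at h2
        have h3 : t * (x.1 0 ^ (m + 1) * F y) ≠ 0 := by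
          rw [← h1]
          exact mul_ne_zero (pow_ne_zero _ hx') hF0
        have hx0 : x.1 0 ≠ 0 := by
          intro h0
          rw [h0] at h3
          simp at h3
        refine ⟨Units.mk0 (x'.1 0 / x.1 0) (div_ne_zero hx' hx0), ?_⟩
        apply Subtype.ext
        rw [V2.coe_smul, Units.val_mk0]
        ext i
        fin_cases i
        · show x'.1 0 = x'.1 0 / x.1 0 * x.1 0
          rw [div_mul_cancel₀ _ hx0]
        · show x'.1 1 = x'.1 0 / x.1 0 * x.1 1
          -- h2 / h1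
          have h4 : x'.1 1 * x.1 0 = x'.1 0 * x.1 1 := by
            have h5 : (x'.1 0 ^ m * x'.1 1 * F y') * (x.1 0 ^ (m + 1) * F y * t) =
                (x'.1 0 ^ (m + 1) * F y') * (t * (x.1 0 ^ m * x.1 1 * F y)) := by
              rw [h1, h2]; ring
            have h6 : (x'.1 0 ^ m * F y' * (x.1 0 ^ m * F y * t)) ≠ 0 := by
              have h7 : t ≠ 0 := fun h => h3 (by rw [h, zero_mul])
              have h8 : F y ≠ 0 := fun h => h3 (by rw [h]; simp)
              exact mul_ne_zero (mul_ne_zero (pow_ne_zero _ hx') hF0)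
                (mul_ne_zero (mul_ne_zero (pow_ne_zero _ hx0) h8) h7)
            apply mul_left_cancel₀ h6
            linear_combination h5
          rw [div_mul_eq_mul_div, eq_div_iff hx0, h4]
      · have h1 := hv 0 (m + 1) (by ring)
        have h2 := hv 1 m (by ring)
        rw [pow_zero, one_mul, pow_zero, one_mul] at h1
        rw [pow_one, pow_one] at h2
        have h3 : t * (x.1 1 ^ (m + 1) * F y) ≠ 0 := by
          rw [← h1]
          exact mul_ne_zero (pow_ne_zero _ hx') hF0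
        have hx0 : x.1 1 ≠ 0 := by
          intro h0
          rw [h0] at h3
          simp at h3
        refine ⟨Units.mk0 (x'.1 1 / x.1 1) (div_ne_zero hx' hx0), ?_⟩
        apply Subtype.ext
        rw [V2.coe_smul, Units.val_mk0]
        ext i
        fin_cases i
        · show x'.1 0 = x'.1 1 / x.1 1 * x.1 0
          have h4 : x'.1 0 * x.1 1 = x'.1 1 * x.1 0 := by
            have h5 : (x'.1 0 * x'.1 1 ^ m * F y') * (x.1 1 ^ (m + 1) * F y * t) =
                (x'.1 1 ^ (m + 1) * F y') * (t * (x.1 0 * x.1 1 ^ m * F y)) := by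
              rw [h1, h2]; ring
            have h6 : (x'.1 1 ^ m * F y' * (x.1 1 ^ m * F y * t)) ≠ 0 := by
              have h7 : t ≠ 0 := fun h => h3 (by rw [h, zero_mul])
              have h8 : F y ≠ 0 := fun h => h3 (by rw [h]; simp)
              exact mul_ne_zero (mul_ne_zero (pow_ne_zero _ hx') hF0)
                (mul_ne_zero (mul_ne_zero (pow_ne_zero _ hx0) h8) h7)
            apply mul_left_cancel₀ h6
            linear_combination h5
          rw [div_mul_eq_mul_div, eq_div_iff hx0, h4]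
        · show x'.1 1 = x'.1 1 / x.1 1 * x.1 1
          rw [div_mul_cancel₀ _ hx0]
    obtain ⟨c, hc⟩ := hc
    -- move to the same point of the projective line
    have hp' : (P1Y.mk y' x' : P1Y D α β) = P1Y.mk (c ^ α • D.act (c ^ β) y') x := by
      rw [hc, P1Y.mk_smul]
    rw [hp'] at ht ⊢
    have hxx : x.1 0 ≠ 0 ∨ x.1 1 ≠ 0 := by
      by_contra hcon
      push Not at hcon
      exact x.2 (by ext i; fin_cases i; exacts [hcon.1, hcon.2])
    obtain ⟨d, hd⟩ := hW.pts y (c ^ α • D.act (c ^ β) y') t (by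
      intro j F hF
      obtain ⟨m, -, hm⟩ := hA j ⟨F, hF⟩
      rcases hxx with hx | hx
      · have h1 := ht j _ ⟨F, hF, m, 0, by rw [← hm]; simp, rfl⟩
        rw [liftP_mk (hwt j F hF) (by rw [← hm]; simp),
          liftP_mk (hwt j F hF) (by rw [← hm]; simp)] at h1
        have h2 : x.1 0 ^ m * x.1 1 ^ 0 ≠ 0 := mul_ne_zero (pow_ne_zero _ hx) (by simp)
        apply mul_left_cancel₀ h2
        rw [h1]; ring
      · have h1 := ht j _ ⟨F, hF, 0, m, by rw [← hm]; simp, rfl⟩
        rw [liftP_mk (hwt j F hF) (by rw [← hm]; simp),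
          liftP_mk (hwt j F hF) (by rw [← hm]; simp)] at h1
        have h2 : x.1 0 ^ 0 * x.1 1 ^ m ≠ 0 := mul_ne_zero (by simp) (pow_ne_zero _ hx)
        apply mul_left_cancel₀ h2
        rw [h1]; ring)
    exact ⟨d, by rw [hd, P1Y.smul_mk]⟩
  · -- tangent vectors
    intro k z hz v t ht
    obtain ⟨⟨k, b'⟩, rfl⟩ := e.surjective k
    have hzU : ini z ∈ A.U k := by rw [hB.U] at hz; exact hz
    have hnear : ∀ᶠ w in 𝓝 z, ini w ∈ A.U k :=
      (differentiable_ini z).continuousAt.eventually_mem ((A.isOpen_U k).mem_nhds hzU)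
    -- the two relations
    have key : ∀ j, ∀ F ∈ W j, fderiv ℂ (fun w => F (A.γ k w)) (ini z) (ini v) =
        t * F (A.γ k (ini z)) ∧ v (Fin.last n) * F (A.γ k (ini z)) = 0 := by
      intro j F hF
      obtain ⟨m, hm1, hm⟩ := hA j ⟨F, hF⟩
      obtain ⟨m, rfl⟩ : ∃ m', m = m' + 1 := ⟨m - 1, by omega⟩
      obtain ⟨⟨a, b, hab, h0⟩, a', b₁, hab', h1⟩ := liftP_chart (hwt j F hF) hm b'
      have hd : DifferentiableAt ℂ (fun w => F (A.γ k w)) (ini z) :=
        ((hwt j F hF).sec.hol k _ hzU).differentiableAt ((A.isOpen_U k).mem_nhds hzU)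
      have hd1 : HasFDerivAt (fun w : E (n + 1) => F (A.γ k (ini w)))
          ((fderiv ℂ (fun w => F (A.γ k w)) (ini z)).comp iniL) z :=
        hd.hasFDerivAt.comp z (hasFDerivAt_ini z)
      -- first
      have e0 := ht j _ ⟨F, hF, a, b, hab, rfl⟩
      have c0 : (fun w => liftP D α β a b F (B.γ (e (k, b')) w)) =ᶠ[𝓝 z]
          fun w => F (A.γ k (ini w)) := by
        filter_upwards [hnear] with w hw
        rw [hB.γ k b' w hw, h0]
      rw [c0.fderiv_eq, hd1.fderiv, hB.γ k b' z hzU, h0] at e0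
      have e0' : fderiv ℂ (fun w => F (A.γ k w)) (ini z) (ini v) = t * F (A.γ k (ini z)) := e0
      -- second
      have e1 := ht j _ ⟨F, hF, a', b₁, hab', rfl⟩
      have c1 : (fun w => liftP D α β a' b₁ F (B.γ (e (k, b')) w)) =ᶠ[𝓝 z]
          fun w => w (Fin.last n) * F (A.γ k (ini w)) := by
        filter_upwards [hnear] with w hw
        rw [hB.γ k b' w hw, h1]
      rw [c1.fderiv_eq, ((hasFDerivAt_last z).fun_mul hd1).fderiv, hB.γ k b' z hzU, h1] at e1
      have e1' : z (Fin.last n) * fderiv ℂ (fun w => F (A.γ k w)) (ini z) (ini v) +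
          F (A.γ k (ini z)) * v (Fin.last n) = t * (z (Fin.last n) * F (A.γ k (ini z))) := e1
      refine ⟨e0', ?_⟩
      rw [e0'] at e1'
      linear_combination e1'
    obtain ⟨j, F, hF, hF0⟩ := hW.base (A.γ k (ini z))
    have hlast : v (Fin.last n) = 0 := by
      rcases mul_eq_zero.1 (key j F hF).2 with h | h
      · exact h
      · exact absurd h hF0
    have hini := hW.tan k (ini z) hzU (ini v) t fun j F hF => (key j F hF).1
    ext i
    refine Fin.lastCases ?_ (fun i => ?_) i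
    · exact hlast
    · exact congrFun hini i

end

end Pool.Agent.YTDA
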