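import Pool.Agent.YTDA.Curve

/-!
# Regular values of rational functions on an analytic curve

`An.rg P z e s` is the value at `s` of the analytic function given by `fn P z s * s ^ e`.
-/

namespace Pool.Agent.YTDA

open Complex Set Topology Metric Filter
open Pool.Agent.YTD

noncomputable section

namespace AnCurve

variable {K : Type} [Field K] [Algebra ℂ K] {X : CurveOrd K} (An : AnCurve X)

/-- local expression of `z` times a power of the coordinate -/
def pf (P : X.Pt) (z : K) (e : ℤ) (s : ℂ) : ℂ := An.fn P z s * s ^ e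

/-- the analytic function given by `pf` -/
def rg (P : X.Pt) (z : K) (e : ℤ) : ℂ → ℂ :=
  toMeromorphicNFOn (An.pf P z e) (ball 0 (An.r P))

/-- regularity at a point -/
def Reg (P : X.Pt) (z : K) (e : ℤ) (s : ℂ) : Prop := 0 ≤ meromorphicOrderAt (An.pf P z e) s

variable {An}

theorem mero_zpow (e : ℤ) (s : ℂ) : MeromorphicAt (fun t : ℂ => t ^ e) s :=
  (MeromorphicAt.id s).fun_zpow e

theorem mero_pf (P : X.Pt) (z : K) (e : ℤ) : MeromorphicOn (An.pf P z e) (ball 0 (An.r P)) :=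
  fun s hs => (An.fn_mero P z s hs).fun_mul (mero_zpow e s)

theorem rg_eq {P : X.Pt} {z : K} {e : ℤ} {s : ℂ} (hs : s ∈ ball 0 (An.r P)) :
    An.rg P z e =ᶠ[𝓝[≠] s] An.pf P z e :=
  MeromorphicOn.toMeromorphicNFOn_eq_self_on_nhdsNE (mero_pf P z e) hs

theorem order_zpow_zero (e : ℤ) : meromorphicOrderAt (fun t : ℂ => t ^ e) 0 = e := by
  rw [meromorphicOrderAt_eq_int_iff (mero_zpow e 0)]
  exact ⟨fun _ => 1, analyticAt_const, one_ne_zero, Eventually.of_forall fun t => by simp⟩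

theorem order_zpow_ne (e : ℤ) {s : ℂ} (hs : s ≠ 0) :
    meromorphicOrderAt (fun t : ℂ => t ^ e) s = 0 := by
  have h1 : AnalyticAt ℂ (fun t : ℂ => t ^ e) s := by
    exact analyticAt_id.fun_zpow hs
  rw [h1.meromorphicOrderAt_eq, h1.analyticOrderAt_eq_zero.2 (zpow_ne_zero e hs)]
  rfl

theorem ord_pf_zero {P : X.Pt} {z : K} (hz : z ≠ 0) (e : ℤ) :
    meromorphicOrderAt (An.pf P z e) 0 = ((X.ord P z + e : ℤ) : WithTop ℤ) := by
  have h0 : (0 : ℂ) ∈ ball (0 : ℂ) (An.r P) := mem_ball_self (An.r_pos P)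
  have h1 : An.pf P z e = An.fn P z * fun t : ℂ => t ^ e := rfl
  rw [h1, meromorphicOrderAt_mul (An.fn_mero P z 0 h0) (mero_zpow e 0), order_zpow_zero,
    An.ord P z hz 0 h0, An.c_zero]
  rfl

theorem ord_pf_ne {P : X.Pt} {z : K} (hz : z ≠ 0) (e : ℤ) {s : ℂ} (hs : s ∈ ball 0 (An.r P))
    (h0 : s ≠ 0) : meromorphicOrderAt (An.pf P z e) s = X.ord (An.c P s) z := by
  have h1 : An.pf P z e = An.fn P z * fun t : ℂ => t ^ e := rfl
  rw [h1, meromorphicOrderAt_mul (An.fn_mero P z s hs) (mero_zpow e s), order_zpow_ne e h0,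
    An.ord P z hz s hs, add_zero]

theorem pf_zero_eventually {P : X.Pt} (e : ℤ) {s : ℂ} (hs : s ∈ ball 0 (An.r P)) :
    An.pf P 0 e =ᶠ[𝓝[≠] s] 0 := by
  have h := An.fn_const P 0 s hs
  rw [map_zero] at h
  filter_upwards [h] with t ht
  rw [pf, ht, zero_mul]
  rfl

theorem reg_zero {P : X.Pt} (e : ℤ) {s : ℂ} (hs : s ∈ ball 0 (An.r P)) : An.Reg P 0 e s := by
  have h : meromorphicOrderAt (An.pf P 0 e) s = ⊤ :=
    meromorphicOrderAt_eq_top_iff.2 (pf_zero_eventually e hs)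
  rw [Reg, h]
  exact le_top

theorem analyticAt_rg {P : X.Pt} {z : K} {e : ℤ} {s : ℂ} (hs : s ∈ ball 0 (An.r P))
    (h : An.Reg P z e s) : AnalyticAt ℂ (An.rg P z e) s := by
  have h1 : MeromorphicNFAt (An.rg P z e) s := meromorphicNFOn_toMeromorphicNFOn _ _ hs
  rw [← h1.meromorphicOrderAt_nonneg_iff_analyticAt, meromorphicOrderAt_congr (rg_eq hs)]
  exact h

/-- uniqueness of the regular value -/
theorem rg_unique {P : X.Pt} {z : K} {e : ℤ} {s : ℂ} (hs : s ∈ ball 0 (An.r P))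
    (h : An.Reg P z e s) {g : ℂ → ℂ} (hg : ContinuousAt g s)
    (hgf : g =ᶠ[𝓝[≠] s] An.pf P z e) : An.rg P z e s = g s := by
  have h1 : Tendsto (An.rg P z e) (𝓝[≠] s) (𝓝 (An.rg P z e s)) :=
    (analyticAt_rg hs h).continuousAt.continuousWithinAt
  have h2 : Tendsto g (𝓝[≠] s) (𝓝 (g s)) := hg.continuousWithinAt
  exact tendsto_nhds_unique (h1.congr' ((rg_eq hs).trans hgf.symm)) h2

theorem Reg.of_eventuallyEq {P : X.Pt} {z : K} {e : ℤ} {s : ℂ} {g : ℂ → ℂ}
    (hg : AnalyticAt ℂ g s) (hgf : g =ᶠ[𝓝[≠] s] An.pf P z e) : An.Reg P z e s := by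
  rw [Reg, ← meromorphicOrderAt_congr hgf]
  exact hg.meromorphicOrderAt_nonneg

theorem reg_add {P : X.Pt} {z w : K} {e : ℤ} {s : ℂ} (hs : s ∈ ball 0 (An.r P))
    (hz : An.Reg P z e s) (hw : An.Reg P w e s) : An.Reg P (z + w) e s ∧
      An.rg P (z + w) e s = An.rg P z e s + An.rg P w e s := by
  have h1 : (fun t => An.rg P z e t + An.rg P w e t) =ᶠ[𝓝[≠] s] An.pf P (z + w) e := by
    filter_upwards [rg_eq hs (z := z) (e := e), rg_eq hs (z := w) (e := e),
      An.fn_add P z w s hs] with t h1 h2 h3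
    rw [h1, h2, pf, pf, pf, h3, Pi.add_apply, add_mul]
  have h2 := (analyticAt_rg hs hz).add (analyticAt_rg hs hw)
  have h3 : An.Reg P (z + w) e s := Reg.of_eventuallyEq h2 h1
  exact ⟨h3, rg_unique hs h3 h2.continuousAt h1⟩

theorem reg_mul {P : X.Pt} {z w : K} {e e' : ℤ} {s : ℂ} (hs : s ∈ ball 0 (An.r P))
    (hz : An.Reg P z e s) (hw : An.Reg P w e' s) : An.Reg P (z * w) (e + e') s ∧
      An.rg P (z * w) (e + e') s = An.rg P z e s * An.rg P w e' s := by
  have h1 : (fun t => An.rg P z e t * An.rg P w e' t) =ᶠ[𝓝[≠] s] An.pf P (z * w) (e + e') := by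
    have hne : ∀ᶠ t in 𝓝[≠] s, t ≠ 0 := by
      rcases eq_or_ne s 0 with rfl | h0
      · exact eventually_mem_nhdsWithin
      · exact (isOpen_ne.mem_nhds h0 : {t : ℂ | t ≠ 0} ∈ 𝓝 s) |> fun h =>
          mem_nhdsWithin_of_mem_nhds h
    filter_upwards [rg_eq hs (z := z) (e := e), rg_eq hs (z := w) (e := e'),
      An.fn_mul P z w s hs, hne] with t h1 h2 h3 h4
    rw [h1, h2, pf, pf, pf, h3, Pi.mul_apply, zpow_add₀ h4]
    ring
  have h2 := (analyticAt_rg hs hz).mul (analyticAt_rg hs hw)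
  have h3 : An.Reg P (z * w) (e + e') s := Reg.of_eventuallyEq h2 h1
  exact ⟨h3, rg_unique hs h3 h2.continuousAt h1⟩

theorem reg_const {P : X.Pt} (a : ℂ) {s : ℂ} (hs : s ∈ ball 0 (An.r P)) :
    An.Reg P (algebraMap ℂ K a) 0 s ∧ An.rg P (algebraMap ℂ K a) 0 s = a := by
  have h1 : (fun _ => a) =ᶠ[𝓝[≠] s] An.pf P (algebraMap ℂ K a) 0 := by
    filter_upwards [An.fn_const P a s hs] with t h1
    rw [pf, h1, zpow_zero, mul_one]
  have h3 : An.Reg P (algebraMap ℂ K a) 0 s := Reg.of_eventuallyEq analyticAt_const h1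
  exact ⟨h3, rg_unique hs h3 continuousAt_const h1⟩

theorem reg_smul {P : X.Pt} {z : K} {e : ℤ} (a : ℂ) {s : ℂ} (hs : s ∈ ball 0 (An.r P))
    (hz : An.Reg P z e s) : An.Reg P (a • z) e s ∧ An.rg P (a • z) e s = a * An.rg P z e s := by
  obtain ⟨h1, h2⟩ := reg_const (An := An) (P := P) a hs
  obtain ⟨h3, h4⟩ := reg_mul hs h1 hz
  rw [zero_add] at h3 h4
  rw [Algebra.smul_def]
  exact ⟨h3, by rw [h4, h2]⟩

theorem rg_shift {P : X.Pt} {z : K} {e : ℤ} (m : ℤ) {s : ℂ} (hs : s ∈ ball 0 (An.r P))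
    (h0 : s ≠ 0) (hz : An.Reg P z e s) : An.rg P z (e + m) s = An.rg P z e s * s ^ m := by
  have hne : ∀ᶠ t in 𝓝[≠] s, t ≠ 0 := mem_nhdsWithin_of_mem_nhds (isOpen_ne.mem_nhds h0)
  have h1 : (fun t => An.rg P z e t * t ^ m) =ᶠ[𝓝[≠] s] An.pf P z (e + m) := by
    filter_upwards [rg_eq hs (z := z) (e := e), hne] with t h1 h2
    rw [h1, pf, pf, zpow_add₀ h2]
    ring
  have h2 : AnalyticAt ℂ (fun t : ℂ => t ^ m) s := analyticAt_id.fun_zpow h0
  have h3 := (analyticAt_rg hs hz).mul h2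
  exact rg_unique hs (Reg.of_eventuallyEq h3 h1) h3.continuousAt h1

/-- the value is non-zero exactly if the order is zero -/
theorem rg_ne_zero_iff {P : X.Pt} {z : K} {e : ℤ} {s : ℂ} (hs : s ∈ ball 0 (An.r P))
    (h : An.Reg P z e s) : An.rg P z e s ≠ 0 ↔ meromorphicOrderAt (An.pf P z e) s = 0 := by
  have h1 := analyticAt_rg hs h
  rw [← meromorphicOrderAt_congr (rg_eq hs), h1.meromorphicOrderAt_eq]
  constructor
  · intro h2
    rw [h1.analyticOrderAt_eq_zero.2 h2]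
    rfl
  · intro h2
    apply h1.analyticOrderAt_eq_zero.1
    cases h3 : analyticOrderAt (An.rg P z e) s with
    | top => rw [h3] at h2; simp at h2
    | coe m =>
      rw [h3] at h2
      simp only [ENat.map_natCast] at h2
      have h4 : (m : ℤ) = 0 := by exact_mod_cast h2
      have h5 : m = 0 := by exact_mod_cast h4
      rw [h5]
      rfl

/-- order one: the derivative is non-zero -/
theorem deriv_rg_ne_zero {P : X.Pt} {z : K} {e : ℤ} {s : ℂ} (hs : s ∈ ball 0 (An.r P))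
    (h : meromorphicOrderAt (An.pf P z e) s = 1) :
    An.rg P z e s = 0 ∧ deriv (An.rg P z e) s ≠ 0 := by
  have hreg : An.Reg P z e s := by rw [Reg, h]; exact zero_le_one
  have h1 := analyticAt_rg hs hreg
  have h2 : analyticOrderAt (An.rg P z e) s = 1 := by
    rw [← meromorphicOrderAt_congr (rg_eq hs), h1.meromorphicOrderAt_eq] at h
    cases h3 : analyticOrderAt (An.rg P z e) s with
    | top => rw [h3] at h; simp at h
    | coe m =>
      rw [h3] at h
      simp only [ENat.map_natCast] at h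
      have h4 : (m : ℤ) = 1 := by exact_mod_cast h
      have h5 : m = 1 := by exact_mod_cast h4
      rw [h5]
      rfl
  refine ⟨?_, ?_⟩
  · exact h1.analyticOrderAt_ne_zero.1 (by rw [h2]; exact one_ne_zero)
  · have h3 := (h1.analyticOrderAt_eq_natCast (n := 1)).1 (by rw [h2]; rfl)
    obtain ⟨g, hg, hg0, hgf⟩ := h3
    have h4 : An.rg P z e =ᶠ[𝓝 s] fun t => (t - s) * g t := by
      filter_upwards [hgf] with t ht
      rw [ht, pow_one, smul_eq_mul]
    rw [h4.deriv_eq]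
    have h5 : HasDerivAt (fun t => (t - s) * g t) (1 * g s + (s - s) * deriv g s) s :=
      ((hasDerivAt_id s).sub_const s).mul hg.differentiableAt.hasDerivAt
    rw [h5.deriv]
    simpa using hg0

end AnCurve

end

end Pool.Agent.YTDA
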