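import Pool.Agent.YTDA.SecGlue
import Pool.Agent.YTDA.Rg

/-!
# Sections of the line bundle on the surface `Σ`

For `f ∈ V N j` the section `f w ^ j` of `L ^ N` on `Σ`.
-/

namespace Pool.Agent.YTDA

open Complex Set Topology ContDiff Filter Metric
open Pool.Agent.YTD

noncomputable section

section Dvs

variable {K : Type} [Field K] [Algebra ℂ K] (T : Datum K)

/-- `S'` for `ε = 1`, `S` for `ε = -1` -/
def SE (ε : ℤˣ) : Finset T.X.Pt := if ε = 1 then T.S' else T.S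

theorem SE_one : SE T 1 = T.S' := if_pos rfl

theorem SE_neg_one : SE T (-1) = T.S := if_neg (by decide)

variable {T}

theorem SE_disj {ε : ℤˣ} {P : T.X.Pt} (h : P ∈ SE T ε) : P ∉ SE T (-ε) := by
  rcases Int.units_eq_one_or ε with rfl | rfl
  · rw [SE_one] at h
    rw [SE_neg_one]
    exact fun h' => (Finset.disjoint_left.1 T.disj h') h
  · rw [SE_neg_one] at h
    rw [neg_neg, SE_one]
    exact Finset.disjoint_left.1 T.disj h

theorem Ok_iff {P : T.X.Pt} {s : ℂ} (ε : ℤˣ) :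
    Ok T P s ↔ s ≠ 0 ∨ (P ∉ SE T ε ∧ P ∉ SE T (-ε)) := by
  unfold Ok
  rcases Int.units_eq_one_or ε with rfl | rfl
  · rw [SE_one, SE_neg_one, and_comm]
  · rw [neg_neg, SE_one, SE_neg_one]

/-- the number `4qN ± j` -/
def kap (q N : ℕ) (ε : ℤˣ) (j : ℤ) : ℤ := 4 * q * N + (ε : ℤ) * j

theorem kap_one (q N : ℕ) (j : ℤ) : kap q N 1 j = 4 * q * N + j := by
  rw [kap, Units.val_one, one_mul]

theorem kap_neg_one (q N : ℕ) (j : ℤ) : kap q N (-1) j = 4 * q * N - j := by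
  rw [kap, Units.val_neg, Units.val_one]
  ring

/-- the multiplicity of the divisor at the points of `SE ε` -/
theorem dvs_SE {ε : ℤˣ} {P : T.X.Pt} (h : P ∈ SE T ε) (q : ℕ) (D₀ : T.X.Pt →₀ ℤ) (N : ℕ)
    (j : ℤ) : T.dvs q D₀ N j P = N * D₀ P - max 0 (-kap q N ε j) := by
  classical
  have h' := SE_disj h
  unfold Datum.dvs
  have hsum : ∀ (S : Finset T.X.Pt) (m : ℤ), (∑ y ∈ S, Finsupp.single y m) P =
      if P ∈ S then m else 0 := by
    intro S m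
    rw [Finsupp.finsetSum_apply]
    simp only [Finsupp.single_apply]
    rw [Finset.sum_ite_eq' S P fun _ => m]
  rw [Finsupp.sub_apply, Finsupp.sub_apply, hsum, hsum, Finsupp.smul_apply]
  rcases Int.units_eq_one_or ε with rfl | rfl
  · rw [SE_one] at h
    rw [SE_neg_one] at h'
    rw [if_neg h', if_pos h, kap_one]
    simp only [nsmul_eq_mul, sub_zero]
    congr 2
    ring
  · rw [SE_neg_one] at h
    rw [neg_neg, SE_one] at h'
    rw [if_neg h', if_pos h, kap_neg_one]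
    simp only [nsmul_eq_mul, sub_zero]
    congr 2
    ring

theorem dvs_not {P : T.X.Pt} (h : P ∉ T.S) (h' : P ∉ T.S') (q : ℕ) (D₀ : T.X.Pt →₀ ℤ) (N : ℕ)
    (j : ℤ) : T.dvs q D₀ N j P = N * D₀ P := by
  classical
  unfold Datum.dvs
  have hsum : ∀ (S : Finset T.X.Pt) (m : ℤ), (∑ y ∈ S, Finsupp.single y m) P =
      if P ∈ S then m else 0 := by
    intro S m
    rw [Finsupp.finsetSum_apply]
    simp only [Finsupp.single_apply]
    rw [Finset.sum_ite_eq' S P fun _ => m]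
  rw [Finsupp.sub_apply, Finsupp.sub_apply, hsum, hsum, Finsupp.smul_apply, if_neg h, if_neg h']
  simp

theorem dvs_not' {ε : ℤˣ} {P : T.X.Pt} (h : P ∉ SE T ε) (h' : P ∉ SE T (-ε)) (q : ℕ)
    (D₀ : T.X.Pt →₀ ℤ) (N : ℕ) (j : ℤ) : T.dvs q D₀ N j P = N * D₀ P := by
  rcases Int.units_eq_one_or ε with rfl | rfl
  · rw [SE_one] at h
    rw [SE_neg_one] at h'
    exact dvs_not h' h q D₀ N j
  · rw [SE_neg_one] at h
    rw [neg_neg, SE_one] at h'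
    exact dvs_not h h' q D₀ N j

theorem dvs_le (P : T.X.Pt) (q : ℕ) (D₀ : T.X.Pt →₀ ℤ) (N : ℕ) (j : ℤ) :
    T.dvs q D₀ N j P ≤ N * D₀ P := by
  by_cases h : P ∈ T.S
  · rw [dvs_SE (ε := -1) (by rwa [SE_neg_one])]
    have := le_max_left 0 (-kap q N (-1) j)
    linarith
  · by_cases h' : P ∈ T.S'
    · rw [dvs_SE (ε := 1) (by rwa [SE_one])]
      have := le_max_left 0 (-kap q N 1 j)
      linarith
    · rw [dvs_not h h']

end Dvs

namespace SigModel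

variable {K : Type} [Field K] [Algebra ℂ K] {T : Datum K} {q : ℕ} {D₀ : T.X.Pt →₀ ℤ}
  {An : AnCurve T.X.toCurveOrd} (M : SigModel T q D₀ An)

/-- index `0` for `ε = 1`, index `1` for `ε = -1` -/
def ix (ε : ℤˣ) : Fin 3 := if ε = 1 then 0 else 1

/-- the side chart -/
def ch (ε : ℤˣ) (P : T.X.Pt) : M.A.ι := M.e (P, ix ε)

/-- the middle chart -/
def md (P : T.X.Pt) : M.A.ι := M.e (P, 2)

theorem ch_one (P : T.X.Pt) : M.ch 1 P = M.e (P, 0) := rfl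

theorem ch_neg_one (P : T.X.Pt) : M.ch (-1) P = M.e (P, 1) := rfl

theorem U_ch (ε : ℤˣ) (P : T.X.Pt) : M.A.U (M.ch ε P) = {z | ‖z 0‖ < M.r P} := by
  rcases Int.units_eq_one_or ε with rfl | rfl
  · exact M.U_bot P
  · exact M.U_top P

theorem U_md {ε : ℤˣ} {P : T.X.Pt} (h : P ∈ SE T ε) :
    M.A.U (M.md P) = {z | ‖z 0 * z 1‖ < M.r P} := by
  rcases Int.units_eq_one_or ε with rfl | rfl
  · rw [SE_one] at h
    exact M.U_mid P (Or.inr h)
  · rw [SE_neg_one] at h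
    exact M.U_mid P (Or.inl h)

theorem γ_ch {ε : ℤˣ} {P : T.X.Pt} (h : P ∉ SE T ε) {s : ℂ} (hs : s ∈ ball 0 (M.r P))
    (h' : s ≠ 0 ∨ P ∉ SE T (-ε)) (b : ℂˣ) :
    M.A.γ (M.ch ε P) ![s, b] = b ^ (5 * (q : ℤ)) • M.o P s (b ^ (ε : ℤ)) := by
  rcases Int.units_eq_one_or ε with rfl | rfl
  · rw [SE_one] at h
    rw [SE_neg_one] at h'
    rw [Units.val_one, zpow_one]
    exact M.γ_bot P h s hs h' b
  · rw [SE_neg_one] at h
    rw [neg_neg, SE_one] at h'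
    rw [Units.val_neg, Units.val_one, zpow_neg_one]
    exact M.γ_top P h s hs h' b

theorem γ_ch' {ε : ℤˣ} {P : T.X.Pt} (h : P ∈ SE T ε) (s : ℂˣ) (hs : ‖(s : ℂ)‖ < M.r P)
    (b : ℂˣ) : M.A.γ (M.ch ε P) ![(s : ℂ), b] =
      ((s * b) ^ (5 * (q : ℤ)) * s ^ (-(q : ℤ))) • M.o P s ((s * b) ^ (ε : ℤ)) := by
  rcases Int.units_eq_one_or ε with rfl | rfl
  · rw [SE_one] at h
    rw [Units.val_one, zpow_one]
    exact M.γ_bot' P h s hs b
  · rw [SE_neg_one] at h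
    rw [Units.val_neg, Units.val_one, zpow_neg_one]
    exact M.γ_top' P h s hs b

theorem γ_md {ε : ℤˣ} {P : T.X.Pt} (h : P ∈ SE T ε) (z f : ℂˣ) (hzf : ‖(z : ℂ) * f‖ < M.r P) :
    M.A.γ (M.md P) ![(z : ℂ), f] = z ^ (4 * (q : ℤ)) • M.o P (z * f) (z ^ (ε : ℤ)) := by
  rcases Int.units_eq_one_or ε with rfl | rfl
  · rw [SE_one] at h
    rw [Units.val_one, zpow_one]
    exact M.γ_mid' P h z f hzf
  · rw [SE_neg_one] at h
    rw [Units.val_neg, Units.val_one, zpow_neg_one]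
    exact M.γ_mid P h z f hzf

/-- every chart is one of these -/
theorem chart_cases (a : M.A.ι) {z : E 2} (hz : z ∈ M.A.U a) :
    (∃ ε P, a = M.ch ε P) ∨ ∃ ε, ∃ P ∈ SE T ε, a = M.md P := by
  obtain ⟨⟨P, i⟩, rfl⟩ := M.e.surjective a
  fin_cases i
  · exact Or.inl ⟨1, P, rfl⟩
  · exact Or.inl ⟨-1, P, rfl⟩
  · by_cases h : P ∈ T.S
    · exact Or.inr ⟨-1, P, by rwa [SE_neg_one], rfl⟩
    · by_cases h' : P ∈ T.S'
      · exact Or.inr ⟨1, P, by rwa [SE_one], rfl⟩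
      · have h2 := M.U_mid' P h h'
        change z ∈ M.A.U (M.e (P, 2)) at hz
        rw [h2] at hz
        exact absurd hz (Set.notMem_empty z)

/-! ### Local expressions of the sections -/

variable (N : ℕ) (j : ℤ) (f : K)

open Classical in
/-- exponent of the coordinate of the curve in the side chart -/
def eC (M : SigModel T q D₀ An) (N : ℕ) (j : ℤ) (ε : ℤˣ) (P : T.X.Pt) : ℤ :=
  let _ := M
  N * D₀ P + if P ∈ SE T ε then kap q N ε j else 0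

/-- exponent in the middle chart -/
def eM (M : SigModel T q D₀ An) (N : ℕ) (j : ℤ) (ε : ℤˣ) (P : T.X.Pt) : ℤ :=
  let _ := M
  N * D₀ P - max 0 (-kap q N ε j)

/-- local expression in the side chart -/
def locC (ε : ℤˣ) (P : T.X.Pt) (z : E 2) : ℂ :=
  z 1 ^ (5 * q * N + (ε : ℤ) * j).toNat * An.rg P f (M.eC N j ε P) (z 0)

/-- local expression in the middle chart -/
def locM (ε : ℤˣ) (P : T.X.Pt) (z : E 2) : ℂ :=
  z 0 ^ (kap q N ε j).toNat * z 1 ^ (-kap q N ε j).toNat *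
    An.rg P f (M.eM N j ε P) (z 0 * z 1)

open Classical in
/-- local expression of the section `f w ^ j` -/
def loc (a : M.A.ι) (z : E 2) : ℂ :=
  if (M.e.symm a).2 = 0 then M.locC N j f 1 (M.e.symm a).1 z
  else if (M.e.symm a).2 = 1 then M.locC N j f (-1) (M.e.symm a).1 z
  else if (M.e.symm a).1 ∈ T.S' then M.locM N j f 1 (M.e.symm a).1 z
  else M.locM N j f (-1) (M.e.symm a).1 z

theorem loc_ch (ε : ℤˣ) (P : T.X.Pt) (z : E 2) :
    M.loc N j f (M.ch ε P) z = M.locC N j f ε P z := by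
  rcases Int.units_eq_one_or ε with rfl | rfl
  · rw [ch_one, loc, Equiv.symm_apply_apply]
    simp
  · rw [ch_neg_one, loc, Equiv.symm_apply_apply]
    simp

theorem loc_md {ε : ℤˣ} {P : T.X.Pt} (h : P ∈ SE T ε) (z : E 2) :
    M.loc N j f (M.md P) z = M.locM N j f ε P z := by
  have h' := SE_disj h
  rw [md, loc, Equiv.symm_apply_apply]
  rcases Int.units_eq_one_or ε with rfl | rfl
  · rw [SE_one] at h
    simp [h]
  · rw [neg_neg, SE_one] at h'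
    simp [h']

variable {N j f}

/-- the value is regular at all points of the disc -/
theorem reg {e : ℤ} {P : T.X.Pt} (hf : f ∈ T.V q D₀ N j) (he : T.dvs q D₀ N j P ≤ e) {s : ℂ}
    (hs : s ∈ ball 0 (M.r P)) : An.Reg P f e s := by
  have hs' : s ∈ ball 0 (An.r P) := ball_subset_ball (M.r_le P) hs
  by_cases hf0 : f = 0
  · rw [hf0]
    exact AnCurve.reg_zero e hs'
  · by_cases h0 : s = 0
    · rw [h0, AnCurve.Reg, AnCurve.ord_pf_zero hf0]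
      have h1 := hf hf0 P
      exact_mod_cast (by linarith : 0 ≤ T.X.ord P f + e)
    · rw [AnCurve.Reg, AnCurve.ord_pf_ne hf0 e hs' h0]
      have h1 := hf hf0 (An.c P s)
      obtain ⟨h2, h3, h4⟩ := M.iso P s hs h0
      rw [dvs_not h2 h3, h4, mul_zero, add_zero] at h1
      exact_mod_cast h1

theorem reg_ne {P : T.X.Pt} (hf : f ∈ T.V q D₀ N j) (e : ℤ) {s : ℂ}
    (hs : s ∈ ball 0 (M.r P)) (h0 : s ≠ 0) : An.Reg P f e s := by
  have hs' : s ∈ ball 0 (An.r P) := ball_subset_ball (M.r_le P) hs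
  by_cases hf0 : f = 0
  · rw [hf0]
    exact AnCurve.reg_zero e hs'
  · have h1 := M.reg hf le_rfl hs
    rw [AnCurve.Reg, AnCurve.ord_pf_ne hf0 _ hs' h0] at h1
    rw [AnCurve.Reg, AnCurve.ord_pf_ne hf0 e hs' h0]
    exact h1

theorem le_eC (ε : ℤˣ) (P : T.X.Pt) : T.dvs q D₀ N j P ≤ M.eC N j ε P := by
  unfold eC
  by_cases h : P ∈ SE T ε
  · simp only [h, if_true]
    rw [dvs_SE h]
    have := neg_le_of_neg_le (le_max_right 0 (-kap q N ε j))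
    linarith
  · simp only [h, if_false, add_zero]
    exact dvs_le P q D₀ N j

theorem eM_eq {ε : ℤˣ} {P : T.X.Pt} (h : P ∈ SE T ε) : M.eM N j ε P = T.dvs q D₀ N j P :=
  (dvs_SE h q D₀ N j).symm

/-! ### Holomorphy -/

theorem diff_locC (hf : f ∈ T.V q D₀ N j) (ε : ℤˣ) (P : T.X.Pt) :
    DifferentiableOn ℂ (M.locC N j f ε P) {z | ‖z 0‖ < M.r P} := by
  intro z hz
  have hz' : z 0 ∈ ball 0 (M.r P) := mem_ball_zero_iff.2 hz
  have h1 : DifferentiableAt ℂ (An.rg P f (M.eC N j ε P)) (z 0) :=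
    (AnCurve.analyticAt_rg (ball_subset_ball (M.r_le P) hz')
      (M.reg hf (M.le_eC ε P) hz')).differentiableAt
  have h2 : DifferentiableAt ℂ (fun w : E 2 => w 0) z := differentiableAt_apply 0 z
  have h3 : DifferentiableAt ℂ (fun w : E 2 => w 1) z := differentiableAt_apply 1 z
  have h4 : DifferentiableAt ℂ (M.locC N j f ε P) z := (h3.pow _).mul (h1.comp z h2)
  exact h4.differentiableWithinAt

theorem diff_locM (hf : f ∈ T.V q D₀ N j) {ε : ℤˣ} {P : T.X.Pt} (hP : P ∈ SE T ε) :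
    DifferentiableOn ℂ (M.locM N j f ε P) {z | ‖z 0 * z 1‖ < M.r P} := by
  intro z hz
  have hz' : z 0 * z 1 ∈ ball 0 (M.r P) := mem_ball_zero_iff.2 hz
  have h1 : DifferentiableAt ℂ (An.rg P f (M.eM N j ε P)) (z 0 * z 1) :=
    (AnCurve.analyticAt_rg (ball_subset_ball (M.r_le P) hz')
      (M.reg hf (M.eM_eq hP).ge hz')).differentiableAt
  have h2 : DifferentiableAt ℂ (fun w : E 2 => w 0) z := differentiableAt_apply 0 z
  have h3 : DifferentiableAt ℂ (fun w : E 2 => w 1) z := differentiableAt_apply 1 z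
  have h4 : DifferentiableAt ℂ (fun w : E 2 => w 0 * w 1) z := h2.mul h3
  have h5 : DifferentiableAt ℂ (M.locM N j f ε P) z :=
    ((h2.pow _).mul (h3.pow _)).mul (DifferentiableAt.comp z (g := An.rg P f (M.eM N j ε P)) h1 h4)
  exact h5.differentiableWithinAt

theorem diff_loc (hf : f ∈ T.V q D₀ N j) (a : M.A.ι) :
    DifferentiableOn ℂ (M.loc N j f a) (M.A.U a) := by
  intro z hz
  rcases M.chart_cases a hz with ⟨ε, P, rfl⟩ | ⟨ε, P, hP, rfl⟩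
  · have h1 := M.diff_locC hf ε P
    rw [← M.U_ch] at h1
    exact (h1.congr fun w _ => M.loc_ch N j f ε P w) z hz
  · have h1 := M.diff_locM hf hP
    rw [← M.U_md hP] at h1
    exact (h1.congr fun w _ => M.loc_md N j f hP w) z hz

/-! ### Generic values -/

/-- the value of the section at the point `o P s w` -/
def val (N : ℕ) (j : ℤ) (f : K) (P : T.X.Pt) (s : ℂ) (w : ℂˣ) : ℂ :=
  let _ := M
  An.rg P f (N * D₀ P) s * ((w ^ j : ℂˣ) : ℂ)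

/-- generic points and the value of the section there -/
def Gen (N : ℕ) (j : ℤ) (f : K) (y : M.Y) (v : ℂ) : Prop :=
  ∃ (P : T.X.Pt) (s : ℂ) (w c : ℂˣ), s ≠ 0 ∧ s ∈ ball 0 (M.r P) ∧ y = c • M.o P s w ∧
    v = (c : ℂ) ^ N * M.val N j f P s w

theorem rg_trans {P Q : T.X.Pt} {s s' : ℂ} (hs : s ∈ ball 0 (An.r P)) (hs' : s' ∈ ball 0 (An.r Q))
    (hc : An.c P s = An.c Q s') {z : K} (hz : An.Reg P z 0 s) (hz' : An.Reg Q z 0 s') :
    An.rg P z 0 s = An.rg Q z 0 s' := by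
  obtain ⟨φ, hφ, hφs, hφ', -, hfn⟩ := An.tr P Q s hs s' hs' hc
  subst hφs
  have h1 : AnalyticAt ℂ (fun σ => An.rg Q z 0 (φ σ)) s :=
    (AnCurve.analyticAt_rg hs' hz').comp hφ
  have h2 : Tendsto φ (𝓝[≠] s) (𝓝[≠] (φ s)) :=
    (hφ.differentiableAt.hasDerivAt).tendsto_nhdsNE hφ'
  refine AnCurve.rg_unique hs hz h1.continuousAt ?_
  filter_upwards [h2.eventually (AnCurve.rg_eq hs' (z := z) (e := 0)), hfn z] with σ h3 h4
  rw [h3, AnCurve.pf, AnCurve.pf, zpow_zero, zpow_zero, mul_one, mul_one, h4]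

theorem gen_ch (hj : |j| ≤ 5 * q * N) (hf : f ∈ T.V q D₀ N j) (ε : ℤˣ) (P : T.X.Pt) {z : E 2}
    (hz : ‖z 0‖ < M.r P) (h0 : z 0 ≠ 0) (h1 : z 1 ≠ 0) :
    M.Gen N j f (M.A.γ (M.ch ε P) z) (M.locC N j f ε P z) := by
  obtain ⟨s, hs⟩ : ∃ s : ℂˣ, (s : ℂ) = z 0 := ⟨Units.mk0 _ h0, rfl⟩
  obtain ⟨b, hb⟩ : ∃ b : ℂˣ, (b : ℂ) = z 1 := ⟨Units.mk0 _ h1, rfl⟩
  have hzz : z = ![(s : ℂ), b] := by
    ext i
    fin_cases i
    · exact hs.symm
    · exact hb.symm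
  have hsb : (s : ℂ) ∈ ball (0 : ℂ) (M.r P) := by rw [hs]; exact mem_ball_zero_iff.2 hz
  have hsb' : (s : ℂ) ∈ ball (0 : ℂ) (An.r P) := ball_subset_ball (M.r_le P) hsb
  have hnn : 0 ≤ 5 * (q : ℤ) * N + (ε : ℤ) * j := by
    rcases Int.units_eq_one_or ε with rfl | rfl
    · rw [Units.val_one, one_mul]
      linarith [neg_le_of_abs_le hj]
    · rw [Units.val_neg, Units.val_one, neg_one_mul]
      linarith [le_of_abs_le hj]
  have hpow : (b : ℂ) ^ (5 * (q : ℤ) * N + (ε : ℤ) * j).toNat =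
      ((b ^ (5 * (q : ℤ) * N + (ε : ℤ) * j) : ℂˣ) : ℂ) := by
    rw [Units.val_zpow_eq_zpow_val, ← zpow_natCast, Int.toNat_of_nonneg hnn]
  by_cases hP : P ∈ SE T ε
  · refine ⟨P, s, (s * b) ^ (ε : ℤ), (s * b) ^ (5 * (q : ℤ)) * s ^ (-(q : ℤ)), s.ne_zero, hsb,
      by rw [hzz]; exact M.γ_ch' hP s (mem_ball_zero_iff.1 hsb) b, ?_⟩
    rw [locC, ← hs, ← hb, hpow, eC, if_pos hP, val,
      AnCurve.rg_shift _ hsb' s.ne_zero (M.reg_ne hf _ hsb s.ne_zero)]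
    have e1 : ((s : ℂ)) ^ (kap q N ε j) = ((s ^ (kap q N ε j) : ℂˣ) : ℂ) := by
      rw [Units.val_zpow_eq_zpow_val]
    rw [e1]
    have e2 : (b ^ (5 * (q : ℤ) * N + (ε : ℤ) * j) * s ^ (kap q N ε j) : ℂˣ) =
        ((s * b) ^ (5 * (q : ℤ)) * s ^ (-(q : ℤ))) ^ N * ((s * b) ^ (ε : ℤ)) ^ j := by
      rw [mul_pow, ← zpow_natCast ((s * b) ^ (5 * (q : ℤ))), ← zpow_natCast (s ^ (-(q : ℤ))),
        ← zpow_mul, ← zpow_mul, ← zpow_mul, mul_zpow, mul_zpow, kap]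
      have e3 : ((b ^ (5 * (q : ℤ) * N + (ε : ℤ) * j)) * s ^ (4 * (q : ℤ) * N + (ε : ℤ) * j) : ℂˣ)
          = (s ^ (5 * (q : ℤ) * N) * s ^ (-(q : ℤ) * N) * s ^ ((ε : ℤ) * j)) *
            (b ^ (5 * (q : ℤ) * N) * b ^ ((ε : ℤ) * j)) := by
        rw [← zpow_add, ← zpow_add, ← zpow_add, mul_comm]
        congr 2
        ring
      rw [e3]
      simp only [mul_comm, mul_left_comm, mul_assoc]
    have e3 := congrArg (fun u : ℂˣ => (u : ℂ)) e2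
    simp only [Units.val_mul, Units.val_pow_eq_pow_val] at e3
    rw [Units.val_mul, mul_pow]
    rw [mul_pow] at e3
    linear_combination (An.rg P f (N * D₀ P) s) * e3
  · refine ⟨P, s, b ^ (ε : ℤ), b ^ (5 * (q : ℤ)), s.ne_zero, hsb,
      by rw [hzz]; exact M.γ_ch hP hsb (Or.inl s.ne_zero) b, ?_⟩
    rw [locC, ← hs, ← hb, hpow, eC, if_neg hP, val, add_zero]
    have e2 : (b ^ (5 * (q : ℤ) * N + (ε : ℤ) * j) : ℂˣ) =
        (b ^ (5 * (q : ℤ))) ^ N * (b ^ (ε : ℤ)) ^ j := by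
      rw [← zpow_natCast (b ^ (5 * (q : ℤ))), ← zpow_mul, ← zpow_mul, ← zpow_add]
    have e3 := congrArg (fun u : ℂˣ => (u : ℂ)) e2
    simp only [Units.val_mul, Units.val_pow_eq_pow_val] at e3
    linear_combination (An.rg P f (N * D₀ P) s) * e3

theorem gen_md (hf : f ∈ T.V q D₀ N j) {ε : ℤˣ} {P : T.X.Pt} (hP : P ∈ SE T ε) {z : E 2}
    (hz : ‖z 0 * z 1‖ < M.r P) (h0 : z 0 ≠ 0) (h1 : z 1 ≠ 0) :
    M.Gen N j f (M.A.γ (M.md P) z) (M.locM N j f ε P z) := by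
  obtain ⟨a, ha⟩ : ∃ a : ℂˣ, (a : ℂ) = z 0 := ⟨Units.mk0 _ h0, rfl⟩
  obtain ⟨b, hb⟩ : ∃ b : ℂˣ, (b : ℂ) = z 1 := ⟨Units.mk0 _ h1, rfl⟩
  have hzz : z = ![(a : ℂ), b] := by
    ext i
    fin_cases i
    · exact ha.symm
    · exact hb.symm
  have hab : ((a : ℂ)) * b ∈ ball (0 : ℂ) (M.r P) := by rw [ha, hb]; exact mem_ball_zero_iff.2 hz
  have hab' := ball_subset_ball (M.r_le P) hab
  have hab0 : (a : ℂ) * b ≠ 0 := mul_ne_zero a.ne_zero b.ne_zero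
  refine ⟨P, a * b, a ^ (ε : ℤ), a ^ (4 * (q : ℤ)), hab0, hab,
    by rw [hzz]; exact M.γ_md hP a b (mem_ball_zero_iff.1 hab), ?_⟩
  rw [locM, ← ha, ← hb, val]
  have h2 : An.rg P f (N * D₀ P) ((a : ℂ) * b) =
      An.rg P f (M.eM N j ε P) (a * b) * ((a : ℂ) * b) ^ (max 0 (-kap q N ε j)) := by
    rw [← AnCurve.rg_shift _ hab' hab0 (M.reg_ne hf _ hab hab0)]
    congr 1
    rw [eM]
    ring
  rw [h2]
  have e2 : (a ^ (kap q N ε j).toNat * b ^ (-kap q N ε j).toNat : ℂˣ) =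
      (a ^ (4 * (q : ℤ))) ^ N * (a * b) ^ (max 0 (-kap q N ε j)) * (a ^ (ε : ℤ)) ^ j := by
    rw [← zpow_natCast a, ← zpow_natCast b, Int.toNat_eq_max, Int.toNat_eq_max,
      ← zpow_natCast (a ^ (4 * (q : ℤ))), ← zpow_mul, ← zpow_mul, mul_zpow, max_comm,
      max_comm _ (0 : ℤ)]
    have e3 : (a ^ (4 * (q : ℤ) * N) * (a ^ (max 0 (-kap q N ε j)) * b ^ (max 0 (-kap q N ε j))) *
        a ^ ((ε : ℤ) * j) : ℂˣ) = (a ^ (4 * (q : ℤ) * N) * a ^ (max 0 (-kap q N ε j)) *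
          a ^ ((ε : ℤ) * j)) * b ^ (max 0 (-kap q N ε j)) := by
      simp only [mul_comm, mul_left_comm, mul_assoc]
    rw [e3, ← zpow_add, ← zpow_add]
    congr 2
    have e4 : kap q N ε j = 4 * q * N + (ε : ℤ) * j := rfl
    rcases le_total 0 (kap q N ε j) with h | h
    · rw [max_eq_right h, max_eq_left (by linarith)]
      linarith
    · rw [max_eq_left h, max_eq_right (by linarith)]
      linarith
  have e3 := congrArg (fun u : ℂˣ => (u : ℂ)) e2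
  simp only [Units.val_mul, Units.val_pow_eq_pow_val, Units.val_zpow_eq_zpow_val] at e3 ⊢
  linear_combination (An.rg P f (M.eM N j ε P) (a * b)) * e3

theorem gen_rel (hf : f ∈ T.V q D₀ N j) {y : M.Y} {h : ℂˣ} {v v' : ℂ} (hv : M.Gen N j f y v)
    (hv' : M.Gen N j f (h • y) v') : v' = (h : ℂ) ^ N * v := by
  obtain ⟨P, s, w, c, h0, hs, rfl, rfl⟩ := hv
  obtain ⟨Q, s', w', c', h0', hs', hy, rfl⟩ := hv'
  have e1 : M.o Q s' w' = (c'⁻¹ * (h * c)) • M.o P s w := by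
    rw [← smul_smul, ← smul_smul, hy, inv_smul_smul]
  have hOk : Ok T P s := Or.inl h0
  have hOk' : Ok T Q s' := Or.inl h0'
  obtain ⟨e2, e3⟩ := M.o_inj Q P s' hs' s hs hOk' hOk w' w _ e1
  subst e3
  have e4 := M.o_tr P Q s hs s' hs' hOk hOk' e2.symm w'
  rw [e1] at e4
  have e5 : c'⁻¹ * (h * c) = upow s' (D₀ Q) / upow s (D₀ P) := M.A.smul_inj e4
  have hsA := ball_subset_ball (M.r_le P) hs
  have hsA' := ball_subset_ball (M.r_le Q) hs'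
  have r1 := AnCurve.rg_shift (An := An) (N * D₀ P) hsA h0 (M.reg_ne hf 0 hs h0)
  have r2 := AnCurve.rg_shift (An := An) (N * D₀ Q) hsA' h0' (M.reg_ne hf 0 hs' h0')
  rw [zero_add] at r1 r2
  have r3 := rg_trans hsA hsA' e2.symm (M.reg_ne hf 0 hs h0) (M.reg_ne hf 0 hs' h0')
  rw [val, val, r1, r2, ← r3]
  -- the factors
  set u : ℂˣ := Units.mk0 s h0 with hu
  set u' : ℂˣ := Units.mk0 s' h0' with hu'
  have e6 : upow s (D₀ P) = u ^ (D₀ P) := by rw [upow, dif_neg h0]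
  have e7 : upow s' (D₀ Q) = u' ^ (D₀ Q) := by rw [upow, dif_neg h0']
  rw [e6, e7] at e5
  have e8 : c' ^ N * u' ^ (N * D₀ Q) = (h * c) ^ N * u ^ (N * D₀ P) := by
    have e9 : h * c = c' * (u' ^ (D₀ Q) / u ^ (D₀ P)) := by
      rw [← e5, mul_inv_cancel_left]
    rw [e9, mul_pow, div_pow, ← zpow_natCast (u' ^ (D₀ Q)), ← zpow_natCast (u ^ (D₀ P)),
      ← zpow_mul, ← zpow_mul, mul_comm (D₀ Q) (N : ℤ), mul_comm (D₀ P) (N : ℤ), mul_assoc,
      div_mul_cancel]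
  have e9 := congrArg (fun t : ℂˣ => (t : ℂ)) e8
  simp only [Units.val_mul, Units.val_pow_eq_pow_val, Units.val_zpow_eq_zpow_val] at e9
  have e10 : (u : ℂ) = s := rfl
  have e11 : (u' : ℂ) = s' := rfl
  rw [e10, e11, mul_pow] at e9
  linear_combination (An.rg P f 0 s * ((w' ^ j : ℂˣ) : ℂ)) * e9

/-- the open dense set of points with non-zero coordinates -/
theorem dense_ne : Dense {z : E 2 | z 0 ≠ 0 ∧ z 1 ≠ 0} := by
  have h := dense_pi (α := fun _ : Fin 2 => ℂ) univ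
    fun (i : Fin 2) _ => dense_compl_singleton (0 : ℂ)
  have e : (univ : Set (Fin 2)).pi (fun _ => ({0}ᶜ : Set ℂ)) = {z : E 2 | z 0 ≠ 0 ∧ z 1 ≠ 0} := by
    ext z
    simp [Fin.forall_fin_two]
  rw [← e]
  exact h

theorem isOpen_ne' : IsOpen {z : E 2 | z 0 ≠ 0 ∧ z 1 ≠ 0} :=
  (isOpen_ne.preimage (continuous_apply 0)).inter (isOpen_ne.preimage (continuous_apply 1))

theorem gen_loc (hj : |j| ≤ 5 * q * N) (hf : f ∈ T.V q D₀ N j) {a : M.A.ι} {z : E 2}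
    (hz : z ∈ M.A.U a) (h0 : z 0 ≠ 0) (h1 : z 1 ≠ 0) :
    M.Gen N j f (M.A.γ a z) (M.loc N j f a z) := by
  rcases M.chart_cases a hz with ⟨ε, P, rfl⟩ | ⟨ε, P, hP, rfl⟩
  · rw [loc_ch]
    rw [M.U_ch] at hz
    exact M.gen_ch hj hf ε P hz h0 h1
  · rw [M.loc_md N j f hP]
    rw [M.U_md hP] at hz
    exact M.gen_md hf hP hz h0 h1

theorem loc_rel (hj : |j| ≤ 5 * q * N) (hf : f ∈ T.V q D₀ N j) (a b : M.A.ι) (z : E 2)
    (hz : z ∈ M.A.O a b) :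
    M.loc N j f b (M.A.τ a b z) = (M.A.h a b z : ℂ) ^ N * M.loc N j f a z := by
  refine PolAtlas.rel_of_dense (fun a => (M.diff_loc hf a).continuousOn) isOpen_ne' dense_ne ?_
    a b z hz
  intro a b z hz h h'
  refine M.gen_rel hf (M.gen_loc hj hf hz.1 h.1 h.2) ?_
  rw [← M.A.γ_τ hz]
  exact M.gen_loc hj hf (M.A.τ_mem hz) h'.1 h'.2

/-- The section `f w ^ j` of `L ^ N`. -/
def secF (N : ℕ) (j : ℤ) (f : K) : M.Y → ℂ := M.A.glueN N (M.loc N j f)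

theorem secF_γ (hj : |j| ≤ 5 * q * N) (hf : f ∈ T.V q D₀ N j) {a : M.A.ι} {z : E 2}
    (hz : z ∈ M.A.U a) : M.secF N j f (M.A.γ a z) = M.loc N j f a z :=
  PolAtlas.glueN_γ (M.loc_rel hj hf) hz

theorem secF_isSec (hj : |j| ≤ 5 * q * N) (hf : f ∈ T.V q D₀ N j) :
    M.A.IsSec N (M.secF N j f) :=
  PolAtlas.glueN_isSec (M.loc_rel hj hf) (M.diff_loc hf)

theorem secF_ch (hj : |j| ≤ 5 * q * N) (hf : f ∈ T.V q D₀ N j) (ε : ℤˣ) (P : T.X.Pt) {z : E 2}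
    (hz : ‖z 0‖ < M.r P) : M.secF N j f (M.A.γ (M.ch ε P) z) = M.locC N j f ε P z := by
  rw [M.secF_γ hj hf (by rw [M.U_ch]; exact hz), loc_ch]

theorem secF_md (hj : |j| ≤ 5 * q * N) (hf : f ∈ T.V q D₀ N j) {ε : ℤˣ} {P : T.X.Pt}
    (hP : P ∈ SE T ε) {z : E 2} (hz : ‖z 0 * z 1‖ < M.r P) :
    M.secF N j f (M.A.γ (M.md P) z) = M.locM N j f ε P z := by
  rw [M.secF_γ hj hf (by rw [M.U_md hP]; exact hz), M.loc_md N j f hP]

theorem nn5 (hj : |j| ≤ 5 * q * N) (ε : ℤˣ) : 0 ≤ 5 * (q : ℤ) * N + (ε : ℤ) * j := by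
  rcases Int.units_eq_one_or ε with rfl | rfl
  · rw [Units.val_one, one_mul]
    linarith [neg_le_of_abs_le hj]
  · rw [Units.val_neg, Units.val_one, neg_one_mul]
    linarith [le_of_abs_le hj]

theorem εε (ε : ℤˣ) : (ε : ℤ) * ε = 1 := by
  rcases Int.units_eq_one_or ε with rfl | rfl <;> simp

theorem k_ch (ε : ℤˣ) (P : T.X.Pt) :
    M.D.k (M.ch ε P) = ![0, (ε : ℤ)] ∧ M.D.m (M.ch ε P) = -(ε : ℤ) * (5 * q) := by
  rcases Int.units_eq_one_or ε with rfl | rfl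
  · obtain ⟨h1, h2⟩ := M.k_bot P
    exact ⟨h1, by rw [ch_one, h2]; push_cast; ring⟩
  · obtain ⟨h1, h2⟩ := M.k_top P
    exact ⟨h1, by rw [ch_neg_one, h2]; push_cast; ring⟩

theorem k_md {ε : ℤˣ} {P : T.X.Pt} (h : P ∈ SE T ε) :
    M.D.k (M.md P) = ![(ε : ℤ), -(ε : ℤ)] ∧ M.D.m (M.md P) = -(ε : ℤ) * (4 * q) := by
  rcases Int.units_eq_one_or ε with rfl | rfl
  · rw [SE_one] at h
    obtain ⟨h1, h2⟩ := M.k_mid' P h
    exact ⟨h1, by rw [md, h2]; push_cast; ring⟩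
  · rw [SE_neg_one] at h
    obtain ⟨h1, h2⟩ := M.k_mid P h
    refine ⟨by rw [md, h1]; simp, by rw [md, h2]; push_cast; ring⟩

/-- the section has weight `j` -/
theorem secF_act (hj : |j| ≤ 5 * q * N) (hf : f ∈ T.V q D₀ N j) (c : ℂˣ) (y : M.Y) :
    M.secF N j f (M.D.act c y) = ((c ^ j : ℂˣ) : ℂ) * M.secF N j f y := by
  obtain ⟨a, z, hz, d, rfl⟩ := M.A.cover y
  have hS := M.secF_isSec hj hf
  rw [M.D.act_smul, M.D.act_γ a z hz, hS.hom, hS.hom, hS.hom]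
  have hz' := M.D.dom a z hz c
  suffices h : ((c ^ M.D.m a : ℂˣ) : ℂ) ^ N * M.secF N j f (M.A.γ a (dact (M.D.k a) c z)) =
      ((c ^ j : ℂˣ) : ℂ) * M.secF N j f (M.A.γ a z) by
    rw [h]
    ring
  rcases M.chart_cases a hz with ⟨ε, P, rfl⟩ | ⟨ε, P, hP, rfl⟩
  · obtain ⟨hk, hm⟩ := M.k_ch ε P
    rw [M.U_ch] at hz hz'
    rw [M.secF_ch hj hf ε P hz, M.secF_ch hj hf ε P hz', hk, hm]
    have e0 : dact ![0, (ε : ℤ)] c z 0 = z 0 := by
      show ((c ^ (0 : ℤ) : ℂˣ) : ℂ) * z 0 = z 0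
      simp
    have e1 : dact ![0, (ε : ℤ)] c z 1 = ((c ^ (ε : ℤ) : ℂˣ) : ℂ) * z 1 := rfl
    rw [locC, locC, e0, e1, mul_pow]
    have e2 : (c ^ (-(ε : ℤ) * (5 * q))) ^ N *
        (c ^ (ε : ℤ)) ^ (5 * (q : ℤ) * N + (ε : ℤ) * j).toNat = c ^ j := by
      rw [← zpow_natCast (c ^ (-(ε : ℤ) * (5 * q))), ← zpow_natCast (c ^ (ε : ℤ)),
        Int.toNat_of_nonneg (nn5 hj ε), ← zpow_mul, ← zpow_mul, ← zpow_add]
      congr 1
      linear_combination j * εε ε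
    have e3 := congrArg (fun t : ℂˣ => (t : ℂ)) e2
    simp only [Units.val_mul, Units.val_pow_eq_pow_val] at e3
    linear_combination (z 1 ^ (5 * (q : ℤ) * N + (ε : ℤ) * j).toNat *
      An.rg P f (M.eC N j ε P) (z 0)) * e3
  · obtain ⟨hk, hm⟩ := M.k_md hP
    rw [M.U_md hP] at hz hz'
    rw [M.secF_md hj hf hP hz, M.secF_md hj hf hP hz', hk, hm]
    have e0 : dact ![(ε : ℤ), -(ε : ℤ)] c z 0 = ((c ^ (ε : ℤ) : ℂˣ) : ℂ) * z 0 := rfl
    have e1 : dact ![(ε : ℤ), -(ε : ℤ)] c z 1 = ((c ^ (-(ε : ℤ)) : ℂˣ) : ℂ) * z 1 := rfl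
    rw [locM, locM, e0, e1, mul_pow, mul_pow]
    have e4 : ((c ^ (ε : ℤ) : ℂˣ) : ℂ) * z 0 * (((c ^ (-(ε : ℤ)) : ℂˣ) : ℂ) * z 1) =
        z 0 * z 1 := by
      have e5 : (c ^ (ε : ℤ) : ℂˣ) * c ^ (-(ε : ℤ)) = 1 := by
        rw [← zpow_add, add_neg_cancel, zpow_zero]
      have e6 := congrArg (fun t : ℂˣ => (t : ℂ)) e5
      simp only [Units.val_mul, Units.val_one] at e6
      linear_combination (z 0 * z 1) * e6
    rw [e4]
    have e2 : (c ^ (-(ε : ℤ) * (4 * q))) ^ N * ((c ^ (ε : ℤ)) ^ (kap q N ε j).toNat *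
        (c ^ (-(ε : ℤ))) ^ (-kap q N ε j).toNat) = c ^ j := by
      rw [← zpow_natCast (c ^ (-(ε : ℤ) * (4 * q))), ← zpow_natCast (c ^ (ε : ℤ)),
        ← zpow_natCast (c ^ (-(ε : ℤ))), ← zpow_mul, ← zpow_mul, ← zpow_mul, ← zpow_add,
        ← zpow_add]
      congr 1
      have e7 : ((kap q N ε j).toNat : ℤ) - ((-kap q N ε j).toNat : ℤ) = kap q N ε j :=
        Int.toNat_sub_toNat_neg _
      have e8 : kap q N ε j = 4 * q * N + (ε : ℤ) * j := rfl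
      linear_combination (ε : ℤ) * e7 + (ε : ℤ) * e8 + j * εε ε
    have e3 := congrArg (fun t : ℂˣ => (t : ℂ)) e2
    simp only [Units.val_mul, Units.val_pow_eq_pow_val] at e3
    linear_combination (z 0 ^ (kap q N ε j).toNat * z 1 ^ (-kap q N ε j).toNat *
      An.rg P f (M.eM N j ε P) (z 0 * z 1)) * e3

/-- values at the points of the open orbits -/
theorem secF_o (hj : |j| ≤ 5 * q * N) (hf : f ∈ T.V q D₀ N j) {P : T.X.Pt} {s : ℂ}
    (hs : s ∈ ball 0 (M.r P)) (hOk : Ok T P s) (w : ℂˣ) :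
    M.secF N j f (M.o P s w) = An.rg P f (N * D₀ P) s * ((w ^ j : ℂˣ) : ℂ) := by
  obtain ⟨ε, hε⟩ : ∃ ε : ℤˣ, P ∉ SE T ε := by
    by_cases h : P ∈ SE T 1
    · exact ⟨-1, SE_disj h⟩
    · exact ⟨1, h⟩
  have h' : s ≠ 0 ∨ P ∉ SE T (-ε) := by
    rcases (Ok_iff ε).1 hOk with h | h
    · exact Or.inl h
    · exact Or.inr h.2
  set b : ℂˣ := w ^ (ε : ℤ) with hb
  have hbw : b ^ (ε : ℤ) = w := by
    rw [hb, ← zpow_mul, εε, zpow_one]
  clear_value b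
  have h1 := M.γ_ch hε hs h' b
  rw [hbw] at h1
  have h2 : M.o P s w = (b ^ (5 * (q : ℤ)))⁻¹ • M.A.γ (M.ch ε P) ![s, b] := by
    rw [h1, inv_smul_smul]
  have hS := M.secF_isSec hj hf
  rw [h2, hS.hom, M.secF_ch hj hf ε P (z := ![s, b]) (by simpa using hs), locC, eC, if_neg hε,
    add_zero]
  show _ * ((b : ℂ) ^ _ * An.rg P f (N * D₀ P) s) = _
  have e2 : ((b ^ (5 * (q : ℤ)))⁻¹) ^ N * b ^ (5 * (q : ℤ) * N + (ε : ℤ) * j).toNat = w ^ j := by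
    rw [← zpow_natCast b, Int.toNat_of_nonneg (nn5 hj ε), ← hbw, inv_pow,
      ← zpow_natCast (b ^ (5 * (q : ℤ))), ← zpow_mul, ← zpow_mul, ← zpow_neg, ← zpow_add]
    congr 1
    ring
  have e3 := congrArg (fun t : ℂˣ => (t : ℂ)) e2
  simp only [Units.val_mul, Units.val_pow_eq_pow_val] at e3
  linear_combination (An.rg P f (N * D₀ P) s) * e3

end SigModel

end

end Pool.Agent.YTDA
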