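import Pool.Agent.YTDA.SecUniq
import Pool.Agent.YTDA.SecFn
import Pool.Agent.YTDA.P1Sec

/-!
# The section given by a polynomial over the function field
-/

set_option autoImplicit false

namespace Pool.Agent.YTDA

open Complex Set Topology Filter Metric MvPolynomial
open Pool.Agent.YTD

noncomputable section

variable {K : Type} [Field K] [Algebra ℂ K] {T : Datum K} {q : ℕ} {D₀ : T.X.Pt →₀ ℤ}
  {An : AnCurve T.X.toCurveOrd} {Sg : SigModel T q D₀ An}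
  (X : TwoP1 Sg.A Sg.D (25 * (q : ℤ)) 3 (25 * (q : ℤ)) (-3)) {N : ℕ}

theorem isSec_add {n : ℕ} {Y : Type} [MulAction ℂˣ Y] {A : PolAtlas n Y} {F F' : Y → ℂ}
    (h : A.IsSec N F) (h' : A.IsSec N F') : A.IsSec N (F + F') := by
  refine ⟨fun c y => ?_, fun a => (h.hol a).add (h'.hol a)⟩
  rw [Pi.add_apply, Pi.add_apply, h.hom, h'.hom]
  ring

theorem isSec_zero {n : ℕ} {Y : Type} [MulAction ℂˣ Y] {A : PolAtlas n Y} :
    A.IsSec N (0 : Y → ℂ) :=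
  ⟨fun c y => by simp, fun a => differentiableOn_const 0⟩

/-- the section of a monomial -/
theorem ofMonomial {j : ℤ} (hj : |j| ≤ 5 * q * N) {e : Fin 4 →₀ ℕ}
    (h1 : (e 0 : ℤ) + e 1 = 25 * q * N + 3 * j) (h2 : (e 2 : ℤ) + e 3 = 25 * q * N - 3 * j)
    {c : K} (hc : c ∈ T.V q D₀ N j) : ∃ F, X.B₂.IsSec N F ∧ Rep X N F (monomial e c) := by
  have w0 : Wt Sg.D N j (Sg.secF N j c) := ⟨Sg.secF_isSec hj hc, Sg.secF_act hj hc⟩
  have hab : (e 0 : ℤ) + e 1 = 25 * (q : ℤ) * N + 3 * j := h1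
  have hab' : (e 2 : ℤ) + e 3 = 25 * (q : ℤ) * N + (-3) * j := by rw [h2]; ring
  have w1 : Wt X.D₁ N j (liftP Sg.D (25 * (q : ℤ)) 3 (e 0) (e 1) (Sg.secF N j c)) :=
    liftP_wt X.h₁ X.l₁ w0 hab
  refine ⟨liftP X.D₁ (25 * (q : ℤ)) (-3) (e 2) (e 3)
    (liftP Sg.D (25 * (q : ℤ)) 3 (e 0) (e 1) (Sg.secF N j c)), liftP_isSec X.h₂ w1 hab', ?_⟩
  intro P s hs
  filter_upwards [spec_monomial (ball_mono hs) e c, eventually_ball hs,
    AnCurve.rg_eq (ball_mono hs) (z := c) (e := N * D₀ P)] with σ t1 t2 t3 u x x'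
  show liftP X.D₁ (25 * (q : ℤ)) (-3) (e 2) (e 3)
    (liftP Sg.D (25 * (q : ℤ)) 3 (e 0) (e 1) (Sg.secF N j c))
    (P1Y.mk (P1Y.mk (Sg.o P σ (u ^ 6)) x) x') = _
  rw [liftP_mk w1 hab', liftP_mk w0 hab, Sg.secF_o hj hc t2.1 (Or.inl t2.2), t3, t1,
    AnCurve.pf, eval_monomial, Finsupp.prod_fintype _ _ (fun i => pow_zero _), Fin.prod_univ_four]
  show x'.1 0 ^ e 2 * x'.1 1 ^ e 3 * (x.1 0 ^ e 0 * x.1 1 ^ e 1 *
    (An.fn P c σ * σ ^ ((N : ℤ) * D₀ P) * (((u ^ 6) ^ j : ℂˣ) : ℂ))) =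
    σ ^ ((N : ℤ) * D₀ P) * (An.fn P c σ * (((u : ℂ) * x.1 0) ^ e 0 * ((u : ℂ) * x.1 1) ^ e 1 *
      (((u⁻¹ : ℂˣ) : ℂ) * x'.1 0) ^ e 2 * (((u⁻¹ : ℂˣ) : ℂ) * x'.1 1) ^ e 3))
  have key : ((((u ^ 6) ^ j : ℂˣ)) : ℂ) =
      (u : ℂ) ^ e 0 * (u : ℂ) ^ e 1 * (((u⁻¹ : ℂˣ) : ℂ) ^ e 2 * ((u⁻¹ : ℂˣ) : ℂ) ^ e 3) := by
    have h3 : (u ^ 6) ^ j = u ^ e 0 * u ^ e 1 * ((u⁻¹) ^ e 2 * (u⁻¹) ^ e 3) := by
      rw [← pow_add, ← pow_add, inv_pow, ← zpow_natCast u, ← zpow_natCast u (e 0 + e 1),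
        ← zpow_natCast u (e 2 + e 3), ← zpow_neg, ← zpow_mul, ← zpow_add]
      congr 1
      push_cast
      linarith
    have h4 := congrArg (fun t : ℂˣ => (t : ℂ)) h3
    simp only [Units.val_mul, Units.val_pow_eq_pow_val] at h4
    exact h4
  rw [key, mul_pow, mul_pow, mul_pow, mul_pow]
  ring

/-- **Easy direction.** Every polynomial in `sec N` defines a section. -/
theorem exists_ofPoly {f : MvPolynomial (Fin 4) K} (hf : f ∈ T.sec q D₀ N) :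
    ∃ F, X.B₂.IsSec N F ∧ Rep X N F f := by
  have key : ∀ S : Finset (Fin 4 →₀ ℕ), (∀ e ∈ S, f.coeff e ≠ 0) →
      ∃ F, X.B₂.IsSec N F ∧ Rep X N F (∑ e ∈ S, monomial e (f.coeff e)) := by
    classical
    intro S
    induction S using Finset.induction_on with
    | empty =>
      intro _
      refine ⟨0, isSec_zero, ?_⟩
      rw [Finset.sum_empty]
      exact Rep.zero
    | insert e S he ih =>
      intro hS
      obtain ⟨F, hF, hF'⟩ := ih fun e' he' => hS e' (Finset.mem_insert_of_mem he')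
      obtain ⟨j, hj, h1, h2, h3⟩ := hf e (hS e (Finset.mem_insert_self _ _))
      obtain ⟨G, hG, hG'⟩ := ofMonomial X hj h1 h2 h3
      refine ⟨G + F, isSec_add hG hF, ?_⟩
      rw [Finset.sum_insert he]
      exact hG'.add hF'
  have h := key f.support fun e he => mem_support_iff.1 he
  rwa [support_sum_monomial_coeff] at h

end

end Pool.Agent.YTDA
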