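import Pool.Agent.YTDA.EqvX
import Pool.Agent.YTDA.SecOf
import Pool.Agent.YTDA.HolC
import Pool.Agent.YTD.SatL6

/-!
# K-stability of the quotient
-/

set_option autoImplicit false

namespace Pool.Agent.YTDA

open Complex Set Topology Filter Metric Module
open Pool.Agent.YTD

noncomputable section

variable {K : Type} [Field K] [Algebra ℂ K] {T : Datum K} {q : ℕ} {D₀ : T.X.Pt →₀ ℤ}
  {An : AnCurve T.X.toCurveOrd} {M : SigModel T q D₀ An}

/-- The correspondence between sections on `X` and polynomials over the function field. -/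
theorem secCor (X : TwoP1 M.A M.D (25 * (q : ℤ)) 3 (25 * (q : ℤ)) (-3)) : SecCor X where
  toPoly _ _ hF := exists_rep An.holConst hF
  ofPoly _ _ hf := exists_ofPoly X hf
  uniqueF _ _ _ _ hF hF' h h' := h.unique' hF hF' h'
  uniquef _ _ _ _ _ _ h h' := h.unique h'

/-- T17b: K-stability -/
theorem kStable {γ : Gam T} (G : TwoP1.GamX (M := M) γ)
    (X : TwoP1 M.A M.D (25 * (q : ℤ)) 3 (25 * (q : ℤ)) (-3)) (hq : 0 < q) (hfix : γ.Fixes D₀)
    (hD : T.X.deg D₀ = 105 * T.t * q) (_hc : X.B₂.IsCpt) (ht : X.B₂.IsT2) :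
    letI := (G.inv3 X).act
    haveI := (G.inv3 X).commClass
    ∀ hA : X.B₂.FreeAct G3, (X.B₂.quot hA ht).lb.KStable :=
  fun hA => (secCor X).kStable G hfix ht hA fun _ hr χ _ _ _ _ _ hE hn =>
    χ.fut_pos hfix hD hq hr hE hn

end

end Pool.Agent.YTDA
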