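import Mathlib

/-!
Local biholomorphisms of `ℂ` and the identity theorem for meromorphic functions.
-/

namespace Pool.Agent.YTDA

open Complex Set Topology Metric Filter

noncomputable section

/-- `κ` is a local biholomorphism at `x` with value `y`. -/
structure LB (κ : ℂ → ℂ) (x y : ℂ) : Prop where
  an : AnalyticAt ℂ κ x
  val : κ x = y
  der : deriv κ x ≠ 0

namespace LB

variable {κ μ : ℂ → ℂ} {x y z : ℂ}

theorem refl (x : ℂ) : LB (fun t => t) x x :=
  ⟨analyticAt_id, rfl, by rw [deriv_id'']; exact one_ne_zero⟩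

theorem comp (h : LB κ x y) (h' : LB μ y z) : LB (fun t => μ (κ t)) x z := by
  refine ⟨?_, ?_, ?_⟩
  · have h1 : AnalyticAt ℂ μ (κ x) := by
      rw [h.val]
      exact h'.an
    exact h1.comp h.an
  · show μ (κ x) = z
    rw [h.val, h'.val]
  · have h1 : DifferentiableAt ℂ μ (κ x) := by
      rw [h.val]
      exact h'.an.differentiableAt
    have h2 := deriv_comp x h1 h.an.differentiableAt
    have h3 : deriv (fun t => μ (κ t)) x = deriv μ (κ x) * deriv κ x := h2
    rw [h3, h.val]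
    exact mul_ne_zero h'.der h.der

theorem congr (h : LB κ x y) (h' : μ =ᶠ[𝓝 x] κ) : LB μ x y := by
  refine ⟨h.an.congr h'.symm, ?_, ?_⟩
  · rw [h'.eq_of_nhds, h.val]
  · rw [h'.deriv_eq]
    exact h.der

theorem continuousAt (h : LB κ x y) : ContinuousAt κ x := h.an.continuousAt

theorem tendsto (h : LB κ x y) : Tendsto κ (𝓝 x) (𝓝 y) := by
  have := h.continuousAt.tendsto
  rwa [h.val] at this

theorem exists_inv (h : LB κ x y) : ∃ μ, LB μ y x ∧ (∀ᶠ t in 𝓝 x, μ (κ t) = t) ∧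
    (∀ᶠ t in 𝓝 y, κ (μ t) = t) := by
  have hs := h.an.hasStrictDerivAt
  have e1 : ∀ᶠ t in 𝓝 x, (hs.localInverse _ _ _ h.der) (κ t) = t :=
    HasStrictFDerivAt.eventually_left_inverse (hs.hasStrictFDerivAt_equiv h.der)
  have e2 : ∀ᶠ t in 𝓝 (κ x), κ ((hs.localInverse _ _ _ h.der) t) = t :=
    HasStrictFDerivAt.eventually_right_inverse (hs.hasStrictFDerivAt_equiv h.der)
  have a1 := h.an.analyticAt_localInverse h.der
  refine ⟨hs.localInverse _ _ _ h.der, ⟨?_, ?_, ?_⟩, e1, ?_⟩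
  · rw [h.val] at a1
    exact a1
  · have := e1.self_of_nhds
    rwa [h.val] at this
  · have h1 : HasStrictDerivAt (hs.localInverse _ _ _ h.der) (deriv κ x)⁻¹ (κ x) :=
      hs.to_localInverse h.der
    rw [h.val] at h1
    rw [h1.hasDerivAt.deriv]
    exact inv_ne_zero h.der
  · rw [h.val] at e2
    exact e2

theorem tendsto_ne (h : LB κ x y) : Tendsto κ (𝓝[≠] x) (𝓝[≠] y) := by
  obtain ⟨μ, h1, h2, _⟩ := h.exists_inv
  rw [tendsto_nhdsWithin_iff]
  refine ⟨h.tendsto.mono_left nhdsWithin_le_nhds, ?_⟩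
  have h3 : ∀ᶠ t in 𝓝[≠] x, μ (κ t) = t := h2.filter_mono nhdsWithin_le_nhds
  filter_upwards [h3, self_mem_nhdsWithin] with t ht ht'
  intro h4
  apply ht'
  show t = x
  rw [← ht, show κ t = y from h4, h1.val]

theorem order (h : LB κ x y) (f : ℂ → ℂ) :
    meromorphicOrderAt (fun t => f (κ t)) x = meromorphicOrderAt f y := by
  have := meromorphicOrderAt_comp_of_deriv_ne_zero (f := f) h.an h.der
  rwa [h.val] at this

theorem mero (h : LB κ x y) {f : ℂ → ℂ} (hf : MeromorphicAt f y) :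
    MeromorphicAt (fun t => f (κ t)) x := by
  rw [← h.val] at hf
  exact hf.comp_analyticAt h.an

end LB

/-- Identity theorem for meromorphic functions. -/
theorem mero_identity {f g : ℂ → ℂ} {U : Set ℂ} (hU : IsPreconnected U)
    (hf : MeromorphicOn f U) (hg : MeromorphicOn g U) {x : ℂ} (hx : x ∈ U)
    (h : f =ᶠ[𝓝[≠] x] g) : ∀ y ∈ U, f =ᶠ[𝓝[≠] y] g := by
  intro y hy
  have h1 : meromorphicOrderAt (f - g) x = ⊤ := by
    rw [meromorphicOrderAt_eq_top_iff]
    filter_upwards [h] with t ht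
    rw [Pi.sub_apply, ht, sub_self]
  have h2 : meromorphicOrderAt (f - g) y = ⊤ := by
    by_contra h3
    exact (hf.sub hg).meromorphicOrderAt_ne_top_of_isPreconnected hU hy hx h3 h1
  rw [meromorphicOrderAt_eq_top_iff] at h2
  filter_upwards [h2] with t ht
  rw [Pi.sub_apply] at ht
  exact sub_eq_zero.1 ht

theorem mero_identity_ball {f g : ℂ → ℂ} {x : ℂ} {r : ℝ}
    (hf : MeromorphicOn f (ball x r)) (hg : MeromorphicOn g (ball x r))
    (h : f =ᶠ[𝓝[≠] x] g) : ∀ y ∈ ball x r, f =ᶠ[𝓝[≠] y] g := by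
  intro y hy
  have hr : 0 < r := by
    by_contra h0
    rw [ball_eq_empty.2 (not_lt.1 h0)] at hy
    exact hy
  exact mero_identity (convex_ball x r).isPreconnected hf hg (mem_ball_self hr) h y hy

end

end Pool.Agent.YTDA
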