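import Pool.Agent.YTDA.Germ
import Pool.Agent.YTDA.LocBih
import Pool.Agent.YTDA.Curve
import Pool.Agent.YTD.CovGam

/-!
From local parametrisations by germs to an analytic structure on a curve.
-/

namespace Pool.Agent.YTDA

open Complex Set Topology Metric Filter
open Pool.Agent.YTD Pool.Agent.YTD.Hyp

noncomputable section

variable {K : Type} [Field K] [Algebra ℂ K]

/-- Parametrisations of a curve by discs. -/
structure LocSt (X : CurveP lam K) where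
  r : X.Pt → ℝ
  r_pos : ∀ P, 0 < r P
  fn : X.Pt → K → ℂ → ℂ
  fn_mero : ∀ P z, MeromorphicOn (fn P z) (ball 0 (r P))
  fn_germ : ∀ P z, fn P z =ᶠ[𝓝[≠] 0] (X.phi P z).rep
  c : X.Pt → ℂ → X.Pt
  c_zero : ∀ P, c P 0 = P
  coh : ∀ P, ∀ s ∈ ball 0 (r P), ∃ κ, LB κ 0 s ∧
    ∀ z, (X.phi (c P s) z).rep =ᶠ[𝓝[≠] 0] fun t => fn P z (κ t)
  cpt : ∀ ρ : X.Pt → ℝ, (∀ P, 0 < ρ P) →
    ∃ F : Finset X.Pt, ∀ Q, ∃ P ∈ F, ∃ s, ‖s‖ < ρ P ∧ c P s = Q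

/-- Functions separate points. -/
def SepL (X : CurveOrd K) : Prop :=
  ∀ P Q : X.Pt, P ≠ Q → ∃ z : K, z ≠ 0 ∧ X.ord P z < 0 ∧ 0 ≤ X.ord Q z

/-- Existence of uniformizers. -/
def Unif (X : CurveOrd K) : Prop := ∀ P : X.Pt, ∃ z : K, z ≠ 0 ∧ X.ord P z = 1

theorem SepL.eq_of_ord {X : CurveOrd K} (h : SepL X) {P Q : X.Pt}
    (h' : ∀ z : K, z ≠ 0 → X.ord P z = X.ord Q z) : P = Q := by
  by_contra hPQ
  obtain ⟨z, hz, h1, h2⟩ := h P Q hPQ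
  rw [h' z hz] at h1
  linarith

theorem LB.eventually_punct {κ : ℂ → ℂ} {s : ℂ} (h : LB κ 0 s) {ε : ℝ} (hs : ‖s‖ < ε) :
    ∀ᶠ t in 𝓝[≠] 0, κ t ≠ 0 ∧ ‖κ t‖ < ε := by
  have h1 : ∀ᶠ t in 𝓝[≠] (0 : ℂ), ‖κ t‖ < ε := by
    have h2 : ∀ᶠ t in 𝓝 (0 : ℂ), κ t ∈ ball (0 : ℂ) ε := h.tendsto (isOpen_ball.mem_nhds (by
      rw [mem_ball_zero_iff]
      exact hs))
    filter_upwards [h2.filter_mono nhdsWithin_le_nhds] with t ht
    rwa [mem_ball_zero_iff] at ht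
  have h2 : ∀ᶠ t in 𝓝[≠] (0 : ℂ), κ t ≠ 0 := by
    by_cases hs0 : s = 0
    · subst hs0
      exact h.tendsto_ne self_mem_nhdsWithin
    · have h3 : ∀ᶠ t in 𝓝 (0 : ℂ), κ t ∈ ({0} : Set ℂ)ᶜ :=
        h.tendsto (isOpen_compl_singleton.mem_nhds hs0)
      exact h3.filter_mono nhdsWithin_le_nhds
  exact h2.and h1

namespace LocSt

variable {X : CurveP lam K} (S : LocSt X)

theorem zero_mem (P : X.Pt) : (0 : ℂ) ∈ ball (0 : ℂ) (S.r P) := mem_ball_self (S.r_pos P)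

theorem fn_add (P : X.Pt) (z w : K) : ∀ s ∈ ball 0 (S.r P),
    S.fn P (z + w) =ᶠ[𝓝[≠] s] S.fn P z + S.fn P w := by
  apply mero_identity_ball (S.fn_mero P _) ((S.fn_mero P z).add (S.fn_mero P w))
  have h1 := S.fn_germ P (z + w)
  rw [map_add] at h1
  filter_upwards [h1, Germ.rep_add (X.phi P z) (X.phi P w), S.fn_germ P z, S.fn_germ P w]
    with t h1 h2 h3 h4
  rw [h1, h2, Pi.add_apply, h3, h4]

theorem fn_mul (P : X.Pt) (z w : K) : ∀ s ∈ ball 0 (S.r P),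
    S.fn P (z * w) =ᶠ[𝓝[≠] s] S.fn P z * S.fn P w := by
  apply mero_identity_ball (S.fn_mero P _) ((S.fn_mero P z).mul (S.fn_mero P w))
  have h1 := S.fn_germ P (z * w)
  rw [map_mul] at h1
  filter_upwards [h1, Germ.rep_mul (X.phi P z) (X.phi P w), S.fn_germ P z, S.fn_germ P w]
    with t h1 h2 h3 h4
  rw [h1, h2, Pi.mul_apply, h3, h4]

theorem fn_const (P : X.Pt) (a : ℂ) : ∀ s ∈ ball 0 (S.r P),
    S.fn P (algebraMap ℂ K a) =ᶠ[𝓝[≠] s] fun _ => a := by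
  apply mero_identity_ball (S.fn_mero P _) (MeromorphicOn.const a)
  have h1 := S.fn_germ P (algebraMap ℂ K a)
  rw [AlgHom.commutes] at h1
  exact h1.trans (Germ.rep_const a)

theorem order (P : X.Pt) {z : K} (hz : z ≠ 0) : ∀ s ∈ ball 0 (S.r P),
    meromorphicOrderAt (S.fn P z) s = ((X.toOrd.ord (S.c P s) z : ℤ) : WithTop ℤ) := by
  intro s hs
  obtain ⟨κ, h1, h2⟩ := S.coh P s hs
  rw [← h1.order, ← meromorphicOrderAt_congr (h2 z)]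
  exact Germ.ord_eq (X.phi_ne _ hz)

theorem exists_inj (hU : Unif X.toOrd) (P : X.Pt) :
    ∃ ε > 0, ε ≤ S.r P ∧ InjOn (S.c P) (ball 0 ε) := by
  obtain ⟨z, hz, hz1⟩ := hU P
  have h1 := S.order P hz 0 (S.zero_mem P)
  rw [S.c_zero, hz1, meromorphicOrderAt_eq_int_iff (S.fn_mero P z 0 (S.zero_mem P))] at h1
  obtain ⟨g, hg, hg0, hfg⟩ := h1
  let G : ℂ → ℂ := fun t => t * g t
  have hG : AnalyticAt ℂ G 0 := analyticAt_id.mul hg
  have hd : HasDerivAt G (g 0) 0 := by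
    have h1 := (hasDerivAt_id (0 : ℂ)).mul hg.differentiableAt.hasDerivAt
    have h2 : (1 : ℂ) * g 0 + id (0 : ℂ) * deriv g 0 = g 0 := by simp
    rw [h2] at h1
    exact h1
  have hLB : LB G 0 0 := ⟨hG, by simp [G], by rw [hd.deriv]; exact hg0⟩
  obtain ⟨μ, _, hμ, _⟩ := hLB.exists_inv
  have hfG : ∀ᶠ t in 𝓝[≠] (0 : ℂ), S.fn P z t = G t := by
    filter_upwards [hfg] with t ht
    rw [ht, sub_zero, zpow_one]
    rfl
  rw [eventually_nhdsWithin_iff] at hfG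
  have hc : ∀ᶠ t in 𝓝 (0 : ℂ), ContinuousAt G t :=
    hG.eventually_analyticAt.mono fun t ht => ht.continuousAt
  obtain ⟨δ, hδ, hb⟩ := Metric.eventually_nhds_iff_ball.1 (hμ.and (hfG.and hc))
  refine ⟨min δ (S.r P), lt_min hδ (S.r_pos P), min_le_right _ _, ?_⟩
  intro s hs s' hs' hss
  have m1 : s ∈ ball (0 : ℂ) (S.r P) := ball_subset_ball (min_le_right _ _) hs
  have m2 : s' ∈ ball (0 : ℂ) (S.r P) := ball_subset_ball (min_le_right _ _) hs'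
  have n1 : s ∈ ball (0 : ℂ) δ := ball_subset_ball (min_le_left _ _) hs
  have n2 : s' ∈ ball (0 : ℂ) δ := ball_subset_ball (min_le_left _ _) hs'
  obtain ⟨κ, a1, a2⟩ := S.coh P s m1
  obtain ⟨κ', b1, b2⟩ := S.coh P s' m2
  have key : ∀ᶠ t in 𝓝[≠] (0 : ℂ), G (κ t) = G (κ' t) := by
    have b2' := b2 z
    rw [← hss] at b2'
    filter_upwards [a2 z, b2', a1.eventually_punct (mem_ball_zero_iff.1 n1),
      b1.eventually_punct (mem_ball_zero_iff.1 n2)] with t t1 t2 t3 t4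
    rw [← (hb (κ t) (by rw [mem_ball_zero_iff]; exact t3.2)).2.1 t3.1,
      ← (hb (κ' t) (by rw [mem_ball_zero_iff]; exact t4.2)).2.1 t4.1, ← t1, ← t2]
  have l1 : Tendsto (fun t => G (κ t)) (𝓝[≠] 0) (𝓝 (G s)) :=
    ((hb s n1).2.2.tendsto.comp a1.tendsto).mono_left nhdsWithin_le_nhds
  have l2 : Tendsto (fun t => G (κ' t)) (𝓝[≠] 0) (𝓝 (G s')) :=
    ((hb s' n2).2.2.tendsto.comp b1.tendsto).mono_left nhdsWithin_le_nhds
  have h5 : G s = G s' := tendsto_nhds_unique (l1.congr' key) l2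
  rw [← (hb s n1).1, ← (hb s' n2).1, h5]

theorem tr (hS : SepL X.toOrd) (P Q : X.Pt) (s : ℂ) (hs : s ∈ ball 0 (S.r P)) (s' : ℂ)
    (hs' : s' ∈ ball 0 (S.r Q)) (h : S.c P s = S.c Q s') : ∃ f : ℂ → ℂ, LB f s s' ∧
      (∀ᶠ σ in 𝓝 s, S.c Q (f σ) = S.c P σ) ∧
      ∀ z, (fun σ => S.fn Q z (f σ)) =ᶠ[𝓝[≠] s] S.fn P z := by
  obtain ⟨κ, a1, a2⟩ := S.coh P s hs
  obtain ⟨κ', b1, b2⟩ := S.coh Q s' hs'
  obtain ⟨μ, c1, _, c3⟩ := a1.exists_inv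
  have hf : LB (fun σ => κ' (μ σ)) s s' := c1.comp b1
  have key : ∀ z, (fun σ => S.fn Q z (κ' (μ σ))) =ᶠ[𝓝[≠] s] S.fn P z := by
    intro z
    have b2' := b2 z
    rw [← h] at b2'
    have h1 := c1.tendsto_ne.eventually (b2'.symm.trans (a2 z))
    filter_upwards [h1, c3.filter_mono nhdsWithin_le_nhds] with σ t1 t2
    rw [t1, t2]
  refine ⟨fun σ => κ' (μ σ), hf, ?_, key⟩
  have e1 : ∀ᶠ σ in 𝓝 s, AnalyticAt ℂ (fun σ => κ' (μ σ)) σ := hf.an.eventually_analyticAt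
  have e2 : ∀ᶠ σ in 𝓝 s, deriv (fun σ => κ' (μ σ)) σ ≠ 0 :=
    hf.an.deriv.continuousAt.eventually_ne hf.der
  have e3 : ∀ᶠ σ in 𝓝 s, κ' (μ σ) ∈ ball (0 : ℂ) (S.r Q) :=
    hf.tendsto (isOpen_ball.mem_nhds hs')
  have e4 : ∀ᶠ σ in 𝓝 s, σ ∈ ball (0 : ℂ) (S.r P) := isOpen_ball.mem_nhds hs
  obtain ⟨δ, hδ, hb⟩ := Metric.eventually_nhds_iff_ball.1 (e1.and (e2.and (e3.and e4)))
  have e5 : ∀ z, ∀ σ ∈ ball s δ, (fun σ => S.fn Q z (κ' (μ σ))) =ᶠ[𝓝[≠] σ] S.fn P z := by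
    intro z
    apply mero_identity_ball _ _ (key z)
    · intro σ hσ
      exact MeromorphicAt.comp_analyticAt (f := S.fn Q z) (g := fun σ => κ' (μ σ))
        (S.fn_mero Q z _ (hb σ hσ).2.2.1) (hb σ hσ).1
    · intro σ hσ
      exact S.fn_mero P z _ (hb σ hσ).2.2.2
  filter_upwards [isOpen_ball.mem_nhds (mem_ball_self hδ)] with σ hσ
  apply hS.eq_of_ord
  intro z hz
  have l : LB (fun σ => κ' (μ σ)) σ (κ' (μ σ)) := ⟨(hb σ hσ).1, rfl, (hb σ hσ).2.1⟩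
  have h1 := S.order Q hz _ (hb σ hσ).2.2.1
  have h2 := S.order P hz _ (hb σ hσ).2.2.2
  rw [← l.order, meromorphicOrderAt_congr (e5 z σ hσ), h2] at h1
  exact_mod_cast h1.symm

theorem t2 (hS : SepL X.toOrd) (P Q : X.Pt) (h : P ≠ Q) :
    ∃ ε > 0, ∀ s s' : ℂ, ‖s‖ < ε → ‖s'‖ < ε → S.c P s ≠ S.c Q s' := by
  obtain ⟨z, hz, h1, h2⟩ := hS P Q h
  have o1 := S.order P hz 0 (S.zero_mem P)
  have o2 := S.order Q hz 0 (S.zero_mem Q)
  rw [S.c_zero] at o1 o2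
  have t1 : Tendsto (S.fn P z) (𝓝[≠] 0) (Bornology.cobounded ℂ) := by
    apply tendsto_cobounded_of_meromorphicOrderAt_neg
    rw [o1]
    exact_mod_cast h1
  obtain ⟨a, ha⟩ := tendsto_nhds_of_meromorphicOrderAt_nonneg
    (S.fn_mero Q z 0 (S.zero_mem Q)) (by
      rw [o2]
      exact_mod_cast h2)
  have v1 : ∀ᶠ t in 𝓝[≠] (0 : ℂ), ‖a‖ + 1 < ‖S.fn P z t‖ :=
    (tendsto_norm_atTop_iff_cobounded.2 t1).eventually_gt_atTop _
  have v2 : ∀ᶠ t in 𝓝[≠] (0 : ℂ), ‖S.fn Q z t‖ < ‖a‖ + 1 :=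
    ha.norm.eventually_lt_const (by linarith)
  have v3 : ∀ᶠ t in 𝓝 (0 : ℂ), t ∈ ball (0 : ℂ) (S.r P) := isOpen_ball.mem_nhds (S.zero_mem P)
  have v4 : ∀ᶠ t in 𝓝 (0 : ℂ), t ∈ ball (0 : ℂ) (S.r Q) := isOpen_ball.mem_nhds (S.zero_mem Q)
  rw [eventually_nhdsWithin_iff] at v1 v2
  obtain ⟨ε, hε, hb⟩ := Metric.eventually_nhds_iff_ball.1 (v1.and (v2.and (v3.and v4)))
  refine ⟨ε, hε, ?_⟩
  intro s s' hs hs' hss
  have m1 := hb s (mem_ball_zero_iff.2 hs)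
  have m2 := hb s' (mem_ball_zero_iff.2 hs')
  obtain ⟨κ, a1, a2⟩ := S.coh P s m1.2.2.1
  obtain ⟨κ', b1, b2⟩ := S.coh Q s' m2.2.2.2
  have b2' := b2 z
  rw [← hss] at b2'
  have key : ∀ᶠ t in 𝓝[≠] (0 : ℂ), False := by
    filter_upwards [a2 z, b2', a1.eventually_punct hs, b1.eventually_punct hs'] with t t1 t2 t3 t4
    have w1 := (hb (κ t) (mem_ball_zero_iff.2 t3.2)).1 t3.1
    have w2 := (hb (κ' t) (mem_ball_zero_iff.2 t4.2)).2.1 t4.1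
    rw [← t1, t2] at w1
    linarith
  exact (key.exists).elim fun _ h => h

/-- The analytic structure. -/
def toAn (hS : SepL X.toOrd) (ρ : X.Pt → ℝ) (h0 : ∀ P, 0 < ρ P) (hle : ∀ P, ρ P ≤ S.r P)
    (hinj : ∀ P, InjOn (S.c P) (ball 0 (ρ P))) : AnCurve X.toOrd where
  r := ρ
  r_pos := h0
  c := S.c
  c_zero := S.c_zero
  inj := hinj
  fn := S.fn
  fn_mero P z := (S.fn_mero P z).mono_set (ball_subset_ball (hle P))
  fn_add P z w s hs := S.fn_add P z w s (ball_subset_ball (hle P) hs)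
  fn_mul P z w s hs := S.fn_mul P z w s (ball_subset_ball (hle P) hs)
  fn_const P a s hs := S.fn_const P a s (ball_subset_ball (hle P) hs)
  ord P z hz s hs := S.order P hz s (ball_subset_ball (hle P) hs)
  tr P Q s hs s' hs' h := by
    obtain ⟨f, h1, h2, h3⟩ := S.tr hS P Q s (ball_subset_ball (hle P) hs) s'
      (ball_subset_ball (hle Q) hs') h
    exact ⟨f, h1.an, h1.val, h1.der, h2, h3⟩
  t2 := S.t2 hS
  cpt := S.cpt

theorem fn_deck (δ : Deck X) (P : X.Pt) (z : K) {ρ : ℝ} (h1 : ρ ≤ S.r P)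
    (h2 : ρ ≤ S.r (δ.σ P)) : ∀ s ∈ ball 0 ρ, S.fn (δ.σ P) (δ.θ z) =ᶠ[𝓝[≠] s] S.fn P z := by
  apply mero_identity_ball ((S.fn_mero _ _).mono_set (ball_subset_ball h2))
    ((S.fn_mero _ _).mono_set (ball_subset_ball h1))
  have e1 := S.fn_germ (δ.σ P) (δ.θ z)
  rw [δ.comp] at e1
  exact e1.trans (S.fn_germ P z).symm

theorem toAn_equiv (hS : SepL X.toOrd) (ρ : X.Pt → ℝ) (h0 : ∀ P, 0 < ρ P)
    (hle : ∀ P, ρ P ≤ S.r P) (hinj : ∀ P, InjOn (S.c P) (ball 0 (ρ P))) (δ : Deck X)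
    (hρ : ∀ P, ρ (δ.σ P) = ρ P) : (S.toAn hS ρ h0 hle hinj).Equiv δ.θ δ.σ where
  r := hρ
  c P s hs := by
    have hs1 : s ∈ ball (0 : ℂ) (ρ P) := hs
    have m1 : s ∈ ball (0 : ℂ) (S.r P) := ball_subset_ball (hle P) hs1
    have hle' : ρ P ≤ S.r (δ.σ P) := (hρ P).symm.le.trans (hle _)
    have m2 : s ∈ ball (0 : ℂ) (S.r (δ.σ P)) := ball_subset_ball hle' hs1
    show S.c (δ.σ P) s = δ.σ (S.c P s)
    apply hS.eq_of_ord
    intro z hz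
    obtain ⟨w, rfl⟩ := δ.θ.surjective z
    have hw : w ≠ 0 := by
      rintro rfl
      exact hz (map_zero _)
    have e1 := S.order (δ.σ P) hz s m2
    rw [meromorphicOrderAt_congr (S.fn_deck δ P w (hle P) hle' s hs1), S.order P hw s m1] at e1
    have e2 : X.toOrd.ord (S.c P s) w = X.toOrd.ord (S.c (δ.σ P) s) (δ.θ w) := by
      exact_mod_cast e1
    rw [← e2]
    exact (δ.ord_comp (S.c P s) w).symm
  fn P z s hs := S.fn_deck δ P z (hle P) ((hρ P).symm.le.trans (hle _)) s hs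

end LocSt

end

end Pool.Agent.YTDA
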