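import Pool.Agent.YTDA.Loc

/-!
Local parametrisations of étale double covers.
-/

namespace Pool.Agent.YTDA

open Complex Set Topology Metric Filter
open Pool.Agent.YTD Pool.Agent.YTD.Hyp

noncomputable section

variable {K : Type} [Field K] [Algebra ℂ K]

theorem Germ.exists_mero (x : Germ) : ∃ ρ > 0, MeromorphicOn x.rep (ball 0 ρ) := by
  have h1 := x.rep_mero.eventually_analyticAt
  rw [eventually_nhdsWithin_iff] at h1
  obtain ⟨ρ, hρ, hb⟩ := Metric.eventually_nhds_iff_ball.1 h1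
  refine ⟨ρ, hρ, ?_⟩
  intro t ht
  by_cases h0 : t = 0
  · rw [h0]
    exact x.rep_mero
  · exact (hb t ht h0).meromorphicAt

namespace LocSt

variable {X : CurveP lam K} (S : LocSt X)

open Classical in
/-- the chosen local biholomorphism -/
def kap (P : X.Pt) (s : ℂ) (hs : s ∈ ball (0 : ℂ) (S.r P)) : ℂ → ℂ :=
  if s = 0 then fun t => t else (S.coh P s hs).choose

theorem kap_zero (P : X.Pt) (hs : (0 : ℂ) ∈ ball (0 : ℂ) (S.r P)) :
    S.kap P 0 hs = fun t => t := by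
  unfold kap
  rw [if_pos rfl]

theorem kap_LB (P : X.Pt) (s : ℂ) (hs : s ∈ ball (0 : ℂ) (S.r P)) : LB (S.kap P s hs) 0 s := by
  unfold kap
  split_ifs with h0
  · subst h0
    exact LB.refl 0
  · exact (S.coh P s hs).choose_spec.1

theorem kap_rep (P : X.Pt) (s : ℂ) (hs : s ∈ ball (0 : ℂ) (S.r P)) (z : K) :
    (X.phi (S.c P s) z).rep =ᶠ[𝓝[≠] 0] fun t => S.fn P z (S.kap P s hs t) := by
  unfold kap
  split_ifs with h0
  · subst h0
    rw [S.c_zero]
    exact (S.fn_germ P z).symm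
  · exact (S.coh P s hs).choose_spec.2 z

section dbl

variable {h : K}

/-- the radius of the disc at a point of the double cover -/
def dr (x : DPt X h) : ℝ := min (S.r x.1.1) (Germ.exists_mero x.1.2).choose

theorem dr_pos (x : DPt X h) : 0 < S.dr x :=
  lt_min (S.r_pos _) (Germ.exists_mero x.1.2).choose_spec.1

theorem dr_le (x : DPt X h) : S.dr x ≤ S.r x.1.1 := min_le_left _ _

theorem dr_mero (x : DPt X h) : MeromorphicOn x.1.2.rep (ball 0 (S.dr x)) :=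
  (Germ.exists_mero x.1.2).choose_spec.2.mono_set (ball_subset_ball (min_le_right _ _))

theorem rep_sq (x : DPt X h) : ∀ s ∈ ball (0 : ℂ) (S.dr x),
    (fun t => x.1.2.rep t * x.1.2.rep t) =ᶠ[𝓝[≠] s] S.fn x.1.1 h := by
  apply mero_identity_ball ((S.dr_mero x).mul (S.dr_mero x))
    ((S.fn_mero _ _).mono_set (ball_subset_ball (S.dr_le x)))
  have h1 := Germ.rep_mul x.1.2 x.1.2
  rw [← sq, x.2] at h1
  exact h1.symm.trans (S.fn_germ x.1.1 h).symm

theorem mero_kap (x : DPt X h) (s : ℂ) (hs : s ∈ ball (0 : ℂ) (S.dr x)) :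
    MeromorphicAt (fun t => x.1.2.rep (S.kap x.1.1 s (ball_subset_ball (S.dr_le x) hs) t)) 0 :=
  (S.kap_LB _ s _).mero (S.dr_mero x s hs)

open Classical in
/-- the parametrisation of the disc at a point of the double cover -/
def dc (x : DPt X h) (s : ℂ) : DPt X h :=
  if hs : s ∈ ball (0 : ℂ) (S.dr x) then
    ⟨(S.c x.1.1 s, Germ.mk _ (S.mero_kap x s hs)), by
      apply Germ.ext
      have l := S.kap_LB x.1.1 s (ball_subset_ball (S.dr_le x) hs)
      have h1 := Germ.rep_mul (Germ.mk _ (S.mero_kap x s hs)) (Germ.mk _ (S.mero_kap x s hs))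
      have h2 := Germ.rep_mk _ (S.mero_kap x s hs)
      have h3 := S.kap_rep x.1.1 s (ball_subset_ball (S.dr_le x) hs) h
      have h4 := l.tendsto_ne.eventually (S.rep_sq x s hs)
      simp only
      rw [sq]
      filter_upwards [h1, h2, h3, h4] with t t1 t2 t3 t4
      rw [t1, t2, t3, t4]⟩
  else x

theorem dc_fst (x : DPt X h) (s : ℂ) (hs : s ∈ ball (0 : ℂ) (S.dr x)) :
    (S.dc x s).1.1 = S.c x.1.1 s := by
  unfold dc
  rw [dif_pos hs]

theorem dc_rep (x : DPt X h) (s : ℂ) (hs : s ∈ ball (0 : ℂ) (S.dr x)) :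
    (S.dc x s).1.2.rep =ᶠ[𝓝[≠] 0]
      fun t => x.1.2.rep (S.kap x.1.1 s (ball_subset_ball (S.dr_le x) hs) t) := by
  unfold dc
  rw [dif_pos hs]
  exact Germ.rep_mk _ (S.mero_kap x s hs)

theorem dc_zero (x : DPt X h) : S.dc x 0 = x := by
  have hs : (0 : ℂ) ∈ ball (0 : ℂ) (S.dr x) := mem_ball_self (S.dr_pos x)
  apply Subtype.ext
  apply Prod.ext
  · rw [S.dc_fst x 0 hs, S.c_zero]
  · apply Germ.ext
    have h1 := S.dc_rep x 0 hs
    rw [S.kap_zero] at h1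
    exact h1

theorem dc_dneg (x : DPt X h) (s : ℂ) (hs : s ∈ ball (0 : ℂ) (S.dr x))
    (hs' : s ∈ ball (0 : ℂ) (S.dr (dneg x))) : S.dc (dneg x) s = dneg (S.dc x s) := by
  apply Subtype.ext
  apply Prod.ext
  · rw [S.dc_fst _ s hs']
    show _ = (S.dc x s).1.1
    rw [S.dc_fst _ s hs]
    rfl
  · apply Germ.ext
    show _ =ᶠ[𝓝[≠] 0] (-(S.dc x s).1.2).rep
    have hm : min (S.dr x) (S.dr (dneg x)) ≤ S.dr x := min_le_left _ _
    have hm' : min (S.dr x) (S.dr (dneg x)) ≤ S.dr (dneg x) := min_le_right _ _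
    have key : ∀ s ∈ ball (0 : ℂ) (min (S.dr x) (S.dr (dneg x))),
        (dneg x).1.2.rep =ᶠ[𝓝[≠] s] fun t => - x.1.2.rep t := by
      apply mero_identity_ball ((S.dr_mero _).mono_set (ball_subset_ball hm'))
        ((S.dr_mero x).mono_set (ball_subset_ball hm)).neg
      exact Germ.rep_neg x.1.2
    have hss : s ∈ ball (0 : ℂ) (min (S.dr x) (S.dr (dneg x))) := by
      rw [mem_ball_zero_iff] at hs hs' ⊢
      exact lt_min hs hs'
    have l := S.kap_LB x.1.1 s (ball_subset_ball (S.dr_le x) hs)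
    filter_upwards [S.dc_rep _ s hs', S.dc_rep _ s hs, Germ.rep_neg (S.dc x s).1.2,
      l.tendsto_ne.eventually (key s hss)] with t t1 t2 t3 t4
    rw [t1, t3, t2]
    exact t4

variable [NonSqK h] (hev : ∀ P, Even (lam.ord (X.phi P h)))

include hev in
theorem dcpt (ρ : DPt X h → ℝ) (hρ : ∀ x, 0 < ρ x) :
    ∃ F : Finset (DPt X h), ∀ y, ∃ x ∈ F, ∃ s, ‖s‖ < ρ x ∧ S.dc x s = y := by
  obtain ⟨F, hF⟩ := S.cpt (fun P => min (min (ρ (lft hev P)) (S.dr (lft hev P)))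
    (min (ρ (dneg (lft hev P))) (S.dr (dneg (lft hev P))))) (fun P => lt_min
      (lt_min (hρ _) (S.dr_pos _)) (lt_min (hρ _) (S.dr_pos _)))
  refine ⟨pre hev F, ?_⟩
  intro y
  obtain ⟨P, hP, s, hs, hc⟩ := hF y.1.1
  simp only [lt_min_iff] at hs
  obtain ⟨⟨s1, s2⟩, ⟨s3, s4⟩⟩ := hs
  have m2 : s ∈ ball (0 : ℂ) (S.dr (lft hev P)) := mem_ball_zero_iff.2 s2
  have m4 : s ∈ ball (0 : ℂ) (S.dr (dneg (lft hev P))) := mem_ball_zero_iff.2 s4
  have h1 : (S.dc (lft hev P) s).1.1 = y.1.1 := by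
    rw [S.dc_fst _ s m2, ← hc]
    rfl
  rcases eta_eq_or _ _ h1 with h2 | h2
  · exact ⟨lft hev P, (mem_pre hev F _).2 hP, s, s1, h2.symm⟩
  · refine ⟨dneg (lft hev P), (mem_pre hev F _).2 hP, s, s3, ?_⟩
    rw [S.dc_dneg _ s m2 m4, h2]

/-- Parametrisations of the double cover. -/
def dbl : LocSt (X.dbl h hev) where
  r := S.dr
  r_pos := S.dr_pos
  fn x z t := S.fn x.1.1 z.re t + S.fn x.1.1 z.im t * x.1.2.rep t
  fn_mero x z := ((S.fn_mero x.1.1 z.re).mono_set (ball_subset_ball (S.dr_le x))).add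
    (((S.fn_mero x.1.1 z.im).mono_set (ball_subset_ball (S.dr_le x))).mul (S.dr_mero x))
  fn_germ x z := by
    filter_upwards [S.fn_germ x.1.1 z.re, S.fn_germ x.1.1 z.im,
      Germ.rep_add (X.phi x.1.1 z.re) (X.phi x.1.1 z.im * x.1.2),
      Germ.rep_mul (X.phi x.1.1 z.im) x.1.2] with t t1 t2 t3 t4
    show _ = (X.phi x.1.1 z.re + X.phi x.1.1 z.im * x.1.2).rep t
    rw [t3, t4, t1, t2]
  c := S.dc
  c_zero := S.dc_zero
  coh x s hs := by
    have m : s ∈ ball (0 : ℂ) (S.r x.1.1) := ball_subset_ball (S.dr_le x) hs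
    refine ⟨S.kap x.1.1 s m, S.kap_LB _ _ _, ?_⟩
    intro z
    have e1 := S.kap_rep x.1.1 s m z.re
    have e2 := S.kap_rep x.1.1 s m z.im
    rw [← S.dc_fst x s hs] at e1 e2
    show (X.phi (S.dc x s).1.1 z.re + X.phi (S.dc x s).1.1 z.im * (S.dc x s).1.2).rep
      =ᶠ[𝓝[≠] 0] _
    filter_upwards [e1, e2, S.dc_rep x s hs,
      Germ.rep_add (X.phi (S.dc x s).1.1 z.re) (X.phi (S.dc x s).1.1 z.im * (S.dc x s).1.2),
      Germ.rep_mul (X.phi (S.dc x s).1.1 z.im) (S.dc x s).1.2] with t t1 t2 t3 t4 t5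
    rw [t4, t5, t1, t2, t3]
  cpt := S.dcpt hev

end dbl

end LocSt

end

end Pool.Agent.YTDA
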