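import Pool.Agent.YTDA.LocDbl

/-!
The divisor of the differential of the coordinate function.
-/

namespace Pool.Agent.YTDA

open Set Topology Metric Filter Polynomial
open Pool.Agent.YTD Pool.Agent.YTD.Hyp

noncomputable section

theorem order_pow (n : ℕ) : meromorphicOrderAt (fun t : ℂ => t ^ n) 0 = ((n : ℤ) : WithTop ℤ) := by
  have h1 : MeromorphicAt (fun t : ℂ => t ^ n) 0 := (MeromorphicAt.id 0).pow n
  rw [meromorphicOrderAt_eq_int_iff h1]
  refine ⟨fun _ => 1, analyticAt_const, one_ne_zero, ?_⟩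
  filter_upwards with z
  rw [sub_zero, smul_eq_mul, mul_one, zpow_natCast]

theorem order_pow_inv (n : ℕ) :
    meromorphicOrderAt (fun t : ℂ => (t ^ n)⁻¹) 0 = ((-(n : ℤ) : ℤ) : WithTop ℤ) := by
  have h1 : MeromorphicAt (fun t : ℂ => (t ^ n)⁻¹) 0 := ((MeromorphicAt.id 0).pow n).inv
  rw [meromorphicOrderAt_eq_int_iff h1]
  refine ⟨fun _ => 1, analyticAt_const, one_ne_zero, ?_⟩
  filter_upwards with z
  rw [sub_zero, smul_eq_mul, mul_one, zpow_neg, zpow_natCast]

theorem order_deriv_aff (a : ℂ) {e : ℕ} (he : 0 < e) :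
    meromorphicOrderAt (deriv fun t : ℂ => a + t ^ e) 0 = (((e : ℤ) - 1 : ℤ) : WithTop ℤ) := by
  have h1 : (deriv fun t : ℂ => a + t ^ e) = deriv fun t : ℂ => t ^ e := by
    funext t
    exact deriv_const_add a
  rw [h1]
  apply meromorphicOrderAt_deriv_eq_sub_one _ (order_pow e)
  simp only [Int.cast_natCast, ne_eq, Nat.cast_eq_zero]
  omega

theorem order_deriv_inf :
    meromorphicOrderAt (deriv fun t : ℂ => (t ^ 2)⁻¹) 0 = ((-3 : ℤ) : WithTop ℤ) := by
  have h := meromorphicOrderAt_deriv_eq_sub_one (n := -2) (by norm_num) (order_pow_inv 2)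
  exact h

theorem rep_thA (e : ℕ) (a : ℂ) : (thA lam e a).rep =ᶠ[𝓝[≠] 0] fun t => a + t ^ e := by
  unfold thA
  filter_upwards [Germ.rep_add (algebraMap ℂ Germ a) (lam.s ^ e), Germ.rep_const a,
    Germ.rep_pow lam.s e, Germ.rep_s] with t t1 t2 t3 t4
  rw [t1, t2, t3, t4]

theorem rep_thI : (thI lam).rep =ᶠ[𝓝[≠] 0] fun t => (t ^ 2)⁻¹ := by
  unfold thI
  filter_upwards [Germ.rep_inv (lam.s ^ 2), Germ.rep_pow lam.s 2, Germ.rep_s] with t t1 t2 t3
  rw [t1, t2, t3]

variable {f : ℂ[X]}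

/-- the divisor of the differential of the coordinate function on the base curve -/
def ddL : Pts f → ℤ
  | none => -3
  | some P => (ram P : ℤ) - 1

theorem order_dx (G : Good f) (P : Pts f) :
    meromorphicOrderAt (deriv (parAt lam G.ne P).θ.rep) 0 = ((ddL P : ℤ) : WithTop ℤ) := by
  rcases P with _ | P
  · rw [parAt_none, meromorphicOrderAt_congr rep_thI.nhdsNE_deriv]
    exact order_deriv_inf
  · rw [parAt_some, meromorphicOrderAt_congr (rep_thA _ _).nhdsNE_deriv]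
    exact order_deriv_aff _ (ram_pos P)

open Classical in
theorem dd_eq (G : Good f) (P : Pts f) : ddL P = ordAt lam G.ne P yy +
    (if P = none then (f.natDegree : ℤ) - 3 else 0) := by
  unfold ordAt
  rw [phi_yy]
  rcases P with _ | P
  · rw [ord_eta_inf G, if_pos rfl]
    show (-3 : ℤ) = _
    ring
  · rw [if_neg (by simp), add_zero]
    show (ram P : ℤ) - 1 = _
    by_cases hb : P.1.2 = 0
    · rw [ord_eta_ram G P hb]
      unfold ram
      rw [if_pos hb]
      norm_num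
    · have h1 := two_ord_eta (Λ := lam) G.ne (some P)
      rw [ordAt_emb_zero G.ne P (by rw [← P.2]; exact pow_ne_zero 2 hb)] at h1
      unfold ram
      rw [if_neg hb]
      push_cast
      linarith

theorem dd_finite [NonSq f] (G : Good f) : (Function.support (ddL : Pts f → ℤ)).Finite := by
  classical
  apply ((finite_ordAt (Λ := lam) G.ne (yy_ne (f := f))).union (Set.finite_singleton none)).subset
  intro P hP
  by_contra h0
  simp only [Set.mem_union, Set.mem_ofPred_eq, Set.mem_singleton_iff, not_or, not_not] at h0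
  apply hP
  rw [dd_eq G, h0.1, if_neg h0.2, add_zero]

theorem finsum_dd [NonSq f] (G : Good f) {g : ℕ} (hg : f.natDegree = 2 * g + 1) :
    ∑ᶠ P : Pts f, ddL P = 2 * g - 2 := by
  classical
  have h1 : (fun P : Pts f => ddL P) = fun P => ordAt lam G.ne P yy +
      (if P = none then (f.natDegree : ℤ) - 3 else 0) := by
    funext P
    exact dd_eq G P
  have h2 : ∑ᶠ P : Pts f, ordAt lam G.ne P yy = 0 := tot_eq_zero G yy_ne
  have h3 : ∑ᶠ P : Pts f, (if P = none then (f.natDegree : ℤ) - 3 else 0) = f.natDegree - 3 := by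
    rw [finsum_eq_single _ none (fun P hP => if_neg hP), if_pos rfl]
  rw [h1, finsum_add_distrib (finite_ordAt (Λ := lam) G.ne (yy_ne (f := f))), h2, h3, hg]
  · push_cast
    ring
  · apply (Set.finite_singleton (none : Pts f)).subset
    intro P hP
    by_contra h0
    exact hP (if_neg h0)

section pull

variable {K : Type} [Field K] [Algebra ℂ K] {F : Type} [Field F] [Algebra ℂ F] {Λ : LF F}
  {X : CurveP Λ K} {h : K} [NonSqK h]

theorem pull_finite {g : X.Pt → ℤ} (hg : (Function.support g).Finite) :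
    (Function.support fun x : DPt X h => g x.1.1).Finite :=
  finite_preim (X := X) (h := h) hg

theorem finsum_pull (hev : ∀ P, Even (Λ.ord (X.phi P h))) {g : X.Pt → ℤ}
    (hg : (Function.support g).Finite) : ∑ᶠ x : DPt X h, g x.1.1 = 2 * ∑ᶠ P, g P := by
  rw [finsum_fib hev (pull_finite hg)]
  have h1 : (fun P => g (lft hev P).1.1 + g (dneg (lft hev P)).1.1) = fun P => g P + g P := rfl
  rw [h1, finsum_add_distrib hg hg]
  ring

end pull

section tower

variable [NonSq f] (G : Good f) {a₁ a₂ a₃ : ℂ} [NonSqK (hh₁ f a₁)] [NonSqK (hh₂ f a₁ a₂)]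
  [NonSqK (hh₃ f a₁ a₂ a₃)] (h1 : f.eval a₁ = 0) (h2 : f.eval a₂ = 0) (h3 : f.eval a₃ = 0)

/-- the coordinate function on the third cover -/
def xx : DK (hh₃ f a₁ a₂ a₃) :=
  algebraMap (DK (hh₂ f a₁ a₂)) (DK (hh₃ f a₁ a₂ a₃))
    (algebraMap (DK (hh₁ f a₁)) (DK (hh₂ f a₁ a₂)) (algebraMap (KK f) (DK (hh₁ f a₁)) (emb X)))

theorem phi_xx (P : (X₃ G h1 h2 h3 lam).Pt) :
    (X₃ G h1 h2 h3 lam).phi P xx = (parAt lam G.ne (base G h1 h2 h3 P)).θ := by
  show dphi P xx = _
  unfold xx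
  rw [dphi_alg]
  show dphi P.1.1 _ = _
  rw [dphi_alg]
  show dphi P.1.1.1.1 _ = _
  rw [dphi_alg]
  show (parAt lam G.ne P.1.1.1.1.1.1).phi (emb X) = _
  rw [phi_emb, aeval_X]
  rfl

theorem dd_finite₁ : (Function.support fun P : (X₁ G h1 lam).Pt => ddL (f := f) P.1.1).Finite :=
  pull_finite (X := baseP lam G) (h := hh₁ f a₁) (g := fun P : Pts f => ddL P) (dd_finite G)

theorem dd_finite₂ :
    (Function.support fun P : (X₂ G h1 h2 lam).Pt => ddL (f := f) P.1.1.1.1).Finite :=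
  pull_finite (X := X₁ G h1 lam) (h := hh₂ f a₁ a₂) (g := fun P => ddL (f := f) P.1.1)
    (dd_finite₁ G h1)

theorem dd_finite₃ :
    (Function.support fun P : (X₃ G h1 h2 h3 lam).Pt => ddL (base G h1 h2 h3 P)).Finite :=
  pull_finite (X := X₂ G h1 h2 lam) (h := hh₃ f a₁ a₂ a₃) (g := fun P => ddL (f := f) P.1.1.1.1)
    (dd_finite₂ G h1 h2)

/-- the divisor of the differential of the coordinate function -/
def d₃ : (X₃ G h1 h2 h3 lam).Pt →₀ ℤ :=
  Finsupp.ofSupportFinite (fun P => ddL (base G h1 h2 h3 P)) (dd_finite₃ G h1 h2 h3)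

theorem d₃_apply (P : (X₃ G h1 h2 h3 lam).Pt) :
    d₃ G h1 h2 h3 P = ddL (base G h1 h2 h3 P) := rfl

theorem deg_d₃ {g : ℕ} (hg : f.natDegree = 2 * g + 1) :
    (X₃ G h1 h2 h3 lam).toOrd.deg (d₃ G h1 h2 h3) = 16 * g - 16 := by
  rw [deg_eq_finsum]
  show ∑ᶠ P : DPt (X₂ G h1 h2 lam) (hh₃ f a₁ a₂ a₃), ddL (f := f) P.1.1.1.1.1.1 = _
  rw [finsum_pull (X := X₂ G h1 h2 lam) (ev₃ G h1 h2 h3)
    (g := fun P => ddL (f := f) P.1.1.1.1) (dd_finite₂ G h1 h2)]
  rw [finsum_pull (X := X₁ G h1 lam) (ev₂ G h1 h2)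
    (g := fun P => ddL (f := f) P.1.1) (dd_finite₁ G h1)]
  rw [finsum_pull (X := baseP lam G) (ev₁ G h1) (g := fun P => ddL (f := f) P) (dd_finite G)]
  show 2 * (2 * (2 * ∑ᶠ P : Pts f, ddL P)) = _
  rw [finsum_dd G hg]
  ring

theorem order_d₃ (S : LocSt (X₃ G h1 h2 h3 lam)) (P : (X₃ G h1 h2 h3 lam).Pt) :
    meromorphicOrderAt (deriv (S.fn P xx)) 0 = ((d₃ G h1 h2 h3 P : ℤ) : WithTop ℤ) := by
  have e1 := S.fn_germ P xx
  rw [phi_xx] at e1
  rw [meromorphicOrderAt_congr e1.nhdsNE_deriv, d₃_apply]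
  exact order_dx G _

end tower

end

end Pool.Agent.YTDA
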