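import Pool.Agent.YTDA.Loc
import Pool.Agent.YTD.CurveRR

/-!
Separation of points and existence of uniformizers from Riemann-Roch; radii invariant under
commuting involutions.
-/

namespace Pool.Agent.YTDA

open Complex Set Topology Metric Filter
open Pool.Agent.YTD Pool.Agent.YTD.Hyp

noncomputable section

variable {K : Type} [Field K] [Algebra ℂ K]

theorem sep_curve (X : Curve K) : SepL X.toCurveOrd := by
  classical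
  intro P Q hPQ
  obtain ⟨f, hf, hf0, hf1⟩ := X.exists_ord_eq P (D := Finsupp.single P (2 * (X.genus : ℤ) + 1)) (by
    rw [X.deg_single]
    linarith) P
  rw [Finsupp.single_eq_same] at hf1
  refine ⟨f, hf0, ?_, ?_⟩
  · rw [hf1]
    have := Int.natCast_nonneg X.genus
    linarith
  · have h1 := hf hf0 Q
    rw [Finsupp.single_eq_of_ne (fun h => hPQ h.symm), add_zero] at h1
    exact h1

theorem unif_curve (X : Curve K) : Unif X.toCurveOrd := by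
  classical
  intro P
  obtain ⟨f, _, hf0, hf1⟩ := X.exists_ord_eq P (D := Finsupp.single P (2 * (X.genus : ℤ))) (by
    rw [X.deg_single]) P
  obtain ⟨g, _, hg0, hg1⟩ := X.exists_ord_eq P (D := Finsupp.single P (2 * (X.genus : ℤ) + 1)) (by
    rw [X.deg_single]
    linarith) P
  rw [Finsupp.single_eq_same] at hf1 hg1
  have h1 : f * g⁻¹ ≠ 0 := mul_ne_zero hf0 (inv_ne_zero hg0)
  refine ⟨f * g⁻¹, h1, ?_⟩
  have h2 := X.ord_mul P (f * g⁻¹) g h1 hg0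
  rw [inv_mul_cancel_right₀ hg0, hf1, hg1] at h2
  linarith

/-! ### Invariant radii -/

theorem exists_min {α : Type} (σ : α → α) (hσ : ∀ P, σ (σ P) = P) (ρ : α → ℝ)
    (h0 : ∀ P, 0 < ρ P) : ∃ ρ' : α → ℝ, (∀ P, 0 < ρ' P) ∧ (∀ P, ρ' P ≤ ρ P) ∧
      (∀ P, ρ' (σ P) = ρ' P) ∧ ∀ τ : α → α, (∀ P, σ (τ P) = τ (σ P)) → (∀ P, ρ (τ P) = ρ P) →
        ∀ P, ρ' (τ P) = ρ' P := by
  refine ⟨fun P => min (ρ P) (ρ (σ P)), fun P => lt_min (h0 _) (h0 _), fun P => min_le_left _ _,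
    ?_, ?_⟩
  · intro P
    simp only [hσ]
    exact min_comm _ _
  · intro τ h1 h2 P
    simp only [h1, h2]

theorem exists_min₃ {α : Type} (σ₁ σ₂ σ₃ : α → α) (h1 : ∀ P, σ₁ (σ₁ P) = P)
    (h2 : ∀ P, σ₂ (σ₂ P) = P) (h3 : ∀ P, σ₃ (σ₃ P) = P) (c12 : ∀ P, σ₁ (σ₂ P) = σ₂ (σ₁ P))
    (c13 : ∀ P, σ₁ (σ₃ P) = σ₃ (σ₁ P)) (c23 : ∀ P, σ₂ (σ₃ P) = σ₃ (σ₂ P)) (ρ : α → ℝ)
    (h0 : ∀ P, 0 < ρ P) : ∃ ρ' : α → ℝ, (∀ P, 0 < ρ' P) ∧ (∀ P, ρ' P ≤ ρ P) ∧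
      (∀ P, ρ' (σ₁ P) = ρ' P) ∧ (∀ P, ρ' (σ₂ P) = ρ' P) ∧ ∀ P, ρ' (σ₃ P) = ρ' P := by
  obtain ⟨a, a1, a2, a3, _⟩ := exists_min σ₁ h1 ρ h0
  obtain ⟨b, b1, b2, b3, b4⟩ := exists_min σ₂ h2 a a1
  obtain ⟨c, d1, d2, d3, d4⟩ := exists_min σ₃ h3 b b1
  have e1 := b4 σ₁ (fun P => (c12 P).symm) a3
  exact ⟨c, d1, fun P => (d2 P).trans ((b2 P).trans (a2 P)),
    d4 σ₁ (fun P => (c13 P).symm) e1, d4 σ₂ (fun P => (c23 P).symm) b3, d3⟩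

/-- The analytic structure with invariant radii for three commuting involutions. -/
theorem LocSt.exists_an {X : CurveP lam K} (S : LocSt X) (hS : SepL X.toOrd) (hU : Unif X.toOrd)
    (δ₁ δ₂ δ₃ : Deck X) (c12 : δ₁.Comm δ₂) (c13 : δ₁.Comm δ₃) (c23 : δ₂.Comm δ₃) :
    ∃ An : AnCurve X.toOrd, An.fn = S.fn ∧ An.c = S.c ∧ An.Equiv δ₁.θ δ₁.σ ∧
      An.Equiv δ₂.θ δ₂.σ ∧ An.Equiv δ₃.θ δ₃.σ := by
  choose ε h1 h2 h3 using S.exists_inj hU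
  obtain ⟨ρ, r0, r1, e1, e2, e3⟩ := exists_min₃ δ₁.σ δ₂.σ δ₃.σ δ₁.σσ δ₂.σσ δ₃.σσ c12.σ c13.σ c23.σ
    ε h1
  have hle : ∀ P, ρ P ≤ S.r P := fun P => (r1 P).trans (h2 P)
  have hinj : ∀ P, InjOn (S.c P) (ball 0 (ρ P)) := fun P =>
    (h3 P).mono (ball_subset_ball (r1 P))
  exact ⟨S.toAn hS ρ r0 hle hinj, rfl, rfl, S.toAn_equiv hS ρ r0 hle hinj δ₁ e1,
    S.toAn_equiv hS ρ r0 hle hinj δ₂ e2, S.toAn_equiv hS ρ r0 hle hinj δ₃ e3⟩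

end

end Pool.Agent.YTDA
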