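import Pool.Agent.YTDA.LocDiff
import Pool.Agent.YTDA.LocRR

/-!
Existence of the data `(C, S, S')` with the group `Γ`, an analytic structure and a differential.
-/

namespace Pool.Agent.YTDA

open Set Topology Metric Filter Polynomial
open Pool.Agent.YTD Pool.Agent.YTD.Hyp

noncomputable section

section sheets

variable {F : Type} [Field F] [Algebra ℂ F] {Λ : LF F}
variable {f : ℂ[X]} [NonSq f] (G : Good f) {a₁ a₂ a₃ : ℂ} [NonSqK (hh₁ f a₁)]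
  [NonSqK (hh₂ f a₁ a₂)] [NonSqK (hh₃ f a₁ a₂ a₃)]
  (h1 : f.eval a₁ = 0) (h2 : f.eval a₂ = 0) (h3 : f.eval a₃ = 0)

/-- The sheets over a prescribed set of points of the base. -/
theorem exists_sheets_over (B : Finset (Pts f)) :
    ∃ S S' : Finset (X₃ G h1 h2 h3 Λ).Pt, S.card = 4 * B.card ∧
    S'.card = 4 * B.card ∧ Disjoint S S' ∧
    (∀ x, x ∈ S ↔ (dk₃ G h1 h2 h3).σ x ∈ S') ∧
    (∀ x, x ∈ S ↔ (dk₁ G h1 h2 h3).σ x ∈ S) ∧ (∀ x, x ∈ S ↔ (dk₂ G h1 h2 h3).σ x ∈ S) ∧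
    (∀ x, x ∈ S' ↔ (dk₁ G h1 h2 h3).σ x ∈ S') ∧ (∀ x, x ∈ S' ↔ (dk₂ G h1 h2 h3).σ x ∈ S') ∧
    (∀ x ∈ S, base G h1 h2 h3 x ∈ B) ∧ (∀ x ∈ S', base G h1 h2 h3 x ∈ B) := by
  classical
  have hr : ∀ P : Pts f, ∃ r : F, r ^ 2 = (parAt Λ G.ne P).phi (emb (X - C a₃)) := by
    intro P
    have e1 : (parAt Λ G.ne P).phi (emb (X - C a₃) : KK f) ≠ 0 :=
      Pool.Agent.YTD.Hyp.phi_ne _ (emb_ne (X_sub_C_ne_zero a₃))
    obtain ⟨b, hb⟩ := IsAlgClosed.exists_pow_nat_eq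
      (Λ.lc ((parAt Λ G.ne P).phi (emb (X - C a₃)))) (n := 2) (by norm_num)
    obtain ⟨η, h1, _⟩ := Λ.sqrt e1 (even_emb G h3 P) b hb
    exact ⟨η, h1⟩
  choose r hr using hr
  have hphi : ∀ P : (X₂ G h1 h2 Λ).Pt, (X₂ G h1 h2 Λ).phi P (hh₃ f a₁ a₂ a₃) =
      (parAt Λ G.ne P.1.1.1.1).phi (emb (X - C a₃)) := by
    intro P
    show dphi P (hh₃ f a₁ a₂ a₃) = _
    rw [dphi_alg]
    show dphi P.1.1 _ = _
    rw [dphi_alg]
  let A := pre (ev₂ (Λ := Λ) G h1 h2) (pre (ev₁ G h1) B)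
  have hA : A.card = 4 * B.card := by
    show (pre (ev₂ (Λ := Λ) G h1 h2) (pre (ev₁ G h1) B)).card = _
    rw [card_pre, card_pre]
    ring
  have mA : ∀ P, P ∈ A ↔ P.1.1.1.1 ∈ B := by
    intro P
    show P ∈ pre (ev₂ (Λ := Λ) G h1 h2) (pre (ev₁ G h1) B) ↔ _
    rw [mem_pre, mem_pre]
  obtain ⟨S, hS, mS⟩ := exists_sheet (X := X₂ G h1 h2 Λ) (h := hh₃ f a₁ a₂ a₃) A
    (fun P => r P.1.1.1.1) (fun P => by rw [hr, hphi])
  obtain ⟨S', hS', mS'⟩ := exists_sheet (X := X₂ G h1 h2 Λ) (h := hh₃ f a₁ a₂ a₃) A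
    (fun P => - r P.1.1.1.1) (fun P => by rw [neg_sq, hr, hphi])
  refine ⟨S, S', by rw [hS, hA], by rw [hS', hA], ?_, ?_, ?_, ?_, ?_, ?_, ?_, ?_⟩
  · rw [Finset.disjoint_left]
    intro x hx hx'
    have e1 := ((mS x).1 hx).2
    have e2 := ((mS' x).1 hx').2
    simp only at e1 e2
    rw [e1] at e2
    haveI := charZero_of_alg F
    have e3 : r x.1.1.1.1.1.1 = 0 := self_eq_neg.1 e2
    exact eta_ne x (by rw [e1, e3])
  · intro x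
    rw [mS, mS', mA, mA]
    show _ ↔ (x.1.1.1.1.1.1 ∈ B ∧ - x.1.2 = - r x.1.1.1.1.1.1)
    rw [neg_inj]
  · intro x
    rw [mS, mS, mA, mA]
    exact Iff.rfl
  · intro x
    rw [mS, mS, mA, mA]
    exact Iff.rfl
  · intro x
    rw [mS', mS', mA, mA]
    exact Iff.rfl
  · intro x
    rw [mS', mS', mA, mA]
    exact Iff.rfl
  · intro x hx
    exact (mA _).1 ((mS x).1 hx).1
  · intro x hx
    exact (mA _).1 ((mS' x).1 hx).1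

end sheets

section final

variable {f : ℂ[X]} [NonSq f] (G : Good f) {a₁ a₂ a₃ : ℂ} [NonSqK (hh₁ f a₁)]
  [NonSqK (hh₂ f a₁ a₂)] [NonSqK (hh₃ f a₁ a₂ a₃)]
  (h1 : f.eval a₁ = 0) (h2 : f.eval a₂ = 0) (h3 : f.eval a₃ = 0)

/-- parametrisations of the third cover -/
def loc₃ (B : LocSt (baseP lam G)) : LocSt (X₃ G h1 h2 h3 lam) :=
  ((B.dbl (ev₁ G h1)).dbl (ev₂ G h1 h2)).dbl (ev₃ G h1 h2 h3)

include G h1 h2 h3 in
theorem exists_gam_an (L : LocSt (baseP lam G)) {g : ℕ} (hg : f.natDegree = 2 * g + 1) {s : ℕ}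
    (hs : 0 < s) (hgs : g = 9 * s + 1) :
    ∃ (T : Datum (DK (hh₃ f a₁ a₂ a₃))) (γ : Gam T) (An : AnCurve T.X.toCurveOrd),
      T.t = 8 * s ∧ An.Equiv γ.θ γ.σ ∧ An.Equiv γ.θ₁ γ.σ₁ ∧ An.Equiv γ.θ₂ γ.σ₂ ∧
      ∃ (x₀ : DK (hh₃ f a₁ a₂ a₃)) (d : T.X.Pt →₀ ℤ),
        (∀ P, meromorphicOrderAt (deriv (An.fn P x₀)) 0 = ((d P : ℤ) : WithTop ℤ)) ∧
        T.X.deg d = 2 * T.X.genus - 2 ∧ (∀ P ∈ T.S, d P = 0) ∧ (∀ P ∈ T.S', d P = 0) := by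
  classical
  have hg0 : 0 < g := by omega
  haveI := infinite_pts f
  obtain ⟨B, hB1, hB2⟩ := ((dd_finite G).infinite_compl).exists_subset_card_eq (200 * s)
  obtain ⟨S, S', cS, cS', hd, i0, i1, i2, j1, j2, k1, k2⟩ :=
    exists_sheets_over (Λ := lam) G h1 h2 h3 B
  rw [hB2] at cS cS'
  let T : Datum (DK (hh₃ f a₁ a₂ a₃)) :=
    { X := X₃C G h1 h2 h3 lam hg hg0
      t := 8 * s
      t_pos := by omega
      genus_eq := by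
        show 8 * g - 7 = 9 * (8 * s) + 1
        omega
      S := S
      S' := S'
      card_S := cS.trans (by ring)
      card_S' := cS'.trans (by ring)
      disj := hd }
  have key1 : ∀ x y : (X₃ G h1 h2 h3 lam).Pt, y.1.1.1.1 = dneg x.1.1.1.1 → y ≠ x := by
    intro x y hxy hyx
    rw [hyx] at hxy
    haveI := charZero_of_alg Germ
    exact dneg_ne _ hxy.symm
  have key2 : ∀ x y : (X₃ G h1 h2 h3 lam).Pt, y.1.1 = dneg x.1.1 → y ≠ x := by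
    intro x y hxy hyx
    rw [hyx] at hxy
    haveI := charZero_of_alg Germ
    exact dneg_ne _ hxy.symm
  have key3 : ∀ x : (X₃ G h1 h2 h3 lam).Pt, dneg x ≠ x := by
    intro x
    haveI := charZero_of_alg Germ
    exact dneg_ne x
  have c₁₂ := comm₁₂ (Λ := lam) G h1 h2 h3
  have c₁₃ := comm₁₃ (Λ := lam) G h1 h2 h3
  have c₂₃ := comm₂₃ (Λ := lam) G h1 h2 h3
  let γ : Gam T :=
    { θ := (dk₃ (Λ := lam) G h1 h2 h3).θ
      σ := (dk₃ (Λ := lam) G h1 h2 h3).σ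
      θθ := (dk₃ (Λ := lam) G h1 h2 h3).θθ
      σσ := (dk₃ (Λ := lam) G h1 h2 h3).σσ
      free := fun P => key3 P
      ord_σ := fun P z _ => (dk₃ (Λ := lam) G h1 h2 h3).ord_comp P z
      S_iff := i0
      θ₁ := (dk₁ (Λ := lam) G h1 h2 h3).θ
      θ₂ := (dk₂ (Λ := lam) G h1 h2 h3).θ
      σ₁ := (dk₁ (Λ := lam) G h1 h2 h3).σ
      σ₂ := (dk₂ (Λ := lam) G h1 h2 h3).σ
      θθ₁ := (dk₁ (Λ := lam) G h1 h2 h3).θθ
      θθ₂ := (dk₂ (Λ := lam) G h1 h2 h3).θθ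
      σσ₁ := (dk₁ (Λ := lam) G h1 h2 h3).σσ
      σσ₂ := (dk₂ (Λ := lam) G h1 h2 h3).σσ
      ord_σ₁ := fun P z _ => (dk₁ (Λ := lam) G h1 h2 h3).ord_comp P z
      ord_σ₂ := fun P z _ => (dk₂ (Λ := lam) G h1 h2 h3).ord_comp P z
      S_iff₁ := i1
      S_iff₂ := i2
      S'_iff₁ := j1
      S'_iff₂ := j2
      comm₁₂ := c₁₂.θ
      comm₁ := c₁₃.symm.θ
      comm₂ := c₂₃.symm.θ
      σcomm₁₂ := c₁₂.σ
      σcomm₁ := c₁₃.symm.σ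
      σcomm₂ := c₂₃.symm.σ
      free₁ := fun P => key1 P _ rfl
      free₂ := fun P => key2 P _ rfl
      free₁₂ := fun P => key1 P _ rfl
      free₀₁ := fun P => key1 P _ rfl
      free₀₂ := fun P => key2 P _ rfl
      free₀₁₂ := fun P => key1 P _ rfl }
  obtain ⟨An, hfn, _, e1, e2, e3⟩ := (loc₃ G h1 h2 h3 L).exists_an
    (sep_curve (X₃C G h1 h2 h3 lam hg hg0)) (unif_curve (X₃C G h1 h2 h3 lam hg hg0))
    (dk₁ G h1 h2 h3) (dk₂ G h1 h2 h3) (dk₃ G h1 h2 h3) c₁₂ c₁₃ c₂₃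
  refine ⟨T, γ, An, rfl, e3, e1, e2, xx, d₃ G h1 h2 h3, ?_, ?_, ?_, ?_⟩
  · intro P
    rw [hfn]
    exact order_d₃ G h1 h2 h3 (loc₃ G h1 h2 h3 L) P
  · have e4 := deg_d₃ G h1 h2 h3 hg
    have e5 : (((8 * g - 7 : ℕ) : ℤ)) = 8 * g - 7 := by omega
    show (X₃ G h1 h2 h3 lam).toOrd.deg (d₃ G h1 h2 h3) = 2 * ((8 * g - 7 : ℕ) : ℤ) - 2
    rw [e4, e5]
    ring
  · intro P hP
    have h4 := hB1 (k1 P hP)
    have h5 : ddL (base G h1 h2 h3 P) = 0 := by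
      by_contra h6
      exact h4 h6
    exact h5
  · intro P hP
    have h4 := hB1 (k2 P hP)
    have h5 : ddL (base G h1 h2 h3 P) = 0 := by
      by_contra h6
      exact h4 h6
    exact h5

end final

/-- Final statement, modulo the parametrisations of the base curve. -/
theorem exists_an_of (hL : ∀ (f : ℂ[X]) (_ : NonSq f) (G : Good f), Nonempty (LocSt (baseP lam G)))
    (s : ℕ) (hs : 0 < s) : ∃ (K : Type) (_ : Field K) (_ : Algebra ℂ K) (T : Datum K) (γ : Gam T)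
      (An : AnCurve T.X.toCurveOrd), T.t = 8 * s ∧ An.Equiv γ.θ γ.σ ∧ An.Equiv γ.θ₁ γ.σ₁ ∧
      An.Equiv γ.θ₂ γ.σ₂ ∧ ∃ (x₀ : K) (d : T.X.Pt →₀ ℤ),
        (∀ P, meromorphicOrderAt (deriv (An.fn P x₀)) 0 = ((d P : ℤ) : WithTop ℤ)) ∧
        T.X.deg d = 2 * T.X.genus - 2 ∧ (∀ P ∈ T.S, d P = 0) ∧ (∀ P ∈ T.S', d P = 0) := by
  have G := good_fg (9 * s + 1)
  haveI : NonSq (fg (9 * s + 1)) := G.nonSq
  obtain ⟨a₁, a₂, a₃, b, h1, h2, h3, hb, h12, h13, h23, h1b, h2b, h3b⟩ :=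
    exists_roots (9 * s + 1) (by omega)
  haveI i1 : NonSqK (hh₁ (fg (9 * s + 1)) a₁) := ns₁ lam G hb h1b
  haveI i2 : NonSqK (hh₂ (fg (9 * s + 1)) a₁ a₂) := NonSqK.mk' (ns₂ lam G hb h12 h1b h2b)
  haveI i3 : NonSqK (hh₃ (fg (9 * s + 1)) a₁ a₂ a₃) :=
    NonSqK.mk' (ns₃ lam G hb h12 h13 h23 h1b h2b h3b)
  obtain ⟨L⟩ := hL _ inferInstance G
  obtain ⟨T, γ, An, h⟩ := exists_gam_an G h1 h2 h3 L (natDegree_fg _) hs rfl
  exact ⟨DK (hh₃ (fg (9 * s + 1)) a₁ a₂ a₃), inferInstance, inferInstance, T, γ, An, h⟩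

end

end Pool.Agent.YTDA
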