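import Pool.Agent.YTDA.LocFin
import Pool.Agent.YTDA.LocBase

/-!
Existence of the data `(C, S, S')` with the group `Γ`, an analytic structure and a differential.
-/

namespace Pool.Agent.YTDA

open Pool.Agent.YTD Pool.Agent.YTD.Hyp

theorem exists_an (s : ℕ) (hs : 0 < s) :
    ∃ (K : Type) (_ : Field K) (_ : Algebra ℂ K) (T : Datum K) (γ : Gam T)
      (An : AnCurve T.X.toCurveOrd), T.t = 8 * s ∧ An.Equiv γ.θ γ.σ ∧ An.Equiv γ.θ₁ γ.σ₁ ∧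
      An.Equiv γ.θ₂ γ.σ₂ ∧ ∃ (x₀ : K) (d : T.X.Pt →₀ ℤ),
        (∀ P, meromorphicOrderAt (deriv (An.fn P x₀)) 0 = ((d P : ℤ) : WithTop ℤ)) ∧
        T.X.deg d = 2 * T.X.genus - 2 ∧ (∀ P ∈ T.S, d P = 0) ∧ (∀ P ∈ T.S', d P = 0) :=
  exists_an_of (fun _ _ G => ⟨baseLoc G⟩) s hs

end Pool.Agent.YTDA
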