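import Pool.Agent.YTDA.Defs

/-!
# T13(a): integrals with simple poles in one chart
-/

namespace Pool.Agent.YTDA

open Complex Set Topology ContDiff MeasureTheory Real

noncomputable section

/-! ## One variable -/

/-- polar coordinates -/
theorem integral_polar (f : ℂ → ℂ) :
    ∫ z, f z = ∫ p in Ioi (0 : ℝ) ×ˢ Ioo (-π) π, (p.1 : ℂ) * f (p.1 * exp (p.2 * I)) := by
  rw [← Complex.integral_comp_polarCoord_symm]
  rw [show polarCoord.target = Ioi (0 : ℝ) ×ˢ Ioo (-π) π from rfl]
  congr 1
  ext p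
  rw [Complex.polarCoord_symm_apply, exp_mul_I, Complex.real_smul]
  simp

theorem lintegral_polar (f : ℂ → ENNReal) :
    ∫⁻ z, f z = ∫⁻ p in Ioi (0 : ℝ) ×ˢ Ioo (-π) π,
      ENNReal.ofReal p.1 * f (p.1 * exp (p.2 * I)) := by
  rw [← Complex.lintegral_comp_polarCoord_symm]
  rw [show polarCoord.target = Ioi (0 : ℝ) ×ˢ Ioo (-π) π from rfl]
  congr 1
  ext p
  rw [Complex.polarCoord_symm_apply, exp_mul_I]
  simp

/-- a function with compact support vanishes outside a ball -/
theorem exists_radius {V : Type*} [NormedAddCommGroup V] {F : Type*} [Zero F] {f : V → F}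
    (hf : HasCompactSupport f) : ∃ R : ℝ, 0 < R ∧ ∀ x, R ≤ ‖x‖ → f x = 0 := by
  obtain ⟨R, hR⟩ := hf.isBounded.subset_ball (0 : V)
  refine ⟨max R 1, lt_max_of_lt_right one_pos, fun x hx => ?_⟩
  by_contra h
  have h1 := hR (subset_tsupport f h)
  rw [mem_ball_zero_iff] at h1
  exact absurd (le_trans (le_max_left R 1) hx) (not_le.2 h1)

/-- the integral of `1/|z|` over a disc is finite -/
theorem integrable_inv_disc (R : ℝ) :
    Integrable (fun z : ℂ => (Metric.ball (0 : ℂ) R).indicator (fun z => ‖z‖⁻¹) z) := by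
  refine ⟨?_, ?_⟩
  · exact ((measurable_norm.inv).indicator measurableSet_ball).aestronglyMeasurable
  · rw [HasFiniteIntegral, lintegral_polar]
    have h1 : ∀ p ∈ Ioi (0 : ℝ) ×ˢ Ioo (-π) π,
        ENNReal.ofReal p.1 * ‖(Metric.ball (0 : ℂ) R).indicator (fun z => ‖z‖⁻¹)
          (p.1 * exp (p.2 * I))‖ₑ ≤ (Ioo (0 : ℝ) R ×ˢ Ioo (-π) π).indicator (fun _ => 1) p := by
      rintro ⟨r, θ⟩ ⟨hr, hθ⟩
      simp only [mem_Ioi] at hr
      by_cases h : r < R
      · have h2 : (r, θ) ∈ Ioo (0 : ℝ) R ×ˢ Ioo (-π) π := ⟨⟨hr, h⟩, hθ⟩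
        have h3 : (r : ℂ) * exp (θ * I) ∈ Metric.ball (0 : ℂ) R := by
          rw [mem_ball_zero_iff, norm_mul, norm_exp_ofReal_mul_I, mul_one, Complex.norm_real,
            Real.norm_eq_abs, abs_of_pos hr]
          exact h
        rw [indicator_of_mem h2, indicator_of_mem h3, norm_mul, norm_exp_ofReal_mul_I, mul_one,
          Complex.norm_real, Real.norm_eq_abs, abs_of_pos hr, Real.enorm_eq_ofReal (by positivity),
          ← ENNReal.ofReal_mul hr.le, mul_inv_cancel₀ hr.ne']
        simp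
      · have h3 : (r : ℂ) * exp (θ * I) ∉ Metric.ball (0 : ℂ) R := by
          rw [mem_ball_zero_iff, norm_mul, norm_exp_ofReal_mul_I, mul_one, Complex.norm_real,
            Real.norm_eq_abs, abs_of_pos hr]
          exact h
        rw [indicator_of_notMem h3]
        simp
    refine lt_of_le_of_lt (setLIntegral_mono' (measurableSet_Ioi.prod measurableSet_Ioo) h1) ?_
    refine lt_of_le_of_lt (setLIntegral_le_lintegral _ _) ?_
    rw [lintegral_indicator (measurableSet_Ioo.prod measurableSet_Ioo), lintegral_const, one_mul,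
      Measure.restrict_apply_univ, Measure.volume_eq_prod, Measure.prod_prod, Real.volume_Ioo,
      Real.volume_Ioo]
    exact ENNReal.mul_lt_top ENNReal.ofReal_lt_top ENNReal.ofReal_lt_top

/-- `1/|z|` is locally integrable -/
theorem integrable_bound_one {K : ℂ → ℂ} (hK : Measurable K) {C R : ℝ} (hC : ∀ z, ‖K z‖ ≤ C)
    (hR : ∀ z, R ≤ ‖z‖ → K z = 0) (L : ℂ → ℂ) (hL : Measurable L) (hLn : ∀ z, ‖L z‖ = ‖z‖) :
    Integrable (fun z => K z / L z) := by
  refine ((integrable_inv_disc R).const_mul C).mono' (hK.div hL).aestronglyMeasurable ?_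
  refine Filter.Eventually.of_forall fun z => ?_
  by_cases h : ‖z‖ < R
  · have h3 : z ∈ Metric.ball (0 : ℂ) R := mem_ball_zero_iff.2 h
    rw [indicator_of_mem h3, norm_div, hLn, div_eq_mul_inv]
    exact mul_le_mul_of_nonneg_right (hC z) (by positivity)
  · have h3 : z ∉ Metric.ball (0 : ℂ) R := fun h' => h (mem_ball_zero_iff.1 h')
    rw [indicator_of_notMem h3, hR z (not_lt.1 h)]
    simp

theorem integrable_div_one {K : ℂ → ℂ} (hK : Continuous K) (hc : HasCompactSupport K) :
    Integrable (fun z => K z / (starRingEnd ℂ) z) := by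
  obtain ⟨C, hC⟩ := hc.exists_bound_of_continuous hK
  obtain ⟨R, _, hR⟩ := exists_radius hc
  exact integrable_bound_one hK.measurable hC hR _ continuous_conj.measurable
    (fun z => RCLike.norm_conj z)

/-- The fundamental formula. -/
theorem integral_dz_div_one (w : ℂ → ℂ) (hw : ContDiff ℝ 1 w) (hc : HasCompactSupport w) :
    ∫ z : ℂ, ((fderiv ℝ w z 1 - I * fderiv ℝ w z I) / 2) / (starRingEnd ℂ) z = - π * w 0 := by
  have hD : Continuous (fderiv ℝ w) := hw.continuous_fderiv one_ne_zero
  have hDc : HasCompactSupport (fderiv ℝ w) := hc.fderiv ℝ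
  obtain ⟨R, hR0, hR⟩ := exists_radius hDc
  obtain ⟨R', hR0', hR'⟩ := exists_radius hc
  set e : ℝ → ℂ := fun θ => exp (θ * I) with he
  have hecont : Continuous e := by fun_prop
  set G1 : ℝ × ℝ → ℂ := fun p => fderiv ℝ w (p.1 * e p.2) (e p.2) with hG1
  set G2 : ℝ × ℝ → ℂ := fun p => fderiv ℝ w (p.1 * e p.2) (I * e p.2) with hG2
  have hG1c : Continuous G1 := by
    have h1 : Continuous fun p : ℝ × ℝ => ((p.1 : ℂ) * e p.2) := by fun_prop
    exact (hD.comp h1).clm_apply (by fun_prop)
  have hG2c : Continuous G2 := by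
    have h1 : Continuous fun p : ℝ × ℝ => ((p.1 : ℂ) * e p.2) := by fun_prop
    exact (hD.comp h1).clm_apply (by fun_prop)
  have hnorm : ∀ r θ : ℝ, 0 < r → ‖(r : ℂ) * e θ‖ = r := by
    intro r θ hr
    rw [he]
    simp only
    rw [norm_mul, norm_exp_ofReal_mul_I, mul_one, Complex.norm_real, Real.norm_eq_abs,
      abs_of_pos hr]
  have hint : ∀ G : ℝ × ℝ → ℂ, Continuous G → (∀ p : ℝ × ℝ, R ≤ p.1 → G p = 0) →
      IntegrableOn G (Ioi (0 : ℝ) ×ˢ Ioo (-π) π) := by
    intro G hG hG0
    have h1 : IntegrableOn G (Icc (0 : ℝ) R ×ˢ Icc (-π) π) :=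
      hG.continuousOn.integrableOn_compact (isCompact_Icc.prod isCompact_Icc)
    have h2 : IntegrableOn G (Ioi (R : ℝ) ×ˢ Ioo (-π) π) := by
      refine IntegrableOn.congr_fun (f := fun _ => 0) (by simp) ?_
        (measurableSet_Ioi.prod measurableSet_Ioo)
      rintro p ⟨hp, -⟩
      exact (hG0 p (le_of_lt hp)).symm
    refine (h1.union h2).mono_set ?_
    rintro ⟨r, θ⟩ ⟨hr, hθ⟩
    simp only [mem_Ioi] at hr
    rcases le_or_gt r R with h | h
    · exact Or.inl ⟨⟨hr.le, h⟩, ⟨hθ.1.le, hθ.2.le⟩⟩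
    · exact Or.inr ⟨h, hθ⟩
  have hI1 : IntegrableOn G1 (Ioi (0 : ℝ) ×ˢ Ioo (-π) π) := hint G1 hG1c (by
    intro p hp
    rw [hG1]
    simp only
    rw [hR _ (by rw [hnorm _ _ (lt_of_lt_of_le hR0 hp)]; exact hp)]
    rfl)
  have hI2 : IntegrableOn G2 (Ioi (0 : ℝ) ×ˢ Ioo (-π) π) := hint G2 hG2c (by
    intro p hp
    rw [hG2]
    simp only
    rw [hR _ (by rw [hnorm _ _ (lt_of_lt_of_le hR0 hp)]; exact hp)]
    rfl)
  -- the integrand in polar coordinates
  have hkey : ∀ p ∈ Ioi (0 : ℝ) ×ˢ Ioo (-π) π,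
      (p.1 : ℂ) * (((fderiv ℝ w (p.1 * exp (p.2 * I)) 1
        - I * fderiv ℝ w (p.1 * exp (p.2 * I)) I) / 2) /
        (starRingEnd ℂ) (p.1 * exp (p.2 * I))) = (G1 p - I * G2 p) / 2 := by
    rintro ⟨r, θ⟩ ⟨hr, -⟩
    simp only [mem_Ioi] at hr
    have hr' : (r : ℂ) ≠ 0 := by exact_mod_cast hr.ne'
    have hconj : (starRingEnd ℂ) (exp (θ * I)) * exp (θ * I) = 1 := by
      rw [← exp_conj, ← Complex.exp_add]
      simp
    have hexp : exp (θ * I) ≠ 0 := exp_ne_zero _
    have hconj0 : (starRingEnd ℂ) (exp (θ * I)) ≠ 0 := by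
      intro h
      rw [h, zero_mul] at hconj
      exact zero_ne_one hconj
    rw [hG1, hG2, he]
    simp only
    set z : ℂ := r * exp (θ * I) with hz
    have hx : exp (θ * I) = (Real.cos θ : ℝ) • (1 : ℂ) + (Real.sin θ : ℝ) • I := by
      rw [exp_mul_I]
      simp
    have hy : I * exp (θ * I) = (-Real.sin θ : ℝ) • (1 : ℂ) + (Real.cos θ : ℝ) • I := by
      rw [exp_mul_I]
      simp only [Complex.real_smul, ofReal_neg, ofReal_sin, ofReal_cos, mul_one]
      linear_combination (sin (θ : ℂ)) * I_mul_I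
    have e1 : fderiv ℝ w z (exp (θ * I)) =
        (Real.cos θ : ℂ) * fderiv ℝ w z 1 + (Real.sin θ : ℂ) * fderiv ℝ w z I := by
      rw [hx, map_add, map_smul, map_smul, Complex.real_smul, Complex.real_smul]
    have e2 : fderiv ℝ w z (I * exp (θ * I)) =
        (-Real.sin θ : ℂ) * fderiv ℝ w z 1 + (Real.cos θ : ℂ) * fderiv ℝ w z I := by
      rw [hy, map_add, map_smul, map_smul, Complex.real_smul, Complex.real_smul, ofReal_neg]
    rw [e1, e2, hz, map_mul, conj_ofReal]
    have hinv : ((starRingEnd ℂ) (exp (θ * I)))⁻¹ = Real.cos θ + Real.sin θ * I := by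
      rw [inv_eq_of_mul_eq_one_right hconj, exp_mul_I]
      simp
    rw [mul_div_assoc', div_mul_eq_div_div, mul_div_cancel_left₀ _ hr', div_eq_mul_inv _
      ((starRingEnd ℂ) (exp (θ * I))), hinv]
    linear_combination (-(Real.sin θ : ℂ) * fderiv ℝ w (↑r * exp (↑θ * I)) I / 2) * I_mul_I
  rw [integral_polar, setIntegral_congr_fun (measurableSet_Ioi.prod measurableSet_Ioo) hkey]
  have hsplit : ∫ p in Ioi (0 : ℝ) ×ˢ Ioo (-π) π, (G1 p - I * G2 p) / 2 =
      ((∫ p in Ioi (0 : ℝ) ×ˢ Ioo (-π) π, G1 p) - I * ∫ p in Ioi (0 : ℝ) ×ˢ Ioo (-π) π, G2 p)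
        / 2 := by
    rw [integral_div, integral_sub hI1 (hI2.const_mul I), integral_const_mul]
  rw [hsplit]
  have hint1 : ∫ p in Ioi (0 : ℝ) ×ˢ Ioo (-π) π, G1 p = - (2 * π) * w 0 := by
    rw [Measure.volume_eq_prod, ← Measure.prod_restrict]
    rw [IntegrableOn, Measure.volume_eq_prod, ← Measure.prod_restrict] at hI1
    rw [integral_prod_symm _ hI1]
    have h1 : ∀ θ ∈ Ioo (-π) π, ∫ r in Ioi (0 : ℝ), G1 (r, θ) = - w 0 := by
      intro θ _
      have hder : ∀ r ∈ Ici (0 : ℝ), HasDerivAt (fun r : ℝ => w (r * e θ)) (G1 (r, θ)) r := by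
        intro r _
        have h1 : HasDerivAt (fun r : ℝ => (r : ℂ) * e θ) (e θ) r := by
          simpa using (Complex.ofRealCLM.hasDerivAt (x := r)).mul_const (e θ)
        exact ((hw.differentiable one_ne_zero _).hasFDerivAt).comp_hasDerivAt r h1
      have hcont' : Continuous fun r : ℝ => G1 (r, θ) := by fun_prop
      have hint' : IntegrableOn (fun r : ℝ => G1 (r, θ)) (Ioi 0) := by
        have h1 : IntegrableOn (fun r : ℝ => G1 (r, θ)) (Icc (0 : ℝ) R) :=
          hcont'.continuousOn.integrableOn_compact isCompact_Icc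
        have h2 : IntegrableOn (fun r : ℝ => G1 (r, θ)) (Ioi (R : ℝ)) := by
          refine IntegrableOn.congr_fun (f := fun _ => 0) (by simp) ?_ measurableSet_Ioi
          intro r hr
          show 0 = fderiv ℝ w (r * e θ) (e θ)
          have hr' : R < r := hr
          rw [hR _ (by rw [hnorm _ _ (hR0.trans hr')]; exact hr'.le)]
          rfl
        refine (h1.union h2).mono_set ?_
        intro r hr
        rcases le_or_gt r R with h | h
        · exact Or.inl ⟨le_of_lt hr, h⟩
        · exact Or.inr h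
      have htend : Filter.Tendsto (fun r : ℝ => w (r * e θ)) Filter.atTop (𝓝 0) := by
        refine tendsto_const_nhds.congr' ?_
        filter_upwards [Filter.eventually_ge_atTop R'] with r hr
        exact (hR' _ (by rw [hnorm _ _ (lt_of_lt_of_le hR0' hr)]; exact hr)).symm
      rw [integral_Ioi_of_hasDerivAt_of_tendsto' hder hint' htend]
      simp
    rw [setIntegral_congr_fun measurableSet_Ioo h1, setIntegral_const, Measure.real,
      Real.volume_Ioo, ENNReal.toReal_ofReal (by linarith [Real.pi_pos]), Complex.real_smul]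
    push_cast
    ring
  have hint2 : ∫ p in Ioi (0 : ℝ) ×ˢ Ioo (-π) π, G2 p = 0 := by
    rw [Measure.volume_eq_prod, ← Measure.prod_restrict]
    rw [IntegrableOn, Measure.volume_eq_prod, ← Measure.prod_restrict] at hI2
    rw [integral_prod _ hI2]
    have h1 : ∀ r ∈ Ioi (0 : ℝ), ∫ θ in Ioo (-π) π, G2 (r, θ) = 0 := by
      intro r hr
      have hr' : (r : ℂ) ≠ 0 := by exact_mod_cast (ne_of_gt hr)
      have hder : ∀ θ : ℝ, HasDerivAt (fun θ : ℝ => w (r * e θ)) (r * G2 (r, θ)) θ := by
        intro θ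
        have h1 : HasDerivAt (fun θ : ℝ => (r : ℂ) * e θ) ((r : ℂ) * (I * e θ)) θ := by
          have h2 : HasDerivAt e (e θ * (1 * I)) θ :=
            ((Complex.ofRealCLM.hasDerivAt (x := θ)).mul_const I).cexp
          have h3 := h2.const_mul (r : ℂ)
          rwa [one_mul, mul_comm (e θ) I] at h3
        have h4 := ((hw.differentiable one_ne_zero (r * e θ)).hasFDerivAt).comp_hasDerivAt θ h1
        have h5 : fderiv ℝ w (r * e θ) ((r : ℂ) * (I * e θ)) = r * G2 (r, θ) := by
          have h7 : (r : ℂ) * (I * e θ) = r • (I * e θ) := Complex.real_smul.symm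
          rw [h7, map_smul, Complex.real_smul]
        rw [← h5]
        exact h4
      have hcont' : Continuous fun θ : ℝ => (r : ℂ) * G2 (r, θ) := by fun_prop
      have h6 : ∫ θ in (-π)..π, (r : ℂ) * G2 (r, θ) = 0 := by
        rw [intervalIntegral.integral_eq_sub_of_hasDerivAt (fun θ _ => hder θ)
          (hcont'.intervalIntegrable _ _)]
        have : e π = e (-π) := by
          rw [he]
          simp only [ofReal_neg, neg_mul, Complex.exp_neg, exp_pi_mul_I]
          norm_num
        rw [this, sub_self]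
      rw [intervalIntegral.integral_const_mul, intervalIntegral.integral_of_le
        (by linarith [Real.pi_pos]), integral_Ioc_eq_integral_Ioo] at h6
      rcases mul_eq_zero.1 h6 with h | h
      · exact absurd h hr'
      · exact h
    rw [setIntegral_congr_fun measurableSet_Ioi h1]
    simp
  rw [hint1, hint2]
  ring

theorem integral_fderiv_zero {V : Type*} [NormedAddCommGroup V] [NormedSpace ℝ V]
    [FiniteDimensional ℝ V] [MeasurableSpace V] [BorelSpace V] (μ : Measure V)
    [μ.IsAddHaarMeasure] {w : V → ℂ} (hw : ContDiff ℝ 1 w) (hc : HasCompactSupport w) (v : V) :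
    ∫ z, fderiv ℝ w z v ∂μ = 0 := by
  have h := integral_mul_fderiv_eq_neg_fderiv_mul_of_integrable (μ := μ) (f := fun _ : V => (1 : ℂ))
    (g := w) (v := v) (by simp) (by
      simp only [one_mul]
      refine Continuous.integrable_of_hasCompactSupport
        ((hw.continuous_fderiv one_ne_zero).clm_apply continuous_const) ?_
      exact (hc.fderiv ℝ).comp_left (g := fun L : V →L[ℝ] ℂ => L v) rfl) (by
      simp only [one_mul]
      exact hw.continuous.integrable_of_hasCompactSupport hc)
      (fun x _ => differentiableAt_const _) (fun x _ => hw.differentiable one_ne_zero x)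
  simpa using h

/-! ## Several variables -/

variable {n : ℕ}

theorem continuous_dz (i : Fin n) {V : E n → ℂ} (hV : ContDiff ℝ 1 V) :
    Continuous (dz i V) := by
  have hD : Continuous (fderiv ℝ V) := hV.continuous_fderiv one_ne_zero
  unfold dz
  fun_prop

theorem continuous_dzb (i : Fin n) {V : E n → ℂ} (hV : ContDiff ℝ 1 V) :
    Continuous (dzb i V) := by
  have hD : Continuous (fderiv ℝ V) := hV.continuous_fderiv one_ne_zero
  unfold dzb
  fun_prop

theorem hasCompactSupport_dz (i : Fin n) {V : E n → ℂ} (hc : HasCompactSupport V) :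
    HasCompactSupport (dz i V) :=
  (hc.fderiv ℝ).comp_left (g := fun L : E n →L[ℝ] ℂ =>
    (L (Pi.single i 1) - I * L (Pi.single i I)) / 2) (by simp)

theorem hasCompactSupport_dzb (i : Fin n) {V : E n → ℂ} (hc : HasCompactSupport V) :
    HasCompactSupport (dzb i V) :=
  (hc.fderiv ℝ).comp_left (g := fun L : E n →L[ℝ] ℂ =>
    (L (Pi.single i 1) + I * L (Pi.single i I)) / 2) (by simp)

/-- `∫ ∂_i V = 0` -/
theorem integral_dz (i : Fin n) {V : E n → ℂ} (hV : ContDiff ℝ 1 V) (hc : HasCompactSupport V) :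
    ∫ z, dz i V z = 0 := by
  have hD : Continuous (fderiv ℝ V) := hV.continuous_fderiv one_ne_zero
  have h : ∀ v, Integrable (fun z => fderiv ℝ V z v) := fun v =>
    Continuous.integrable_of_hasCompactSupport (hD.clm_apply continuous_const)
      ((hc.fderiv ℝ).comp_left (g := fun L : E n →L[ℝ] ℂ => L v) rfl)
  unfold dz
  rw [integral_div, integral_sub (h _) ((h _).const_mul I), integral_const_mul,
    integral_fderiv_zero volume hV hc, integral_fderiv_zero volume hV hc]
  simp

/-- `∫ ∂̄_i V = 0` -/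
theorem integral_dzb (i : Fin n) {V : E n → ℂ} (hV : ContDiff ℝ 1 V) (hc : HasCompactSupport V) :
    ∫ z, dzb i V z = 0 := by
  have hD : Continuous (fderiv ℝ V) := hV.continuous_fderiv one_ne_zero
  have h : ∀ v, Integrable (fun z => fderiv ℝ V z v) := fun v =>
    Continuous.integrable_of_hasCompactSupport (hD.clm_apply continuous_const)
      ((hc.fderiv ℝ).comp_left (g := fun L : E n →L[ℝ] ℂ => L v) rfl)
  unfold dzb
  rw [integral_div, integral_add (h _) ((h _).const_mul I), integral_const_mul,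
    integral_fderiv_zero volume hV hc, integral_fderiv_zero volume hV hc]
  simp

/-- splitting off one variable -/
theorem integral_split (j : Fin (n + 1)) {g : E (n + 1) → ℂ} (hg : Integrable g) :
    ∫ z, g z = ∫ b : E n, ∫ a : ℂ, g (j.insertNth a b) := by
  have hmp := (volume_preserving_piFinSuccAbove (fun _ : Fin (n + 1) => ℂ) j).symm
  have h1 : Integrable (fun p : ℂ × E n => g (j.insertNth p.1 p.2)) :=
    (hmp.integrable_comp_emb (MeasurableEquiv.measurableEmbedding _)).2 hg
  have h2 : ∫ p : ℂ × E n, g (j.insertNth p.1 p.2) = ∫ z, g z :=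
    hmp.integral_comp (MeasurableEquiv.measurableEmbedding _) g
  rw [← h2, Measure.volume_eq_prod]
  rw [Measure.volume_eq_prod] at h1
  exact integral_prod_symm _ h1

theorem norm_insertNth_left (j : Fin (n + 1)) (a : ℂ) (b : E n) :
    ‖a‖ ≤ ‖(j.insertNth a b : E (n + 1))‖ := by
  have h := norm_le_pi_norm (j.insertNth a b : E (n + 1)) j
  rwa [Fin.insertNth_apply_same] at h

theorem norm_insertNth_right (j : Fin (n + 1)) (a : ℂ) (b : E n) :
    ‖b‖ ≤ ‖(j.insertNth a b : E (n + 1))‖ := by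
  rw [pi_norm_le_iff_of_nonneg (norm_nonneg _)]
  intro k
  have h := norm_le_pi_norm (j.insertNth a b : E (n + 1)) (j.succAbove k)
  rwa [Fin.insertNth_apply_succAbove] at h

/-- `K / L(z_j)` is integrable for bounded `K` with bounded support -/
theorem integrable_bound (j : Fin (n + 1)) {K : E (n + 1) → ℂ} (hK : Measurable K) {C R : ℝ}
    (hC : ∀ z, ‖K z‖ ≤ C) (hR : ∀ z, R ≤ ‖z‖ → K z = 0) (L : ℂ → ℂ) (hL : Measurable L)
    (hLn : ∀ z, ‖L z‖ = ‖z‖) :
    Integrable (fun z => K z / L (z j)) := by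
  have hmp := (volume_preserving_piFinSuccAbove (fun _ : Fin (n + 1) => ℂ) j).symm
  rw [← hmp.integrable_comp_emb (MeasurableEquiv.measurableEmbedding _)]
  have h1 : Integrable (fun b : E n => (Metric.ball (0 : E n) R).indicator (fun _ => (1 : ℝ)) b) := by
    rw [integrable_indicator_iff measurableSet_ball]
    exact integrableOn_const (by
      exact measure_ball_lt_top.ne)
  have h2 := (integrable_inv_disc R).mul_prod h1
  rw [← Measure.volume_eq_prod] at h2
  refine (h2.const_mul C).mono' ?_ ?_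
  · refine Measurable.aestronglyMeasurable ?_
    exact (hK.div (hL.comp (measurable_pi_apply j))).comp (MeasurableEquiv.measurable _)
  · refine Filter.Eventually.of_forall fun p => ?_
    obtain ⟨a, b⟩ := p
    show ‖K (j.insertNth a b) / L ((j.insertNth a b : E (n + 1)) j)‖ ≤ _
    rw [Fin.insertNth_apply_same]
    simp only
    have hC0 : 0 ≤ C := (norm_nonneg _).trans (hC 0)
    by_cases h : ‖(j.insertNth a b : E (n + 1))‖ < R
    · have ha : a ∈ Metric.ball (0 : ℂ) R :=
        mem_ball_zero_iff.2 (lt_of_le_of_lt (norm_insertNth_left j a b) h)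
      have hb : b ∈ Metric.ball (0 : E n) R :=
        mem_ball_zero_iff.2 (lt_of_le_of_lt (norm_insertNth_right j a b) h)
      rw [indicator_of_mem ha, indicator_of_mem hb, norm_div, hLn, div_eq_mul_inv, mul_one]
      exact mul_le_mul_of_nonneg_right (hC _) (by positivity)
    · rw [hR _ (not_lt.1 h), zero_div, norm_zero]
      refine mul_nonneg hC0 (mul_nonneg ?_ ?_)
      · exact indicator_nonneg (fun _ _ => by positivity) _
      · exact indicator_nonneg (fun _ _ => by positivity) _

theorem integrable_div_conj (j : Fin (n + 1)) {K : E (n + 1) → ℂ} (hK : Continuous K)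
    (hc : HasCompactSupport K) : Integrable (fun z => K z / (starRingEnd ℂ) (z j)) := by
  obtain ⟨C, hC⟩ := hc.exists_bound_of_continuous hK
  obtain ⟨R, _, hR⟩ := exists_radius hc
  exact integrable_bound j hK.measurable hC hR _ continuous_conj.measurable
    (fun z => RCLike.norm_conj z)

theorem integrable_div_coord (j : Fin (n + 1)) {K : E (n + 1) → ℂ} (hK : Continuous K)
    (hc : HasCompactSupport K) : Integrable (fun z => K z / z j) := by
  obtain ⟨C, hC⟩ := hc.exists_bound_of_continuous hK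
  obtain ⟨R, _, hR⟩ := exists_radius hc
  exact integrable_bound j hK.measurable hC hR (fun z => z) measurable_id (fun z => rfl)

theorem insertNth_eq (j : Fin (n + 1)) (a : ℂ) (b : E n) :
    (j.insertNth a b : E (n + 1)) = j.insertNth 0 b + Pi.single j a := by
  ext k
  refine Fin.succAboveCases j ?_ (fun k => ?_) k
  · simp
  · simp

theorem hasFDerivAt_insertNth (j : Fin (n + 1)) (a : ℂ) (b : E n) :
    HasFDerivAt (fun a : ℂ => (j.insertNth a b : E (n + 1)))
      (ContinuousLinearMap.single ℝ (fun _ : Fin (n + 1) => ℂ) j) a := by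
  have h : (fun a : ℂ => (j.insertNth a b : E (n + 1))) = fun a =>
      (j.insertNth 0 b : E (n + 1)) + ContinuousLinearMap.single ℝ (fun _ : Fin (n + 1) => ℂ) j a := by
    ext1 a
    rw [insertNth_eq]
    rfl
  rw [h]
  exact ((ContinuousLinearMap.single ℝ (fun _ : Fin (n + 1) => ℂ) j).hasFDerivAt).const_add _

theorem contDiff_insertNth (j : Fin (n + 1)) (b : E n) :
    ContDiff ℝ 1 (fun a : ℂ => (j.insertNth a b : E (n + 1))) := by
  have h : (fun a : ℂ => (j.insertNth a b : E (n + 1))) = fun a =>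
      (j.insertNth 0 b : E (n + 1)) + ContinuousLinearMap.single ℝ (fun _ : Fin (n + 1) => ℂ) j a := by
    ext1 a
    rw [insertNth_eq]
    rfl
  rw [h]
  exact contDiff_const.add (ContinuousLinearMap.contDiff _)

theorem fderiv_insertNth (j : Fin (n + 1)) {V : E (n + 1) → ℂ} (hV : ContDiff ℝ 1 V) (a : ℂ)
    (b : E n) (v : ℂ) : fderiv ℝ (fun a : ℂ => V (j.insertNth a b)) a v =
      fderiv ℝ V (j.insertNth a b) (Pi.single j v) := by
  have h := ((hV.differentiable one_ne_zero _).hasFDerivAt).comp a (hasFDerivAt_insertNth j a b)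
  have h2 : (fun a : ℂ => V (j.insertNth a b)) = V ∘ fun a : ℂ => (j.insertNth a b : E (n + 1)) := rfl
  rw [h2, h.fderiv]
  rfl

theorem hasCompactSupport_insertNth (j : Fin (n + 1)) {V : E (n + 1) → ℂ}
    (hc : HasCompactSupport V) (b : E n) : HasCompactSupport (fun a : ℂ => V (j.insertNth a b)) := by
  obtain ⟨R, _, hR⟩ := exists_radius hc
  refine HasCompactSupport.intro (isCompact_closedBall (0 : ℂ) R) (fun a ha => ?_)
  apply hR
  rw [mem_closedBall_zero_iff, not_le] at ha
  exact ha.le.trans (norm_insertNth_left j a b)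

/-- **T13(a)**: integrals with simple poles -/
theorem integral_dz_div (i j : Fin (n + 1)) {V : E (n + 1) → ℂ} (hV : ContDiff ℝ 1 V)
    (hc : HasCompactSupport V) :
    ∫ z, dz i V z / (starRingEnd ℂ) (z j) =
      if i = j then - π * ∫ b : E n, V (j.insertNth 0 b) else 0 := by
  have hint : Integrable (fun z => dz i V z / (starRingEnd ℂ) (z j)) :=
    integrable_div_conj j (continuous_dz i hV) (hasCompactSupport_dz i hc)
  rw [integral_split i hint]
  have hinner : ∀ b : E n, ∀ a : ℂ, dz i V (i.insertNth a b) =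
      (fderiv ℝ (fun a : ℂ => V (i.insertNth a b)) a 1 -
        I * fderiv ℝ (fun a : ℂ => V (i.insertNth a b)) a I) / 2 := by
    intro b a
    rw [fderiv_insertNth i hV, fderiv_insertNth i hV]
    rfl
  split_ifs with hij
  · subst hij
    rw [← integral_const_mul]
    congr 1
    ext b
    rw [← integral_dz_div_one (fun a : ℂ => V (i.insertNth a b))
      (hV.comp (contDiff_insertNth i b)) (hasCompactSupport_insertNth i hc b)]
    congr 1
    ext a
    rw [hinner, Fin.insertNth_apply_same]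
  · obtain ⟨k, hk⟩ := Fin.exists_succAbove_eq (Ne.symm hij)
    have h0 : ∀ b : E n, ∫ a : ℂ, dz i V (i.insertNth a b) /
        (starRingEnd ℂ) ((i.insertNth a b : E (n + 1)) j) = 0 := by
      intro b
      have hw : ContDiff ℝ 1 (fun a : ℂ => V (i.insertNth a b)) :=
        hV.comp (contDiff_insertNth i b)
      have hwc := hasCompactSupport_insertNth i hc b
      have hD : Continuous (fderiv ℝ (fun a : ℂ => V (i.insertNth a b))) :=
        hw.continuous_fderiv one_ne_zero
      have h : ∀ v, Integrable (fun z => fderiv ℝ (fun a : ℂ => V (i.insertNth a b)) z v) :=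
        fun v => Continuous.integrable_of_hasCompactSupport (hD.clm_apply continuous_const)
          ((hwc.fderiv ℝ).comp_left (g := fun L : ℂ →L[ℝ] ℂ => L v) rfl)
      have h1 : ∀ a : ℂ, dz i V (i.insertNth a b) /
          (starRingEnd ℂ) ((i.insertNth a b : E (n + 1)) j) =
          ((fderiv ℝ (fun a : ℂ => V (i.insertNth a b)) a 1 -
        I * fderiv ℝ (fun a : ℂ => V (i.insertNth a b)) a I) / 2) / (starRingEnd ℂ) (b k) := by
        intro a
        rw [hinner, ← hk, Fin.insertNth_apply_succAbove]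
      simp_rw [h1]
      rw [integral_div, integral_div, integral_sub (h _) ((h _).const_mul I), integral_const_mul,
        integral_fderiv_zero volume hw hwc, integral_fderiv_zero volume hw hwc]
      simp
    simp_rw [h0]
    simp

theorem fderiv_conj_comp {V : E n → ℂ} (hV : ContDiff ℝ 1 V) (z v : E n) :
    fderiv ℝ (fun z => (starRingEnd ℂ) (V z)) z v = (starRingEnd ℂ) (fderiv ℝ V z v) := by
  have h := (conjCLE.toContinuousLinearMap.hasFDerivAt (x := V z)).comp z
    ((hV.differentiable one_ne_zero z).hasFDerivAt)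
  have h2 : (fun z => (starRingEnd ℂ) (V z)) = (conjCLE.toContinuousLinearMap) ∘ V := rfl
  rw [h2, h.fderiv]
  rfl

theorem dzb_eq_conj (i : Fin n) {V : E n → ℂ} (hV : ContDiff ℝ 1 V) (z : E n) :
    dzb i V z = (starRingEnd ℂ) (dz i (fun z => (starRingEnd ℂ) (V z)) z) := by
  unfold dz dzb
  rw [fderiv_conj_comp hV, fderiv_conj_comp hV]
  have h2 : (starRingEnd ℂ) 2 = 2 := map_ofNat _ 2
  simp [h2]

theorem integral_dzb_div (i j : Fin (n + 1)) {V : E (n + 1) → ℂ} (hV : ContDiff ℝ 1 V)
    (hc : HasCompactSupport V) :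
    ∫ z, dzb i V z / z j =
      if i = j then - π * ∫ b : E n, V (j.insertNth 0 b) else 0 := by
  have hV' : ContDiff ℝ 1 (fun z => (starRingEnd ℂ) (V z)) := conjCLE.contDiff.comp hV
  have hc' : HasCompactSupport (fun z => (starRingEnd ℂ) (V z)) :=
    hc.comp_left (g := (starRingEnd ℂ)) (map_zero _)
  have h := integral_dz_div i j hV' hc'
  have h1 : ∀ z, dzb i V z / z j = (starRingEnd ℂ)
      (dz i (fun z => (starRingEnd ℂ) (V z)) z / (starRingEnd ℂ) (z j)) := by
    intro z
    rw [dzb_eq_conj i hV, map_div₀, Complex.conj_conj]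
  simp_rw [h1]
  rw [integral_conj, h]
  split_ifs
  · rw [integral_conj]
    simp
  · simp


/-! ## Two variables -/

/-- integrals over `E 1` -/
theorem integral_E1 (g : E 1 → ℂ) : ∫ b : E 1, g b = ∫ w : ℂ, g (fun _ => w) := by
  have hmp := (volume_preserving_funUnique (Fin 1) ℂ).symm
  exact (hmp.integral_comp (MeasurableEquiv.measurableEmbedding _) g).symm

theorem integral_dz_div_00 {V : E 2 → ℂ} (hV : ContDiff ℝ 1 V) (hc : HasCompactSupport V) :
    ∫ z, dz 0 V z / (starRingEnd ℂ) (z 0) = - π * ∫ w : ℂ, V ![0, w] := by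
  rw [integral_dz_div 0 0 hV hc, if_pos rfl, integral_E1]
  congr 2
  ext w
  congr 1
  ext k
  fin_cases k <;> rfl

theorem integral_dz_div_11 {V : E 2 → ℂ} (hV : ContDiff ℝ 1 V) (hc : HasCompactSupport V) :
    ∫ z, dz 1 V z / (starRingEnd ℂ) (z 1) = - π * ∫ w : ℂ, V ![w, 0] := by
  rw [integral_dz_div 1 1 hV hc, if_pos rfl, integral_E1]
  congr 2
  ext w
  congr 1
  ext k
  fin_cases k <;> rfl

theorem integral_dz_div_01 {V : E 2 → ℂ} (hV : ContDiff ℝ 1 V) (hc : HasCompactSupport V) :
    ∫ z, dz 0 V z / (starRingEnd ℂ) (z 1) = 0 := by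
  rw [integral_dz_div 0 1 hV hc, if_neg (by decide)]

theorem integral_dz_div_10 {V : E 2 → ℂ} (hV : ContDiff ℝ 1 V) (hc : HasCompactSupport V) :
    ∫ z, dz 1 V z / (starRingEnd ℂ) (z 0) = 0 := by
  rw [integral_dz_div 1 0 hV hc, if_neg (by decide)]

theorem integral_dzb_div_00 {V : E 2 → ℂ} (hV : ContDiff ℝ 1 V) (hc : HasCompactSupport V) :
    ∫ z, dzb 0 V z / z 0 = - π * ∫ w : ℂ, V ![0, w] := by
  rw [integral_dzb_div 0 0 hV hc, if_pos rfl, integral_E1]
  congr 2
  ext w
  congr 1
  ext k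
  fin_cases k <;> rfl

theorem integral_dzb_div_11 {V : E 2 → ℂ} (hV : ContDiff ℝ 1 V) (hc : HasCompactSupport V) :
    ∫ z, dzb 1 V z / z 1 = - π * ∫ w : ℂ, V ![w, 0] := by
  rw [integral_dzb_div 1 1 hV hc, if_pos rfl, integral_E1]
  congr 2
  ext w
  congr 1
  ext k
  fin_cases k <;> rfl

theorem integral_dzb_div_01 {V : E 2 → ℂ} (hV : ContDiff ℝ 1 V) (hc : HasCompactSupport V) :
    ∫ z, dzb 0 V z / z 1 = 0 := by
  rw [integral_dzb_div 0 1 hV hc, if_neg (by decide)]

theorem integral_dzb_div_10 {V : E 2 → ℂ} (hV : ContDiff ℝ 1 V) (hc : HasCompactSupport V) :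
    ∫ z, dzb 1 V z / z 0 = 0 := by
  rw [integral_dzb_div 1 0 hV hc, if_neg (by decide)]

end

end Pool.Agent.YTDA
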