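import Pool.Agent.YTDA.FinDefs
import Pool.Agent.YTDA.Holo

/-!
# The complex manifold of a polarized atlas
-/

namespace Pool.Agent.YTDA

open Complex Set Topology ContDiff Manifold ComplexOrder Module

noncomputable section

namespace PolAtlas

variable {n : ℕ} {Y : Type} [MulAction ℂˣ Y] (A : PolAtlas n Y)

/-! ### Transitions -/

theorem mem_O {a b : A.ι} {z : E n} :
    z ∈ A.O a b ↔ z ∈ A.U a ∧ ∃ z' ∈ A.U b, ∃ c : ℂˣ, A.γ b z' = c • A.γ a z := Iff.rfl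

theorem O_open (a b : A.ι) : IsOpen (A.O a b) := A.isOpen_O a b

theorem O_subset (a b : A.ι) : A.O a b ⊆ A.U a := fun _ h => h.1

theorem τ_mem {a b : A.ι} {z : E n} (hz : z ∈ A.O a b) : A.τ a b z ∈ A.U b :=
  (A.trans a b z hz.1 hz.2).1

theorem γ_τ {a b : A.ι} {z : E n} (hz : z ∈ A.O a b) :
    A.γ b (A.τ a b z) = A.h a b z • A.γ a z :=
  (A.trans a b z hz.1 hz.2).2

theorem hol_τ' (a b : A.ι) : DifferentiableOn ℂ (A.τ a b) (A.O a b) := A.hol_τ a b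

theorem hol_h' (a b : A.ι) : DifferentiableOn ℂ (fun z => (A.h a b z : ℂ)) (A.O a b) :=
  A.hol_h a b

/-- the transition is determined by the relation -/
theorem eq_τ {a b : A.ι} {z z' : E n} {c : ℂˣ} (hz : z ∈ A.U a) (hz' : z' ∈ A.U b)
    (h : A.γ b z' = c • A.γ a z) : z ∈ A.O a b ∧ A.τ a b z = z' ∧ A.h a b z = c := by
  have hO : z ∈ A.O a b := ⟨hz, z', hz', c, h⟩
  have h1 := A.γ_τ hO
  have h2 : A.γ b (A.τ a b z) = (A.h a b z * c⁻¹) • A.γ b z' := by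
    rw [h1, h, smul_smul, inv_mul_cancel_right]
  obtain ⟨h3, h4⟩ := A.inj b z' hz' _ (A.τ_mem hO) _ h2
  exact ⟨hO, h3, mul_inv_eq_one.1 h4⟩

theorem τ_mem_O {a b : A.ι} {z : E n} (hz : z ∈ A.O a b) : A.τ a b z ∈ A.O b a := by
  refine ⟨A.τ_mem hz, z, hz.1, (A.h a b z)⁻¹, ?_⟩
  rw [A.γ_τ hz, inv_smul_smul]

theorem τ_τ {a b : A.ι} {z : E n} (hz : z ∈ A.O a b) :
    A.τ b a (A.τ a b z) = z ∧ A.h b a (A.τ a b z) = (A.h a b z)⁻¹ := by
  have h1 := A.eq_τ (a := b) (b := a) (z := A.τ a b z) (z' := z) (c := (A.h a b z)⁻¹)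
    (A.τ_mem hz) hz.1 (by rw [A.γ_τ hz, inv_smul_smul])
  exact ⟨h1.2.1, h1.2.2⟩

theorem mem_O_self {a : A.ι} {z : E n} (hz : z ∈ A.U a) : z ∈ A.O a a :=
  ⟨hz, z, hz, 1, (one_smul _ _).symm⟩

theorem τ_self {a : A.ι} {z : E n} (hz : z ∈ A.U a) : A.τ a a z = z ∧ A.h a a z = 1 := by
  have h1 := A.eq_τ (a := a) (b := a) (z := z) (z' := z) (c := 1) hz hz (one_smul _ _).symm
  exact ⟨h1.2.1, h1.2.2⟩

/-- transitions are continuous -/
theorem continuousOn_τ (a b : A.ι) : ContinuousOn (A.τ a b) (A.O a b) :=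
  (A.hol_τ' a b).continuousOn

/-! ### The manifold -/

/-- The manifold `M = Y / ℂˣ`. -/
def Mfd (_ : PolAtlas n Y) : Type := MulAction.orbitRel.Quotient ℂˣ Y

/-- The projection. -/
def pr (y : Y) : A.Mfd := Quotient.mk (MulAction.orbitRel ℂˣ Y) y

theorem pr_eq {y y' : Y} : A.pr y = A.pr y' ↔ ∃ c : ℂˣ, y = c • y' := by
  constructor
  · intro h
    have h1 : (MulAction.orbitRel ℂˣ Y).r y y' := Quotient.exact h
    obtain ⟨c, hc⟩ := h1
    exact ⟨c, hc.symm⟩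
  · rintro ⟨c, hc⟩
    exact Quotient.sound ⟨c, hc.symm⟩

theorem pr_smul (c : ℂˣ) (y : Y) : A.pr (c • y) = A.pr y := A.pr_eq.2 ⟨c, rfl⟩

theorem exists_pr (x : A.Mfd) : ∃ y, A.pr y = x := Quotient.exists_rep x

/-- The local parametrizations. -/
def par (a : A.ι) (z : E n) : A.Mfd := A.pr (A.γ a z)

theorem par_eq {a b : A.ι} {z z' : E n} : A.par b z' = A.par a z ↔
    ∃ c : ℂˣ, A.γ b z' = c • A.γ a z := A.pr_eq

theorem par_injOn (a : A.ι) : InjOn (A.par a) (A.U a) := by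
  intro z hz z' hz' h
  obtain ⟨c, hc⟩ := A.par_eq.1 h
  exact (A.inj a z' hz' z hz c hc).1

theorem exists_par (x : A.Mfd) : ∃ a, ∃ z ∈ A.U a, A.par a z = x := by
  obtain ⟨y, rfl⟩ := A.exists_pr x
  obtain ⟨a, z, hz, c, rfl⟩ := A.cover y
  exact ⟨a, z, hz, (A.pr_smul c _).symm⟩

theorem mem_O_iff_par {a b : A.ι} {z : E n} :
    z ∈ A.O a b ↔ z ∈ A.U a ∧ A.par a z ∈ A.par b '' A.U b := by
  rw [mem_O]
  constructor
  · rintro ⟨h1, z', h2, c, h3⟩
    exact ⟨h1, z', h2, A.par_eq.2 ⟨c, h3⟩⟩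
  · rintro ⟨h1, z', h2, h3⟩
    obtain ⟨c, hc⟩ := A.par_eq.1 h3
    exact ⟨h1, z', h2, c, hc⟩

theorem par_τ {a b : A.ι} {z : E n} (hz : z ∈ A.O a b) : A.par b (A.τ a b z) = A.par a z :=
  A.par_eq.2 ⟨_, A.γ_τ hz⟩

theorem τ_of_par {a b : A.ι} {z z' : E n} (hz : z ∈ A.U a) (hz' : z' ∈ A.U b)
    (h : A.par b z' = A.par a z) : z ∈ A.O a b ∧ A.τ a b z = z' := by
  obtain ⟨c, hc⟩ := A.par_eq.1 h
  have := A.eq_τ hz hz' hc
  exact ⟨this.1, this.2.1⟩

instance : TopologicalSpace A.Mfd where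
  IsOpen V := ∀ a, IsOpen {z | z ∈ A.U a ∧ A.par a z ∈ V}
  isOpen_univ a := by simpa using A.isOpen_U a
  isOpen_inter V W hV hW a := by
    have h := (hV a).inter (hW a)
    refine (congrArg IsOpen ?_).mp h
    ext z
    simp only [mem_inter_iff, mem_ofPred_eq]
    tauto
  isOpen_sUnion S hS a := by
    have h : IsOpen (⋃ V ∈ S, {z | z ∈ A.U a ∧ A.par a z ∈ V}) :=
      isOpen_biUnion fun V hV => hS V hV a
    refine (congrArg IsOpen ?_).mp h
    ext z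
    simp only [mem_iUnion, mem_ofPred_eq, mem_sUnion]
    constructor
    · rintro ⟨V, hV, h1, h2⟩
      exact ⟨h1, V, hV, h2⟩
    · rintro ⟨h1, V, hV, h2⟩
      exact ⟨V, hV, h1, h2⟩

theorem isOpen_iff {V : Set A.Mfd} : IsOpen V ↔ ∀ a, IsOpen {z | z ∈ A.U a ∧ A.par a z ∈ V} :=
  Iff.rfl

theorem isOpen_image {a : A.ι} {W : Set (E n)} (hW : IsOpen W) (hWU : W ⊆ A.U a) :
    IsOpen (A.par a '' W) := by
  intro b
  have h : IsOpen (A.O b a ∩ A.τ b a ⁻¹' W) :=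
    (A.continuousOn_τ b a).isOpen_inter_preimage (A.O_open b a) hW
  refine (congrArg IsOpen ?_).mp h
  ext z
  constructor
  · rintro ⟨h1, h2⟩
    exact ⟨h1.1, A.τ b a z, h2, A.par_τ h1⟩
  · rintro ⟨h1, w, h2, h3⟩
    obtain ⟨h4, h5⟩ := A.τ_of_par h1 (hWU h2) h3
    refine ⟨h4, ?_⟩
    rw [mem_preimage, h5]
    exact h2

/-- The domain of the chart. -/
def dom (a : A.ι) : Set A.Mfd := A.par a '' A.U a

theorem isOpen_dom (a : A.ι) : IsOpen (A.dom a) := A.isOpen_image (A.isOpen_U a) Subset.rfl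

theorem continuousOn_par (a : A.ι) : ContinuousOn (A.par a) (A.U a) := by
  rw [continuousOn_open_iff (A.isOpen_U a)]
  intro V hV
  exact hV a

/-- The coordinates. -/
def co (a : A.ι) : A.Mfd → E n := Function.invFunOn (A.par a) (A.U a)

theorem co_mem {a : A.ι} {x : A.Mfd} (hx : x ∈ A.dom a) : A.co a x ∈ A.U a :=
  Function.invFunOn_mem hx

theorem par_co {a : A.ι} {x : A.Mfd} (hx : x ∈ A.dom a) : A.par a (A.co a x) = x :=
  Function.invFunOn_eq hx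

theorem par_mem {a : A.ι} {z : E n} (hz : z ∈ A.U a) : A.par a z ∈ A.dom a := ⟨z, hz, rfl⟩

theorem co_par {a : A.ι} {z : E n} (hz : z ∈ A.U a) : A.co a (A.par a z) = z :=
  A.par_injOn a (A.co_mem (A.par_mem hz)) hz (A.par_co (A.par_mem hz))

theorem co_par' {a b : A.ι} {z : E n} (hz : z ∈ A.O a b) :
    A.co b (A.par a z) = A.τ a b z := by
  rw [← A.par_τ hz]
  exact A.co_par (A.τ_mem hz)

theorem continuousOn_co (a : A.ι) : ContinuousOn (A.co a) (A.dom a) := by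
  rw [continuousOn_open_iff (A.isOpen_dom a)]
  intro W hW
  have h := A.isOpen_image (a := a) (hW.inter (A.isOpen_U a)) inter_subset_right
  refine (congrArg IsOpen ?_).mp h
  ext x
  constructor
  · rintro ⟨z, ⟨h1, h2⟩, rfl⟩
    refine ⟨A.par_mem h2, ?_⟩
    rw [mem_preimage, A.co_par h2]
    exact h1
  · rintro ⟨h1, h2⟩
    exact ⟨A.co a x, ⟨h2, A.co_mem h1⟩, A.par_co h1⟩

/-- The chart. -/
def chart (a : A.ι) : OpenPartialHomeomorph A.Mfd (E n) where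
  toFun := A.co a
  invFun := A.par a
  source := A.dom a
  target := A.U a
  map_source' _ hx := A.co_mem hx
  map_target' _ hz := A.par_mem hz
  left_inv' _ hx := A.par_co hx
  right_inv' _ hz := A.co_par hz
  open_source := A.isOpen_dom a
  open_target := A.isOpen_U a
  continuousOn_toFun := A.continuousOn_co a
  continuousOn_invFun := A.continuousOn_par a

theorem chart_apply (a : A.ι) (x : A.Mfd) : A.chart a x = A.co a x := rfl

theorem chart_symm_apply (a : A.ι) (z : E n) : (A.chart a).symm z = A.par a z := rfl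

theorem chart_source (a : A.ι) : (A.chart a).source = A.dom a := rfl

theorem chart_target (a : A.ι) : (A.chart a).target = A.U a := rfl

theorem exists_dom (x : A.Mfd) : ∃ a, x ∈ A.dom a := by
  obtain ⟨a, z, hz, rfl⟩ := A.exists_par x
  exact ⟨a, z, hz, rfl⟩

/-- The index of the preferred chart at `x`. -/
def ix (x : A.Mfd) : A.ι := (A.exists_dom x).choose

theorem mem_ix (x : A.Mfd) : x ∈ A.dom (A.ix x) := (A.exists_dom x).choose_spec

instance : ChartedSpace (E n) A.Mfd where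
  atlas := range A.chart
  chartAt x := A.chart (A.ix x)
  mem_chart_source := A.mem_ix
  chart_mem_atlas x := ⟨_, rfl⟩

theorem mem_atlas {φ : OpenPartialHomeomorph A.Mfd (E n)} :
    φ ∈ atlas (E n) A.Mfd ↔ ∃ a, A.chart a = φ := Iff.rfl

theorem chartAt_eq (x : A.Mfd) : chartAt (E n) x = A.chart (A.ix x) := rfl

instance isManifold : IsManifold 𝓘(ℂ, E n) ω A.Mfd := by
  apply isManifold_of_contDiffOn
  rintro e e' ⟨a, rfl⟩ ⟨b, rfl⟩
  have h1 : 𝓘(ℂ, E n).symm ⁻¹' ((A.chart a).symm ≫ₕ A.chart b).source ∩ range 𝓘(ℂ, E n) =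
      A.O a b := by
    ext z
    rw [A.mem_O_iff_par]
    simp only [modelWithCornersSelf_coe_symm, OpenPartialHomeomorph.trans_source,
      OpenPartialHomeomorph.symm_source, modelWithCornersSelf_coe, range_id, inter_univ,
      preimage_id, mem_inter_iff, chart_target, mem_preimage, chart_source, chart_symm_apply, dom]
  rw [h1]
  apply (Holo.contDiffOn_omega (A.O_open a b) (A.hol_τ' a b)).congr
  intro z hz
  simp only [modelWithCornersSelf_coe, modelWithCornersSelf_coe_symm, Function.comp_apply, id]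
  exact A.co_par' hz

/-! ### Compactness -/

theorem compactSpace (h : A.IsCpt) : CompactSpace A.Mfd := by
  obtain ⟨m, a, K, h1, h2⟩ := h
  refine ⟨?_⟩
  have h3 : (univ : Set A.Mfd) = ⋃ k, A.par (a k) '' K k := by
    symm
    apply eq_univ_of_forall
    intro x
    obtain ⟨y, rfl⟩ := A.exists_pr x
    obtain ⟨k, z, hz, c, rfl⟩ := h2 y
    exact mem_iUnion.2 ⟨k, z, hz, (A.pr_smul c _).symm⟩
  rw [h3]
  exact isCompact_iUnion fun k => (h1 k).1.image_of_continuousOn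
    ((A.continuousOn_par (a k)).mono (h1 k).2)

theorem t2Space (h : A.IsT2) : T2Space A.Mfd := by
  refine ⟨fun x y hxy => ?_⟩
  obtain ⟨a, z, hz, rfl⟩ := A.exists_par x
  obtain ⟨b, z', hz', rfl⟩ := A.exists_par y
  have h1 : ∀ c : ℂˣ, A.γ b z' ≠ c • A.γ a z := by
    intro c hc
    exact hxy (A.par_eq.2 ⟨c, hc⟩).symm
  obtain ⟨V, hV, V', hV', h2⟩ := h a b z hz z' hz' h1
  obtain ⟨W, hW, hWo, hzW⟩ := mem_nhds_iff.1 hV
  obtain ⟨W', hW', hWo', hzW'⟩ := mem_nhds_iff.1 hV'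
  refine ⟨A.par a '' (W ∩ A.U a), A.par b '' (W' ∩ A.U b),
    A.isOpen_image (hWo.inter (A.isOpen_U a)) inter_subset_right,
    A.isOpen_image (hWo'.inter (A.isOpen_U b)) inter_subset_right,
    ⟨z, ⟨hzW, hz⟩, rfl⟩, ⟨z', ⟨hzW', hz'⟩, rfl⟩, ?_⟩
  rw [Set.disjoint_left]
  rintro _ ⟨w, ⟨h3, h4⟩, rfl⟩ ⟨w', ⟨h5, h6⟩, h7⟩
  obtain ⟨c, hc⟩ := A.par_eq.1 h7
  exact h2 w ⟨hW h3, h4⟩ w' ⟨hW' h5, h6⟩ c hc

end PolAtlas

end

end Pool.Agent.YTDA
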