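import Pool.Agent.YTDA.Defs
import Pool.Agent.YTDA.Osgood

/-!
# Pull-back of potentials under holomorphic maps

`hess (φ ∘ t) = Jᵀ (hess φ ∘ t) J̄`, `scal (φ ∘ t + log |h|²) = scal φ ∘ t`.
-/

namespace Pool.Agent.YTDA

namespace Pl

open Complex Set Topology ContDiff ComplexOrder

noncomputable section

variable {n m : ℕ}

/-! ### Locality -/

theorem dz_congr_at {f g : E n → ℂ} {z : E n} (h : f =ᶠ[𝓝 z] g) (i : Fin n) :
    dz i f z = dz i g z := by
  unfold dz
  rw [h.fderiv_eq]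

theorem dzb_congr_at {f g : E n → ℂ} {z : E n} (h : f =ᶠ[𝓝 z] g) (i : Fin n) :
    dzb i f z = dzb i g z := by
  unfold dzb
  rw [h.fderiv_eq]

theorem dzb_eventuallyEq {f g : E n → ℂ} {z : E n} (h : f =ᶠ[𝓝 z] g) (i : Fin n) :
    dzb i f =ᶠ[𝓝 z] dzb i g := by
  filter_upwards [h.eventuallyEq_nhds] with w hw
  exact dzb_congr_at hw i

theorem dz_eventuallyEq {f g : E n → ℂ} {z : E n} (h : f =ᶠ[𝓝 z] g) (i : Fin n) :
    dz i f =ᶠ[𝓝 z] dz i g := by
  filter_upwards [h.eventuallyEq_nhds] with w hw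
  exact dz_congr_at hw i

theorem hess_congr {φ ψ : E n → ℝ} {z : E n} (h : φ =ᶠ[𝓝 z] ψ) : hess φ z = hess ψ z := by
  ext i j
  unfold hess
  apply dz_congr_at
  apply dzb_eventuallyEq
  filter_upwards [h] with w hw
  rw [hw]

theorem hess_eventuallyEq {φ ψ : E n → ℝ} {z : E n} (h : φ =ᶠ[𝓝 z] ψ) :
    hess φ =ᶠ[𝓝 z] hess ψ := by
  filter_upwards [h.eventuallyEq_nhds] with w hw
  exact hess_congr hw

theorem logdet_eventuallyEq {φ ψ : E n → ℝ} {z : E n} (h : φ =ᶠ[𝓝 z] ψ) :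
    logdet φ =ᶠ[𝓝 z] logdet ψ := by
  filter_upwards [hess_eventuallyEq h] with w hw
  unfold logdet
  rw [hw]

theorem scal_congr {φ ψ : E n → ℝ} {z : E n} (h : φ =ᶠ[𝓝 z] ψ) : scal φ z = scal ψ z := by
  unfold scal
  rw [hess_congr h, hess_congr (logdet_eventuallyEq h)]

/-! ### Smoothness -/

theorem _root_.ContDiffAt.fderiv_apply_const {F : Type*} [NormedAddCommGroup F] [NormedSpace ℝ F]
    {f : E n → F} {z : E n} (hf : ContDiffAt ℝ ∞ f z) (v : E n) :
    ContDiffAt ℝ ∞ (fun w => fderiv ℝ f w v) z :=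
  (hf.fderiv_right (m := ∞) (by norm_cast)).clm_apply contDiffAt_const

theorem contDiffAt_dz {f : E n → ℂ} {z : E n} (hf : ContDiffAt ℝ ∞ f z) (i : Fin n) :
    ContDiffAt ℝ ∞ (dz i f) z := by
  have : dz i f = fun z => (fderiv ℝ f z (Pi.single i 1) - I * fderiv ℝ f z (Pi.single i I)) / 2 :=
    rfl
  rw [this]
  exact ((hf.fderiv_apply_const _).sub (contDiffAt_const.mul (hf.fderiv_apply_const _))).div_const _

theorem contDiffAt_dzb {f : E n → ℂ} {z : E n} (hf : ContDiffAt ℝ ∞ f z) (i : Fin n) :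
    ContDiffAt ℝ ∞ (dzb i f) z := by
  have : dzb i f = fun z => (fderiv ℝ f z (Pi.single i 1) + I * fderiv ℝ f z (Pi.single i I)) / 2 :=
    rfl
  rw [this]
  exact ((hf.fderiv_apply_const _).add (contDiffAt_const.mul (hf.fderiv_apply_const _))).div_const _

theorem contDiffAt_ofReal {φ : E n → ℝ} {z : E n} (hφ : ContDiffAt ℝ ∞ φ z) :
    ContDiffAt ℝ ∞ (fun w => (φ w : ℂ)) z :=
  (Complex.ofRealCLM.contDiff.contDiffAt).comp z hφ

theorem contDiffAt_hess {φ : E n → ℝ} {z : E n} (hφ : ContDiffAt ℝ ∞ φ z) (i j : Fin n) :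
    ContDiffAt ℝ ∞ (fun w => hess φ w i j) z :=
  contDiffAt_dz (contDiffAt_dzb (contDiffAt_ofReal hφ) j) i

theorem contDiffAt_det {M : E n → Matrix (Fin m) (Fin m) ℂ} {z : E n}
    (h : ∀ i j, ContDiffAt ℝ ∞ (fun w => M w i j) z) : ContDiffAt ℝ ∞ (fun w => (M w).det) z := by
  simp only [Matrix.det_apply]
  refine ContDiffAt.sum fun σ _ => ?_
  refine ContDiffAt.const_smul _ ?_
  exact contDiffAt_prod fun i _ => h _ _

theorem det_re_pos {M : Matrix (Fin n) (Fin n) ℂ} (h : M.PosDef) : 0 < M.det.re :=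
  (Complex.pos_iff.1 h.det_pos).1

theorem det_eq_re {M : Matrix (Fin n) (Fin n) ℂ} (h : M.PosDef) : M.det = (M.det.re : ℂ) := by
  have := (Complex.pos_iff.1 h.det_pos).2
  exact Complex.ext rfl (by simp [← this])

theorem contDiffAt_logdet {φ : E n → ℝ} {z : E n} (hφ : ContDiffAt ℝ ∞ φ z)
    (hp : (hess φ z).PosDef) : ContDiffAt ℝ ∞ (logdet φ) z := by
  have h1 : ContDiffAt ℝ ∞ (fun w => (hess φ w).det) z := contDiffAt_det fun i j =>
    contDiffAt_hess hφ i j
  have h2 : ContDiffAt ℝ ∞ (fun w => (hess φ w).det.re) z :=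
    (Complex.reCLM.contDiff.contDiffAt).comp z h1
  exact h2.log (det_re_pos hp).ne'

/-! ### Chain rules -/

/-- the (real) derivative in terms of `∂` and `∂̄` -/
theorem fderiv_eq_dz (f : E n → ℂ) (w u : E n) :
    fderiv ℝ f w u = ∑ k, (u k * dz k f w + (starRingEnd ℂ) (u k) * dzb k f w) := by
  have hu : u = ∑ k, ((u k).re • (Pi.single k 1 : E n) + (u k).im • (Pi.single k I : E n)) := by
    ext j
    rw [Finset.sum_apply, Finset.sum_eq_single j]
    · simp
    · intro k _ hk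
      simp [Pi.single_apply, hk.symm]
    · simp
  conv_lhs => rw [hu]
  rw [map_sum]
  refine Finset.sum_congr rfl fun k _ => ?_
  rw [map_add, map_smul, map_smul]
  unfold dz dzb
  set a := fderiv ℝ f w (Pi.single k 1)
  set b := fderiv ℝ f w (Pi.single k I)
  rw [real_smul, real_smul]
  have h1 : u k = (u k).re + (u k).im * I := (re_add_im _).symm
  have h2 : (starRingEnd ℂ) (u k) = (u k).re - (u k).im * I := by
    apply Complex.ext <;> simp
  linear_combination (-(a - I * b) / 2) * h1 + (-(a + I * b) / 2) * h2 + ((u k).im * b) * I_sq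

/-- the Jacobian matrix -/
def jac (t : E n → E m) (z : E n) : Matrix (Fin m) (Fin n) ℂ :=
  fun k i => fderiv ℂ t z (Pi.single i 1) k

theorem fderiv_real {F : Type*} [NormedAddCommGroup F] [NormedSpace ℂ F] {t : E n → F} {z : E n}
    (ht : DifferentiableAt ℂ t z) (v : E n) : fderiv ℝ t z v = fderiv ℂ t z v := by
  rw [ht.fderiv_restrictScalars ℝ]
  rfl

theorem single_I (i : Fin n) : (Pi.single i I : E n) = I • (Pi.single i 1 : E n) := by
  ext j
  by_cases h : j = i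
  · subst h; simp
  · simp [Pi.single_apply, h]

theorem dz_comp {t : E n → E m} {z : E n} (ht : DifferentiableAt ℂ t z) {f : E m → ℂ}
    (hf : DifferentiableAt ℝ f (t z)) (i : Fin n) :
    dz i (fun w => f (t w)) z = ∑ k, jac t z k i * dz k f (t z) := by
  have h1 : ∀ v, fderiv ℝ (fun w => f (t w)) z v = fderiv ℝ f (t z) (fderiv ℂ t z v) := by
    intro v
    have := fderiv_comp (𝕜 := ℝ) z hf (ht.restrictScalars ℝ)
    show fderiv ℝ (f ∘ t) z v = _
    rw [this, ContinuousLinearMap.comp_apply, fderiv_real ht]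
  have h2 : dz i (fun w => f (t w)) z = (fderiv ℝ (fun w => f (t w)) z (Pi.single i 1) -
      I * fderiv ℝ (fun w => f (t w)) z (Pi.single i I)) / 2 := rfl
  rw [h2, h1, h1, single_I, map_smul, fderiv_eq_dz, fderiv_eq_dz, Finset.mul_sum,
    ← Finset.sum_sub_distrib, Finset.sum_div]
  refine Finset.sum_congr rfl fun k _ => ?_
  simp only [Pi.smul_apply, smul_eq_mul, map_mul, conj_I, jac]
  linear_combination (((starRingEnd ℂ) (fderiv ℂ t z (Pi.single i 1) k) * dzb k f (t z) -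
    fderiv ℂ t z (Pi.single i 1) k * dz k f (t z)) / 2) * I_sq

theorem dzb_comp {t : E n → E m} {z : E n} (ht : DifferentiableAt ℂ t z) {f : E m → ℂ}
    (hf : DifferentiableAt ℝ f (t z)) (i : Fin n) :
    dzb i (fun w => f (t w)) z = ∑ k, (starRingEnd ℂ) (jac t z k i) * dzb k f (t z) := by
  have h1 : ∀ v, fderiv ℝ (fun w => f (t w)) z v = fderiv ℝ f (t z) (fderiv ℂ t z v) := by
    intro v
    have := fderiv_comp (𝕜 := ℝ) z hf (ht.restrictScalars ℝ)
    show fderiv ℝ (f ∘ t) z v = _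
    rw [this, ContinuousLinearMap.comp_apply, fderiv_real ht]
  have h2 : dzb i (fun w => f (t w)) z = (fderiv ℝ (fun w => f (t w)) z (Pi.single i 1) +
      I * fderiv ℝ (fun w => f (t w)) z (Pi.single i I)) / 2 := rfl
  rw [h2, h1, h1, single_I, map_smul, fderiv_eq_dz, fderiv_eq_dz, Finset.mul_sum,
    ← Finset.sum_add_distrib, Finset.sum_div]
  refine Finset.sum_congr rfl fun k _ => ?_
  simp only [Pi.smul_apply, smul_eq_mul, map_mul, conj_I, jac]
  linear_combination ((fderiv ℂ t z (Pi.single i 1) k * dz k f (t z) -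
    (starRingEnd ℂ) (fderiv ℂ t z (Pi.single i 1) k) * dzb k f (t z)) / 2) * I_sq

/-! ### Holomorphic and antiholomorphic functions -/

theorem dzb_of_holomorphic {f : E n → ℂ} {z : E n} (hf : DifferentiableAt ℂ f z) (i : Fin n) :
    dzb i f z = 0 := by
  unfold dzb
  rw [fderiv_real hf, fderiv_real hf, single_I, map_smul, smul_eq_mul]
  linear_combination (fderiv ℂ f z (Pi.single i 1) / 2) * I_sq

theorem dz_of_holomorphic {f : E n → ℂ} {z : E n} (hf : DifferentiableAt ℂ f z) (i : Fin n) :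
    dz i f z = fderiv ℂ f z (Pi.single i 1) := by
  unfold dz
  rw [fderiv_real hf, fderiv_real hf, single_I, map_smul, smul_eq_mul]
  linear_combination (-fderiv ℂ f z (Pi.single i 1) / 2) * I_sq

theorem fderiv_conj {f : E n → ℂ} {z : E n} (hf : DifferentiableAt ℝ f z) (v : E n) :
    fderiv ℝ (fun w => (starRingEnd ℂ) (f w)) z v = (starRingEnd ℂ) (fderiv ℝ f z v) := by
  have h : HasFDerivAt (fun w => (starRingEnd ℂ) (f w))
      ((conjCLE : ℂ →L[ℝ] ℂ).comp (fderiv ℝ f z)) z :=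
    (conjCLE : ℂ →L[ℝ] ℂ).hasFDerivAt.comp z hf.hasFDerivAt
  rw [h.fderiv]
  rfl

theorem dz_conj {f : E n → ℂ} {z : E n} (hf : DifferentiableAt ℝ f z) (i : Fin n) :
    dz i (fun w => (starRingEnd ℂ) (f w)) z = (starRingEnd ℂ) (dzb i f z) := by
  unfold dz dzb
  rw [fderiv_conj hf, fderiv_conj hf]
  simp only [map_div₀, map_add, map_mul, conj_I, map_ofNat]
  ring

theorem dzb_conj {f : E n → ℂ} {z : E n} (hf : DifferentiableAt ℝ f z) (i : Fin n) :
    dzb i (fun w => (starRingEnd ℂ) (f w)) z = (starRingEnd ℂ) (dz i f z) := by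
  unfold dz dzb
  rw [fderiv_conj hf, fderiv_conj hf]
  simp only [map_div₀, map_sub, map_mul, conj_I, map_ofNat]
  ring

theorem dz_mul_at {f g : E n → ℂ} {z : E n} (hf : DifferentiableAt ℝ f z)
    (hg : DifferentiableAt ℝ g z) (i : Fin n) :
    dz i (fun w => f w * g w) z = dz i f z * g z + f z * dz i g z := by
  unfold dz
  rw [fderiv_fun_mul hf hg]
  simp only [ContinuousLinearMap.add_apply, ContinuousLinearMap.smul_apply, smul_eq_mul]
  ring

theorem dz_sum {ι : Type*} (s : Finset ι) {f : ι → E n → ℂ} {z : E n}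
    (hf : ∀ k ∈ s, DifferentiableAt ℝ (f k) z) (i : Fin n) :
    dz i (fun w => ∑ k ∈ s, f k w) z = ∑ k ∈ s, dz i (f k) z := by
  unfold dz
  rw [fderiv_fun_sum hf]
  simp only [ContinuousLinearMap.sum_apply, Finset.mul_sum]
  rw [← Finset.sum_sub_distrib, Finset.sum_div]

theorem dz_add {f g : E n → ℂ} {z : E n} (hf : DifferentiableAt ℝ f z)
    (hg : DifferentiableAt ℝ g z) (i : Fin n) :
    dz i (fun w => f w + g w) z = dz i f z + dz i g z := by
  unfold dz
  rw [fderiv_fun_add hf hg]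
  simp only [ContinuousLinearMap.add_apply]
  ring

theorem dzb_add {f g : E n → ℂ} {z : E n} (hf : DifferentiableAt ℝ f z)
    (hg : DifferentiableAt ℝ g z) (i : Fin n) :
    dzb i (fun w => f w + g w) z = dzb i f z + dzb i g z := by
  unfold dzb
  rw [fderiv_fun_add hf hg]
  simp only [ContinuousLinearMap.add_apply]
  ring

/-! ### The complex Hessian -/

theorem jac_differentiableAt {t : E n → E m} {V : Set (E n)} (hV : IsOpen V)
    (ht : DifferentiableOn ℂ t V) {z : E n} (hz : z ∈ V) (k : Fin m) (j : Fin n) :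
    DifferentiableAt ℂ (fun w => jac t w k j) z := by
  have h1 := (differentiableOn_fderiv_apply hV ht (Pi.single j 1)).differentiableAt
    (hV.mem_nhds hz)
  exact (differentiableAt_pi.1 h1) k

/-- smooth near `z` -/
def SmNear (φ : E n → ℝ) (z : E n) : Prop := ∀ᶠ w in 𝓝 z, ContDiffAt ℝ ∞ φ w

theorem SmNear.at {φ : E n → ℝ} {z : E n} (h : SmNear φ z) : ContDiffAt ℝ ∞ φ z := h.self_of_nhds

theorem SmNear.eventually {φ : E n → ℝ} {z : E n} (h : SmNear φ z) :
    ∀ᶠ w in 𝓝 z, SmNear φ w := eventually_eventually_nhds.2 h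

theorem SmNear.congr {φ ψ : E n → ℝ} {z : E n} (h : SmNear φ z) (he : φ =ᶠ[𝓝 z] ψ) :
    SmNear ψ z := by
  filter_upwards [he.eventuallyEq_nhds, h] with w hw hw'
  exact hw'.congr_of_eventuallyEq hw.symm

theorem SmNear.of_contDiffOn {φ : E n → ℝ} {U : Set (E n)} (hU : IsOpen U)
    (h : ContDiffOn ℝ ∞ φ U) {z : E n} (hz : z ∈ U) : SmNear φ z := by
  filter_upwards [hU.mem_nhds hz] with w hw
  exact h.contDiffAt (hU.mem_nhds hw)

theorem SmNear.add {φ ψ : E n → ℝ} {z : E n} (h : SmNear φ z) (h' : SmNear ψ z) :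
    SmNear (fun w => φ w + ψ w) z := by
  filter_upwards [h, h'] with w hw hw'
  exact hw.add hw'

theorem SmNear.comp {t : E n → E m} {V : Set (E n)} (hV : IsOpen V)
    (ht : DifferentiableOn ℂ t V) {z : E n} (hz : z ∈ V) {φ : E m → ℝ}
    (hφ : SmNear φ (t z)) : SmNear (fun w => φ (t w)) z := by
  have htz : DifferentiableAt ℂ t z := ht.differentiableAt (hV.mem_nhds hz)
  filter_upwards [htz.continuousAt.eventually hφ, hV.mem_nhds hz] with w hw hwV
  exact hw.comp w ((contDiffOn_real_of_differentiableOn hV ht).contDiffAt (hV.mem_nhds hwV))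

theorem hess_comp {t : E n → E m} {V : Set (E n)} (hV : IsOpen V)
    (ht : DifferentiableOn ℂ t V) {z : E n} (hz : z ∈ V) {φ : E m → ℝ}
    (hφ : SmNear φ (t z)) :
    hess (fun w => φ (t w)) z =
      (jac t z).transpose * hess φ (t z) * (jac t z).map (starRingEnd ℂ) := by
  have htz : DifferentiableAt ℂ t z := ht.differentiableAt (hV.mem_nhds hz)
  have hφc := contDiffAt_ofReal hφ.at
  have hev : ∀ᶠ w in 𝓝 (t z), ContDiffAt ℝ ∞ (fun w => (φ w : ℂ)) w := by
    filter_upwards [hφ] with w hw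
    exact contDiffAt_ofReal hw
  have hev2 : ∀ᶠ w in 𝓝 z, ContDiffAt ℝ ∞ (fun w => (φ w : ℂ)) (t w) :=
    htz.continuousAt.eventually hev
  ext i j
  have h1 : dzb j (fun w => ((φ (t w) : ℝ) : ℂ)) =ᶠ[𝓝 z] fun w =>
      ∑ k, (starRingEnd ℂ) (jac t w k j) * dzb k (fun w => (φ w : ℂ)) (t w) := by
    filter_upwards [hev2, hV.mem_nhds hz] with w hw hwV
    exact dzb_comp (ht.differentiableAt (hV.mem_nhds hwV)) (hw.differentiableAt (by simp)) j
  have h2 : hess (fun w => φ (t w)) z i j = dz i (fun w =>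
      ∑ k, (starRingEnd ℂ) (jac t w k j) * dzb k (fun w => (φ w : ℂ)) (t w)) z :=
    dz_congr_at h1 i
  have hdj : ∀ k, DifferentiableAt ℝ (fun w => jac t w k j) z := fun k =>
    (jac_differentiableAt hV ht hz k j).restrictScalars ℝ
  have hdc : ∀ k, DifferentiableAt ℝ (fun w => (starRingEnd ℂ) (jac t w k j)) z := fun k =>
    (conjCLE : ℂ →L[ℝ] ℂ).differentiableAt.comp z (hdj k)
  have hdp0 : ∀ k, DifferentiableAt ℝ (dzb k (fun w => (φ w : ℂ))) (t z) := fun k =>
    (contDiffAt_dzb hφc k).differentiableAt (by simp)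
  have hdp : ∀ k, DifferentiableAt ℝ (fun w => dzb k (fun w => (φ w : ℂ)) (t w)) z := fun k =>
    (hdp0 k).comp z (htz.restrictScalars ℝ)
  rw [h2, dz_sum (f := fun k w => (starRingEnd ℂ) (jac t w k j) *
    dzb k (fun w => (φ w : ℂ)) (t w)) _ (fun k _ => (hdc k).mul (hdp k))]
  rw [Matrix.mul_apply]
  refine Finset.sum_congr rfl fun k _ => ?_
  rw [dz_mul_at (hdc k) (hdp k), dz_conj (hdj k), dzb_of_holomorphic (jac_differentiableAt hV ht hz k j),
    map_zero, zero_mul, zero_add, dz_comp htz (hdp0 k), Matrix.mul_apply, Matrix.map_apply,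
    mul_comm]
  congr 1

theorem hess_add {φ ψ : E n → ℝ} {z : E n} (h : SmNear φ z) (h' : SmNear ψ z) :
    hess (fun w => φ w + ψ w) z = hess φ z + hess ψ z := by
  ext i j
  have h1 : dzb j (fun w => ((φ w + ψ w : ℝ) : ℂ)) =ᶠ[𝓝 z] fun w =>
      dzb j (fun w => (φ w : ℂ)) w + dzb j (fun w => (ψ w : ℂ)) w := by
    filter_upwards [h, h'] with w hw hw'
    rw [← dzb_add ((contDiffAt_ofReal hw).differentiableAt (by simp))
      ((contDiffAt_ofReal hw').differentiableAt (by simp))]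
    simp only [ofReal_add]
  have h2 : hess (fun w => φ w + ψ w) z i j = dz i (fun w =>
      dzb j (fun w => (φ w : ℂ)) w + dzb j (fun w => (ψ w : ℂ)) w) z := dz_congr_at h1 i
  rw [h2, dz_add ((contDiffAt_dzb (contDiffAt_ofReal h.at) j).differentiableAt (by simp))
    ((contDiffAt_dzb (contDiffAt_ofReal h'.at) j).differentiableAt (by simp))]
  rfl

/-! ### Pluriharmonic functions -/

theorem smNear_log_norm {g : E n → ℂ} {V : Set (E n)} (hV : IsOpen V)
    (hg : DifferentiableOn ℂ g V) (h0 : ∀ w ∈ V, g w ≠ 0) {z : E n} (hz : z ∈ V) :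
    SmNear (fun w => Real.log (‖g w‖ ^ 2)) z := by
  filter_upwards [hV.mem_nhds hz] with w hw
  have h1 : ContDiffAt ℝ ∞ g w :=
    (contDiffOn_real_of_differentiableOn hV hg).contDiffAt (hV.mem_nhds hw)
  exact (h1.norm_sq ℝ).log (by simpa using h0 w hw)

theorem dzb_log_norm {g : E n → ℂ} {z : E n} (hg : DifferentiableAt ℂ g z) (h0 : g z ≠ 0)
    (j : Fin n) : dzb j (fun w => ((Real.log (‖g w‖ ^ 2) : ℝ) : ℂ)) z =
      (starRingEnd ℂ) (fderiv ℂ g z (Pi.single j 1) / g z) := by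
  have hgR : HasFDerivAt g (fderiv ℝ g z) z := (hg.restrictScalars ℝ).hasFDerivAt
  have h1 : HasFDerivAt (fun w => ‖g w‖ ^ 2) (2 • (innerSL ℝ (g z)).comp (fderiv ℝ g z)) z :=
    hgR.norm_sq
  have h2 : HasFDerivAt (fun w => Real.log (‖g w‖ ^ 2))
      ((‖g z‖ ^ 2)⁻¹ • (2 • (innerSL ℝ (g z)).comp (fderiv ℝ g z))) z :=
    h1.log (by simpa using h0)
  have h3 : HasFDerivAt (fun w => ((Real.log (‖g w‖ ^ 2) : ℝ) : ℂ))
      (Complex.ofRealCLM.comp ((‖g z‖ ^ 2)⁻¹ • (2 • (innerSL ℝ (g z)).comp (fderiv ℝ g z)))) z :=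
    Complex.ofRealCLM.hasFDerivAt.comp z h2
  have key : ∀ v, fderiv ℝ (fun w => ((Real.log (‖g w‖ ^ 2) : ℝ) : ℂ)) z v =
      fderiv ℂ g z v / g z + (starRingEnd ℂ) (fderiv ℂ g z v / g z) := by
    intro v
    rw [h3.fderiv]
    have h4 : fderiv ℝ g z v = fderiv ℂ g z v := fderiv_real hg v
    have hn : ((‖g z‖ ^ 2 : ℝ) : ℂ) = g z * (starRingEnd ℂ) (g z) := by
      rw [mul_conj, normSq_eq_norm_sq]
    have hc : (starRingEnd ℂ) (g z) ≠ 0 := by simpa using h0
    rw [Complex.add_conj]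
    have h5 : (Complex.ofRealCLM.comp ((‖g z‖ ^ 2)⁻¹ • (2 • (innerSL ℝ (g z)).comp
        (fderiv ℝ g z)))) v = (((‖g z‖ ^ 2)⁻¹ * (2 * inner ℝ (g z) (fderiv ℂ g z v)) : ℝ) : ℂ) := by
      simp [h4]
      ring
    rw [h5]
    congr 1
    rw [Complex.inner]
    have h6 : fderiv ℂ g z v / g z = ((starRingEnd ℂ) (g z) * fderiv ℂ g z v) /
        ((‖g z‖ ^ 2 : ℝ) : ℂ) := by
      rw [hn]; field_simp
    rw [h6, Complex.div_ofReal_re]
    ring
  unfold dzb
  rw [key, key, single_I, map_smul, smul_eq_mul]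
  simp only [map_div₀, map_mul, conj_I]
  have hc : (starRingEnd ℂ) (g z) ≠ 0 := by simpa using h0
  field_simp
  linear_combination (fderiv ℂ g z (Pi.single j 1) * (starRingEnd ℂ) (g z) -
    (starRingEnd ℂ) (fderiv ℂ g z (Pi.single j 1)) * g z) * I_sq

theorem hess_log_norm {g : E n → ℂ} {V : Set (E n)} (hV : IsOpen V)
    (hg : DifferentiableOn ℂ g V) (h0 : ∀ w ∈ V, g w ≠ 0) {z : E n} (hz : z ∈ V) :
    hess (fun w => Real.log (‖g w‖ ^ 2)) z = 0 := by
  ext i j
  have h1 : dzb j (fun w => ((Real.log (‖g w‖ ^ 2) : ℝ) : ℂ)) =ᶠ[𝓝 z] fun w =>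
      (starRingEnd ℂ) (fderiv ℂ g w (Pi.single j 1) / g w) := by
    filter_upwards [hV.mem_nhds hz] with w hw
    exact dzb_log_norm (hg.differentiableAt (hV.mem_nhds hw)) (h0 w hw) j
  have h2 : DifferentiableAt ℂ (fun w => fderiv ℂ g w (Pi.single j 1) / g w) z := by
    simp only [div_eq_mul_inv]
    exact ((differentiableOn_fderiv_apply hV hg _).differentiableAt (hV.mem_nhds hz)).fun_mul
      ((hg.differentiableAt (hV.mem_nhds hz)).inv (h0 z hz))
  have h3 : hess (fun w => Real.log (‖g w‖ ^ 2)) z i j = dz i (fun w =>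
      (starRingEnd ℂ) (fderiv ℂ g w (Pi.single j 1) / g w)) z := dz_congr_at h1 i
  rw [h3, dz_conj (h2.restrictScalars ℝ), dzb_of_holomorphic h2, map_zero]
  rfl

/-! ### The scalar curvature -/

theorem map_conj_eq (M : Matrix (Fin n) (Fin n) ℂ) :
    M.transpose = (M.map (starRingEnd ℂ)).conjTranspose := by
  ext i j
  simp [Matrix.conjTranspose_apply]

theorem posDef_comp {M J : Matrix (Fin n) (Fin n) ℂ} (hM : M.PosDef) (hJ : J.det ≠ 0) :
    (J.transpose * M * J.map (starRingEnd ℂ)).PosDef := by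
  rw [map_conj_eq]
  apply hM.conjTranspose_mul_mul_same
  rw [Matrix.mulVec_injective_iff_isUnit, Matrix.isUnit_iff_isUnit_det, isUnit_iff_ne_zero]
  have : (J.map (starRingEnd ℂ)).det = (starRingEnd ℂ) J.det := by
    rw [RingHom.map_det]; rfl
  rw [this]
  simpa using hJ

theorem det_comp_re {M J : Matrix (Fin n) (Fin n) ℂ} (hM : M.PosDef) :
    (J.transpose * M * J.map (starRingEnd ℂ)).det.re = ‖J.det‖ ^ 2 * M.det.re := by
  have : (J.map (starRingEnd ℂ)).det = (starRingEnd ℂ) J.det := by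
    rw [RingHom.map_det]; rfl
  rw [Matrix.det_mul, Matrix.det_mul, Matrix.det_transpose, this, det_eq_re hM]
  have h2 : J.det * (M.det.re : ℂ) * (starRingEnd ℂ) J.det =
      ((‖J.det‖ ^ 2 * M.det.re : ℝ) : ℂ) := by
    rw [ofReal_mul, ← normSq_eq_norm_sq, ← mul_conj]; ring
  rw [h2, ofReal_re, ofReal_re]

theorem sum_inv_eq_trace (M R : Matrix (Fin n) (Fin n) ℂ) :
    ∑ i, ∑ j, M⁻¹ j i * R i j = (M⁻¹ * R).trace := by
  rw [Finset.sum_comm]
  rfl

theorem trace_comp {M R J : Matrix (Fin n) (Fin n) ℂ} (hM : M.det ≠ 0) (hJ : J.det ≠ 0) :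
    ((J.transpose * M * J.map (starRingEnd ℂ))⁻¹ *
      (J.transpose * R * J.map (starRingEnd ℂ))).trace = (M⁻¹ * R).trace := by
  have hJt : IsUnit J.transpose.det := by rw [Matrix.det_transpose]; exact hJ.isUnit
  have hJc : IsUnit (J.map (starRingEnd ℂ)).det := by
    have : (J.map (starRingEnd ℂ)).det = (starRingEnd ℂ) J.det := by
      rw [RingHom.map_det]; rfl
    rw [this, isUnit_iff_ne_zero]
    simpa using hJ
  rw [Matrix.mul_inv_rev, Matrix.mul_inv_rev]
  have h1 : (J.map (starRingEnd ℂ))⁻¹ * (M⁻¹ * J.transpose⁻¹) *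
      (J.transpose * R * J.map (starRingEnd ℂ)) =
      (J.map (starRingEnd ℂ))⁻¹ * ((M⁻¹ * R) * J.map (starRingEnd ℂ)) := by
    have : J.transpose⁻¹ * J.transpose = 1 := Matrix.nonsing_inv_mul _ hJt
    calc _ = (J.map (starRingEnd ℂ))⁻¹ * (M⁻¹ * (J.transpose⁻¹ * J.transpose) * R *
        J.map (starRingEnd ℂ)) := by simp only [Matrix.mul_assoc]
      _ = _ := by rw [this, Matrix.mul_one]
  rw [h1, Matrix.trace_mul_comm, Matrix.mul_assoc, Matrix.mul_nonsing_inv _ hJc, Matrix.mul_one]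

/-- the potential `φ ∘ t + log |h|²` -/
def ppull (t : E n → E m) (h : E n → ℂ) (φ : E m → ℝ) (w : E n) : ℝ :=
  Real.log (‖h w‖ ^ 2) + φ (t w)

theorem smNear_pull {t : E n → E m} {h : E n → ℂ} {V : Set (E n)} (hV : IsOpen V)
    (ht : DifferentiableOn ℂ t V) (hh : DifferentiableOn ℂ h V) (h0 : ∀ w ∈ V, h w ≠ 0)
    {z : E n} (hz : z ∈ V) {φ : E m → ℝ} (hφ : SmNear φ (t z)) : SmNear (ppull t h φ) z :=
  (smNear_log_norm hV hh h0 hz).add (SmNear.comp hV ht hz hφ)

theorem hess_ppull {t : E n → E m} {h : E n → ℂ} {V : Set (E n)} (hV : IsOpen V)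
    (ht : DifferentiableOn ℂ t V) (hh : DifferentiableOn ℂ h V) (h0 : ∀ w ∈ V, h w ≠ 0)
    {z : E n} (hz : z ∈ V) {φ : E m → ℝ} (hφ : SmNear φ (t z)) :
    hess (ppull t h φ) z =
      (jac t z).transpose * hess φ (t z) * (jac t z).map (starRingEnd ℂ) := by
  have := hess_add (smNear_log_norm hV hh h0 hz) (SmNear.comp hV ht hz hφ)
  rw [hess_log_norm hV hh h0 hz, zero_add, hess_comp hV ht hz hφ] at this
  exact this

theorem jac_det_differentiableOn {t : E n → E n} {V : Set (E n)} (hV : IsOpen V)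
    (ht : DifferentiableOn ℂ t V) : DifferentiableOn ℂ (fun w => (jac t w).det) V := by
  intro w hw
  refine DifferentiableAt.differentiableWithinAt ?_
  simp only [Matrix.det_apply]
  refine DifferentiableAt.fun_sum fun σ _ => ?_
  refine DifferentiableAt.const_smul ?_ _
  have h := HasFDerivAt.finsetProd (u := Finset.univ) (g := fun i w => jac t w (σ i) i)
    (x := w) (fun i _ => (jac_differentiableAt hV ht hw (σ i) i).hasFDerivAt)
  exact h.differentiableAt

theorem ppull_apply (t : E n → E m) (h : E n → ℂ) (φ : E m → ℝ) (w : E n) :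
    ppull t h φ w = Real.log (‖h w‖ ^ 2) + φ (t w) := rfl

theorem logdet_apply (φ : E n → ℝ) (z : E n) : logdet φ z = Real.log ((hess φ z).det.re) := rfl

theorem logdet_pull {t : E n → E n} {h : E n → ℂ} {V : Set (E n)} (hV : IsOpen V)
    (ht : DifferentiableOn ℂ t V) (hh : DifferentiableOn ℂ h V) (h0 : ∀ w ∈ V, h w ≠ 0)
    (hJ : ∀ w ∈ V, (jac t w).det ≠ 0)
    {z : E n} (hz : z ∈ V) {φ : E n → ℝ} (hφ : SmNear φ (t z)) (hp : (hess φ (t z)).PosDef) :
    logdet (ppull t h φ) z = ppull t (fun w => (jac t w).det) (logdet φ) z := by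
  rw [logdet_apply, ppull_apply, logdet_apply, hess_ppull hV ht hh h0 hz hφ, det_comp_re hp,
    Real.log_mul (by simpa using hJ z hz) (det_re_pos hp).ne']

theorem scal_pull {t : E n → E n} {h : E n → ℂ} {V : Set (E n)} (hV : IsOpen V)
    (ht : DifferentiableOn ℂ t V) (hh : DifferentiableOn ℂ h V) (h0 : ∀ w ∈ V, h w ≠ 0)
    (hJ : ∀ w ∈ V, (jac t w).det ≠ 0)
    {z : E n} (hz : z ∈ V) {φ : E n → ℝ} (hφ : SmNear φ (t z))
    (hp : ∀ᶠ w in 𝓝 (t z), (hess φ w).PosDef) :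
    scal (ppull t h φ) z = scal φ (t z) := by
  have htc : ContinuousAt t z := (ht.differentiableAt (hV.mem_nhds hz)).continuousAt
  have hld : SmNear (logdet φ) (t z) := by
    filter_upwards [hφ, hp] with w hw hw'
    exact contDiffAt_logdet hw hw'
  have hev : logdet (ppull t h φ) =ᶠ[𝓝 z] ppull t (fun w => (jac t w).det) (logdet φ) := by
    filter_upwards [htc.eventually hφ.eventually, htc.eventually hp, hV.mem_nhds hz] with w h1 h2 h3
    exact logdet_pull hV ht hh h0 hJ h3 h1 h2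
  unfold scal
  rw [hess_congr hev, hess_ppull hV ht hh h0 hz hφ,
    hess_ppull hV ht (jac_det_differentiableOn hV ht) hJ hz hld, sum_inv_eq_trace,
    sum_inv_eq_trace, trace_comp hp.self_of_nhds.det_pos.ne' (hJ z hz)]

end

end Pl

end Pool.Agent.YTDA
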