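import Pool.Agent.YTDA.Mfd2
import Pool.Agent.YTDA.Pull

/-!
# Kähler metrics and vector fields on the manifold of a polarized atlas
-/

namespace Pool.Agent.YTDA

open Complex Set Topology ContDiff Manifold ComplexOrder Module Filter Pl

noncomputable section

namespace PolAtlas

variable {n : ℕ} {Y : Type} [MulAction ℂˣ Y] (A : PolAtlas n Y)

instance isManifoldReal : IsManifold 𝓘(ℝ, E n) ω A.Mfd := by
  apply isManifold_of_contDiffOn
  rintro e e' ⟨a, rfl⟩ ⟨b, rfl⟩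
  have h1 : 𝓘(ℝ, E n).symm ⁻¹' ((A.chart a).symm ≫ₕ A.chart b).source ∩ range 𝓘(ℝ, E n) =
      A.O a b := by
    ext z
    rw [A.mem_O_iff_par]
    simp only [modelWithCornersSelf_coe_symm, OpenPartialHomeomorph.trans_source,
      OpenPartialHomeomorph.symm_source, modelWithCornersSelf_coe, range_id, inter_univ,
      preimage_id, mem_inter_iff, chart_target, mem_preimage, chart_source, chart_symm_apply, dom]
  rw [h1]
  apply (Holo.contDiffOn_real (A.O_open a b) (A.hol_τ' a b)).congr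
  intro z hz
  simp only [modelWithCornersSelf_coe, modelWithCornersSelf_coe_symm, Function.comp_apply, id]
  exact A.co_par' hz

theorem smooth_par (a : A.ι) : ContMDiffOn 𝓘(ℝ, E n) 𝓘(ℝ, E n) ∞ (A.par a) (A.U a) :=
  contMDiffOn_symm_of_mem_maximalAtlas (I := 𝓘(ℝ, E n)) (n := ∞) (e := A.chart a)
    (IsManifold.subset_maximalAtlas ⟨a, rfl⟩)

theorem smooth_co (a : A.ι) : ContMDiffOn 𝓘(ℝ, E n) 𝓘(ℝ, E n) ∞ (A.co a) (A.dom a) :=
  contMDiffOn_of_mem_maximalAtlas (I := 𝓘(ℝ, E n)) (n := ∞) (e := A.chart a)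
    (IsManifold.subset_maximalAtlas ⟨a, rfl⟩)

/-- Smooth functions in terms of charts. -/
theorem smooth_dom_iff {f : A.Mfd → ℝ} {a : A.ι} :
    ContMDiffOn 𝓘(ℝ, E n) 𝓘(ℝ) ∞ f (A.dom a) ↔
      ContDiffOn ℝ ∞ (fun z => f (A.par a z)) (A.U a) := by
  constructor
  · intro h
    rw [← contMDiffOn_iff_contDiffOn]
    exact h.comp (A.smooth_par a) fun z hz => A.par_mem hz
  · intro h
    rw [← contMDiffOn_iff_contDiffOn] at h
    have h1 : ContMDiffOn 𝓘(ℝ, E n) 𝓘(ℝ) ∞ ((fun z => f (A.par a z)) ∘ A.co a) (A.dom a) :=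
      h.comp (A.smooth_co a) fun x hx => A.co_mem hx
    apply h1.congr
    intro x hx
    rw [Function.comp_apply, A.par_co hx]

/-! ### Metrics -/

/-- The hermitian metric on `Y` given by a metric on the line bundle. -/
def toH (m : A.lb.KMetric) : Y → ℝ :=
  A.glue fun c a x => ‖(c : ℂ)‖ ^ 2 * (m.h a x)⁻¹

theorem h_trans (m : A.lb.KMetric) {a b : A.ι} {x : A.Mfd} (ha : x ∈ A.dom a)
    (hb : x ∈ A.dom b) : m.h b x = ‖(A.gg a b x : ℂ)‖ ^ 2 * m.h a x :=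
  m.trans a b x ⟨ha, hb⟩

theorem h_pos (m : A.lb.KMetric) {a : A.ι} {x : A.Mfd} (ha : x ∈ A.dom a) : 0 < m.h a x :=
  m.pos a x ha

theorem toH_eq (m : A.lb.KMetric) {a : A.ι} {z : E n} (hz : z ∈ A.U a) (c : ℂˣ) :
    A.toH m (c • A.γ a z) = ‖(c : ℂ)‖ ^ 2 * (m.h a (A.par a z))⁻¹ := by
  unfold toH
  rw [A.glue_eq _ hz]
  intro c a b x ha hb
  have h1 := A.h_trans m ha hb
  have h2 : ‖(A.gg a b x : ℂ)‖ ≠ 0 := norm_ne_zero_iff.2 (A.gg a b x).ne_zero
  have h3 := (A.h_pos m ha).ne'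
  rw [h1, Units.val_mul, norm_mul]
  field_simp

theorem toH_γ (m : A.lb.KMetric) {a : A.ι} {z : E n} (hz : z ∈ A.U a) :
    A.toH m (A.γ a z) = (m.h a (A.par a z))⁻¹ := by
  have := A.toH_eq m hz 1
  rw [one_smul, Units.val_one, norm_one, one_pow, one_mul] at this
  exact this

theorem pot_toH (m : A.lb.KMetric) {a : A.ι} {z : E n} (hz : z ∈ A.U a) :
    A.pot (A.toH m) a z = -Real.log (m.h a (A.par a z)) := by
  unfold pot
  rw [A.toH_γ m hz, Real.log_inv]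

theorem pot_toH_germ (m : A.lb.KMetric) {a : A.ι} {z : E n} (hz : z ∈ A.U a) :
    A.pot (A.toH m) a =ᶠ[𝓝 z] fun w => -Real.log (m.h a (A.par a w)) := by
  filter_upwards [(A.isOpen_U a).mem_nhds hz] with w hw
  exact A.pot_toH m hw

theorem toH_isKahler (m : A.lb.KMetric) : A.IsKahler (A.toH m) where
  pos y := by
    obtain ⟨a, z, hz, c, rfl⟩ := A.cover y
    rw [A.toH_eq m hz]
    have h1 : 0 < ‖(c : ℂ)‖ := norm_pos_iff.2 c.ne_zero
    have h2 := A.h_pos m (A.par_mem hz)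
    positivity
  hom c y := by
    obtain ⟨a, z, hz, d, rfl⟩ := A.cover y
    rw [smul_smul, A.toH_eq m hz, A.toH_eq m hz, Units.val_mul, norm_mul, mul_pow, mul_assoc]
  smooth a := by
    have h1 : ContMDiffOn 𝓘(ℝ, E n) 𝓘(ℝ) ∞ (m.h a) (A.dom a) := m.smooth a
    rw [A.smooth_dom_iff] at h1
    have h2 : ContDiffOn ℝ ∞ (fun z => -Real.log (m.h a (A.par a z))) (A.U a) :=
      (h1.log fun z hz => (A.h_pos m (A.par_mem hz)).ne').neg
    exact h2.congr fun z hz => A.pot_toH m hz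
  posDef a z hz := by
    rw [hess_congr (A.pot_toH_germ m hz)]
    exact m.posDef a (A.chart a) ⟨a, rfl⟩ z hz (A.par_mem hz)

theorem toH_isCsc {m : A.lb.KMetric} (h : m.IsCsc) : ∃ s, A.IsCsc (A.toH m) s := by
  obtain ⟨s, hs⟩ := h
  refine ⟨s, fun a z hz => ?_⟩
  rw [scal_congr (A.pot_toH_germ m hz)]
  exact hs a (A.chart a) ⟨a, rfl⟩ z hz (A.par_mem hz)

/-! ### Vector fields -/

/-- The coordinates of a vector field on the manifold with respect to the chart `a`. -/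
def vf (v : (x : A.Mfd) → TangentSpace 𝓘(ℂ, E n) x) (a : A.ι) (x : A.Mfd) : E n :=
  fderiv ℂ (A.τ (A.ix x) a) (A.co (A.ix x) x) (v x)

theorem co_mem_O {a b : A.ι} {x : A.Mfd} (ha : x ∈ A.dom a) (hb : x ∈ A.dom b) :
    A.co a x ∈ A.O a b := by
  rw [← A.mem_dom_par (A.co_mem ha), A.par_co ha]
  exact hb

theorem τ_co {a b : A.ι} {x : A.Mfd} (ha : x ∈ A.dom a) (hb : x ∈ A.dom b) :
    A.τ a b (A.co a x) = A.co b x := by
  rw [← A.co_par' (A.co_mem_O ha hb), A.par_co ha]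

theorem differentiableAt_τ {a b : A.ι} {z : E n} (hz : z ∈ A.O a b) :
    DifferentiableAt ℂ (A.τ a b) z :=
  (A.hol_τ' a b).differentiableAt ((A.O_open a b).mem_nhds hz)

/-- cocycle property of the transitions -/
theorem fderiv_τ_comp {a b c : A.ι} {z : E n} (hab : z ∈ A.O a b) (hac : z ∈ A.O a c) :
    fderiv ℂ (A.τ a c) z = (fderiv ℂ (A.τ b c) (A.τ a b z)).comp (fderiv ℂ (A.τ a b) z) := by
  have hbc : A.τ a b z ∈ A.O b c := by
    rw [← A.mem_dom_par (A.τ_mem hab), A.par_τ hab]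
    exact (A.mem_dom_par hab.1).2 hac
  have h1 : A.τ a c =ᶠ[𝓝 z] A.τ b c ∘ A.τ a b := by
    filter_upwards [(A.O_open a b).mem_nhds hab, (A.O_open a c).mem_nhds hac] with w hw hw'
    have hx : A.par a w ∈ A.dom b := (A.mem_dom_par hw.1).2 hw
    have hx' : A.par a w ∈ A.dom c := (A.mem_dom_par hw.1).2 hw'
    rw [Function.comp_apply, ← A.co_par' hw, A.τ_co hx hx', A.co_par' hw']
  rw [h1.fderiv_eq, fderiv_comp z (A.differentiableAt_τ hbc) (A.differentiableAt_τ hab)]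

theorem vf_trans (v : (x : A.Mfd) → TangentSpace 𝓘(ℂ, E n) x) {a b : A.ι} {x : A.Mfd}
    (ha : x ∈ A.dom a) (hb : x ∈ A.dom b) :
    A.vf v b x = fderiv ℂ (A.τ a b) (A.co a x) (A.vf v a x) := by
  unfold vf
  rw [A.fderiv_τ_comp (A.co_mem_O (A.mem_ix x) ha) (A.co_mem_O (A.mem_ix x) hb),
    A.τ_co (A.mem_ix x) ha]
  rfl

theorem fderiv_τ_self {a : A.ι} {z : E n} (hz : z ∈ A.U a) :
    fderiv ℂ (A.τ a a) z = ContinuousLinearMap.id ℂ (E n) := by
  have h1 : A.τ a a =ᶠ[𝓝 z] id := by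
    filter_upwards [(A.isOpen_U a).mem_nhds hz] with w hw
    exact (A.τ_self hw).1
  rw [h1.fderiv_eq, fderiv_id]

theorem vf_ix (v : (x : A.Mfd) → TangentSpace 𝓘(ℂ, E n) x) (x : A.Mfd) :
    A.vf v (A.ix x) x = v x := by
  unfold vf
  rw [A.fderiv_τ_self (A.co_mem (A.mem_ix x))]
  rfl

theorem vf_mdiff (v : (x : A.Mfd) → TangentSpace 𝓘(ℂ, E n) x)
    (hv : MDifferentiable 𝓘(ℂ, E n) 𝓘(ℂ, E n).tangent
      (fun x => (⟨x, v x⟩ : TangentBundle 𝓘(ℂ, E n) A.Mfd))) (x : A.Mfd) :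
    MDifferentiableAt 𝓘(ℂ, E n) 𝓘(ℂ, E n) (A.vf v (A.ix x)) x := by
  have h1 := (mdifferentiableAt_section 𝓘(ℂ, E n) v (b₀ := x)).1 (hv x)
  apply h1.congr_of_eventuallyEq
  filter_upwards [(A.isOpen_dom (A.ix x)).mem_nhds (A.mem_ix x)] with x' hx'
  rw [TangentBundle.trivializationAt_apply]
  unfold vf
  have hO : A.co (A.ix x') x' ∈ A.O (A.ix x') (A.ix x) := A.co_mem_O (A.mem_ix x') hx'
  have h2 : A.τ (A.ix x') (A.ix x) =ᶠ[𝓝 (A.co (A.ix x') x')]
      ((chartAt (E n) x).extend 𝓘(ℂ, E n) ∘ ((chartAt (E n) x').extend 𝓘(ℂ, E n)).symm) := by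
    filter_upwards [(A.O_open (A.ix x') (A.ix x)).mem_nhds hO] with w hw
    exact (A.co_par' hw).symm
  rw [h2.fderiv_eq, ← fderivWithin_univ]
  simp only [modelWithCornersSelf_coe, range_id]
  rfl

/-- The vector field on `Y / ℂˣ` in the charts of the atlas. -/
def toField (v : (x : A.Mfd) → TangentSpace 𝓘(ℂ, E n) x)
    (hv : MDifferentiable 𝓘(ℂ, E n) 𝓘(ℂ, E n).tangent
      (fun x => (⟨x, v x⟩ : TangentBundle 𝓘(ℂ, E n) A.Mfd))) : A.HolField where
  W a z := A.vf v a (A.par a z)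
  hol a := by
    intro z hz
    apply DifferentiableAt.differentiableWithinAt
    set x := A.par a z with hx
    set b := A.ix x with hb
    have hxa : x ∈ A.dom a := A.par_mem hz
    have hxb : x ∈ A.dom b := A.mem_ix x
    have hzO : z ∈ A.O a b := (A.mem_dom_par hz).1 hxb
    have h1 : DifferentiableAt ℂ (fun w => A.vf v b (A.par b w)) (A.co b x) := by
      have h2 := A.vf_mdiff v hv x
      have h3 : MDifferentiableAt 𝓘(ℂ, E n) 𝓘(ℂ, E n) (A.par b) (A.co b x) :=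
        (A.mdiff_par b).mdifferentiableAt ((A.isOpen_U b).mem_nhds (A.co_mem hxb))
      rw [← mdifferentiableAt_iff_differentiableAt]
      have h2' : MDifferentiableAt 𝓘(ℂ, E n) 𝓘(ℂ, E n) (A.vf v b) (A.par b (A.co b x)) := by
        rw [A.par_co hxb]
        exact h2
      exact h2'.comp (A.co b x) h3
    rw [hx, A.co_par' hzO] at h1
    have h4 : (fun w => A.vf v a (A.par a w)) =ᶠ[𝓝 z] fun w =>
        fderiv ℂ (A.τ b a) (A.τ a b w) (A.vf v b (A.par b (A.τ a b w))) := by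
      filter_upwards [(A.O_open a b).mem_nhds hzO] with w hw
      have hwa : A.par a w ∈ A.dom a := A.par_mem hw.1
      have hwb : A.par a w ∈ A.dom b := (A.mem_dom_par hw.1).2 hw
      rw [A.vf_trans v hwb hwa, A.co_par' hw, A.par_τ hw]
    rw [h4.differentiableAt_iff]
    have h5 : DifferentiableAt ℂ (A.τ a b) z := A.differentiableAt_τ hzO
    have h6 : DifferentiableAt ℂ (fderiv ℂ (A.τ b a)) (A.τ a b z) := by
      have h7 : ContDiffOn ℂ ∞ (A.τ b a) (A.O b a) :=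
        Holo.contDiffOn_omega (A.O_open b a) (A.hol_τ' b a)
      have h8 := ((contDiffOn_infty_iff_fderiv_of_isOpen (A.O_open b a)).1 h7).2
      exact (h8.differentiableOn (by simp)).differentiableAt
        ((A.O_open b a).mem_nhds (A.τ_mem_O hzO))
    exact (h6.comp z h5).clm_apply (h1.comp z h5)
  trans a b z hz := by
    have h1 := A.vf_trans v (A.par_mem hz.1) ((A.mem_dom_par hz.1).2 hz)
    rw [A.co_par hz.1] at h1
    rw [A.par_τ hz]
    exact h1

theorem toField_eq_zero {v : (x : A.Mfd) → TangentSpace 𝓘(ℂ, E n) x}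
    {hv : MDifferentiable 𝓘(ℂ, E n) 𝓘(ℂ, E n).tangent
      (fun x => (⟨x, v x⟩ : TangentBundle 𝓘(ℂ, E n) A.Mfd))}
    (h : ∀ a, ∀ z ∈ A.U a, (A.toField v hv).W a z = 0) (x : A.Mfd) : v x = 0 := by
  have h1 := h (A.ix x) _ (A.co_mem (A.mem_ix x))
  have h2 : A.vf v (A.ix x) (A.par (A.ix x) (A.co (A.ix x) x)) = 0 := h1
  rw [A.par_co (A.mem_ix x), A.vf_ix] at h2
  exact h2

theorem noVectorField (h : ∀ W : A.HolField, ∀ a, ∀ z ∈ A.U a, W.W a z = 0) :
    NoVectorField n A.Mfd :=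
  fun _ hv x => A.toField_eq_zero (hv := hv) (h _) x

end PolAtlas

end

end Pool.Agent.YTDA
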