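import Pool.Agent.YTDA.FldX
import Pool.Agent.YTDA.Final17

/-!
# There are no invariant holomorphic vector fields on the fourfold
-/

set_option autoImplicit false

namespace Pool.Agent.YTDA

open Complex Set Topology Filter Metric
open Pool.Agent.YTD

noncomputable section

variable {K : Type} [Field K] [Algebra ℂ K] {T : Datum K} {q : ℕ} {D₀ : T.X.Pt →₀ ℤ}
  {An : AnCurve T.X.toCurveOrd}

/-- There are no holomorphic vector fields on the curve. -/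
def NoFieldC (An : AnCurve T.X.toCurveOrd) (r : T.X.Pt → ℝ) : Prop :=
  ∀ κ : T.X.Pt → ℂ → ℂ, (∀ P, DifferentiableOn ℂ (κ P) (ball 0 (r P))) →
    (∀ P Q, ∀ s ∈ ball (0 : ℂ) (r P), ∀ s' ∈ ball (0 : ℂ) (r Q), ∀ f : ℂ → ℂ, AnalyticAt ℂ f s →
      f s = s' → (∀ᶠ u in 𝓝 s, An.c Q (f u) = An.c P u) → κ Q s' = deriv f s * κ P s) →
    ∀ P, ∀ s ∈ ball (0 : ℂ) (r P), κ P s = 0

/-- Holomorphic functions on the curve are constant. -/
def ConstC (An : AnCurve T.X.toCurveOrd) (r : T.X.Pt → ℝ) : Prop :=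
  ∀ f : T.X.Pt → ℂ,
    (∀ P, DifferentiableOn ℂ (fun s => f (An.c P s)) (ball 0 (r P))) → ∀ P Q, f P = f Q

namespace SigModel

variable (M : SigModel T q D₀ An)

open Classical in
/-- The factor between the chart coordinate and the fibre coordinate `w`. -/
def rhoW (P : T.X.Pt) (u : ℂ) : ℂ := if P ∈ T.S' then u else 1

theorem rho_ne {P : T.X.Pt} {u : ℂ} (h : Ok T P u) : rhoW P u ≠ 0 := by
  unfold rhoW
  split_ifs with h1
  · rcases h with h | h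
    · exact h
    · exact absurd h1 h.2
  · exact one_ne_zero

theorem rho_analytic (P : T.X.Pt) (u : ℂ) : AnalyticAt ℂ (rhoW (T := T) P) u := by
  by_cases h : P ∈ T.S'
  · have : rhoW (T := T) P = id := by
      funext v
      exact if_pos h
    rw [this]
    exact analyticAt_id
  · have : rhoW (T := T) P = fun _ => 1 := by
      funext v
      exact if_neg h
    rw [this]
    exact analyticAt_const

theorem γ_bot_o {P : T.X.Pt} {u : ℂ} (hu : u ∈ ball (0 : ℂ) (M.r P)) (hok : Ok T P u) {x : ℂ}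
    (hx : x ≠ 0) : ∃ w c : ℂˣ, (w : ℂ) = rhoW P u * x ∧
      M.A.γ (M.e (P, 0)) ![u, x] = c • M.o P u w := by
  by_cases hP : P ∈ T.S'
  · have hu0 : u ≠ 0 := by
      rcases hok with h | h
      · exact h
      · exact absurd hP h.2
    have h := M.γ_bot' P hP (Units.mk0 u hu0) (by simpa using hu) (Units.mk0 x hx)
    refine ⟨Units.mk0 u hu0 * Units.mk0 x hx, _, ?_, h⟩
    unfold rhoW
    rw [if_pos hP]
    rfl
  · have h := M.γ_bot P hP u hu (by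
      rcases hok with h | h
      · exact Or.inl h
      · exact Or.inr h.1) (Units.mk0 x hx)
    refine ⟨Units.mk0 x hx, _, ?_, h⟩
    unfold rhoW
    rw [if_neg hP, one_mul]
    rfl

end SigModel

namespace TwoP1

variable {M : SigModel T q D₀ An} {α α' : ℤ} (X : TwoP1 M.A M.D α 3 α' (-3))

/-- The transition between the bottom charts. -/
def tb (f ψ : ℂ → ℂ) (z : E 4) : E 4 := ![f (z 0), ψ (z 0) * z 1, z 2, z 3]

/-- The derivative of the transition. -/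
def tb' (f' ψ' ψ₀ x : ℂ) : E 4 →L[ℂ] E 4 :=
  ContinuousLinearMap.pi ![f' • ContinuousLinearMap.proj 0,
    ψ₀ • ContinuousLinearMap.proj 1 + (x * ψ') • ContinuousLinearMap.proj 0,
    ContinuousLinearMap.proj 2, ContinuousLinearMap.proj 3]

theorem hasFDerivAt_tb {f ψ : ℂ → ℂ} {z : E 4} (hf : DifferentiableAt ℂ f (z 0))
    (hψ : DifferentiableAt ℂ ψ (z 0)) :
    HasFDerivAt (tb f ψ) (tb' (deriv f (z 0)) (deriv ψ (z 0)) (ψ (z 0)) (z 1)) z := by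
  unfold tb'
  rw [hasFDerivAt_pi']
  have h0 : ∀ j : Fin 4, HasFDerivAt (fun z : E 4 => z j)
      (ContinuousLinearMap.proj j : E 4 →L[ℂ] ℂ) z := fun j => hasFDerivAt_apply j z
  intro i
  fin_cases i
  · exact hf.hasDerivAt.comp_hasFDerivAt z (h0 0)
  · have h1 := hψ.hasDerivAt.comp_hasFDerivAt z (h0 0)
    have h2 := h1.mul (h0 1)
    refine h2.congr_fderiv ?_
    ext v
    simp
    ring
  · exact h0 2
  · exact h0 3

theorem mk2_congr {y y' : M.Y} {c : ℂˣ} (h : y' = c • y) (z₁ z₂ : ℂ) (b₁ b₂ : Bool) :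
    (P1Y.mk (P1Y.mk y' (vec b₁ z₁)) (vec b₂ z₂) : P1Y X.D₁ α' (-3)) =
      c • P1Y.mk (P1Y.mk y (vec b₁ z₁)) (vec b₂ z₂) := by
  rw [h, P1Y.smul_mk, P1Y.smul_mk]

/-- A point is general if it does not belong to `S ∪ S'`. -/
theorem ok_of {P : T.X.Pt} {s : ℂ} (h1 : An.c P s ∉ T.S) (h2 : An.c P s ∉ T.S') : Ok T P s := by
  by_cases hs : s = 0
  · subst hs
    rw [An.c_zero] at h1 h2
    exact Or.inr ⟨h1, h2⟩
  · exact Or.inl hs

theorem ok_ev {P : T.X.Pt} {s : ℂ} (h : Ok T P s) : ∀ᶠ u in 𝓝 s, Ok T P u := by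
  rcases h with h | h
  · filter_upwards [isOpen_ne.mem_nhds h] with u hu
    exact Or.inl hu
  · exact Eventually.of_forall fun u => Or.inr h

theorem bot_trans {P Q : T.X.Pt} {s : ℂ} (hs : s ∈ ball (0 : ℂ) (M.r P)) {f : ℂ → ℂ}
    (hf : AnalyticAt ℂ f s) (hfs : f s ∈ ball (0 : ℂ) (M.r Q))
    (hc : ∀ᶠ u in 𝓝 s, An.c Q (f u) = An.c P u) (hS : An.c P s ∉ T.S) (hS' : An.c P s ∉ T.S')
    {z : E 4} (hz0 : z 0 = s) (hz1 : z 1 ≠ 0) :
    ∀ᶠ w in 𝓝 z, w ∈ X.B₂.U (X.bt P) ∧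
      tb f (fun u => SigModel.rhoW P u / SigModel.rhoW Q (f u)) w ∈ X.B₂.U (X.bt Q) ∧
      ∃ c : ℂˣ, X.B₂.γ (X.bt Q) (tb f (fun u => SigModel.rhoW P u / SigModel.rhoW Q (f u)) w) =
        c • X.B₂.γ (X.bt P) w := by
  have hcs := hc.self_of_nhds
  have hokP : Ok T P s := ok_of hS hS'
  have hokQ : Ok T Q (f s) := ok_of (by rw [hcs]; exact hS) (by rw [hcs]; exact hS')
  have e1 : ∀ᶠ u in 𝓝 s, Ok T P u := ok_ev hokP
  have e2 : ∀ᶠ u in 𝓝 s, Ok T Q (f u) := hf.continuousAt.eventually (ok_ev hokQ)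
  have e3 : ∀ᶠ u in 𝓝 s, u ∈ ball (0 : ℂ) (M.r P) := isOpen_ball.mem_nhds hs
  have e4 : ∀ᶠ u in 𝓝 s, f u ∈ ball (0 : ℂ) (M.r Q) :=
    hf.continuousAt.eventually (isOpen_ball.mem_nhds hfs)
  have hz0' : Tendsto (fun w : E 4 => w 0) (𝓝 z) (𝓝 s) := by
    rw [← hz0]
    exact (continuous_apply 0).continuousAt
  have e5 : ∀ᶠ w : E 4 in 𝓝 z, w 1 ≠ 0 := (continuous_apply 1).continuousAt.eventually_ne hz1
  filter_upwards [hz0'.eventually e1, hz0'.eventually e2, hz0'.eventually e3, hz0'.eventually e4,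
    hz0'.eventually hc, e5] with w h1 h2 h3 h4 h5 h6
  have hw1 : w ∈ X.B₂.U (X.bt P) := X.mem_bt.2 (by simpa using h3)
  have hw2 : tb f (fun u => SigModel.rhoW P u / SigModel.rhoW Q (f u)) w ∈ X.B₂.U (X.bt Q) :=
    X.mem_bt.2 (by simpa [tb] using h4)
  refine ⟨hw1, hw2, ?_⟩
  have hr1 : SigModel.rhoW P (w 0) ≠ 0 := SigModel.rho_ne h1
  have hr2 : SigModel.rhoW Q (f (w 0)) ≠ 0 := SigModel.rho_ne h2
  have hx' : SigModel.rhoW P (w 0) / SigModel.rhoW Q (f (w 0)) * w 1 ≠ 0 :=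
    mul_ne_zero (div_ne_zero hr1 hr2) h6
  obtain ⟨v, c, hv, hc1⟩ := M.γ_bot_o h3 h1 h6
  obtain ⟨v', c', hv', hc1'⟩ := M.γ_bot_o h4 h2 hx'
  have hvv : v' = v := by
    apply Units.ext
    rw [hv, hv']
    field_simp
  have h7 := M.o_tr P Q (w 0) h3 (f (w 0)) h4 h1 h2 h5.symm v
  rw [hvv, h7, smul_smul] at hc1'
  have h8 : M.o P (w 0) v = c⁻¹ • M.A.γ (M.e (P, 0)) ![w 0, w 1] := by
    rw [hc1, inv_smul_smul]
  rw [h8, smul_smul] at hc1'
  rw [bt, bt, X.γ_eq (X.mem_U.1 hw1), X.γ_eq (X.mem_U.1 hw2)]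
  exact ⟨_, X.mk2_congr hc1' (w 2) (w 3) false false⟩

/-- The transition law of vector fields between the bottom charts. -/
theorem W_bot {P Q : T.X.Pt} {s : ℂ} (hs : s ∈ ball (0 : ℂ) (M.r P)) {f : ℂ → ℂ}
    (hf : AnalyticAt ℂ f s) (hfs : f s ∈ ball (0 : ℂ) (M.r Q))
    (hc : ∀ᶠ u in 𝓝 s, An.c Q (f u) = An.c P u) (hS : An.c P s ∉ T.S) (hS' : An.c P s ∉ T.S')
    (W : X.B₂.HolField) {z : E 4} (hz0 : z 0 = s) (hz1 : z 1 ≠ 0) :
    ∃ ψ₀ ψ' : ℂ, ψ₀ ≠ 0 ∧ W.W (X.bt Q) ![f s, ψ₀ * z 1, z 2, z 3] =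
      ![deriv f s * W.W (X.bt P) z 0, ψ₀ * W.W (X.bt P) z 1 + z 1 * ψ' * W.W (X.bt P) z 0,
        W.W (X.bt P) z 2, W.W (X.bt P) z 3] := by
  set ψ : ℂ → ℂ := fun u => SigModel.rhoW P u / SigModel.rhoW Q (f u) with hψ
  have hcs := hc.self_of_nhds
  have hokP : Ok T P s := ok_of hS hS'
  have hokQ : Ok T Q (f s) := ok_of (by rw [hcs]; exact hS) (by rw [hcs]; exact hS')
  have hψd : DifferentiableAt ℂ ψ s := by
    have h1 : AnalyticAt ℂ ψ s :=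
      (SigModel.rho_analytic P s).div ((SigModel.rho_analytic Q (f s)).comp hf)
        (SigModel.rho_ne hokQ)
    exact h1.differentiableAt
  have h1 := W.trans' (hasFDerivAt_tb (f := f) (ψ := ψ) (z := z)
    (by rw [hz0]; exact hf.differentiableAt) (by rw [hz0]; exact hψd))
    (X.bot_trans hs hf hfs hc hS hS' hz0 hz1)
  refine ⟨ψ s, deriv ψ s, div_ne_zero (SigModel.rho_ne hokP) (SigModel.rho_ne hokQ), ?_⟩
  have h2 : tb f ψ z = ![f s, ψ s * z 1, z 2, z 3] := by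
    unfold tb
    rw [hz0]
  rw [← h2, h1, hz0]
  unfold tb'
  ext j
  fin_cases j <;> simp

variable (M) in
/-- The three symmetries on the bottom charts. -/
structure SymMaps (σ σ₁ σ₂ : T.X.Pt → T.X.Pt) (e₁ e₂ e₃ : P1Y X.D₁ α' (-3) → P1Y X.D₁ α' (-3)) :
    Prop where
  r : ∀ P, M.r (σ P) = M.r P
  r₁ : ∀ P, M.r (σ₁ P) = M.r P
  r₂ : ∀ P, M.r (σ₂ P) = M.r P
  SS : ∀ P, P ∈ T.S' ↔ σ P ∈ T.S
  SS' : ∀ P, P ∈ T.S ↔ σ P ∈ T.S'
  e₁ : ∀ P, ∀ z : E 4, ‖z 0‖ < M.r P → ∃ c : ℂˣ, e₁ (X.pt (M.e (P, 0)) false false z) =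
    c • X.pt (M.e (σ₁ P, 0)) false false ![z 0, z 1, -z 2, -z 3]
  e₂ : ∀ P, ∀ z : E 4, ‖z 0‖ < M.r P → ∃ c : ℂˣ, e₂ (X.pt (M.e (P, 0)) false false z) =
    c • X.pt (M.e (σ₂ P, 0)) true true z
  e₃ : ∀ P, ∀ z : E 4, ‖z 0‖ < M.r P → ∃ c : ℂˣ, e₃ (X.pt (M.e (P, 0)) false false z) =
    c • X.pt (M.e (σ P, 1)) false false ![z 0, z 1, z 3, z 2]

variable {σ σ₁ σ₂ : T.X.Pt → T.X.Pt} {e₁ e₂ e₃ : P1Y X.D₁ α' (-3) → P1Y X.D₁ α' (-3)}

/-- sign change -/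
def tneg : E 4 →L[ℂ] E 4 :=
  ContinuousLinearMap.pi ![ContinuousLinearMap.proj 0, ContinuousLinearMap.proj 1,
    -ContinuousLinearMap.proj 2, -ContinuousLinearMap.proj 3]

theorem tneg_apply (z : E 4) : tneg z = ![z 0, z 1, -z 2, -z 3] := by
  ext j
  fin_cases j <;> simp [tneg]

/-- exchange -/
def tswap : E 4 →L[ℂ] E 4 :=
  ContinuousLinearMap.pi ![ContinuousLinearMap.proj 0, ContinuousLinearMap.proj 1,
    ContinuousLinearMap.proj 3, ContinuousLinearMap.proj 2]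

theorem tswap_apply (z : E 4) : tswap z = ![z 0, z 1, z 3, z 2] := by
  ext j
  fin_cases j <;> simp [tswap]

variable {X}

theorem SymMaps.inv₁ (h : SymMaps M X σ σ₁ σ₂ e₁ e₂ e₃) {W : X.B₂.HolField}
    (hW : PolAtlas.FieldInv X.B₂ e₁ W) (P : T.X.Pt) {z : E 4} (hz : ‖z 0‖ < M.r P) :
    W.W (X.bt (σ₁ P)) ![z 0, z 1, -z 2, -z 3] = tneg (W.W (X.bt P) z) := by
  have h1 : z ∈ X.B₂.U (X.bt P) := X.mem_bt.2 hz
  have h2 : tneg z ∈ X.B₂.U (X.bt (σ₁ P)) := X.mem_bt.2 (by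
    rw [tneg_apply, h.r₁]
    exact hz)
  have h3 := hW (X.bt P) (X.bt (σ₁ P)) z tneg h1 h2 tneg.continuous.continuousAt (by
    filter_upwards [(X.B₂.isOpen_U (X.bt P)).mem_nhds h1] with w hw
    have hw' := X.mem_bt.1 hw
    obtain ⟨c, hc⟩ := h.e₁ P w hw'
    refine ⟨c, ?_⟩
    have h4 : tneg w ∈ X.B₂.U (X.bt (σ₁ P)) := X.mem_bt.2 (by
      rw [tneg_apply, h.r₁]
      exact hw')
    rw [bt, bt, X.γ_eq (X.mem_U.1 hw), X.γ_eq (X.mem_U.1 h4), tneg_apply]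
    exact hc)
  rw [tneg.fderiv, tneg_apply z] at h3
  exact h3

theorem mem_TT {P : T.X.Pt} {b₁ b₂ : Bool} {z : E 4} :
    z ∈ X.B₂.U (X.i (M.e (P, 0)) b₁ b₂) ↔ ‖z 0‖ < M.r P := by
  rw [X.mem_U, M.U_bot]
  rfl

theorem mem_top {P : T.X.Pt} {b₁ b₂ : Bool} {z : E 4} :
    z ∈ X.B₂.U (X.i (M.e (P, 1)) b₁ b₂) ↔ ‖z 0‖ < M.r P := by
  rw [X.mem_U, M.U_top]
  rfl

theorem SymMaps.inv₂ (h : SymMaps M X σ σ₁ σ₂ e₁ e₂ e₃) {W : X.B₂.HolField}
    (hW : PolAtlas.FieldInv X.B₂ e₂ W) (P : T.X.Pt) {z : E 4} (hz : ‖z 0‖ < M.r P) :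
    W.W (X.i (M.e (σ₂ P, 0)) true true) z = W.W (X.bt P) z := by
  have h1 : z ∈ X.B₂.U (X.bt P) := X.mem_bt.2 hz
  have h2 : z ∈ X.B₂.U (X.i (M.e (σ₂ P, 0)) true true) := mem_TT.2 (by
    rw [h.r₂]
    exact hz)
  have h3 := hW (X.bt P) (X.i (M.e (σ₂ P, 0)) true true) z id h1 h2 continuousAt_id (by
    filter_upwards [(X.B₂.isOpen_U (X.bt P)).mem_nhds h1] with w hw
    have hw' := X.mem_bt.1 hw
    obtain ⟨c, hc⟩ := h.e₂ P w hw'
    refine ⟨c, ?_⟩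
    have h4 : w ∈ X.B₂.U (X.i (M.e (σ₂ P, 0)) true true) := mem_TT.2 (by
      rw [h.r₂]
      exact hw')
    rw [bt, X.γ_eq (X.mem_U.1 hw), id, X.γ_eq (X.mem_U.1 h4)]
    exact hc)
  rw [fderiv_id] at h3
  exact h3

theorem SymMaps.inv₃ (h : SymMaps M X σ σ₁ σ₂ e₁ e₂ e₃) {W : X.B₂.HolField}
    (hW : PolAtlas.FieldInv X.B₂ e₃ W) (P : T.X.Pt) {z : E 4} (hz : ‖z 0‖ < M.r P) :
    W.W (X.i (M.e (σ P, 1)) false false) ![z 0, z 1, z 3, z 2] = tswap (W.W (X.bt P) z) := by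
  have h1 : z ∈ X.B₂.U (X.bt P) := X.mem_bt.2 hz
  have h2 : tswap z ∈ X.B₂.U (X.i (M.e (σ P, 1)) false false) := mem_top.2 (by
    rw [tswap_apply, h.r]
    exact hz)
  have h3 := hW (X.bt P) (X.i (M.e (σ P, 1)) false false) z tswap h1 h2
    tswap.continuous.continuousAt (by
    filter_upwards [(X.B₂.isOpen_U (X.bt P)).mem_nhds h1] with w hw
    have hw' := X.mem_bt.1 hw
    obtain ⟨c, hc⟩ := h.e₃ P w hw'
    refine ⟨c, ?_⟩
    have h4 : tswap w ∈ X.B₂.U (X.i (M.e (σ P, 1)) false false) := mem_top.2 (by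
      rw [tswap_apply, h.r]
      exact hw')
    rw [bt, X.γ_eq (X.mem_U.1 hw), X.γ_eq (X.mem_U.1 h4), tswap_apply]
    exact hc)
  rw [tswap.fderiv, tswap_apply z] at h3
  exact h3

/-- The transition to the top chart at a general point. -/
def ti (z : E 4) : E 4 := ![z 0, (z 1)⁻¹, z 2, z 3]

theorem hasFDerivAt_ti {z : E 4} (hz : z 1 ≠ 0) :
    HasFDerivAt ti (ContinuousLinearMap.pi ![ContinuousLinearMap.proj 0,
      (-(z 1 ^ 2)⁻¹) • ContinuousLinearMap.proj 1, ContinuousLinearMap.proj 2,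
      ContinuousLinearMap.proj 3] : E 4 →L[ℂ] E 4) z := by
  rw [hasFDerivAt_pi']
  have h0 : ∀ j : Fin 4, HasFDerivAt (fun z : E 4 => z j)
      (ContinuousLinearMap.proj j : E 4 →L[ℂ] ℂ) z := fun j => hasFDerivAt_apply j z
  intro i
  fin_cases i
  · exact h0 0
  · exact (hasDerivAt_inv hz).comp_hasFDerivAt z (h0 1)
  · exact h0 2
  · exact h0 3

variable (X) in
theorem W_top {Q : T.X.Pt} (hS : Q ∉ T.S) (hS' : Q ∉ T.S') (W : X.B₂.HolField) {z : E 4}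
    (hz : ‖z 0‖ < M.r Q) (hz1 : z 1 ≠ 0) :
    W.W (X.i (M.e (Q, 1)) false false) ![z 0, (z 1)⁻¹, z 2, z 3] =
      ![W.W (X.bt Q) z 0, -W.W (X.bt Q) z 1 / z 1 ^ 2, W.W (X.bt Q) z 2, W.W (X.bt Q) z 3] := by
  have hev : ∀ᶠ w in 𝓝 z, w ∈ X.B₂.U (X.bt Q) ∧ ti w ∈ X.B₂.U (X.i (M.e (Q, 1)) false false) ∧
      ∃ c : ℂˣ, X.B₂.γ (X.i (M.e (Q, 1)) false false) (ti w) = c • X.B₂.γ (X.bt Q) w := by
    have o1 : ∀ᶠ w : E 4 in 𝓝 z, w ∈ X.B₂.U (X.bt Q) :=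
      (X.B₂.isOpen_U _).mem_nhds (X.mem_bt.2 hz)
    have o2 : ∀ᶠ w : E 4 in 𝓝 z, w 1 ≠ 0 :=
      (continuous_apply 1).continuousAt.eventually_ne hz1
    filter_upwards [o1, o2] with w hw hw1
    have hw0 : ‖w 0‖ < M.r Q := X.mem_bt.1 hw
    have hw0' : w 0 ∈ ball (0 : ℂ) (M.r Q) := by simpa using hw0
    have hw2 : ti w ∈ X.B₂.U (X.i (M.e (Q, 1)) false false) := mem_top.2 hw0
    refine ⟨hw, hw2, ?_⟩
    have h1 := M.γ_top Q hS (w 0) hw0' (Or.inr hS') (Units.mk0 (w 1) hw1)⁻¹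
    have h2 := M.γ_bot Q hS' (w 0) hw0' (Or.inr hS) (Units.mk0 (w 1) hw1)
    rw [inv_inv] at h1
    have h3 : M.o Q (w 0) (Units.mk0 (w 1) hw1) =
        (Units.mk0 (w 1) hw1 ^ (5 * (q : ℤ)))⁻¹ • M.A.γ (M.e (Q, 0)) ![w 0, w 1] := by
      rw [eq_inv_smul_iff]
      exact h2.symm
    rw [h3, smul_smul] at h1
    rw [bt, X.γ_eq (X.mem_U.1 hw), X.γ_eq (X.mem_U.1 hw2)]
    have h4 : (![ti w 0, ti w 1] : E 2) = ![w 0, (((Units.mk0 (w 1) hw1)⁻¹ : ℂˣ) : ℂ)] := by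
      rw [Units.val_inv_eq_inv_val, Units.val_mk0]
      rfl
    rw [← h4] at h1
    exact ⟨_, X.mk2_congr h1 (w 2) (w 3) false false⟩
  have h1 := W.trans' (hasFDerivAt_ti hz1) hev
  have h2 : ti z = ![z 0, (z 1)⁻¹, z 2, z 3] := rfl
  rw [← h2, h1]
  ext j
  fin_cases j <;> simp
  ring

variable (X) in
/-- A vector field vanishing on the bottom charts vanishes. -/
theorem zero_all (W : X.B₂.HolField) (h : ∀ P, ∀ z ∈ X.B₂.U (X.bt P), W.W (X.bt P) z = 0) :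
    ∀ a, ∀ z ∈ X.B₂.U a, W.W a z = 0 := by
  intro a
  obtain ⟨a, b₁, b₂, rfl⟩ := X.i_surj a
  obtain ⟨⟨P, j⟩, rfl⟩ := M.e.surjective a
  have key : ∀ z ∈ X.B₂.U (X.i (M.e (P, j)) b₁ b₂), (∀ i, z i ≠ 0) →
      W.W (X.i (M.e (P, j)) b₁ b₂) z = 0 := by
    intro z hz hne
    have hz' := X.mem_U.1 hz
    obtain ⟨z', hz1, c, hc⟩ := X.exists_pt
      (M.gd hz' (hne 0) (hne 1)) b₁ b₂ (hne 2) (hne 3)
    have hz2 : z' ∈ X.B₂.U (X.bt P) := X.mem_U.2 hz1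
    have e : X.B₂.γ (X.i (M.e (P, j)) b₁ b₂) z = c • X.B₂.γ (X.bt P) z' := by
      rw [X.γ_eq hz', bt, X.γ_eq hz1]
      exact hc
    have h1 := W.trans _ _ z' (PolAtlas.mem_O_mk hz2 hz e)
    rw [PolAtlas.τ_eq_of hz2 hz e, h P z' hz2, map_zero] at h1
    exact h1
  intro z hz
  have hU : X.B₂.U (X.i (M.e (P, j)) b₁ b₂) ∈ 𝓝 z := (X.B₂.isOpen_U _).mem_nhds hz
  have c1 : ContinuousAt (W.W (X.i (M.e (P, j)) b₁ b₂)) z :=
    ((W.hol _).differentiableAt hU).continuousAt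
  have hne : (𝓝[{z : E 4 | ∀ i, z i ≠ 0}] z).NeBot :=
    mem_closure_iff_nhdsWithin_neBot.1 ((PolAtlas.dense_nz 4) z)
  have hev : ∀ᶠ w in 𝓝[{z : E 4 | ∀ i, z i ≠ 0}] z,
      W.W (X.i (M.e (P, j)) b₁ b₂) w = 0 := by
    filter_upwards [self_mem_nhdsWithin, mem_nhdsWithin_of_mem_nhds hU] with w h1 h2
    exact key w h2 h1
  have t1 := c1.tendsto.mono_left (nhdsWithin_le_nhds (s := {z : E 4 | ∀ i, z i ≠ 0}))
  have t2 : Tendsto (fun _ : E 4 => (0 : E 4)) (𝓝[{z : E 4 | ∀ i, z i ≠ 0}] z) (𝓝 0) :=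
    tendsto_const_nhds
  exact tendsto_nhds_unique_of_eventuallyEq t1 t2 hev

/-- There is no invariant vector field on the fourfold. -/
theorem noField (hconst : ConstC An M.r) (hnof : NoFieldC An M.r)
    (h : SymMaps M X σ σ₁ σ₂ e₁ e₂ e₃) (W : X.B₂.HolField)
    (h₁ : PolAtlas.FieldInv X.B₂ e₁ W) (h₂ : PolAtlas.FieldInv X.B₂ e₂ W)
    (h₃ : PolAtlas.FieldInv X.B₂ e₃ W) : ∀ a, ∀ z ∈ X.B₂.U a, W.W a z = 0 := by
  apply X.zero_all W
  -- the structure of the field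
  have hE : ∀ P, ∀ z ∈ X.B₂.U (X.bt P), ∀ z' ∈ X.B₂.U (X.bt (σ₁ P)), z' 2 = -z 2 →
      z' 3 = -z 3 → z' 0 = z 0 → z' 1 = z 1 → W.W (X.bt (σ₁ P)) z' 2 = -W.W (X.bt P) z 2 ∧
        W.W (X.bt (σ₁ P)) z' 3 = -W.W (X.bt P) z 3 := by
    intro P z hz z' hz' e2 e3 e0 e1
    have e : z' = ![z 0, z 1, -z 2, -z 3] := by
      ext j
      fin_cases j
      · exact e0
      · exact e1
      · exact e2
      · exact e3
    have h4 := h.inv₁ h₁ P (X.mem_bt.1 hz)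
    rw [e, h4, tneg_apply]
    exact ⟨rfl, rfl⟩
  have hs : ∀ (P : T.X.Pt) (s : ℂ), ‖s‖ < M.r P → ∃ κ e p₁ q₁ : ℂ, ∀ w z₁ z₂,
      W.W (X.bt P) ![s, w, z₁, z₂] = ![κ, w * e, p₁ * z₁, q₁ * z₂] := fun P s hs =>
    X.sym_main hconst W σ₁ hE h.r₁ P hs
  choose! κ e p₁ q₁ hform using hs
  -- the components `p₁`, `q₁` vanish
  have hpq : ∀ P s, ‖s‖ < M.r P → p₁ P s = 0 ∧ q₁ P s = 0 := by
    intro P s hs
    have hs2 : ‖s‖ < M.r (σ₂ P) := by
      rw [h.r₂]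
      exact hs
    have a1 := h.inv₂ h₂ P (z := ![s, 0, 1, 1]) hs
    rw [hform P _ hs] at a1
    have hU : (![(![s, 0, 1, 1] : E 4) 0, (![s, 0, 1, 1] : E 4) 1] : E 2) ∈
        M.A.U (M.e (σ₂ P, 0)) := M.mem_bot hs2
    have b1 := X.W_t2 W (M.k_bot' (σ₂ P)) false (z := ![s, 0, 1, 1]) hU one_ne_zero
    have b2 := X.W_t1 W (M.k_bot' (σ₂ P)) true (z := ![s, 0, 1, 1]) hU one_ne_zero
    have c1 : (![(![s, 0, 1, 1] : E 4) 0, (![s, 0, 1, 1] : E 4) 1 / (![s, 0, 1, 1] : E 4) 3 ^ 3,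
        (![s, 0, 1, 1] : E 4) 2, ((![s, 0, 1, 1] : E 4) 3)⁻¹] : E 4) = ![s, 0, 1, 1] := by
      ext j
      fin_cases j <;> simp
    have c2 : (![(![s, 0, 1, 1] : E 4) 0, (![s, 0, 1, 1] : E 4) 2 ^ 3 * (![s, 0, 1, 1] : E 4) 1,
        ((![s, 0, 1, 1] : E 4) 2)⁻¹, (![s, 0, 1, 1] : E 4) 3] : E 4) = ![s, 0, 1, 1] := by
      ext j
      fin_cases j <;> simp
    rw [c1] at b1
    rw [c2, a1] at b2
    have d2 := X.const_last hconst W 2 (Or.inl rfl) (σ₂ P) P hs2 hs 0 0 1 1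
    have d3 := X.const_last hconst W 3 (Or.inr rfl) (σ₂ P) P hs2 hs 0 0 1 1
    rw [hform P _ hs] at d2 d3
    have f2 := congrFun b2 2
    have f3 := congrFun b2 3
    have g2 := congrFun b1 2
    have g3 := congrFun b1 3
    have k2 : p₁ P s * 1 = -W.W (X.i (M.e (σ₂ P, 0)) false true) ![s, 0, 1, 1] 2 / 1 ^ 2 := f2
    have k3 : q₁ P s * 1 = W.W (X.i (M.e (σ₂ P, 0)) false true) ![s, 0, 1, 1] 3 := f3
    have l2 : W.W (X.i (M.e (σ₂ P, 0)) false true) ![s, 0, 1, 1] 2 =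
      W.W (X.bt (σ₂ P)) ![s, 0, 1, 1] 2 := g2
    have l3 : W.W (X.i (M.e (σ₂ P, 0)) false true) ![s, 0, 1, 1] 3 =
      -W.W (X.bt (σ₂ P)) ![s, 0, 1, 1] 3 / 1 ^ 2 := g3
    have m2 : W.W (X.bt (σ₂ P)) ![s, 0, 1, 1] 2 = p₁ P s * 1 := d2
    have m3 : W.W (X.bt (σ₂ P)) ![s, 0, 1, 1] 3 = q₁ P s * 1 := d3
    rw [l2, m2] at k2
    rw [l3, m3] at k3
    constructor
    · linear_combination k2 / 2
    · linear_combination k3 / 2
  -- the component along the curve vanishes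
  have hκ : ∀ P, ∀ s ∈ ball (0 : ℂ) (M.r P), κ P s = 0 := by
    apply hnof
    · intro P
      have h4 : DifferentiableOn ℂ (fun s : ℂ => W.W (X.bt P) ![s, 0, 0, 0] 0)
          (ball 0 (M.r P)) := by
        intro s hs
        have hU : (![s, 0, 0, 0] : E 4) ∈ X.B₂.U (X.bt P) := X.mem_bt.2 (by simpa using hs)
        have d1 : DifferentiableAt ℂ (W.W (X.bt P)) ![s, 0, 0, 0] :=
          (W.hol _).differentiableAt ((X.B₂.isOpen_U _).mem_nhds hU)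
        have d2 : DifferentiableAt ℂ (fun s : ℂ => (![s, 0, 0, 0] : E 4)) s := by
          rw [differentiableAt_pi]
          intro k
          fin_cases k <;> simp
        have d3 := d1.comp s (f := fun s : ℂ => (![s, 0, 0, 0] : E 4)) d2
        exact (differentiableAt_pi.1 d3 0).differentiableWithinAt
      refine h4.congr fun s hs => ?_
      rw [hform P _ (by simpa using hs)]
      rfl
    · intro P Q s hs s' hs' f hf hfs hc
      subst hfs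
      have hsn : ‖s‖ < M.r P := by simpa using hs
      have hsn' : ‖f s‖ < M.r Q := by simpa using hs'
      by_cases hSS : An.c P s ∉ T.S ∧ An.c P s ∉ T.S'
      · obtain ⟨ψ₀, ψ', hψ, h5⟩ := X.W_bot hs hf hs' hc hSS.1 hSS.2 W (z := ![s, 1, 0, 0]) rfl
          one_ne_zero
        have h6 := congrFun h5 0
        have h7 : W.W (X.bt Q) ![f s, ψ₀ * 1, 0, 0] 0 =
          deriv f s * W.W (X.bt P) ![s, 1, 0, 0] 0 := h6
        rw [hform Q _ hsn', hform P _ hsn] at h7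
        exact h7
      · -- special points
        have hs0 : s = 0 := by
          by_contra hs0
          exact hSS ⟨(M.iso P s hs hs0).1, (M.iso P s hs hs0).2.1⟩
        have hcs := hc.self_of_nhds
        have hs0' : f s = 0 := by
          by_contra hs0'
          have := M.iso Q (f s) hs' hs0'
          rw [hcs] at this
          exact hSS ⟨this.1, this.2.1⟩
        have hPQ : Q = P := by
          rw [hs0', An.c_zero, hs0, An.c_zero] at hcs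
          exact hcs
        subst hPQ
        have hid : f =ᶠ[𝓝 s] id := by
          have e1 : ∀ᶠ u in 𝓝 s, u ∈ ball (0 : ℂ) (An.r Q) :=
            isOpen_ball.mem_nhds (ball_subset_ball (M.r_le Q) hs)
          have e2 : ∀ᶠ u in 𝓝 s, f u ∈ ball (0 : ℂ) (An.r Q) :=
            hf.continuousAt.eventually (isOpen_ball.mem_nhds (ball_subset_ball (M.r_le Q) hs'))
          filter_upwards [hc, e1, e2] with u h1 h2 h3
          exact An.inj Q h3 h2 h1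
        rw [hid.deriv_eq, hs0', hs0, deriv_id, one_mul]
  -- the component along the fibres of `Σ`
  have hform' : ∀ (P : T.X.Pt) {s : ℂ}, ‖s‖ < M.r P → ∀ w z₁ z₂,
      W.W (X.bt P) ![s, w, z₁, z₂] = ![0, w * e P s, 0, 0] := by
    intro P s hs w z₁ z₂
    rw [hform P _ hs, hκ P s (by simpa using hs), (hpq P s hs).1, (hpq P s hs).2, zero_mul,
      zero_mul]
  have he1 : ∀ P Q : T.X.Pt, ∀ s ∈ ball (0 : ℂ) (M.r P), ∀ s' ∈ ball (0 : ℂ) (M.r Q),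
      An.c P s = An.c Q s' → e Q s' = e P s := by
    intro P Q s hs s' hs' hcc
    have hsn : ‖s‖ < M.r P := by simpa using hs
    have hsn' : ‖s'‖ < M.r Q := by simpa using hs'
    by_cases hSS : An.c P s ∉ T.S ∧ An.c P s ∉ T.S'
    · obtain ⟨f, hf, hfs, -, hc, -⟩ := An.tr P Q s (ball_subset_ball (M.r_le P) hs) s'
        (ball_subset_ball (M.r_le Q) hs') hcc
      subst hfs
      obtain ⟨ψ₀, ψ', hψ, h5⟩ := X.W_bot hs hf hs' hc hSS.1 hSS.2 W (z := ![s, 1, 0, 0]) rfl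
        one_ne_zero
      have h6 := congrFun h5 1
      have h7 : W.W (X.bt Q) ![f s, ψ₀ * 1, 0, 0] 1 = ψ₀ * W.W (X.bt P) ![s, 1, 0, 0] 1 +
        1 * ψ' * W.W (X.bt P) ![s, 1, 0, 0] 0 := h6
      rw [hform' Q hsn', hform' P hsn] at h7
      have h8 : ψ₀ * 1 * e Q (f s) = ψ₀ * (1 * e P s) + 1 * ψ' * 0 := h7
      apply mul_left_cancel₀ hψ
      linear_combination h8
    · have hs0 : s = 0 := by
        by_contra hs0
        exact hSS ⟨(M.iso P s hs hs0).1, (M.iso P s hs hs0).2.1⟩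
      have hs0' : s' = 0 := by
        by_contra hs0'
        have := M.iso Q s' hs' hs0'
        rw [← hcc] at this
        exact hSS ⟨this.1, this.2.1⟩
      have hPQ : Q = P := by
        rw [hs0', An.c_zero, hs0, An.c_zero] at hcc
        exact hcc.symm
      rw [hPQ, hs0, hs0']
  have he2 : ∀ (P : T.X.Pt), ∀ s ∈ ball (0 : ℂ) (M.r P), e P s = e (An.c P s) 0 := by
    intro P s hs
    symm
    apply he1 P (An.c P s) s hs 0 (mem_ball_self (M.r_pos _))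
    rw [An.c_zero]
  have he3 : ∀ P Q : T.X.Pt, e P 0 = e Q 0 := by
    apply hconst (fun P => e P 0)
    intro P
    have h4 : DifferentiableOn ℂ (fun s : ℂ => W.W (X.bt P) ![s, 1, 0, 0] 1)
        (ball 0 (M.r P)) := by
      intro s hs
      have hU : (![s, 1, 0, 0] : E 4) ∈ X.B₂.U (X.bt P) := X.mem_bt.2 (by simpa using hs)
      have d1 : DifferentiableAt ℂ (W.W (X.bt P)) ![s, 1, 0, 0] :=
        (W.hol _).differentiableAt ((X.B₂.isOpen_U _).mem_nhds hU)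
      have d2 : DifferentiableAt ℂ (fun s : ℂ => (![s, 1, 0, 0] : E 4)) s := by
        rw [differentiableAt_pi]
        intro k
        fin_cases k <;> simp
      have d3 := d1.comp s (f := fun s : ℂ => (![s, 1, 0, 0] : E 4)) d2
      exact (differentiableAt_pi.1 d3 1).differentiableWithinAt
    refine h4.congr fun s hs => ?_
    rw [hform' P (by simpa using hs), ← he2 P s hs]
    show e P s = 1 * e P s
    rw [one_mul]
  -- the exchange of top and bottom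
  have hne : ∃ P₀ : T.X.Pt, P₀ ∈ T.S := by
    have h4 : 0 < T.S.card := by
      rw [T.card_S]
      have := T.t_pos
      positivity
    exact Finset.card_pos.1 h4
  obtain ⟨P₀, -⟩ := hne
  have hr0 := M.r_pos P₀
  have hs₀ : (((M.r P₀ / 2 : ℝ) : ℂ)) ∈ ball (0 : ℂ) (M.r P₀) := by
    rw [mem_ball, dist_zero_right, Complex.norm_real, Real.norm_eq_abs, abs_of_pos (by positivity)]
    linarith
  have hs₀' : ((M.r P₀ / 2 : ℝ) : ℂ) ≠ 0 := by
    exact_mod_cast (by positivity : M.r P₀ / 2 ≠ 0)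
  obtain ⟨i1, i2, -⟩ := M.iso P₀ _ hs₀ hs₀'
  set R := An.c P₀ ((M.r P₀ / 2 : ℝ) : ℂ) with hR
  have j1 : σ R ∉ T.S := fun h4 => i2 ((h.SS R).2 h4)
  have j2 : σ R ∉ T.S' := fun h4 => i1 ((h.SS' R).2 h4)
  have hez : e R 0 = 0 := by
    have a1 := h.inv₃ h₃ R (z := ![0, 1, 0, 0]) (by simpa using M.r_pos R)
    have a2 := X.W_top j1 j2 W (z := ![0, 1, 0, 0]) (by simpa using M.r_pos (σ R)) one_ne_zero
    have e0 : ‖(0 : ℂ)‖ < M.r R := by simpa using M.r_pos R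
    have e0' : ‖(0 : ℂ)‖ < M.r (σ R) := by simpa using M.r_pos (σ R)
    rw [hform' R e0] at a1
    rw [hform' (σ R) e0'] at a2
    have a3 := congrFun a1 1
    have a4 := congrFun a2 1
    have a5 : W.W (X.i (M.e (σ R, 1)) false false) ![0, 1, 0, 0] 1 = 1 * e R 0 := by
      rw [tswap_apply] at a3
      exact a3
    have a6 : W.W (X.i (M.e (σ R, 1)) false false) ![0, 1⁻¹, 0, 0] 1 =
      -(1 * e (σ R) 0) / 1 ^ 2 := a4
    rw [inv_one, a5, he3 (σ R) R] at a6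
    linear_combination a6 / 2
  intro P z hz
  have hz0 := X.mem_bt.1 hz
  have e1 : z = ![z 0, z 1, z 2, z 3] := by
    ext j
    fin_cases j <;> rfl
  rw [e1, hform' P hz0, he2 P (z 0) (by simpa using hz0), he3 _ R, hez, mul_zero]
  ext j
  fin_cases j <;> rfl

end TwoP1

end

end Pool.Agent.YTDA
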