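import Pool.Agent.YTDA.FS
import Pool.Agent.YTDA.Amp

/-!
# Sections separating points and tangent vectors

If the sections of `L ^ N` separate the points and the tangent vectors of `M = Y / ℂˣ`, and the
finite group `G` acts freely on `M`, then the `G`-invariant sections of `L ^ (N |G|)` separate the
points and the tangent vectors of the quotient, and there is a `G`-invariant hermitian metric of
positive curvature.
-/

namespace Pool.Agent.YTDA

open Complex Set Topology ContDiff ComplexOrder TopologicalSpace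

noncomputable section

namespace PolAtlas

variable {n : ℕ} {Y : Type} [MulAction ℂˣ Y] {A : PolAtlas n Y}

theorem IsSec.one : A.IsSec 0 (1 : Y → ℂ) :=
  ⟨fun _ _ => by simp, fun _ => differentiableOn_const 1⟩

theorem IsSec.mul {N N' : ℕ} {F F' : Y → ℂ} (h : A.IsSec N F) (h' : A.IsSec N' F') :
    A.IsSec (N + N') (F * F') := by
  refine ⟨fun c y => ?_, fun a => (h.hol a).mul (h'.hol a)⟩
  rw [Pi.mul_apply, Pi.mul_apply, h.hom, h'.hom, pow_add]
  ring

theorem IsSec.prod {ι : Type*} (s : Finset ι) {N : ℕ} {F : ι → Y → ℂ}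
    (h : ∀ i ∈ s, A.IsSec N (F i)) : A.IsSec (N * s.card) (∏ i ∈ s, F i) := by
  classical
  induction s using Finset.induction_on with
  | empty => simpa using IsSec.one
  | insert i s hi ih =>
    rw [Finset.prod_insert hi, Finset.card_insert_of_notMem hi, mul_add, mul_one, add_comm]
    exact (h i (Finset.mem_insert_self _ _)).mul
      (ih fun j hj => h j (Finset.mem_insert_of_mem hj))

theorem IsSec.differentiableAt {N : ℕ} {F : Y → ℂ} (h : A.IsSec N F) {a : A.ι} {z : E n}
    (hz : z ∈ A.U a) : DifferentiableAt ℂ (fun w => F (A.γ a w)) z :=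
  (h.hol a z hz).differentiableAt ((A.isOpen_U a).mem_nhds hz)

variable (A)

/-- The functions in `V` separate the points and the tangent vectors of `M`. -/
structure Separates (V : Submodule ℂ (Y → ℂ)) : Prop where
  base : ∀ y, ∃ F ∈ V, F y ≠ 0
  pts : ∀ y y' : Y, (∀ c : ℂˣ, y' ≠ c • y) → ∃ F ∈ V, F y = 0 ∧ F y' ≠ 0
  tan : ∀ a, ∀ z ∈ A.U a, ∀ v : E n, v ≠ 0 →
    ∃ F ∈ V, F (A.γ a z) = 0 ∧ fderiv ℂ (fun w => F (A.γ a w)) z v ≠ 0

variable {A}

/-- evaluation functional -/
def evL (V : Submodule ℂ (Y → ℂ)) (y : Y) : Module.Dual ℂ V where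
  toFun F := F.1 y
  map_add' _ _ := rfl
  map_smul' _ _ := rfl

/-- derivative functional -/
def derL {N : ℕ} {V : Submodule ℂ (Y → ℂ)} (hV : V ≤ A.secs N) {a : A.ι} {z : E n}
    (hz : z ∈ A.U a) (v : E n) : Module.Dual ℂ V where
  toFun F := fderiv ℂ (fun w => F.1 (A.γ a w)) z v
  map_add' F F' := by
    have h1 := IsSec.differentiableAt (hV F.2) hz
    have h2 := IsSec.differentiableAt (hV F'.2) hz
    show fderiv ℂ (fun w => F.1 (A.γ a w) + F'.1 (A.γ a w)) z v = _
    rw [fderiv_fun_add h1 h2]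
    rfl
  map_smul' t F := by
    have h1 := IsSec.differentiableAt (hV F.2) hz
    show fderiv ℂ (fun w => t • F.1 (A.γ a w)) z v = _
    rw [fderiv_fun_const_smul h1]
    rfl

section Norm

variable {G : Type} [Group G] [MulAction G Y] [SMulCommClass G ℂˣ Y]

theorem FreeAct.isSec (hA : A.FreeAct G) {N : ℕ} {F : Y → ℂ} (hF : A.IsSec N F) (g : G) :
    A.IsSec N fun y => F (g • y) := by
  refine ⟨fun c y => ?_, fun a z hz => ?_⟩
  · rw [smul_comm, hF.hom]
  · obtain ⟨b, O, f, m, hO, hzO, hOU, hf, hm, h⟩ := hA.hol g a z hz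
    have h1 : DifferentiableOn ℂ (fun w => (m w : ℂ) ^ N * F (A.γ b (f w))) O :=
      (hm.pow N).mul ((hF.hol b).comp hf fun w hw => (h w hw).1)
    have h2 : DifferentiableAt ℂ (fun w => F (g • A.γ a w)) z := by
      refine (h1.differentiableAt (hO.mem_nhds hzO)).congr_of_eventuallyEq ?_
      refine Filter.eventuallyEq_of_mem (hO.mem_nhds hzO) fun w hw => ?_
      show F (g • A.γ a w) = _
      rw [(h w hw).2, hF.hom]
    exact h2.differentiableWithinAt

variable [Fintype G]

omit [MulAction ℂˣ Y] [SMulCommClass G ℂˣ Y] in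
variable (G) in
/-- the norm of a section -/
def nrm (F : Y → ℂ) : Y → ℂ := ∏ g : G, fun y => F (g • y)

omit [MulAction ℂˣ Y] [SMulCommClass G ℂˣ Y] in
theorem nrm_apply (F : Y → ℂ) (y : Y) : nrm G F y = ∏ g : G, F (g • y) := by
  rw [nrm, Finset.prod_apply]

omit [MulAction ℂˣ Y] [SMulCommClass G ℂˣ Y] in
theorem nrm_smul (F : Y → ℂ) (h : G) (y : Y) : nrm G F (h • y) = nrm G F y := by
  rw [nrm_apply, nrm_apply]
  simp only [smul_smul]
  exact Fintype.prod_equiv (Equiv.mulRight h) _ _ fun g => rfl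

theorem nrm_mem (hA : A.FreeAct G) {N : ℕ} {F : Y → ℂ} (hF : A.IsSec N F) :
    nrm G F ∈ A.invSecs G (N * Fintype.card G) :=
  ⟨IsSec.prod Finset.univ fun g _ => hA.isSec hF g, fun h y => nrm_smul F h y⟩

/-- The norm trick: invariant sections separate the points and tangent vectors of the quotient. -/
theorem separates_inv (hA : A.FreeAct G) {N : ℕ} {V : Submodule ℂ (Y → ℂ)} (hV : V ≤ A.secs N)
    (hS : A.Separates V) :
    (∀ y, ∃ F ∈ A.invSecs G (N * Fintype.card G), F y ≠ 0) ∧
    (∀ y y' : Y, (∀ (g : G) (c : ℂˣ), y' ≠ c • g • y) →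
      ∃ F ∈ A.invSecs G (N * Fintype.card G), F y = 0 ∧ F y' ≠ 0) ∧
    ∀ a, ∀ z ∈ A.U a, ∀ v : E n, v ≠ 0 → ∃ F ∈ A.invSecs G (N * Fintype.card G),
      F (A.γ a z) = 0 ∧ fderiv ℂ (fun w => F (A.γ a w)) z v ≠ 0 := by
  classical
  refine ⟨fun y => ?_, fun y y' hy => ?_, fun a z hz v hv => ?_⟩
  · obtain ⟨F, hF⟩ := Module.Dual.exists_forall_ne_zero_of_forall_exists
      (fun g : G => evL V (g • y)) fun g => by
        obtain ⟨F, hF, hF1⟩ := hS.base (g • y)
        exact ⟨⟨F, hF⟩, hF1⟩
    refine ⟨nrm G F.1, nrm_mem hA (hV F.2), ?_⟩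
    rw [nrm_apply]
    exact Finset.prod_ne_zero_iff.2 fun g _ => hF g
  · -- points
    obtain ⟨F, hF0, hF⟩ := Module.Dual.exists_forall_mem_ne_zero_of_forall_exists
      (LinearMap.ker (evL V y)) (fun g : G => evL V (g • y')) fun g => by
        obtain ⟨F, hF, hF1, hF2⟩ := hS.pts y (g • y') fun c hc => by
          apply hy g⁻¹ c
          have h1 := congrArg (fun x => g⁻¹ • x) hc
          simp only [inv_smul_smul] at h1
          rw [h1, smul_comm]
        exact ⟨⟨F, hF⟩, LinearMap.mem_ker.2 hF1, hF2⟩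
    refine ⟨nrm G F.1, nrm_mem hA (hV F.2), ?_, ?_⟩
    · rw [nrm_apply]
      apply Finset.prod_eq_zero (Finset.mem_univ (1 : G))
      rw [one_smul]
      exact hF0
    · rw [nrm_apply]
      exact Finset.prod_ne_zero_iff.2 fun g _ => hF g
  · -- tangent vectors
    set y : Y := A.γ a z with hy
    obtain ⟨F, hF0, hF⟩ := Module.Dual.exists_forall_mem_ne_zero_of_forall_exists
      (LinearMap.ker (evL V y))
      (fun g : G => if g = 1 then derL hV hz v else evL V (g • y)) fun g => by
        by_cases hg : g = 1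
        · obtain ⟨F, hF, hF1, hF2⟩ := hS.tan a z hz v hv
          refine ⟨⟨F, hF⟩, LinearMap.mem_ker.2 hF1, ?_⟩
          simp only [hg, if_true]
          exact hF2
        · obtain ⟨F, hF, hF1, hF2⟩ := hS.pts y (g • y) fun c hc => hg (hA.free g y c hc)
          refine ⟨⟨F, hF⟩, LinearMap.mem_ker.2 hF1, ?_⟩
          simp only [hg, if_false]
          exact hF2
    have hF0' : F.1 y = 0 := LinearMap.mem_ker.1 hF0
    refine ⟨nrm G F.1, nrm_mem hA (hV F.2), ?_, ?_⟩
    · rw [nrm_apply]
      apply Finset.prod_eq_zero (Finset.mem_univ (1 : G))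
      rw [one_smul]
      exact hF0'
    · set R : E n → ℂ := fun w => ∏ g ∈ (Finset.univ.erase (1 : G)), F.1 (g • A.γ a w) with hR
      have e1 : (fun w => nrm G F.1 (A.γ a w)) = fun w => F.1 (A.γ a w) * R w := by
        funext w
        rw [nrm_apply, ← Finset.mul_prod_erase _ _ (Finset.mem_univ (1 : G)), one_smul]
      have h1 : DifferentiableAt ℂ (fun w => F.1 (A.γ a w)) z :=
        IsSec.differentiableAt (hV F.2) hz
      have h2 : DifferentiableAt ℂ R z := by
        have h3 : ∀ g : G, DifferentiableAt ℂ (fun w => F.1 (g • A.γ a w)) z := fun g =>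
          IsSec.differentiableAt (hA.isSec (hV F.2) g) hz
        rw [hR]
        exact (HasFDerivAt.finsetProd fun g _ => (h3 g).hasFDerivAt).differentiableAt
      rw [e1, fderiv_fun_mul h1 h2]
      show F.1 (A.γ a z) * fderiv ℂ R z v + R z * fderiv ℂ (fun w => F.1 (A.γ a w)) z v ≠ 0
      rw [← hy, hF0', zero_mul, zero_add]
      apply mul_ne_zero
      · rw [hR]
        refine Finset.prod_ne_zero_iff.2 fun g hg => ?_
        have h3 := hF g
        have hg1 : g ≠ 1 := Finset.ne_of_mem_erase hg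
        simp only [hg1, if_false] at h3
        exact h3
      · have h3 := hF 1
        simp only [if_true] at h3
        exact h3

theorem ampInv (hA : A.FreeAct G) {N : ℕ} {V : Submodule ℂ (Y → ℂ)} (hV : V ≤ A.secs N)
    (hS : A.Separates V) : A.AmpInv G (N * Fintype.card G) := by
  obtain ⟨h1, h2, h3⟩ := separates_inv hA hV hS
  exact ⟨h1, fun y y' hy => h2 y y' fun g c => hy c g, h3⟩

/-- A finite dimensional space of sections that separates tangent vectors gives an invariant
hermitian metric of positive curvature. -/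
theorem exists_isKahler (hA : A.FreeAct G) {N : ℕ} (hN : 0 < N) {V : Submodule ℂ (Y → ℂ)}
    [FiniteDimensional ℂ V] (hV : V ≤ A.secs N) (hS : A.Separates V) :
    ∃ H : Y → ℝ, A.IsKahler H ∧ ∀ (g : G) y, H (g • y) = H y := by
  classical
  set b := Module.finBasis ℂ V with hb
  set F : G × Fin (Module.finrank ℂ V) → Y → ℂ := fun p y => (b p.2).1 (p.1 • y) with hF
  set T : Y → ℝ := fun y => ∑ p, ‖F p y‖ ^ 2 with hT
  have hsec : ∀ p, A.IsSec N (F p) := fun p => hA.isSec (hV (b p.2).2) p.1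
  have hbase : ∀ y, ∃ p, F p y ≠ 0 := by
    intro y
    by_contra hcon
    push Not at hcon
    obtain ⟨F₀, hF₀, h1⟩ := hS.base y
    have h2 : evL V y = 0 := by
      apply b.ext
      intro i
      have h3 := hcon (1, i)
      simp only [hF, one_smul] at h3
      rw [LinearMap.zero_apply]
      exact h3
    exact h1 (congrArg (fun f : Module.Dual ℂ V => f ⟨F₀, hF₀⟩) h2)
  have hTpos : ∀ y, 0 < T y := fun y =>
    fs_pos (F := fun p (_ : E n) => F p y) (z := 0) (hbase y)
  have hThom : ∀ (c : ℂˣ) y, T (c • y) = (‖(c : ℂ)‖ ^ 2) ^ N * T y := by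
    intro c y
    simp only [hT, (hsec _).hom, norm_mul, norm_pow, mul_pow]
    rw [← Finset.mul_sum]
    congr 1
    ring
  have hTinv : ∀ (g : G) y, T (g • y) = T y := by
    intro g y
    simp only [hT, hF]
    rw [Fintype.sum_prod_type, Fintype.sum_prod_type]
    exact Fintype.sum_equiv (Equiv.mulRight g) _ _ fun h => by
      simp [smul_smul]
  have hN0 : (N : ℝ) ≠ 0 := Nat.cast_ne_zero.2 hN.ne'
  have hpot : ∀ a, A.pot (fun y => (T y) ^ (1 / N : ℝ)) a =
      fun w => (1 / N : ℝ) * Real.log (∑ p, ‖F p (A.γ a w)‖ ^ 2) := by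
    intro a
    funext w
    unfold pot
    rw [Real.log_rpow (hTpos _)]
  refine ⟨fun y => (T y) ^ (1 / N : ℝ), ⟨fun y => Real.rpow_pos_of_pos (hTpos y) _, ?_, ?_, ?_⟩,
    fun g y => by show (T (g • y)) ^ (1 / N : ℝ) = _; rw [hTinv]⟩
  · intro c y
    show (T (c • y)) ^ (1 / N : ℝ) = _
    rw [hThom, Real.mul_rpow (by positivity) (hTpos y).le, ← Real.rpow_natCast, ← Real.rpow_mul
      (by positivity), mul_one_div_cancel hN0, Real.rpow_one]
  · intro a
    rw [hpot]
    exact contDiffOn_fs (F := fun p w => F p (A.γ a w)) (A.isOpen_U a)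
      (fun p => (hsec p).hol a) (fun z _ => hbase _) _
  · intro a z hz
    rw [hpot]
    refine hess_fs_posDef (F := fun p w => F p (A.γ a w)) (A.isOpen_U a)
      (fun p => (hsec p).hol a) (fun z _ => hbase _) (by positivity) hz ?_
    intro v t hv
    by_contra hv0
    obtain ⟨F₀, hF₀, h1, h2⟩ := hS.tan a z hz v hv0
    have h3 : derL hV hz v = t • evL V (A.γ a z) := by
      apply b.ext
      intro i
      have h4 := hv (1, i)
      simp only [hF, one_smul] at h4
      exact h4
    have h5 := congrArg (fun f : Module.Dual ℂ V => f ⟨F₀, hF₀⟩) h3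
    apply h2
    have h6 : (t • evL V (A.γ a z)) ⟨F₀, hF₀⟩ = t * F₀ (A.γ a z) := rfl
    rw [h1, mul_zero] at h6
    exact h5.trans h6

end Norm

end PolAtlas

end

end Pool.Agent.YTDA
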