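import Mathlib

/-!
# Integrals of radial functions over the plane (orbit integrals)
-/

namespace Pool.Agent.YTDA

open Set Topology MeasureTheory Filter

noncomputable section

section Radial

variable {f f' : ℝ → ℝ} {a b : ℝ}

theorem tendsto_comp_log (ha : Tendsto f atBot (𝓝 a)) :
    Tendsto (fun r => f (Real.log r)) (𝓝[>] 0) (𝓝 a) :=
  ha.comp Real.tendsto_log_nhdsGT_zero

/-- integrals over `(0, ∞)` in logarithmic coordinate -/
theorem integral_log_coord (h1 : ∀ τ, HasDerivAt f (f' τ) τ) (hpos : ∀ τ, 0 ≤ f' τ)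
    (hc : Continuous f') (ha : Tendsto f atBot (𝓝 a)) (hb : Tendsto f atTop (𝓝 b))
    {u : ℝ → ℝ} (hu : Continuous u) :
    IntegrableOn (fun r => u (f (Real.log r)) * (f' (Real.log r) / r)) (Ioi 0) ∧
    ∫ r in Ioi (0 : ℝ), u (f (Real.log r)) * (f' (Real.log r) / r) = ∫ x in a..b, u x := by
  have hmono : Monotone f := monotone_of_deriv_nonneg (fun τ => (h1 τ).differentiableAt)
    fun τ => by rw [(h1 τ).deriv]; exact hpos τ
  have hfa : ∀ τ, a ≤ f τ := fun τ => hmono.le_of_tendsto ha τ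
  have hfb : ∀ τ, f τ ≤ b := fun τ => hmono.ge_of_tendsto hb τ
  have hfc : Continuous f := continuous_iff_continuousAt.2 fun τ => (h1 τ).continuousAt
  -- the function f (log r), extended by a at 0
  have hext : ∀ (g : ℝ → ℝ) (c : ℝ), Tendsto g atBot (𝓝 c) →
      ContinuousWithinAt (fun r => if r ≤ 0 then c else g (Real.log r)) (Ici 0) 0 := by
    intro g c hg
    have h2 : ContinuousWithinAt (fun r => if r ≤ 0 then c else g (Real.log r)) (Ioi 0) 0 := by
      show Tendsto _ (𝓝[>] 0) (𝓝 _)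
      simp only [le_refl, if_true]
      refine (tendsto_comp_log hg).congr' ?_
      filter_upwards [self_mem_nhdsWithin] with r hr
      rw [if_neg (not_le.2 hr)]
    exact continuousWithinAt_Ioi_iff_Ici.1 h2
  have hder : ∀ (g g' : ℝ → ℝ) (c : ℝ), (∀ τ, HasDerivAt g (g' τ) τ) → ∀ r ∈ Ioi (0 : ℝ),
      HasDerivAt (fun r => if r ≤ 0 then c else g (Real.log r)) (g' (Real.log r) / r) r := by
    intro g g' c hg r hr
    have h2 : HasDerivAt (fun r => g (Real.log r)) (g' (Real.log r) * r⁻¹) r :=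
      (hg _).comp r (Real.hasDerivAt_log (ne_of_gt hr))
    rw [div_eq_mul_inv]
    refine h2.congr_of_eventuallyEq ?_
    filter_upwards [Ioi_mem_nhds hr] with s hs
    rw [if_neg (not_le.2 hs)]
  have hlim : ∀ (g : ℝ → ℝ) (c d : ℝ), Tendsto g atTop (𝓝 d) →
      Tendsto (fun r => if r ≤ 0 then c else g (Real.log r)) atTop (𝓝 d) := by
    intro g c d hg
    refine (hg.comp Real.tendsto_log_atTop).congr' ?_
    filter_upwards [Ioi_mem_atTop 0] with r hr
    rw [if_neg (not_le.2 hr)]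
    rfl
  have hint0 : IntegrableOn (fun r => f' (Real.log r) / r) (Ioi 0) :=
    integrableOn_Ioi_deriv_of_nonneg (hext f a ha) (hder f f' a h1)
      (fun r hr => div_nonneg (hpos _) (le_of_lt hr)) (hlim f a b hb)
  obtain ⟨B, hB⟩ : ∃ B, ∀ x ∈ Icc a b, ‖u x‖ ≤ B :=
    isCompact_Icc.exists_bound_of_continuousOn hu.continuousOn
  have hlogc : ContinuousOn Real.log (Ioi 0) :=
    Real.continuousOn_log.mono fun r hr => ne_of_gt hr
  have hint : IntegrableOn (fun r => u (f (Real.log r)) * (f' (Real.log r) / r)) (Ioi 0) := by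
    refine hint0.bdd_mul (c := B) ?_ ?_
    · exact ((hu.comp hfc).comp_continuousOn hlogc).aestronglyMeasurable measurableSet_Ioi
    · exact Eventually.of_forall fun r => hB _ ⟨hfa _, hfb _⟩
  refine ⟨hint, ?_⟩
  set U : ℝ → ℝ := fun x => ∫ t in a..x, u t with hU
  have hUd : ∀ x, HasDerivAt U (u x) x := fun x =>
    intervalIntegral.integral_hasDerivAt_right (hu.intervalIntegrable _ _)
      (hu.stronglyMeasurableAtFilter _ _) hu.continuousAt
  have hUc : Continuous U := continuous_iff_continuousAt.2 fun x => (hUd x).continuousAt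
  have hg : ∀ τ, HasDerivAt (fun τ => U (f τ)) (u (f τ) * f' τ) τ := fun τ =>
    (hUd (f τ)).comp τ (h1 τ)
  have hga : Tendsto (fun τ => U (f τ)) atBot (𝓝 (U a)) := (hUc.tendsto a).comp ha
  have hgb : Tendsto (fun τ => U (f τ)) atTop (𝓝 (U b)) := (hUc.tendsto b).comp hb
  have h3 := integral_Ioi_of_hasDerivAt_of_tendsto (hext _ _ hga) (hder _ _ (U a) hg)
    (by simpa only [mul_div_assoc] using hint) (hlim _ (U a) _ hgb)
  simp only [mul_div_assoc, le_refl, if_true] at h3
  rw [h3, hU]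
  simp

/-- orbit integral -/
theorem integral_radial (h1 : ∀ τ, HasDerivAt f (f' τ) τ) (hpos : ∀ τ, 0 ≤ f' τ)
    (hc : Continuous f') (ha : Tendsto f atBot (𝓝 (2 * a))) (hb : Tendsto f atTop (𝓝 (2 * b)))
    {u : ℝ → ℝ} (hu : Continuous u) :
    Integrable (fun c : ℂ => u (f (Real.log ‖c‖) / 2) * (f' (Real.log ‖c‖) / (4 * ‖c‖ ^ 2))) ∧
    ∫ c : ℂ, u (f (Real.log ‖c‖) / 2) * (f' (Real.log ‖c‖) / (4 * ‖c‖ ^ 2)) =
      Real.pi * ∫ x in a..b, u x := by
  have ha' : Tendsto (fun τ => f τ / 2) atBot (𝓝 a) := by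
    have := ha.div_const 2
    rwa [mul_div_cancel_left₀ a (two_ne_zero)] at this
  have hb' : Tendsto (fun τ => f τ / 2) atTop (𝓝 b) := by
    have := hb.div_const 2
    rwa [mul_div_cancel_left₀ b (two_ne_zero)] at this
  obtain ⟨h2, h3⟩ := integral_log_coord (f := fun τ => f τ / 2) (f' := fun τ => f' τ / 2)
    (fun τ => (h1 τ).div_const 2) (fun τ => div_nonneg (hpos τ) zero_le_two)
    (hc.div_const 2) ha' hb' hu
  have hdim : Module.finrank ℝ ℂ = 2 := Complex.finrank_real_complex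
  have hvol : (volume : Measure ℂ).real (Metric.ball 0 1) = Real.pi := by
    rw [Measure.real, Complex.volume_ball]
    simp
  set G : ℝ → ℝ := fun r => u (f (Real.log r) / 2) * (f' (Real.log r) / (4 * r ^ 2)) with hG
  have h4 : ∀ r ∈ Ioi (0 : ℝ), r ^ (Module.finrank ℝ ℂ - 1) • G r =
      1 / 2 * (u (f (Real.log r) / 2) * (f' (Real.log r) / 2 / r)) := by
    intro r hr
    have hr0 : r ≠ 0 := ne_of_gt hr
    rw [hdim, hG, smul_eq_mul]
    field_simp
    norm_num
    ring
  have h5 : IntegrableOn (fun r => r ^ (Module.finrank ℝ ℂ - 1) • G r) (Ioi 0) := by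
    refine IntegrableOn.congr_fun (h2.const_mul (1 / 2)) (fun r hr => ?_) measurableSet_Ioi
    exact (h4 r hr).symm
  constructor
  · exact (integrable_fun_norm_addHaar (volume : Measure ℂ) (f := G)).2 h5
  · have h6 := integral_fun_norm_addHaar (volume : Measure ℂ) G
    rw [setIntegral_congr_fun measurableSet_Ioi h4, integral_const_mul, h3, hvol, hdim] at h6
    rw [h6]
    simp only [nsmul_eq_mul, smul_eq_mul]
    push_cast
    ring

end Radial

end

end Pool.Agent.YTDA
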