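import Pool.Agent.YTDA.Orbit1
import Pool.Agent.YTDA.Chart3
import Pool.Agent.YTDA.T13Defs

/-!
# M3: integrals over vertical curves
-/

namespace Pool.Agent.YTDA

open Complex Set Topology ContDiff MeasureTheory Filter

noncomputable section

namespace Orb

/-- the unit of a nonzero number -/
def toU (w : ℂ) : ℂˣ := open Classical in if h : w = 0 then 1 else Units.mk0 w h

theorem toU_val {w : ℂ} (h : w ≠ 0) : ((toU w : ℂˣ) : ℂ) = w := by
  rw [toU, dif_neg h, Units.val_mk0]

theorem toU_coe (c : ℂˣ) : toU (c : ℂ) = c := Units.ext (toU_val c.ne_zero)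

theorem continuousOn_toU : ContinuousOn toU {0}ᶜ := by
  rw [continuousOn_iff_continuous_domRestrict, Units.continuous_iff]
  constructor
  · have h : (Units.val ∘ ({0}ᶜ : Set ℂ).domRestrict toU) = Subtype.val := by
      funext w
      exact toU_val w.2
    rw [h]
    exact continuous_subtype_val
  · have h : (fun x => (((({0}ᶜ : Set ℂ).domRestrict toU x)⁻¹ : ℂˣ) : ℂ)) =
        fun x : ({0}ᶜ : Set ℂ) => (x : ℂ)⁻¹ := by
      funext w
      rw [Units.val_inv_eq_inv_val, domRestrict_apply, toU_val w.2]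
    rw [h]
    exact continuous_subtype_val.inv₀ fun x => x.2

theorem continuous_expU : Continuous (fun t : ℝ => expU (t : ℂ)) := by
  rw [Units.continuous_iff]
  constructor
  · exact continuous_exp.comp continuous_ofReal
  · have h : (fun x : ℝ => (((expU (x : ℂ))⁻¹ : ℂˣ) : ℂ)) = fun x : ℝ => exp (-(x : ℂ)) := by
      funext x
      rw [Units.val_inv_eq_inv_val, expU_val, exp_neg]
    rw [h]
    exact continuous_exp.comp continuous_ofReal.neg

theorem det_restrict1 (L : ℂ →L[ℂ] ℂ) : |(L.restrictScalars ℝ).det| = ‖L 1‖ ^ 2 := by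
  have h1 : (L.restrictScalars ℝ).det = Algebra.norm ℝ L.det := by
    rw [ContinuousLinearMap.det, ContinuousLinearMap.det, ← LinearMap.det_restrictScalars]
    rfl
  have h2 : L.det = L 1 := by
    rw [ContinuousLinearMap.det, LinearMap.det_ring]
    rfl
  rw [h1, h2, Algebra.norm_complex_apply, normSq_eq_norm_sq, abs_of_nonneg (by positivity)]

theorem zpow_zpow_self {ε : ℤ} (hε : ε = 1 ∨ ε = -1) (x : ℂˣ) : (x ^ ε) ^ ε = x := by
  rcases hε with h | h <;> subst h <;> simp

theorem zpow_zpow_self' {ε : ℤ} (hε : ε = 1 ∨ ε = -1) (x : ℂ) : (x ^ ε) ^ ε = x := by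
  rcases hε with h | h <;> subst h <;> simp

/-- invariance of `|dw|²/|w|²` -/
theorem integral_zpow_mul (G : ℂ → ℝ) {c : ℂ} (hc : c ≠ 0) {ε : ℤ} (hε : ε = 1 ∨ ε = -1) :
    ∫ w : ℂ, G (c * w ^ ε) * (‖c * w ^ ε‖ ^ 2 / ‖w‖ ^ 2) = ∫ w, G w := by
  have him : (fun w : ℂ => c * w ^ ε) '' {0}ᶜ = {0}ᶜ := by
    apply Subset.antisymm
    · rintro _ ⟨w, hw, rfl⟩
      exact mul_ne_zero hc (zpow_ne_zero _ hw)
    · intro w hw
      have hw' : c⁻¹ * w ≠ 0 := mul_ne_zero (inv_ne_zero hc) hw
      refine ⟨(c⁻¹ * w) ^ ε, zpow_ne_zero _ hw', ?_⟩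
      simp only
      rw [zpow_zpow_self' hε, mul_inv_cancel_left₀ hc]
  have hinj : InjOn (fun w : ℂ => c * w ^ ε) {0}ᶜ := by
    intro w _ w' _ h
    have h1 := mul_left_cancel₀ hc h
    rw [← zpow_zpow_self' hε w, h1, zpow_zpow_self' hε]
  have hd : ∀ w ∈ ({0}ᶜ : Set ℂ), HasFDerivWithinAt (fun w : ℂ => c * w ^ ε)
      ((ContinuousLinearMap.toSpanSingleton ℂ (c * (ε * w ^ (ε - 1)))).restrictScalars ℝ)
      {0}ᶜ w := by
    intro w hw
    have h1 : HasDerivAt (fun w : ℂ => c * w ^ ε) (c * (ε * w ^ (ε - 1))) w :=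
      (hasDerivAt_zpow ε w (Or.inl hw)).const_mul c
    exact (h1.hasFDerivAt.restrictScalars ℝ).hasFDerivWithinAt
  have h1 := integral_image_eq_integral_abs_det_fderiv_smul (volume : Measure ℂ)
    (measurableSet_singleton (0 : ℂ)).compl hd hinj G
  have h0 : ∀ᵐ w : ℂ, w ≠ 0 := by
    rw [ae_iff]
    simp
  rw [him, Measure.restrict_eq_self_of_ae_mem (s := ({0}ᶜ : Set ℂ)) h0] at h1
  rw [h1]
  apply integral_congr_ae
  filter_upwards [h0] with w hw
  rw [det_restrict1, ContinuousLinearMap.toSpanSingleton_apply, one_smul, smul_eq_mul, mul_comm]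
  congr 1
  have h2 : ‖w‖ ≠ 0 := norm_ne_zero_iff.2 hw
  have h3 : ‖(ε : ℂ)‖ = 1 := by
    rcases hε with h | h <;> subst h <;> simp
  rw [norm_mul, norm_mul, norm_mul, h3, one_mul, norm_zpow, norm_zpow, zpow_sub_one₀ h2]
  field_simp

theorem dact_axis (k : Fin 2 → ℤ) (c : ℂˣ) (j : Fin 2) (w : ℂ) :
    dact k c (axis j w) = axis j (((c ^ k (1 - j) : ℂˣ) : ℂ) * w) := by
  fin_cases j
  · simp only [Fin.zero_eta, axis_zero]
    ext i
    fin_cases i <;> simp [dact]
  · simp only [Fin.mk_one, axis_one]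
    ext i
    fin_cases i <;> simp [dact]

theorem continuous_axis (j : Fin 2) : Continuous (axis j) := by
  rw [continuous_pi_iff]
  intro i
  fin_cases j
  · simp only [Fin.zero_eta, axis_zero]
    fin_cases i
    · exact continuous_const
    · exact continuous_id
  · simp only [Fin.mk_one, axis_one]
    fin_cases i
    · exact continuous_id
    · exact continuous_const

theorem eq_axis {z : E 2} {j : Fin 2} (h : z j = 0) : z = axis j (z (1 - j)) := by
  fin_cases j
  · simp only [Fin.zero_eta, axis_zero] at h ⊢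
    ext i
    fin_cases i
    · exact h
    · rfl
  · simp only [Fin.mk_one, axis_one] at h ⊢
    ext i
    fin_cases i
    · rfl
    · exact h

end Orb

end

end Pool.Agent.YTDA
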