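import Pool.Agent.YTDA.Orbit2

/-!
# M3: integrals over vertical curves
-/

namespace Pool.Agent.YTDA

open Complex Set Topology ContDiff MeasureTheory Filter

noncomputable section

namespace Orb

variable {Y : Type} [MulAction ℂˣ Y] {A : PolAtlas 2 Y} {D : A.DAct} (L : Labels A D)

include L

/-- a vertical axis is an orbit -/
theorem axis_orbit {a : A.ι} {j : Fin 2} {v : L.V} (h : L.lab a j = Lb.vert v) {w₁ : ℂ}
    (hw₁ : w₁ ≠ 0) (hm : axis j w₁ ∈ A.U a) :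
    ∃ c' : ℂˣ, ∀ w : ℂˣ, axis j w ∈ A.U a ∧ ∃ d : ℂˣ,
      A.γ a (axis j w) = d • D.act (c' * w ^ (D.k a (1 - j))) (L.p v) := by
  obtain ⟨c1, c2, h1⟩ := L.vert_orb a j v h w₁ hw₁ hm
  have hε := L.vert_k a j v h
  set ε := D.k a (1 - j) with hε'
  obtain ⟨w₁, rfl⟩ : ∃ u : ℂˣ, (u : ℂ) = w₁ := ⟨Units.mk0 w₁ hw₁, rfl⟩
  refine ⟨(w₁ ^ ε)⁻¹ * c2, fun w => ?_⟩
  have h2 : dact (D.k a) ((w * w₁⁻¹) ^ ε) (axis j w₁) = axis j w := by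
    rw [dact_axis, ← hε', zpow_zpow_self hε]
    congr 1
    rw [← Units.val_mul, inv_mul_cancel_right]
  have h3 := D.dom a _ hm ((w * w₁⁻¹) ^ ε)
  rw [h2] at h3
  refine ⟨h3, (((w * w₁⁻¹) ^ ε) ^ D.m a)⁻¹ * c1, ?_⟩
  have h4 := D.act_γ a _ hm ((w * w₁⁻¹) ^ ε)
  rw [h2, h1, D.act_smul, ← D.act_mul] at h4
  have h5 : (w * w₁⁻¹) ^ ε * c2 = (w₁ ^ ε)⁻¹ * c2 * w ^ ε := by
    rw [mul_zpow, inv_zpow, mul_assoc, mul_comm]
  rw [mul_smul, eq_inv_smul_iff, ← h4, h5]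

omit L in
theorem norm_fac (c : ℂˣ) : ‖((c * (expU (Real.log ‖(c : ℂ)‖))⁻¹ : ℂˣ) : ℂ)‖ = 1 := by
  have h : ‖(c : ℂ)‖ ≠ 0 := norm_ne_zero_iff.2 c.ne_zero
  rw [Units.val_mul, norm_mul, Units.val_inv_eq_inv_val, norm_inv, norm_expU, ofReal_re,
    Real.exp_log (norm_pos_iff.2 c.ne_zero), mul_inv_cancel₀ h]

omit L in
theorem mu_norm {H : Y → ℝ} (hinv : ∀ (c : ℂˣ) y, ‖(c : ℂ)‖ = 1 → H (D.act c y) = H y)
    (c : ℂˣ) (y : Y) : D.mu H (D.act c y) = D.mu H (D.act (expU (Real.log ‖(c : ℂ)‖)) y) := by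
  have h := PolAtlas.mu_act_circle D hinv _ (norm_fac c) (D.act (expU (Real.log ‖(c : ℂ)‖)) y)
  rw [← D.act_mul, inv_mul_cancel_right] at h
  exact h

omit L in
theorem nv_norm {H : Y → ℝ} (hinv : ∀ (c : ℂˣ) y, ‖(c : ℂ)‖ = 1 → H (D.act c y) = H y)
    (c : ℂˣ) (y : Y) : D.nv H (D.act c y) = D.nv H (D.act (expU (Real.log ‖(c : ℂ)‖)) y) := by
  have h := PolAtlas.nv_act_circle D hinv _ (norm_fac c) (D.act (expU (Real.log ‖(c : ℂ)‖)) y)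
  rw [← D.act_mul, inv_mul_cancel_right] at h
  exact h

omit L in
theorem mu_eq {H : Y → ℝ} (hK : A.IsKahler H)
    (hinv : ∀ (c : ℂˣ) y, ‖(c : ℂ)‖ = 1 → H (D.act c y) = H y) {a : A.ι} {z : E 2}
    (hz : z ∈ A.U a) : A.mu D H a z = D.mu H (A.γ a z) := by
  have h := congrArg re (PolAtlas.mu_γ hK D hinv hz)
  rw [ofReal_re] at h
  rw [h, PolAtlas.mu, mom, wdz, add_re, intCast_re]

omit L in
theorem nv_axis {H : Y → ℝ} (hK : A.IsKahler H)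
    (hinv : ∀ (c : ℂˣ) y, ‖(c : ℂ)‖ = 1 → H (D.act c y) = H y) {a : A.ι} {j : Fin 2} {w : ℂ}
    (hz : axis j w ∈ A.U a) (hε : D.k a (1 - j) = 1 ∨ D.k a (1 - j) = -1) :
    (hess (A.pot H a) (axis j w) (1 - j) (1 - j)).re * ‖w‖ ^ 2 = D.nv H (A.γ a (axis j w)) := by
  rw [PolAtlas.nv_γ hK D hinv hz, nrm2]
  have h1 : ∀ i, i ≠ 1 - j → axis j w i = 0 := by
    intro i hi
    have : i = j := by
      revert hi
      fin_cases i <;> fin_cases j <;> simp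
    rw [this]
    exact axis_same j w
  rw [Finset.sum_eq_single (1 - j), Finset.sum_eq_single (1 - j)]
  · rw [axis_other]
    have h2 : ((D.k a (1 - j) : ℤ) : ℂ) * w * (starRingEnd ℂ) ((D.k a (1 - j) : ℤ) * w) =
        ((‖w‖ ^ 2 : ℝ) : ℂ) := by
      rw [map_mul, map_intCast, ← normSq_eq_norm_sq, ← mul_conj]
      rcases hε with h | h <;> rw [h] <;> push_cast <;> ring
    rw [h2, re_ofReal_mul, mul_comm]
  · intro i _ hi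
    rw [h1 i hi]
    simp
  · simp
  · intro i _ hi
    refine Finset.sum_eq_zero fun l _ => ?_
    rw [h1 i hi]
    simp
  · simp

/-- the integrand on the orbit -/
def G (P : A.Part) (D : A.DAct) (H : Y → ℝ) (u : ℝ → ℝ) (y₀ : Y) (k : Fin P.m) (c : ℂ) : ℝ :=
  P.χ k (D.act (toU c) y₀) *
    (u (2 * D.mu H (D.act (expU (Real.log ‖c‖)) y₀) / 2) *
      (4 * D.nv H (D.act (expU (Real.log ‖c‖)) y₀) / (4 * ‖c‖ ^ 2)))

theorem axisInt_eq (P : A.Part) {H : Y → ℝ} (hK : A.IsKahler H)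
    (hinv : ∀ (c : ℂˣ) y, ‖(c : ℂ)‖ = 1 → H (D.act c y) = H y) (u : ℝ → ℝ) {k : Fin P.m}
    {j : Fin 2} {v : L.V} (h : L.lab (P.a k) j = Lb.vert v) {w₁ : ℂ}
    (hw₁ : w₁ ≠ 0) (hm : axis j w₁ ∈ A.U (P.a k)) :
    P.axisInt D H u k j = ∫ c, G P D H u (L.p v) k c := by
  obtain ⟨c', hc'⟩ := axis_orbit L h hw₁ hm
  have hε := L.vert_k _ j v h
  rw [← integral_zpow_mul (G P D H u (L.p v) k) c'.ne_zero hε, PolAtlas.Part.axisInt]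
  apply integral_congr_ae
  have h0 : ∀ᵐ w : ℂ, w ≠ 0 := by
    rw [ae_iff]
    simp
  filter_upwards [h0] with w hw
  obtain ⟨w, rfl⟩ : ∃ u : ℂˣ, (u : ℂ) = w := ⟨Units.mk0 w hw, rfl⟩
  obtain ⟨hU, d, hd⟩ := hc' w
  have hn : ‖(w : ℂ)‖ ≠ 0 := norm_ne_zero_iff.2 hw
  rw [indicator_of_mem hU, mu_eq hK hinv hU]
  have h1 := nv_axis hK hinv hU hε
  have h2 : (hess (A.pot H (P.a k)) (axis j w) (1 - j) (1 - j)).re =
      D.nv H (A.γ (P.a k) (axis j w)) / ‖(w : ℂ)‖ ^ 2 := by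
    rw [← h1]
    field_simp
  rw [h2, hd, P.inv, PolAtlas.mu_smul hK, PolAtlas.nv_smul hK, mu_norm hinv, nv_norm hinv, G]
  have h3 : (c' : ℂ) * (w : ℂ) ^ (D.k (P.a k) (1 - j)) =
      ((c' * w ^ (D.k (P.a k) (1 - j)) : ℂˣ) : ℂ) := by
    rw [Units.val_mul, Units.val_zpow_eq_zpow_val]
  rw [h3, toU_coe, mul_div_cancel_left₀ _ (two_ne_zero' ℝ)]
  have h4 : ‖((c' * w ^ (D.k (P.a k) (1 - j)) : ℂˣ) : ℂ)‖ ≠ 0 := norm_ne_zero_iff.2 (Units.ne_zero _)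
  field_simp

end Orb

end

end Pool.Agent.YTDA
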