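import Pool.Agent.YTDA.Orbit3

/-!
# M3: integrals over vertical curves
-/

namespace Pool.Agent.YTDA

open Complex Set Topology ContDiff MeasureTheory Filter

noncomputable section

namespace Orb

variable {Y : Type} [MulAction ℂˣ Y] {A : PolAtlas 2 Y} {D : A.DAct}

theorem continuous_dact (k : Fin 2 → ℤ) (z : E 2) : Continuous (fun c : ℂˣ => dact k c z) := by
  rw [continuous_pi_iff]
  intro i
  exact (Units.continuous_val.comp (continuous_zpow (k i))).mul continuous_const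

theorem cont_orbit {F : Y → ℝ} (hF : ∀ (c : ℂˣ) y, F (c • y) = F y)
    (hFc : ∀ a, ContinuousOn (fun z => F (A.γ a z)) (A.U a)) (y : Y) :
    Continuous (fun c : ℂˣ => F (D.act c y)) := by
  obtain ⟨a, z, hz, d, hy⟩ := A.cover y
  have h1 : (fun c : ℂˣ => F (D.act c y)) = fun c : ℂˣ => F (A.γ a (dact (D.k a) c z)) := by
    funext c
    rw [hy, D.act_smul, hF, D.act_γ a z hz c, hF]
  rw [h1]
  exact (hFc a).comp_continuous (continuous_dact _ _) fun c => D.dom a z hz c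

theorem exists_ne {a : A.ι} {j : Fin 2} {w : ℂ} (h : axis j w ∈ A.U a) :
    ∃ w₁ : ℂ, w₁ ≠ 0 ∧ axis j w₁ ∈ A.U a := by
  obtain ⟨w₁, h1, h2⟩ := (dense_compl_singleton (0 : ℂ)).inter_open_nonempty (axis j ⁻¹' A.U a)
    ((A.isOpen_U a).preimage (continuous_axis j)) ⟨w, h⟩
  exact ⟨w₁, h2, h1⟩

variable {H : Y → ℝ} (hK : A.IsKahler H)
    (hinv : ∀ (c : ℂˣ) y, ‖(c : ℂ)‖ = 1 → H (D.act c y) = H y)

include hK hinv

theorem continuousOn_mu (a : A.ι) : ContinuousOn (fun z => D.mu H (A.γ a z)) (A.U a) :=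
  (PolAtlas.chMu hK D hinv a).smooth_mu.continuousOn

theorem continuousOn_nv (a : A.ι) : ContinuousOn (fun z => D.nv H (A.γ a z)) (A.U a) := by
  have h1 : ContinuousOn (fun z => nrm2 (D.k a) (A.pot H a) z) (A.U a) := by
    refine continuous_re.comp_continuousOn ?_
    refine continuousOn_finsetSum _ fun i _ => continuousOn_finsetSum _ fun j _ => ?_
    have h2 : ContinuousOn (fun w => hess (A.pot H a) w i j) (A.U a) :=
      (contDiffOn_hess (Ω := A.Om a) (A.pot H a) (hK.smooth a) i j).continuousOn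
    exact ((continuous_const.mul (continuous_apply i)).mul
      (continuous_conj.comp (continuous_const.mul (continuous_apply j)))).continuousOn.mul h2
  exact h1.congr fun z hz => PolAtlas.nv_γ hK D hinv hz

theorem nv_nonneg (y : Y) : 0 ≤ D.nv H y := by
  obtain ⟨a, z, hz, c, rfl⟩ := A.cover y
  rw [PolAtlas.nv_smul hK, PolAtlas.nv_γ hK D hinv hz]
  exact nrm2_nonneg (hK.posDef a z hz)

theorem tendsto_mu (L : Labels A D) {a : A.ι} {j : Fin 2} {v : L.V} (h : L.lab a j = Lb.vert v)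
    (hm : axis j 0 ∈ A.U a) {l : Filter ℝ}
    (hl : Tendsto (fun t : ℝ => (D.k a (1 - j) : ℝ) * t) l atBot) :
    Tendsto (fun t : ℝ => D.mu H (D.act (expU t) (L.p v))) l (𝓝 (D.m a)) := by
  obtain ⟨w₁, hw₁, hm₁⟩ := exists_ne hm
  obtain ⟨c', hc'⟩ := axis_orbit L h hw₁ hm₁
  have hε := L.vert_k a j v h
  set ε := D.k a (1 - j) with hεdef
  have h1 : Tendsto (fun t : ℝ => (((c'⁻¹ * expU t) ^ ε : ℂˣ) : ℂ)) l (𝓝 0) := by
    rw [tendsto_zero_iff_norm_tendsto_zero]
    have h2 : ∀ t : ℝ, ‖(((c'⁻¹ * expU t) ^ ε : ℂˣ) : ℂ)‖ =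
        ‖((c'⁻¹ : ℂˣ) : ℂ)‖ ^ ε * Real.exp (ε * t) := by
      intro t
      rw [mul_zpow, Units.val_mul, norm_mul, Units.val_zpow_eq_zpow_val, norm_zpow, expU_zpow,
        norm_expU]
      congr 2
      simp
    simp only [h2]
    have h3 := (Real.tendsto_exp_atBot.comp hl).const_mul (‖((c'⁻¹ : ℂˣ) : ℂ)‖ ^ ε)
    rw [mul_zero] at h3
    exact h3
  have h2 : ContinuousAt (fun w : ℂ => D.mu H (A.γ a (axis j w))) 0 :=
    ContinuousAt.comp (g := fun z => D.mu H (A.γ a z))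
      ((continuousOn_mu hK hinv a).continuousAt ((A.isOpen_U a).mem_nhds hm))
      (continuous_axis j).continuousAt
  have h3 : D.mu H (A.γ a (axis j 0)) = D.m a :=
    (PolAtlas.chMu hK D hinv a).mu_fix hm fun i => by
      have : axis j (0 : ℂ) = 0 := by
        ext i
        fin_cases j <;> fin_cases i <;> rfl
      rw [this]
      simp
  have h4 := h2.tendsto.comp h1
  rw [h3] at h4
  refine h4.congr fun t => ?_
  obtain ⟨hU, d, hd⟩ := hc' ((c'⁻¹ * expU t) ^ ε)
  rw [Function.comp_apply, hd, PolAtlas.mu_smul hK, zpow_zpow_self hε, mul_inv_cancel_left]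

end Orb

end

end Pool.Agent.YTDA
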