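import Pool.Agent.YTDA.Defs

/-!
The bundle over the projective line associated with a polarized manifold with `ℂˣ`-action:
`P1Y D α β = (Y × (ℂ² ∖ 0)) / ℂˣ` where `(y, λ x) ∼ (λ^α • act (λ^β) y, x)`.
-/

namespace Pool.Agent.YTDA

open Complex Set Topology

noncomputable section

/-- `ℂ² ∖ 0` -/
abbrev V2 := {x : Fin 2 → ℂ // x ≠ 0}

theorem V2.smul_ne (c : ℂˣ) (x : V2) : (c : ℂ) • x.1 ≠ 0 := by
  intro h
  rcases smul_eq_zero.1 h with h1 | h1
  · exact c.ne_zero h1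
  · exact x.2 h1

instance : MulAction ℂˣ V2 where
  smul c x := ⟨(c : ℂ) • x.1, V2.smul_ne c x⟩
  one_smul x := Subtype.ext (one_smul ℂ x.1)
  mul_smul c d x := Subtype.ext (by
    show ((c * d : ℂˣ) : ℂ) • x.1 = (c : ℂ) • (d : ℂ) • x.1
    rw [Units.val_mul, mul_smul])

theorem V2.coe_smul (c : ℂˣ) (x : V2) : ((c • x : V2) : Fin 2 → ℂ) = (c : ℂ) • x.1 := rfl

/-- the vector `(1, z)` (for `false`) or `(z, 1)` (for `true`) -/
def vec (b : Bool) (z : ℂ) : V2 := if b then ⟨![z, 1], by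
    intro h
    have := congrFun h 1
    simp at this⟩ else ⟨![1, z], by
    intro h
    have := congrFun h 0
    simp at this⟩

theorem vec_false (z : ℂ) : (vec false z : Fin 2 → ℂ) = ![1, z] := rfl

theorem vec_true (z : ℂ) : (vec true z : Fin 2 → ℂ) = ![z, 1] := rfl

variable {n : ℕ} {Y : Type} [MulAction ℂˣ Y] {A : PolAtlas n Y}

namespace PolAtlas.DAct

variable (D : A.DAct)

theorem act_pow_add (α : ℤ) (c d : ℂˣ) (y : Y) :
    D.act ((c * d) ^ α) y = D.act (c ^ α) (D.act (d ^ α) y) := by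
  rw [mul_zpow, D.act_mul]

end PolAtlas.DAct

/-- the equivalence relation -/
def p1Setoid (D : A.DAct) (α β : ℤ) : Setoid (Y × V2) where
  r p p' := ∃ c : ℂˣ, p.2 = c • p'.2 ∧ p'.1 = c ^ α • D.act (c ^ β) p.1
  iseqv := by
    refine ⟨?_, ?_, ?_⟩
    · rintro ⟨y, x⟩
      exact ⟨1, (one_smul ℂˣ x).symm, by simp [D.act_one]⟩
    · rintro ⟨y, x⟩ ⟨y', x'⟩ ⟨c, h1, h2⟩
      refine ⟨c⁻¹, ?_, ?_⟩
      · simp only at h1 ⊢
        rw [h1, inv_smul_smul]
      · simp only at h2 ⊢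
        rw [h2, D.act_smul, ← D.act_mul, smul_smul, ← mul_zpow, ← mul_zpow, inv_mul_cancel,
          one_zpow, one_zpow, D.act_one, one_smul]
    · rintro ⟨y, x⟩ ⟨y', x'⟩ ⟨y'', x''⟩ ⟨c, h1, h2⟩ ⟨d, h3, h4⟩
      refine ⟨c * d, ?_, ?_⟩
      · simp only at h1 h3 ⊢
        rw [h1, h3, smul_smul]
      · simp only at h2 h4 ⊢
        rw [h4, h2, D.act_smul, ← D.act_mul, smul_smul, ← mul_zpow, ← mul_zpow, mul_comm d c]

/-- the total space (minus zero section) of the line bundle over the bundle over `ℙ¹` -/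
def P1Y (D : A.DAct) (α β : ℤ) : Type := Quotient (p1Setoid D α β)

namespace P1Y

variable {D : A.DAct} {α β : ℤ}

/-- the point `[y, x]` -/
def mk (y : Y) (x : V2) : P1Y D α β := Quotient.mk (p1Setoid D α β) (y, x)

theorem mk_eq {y y' : Y} {x x' : V2} : (mk y x : P1Y D α β) = mk y' x' ↔
    ∃ c : ℂˣ, x = c • x' ∧ y' = c ^ α • D.act (c ^ β) y := by
  constructor
  · intro h
    exact Quotient.exact h
  · intro h
    exact Quotient.sound h

theorem mk_smul (c : ℂˣ) (y : Y) (x : V2) :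
    (mk y (c • x) : P1Y D α β) = mk (c ^ α • D.act (c ^ β) y) x :=
  mk_eq.2 ⟨c, rfl, rfl⟩

theorem exists_mk (p : P1Y D α β) : ∃ y x, p = mk y x := by
  obtain ⟨⟨y, x⟩, rfl⟩ := Quotient.exists_rep p
  exact ⟨y, x, rfl⟩

instance : MulAction ℂˣ (P1Y D α β) where
  smul c := Quotient.map (fun p => (c • p.1, p.2)) (by
    rintro ⟨y, x⟩ ⟨y', x'⟩ ⟨d, h1, h2⟩
    refine ⟨d, h1, ?_⟩
    simp only at h2 ⊢
    rw [h2, D.act_smul, smul_smul, smul_smul, mul_comm])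
  one_smul p := by
    obtain ⟨y, x, rfl⟩ := exists_mk p
    show (mk ((1 : ℂˣ) • y) x : P1Y D α β) = mk y x
    rw [one_smul]
  mul_smul c d p := by
    obtain ⟨y, x, rfl⟩ := exists_mk p
    show (mk ((c * d) • y) x : P1Y D α β) = mk (c • d • y) x
    rw [mul_smul]

theorem smul_mk (c : ℂˣ) (y : Y) (x : V2) : c • (mk y x : P1Y D α β) = mk (c • y) x := rfl

/-- maps of the fibre commuting with the actions extend -/
def map (f : Y → Y) (hf : ∀ (c : ℂˣ) y, f (c • y) = c • f y)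
    (hf' : ∀ (c : ℂˣ) y, f (D.act c y) = D.act c (f y)) : P1Y D α β → P1Y D α β :=
  Quotient.map (fun p => (f p.1, p.2)) (by
    rintro ⟨y, x⟩ ⟨y', x'⟩ ⟨d, h1, h2⟩
    refine ⟨d, h1, ?_⟩
    simp only at h2 ⊢
    rw [h2, hf, hf'])

theorem map_mk (f : Y → Y) (hf : ∀ (c : ℂˣ) y, f (c • y) = c • f y)
    (hf' : ∀ (c : ℂˣ) y, f (D.act c y) = D.act c (f y)) (y : Y) (x : V2) :
    map f hf hf' (mk y x : P1Y D α β) = mk (f y) x := rfl

/-- the action of `GL₂(ℂ)` -/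
def gl (g : GL (Fin 2) ℂ) : P1Y D α β → P1Y D α β :=
  Quotient.map (fun p => (p.1, ⟨g.1.mulVec p.2.1, by
    intro h
    apply p.2.2
    have h1 := congrArg (fun v => (g⁻¹).1.mulVec v) h
    simp only [Matrix.mulVec_mulVec, Matrix.mulVec_zero] at h1
    rwa [← Units.val_mul, inv_mul_cancel, Units.val_one, Matrix.one_mulVec] at h1⟩)) (by
    rintro ⟨y, x⟩ ⟨y', x'⟩ ⟨d, h1, h2⟩
    refine ⟨d, ?_, h2⟩
    simp only at h1
    subst h1
    apply Subtype.ext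
    show g.1.mulVec ((d : ℂ) • x'.1) = (d : ℂ) • g.1.mulVec x'.1
    rw [Matrix.mulVec_smul])

end P1Y

end

end Pool.Agent.YTDA
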