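import Pool.Agent.YTDA.Glue
import Pool.Agent.YTDA.P1Defs
import Pool.Agent.YTDA.Holo

/-!
# The bundle over the projective line: atlas, compactness, Hausdorff property, actions

`PolAtlas.p1 A D α β` is the atlas of `P1Y D α β` with index set `A.ι × Bool` and the charts
`z ↦ [γ_a (z_0, ..., z_{n-1}), vec b z_n]`.
-/

namespace Pool.Agent.YTDA

open Complex Set Topology Filter

noncomputable section

variable {n : ℕ} {Y : Type} [MulAction ℂˣ Y]

/-- the first `n` coordinates -/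
def ini1 {n : ℕ} (z : E (n + 1)) : E n := fun j => z (Fin.castSucc j)

theorem ini1_apply {n : ℕ} (z : E (n + 1)) (j : Fin n) : ini1 z j = z (Fin.castSucc j) := rfl

/-- append a coordinate -/
def snoc1 {n : ℕ} (z : E n) (u : ℂ) : E (n + 1) := Fin.snoc z u

@[simp] theorem ini1_snoc1 (z : E n) (u : ℂ) : ini1 (snoc1 z u) = z := by
  funext j
  simp [ini1, snoc1]

@[simp] theorem snoc1_last (z : E n) (u : ℂ) : snoc1 z u (Fin.last n) = u := by
  simp [snoc1]

theorem snoc1_ini1 (z : E (n + 1)) : snoc1 (ini1 z) (z (Fin.last n)) = z := by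
  funext j
  refine Fin.lastCases ?_ (fun j => ?_) j
  · simp [snoc1]
  · simp [snoc1, ini1]

theorem ext1 {z z' : E (n + 1)} (h : ini1 z = ini1 z') (h' : z (Fin.last n) = z' (Fin.last n)) :
    z = z' := by
  rw [← snoc1_ini1 z, ← snoc1_ini1 z', h, h']

theorem analyticAt_ini1 (z : E (n + 1)) : AnalyticAt ℂ (ini1 : E (n + 1) → E n) z := by
  rw [analyticAt_pi_iff]
  intro j
  exact (ContinuousLinearMap.proj (R := ℂ) (φ := fun _ : Fin (n + 1) => ℂ)
    (Fin.castSucc j)).analyticAt z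

theorem analyticAt_last (z : E (n + 1)) :
    AnalyticAt ℂ (fun ζ : E (n + 1) => ζ (Fin.last n)) z :=
  (ContinuousLinearMap.proj (R := ℂ) (φ := fun _ : Fin (n + 1) => ℂ) (Fin.last n)).analyticAt z

theorem continuous_ini1 : Continuous (ini1 : E (n + 1) → E n) :=
  continuous_pi fun j => continuous_apply (Fin.castSucc j)

theorem continuous_snoc1 : Continuous (fun p : E n × ℂ => snoc1 p.1 p.2) := by
  refine continuous_pi fun j => ?_
  refine Fin.lastCases ?_ (fun j => ?_) j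
  · simpa [snoc1] using continuous_snd
  · have h : Continuous fun p : E n × ℂ => p.1 j := (continuous_apply j).comp continuous_fst
    simpa [snoc1] using h

theorem analyticAt_snoc1 {m : ℕ} {f : E m → E n} {u : E m → ℂ} {z : E m}
    (hf : AnalyticAt ℂ f z) (hu : AnalyticAt ℂ u z) :
    AnalyticAt ℂ (fun ζ => snoc1 (f ζ) (u ζ)) z := by
  rw [analyticAt_pi_iff]
  intro j
  refine Fin.lastCases ?_ (fun j => ?_) j
  · simpa [snoc1] using hu
  · simpa [snoc1] using (analyticAt_pi_iff.1 hf) j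

namespace PolAtlas

variable (A : PolAtlas n Y)

theorem analyticAt_tau (a b : A.ι) {z : E n} (hz : z ∈ A.O a b) : AnalyticAt ℂ (A.τ a b) z :=
  Holo.analyticOnNhd (A.isOpen_O a b) (A.hol_τ a b) z hz

theorem analyticAt_h (a b : A.ι) {z : E n} (hz : z ∈ A.O a b) :
    AnalyticAt ℂ (fun ζ => (A.h a b ζ : ℂ)) z :=
  Holo.analyticOnNhd (A.isOpen_O a b) (A.hol_h a b) z hz

theorem loc1 (a b : A.ι) {z z' : E n} (hz : z ∈ A.U a) (hz' : z' ∈ A.U b) (c : ℂˣ)
    (h : A.γ b z' = c • A.γ a z) : Loc (A.γ a) z (A.γ b) z' := by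
  have hO : z ∈ A.O a b := ⟨hz, z', hz', c, h⟩
  refine ⟨A.τ a b, A.h a b, A.analyticAt_tau a b hO, A.analyticAt_h a b hO, ?_, ?_⟩
  · obtain ⟨h1, h2⟩ := A.trans a b z hz hO.2
    refine (A.inj b z' hz' _ h1 (A.h a b z * c⁻¹) ?_).1
    rw [h2, h, smul_smul, inv_mul_cancel_right]
  · filter_upwards [(A.isOpen_O a b).mem_nhds hO] with ζ hζ
    exact (A.trans a b ζ hζ.1 hζ.2).2

end PolAtlas

/-! ### Vectors -/

theorem vec_swap1 {u : ℂ} (hu : u ≠ 0) (b : Bool) :
    vec b u = (Units.mk0 u hu) • vec (!b) u⁻¹ := by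
  apply Subtype.ext
  rw [V2.coe_smul]
  cases b
  · show (vec false u : Fin 2 → ℂ) = u • (vec true u⁻¹ : Fin 2 → ℂ)
    rw [vec_false, vec_true]
    ext i; fin_cases i <;> simp [hu]
  · show (vec true u : Fin 2 → ℂ) = u • (vec false u⁻¹ : Fin 2 → ℂ)
    rw [vec_false, vec_true]
    ext i; fin_cases i <;> simp [hu]

theorem vec_inj1 {b : Bool} {c : ℂˣ} {x x' : ℂ} (h : vec b x = c • vec b x') :
    c = 1 ∧ x = x' := by
  have h1 := congrArg (fun v : V2 => (v : Fin 2 → ℂ)) h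
  simp only [V2.coe_smul] at h1
  have h2 := congrFun h1 0
  have h3 := congrFun h1 1
  cases b
  · simp [vec_false] at h2 h3
    have hc : c = 1 := Units.ext h2.symm
    rw [hc] at h3
    exact ⟨hc, by simpa using h3⟩
  · simp [vec_true] at h2 h3
    have hc : c = 1 := Units.ext h3.symm
    rw [hc] at h2
    exact ⟨hc, by simpa using h2⟩

theorem vec_not1 {b : Bool} {c : ℂˣ} {x x' : ℂ} (h : vec (!b) x = c • vec b x') :
    x' ≠ 0 ∧ x = x'⁻¹ := by
  have h1 := congrArg (fun v : V2 => (v : Fin 2 → ℂ)) h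
  simp only [V2.coe_smul] at h1
  have h2 := congrFun h1 0
  have h3 := congrFun h1 1
  cases b
  · simp [vec_false, vec_true] at h2 h3
    have hx : x' ≠ 0 := by
      rintro rfl
      simp at h3
    refine ⟨hx, ?_⟩
    rw [h2]
    exact eq_inv_of_mul_eq_one_left h3.symm
  · simp [vec_false, vec_true] at h2 h3
    have hx : x' ≠ 0 := by
      rintro rfl
      simp at h2
    refine ⟨hx, ?_⟩
    rw [h3]
    exact eq_inv_of_mul_eq_one_left h2.symm

/-- Every vector is a multiple of a standard vector with small parameter. -/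
theorem exists_vec1 (x : V2) : ∃ b, ∃ c : ℂˣ, ∃ u : ℂ, ‖u‖ ≤ 1 ∧ x = c • vec b u := by
  by_cases h : ‖x.1 1‖ ≤ ‖x.1 0‖
  · have h0 : x.1 0 ≠ 0 := by
      intro h0
      rw [h0, norm_zero, norm_le_zero_iff] at h
      apply x.2
      funext i
      fin_cases i
      · exact h0
      · exact h
    refine ⟨false, Units.mk0 _ h0, x.1 1 / x.1 0, ?_, ?_⟩
    · rw [norm_div]
      exact div_le_one_of_le₀ h (norm_nonneg _)
    · apply Subtype.ext
      rw [V2.coe_smul, vec_false]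
      ext i
      fin_cases i
      · simp
      · simp [mul_div_cancel₀ _ h0]
  · have h1 : x.1 1 ≠ 0 := by
      intro h1
      rw [h1, norm_zero] at h
      exact h (norm_nonneg _)
    refine ⟨true, Units.mk0 _ h1, x.1 0 / x.1 1, ?_, ?_⟩
    · rw [norm_div]
      exact div_le_one_of_le₀ (not_le.1 h).le (norm_nonneg _)
    · apply Subtype.ext
      rw [V2.coe_smul, vec_true]
      ext i
      fin_cases i
      · simp [mul_div_cancel₀ _ h1]
      · simp

variable {A : PolAtlas n Y} {D : A.DAct} {α β : ℤ}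

/-- the frames of the bundle -/
def p1γ (A : PolAtlas n Y) (D : A.DAct) (α β : ℤ) (i : A.ι × Bool) (z : E (n + 1)) :
    P1Y D α β := P1Y.mk (A.γ i.1 (ini1 z)) (vec i.2 (z (Fin.last n)))

theorem p1γ_eq {i j : A.ι × Bool} {z z' : E (n + 1)} {c : ℂˣ}
    (h : p1γ A D α β j z' = c • p1γ A D α β i z) :
    ∃ d : ℂˣ, vec j.2 (z' (Fin.last n)) = d • vec i.2 (z (Fin.last n)) ∧
      c • A.γ i.1 (ini1 z) = d ^ α • D.act (d ^ β) (A.γ j.1 (ini1 z')) := by
  unfold p1γ at h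
  rw [P1Y.smul_mk] at h
  exact P1Y.mk_eq.1 h

theorem p1γ_same {a a' : A.ι} {b : Bool} {z z' : E (n + 1)} {c : ℂˣ}
    (h : p1γ A D α β (a', b) z' = c • p1γ A D α β (a, b) z) :
    z' (Fin.last n) = z (Fin.last n) ∧ A.γ a' (ini1 z') = c • A.γ a (ini1 z) := by
  obtain ⟨d, h1, h2⟩ := p1γ_eq h
  obtain ⟨h3, h4⟩ := vec_inj1 h1
  subst h3
  refine ⟨h4, ?_⟩
  simpa [D.act_one] using h2.symm

theorem p1γ_not {a a' : A.ι} {b : Bool} {z z' : E (n + 1)} {c : ℂˣ}
    (h : p1γ A D α β (a', !b) z' = c • p1γ A D α β (a, b) z) :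
    z (Fin.last n) ≠ 0 ∧ z' (Fin.last n) = (z (Fin.last n))⁻¹ := by
  obtain ⟨d, h1, h2⟩ := p1γ_eq h
  exact vec_not1 h1

/-- the coordinates of a point in the other chart of the projective line -/
def swp (D : A.DAct) (β : ℤ) (a : A.ι) (u : ℂˣ) (z : E n) : E (n + 1) :=
  snoc1 (dact (D.k a) (u ^ β) z) ((u : ℂ)⁻¹)

theorem p1γ_swap (a : A.ι) (b : Bool) {z : E n} (hz : z ∈ A.U a) (u : ℂˣ) :
    p1γ A D α β (a, !b) (swp D β a u z) =
      (u ^ (-(α + β * D.m a))) • p1γ A D α β (a, b) (snoc1 z u) := by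
  unfold p1γ swp
  simp only [ini1_snoc1, snoc1_last]
  rw [vec_swap1 u.ne_zero b, Units.mk0_val, P1Y.mk_smul, D.act_γ a z hz, smul_smul, P1Y.smul_mk,
    smul_smul, ← zpow_mul, ← zpow_add, ← zpow_add]
  rw [show -(α + β * D.m a) + (α + β * D.m a) = 0 by ring, zpow_zero, one_smul]

theorem analyticAt_zpow1 {m : ℕ} {g : E m → ℂˣ} {z : E m}
    (hg : AnalyticAt ℂ (fun ζ => (g ζ : ℂ)) z) (k : ℤ) :
    AnalyticAt ℂ (fun ζ => (((g ζ) ^ k : ℂˣ) : ℂ)) z := by
  simpa only [Units.val_zpow_eq_zpow_val] using hg.fun_zpow (g z).ne_zero (n := k)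

theorem analyticAt_dact1 {m : ℕ} {k : Fin n → ℤ} {g : E m → ℂˣ} {t : E m → E n} {z : E m}
    (hg : AnalyticAt ℂ (fun ζ => (g ζ : ℂ)) z) (ht : AnalyticAt ℂ t z) :
    AnalyticAt ℂ (fun ζ => dact k (g ζ) (t ζ)) z := by
  rw [analyticAt_pi_iff]
  intro j
  unfold dact
  exact (analyticAt_zpow1 hg (k j)).fun_mul ((analyticAt_pi_iff.1 ht) j)

theorem loc_swap (a : A.ι) (b : Bool) {z : E n} (hz : z ∈ A.U a) (u : ℂˣ) :
    Loc (p1γ A D α β (a, b)) (snoc1 z u) (p1γ A D α β (a, !b)) (swp D β a u z) := by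
  classical
  let w : E (n + 1) → ℂˣ := fun ζ => if h : ζ (Fin.last n) = 0 then 1 else Units.mk0 _ h
  have hne : ∀ᶠ ζ : E (n + 1) in 𝓝 (snoc1 z u), ζ (Fin.last n) ≠ 0 := by
    apply (analyticAt_last (snoc1 z u)).continuousAt.eventually_ne
    simp
  have hw : AnalyticAt ℂ (fun ζ => (w ζ : ℂ)) (snoc1 z u) := by
    refine (analyticAt_last _).congr ?_
    filter_upwards [hne] with ζ hζ
    simp only [w, dif_neg hζ, Units.val_mk0]
  have hwz : w (snoc1 z u) = u := by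
    simp only [w, snoc1_last, dif_neg u.ne_zero]
    exact Units.ext (by simp)
  refine ⟨fun ζ => swp D β a (w ζ) (ini1 ζ), fun ζ => (w ζ) ^ (-(α + β * D.m a)), ?_,
    analyticAt_zpow1 hw _, ?_, ?_⟩
  · unfold swp
    refine analyticAt_snoc1 (analyticAt_dact1 (analyticAt_zpow1 hw β) (analyticAt_ini1 _)) ?_
    exact hw.fun_inv (w _).ne_zero
  · simp only [hwz, ini1_snoc1]
  · have hU : ∀ᶠ ζ : E (n + 1) in 𝓝 (snoc1 z u), ini1 ζ ∈ A.U a := by
      apply continuous_ini1.continuousAt.eventually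
      rw [ini1_snoc1]
      exact (A.isOpen_U a).mem_nhds hz
    filter_upwards [hne, hU] with ζ h1 h2
    rw [p1γ_swap a b h2]
    congr 2
    apply ext1
    · rw [ini1_snoc1]
    · rw [snoc1_last]
      simp only [w, dif_neg h1, Units.val_mk0]

theorem loc_same (b : Bool) {a a' : A.ι} {z z' : E n} (u : ℂ)
    (h : Loc (A.γ a) z (A.γ a') z') :
    Loc (p1γ A D α β (a, b)) (snoc1 z u) (p1γ A D α β (a', b)) (snoc1 z' u) := by
  obtain ⟨f, g, hf, hg, hz, he⟩ := h
  have h1 : AnalyticAt ℂ (ini1 : E (n + 1) → E n) (snoc1 z u) := analyticAt_ini1 _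
  refine ⟨fun ζ => snoc1 (f (ini1 ζ)) (ζ (Fin.last n)), fun ζ => g (ini1 ζ), ?_, ?_, ?_, ?_⟩
  · refine analyticAt_snoc1 ?_ (analyticAt_last _)
    refine AnalyticAt.comp ?_ h1
    rwa [ini1_snoc1]
  · refine AnalyticAt.comp (g := fun ζ => ((g ζ : ℂˣ) : ℂ)) ?_ h1
    rwa [ini1_snoc1]
  · simp only [ini1_snoc1, snoc1_last, hz]
  · have h2 : ∀ᶠ ζ : E (n + 1) in 𝓝 (snoc1 z u), A.γ a' (f (ini1 ζ)) = g (ini1 ζ) •
        A.γ a (ini1 ζ) := by
      have h3 : ∀ᶠ y in 𝓝 (ini1 (snoc1 z u)), A.γ a' (f y) = g y • A.γ a y := by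
        rwa [ini1_snoc1]
      exact h1.continuousAt.eventually h3
    filter_upwards [h2] with ζ h3
    unfold p1γ
    simp only [ini1_snoc1, snoc1_last]
    rw [h3, P1Y.smul_mk]

/-- the atlas of the bundle over the projective line -/
def p1Pre (A : PolAtlas n Y) (D : A.DAct) (α β : ℤ) : PreAtlas (n + 1) (P1Y D α β) where
  ι := A.ι × Bool
  U i := {z | ini1 z ∈ A.U i.1}
  γ := p1γ A D α β
  isOpen_U i := (A.isOpen_U i.1).preimage continuous_ini1
  inj := by
    rintro ⟨a, b⟩ z hz z' hz' c h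
    obtain ⟨h1, h2⟩ := p1γ_same h
    obtain ⟨h3, h4⟩ := A.inj a _ hz _ hz' c h2
    exact ⟨ext1 h3 h1, h4⟩
  cover := by
    intro p
    obtain ⟨y, x, rfl⟩ := P1Y.exists_mk p
    obtain ⟨b, c, u, _, rfl⟩ := exists_vec1 x
    rw [P1Y.mk_smul]
    obtain ⟨a, z, hz, d, hd⟩ := A.cover (c ^ α • D.act (c ^ β) y)
    refine ⟨(a, b), snoc1 z u, by simpa using hz, d, ?_⟩
    rw [hd]
    unfold p1γ
    simp only [ini1_snoc1, snoc1_last]
    rw [P1Y.smul_mk]
  loc := by
    rintro ⟨a, b⟩ ⟨a', b'⟩ z hz z' hz' c h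
    simp only [mem_ofPred_eq] at hz hz'
    by_cases hb : b' = b
    · subst hb
      obtain ⟨h1, h2⟩ := p1γ_same h
      have := loc_same (D := D) (α := α) (β := β) b' (z (Fin.last n)) (A.loc1 a a' hz hz' c h2)
      rw [snoc1_ini1, ← h1, snoc1_ini1] at this
      exact this
    · have hb' : b' = !b := by
        cases b <;> cases b' <;> simp_all
      subst hb'
      obtain ⟨h1, h2⟩ := p1γ_not h
      have hl := loc_swap (D := D) (α := α) (β := β) a b hz (Units.mk0 _ h1)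
      rw [Units.val_mk0, snoc1_ini1] at hl
      have he := p1γ_swap (D := D) (α := α) (β := β) a b hz (Units.mk0 _ h1)
      rw [Units.val_mk0, snoc1_ini1] at he
      have hs : p1γ A D α β (a', !b) z' = (c * ((Units.mk0 _ h1) ^ (-(α + β * D.m a)))⁻¹) •
          p1γ A D α β (a, !b) (swp D β a (Units.mk0 _ h1) (ini1 z)) := by
        rw [h, he, smul_smul, inv_mul_cancel_right]
      obtain ⟨h3, h4⟩ := p1γ_same hs
      have hU : ini1 (swp D β a (Units.mk0 _ h1) (ini1 z)) ∈ A.U a := by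
        unfold swp
        rw [ini1_snoc1]
        exact D.dom a _ hz _
      have := loc_same (D := D) (α := α) (β := β) (!b) (z' (Fin.last n))
        (A.loc1 a a' hU hz' _ h4)
      rw [snoc1_ini1, h3, snoc1_ini1] at this
      exact hl.trans this

/-- the atlas of the bundle over the projective line -/
def PolAtlas.p1 (A : PolAtlas n Y) (D : A.DAct) (α β : ℤ) : PolAtlas (n + 1) (P1Y D α β) :=
  (p1Pre A D α β).toAtlas

theorem p1_ι : (A.p1 D α β).ι = (A.ι × Bool) := rfl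

theorem p1_U (i : A.ι × Bool) : (A.p1 D α β).U i = {z | ini1 z ∈ A.U i.1} := rfl

theorem p1_γ (i : A.ι × Bool) (z : E (n + 1)) :
    (A.p1 D α β).γ i z = P1Y.mk (A.γ i.1 (ini1 z)) (vec i.2 (z (Fin.last n))) := rfl

/-! ### Compactness -/

theorem p1_isCpt (hA : A.IsCpt) : (A.p1 D α β).IsCpt := by
  obtain ⟨m, a, K, hK, hc⟩ := hA
  refine ⟨m * 2, fun k => ((a (finProdFinEquiv.symm k).1, (finProdFinEquiv.symm k).2 = 1) :
    A.ι × Bool), fun k => (fun p : E n × ℂ => snoc1 p.1 p.2) ''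
      (K (finProdFinEquiv.symm k).1 ×ˢ Metric.closedBall 0 1), fun k => ⟨?_, ?_⟩, ?_⟩
  · exact (((hK _).1).prod (isCompact_closedBall 0 1)).image continuous_snoc1
  · rintro _ ⟨⟨z, u⟩, ⟨hz, _⟩, rfl⟩
    show ini1 (snoc1 z u) ∈ A.U _
    rw [ini1_snoc1]
    exact (hK _).2 hz
  · intro p
    obtain ⟨y, x, rfl⟩ := P1Y.exists_mk p
    obtain ⟨b, c, u, hu, rfl⟩ := exists_vec1 x
    obtain ⟨k, z, hz, d, hd⟩ := hc (c ^ α • D.act (c ^ β) y)
    refine ⟨finProdFinEquiv (k, if b then 1 else 0), snoc1 z u, ?_, d, ?_⟩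
    · simp only [Equiv.symm_apply_apply]
      exact ⟨(z, u), ⟨hz, by simpa using hu⟩, rfl⟩
    · rw [P1Y.mk_smul, hd]
      show _ = d • p1γ A D α β _ _
      unfold p1γ
      simp only [ini1_snoc1, snoc1_last, Equiv.symm_apply_apply]
      rw [P1Y.smul_mk]
      cases b <;> simp

/-! ### The Hausdorff property -/

theorem sep_last {i j : A.ι × Bool} {z z' : E (n + 1)} {V V' : Set ℂ}
    (hV : V ∈ 𝓝 (z (Fin.last n))) (hV' : V' ∈ 𝓝 (z' (Fin.last n)))
    (h : ∀ w w' : E (n + 1), w (Fin.last n) ∈ V → w' (Fin.last n) ∈ V' → ∀ c : ℂˣ,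
      p1γ A D α β j w' ≠ c • p1γ A D α β i w) :
    Sep (p1γ A D α β i) z (p1γ A D α β j) z' :=
  ⟨_, (continuous_apply (Fin.last n)).continuousAt.preimage_mem_nhds hV,
    _, (continuous_apply (Fin.last n)).continuousAt.preimage_mem_nhds hV',
    fun w hw w' hw' c => h w w' hw hw' c⟩

theorem sep_same (ht : A.IsT2) {a a' : A.ι} (b : Bool) {z z' : E (n + 1)}
    (hz : ini1 z ∈ A.U a) (hz' : ini1 z' ∈ A.U a')
    (h : ∀ c : ℂˣ, p1γ A D α β (a', b) z' ≠ c • p1γ A D α β (a, b) z) :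
    Sep (p1γ A D α β (a, b)) z (p1γ A D α β (a', b)) z' := by
  by_cases hl : z (Fin.last n) = z' (Fin.last n)
  · have h1 : ∀ c : ℂˣ, A.γ a' (ini1 z') ≠ c • A.γ a (ini1 z) := by
      intro c hc
      apply h c
      unfold p1γ
      simp only
      rw [hc, ← hl, P1Y.smul_mk]
    obtain ⟨V, hV, V', hV', h2⟩ := ht a a' _ hz _ hz' h1
    refine ⟨ini1 ⁻¹' (V ∩ A.U a), continuous_ini1.continuousAt.preimage_mem_nhds
        (inter_mem hV ((A.isOpen_U a).mem_nhds hz)),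
      ini1 ⁻¹' (V' ∩ A.U a'), continuous_ini1.continuousAt.preimage_mem_nhds
        (inter_mem hV' ((A.isOpen_U a').mem_nhds hz')), ?_⟩
    intro w hw w' hw' c hc
    exact h2 _ hw _ hw' c (p1γ_same hc).2
  · obtain ⟨V, V', hV, hV', hzV, hzV', hd⟩ := t2_separation hl
    refine sep_last (hV.mem_nhds hzV) (hV'.mem_nhds hzV') fun w w' hw hw' c hc => ?_
    rw [(p1γ_same hc).1] at hw'
    exact Set.disjoint_left.1 hd hw hw'

theorem sep_swap (ht : A.IsT2) {a a' : A.ι} (b : Bool) {z z' : E (n + 1)}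
    (hz : ini1 z ∈ A.U a) (hz' : ini1 z' ∈ A.U a') (h0 : z (Fin.last n) ≠ 0)
    (h : ∀ c : ℂˣ, p1γ A D α β (a', !b) z' ≠ c • p1γ A D α β (a, b) z) :
    Sep (p1γ A D α β (a, b)) z (p1γ A D α β (a', !b)) z' := by
  have hl := loc_swap (D := D) (α := α) (β := β) a b hz (Units.mk0 _ h0)
  rw [Units.val_mk0, snoc1_ini1] at hl
  have he := p1γ_swap (D := D) (α := α) (β := β) a b hz (Units.mk0 _ h0)
  rw [Units.val_mk0, snoc1_ini1] at he
  refine Sep.of_loc hl (sep_same ht (!b) ?_ hz' ?_)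
  · unfold swp
    rw [ini1_snoc1]
    exact D.dom a _ hz _
  · intro c hc
    rw [he, smul_smul] at hc
    exact h _ hc

theorem p1_isT2 (ht : A.IsT2) : (A.p1 D α β).IsT2 := by
  refine (p1Pre A D α β).isT2 ?_
  rintro ⟨a, b⟩ ⟨a', b'⟩ z hz z' hz' h
  change ini1 z ∈ A.U a at hz
  change ini1 z' ∈ A.U a' at hz'
  change ∀ c : ℂˣ, p1γ A D α β (a', b') z' ≠ c • p1γ A D α β (a, b) z at h
  change Sep (p1γ A D α β (a, b)) z (p1γ A D α β (a', b')) z'
  by_cases hb : b' = b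
  · subst hb
    exact sep_same ht b' hz hz' h
  · have hb' : b' = !b := by
      cases b <;> cases b' <;> simp_all
    subst hb'
    by_cases h0 : z (Fin.last n) = 0
    · by_cases h0' : z' (Fin.last n) = 0
      · refine sep_last (V := Metric.ball 0 1) (V' := Metric.ball 0 1)
          (by rw [h0]; exact Metric.ball_mem_nhds _ one_pos)
          (by rw [h0']; exact Metric.ball_mem_nhds _ one_pos) fun w w' hw hw' c hc => ?_
        obtain ⟨h1, h2⟩ := p1γ_not hc
        rw [h2, mem_ball_zero_iff, norm_inv] at hw'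
        rw [mem_ball_zero_iff] at hw
        have := one_lt_inv_iff₀.2 ⟨norm_pos_iff.2 h1, hw⟩
        exact lt_asymm hw' this
      · apply Sep.symm
        have := sep_swap (D := D) (α := α) (β := β) ht (!b) hz' hz h0' (fun c hc => h c⁻¹ (by
          rw [Bool.not_not] at hc
          rw [hc, inv_smul_smul]))
        rwa [Bool.not_not] at this
    · exact sep_swap ht b hz hz' h0 h

/-! ### The actions -/

theorem ini1_dact (k : Fin n → ℤ) (l : ℤ) (c : ℂˣ) (z : E (n + 1)) :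
    ini1 (dact (Fin.snoc k l : Fin (n + 1) → ℤ) c z) = dact k c (ini1 z) := by
  funext j
  simp [ini1, dact]

theorem last_dact1 (k : Fin n → ℤ) (l : ℤ) (c : ℂˣ) (z : E (n + 1)) :
    dact (Fin.snoc k l : Fin (n + 1) → ℤ) c z (Fin.last n) = ((c ^ l : ℂˣ) : ℂ) *
      z (Fin.last n) := by
  simp [dact]

/-- an action on `Y` commuting with `D` acts on the bundle -/
def PolAtlas.DAct.lift (D D' : A.DAct) (α β : ℤ)
    (h : ∀ c c' y, D'.act c (D.act c' y) = D.act c' (D'.act c y)) : (A.p1 D α β).DAct where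
  act c := P1Y.map (D'.act c) (fun c' y => D'.act_smul c c' y) (fun c' y => h c c' y)
  act_one p := by
    obtain ⟨y, x, rfl⟩ := P1Y.exists_mk p
    rw [P1Y.map_mk, D'.act_one]
  act_mul c c' p := by
    obtain ⟨y, x, rfl⟩ := P1Y.exists_mk p
    rw [P1Y.map_mk, P1Y.map_mk, P1Y.map_mk, D'.act_mul]
  act_smul c c' p := by
    obtain ⟨y, x, rfl⟩ := P1Y.exists_mk p
    rw [P1Y.smul_mk, P1Y.map_mk, P1Y.map_mk, D'.act_smul, P1Y.smul_mk]
  k i := Fin.snoc (D'.k i.1) 0
  m i := D'.m i.1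
  dom i z hz c := by
    show ini1 _ ∈ A.U i.1
    rw [ini1_dact]
    exact D'.dom i.1 _ hz c
  act_γ := by
    rintro ⟨a, b⟩ z hz c
    show P1Y.map _ _ _ (P1Y.mk (A.γ a (ini1 z)) (vec b (z (Fin.last n)))) = c ^ (D'.m a) •
      P1Y.mk (A.γ a (ini1 (dact (Fin.snoc (D'.k a) 0 : Fin (n + 1) → ℤ) c z)))
        (vec b (dact (Fin.snoc (D'.k a) 0 : Fin (n + 1) → ℤ) c z (Fin.last n)))
    rw [P1Y.map_mk, ini1_dact, last_dact1, zpow_zero, Units.val_one, one_mul,
      P1Y.smul_mk, D'.act_γ a _ hz c]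

theorem PolAtlas.DAct.lift_act (D D' : A.DAct) (α β : ℤ)
    (h : ∀ c c' y, D'.act c (D.act c' y) = D.act c' (D'.act c y)) (c : ℂˣ) (y : Y) (x : V2) :
    (D.lift D' α β h).act c (P1Y.mk y x) = P1Y.mk (D'.act c y) x := rfl

/-- the vector `(x_0, c x_1)` -/
def rotV (c : ℂˣ) (x : V2) : V2 := ⟨![x.1 0, (c : ℂ) * x.1 1], by
  intro h
  have h0 := congrFun h 0
  have h1 := congrFun h 1
  simp only [Matrix.cons_val_zero, Matrix.cons_val_one, Pi.zero_apply, mul_eq_zero, c.ne_zero,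
    false_or] at h0 h1
  apply x.2
  funext i
  fin_cases i
  · exact h0
  · exact h1⟩

theorem rotV_coe (c : ℂˣ) (x : V2) : (rotV c x : Fin 2 → ℂ) = ![x.1 0, (c : ℂ) * x.1 1] := rfl

theorem rotV_smul (c d : ℂˣ) (x : V2) : rotV c (d • x) = d • rotV c x := by
  apply Subtype.ext
  rw [rotV_coe, V2.coe_smul, V2.coe_smul, rotV_coe]
  ext i
  fin_cases i
  · simp
  · simp [mul_left_comm]

theorem rotV_one (x : V2) : rotV 1 x = x := by
  apply Subtype.ext
  rw [rotV_coe]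
  ext i
  fin_cases i <;> simp

theorem rotV_mul (c d : ℂˣ) (x : V2) : rotV (c * d) x = rotV c (rotV d x) := by
  apply Subtype.ext
  rw [rotV_coe, rotV_coe, rotV_coe]
  ext i
  fin_cases i <;> simp [mul_assoc]

theorem rotV_false (c : ℂˣ) (u : ℂ) : rotV c (vec false u) = vec false ((c : ℂ) * u) := by
  apply Subtype.ext
  rw [rotV_coe, vec_false, vec_false]
  ext i
  fin_cases i <;> simp

theorem rotV_true (c : ℂˣ) (u : ℂ) : rotV c (vec true u) = c • vec true ((c : ℂ)⁻¹ * u) := by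
  apply Subtype.ext
  rw [rotV_coe, V2.coe_smul, vec_true, vec_true]
  ext i
  fin_cases i
  · simp
  · simp

/-- the map `[y, (x_0, x_1)] ↦ [y, (x_0, c x_1)]` -/
def rotY (c : ℂˣ) : P1Y D α β → P1Y D α β :=
  Quotient.map (fun p => (p.1, rotV c p.2)) (by
    rintro ⟨y, x⟩ ⟨y', x'⟩ ⟨d, h1, h2⟩
    refine ⟨d, ?_, h2⟩
    simp only at h1 ⊢
    rw [h1, rotV_smul])

theorem rotY_mk (c : ℂˣ) (y : Y) (x : V2) :
    rotY c (P1Y.mk y x : P1Y D α β) = P1Y.mk y (rotV c x) := rfl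

/-- the rotation of the projective line -/
def PolAtlas.DAct.rot (D : A.DAct) (α β : ℤ) : (A.p1 D α β).DAct where
  act := rotY
  act_one p := by
    obtain ⟨y, x, rfl⟩ := P1Y.exists_mk p
    rw [rotY_mk, rotV_one]
  act_mul c c' p := by
    obtain ⟨y, x, rfl⟩ := P1Y.exists_mk p
    rw [rotY_mk, rotY_mk, rotY_mk, rotV_mul]
  act_smul c c' p := by
    obtain ⟨y, x, rfl⟩ := P1Y.exists_mk p
    rw [P1Y.smul_mk, rotY_mk, rotY_mk, P1Y.smul_mk]
  k i := if i.2 then Fin.snoc (fun j => β * D.k i.1 j) (-1) else Fin.snoc (fun _ => 0) 1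
  m i := if i.2 then α + β * D.m i.1 else 0
  dom := by
    rintro ⟨a, b⟩ z hz c
    change ini1 z ∈ A.U a at hz
    show ini1 _ ∈ A.U a
    cases b
    · simp only [Bool.false_eq_true, if_false]
      rw [ini1_dact]
      have : dact (fun _ => (0 : ℤ)) c (ini1 z) = ini1 z := by
        funext j
        simp [dact]
      rwa [this]
    · simp only [if_true]
      rw [ini1_dact]
      have : dact (fun j => β * D.k a j) c (ini1 z) = dact (D.k a) (c ^ β) (ini1 z) := by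
        funext j
        simp only [dact]
        rw [zpow_mul]
      rw [this]
      exact D.dom a _ hz _
  act_γ := by
    rintro ⟨a, b⟩ z hz c
    change ini1 z ∈ A.U a at hz
    rw [p1_γ, p1_γ, rotY_mk]
    cases b
    · simp only [Bool.false_eq_true, if_false]
      rw [ini1_dact, last_dact1, rotV_false, zpow_zero, one_smul, zpow_one]
      congr 2
      funext j
      simp [dact]
    · simp only [if_true]
      rw [ini1_dact, last_dact1, rotV_true, P1Y.mk_smul, D.act_γ a _ hz, smul_smul, P1Y.smul_mk]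
      have h1 : dact (fun j => β * D.k a j) c (ini1 z) = dact (D.k a) (c ^ β) (ini1 z) := by
        funext j
        simp only [dact]
        rw [zpow_mul]
      rw [h1, ← zpow_mul, ← zpow_add, zpow_neg, zpow_one, Units.val_inv_eq_inv_val]

theorem PolAtlas.DAct.rot_act (D : A.DAct) (α β : ℤ) (c : ℂˣ) (y : Y) (x : V2) :
    (D.rot α β).act c (P1Y.mk y x) = P1Y.mk y (rotV c x) := rfl

end

end Pool.Agent.YTDA
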