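import Pool.Agent.YTDA.Bihol
import Pool.Agent.YTDA.P1Defs

/-!
# Holomorphic maps between bundles over the projective line

`HolAt A F z`: the map `F : ℂᵐ → Y` is holomorphic at `z`.
`P1At P`: the atlas `P` of `P1Y D α β` consists of the charts
`z ↦ [γ_a (init z), vec b (last z)]`.
-/

namespace Pool.Agent.YTDA

open Complex Set Topology Filter

noncomputable section

variable {n m : ℕ} {Y Y' : Type} [MulAction ℂˣ Y] [MulAction ℂˣ Y']

/-- The map `F : ℂᵐ → Y` is holomorphic at `z`. -/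
def HolAt (A : PolAtlas n Y) (F : E m → Y) (z : E m) : Prop :=
  ∃ a, ∃ t : E m → E n, ∃ g : E m → ℂˣ, AnalyticAt ℂ t z ∧ AnalyticAt ℂ (fun ζ => (g ζ : ℂ)) z ∧
    t z ∈ A.U a ∧ ∀ᶠ ζ in 𝓝 z, F ζ = g ζ • A.γ a (t ζ)

theorem analyticAt_unit_inv {g : E m → ℂˣ} {z : E m} (hg : AnalyticAt ℂ (fun ζ => (g ζ : ℂ)) z) :
    AnalyticAt ℂ (fun ζ => (((g ζ)⁻¹ : ℂˣ) : ℂ)) z := by
  have : AnalyticAt ℂ (fun ζ => ((g ζ : ℂ))⁻¹) z := hg.inv (g z).ne_zero
  simpa only [Units.val_inv_eq_inv_val] using this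

theorem analyticAt_unit_mul {g h : E m → ℂˣ} {z : E m}
    (hg : AnalyticAt ℂ (fun ζ => (g ζ : ℂ)) z) (hh : AnalyticAt ℂ (fun ζ => (h ζ : ℂ)) z) :
    AnalyticAt ℂ (fun ζ => ((g ζ * h ζ : ℂˣ) : ℂ)) z := by
  simpa only [Units.val_mul] using hg.fun_mul hh

theorem analyticAt_unit_zpow {g : E m → ℂˣ} {z : E m} (hg : AnalyticAt ℂ (fun ζ => (g ζ : ℂ)) z)
    (k : ℤ) : AnalyticAt ℂ (fun ζ => (((g ζ) ^ k : ℂˣ) : ℂ)) z := by
  simpa only [Units.val_zpow_eq_zpow_val] using hg.fun_zpow (g z).ne_zero (n := k)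

variable {A : PolAtlas n Y} {B : PolAtlas n Y'} {F G : E m → Y} {z : E m}

theorem HolAt.congr (hF : HolAt A F z) (h : ∀ᶠ ζ in 𝓝 z, G ζ = F ζ) : HolAt A G z := by
  obtain ⟨a, t, g, ht, hg, hz, he⟩ := hF
  refine ⟨a, t, g, ht, hg, hz, ?_⟩
  filter_upwards [h, he] with ζ h1 h2
  rw [h1, h2]

theorem holAt_frame (A : PolAtlas n Y) {a : A.ι} {t : E m → E n} (ht : AnalyticAt ℂ t z)
    (hz : t z ∈ A.U a) : HolAt A (fun ζ => A.γ a (t ζ)) z :=
  ⟨a, t, fun _ => 1, ht, analyticAt_const, hz, Eventually.of_forall fun _ => (one_smul _ _).symm⟩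

theorem HolAt.smul (hF : HolAt A F z) {g : E m → ℂˣ} (hg : AnalyticAt ℂ (fun ζ => (g ζ : ℂ)) z) :
    HolAt A (fun ζ => g ζ • F ζ) z := by
  obtain ⟨a, t, h, ht, hh, hz, he⟩ := hF
  refine ⟨a, t, fun ζ => g ζ * h ζ, ht, analyticAt_unit_mul hg hh, hz, ?_⟩
  filter_upwards [he] with ζ h1
  rw [h1, smul_smul]

theorem IsHol.holAt {f : Y → Y'} (hf : IsHol A B f) (hF : HolAt A F z) :
    HolAt B (fun ζ => f (F ζ)) z := by
  obtain ⟨a, t, h, ht, hh, hz, he⟩ := hF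
  obtain ⟨b, z', hz', s, g, hs, hg, hs', he'⟩ := hf.loc a (t z) hz
  refine ⟨b, fun ζ => s (t ζ), fun ζ => h ζ * (g (t ζ))⁻¹, hs.comp ht, ?_, ?_, ?_⟩
  · refine analyticAt_unit_mul hh (analyticAt_unit_inv ?_)
    exact AnalyticAt.comp (g := fun ζ => ((g ζ : ℂˣ) : ℂ)) (f := t) hg ht
  · simpa only [hs'] using hz'
  · filter_upwards [he, ht.continuousAt.eventually he'] with ζ h1 h2
    rw [h1, hf.smul, h2, smul_smul, inv_mul_cancel_right]

theorem isHol_of_holAt {f : Y → Y'} (hs : ∀ (c : ℂˣ) y, f (c • y) = c • f y)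
    (h : ∀ a, ∀ z ∈ A.U a, HolAt B (fun ζ => f (A.γ a ζ)) z) : IsHol A B f := by
  refine ⟨hs, fun a z hz => ?_⟩
  obtain ⟨b, t, g, ht, hg, hz', he⟩ := h a z hz
  refine ⟨b, t z, hz', t, fun ζ => (g ζ)⁻¹, ht, analyticAt_unit_inv hg, rfl, ?_⟩
  filter_upwards [he] with ζ h1
  rw [h1, inv_smul_smul]

theorem analyticAt_dact {k : Fin n → ℤ} {g : E m → ℂˣ} {t : E m → E n}
    (hg : AnalyticAt ℂ (fun ζ => (g ζ : ℂ)) z) (ht : AnalyticAt ℂ t z) :
    AnalyticAt ℂ (fun ζ => dact k (g ζ) (t ζ)) z := by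
  rw [analyticAt_pi_iff]
  intro j
  unfold dact
  exact (analyticAt_unit_zpow hg (k j)).fun_mul ((analyticAt_pi_iff.1 ht) j)

theorem HolAt.act (D : A.DAct) (hF : HolAt A F z) {g : E m → ℂˣ}
    (hg : AnalyticAt ℂ (fun ζ => (g ζ : ℂ)) z) : HolAt A (fun ζ => D.act (g ζ) (F ζ)) z := by
  obtain ⟨a, t, h, ht, hh, hz, he⟩ := hF
  refine ⟨a, fun ζ => dact (D.k a) (g ζ) (t ζ), fun ζ => h ζ * (g ζ) ^ D.m a,
    analyticAt_dact hg ht, analyticAt_unit_mul hh (analyticAt_unit_zpow hg _),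
    D.dom a _ hz _, ?_⟩
  filter_upwards [he, ht.continuousAt.eventually ((A.isOpen_U a).mem_nhds hz)] with ζ h1 h2
  rw [h1, D.act_smul, D.act_γ a _ h2, smul_smul]

/-- The actions in the definition of `DAct` are holomorphic. -/
theorem PolAtlas.DAct.isHol (D : A.DAct) (c : ℂˣ) : IsHol A A (D.act c) :=
  isHol_of_holAt (fun _ _ => D.act_smul _ _ _) fun _ _ hz =>
    (holAt_frame A analyticAt_id hz).act D analyticAt_const

theorem PolAtlas.DAct.isBihol (D : A.DAct) (c : ℂˣ) : IsBihol A A (D.act c) :=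
  (D.isHol c).isBihol (D.isHol c⁻¹) fun y => by
    rw [← D.act_mul, inv_mul_cancel, D.act_one]

/-! ### Bundles over the projective line -/

variable {D : A.DAct} {α β : ℤ}

/-- The atlas of `P1Y D α β` consists of the charts `z ↦ [γ_a (init z), vec b (last z)]`. -/
structure P1At (P : PolAtlas (n + 1) (P1Y D α β)) : Prop where
  chart : ∀ i, ∃ a b, P.U i = {z | (fun j => z (Fin.castSucc j)) ∈ A.U a} ∧
    ∀ z ∈ P.U i, P.γ i z = P1Y.mk (A.γ a fun j => z (Fin.castSucc j)) (vec b (z (Fin.last n)))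
  exists_chart : ∀ a b, ∃ i, P.U i = {z | (fun j => z (Fin.castSucc j)) ∈ A.U a} ∧
    ∀ z ∈ P.U i, P.γ i z = P1Y.mk (A.γ a fun j => z (Fin.castSucc j)) (vec b (z (Fin.last n)))

theorem V2.ext_iff' {x x' : V2} : x = x' ↔ x.1 0 = x'.1 0 ∧ x.1 1 = x'.1 1 := by
  constructor
  · rintro rfl
    exact ⟨rfl, rfl⟩
  · rintro ⟨h0, h1⟩
    apply Subtype.ext
    funext i
    fin_cases i
    · exact h0
    · exact h1

theorem V2.ne_or (x : V2) : x.1 0 ≠ 0 ∨ x.1 1 ≠ 0 := by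
  by_contra h
  push Not at h
  apply x.2
  funext i
  fin_cases i
  · exact h.1
  · exact h.2

/-- A nonvanishing family of vectors is locally a multiple of a standard family. -/
theorem exists_vec {v : E m → V2} (hv : AnalyticAt ℂ (fun ζ => (v ζ : Fin 2 → ℂ)) z) :
    ∃ b, ∃ c : E m → ℂˣ, ∃ u : E m → ℂ, AnalyticAt ℂ (fun ζ => (c ζ : ℂ)) z ∧
      AnalyticAt ℂ u z ∧ ∀ᶠ ζ in 𝓝 z, v ζ = c ζ • vec b (u ζ) := by
  classical
  have hv' := analyticAt_pi_iff.1 hv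
  rcases (v z).ne_or with h | h
  · have he : ∀ᶠ ζ in 𝓝 z, (v ζ).1 0 ≠ 0 := (hv' 0).continuousAt.eventually_ne h
    refine ⟨false, fun ζ => if h : (v ζ).1 0 = 0 then 1 else Units.mk0 _ h,
      fun ζ => (v ζ).1 1 / (v ζ).1 0, ?_, (hv' 1).fun_div (hv' 0) h, ?_⟩
    · refine (hv' 0).congr ?_
      filter_upwards [he] with ζ h1
      rw [dif_neg h1]
      rfl
    · filter_upwards [he] with ζ h1
      rw [dif_neg h1, V2.ext_iff', V2.coe_smul, vec_false]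
      constructor
      · simp
      · simp [mul_div_cancel₀ _ h1]
  · have he : ∀ᶠ ζ in 𝓝 z, (v ζ).1 1 ≠ 0 := (hv' 1).continuousAt.eventually_ne h
    refine ⟨true, fun ζ => if h : (v ζ).1 1 = 0 then 1 else Units.mk0 _ h,
      fun ζ => (v ζ).1 0 / (v ζ).1 1, ?_, (hv' 0).fun_div (hv' 1) h, ?_⟩
    · refine (hv' 1).congr ?_
      filter_upwards [he] with ζ h1
      rw [dif_neg h1]
      rfl
    · filter_upwards [he] with ζ h1
      rw [dif_neg h1, V2.ext_iff', V2.coe_smul, vec_true]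
      constructor
      · simp [mul_div_cancel₀ _ h1]
      · simp

theorem HolAt.mk {P : PolAtlas (n + 1) (P1Y D α β)} (hP : P1At P) (hF : HolAt A F z)
    {v : E m → V2} (hv : AnalyticAt ℂ (fun ζ => (v ζ : Fin 2 → ℂ)) z) :
    HolAt P (fun ζ => (P1Y.mk (F ζ) (v ζ) : P1Y D α β)) z := by
  obtain ⟨b, c, u, hc, hu, he⟩ := exists_vec hv
  have hG : HolAt A (fun ζ => (c ζ) ^ α • D.act ((c ζ) ^ β) (F ζ)) z :=
    (hF.act D (analyticAt_unit_zpow hc β)).smul (analyticAt_unit_zpow hc α)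
  obtain ⟨a, t, g, ht, hg, hz, he'⟩ := hG
  obtain ⟨i, hU, hγ⟩ := hP.exists_chart a b
  refine ⟨i, fun ζ => (Fin.snoc (t ζ) (u ζ) : E (n + 1)), g, ?_, hg, ?_, ?_⟩
  · rw [analyticAt_pi_iff]
    intro j
    refine Fin.lastCases ?_ (fun j => ?_) j
    · simpa only [Fin.snoc_last] using hu
    · simpa only [Fin.snoc_castSucc] using (analyticAt_pi_iff.1 ht) j
  · rw [hU]
    simpa only [mem_setOf_eq, Fin.snoc_castSucc] using hz
  · filter_upwards [he, he', ht.continuousAt.eventually ((A.isOpen_U a).mem_nhds hz)]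
      with ζ h1 h2 h3
    rw [h1, P1Y.mk_smul, h2, hγ]
    · simp only [Fin.snoc_castSucc, Fin.snoc_last]
      rfl
    · rw [hU]
      have h4 : t ζ ∈ A.U a := h3
      simpa only [mem_setOf_eq, Fin.snoc_castSucc] using h4

theorem analyticAt_castSucc (z : E (n + 1)) :
    AnalyticAt ℂ (fun ζ : E (n + 1) => (fun j => ζ (Fin.castSucc j) : E n)) z := by
  rw [analyticAt_pi_iff]
  intro j
  exact (ContinuousLinearMap.proj (R := ℂ) (φ := fun _ : Fin (n + 1) => ℂ)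
    (Fin.castSucc j)).analyticAt z

theorem analyticAt_coord (i : Fin m) (z : E m) : AnalyticAt ℂ (fun ζ : E m => ζ i) z :=
  (ContinuousLinearMap.proj (R := ℂ) (φ := fun _ : Fin m => ℂ) i).analyticAt z

theorem analyticAt_vec {b : Bool} {u : E m → ℂ} (hu : AnalyticAt ℂ u z) :
    AnalyticAt ℂ (fun ζ => (vec b (u ζ) : Fin 2 → ℂ)) z := by
  rw [analyticAt_pi_iff]
  intro j
  cases b
  · fin_cases j
    · exact analyticAt_const
    · exact hu
  · fin_cases j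
    · exact hu
    · exact analyticAt_const

/-- Holomorphy of a map on `P1Y` follows from holomorphy of `(y, x) ↦ f [y, x]`. -/
theorem P1At.isHol {Z : Type} [MulAction ℂˣ Z] {C : PolAtlas (n + 1) Z}
    {P : PolAtlas (n + 1) (P1Y D α β)} (hP : P1At P) {f : P1Y D α β → Z}
    (hs : ∀ (c : ℂˣ) y x, f (P1Y.mk (c • y) x) = c • f (P1Y.mk y x))
    (hf : ∀ (a : A.ι) (b : Bool), ∀ z : E (n + 1), (fun j => z (Fin.castSucc j)) ∈ A.U a →
      HolAt C (fun ζ : E (n + 1) => f (P1Y.mk (A.γ a fun j => ζ (Fin.castSucc j))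
        (vec b (ζ (Fin.last n))))) z) : IsHol P C f := by
  refine isHol_of_holAt (fun c p => ?_) fun i z hz => ?_
  · obtain ⟨y, x, rfl⟩ := P1Y.exists_mk p
    rw [P1Y.smul_mk, hs]
  · obtain ⟨a, b, hU, hγ⟩ := hP.chart i
    have hz' := hz
    rw [hU] at hz'
    refine (hf a b z hz').congr ?_
    filter_upwards [(P.isOpen_U i).mem_nhds hz] with ζ hζ
    rw [hγ ζ hζ]

end

end Pool.Agent.YTDA
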