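import Pool.Agent.YTDA.P1B
import Pool.Agent.YTDA.P1Map
import Pool.Agent.YTDA.XMap
import Pool.Agent.YTDA.Fld

/-!
The standard atlas of the bundle over the projective line satisfies the predicates
`P1At`, `IsP1e`, and the lift of an action satisfies `IsLift` and `Induced`.
-/

namespace Pool.Agent.YTDA

open Complex Set Topology Filter

noncomputable section

variable {n : ℕ} {Y : Type} [MulAction ℂˣ Y]

/-- an action commutes with itself -/
theorem PolAtlas.DAct.self_comm {A : PolAtlas n Y} (D : A.DAct) (c c' : ℂˣ) (y : Y) :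
    D.act c (D.act c' y) = D.act c' (D.act c y) := by
  rw [← D.act_mul, ← D.act_mul, mul_comm]

theorem p1At_p1 (A : PolAtlas n Y) (D : A.DAct) (α β : ℤ) : P1At (A.p1 D α β) where
  chart := fun i => ⟨i.1, i.2, rfl, fun _ _ => rfl⟩
  exists_chart := fun a b => ⟨((a, b) : A.ι × Bool), rfl, fun _ _ => rfl⟩

/-- the index equivalence -/
def p1e (A : PolAtlas n Y) (D : A.DAct) (α β : ℤ) : A.ι × Bool ≃ (A.p1 D α β).ι :=
  Equiv.refl (A.ι × Bool)

theorem isP1e_p1 (A : PolAtlas n Y) (D : A.DAct) (α β : ℤ) :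
    IsP1e (A.p1 D α β) (p1e A D α β) where
  U := fun _ _ => rfl
  γ := fun _ _ _ _ => rfl

theorem isLift_lift (A : PolAtlas n Y) (D : A.DAct) (α β : ℤ) :
    IsLift (p1e A D α β) (D.lift D α β (PolAtlas.DAct.self_comm D)) where
  act := fun _ _ _ => rfl

theorem induced_lift (A : PolAtlas n Y) (D : A.DAct) (α β : ℤ) :
    Induced (D.lift D α β (PolAtlas.DAct.self_comm D)) := fun _ _ _ => rfl

/-- the standard double bundle -/
def twoP1 {Y : Type} [MulAction ℂˣ Y] (A : PolAtlas 2 Y) (D : A.DAct) (α β α' β' : ℤ) :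
    TwoP1 A D α β α' β' where
  B₁ := A.p1 D α β
  e₁ := p1e A D α β
  h₁ := isP1e_p1 A D α β
  D₁ := D.lift D α β (PolAtlas.DAct.self_comm D)
  l₁ := isLift_lift A D α β
  B₂ := (A.p1 D α β).p1 (D.lift D α β (PolAtlas.DAct.self_comm D)) α' β'
  e₂ := p1e _ _ _ _
  h₂ := isP1e_p1 _ _ _ _

theorem twoP1_isCpt {Y : Type} [MulAction ℂˣ Y] {A : PolAtlas 2 Y} (D : A.DAct) (hc : A.IsCpt)
    (α β α' β' : ℤ) : (twoP1 A D α β α' β').B₂.IsCpt :=
  p1_isCpt (p1_isCpt hc)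

theorem twoP1_isT2 {Y : Type} [MulAction ℂˣ Y] {A : PolAtlas 2 Y} (D : A.DAct) (ht : A.IsT2)
    (α β α' β' : ℤ) : (twoP1 A D α β α' β').B₂.IsT2 :=
  p1_isT2 (p1_isT2 ht)

theorem exists_twoP1 {Y : Type} [MulAction ℂˣ Y] (A : PolAtlas 2 Y) (D : A.DAct)
    (hc : A.IsCpt) (ht : A.IsT2) (α β α' β' : ℤ) :
    ∃ X : TwoP1 A D α β α' β', X.B₂.IsCpt ∧ X.B₂.IsT2 ∧ P1At X.B₁ ∧ P1At X.B₂ ∧ Induced X.D₁ :=
  ⟨twoP1 A D α β α' β', twoP1_isCpt D hc _ _ _ _, twoP1_isT2 D ht _ _ _ _,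
    p1At_p1 _ _ _ _, p1At_p1 _ _ _ _, induced_lift _ _ _ _⟩

end

end Pool.Agent.YTDA
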