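import Pool.Agent.YTDA.T13Defs

/-!
# Linearity and positivity of the integral over `M`
-/

namespace Pool.Agent.YTDA

open Complex Set Topology ContDiff MeasureTheory

noncomputable section

namespace PolAtlas.Part

variable {n : ℕ} {Y : Type} [MulAction ℂˣ Y] {A : PolAtlas n Y} (P : A.Part)

/-- continuous families are integrable -/
theorem pint_integrableOn (k : Fin P.m) {f : E n → ℂ} (hf : ContinuousOn f (A.U (P.a k))) :
    IntegrableOn (fun z => P.X k (P.a k) z * f z) (A.U (P.a k)) := by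
  have hU := A.isOpen_U (P.a k)
  have hc : ContinuousOn (fun z => P.X k (P.a k) z * f z) (A.U (P.a k)) :=
    (P.contDiffOn_X k (P.a k)).continuousOn.mul hf
  have h0 : ∀ z ∈ A.U (P.a k), z ∉ P.K k → P.X k (P.a k) z * f z = 0 := fun z hz hz' => by
    rw [P.X_zero k hz hz', zero_mul]
  rw [← integrable_indicator_iff hU.measurableSet]
  exact (cut_continuous hU (P.cpt k) (P.sub k) hc h0).integrable_of_hasCompactSupport
    (cut_compact (P.cpt k) h0)

theorem pint_congr {f g : A.ι → E n → ℂ} (h : ∀ a, ∀ z ∈ A.U a, f a z = g a z) :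
    P.int f = P.int g := by
  unfold int
  refine Finset.sum_congr rfl fun k _ => setIntegral_congr_fun (A.isOpen_U _).measurableSet ?_
  intro z hz
  simp only
  rw [h _ z hz]

theorem pint_congr_ae {f g : A.ι → E n → ℂ} (h : ∀ a, ∀ᵐ z, z ∈ A.U a → f a z = g a z) :
    P.int f = P.int g := by
  unfold int
  refine Finset.sum_congr rfl fun k _ => setIntegral_congr_ae (A.isOpen_U _).measurableSet ?_
  filter_upwards [h (P.a k)] with z hz hz'
  rw [hz hz']

/-- it is enough to have equality off the coordinate axes -/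
theorem pint_congr_ne {f g : A.ι → E n → ℂ}
    (h : ∀ a, ∀ z ∈ A.U a, (∀ j, z j ≠ 0) → f a z = g a z) : P.int f = P.int g :=
  P.pint_congr_ae fun a => by
    filter_upwards [ae_coord_ne] with z hz hz'
    exact h a z hz' hz

theorem pint_add {f g : A.ι → E n → ℂ} (hf : ∀ a, ContinuousOn (f a) (A.U a))
    (hg : ∀ a, ContinuousOn (g a) (A.U a)) :
    P.int (fun a z => f a z + g a z) = P.int f + P.int g := by
  unfold int
  rw [← Finset.sum_add_distrib]
  refine Finset.sum_congr rfl fun k _ => ?_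
  rw [← integral_add (P.pint_integrableOn k (hf _)) (P.pint_integrableOn k (hg _))]
  congr 1
  funext z
  ring

theorem pint_mul (c : ℂ) (f : A.ι → E n → ℂ) :
    P.int (fun a z => c * f a z) = c * P.int f := by
  unfold int
  rw [Finset.mul_sum]
  refine Finset.sum_congr rfl fun k _ => ?_
  rw [← integral_const_mul]
  congr 1
  funext z
  ring

theorem pint_zero : P.int (fun _ _ => 0) = 0 := by
  unfold int
  simp

theorem pint_neg (f : A.ι → E n → ℂ) : P.int (fun a z => - f a z) = - P.int f := by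
  have h := P.pint_mul (-1) f
  simpa using h

theorem pint_sub {f g : A.ι → E n → ℂ} (hf : ∀ a, ContinuousOn (f a) (A.U a))
    (hg : ∀ a, ContinuousOn (g a) (A.U a)) :
    P.int (fun a z => f a z - g a z) = P.int f - P.int g := by
  have h := P.pint_add hf (g := fun a z => - g a z) (fun a => (hg a).neg)
  rw [P.pint_neg] at h
  simpa [sub_eq_add_neg] using h

theorem pint_sum {ι : Type*} (s : Finset ι) {f : ι → A.ι → E n → ℂ}
    (hf : ∀ i ∈ s, ∀ a, ContinuousOn (f i a) (A.U a)) :
    P.int (fun a z => ∑ i ∈ s, f i a z) = ∑ i ∈ s, P.int (f i) := by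
  classical
  induction s using Finset.induction_on with
  | empty => simp [P.pint_zero]
  | insert i s hi ih =>
    simp only [Finset.sum_insert hi]
    rw [P.pint_add (hf i (Finset.mem_insert_self i s)) (fun a =>
      continuousOn_finsetSum _ fun j hj => hf j (Finset.mem_insert_of_mem hj) a),
      ih fun j hj => hf j (Finset.mem_insert_of_mem hj)]

theorem pint_conj (f : A.ι → E n → ℂ) :
    P.int (fun a z => (starRingEnd ℂ) (f a z)) = (starRingEnd ℂ) (P.int f) := by
  unfold int
  rw [map_sum]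
  refine Finset.sum_congr rfl fun k _ => ?_
  rw [← integral_conj]
  congr 1
  funext z
  rw [map_mul]
  unfold X
  rw [conj_ofReal]

theorem pint_ofReal (f : A.ι → E n → ℝ) : P.int (fun a z => (f a z : ℂ)) =
    ((∑ k, ∫ z in A.U (P.a k), P.χ k (A.γ (P.a k) z) * f (P.a k) z : ℝ) : ℂ) := by
  unfold int
  rw [ofReal_sum]
  refine Finset.sum_congr rfl fun k _ => ?_
  rw [← integral_complex_ofReal]
  congr 1
  funext z
  unfold X
  push_cast
  rfl

theorem pint_nonneg {f : A.ι → E n → ℝ} (h : ∀ a, ∀ z ∈ A.U a, 0 ≤ f a z) :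
    0 ≤ (P.int (fun a z => (f a z : ℂ))).re := by
  rw [P.pint_ofReal, ofReal_re]
  refine Finset.sum_nonneg fun k _ => setIntegral_nonneg (A.isOpen_U _).measurableSet ?_
  intro z hz
  exact mul_nonneg (P.nonneg k _) (h _ z hz)

theorem pint_pos {f : A.ι → E n → ℝ} (hf : ∀ a, ContinuousOn (f a) (A.U a))
    (h : ∀ a, ∀ z ∈ A.U a, 0 ≤ f a z) {a : A.ι} {z : E n} (hz : z ∈ A.U a)
    (hpos : ∀ b, ∀ w ∈ A.U b, ∀ c : ℂˣ, A.γ a z = c • A.γ b w → 0 < f b w) :
    0 < (P.int (fun a z => (f a z : ℂ))).re := by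
  rw [P.pint_ofReal, ofReal_re]
  obtain ⟨k, hk⟩ : ∃ k, P.χ k (A.γ a z) ≠ 0 := by
    by_contra hc
    push Not at hc
    have := P.sum (A.γ a z)
    simp [hc] at this
  obtain ⟨w, hw, c, hcw⟩ := P.supp k _ hk
  have hwU := P.sub k hw
  refine Finset.sum_pos' (fun k _ => setIntegral_nonneg (A.isOpen_U _).measurableSet
    fun z hz => mul_nonneg (P.nonneg k _) (h _ z hz)) ⟨k, Finset.mem_univ k, ?_⟩
  have hU := A.isOpen_U (P.a k)
  have hc : ContinuousOn (fun z => P.χ k (A.γ (P.a k) z) * f (P.a k) z) (A.U (P.a k)) :=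
    ((P.smooth k (P.a k)).continuousOn).mul (hf _)
  have h0 : ∀ z ∈ A.U (P.a k), z ∉ P.K k → P.χ k (A.γ (P.a k) z) * f (P.a k) z = 0 :=
    fun z hz hz' => by
      have := P.X_zero k hz hz'
      unfold X at this
      rw [ofReal_eq_zero.1 this, zero_mul]
  have hg := cut_continuous hU (P.cpt k) (P.sub k) hc h0
  rw [← integral_indicator hU.measurableSet]
  refine (hg.integral_pos_of_hasCompactSupport_nonneg_nonzero (x := w) (cut_compact (P.cpt k) h0)
    ?_ ?_)
  · intro x
    by_cases hx : x ∈ A.U (P.a k)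
    · rw [indicator_of_mem hx]
      exact mul_nonneg (P.nonneg k _) (h _ x hx)
    · rw [indicator_of_notMem hx]
      exact le_refl _
  · rw [indicator_of_mem hwU]
    refine mul_ne_zero ?_ (hpos _ w hwU c hcw).ne'
    rwa [hcw, P.inv] at hk

end PolAtlas.Part

end

end Pool.Agent.YTDA
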