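import Pool.Agent.YTDA.Smr3

/-!
# Derivations and determinants; the complex Hessian, its determinant, the scalar curvature
-/

namespace Pool.Agent.YTDA

open Complex Set Topology ContDiff ComplexOrder TopologicalSpace Matrix

noncomputable section

set_option linter.unusedSectionVars false

section Jacobi

variable {R A : Type*} [CommRing R] [CommRing A] [Algebra R A] {n : Type*} [Fintype n]
  [DecidableEq n] (δ : Derivation R A A)

theorem der_prod {ι : Type*} [DecidableEq ι] (s : Finset ι) (f : ι → A) :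
    δ (∏ i ∈ s, f i) = ∑ i ∈ s, (∏ j ∈ s.erase i, f j) * δ (f i) := by
  induction s using Finset.induction_on with
  | empty => simp
  | insert a s ha ih =>
    rw [Finset.prod_insert ha, Derivation.leibniz, ih, Finset.sum_insert ha,
      Finset.erase_insert ha, smul_eq_mul, smul_eq_mul, Finset.mul_sum, add_comm]
    congr 1
    refine Finset.sum_congr rfl fun i hi => ?_
    have hia : i ≠ a := fun h => ha (h ▸ hi)
    rw [Finset.erase_insert_of_ne hia.symm, Finset.prod_insert]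
    · ring
    · intro h
      exact ha (Finset.mem_of_mem_erase h)

/-- Jacobi's formula -/
theorem der_det (M : Matrix n n A) : δ M.det = ∑ i, ∑ j, M.adjugate i j * δ (M j i) := by
  have h1 : ∀ k, ∑ j, M.adjugate k j * δ (M j k) = (M.updateCol k fun j => δ (M j k)).det := by
    intro k
    rw [← cramer_apply, cramer_eq_adjugate_mulVec]
    rfl
  simp only [h1]
  rw [det_apply, map_sum]
  have h2 : ∀ k, (M.updateCol k fun j => δ (M j k)).det = ∑ σ : Equiv.Perm n,
      Equiv.Perm.sign σ • ((∏ j ∈ Finset.univ.erase k, M (σ j) j) * δ (M (σ k) k)) := by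
    intro k
    rw [det_apply]
    refine Finset.sum_congr rfl fun σ _ => ?_
    congr 1
    rw [← Finset.mul_prod_erase Finset.univ _ (Finset.mem_univ k), mul_comm]
    congr 1
    · refine Finset.prod_congr rfl fun j hj => ?_
      rw [updateCol_ne (Finset.ne_of_mem_erase hj)]
    · rw [updateCol_self]
  simp only [h2]
  rw [Finset.sum_comm]
  refine Finset.sum_congr rfl fun σ _ => ?_
  have h3 : δ (Equiv.Perm.sign σ • ∏ i, M (σ i) i) = Equiv.Perm.sign σ • δ (∏ i, M (σ i) i) := by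
    rcases Int.units_eq_one_or (Equiv.Perm.sign σ) with h | h <;> rw [h] <;> simp
  rw [h3, der_prod, Finset.smul_sum]

theorem der_det' (M : Matrix n n A) (hM : IsUnit M.det) :
    δ M.det = M.det * ∑ i, ∑ j, M⁻¹ i j * δ (M j i) := by
  rw [der_det, Finset.mul_sum]
  refine Finset.sum_congr rfl fun i _ => ?_
  rw [Finset.mul_sum]
  refine Finset.sum_congr rfl fun j _ => ?_
  have h : M.adjugate i j = M.det * M⁻¹ i j := by
    rw [Matrix.inv_def, Matrix.smul_apply, smul_eq_mul, ← mul_assoc,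
      Ring.mul_inverse_cancel _ hM, one_mul]
  rw [h]
  ring

/-- the derivative of a matrix product -/
theorem der_mul {l m k : Type*} [Fintype m] (M : Matrix l m A) (N : Matrix m k A) :
    (M * N).map δ = M.map δ * N + M * N.map δ := by
  ext i j
  simp only [Matrix.map_apply, Matrix.mul_apply, Matrix.add_apply, map_sum,
    ← Finset.sum_add_distrib]
  refine Finset.sum_congr rfl fun x _ => ?_
  rw [Derivation.leibniz, smul_eq_mul, smul_eq_mul]
  ring

/-- the derivative of the inverse matrix -/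
theorem der_inv (M : Matrix n n A) (hM : IsUnit M.det) :
    (M⁻¹).map δ = -(M⁻¹ * M.map δ * M⁻¹) := by
  have h1 : (M⁻¹ * M).map δ = 0 := by
    rw [Matrix.nonsing_inv_mul M hM]
    ext i j
    by_cases h : i = j
    · subst h
      simp
    · simp [h]
  rw [der_mul] at h1
  have h2 : (M⁻¹).map δ * M = -(M⁻¹ * M.map δ) := eq_neg_of_add_eq_zero_left h1
  calc (M⁻¹).map δ = (M⁻¹).map δ * (M * M⁻¹) := by
        rw [Matrix.mul_nonsing_inv M hM, Matrix.mul_one]
    _ = (M⁻¹).map δ * M * M⁻¹ := by rw [Matrix.mul_assoc]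
    _ = -(M⁻¹ * M.map δ * M⁻¹) := by rw [h2, Matrix.neg_mul]

theorem der_inv_apply (M : Matrix n n A) (hM : IsUnit M.det) (i j : n) :
    δ (M⁻¹ i j) = -∑ k, ∑ l, M⁻¹ i k * δ (M k l) * M⁻¹ l j := by
  have h := congrFun (congrFun (der_inv δ M hM) i) j
  simp only [Matrix.map_apply, Matrix.neg_apply, Matrix.mul_apply, Finset.sum_mul] at h
  rw [h, Finset.sum_comm]

end Jacobi

section Ev

variable {V : Type} [NormedAddCommGroup V] [NormedSpace ℝ V] {Ω : Opens V} {n : ℕ}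

/-- the value of a matrix of functions -/
def evM (z : Ω) (M : Matrix (Fin n) (Fin n) (Sm Ω)) : Matrix (Fin n) (Fin n) ℂ :=
  M.map fun f => f.1 z

@[simp] theorem evM_apply (z : Ω) (M : Matrix (Fin n) (Fin n) (Sm Ω)) (i j : Fin n) :
    evM z M i j = (M i j).1 z := rfl

theorem det_evM (z : Ω) (M : Matrix (Fin n) (Fin n) (Sm Ω)) : (evM z M).det = M.det.1 z :=
  ((evalS z).map_det M).symm

theorem evM_one (z : Ω) : evM z (1 : Matrix (Fin n) (Fin n) (Sm Ω)) = 1 := by
  ext i j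
  by_cases h : i = j
  · subst h
    simp
  · simp [h]

theorem evM_mul (z : Ω) (M N : Matrix (Fin n) (Fin n) (Sm Ω)) :
    evM z (M * N) = evM z M * evM z N := by
  ext i j
  simp only [evM_apply, Matrix.mul_apply, Sm.sum_apply, Sm.mul_apply]

theorem evM_inv (z : Ω) (M : Matrix (Fin n) (Fin n) (Sm Ω)) (hM : IsUnit M.det) :
    evM z M⁻¹ = (evM z M)⁻¹ := by
  symm
  refine Matrix.inv_eq_left_inv ?_
  rw [← evM_mul, Matrix.nonsing_inv_mul M hM, evM_one]

theorem inv_evM_apply (z : Ω) (M : Matrix (Fin n) (Fin n) (Sm Ω)) (hM : IsUnit M.det)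
    (i j : Fin n) : (evM z M)⁻¹ i j = (M⁻¹ i j).1 z := by
  rw [← evM_inv z M hM]
  rfl

theorem isUnit_of_pos {f : Sm Ω} (hf : ∀ z, 0 < f.1 z) : IsUnit f :=
  (isUnit_iff_ne f).2 fun z => (hf z).ne'

/-- derivative of `log det` -/
theorem DS_logdet {δ : Derivation ℂ (Sm Ω) (Sm Ω)} (hδ : δ ∈ DS Ω)
    (M : Matrix (Fin n) (Fin n) (Sm Ω)) (hM : ∀ z, 0 < M.det.1 z) :
    δ (logS M.det hM) = ∑ i, ∑ j, M⁻¹ i j * δ (M j i) := by
  have h1 := mul_DS_logS hδ M.det hM
  rw [der_det' δ M (isUnit_of_pos hM)] at h1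
  exact (isUnit_of_pos hM).mul_left_cancel h1

end Ev

section Bridge

variable {n : ℕ} {Ω : Opens (E n)}

/-- the complex Hessian as a matrix of functions -/
def hessS (f : Sm Ω) : Matrix (Fin n) (Fin n) (Sm Ω) := Matrix.of fun i j => dzD i (dzbD j f)

@[simp] theorem hessS_apply (f : Sm Ω) (i j : Fin n) : hessS f i j = dzD i (dzbD j f) := rfl

theorem star_hessS {f : Sm Ω} (hf : star f = f) (i j : Fin n) :
    star (hessS f i j) = hessS f j i := by
  rw [hessS_apply, hessS_apply, star_dzD, star_dzbD, hf, dzD_dzbD_comm]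

theorem isHermitian_hessS {f : Sm Ω} (hf : star f = f) : (hessS f).IsHermitian := by
  ext i j
  rw [Matrix.conjTranspose_apply, star_hessS hf]

/-- Kähler symmetry -/
theorem dzD_hessS (f : Sm Ω) (k i j : Fin n) : dzD k (hessS f i j) = dzD i (hessS f k j) := by
  rw [hessS_apply, hessS_apply, dzD_comm]

theorem dzbD_hessS (f : Sm Ω) (k i j : Fin n) : dzbD k (hessS f i j) = dzbD j (hessS f i k) := by
  rw [hessS_apply, hessS_apply, ← dzD_dzbD_comm, ← dzD_dzbD_comm, dzbD_comm]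

theorem hess_eq (φ : E n → ℝ) (hφ : ContDiffOn ℝ ∞ φ Ω) (z : Ω) :
    hess φ z = evM z (hessS (ofR φ hφ)) := by
  ext i j
  rw [evM_apply, hessS_apply, dzD_apply]
  show dz i (dzb j fun w => (φ w : ℂ)) z = _
  refine (dz_congr ?_).symm
  refine Filter.eventuallyEq_of_mem (Ω.isOpen.mem_nhds z.2) fun w hw => ?_
  rw [ext_mk _ hw]
  exact dzbD_ofFn j (fun w => (φ w : ℂ)) _ ⟨w, hw⟩

theorem hess_apply_eq (φ : E n → ℝ) (hφ : ContDiffOn ℝ ∞ φ Ω) (z : Ω) (i j : Fin n) :
    hess φ z i j = (dzD i (dzbD j (ofR φ hφ))).1 z := by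
  rw [hess_eq φ hφ z]
  rfl

theorem det_hess_eq (φ : E n → ℝ) (hφ : ContDiffOn ℝ ∞ φ Ω) (z : Ω) :
    (hess φ z).det = (hessS (ofR φ hφ)).det.1 z := by
  rw [hess_eq φ hφ z, det_evM]

variable {φ : E n → ℝ} (hφ : ContDiffOn ℝ ∞ φ Ω)

theorem det_pos_of_posDef (hp : ∀ z ∈ Ω, (hess φ z).PosDef) (z : Ω) :
    0 < (hessS (ofR φ hφ : Sm Ω)).det.1 z := by
  rw [← det_hess_eq]
  exact (hp z z.2).det_pos

theorem logdet_eq (hd : ∀ z, 0 < (hessS (ofR φ hφ : Sm Ω)).det.1 z) (z : Ω) :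
    ((logdet φ z : ℝ) : ℂ) = (logS (hessS (ofR φ hφ : Sm Ω)).det hd).1 z := by
  rw [logS_apply, logdet, det_hess_eq φ hφ z]

theorem contDiffOn_logdet (hd : ∀ z, 0 < (hessS (ofR φ hφ : Sm Ω)).det.1 z) :
    ContDiffOn ℝ ∞ (logdet φ) Ω := by
  refine (contDiffOn_log _ hd).congr fun z hz => ?_
  rw [logdet, det_hess_eq φ hφ ⟨z, hz⟩, ext_mk _ hz]

theorem ofR_logdet (hd : ∀ z, 0 < (hessS (ofR φ hφ : Sm Ω)).det.1 z)
    (hl : ContDiffOn ℝ ∞ (logdet φ) Ω) :
    (ofR (logdet φ) hl : Sm Ω) = logS (hessS (ofR φ hφ)).det hd :=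
  Sm.ext' fun z => by
    rw [ofR_apply]
    exact logdet_eq hφ hd z

theorem scal_eq (hd : ∀ z, 0 < (hessS (ofR φ hφ : Sm Ω)).det.1 z) (z : Ω) :
    scal φ z = (-∑ i, ∑ j, (hessS (ofR φ hφ))⁻¹ j i *
      dzD i (dzbD j (logS (hessS (ofR φ hφ)).det hd))).1 z := by
  rw [scal, Sm.neg_apply, Sm.sum_apply]
  congr 1
  refine Finset.sum_congr rfl fun i _ => ?_
  rw [Sm.sum_apply]
  refine Finset.sum_congr rfl fun j _ => ?_
  rw [Sm.mul_apply, hess_apply_eq (logdet φ) (contDiffOn_logdet hφ hd) z i j,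
    ofR_logdet hφ hd, hess_eq φ hφ z, inv_evM_apply z _ (isUnit_of_pos hd)]

end Bridge

end

end Pool.Agent.YTDA
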