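import Pool.Agent.YTDA.LogPole
import Pool.Agent.YTDA.Smr4

/-!
# Partitions of unity and change of charts
-/

namespace Pool.Agent.YTDA

open Complex Set Topology ContDiff MeasureTheory

noncomputable section

namespace PolAtlas

variable {n : ℕ} {Y : Type} [MulAction ℂˣ Y] {A : PolAtlas n Y}

variable (A) in
/-- A smooth partition of unity on `M = Y / ℂˣ` subordinate to finitely many charts. -/
structure Part where
  m : ℕ
  a : Fin m → A.ι
  χ : Fin m → Y → ℝ
  K : Fin m → Set (E n)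
  nonneg : ∀ k y, 0 ≤ χ k y
  inv : ∀ k (c : ℂˣ) y, χ k (c • y) = χ k y
  sum : ∀ y, ∑ k, χ k y = 1
  smooth : ∀ k b, ContDiffOn ℝ ∞ (fun z => χ k (A.γ b z)) (A.U b)
  cpt : ∀ k, IsCompact (K k)
  sub : ∀ k, K k ⊆ A.U (a k)
  supp : ∀ k y, χ k y ≠ 0 → ∃ z ∈ K k, ∃ c : ℂˣ, y = c • A.γ (a k) z

theorem mem_OP {a b : A.ι} {z : E n} : z ∈ A.O a b ↔
    z ∈ A.U a ∧ ∃ z' ∈ A.U b, ∃ c : ℂˣ, A.γ b z' = c • A.γ a z := Iff.rfl

theorem isOpenO (a b : A.ι) : IsOpen (A.O a b) := A.isOpen_O a b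

theorem τ_memP {a b : A.ι} {z : E n} (hz : z ∈ A.O a b) : A.τ a b z ∈ A.U b :=
  (A.trans a b z hz.1 hz.2).1

theorem γ_τP {a b : A.ι} {z : E n} (hz : z ∈ A.O a b) :
    A.γ b (A.τ a b z) = A.h a b z • A.γ a z := (A.trans a b z hz.1 hz.2).2

theorem τ_mem_OP {a b : A.ι} {z : E n} (hz : z ∈ A.O a b) : A.τ a b z ∈ A.O b a := by
  refine ⟨τ_memP hz, z, hz.1, (A.h a b z)⁻¹, ?_⟩
  rw [γ_τP hz, inv_smul_smul]

theorem τ_τP {a b : A.ι} {z : E n} (hz : z ∈ A.O a b) : A.τ b a (A.τ a b z) = z := by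
  have h1 := γ_τP (τ_mem_OP hz)
  rw [γ_τP hz, smul_smul] at h1
  exact (A.inj a z hz.1 _ (τ_memP (τ_mem_OP hz)) _ h1).1

theorem image_τ (a b : A.ι) : A.τ a b '' A.O a b = A.O b a := by
  apply Subset.antisymm
  · rintro _ ⟨z, hz, rfl⟩
    exact τ_mem_OP hz
  · intro z hz
    exact ⟨A.τ b a z, τ_mem_OP hz, τ_τP hz⟩

theorem injOn_τ (a b : A.ι) : InjOn (A.τ a b) (A.O a b) := by
  intro z hz w hw h
  rw [← τ_τP hz, h, τ_τP hw]

theorem diff_τ {a b : A.ι} {z : E n} (hz : z ∈ A.O a b) : DifferentiableAt ℂ (A.τ a b) z :=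
  (A.hol_τ a b).differentiableAt ((isOpenO a b).mem_nhds hz)

theorem hasFDerivAt_τP {a b : A.ι} {z : E n} (hz : z ∈ A.O a b) :
    HasFDerivAt (A.τ a b) ((fderiv ℂ (A.τ a b) z).restrictScalars ℝ) z :=
  (diff_τ hz).hasFDerivAt.restrictScalars ℝ

/-- the real determinant of a complex linear map -/
theorem det_restrict (L : E n →L[ℂ] E n) : |(L.restrictScalars ℝ).det| = ‖L.det‖ ^ 2 := by
  have h1 : (L.restrictScalars ℝ).det = Algebra.norm ℝ L.det := by
    rw [ContinuousLinearMap.det, ContinuousLinearMap.det, ← LinearMap.det_restrictScalars]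
    rfl
  rw [h1, Algebra.norm_complex_apply, normSq_eq_norm_sq, abs_of_nonneg (by positivity)]

/-- change of charts for integrals -/
theorem integral_O (a b : A.ι) (f g : E n → ℂ)
    (h : ∀ᵐ z, z ∈ A.O a b → f z = ‖(fderiv ℂ (A.τ a b) z).det‖ ^ 2 * g (A.τ a b z)) :
    ∫ z in A.O a b, f z = ∫ z in A.O b a, g z := by
  rw [← image_τ a b, integral_image_eq_integral_abs_det_fderiv_smul volume
    (isOpenO a b).measurableSet (fun z hz => (hasFDerivAt_τP hz).hasFDerivWithinAt) (injOn_τ a b)]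
  apply integral_congr_ae
  rw [Filter.EventuallyEq, ae_restrict_iff' (isOpenO a b).measurableSet]
  filter_upwards [h] with z hz hz'
  rw [hz hz', det_restrict, real_smul]
  push_cast
  rfl

/-- null sets are preserved by transitions -/
theorem null_τ (a b : A.ι) {s : Set (E n)} (hs : volume s = 0) :
    ∀ᵐ z, z ∈ A.O a b → A.τ a b z ∉ s := by
  have h1 : volume (A.τ b a '' (s ∩ A.O b a)) = 0 := by
    refine addHaar_image_eq_zero_of_differentiableOn_of_addHaar_eq_zero volume ?_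
      (measure_mono_null inter_subset_left hs)
    intro z hz
    exact (hasFDerivAt_τP hz.2).differentiableAt.differentiableWithinAt
  have h2 : {z | ¬ (z ∈ A.O a b → A.τ a b z ∉ s)} ⊆ A.τ b a '' (s ∩ A.O b a) := by
    intro z hz
    simp only [mem_ofPred_eq, Classical.not_imp, not_not] at hz
    exact ⟨A.τ a b z, ⟨hz.2, τ_mem_OP hz.1⟩, τ_τP hz.1⟩
  exact measure_mono_null h2 h1

/-- coordinate hyperplanes are null sets -/
theorem null_coord (j : Fin n) : volume {z : E n | z j = 0} = 0 := by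
  have h := Measure.addHaar_affineSubspace (volume : Measure (E n))
    ((LinearMap.ker (ContinuousLinearMap.proj (R := ℝ) (φ := fun _ : Fin n => ℂ) j :
      E n →ₗ[ℝ] ℂ)).toAffineSubspace) (by
      intro h
      have h1 : (Pi.single j 1 : E n) ∈ ((LinearMap.ker (ContinuousLinearMap.proj (R := ℝ)
          (φ := fun _ : Fin n => ℂ) j : E n →ₗ[ℝ] ℂ)).toAffineSubspace : Set (E n)) := by
        rw [h]
        trivial
      simp at h1)
  convert h using 2
  ext z
  simp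

theorem ae_coord_ne : ∀ᵐ z : E n, ∀ j, z j ≠ 0 := by
  rw [ae_all_iff]
  intro j
  have : {z : E n | ¬ z j ≠ 0} = {z : E n | z j = 0} := by
    ext z
    simp
  rw [ae_iff, this]
  exact null_coord j

theorem ae_coord_τ_ne (a b : A.ι) : ∀ᵐ z, z ∈ A.O a b → ∀ j, A.τ a b z j ≠ 0 := by
  have h : ∀ᵐ z, ∀ j : Fin n, z ∈ A.O a b → A.τ a b z j ≠ 0 := by
    rw [ae_all_iff]
    intro j
    exact null_τ a b (null_coord j)
  filter_upwards [h] with z hz hz' j
  exact hz j hz'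

end PolAtlas

end

end Pool.Agent.YTDA
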