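import Pool.Agent.YTDA.Mfd3

/-!
# The quotient of a polarized atlas by a finite group acting freely
-/

namespace Pool.Agent.YTDA

open Complex Set Topology ContDiff Manifold ComplexOrder Module Filter

noncomputable section

namespace PolAtlas

variable {n : ℕ} {Y : Type} [MulAction ℂˣ Y] (A : PolAtlas n Y)
variable (G : Type) [Group G] [MulAction G Y] [SMulCommClass G ℂˣ Y]

/-- A group acting by holomorphic automorphisms of the line bundle, freely on the manifold. -/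
structure FreeAct : Prop where
  hol : ∀ (g : G) (a : A.ι), ∀ z ∈ A.U a, ∃ (b : A.ι) (O : Set (E n)) (f : E n → E n)
    (m : E n → ℂˣ), IsOpen O ∧ z ∈ O ∧ O ⊆ A.U a ∧ DifferentiableOn ℂ f O ∧
    DifferentiableOn ℂ (fun w => (m w : ℂ)) O ∧
    ∀ w ∈ O, f w ∈ A.U b ∧ g • A.γ a w = m w • A.γ b (f w)
  free : ∀ (g : G) (y : Y) (c : ℂˣ), g • y = c • y → g = 1

variable {A G}

/-- Local representation of the action in given charts. -/
theorem FreeAct.loc (h : A.FreeAct G) (g : G) {a b : A.ι} {z z' : E n} (hz : z ∈ A.U a)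
    (hz' : z' ∈ A.U b) {c : ℂˣ} (hc : A.γ b z' = c • g • A.γ a z) :
    ∃ (O : Set (E n)) (f : E n → E n) (m : E n → ℂˣ), IsOpen O ∧ z ∈ O ∧ O ⊆ A.U a ∧
      DifferentiableOn ℂ f O ∧ DifferentiableOn ℂ (fun w => (m w : ℂ)) O ∧ f z = z' ∧ m z = c ∧
      ∀ w ∈ O, f w ∈ A.U b ∧ A.γ b (f w) = m w • g • A.γ a w := by
  obtain ⟨b₁, O₁, f₁, m₁, hO₁, hzO₁, hOU, hf₁, hm₁, h₁⟩ := h.hol g a z hz
  obtain ⟨h2, h3⟩ := h₁ z hzO₁
  have h4 : A.γ b z' = (c * m₁ z) • A.γ b₁ (f₁ z) := by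
    rw [hc, h3, smul_smul]
  obtain ⟨h5, h6, h7⟩ := A.eq_τ h2 hz' h4
  set O := O₁ ∩ f₁ ⁻¹' (A.O b₁ b) with hO
  have hOo : IsOpen O := hf₁.continuousOn.isOpen_inter_preimage hO₁ (A.O_open b₁ b)
  refine ⟨O, fun w => A.τ b₁ b (f₁ w), fun w => A.h b₁ b (f₁ w) * (m₁ w)⁻¹, hOo, ⟨hzO₁, h5⟩,
    fun w hw => hOU hw.1, ?_, ?_, h6, ?_, ?_⟩
  · exact (A.hol_τ' b₁ b).comp (hf₁.mono inter_subset_left) fun w hw => hw.2
  · have h8 : DifferentiableOn ℂ (fun w => (A.h b₁ b (f₁ w) : ℂ)) O :=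
      (A.hol_h' b₁ b).comp (hf₁.mono inter_subset_left) fun w hw => hw.2
    have h9 : DifferentiableOn ℂ (fun w => ((m₁ w : ℂ))⁻¹) O :=
      (hm₁.mono inter_subset_left).inv fun w _ => (m₁ w).ne_zero
    have := h8.mul h9
    apply this.congr
    intro w _
    simp
  · simp only [h7, mul_inv_cancel_right]
  · intro w hw
    refine ⟨A.τ_mem hw.2, ?_⟩
    rw [A.γ_τ hw.2, (h₁ w hw.1).2, smul_smul, inv_mul_cancel_right]

variable (A G)

/-- A small open subset of a chart. -/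
def Small (a : A.ι) (V : Set (E n)) : Prop :=
  IsOpen V ∧ V ⊆ A.U a ∧ ∀ g : G, g ≠ 1 → ∀ w ∈ V, ∀ w' ∈ V, ∀ c : ℂˣ,
    g • A.γ a w ≠ c • A.γ a w'

variable {A G}

theorem Small.mono {a : A.ι} {V W : Set (E n)} (hV : A.Small G a V) (hW : IsOpen W)
    (hWV : W ⊆ V) : A.Small G a W :=
  ⟨hW, hWV.trans hV.2.1, fun g hg w hw w' hw' c => hV.2.2 g hg w (hWV hw) w' (hWV hw') c⟩

theorem FreeAct.exists_small [Finite G] (h : A.FreeAct G) (ht : A.IsT2) {a : A.ι} {z : E n}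
    (hz : z ∈ A.U a) : ∃ V, z ∈ V ∧ A.Small G a V := by
  have key : ∀ g : G, g ≠ 1 → ∃ V, IsOpen V ∧ z ∈ V ∧ V ⊆ A.U a ∧ ∀ w ∈ V, ∀ w' ∈ V, ∀ c : ℂˣ,
      g • A.γ a w ≠ c • A.γ a w' := by
    intro g hg
    obtain ⟨b, O, f, m, hO, hzO, hOU, hf, hm, h1⟩ := h.hol g a z hz
    obtain ⟨h2, h3⟩ := h1 z hzO
    have h4 : ∀ c : ℂˣ, A.γ b (f z) ≠ c • A.γ a z := by
      intro c hc
      apply hg
      apply h.free g (A.γ a z) (m z * c)
      rw [h3, hc, smul_smul]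
    obtain ⟨V, hV, V', hV', h5⟩ := ht a b z hz (f z) h2 h4
    obtain ⟨W, hW, hWo, hzW⟩ := mem_nhds_iff.1 hV
    obtain ⟨W', hW', hWo', hzW'⟩ := mem_nhds_iff.1 hV'
    refine ⟨W ∩ (O ∩ f ⁻¹' W'), hWo.inter (hf.continuousOn.isOpen_inter_preimage hO hWo'),
      ⟨hzW, hzO, hzW'⟩, fun w hw => hOU hw.2.1, ?_⟩
    intro w hw w' hw' c hc
    obtain ⟨h6, h7⟩ := h1 w hw.2.1
    rw [h7] at hc
    apply h5 w' ⟨hW hw'.1, hOU hw'.2.1⟩ (f w) ⟨hW' hw.2.2, h6⟩ ((m w)⁻¹ * c)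
    rw [mul_smul, ← hc, inv_smul_smul]
  choose! V hV using key
  classical
  have := Fintype.ofFinite G
  refine ⟨A.U a ∩ ⋂ g : {g : G // g ≠ 1}, V g.1, ⟨hz, ?_⟩, ?_, inter_subset_left, ?_⟩
  · exact mem_iInter.2 fun g => (hV g.1 g.2).2.1
  · exact (A.isOpen_U a).inter (isOpen_iInter_of_finite fun g => (hV g.1 g.2).1)
  · intro g hg w hw w' hw' c
    exact (hV g hg).2.2.2 w (mem_iInter.1 hw.2 ⟨g, hg⟩) w' (mem_iInter.1 hw'.2 ⟨g, hg⟩) c

/-! ### The quotient -/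

variable (Y G)

/-- The quotient of `Y` by the group. -/
abbrev QY : Type := MulAction.orbitRel.Quotient G Y

variable {Y G}

/-- The projection. -/
def qm (y : Y) : QY Y G := Quotient.mk (MulAction.orbitRel G Y) y

theorem qm_eq {y y' : Y} : (qm y : QY Y G) = qm y' ↔ ∃ g : G, y = g • y' := by
  constructor
  · intro h
    have h1 : (MulAction.orbitRel G Y).r y y' := Quotient.exact h
    obtain ⟨g, hg⟩ := h1
    exact ⟨g, hg.symm⟩
  · rintro ⟨g, hg⟩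
    exact Quotient.sound ⟨g, hg.symm⟩

theorem exists_qm (y : QY Y G) : ∃ y' : Y, qm y' = y := Quotient.exists_rep y

instance qAction : MulAction ℂˣ (QY Y G) where
  smul c := Quotient.map (fun y => c • y) (by
    rintro y y' ⟨g, hg⟩
    refine ⟨g, ?_⟩
    simp only at hg ⊢
    rw [smul_comm, hg])
  one_smul p := by
    obtain ⟨y, rfl⟩ := exists_qm p
    show (qm ((1 : ℂˣ) • y) : QY Y G) = qm y
    rw [one_smul]
  mul_smul c d p := by
    obtain ⟨y, rfl⟩ := exists_qm p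
    show (qm ((c * d) • y) : QY Y G) = qm (c • d • y)
    rw [mul_smul]

theorem smul_qm (c : ℂˣ) (y : Y) : c • (qm y : QY Y G) = qm (c • y) := rfl

theorem qm_smul (g : G) (y : Y) : (qm (g • y) : QY Y G) = qm y := qm_eq.2 ⟨g, rfl⟩

variable (A G)

/-- Index set of the atlas of the quotient. -/
abbrev QI : Type := {p : A.ι × Set (E n) // A.Small G p.1 p.2}

variable {A G}

/-- frames of the quotient -/
def qγ (p : A.QI G) (z : E n) : QY Y G := qm (A.γ p.1.1 z)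

/-- The relation between points of the charts. -/
def QRel (p p' : A.QI G) (z z' : E n) : Prop :=
  z' ∈ p'.1.2 ∧ ∃ c : ℂˣ, qγ p' z' = c • qγ p z

theorem qrel_iff {p p' : A.QI G} {z z' : E n} {c : ℂˣ} : qγ p' z' = c • qγ p z ↔
    ∃ g : G, A.γ p'.1.1 z' = c • g • A.γ p.1.1 z := by
  unfold qγ
  rw [smul_qm, qm_eq]
  constructor
  · rintro ⟨g, hg⟩
    exact ⟨g, by rw [hg, smul_comm g c]⟩
  · rintro ⟨g, hg⟩
    exact ⟨g, by rw [hg, smul_comm g c]⟩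

theorem q_inj (p : A.QI G) {z z' : E n} (hz : z ∈ p.1.2) (hz' : z' ∈ p.1.2) {c : ℂˣ}
    (h : qγ p z' = c • qγ p z) : z' = z ∧ c = 1 := by
  obtain ⟨g, hg⟩ := qrel_iff.1 h
  have hg1 : g = 1 := by
    by_contra hg1
    apply p.2.2.2 g hg1 z hz z' hz' c⁻¹
    rw [hg, inv_smul_smul]
  rw [hg1, one_smul] at hg
  exact A.inj p.1.1 z (p.2.2.1 hz) z' (p.2.2.1 hz') c hg

theorem qrel_unique {p p' : A.QI G} {z z₁ z₂ : E n} {c₁ c₂ : ℂˣ} (h1 : z₁ ∈ p'.1.2)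
    (h2 : z₂ ∈ p'.1.2) (h3 : qγ p' z₁ = c₁ • qγ p z) (h4 : qγ p' z₂ = c₂ • qγ p z) :
    z₁ = z₂ ∧ c₁ = c₂ := by
  have h5 : qγ p' z₁ = (c₁ * c₂⁻¹) • qγ p' z₂ := by
    rw [h3, h4, smul_smul, inv_mul_cancel_right]
  obtain ⟨h6, h7⟩ := q_inj p' h2 h1 h5
  exact ⟨h6, mul_inv_eq_one.1 h7⟩

/-- Domain of the transition. -/
def qO (p p' : A.QI G) : Set (E n) :=
  {z | z ∈ p.1.2 ∧ ∃ z' ∈ p'.1.2, ∃ c : ℂˣ, qγ p' z' = c • qγ p z}

open Classical in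
/-- the transition maps -/
def qτ (p p' : A.QI G) (z : E n) : E n :=
  if h : ∃ z' ∈ p'.1.2, ∃ c : ℂˣ, qγ p' z' = c • qγ p z then h.choose else 0

open Classical in
/-- the transition functions -/
def qh (p p' : A.QI G) (z : E n) : ℂˣ :=
  if h : ∃ z' ∈ p'.1.2, ∃ c : ℂˣ, qγ p' z' = c • qγ p z then h.choose_spec.2.choose else 1

theorem q_trans {p p' : A.QI G} {z : E n}
    (h : ∃ z' ∈ p'.1.2, ∃ c : ℂˣ, qγ p' z' = c • qγ p z) :
    qτ p p' z ∈ p'.1.2 ∧ qγ p' (qτ p p' z) = qh p p' z • qγ p z := by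
  have h1 : qτ p p' z = h.choose := dif_pos h
  have h2 : qh p p' z = h.choose_spec.2.choose := dif_pos h
  rw [h1, h2]
  exact ⟨h.choose_spec.1, h.choose_spec.2.choose_spec⟩

theorem q_trans_eq {p p' : A.QI G} {z z' : E n} {c : ℂˣ} (h1 : z' ∈ p'.1.2)
    (h : qγ p' z' = c • qγ p z) : qτ p p' z = z' ∧ qh p p' z = c := by
  obtain ⟨h2, h3⟩ := q_trans (p := p) (p' := p') (z := z) ⟨z', h1, c, h⟩
  exact qrel_unique h2 h1 h3 h

/-- Local representation of the transitions of the quotient. -/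
theorem FreeAct.q_loc (hA : A.FreeAct G) {p p' : A.QI G} {z : E n} (hz : z ∈ qO p p') :
    ∃ (O : Set (E n)) (f : E n → E n) (m : E n → ℂˣ) (g : G), IsOpen O ∧ z ∈ O ∧ O ⊆ qO p p' ∧
      DifferentiableOn ℂ f O ∧ DifferentiableOn ℂ (fun w => (m w : ℂ)) O ∧
      ∀ w ∈ O, f w ∈ p'.1.2 ∧ A.γ p'.1.1 (f w) = m w • g • A.γ p.1.1 w ∧
        qτ p p' w = f w ∧ qh p p' w = m w := by
  obtain ⟨h1, z', h2, c, h3⟩ := hz
  obtain ⟨g, hg⟩ := qrel_iff.1 h3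
  obtain ⟨O, f, m, hO, hzO, hOU, hf, hm, hfz, -, h4⟩ :=
    hA.loc g (p.2.2.1 h1) (p'.2.2.1 h2) hg
  set O' := (O ∩ f ⁻¹' p'.1.2) ∩ p.1.2 with hO'
  have hrel : ∀ w ∈ O', qγ p' (f w) = m w • qγ p w := by
    intro w hw
    exact qrel_iff.2 ⟨g, (h4 w hw.1.1).2⟩
  refine ⟨O', f, m, g, (hf.continuousOn.isOpen_inter_preimage hO p'.2.1).inter p.2.1,
    ⟨⟨hzO, ?_⟩, h1⟩, ?_, hf.mono fun w hw => hw.1.1, hm.mono fun w hw => hw.1.1, ?_⟩
  · rw [mem_preimage, hfz]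
    exact h2
  · intro w hw
    exact ⟨hw.2, f w, hw.1.2, m w, hrel w hw⟩
  · intro w hw
    exact ⟨hw.1.2, (h4 w hw.1.1).2, q_trans_eq hw.1.2 (hrel w hw)⟩

/-- The polarized atlas of the quotient. -/
def quot [Finite G] (hA : A.FreeAct G) (ht : A.IsT2) : PolAtlas n (QY Y G) where
  ι := A.QI G
  U p := p.1.2
  γ := qγ
  isOpen_U p := p.2.1
  inj p z hz z' hz' c h := q_inj p hz hz' h
  cover y := by
    obtain ⟨y, rfl⟩ := exists_qm y
    obtain ⟨a, z, hz, c, rfl⟩ := A.cover y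
    obtain ⟨V, hzV, hV⟩ := hA.exists_small ht hz
    exact ⟨⟨(a, V), hV⟩, z, hzV, c, rfl⟩
  τ := qτ
  h := qh
  isOpen_O p p' := by
    rw [isOpen_iff_mem_nhds]
    intro z hz
    obtain ⟨O, f, m, g, hO, hzO, hOq, -⟩ := hA.q_loc hz
    exact mem_of_superset (hO.mem_nhds hzO) hOq
  trans p p' z _ h := q_trans h
  hol_τ p p' := by
    intro z hz
    obtain ⟨O, f, m, g, hO, hzO, hOq, hf, hm, h1⟩ := hA.q_loc hz
    have h2 : qτ p p' =ᶠ[𝓝 z] f := by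
      filter_upwards [hO.mem_nhds hzO] with w hw
      exact (h1 w hw).2.2.1
    exact (h2.differentiableAt_iff.2
      (hf.differentiableAt (hO.mem_nhds hzO))).differentiableWithinAt
  hol_h p p' := by
    intro z hz
    obtain ⟨O, f, m, g, hO, hzO, hOq, hf, hm, h1⟩ := hA.q_loc hz
    have h2 : (fun w => (qh p p' w : ℂ)) =ᶠ[𝓝 z] fun w => (m w : ℂ) := by
      filter_upwards [hO.mem_nhds hzO] with w hw
      rw [(h1 w hw).2.2.2]
    exact (h2.differentiableAt_iff.2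
      (hm.differentiableAt (hO.mem_nhds hzO))).differentiableWithinAt

end PolAtlas

end

end Pool.Agent.YTDA
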