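import Pool.Agent.YTDA.Quot

/-!
# The quotient of a polarized atlas: compactness, sections, metrics, vector fields
-/

namespace Pool.Agent.YTDA

open Complex Set Topology ContDiff Manifold ComplexOrder Module Filter Metric

noncomputable section

namespace PolAtlas

variable {n : ℕ} {Y : Type} [MulAction ℂˣ Y] {A : PolAtlas n Y}
variable {G : Type} [Group G] [MulAction G Y] [SMulCommClass G ℂˣ Y]

theorem isCpt_of_finite {T : Type} [Finite T] (a : T → A.ι) (K : T → Set (E n))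
    (h1 : ∀ k, IsCompact (K k) ∧ K k ⊆ A.U (a k))
    (h2 : ∀ y, ∃ k, ∃ z ∈ K k, ∃ c : ℂˣ, y = c • A.γ (a k) z) : A.IsCpt := by
  obtain ⟨m, ⟨e⟩⟩ := Finite.exists_equiv_fin T
  refine ⟨m, fun k => a (e.symm k), fun k => K (e.symm k), fun k => h1 _, fun y => ?_⟩
  obtain ⟨k, z, hz, c, hc⟩ := h2 y
  refine ⟨e k, z, ?_, c, ?_⟩
  · simpa using hz
  · simpa using hc

variable [Finite G] (hA : A.FreeAct G) (ht : A.IsT2)

theorem quot_isCpt (hc : A.IsCpt) : (A.quot hA ht).IsCpt := by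
  obtain ⟨m, a, K, h1, h2⟩ := hc
  have key : ∀ k, ∀ z ∈ K k, ∃ V, A.Small G (a k) V ∧ ∃ r > 0, closedBall z r ⊆ V := by
    intro k z hz
    obtain ⟨V, hzV, hV⟩ := hA.exists_small ht ((h1 k).2 hz)
    obtain ⟨r, hr, hr'⟩ := nhds_basis_closedBall.mem_iff.1 (hV.1.mem_nhds hzV)
    exact ⟨V, hV, r, hr, hr'⟩
  choose! V hV r hr hrV using key
  have key2 : ∀ k, ∃ t : Finset (E n), (∀ z ∈ t, z ∈ K k) ∧
      K k ⊆ ⋃ z ∈ t, closedBall z (r k z) := fun k =>
    (h1 k).1.elim_nhds_subcover (fun z => closedBall z (r k z)) fun z hz =>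
      closedBall_mem_nhds z (hr k z hz)
  choose t ht1 ht2 using key2
  have hf : Finite (Σ k : Fin m, {z : E n // z ∈ t k}) := inferInstance
  apply isCpt_of_finite (A := A.quot hA ht) (T := Σ k : Fin m, {z : E n // z ∈ t k})
    (fun p => ⟨(a p.1, V p.1 p.2.1), hV p.1 p.2.1 (ht1 p.1 p.2.1 p.2.2)⟩)
    (fun p => K p.1 ∩ closedBall p.2.1 (r p.1 p.2.1))
  · rintro ⟨k, z, hz⟩
    refine ⟨(h1 k).1.inter_right isClosed_closedBall, ?_⟩
    exact inter_subset_right.trans (hrV k z (ht1 k z hz))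
  · intro y
    obtain ⟨y, rfl⟩ := exists_qm y
    obtain ⟨k, z, hz, c, rfl⟩ := h2 y
    obtain ⟨z₀, hz₀, hz₀'⟩ := mem_iUnion₂.1 (ht2 k hz)
    exact ⟨⟨k, z₀, hz₀⟩, z, ⟨hz, hz₀'⟩, c, rfl⟩

theorem quot_isT2 : (A.quot hA ht).IsT2 := by
  intro p p' z hz z' hz' hne
  have key : ∀ g : G, ∃ V ∈ 𝓝 z, ∃ V' ∈ 𝓝 z', ∀ w ∈ V ∩ A.U p.1.1, ∀ w' ∈ V' ∩ A.U p'.1.1,
      ∀ c : ℂˣ, A.γ p'.1.1 w' ≠ c • g • A.γ p.1.1 w := by
    intro g
    obtain ⟨b, O, f, m, hO, hzO, hOU, hf, hm, h1⟩ := hA.hol g p.1.1 z (p.2.2.1 hz)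
    have h2 : ∀ c : ℂˣ, A.γ p'.1.1 z' ≠ c • A.γ b (f z) := by
      intro c hc
      apply hne (c * (m z)⁻¹)
      apply qrel_iff.2
      refine ⟨g, ?_⟩
      rw [hc, (h1 z hzO).2, smul_smul, inv_mul_cancel_right]
    obtain ⟨V, hV, V', hV', h3⟩ := ht b p'.1.1 (f z) (h1 z hzO).1 z' (p'.2.2.1 hz') h2
    have hfc : ContinuousAt f z := (hf.continuousOn z hzO).continuousAt (hO.mem_nhds hzO)
    refine ⟨O ∩ f ⁻¹' V, inter_mem (hO.mem_nhds hzO) (hfc hV), V', hV', ?_⟩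
    intro w hw w' hw' c hc
    apply h3 (f w) ⟨hw.1.2, (h1 w hw.1.1).1⟩ w' hw' (c * m w)
    rw [hc, (h1 w hw.1.1).2, smul_smul]
  choose V hV V' hV' h using key
  refine ⟨⋂ g, V g, iInter_mem.2 hV, ⋂ g, V' g, iInter_mem.2 hV', ?_⟩
  intro w hw w' hw' c hc
  obtain ⟨g, hg⟩ := qrel_iff.1 hc
  exact h g w ⟨mem_iInter.1 hw.1 g, p.2.2.1 hw.2⟩ w' ⟨mem_iInter.1 hw'.1 g, p'.2.2.1 hw'.2⟩ c hg

/-! ### Functions -/

/-- An invariant function on `Y` as a function on the quotient. -/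
def qlift {β : Type} (F : Y → β) (hF : ∀ (g : G) y, F (g • y) = F y) : QY Y G → β :=
  Quotient.lift F (by
    rintro y y' ⟨g, hg⟩
    simp only at hg
    rw [← hg, hF])

theorem qlift_qm {β : Type} (F : Y → β) (hF : ∀ (g : G) y, F (g • y) = F y) (y : Y) :
    qlift F hF (qm y) = F y := rfl

theorem quot_γ (p : A.QI G) (z : E n) : (A.quot hA ht).γ p z = qm (A.γ p.1.1 z) := rfl

theorem quot_isSec_iff {k : ℕ} {F : QY Y G → ℂ} : (A.quot hA ht).IsSec k F ↔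
    A.IsSec k fun y => F (qm y) := by
  constructor
  · intro h
    refine ⟨fun c y => h.hom c (qm y), fun a z hz => ?_⟩
    obtain ⟨V, hzV, hV⟩ := hA.exists_small ht hz
    have h1 : DifferentiableAt ℂ (fun w => F (qm (A.γ a w))) z :=
      (h.hol ⟨(a, V), hV⟩).differentiableAt (hV.1.mem_nhds hzV)
    exact h1.differentiableWithinAt
  · intro h
    refine ⟨fun c y => ?_, fun p => (h.hol p.1.1).mono p.2.2.1⟩
    obtain ⟨y, rfl⟩ := exists_qm y
    exact h.hom c y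

variable (G) in
/-- The invariant sections. -/
def invSecs (A : PolAtlas n Y) (k : ℕ) : Submodule ℂ (Y → ℂ) where
  carrier := {F | A.IsSec k F ∧ ∀ (g : G) y, F (g • y) = F y}
  zero_mem' := ⟨(A.secs k).zero_mem, fun _ _ => rfl⟩
  add_mem' := by
    rintro F F' hF hF'
    exact ⟨(A.secs k).add_mem hF.1 hF'.1, fun g y => by
      rw [Pi.add_apply, Pi.add_apply, hF.2, hF'.2]⟩
  smul_mem' := by
    rintro c F hF
    exact ⟨(A.secs k).smul_mem c hF.1, fun g y => by rw [Pi.smul_apply, Pi.smul_apply, hF.2]⟩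

theorem mem_invSecs {k : ℕ} {F : Y → ℂ} : F ∈ A.invSecs G k ↔
    A.IsSec k F ∧ ∀ (g : G) y, F (g • y) = F y := Iff.rfl

/-- The sections on the quotient are the invariant sections. -/
def quotSecs (k : ℕ) : (A.quot hA ht).secs k ≃ₗ[ℂ] A.invSecs G k where
  toFun F := ⟨fun y => F.1 (qm y), (quot_isSec_iff hA ht).1 F.2,
    fun g y => congrArg F.1 (qm_smul g y)⟩
  invFun F := ⟨qlift F.1 F.2.2, (quot_isSec_iff hA ht).2 F.2.1⟩
  map_add' _ _ := rfl
  map_smul' _ _ := rfl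
  left_inv F := by
    apply Subtype.ext
    funext y
    obtain ⟨y, rfl⟩ := exists_qm y
    rfl
  right_inv _ := rfl

/-! ### Metrics -/

theorem quot_isKahler {H : QY Y G → ℝ} (h : (A.quot hA ht).IsKahler H) :
    A.IsKahler fun y => H (qm y) where
  pos y := h.pos _
  hom c y := h.hom c (qm y)
  smooth a := by
    intro z hz
    obtain ⟨V, hzV, hV⟩ := hA.exists_small ht hz
    have h1 : ContDiffOn ℝ ∞ (A.pot (fun y => H (qm y)) a) V := h.smooth ⟨(a, V), hV⟩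
    exact (h1.contDiffAt (hV.1.mem_nhds hzV)).contDiffWithinAt
  posDef a z hz := by
    obtain ⟨V, hzV, hV⟩ := hA.exists_small ht hz
    exact h.posDef ⟨(a, V), hV⟩ z hzV

theorem quot_isCsc {H : QY Y G → ℝ} {s : ℂ} (h : (A.quot hA ht).IsCsc H s) :
    A.IsCsc (fun y => H (qm y)) s := by
  intro a z hz
  obtain ⟨V, hzV, hV⟩ := hA.exists_small ht hz
  exact h ⟨(a, V), hV⟩ z hzV

/-! ### Vector fields -/

/-- A small neighbourhood. -/
def smallAt {a : A.ι} {z : E n} (hz : z ∈ A.U a) : A.QI G :=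
  ⟨(a, (hA.exists_small ht hz).choose), (hA.exists_small ht hz).choose_spec.2⟩

theorem mem_smallAt {a : A.ι} {z : E n} (hz : z ∈ A.U a) : z ∈ (smallAt hA ht hz).1.2 :=
  (hA.exists_small ht hz).choose_spec.1

theorem field_eq (W : (A.quot hA ht).HolField) {p p' : A.QI G} {z : E n} {f : E n → E n}
    (hz : z ∈ p.1.2) (hz' : f z ∈ p'.1.2) (hf : ContinuousAt f z)
    (h : ∀ᶠ w in 𝓝 z, ∃ (c : ℂˣ) (g : G), A.γ p'.1.1 (f w) = c • g • A.γ p.1.1 w) :
    W.W p' (f z) = fderiv ℂ f z (W.W p z) := by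
  have h1 : ∀ᶠ w in 𝓝 z, w ∈ p.1.2 := p.2.1.mem_nhds hz
  have h2 : ∀ᶠ w in 𝓝 z, f w ∈ p'.1.2 := hf (p'.2.1.mem_nhds hz')
  have h3 : (A.quot hA ht).τ p p' =ᶠ[𝓝 z] f := by
    filter_upwards [h, h1, h2] with w ⟨c, g, hw⟩ hw1 hw2
    exact (q_trans_eq hw2 (qrel_iff.2 ⟨g, hw⟩)).1
  have hO : z ∈ (A.quot hA ht).O p p' := by
    obtain ⟨c, g, hc⟩ := h.self_of_nhds
    exact ⟨hz, f z, hz', c, qrel_iff.2 ⟨g, hc⟩⟩
  have h4 := W.trans p p' z hO
  rw [h3.fderiv_eq, h3.self_of_nhds] at h4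
  exact h4

open Classical in
/-- The pull-back of a vector field on the quotient. -/
def pullW (W : (A.quot hA ht).HolField) (a : A.ι) (z : E n) : E n :=
  if hz : z ∈ A.U a then W.W (smallAt hA ht hz) z else 0

theorem pullW_eq (W : (A.quot hA ht).HolField) {p : A.QI G} {z : E n} (hz : z ∈ p.1.2) :
    pullW hA ht W p.1.1 z = W.W p z := by
  have hzU : z ∈ A.U p.1.1 := p.2.2.1 hz
  have h1 : pullW hA ht W p.1.1 z = W.W (smallAt hA ht hzU) z := dif_pos hzU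
  rw [h1]
  have h2 := field_eq hA ht W (p := p) (p' := smallAt hA ht hzU) (z := z) (f := id) hz
    (mem_smallAt hA ht hzU) continuousAt_id
    (Eventually.of_forall fun w => ⟨1, 1, by rw [one_smul, one_smul]; rfl⟩)
  rw [fderiv_id] at h2
  exact h2

theorem pullW_trans (W : (A.quot hA ht).HolField) {a b : A.ι} {z : E n} {f : E n → E n}
    (hz : z ∈ A.U a) (hz' : f z ∈ A.U b) (hf : ContinuousAt f z)
    (h : ∀ᶠ w in 𝓝 z, ∃ (c : ℂˣ) (g : G), A.γ b (f w) = c • g • A.γ a w) :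
    pullW hA ht W b (f z) = fderiv ℂ f z (pullW hA ht W a z) := by
  have h1 := field_eq hA ht W (p := smallAt hA ht hz) (p' := smallAt hA ht hz') (z := z) (f := f)
    (mem_smallAt hA ht hz) (mem_smallAt hA ht hz') hf h
  rw [← pullW_eq hA ht W (mem_smallAt hA ht hz), ← pullW_eq hA ht W (mem_smallAt hA ht hz')] at h1
  exact h1

/-- The pull-back of a vector field on the quotient. -/
def pullField (W : (A.quot hA ht).HolField) : A.HolField where
  W := pullW hA ht W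
  hol a := by
    intro z hz
    apply DifferentiableAt.differentiableWithinAt
    obtain ⟨V, hzV, hV⟩ := hA.exists_small ht hz
    have h1 : DifferentiableAt ℂ (W.W ⟨(a, V), hV⟩) z :=
      (W.hol ⟨(a, V), hV⟩).differentiableAt (hV.1.mem_nhds hzV)
    apply h1.congr_of_eventuallyEq
    filter_upwards [hV.1.mem_nhds hzV] with w hw
    exact pullW_eq hA ht W (p := ⟨(a, V), hV⟩) hw
  trans a b z hz := by
    apply pullW_trans hA ht W hz.1 (A.τ_mem hz)
      ((A.continuousOn_τ a b).continuousAt ((A.O_open a b).mem_nhds hz))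
    filter_upwards [(A.O_open a b).mem_nhds hz] with w hw
    exact ⟨A.h a b w, 1, by rw [one_smul]; exact A.γ_τ hw⟩

/-- The pull-back of a vector field is invariant. -/
theorem pullField_inv (W : (A.quot hA ht).HolField) (g : G) {a b : A.ι} {z : E n}
    {f : E n → E n} (hz : z ∈ A.U a) (hz' : f z ∈ A.U b) (hf : ContinuousAt f z)
    (h : ∀ᶠ w in 𝓝 z, ∃ c : ℂˣ, g • A.γ a w = c • A.γ b (f w)) :
    (pullField hA ht W).W b (f z) = fderiv ℂ f z ((pullField hA ht W).W a z) := by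
  apply pullW_trans hA ht W hz hz' hf
  filter_upwards [h] with w ⟨c, hc⟩
  exact ⟨c⁻¹, g, by rw [hc, inv_smul_smul]⟩

theorem pullField_eq_zero {W : (A.quot hA ht).HolField}
    (h : ∀ a, ∀ z ∈ A.U a, (pullField hA ht W).W a z = 0) (p : A.QI G) (z : E n)
    (hz : z ∈ p.1.2) : W.W p z = 0 := by
  rw [← pullW_eq hA ht W hz]
  exact h _ _ (p.2.2.1 hz)

end PolAtlas

end

end Pool.Agent.YTDA
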