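import Pool.Agent.YTDA.Defs
import Pool.Agent.YTDA.FinalIneq

/-!
# The reduced equation on the surface
-/

namespace Pool.Agent.YTDA

open Complex Set Topology ContDiff

noncomputable section

/-- `∑ k_j z_j ∂_j f` -/
def wdz {n : ℕ} (k : Fin n → ℤ) (f : E n → ℂ) (z : E n) : ℂ :=
  ∑ j, (k j : ℂ) * z j * dz j f z

/-- the moment map in a chart: `m + ∑ k_j z_j ∂_j φ` -/
def mom {n : ℕ} (k : Fin n → ℤ) (m : ℤ) (φ : E n → ℝ) (z : E n) : ℝ :=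
  m + (wdz k (fun w => (φ w : ℂ)) z).re

/-- `log det (∂_i ∂_j̄ φ) + log P(μ)` -/
def redF {n : ℕ} (q : ℕ) (k : Fin n → ℤ) (m : ℤ) (φ : E n → ℝ) (z : E n) : ℝ :=
  logdet φ z + Real.log (PP q (mom k m φ z))

namespace PolAtlas

variable {n : ℕ} {Y : Type} [MulAction ℂˣ Y]

/-- the reduced equation for a metric `h` on the surface -/
structure IsPde (A : PolAtlas n Y) (D : A.DAct) (q : ℕ) (s : ℂ) (h : Y → ℝ) : Prop where
  /-- `h` is circle invariant -/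
  inv : ∀ (c : ℂˣ) y, ‖(c : ℂ)‖ = 1 → h (D.act c y) = h y
  pos : ∀ a, ∀ z ∈ A.U a, 0 < 25 * (q : ℝ) + 3 * mom (D.k a) (D.m a) (A.pot h a) z
  pos' : ∀ a, ∀ z ∈ A.U a, 0 < 25 * (q : ℝ) - 3 * mom (D.k a) (D.m a) (A.pot h a) z
  pde : ∀ a, ∀ z ∈ A.U a, s * (PP q (mom (D.k a) (D.m a) (A.pot h a) z) : ℝ) =
    -((PP q (mom (D.k a) (D.m a) (A.pot h a) z) : ℝ) *
        ∑ i, ∑ j, (hess (A.pot h a) z)⁻¹ j i * hess (redF q (D.k a) (D.m a) (A.pot h a)) z i j +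
      -18 * (mom (D.k a) (D.m a) (A.pot h a) z : ℝ) *
        (wdz (D.k a) (fun w => (redF q (D.k a) (D.m a) (A.pot h a) w : ℂ)) z +
          ((∑ j, D.k a j : ℤ) : ℂ)) - 100 * (q : ℂ))

end PolAtlas

end

end Pool.Agent.YTDA
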