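import Pool.Agent.YTDA.Smr4
import Pool.Agent.YTDA.RedDefs

/-!
# Calculus for the reduction: coordinate functions, exponentials, the function `log (1 + |z|²)`
-/

namespace Pool.Agent.YTDA

open Complex Set Topology ContDiff ComplexOrder TopologicalSpace Matrix

noncomputable section

set_option linter.unusedSectionVars false

section Co

variable {n : ℕ} {Ω : Opens (E n)}

/-- the coordinate functions -/
def co (i : Fin n) : Sm Ω := ofFn (fun z => z i) (contDiff_apply ℝ ℂ i).contDiffOn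

@[simp] theorem co_apply (i : Fin n) (z : Ω) : (co i : Sm Ω).1 z = (z : E n) i := rfl

theorem fderiv_coord (j : Fin n) (z v : E n) : fderiv ℝ (fun w : E n => w j) z v = v j := by
  have h : fderiv ℝ (fun w : E n => w j) z = ContinuousLinearMap.proj (R := ℝ) j :=
    (ContinuousLinearMap.proj (R := ℝ) (φ := fun _ : Fin n => ℂ) j).hasFDerivAt.fderiv
  rw [h]
  rfl

theorem dzD_co (i j : Fin n) : dzD i (co j : Sm Ω) = if i = j then 1 else 0 := by
  apply Sm.ext'
  intro z
  rw [co, dzD_ofFn, dz, fderiv_coord, fderiv_coord]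
  by_cases h : i = j
  · subst h
    rw [if_pos rfl, Pi.single_eq_same, Pi.single_eq_same, I_mul_I, Sm.one_apply]
    norm_num
  · rw [if_neg h, Pi.single_eq_of_ne (Ne.symm h), Pi.single_eq_of_ne (Ne.symm h), Sm.zero_apply]
    norm_num

theorem dzbD_co (i j : Fin n) : dzbD i (co j : Sm Ω) = 0 := by
  apply Sm.ext'
  intro z
  rw [co, dzbD_ofFn, dzb, fderiv_coord, fderiv_coord]
  by_cases h : i = j
  · subst h
    rw [Pi.single_eq_same, Pi.single_eq_same, I_mul_I, Sm.zero_apply]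
    norm_num
  · rw [Pi.single_eq_of_ne (Ne.symm h), Pi.single_eq_of_ne (Ne.symm h), Sm.zero_apply]
    norm_num

theorem dzD_star_co (i j : Fin n) : dzD i (star (co j) : Sm Ω) = 0 := by
  rw [← star_dzbD, dzbD_co, star_zero]

theorem dzbD_star_co (i j : Fin n) : dzbD i (star (co j) : Sm Ω) = if i = j then 1 else 0 := by
  rw [← star_dzD, dzD_co]
  split_ifs <;> simp

end Co

section Exp

variable {V : Type} [NormedAddCommGroup V] [NormedSpace ℝ V] {Ω : Opens V}

/-- the exponential of a function -/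
def expS (f : Sm Ω) : Sm Ω := ofFn (fun z => exp (ext f.1 z)) f.2.cexp

@[simp] theorem expS_apply (f : Sm Ω) (z : Ω) : (expS f).1 z = exp (f.1 z) := by
  show exp (ext f.1 z) = _
  rw [ext_coe]

theorem D_expS (v : V) (f : Sm Ω) : D v (expS f) = expS f * D v f := by
  apply Sm.ext'
  intro z
  rw [Sm.mul_apply, expS, D_ofFn, ofFn_apply, D_apply,
    (diffAt_ext f z.2).hasFDerivAt.cexp.fderiv]
  rfl

theorem DS_expS {δ : Derivation ℂ (Sm Ω) (Sm Ω)} (h : δ ∈ DS Ω) (f : Sm Ω) :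
    δ (expS f) = expS f * δ f := by
  refine Submodule.span_induction (p := fun δ _ => δ (expS f) = expS f * δ f) ?_ ?_ ?_ ?_ h
  · rintro _ ⟨v, rfl⟩
    exact D_expS v f
  · simp
  · intro x y _ _ hx hy
    simp only [Derivation.add_apply, mul_add, hx, hy]
  · intro c x _ hx
    rw [Derivation.smul_apply, Derivation.smul_apply, smul_eq_mul, smul_eq_mul, hx]
    ring

theorem star_expS (f : Sm Ω) : star (expS f) = expS (star f) := by
  apply Sm.ext'
  intro z
  rw [star_apply, expS_apply, expS_apply, star_apply, exp_conj]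

theorem der_invS (δ : Derivation ℂ (Sm Ω) (Sm Ω)) (f : Sm Ω) (hf : ∀ z, f.1 z ≠ 0) :
    δ (invS f hf) = -(invS f hf * invS f hf * δ f) := by
  have h1 : δ (f * invS f hf) = 0 := by rw [mul_invS]; simp
  rw [Derivation.leibniz, smul_eq_mul, smul_eq_mul] at h1
  have h2 := invS_mul f hf
  linear_combination invS f hf * h1 - δ (invS f hf) * h2

end Exp

section Lg

variable {n : ℕ} {Ω : Opens (E n)}

/-- `1 + |z_i|²` -/
def wS (i : Fin n) : Sm Ω := 1 + co i * star (co i)

theorem wS_apply (i : Fin n) (z : Ω) : (wS i : Sm Ω).1 z = ((1 + ‖(z : E n) i‖ ^ 2 : ℝ) : ℂ) := by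
  simp only [wS, Sm.add_apply, Sm.one_apply, Sm.mul_apply, star_apply, co_apply, mul_conj,
    normSq_eq_norm_sq]
  push_cast
  rfl

theorem wS_pos (i : Fin n) (z : Ω) : 0 < (wS i : Sm Ω).1 z := by
  rw [wS_apply, zero_lt_real]
  positivity

theorem wS_ne (i : Fin n) (z : Ω) : (wS i : Sm Ω).1 z ≠ 0 := (wS_pos i z).ne'

/-- `log (1 + |z_i|²)` -/
def lS (i : Fin n) : Sm Ω := logS (wS i) (wS_pos i)

theorem lS_apply (i : Fin n) (z : Ω) :
    (lS i : Sm Ω).1 z = (Real.log (1 + ‖(z : E n) i‖ ^ 2) : ℝ) := by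
  rw [lS, logS_apply, wS_apply, ofReal_re]

/-- `(1 + |z_i|²)⁻¹` -/
def vS (i : Fin n) : Sm Ω := invS (wS i) (wS_ne i)

theorem wS_vS (i : Fin n) : (wS i * vS i : Sm Ω) = 1 := mul_invS _ _

theorem DS_lS {δ : Derivation ℂ (Sm Ω) (Sm Ω)} (h : δ ∈ DS Ω) (i : Fin n) :
    δ (lS i) = vS i * (star (co i) * δ (co i) + co i * δ (star (co i))) := by
  have h1 := mul_DS_logS h (wS i : Sm Ω) (wS_pos i)
  have h2 : δ (wS i) = star (co i) * δ (co i) + co i * δ (star (co i)) := by
    rw [wS, map_add, Derivation.leibniz, smul_eq_mul, smul_eq_mul, Derivation.map_one_eq_zero]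
    ring
  rw [h2] at h1
  have h3 := wS_vS (Ω := Ω) i
  rw [← h1, lS]
  linear_combination -(δ (logS (wS i) (wS_pos i))) * h3

theorem der_vS (δ : Derivation ℂ (Sm Ω) (Sm Ω)) (i : Fin n) :
    δ (vS i) = -(vS i * vS i * (star (co i) * δ (co i) + co i * δ (star (co i)))) := by
  have h2 : δ (wS i) = star (co i) * δ (co i) + co i * δ (star (co i)) := by
    rw [wS, map_add, Derivation.leibniz, smul_eq_mul, smul_eq_mul, Derivation.map_one_eq_zero]
    ring
  rw [vS, der_invS, h2]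

theorem dzD_lS_of_ne {i j : Fin n} (h : i ≠ j) : dzD i (lS j : Sm Ω) = 0 := by
  rw [DS_lS (dzD_mem_DS i), dzD_co, dzD_star_co, if_neg h]
  ring

theorem dzbD_lS_of_ne {i j : Fin n} (h : i ≠ j) : dzbD i (lS j : Sm Ω) = 0 := by
  rw [DS_lS (dzbD_mem_DS i), dzbD_co, dzbD_star_co, if_neg h]
  ring

theorem dzD_lS (i : Fin n) : dzD i (lS i : Sm Ω) = vS i * star (co i) := by
  rw [DS_lS (dzD_mem_DS i), dzD_co, dzD_star_co, if_pos rfl]
  ring

theorem dzbD_lS (i : Fin n) : dzbD i (lS i : Sm Ω) = vS i * co i := by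
  rw [DS_lS (dzbD_mem_DS i), dzbD_co, dzbD_star_co, if_pos rfl]
  ring

theorem dzD_vS_of_ne {i j : Fin n} (h : i ≠ j) : dzD i (vS j : Sm Ω) = 0 := by
  rw [der_vS, dzD_co, dzD_star_co, if_neg h]
  ring

theorem hess_lS (i : Fin n) : dzD i (dzbD i (lS i : Sm Ω)) = vS i * vS i := by
  rw [dzbD_lS, Derivation.leibniz, smul_eq_mul, smul_eq_mul, der_vS, dzD_co, dzD_star_co,
    if_pos rfl]
  have h := wS_vS (Ω := Ω) i
  rw [wS] at h
  linear_combination -(vS i) * h

theorem hess_lS_of_ne {i j : Fin n} (h : i ≠ j) : dzD i (dzbD j (lS j : Sm Ω)) = 0 := by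
  rw [dzbD_lS, Derivation.leibniz, smul_eq_mul, smul_eq_mul, dzD_vS_of_ne h, dzD_co, if_neg h]
  ring

end Lg

end

end Pool.Agent.YTDA
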