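import Pool.Agent.YTDA.RedCalc

/-!
# The Hessian of `a (l₁ + l₂) + b t + ψ(e^{k t / 2} z)`, `t = 3 (l₁ - l₂)`
-/

namespace Pool.Agent.YTDA

open Complex Set Topology ContDiff ComplexOrder TopologicalSpace Matrix

noncomputable section

set_option linter.unusedSectionVars false

section Vec

variable {n : ℕ} {U : Opens (E n)} (k : Fin n → ℤ)

/-- the holomorphic vector field `∑ k_b z_b ∂_b` -/
def VS (G : Sm U) : Sm U := ∑ b, (k b : ℂ) • (co b * dzD b G)

/-- its conjugate -/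
def VbS (G : Sm U) : Sm U := ∑ b, (k b : ℂ) • (star (co b) * dzbD b G)

theorem VS_apply (G : Sm U) (z : U) : (VS k G).1 z = wdz k (ext G.1) z := by
  rw [VS, Sm.sum_apply, wdz]
  refine Finset.sum_congr rfl fun b _ => ?_
  rw [Sm.smul_apply, Sm.mul_apply, co_apply, dzD_apply, mul_assoc]

theorem star_VS (G : Sm U) : star (VS k G) = VbS k (star G) := by
  simp only [VS, VbS, star_sum, star_smul, star_mul', star_dzD]
  refine Finset.sum_congr rfl fun b _ => ?_
  congr 1
  simp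

/-- the circle invariance, infinitesimally -/
def Cinv (G : Sm U) : Prop := VS k G = VbS k G

theorem Cinv.add {G G' : Sm U} (h : Cinv k G) (h' : Cinv k G') : Cinv k (G + G') := by
  unfold Cinv at *
  have e1 : VS k (G + G') = VS k G + VS k G' := by
    simp only [VS, map_add, mul_add, smul_add, Finset.sum_add_distrib]
  have e2 : VbS k (G + G') = VbS k G + VbS k G' := by
    simp only [VbS, map_add, mul_add, smul_add, Finset.sum_add_distrib]
  rw [e1, e2, h, h']

theorem dzbD_VS (G : Sm U) (j : Fin n) : dzbD j (VS k G) = VS k (dzbD j G) := by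
  simp only [VS, map_sum]
  refine Finset.sum_congr rfl fun b _ => ?_
  rw [Derivation.map_smul, Derivation.leibniz, dzbD_co, smul_zero, add_zero, smul_eq_mul,
    ← dzD_dzbD_comm]

theorem dzD_VbS (G : Sm U) (j : Fin n) : dzD j (VbS k G) = VbS k (dzD j G) := by
  simp only [VbS, map_sum]
  refine Finset.sum_congr rfl fun b _ => ?_
  rw [Derivation.map_smul, Derivation.leibniz, dzD_star_co, smul_zero, add_zero, smul_eq_mul,
    dzD_dzbD_comm]

theorem dzbD_VbS (G : Sm U) (j : Fin n) :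
    dzbD j (VbS k G) = VbS k (dzbD j G) + (k j : ℂ) • dzbD j G := by
  simp only [VbS, map_sum]
  have h : ∀ b, dzbD j ((k b : ℂ) • (star (co b) * dzbD b G)) =
      (k b : ℂ) • (star (co b) * dzbD b (dzbD j G)) + if j = b then (k b : ℂ) • dzbD b G else 0 := by
    intro b
    rw [Derivation.map_smul, Derivation.leibniz, dzbD_star_co, smul_eq_mul, smul_eq_mul,
      dzbD_comm, smul_add]
    split_ifs with hb
    · rw [mul_one]
    · rw [mul_zero, smul_zero]
  simp only [h, Finset.sum_add_distrib, Finset.sum_ite_eq, Finset.mem_univ, if_true]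

/-- for circle invariant functions -/
theorem Cinv.dzbD {G : Sm U} (h : Cinv k G) (j : Fin n) :
    VS k (dzbD j G) = VbS k (dzbD j G) + (k j : ℂ) • YTDA.dzbD j G := by
  rw [← dzbD_VS, ← dzbD_VbS, h]

theorem Cinv.dzD_VS {G : Sm U} (h : Cinv k G) (j : Fin n) :
    dzD j (VS k G) = VbS k (dzD j G) := by
  rw [h, dzD_VbS]

/-- circle invariance in the usual sense -/
theorem Cinv.of_inv (G : Sm U)
    (h : ∀ z ∈ U, ∀ c : ℂˣ, ‖(c : ℂ)‖ = 1 → ext G.1 (dact k c z) = ext G.1 z) : Cinv k G := by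
  apply Sm.ext'
  intro z
  set f : ℝ → E n := fun θ b => exp (((k b : ℝ) * θ : ℝ) * I) * (z : E n) b with hf
  have hf0 : f 0 = z := by
    funext b
    simp [hf]
  have hfd : HasDerivAt f (fun b => (k b : ℂ) * I * (z : E n) b) 0 := by
    rw [hasDerivAt_pi]
    intro b
    have h1 : HasDerivAt (fun θ : ℝ => (((k b : ℝ) * θ : ℝ) : ℂ) * I) ((k b : ℝ) * I) 0 := by
      have h2 : HasDerivAt (fun θ : ℝ => (((k b : ℝ) * θ : ℝ) : ℂ)) ((k b : ℝ) : ℂ) 0 := by
        have := ((hasDerivAt_id (0 : ℝ)).const_mul (k b : ℝ)).ofReal_comp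
        simpa using this
      exact h2.mul_const I
    have h3 := (h1.cexp).mul_const ((z : E n) b)
    simp only [mul_zero, ofReal_zero, zero_mul, Complex.exp_zero, one_mul] at h3
    simp only [hf]
    have e : ((k b : ℝ) : ℂ) = (k b : ℂ) := by push_cast; rfl
    rw [← e]
    exact h3
  have hc : ∀ θ : ℝ, ext G.1 (f θ) = ext G.1 z := by
    intro θ
    have hu : exp ((θ : ℂ) * I) ≠ 0 := exp_ne_zero _
    have := h z z.2 (Units.mk0 _ hu) (by
      rw [Units.val_mk0, norm_exp_ofReal_mul_I])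
    rw [← this]
    congr 1
    funext b
    simp only [hf, dact, Units.val_zpow_eq_zpow_val, Units.val_mk0]
    rw [← exp_int_mul]
    congr 2
    push_cast
    ring
  have hd : fderiv ℝ (ext G.1) z (fun b => (k b : ℂ) * I * (z : E n) b) = 0 := by
    have h1 : HasFDerivAt (ext G.1) (fderiv ℝ (ext G.1) (f 0)) (f 0) := by
      rw [hf0]
      exact (diffAt_ext G z.2).hasFDerivAt
    have h2 := h1.comp_hasDerivAt (0 : ℝ) hfd
    have h3 : (ext G.1 ∘ f) = fun _ => ext G.1 z := funext hc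
    rw [h3] at h2
    have h4 := h2.unique (hasDerivAt_const _ _)
    rwa [hf0] at h4
  rw [fderiv_eq_dz_dzb] at hd
  have e1 : (VS k G).1 z = ∑ b, (k b : ℂ) * ((z : E n) b * dz b (ext G.1) z) := by
    rw [VS, Sm.sum_apply]
    refine Finset.sum_congr rfl fun b _ => ?_
    rw [Sm.smul_apply, Sm.mul_apply, co_apply, dzD_apply]
  have e2 : (VbS k G).1 z = ∑ b, (k b : ℂ) * ((starRingEnd ℂ) ((z : E n) b) *
      dzb b (ext G.1) z) := by
    rw [VbS, Sm.sum_apply]
    refine Finset.sum_congr rfl fun b _ => ?_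
    rw [Sm.smul_apply, Sm.mul_apply, star_apply, co_apply, dzbD_apply]
  rw [e1, e2, ← sub_eq_zero, ← Finset.sum_sub_distrib]
  have h5 : I * ∑ b, ((k b : ℂ) * ((z : E n) b * dz b (ext G.1) z) -
      (k b : ℂ) * ((starRingEnd ℂ) ((z : E n) b) * dzb b (ext G.1) z)) = 0 := by
    rw [← hd, Finset.mul_sum]
    refine Finset.sum_congr rfl fun b _ => ?_
    simp only [map_mul, conj_I, map_intCast]
    ring
  exact (mul_eq_zero.1 h5).resolve_left I_ne_zero

end Vec

section Four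

/-- the base coordinates -/
def bse (b : Fin 2) : Fin 4 := b.castSucc.castSucc

/-- the fibre coordinates -/
def fib (p : Fin 2) : Fin 4 := if p = 0 then 2 else 3

/-- the signs -/
def sgR (p : Fin 2) : ℂ := if p = 0 then 3 else -3

theorem bse_ne_fib (b p : Fin 2) : bse b ≠ fib p := by
  revert b p
  decide

theorem bse_inj {b b' : Fin 2} : bse b = bse b' ↔ b = b' := by
  revert b b'
  decide

theorem fib_inj {p p' : Fin 2} : fib p = fib p' ↔ p = p' := by
  revert p p'
  decide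

/-- projection to the base -/
def prB (z : E 4) : E 2 := fun b => z (bse b)

theorem continuous_prB : Continuous prB := continuous_pi fun _ => continuous_apply _

/-- the domain of the chart -/
def Om (U : Opens (E 2)) : Opens (E 4) := ⟨prB ⁻¹' U, U.isOpen.preimage continuous_prB⟩

/-- `3 (log (1 + |z_2|²) - log (1 + |z_3|²))` -/
def tR (z : E 4) : ℝ := 3 * (Real.log (1 + ‖z 2‖ ^ 2) - Real.log (1 + ‖z 3‖ ^ 2))

variable {Ω : Opens (E 4)}

/-- the same as an element of the algebra of smooth functions -/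
def tS : Sm Ω := ∑ p, sgR p • lS (fib p)

theorem tS_apply (z : Ω) : (tS : Sm Ω).1 z = (tR z : ℝ) := by
  rw [tS, Sm.sum_apply, Fin.sum_univ_two, Sm.smul_apply, Sm.smul_apply, lS_apply, lS_apply, tR]
  simp only [sgR, fib, if_true, one_ne_zero, if_false]
  push_cast
  ring

theorem star_tS : star (tS : Sm Ω) = tS := by
  apply Sm.ext'
  intro z
  rw [star_apply, tS_apply, conj_ofReal]

theorem der_tS (δ : Derivation ℂ (Sm Ω) (Sm Ω)) : δ tS = ∑ p, sgR p • δ (lS (fib p)) := by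
  rw [tS, map_sum]
  exact Finset.sum_congr rfl fun p _ => Derivation.map_smul _ _ _

theorem dzD_bse_tS (i : Fin 2) : dzD (bse i) (tS : Sm Ω) = 0 := by
  rw [der_tS]
  simp only [dzD_lS_of_ne (bse_ne_fib i _), smul_zero, Finset.sum_const_zero]

theorem dzbD_bse_tS (i : Fin 2) : dzbD (bse i) (tS : Sm Ω) = 0 := by
  rw [der_tS]
  simp only [dzbD_lS_of_ne (bse_ne_fib i _), smul_zero, Finset.sum_const_zero]

theorem dzD_fib_tS (p : Fin 2) : dzD (fib p) (tS : Sm Ω) =
    sgR p • (vS (fib p) * star (co (fib p))) := by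
  rw [der_tS, Finset.sum_eq_single p]
  · rw [dzD_lS]
  · intro q _ hq
    rw [dzD_lS_of_ne (fun h => hq (fib_inj.1 h).symm), smul_zero]
  · intro h
    exact absurd (Finset.mem_univ _) h

theorem dzbD_fib_tS (p : Fin 2) : dzbD (fib p) (tS : Sm Ω) =
    sgR p • (vS (fib p) * co (fib p)) := by
  rw [der_tS, Finset.sum_eq_single p]
  · rw [dzbD_lS]
  · intro q _ hq
    rw [dzbD_lS_of_ne (fun h => hq (fib_inj.1 h).symm), smul_zero]
  · intro h
    exact absurd (Finset.mem_univ _) h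

theorem dzD_fib_dzbD_fib_tS (p q : Fin 2) : dzD (fib p) (dzbD (fib q) (tS : Sm Ω)) =
    if p = q then sgR p • (vS (fib p) * vS (fib p)) else 0 := by
  rw [dzbD_fib_tS, ← dzbD_lS, Derivation.map_smul]
  split_ifs with h
  · subst h
    rw [hess_lS]
  · rw [hess_lS_of_ne (fun h' => h (fib_inj.1 h')), smul_zero]

theorem dzD_bse_dzbD_fib_tS (i q : Fin 2) : dzD (bse i) (dzbD (fib q) (tS : Sm Ω)) = 0 := by
  rw [dzbD_fib_tS, ← dzbD_lS, Derivation.map_smul, hess_lS_of_ne (bse_ne_fib i q), smul_zero]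

/-- `log (1 + |z_2|²) + log (1 + |z_3|²)` -/
def rS : Sm Ω := ∑ p, lS (fib p)

theorem rS_apply (z : Ω) : (rS : Sm Ω).1 z =
    (Real.log (1 + ‖(z : E 4) 2‖ ^ 2) + Real.log (1 + ‖(z : E 4) 3‖ ^ 2) : ℝ) := by
  rw [rS, Sm.sum_apply, Fin.sum_univ_two, lS_apply, lS_apply]
  simp only [fib, if_true, one_ne_zero, if_false]
  push_cast
  ring

theorem der_rS (δ : Derivation ℂ (Sm Ω) (Sm Ω)) : δ rS = ∑ p, δ (lS (fib p)) := by
  rw [rS, map_sum]

theorem dzbD_bse_rS (i : Fin 2) : dzbD (bse i) (rS : Sm Ω) = 0 := by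
  rw [der_rS]
  simp only [dzbD_lS_of_ne (bse_ne_fib i _), Finset.sum_const_zero]

theorem dzbD_fib_rS (p : Fin 2) : dzbD (fib p) (rS : Sm Ω) = dzbD (fib p) (lS (fib p)) := by
  rw [der_rS, Finset.sum_eq_single p]
  · intro q _ hq
    rw [dzbD_lS_of_ne (fun h => hq (fib_inj.1 h).symm)]
  · intro h
    exact absurd (Finset.mem_univ _) h

theorem dzD_bse_dzbD_fib_rS (i q : Fin 2) : dzD (bse i) (dzbD (fib q) (rS : Sm Ω)) = 0 := by
  rw [dzbD_fib_rS, hess_lS_of_ne (bse_ne_fib i q)]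

theorem dzD_fib_dzbD_fib_rS (p q : Fin 2) : dzD (fib p) (dzbD (fib q) (rS : Sm Ω)) =
    if p = q then vS (fib p) * vS (fib p) else 0 := by
  rw [dzbD_fib_rS]
  split_ifs with h
  · subst h
    rw [hess_lS]
  · rw [hess_lS_of_ne (fun h' => h (fib_inj.1 h'))]

variable (k : Fin 2 → ℤ)

/-- `e^{k_b t / 2}` -/
def eS (b : Fin 2) : Sm Ω := expS ((k b / 2 : ℂ) • tS)

theorem eS_apply (b : Fin 2) (z : Ω) : (eS k b : Sm Ω).1 z = exp ((k b / 2 : ℂ) * tR z) := by
  rw [eS, expS_apply, Sm.smul_apply, tS_apply]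

theorem star_eS (b : Fin 2) : star (eS k b : Sm Ω) = eS k b := by
  rw [eS, star_expS, star_smul, star_tS]
  congr 2
  simp

theorem DS_eS {δ : Derivation ℂ (Sm Ω) (Sm Ω)} (h : δ ∈ DS Ω) (b : Fin 2) :
    δ (eS k b) = (k b / 2 : ℂ) • (eS k b * δ tS) := by
  rw [eS, DS_expS h, Derivation.map_smul, mul_smul_comm]

/-- the map `z ↦ e^{k t / 2} z` -/
def tau (z : E 4) : E 2 := fun b => exp ((k b / 2 : ℂ) * tR z) * prB z b

theorem tau_eq_dact (z : E 4) : tau k z =
    dact k (Units.mk0 (exp ((tR z : ℂ) / 2)) (exp_ne_zero _)) (prB z) := by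
  funext b
  simp only [tau, dact, Units.val_zpow_eq_zpow_val, Units.val_mk0]
  rw [← exp_int_mul]
  congr 2
  ring

theorem smooth_tau : ContDiffOn ℝ ∞ (tau k) Ω := by
  rw [contDiffOn_pi]
  intro b
  refine (smooth_ext (eS k b * co (bse b) : Sm Ω)).congr fun z hz => ?_
  rw [ext_mk _ hz, Sm.mul_apply, eS_apply, co_apply]
  rfl

variable {U : Opens (E 2)} {k}

theorem mapsTo_tau (hdom : ∀ z ∈ U, ∀ c : ℂˣ, dact k c z ∈ U) : MapsTo (tau k) (Om U) U := by
  intro z hz
  rw [tau_eq_dact]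
  exact hdom _ hz _

variable (hdom : ∀ z ∈ U, ∀ c : ℂˣ, dact k c z ∈ U)

/-- pull-back of functions from the base -/
def pl : Sm U →ₐ[ℂ] Sm (Om U) := pull (smooth_tau k) (mapsTo_tau hdom)

theorem coS_tau (b : Fin 2) :
    coS (Ω := Om U) (smooth_tau k) b = eS k b * co (bse b) := by
  apply Sm.ext'
  intro z
  rw [coS_apply, Sm.mul_apply, eS_apply, co_apply]
  rfl

theorem pl_co (b : Fin 2) : pl hdom (co b) = eS k b * co (bse b) := by
  apply Sm.ext'
  intro z
  rw [pl, pull_apply, co_apply, Sm.mul_apply, eS_apply, co_apply]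
  rfl

theorem pl_star (f : Sm U) : pl hdom (star f) = star (pl hdom f) := (star_pull _ _ f).symm

theorem pl_smul (c : ℂ) (f : Sm U) : pl hdom (c • f) = c • pl hdom f := map_smul _ _ _

theorem pl_VS (G : Sm U) : pl hdom (VS k G) =
    ∑ b, (k b : ℂ) • (eS k b * co (bse b) * pl hdom (dzD b G)) := by
  rw [VS, map_sum]
  refine Finset.sum_congr rfl fun b _ => ?_
  rw [pl_smul, map_mul, pl_co]

theorem pl_VbS (G : Sm U) : pl hdom (VbS k G) =
    ∑ b, (k b : ℂ) • (eS k b * star (co (bse b)) * pl hdom (dzbD b G)) := by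
  rw [VbS, map_sum]
  refine Finset.sum_congr rfl fun b _ => ?_
  rw [pl_smul, map_mul, pl_star, pl_co, star_mul', star_eS]

theorem DS_pl {δ : Derivation ℂ (Sm (Om U)) (Sm (Om U))} (hδ : δ ∈ DS (Om U)) (G : Sm U) :
    δ (pl hdom G) = (1 / 2 : ℂ) • (pl hdom (VS k G + VbS k G) * δ tS) +
      ∑ b, (pl hdom (dzD b G) * eS k b * δ (co (bse b)) +
        pl hdom (dzbD b G) * eS k b * δ (star (co (bse b)))) := by
  have h1 : δ (pl hdom G) = ∑ b, (pl hdom (dzD b G) * δ (coS (Ω := Om U) (smooth_tau k) b) +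
      pl hdom (dzbD b G) * δ (star (coS (smooth_tau k) b))) :=
    DS_pull (smooth_tau k) (mapsTo_tau hdom) hδ G
  rw [map_add, pl_VS, pl_VbS, ← Finset.sum_add_distrib, Finset.sum_mul, Finset.smul_sum,
    ← Finset.sum_add_distrib]
  refine h1.trans (Finset.sum_congr rfl fun b _ => ?_)
  have hk : (k b / 2 : ℂ) = 1 / 2 * (k b : ℂ) := by ring
  rw [coS_tau, star_mul', star_eS, Derivation.leibniz, Derivation.leibniz, DS_eS k hδ, hk]
  simp only [smul_eq_mul, Algebra.smul_def, map_mul]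
  ring

theorem dzD_bse_pl (i : Fin 2) (G : Sm U) :
    dzD (bse i) (pl hdom G) = pl hdom (dzD i G) * eS k i := by
  rw [DS_pl hdom (dzD_mem_DS _), dzD_bse_tS, mul_zero, smul_zero, zero_add,
    Finset.sum_eq_single i]
  · rw [dzD_co, dzD_star_co, if_pos rfl, mul_one, mul_zero, add_zero]
  · intro b _ hb
    rw [dzD_co, dzD_star_co, if_neg (fun h => hb (bse_inj.1 h).symm), mul_zero, mul_zero, add_zero]
  · intro h
    exact absurd (Finset.mem_univ _) h

theorem dzbD_bse_pl (i : Fin 2) (G : Sm U) :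
    dzbD (bse i) (pl hdom G) = pl hdom (dzbD i G) * eS k i := by
  rw [DS_pl hdom (dzbD_mem_DS _), dzbD_bse_tS, mul_zero, smul_zero, zero_add,
    Finset.sum_eq_single i]
  · rw [dzbD_co, dzbD_star_co, if_pos rfl, mul_one, mul_zero, zero_add]
  · intro b _ hb
    rw [dzbD_co, dzbD_star_co, if_neg (fun h => hb (bse_inj.1 h).symm), mul_zero, mul_zero,
      add_zero]
  · intro h
    exact absurd (Finset.mem_univ _) h

theorem dzD_fib_pl (p : Fin 2) (G : Sm U) :
    dzD (fib p) (pl hdom G) = (1 / 2 : ℂ) • (pl hdom (VS k G + VbS k G) * dzD (fib p) tS) := by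
  rw [DS_pl hdom (dzD_mem_DS _), Finset.sum_eq_zero, add_zero]
  intro b _
  rw [dzD_co, dzD_star_co, if_neg (bse_ne_fib b p).symm, mul_zero, mul_zero, add_zero]

theorem dzbD_fib_pl (p : Fin 2) (G : Sm U) :
    dzbD (fib p) (pl hdom G) = (1 / 2 : ℂ) • (pl hdom (VS k G + VbS k G) * dzbD (fib p) tS) := by
  rw [DS_pl hdom (dzbD_mem_DS _), Finset.sum_eq_zero, add_zero]
  intro b _
  rw [dzbD_co, dzbD_star_co, if_neg (bse_ne_fib b p).symm, mul_zero, mul_zero, add_zero]

theorem dzbD_fib_pl' (p : Fin 2) {G : Sm U} (hG : Cinv k G) :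
    dzbD (fib p) (pl hdom G) = pl hdom (VS k G) * dzbD (fib p) tS := by
  rw [dzbD_fib_pl, ← hG, ← two_smul ℂ (VS k G), pl_smul, smul_mul_assoc, smul_smul]
  norm_num

end Four

end

end Pool.Agent.YTDA
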