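import Pool.Agent.YTDA.RedMain

/-!
# Circle invariance of the functions derived from a circle invariant potential
-/

namespace Pool.Agent.YTDA

open Complex Set Topology ContDiff ComplexOrder TopologicalSpace Matrix

noncomputable section

set_option linter.unusedSectionVars false

section Gen

variable {n : ℕ} {U : Opens (E n)} (k : Fin n → ℤ)

/-- the generator of the circle action -/
def LS : Derivation ℂ (Sm U) (Sm U) :=
  ∑ b, (k b : ℂ) • ((co b : Sm U) • dzD b - (star (co b) : Sm U) • dzbD b)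

theorem der_sum_apply (δ : Fin n → Derivation ℂ (Sm U) (Sm U)) (G : Sm U) :
    (∑ b, δ b) G = ∑ b, δ b G := by
  have h := congrFun (map_sum (Derivation.coeFnAddMonoidHom (R := ℂ) (A := Sm U) (M := Sm U))
    δ Finset.univ) G
  rw [Finset.sum_apply] at h
  exact h

theorem LS_eq (G : Sm U) : LS k G = VS k G - VbS k G := by
  rw [LS, der_sum_apply]
  simp only [VS, VbS, ← Finset.sum_sub_distrib]
  refine Finset.sum_congr rfl fun b _ => ?_
  simp only [Derivation.coe_smul, Pi.smul_apply, Derivation.coe_sub, Pi.sub_apply, smul_eq_mul,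
    smul_sub]

theorem cinv_iff (G : Sm U) : Cinv k G ↔ LS k G = 0 := by
  rw [LS_eq, Cinv, sub_eq_zero]

theorem LS_mem_DS : (LS k : Derivation ℂ (Sm U) (Sm U)) ∈ DS U := by
  refine Submodule.sum_mem _ fun b _ => ?_
  have h : ∀ (c : ℂ) (δ : Derivation ℂ (Sm U) (Sm U)), δ ∈ DS U → c • δ ∈ DS U := by
    intro c δ hδ
    have : c • δ = (algebraMap ℂ (Sm U) c) • δ := by
      apply Derivation.ext
      intro f
      simp only [Derivation.smul_apply, algebraMap_smul]
    rw [this]
    exact Submodule.smul_mem _ _ hδ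
  exact h _ _ (Submodule.sub_mem _ (Submodule.smul_mem _ _ (dzD_mem_DS b))
    (Submodule.smul_mem _ _ (dzbD_mem_DS b)))

theorem dzD_VS' (G : Sm U) (j : Fin n) :
    dzD j (VS k G) = VS k (dzD j G) + (k j : ℂ) • dzD j G := by
  simp only [VS, map_sum]
  have h : ∀ b, dzD j ((k b : ℂ) • (co b * dzD b G)) =
      (k b : ℂ) • (co b * dzD b (dzD j G)) + if j = b then (k b : ℂ) • dzD b G else 0 := by
    intro b
    rw [Derivation.map_smul, Derivation.leibniz, dzD_co, smul_eq_mul, smul_eq_mul,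
      dzD_comm, smul_add]
    split_ifs with hb
    · rw [mul_one]
    · rw [mul_zero, smul_zero]
  simp only [h, Finset.sum_add_distrib, Finset.sum_ite_eq, Finset.mem_univ, if_true]

theorem LS_dzD (G : Sm U) (i : Fin n) : LS k (dzD i G) = dzD i (LS k G) - (k i : ℂ) • dzD i G := by
  rw [LS_eq, LS_eq, map_sub, dzD_VS', dzD_VbS]
  abel

theorem LS_dzbD (G : Sm U) (j : Fin n) :
    LS k (dzbD j G) = dzbD j (LS k G) + (k j : ℂ) • dzbD j G := by
  rw [LS_eq, LS_eq, map_sub, dzbD_VS, dzbD_VbS]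
  abel

theorem VS_co (j : Fin n) : VS k (co j : Sm U) = (k j : ℂ) • co j := by
  rw [VS, Finset.sum_eq_single j]
  · rw [dzD_co, if_pos rfl, mul_one]
  · intro b _ hb
    rw [dzD_co, if_neg hb, mul_zero, smul_zero]
  · intro h
    exact absurd (Finset.mem_univ _) h

theorem VbS_co (j : Fin n) : VbS k (co j : Sm U) = 0 := by
  rw [VbS]
  refine Finset.sum_eq_zero fun b _ => ?_
  rw [dzbD_co, mul_zero, smul_zero]

variable {k} {G G' : Sm U}

theorem Cinv.LS (h : Cinv k G) : LS k G = 0 := (cinv_iff k G).1 h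

theorem Cinv.mul (h : Cinv k G) (h' : Cinv k G') : Cinv k (G * G') := by
  rw [cinv_iff, Derivation.leibniz, h.LS, h'.LS, smul_zero, smul_zero, add_zero]

theorem Cinv.sub (h : Cinv k G) (h' : Cinv k G') : Cinv k (G - G') := by
  rw [cinv_iff, map_sub, h.LS, h'.LS, sub_zero]

theorem Cinv.smul (c : ℂ) (h : Cinv k G) : Cinv k (c • G) := by
  rw [cinv_iff, Derivation.map_smul, h.LS, smul_zero]

theorem Cinv.const (c : ℂ) : Cinv k (algebraMap ℂ (Sm U) c) := by
  rw [cinv_iff, Derivation.map_algebraMap]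

theorem Cinv.logS (h : Cinv k G) (hG : ∀ z, 0 < G.1 z) : Cinv k (YTDA.logS G hG) := by
  rw [cinv_iff]
  have h1 := mul_DS_logS (LS_mem_DS k) G hG
  rw [h.LS] at h1
  exact (isUnit_of_pos hG).mul_left_cancel (h1.trans (mul_zero _).symm)

theorem Cinv.VS (h : Cinv k G) : Cinv k (VS k G) := by
  rw [cinv_iff, YTDA.VS, map_sum]
  refine Finset.sum_eq_zero fun b _ => ?_
  rw [Derivation.map_smul, Derivation.leibniz, LS_dzD, h.LS, map_zero, LS_eq, VS_co, VbS_co]
  simp only [smul_eq_mul, Algebra.smul_def]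
  ring

theorem Cinv.LS_hess (h : Cinv k G) (i j : Fin n) :
    YTDA.LS k (dzD i (YTDA.dzbD j G)) = ((k j - k i : ℤ) : ℂ) • dzD i (YTDA.dzbD j G) := by
  rw [LS_dzD, LS_dzbD, h.LS, map_zero, zero_add, Derivation.map_smul, ← sub_smul]
  push_cast
  rfl

theorem Cinv.det (h : Cinv k G) : Cinv k (hessS G).det := by
  rw [cinv_iff, der_det]
  have h1 : ∀ i j, (hessS G).adjugate i j * YTDA.LS k (hessS G j i) =
      (k i : ℂ) • ((hessS G).adjugate i j * hessS G j i) -
      (k j : ℂ) • ((hessS G j i) * (hessS G).adjugate i j) := by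
    intro i j
    rw [hessS_apply, Cinv.LS_hess h]
    push_cast
    rw [sub_smul]
    simp only [Algebra.smul_def]
    ring
  simp only [h1, Finset.sum_sub_distrib]
  have h2 : ∀ i, ∑ j, (k i : ℂ) • ((hessS G).adjugate i j * hessS G j i) =
      (k i : ℂ) • (hessS G).det := by
    intro i
    rw [← Finset.smul_sum]
    have := congrFun (congrFun (adjugate_mul (hessS G)) i) i
    rw [Matrix.mul_apply, Matrix.smul_apply, Matrix.one_apply_eq, smul_eq_mul, mul_one] at this
    rw [this]
  have h3 : ∀ j, ∑ i, (k j : ℂ) • (hessS G j i * (hessS G).adjugate i j) =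
      (k j : ℂ) • (hessS G).det := by
    intro j
    rw [← Finset.smul_sum]
    have := congrFun (congrFun (mul_adjugate (hessS G)) j) j
    rw [Matrix.mul_apply, Matrix.smul_apply, Matrix.one_apply_eq, smul_eq_mul, mul_one] at this
    rw [this]
  rw [Finset.sum_congr rfl fun i _ => h2 i, Finset.sum_comm (f := fun i j =>
    (k j : ℂ) • (hessS G j i * (hessS G).adjugate i j)), Finset.sum_congr rfl fun j _ => h3 j,
    sub_self]

end Gen

end

end Pool.Agent.YTDA
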