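import Pool.Agent.YTDA.RedHess

/-!
# The Hessian of `a (l₁ + l₂) + b t + ψ(e^{k t / 2} z)`, `t = 3 (l₁ - l₂)`
-/

namespace Pool.Agent.YTDA

open Complex Set Topology ContDiff ComplexOrder TopologicalSpace Matrix

noncomputable section

set_option linter.unusedSectionVars false

variable {U : Opens (E 2)} {k : Fin 2 → ℤ} (hdom : ∀ z ∈ U, ∀ c : ℂˣ, dact k c z ∈ U)

/-- `a (l₂ + l₃) + b t + ψ(e^{k t / 2} z)` -/
def PS (a b : ℂ) (ψ : Sm U) : Sm (Om U) := a • rS + b • tS + pl hdom ψ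

variable (a b : ℂ) (ψ : Sm U)

theorem dzbD_bse_PS (j : Fin 2) :
    dzbD (bse j) (PS hdom a b ψ) = pl hdom (dzbD j ψ) * eS k j := by
  rw [PS, map_add, map_add, Derivation.map_smul, Derivation.map_smul, dzbD_bse_rS, dzbD_bse_tS,
    smul_zero, smul_zero, zero_add, zero_add, dzbD_bse_pl]

theorem dzD_bse_eS (i j : Fin 2) : dzD (bse i) (eS k j : Sm (Om U)) = 0 := by
  rw [DS_eS k (dzD_mem_DS _), dzD_bse_tS, mul_zero, smul_zero]

theorem hess_bb (i j : Fin 2) : dzD (bse i) (dzbD (bse j) (PS hdom a b ψ)) =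
    pl hdom (dzD i (dzbD j ψ)) * eS k i * eS k j := by
  rw [dzbD_bse_PS, Derivation.leibniz, dzD_bse_eS, smul_zero, zero_add, dzD_bse_pl, smul_eq_mul]
  ring

variable {ψ} (hψ : Cinv k ψ)

include hψ in
theorem dzbD_fib_PS (q : Fin 2) : dzbD (fib q) (PS hdom a b ψ) =
    a • dzbD (fib q) (rS : Sm (Om U)) + b • dzbD (fib q) tS + pl hdom (VS k ψ) * dzbD (fib q) tS := by
  rw [PS, map_add, map_add, Derivation.map_smul, Derivation.map_smul, dzbD_fib_pl' hdom q hψ]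

include hψ in
theorem hess_fb (p j : Fin 2) : dzD (fib p) (dzbD (bse j) (PS hdom a b ψ)) =
    dzD (fib p) tS * ∑ i, (k i : ℂ) • (co (bse i) *
      (pl hdom (dzD i (dzbD j ψ)) * eS k i * eS k j)) := by
  have h1 : dzD (fib p) (dzbD (bse j) (PS hdom a b ψ)) =
      dzD (fib p) tS * (pl hdom (VS k (dzbD j ψ)) * eS k j) := by
    have h2 := Cinv.dzbD k hψ j
    have h3 : VS k (dzbD j ψ) + VbS k (dzbD j ψ) = (2 : ℂ) • VS k (dzbD j ψ) - (k j : ℂ) • dzbD j ψ := by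
      rw [two_smul, h2]
      abel
    rw [dzbD_bse_PS, Derivation.leibniz, DS_eS k (dzD_mem_DS _), dzD_fib_pl, h3, map_sub, pl_smul,
      pl_smul]
    have hk : (k j / 2 : ℂ) = 1 / 2 * (k j : ℂ) := by ring
    have h4 : algebraMap ℂ (Sm (Om U)) (1 / 2) * algebraMap ℂ (Sm (Om U)) 2 = 1 := by
      rw [← map_mul]
      norm_num
    rw [hk]
    simp only [smul_eq_mul, Algebra.smul_def, map_mul]
    linear_combination (dzD (fib p) tS * (pl hdom (VS k (dzbD j ψ)) * eS k j)) * h4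
  rw [h1, pl_VS, Finset.sum_mul]
  congr 1
  refine Finset.sum_congr rfl fun i _ => ?_
  simp only [Algebra.smul_def]
  ring

include hψ in
theorem hess_bf (i q : Fin 2) : dzD (bse i) (dzbD (fib q) (PS hdom a b ψ)) =
    dzbD (fib q) tS * ∑ j, (k j : ℂ) • (star (co (bse j)) *
      (pl hdom (dzD i (dzbD j ψ)) * eS k i * eS k j)) := by
  rw [dzbD_fib_PS hdom a b hψ, map_add, map_add, Derivation.map_smul, Derivation.map_smul,
    dzD_bse_dzbD_fib_rS, dzD_bse_dzbD_fib_tS, smul_zero, smul_zero, zero_add, zero_add,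
    Derivation.leibniz, dzD_bse_dzbD_fib_tS, smul_zero, zero_add, dzD_bse_pl,
    Cinv.dzD_VS k hψ i, pl_VbS, smul_eq_mul, Finset.sum_mul]
  congr 1
  refine Finset.sum_congr rfl fun j _ => ?_
  rw [← dzD_dzbD_comm]
  simp only [Algebra.smul_def]
  ring

include hψ in
theorem hess_ff (p q : Fin 2) : dzD (fib p) (dzbD (fib q) (PS hdom a b ψ)) =
    (if p = q then (algebraMap ℂ _ a + sgR p • (algebraMap ℂ _ b + pl hdom (VS k ψ))) *
      (vS (fib p) * vS (fib p)) else 0) +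
    dzD (fib p) tS * dzbD (fib q) tS * ∑ i, ∑ j, ((k i : ℂ) * (k j : ℂ)) •
      (co (bse i) * star (co (bse j)) * (pl hdom (dzD i (dzbD j ψ)) * eS k i * eS k j)) := by
  have e1 : VS k (VS k ψ) = ∑ i, ∑ j, ((k i : ℂ) * (k j : ℂ)) •
      (co i * star (co j) * dzD i (dzbD j ψ)) := by
    rw [VS]
    refine Finset.sum_congr rfl fun i _ => ?_
    rw [Cinv.dzD_VS k hψ i, VbS, Finset.mul_sum, Finset.smul_sum]
    refine Finset.sum_congr rfl fun j _ => ?_
    rw [← dzD_dzbD_comm]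
    simp only [Algebra.smul_def, map_mul]
    ring
  have e2 : VbS k (VS k ψ) = ∑ i, ∑ j, ((k i : ℂ) * (k j : ℂ)) •
      (co i * star (co j) * dzD i (dzbD j ψ)) := by
    rw [VbS, Finset.sum_comm]
    refine Finset.sum_congr rfl fun j _ => ?_
    rw [dzbD_VS, VS, Finset.mul_sum, Finset.smul_sum]
    refine Finset.sum_congr rfl fun i _ => ?_
    simp only [Algebra.smul_def, map_mul]
    ring
  have e3 : pl hdom (VS k (VS k ψ)) = ∑ i, ∑ j, ((k i : ℂ) * (k j : ℂ)) •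
      (co (bse i) * star (co (bse j)) * (pl hdom (dzD i (dzbD j ψ)) * eS k i * eS k j)) := by
    rw [e1, map_sum]
    refine Finset.sum_congr rfl fun i _ => ?_
    rw [map_sum]
    refine Finset.sum_congr rfl fun j _ => ?_
    rw [pl_smul, map_mul, map_mul, pl_star, pl_co, pl_co, star_mul', star_eS]
    simp only [Algebra.smul_def, map_mul]
    ring
  have e4 : VS k (VS k ψ) + VbS k (VS k ψ) = (2 : ℂ) • VS k (VS k ψ) := by
    rw [e2, ← e1, two_smul]
  rw [dzbD_fib_PS hdom a b hψ, map_add, map_add, Derivation.map_smul, Derivation.map_smul,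
    dzD_fib_dzbD_fib_rS, dzD_fib_dzbD_fib_tS, Derivation.leibniz, dzD_fib_dzbD_fib_tS,
    dzD_fib_pl, e4, pl_smul, ← e3]
  have h4 : algebraMap ℂ (Sm (Om U)) (1 / 2) * algebraMap ℂ (Sm (Om U)) 2 = 1 := by
    rw [← map_mul]
    norm_num
  split_ifs with h
  · simp only [smul_eq_mul, Algebra.smul_def]
    linear_combination (dzbD (fib q) tS * (pl hdom (VS k (VS k ψ)) * dzD (fib p) tS)) * h4
  · simp only [smul_eq_mul, Algebra.smul_def]
    linear_combination (dzbD (fib q) tS * (pl hdom (VS k (VS k ψ)) * dzD (fib p) tS)) * h4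

/-- the determinant -/
theorem det_four {R : Type*} [CommRing R] (M : Matrix (Fin 4) (Fin 4) R)
    (x y : Fin 2 → R) (s r : Fin 2 → R) (d : Fin 2 → R)
    (h1 : ∀ p j : Fin 2, M (fib p) (bse j) = s p * ∑ i, x i * M (bse i) (bse j))
    (h2 : ∀ i q : Fin 2, M (bse i) (fib q) = r q * ∑ j, y j * M (bse i) (bse j))
    (h3 : ∀ p q : Fin 2, M (fib p) (fib q) = (if p = q then d p else 0) +
      s p * r q * ∑ i, ∑ j, x i * y j * M (bse i) (bse j)) :
    M.det = (M (bse 0) (bse 0) * M (bse 1) (bse 1) - M (bse 0) (bse 1) * M (bse 1) (bse 0)) *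
      (d 0 * d 1) := by
  have a20 := h1 0 0
  have a21 := h1 0 1
  have a30 := h1 1 0
  have a31 := h1 1 1
  have a02 := h2 0 0
  have a03 := h2 0 1
  have a12 := h2 1 0
  have a13 := h2 1 1
  have a22 := h3 0 0
  have a23 := h3 0 1
  have a32 := h3 1 0
  have a33 := h3 1 1
  have b0 : bse 0 = 0 := rfl
  have b1 : bse 1 = 1 := rfl
  have f0 : fib 0 = 2 := rfl
  have f1 : fib 1 = 3 := rfl
  simp only [b0, b1, f0, f1, Fin.sum_univ_two, if_true, one_ne_zero, zero_ne_one, if_false] at *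
  have e : M = !![M 0 0, M 0 1, M 0 2, M 0 3; M 1 0, M 1 1, M 1 2, M 1 3;
      M 2 0, M 2 1, M 2 2, M 2 3; M 3 0, M 3 1, M 3 2, M 3 3] := by
    ext i j
    fin_cases i <;> fin_cases j <;> rfl
  rw [e, a20, a21, a30, a31, a02, a03, a12, a13, a22, a23, a32, a33]
  simp [det_succ_row_zero, Fin.sum_univ_succ, Fin.succAbove]
  ring

/-- the inverse of a block matrix -/
theorem inv_four (M : Matrix (Fin 4) (Fin 4) ℂ) (g : Matrix (Fin 2) (Fin 2) ℂ) (d : Fin 2 → ℂ)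
    (hg : g.det ≠ 0) (hd : ∀ p, d p ≠ 0)
    (h1 : ∀ i j : Fin 2, M (bse i) (bse j) = g i j)
    (h2 : ∀ i q : Fin 2, M (bse i) (fib q) = 0) (h3 : ∀ p j : Fin 2, M (fib p) (bse j) = 0)
    (h4 : ∀ p q : Fin 2, M (fib p) (fib q) = if p = q then d p else 0) :
    (∀ i j : Fin 2, M⁻¹ (bse i) (bse j) = g⁻¹ i j) ∧
    (∀ i q : Fin 2, M⁻¹ (bse i) (fib q) = 0) ∧ (∀ p j : Fin 2, M⁻¹ (fib p) (bse j) = 0) ∧
    (∀ p q : Fin 2, M⁻¹ (fib p) (fib q) = if p = q then (d p)⁻¹ else 0) := by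
  have hgg : g * g⁻¹ = 1 := Matrix.mul_nonsing_inv g (isUnit_iff_ne_zero.2 hg)
  have g00 := congrFun (congrFun hgg 0) 0
  have g01 := congrFun (congrFun hgg 0) 1
  have g10 := congrFun (congrFun hgg 1) 0
  have g11 := congrFun (congrFun hgg 1) 1
  simp only [Matrix.mul_apply, Fin.sum_univ_two, Matrix.one_apply, if_true, one_ne_zero,
    zero_ne_one, if_false] at g00 g01 g10 g11
  have a00 := h1 0 0
  have a01 := h1 0 1
  have a10 := h1 1 0
  have a11 := h1 1 1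
  have a20 := h3 0 0
  have a21 := h3 0 1
  have a30 := h3 1 0
  have a31 := h3 1 1
  have a02 := h2 0 0
  have a03 := h2 0 1
  have a12 := h2 1 0
  have a13 := h2 1 1
  have a22 := h4 0 0
  have a23 := h4 0 1
  have a32 := h4 1 0
  have a33 := h4 1 1
  have b0 : bse 0 = 0 := rfl
  have b1 : bse 1 = 1 := rfl
  have f0 : fib 0 = 2 := rfl
  have f1 : fib 1 = 3 := rfl
  have hd0 := hd 0
  have hd1 := hd 1
  simp only [b0, b1, f0, f1, if_true, one_ne_zero, zero_ne_one, if_false] at a00 a01 a10 a11 a20 a21 a30 a31 a02 a03 a12 a13 a22 a23 a32 a33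
  have hM : M⁻¹ = !![g⁻¹ 0 0, g⁻¹ 0 1, 0, 0; g⁻¹ 1 0, g⁻¹ 1 1, 0, 0;
      0, 0, (d 0)⁻¹, 0; 0, 0, 0, (d 1)⁻¹] := by
    apply Matrix.inv_eq_right_inv
    have e : M = !![g 0 0, g 0 1, 0, 0; g 1 0, g 1 1, 0, 0;
      0, 0, (d 0), 0; 0, 0, 0, (d 1)] := by
      ext i j
      fin_cases i <;> fin_cases j <;> assumption
    rw [e]
    ext i j
    fin_cases i <;> fin_cases j <;>
      simp [Matrix.mul_apply, Fin.sum_univ_four, g00, g01, g10, g11, hd0, hd1]
  rw [hM]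
  refine ⟨?_, ?_, ?_, ?_⟩ <;> intro i j <;> fin_cases i <;> fin_cases j <;> rfl

end

end Pool.Agent.YTDA
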