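import Pool.Agent.YTDA.Mfd2

/-!
# Gluing sections
-/

namespace Pool.Agent.YTDA

open Complex Set Topology ContDiff Filter

noncomputable section

namespace PolAtlas

variable {n : ℕ} {Y : Type} [MulAction ℂˣ Y] (A : PolAtlas n Y)

/-- the homogeneous function given by local expressions -/
def glueN (N : ℕ) (g : A.ι → E n → ℂ) (y : Y) : ℂ :=
  (((A.cover y).choose_spec.choose_spec.2.choose : ℂˣ) : ℂ) ^ N *
    g (A.cover y).choose (A.cover y).choose_spec.choose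

variable {A}

/-- The relation between the local expressions has to be checked on a dense set only. -/
theorem rel_of_dense {N : ℕ} {g : A.ι → E n → ℂ} (hg : ∀ a, ContinuousOn (g a) (A.U a))
    {G : Set (E n)} (hGo : IsOpen G) (hGd : Dense G)
    (h : ∀ a b, ∀ z ∈ A.O a b, z ∈ G → A.τ a b z ∈ G →
      g b (A.τ a b z) = (A.h a b z : ℂ) ^ N * g a z) (a b : A.ι) (z : E n) (hz : z ∈ A.O a b) :
    g b (A.τ a b z) = (A.h a b z : ℂ) ^ N * g a z := by
  have hO : A.O a b ∈ 𝓝 z := (A.O_open a b).mem_nhds hz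
  have h1 : ContinuousAt (fun w => g b (A.τ a b w)) z :=
    ((hg b).comp (A.continuousOn_τ a b) fun w hw => A.τ_mem hw).continuousAt hO
  have h2 : ContinuousAt (fun w => (A.h a b w : ℂ) ^ N * g a w) z :=
    (((A.hol_h' a b).continuousOn.pow N).mul ((hg a).mono (A.O_subset a b))).continuousAt hO
  refine tendsto_nhds_unique_of_frequently_eq h1 h2 ?_
  rw [Filter.frequently_iff]
  intro V hV
  obtain ⟨V₁, hV₁, hV₁o, hzV₁⟩ := mem_nhds_iff.1 (inter_mem hV hO)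
  obtain ⟨z₁, hz₁V, hz₁G⟩ := hGd.inter_open_nonempty V₁ hV₁o ⟨z, hzV₁⟩
  -- the image of `V₁ ∩ G`
  have hz₁O : z₁ ∈ A.O a b := (hV₁ hz₁V).2
  have hop : IsOpen (A.O b a ∩ A.τ b a ⁻¹' (V₁ ∩ G)) :=
    (A.continuousOn_τ b a).isOpen_inter_preimage (A.O_open b a) (hV₁o.inter hGo)
  obtain ⟨w, ⟨hwO, hwV⟩, hwG⟩ := hGd.inter_open_nonempty _ hop
    ⟨A.τ a b z₁, A.τ_mem_O hz₁O, by
      show A.τ b a (A.τ a b z₁) ∈ V₁ ∩ G
      rw [(A.τ_τ hz₁O).1]
      exact ⟨hz₁V, hz₁G⟩⟩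
  refine ⟨A.τ b a w, (hV₁ hwV.1).1, h a b _ (hV₁ hwV.1).2 hwV.2 ?_⟩
  rw [(A.τ_τ hwO).1]
  exact hwG

theorem glueN_eq {N : ℕ} {g : A.ι → E n → ℂ}
    (h : ∀ a b, ∀ z ∈ A.O a b, g b (A.τ a b z) = (A.h a b z : ℂ) ^ N * g a z)
    {a : A.ι} {z : E n} (hz : z ∈ A.U a) (c : ℂˣ) :
    A.glueN N g (c • A.γ a z) = (c : ℂ) ^ N * g a z := by
  set y : Y := c • A.γ a z with hy
  have hb : (A.cover y).choose_spec.choose ∈ A.U (A.cover y).choose :=
    (A.cover y).choose_spec.choose_spec.1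
  have hc : y = (A.cover y).choose_spec.choose_spec.2.choose •
      A.γ (A.cover y).choose (A.cover y).choose_spec.choose :=
    (A.cover y).choose_spec.choose_spec.2.choose_spec
  unfold glueN
  set b := (A.cover y).choose with hbdef
  set w : E n := (A.cover y).choose_spec.choose with hwdef
  set d : ℂˣ := (A.cover y).choose_spec.choose_spec.2.choose with hddef
  have h1 : A.γ b w = (d⁻¹ * c) • A.γ a z := by
    rw [← smul_smul, ← hy, hc, inv_smul_smul]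
  obtain ⟨h2, h3, h4⟩ := A.eq_τ hz hb h1
  have h5 := h a b z h2
  rw [h3, h4] at h5
  rw [h5, ← mul_assoc, ← mul_pow, ← Units.val_mul, mul_inv_cancel_left]

theorem glueN_γ {N : ℕ} {g : A.ι → E n → ℂ}
    (h : ∀ a b, ∀ z ∈ A.O a b, g b (A.τ a b z) = (A.h a b z : ℂ) ^ N * g a z)
    {a : A.ι} {z : E n} (hz : z ∈ A.U a) : A.glueN N g (A.γ a z) = g a z := by
  have := glueN_eq h hz 1
  rwa [one_smul, Units.val_one, one_pow, one_mul] at this

theorem glueN_isSec {N : ℕ} {g : A.ι → E n → ℂ}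
    (h : ∀ a b, ∀ z ∈ A.O a b, g b (A.τ a b z) = (A.h a b z : ℂ) ^ N * g a z)
    (hg : ∀ a, DifferentiableOn ℂ (g a) (A.U a)) : A.IsSec N (A.glueN N g) := by
  refine ⟨fun c y => ?_, fun a => (hg a).congr fun z hz => glueN_γ h hz⟩
  obtain ⟨a, z, hz, d, rfl⟩ := A.cover y
  rw [smul_smul, glueN_eq h hz, glueN_eq h hz]
  push_cast
  ring

/-- limits in different charts -/
theorem eq_of_tendsto (ht : A.IsT2) {a b : A.ι} {z z' : E n} (hz : z ∈ A.U a) (hz' : z' ∈ A.U b)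
    {ι : Type*} {l : Filter ι} [l.NeBot] {u u' : ι → E n} (hu : Tendsto u l (𝓝 z))
    (hu' : Tendsto u' l (𝓝 z')) (h : ∀ᶠ i in l, ∃ c : ℂˣ, A.γ b (u' i) = c • A.γ a (u i)) :
    ∃ c : ℂˣ, A.γ b z' = c • A.γ a z := by
  by_contra hcon
  push Not at hcon
  obtain ⟨V, hV, V', hV', hVV⟩ := ht a b z hz z' hz' hcon
  have h1 := hu.eventually_mem (inter_mem hV ((A.isOpen_U a).mem_nhds hz))
  have h2 := hu'.eventually_mem (inter_mem hV' ((A.isOpen_U b).mem_nhds hz'))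
  obtain ⟨i, hi, hi', c, hc⟩ := (h1.and (h2.and h)).exists
  exact hVV _ hi _ hi' c hc

end PolAtlas

end

end Pool.Agent.YTDA
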