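import Pool.Agent.YTDA.SigPts
import Pool.Agent.YTDA.NormAmp

/-!
# A finite dimensional space of sections of `L ^ N` on `X` separating points and tangent vectors
-/

namespace Pool.Agent.YTDA

open Complex Set Topology Filter Metric Module
open Pool.Agent.YTD

noncomputable section

/-! ### Separation -/

section sep

variable {n : ℕ} {Y : Type} [MulAction ℂˣ Y] {A : PolAtlas n Y}

theorem WSep.separates {W : ℤ → Set (Y → ℂ)} (hW : WSep A W) {V : Submodule ℂ (Y → ℂ)} {N : ℕ}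
    (hV : V ≤ A.secs N) (h : ∀ j, ∀ F ∈ W j, F ∈ V) : A.Separates V := by
  have hbase : ∀ y, ∃ F ∈ V, F y ≠ 0 := fun y => by
    obtain ⟨j, F, hF, hy⟩ := hW.base y
    exact ⟨F, h j F hF, hy⟩
  refine ⟨hbase, fun y y' hyy => ?_, fun a z hz v hv => ?_⟩
  · by_contra hcon
    push Not at hcon
    obtain ⟨F₀, hF₀, h0⟩ := hbase y
    obtain ⟨c, hc⟩ := hW.pts y y' (F₀ y' / F₀ y) (fun j F hF => by
      have h1 : F - (F y / F₀ y) • F₀ ∈ V := V.sub_mem (h j F hF) (V.smul_mem _ hF₀)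
      have h2 := hcon _ h1 (by
        rw [Pi.sub_apply, Pi.smul_apply, smul_eq_mul, div_mul_cancel₀ _ h0, sub_self])
      rw [Pi.sub_apply, Pi.smul_apply, smul_eq_mul, sub_eq_zero] at h2
      rw [h2]
      ring)
    exact hyy c hc
  · by_contra hcon
    push Not at hcon
    obtain ⟨F₀, hF₀, h0⟩ := hbase (A.γ a z)
    have hd : ∀ F ∈ V, DifferentiableAt ℂ (fun w => F (A.γ a w)) z := fun F hF =>
      (((hV hF).hol a z hz).differentiableAt ((A.isOpen_U a).mem_nhds hz))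
    refine hv (hW.tan a z hz v (fderiv ℂ (fun w => F₀ (A.γ a w)) z v / F₀ (A.γ a z)) ?_)
    intro j F hF
    have h1 : F - (F (A.γ a z) / F₀ (A.γ a z)) • F₀ ∈ V :=
      V.sub_mem (h j F hF) (V.smul_mem _ hF₀)
    have h2 := hcon _ h1 (by
      rw [Pi.sub_apply, Pi.smul_apply, smul_eq_mul, div_mul_cancel₀ _ h0, sub_self])
    have h3 : HasFDerivAt (fun w => (F - (F (A.γ a z) / F₀ (A.γ a z)) • F₀) (A.γ a w))
        (fderiv ℂ (fun w => F (A.γ a w)) z -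
          (F (A.γ a z) / F₀ (A.γ a z)) • fderiv ℂ (fun w => F₀ (A.γ a w)) z) z :=
      (hd F (h j F hF)).hasFDerivAt.sub (((hd F₀ hF₀).hasFDerivAt).const_smul _)
    rw [h3.fderiv] at h2
    have h4 : fderiv ℂ (fun w => F (A.γ a w)) z v -
        (F (A.γ a z) / F₀ (A.γ a z)) * fderiv ℂ (fun w => F₀ (A.γ a w)) z v = 0 := h2
    rw [sub_eq_zero] at h4
    rw [h4]
    ring

/-- `liftP` as a linear map -/
def liftL (D : A.DAct) (α β : ℤ) (a b : ℕ) : (Y → ℂ) →ₗ[ℂ] (P1Y D α β → ℂ) where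
  toFun := liftP D α β a b
  map_add' F G := by
    funext p
    simp only [liftP, Pi.add_apply]
    ring
  map_smul' c F := by
    funext p
    simp only [liftP, Pi.smul_apply, smul_eq_mul, RingHom.id_apply]
    ring

theorem liftL_apply (D : A.DAct) (α β : ℤ) (a b : ℕ) (F : Y → ℂ) :
    liftL D α β a b F = liftP D α β a b F := rfl

end sep

variable {K : Type} [Field K] [Algebra ℂ K] {T : Datum K} {q : ℕ} {D₀ : T.X.Pt →₀ ℤ}
  {An : AnCurve T.X.toCurveOrd} (M : SigModel T q D₀ An)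

namespace SigModel

variable {N : ℕ} {j : ℤ}

theorem loc_add {f g : K} (hf : f ∈ T.V q D₀ N j) (hg : g ∈ T.V q D₀ N j) {a : M.A.ι} {z : E 2}
    (hz : z ∈ M.A.U a) : M.loc N j (f + g) a z = M.loc N j f a z + M.loc N j g a z := by
  rcases M.chart_cases a hz with ⟨ε, P, rfl⟩ | ⟨ε, P, hP, rfl⟩
  · rw [M.U_ch] at hz
    have hs : z 0 ∈ ball (0 : ℂ) (M.r P) := mem_ball_zero_iff.2 hz
    have hs' := ball_subset_ball (M.r_le P) hs
    rw [loc_ch, loc_ch, loc_ch, locC, locC, locC,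
      (AnCurve.reg_add hs' (M.reg hf (M.le_eC ε P) hs) (M.reg hg (M.le_eC ε P) hs)).2, mul_add]
  · rw [M.U_md hP] at hz
    have hs : z 0 * z 1 ∈ ball (0 : ℂ) (M.r P) := mem_ball_zero_iff.2 hz
    have hs' := ball_subset_ball (M.r_le P) hs
    rw [loc_md _ _ _ _ hP, loc_md _ _ _ _ hP, loc_md _ _ _ _ hP, locM, locM, locM,
      (AnCurve.reg_add hs' (M.reg hf (M.eM_eq hP).ge hs) (M.reg hg (M.eM_eq hP).ge hs)).2, mul_add]

theorem loc_smul {f : K} (c : ℂ) (hf : f ∈ T.V q D₀ N j) {a : M.A.ι} {z : E 2}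
    (hz : z ∈ M.A.U a) : M.loc N j (c • f) a z = c * M.loc N j f a z := by
  rcases M.chart_cases a hz with ⟨ε, P, rfl⟩ | ⟨ε, P, hP, rfl⟩
  · rw [M.U_ch] at hz
    have hs : z 0 ∈ ball (0 : ℂ) (M.r P) := mem_ball_zero_iff.2 hz
    have hs' := ball_subset_ball (M.r_le P) hs
    rw [loc_ch, loc_ch, locC, locC, (AnCurve.reg_smul c hs' (M.reg hf (M.le_eC ε P) hs)).2]
    ring
  · rw [M.U_md hP] at hz
    have hs : z 0 * z 1 ∈ ball (0 : ℂ) (M.r P) := mem_ball_zero_iff.2 hz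
    have hs' := ball_subset_ball (M.r_le P) hs
    rw [loc_md _ _ _ _ hP, loc_md _ _ _ _ hP, locM, locM,
      (AnCurve.reg_smul c hs' (M.reg hf (M.eM_eq hP).ge hs)).2]
    ring

variable (hj : |j| ≤ 5 * q * N)

/-- The section `f w ^ j` depends linearly on `f`. -/
def secL (hj : |j| ≤ 5 * q * N) : T.V q D₀ N j →ₗ[ℂ] (M.Y → ℂ) where
  toFun f := M.secF N j f
  map_add' f g := by
    funext y
    obtain ⟨a, z, hz, c, rfl⟩ := M.A.cover y
    have hfg := (T.V q D₀ N j).add_mem f.2 g.2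
    rw [Pi.add_apply, (M.secF_isSec hj f.2).hom, (M.secF_isSec hj g.2).hom]
    show M.secF N j (f.1 + g.1) _ = _
    rw [(M.secF_isSec hj hfg).hom, M.secF_γ hj hfg hz, M.secF_γ hj f.2 hz, M.secF_γ hj g.2 hz,
      M.loc_add f.2 g.2 hz, mul_add]
  map_smul' c f := by
    funext y
    obtain ⟨a, z, hz, d, rfl⟩ := M.A.cover y
    have hfg := (T.V q D₀ N j).smul_mem c f.2
    rw [Pi.smul_apply, RingHom.id_apply, (M.secF_isSec hj f.2).hom]
    show M.secF N j (c • f.1) _ = _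
    rw [(M.secF_isSec hj hfg).hom, M.secF_γ hj hfg hz, M.secF_γ hj f.2 hz,
      M.loc_smul c f.2 hz, smul_eq_mul]
    ring

theorem secL_apply (f : T.V q D₀ N j) : M.secL hj f = M.secF N j f := rfl

end SigModel

/-! ### The fourfold -/

section four

variable {M}

/-- exponents of the sections of `L ^ N` -/
def Ix (q N : ℕ) : Type := {e : ℤ × (ℕ × ℕ) × (ℕ × ℕ) // |e.1| ≤ 5 * q * N ∧
  ((e.2.1.1 : ℤ) + e.2.1.2 = 25 * q * N + 3 * e.1) ∧
  ((e.2.2.1 : ℤ) + e.2.2.2 = 25 * q * N + -3 * e.1)}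

instance (q N : ℕ) : Finite (Ix q N) := by
  refine Set.Finite.to_subtype (Set.Finite.subset (Finset.finite_toSet
    ((Finset.Icc (-(5 * q * N : ℤ)) (5 * q * N)) ×ˢ
      ((Finset.range (40 * q * N + 1)) ×ˢ (Finset.range (40 * q * N + 1))) ×ˢ
      ((Finset.range (40 * q * N + 1)) ×ˢ (Finset.range (40 * q * N + 1))))) ?_)
  rintro ⟨j, ⟨a, b⟩, c, d⟩ ⟨h1, h2, h3⟩
  simp only at h1 h2 h3
  rw [abs_le] at h1
  simp only [Finset.coe_product, Set.mem_prod, Finset.mem_coe, Finset.mem_Icc, Finset.mem_range,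
    Nat.lt_succ_iff]
  refine ⟨h1, ⟨?_, ?_⟩, ?_, ?_⟩ <;> (zify; linarith)

/-- the sections with given exponents -/
def ixL (X : TwoP1 M.A M.D (25 * (q : ℤ)) 3 (25 * (q : ℤ)) (-3)) {N : ℕ} (e : Ix q N) :
    T.V q D₀ N e.1.1 →ₗ[ℂ] (P1Y X.D₁ (25 * (q : ℤ)) (-3) → ℂ) :=
  (liftL X.D₁ (25 * (q : ℤ)) (-3) e.1.2.2.1 e.1.2.2.2).comp
    ((liftL M.D (25 * (q : ℤ)) 3 e.1.2.1.1 e.1.2.1.2).comp (M.secL e.2.1))

/-- the space spanned by the monomial sections of `L ^ N` -/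
def VX (X : TwoP1 M.A M.D (25 * (q : ℤ)) 3 (25 * (q : ℤ)) (-3)) (N : ℕ) :
    Submodule ℂ (P1Y X.D₁ (25 * (q : ℤ)) (-3) → ℂ) :=
  ⨆ e : Ix q N, LinearMap.range (ixL X e)

variable (X : TwoP1 M.A M.D (25 * (q : ℤ)) 3 (25 * (q : ℤ)) (-3)) {N : ℕ}

instance : FiniteDimensional ℂ (VX X N) := by
  obtain ⟨P₀, -⟩ : T.S.Nonempty := Finset.card_pos.1 (by
    rw [T.card_S]
    exact Nat.mul_pos (by norm_num) T.t_pos)
  have h : ∀ j, FiniteDimensional ℂ (T.V q D₀ N j) := fun j => T.X.finite_L P₀ _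
  unfold VX
  infer_instance

variable {X}

theorem wt_ixL {j : ℤ} {f : K} (hj : |j| ≤ 5 * q * N) (hf : f ∈ T.V q D₀ N j) {a b : ℕ}
    (hab : (a : ℤ) + b = 25 * (q : ℤ) * N + 3 * j) :
    Wt X.D₁ N j (liftP M.D (25 * (q : ℤ)) 3 a b (M.secF N j f)) :=
  liftP_wt X.h₁ X.l₁ ⟨M.secF_isSec hj hf, M.secF_act hj hf⟩ hab

theorem isSec_ixL {j : ℤ} {f : K} (hj : |j| ≤ 5 * q * N) (hf : f ∈ T.V q D₀ N j) {a b c d : ℕ}
    (hab : (a : ℤ) + b = 25 * (q : ℤ) * N + 3 * j)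
    (hcd : (c : ℤ) + d = 25 * (q : ℤ) * N + -3 * j) :
    X.B₂.IsSec N (liftP X.D₁ (25 * (q : ℤ)) (-3) c d
      (liftP M.D (25 * (q : ℤ)) 3 a b (M.secF N j f))) :=
  liftP_isSec X.h₂ (wt_ixL hj hf hab) hcd

theorem VX_le : VX X N ≤ X.B₂.secs N := by
  refine iSup_le fun e => ?_
  rintro _ ⟨f, rfl⟩
  exact isSec_ixL e.2.1 f.2 e.2.2.1 e.2.2.2

theorem separates_VX (hq : 0 < q) (hD : T.X.deg D₀ = 105 * T.t * q) (hN : 5 ≤ N) :
    X.B₂.Separates (VX X N) := by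
  have h0 := M.wsep hq hD hN
  have hqN : (5 : ℤ) ≤ (q : ℤ) * N := SigModel.qN_pos hq hN
  have h1 := h0.lift X.h₁ (N := N) (fun j F hF => M.WS_wt hF) (by
    rintro j ⟨F, hj, -⟩
    rw [abs_le] at hj
    nlinarith [hj.1, hj.2])
  have hw : ∀ j, ∀ F ∈ liftW M.D (25 * (q : ℤ)) 3 N (M.WS N) j, Wt X.D₁ N j F := by
    rintro j _ ⟨F, ⟨hj, f, hf, rfl⟩, a, b, hab, rfl⟩
    exact wt_ixL hj hf hab
  have h2 := h1.lift X.h₂ (N := N) hw (by
    rintro j ⟨_, F, ⟨hj, -⟩, -⟩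
    rw [abs_le] at hj
    nlinarith [hj.1, hj.2])
  refine h2.separates VX_le ?_
  rintro j _ ⟨_, ⟨F, ⟨hj, f, hf, rfl⟩, a, b, hab, rfl⟩, c, d, hcd, rfl⟩
  exact Submodule.mem_iSup_of_mem (⟨(j, (a, b), (c, d)), hj, hab, hcd⟩ : Ix q N)
    ⟨⟨f, hf⟩, rfl⟩

end four

end

end Pool.Agent.YTDA
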