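import Pool.Agent.YTDA.P1Defs

/-!
# Expansion of functions on the fibres of `X`: polynomials from charts at zero and infinity
-/

set_option autoImplicit false

namespace Pool.Agent.YTDA

open Complex Set Topology Filter Finset

noncomputable section

/-- An entire function with a pole at infinity is a polynomial. -/
theorem poly_of_inv (M : ℕ) : ∀ {H G : ℂ → ℂ}, Differentiable ℂ H → Differentiable ℂ G →
    (∀ w ≠ 0, H w = w ^ M * G w⁻¹) → ∃ a : ℕ → ℂ, ∀ w, H w = ∑ l ∈ range (M + 1), a l * w ^ l := by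
  induction M with
  | zero =>
    intro H G hH hG h
    refine ⟨fun _ => H 0, fun w => ?_⟩
    have hb : Bornology.IsBounded (Set.range H) := by
      obtain ⟨C, hC⟩ := (isCompact_closedBall (0 : ℂ) 1).exists_bound_of_continuousOn
        hH.continuous.continuousOn
      obtain ⟨C', hC'⟩ := (isCompact_closedBall (0 : ℂ) 1).exists_bound_of_continuousOn
        hG.continuous.continuousOn
      rw [isBounded_iff_forall_norm_le]
      refine ⟨max C C', ?_⟩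
      rintro _ ⟨w, rfl⟩
      by_cases hw : ‖w‖ ≤ 1
      · exact (hC w (by simpa using hw)).trans (le_max_left _ _)
      · have hw0 : w ≠ 0 := by
          rintro rfl
          simp at hw
        rw [h w hw0, pow_zero, one_mul]
        refine (hC' _ ?_).trans (le_max_right _ _)
        simp only [mem_closedBall_zero_iff, norm_inv]
        exact inv_le_one_of_one_le₀ (not_le.1 hw).le
    have := hH.apply_eq_apply_of_bounded hb w 0
    simp [this]
  | succ M ih =>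
    intro H G hH hG h
    have hd : Differentiable ℂ (dslope H 0) := by
      rw [← differentiableOn_univ, Complex.differentiableOn_dslope univ_mem, differentiableOn_univ]
      exact hH
    have hG' : Differentiable ℂ fun v => G v - H 0 * v ^ (M + 1) := by fun_prop
    obtain ⟨a, ha⟩ := ih hd hG' (by
      intro w hw
      rw [dslope_of_ne _ hw, slope_def_field, h w hw, inv_pow, sub_zero, div_eq_iff hw]
      have h2 : w ^ (M + 1) * (w ^ (M + 1))⁻¹ = 1 := mul_inv_cancel₀ (pow_ne_zero _ hw)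
      linear_combination (H 0) * h2)
    have e : ∀ w, H w = H 0 + w * dslope H 0 w := by
      intro w
      by_cases hw : w = 0
      · subst hw
        simp
      · rw [dslope_of_ne _ hw, slope_def_field]
        field_simp
        ring
    refine ⟨fun l => if l = 0 then H 0 else a (l - 1), fun w => ?_⟩
    rw [e w, ha w, Finset.sum_range_succ' _ (M + 1), Finset.mul_sum]
    simp only [Nat.add_eq_zero_iff, one_ne_zero, and_false, if_false, Nat.add_sub_cancel, if_true,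
      pow_zero, mul_one]
    rw [add_comm]
    congr 1
    apply Finset.sum_congr rfl
    intro l _
    ring

/-- the nodes of interpolation -/
def nd {L : ℕ} (i : Fin (L + 1)) : ℂ := (i : ℂ) + 1

theorem nd_ne_zero {L : ℕ} (i : Fin (L + 1)) : nd i ≠ 0 := by
  unfold nd
  exact_mod_cast Nat.succ_ne_zero (i : ℕ)

theorem nd_inj {L : ℕ} : Function.Injective (nd (L := L)) := by
  intro i j h
  unfold nd at h
  have : ((i : ℕ) : ℂ) = ((j : ℕ) : ℂ) := by simpa using h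
  exact Fin.ext (by exact_mod_cast this)

/-- the weights which extract the coefficient of degree `k` of a polynomial of degree `≤ L` -/
def cvS (L k : ℕ) (i : Fin (L + 1)) : ℂ :=
  if h : k < L + 1 then (Matrix.vandermonde (nd (L := L)))⁻¹ ⟨k, h⟩ i else 0

/-- the coefficient of degree `k` of a polynomial function of degree `≤ L` -/
def cf (L k : ℕ) (H : ℂ → ℂ) : ℂ := ∑ i : Fin (L + 1), cvS L k i * H (nd i)

theorem cf_congr {L k : ℕ} {H H' : ℂ → ℂ} (h : ∀ i : Fin (L + 1), H (nd i) = H' (nd i)) :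
    cf L k H = cf L k H' := by
  unfold cf
  simp only [h]

theorem cf_mul_left {L k : ℕ} (c : ℂ) (H : ℂ → ℂ) : cf L k (fun w => c * H w) = c * cf L k H := by
  unfold cf
  rw [Finset.mul_sum]
  apply Finset.sum_congr rfl
  intro i _
  ring

theorem cf_sum {L k : ℕ} {ι : Type*} (s : Finset ι) (H : ι → ℂ → ℂ) :
    cf L k (fun w => ∑ j ∈ s, H j w) = ∑ j ∈ s, cf L k (H j) := by
  unfold cf
  rw [Finset.sum_comm]
  apply Finset.sum_congr rfl
  intro i _
  rw [Finset.mul_sum]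

theorem cf_poly {L k : ℕ} (hk : k ≤ L) (a : ℕ → ℂ) :
    cf L k (fun w => ∑ l ∈ range (L + 1), a l * w ^ l) = a k := by
  have hk' : k < L + 1 := Nat.lt_succ_of_le hk
  have hdet : (Matrix.vandermonde (nd (L := L))).det ≠ 0 :=
    Matrix.det_vandermonde_ne_zero_iff.2 nd_inj
  have h1 : (Matrix.vandermonde (nd (L := L)))⁻¹ * Matrix.vandermonde (nd (L := L)) = 1 :=
    Matrix.nonsing_inv_mul _ (isUnit_iff_ne_zero.2 hdet)
  have h2 := congrArg (fun B => B.mulVec (fun l : Fin (L + 1) => a l) ⟨k, hk'⟩) h1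
  simp only [← Matrix.mulVec_mulVec, Matrix.one_mulVec] at h2
  rw [← h2]
  unfold cf
  simp only [Matrix.mulVec, dotProduct, Matrix.vandermonde_apply]
  apply Finset.sum_congr rfl
  intro i _
  unfold cvS
  rw [dif_pos hk', Finset.sum_range]
  congr 1
  apply Finset.sum_congr rfl
  intro l _
  rw [mul_comm]

theorem cf_poly_le {L M k : ℕ} (hM : M ≤ L) (hk : k ≤ L) (a : ℕ → ℂ) :
    cf L k (fun w => ∑ l ∈ range (M + 1), a l * w ^ l) = if k ≤ M then a k else 0 := by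
  have h1 : (fun w : ℂ => ∑ l ∈ range (M + 1), a l * w ^ l) =
      fun w => ∑ l ∈ range (L + 1), (if l ≤ M then a l else 0) * w ^ l := by
    funext w
    symm
    rw [← Finset.sum_subset (Finset.range_mono (Nat.succ_le_succ hM))]
    · apply Finset.sum_congr rfl
      intro l hl
      rw [if_pos (Nat.lt_succ_iff.1 (Finset.mem_range.1 hl))]
    · intro l _ hl
      rw [if_neg (by
        intro h
        exact hl (Finset.mem_range.2 (Nat.lt_succ_of_le h))), zero_mul]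
  rw [h1, cf_poly hk]

/-- expansion of an entire function with a pole at infinity -/
theorem expand {L M : ℕ} (hM : M ≤ L) {H G : ℂ → ℂ} (hH : Differentiable ℂ H)
    (hG : Differentiable ℂ G) (h : ∀ w ≠ 0, H w = w ^ M * G w⁻¹) :
    (∀ w, H w = ∑ l ∈ range (M + 1), cf L l H * w ^ l) ∧ ∀ k, M < k → k ≤ L → cf L k H = 0 := by
  obtain ⟨a, ha⟩ := poly_of_inv M hH hG h
  have h1 : H = fun w => ∑ l ∈ range (M + 1), a l * w ^ l := funext ha
  constructor
  · intro w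
    rw [ha w]
    apply Finset.sum_congr rfl
    intro l hl
    have hl' : l ≤ M := Nat.lt_succ_iff.1 (Finset.mem_range.1 hl)
    rw [h1, cf_poly_le hM (hl'.trans hM), if_pos hl']
  · intro k hk hkL
    rw [h1, cf_poly_le hM hkL, if_neg (not_le.2 hk)]

/-- a nonzero complex number as a unit (`1` for `0`) -/
def uu (w : ℂ) : ℂˣ := if h : w = 0 then 1 else Units.mk0 w h

theorem uu_val {w : ℂ} (h : w ≠ 0) : ((uu w : ℂˣ) : ℂ) = w := by
  unfold uu
  rw [dif_neg h]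
  rfl

theorem uu_coe (w : ℂˣ) : uu (w : ℂ) = w := by
  apply Units.ext
  rw [uu_val w.ne_zero]

theorem vec_swap' {u : ℂ} (hu : u ≠ 0) (b : Bool) :
    vec b u = (Units.mk0 u hu) • vec (!b) u⁻¹ := by
  apply Subtype.ext
  rw [V2.coe_smul]
  cases b
  · show (vec false u : Fin 2 → ℂ) = u • (vec true u⁻¹ : Fin 2 → ℂ)
    rw [vec_false, vec_true]
    ext i; fin_cases i <;> simp [hu]
  · show (vec true u : Fin 2 → ℂ) = u • (vec false u⁻¹ : Fin 2 → ℂ)
    rw [vec_false, vec_true]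
    ext i; fin_cases i <;> simp [hu]

theorem exists_vecS (x : V2) : ∃ (c : ℂˣ) (b : Bool) (z : ℂ), x = c • vec b z := by
  by_cases h : x.1 0 = 0
  · have h1 : x.1 1 ≠ 0 := by
      intro h1
      apply x.2
      ext i; fin_cases i
      · exact h
      · exact h1
    refine ⟨Units.mk0 _ h1, true, 0, ?_⟩
    apply Subtype.ext
    rw [V2.coe_smul, vec_true]
    ext i; fin_cases i <;> simp [h]
  · refine ⟨Units.mk0 _ h, false, x.1 1 / x.1 0, ?_⟩
    apply Subtype.ext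
    rw [V2.coe_smul, vec_false]
    ext i; fin_cases i
    · simp
    · simp only [Units.val_mk0, Pi.smul_apply, smul_eq_mul]
      show x.1 1 = x.1 0 * (x.1 1 / x.1 0)
      field_simp

/-- expansion of a homogeneous function -/
theorem expand_hom {L d : ℕ} (hd : d ≤ L) {H : V2 → ℂ}
    (hom : ∀ (c : ℂˣ) x, H (c • x) = (c : ℂ) ^ d * H x)
    (h0 : ∀ b, Differentiable ℂ fun z => H (vec b z)) (x : V2) :
    H x = ∑ e ∈ range (d + 1),
      cf L e (fun z => H (vec false z)) * (x.1 0 ^ (d - e) * x.1 1 ^ e) := by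
  have key := (expand hd (h0 false) (h0 true) (by
    intro z hz
    rw [vec_swap' hz false, hom, Units.val_mk0]
    rfl)).1
  set R : V2 → ℂ := fun x => ∑ e ∈ range (d + 1),
      cf L e (fun z => H (vec false z)) * (x.1 0 ^ (d - e) * x.1 1 ^ e) with hR
  have hRh : ∀ (c : ℂˣ) x, R (c • x) = (c : ℂ) ^ d * R x := by
    intro c x
    simp only [hR]
    rw [Finset.mul_sum]
    apply Finset.sum_congr rfl
    intro e he
    have he' : e ≤ d := Nat.lt_succ_iff.1 (Finset.mem_range.1 he)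
    rw [V2.coe_smul]
    simp only [Pi.smul_apply, smul_eq_mul]
    rw [mul_pow, mul_pow]
    have : (c : ℂ) ^ d = (c : ℂ) ^ (d - e) * (c : ℂ) ^ e := by
      rw [← pow_add, Nat.sub_add_cancel he']
    rw [this]
    ring
  have hf : ∀ z, H (vec false z) = R (vec false z) := by
    intro z
    rw [key z]
    simp only [hR]
    apply Finset.sum_congr rfl
    intro e _
    rw [vec_false]
    simp
  have ht' : ∀ z ≠ 0, H (vec true z) = R (vec true z) := by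
    intro z hz
    rw [vec_swap' hz true, hom, hRh, Bool.not_true, hf]
  have ht : ∀ z, H (vec true z) = R (vec true z) := by
    have h1 : Continuous fun z => H (vec true z) := (h0 true).continuous
    have h2 : Continuous fun z => R (vec true z) := by
      simp only [hR, vec_true]
      simp only [Matrix.cons_val_zero, Matrix.cons_val_one]
      fun_prop
    intro z
    by_cases hz : z = 0
    · subst hz
      exact tendsto_nhds_unique_of_eventuallyEq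
        (h1.tendsto 0 |>.mono_left (nhdsWithin_le_nhds (s := {0}ᶜ)))
        (h2.tendsto 0 |>.mono_left (nhdsWithin_le_nhds (s := {0}ᶜ)))
        (eventually_nhdsWithin_of_forall fun z hz => ht' z hz)
    · exact ht' z hz
  obtain ⟨c, b, z, rfl⟩ := exists_vecS x
  show H (c • vec b z) = R (c • vec b z)
  rw [hom, hRh]
  cases b
  · rw [hf]
  · rw [ht]

/-- A function on the open orbit of the fibre, with the homogeneity and regularity of the
restriction of a section. -/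
structure TF (m α : ℕ) (Ψ : ℂˣ → V2 → V2 → ℂ) : Prop where
  h1 : ∀ (c w : ℂˣ) x x', Ψ w (c • x) x' = (c : ℂ) ^ α * Ψ (c ^ 3 * w) x x'
  h2 : ∀ (c w : ℂˣ) x x', Ψ w x (c • x') = (c : ℂ) ^ α * Ψ (c ^ (-3 : ℤ) * w) x x'
  bot : ∀ b₁ b₂ z₁ z₂, ∃ G : ℂ → ℂ, Differentiable ℂ G ∧
    ∀ w : ℂˣ, G w = (w : ℂ) ^ m * Ψ w (vec b₁ z₁) (vec b₂ z₂)
  top : ∀ b₁ b₂ z₁ z₂, ∃ G : ℂ → ℂ, Differentiable ℂ G ∧
    ∀ w : ℂˣ, G w = (w : ℂ) ^ m * Ψ w⁻¹ (vec b₁ z₁) (vec b₂ z₂)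
  d1 : ∀ w b₁ b₂ z₂, Differentiable ℂ fun z₁ => Ψ w (vec b₁ z₁) (vec b₂ z₂)
  d2 : ∀ w b₁ b₂ z₁, Differentiable ℂ fun z₂ => Ψ w (vec b₁ z₁) (vec b₂ z₂)

/-- the coefficient of `w^(k-m)` -/
def BB (L m : ℕ) (Ψ : ℂˣ → V2 → V2 → ℂ) (k : ℕ) (x x' : V2) : ℂ :=
  cf L k fun w => w ^ m * Ψ (uu w) x x'

/-- the coefficient of `w^(k-m) z₁^e` -/
def CC (L m : ℕ) (Ψ : ℂˣ → V2 → V2 → ℂ) (k e : ℕ) (x' : V2) : ℂ :=
  cf L e fun z => BB L m Ψ k (vec false z) x'

/-- the coefficient of `w^(k-m) z₁^e z₂^e'` -/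
def DD (L m : ℕ) (Ψ : ℂˣ → V2 → V2 → ℂ) (k e e' : ℕ) : ℂ :=
  cf L e' fun z => CC L m Ψ k e (vec false z)

namespace TF

variable {m α L : ℕ} {Ψ : ℂˣ → V2 → V2 → ℂ}

theorem h12 (h : TF m α Ψ) (c d w : ℂˣ) (x x' : V2) :
    Ψ w (c • x) (d • x') = (c : ℂ) ^ α * (d : ℂ) ^ α * Ψ (c ^ 3 * d ^ (-3 : ℤ) * w) x x' := by
  have e : d ^ (-3 : ℤ) * (c ^ 3 * w) = c ^ 3 * d ^ (-3 : ℤ) * w := by
    rw [mul_left_comm, mul_assoc]
  rw [h.h1, h.h2, mul_assoc, e]

theorem bot' (h : TF m α Ψ) (x x' : V2) : ∃ G : ℂ → ℂ, Differentiable ℂ G ∧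
    ∀ w : ℂˣ, G w = (w : ℂ) ^ m * Ψ w x x' := by
  obtain ⟨c, b₁, z₁, rfl⟩ := exists_vecS x
  obtain ⟨d, b₂, z₂, rfl⟩ := exists_vecS x'
  obtain ⟨G, hG, hG'⟩ := h.bot b₁ b₂ z₁ z₂
  set κ : ℂˣ := c ^ 3 * d ^ (-3 : ℤ) with hκ
  refine ⟨fun w => (c : ℂ) ^ α * (d : ℂ) ^ α * ((κ : ℂ) ^ m)⁻¹ * G (κ * w), by fun_prop, ?_⟩
  intro w
  have e1 := hG' (κ * w)
  rw [Units.val_mul] at e1
  have hk : (κ : ℂ) ^ m ≠ 0 := pow_ne_zero _ κ.ne_zero
  simp only
  rw [e1, h.h12, ← hκ, mul_pow]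
  field_simp

theorem top' (h : TF m α Ψ) (x x' : V2) : ∃ G : ℂ → ℂ, Differentiable ℂ G ∧
    ∀ w : ℂˣ, G w = (w : ℂ) ^ m * Ψ w⁻¹ x x' := by
  obtain ⟨c, b₁, z₁, rfl⟩ := exists_vecS x
  obtain ⟨d, b₂, z₂, rfl⟩ := exists_vecS x'
  obtain ⟨G, hG, hG'⟩ := h.top b₁ b₂ z₁ z₂
  obtain ⟨κ, hκ⟩ : ∃ κ : ℂˣ, κ = c ^ 3 * d ^ (-3 : ℤ) := ⟨_, rfl⟩
  refine ⟨fun w => (c : ℂ) ^ α * (d : ℂ) ^ α * (κ : ℂ) ^ m * G ((κ⁻¹ : ℂˣ) * w),
    by fun_prop, ?_⟩
  intro w
  have e1 := hG' (κ⁻¹ * w)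
  have e2 : (κ⁻¹ * w)⁻¹ = κ * w⁻¹ := by rw [mul_inv, inv_inv]
  rw [Units.val_mul, e2] at e1
  simp only
  rw [e1, h.h12, ← hκ, mul_pow]
  have hk : (κ : ℂ) ^ m * ((κ⁻¹ : ℂˣ) : ℂ) ^ m = 1 := by
    rw [← mul_pow, Units.mul_inv, one_pow]
  linear_combination (c : ℂ) ^ α * (d : ℂ) ^ α * (w : ℂ) ^ m *
    Ψ (κ * w⁻¹) (vec b₁ z₁) (vec b₂ z₂) * hk

theorem d1' (h : TF m α Ψ) (w : ℂˣ) (b₁ : Bool) (x' : V2) :
    Differentiable ℂ fun z₁ => Ψ w (vec b₁ z₁) x' := by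
  obtain ⟨d, b₂, z₂, rfl⟩ := exists_vecS x'
  simp only [h.h2]
  exact (h.d1 _ _ _ _).const_mul _

theorem d2' (h : TF m α Ψ) (w : ℂˣ) (x : V2) (b₂ : Bool) :
    Differentiable ℂ fun z₂ => Ψ w x (vec b₂ z₂) := by
  obtain ⟨d, b₁, z₁, rfl⟩ := exists_vecS x
  simp only [h.h1]
  exact (h.d2 _ _ _ _).const_mul _

theorem expand_w (h : TF m α Ψ) (hL : 2 * m ≤ L) (x x' : V2) (w : ℂˣ) :
    (w : ℂ) ^ m * Ψ w x x' = ∑ k ∈ range (2 * m + 1), BB L m Ψ k x x' * (w : ℂ) ^ k := by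
  obtain ⟨G, hG, hG'⟩ := h.bot' x x'
  obtain ⟨G₁, hG₁, hG₁'⟩ := h.top' x x'
  have key := (expand (L := L) hL hG hG₁ (by
    intro w hw
    have e1 := hG' (Units.mk0 w hw)
    have e2 := hG₁' (Units.mk0 w hw)⁻¹
    rw [Units.val_mk0] at e1
    rw [inv_inv, Units.val_inv_eq_inv_val, Units.val_mk0] at e2
    rw [e1, e2]
    have : w ^ (2 * m) * (w⁻¹ ^ m) = w ^ m := by
      rw [two_mul, pow_add, mul_assoc, ← mul_pow, mul_inv_cancel₀ hw, one_pow, mul_one]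
    rw [← mul_assoc, this])).1 (w : ℂ)
  rw [← hG' w, key]
  apply Finset.sum_congr rfl
  intro k _
  congr 1
  apply cf_congr
  intro i
  have := hG' (uu (nd i))
  rw [uu_val (nd_ne_zero i)] at this
  exact this

theorem BB_smul1 (h : TF m α Ψ) (hα : 3 * m ≤ α) (hL : 2 * m ≤ L) {k : ℕ} (hk : k ≤ 2 * m)
    (c : ℂˣ) (x x' : V2) :
    BB L m Ψ k (c • x) x' = (c : ℂ) ^ (α - 3 * m + 3 * k) * BB L m Ψ k x x' := by
  have h1 : ∀ i : Fin (L + 1), (nd i) ^ m * Ψ (uu (nd i)) (c • x) x' =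
      ∑ l ∈ range (2 * m + 1),
        ((c : ℂ) ^ (α - 3 * m + 3 * l) * BB L m Ψ l x x') * nd i ^ l := by
    intro i
    have e1 := h.expand_w hL x x' (c ^ 3 * uu (nd i))
    have e2 : ((c ^ 3 * uu (nd i) : ℂˣ) : ℂ) = (c : ℂ) ^ 3 * nd i := by
      rw [Units.val_mul, Units.val_pow_eq_pow_val, uu_val (nd_ne_zero i)]
    rw [e2] at e1
    rw [h.h1]
    have e3 : (nd i) ^ m * ((c : ℂ) ^ α * Ψ (c ^ 3 * uu (nd i)) x x') =
        (c : ℂ) ^ (α - 3 * m) * (((c : ℂ) ^ 3 * nd i) ^ m *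
          Ψ (c ^ 3 * uu (nd i)) x x') := by
      have : (c : ℂ) ^ α = (c : ℂ) ^ (α - 3 * m) * ((c : ℂ) ^ 3) ^ m := by
        rw [← pow_mul, ← pow_add, Nat.sub_add_cancel hα]
      rw [this, mul_pow]
      ring
    rw [e3, e1, Finset.mul_sum]
    apply Finset.sum_congr rfl
    intro l _
    rw [mul_pow, pow_add, pow_mul]
    ring
  refine (cf_congr (H := fun w => w ^ m * Ψ (uu w) (c • x) x')
    (H' := fun w => ∑ l ∈ range (2 * m + 1),
      ((c : ℂ) ^ (α - 3 * m + 3 * l) * BB L m Ψ l x x') * w ^ l) h1).trans ?_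
  rw [cf_poly_le hL (hk.trans hL)
    (fun l => (c : ℂ) ^ (α - 3 * m + 3 * l) * BB L m Ψ l x x'), if_pos hk]

theorem BB_smul2 (h : TF m α Ψ) (hL : 2 * m ≤ L) {k : ℕ} (hk : k ≤ 2 * m)
    (c : ℂˣ) (x x' : V2) :
    BB L m Ψ k x (c • x') = (c : ℂ) ^ ((α : ℤ) + 3 * m - 3 * k) * BB L m Ψ k x x' := by
  have hc := c.ne_zero
  have h1 : ∀ i : Fin (L + 1), (nd i) ^ m * Ψ (uu (nd i)) x (c • x') =
      ∑ l ∈ range (2 * m + 1),
        ((c : ℂ) ^ ((α : ℤ) + 3 * m - 3 * l) * BB L m Ψ l x x') * nd i ^ l := by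
    intro i
    have e1 := h.expand_w hL x x' (c ^ (-3 : ℤ) * uu (nd i))
    have e2 : ((c ^ (-3 : ℤ) * uu (nd i) : ℂˣ) : ℂ) = (c : ℂ) ^ (-3 : ℤ) * nd i := by
      rw [Units.val_mul, Units.val_zpow_eq_zpow_val, uu_val (nd_ne_zero i)]
    rw [e2] at e1
    rw [h.h2]
    have e3 : (nd i) ^ m * ((c : ℂ) ^ α * Ψ (c ^ (-3 : ℤ) * uu (nd i)) x x') =
        (c : ℂ) ^ ((α : ℤ) + 3 * m) * (((c : ℂ) ^ (-3 : ℤ) * nd i) ^ m *
          Ψ (c ^ (-3 : ℤ) * uu (nd i)) x x') := by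
      have : (c : ℂ) ^ ((α : ℤ) + 3 * m) * ((c : ℂ) ^ (-3 : ℤ)) ^ m = (c : ℂ) ^ α := by
        rw [← zpow_natCast, ← zpow_mul, ← zpow_add₀ hc, ← zpow_natCast]
        congr 1
        ring
      rw [← this, mul_pow]
      ring
    rw [e3, e1, Finset.mul_sum]
    apply Finset.sum_congr rfl
    intro l _
    have : (c : ℂ) ^ ((α : ℤ) + 3 * m - 3 * l) =
        (c : ℂ) ^ ((α : ℤ) + 3 * m) * ((c : ℂ) ^ (-3 : ℤ)) ^ l := by
      rw [← zpow_natCast, ← zpow_mul, ← zpow_add₀ hc]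
      ring_nf
    rw [this, mul_pow]
    ring
  refine (cf_congr (H := fun w => w ^ m * Ψ (uu w) x (c • x'))
    (H' := fun w => ∑ l ∈ range (2 * m + 1),
      ((c : ℂ) ^ ((α : ℤ) + 3 * m - 3 * l) * BB L m Ψ l x x') * w ^ l)
    h1).trans ?_
  rw [cf_poly_le hL (hk.trans hL)
    (fun l => (c : ℂ) ^ ((α : ℤ) + 3 * m - 3 * l) * BB L m Ψ l x x'),
    if_pos hk]

theorem BB_d1 (h : TF m α Ψ) (k : ℕ) (b₁ : Bool) (x' : V2) :
    Differentiable ℂ fun z₁ => BB L m Ψ k (vec b₁ z₁) x' := by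
  unfold BB cf
  apply Differentiable.fun_sum
  intro i _
  exact ((h.d1' (uu (nd i)) b₁ x').const_mul _).const_mul _

theorem BB_d2 (h : TF m α Ψ) (k : ℕ) (x : V2) (b₂ : Bool) :
    Differentiable ℂ fun z₂ => BB L m Ψ k x (vec b₂ z₂) := by
  unfold BB cf
  apply Differentiable.fun_sum
  intro i _
  exact ((h.d2' (uu (nd i)) x b₂).const_mul _).const_mul _

theorem expand_z1 (h : TF m α Ψ) (hα : 3 * m ≤ α) (hL : α + 3 * m ≤ L) {k : ℕ} (hk : k ≤ 2 * m)
    (x x' : V2) : BB L m Ψ k x x' = ∑ e ∈ range (α - 3 * m + 3 * k + 1),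
      CC L m Ψ k e x' * (x.1 0 ^ (α - 3 * m + 3 * k - e) * x.1 1 ^ e) :=
  expand_hom (H := fun x => BB L m Ψ k x x') (by omega)
    (fun c x => h.BB_smul1 hα (by omega) hk c x x') (fun b => h.BB_d1 k b x') x

theorem CC_smul (h : TF m α Ψ) (hα : 3 * m ≤ α) (hL : 2 * m ≤ L) {k : ℕ} (hk : k ≤ 2 * m) (e : ℕ)
    (c : ℂˣ) (x' : V2) : CC L m Ψ k e (c • x') =
      (c : ℂ) ^ (α + 3 * m - 3 * k) * CC L m Ψ k e x' := by
  unfold CC
  rw [← cf_mul_left]
  apply cf_congr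
  intro i
  rw [h.BB_smul2 hL hk]
  congr 1
  rw [← zpow_natCast]
  congr 1
  omega

theorem CC_d (h : TF m α Ψ) (k e : ℕ) (b₂ : Bool) :
    Differentiable ℂ fun z₂ => CC L m Ψ k e (vec b₂ z₂) := by
  unfold CC
  unfold cf
  apply Differentiable.fun_sum
  intro i _
  exact (h.BB_d2 (L := L) k (vec false (nd i)) b₂).const_mul _

theorem expand_z2 (h : TF m α Ψ) (hα : 3 * m ≤ α) (hL : α + 3 * m ≤ L) {k : ℕ} (hk : k ≤ 2 * m)
    (e : ℕ) (x' : V2) : CC L m Ψ k e x' = ∑ e' ∈ range (α + 3 * m - 3 * k + 1),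
      DD L m Ψ k e e' * (x'.1 0 ^ (α + 3 * m - 3 * k - e') * x'.1 1 ^ e') :=
  expand_hom (H := fun x' => CC L m Ψ k e x') (by omega)
    (fun c x' => h.CC_smul hα (by omega) hk e c x') (fun b => h.CC_d k e b) x'

/-- the expansion of a section on the open orbits -/
theorem expand_all (h : TF m α Ψ) (hα : 3 * m ≤ α) (hL : α + 3 * m ≤ L) (w : ℂˣ) (x x' : V2) :
    (w : ℂ) ^ m * Ψ w x x' =
      ∑ k ∈ range (2 * m + 1), ∑ e ∈ range (α - 3 * m + 3 * k + 1),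
        ∑ e' ∈ range (α + 3 * m - 3 * k + 1), DD L m Ψ k e e' * (w : ℂ) ^ k *
          (x.1 0 ^ (α - 3 * m + 3 * k - e) * x.1 1 ^ e) *
          (x'.1 0 ^ (α + 3 * m - 3 * k - e') * x'.1 1 ^ e') := by
  rw [h.expand_w (L := L) (by omega)]
  apply Finset.sum_congr rfl
  intro k hk
  have hk' : k ≤ 2 * m := Nat.lt_succ_iff.1 (Finset.mem_range.1 hk)
  rw [h.expand_z1 hα hL hk' x x', Finset.sum_mul]
  apply Finset.sum_congr rfl
  intro e _
  rw [h.expand_z2 hα hL hk' e x', Finset.sum_mul, Finset.sum_mul]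
  apply Finset.sum_congr rfl
  intro e' _
  ring

end TF

theorem DD_mul_left {m L : ℕ} (c : ℂ) (Ψ : ℂˣ → V2 → V2 → ℂ) (k e e' : ℕ) :
    DD L m (fun w x x' => c * Ψ w x x') k e e' = c * DD L m Ψ k e e' := by
  unfold DD CC BB
  rw [← cf_mul_left]
  apply cf_congr
  intro i
  rw [← cf_mul_left]
  apply cf_congr
  intro i'
  rw [← cf_mul_left]
  apply cf_congr
  intro i''
  ring

end

end Pool.Agent.YTDA
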