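import Pool.Agent.YTDA.Fld
import Pool.Agent.YTDA.Gaga
import Pool.Agent.YTD.Defs

/-!
# Sections of the powers of `L` on the fourfold `X` and polynomials over the function field

`Rep X N F f`: the homogeneous function `F` on `P1Y X.D₁ _ _` is given, on the generic points of
the coordinate discs of the curve, by the polynomial `f` with coefficients in the function field.
-/

set_option autoImplicit false

namespace Pool.Agent.YTDA

open Complex Set Topology Filter Metric MvPolynomial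
open Pool.Agent.YTD

noncomputable section

section spec

variable {K : Type} [Field K] [Algebra ℂ K] {X : CurveOrd K} (An : AnCurve X)

/-- The specialization of a polynomial over the function field at a point of a coordinate disc. -/
def spec (P : X.Pt) (σ : ℂ) (f : MvPolynomial (Fin 4) K) : MvPolynomial (Fin 4) ℂ :=
  ∑ e ∈ f.support, monomial e (An.fn P (f.coeff e) σ)

variable {An} {P : X.Pt} {s : ℂ}

theorem coeff_spec' (σ : ℂ) (f : MvPolynomial (Fin 4) K) (e : Fin 4 →₀ ℕ)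
    (h : An.fn P 0 σ = 0) : (spec An P σ f).coeff e = An.fn P (f.coeff e) σ := by
  classical
  unfold spec
  rw [coeff_sum]
  simp only [coeff_monomial]
  rw [Finset.sum_ite_eq' f.support e fun e => An.fn P (f.coeff e) σ]
  split_ifs with h1
  · rfl
  · rw [notMem_support_iff.1 h1, h]

theorem eventually_fn_zero (hs : s ∈ ball 0 (An.r P)) : ∀ᶠ σ in 𝓝[≠] s, An.fn P 0 σ = 0 := by
  filter_upwards [AnCurve.fn_zero An P hs] with σ h
  exact h

theorem coeff_spec (hs : s ∈ ball 0 (An.r P)) (f : MvPolynomial (Fin 4) K) :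
    ∀ᶠ σ in 𝓝[≠] s, ∀ e, (spec An P σ f).coeff e = An.fn P (f.coeff e) σ := by
  filter_upwards [eventually_fn_zero hs] with σ h e
  exact coeff_spec' σ f e h

theorem spec_zero (σ : ℂ) : spec An P σ 0 = 0 := by
  unfold spec
  simp

theorem spec_monomial (hs : s ∈ ball 0 (An.r P)) (e : Fin 4 →₀ ℕ) (c : K) :
    ∀ᶠ σ in 𝓝[≠] s, spec An P σ (monomial e c) = monomial e (An.fn P c σ) := by
  filter_upwards [eventually_fn_zero hs] with σ h
  apply MvPolynomial.ext
  intro e'
  rw [coeff_spec' σ _ e' h, coeff_monomial, coeff_monomial]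
  split_ifs with h1
  · rfl
  · exact h

theorem spec_add (hs : s ∈ ball 0 (An.r P)) (f g : MvPolynomial (Fin 4) K) :
    ∀ᶠ σ in 𝓝[≠] s, spec An P σ (f + g) = spec An P σ f + spec An P σ g := by
  classical
  have h1 : ∀ᶠ σ in 𝓝[≠] s, ∀ e ∈ f.support ∪ g.support,
      An.fn P (f.coeff e + g.coeff e) σ = An.fn P (f.coeff e) σ + An.fn P (g.coeff e) σ :=
    (eventually_all_finset _).2 fun e _ => An.fn_add P (f.coeff e) (g.coeff e) s hs
  filter_upwards [eventually_fn_zero hs, h1] with σ h h1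
  apply MvPolynomial.ext
  intro e
  rw [coeff_add, coeff_spec' σ _ e h, coeff_spec' σ _ e h, coeff_spec' σ _ e h, coeff_add]
  by_cases he : e ∈ f.support ∪ g.support
  · exact h1 e he
  · rw [Finset.mem_union, not_or] at he
    rw [notMem_support_iff.1 he.1, notMem_support_iff.1 he.2, add_zero, h, add_zero]

theorem spec_sum (hs : s ∈ ball 0 (An.r P)) {ι : Type*} (I : Finset ι)
    (f : ι → MvPolynomial (Fin 4) K) :
    ∀ᶠ σ in 𝓝[≠] s, spec An P σ (∑ i ∈ I, f i) = ∑ i ∈ I, spec An P σ (f i) := by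
  classical
  induction I using Finset.induction_on with
  | empty => exact Eventually.of_forall fun σ => by simp [spec_zero]
  | insert i I hi ih =>
    filter_upwards [ih, spec_add hs (f i) (∑ i ∈ I, f i)] with σ h1 h2
    rw [Finset.sum_insert hi, Finset.sum_insert hi, h2, h1]

theorem spec_mul (hs : s ∈ ball 0 (An.r P)) (f g : MvPolynomial (Fin 4) K) :
    ∀ᶠ σ in 𝓝[≠] s, spec An P σ (f * g) = spec An P σ f * spec An P σ g := by
  induction f using MvPolynomial.induction_on' with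
  | monomial a c =>
    induction g using MvPolynomial.induction_on' with
    | monomial b d =>
      rw [monomial_mul]
      filter_upwards [spec_monomial hs a c, spec_monomial hs b d, spec_monomial hs (a + b) (c * d),
        An.fn_mul P c d s hs] with σ h1 h2 h3 h4
      rw [h1, h2, h3, monomial_mul, h4]
      rfl
    | add p q hp hq =>
      rw [mul_add]
      filter_upwards [hp, hq, spec_add hs p q,
        spec_add hs (monomial a c * p) (monomial a c * q)] with σ h1 h2 h3 h4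
      rw [h3, h4, h1, h2, mul_add]
  | add p q hp hq =>
    rw [add_mul]
    filter_upwards [hp, hq, spec_add hs p q, spec_add hs (p * g) (q * g)] with σ h1 h2 h3 h4
    rw [h3, h4, h1, h2, add_mul]

theorem spec_C (hs : s ∈ ball 0 (An.r P)) (c : ℂ) :
    ∀ᶠ σ in 𝓝[≠] s, spec An P σ (C (algebraMap ℂ K c)) = C c := by
  filter_upwards [spec_monomial hs 0 (algebraMap ℂ K c), An.fn_const P c s hs] with σ h1 h2
  rw [C_apply, h1, h2, C_apply]

theorem spec_smul (hs : s ∈ ball 0 (An.r P)) (c : ℂ) (f : MvPolynomial (Fin 4) K) :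
    ∀ᶠ σ in 𝓝[≠] s, spec An P σ (c • f) = c • spec An P σ f := by
  have h : c • f = C (algebraMap ℂ K c) * f := by
    rw [C_mul', algebraMap_smul]
  rw [h]
  filter_upwards [spec_mul hs (C (algebraMap ℂ K c)) f, spec_C hs c] with σ h1 h2
  rw [h1, h2, C_mul']

theorem spec_X (hs : s ∈ ball 0 (An.r P)) (i : Fin 4) :
    ∀ᶠ σ in 𝓝[≠] s, spec An P σ (MvPolynomial.X i) = MvPolynomial.X i := by
  filter_upwards [spec_monomial hs (Finsupp.single i 1) 1, An.fn_const P 1 s hs] with σ h1 h2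
  rw [MvPolynomial.X, h1, ← map_one (algebraMap ℂ K), h2]
  rfl

end spec

/-- the homogeneous coordinates -/
def pv (u : ℂˣ) (x x' : V2) : Fin 4 → ℂ :=
  ![u * x.1 0, u * x.1 1, ((u⁻¹ : ℂˣ) : ℂ) * x'.1 0, ((u⁻¹ : ℂˣ) : ℂ) * x'.1 1]

section

variable {K : Type} [Field K] [Algebra ℂ K] {T : Datum K} {q : ℕ} {D₀ : T.X.Pt →₀ ℤ}
  {An : AnCurve T.X.toCurveOrd} {Sg : SigModel T q D₀ An}
  (X : TwoP1 Sg.A Sg.D (25 * (q : ℤ)) 3 (25 * (q : ℤ)) (-3))

/-- a function on `X` on the open orbit of the fibre over the point of the disc at `P` with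
coordinate `s` -/
def Psi (F : P1Y X.D₁ (25 * (q : ℤ)) (-3) → ℂ) (P : T.X.Pt) (s : ℂ) (w : ℂˣ) (x x' : V2) : ℂ :=
  F (P1Y.mk (P1Y.mk (Sg.o P s w) x) x')

/-- `F` is given by the polynomial `f`. -/
def Rep (N : ℕ) (F : P1Y X.D₁ (25 * (q : ℤ)) (-3) → ℂ) (f : MvPolynomial (Fin 4) K) : Prop :=
  ∀ P, ∀ s ∈ ball 0 (Sg.r P), ∀ᶠ σ in 𝓝[≠] s, ∀ (u : ℂˣ) (x x' : V2),
    Psi X F P σ (u ^ 6) x x' = σ ^ (N * D₀ P) * eval (pv u x x') (spec An P σ f)

variable {X} {N N' : ℕ} {F F' : P1Y X.D₁ (25 * (q : ℤ)) (-3) → ℂ} {f f' : MvPolynomial (Fin 4) K}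

theorem ball_mono {P : T.X.Pt} {s : ℂ} (hs : s ∈ ball 0 (Sg.r P)) : s ∈ ball 0 (An.r P) :=
  ball_subset_ball (Sg.r_le P) hs

theorem eventually_ne_zero' {s : ℂ} : ∀ᶠ σ in 𝓝[≠] s, σ ≠ 0 := by
  by_cases h : s = 0
  · subst h
    exact self_mem_nhdsWithin
  · exact nhdsWithin_le_nhds (isOpen_ne.mem_nhds h)

theorem Rep.add (h : Rep X N F f) (h' : Rep X N F' f') : Rep X N (F + F') (f + f') := by
  intro P s hs
  filter_upwards [h P s hs, h' P s hs, spec_add (ball_mono hs) f f'] with σ h1 h2 h3 u x x'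
  have e : Psi X (F + F') P σ (u ^ 6) x x' = Psi X F P σ (u ^ 6) x x' + Psi X F' P σ (u ^ 6) x x' :=
    rfl
  rw [e, h1, h2, h3, map_add, mul_add]

theorem Rep.smul (c : ℂ) (h : Rep X N F f) : Rep X N (c • F) (c • f) := by
  intro P s hs
  filter_upwards [h P s hs, spec_smul (ball_mono hs) c f] with σ h1 h3 u x x'
  have e : Psi X (c • F) P σ (u ^ 6) x x' = c * Psi X F P σ (u ^ 6) x x' := rfl
  rw [e, h1, h3, smul_eval]
  ring

theorem Rep.mul (h : Rep X N F f) (h' : Rep X N' F' f') : Rep X (N + N') (F * F') (f * f') := by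
  intro P s hs
  filter_upwards [h P s hs, h' P s hs, spec_mul (ball_mono hs) f f',
    eventually_ne_zero'] with σ h1 h2 h3 h4 u x x'
  have e : Psi X (F * F') P σ (u ^ 6) x x' = Psi X F P σ (u ^ 6) x x' * Psi X F' P σ (u ^ 6) x x' :=
    rfl
  rw [e, h1, h2, h3, map_mul, Nat.cast_add, add_mul, zpow_add₀ h4]
  ring

theorem Rep.zero : Rep X N 0 0 := by
  intro P s hs
  refine Eventually.of_forall fun σ u x x' => ?_
  rw [spec_zero, map_zero, mul_zero]
  rfl

theorem Rep.one : Rep X 0 1 1 := by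
  intro P s hs
  filter_upwards [spec_C (ball_mono hs) (1 : ℂ)] with σ h1 u x x'
  rw [map_one, C_1, C_1] at h1
  rw [h1, map_one, Nat.cast_zero, zero_mul, zpow_zero, mul_one]
  rfl

end

end

end Pool.Agent.YTDA
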