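import Pool.Agent.YTDA.SecPoly
import Pool.Agent.YTDA.SecRep

/-!
# Every section of a power of `L` on `X` is given by a polynomial over the function field
-/

set_option autoImplicit false

namespace Pool.Agent.YTDA

open Complex Set Topology Filter Metric MvPolynomial
open Pool.Agent.YTD

noncomputable section

/-- a function on the points, meromorphic at the centres of the discs -/
theorem AnCurve.merFam_of_fun {K : Type} [Field K] [Algebra ℂ K] {X : CurveOrd K} {An : AnCurve X}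
    {G : X.Pt → ℂ} (h : ∀ P, MeromorphicAt (fun s => G (An.c P s)) 0) :
    An.MerFam fun P s => G (An.c P s) where
  mero P s hs := by
    obtain ⟨f, hf, hfs, hf', hfc, -⟩ := An.tr P (An.c P s) s hs 0 (AnCurve.mem_ball_zero _)
      (An.c_zero _).symm
    have h1 : MeromorphicAt (fun s' => G (An.c (An.c P s) s')) (f s) := by
      rw [hfs]; exact h _
    refine (h1.comp_analyticAt hf).congr ?_
    refine (hfc.filter_mono nhdsWithin_le_nhds).mono fun σ h2 => ?_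
    show G (An.c (An.c P s) (f σ)) = _
    rw [h2]
  tr P Q s hs s' hs' hc f hf hfs hf' hfc := by
    refine (hfc.filter_mono nhdsWithin_le_nhds).mono fun σ h2 => ?_
    show G (An.c Q (f σ)) = _
    rw [h2]

theorem diff_vec4 {f0 f1 f2 f3 : ℂ → ℂ} {S : Set ℂ} (h0 : DifferentiableOn ℂ f0 S)
    (h1 : DifferentiableOn ℂ f1 S) (h2 : DifferentiableOn ℂ f2 S) (h3 : DifferentiableOn ℂ f3 S) :
    DifferentiableOn ℂ (fun z => (![f0 z, f1 z, f2 z, f3 z] : E 4)) S := by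
  rw [differentiableOn_pi]
  intro i
  fin_cases i
  · exact h0
  · exact h1
  · exact h2
  · exact h3

theorem val5 (w : ℂˣ) (q N : ℕ) :
    (((w ^ (5 * (q : ℤ)) : ℂˣ) : ℂ)) ^ N = (w : ℂ) ^ (5 * q * N) := by
  have : (5 * (q : ℤ)) = ((5 * q : ℕ) : ℤ) := by push_cast; rfl
  rw [this, zpow_natCast, Units.val_pow_eq_pow_val, ← pow_mul]

theorem val25 (w : ℂˣ) (q N : ℕ) :
    (((w ^ (25 * (q : ℤ)) : ℂˣ) : ℂ)) ^ N = (w : ℂ) ^ (25 * q * N) := by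
  have : (25 * (q : ℤ)) = ((25 * q : ℕ) : ℤ) := by push_cast; rfl
  rw [this, zpow_natCast, Units.val_pow_eq_pow_val, ← pow_mul]

theorem val51 (w s : ℂˣ) (q N : ℕ) :
    (s : ℂ) ^ (q * N) * (((w ^ (5 * (q : ℤ)) * s ^ (-(q : ℤ)) : ℂˣ) : ℂ)) ^ N =
      (w : ℂ) ^ (5 * q * N) := by
  have hs : (s : ℂ) ^ (q * N) ≠ 0 := pow_ne_zero _ s.ne_zero
  rw [Units.val_mul, mul_pow, val5, zpow_neg, zpow_natCast, Units.val_inv_eq_inv_val,
    Units.val_pow_eq_pow_val, inv_pow, ← pow_mul]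
  field_simp

section

variable {K : Type} [Field K] [Algebra ℂ K] {T : Datum K} {q : ℕ} {D₀ : T.X.Pt →₀ ℤ}
  {An : AnCurve T.X.toCurveOrd} {Sg : SigModel T q D₀ An}
  {X : TwoP1 Sg.A Sg.D (25 * (q : ℤ)) 3 (25 * (q : ℤ)) (-3)}
  {N : ℕ} {F : P1Y X.D₁ (25 * (q : ℤ)) (-3) → ℂ}

theorem hol_pt (hF : X.B₂.IsSec N F) (a : Sg.A.ι) (b₁ b₂ : Bool) :
    DifferentiableOn ℂ (fun z : E 4 => F (X.pt a b₁ b₂ z)) {z | ![z 0, z 1] ∈ Sg.A.U a} := by
  intro z hz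
  have h1 : z ∈ X.B₂.U (X.i a b₁ b₂) := X.mem_U.2 hz
  have h2 := (hF.hol (X.i a b₁ b₂)) z h1
  have h3 : X.B₂.U (X.i a b₁ b₂) = {z | ![z 0, z 1] ∈ Sg.A.U a} := by
    ext z
    exact X.mem_U
  rw [← h3]
  exact h2.congr (fun w hw => by rw [X.γ_eq (X.mem_U.1 hw)]) (by rw [X.γ_eq hz])

theorem F_smul (hF : X.B₂.IsSec N F) (c : ℂˣ) (y : Sg.Y) (x x' : V2) :
    F (P1Y.mk (P1Y.mk (c • y) x) x') = (c : ℂ) ^ N * F (P1Y.mk (P1Y.mk y x) x') :=
  hF.hom c (P1Y.mk (P1Y.mk y x) x')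

theorem F_bot (hF : X.B₂.IsSec N F) {P : T.X.Pt} (hP : P ∉ T.S') {s : ℂ}
    (hs : s ∈ ball 0 (Sg.r P)) (hs' : s ≠ 0 ∨ P ∉ T.S) (w : ℂˣ) (b₁ b₂ : Bool) (z₁ z₂ : ℂ) :
    F (X.pt (Sg.e (P, 0)) b₁ b₂ ![s, w, z₁, z₂]) =
      (w : ℂ) ^ (5 * q * N) * Psi X F P s w (vec b₁ z₁) (vec b₂ z₂) := by
  show F (P1Y.mk (P1Y.mk (Sg.A.γ (Sg.e (P, 0)) ![s, (w : ℂ)]) (vec b₁ z₁)) (vec b₂ z₂)) = _
  rw [Sg.γ_bot P hP s hs hs' w, F_smul hF, val5]
  rfl

theorem F_bot' (hF : X.B₂.IsSec N F) {P : T.X.Pt} (hP : P ∈ T.S') {s : ℂˣ}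
    (hs : (s : ℂ) ∈ ball 0 (Sg.r P)) (b : ℂˣ) (b₁ b₂ : Bool) (z₁ z₂ : ℂ) :
    (s : ℂ) ^ (q * N) * F (X.pt (Sg.e (P, 0)) b₁ b₂ ![s, b, z₁, z₂]) =
      ((s * b : ℂˣ) : ℂ) ^ (5 * q * N) * Psi X F P s (s * b) (vec b₁ z₁) (vec b₂ z₂) := by
  show (s : ℂ) ^ (q * N) *
    F (P1Y.mk (P1Y.mk (Sg.A.γ (Sg.e (P, 0)) ![(s : ℂ), (b : ℂ)]) (vec b₁ z₁)) (vec b₂ z₂)) = _
  rw [Sg.γ_bot' P hP s (by simpa using hs) b, F_smul hF, ← mul_assoc, val51]
  rfl

theorem F_top (hF : X.B₂.IsSec N F) {P : T.X.Pt} (hP : P ∉ T.S) {s : ℂ}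
    (hs : s ∈ ball 0 (Sg.r P)) (hs' : s ≠ 0 ∨ P ∉ T.S') (z : ℂˣ) (b₁ b₂ : Bool) (z₁ z₂ : ℂ) :
    F (X.pt (Sg.e (P, 1)) b₁ b₂ ![s, z, z₁, z₂]) =
      (z : ℂ) ^ (5 * q * N) * Psi X F P s z⁻¹ (vec b₁ z₁) (vec b₂ z₂) := by
  show F (P1Y.mk (P1Y.mk (Sg.A.γ (Sg.e (P, 1)) ![s, (z : ℂ)]) (vec b₁ z₁)) (vec b₂ z₂)) = _
  rw [Sg.γ_top P hP s hs hs' z, F_smul hF, val5]
  rfl

theorem F_top' (hF : X.B₂.IsSec N F) {P : T.X.Pt} (hP : P ∈ T.S) {s : ℂˣ}
    (hs : (s : ℂ) ∈ ball 0 (Sg.r P)) (a : ℂˣ) (b₁ b₂ : Bool) (z₁ z₂ : ℂ) :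
    (s : ℂ) ^ (q * N) * F (X.pt (Sg.e (P, 1)) b₁ b₂ ![s, a, z₁, z₂]) =
      ((s * a : ℂˣ) : ℂ) ^ (5 * q * N) * Psi X F P s (s * a)⁻¹ (vec b₁ z₁) (vec b₂ z₂) := by
  show (s : ℂ) ^ (q * N) *
    F (P1Y.mk (P1Y.mk (Sg.A.γ (Sg.e (P, 1)) ![(s : ℂ), (a : ℂ)]) (vec b₁ z₁)) (vec b₂ z₂)) = _
  rw [Sg.γ_top' P hP s (by simpa using hs) a, F_smul hF, ← mul_assoc, val51]
  rfl

theorem mem_bot {P : T.X.Pt} {s : ℂ} (hs : s ∈ ball 0 (Sg.r P)) (b : ℂ) :
    ![s, b] ∈ Sg.A.U (Sg.e (P, 0)) := by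
  rw [Sg.U_bot]
  simpa using hs

theorem mem_top {P : T.X.Pt} {s : ℂ} (hs : s ∈ ball 0 (Sg.r P)) (b : ℂ) :
    ![s, b] ∈ Sg.A.U (Sg.e (P, 1)) := by
  rw [Sg.U_top]
  simpa using hs

/-- the fibre in the bottom chart -/
theorem exists_bot (hF : X.B₂.IsSec N F) {P : T.X.Pt} {s : ℂ} (hs : s ∈ ball 0 (Sg.r P))
    (hok : Ok T P s) : ∃ κ t : ℂ, ∀ (w : ℂˣ) b₁ b₂ z₁ z₂,
      (w : ℂ) ^ (5 * q * N) * Psi X F P s w (vec b₁ z₁) (vec b₂ z₂) =
        κ * F (X.pt (Sg.e (P, 0)) b₁ b₂ ![s, t * w, z₁, z₂]) := by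
  by_cases hP : P ∈ T.S'
  · have hs0 : s ≠ 0 := by
      rcases hok with h | h
      · exact h
      · exact absurd hP h.2
    obtain ⟨s, rfl⟩ : ∃ s' : ℂˣ, (s' : ℂ) = s := ⟨Units.mk0 s hs0, rfl⟩
    refine ⟨(s : ℂ) ^ (q * N), (s⁻¹ : ℂˣ), fun w b₁ b₂ z₁ z₂ => ?_⟩
    have := F_bot' hF hP hs (s⁻¹ * w) b₁ b₂ z₁ z₂
    rw [mul_inv_cancel_left, Units.val_mul] at this
    rw [this]
  · refine ⟨1, 1, fun w b₁ b₂ z₁ z₂ => ?_⟩
    rw [one_mul, one_mul]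
    refine (F_bot hF hP hs ?_ w b₁ b₂ z₁ z₂).symm
    rcases hok with h | h
    · exact Or.inl h
    · exact Or.inr h.1

/-- the fibre in the top chart -/
theorem exists_top (hF : X.B₂.IsSec N F) {P : T.X.Pt} {s : ℂ} (hs : s ∈ ball 0 (Sg.r P))
    (hok : Ok T P s) : ∃ κ t : ℂ, ∀ (w : ℂˣ) b₁ b₂ z₁ z₂,
      (w : ℂ) ^ (5 * q * N) * Psi X F P s w⁻¹ (vec b₁ z₁) (vec b₂ z₂) =
        κ * F (X.pt (Sg.e (P, 1)) b₁ b₂ ![s, t * w, z₁, z₂]) := by
  by_cases hP : P ∈ T.S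
  · have hs0 : s ≠ 0 := by
      rcases hok with h | h
      · exact h
      · exact absurd hP h.1
    obtain ⟨s, rfl⟩ : ∃ s' : ℂˣ, (s' : ℂ) = s := ⟨Units.mk0 s hs0, rfl⟩
    refine ⟨(s : ℂ) ^ (q * N), (s⁻¹ : ℂˣ), fun w b₁ b₂ z₁ z₂ => ?_⟩
    have := F_top' hF hP hs (s⁻¹ * w) b₁ b₂ z₁ z₂
    rw [mul_inv_cancel_left, Units.val_mul] at this
    rw [this]
  · refine ⟨1, 1, fun w b₁ b₂ z₁ z₂ => ?_⟩
    rw [one_mul, one_mul]
    refine (F_top hF hP hs ?_ w b₁ b₂ z₁ z₂).symm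
    rcases hok with h | h
    · exact Or.inl h
    · exact Or.inr h.2

/-- The restriction of a section to a fibre. -/
theorem tf (hF : X.B₂.IsSec N F) {P : T.X.Pt} {s : ℂ} (hs : s ∈ ball 0 (Sg.r P))
    (hok : Ok T P s) : TF (5 * q * N) (25 * q * N) (Psi X F P s) where
  h1 c w x x' := by
    show F (P1Y.mk (P1Y.mk (Sg.o P s w) (c • x)) x') = _
    rw [P1Y.mk_smul, F_smul hF, val25, Sg.act_o P s hs hok]
    rfl
  h2 c w x x' := by
    show F (P1Y.mk (P1Y.mk (Sg.o P s w) x) (c • x')) = _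
    rw [P1Y.mk_smul, X.l₁.act, P1Y.smul_mk, F_smul hF, val25, Sg.act_o P s hs hok]
    rfl
  bot b₁ b₂ z₁ z₂ := by
    obtain ⟨κ, t, h⟩ := exists_bot hF hs hok
    refine ⟨fun w => κ * F (X.pt (Sg.e (P, 0)) b₁ b₂ ![s, t * w, z₁, z₂]), ?_,
      fun w => (h w b₁ b₂ z₁ z₂).symm⟩
    rw [← differentiableOn_univ]
    apply DifferentiableOn.const_mul
    exact (hol_pt hF (Sg.e (P, 0)) b₁ b₂).comp
      (diff_vec4 (by fun_prop) (by fun_prop) (by fun_prop) (by fun_prop))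
      (fun z _ => mem_bot hs _)
  top b₁ b₂ z₁ z₂ := by
    obtain ⟨κ, t, h⟩ := exists_top hF hs hok
    refine ⟨fun w => κ * F (X.pt (Sg.e (P, 1)) b₁ b₂ ![s, t * w, z₁, z₂]), ?_,
      fun w => (h w b₁ b₂ z₁ z₂).symm⟩
    rw [← differentiableOn_univ]
    apply DifferentiableOn.const_mul
    exact (hol_pt hF (Sg.e (P, 1)) b₁ b₂).comp
      (diff_vec4 (by fun_prop) (by fun_prop) (by fun_prop) (by fun_prop))
      (fun z _ => mem_top hs _)
  d1 w b₁ b₂ z₂ := by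
    obtain ⟨κ, t, h⟩ := exists_bot hF hs hok
    have hw : (w : ℂ) ^ (5 * q * N) ≠ 0 := pow_ne_zero _ w.ne_zero
    have e : (fun z₁ => Psi X F P s w (vec b₁ z₁) (vec b₂ z₂)) = fun z₁ =>
        ((w : ℂ) ^ (5 * q * N))⁻¹ * (κ * F (X.pt (Sg.e (P, 0)) b₁ b₂ ![s, t * w, z₁, z₂])) := by
      funext z₁
      rw [← h, inv_mul_cancel_left₀ hw]
    rw [e, ← differentiableOn_univ]
    apply DifferentiableOn.const_mul
    apply DifferentiableOn.const_mul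
    exact (hol_pt hF (Sg.e (P, 0)) b₁ b₂).comp
      (diff_vec4 (by fun_prop) (by fun_prop) (by fun_prop) (by fun_prop))
      (fun z _ => mem_bot hs _)
  d2 w b₁ b₂ z₁ := by
    obtain ⟨κ, t, h⟩ := exists_bot hF hs hok
    have hw : (w : ℂ) ^ (5 * q * N) ≠ 0 := pow_ne_zero _ w.ne_zero
    have e : (fun z₂ => Psi X F P s w (vec b₁ z₁) (vec b₂ z₂)) = fun z₂ =>
        ((w : ℂ) ^ (5 * q * N))⁻¹ * (κ * F (X.pt (Sg.e (P, 0)) b₁ b₂ ![s, t * w, z₁, z₂])) := by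
      funext z₁
      rw [← h, inv_mul_cancel_left₀ hw]
    rw [e, ← differentiableOn_univ]
    apply DifferentiableOn.const_mul
    apply DifferentiableOn.const_mul
    exact (hol_pt hF (Sg.e (P, 0)) b₁ b₂).comp
      (diff_vec4 (by fun_prop) (by fun_prop) (by fun_prop) (by fun_prop))
      (fun z _ => mem_bot hs _)

/-! ### Dependence on the point of the curve -/

theorem TF.expand_winv {m α L : ℕ} {Ψ : ℂˣ → V2 → V2 → ℂ} (h : TF m α Ψ) (hL : 2 * m ≤ L)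
    (x x' : V2) (v : ℂˣ) : (v : ℂ) ^ m * Ψ v⁻¹ x x' =
      ∑ l ∈ Finset.range (2 * m + 1), BB L m Ψ (2 * m - l) x x' * (v : ℂ) ^ l := by
  have h1 := h.expand_w hL x x' v⁻¹
  have h2 : (v : ℂ) ^ (2 * m) * (((v⁻¹ : ℂˣ) : ℂ) ^ m * Ψ v⁻¹ x x') = (v : ℂ) ^ m * Ψ v⁻¹ x x' := by
    have : (v : ℂ) ^ m * ((v⁻¹ : ℂˣ) : ℂ) ^ m = 1 := by
      rw [← mul_pow, Units.mul_inv, one_pow]
    rw [two_mul, pow_add]
    linear_combination (v : ℂ) ^ m * Ψ v⁻¹ x x' * this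
  rw [← h2, h1, ← Finset.sum_range_reflect, Finset.mul_sum]
  apply Finset.sum_congr rfl
  intro l hl
  have hl' : l ≤ 2 * m := Nat.lt_succ_iff.1 (Finset.mem_range.1 hl)
  have e1 : 2 * m + 1 - 1 - l = 2 * m - l := by omega
  rw [e1]
  have e2 : (v : ℂ) ^ (2 * m) * ((v⁻¹ : ℂˣ) : ℂ) ^ (2 * m - l) = (v : ℂ) ^ l := by
    have e3 : (v : ℂ) ^ (2 * m) = (v : ℂ) ^ l * (v : ℂ) ^ (2 * m - l) := by
      rw [← pow_add]
      congr 1
      omega
    rw [e3, mul_assoc, ← mul_pow, Units.mul_inv, one_pow, mul_one]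
  linear_combination BB L m Ψ (2 * m - l) x x' * e2

/-- the coefficient functional -/
def Lam (L k e e' : ℕ) (Φ : ℂ → ℂ → ℂ → ℂ) : ℂ :=
  cf L e' fun z₂ => cf L e fun z₁ => cf L k fun w => Φ w z₁ z₂

theorem DD_eq_Lam (L m k e e' : ℕ) (Ψ : ℂˣ → V2 → V2 → ℂ) : DD L m Ψ k e e' =
    Lam L k e e' fun w z₁ z₂ => w ^ m * Ψ (uu w) (vec false z₁) (vec false z₂) := rfl

theorem Lam_congr {L k e e' : ℕ} {Φ Φ' : ℂ → ℂ → ℂ → ℂ}
    (h : ∀ i i' i'' : Fin (L + 1), Φ (nd i) (nd i') (nd i'') = Φ' (nd i) (nd i') (nd i'')) :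
    Lam L k e e' Φ = Lam L k e e' Φ' :=
  cf_congr fun i'' => cf_congr fun i' => cf_congr fun i => h i i' i''

theorem Lam_diff {L k e e' : ℕ} {Φ : ℂ → ℂ → ℂ → ℂ → ℂ} {S : Set ℂ}
    (h : ∀ i i' i'' : Fin (L + 1), DifferentiableOn ℂ (fun s => Φ s (nd i) (nd i') (nd i'')) S) :
    DifferentiableOn ℂ (fun s => Lam L k e e' (Φ s)) S := by
  unfold Lam cf
  apply DifferentiableOn.fun_sum
  intro i'' _
  apply DifferentiableOn.const_mul
  apply DifferentiableOn.fun_sum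
  intro i' _
  apply DifferentiableOn.const_mul
  apply DifferentiableOn.fun_sum
  intro i _
  exact (h i i' i'').const_mul _

theorem hol_bot (hF : X.B₂.IsSec N F) (P : T.X.Pt) (b₁ b₂ : Bool) (w z₁ z₂ : ℂ) :
    DifferentiableOn ℂ (fun s => F (X.pt (Sg.e (P, 0)) b₁ b₂ ![s, w, z₁, z₂]))
      (ball 0 (Sg.r P)) :=
  (hol_pt hF (Sg.e (P, 0)) b₁ b₂).comp
    (diff_vec4 (by fun_prop) (by fun_prop) (by fun_prop) (by fun_prop)) fun _ hs => mem_bot hs _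

theorem hol_top (hF : X.B₂.IsSec N F) (P : T.X.Pt) (b₁ b₂ : Bool) (w z₁ z₂ : ℂ) :
    DifferentiableOn ℂ (fun s => F (X.pt (Sg.e (P, 1)) b₁ b₂ ![s, w, z₁, z₂]))
      (ball 0 (Sg.r P)) :=
  (hol_pt hF (Sg.e (P, 1)) b₁ b₂).comp
    (diff_vec4 (by fun_prop) (by fun_prop) (by fun_prop) (by fun_prop)) fun _ hs => mem_top hs _

/-- the coefficients are holomorphic -/
theorem exists_hol (hF : X.B₂.IsSec N F) (P : T.X.Pt) (L k e e' : ℕ) :
    ∃ g : ℂ → ℂ, DifferentiableOn ℂ g (ball 0 (Sg.r P)) ∧ ∀ s ∈ ball 0 (Sg.r P), s ≠ 0 →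
      DD L (5 * q * N) (Psi X F P s) k e e' = g s := by
  by_cases hP : P ∈ T.S'
  · have hP' : P ∉ T.S := fun h => Finset.disjoint_left.1 T.disj h hP
    refine ⟨fun s => Lam L k e e' fun w z₁ z₂ => w ^ (5 * q * N) * (w ^ (5 * q * N) *
      F (X.pt (Sg.e (P, 1)) false false ![s, w⁻¹, z₁, z₂])), Lam_diff fun i i' i'' =>
        ((hol_top hF P false false _ _ _).const_mul _).const_mul _, fun s hs hs0 => ?_⟩
    rw [DD_eq_Lam]
    apply Lam_congr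
    intro i i' i''
    have h1 := F_top hF hP' hs (Or.inl hs0) (uu (nd i))⁻¹ false false (nd i') (nd i'')
    rw [inv_inv, Units.val_inv_eq_inv_val, uu_val (nd_ne_zero i)] at h1
    rw [h1]
    have h2 : (nd i) ^ (5 * q * N) * ((nd i)⁻¹) ^ (5 * q * N) = 1 := by
      rw [← mul_pow, mul_inv_cancel₀ (nd_ne_zero i), one_pow]
    linear_combination (-(nd i) ^ (5 * q * N) *
      Psi X F P s (uu (nd i)) (vec false (nd i')) (vec false (nd i''))) * h2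
  · refine ⟨fun s => Lam L k e e' fun w z₁ z₂ =>
      F (X.pt (Sg.e (P, 0)) false false ![s, w, z₁, z₂]), Lam_diff fun i i' i'' =>
        hol_bot hF P false false _ _ _, fun s hs hs0 => ?_⟩
    rw [DD_eq_Lam]
    apply Lam_congr
    intro i i' i''
    have h1 := F_bot hF hP hs (Or.inl hs0) (uu (nd i)) false false (nd i') (nd i'')
    rw [uu_val (nd_ne_zero i)] at h1
    rw [h1]

theorem exists_hol_S' (hF : X.B₂.IsSec N F) {P : T.X.Pt} (hP : P ∈ T.S') {L k : ℕ}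
    (hL : 2 * (5 * q * N) ≤ L) (hk : k ≤ 2 * (5 * q * N)) (e e' : ℕ) :
    ∃ g : ℂ → ℂ, DifferentiableOn ℂ g (ball 0 (Sg.r P)) ∧ ∀ s ∈ ball 0 (Sg.r P), s ≠ 0 →
      s ^ k * DD L (5 * q * N) (Psi X F P s) k e e' = s ^ (q * N) * g s := by
  refine ⟨fun s => Lam L k e e' fun b z₁ z₂ =>
      F (X.pt (Sg.e (P, 0)) false false ![s, b, z₁, z₂]), Lam_diff fun i i' i'' =>
        hol_bot hF P false false _ _ _, fun s hs hs0 => ?_⟩
  unfold Lam DD CC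
  rw [← cf_mul_left, ← cf_mul_left]
  apply cf_congr
  intro i''
  rw [← cf_mul_left, ← cf_mul_left]
  apply cf_congr
  intro i'
  rw [← cf_mul_left]
  have ht := tf hF hs (Or.inl hs0)
  refine Eq.symm ((cf_congr (H' := fun b => ∑ l ∈ Finset.range (2 * (5 * q * N) + 1),
    (s ^ l * BB L (5 * q * N) (Psi X F P s) l (vec false (nd i')) (vec false (nd i''))) * b ^ l)
    ?_).trans ?_)
  · intro i
    have h1 := F_bot' hF hP (s := Units.mk0 s hs0) hs (uu (nd i)) false false (nd i') (nd i'')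
    rw [Units.val_mk0, uu_val (nd_ne_zero i)] at h1
    rw [h1, ht.expand_w hL]
    apply Finset.sum_congr rfl
    intro l _
    rw [Units.val_mul, Units.val_mk0, uu_val (nd_ne_zero i), mul_pow]
    ring
  · rw [cf_poly_le hL (hk.trans hL) (fun l =>
      s ^ l * BB L (5 * q * N) (Psi X F P s) l (vec false (nd i')) (vec false (nd i''))), if_pos hk]

theorem exists_hol_S (hF : X.B₂.IsSec N F) {P : T.X.Pt} (hP : P ∈ T.S) {L k : ℕ}
    (hL : 2 * (5 * q * N) ≤ L) (hk : k ≤ 2 * (5 * q * N)) (e e' : ℕ) :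
    ∃ g : ℂ → ℂ, DifferentiableOn ℂ g (ball 0 (Sg.r P)) ∧ ∀ s ∈ ball 0 (Sg.r P), s ≠ 0 →
      s ^ (2 * (5 * q * N) - k) * DD L (5 * q * N) (Psi X F P s) k e e' =
        s ^ (q * N) * g s := by
  refine ⟨fun s => Lam L (2 * (5 * q * N) - k) e e' fun b z₁ z₂ =>
      F (X.pt (Sg.e (P, 1)) false false ![s, b, z₁, z₂]), Lam_diff fun i i' i'' =>
        hol_top hF P false false _ _ _, fun s hs hs0 => ?_⟩
  unfold Lam DD CC
  rw [← cf_mul_left, ← cf_mul_left]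
  apply cf_congr
  intro i''
  rw [← cf_mul_left, ← cf_mul_left]
  apply cf_congr
  intro i'
  rw [← cf_mul_left]
  have ht := tf hF hs (Or.inl hs0)
  refine Eq.symm ((cf_congr (H' := fun b => ∑ l ∈ Finset.range (2 * (5 * q * N) + 1),
    (s ^ l * BB L (5 * q * N) (Psi X F P s) (2 * (5 * q * N) - l) (vec false (nd i'))
      (vec false (nd i''))) * b ^ l) ?_).trans ?_)
  · intro i
    have h1 := F_top' hF hP (s := Units.mk0 s hs0) hs (uu (nd i)) false false (nd i') (nd i'')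
    rw [Units.val_mk0, uu_val (nd_ne_zero i)] at h1
    rw [h1, ht.expand_winv hL]
    apply Finset.sum_congr rfl
    intro l _
    rw [Units.val_mul, Units.val_mk0, uu_val (nd_ne_zero i), mul_pow]
    ring
  · rw [cf_poly_le hL (by omega) (fun l =>
      s ^ l * BB L (5 * q * N) (Psi X F P s) (2 * (5 * q * N) - l) (vec false (nd i'))
        (vec false (nd i''))), if_pos (by omega)]
    have : 2 * (5 * q * N) - (2 * (5 * q * N) - k) = k := by omega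
    rw [this]

/-- comparison of the orders -/
theorem le_order {a g : ℂ → ℂ} {A B : ℕ} {d n : ℤ} (ha : MeromorphicAt a 0)
    (hn : meromorphicOrderAt a 0 = n) (hg : AnalyticAt ℂ g 0)
    (h : ∀ᶠ σ in 𝓝[≠] (0 : ℂ), σ ^ A * (σ ^ d * a σ) = σ ^ B * g σ) : (B : ℤ) ≤ A + d + n := by
  have hid : MeromorphicAt (fun s : ℂ => s) 0 := MeromorphicAt.id 0
  have hz : ∀ m : ℤ, MeromorphicAt (fun s : ℂ => s ^ m) 0 := fun m => hid.zpow m
  have hzo : ∀ m : ℤ, meromorphicOrderAt (fun s : ℂ => s ^ m) 0 = m := by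
    intro m
    have h3 := fun_meromorphicOrderAt_zpow hid (n := m)
    have h4 : meromorphicOrderAt (fun s : ℂ => s) 0 = 1 := meromorphicOrderAt_id
    rw [h3, h4, mul_one]
  have h1 : (fun σ : ℂ => σ ^ (A : ℤ) * (σ ^ d * a σ)) =ᶠ[𝓝[≠] 0]
      fun σ => σ ^ (B : ℤ) * g σ := by
    filter_upwards [h] with σ hσ
    rw [zpow_natCast, zpow_natCast, hσ]
  have h2 := meromorphicOrderAt_congr h1
  rw [fun_meromorphicOrderAt_mul (hz _) ((hz _).fun_mul ha), fun_meromorphicOrderAt_mul (hz _) ha,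
    fun_meromorphicOrderAt_mul (hz _) hg.meromorphicAt, hzo, hzo, hzo, hn] at h2
  have h3 := hg.meromorphicOrderAt_nonneg
  have h4 : ((B : ℤ) : WithTop ℤ) ≤ ((A : ℤ) : WithTop ℤ) + ((d : WithTop ℤ) + (n : WithTop ℤ)) := by
    rw [h2]
    calc ((B : ℤ) : WithTop ℤ) = ((B : ℤ) : WithTop ℤ) + 0 := (add_zero _).symm
      _ ≤ _ := by gcongr
  have h5 : (B : ℤ) ≤ A + (d + n) := by exact_mod_cast h4
  linarith

/-! ### The coefficients are rational functions -/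

theorem eventually_ball {P : T.X.Pt} {s : ℂ} (hs : s ∈ ball 0 (Sg.r P)) :
    ∀ᶠ σ in 𝓝[≠] s, σ ∈ ball (0 : ℂ) (Sg.r P) ∧ σ ≠ 0 := by
  have h1 : ∀ᶠ σ in 𝓝[≠] s, σ ∈ ball (0 : ℂ) (Sg.r P) :=
    nhdsWithin_le_nhds (isOpen_ball.mem_nhds hs)
  exact h1.and eventually_ne_zero'

theorem upow_zero' (d : ℤ) : upow 0 d = 1 := dif_pos rfl

theorem upow_val {s : ℂ} (hs : s ≠ 0) (d : ℤ) : ((upow s d : ℂˣ) : ℂ) = s ^ d := by
  unfold upow
  rw [dif_neg hs, Units.val_zpow_eq_zpow_val, Units.val_mk0]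

theorem psi_tr (hF : X.B₂.IsSec N F) {P : T.X.Pt} {s : ℂ} (hs : s ∈ ball 0 (Sg.r P))
    (hs0 : s ≠ 0) (w : ℂˣ) (x x' : V2) :
    Psi X F (An.c P s) 0 w x x' = (s ^ ((N : ℤ) * D₀ P))⁻¹ * Psi X F P s w x x' := by
  obtain ⟨h1, h2, -⟩ := Sg.iso P s hs hs0
  have h3 := Sg.o_tr P (An.c P s) s hs 0 (mem_ball_self (Sg.r_pos _)) (Or.inl hs0)
    (Or.inr ⟨h1, h2⟩) (An.c_zero _).symm w
  unfold Psi
  rw [h3, F_smul hF, upow_zero', one_div, Units.val_inv_eq_inv_val, upow_val hs0, inv_pow,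
    ← zpow_natCast, ← zpow_mul, mul_comm (D₀ P)]

theorem DD_tr (hF : X.B₂.IsSec N F) {P : T.X.Pt} {s : ℂ} (hs : s ∈ ball 0 (Sg.r P))
    (hs0 : s ≠ 0) (L k e e' : ℕ) : DD L (5 * q * N) (Psi X F (An.c P s) 0) k e e' =
      (s ^ ((N : ℤ) * D₀ P))⁻¹ * DD L (5 * q * N) (Psi X F P s) k e e' := by
  rw [← DD_mul_left]
  congr 1
  funext w x x'
  exact psi_tr hF hs hs0 w x x'

/-- The coefficients are given by elements of the function field. -/
theorem exists_coeff (hc : An.HolConst) (hF : X.B₂.IsSec N F) (L k e e' : ℕ) :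
    ∃ z : K, ∀ P, ∀ s ∈ ball 0 (Sg.r P), ∀ᶠ σ in 𝓝[≠] s,
      DD L (5 * q * N) (Psi X F P σ) k e e' = σ ^ ((N : ℤ) * D₀ P) * An.fn P z σ := by
  have hP₀ : ∃ P₀ : T.X.Pt, True := by
    have h1 : 0 < T.S.card := by
      rw [T.card_S]
      have := T.t_pos
      omega
    obtain ⟨P, -⟩ := Finset.card_pos.1 h1
    exact ⟨P, trivial⟩
  obtain ⟨P₀, -⟩ := hP₀
  have hev : ∀ P, ∀ s ∈ ball (0 : ℂ) (Sg.r P), ∀ᶠ σ in 𝓝[≠] s, σ ∈ ball (0 : ℂ) (Sg.r P) ∧ σ ≠ 0 :=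
    fun P s hs => eventually_ball hs
  have hm : ∀ P, MeromorphicAt
      (fun s => DD L (5 * q * N) (Psi X F (An.c P s) 0) k e e') 0 := by
    intro P
    obtain ⟨g, hg, hg'⟩ := exists_hol hF P L k e e'
    have h0 : (0 : ℂ) ∈ ball (0 : ℂ) (Sg.r P) := mem_ball_self (Sg.r_pos P)
    have hga : AnalyticAt ℂ g 0 := hg.analyticAt (isOpen_ball.mem_nhds h0)
    have h1 : MeromorphicAt (fun s : ℂ => (s ^ ((N : ℤ) * D₀ P))⁻¹ * g s) 0 :=
      ((MeromorphicAt.id 0).zpow _).inv.mul hga.meromorphicAt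
    refine h1.congr ?_
    filter_upwards [hev P 0 h0] with σ hσ
    rw [DD_tr hF hσ.1 hσ.2, hg' σ hσ.1 hσ.2]
  obtain ⟨z, hz⟩ := AnCurve.MerFam.exists_fn (AnCurve.merFam_of_fun (An := An)
    (G := fun Q => DD L (5 * q * N) (Psi X F Q 0) k e e') hm) hc P₀
  refine ⟨z, fun P s hs => ?_⟩
  filter_upwards [hz P s (ball_mono hs), hev P s hs] with σ h1 h2
  rw [h1, DD_tr hF h2.1 h2.2, mul_inv_cancel_left₀ (zpow_ne_zero _ h2.2)]

theorem dvs_apply (T : Datum K) (q : ℕ) (D₀ : T.X.Pt →₀ ℤ) (N : ℕ) (j : ℤ) (P : T.X.Pt) :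
    T.dvs q D₀ N j P = N * D₀ P - (open Classical in if P ∈ T.S then max 0 (j - 4 * q * N) else 0) -
      (open Classical in if P ∈ T.S' then max 0 (-j - 4 * q * N) else 0) := by
  classical
  unfold Datum.dvs
  rw [Finsupp.sub_apply, Finsupp.sub_apply, Finsupp.finsetSum_apply, Finsupp.finsetSum_apply,
    Finsupp.smul_apply]
  simp only [Finsupp.single_apply, Finset.sum_ite_eq', nsmul_eq_mul]

theorem coeff_mem (hF : X.B₂.IsSec N F) {L k e e' : ℕ} (hL : 2 * (5 * q * N) ≤ L)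
    (hk : k ≤ 2 * (5 * q * N)) {z : K} (hz : ∀ P, ∀ s ∈ ball 0 (Sg.r P), ∀ᶠ σ in 𝓝[≠] s,
      DD L (5 * q * N) (Psi X F P σ) k e e' = σ ^ ((N : ℤ) * D₀ P) * An.fn P z σ) :
    z ∈ T.V q D₀ N ((k : ℤ) - 5 * q * N) := by
  intro hz0 P
  have h0 : (0 : ℂ) ∈ ball (0 : ℂ) (Sg.r P) := mem_ball_self (Sg.r_pos P)
  have hev : ∀ᶠ σ in 𝓝[≠] (0 : ℂ), σ ∈ ball (0 : ℂ) (Sg.r P) ∧ σ ≠ 0 := eventually_ball h0
  have hm : MeromorphicAt (An.fn P z) 0 := An.fn_mero P z 0 (AnCurve.mem_ball_zero P)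
  have key : ∀ A B : ℕ, (∃ g : ℂ → ℂ, DifferentiableOn ℂ g (ball 0 (Sg.r P)) ∧
      ∀ s ∈ ball 0 (Sg.r P), s ≠ 0 →
        s ^ A * DD L (5 * q * N) (Psi X F P s) k e e' = s ^ B * g s) →
      (B : ℤ) ≤ A + N * D₀ P + T.X.ord P z := by
    rintro A B ⟨g, hg, hg'⟩
    refine le_order hm (An.ord_fn P hz0) (hg.analyticAt (isOpen_ball.mem_nhds h0)) ?_
    filter_upwards [hz P 0 h0, hev] with σ h1 h2
    rw [← h1, hg' σ h2.1 h2.2]
  have k0 : (0 : ℤ) ≤ N * D₀ P + T.X.ord P z := by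
    have := key 0 0 (by
      obtain ⟨g, hg, hg'⟩ := exists_hol hF P L k e e'
      refine ⟨g, hg, fun s hs hs0 => ?_⟩
      rw [hg' s hs hs0, pow_zero])
    simpa using this
  rw [dvs_apply]
  by_cases hS : P ∈ T.S
  · have hS' : P ∉ T.S' := fun h => Finset.disjoint_left.1 T.disj hS h
    have k1 := key _ _ (exists_hol_S hF hS hL hk e e')
    rw [if_pos hS, if_neg hS']
    have e1 : ((2 * (5 * q * N) - k : ℕ) : ℤ) = 2 * (5 * q * N) - k := by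
      rw [Nat.cast_sub hk]
      push_cast
      ring
    rw [e1] at k1
    push_cast at k1
    rcases max_choice (0 : ℤ) ((k : ℤ) - 5 * q * N - 4 * q * N) with h | h <;> rw [h] <;> linarith
  · by_cases hS' : P ∈ T.S'
    · have k1 := key _ _ (exists_hol_S' hF hS' hL hk e e')
      rw [if_neg hS, if_pos hS']
      push_cast at k1
      rcases max_choice (0 : ℤ) (-((k : ℤ) - 5 * q * N) - 4 * q * N) with h | h <;> rw [h] <;>
        linarith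
    · rw [if_neg hS, if_neg hS']
      linarith

/-- an exponent -/
def ex (a b c d : ℕ) : Fin 4 →₀ ℕ := Finsupp.equivFunOnFinite.symm ![a, b, c, d]

theorem eval_ex (v : Fin 4 → ℂ) (a b c d : ℕ) (z : ℂ) :
    eval v (monomial (ex a b c d) z) = z * (v 0 ^ a * v 1 ^ b * v 2 ^ c * v 3 ^ d) := by
  rw [eval_monomial, Finsupp.prod_fintype _ _ (fun i => pow_zero _), Fin.prod_univ_four]
  rfl

/-- **Surjectivity.** Every section is given by a polynomial. -/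
theorem exists_rep (hc : An.HolConst) (hF : X.B₂.IsSec N F) :
    ∃ f ∈ T.sec q D₀ N, Rep X N F f := by
  set m := 5 * q * N with hm
  set α := 25 * q * N with hα
  set L := α + 3 * m with hL
  have hmα : 3 * m ≤ α := by
    have : α = 5 * m := by rw [hα, hm]; ring
    omega
  choose z hz using fun k e e' : ℕ => exists_coeff hc hF L k e e'
  refine ⟨∑ k ∈ Finset.range (2 * m + 1), ∑ e ∈ Finset.range (α - 3 * m + 3 * k + 1),
    ∑ e' ∈ Finset.range (α + 3 * m - 3 * k + 1),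
      monomial (ex (α - 3 * m + 3 * k - e) e (α + 3 * m - 3 * k - e') e') (z k e e'), ?_, ?_⟩
  · refine sum_mem fun k hk => sum_mem fun e he => sum_mem fun e' he' => ?_
    have hk' : k ≤ 2 * m := Nat.lt_succ_iff.1 (Finset.mem_range.1 hk)
    have he1 : e ≤ α - 3 * m + 3 * k := Nat.lt_succ_iff.1 (Finset.mem_range.1 he)
    have he1' : e' ≤ α + 3 * m - 3 * k := Nat.lt_succ_iff.1 (Finset.mem_range.1 he')
    intro e₀ h0
    rw [coeff_monomial] at h0 ⊢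
    split_ifs at h0 with h1
    · subst h1
      rw [if_pos rfl]
      have c1 : (α : ℤ) = 25 * q * N := by rw [hα]; push_cast; ring
      have c2 : (m : ℤ) = 5 * q * N := by rw [hm]; push_cast; ring
      refine ⟨(k : ℤ) - 5 * q * N, ?_, ?_, ?_, ?_⟩
      · rw [abs_le]
        constructor
        · have : (0 : ℤ) ≤ k := Int.natCast_nonneg k
          linarith
        · have : (k : ℤ) ≤ 2 * m := by exact_mod_cast hk'
          linarith
      · show ((α - 3 * m + 3 * k - e : ℕ) : ℤ) + (e : ℕ) = _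
        have : (α - 3 * m + 3 * k - e) + e + 3 * m = α + 3 * k := by omega
        have : (((α - 3 * m + 3 * k - e : ℕ) : ℤ) + (e : ℕ)) + 3 * m = α + 3 * k := by
          exact_mod_cast this
        linarith
      · show ((α + 3 * m - 3 * k - e' : ℕ) : ℤ) + (e' : ℕ) = _
        have : (α + 3 * m - 3 * k - e') + e' + 3 * k = α + 3 * m := by omega
        have : (((α + 3 * m - 3 * k - e' : ℕ) : ℤ) + (e' : ℕ)) + 3 * k = α + 3 * m := by
          exact_mod_cast this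
        linarith
      · exact coeff_mem hF (by omega) hk' (hz k e e')
    · exact absurd rfl h0
  · intro P s hs
    have hs' := ball_mono hs
    have h1 : ∀ᶠ σ in 𝓝[≠] s, spec An P σ (∑ k ∈ Finset.range (2 * m + 1),
        ∑ e ∈ Finset.range (α - 3 * m + 3 * k + 1), ∑ e' ∈ Finset.range (α + 3 * m - 3 * k + 1),
        monomial (ex (α - 3 * m + 3 * k - e) e (α + 3 * m - 3 * k - e') e') (z k e e')) =
        ∑ k ∈ Finset.range (2 * m + 1), ∑ e ∈ Finset.range (α - 3 * m + 3 * k + 1),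
        ∑ e' ∈ Finset.range (α + 3 * m - 3 * k + 1),
        monomial (ex (α - 3 * m + 3 * k - e) e (α + 3 * m - 3 * k - e') e')
          (An.fn P (z k e e') σ) := by
      have t1 : ∀ᶠ σ in 𝓝[≠] s, ∀ k ∈ Finset.range (2 * m + 1),
          ∀ e ∈ Finset.range (α - 3 * m + 3 * k + 1),
          ∀ e' ∈ Finset.range (α + 3 * m - 3 * k + 1), spec An P σ
            (monomial (ex (α - 3 * m + 3 * k - e) e (α + 3 * m - 3 * k - e') e') (z k e e')) =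
            monomial (ex (α - 3 * m + 3 * k - e) e (α + 3 * m - 3 * k - e') e')
              (An.fn P (z k e e') σ) :=
        (eventually_all_finset _).2 fun k _ => (eventually_all_finset _).2 fun e _ =>
          (eventually_all_finset _).2 fun e' _ => spec_monomial hs' _ _
      have t2 : ∀ᶠ σ in 𝓝[≠] s, ∀ k ∈ Finset.range (2 * m + 1),
          ∀ e ∈ Finset.range (α - 3 * m + 3 * k + 1), spec An P σ
            (∑ e' ∈ Finset.range (α + 3 * m - 3 * k + 1),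
            monomial (ex (α - 3 * m + 3 * k - e) e (α + 3 * m - 3 * k - e') e') (z k e e')) =
            ∑ e' ∈ Finset.range (α + 3 * m - 3 * k + 1), spec An P σ
            (monomial (ex (α - 3 * m + 3 * k - e) e (α + 3 * m - 3 * k - e') e') (z k e e')) :=
        (eventually_all_finset _).2 fun k _ => (eventually_all_finset _).2 fun e _ =>
          spec_sum hs' _ _
      have t3 : ∀ᶠ σ in 𝓝[≠] s, ∀ k ∈ Finset.range (2 * m + 1), spec An P σ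
            (∑ e ∈ Finset.range (α - 3 * m + 3 * k + 1),
            ∑ e' ∈ Finset.range (α + 3 * m - 3 * k + 1),
            monomial (ex (α - 3 * m + 3 * k - e) e (α + 3 * m - 3 * k - e') e') (z k e e')) =
            ∑ e ∈ Finset.range (α - 3 * m + 3 * k + 1), spec An P σ
            (∑ e' ∈ Finset.range (α + 3 * m - 3 * k + 1),
            monomial (ex (α - 3 * m + 3 * k - e) e (α + 3 * m - 3 * k - e') e') (z k e e')) :=
        (eventually_all_finset _).2 fun k _ => spec_sum hs' _ _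
      filter_upwards [t1, t2, t3, spec_sum hs' (Finset.range (2 * m + 1)) fun k =>
        ∑ e ∈ Finset.range (α - 3 * m + 3 * k + 1), ∑ e' ∈ Finset.range (α + 3 * m - 3 * k + 1),
        monomial (ex (α - 3 * m + 3 * k - e) e (α + 3 * m - 3 * k - e') e') (z k e e')]
        with σ t1 t2 t3 t4
      rw [t4]
      refine Finset.sum_congr rfl fun k hk => ?_
      rw [t3 k hk]
      refine Finset.sum_congr rfl fun e he => ?_
      rw [t2 k hk e he]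
      exact Finset.sum_congr rfl fun e' he' => t1 k hk e he e' he'
    have h2 : ∀ᶠ σ in 𝓝[≠] s, ∀ k ∈ Finset.range (2 * m + 1),
        ∀ e ∈ Finset.range (α - 3 * m + 3 * k + 1),
        ∀ e' ∈ Finset.range (α + 3 * m - 3 * k + 1),
        DD L (5 * q * N) (Psi X F P σ) k e e' =
          σ ^ ((N : ℤ) * D₀ P) * An.fn P (z k e e') σ :=
      (eventually_all_finset _).2 fun k _ => (eventually_all_finset _).2 fun e _ =>
        (eventually_all_finset _).2 fun e' _ => hz k e e' P s hs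
    have h3 : ∀ᶠ σ in 𝓝[≠] s, σ ∈ ball (0 : ℂ) (Sg.r P) ∧ σ ≠ 0 := eventually_ball hs
    filter_upwards [h1, h2, h3] with σ h1 h2 h3 u x x'
    have ht := (tf hF h3.1 (Or.inl h3.2)).expand_all hmα le_rfl (u ^ 6) x x'
    have hu : ((u ^ 6 : ℂˣ) : ℂ) ^ m ≠ 0 := pow_ne_zero _ (Units.ne_zero _)
    apply mul_left_cancel₀ hu
    refine ht.trans ?_
    rw [h1]
    simp only [map_sum, Finset.mul_sum]
    refine Finset.sum_congr rfl fun k hk => Finset.sum_congr rfl fun e he =>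
      Finset.sum_congr rfl fun e' he' => ?_
    have hk' : k ≤ 2 * m := Nat.lt_succ_iff.1 (Finset.mem_range.1 hk)
    have he1 : e ≤ α - 3 * m + 3 * k := Nat.lt_succ_iff.1 (Finset.mem_range.1 he)
    have he1' : e' ≤ α + 3 * m - 3 * k := Nat.lt_succ_iff.1 (Finset.mem_range.1 he')
    rw [h2 k hk e he e' he', eval_ex]
    show _ = ((u ^ 6 : ℂˣ) : ℂ) ^ m * (σ ^ ((N : ℤ) * D₀ P) * (An.fn P (z k e e') σ *
      (((u : ℂ) * x.1 0) ^ (α - 3 * m + 3 * k - e) * ((u : ℂ) * x.1 1) ^ e *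
      (((u⁻¹ : ℂˣ) : ℂ) * x'.1 0) ^ (α + 3 * m - 3 * k - e') *
      (((u⁻¹ : ℂˣ) : ℂ) * x'.1 1) ^ e')))
    have e1 : ((u ^ 6 : ℂˣ) : ℂ) ^ m * ((u : ℂ) ^ (α - 3 * m + 3 * k - e) * (u : ℂ) ^ e *
        (((u⁻¹ : ℂˣ) : ℂ) ^ (α + 3 * m - 3 * k - e') * ((u⁻¹ : ℂˣ) : ℂ) ^ e')) =
        ((u ^ 6 : ℂˣ) : ℂ) ^ k := by
      rw [← pow_add, ← pow_add, Nat.sub_add_cancel he1, Nat.sub_add_cancel he1',
        Units.val_pow_eq_pow_val, ← pow_mul, ← pow_mul, ← mul_assoc, ← pow_add]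
      have e2 : 6 * m + (α - 3 * m + 3 * k) = 6 * k + (α + 3 * m - 3 * k) := by omega
      rw [e2, pow_add, mul_assoc, ← mul_pow, Units.mul_inv, one_pow, mul_one]
    rw [mul_pow, mul_pow, mul_pow, mul_pow, ← e1]
    ring

end

end

end Pool.Agent.YTDA
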