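import Pool.Agent.YTDA.SecSurj

/-!
# Uniqueness of the polynomial of a section and of the section of a polynomial
-/

set_option autoImplicit false

namespace Pool.Agent.YTDA

open Complex Set Topology Filter Metric MvPolynomial
open Pool.Agent.YTD

noncomputable section

/-- A polynomial which vanishes at the points `pv u x x'` is zero. -/
theorem eq_zero_of_pv {f : MvPolynomial (Fin 4) ℂ} (h : ∀ (u : ℂˣ) x x', eval (pv u x x') f = 0) :
    f = 0 := by
  have h1 : (MvPolynomial.X 0 * (MvPolynomial.X 2 * f) : MvPolynomial (Fin 4) ℂ) = 0 := by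
    apply MvPolynomial.funext
    intro v
    rw [map_zero, map_mul, map_mul, eval_X, eval_X]
    by_cases h0 : v 0 = 0
    · rw [h0, zero_mul]
    by_cases h2 : v 2 = 0
    · rw [h2, zero_mul, mul_zero]
    have e : v = pv 1 ⟨![v 0, v 1], fun h => h0 (congrFun h 0)⟩
        ⟨![v 2, v 3], fun h => h2 (congrFun h 0)⟩ := by
      ext i
      fin_cases i <;> simp [pv]
    rw [e, h, mul_zero, mul_zero]
  have h2 : (MvPolynomial.X 0 : MvPolynomial (Fin 4) ℂ) ≠ 0 := MvPolynomial.X_ne_zero 0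
  have h3 : (MvPolynomial.X 2 : MvPolynomial (Fin 4) ℂ) ≠ 0 := MvPolynomial.X_ne_zero 2
  rcases mul_eq_zero.1 h1 with h4 | h4
  · exact absurd h4 h2
  · rcases mul_eq_zero.1 h4 with h5 | h5
    · exact absurd h5 h3
    · exact h5

theorem exists_pt {K : Type} [Field K] [Algebra ℂ K] (T : Datum K) : Nonempty T.X.Pt := by
  have h1 : 0 < T.S.card := by
    rw [T.card_S]
    have := T.t_pos
    omega
  obtain ⟨P, -⟩ := Finset.card_pos.1 h1
  exact ⟨P⟩

section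

variable {K : Type} [Field K] [Algebra ℂ K] {T : Datum K} {q : ℕ} {D₀ : T.X.Pt →₀ ℤ}
  {An : AnCurve T.X.toCurveOrd} {Sg : SigModel T q D₀ An}
  {X : TwoP1 Sg.A Sg.D (25 * (q : ℤ)) 3 (25 * (q : ℤ)) (-3)}
  {N : ℕ} {F F' : P1Y X.D₁ (25 * (q : ℤ)) (-3) → ℂ} {f f' : MvPolynomial (Fin 4) K}

theorem Rep.eq_zero (h : Rep X N 0 f) : f = 0 := by
  have := exists_pt T
  apply MvPolynomial.ext
  intro e
  rw [coeff_zero]
  apply An.fn_inj
  intro P
  have h0 : (0 : ℂ) ∈ ball (0 : ℂ) (Sg.r P) := mem_ball_self (Sg.r_pos P)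
  filter_upwards [h P 0 h0, coeff_spec (ball_mono h0) f, eventually_fn_zero (ball_mono h0),
    eventually_ne_zero'] with σ h1 h2 h3 h4
  have h5 : spec An P σ f = 0 := by
    apply eq_zero_of_pv
    intro u x x'
    have h6 := h1 u x x'
    have h7 : (0 : ℂ) = σ ^ (N * D₀ P) * eval (pv u x x') (spec An P σ f) := h6
    rcases mul_eq_zero.1 h7.symm with h8 | h8
    · exact absurd h8 (zpow_ne_zero _ h4)
    · exact h8
  rw [← h2, h5, coeff_zero, h3]

/-- the polynomial of a section is unique -/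
theorem Rep.unique (h : Rep X N F f) (h' : Rep X N F f') : f = f' := by
  have h1 := h.add (h'.smul (-1))
  have h2 : F + (-1 : ℂ) • F = 0 := by
    rw [neg_one_smul, add_neg_cancel]
  rw [h2] at h1
  have h3 := h1.eq_zero
  rw [neg_one_smul, ← sub_eq_add_neg] at h3
  exact sub_eq_zero.1 h3

/-- coordinate on the curve in a chart -/
def sg (i : Fin 3) (z : E 2) : ℂ := if i = 2 then z 0 * z 1 else z 0

/-- the frame of a chart at generic points -/
theorem γ_o (P : T.X.Pt) (i : Fin 3) {z : E 2} (hz : z ∈ Sg.A.U (Sg.e (P, i))) (h0 : z 0 ≠ 0)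
    (h1 : z 1 ≠ 0) : sg i z ∈ ball 0 (Sg.r P) ∧
      ∃ c w : ℂˣ, Sg.A.γ (Sg.e (P, i)) z = c • Sg.o P (sg i z) w := by
  have e : z = ![z 0, z 1] := by
    ext j; fin_cases j <;> rfl
  fin_cases i
  · have hz' : z ∈ Sg.A.U (Sg.e (P, 0)) := hz
    rw [Sg.U_bot] at hz'
    have hz'' : z 0 ∈ ball 0 (Sg.r P) := by simpa using hz'
    refine ⟨hz'', ?_⟩
    show ∃ c w : ℂˣ, Sg.A.γ (Sg.e (P, 0)) z = c • Sg.o P (z 0) w
    by_cases hP : P ∈ T.S'
    · have h2 := Sg.γ_bot' P hP (Units.mk0 _ h0) (by simpa using hz') (Units.mk0 _ h1)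
      rw [Units.val_mk0, Units.val_mk0, ← e] at h2
      exact ⟨_, _, h2⟩
    · have h2 := Sg.γ_bot P hP (z 0) hz'' (Or.inl h0) (Units.mk0 _ h1)
      rw [Units.val_mk0, ← e] at h2
      exact ⟨_, _, h2⟩
  · have hz' : z ∈ Sg.A.U (Sg.e (P, 1)) := hz
    rw [Sg.U_top] at hz'
    have hz'' : z 0 ∈ ball 0 (Sg.r P) := by simpa using hz'
    refine ⟨hz'', ?_⟩
    show ∃ c w : ℂˣ, Sg.A.γ (Sg.e (P, 1)) z = c • Sg.o P (z 0) w
    by_cases hP : P ∈ T.S
    · have h2 := Sg.γ_top' P hP (Units.mk0 _ h0) (by simpa using hz') (Units.mk0 _ h1)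
      rw [Units.val_mk0, Units.val_mk0, ← e] at h2
      exact ⟨_, _, h2⟩
    · have h2 := Sg.γ_top P hP (z 0) hz'' (Or.inl h0) (Units.mk0 _ h1)
      rw [Units.val_mk0, ← e] at h2
      exact ⟨_, _, h2⟩
  · have hz' : z ∈ Sg.A.U (Sg.e (P, 2)) := hz
    show z 0 * z 1 ∈ ball 0 (Sg.r P) ∧
      ∃ c w : ℂˣ, Sg.A.γ (Sg.e (P, 2)) z = c • Sg.o P (z 0 * z 1) w
    by_cases hP : P ∈ T.S
    · rw [Sg.U_mid P (Or.inl hP)] at hz'
      refine ⟨by simpa using hz', ?_⟩
      have h2 := Sg.γ_mid P hP (Units.mk0 _ h0) (Units.mk0 _ h1) (by simpa using hz')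
      rw [Units.val_mk0, Units.val_mk0, ← e] at h2
      exact ⟨_, _, h2⟩
    · by_cases hP' : P ∈ T.S'
      · rw [Sg.U_mid P (Or.inr hP')] at hz'
        refine ⟨by simpa using hz', ?_⟩
        have h2 := Sg.γ_mid' P hP' (Units.mk0 _ h0) (Units.mk0 _ h1) (by simpa using hz')
        rw [Units.val_mk0, Units.val_mk0, ← e] at h2
        exact ⟨_, _, h2⟩
      · rw [Sg.U_mid' P hP hP'] at hz'
        exact hz'.elim

theorem exists_pow_six (w : ℂˣ) : ∃ u : ℂˣ, u ^ 6 = w := by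
  obtain ⟨z, hz⟩ := IsAlgClosed.exists_pow_nat_eq (w : ℂ) (n := 6) (by norm_num)
  have hz0 : z ≠ 0 := by
    rintro rfl
    rw [zero_pow (by norm_num)] at hz
    exact w.ne_zero hz.symm
  refine ⟨Units.mk0 z hz0, Units.ext ?_⟩
  rw [Units.val_pow_eq_pow_val, Units.val_mk0, hz]

theorem eq_of_eventually {φ ψ : ℂ → ℂ} {t : ℂ} (h : ContinuousAt φ t) (h' : ContinuousAt ψ t)
    (he : ∀ᶠ s in 𝓝[≠] t, φ s = ψ s) : φ t = ψ t :=
  tendsto_nhds_unique_of_eventuallyEq (h.tendsto.mono_left nhdsWithin_le_nhds)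
    (h'.tendsto.mono_left nhdsWithin_le_nhds) he

/-- Two sections which agree at the generic points are equal. -/
theorem IsSec.eq_of_generic (hF : X.B₂.IsSec N F) (hF' : X.B₂.IsSec N F')
    (h : ∀ P, ∀ s ∈ ball 0 (Sg.r P), ∀ᶠ σ in 𝓝[≠] s, ∀ w x x',
      Psi X F P σ w x x' = Psi X F' P σ w x x') : F = F' := by
  -- generic points of the charts
  have g0 : ∀ (P : T.X.Pt) (i : Fin 3) (b₁ b₂ : Bool) (z : E 4),
      ![z 0, z 1] ∈ Sg.A.U (Sg.e (P, i)) → z 0 ≠ 0 → z 1 ≠ 0 →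
      (∀ w x x', Psi X F P (sg i ![z 0, z 1]) w x x' = Psi X F' P (sg i ![z 0, z 1]) w x x') →
      F (X.pt (Sg.e (P, i)) b₁ b₂ z) = F' (X.pt (Sg.e (P, i)) b₁ b₂ z) := by
    intro P i b₁ b₂ z hz h0 h1 hw
    obtain ⟨-, c, w, hc⟩ := γ_o P i hz h0 h1
    show F (P1Y.mk (P1Y.mk (Sg.A.γ (Sg.e (P, i)) ![z 0, z 1]) (vec b₁ (z 2))) (vec b₂ (z 3))) =
      F' (P1Y.mk (P1Y.mk (Sg.A.γ (Sg.e (P, i)) ![z 0, z 1]) (vec b₁ (z 2))) (vec b₂ (z 3)))
    rw [hc, F_smul hF, F_smul hF']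
    congr 1
    exact hw w (vec b₁ (z 2)) (vec b₂ (z 3))
  have hcont : ∀ (G : P1Y X.D₁ (25 * (q : ℤ)) (-3) → ℂ), X.B₂.IsSec N G →
      ∀ (a : Sg.A.ι) (b₁ b₂ : Bool) (z : E 4), ![z 0, z 1] ∈ Sg.A.U a →
      ContinuousAt (fun z => G (X.pt a b₁ b₂ z)) z := by
    intro G hG a b₁ b₂ z hz
    have h1 : X.B₂.U (X.i a b₁ b₂) = {z | ![z 0, z 1] ∈ Sg.A.U a} := by
      ext z
      exact X.mem_U
    have h2 : {z : E 4 | ![z 0, z 1] ∈ Sg.A.U a} ∈ 𝓝 z := by
      rw [← h1]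
      exact (X.B₂.isOpen_U _).mem_nhds (by rw [h1]; exact hz)
    exact ((hol_pt hG a b₁ b₂).differentiableAt h2).continuousAt
  have hopen : ∀ (a : Sg.A.ι) (z : E 2), z ∈ Sg.A.U a → Sg.A.U a ∈ 𝓝 z :=
    fun a z hz => (Sg.A.isOpen_U a).mem_nhds hz
  have cvec : ∀ (z : E 4), Continuous fun t : ℂ => (![t, z 1, z 2, z 3] : E 4) := by
    intro z
    have := (diff_vec4 (S := univ) (f0 := fun t => t) (f1 := fun _ => z 1) (f2 := fun _ => z 2)
      (f3 := fun _ => z 3) (by fun_prop) (by fun_prop) (by fun_prop) (by fun_prop)).continuousOn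
    exact continuousOn_univ.1 this
  have cvec1 : ∀ (z : E 4), Continuous fun t : ℂ => (![z 0, t, z 2, z 3] : E 4) := by
    intro z
    have := (diff_vec4 (S := univ) (f0 := fun _ => z 0) (f1 := fun t => t) (f2 := fun _ => z 2)
      (f3 := fun _ => z 3) (by fun_prop) (by fun_prop) (by fun_prop) (by fun_prop)).continuousOn
    exact continuousOn_univ.1 this
  have evec : ∀ z : E 4, (![z 0, z 1, z 2, z 3] : E 4) = z := by
    intro z; ext j; fin_cases j <;> rfl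
  have c2 : ∀ z : E 4, Continuous fun t : ℂ => (![t, z 1] : E 2) := by
    intro z
    refine continuous_pi fun j => ?_
    fin_cases j
    · exact continuous_id
    · exact continuous_const
  have c2' : ∀ z : E 4, Continuous fun t : ℂ => (![z 0, t] : E 2) := by
    intro z
    refine continuous_pi fun j => ?_
    fin_cases j
    · exact continuous_const
    · exact continuous_id
  -- points with `z 1 ≠ 0`
  have g1 : ∀ (P : T.X.Pt) (i : Fin 3) (b₁ b₂ : Bool) (z : E 4),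
      ![z 0, z 1] ∈ Sg.A.U (Sg.e (P, i)) → z 1 ≠ 0 →
      F (X.pt (Sg.e (P, i)) b₁ b₂ z) = F' (X.pt (Sg.e (P, i)) b₁ b₂ z) := by
    intro P i b₁ b₂ z hz h1
    have k1 := eq_of_eventually (t := z 0)
      (φ := fun t => F (X.pt (Sg.e (P, i)) b₁ b₂ ![t, z 1, z 2, z 3]))
      (ψ := fun t => F' (X.pt (Sg.e (P, i)) b₁ b₂ ![t, z 1, z 2, z 3]))
      (ContinuousAt.comp (g := fun z => F (X.pt (Sg.e (P, i)) b₁ b₂ z))
        (f := fun t : ℂ => (![t, z 1, z 2, z 3] : E 4)) (hcont F hF _ b₁ b₂ _ hz)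
        (cvec z).continuousAt)
      (ContinuousAt.comp (g := fun z => F' (X.pt (Sg.e (P, i)) b₁ b₂ z))
        (f := fun t : ℂ => (![t, z 1, z 2, z 3] : E 4)) (hcont F' hF' _ b₁ b₂ _ hz)
        (cvec z).continuousAt) ?_
    · simpa only [evec] using k1
    · have u1 : ∀ᶠ t in 𝓝[≠] (z 0), (![t, z 1] : E 2) ∈ Sg.A.U (Sg.e (P, i)) :=
        nhdsWithin_le_nhds ((c2 z).continuousAt.preimage_mem_nhds (hopen _ _ hz))
      -- the coordinate of the curve stays in the disc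
      have u2 : sg i ![z 0, z 1] ∈ ball (0 : ℂ) (Sg.r P) := by
        fin_cases i
        · have hz' : ![z 0, z 1] ∈ Sg.A.U (Sg.e (P, 0)) := hz
          rw [Sg.U_bot] at hz'
          show z 0 ∈ ball (0 : ℂ) (Sg.r P)
          simpa using hz'
        · have hz' : ![z 0, z 1] ∈ Sg.A.U (Sg.e (P, 1)) := hz
          rw [Sg.U_top] at hz'
          show z 0 ∈ ball (0 : ℂ) (Sg.r P)
          simpa using hz'
        · have hz' : ![z 0, z 1] ∈ Sg.A.U (Sg.e (P, 2)) := hz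
          show z 0 * z 1 ∈ ball (0 : ℂ) (Sg.r P)
          by_cases hP : P ∈ T.S ∨ P ∈ T.S'
          · rw [Sg.U_mid P hP] at hz'
            simpa using hz'
          · rw [not_or] at hP
            rw [Sg.U_mid' P hP.1 hP.2] at hz'
            exact hz'.elim
      have u3 : Tendsto (fun t : ℂ => sg i ![t, z 1]) (𝓝[≠] (z 0)) (𝓝[≠] (sg i ![z 0, z 1])) := by
        by_cases hi : i = 2
        · have e1 : (fun t : ℂ => sg i ![t, z 1]) = fun t => t * z 1 := by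
            funext t
            show (if i = 2 then t * z 1 else t) = _
            rw [if_pos hi]
          rw [e1]
          have e2 : sg i ![z 0, z 1] = z 0 * z 1 := congrFun e1 (z 0)
          rw [e2]
          exact ((hasDerivAt_id (z 0)).mul_const (z 1)).tendsto_nhdsNE (by simpa using h1)
        · have e1 : (fun t : ℂ => sg i ![t, z 1]) = fun t => t := by
            funext t
            show (if i = 2 then t * z 1 else t) = _
            rw [if_neg hi]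
          rw [e1]
          have e2 : sg i ![z 0, z 1] = z 0 := congrFun e1 (z 0)
          rw [e2]
          exact tendsto_id
      filter_upwards [u1, u3.eventually (h P _ u2), eventually_ne_zero'] with t h2 h3 h4
      exact g0 P i b₁ b₂ ![t, z 1, z 2, z 3] h2 h4 h1 h3
  -- all points
  have g2 : ∀ (P : T.X.Pt) (i : Fin 3) (b₁ b₂ : Bool) (z : E 4),
      ![z 0, z 1] ∈ Sg.A.U (Sg.e (P, i)) →
      F (X.pt (Sg.e (P, i)) b₁ b₂ z) = F' (X.pt (Sg.e (P, i)) b₁ b₂ z) := by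
    intro P i b₁ b₂ z hz
    have k1 := eq_of_eventually (t := z 1)
      (φ := fun t => F (X.pt (Sg.e (P, i)) b₁ b₂ ![z 0, t, z 2, z 3]))
      (ψ := fun t => F' (X.pt (Sg.e (P, i)) b₁ b₂ ![z 0, t, z 2, z 3]))
      (ContinuousAt.comp (g := fun z => F (X.pt (Sg.e (P, i)) b₁ b₂ z))
        (f := fun t : ℂ => (![z 0, t, z 2, z 3] : E 4)) (hcont F hF _ b₁ b₂ _ hz)
        (cvec1 z).continuousAt)
      (ContinuousAt.comp (g := fun z => F' (X.pt (Sg.e (P, i)) b₁ b₂ z))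
        (f := fun t : ℂ => (![z 0, t, z 2, z 3] : E 4)) (hcont F' hF' _ b₁ b₂ _ hz)
        (cvec1 z).continuousAt) ?_
    · simpa only [evec] using k1
    · have u1 : ∀ᶠ t in 𝓝[≠] (z 1), (![z 0, t] : E 2) ∈ Sg.A.U (Sg.e (P, i)) :=
        nhdsWithin_le_nhds ((c2' z).continuousAt.preimage_mem_nhds (hopen _ _ hz))
      filter_upwards [u1, eventually_ne_zero'] with t h2 h4
      exact g1 P i b₁ b₂ ![z 0, t, z 2, z 3] h2 h4
  funext p
  obtain ⟨j, z, hz, c, rfl⟩ := X.B₂.cover p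
  rw [hF.hom, hF'.hom]
  congr 1
  obtain ⟨a, b₁, b₂, rfl⟩ := X.i_surj j
  obtain ⟨⟨P, i⟩, rfl⟩ := Sg.e.surjective a
  have hz' := X.mem_U.1 hz
  rw [X.γ_eq hz']
  exact g2 P i b₁ b₂ z hz'

/-- the section of a polynomial is unique -/
theorem Rep.unique' (hF : X.B₂.IsSec N F) (hF' : X.B₂.IsSec N F') (h : Rep X N F f)
    (h' : Rep X N F' f) : F = F' := by
  apply IsSec.eq_of_generic hF hF'
  intro P s hs
  filter_upwards [h P s hs, h' P s hs] with σ h1 h2 w x x'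
  obtain ⟨u, rfl⟩ := exists_pow_six w
  rw [h1, h2]

end

end

end Pool.Agent.YTDA
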