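import Pool.Agent.YTDA.SecUniq
import Pool.Agent.YTDA.HolC

/-!
# Regular functions on `X` are constant
-/

set_option autoImplicit false

namespace Pool.Agent.YTDA

open Complex Set Topology Filter Metric MvPolynomial
open Pool.Agent.YTD

noncomputable section

theorem const_of_ord_nonneg {K : Type} [Field K] [Algebra ℂ K] {X : Curve K}
    (An : AnCurve X.toCurveOrd) (hne : Nonempty X.Pt) {z : K} (h : z ∈ X.L 0) :
    ∃ a : ℂ, z = algebraMap ℂ K a := by
  have h0 : ∀ P, 0 ≤ meromorphicOrderAt (An.fn P z) 0 := by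
    intro P
    have h1 := An.le_ord_fn P h
    simpa using h1
  obtain ⟨a, ha⟩ := (AnCurve.merFam_fn (An := An) z).const An.holConst h0
  refine ⟨a, ?_⟩
  apply An.fn_inj
  intro P
  filter_upwards [ha P, An.fn_const P a 0 (AnCurve.mem_ball_zero P)] with σ h1 h2
  rw [h1, h2]

variable {K : Type} [Field K] [Algebra ℂ K] {T : Datum K} {q : ℕ} {D₀ : T.X.Pt →₀ ℤ}
  {An : AnCurve T.X.toCurveOrd} {M : SigModel T q D₀ An}

theorem sec_zero {f : MvPolynomial (Fin 4) K} (An : AnCurve T.X.toCurveOrd)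
    (hf : f ∈ T.sec q D₀ 0) : ∃ a : ℂ, f = a • 1 := by
  have h1 : ∀ e, f.coeff e ≠ 0 → e = 0 ∧ f.coeff e ∈ T.X.L 0 := by
    intro e he
    obtain ⟨j, hj, h2, h3, h4⟩ := hf e he
    simp only [Nat.cast_zero, mul_zero, abs_nonpos_iff] at hj
    subst hj
    simp only [Nat.cast_zero, mul_zero, add_zero, sub_zero] at h2 h3
    refine ⟨?_, ?_⟩
    · ext i
      fin_cases i
      · show e 0 = 0
        omega
      · show e 1 = 0
        omega
      · show e 2 = 0
        omega
      · show e 3 = 0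
        omega
    · have e1 : T.dvs q D₀ 0 0 = 0 := by
        ext P
        rw [dvs_apply]
        simp
      unfold Datum.V at h4
      rwa [e1] at h4
  have h2 : f.coeff 0 ∈ T.X.L 0 := by
    by_cases h : f.coeff 0 = 0
    · rw [h]; exact Submodule.zero_mem _
    · exact (h1 0 h).2
  obtain ⟨a, ha⟩ := const_of_ord_nonneg An (exists_pt T) h2
  refine ⟨a, ?_⟩
  apply MvPolynomial.ext
  intro e
  rw [coeff_smul, coeff_one]
  split_ifs with h3
  · rw [← h3, ha, Algebra.algebraMap_eq_smul_one]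
  · rw [smul_zero]
    by_contra h4
    exact h3 (h1 e h4).1.symm

/-- T15: regular functions are constant -/
theorem isSec_zero_const (X : TwoP1 M.A M.D (25 * (q : ℤ)) 3 (25 * (q : ℤ)) (-3))
    (F : P1Y X.D₁ (25 * (q : ℤ)) (-3) → ℂ) (hF : X.B₂.IsSec 0 F) : ∃ c, ∀ y, F y = c := by
  obtain ⟨f, hf, hr⟩ := exists_rep An.holConst hF
  obtain ⟨a, rfl⟩ := sec_zero An hf
  refine ⟨a, fun y => ?_⟩
  have h1 : Rep X 0 (a • (1 : P1Y X.D₁ (25 * (q : ℤ)) (-3) → ℂ)) (a • 1) := Rep.one.smul a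
  have h2 : X.B₂.IsSec 0 (a • (1 : P1Y X.D₁ (25 * (q : ℤ)) (-3) → ℂ)) := by
    refine ⟨fun c y => ?_, fun i => ?_⟩
    · simp
    · simp only [Pi.smul_apply, Pi.one_apply]
      exact differentiableOn_const _
  rw [Rep.unique' hF h2 hr h1]
  simp

end

end Pool.Agent.YTDA
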