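import Pool.Agent.YTDA.Curve
import Pool.Agent.YTDA.Glue

/-!
The surface `Σ` with its line bundle: points and charts.
-/

namespace Pool.Agent.YTDA

open Complex Set Topology Metric Filter
open Pool.Agent.YTD

noncomputable section

/-- a nonzero complex number as a unit (`1` for `0`) -/
def un (z : ℂ) : ℂˣ := if h : z = 0 then 1 else Units.mk0 z h

theorem un_zero : un 0 = 1 := dif_pos rfl

theorem un_ne {z : ℂ} (h : z ≠ 0) : ((un z : ℂˣ) : ℂ) = z := by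
  unfold un
  rw [dif_neg h, Units.val_mk0]

theorem un_coe (u : ℂˣ) : un (u : ℂ) = u := by
  apply Units.ext
  exact un_ne u.ne_zero

theorem un_mul {z w : ℂ} (hz : z ≠ 0) (hw : w ≠ 0) : un (z * w) = un z * un w := by
  apply Units.ext
  rw [un_ne (mul_ne_zero hz hw), Units.val_mul, un_ne hz, un_ne hw]

theorem un_inv (z : ℂ) : un z⁻¹ = (un z)⁻¹ := by
  by_cases hz : z = 0
  · rw [hz, inv_zero, un_zero, inv_one]
  · apply Units.ext
    rw [un_ne (inv_ne_zero hz), Units.val_inv_eq_inv_val, un_ne hz]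

theorem upow_eq (s : ℂ) (d : ℤ) : upow s d = un s ^ d := by
  unfold upow un
  by_cases h : s = 0
  · rw [dif_pos h, dif_pos h, one_zpow]
  · rw [dif_neg h, dif_neg h]

theorem upow_zero_right (s : ℂ) : upow s 0 = 1 := by
  rw [upow_eq, zpow_zero]

theorem upow_zero_left (d : ℤ) : upow 0 d = 1 := by
  rw [upow_eq, un_zero, one_zpow]

theorem an_coord (i : Fin 2) (z : E 2) : AnalyticAt ℂ (fun ζ : E 2 => ζ i) z :=
  (ContinuousLinearMap.proj (R := ℂ) (φ := fun _ : Fin 2 => ℂ) i).analyticAt z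

theorem an_vec {a b : E 2 → ℂ} {z : E 2} (ha : AnalyticAt ℂ a z) (hb : AnalyticAt ℂ b z) :
    AnalyticAt ℂ (fun ζ => (![a ζ, b ζ] : E 2)) z := by
  have : (fun ζ => (![a ζ, b ζ] : E 2)) = fun ζ i => (![a, b] : Fin 2 → E 2 → ℂ) i ζ := by
    funext ζ i
    fin_cases i <;> rfl
  rw [this]
  apply AnalyticAt.pi
  intro i
  fin_cases i
  · exact ha
  · exact hb

theorem an_un {m : ℕ} {h : E m → ℂ} {z : E m} (hh : AnalyticAt ℂ h z) (h0 : h z ≠ 0) (d : ℤ) :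
    AnalyticAt ℂ (fun ζ => ((un (h ζ) ^ d : ℂˣ) : ℂ)) z := by
  have h1 : AnalyticAt ℂ (fun ζ => h ζ ^ d) z := hh.fun_zpow h0
  refine h1.congr ?_
  filter_upwards [hh.continuousAt.eventually_ne h0] with ζ hζ
  rw [Units.val_zpow_eq_zpow_val, un_ne hζ]

/-- fibre coordinate of a side: `w` at the bottom, `1/w` at the top -/
def uw (σ : Bool) (w : ℂˣ) : ℂˣ := if σ then w⁻¹ else w

theorem uw_false (w : ℂˣ) : uw false w = w := rfl

theorem uw_true (w : ℂˣ) : uw true w = w⁻¹ := rfl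

theorem uw_mul (σ : Bool) (w w' : ℂˣ) : uw σ (w * w') = uw σ w * uw σ w' := by
  cases σ
  · rfl
  · exact mul_inv w w'

theorem uw_inv (σ : Bool) (w : ℂˣ) : uw σ w⁻¹ = (uw σ w)⁻¹ := by
  cases σ <;> rfl

theorem uw_not (σ : Bool) (w : ℂˣ) : uw (!σ) w = (uw σ w)⁻¹ := by
  cases σ
  · rfl
  · exact (inv_inv w).symm

theorem uw_uw (σ : Bool) (w : ℂˣ) : uw σ (uw σ w) = w := by
  cases σ
  · rfl
  · exact inv_inv w

theorem uw_inj (σ : Bool) {w w' : ℂˣ} (h : uw σ w = uw σ w') : w = w' := by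
  rw [← uw_uw σ w, h, uw_uw]

namespace Sig

/-- the fibre coordinate of a point of `Σ` -/
inductive Fib
  | main (w : ℂˣ)
  | fin (σ : Bool)
  | exc (e : ℂˣ)
  | node

variable {K : Type} [Field K] [Algebra ℂ K] (T : Datum K)

/-- the points with blown up fibre -/
def Exc (P : T.X.Pt) : Prop := P ∈ T.S ∨ P ∈ T.S'

/-- the valid points -/
def Val (P : T.X.Pt) : Fib → Prop
  | .main _ => True
  | .fin _ => True
  | .exc _ => Exc T P
  | .node => Exc T P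

/-- the total space of the line bundle on `Σ` -/
structure YY where
  base : T.X.Pt
  fib : Fib
  u : ℂˣ
  val : Val T base fib

variable {T}

theorem YY.ext' {y y' : YY T} (h1 : y.base = y'.base) (h2 : y.fib = y'.fib) (h3 : y.u = y'.u) :
    y = y' := by
  cases y
  cases y'
  subst h1
  subst h2
  subst h3
  rfl

/-- the point of `Σ` under a point of the line bundle -/
def pt (y : YY T) : T.X.Pt × Fib := (y.base, y.fib)

theorem pt_val (y : YY T) : Val T (pt y).1 (pt y).2 := y.val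

instance : MulAction ℂˣ (YY T) where
  smul c y := ⟨y.base, y.fib, c * y.u, y.val⟩
  one_smul _ := YY.ext' rfl rfl (one_mul _)
  mul_smul _ _ _ := YY.ext' rfl rfl (mul_assoc _ _ _)

theorem pt_smul (c : ℂˣ) (y : YY T) : pt (c • y) = pt y := rfl

theorem smul_u (c : ℂˣ) (y : YY T) : (c • y).u = c * y.u := rfl

theorem ext_pt {y y' : YY T} (h : pt y = pt y') (h3 : y.u = y'.u) : y = y' :=
  YY.ext' (congrArg Prod.fst h) (congrArg Prod.snd h) h3

theorem eq_smul_of_pt {y y' : YY T} (h : pt y' = pt y) : ∃ c : ℂˣ, y' = c • y := by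
  refine ⟨y'.u * y.u⁻¹, ext_pt h ?_⟩
  rw [smul_u, inv_mul_cancel_right]

theorem smul_free {c : ℂˣ} {y : YY T} (h : y = c • y) : c = 1 := by
  have h1 : y.u = c * y.u := congrArg YY.u h
  exact (mul_eq_right.1 h1.symm)

variable (T)

open Classical in
/-- the point of the line bundle with given coordinates -/
def mkY (P : T.X.Pt) (φ : Fib) (u : ℂˣ) : YY T :=
  if h : Val T P φ then ⟨P, φ, u, h⟩ else ⟨P, .fin false, u, trivial⟩

variable {T}

theorem mkY_of {P : T.X.Pt} {φ : Fib} (h : Val T P φ) (u : ℂˣ) :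
    mkY T P φ u = ⟨P, φ, u, h⟩ := dif_pos h

theorem smul_mkY (c : ℂˣ) (P : T.X.Pt) (φ : Fib) (u : ℂˣ) :
    c • mkY T P φ u = mkY T P φ (c * u) := by
  unfold mkY
  by_cases h : Val T P φ
  · rw [dif_pos h, dif_pos h]
    rfl
  · rw [dif_neg h, dif_neg h]
    rfl

theorem pt_mkY {P : T.X.Pt} {φ : Fib} (h : Val T P φ) (u : ℂˣ) :
    pt (mkY T P φ u) = (P, φ) := by
  rw [mkY_of h]
  rfl

theorem mkY_eta (y : YY T) : mkY T y.base y.fib y.u = y := mkY_of y.val _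

variable (T) in
/-- the side on which the fibre over an exceptional point is blown up -/
def sd (P : T.X.Pt) : Bool := open Classical in decide (P ∈ T.S)

variable (T) in
/-- the points with fibre blown up on the side `σ` -/
def Bl (σ : Bool) (P : T.X.Pt) : Prop := Exc T P ∧ sd T P = σ

theorem bl_true {P : T.X.Pt} : Bl T true P ↔ P ∈ T.S := by
  unfold Bl Exc sd
  simp only [decide_eq_true_eq]
  tauto

theorem bl_false {P : T.X.Pt} : Bl T false P ↔ P ∈ T.S' := by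
  unfold Bl Exc sd
  simp only [decide_eq_false_iff_not]
  have h : P ∈ T.S' → P ∉ T.S := fun h1 h2 => Finset.disjoint_left.1 T.disj h2 h1
  tauto

/-! ### The charts -/

variable (q : ℕ) (D₀ : T.X.Pt →₀ ℤ) (An : AnCurve T.X.toCurveOrd)

open Classical in
/-- fibre coordinate in a plain chart -/
def pfib (σ : Bool) (v : ℂ) : Fib := if v = 0 then .fin σ else .main (uw σ (un v))

theorem pfib_zero (σ : Bool) : pfib σ 0 = .fin σ := if_pos rfl

theorem pfib_ne {σ : Bool} {v : ℂ} (h : v ≠ 0) : pfib σ v = .main (uw σ (un v)) := if_neg h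

theorem val_pfib (P : T.X.Pt) (σ : Bool) (v : ℂ) : Val T P (pfib σ v) := by
  by_cases h : v = 0
  · rw [h, pfib_zero]; trivial
  · rw [pfib_ne h]; trivial

/-- plain chart: coordinates `(s, w)` or `(s, 1/w)` -/
def pc (P : T.X.Pt) (σ : Bool) (z : E 2) : YY T :=
  mkY T (An.c P (z 0)) (pfib σ (z 1)) (un (z 1) ^ (5 * (q : ℤ)) * upow (z 0) (D₀ P))

open Classical in
/-- blown up chart -/
def bl (P : T.X.Pt) (σ : Bool) (z : E 2) : YY T :=
  if z 0 = 0 then mkY T P (if z 1 = 0 then .fin σ else .exc (un (z 1))) (un (z 1) ^ (q : ℤ))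
  else un (z 0) ^ (-(q : ℤ)) • pc q D₀ An P σ ![z 0, z 0 * z 1]

open Classical in
/-- middle chart -/
def mid (P : T.X.Pt) (z : E 2) : YY T :=
  if z 0 = 0 then mkY T P (if z 1 = 0 then .node else .exc (un (z 1))⁻¹) 1
  else un (z 0) ^ (9 * (q : ℤ)) • pc q D₀ An P (!sd T P) ![z 0 * z 1, (z 0)⁻¹]

/-- frame of weight zero -/
def oo (P : T.X.Pt) (s : ℂ) (w : ℂˣ) : YY T :=
  mkY T (An.c P s) (.main w) (upow s (D₀ P))

theorem pt_pc (P : T.X.Pt) (σ : Bool) (z : E 2) :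
    pt (pc q D₀ An P σ z) = (An.c P (z 0), pfib σ (z 1)) := pt_mkY (val_pfib _ _ _) _

theorem pt_bl_ne {P : T.X.Pt} {σ : Bool} {z : E 2} (h : z 0 ≠ 0) :
    pt (bl q D₀ An P σ z) = (An.c P (z 0), pfib σ (z 0 * z 1)) := by
  unfold bl
  rw [if_neg h, pt_smul, pt_pc]
  rfl

theorem pt_bl_zero {P : T.X.Pt} {σ : Bool} {z : E 2} (h : z 0 = 0) (h1 : z 1 = 0) :
    pt (bl q D₀ An P σ z) = (P, .fin σ) := by
  unfold bl
  rw [if_pos h, if_pos h1, pt_mkY (by trivial)]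

theorem pt_bl_exc {P : T.X.Pt} (hP : Exc T P) {σ : Bool} {z : E 2} (h : z 0 = 0) (h1 : z 1 ≠ 0) :
    pt (bl q D₀ An P σ z) = (P, .exc (un (z 1))) := by
  unfold bl
  rw [if_pos h, if_neg h1, pt_mkY (by exact hP)]

theorem pt_mid_ne {P : T.X.Pt} {z : E 2} (h : z 0 ≠ 0) :
    pt (mid q D₀ An P z) = (An.c P (z 0 * z 1), .main (uw (sd T P) (un (z 0)))) := by
  unfold mid
  rw [if_neg h, pt_smul, pt_pc]
  show (An.c P (z 0 * z 1), pfib (!sd T P) (z 0)⁻¹) = _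
  rw [pfib_ne (inv_ne_zero h), uw_not, un_inv, uw_inv, inv_inv]

theorem pt_mid_node {P : T.X.Pt} (hP : Exc T P) {z : E 2} (h : z 0 = 0) (h1 : z 1 = 0) :
    pt (mid q D₀ An P z) = (P, .node) := by
  unfold mid
  rw [if_pos h, if_pos h1, pt_mkY (by exact hP)]

theorem pt_mid_exc {P : T.X.Pt} (hP : Exc T P) {z : E 2} (h : z 0 = 0) (h1 : z 1 ≠ 0) :
    pt (mid q D₀ An P z) = (P, .exc (un (z 1))⁻¹) := by
  unfold mid
  rw [if_pos h, if_neg h1, pt_mkY (by exact hP)]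

/-! ### Elementary transitions -/

/-- the two plain charts at a point -/
theorem pc_not (P : T.X.Pt) (σ : Bool) {s v : ℂ} (hv : v ≠ 0) :
    pc q D₀ An P (!σ) ![s, v⁻¹] = un v ^ (-(10 * (q : ℤ))) • pc q D₀ An P σ ![s, v] := by
  unfold pc
  rw [smul_mkY]
  show mkY T (An.c P s) (pfib (!σ) v⁻¹) (un v⁻¹ ^ (5 * (q : ℤ)) * upow s (D₀ P)) =
    mkY T (An.c P s) (pfib σ v) (un v ^ (-(10 * (q : ℤ))) * (un v ^ (5 * (q : ℤ)) *
      upow s (D₀ P)))
  rw [pfib_ne hv, pfib_ne (inv_ne_zero hv), uw_not, un_inv, uw_inv, inv_inv, inv_zpow',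
    ← mul_assoc, ← zpow_add]
  congr 3
  ring

theorem loc_pc_not (P : T.X.Pt) (σ : Bool) {s v : ℂ} (hv : v ≠ 0) :
    Loc (pc q D₀ An P σ) ![s, v] (pc q D₀ An P (!σ)) ![s, v⁻¹] := by
  refine ⟨fun ζ => ![ζ 0, (ζ 1)⁻¹], fun ζ => un (ζ 1) ^ (-(10 * (q : ℤ))),
    an_vec (an_coord 0 _) ((an_coord 1 _).inv hv), an_un (an_coord 1 _) hv _, rfl, ?_⟩
  filter_upwards [(an_coord 1 ![s, v]).continuousAt.eventually_ne hv] with ζ hζ
  rw [pc_not q D₀ An P σ hζ]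
  congr 2
  funext i
  fin_cases i <;> rfl

theorem locS_pc_not (P : T.X.Pt) (σ : Bool) {s v : ℂ} (hv : v ≠ 0) :
    LocS (pc q D₀ An P σ) ![s, v] (pc q D₀ An P (!σ)) ![s, v⁻¹] := by
  refine ⟨loc_pc_not q D₀ An P σ hv, ?_⟩
  have h := loc_pc_not q D₀ An P (!σ) (s := s) (inv_ne_zero hv)
  rwa [inv_inv, Bool.not_not] at h

theorem eta2 (z : E 2) : (![z 0, z 1] : E 2) = z := by
  funext i
  fin_cases i <;> rfl

/-- blown up and plain chart -/
theorem locS_bl_pc (P : T.X.Pt) (σ : Bool) {s v : ℂ} (hs : s ≠ 0) :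
    LocS (bl q D₀ An P σ) ![s, v] (pc q D₀ An P σ) ![s, s * v] := by
  constructor
  · refine ⟨fun ζ => ![ζ 0, ζ 0 * ζ 1], fun ζ => un (ζ 0) ^ (q : ℤ),
      an_vec (an_coord 0 _) ((an_coord 0 _).mul (an_coord 1 _)), an_un (an_coord 0 _) hs _, rfl,
      ?_⟩
    filter_upwards [(an_coord 0 ![s, v]).continuousAt.eventually_ne hs] with ζ hζ
    unfold bl
    rw [if_neg hζ, smul_smul, ← zpow_add, add_neg_cancel, zpow_zero, one_smul]
  · refine ⟨fun ζ => ![ζ 0, (ζ 0)⁻¹ * ζ 1], fun ζ => un (ζ 0) ^ (-(q : ℤ)),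
      an_vec (an_coord 0 _) (((an_coord 0 _).inv hs).mul (an_coord 1 _)),
      an_un (an_coord 0 _) hs _, ?_, ?_⟩
    · show (![s, s⁻¹ * (s * v)] : E 2) = _
      rw [inv_mul_cancel_left₀ hs]
    · filter_upwards [(an_coord 0 ![s, s * v]).continuousAt.eventually_ne hs] with ζ hζ
      unfold bl
      rw [if_neg (by exact hζ)]
      show un (ζ 0) ^ (-(q : ℤ)) • pc q D₀ An P σ ![ζ 0, ζ 0 * ((ζ 0)⁻¹ * ζ 1)] = _
      rw [mul_inv_cancel_left₀ hζ, eta2]

/-- middle chart and plain chart -/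
theorem locS_mid_pc (P : T.X.Pt) {v f : ℂ} (hv : v ≠ 0) :
    LocS (mid q D₀ An P) ![v, f] (pc q D₀ An P (!sd T P)) ![v * f, v⁻¹] := by
  constructor
  · refine ⟨fun ζ => ![ζ 0 * ζ 1, (ζ 0)⁻¹], fun ζ => un (ζ 0) ^ (-(9 * (q : ℤ))),
      an_vec ((an_coord 0 _).mul (an_coord 1 _)) ((an_coord 0 _).inv hv),
      an_un (an_coord 0 _) hv _, rfl, ?_⟩
    filter_upwards [(an_coord 0 ![v, f]).continuousAt.eventually_ne hv] with ζ hζ
    unfold mid
    rw [if_neg hζ, smul_smul, ← zpow_add, neg_add_cancel, zpow_zero, one_smul]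
  · have hv' : (![v * f, v⁻¹] : E 2) 1 ≠ 0 := inv_ne_zero hv
    refine ⟨fun ζ => ![(ζ 1)⁻¹, ζ 0 * ζ 1], fun ζ => un (ζ 1) ^ (-(9 * (q : ℤ))),
      an_vec ((an_coord 1 _).inv hv') ((an_coord 0 _).mul (an_coord 1 _)),
      an_un (an_coord 1 _) hv' _, ?_, ?_⟩
    · show (![v⁻¹⁻¹, v * f * v⁻¹] : E 2) = _
      rw [inv_inv, mul_right_comm, mul_inv_cancel₀ hv, one_mul]
    · filter_upwards [(an_coord 1 ![v * f, v⁻¹]).continuousAt.eventually_ne hv'] with ζ hζ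
      unfold mid
      rw [if_neg (by exact inv_ne_zero hζ)]
      show un (ζ 1)⁻¹ ^ (9 * (q : ℤ)) • pc q D₀ An P (!sd T P)
        ![(ζ 1)⁻¹ * (ζ 0 * ζ 1), (ζ 1)⁻¹⁻¹] = _
      rw [inv_inv, un_inv, inv_zpow', mul_comm (ζ 1)⁻¹, mul_assoc, mul_inv_cancel₀ hζ, mul_one,
        eta2]

/-- the identity relating the blown up chart and the middle chart -/
theorem mid_bl (P : T.X.Pt) {s v : ℂ} (hv : v ≠ 0) :
    mid q D₀ An P ![s * v, v⁻¹] = un v ^ (-(q : ℤ)) • bl q D₀ An P (sd T P) ![s, v] := by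
  by_cases hs : s = 0
  · subst hs
    unfold mid bl
    rw [if_pos (by show (0 : ℂ) * v = 0; rw [zero_mul]), if_pos (show (![0, v] : E 2) 0 = 0 from rfl),
      if_neg (by exact inv_ne_zero hv), if_neg (by exact hv), smul_mkY]
    show mkY T P (.exc (un v⁻¹)⁻¹) 1 = mkY T P (.exc (un v)) (un v ^ (-(q : ℤ)) * un v ^ (q : ℤ))
    rw [un_inv, inv_inv, ← zpow_add, neg_add_cancel, zpow_zero]
  · unfold mid bl
    rw [if_neg (by exact mul_ne_zero hs hv), if_neg (by exact hs)]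
    show un (s * v) ^ (9 * (q : ℤ)) • pc q D₀ An P (!sd T P) ![s * v * v⁻¹, (s * v)⁻¹] =
      un v ^ (-(q : ℤ)) • un s ^ (-(q : ℤ)) • pc q D₀ An P (sd T P) ![s, s * v]
    rw [mul_assoc, mul_inv_cancel₀ hv, mul_one, pc_not q D₀ An P (sd T P) (mul_ne_zero hs hv),
      smul_smul, smul_smul, ← zpow_add, un_mul hs hv, mul_comm (un v ^ (-(q : ℤ))), ← mul_zpow]
    congr 2
    ring

theorem locS_bl_mid (P : T.X.Pt) {s v : ℂ} (hv : v ≠ 0) :
    LocS (bl q D₀ An P (sd T P)) ![s, v] (mid q D₀ An P) ![s * v, v⁻¹] := by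
  constructor
  · refine ⟨fun ζ => ![ζ 0 * ζ 1, (ζ 1)⁻¹], fun ζ => un (ζ 1) ^ (-(q : ℤ)),
      an_vec ((an_coord 0 _).mul (an_coord 1 _)) ((an_coord 1 _).inv hv),
      an_un (an_coord 1 _) hv _, rfl, ?_⟩
    filter_upwards [(an_coord 1 ![s, v]).continuousAt.eventually_ne hv] with ζ hζ
    rw [mid_bl q D₀ An P hζ, eta2]
  · have hv' : (![s * v, v⁻¹] : E 2) 1 ≠ 0 := inv_ne_zero hv
    refine ⟨fun ζ => ![ζ 0 * ζ 1, (ζ 1)⁻¹], fun ζ => un (ζ 1) ^ (-(q : ℤ)),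
      an_vec ((an_coord 0 _).mul (an_coord 1 _)) ((an_coord 1 _).inv hv'),
      an_un (an_coord 1 _) hv' _, ?_, ?_⟩
    · show (![s * v * v⁻¹, v⁻¹⁻¹] : E 2) = _
      rw [inv_inv, mul_assoc, mul_inv_cancel₀ hv, mul_one]
    · filter_upwards [(an_coord 1 ![s * v, v⁻¹]).continuousAt.eventually_ne hv'] with ζ hζ
      have h := mid_bl q D₀ An P (s := ζ 0 * ζ 1) (v := (ζ 1)⁻¹) (inv_ne_zero hζ)
      rw [mul_assoc, mul_inv_cancel₀ hζ, mul_one, inv_inv, eta2, un_inv, inv_zpow', neg_neg] at h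
      rw [h, smul_smul, ← zpow_add, neg_add_cancel, zpow_zero, one_smul]

end Sig

end

end Pool.Agent.YTDA
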