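import Pool.Agent.YTDA.SigA

/-!
The surface `Σ`: admissible radii, transitions along the curve, canonical forms.
-/

namespace Pool.Agent.YTDA

open Complex Set Topology Metric Filter
open Pool.Agent.YTD

noncomputable section

namespace Sig

variable {K : Type} [Field K] [Algebra ℂ K] {T : Datum K}
variable (q : ℕ) (D₀ : T.X.Pt →₀ ℤ) (An : AnCurve T.X.toCurveOrd)

/-- admissible radii -/
structure IsRad (r : T.X.Pt → ℝ) : Prop where
  pos : ∀ P, 0 < r P
  le : ∀ P, r P ≤ An.r P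
  iso : ∀ P, ∀ s ∈ ball (0 : ℂ) (r P), s ≠ 0 →
    An.c P s ∉ T.S ∧ An.c P s ∉ T.S' ∧ D₀ (An.c P s) = 0

variable {q D₀ An} {r : T.X.Pt → ℝ}

theorem IsRad.zero_mem (hr : IsRad D₀ An r) (P : T.X.Pt) : (0 : ℂ) ∈ ball (0 : ℂ) (r P) :=
  mem_ball_self (hr.pos P)

theorem IsRad.mem (hr : IsRad D₀ An r) {P : T.X.Pt} {s : ℂ} (h : s ∈ ball (0 : ℂ) (r P)) :
    s ∈ ball (0 : ℂ) (An.r P) := ball_subset_ball (hr.le P) h

theorem IsRad.inj (hr : IsRad D₀ An r) {P : T.X.Pt} {s s' : ℂ} (h : s ∈ ball (0 : ℂ) (r P))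
    (h' : s' ∈ ball (0 : ℂ) (r P)) (e : An.c P s = An.c P s') : s = s' :=
  An.inj P (hr.mem h) (hr.mem h') e

theorem IsRad.eq_zero (hr : IsRad D₀ An r) {P : T.X.Pt} {s : ℂ} (h : s ∈ ball (0 : ℂ) (r P))
    (e : An.c P s = P) : s = 0 :=
  hr.inj h (hr.zero_mem P) (e.trans (An.c_zero P).symm)

theorem IsRad.not_exc (hr : IsRad D₀ An r) {P : T.X.Pt} {s : ℂ} (h : s ∈ ball (0 : ℂ) (r P))
    (hs : s ≠ 0) : ¬ Exc T (An.c P s) := by
  obtain ⟨h1, h2, _⟩ := hr.iso P s h hs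
  rintro (h3 | h3)
  · exact h1 h3
  · exact h2 h3

/-- if two discs have a common point, then one of the coordinates is nonzero or the centres
agree; if the centres are different then `D₀` vanishes at a centre with coordinate `0` -/
theorem IsRad.D_zero (hr : IsRad D₀ An r) {P Q : T.X.Pt} {s' : ℂ}
    (hs' : s' ∈ ball (0 : ℂ) (r Q)) (hPQ : P ≠ Q) (hc : P = An.c Q s') : D₀ P = 0 := by
  by_cases h : s' = 0
  · exact (hPQ (by rw [hc, h, An.c_zero])).elim
  · rw [hc]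
    exact (hr.iso Q s' hs' h).2.2

/-- the frame factor is analytic -/
theorem an_upow {m : ℕ} {h : E m → ℂ} {z : E m} (hh : AnalyticAt ℂ h z) {d : ℤ}
    (h0 : h z = 0 → d = 0) : AnalyticAt ℂ (fun ζ => ((upow (h ζ) d : ℂˣ) : ℂ)) z := by
  by_cases h1 : h z = 0
  · rw [h0 h1]
    have : (fun ζ => ((upow (h ζ) 0 : ℂˣ) : ℂ)) = fun _ => 1 := by
      funext ζ
      rw [upow_zero_right, Units.val_one]
    rw [this]
    exact analyticAt_const
  · have : (fun ζ => ((upow (h ζ) d : ℂˣ) : ℂ)) = fun ζ => ((un (h ζ) ^ d : ℂˣ) : ℂ) := by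
      funext ζ
      rw [upow_eq]
    rw [this]
    exact an_un hh h1 d

theorem loc_curve (hr : IsRad D₀ An r) {P Q : T.X.Pt} (σ : Bool) {s s' : ℂ} (v : ℂ)
    (hs : s ∈ ball (0 : ℂ) (r P)) (hs' : s' ∈ ball (0 : ℂ) (r Q)) (hc : An.c P s = An.c Q s') :
    Loc (pc q D₀ An P σ) ![s, v] (pc q D₀ An Q σ) ![s', v] := by
  by_cases hPQ : P = Q
  · subst hPQ
    have := hr.inj hs hs' hc
    subst this
    exact Loc.refl _ _
  obtain ⟨f, hf, hfs, _, hf1, _⟩ := An.tr P Q s (hr.mem hs) s' (hr.mem hs') hc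
  have hf0 : AnalyticAt ℂ (fun ζ : E 2 => f (ζ 0)) ![s, v] :=
    AnalyticAt.comp (g := f) (f := fun ζ : E 2 => ζ 0) hf (an_coord 0 ![s, v])
  refine ⟨fun ζ => ![f (ζ 0), ζ 1], fun ζ => upow (f (ζ 0)) (D₀ Q) * (upow (ζ 0) (D₀ P))⁻¹,
    an_vec hf0 (an_coord 1 _), ?_, ?_, ?_⟩
  · have h1 : AnalyticAt ℂ (fun ζ : E 2 => ((upow (f (ζ 0)) (D₀ Q) : ℂˣ) : ℂ)) ![s, v] := by
      apply an_upow hf0
      intro h
      have h' : s' = 0 := by rw [← hfs]; exact h
      apply hr.D_zero hs (Ne.symm hPQ)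
      rw [hc, h', An.c_zero]
    have h2 : AnalyticAt ℂ (fun ζ : E 2 => ((upow (ζ 0) (D₀ P) : ℂˣ) : ℂ)) ![s, v] := by
      apply an_upow (an_coord 0 _)
      intro h
      have h' : s = 0 := h
      apply hr.D_zero hs' hPQ
      rw [← hc, h', An.c_zero]
    refine (h1.mul (h2.inv (Units.ne_zero _))).congr (Eventually.of_forall fun ζ => ?_)
    show _ = ((upow (f (ζ 0)) (D₀ Q) * (upow (ζ 0) (D₀ P))⁻¹ : ℂˣ) : ℂ)
    rw [Units.val_mul, Units.val_inv_eq_inv_val]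
    rfl
  · show (![f s, v] : E 2) = _
    rw [hfs]
  · have h3 : ∀ᶠ ζ : E 2 in 𝓝 ![s, v], An.c Q (f (ζ 0)) = An.c P (ζ 0) :=
      (an_coord 0 ![s, v]).continuousAt.eventually hf1
    filter_upwards [h3] with ζ hζ
    unfold pc
    rw [smul_mkY]
    show mkY T (An.c Q (f (ζ 0))) (pfib σ (ζ 1)) (un (ζ 1) ^ (5 * (q : ℤ)) *
      upow (f (ζ 0)) (D₀ Q)) = _
    rw [hζ]
    congr 1
    rw [mul_assoc, mul_left_comm (upow (ζ 0) (D₀ P))⁻¹, inv_mul_cancel, mul_one, mul_comm]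

theorem locS_curve (hr : IsRad D₀ An r) {P Q : T.X.Pt} (σ : Bool) {s s' : ℂ} (v : ℂ)
    (hs : s ∈ ball (0 : ℂ) (r P)) (hs' : s' ∈ ball (0 : ℂ) (r Q)) (hc : An.c P s = An.c Q s') :
    LocS (pc q D₀ An P σ) ![s, v] (pc q D₀ An Q σ) ![s', v] :=
  ⟨loc_curve hr σ v hs hs' hc, loc_curve hr σ v hs' hs hc.symm⟩

theorem locS_center (hr : IsRad D₀ An r) (P : T.X.Pt) (σ : Bool) {s : ℂ} (v : ℂ)
    (hs : s ∈ ball (0 : ℂ) (r P)) :
    LocS (pc q D₀ An P σ) ![s, v] (pc q D₀ An (An.c P s) σ) ![0, v] :=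
  locS_curve hr σ v hs (hr.zero_mem _) (An.c_zero _).symm

/-! ### Canonical forms -/

variable (q D₀ An) in
open Classical in
/-- the canonical chart at a point of `Σ` -/
def canC (p : T.X.Pt × Fib) : E 2 → YY T :=
  match p.2 with
  | .main _ => pc q D₀ An p.1 false
  | .fin σ => if Bl T σ p.1 then bl q D₀ An p.1 σ else pc q D₀ An p.1 σ
  | .exc _ => mid q D₀ An p.1
  | .node => mid q D₀ An p.1

theorem canC_fin_bl {P : T.X.Pt} {σ : Bool} (h : Bl T σ P) :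
    canC q D₀ An (P, .fin σ) = bl q D₀ An P σ := if_pos h

theorem canC_fin_pc {P : T.X.Pt} {σ : Bool} (h : ¬ Bl T σ P) :
    canC q D₀ An (P, .fin σ) = pc q D₀ An P σ := if_neg h

/-- the coordinates of a point in the canonical chart -/
def canZ : Fib → E 2
  | .main w => ![0, (w : ℂ)]
  | .fin _ => ![0, 0]
  | .exc e => ![0, ((e⁻¹ : ℂˣ) : ℂ)]
  | .node => ![0, 0]

/-- canonical form of a point in a plain chart -/
theorem can_pc (hr : IsRad D₀ An r) (P : T.X.Pt) (σ : Bool) {s v : ℂ}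
    (hs : s ∈ ball (0 : ℂ) (r P)) (h : v = 0 → ¬ Bl T σ (An.c P s)) :
    LocS (pc q D₀ An P σ) ![s, v] (canC q D₀ An (pt (pc q D₀ An P σ ![s, v])))
      (canZ (pt (pc q D₀ An P σ ![s, v])).2) := by
  rw [pt_pc]
  show LocS (pc q D₀ An P σ) ![s, v] (canC q D₀ An (An.c P s, pfib σ v)) (canZ (pfib σ v))
  by_cases hv : v = 0
  · subst hv
    rw [pfib_zero]
    rw [canC_fin_pc (h rfl)]
    exact locS_center hr P σ 0 hs
  · rw [pfib_ne hv]
    show LocS _ _ (pc q D₀ An (An.c P s) false) ![0, ((uw σ (un v) : ℂˣ) : ℂ)]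
    have h1 := locS_center (q := q) hr P σ v hs
    cases σ
    · rw [uw_false, un_ne hv]
      exact h1
    · rw [uw_true, Units.val_inv_eq_inv_val, un_ne hv]
      exact h1.trans (locS_pc_not q D₀ An (An.c P s) true hv)

theorem can_bl (hr : IsRad D₀ An r) {P : T.X.Pt} {σ : Bool} (hP : Bl T σ P) {s v : ℂ}
    (hs : s ∈ ball (0 : ℂ) (r P)) :
    LocS (bl q D₀ An P σ) ![s, v] (canC q D₀ An (pt (bl q D₀ An P σ ![s, v])))
      (canZ (pt (bl q D₀ An P σ ![s, v])).2) := by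
  by_cases h0 : s = 0
  · subst h0
    by_cases hv : v = 0
    · subst hv
      rw [pt_bl_zero q D₀ An (by rfl) (by rfl)]
      rw [canC_fin_bl hP]
      exact LocS.refl _ _
    · rw [pt_bl_exc q D₀ An hP.1 (by rfl) (by exact hv)]
      show LocS _ _ (mid q D₀ An P) ![0, (((un v)⁻¹ : ℂˣ) : ℂ)]
      rw [Units.val_inv_eq_inv_val, un_ne hv, ← hP.2]
      have h1 := locS_bl_mid q D₀ An P (s := 0) hv
      rw [zero_mul] at h1
      exact h1
  · have h1 := locS_bl_pc q D₀ An P σ (v := v) h0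
    have h2 : pt (bl q D₀ An P σ ![s, v]) = pt (pc q D₀ An P σ ![s, s * v]) := by
      rw [pt_bl_ne q D₀ An (by exact h0), pt_pc]
      rfl
    rw [h2]
    refine h1.trans (can_pc hr P σ hs fun _ hb => hr.not_exc hs h0 hb.1)

theorem can_mid (hr : IsRad D₀ An r) {P : T.X.Pt} (hP : Exc T P) {v f : ℂ}
    (hs : v * f ∈ ball (0 : ℂ) (r P)) :
    LocS (mid q D₀ An P) ![v, f] (canC q D₀ An (pt (mid q D₀ An P ![v, f])))
      (canZ (pt (mid q D₀ An P ![v, f])).2) := by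
  by_cases hv : v = 0
  · subst hv
    by_cases hf : f = 0
    · subst hf
      rw [pt_mid_node q D₀ An hP (by rfl) (by rfl)]
      exact LocS.refl _ _
    · rw [pt_mid_exc q D₀ An hP (by rfl) (by exact hf)]
      show LocS _ _ (mid q D₀ An P) ![0, (((un f)⁻¹⁻¹ : ℂˣ) : ℂ)]
      rw [inv_inv, un_ne hf]
      exact LocS.refl _ _
  · have h1 := locS_mid_pc q D₀ An P (f := f) hv
    have h2 : pt (mid q D₀ An P ![v, f]) =
        pt (pc q D₀ An P (!sd T P) ![v * f, v⁻¹]) := by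
      rw [pt_mid_ne q D₀ An (by exact hv), pt_pc]
      show _ = (An.c P (v * f), pfib (!sd T P) v⁻¹)
      rw [pfib_ne (inv_ne_zero hv), uw_not, un_inv, uw_inv, inv_inv]
      rfl
    rw [h2]
    exact h1.trans (can_pc hr P _ hs fun h => (inv_ne_zero hv h).elim)

/-! ### Injectivity of the charts -/

theorem pfib_inj {σ : Bool} {v v' : ℂ} (h : pfib σ v = pfib σ v') : v = v' := by
  by_cases hv : v = 0 <;> by_cases hv' : v' = 0
  · rw [hv, hv']
  · rw [hv, pfib_zero, pfib_ne hv'] at h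
    cases h
  · rw [hv', pfib_zero, pfib_ne hv] at h
    cases h
  · rw [pfib_ne hv, pfib_ne hv'] at h
    have h1 : uw σ (un v) = uw σ (un v') := by injection h
    rw [← un_ne hv, uw_inj σ h1, un_ne hv']

theorem ext2 {z z' : E 2} (h0 : z 0 = z' 0) (h1 : z 1 = z' 1) : z = z' := by
  funext i
  fin_cases i
  · exact h0
  · exact h1

theorem inj_pc (hr : IsRad D₀ An r) {P : T.X.Pt} {σ : Bool} {z z' : E 2}
    (hz : z 0 ∈ ball (0 : ℂ) (r P)) (hz' : z' 0 ∈ ball (0 : ℂ) (r P))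
    (h : pt (pc q D₀ An P σ z) = pt (pc q D₀ An P σ z')) : z = z' := by
  rw [pt_pc, pt_pc] at h
  have h1 : An.c P (z 0) = An.c P (z' 0) := congrArg Prod.fst h
  have h2 : pfib σ (z 1) = pfib σ (z' 1) := congrArg Prod.snd h
  exact ext2 (hr.inj hz hz' h1) (pfib_inj h2)

theorem inj_bl (hr : IsRad D₀ An r) {P : T.X.Pt} {σ : Bool} (hP : Exc T P) {z z' : E 2}
    (hz : z 0 ∈ ball (0 : ℂ) (r P)) (hz' : z' 0 ∈ ball (0 : ℂ) (r P))
    (h : pt (bl q D₀ An P σ z) = pt (bl q D₀ An P σ z')) : z = z' := by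
  by_cases h0 : z 0 = 0
  · have hb : (pt (bl q D₀ An P σ z)).1 = P := by
      by_cases h1 : z 1 = 0
      · rw [pt_bl_zero q D₀ An h0 h1]
      · rw [pt_bl_exc q D₀ An hP h0 h1]
    by_cases h0' : z' 0 = 0
    · by_cases h1 : z 1 = 0 <;> by_cases h1' : z' 1 = 0
      · exact ext2 (h0.trans h0'.symm) (h1.trans h1'.symm)
      · rw [pt_bl_zero q D₀ An h0 h1, pt_bl_exc q D₀ An hP h0' h1'] at h
        have h2 := congrArg Prod.snd h
        cases h2
      · rw [pt_bl_zero q D₀ An h0' h1', pt_bl_exc q D₀ An hP h0 h1] at h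
        have h2 := congrArg Prod.snd h
        cases h2
      · rw [pt_bl_exc q D₀ An hP h0 h1, pt_bl_exc q D₀ An hP h0' h1'] at h
        have h2 : Fib.exc (un (z 1)) = Fib.exc (un (z' 1)) := congrArg Prod.snd h
        have h3 : un (z 1) = un (z' 1) := by injection h2
        refine ext2 (h0.trans h0'.symm) ?_
        rw [← un_ne h1, h3, un_ne h1']
    · rw [h, pt_bl_ne q D₀ An h0'] at hb
      exact (h0' (hr.eq_zero hz' hb)).elim
  · by_cases h0' : z' 0 = 0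
    · have hb : (pt (bl q D₀ An P σ z')).1 = P := by
        by_cases h1 : z' 1 = 0
        · rw [pt_bl_zero q D₀ An h0' h1]
        · rw [pt_bl_exc q D₀ An hP h0' h1]
      rw [← h, pt_bl_ne q D₀ An h0] at hb
      exact (h0 (hr.eq_zero hz hb)).elim
    · rw [pt_bl_ne q D₀ An h0, pt_bl_ne q D₀ An h0'] at h
      have h1 : An.c P (z 0) = An.c P (z' 0) := congrArg Prod.fst h
      have h2 : pfib σ (z 0 * z 1) = pfib σ (z' 0 * z' 1) := congrArg Prod.snd h
      have h3 := hr.inj hz hz' h1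
      have h4 := pfib_inj h2
      rw [← h3] at h4
      exact ext2 h3 (mul_left_cancel₀ h0 h4)

theorem inj_mid (hr : IsRad D₀ An r) {P : T.X.Pt} (hP : Exc T P) {z z' : E 2}
    (hz : z 0 * z 1 ∈ ball (0 : ℂ) (r P)) (hz' : z' 0 * z' 1 ∈ ball (0 : ℂ) (r P))
    (h : pt (mid q D₀ An P z) = pt (mid q D₀ An P z')) : z = z' := by
  by_cases h0 : z 0 = 0 <;> by_cases h0' : z' 0 = 0
  · by_cases h1 : z 1 = 0 <;> by_cases h1' : z' 1 = 0
    · exact ext2 (h0.trans h0'.symm) (h1.trans h1'.symm)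
    · rw [pt_mid_node q D₀ An hP h0 h1, pt_mid_exc q D₀ An hP h0' h1'] at h
      have h2 := congrArg Prod.snd h
      cases h2
    · rw [pt_mid_node q D₀ An hP h0' h1', pt_mid_exc q D₀ An hP h0 h1] at h
      have h2 := congrArg Prod.snd h
      cases h2
    · rw [pt_mid_exc q D₀ An hP h0 h1, pt_mid_exc q D₀ An hP h0' h1'] at h
      have h2 : Fib.exc (un (z 1))⁻¹ = Fib.exc (un (z' 1))⁻¹ := congrArg Prod.snd h
      have h3 : (un (z 1))⁻¹ = (un (z' 1))⁻¹ := by injection h2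
      refine ext2 (h0.trans h0'.symm) ?_
      rw [← un_ne h1, inv_injective h3, un_ne h1']
  · rw [pt_mid_ne q D₀ An h0'] at h
    by_cases h1 : z 1 = 0
    · rw [pt_mid_node q D₀ An hP h0 h1] at h
      have h2 := congrArg Prod.snd h
      cases h2
    · rw [pt_mid_exc q D₀ An hP h0 h1] at h
      have h2 := congrArg Prod.snd h
      cases h2
  · rw [pt_mid_ne q D₀ An h0] at h
    by_cases h1 : z' 1 = 0
    · rw [pt_mid_node q D₀ An hP h0' h1] at h
      have h2 := congrArg Prod.snd h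
      cases h2
    · rw [pt_mid_exc q D₀ An hP h0' h1] at h
      have h2 := congrArg Prod.snd h
      cases h2
  · rw [pt_mid_ne q D₀ An h0, pt_mid_ne q D₀ An h0'] at h
    have h1 : An.c P (z 0 * z 1) = An.c P (z' 0 * z' 1) := congrArg Prod.fst h
    have h2 : Fib.main (uw (sd T P) (un (z 0))) = Fib.main (uw (sd T P) (un (z' 0))) :=
      congrArg Prod.snd h
    have h3 : uw (sd T P) (un (z 0)) = uw (sd T P) (un (z' 0)) := by injection h2
    have h4 : z 0 = z' 0 := by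
      rw [← un_ne h0, uw_inj _ h3, un_ne h0']
    have h5 := hr.inj hz hz' h1
    rw [← h4] at h5
    exact ext2 h4 (mul_left_cancel₀ h0 h5)

end Sig

end

end Pool.Agent.YTDA
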