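import Pool.Agent.YTDA.SigB

/-!
The surface `Σ`: the atlas, the Hausdorff property and compactness.
-/

namespace Pool.Agent.YTDA

open Complex Set Topology Metric Filter
open Pool.Agent.YTD

noncomputable section

namespace Sig

variable {K : Type} [Field K] [Algebra ℂ K] {T : Datum K}
variable (q : ℕ) (D₀ : T.X.Pt →₀ ℤ) (An : AnCurve T.X.toCurveOrd)

open Classical in
/-- the chart at an end of the fibre -/
def endc (P : T.X.Pt) (σ : Bool) : E 2 → YY T :=
  if Bl T σ P then bl q D₀ An P σ else pc q D₀ An P σ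

/-- the charts -/
def ch (a : T.X.Pt × Fin 3) : E 2 → YY T :=
  match a.2 with
  | 0 => endc q D₀ An a.1 false
  | 1 => endc q D₀ An a.1 true
  | 2 => mid q D₀ An a.1

/-- the domains of the charts -/
def UU (r : T.X.Pt → ℝ) (a : T.X.Pt × Fin 3) : Set (E 2) :=
  match a.2 with
  | 0 => {z | ‖z 0‖ < r a.1}
  | 1 => {z | ‖z 0‖ < r a.1}
  | 2 => {z | Exc T a.1 ∧ ‖z 0 * z 1‖ < r a.1}

/-- the index of an end -/
def ei (σ : Bool) : Fin 3 := if σ then 1 else 0

variable {q D₀ An} {r : T.X.Pt → ℝ}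

theorem ch_ei (P : T.X.Pt) (σ : Bool) : ch q D₀ An (P, ei σ) = endc q D₀ An P σ := by
  cases σ <;> rfl

theorem UU_ei (P : T.X.Pt) (σ : Bool) : UU r (P, ei σ) = {z | ‖z 0‖ < r P} := by
  cases σ <;> rfl

theorem ch_two (P : T.X.Pt) : ch q D₀ An (P, 2) = mid q D₀ An P := rfl

theorem UU_two (P : T.X.Pt) : UU r (P, 2) = {z | Exc T P ∧ ‖z 0 * z 1‖ < r P} := rfl

/-- every chart is an end chart or a middle chart -/
theorem chart_cases {p : T.X.Pt × Fin 3 → Prop} (h1 : ∀ P σ, p (P, ei σ)) (h2 : ∀ P, p (P, 2)) :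
    ∀ a, p a := by
  rintro ⟨P, i⟩
  fin_cases i
  · exact h1 P false
  · exact h1 P true
  · exact h2 P

theorem endc_bl {P : T.X.Pt} {σ : Bool} (h : Bl T σ P) :
    endc q D₀ An P σ = bl q D₀ An P σ := if_pos h

theorem endc_pc {P : T.X.Pt} {σ : Bool} (h : ¬ Bl T σ P) :
    endc q D₀ An P σ = pc q D₀ An P σ := if_neg h

theorem canC_fin (P : T.X.Pt) (σ : Bool) :
    canC q D₀ An (P, .fin σ) = endc q D₀ An P σ := rfl

theorem bool_eq_not {τ σ : Bool} (h : τ ≠ σ) : τ = !σ := by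
  cases τ <;> cases σ <;> simp_all

theorem mem_b {r : ℝ} {s : ℂ} : s ∈ ball (0 : ℂ) r ↔ ‖s‖ < r := mem_ball_zero_iff

theorem isOpen_UU (a : T.X.Pt × Fin 3) : IsOpen (UU r a) := by
  revert a
  apply chart_cases
  · intro P σ
    rw [UU_ei]
    exact isOpen_lt ((continuous_apply 0).norm) continuous_const
  · intro P
    rw [UU_two]
    by_cases h : Exc T P
    · have : {z : E 2 | Exc T P ∧ ‖z 0 * z 1‖ < r P} = {z : E 2 | ‖z 0 * z 1‖ < r P} := by
        ext z
        exact and_iff_right h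
      rw [this]
      exact isOpen_lt (((continuous_apply 0).mul (continuous_apply 1)).norm) continuous_const
    · have : {z : E 2 | Exc T P ∧ ‖z 0 * z 1‖ < r P} = ∅ := by
        ext z
        simp [h]
      rw [this]
      exact isOpen_empty

theorem can_ch (hr : IsRad D₀ An r) (a : T.X.Pt × Fin 3) (z : E 2) (hz : z ∈ UU r a) :
    LocS (ch q D₀ An a) z (canC q D₀ An (pt (ch q D₀ An a z)))
      (canZ (pt (ch q D₀ An a z)).2) := by
  revert a
  apply chart_cases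
  · intro P σ hz
    rw [UU_ei] at hz
    have hz' : z 0 ∈ ball (0 : ℂ) (r P) := mem_b.2 hz
    rw [ch_ei, ← eta2 z]
    by_cases hb : Bl T σ P
    · rw [endc_bl hb]
      exact can_bl hr hb hz'
    · rw [endc_pc hb]
      refine can_pc hr P σ hz' fun _ => ?_
      by_cases h0 : z 0 = 0
      · rw [h0, An.c_zero]
        exact hb
      · exact fun h => hr.not_exc hz' h0 h.1
  · intro P hz
    rw [UU_two] at hz
    rw [ch_two, ← eta2 z]
    exact can_mid hr hz.1 (mem_b.2 hz.2)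

theorem inj_ch (hr : IsRad D₀ An r) (a : T.X.Pt × Fin 3) {z z' : E 2} (hz : z ∈ UU r a)
    (hz' : z' ∈ UU r a) (h : pt (ch q D₀ An a z) = pt (ch q D₀ An a z')) : z = z' := by
  revert a
  apply chart_cases
  · intro P σ hz hz' h
    rw [UU_ei] at hz hz'
    rw [ch_ei] at h
    by_cases hb : Bl T σ P
    · rw [endc_bl hb] at h
      exact inj_bl hr hb.1 (mem_b.2 hz) (mem_b.2 hz') h
    · rw [endc_pc hb] at h
      exact inj_pc hr (mem_b.2 hz) (mem_b.2 hz') h
  · intro P hz hz' h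
    rw [UU_two] at hz hz'
    rw [ch_two] at h
    exact inj_mid hr hz.1 (mem_b.2 hz.2) (mem_b.2 hz'.2) h

/-! ### Covering by compact sets -/

/-- compact subsets of the charts -/
def KK (ρ : ℝ) (a : T.X.Pt × Fin 3) : Set (E 2) :=
  match a.2 with
  | 0 => {z | ‖z 0‖ ≤ ρ ∧ ‖z 1‖ ≤ 1}
  | 1 => {z | ‖z 0‖ ≤ ρ ∧ ‖z 1‖ ≤ 1}
  | 2 => {z | Exc T a.1 ∧ ‖z 0 * z 1‖ ≤ ρ ∧ ‖z 0‖ ≤ 1 ∧ ‖z 1‖ ≤ 1}

theorem KK_ei (ρ : ℝ) (P : T.X.Pt) (σ : Bool) :
    KK ρ (P, ei σ) = {z | ‖z 0‖ ≤ ρ ∧ ‖z 1‖ ≤ 1} := by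
  cases σ <;> rfl

theorem KK_two (ρ : ℝ) (P : T.X.Pt) :
    KK ρ (P, 2) = {z | Exc T P ∧ ‖z 0 * z 1‖ ≤ ρ ∧ ‖z 0‖ ≤ 1 ∧ ‖z 1‖ ≤ 1} := rfl

theorem pt_pc_main (P : T.X.Pt) (σ : Bool) {s : ℂ} (w : ℂˣ) :
    pt (pc q D₀ An P σ ![s, ((uw σ w : ℂˣ) : ℂ)]) = (An.c P s, .main w) := by
  rw [pt_pc]
  show (An.c P s, pfib σ ((uw σ w : ℂˣ) : ℂ)) = _
  rw [pfib_ne (Units.ne_zero _), un_coe, uw_uw]

theorem pt_pc_fin (P : T.X.Pt) (σ : Bool) {s : ℂ} :
    pt (pc q D₀ An P σ ![s, 0]) = (An.c P s, .fin σ) := by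
  rw [pt_pc]
  show (An.c P s, pfib σ 0) = _
  rw [pfib_zero]

/-- the points over the disc at `P` are covered by the charts at `P` -/
theorem cov {ρ : ℝ} (hr : IsRad D₀ An r) {P : T.X.Pt} (hρ : ρ < r P) {s : ℂ}
    (hs : ‖s‖ ≤ ρ) (y : YY T) (hy : y.base = An.c P s) :
    ∃ i, ∃ z ∈ KK ρ (P, i), pt (ch q D₀ An (P, i) z) = pt y := by
  have hsr : s ∈ ball (0 : ℂ) (r P) := mem_b.2 (lt_of_le_of_lt hs hρ)
  have hρ0 : 0 ≤ ρ := (norm_nonneg s).trans hs
  have hpt : pt y = (An.c P s, y.fib) := by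
    rw [← hy]
    rfl
  -- the plain ends
  have key1 : ∀ σ, ¬ Bl T σ P → ∀ w : ℂˣ, ‖((uw σ w : ℂˣ) : ℂ)‖ ≤ 1 → y.fib = .main w →
      ∃ i, ∃ z ∈ KK ρ (P, i), pt (ch q D₀ An (P, i) z) = pt y := by
    intro σ hb w hw hf
    refine ⟨ei σ, ![s, ((uw σ w : ℂˣ) : ℂ)], ?_, ?_⟩
    · rw [KK_ei]
      exact ⟨hs, hw⟩
    · rw [ch_ei, endc_pc hb, pt_pc_main, hpt, hf]
  have key2 : ∀ σ, ¬ Bl T σ P → y.fib = .fin σ →
      ∃ i, ∃ z ∈ KK ρ (P, i), pt (ch q D₀ An (P, i) z) = pt y := by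
    intro σ hb hf
    refine ⟨ei σ, ![s, 0], ?_, ?_⟩
    · rw [KK_ei]
      exact ⟨hs, by show ‖(0 : ℂ)‖ ≤ 1; rw [norm_zero]; exact zero_le_one⟩
    · rw [ch_ei, endc_pc hb, pt_pc_fin, hpt, hf]
  have hnot : ∀ w : ℂˣ, ∀ σ, 1 ≤ ‖((uw σ w : ℂˣ) : ℂ)‖ → ‖((uw (!σ) w : ℂˣ) : ℂ)‖ ≤ 1 := by
    intro w σ h
    rw [uw_not, Units.val_inv_eq_inv_val, norm_inv]
    exact inv_le_one_of_one_le₀ h
  by_cases hP : Exc T P
  · -- blown up fibre
    obtain ⟨σ, hσ⟩ : ∃ σ, σ = sd T P := ⟨_, rfl⟩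
    have hb : Bl T σ P := ⟨hP, hσ.symm⟩
    have hb' : ¬ Bl T (!σ) P := by
      rintro ⟨_, h⟩
      rw [← hσ] at h
      cases σ <;> simp at h
    by_cases h0 : s = 0
    · subst h0
      have hpt' : pt y = (P, y.fib) := by rw [hpt, An.c_zero]
      cases hf : y.fib with
      | main w =>
        rcases le_total 1 ‖((uw σ w : ℂˣ) : ℂ)‖ with h1 | h1
        · exact key1 (!σ) hb' w (hnot w σ h1) hf
        · refine ⟨2, ![((uw σ w : ℂˣ) : ℂ), 0], ?_, ?_⟩
          · rw [KK_two]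
            refine ⟨hP, ?_, h1, ?_⟩
            · show ‖((uw σ w : ℂˣ) : ℂ) * 0‖ ≤ ρ
              rw [mul_zero, norm_zero]
              exact hρ0
            · show ‖(0 : ℂ)‖ ≤ 1
              rw [norm_zero]
              exact zero_le_one
          · rw [ch_two, pt_mid_ne q D₀ An (by exact Units.ne_zero _), hpt', hf]
            show (An.c P (((uw σ w : ℂˣ) : ℂ) * 0), Fib.main (uw (sd T P)
              (un ((uw σ w : ℂˣ) : ℂ)))) = _
            rw [mul_zero, An.c_zero, un_coe, ← hσ, uw_uw]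
      | fin τ =>
        by_cases hτ : τ = σ
        · subst hτ
          refine ⟨ei τ, ![0, 0], ?_, ?_⟩
          · rw [KK_ei]
            exact ⟨by show ‖(0 : ℂ)‖ ≤ ρ; rw [norm_zero]; exact hρ0,
              by show ‖(0 : ℂ)‖ ≤ 1; rw [norm_zero]; exact zero_le_one⟩
          · rw [ch_ei, endc_bl hb, pt_bl_zero q D₀ An (by rfl) (by rfl), hpt', hf]
        · have : τ = !σ := bool_eq_not hτ
          subst this
          exact key2 _ hb' hf
      | exc e =>
        rcases le_total ‖(e : ℂ)‖ 1 with h1 | h1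
        · refine ⟨ei σ, ![0, (e : ℂ)], ?_, ?_⟩
          · rw [KK_ei]
            exact ⟨by show ‖(0 : ℂ)‖ ≤ ρ; rw [norm_zero]; exact hρ0, h1⟩
          · rw [ch_ei, endc_bl hb, pt_bl_exc q D₀ An hP (by rfl) (by exact e.ne_zero), hpt', hf]
            show (P, Fib.exc (un (e : ℂ))) = _
            rw [un_coe]
        · refine ⟨2, ![0, ((e⁻¹ : ℂˣ) : ℂ)], ?_, ?_⟩
          · rw [KK_two]
            refine ⟨hP, ?_, ?_, ?_⟩
            · show ‖(0 : ℂ) * _‖ ≤ ρ
              rw [zero_mul, norm_zero]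
              exact hρ0
            · show ‖(0 : ℂ)‖ ≤ 1
              rw [norm_zero]
              exact zero_le_one
            · show ‖((e⁻¹ : ℂˣ) : ℂ)‖ ≤ 1
              rw [Units.val_inv_eq_inv_val, norm_inv]
              exact inv_le_one_of_one_le₀ h1
          · rw [ch_two, pt_mid_exc q D₀ An hP (by rfl) (by exact (e⁻¹).ne_zero), hpt', hf]
            show (P, Fib.exc (un ((e⁻¹ : ℂˣ) : ℂ))⁻¹) = _
            rw [un_coe, inv_inv]
      | node =>
        refine ⟨2, ![0, 0], ?_, ?_⟩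
        · rw [KK_two]
          refine ⟨hP, ?_, ?_, ?_⟩
          · show ‖(0 : ℂ) * 0‖ ≤ ρ
            rw [zero_mul, norm_zero]
            exact hρ0
          · show ‖(0 : ℂ)‖ ≤ 1
            rw [norm_zero]
            exact zero_le_one
          · show ‖(0 : ℂ)‖ ≤ 1
            rw [norm_zero]
            exact zero_le_one
        · rw [ch_two, pt_mid_node q D₀ An hP (by rfl) (by rfl), hpt', hf]
    · have hQ : ¬ Exc T y.base := by
        rw [hy]
        exact hr.not_exc hsr h0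
      have hval := y.val
      cases hf : y.fib with
      | main w =>
        rcases le_total 1 ‖((uw σ w : ℂˣ) : ℂ)‖ with h1 | h1
        · exact key1 (!σ) hb' w (hnot w σ h1) hf
        · set v : ℂ := ((uw σ w : ℂˣ) : ℂ) with hv
          have hv0 : v ≠ 0 := Units.ne_zero _
          rcases le_total ‖s⁻¹ * v‖ 1 with h2 | h2
          · refine ⟨ei σ, ![s, s⁻¹ * v], ?_, ?_⟩
            · rw [KK_ei]
              exact ⟨hs, h2⟩
            · rw [ch_ei, endc_bl hb, pt_bl_ne q D₀ An (by exact h0), hpt, hf]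
              show (An.c P s, pfib σ (s * (s⁻¹ * v))) = _
              rw [mul_inv_cancel_left₀ h0, pfib_ne hv0, hv, un_coe, uw_uw]
          · refine ⟨2, ![v, v⁻¹ * s], ?_, ?_⟩
            · rw [KK_two]
              refine ⟨hP, ?_, h1, ?_⟩
              · show ‖v * (v⁻¹ * s)‖ ≤ ρ
                rw [mul_inv_cancel_left₀ hv0]
                exact hs
              · show ‖v⁻¹ * s‖ ≤ 1
                have h3 : v⁻¹ * s = (s⁻¹ * v)⁻¹ := by
                  rw [mul_inv, inv_inv, mul_comm]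
                rw [h3, norm_inv]
                exact inv_le_one_of_one_le₀ h2
            · rw [ch_two, pt_mid_ne q D₀ An (by exact hv0), hpt, hf]
              show (An.c P (v * (v⁻¹ * s)), Fib.main (uw (sd T P) (un v))) = _
              rw [mul_inv_cancel_left₀ hv0, hv, un_coe, ← hσ, uw_uw]
      | fin τ =>
        by_cases hτ : τ = σ
        · subst hτ
          refine ⟨ei τ, ![s, 0], ?_, ?_⟩
          · rw [KK_ei]
            exact ⟨hs, by show ‖(0 : ℂ)‖ ≤ 1; rw [norm_zero]; exact zero_le_one⟩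
          · rw [ch_ei, endc_bl hb, pt_bl_ne q D₀ An (by exact h0), hpt, hf]
            show (An.c P s, pfib τ (s * 0)) = _
            rw [mul_zero, pfib_zero]
        · have : τ = !σ := bool_eq_not hτ
          subst this
          exact key2 _ hb' hf
      | exc e =>
        rw [hf] at hval
        exact (hQ hval).elim
      | node =>
        rw [hf] at hval
        exact (hQ hval).elim
  · -- ordinary fibre
    have hb : ∀ σ, ¬ Bl T σ P := fun σ h => hP h.1
    have hQ : ¬ Exc T y.base := by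
      rw [hy]
      by_cases h0 : s = 0
      · rw [h0, An.c_zero]
        exact hP
      · exact hr.not_exc hsr h0
    have hval := y.val
    cases hf : y.fib with
    | main w =>
      rcases le_total 1 ‖((uw false w : ℂˣ) : ℂ)‖ with h1 | h1
      · exact key1 true (hb _) w (hnot w false h1) hf
      · exact key1 false (hb _) w h1 hf
    | fin τ => exact key2 τ (hb _) hf
    | exc e =>
      rw [hf] at hval
      exact (hQ hval).elim
    | node =>
      rw [hf] at hval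
      exact (hQ hval).elim

theorem KK_subset {ρ : ℝ} {P : T.X.Pt} (hρ : ρ < r P) (i : Fin 3) : KK ρ (P, i) ⊆ UU r (P, i) := by
  fin_cases i
  · exact fun z hz => lt_of_le_of_lt hz.1 hρ
  · exact fun z hz => lt_of_le_of_lt hz.1 hρ
  · exact fun z hz => ⟨hz.1, lt_of_le_of_lt hz.2.1 hρ⟩

theorem isCompact_KK (ρ : ℝ) (a : T.X.Pt × Fin 3) : IsCompact (KK ρ a) := by
  have hbd : ∀ (R : ℝ) (A : Set (E 2)), (∀ z ∈ A, ‖z 0‖ ≤ R ∧ ‖z 1‖ ≤ R) → Bornology.IsBounded A := by
    intro R A hA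
    refine (isBounded_iff_forall_norm_le (s := A)).2 ⟨max R 0, fun z hz => ?_⟩
    rw [pi_norm_le_iff_of_nonneg (le_max_right _ _)]
    intro i
    obtain ⟨h1, h2⟩ := hA z hz
    fin_cases i
    · exact h1.trans (le_max_left _ _)
    · exact h2.trans (le_max_left _ _)
  have c0 : Continuous fun z : E 2 => ‖z 0‖ := (continuous_apply 0).norm
  have c1 : Continuous fun z : E 2 => ‖z 1‖ := (continuous_apply 1).norm
  have c2 : Continuous fun z : E 2 => ‖z 0 * z 1‖ :=
    ((continuous_apply 0).mul (continuous_apply 1)).norm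
  have k1 : ∀ ρ : ℝ, IsCompact {z : E 2 | ‖z 0‖ ≤ ρ ∧ ‖z 1‖ ≤ 1} := by
    intro ρ
    refine Metric.isCompact_of_isClosed_isBounded ?_ ?_
    · exact (isClosed_le c0 continuous_const).inter (isClosed_le c1 continuous_const)
    · refine hbd (max ρ 1) _ ?_
      rintro z ⟨h1, h2⟩
      exact ⟨h1.trans (le_max_left _ _), h2.trans (le_max_right _ _)⟩
  revert a
  apply chart_cases
  · intro P σ
    rw [KK_ei]
    exact k1 ρ
  · intro P
    rw [KK_two]
    by_cases h : Exc T P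
    · refine Metric.isCompact_of_isClosed_isBounded ?_ ?_
      · have : {z : E 2 | Exc T P ∧ ‖z 0 * z 1‖ ≤ ρ ∧ ‖z 0‖ ≤ 1 ∧ ‖z 1‖ ≤ 1} =
            {z : E 2 | ‖z 0 * z 1‖ ≤ ρ} ∩ ({z : E 2 | ‖z 0‖ ≤ 1} ∩ {z : E 2 | ‖z 1‖ ≤ 1}) := by
          ext z
          simp [h]
        rw [this]
        exact (isClosed_le c2 continuous_const).inter
          ((isClosed_le c0 continuous_const).inter (isClosed_le c1 continuous_const))
      · refine hbd 1 _ ?_
        rintro z ⟨_, _, h1, h2⟩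
        exact ⟨h1, h2⟩
    · have : {z : E 2 | Exc T P ∧ ‖z 0 * z 1‖ ≤ ρ ∧ ‖z 0‖ ≤ 1 ∧ ‖z 1‖ ≤ 1} = ∅ := by
        ext z
        simp [h]
      rw [this]
      exact isCompact_empty

variable (q) in
/-- the atlas before choosing the transition maps -/
def preAtlas (hr : IsRad D₀ An r) : PreAtlas 2 (YY T) where
  ι := T.X.Pt × Fin 3
  U := UU r
  γ := ch q D₀ An
  isOpen_U := isOpen_UU
  inj a z hz z' hz' c h := by
    have h1 : pt (ch q D₀ An a z') = pt (ch q D₀ An a z) := by rw [h, pt_smul]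
    have h2 := inj_ch hr a hz' hz h1
    subst h2
    exact ⟨rfl, smul_free h⟩
  cover y := by
    obtain ⟨i, z, hz, h⟩ := cov (q := q) hr (P := y.base) (ρ := 0) (hr.pos _)
      (s := 0) (by rw [norm_zero]) y (An.c_zero _).symm
    obtain ⟨c, hc⟩ := eq_smul_of_pt h.symm
    exact ⟨(y.base, i), z, KK_subset (hr.pos _) i hz, c, hc⟩
  loc a b z hz z' hz' c h := by
    have h1 := can_ch (q := q) hr a z hz
    have h2 := can_ch (q := q) hr b z' hz'
    rw [h, pt_smul] at h2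
    exact h1.1.trans h2.2

theorem cpt (hr : IsRad D₀ An r) : (preAtlas q hr).toAtlas.IsCpt := by
  obtain ⟨F, hF⟩ := An.cpt (fun P => r P / 2) (fun P => half_pos (hr.pos P))
  let e := Fintype.equivFin (F × Fin 3)
  refine ⟨Fintype.card (F × Fin 3), fun k => (((e.symm k).1 : T.X.Pt), (e.symm k).2),
    fun k => KK (r (e.symm k).1 / 2) (((e.symm k).1 : T.X.Pt), (e.symm k).2), ?_, ?_⟩
  · intro k
    exact ⟨isCompact_KK _ _, KK_subset (half_lt_self (hr.pos _)) _⟩
  · intro y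
    obtain ⟨P, hP, s, hs, hc⟩ := hF y.base
    obtain ⟨i, z, hz, h⟩ := cov (q := q) hr (half_lt_self (hr.pos P)) hs.le y hc.symm
    obtain ⟨c, hc⟩ := eq_smul_of_pt h.symm
    refine ⟨e (⟨P, hP⟩, i), z, ?_, c, ?_⟩
    · simp only [Equiv.symm_apply_apply]
      exact hz
    · simp only [Equiv.symm_apply_apply]
      exact hc

end Sig

end

end Pool.Agent.YTDA
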