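import Pool.Agent.YTDA.SigC

/-!
The surface `Σ`: the Hausdorff property.
-/

namespace Pool.Agent.YTDA

open Complex Set Topology Metric Filter
open Pool.Agent.YTD

noncomputable section

namespace Sig

variable {K : Type} [Field K] [Algebra ℂ K] {T : Datum K}
variable {q : ℕ} {D₀ : T.X.Pt →₀ ℤ} {An : AnCurve T.X.toCurveOrd} {r : T.X.Pt → ℝ}

theorem sep_of_pt {γ γ' : E 2 → YY T} {z z' : E 2} {V V' : Set (E 2)} (hV : V ∈ 𝓝 z)
    (hV' : V' ∈ 𝓝 z') (h : ∀ w ∈ V, ∀ w' ∈ V', pt (γ' w') ≠ pt (γ w)) : Sep γ z γ' z' :=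
  ⟨V, hV, V', hV', fun w hw w' hw' c hc => h w hw w' hw' (by rw [hc, pt_smul])⟩

theorem base_mkY (P : T.X.Pt) (φ : Fib) (u : ℂˣ) : (mkY T P φ u).base = P := by
  unfold mkY
  by_cases h : Val T P φ
  · rw [dif_pos h]
  · rw [dif_neg h]

theorem smul_base (c : ℂˣ) (y : YY T) : (c • y).base = y.base := rfl

theorem base_pc (P : T.X.Pt) (σ : Bool) (z : E 2) :
    (pc q D₀ An P σ z).base = An.c P (z 0) := base_mkY _ _ _

theorem base_bl (P : T.X.Pt) (σ : Bool) (z : E 2) :
    (bl q D₀ An P σ z).base = An.c P (z 0) := by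
  unfold bl
  by_cases h : z 0 = 0
  · rw [if_pos h, base_mkY, h, An.c_zero]
  · rw [if_neg h, smul_base, base_pc]
    rfl

theorem base_mid (P : T.X.Pt) (z : E 2) :
    (mid q D₀ An P z).base = An.c P (z 0 * z 1) := by
  unfold mid
  by_cases h : z 0 = 0
  · rw [if_pos h, base_mkY, h, zero_mul, An.c_zero]
  · rw [if_neg h, smul_base, base_pc]
    rfl

/-- the coordinate along the curve in the canonical charts -/
theorem base_can (P : T.X.Pt) (φ : Fib) : ∃ s : E 2 → ℂ, Continuous s ∧ s (canZ φ) = 0 ∧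
    ∀ z, (canC q D₀ An (P, φ) z).base = An.c P (s z) := by
  cases φ with
  | main w => exact ⟨fun z => z 0, continuous_apply 0, rfl, base_pc P false⟩
  | fin σ =>
    refine ⟨fun z => z 0, continuous_apply 0, rfl, fun z => ?_⟩
    rw [canC_fin]
    by_cases hb : Bl T σ P
    · rw [endc_bl hb]
      exact base_bl P σ z
    · rw [endc_pc hb]
      exact base_pc P σ z
  | exc e =>
    refine ⟨fun z => z 0 * z 1, (continuous_apply 0).mul (continuous_apply 1), ?_, base_mid P⟩
    show (0 : ℂ) * _ = 0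
    rw [zero_mul]
  | node =>
    refine ⟨fun z => z 0 * z 1, (continuous_apply 0).mul (continuous_apply 1), ?_, base_mid P⟩
    show (0 : ℂ) * _ = 0
    rw [zero_mul]

theorem sep_base {P Q : T.X.Pt} (hPQ : P ≠ Q) (φ ψ : Fib) :
    Sep (canC q D₀ An (P, φ)) (canZ φ) (canC q D₀ An (Q, ψ)) (canZ ψ) := by
  obtain ⟨s, hs, hs0, hsb⟩ := base_can (q := q) (D₀ := D₀) (An := An) P φ
  obtain ⟨s', hs', hs0', hsb'⟩ := base_can (q := q) (D₀ := D₀) (An := An) Q ψ
  obtain ⟨ε, hε, h⟩ := An.t2 P Q hPQ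
  have h1 : {z | ‖s z‖ < ε} ∈ 𝓝 (canZ φ) := by
    apply (isOpen_lt hs.norm continuous_const).mem_nhds
    show ‖s (canZ φ)‖ < ε
    rw [hs0, norm_zero]
    exact hε
  have h2 : {z | ‖s' z‖ < ε} ∈ 𝓝 (canZ ψ) := by
    apply (isOpen_lt hs'.norm continuous_const).mem_nhds
    show ‖s' (canZ ψ)‖ < ε
    rw [hs0', norm_zero]
    exact hε
  refine sep_of_pt h1 h2 fun w hw w' hw' he => ?_
  have h3 : (canC q D₀ An (Q, ψ) w').base = (canC q D₀ An (P, φ) w).base := congrArg Prod.fst he
  rw [hsb, hsb'] at h3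
  exact h _ _ hw hw' h3.symm

/-! ### Relations between the fibre coordinates of different charts -/

theorem rel_pc {P : T.X.Pt} {σ : Bool} {z z' : E 2}
    (h : pt (pc q D₀ An P (!σ) z') = pt (pc q D₀ An P σ z)) : z 1 * z' 1 = 1 := by
  rw [pt_pc, pt_pc] at h
  have h1 : pfib (!σ) (z' 1) = pfib σ (z 1) := congrArg Prod.snd h
  by_cases h0 : z 1 = 0 <;> by_cases h0' : z' 1 = 0
  · rw [h0, h0', pfib_zero, pfib_zero] at h1
    have h2 : (!σ) = σ := by injection h1
    cases σ <;> simp at h2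
  · rw [h0, pfib_zero, pfib_ne h0'] at h1
    cases h1
  · rw [h0', pfib_zero, pfib_ne h0] at h1
    cases h1
  · rw [pfib_ne h0, pfib_ne h0'] at h1
    have h2 : uw (!σ) (un (z' 1)) = uw σ (un (z 1)) := by injection h1
    rw [uw_not, ← uw_inv] at h2
    have h3 := uw_inj _ h2
    rw [← un_ne h0, ← h3, Units.val_inv_eq_inv_val, un_ne h0', inv_mul_cancel₀ h0']

theorem pfib_ne_exc {σ : Bool} {v : ℂ} {e : ℂˣ} : pfib σ v ≠ .exc e := by
  by_cases h : v = 0
  · rw [h, pfib_zero]
    exact fun h => by cases h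
  · rw [pfib_ne h]
    exact fun h => by cases h

theorem pfib_ne_node {σ : Bool} {v : ℂ} : pfib σ v ≠ .node := by
  by_cases h : v = 0
  · rw [h, pfib_zero]
    exact fun h => by cases h
  · rw [pfib_ne h]
    exact fun h => by cases h

theorem rel_mid_pc {P : T.X.Pt} (hP : Exc T P) {z z' : E 2}
    (h : pt (pc q D₀ An P (!sd T P) z') = pt (mid q D₀ An P z)) : z 0 * z' 1 = 1 := by
  rw [pt_pc] at h
  by_cases h0 : z 0 = 0
  · by_cases h1 : z 1 = 0
    · rw [pt_mid_node q D₀ An hP h0 h1] at h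
      exact (pfib_ne_node (congrArg Prod.snd h)).elim
    · rw [pt_mid_exc q D₀ An hP h0 h1] at h
      exact (pfib_ne_exc (congrArg Prod.snd h)).elim
  · rw [pt_mid_ne q D₀ An h0] at h
    have h1 : pfib (!sd T P) (z' 1) = .main (uw (sd T P) (un (z 0))) := congrArg Prod.snd h
    by_cases h0' : z' 1 = 0
    · rw [h0', pfib_zero] at h1
      cases h1
    · rw [pfib_ne h0'] at h1
      have h2 : uw (!sd T P) (un (z' 1)) = uw (sd T P) (un (z 0)) := by injection h1
      rw [uw_not, ← uw_inv] at h2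
      have h3 := uw_inj _ h2
      rw [← un_ne h0, ← h3, Units.val_inv_eq_inv_val, un_ne h0', inv_mul_cancel₀ h0']

theorem rel_bl_pc {P : T.X.Pt} (hP : Exc T P) {σ : Bool} {z z' : E 2}
    (h : pt (pc q D₀ An P (!σ) z') = pt (bl q D₀ An P σ z)) : z 0 * z 1 * z' 1 = 1 := by
  by_cases h0 : z 0 = 0
  · rw [pt_pc] at h
    by_cases h1 : z 1 = 0
    · rw [pt_bl_zero q D₀ An h0 h1] at h
      have h1 : pfib (!σ) (z' 1) = .fin σ := congrArg Prod.snd h
      by_cases h0' : z' 1 = 0
      · rw [h0', pfib_zero] at h1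
        have h2 : (!σ) = σ := by injection h1
        cases σ <;> simp at h2
      · rw [pfib_ne h0'] at h1
        cases h1
    · rw [pt_bl_exc q D₀ An hP h0 h1] at h
      exact (pfib_ne_exc (congrArg Prod.snd h)).elim
  · have h1 : pt (bl q D₀ An P σ z) = pt (pc q D₀ An P σ ![z 0, z 0 * z 1]) := by
      rw [pt_bl_ne q D₀ An h0, pt_pc]
      rfl
    rw [h1] at h
    exact rel_pc h

theorem rel_mid_bl (hr : IsRad D₀ An r) {P : T.X.Pt} (hP : Exc T P) {z z' : E 2}
    (hz : z 0 * z 1 ∈ ball (0 : ℂ) (r P)) (hz' : z' 0 ∈ ball (0 : ℂ) (r P))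
    (h : pt (bl q D₀ An P (sd T P) z') = pt (mid q D₀ An P z)) : z 1 * z' 1 = 1 := by
  by_cases h0' : z' 0 = 0
  · by_cases h1' : z' 1 = 0
    · rw [pt_bl_zero q D₀ An h0' h1'] at h
      by_cases h0 : z 0 = 0
      · by_cases h1 : z 1 = 0
        · rw [pt_mid_node q D₀ An hP h0 h1] at h
          have h2 := congrArg Prod.snd h
          cases h2
        · rw [pt_mid_exc q D₀ An hP h0 h1] at h
          have h2 := congrArg Prod.snd h
          cases h2
      · rw [pt_mid_ne q D₀ An h0] at h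
        have h2 := congrArg Prod.snd h
        cases h2
    · rw [pt_bl_exc q D₀ An hP h0' h1'] at h
      by_cases h0 : z 0 = 0
      · by_cases h1 : z 1 = 0
        · rw [pt_mid_node q D₀ An hP h0 h1] at h
          have h2 := congrArg Prod.snd h
          cases h2
        · rw [pt_mid_exc q D₀ An hP h0 h1] at h
          have h2 : Fib.exc (un (z' 1)) = Fib.exc (un (z 1))⁻¹ := congrArg Prod.snd h
          have h3 : un (z' 1) = (un (z 1))⁻¹ := by injection h2
          rw [← un_ne h1', h3, Units.val_inv_eq_inv_val, un_ne h1, mul_inv_cancel₀ h1]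
      · rw [pt_mid_ne q D₀ An h0] at h
        have h2 := congrArg Prod.snd h
        cases h2
  · rw [pt_bl_ne q D₀ An h0'] at h
    by_cases h0 : z 0 = 0
    · by_cases h1 : z 1 = 0
      · rw [pt_mid_node q D₀ An hP h0 h1] at h
        exact (pfib_ne_node (congrArg Prod.snd h)).elim
      · rw [pt_mid_exc q D₀ An hP h0 h1] at h
        exact (pfib_ne_exc (congrArg Prod.snd h)).elim
    · rw [pt_mid_ne q D₀ An h0] at h
      have h1 : An.c P (z' 0) = An.c P (z 0 * z 1) := congrArg Prod.fst h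
      have h2 := hr.inj hz' hz h1
      have h3 : pfib (sd T P) (z' 0 * z' 1) = .main (uw (sd T P) (un (z 0))) :=
        congrArg Prod.snd h
      by_cases h4 : z' 0 * z' 1 = 0
      · rw [h4, pfib_zero] at h3
        cases h3
      · rw [pfib_ne h4] at h3
        have h5 : uw (sd T P) (un (z' 0 * z' 1)) = uw (sd T P) (un (z 0)) := by injection h3
        have h6 : z' 0 * z' 1 = z 0 := by
          rw [← un_ne h4, uw_inj _ h5, un_ne h0]
        apply mul_left_cancel₀ h0
        rw [← mul_assoc, ← h2, h6, mul_one]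

/-- separation by a relation `a · b = 1` -/
theorem sep_rel {γ γ' : E 2 → YY T} {z z' : E 2} {a b : E 2 → ℂ} (ha : Continuous a)
    (hb : Continuous b) (ha0 : a z = 0) (hb0 : b z' = 0) {U U' : Set (E 2)} (hU : U ∈ 𝓝 z)
    (hU' : U' ∈ 𝓝 z')
    (h : ∀ w ∈ U, ∀ w' ∈ U', pt (γ' w') = pt (γ w) → a w * b w' = 1) : Sep γ z γ' z' := by
  have h1 : {w | ‖a w‖ < 1} ∈ 𝓝 z := by
    apply (isOpen_lt ha.norm continuous_const).mem_nhds
    show ‖a z‖ < 1
    rw [ha0, norm_zero]
    exact one_pos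
  have h2 : {w | ‖b w‖ < 1} ∈ 𝓝 z' := by
    apply (isOpen_lt hb.norm continuous_const).mem_nhds
    show ‖b z'‖ < 1
    rw [hb0, norm_zero]
    exact one_pos
  refine sep_of_pt (Filter.inter_mem h1 hU) (Filter.inter_mem h2 hU') ?_
  rintro w ⟨hw, hwU⟩ w' ⟨hw', hwU'⟩ he
  have h3 := congrArg norm (h w hwU w' hwU' he)
  rw [norm_mul, norm_one] at h3
  have h4 : ‖a w‖ * ‖b w'‖ < 1 * 1 :=
    mul_lt_mul'' hw hw' (norm_nonneg _) (norm_nonneg _)
  linarith

theorem nhds_pc (hr : IsRad D₀ An r) (P : T.X.Pt) (v : ℂ) :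
    {z : E 2 | z 0 ∈ ball (0 : ℂ) (r P)} ∈ 𝓝 (![0, v] : E 2) :=
  (isOpen_ball.preimage (continuous_apply 0)).mem_nhds (hr.zero_mem P)

theorem nhds_mid (hr : IsRad D₀ An r) (P : T.X.Pt) {v f : ℂ} (h : v * f = 0) :
    {z : E 2 | z 0 * z 1 ∈ ball (0 : ℂ) (r P)} ∈ 𝓝 (![v, f] : E 2) := by
  refine (isOpen_ball.preimage ((continuous_apply 0).mul (continuous_apply 1))).mem_nhds ?_
  show v * f ∈ ball (0 : ℂ) (r P)
  rw [h]
  exact hr.zero_mem P

theorem sep_inj_pc (hr : IsRad D₀ An r) (P : T.X.Pt) (σ : Bool) {v v' : ℂ} (h : v ≠ v') :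
    Sep (pc q D₀ An P σ) ![0, v] (pc q D₀ An P σ) ![0, v'] := by
  refine Sep.of_inj (U := {z : E 2 | z 0 ∈ ball (0 : ℂ) (r P)})
    (isOpen_ball.preimage (continuous_apply 0)) (hr.zero_mem P) (hr.zero_mem P) ?_ ?_
  · intro z hz z' hz' c hc
    exact inj_pc hr hz' hz (by rw [hc, pt_smul])
  · intro he
    exact h (congrFun he 1)

theorem sep_inj_bl (hr : IsRad D₀ An r) {P : T.X.Pt} (hP : Exc T P) (σ : Bool) {v v' : ℂ}
    (h : v ≠ v') : Sep (bl q D₀ An P σ) ![0, v] (bl q D₀ An P σ) ![0, v'] := by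
  refine Sep.of_inj (U := {z : E 2 | z 0 ∈ ball (0 : ℂ) (r P)})
    (isOpen_ball.preimage (continuous_apply 0)) (hr.zero_mem P) (hr.zero_mem P) ?_ ?_
  · intro z hz z' hz' c hc
    exact inj_bl hr hP hz' hz (by rw [hc, pt_smul])
  · intro he
    exact h (congrFun he 1)

theorem sep_inj_mid (hr : IsRad D₀ An r) {P : T.X.Pt} (hP : Exc T P) {z z' : E 2}
    (h0 : z 0 * z 1 = 0) (h0' : z' 0 * z' 1 = 0)
    (h : z ≠ z') : Sep (mid q D₀ An P) z (mid q D₀ An P) z' := by
  refine Sep.of_inj (U := {z : E 2 | z 0 * z 1 ∈ ball (0 : ℂ) (r P)})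
    (isOpen_ball.preimage ((continuous_apply 0).mul (continuous_apply 1)))
    (by show z 0 * z 1 ∈ ball (0 : ℂ) (r P); rw [h0]; exact hr.zero_mem P)
    (by show z' 0 * z' 1 ∈ ball (0 : ℂ) (r P); rw [h0']; exact hr.zero_mem P) ?_ h
  intro z hz z' hz' c hc
  exact inj_mid hr hP hz' hz (by rw [hc, pt_smul])

/-- a point of the main component in a plain chart -/
theorem loc_main (P : T.X.Pt) (σ : Bool) (w : ℂˣ) :
    Loc (pc q D₀ An P false) ![0, (w : ℂ)] (pc q D₀ An P σ) ![0, ((uw σ w : ℂˣ) : ℂ)] := by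
  cases σ
  · exact Loc.refl _ _
  · have h := loc_pc_not q D₀ An P false (s := 0) w.ne_zero
    rw [uw_true, Units.val_inv_eq_inv_val]
    exact h

/-- a point of the main component in the middle chart -/
theorem loc_main_mid (P : T.X.Pt) (w : ℂˣ) :
    Loc (pc q D₀ An P false) ![0, (w : ℂ)] (mid q D₀ An P)
      ![((uw (sd T P) w : ℂˣ) : ℂ), 0] := by
  have h1 := loc_main (q := q) (D₀ := D₀) (An := An) P (!sd T P) w
  have h2 := (locS_mid_pc q D₀ An P (v := ((uw (sd T P) w : ℂˣ) : ℂ)) (f := 0)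
    (Units.ne_zero _)).2
  rw [mul_zero, ← Units.val_inv_eq_inv_val, ← uw_not] at h2
  exact h1.trans h2

theorem sep_fib (hr : IsRad D₀ An r) (P : T.X.Pt) {φ ψ : Fib} (hφ : Val T P φ)
    (hψ : Val T P ψ) (hne : φ ≠ ψ) :
    Sep (canC q D₀ An (P, φ)) (canZ φ) (canC q D₀ An (P, ψ)) (canZ ψ) ∨
    Sep (canC q D₀ An (P, ψ)) (canZ ψ) (canC q D₀ An (P, φ)) (canZ φ) := by
  -- the different pairs
  have main_fin : ∀ (w : ℂˣ) (σ : Bool), Sep (canC q D₀ An (P, .main w)) (canZ (.main w))
      (canC q D₀ An (P, .fin σ)) (canZ (.fin σ)) := by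
    intro w σ
    rw [canC_fin]
    by_cases hb : Bl T σ P
    · rw [endc_bl hb]
      have h1 := loc_main_mid (q := q) (D₀ := D₀) (An := An) P w
      refine Sep.of_loc h1 ?_
      refine sep_rel (continuous_apply 1) (continuous_apply 1) rfl rfl
        (nhds_mid hr P (mul_zero _)) (nhds_pc hr P 0) fun w hw w' hw' he => ?_
      rw [← hb.2] at he
      exact rel_mid_bl hr hb.1 hw hw' he
    · rw [endc_pc hb]
      exact Sep.of_loc (loc_main P σ w) (sep_inj_pc hr P σ (Units.ne_zero _))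
  have main_mid : Exc T P → ∀ (w : ℂˣ) (f : ℂ), Sep (canC q D₀ An (P, .main w))
      (canZ (.main w)) (mid q D₀ An P) ![0, f] := by
    intro hP w f
    refine Sep.of_loc (loc_main_mid P w) (sep_inj_mid hr hP ?_ ?_ ?_)
    · exact mul_zero _
    · exact zero_mul _
    · intro he
      exact (Units.ne_zero (uw (sd T P) w)) (congrFun he 0)
  have fin_mid : Exc T P → ∀ (f : ℂ), Sep (pc q D₀ An P (!sd T P)) ![0, 0]
      (mid q D₀ An P) ![0, f] := by
    intro hP f
    refine sep_rel (continuous_apply 1) (continuous_apply 0) rfl rfl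
      Filter.univ_mem Filter.univ_mem fun w hw w' hw' he => ?_
    rw [mul_comm]
    exact rel_mid_pc hP he.symm
  have bl_or : ∀ σ, Exc T P → (Bl T σ P ∧ sd T P = σ) ∨ (¬ Bl T σ P ∧ σ = !sd T P) := by
    intro σ hP
    by_cases h : sd T P = σ
    · exact Or.inl ⟨⟨hP, h⟩, h⟩
    · refine Or.inr ⟨fun hb => h hb.2, bool_eq_not (Ne.symm h)⟩
  cases φ with
  | main w =>
    cases ψ with
    | main w' =>
      left
      refine sep_inj_pc hr P false ?_
      intro he
      exact hne (by rw [Units.ext he])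
    | fin σ => exact Or.inl (main_fin w σ)
    | exc e => exact Or.inl (main_mid hψ w _)
    | node => exact Or.inl (main_mid hψ w _)
  | fin σ =>
    cases ψ with
    | main w' => exact Or.inr (main_fin w' σ)
    | fin τ =>
      have hτ : τ = !σ := bool_eq_not (fun h => hne (by rw [h]))
      subst hτ
      -- one of the two ends is plain
      have key : ∀ σ, ¬ Bl T (!σ) P → Sep (canC q D₀ An (P, .fin σ)) (canZ (.fin σ))
          (canC q D₀ An (P, .fin (!σ))) (canZ (.fin (!σ))) := by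
        intro σ h1
        rw [canC_fin, canC_fin, endc_pc h1]
        by_cases hb : Bl T σ P
        · rw [endc_bl hb]
          refine sep_rel (a := fun z => z 0 * z 1)
            ((continuous_apply 0).mul (continuous_apply 1)) (continuous_apply 1)
            (zero_mul _) rfl Filter.univ_mem Filter.univ_mem fun w hw w' hw' he => ?_
          exact rel_bl_pc hb.1 he
        · rw [endc_pc hb]
          refine sep_rel (continuous_apply 1) (continuous_apply 1) rfl rfl
            Filter.univ_mem Filter.univ_mem fun w hw w' hw' he => ?_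
          exact rel_pc he
      by_cases hb : Bl T (!σ) P
      · right
        have h2 : ¬ Bl T (!!σ) P := by
          rintro ⟨_, h⟩
          have h3 := hb.2
          rw [h] at h3
          cases σ <;> simp at h3
        have h4 := key (!σ) h2
        rw [Bool.not_not] at h4
        exact h4
      · exact Or.inl (key σ hb)
    | exc e =>
      rcases bl_or σ hψ with ⟨h1, h2⟩ | ⟨h1, h2⟩
      · right
        rw [canC_fin, endc_bl h1]
        have h3 := locS_bl_mid q D₀ An P (s := 0) (v := (e : ℂ)) e.ne_zero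
        rw [zero_mul, ← Units.val_inv_eq_inv_val, h2] at h3
        exact Sep.of_loc h3.2 (sep_inj_bl hr hψ σ e.ne_zero)
      · left
        rw [canC_fin, endc_pc h1, h2]
        exact fin_mid hψ _
    | node =>
      rcases bl_or σ hψ with ⟨h1, h2⟩ | ⟨h1, h2⟩
      · right
        rw [canC_fin, endc_bl h1]
        refine sep_rel (continuous_apply 1) (continuous_apply 1) rfl rfl
          (nhds_mid hr P (mul_zero _)) (nhds_pc hr P 0) fun w hw w' hw' he => ?_
        rw [← h2] at he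
        exact rel_mid_bl hr hψ hw hw' he
      · left
        rw [canC_fin, endc_pc h1, h2]
        exact fin_mid hψ _
  | exc e =>
    cases ψ with
    | main w' => exact Or.inr (main_mid hφ w' _)
    | fin σ =>
      rcases bl_or σ hφ with ⟨h1, h2⟩ | ⟨h1, h2⟩
      · left
        rw [canC_fin, endc_bl h1]
        have h3 := locS_bl_mid q D₀ An P (s := 0) (v := (e : ℂ)) e.ne_zero
        rw [zero_mul, ← Units.val_inv_eq_inv_val, h2] at h3
        exact Sep.of_loc h3.2 (sep_inj_bl hr hφ σ e.ne_zero)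
      · right
        rw [canC_fin, endc_pc h1, h2]
        exact fin_mid hφ _
    | exc e' =>
      left
      refine sep_inj_mid hr hφ (zero_mul _) (zero_mul _) ?_
      intro he
      have h1 : ((e⁻¹ : ℂˣ) : ℂ) = ((e'⁻¹ : ℂˣ) : ℂ) := congrFun he 1
      exact hne (by rw [inv_injective (Units.ext h1)])
    | node =>
      left
      refine sep_inj_mid hr hφ (zero_mul _) (zero_mul _) ?_
      intro he
      exact Units.ne_zero (e⁻¹) (congrFun he 1)
  | node =>
    cases ψ with
    | main w' => exact Or.inr (main_mid hφ w' _)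
    | fin σ =>
      rcases bl_or σ hφ with ⟨h1, h2⟩ | ⟨h1, h2⟩
      · left
        rw [canC_fin, endc_bl h1]
        refine sep_rel (continuous_apply 1) (continuous_apply 1) rfl rfl
          (nhds_mid hr P (mul_zero _)) (nhds_pc hr P 0) fun w hw w' hw' he => ?_
        rw [← h2] at he
        exact rel_mid_bl hr hφ hw hw' he
      · right
        rw [canC_fin, endc_pc h1, h2]
        exact fin_mid hφ _
    | exc e' =>
      right
      refine sep_inj_mid hr hφ (zero_mul _) (zero_mul _) ?_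
      intro he
      exact Units.ne_zero (e'⁻¹) (congrFun he 1)
    | node => exact (hne rfl).elim

theorem t2 (hr : IsRad D₀ An r) : (preAtlas q hr).toAtlas.IsT2 := by
  apply PreAtlas.isT2
  intro a b z hz z' hz' hne
  have h1 := can_ch (q := q) hr a z hz
  have h2 := can_ch (q := q) hr b z' hz'
  have hpt : pt (ch q D₀ An a z) ≠ pt (ch q D₀ An b z') := by
    intro h
    obtain ⟨c, hc⟩ := eq_smul_of_pt h.symm
    exact hne c hc
  refine Sep.of_loc₂ h1.1 h2.1 ?_
  have hv1 := pt_val (ch q D₀ An a z)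
  have hv2 := pt_val (ch q D₀ An b z')
  generalize pt (ch q D₀ An a z) = p at *
  generalize pt (ch q D₀ An b z') = p' at *
  obtain ⟨P, φ⟩ := p
  obtain ⟨Q, ψ⟩ := p'
  by_cases hPQ : P = Q
  · subst hPQ
    rcases sep_fib (q := q) hr P hv1 hv2 (fun h => hpt (congrArg (Prod.mk P) h)) with h | h
    · exact h
    · exact h.symm
  · exact sep_base hPQ φ ψ

end Sig

end

end Pool.Agent.YTDA
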