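import Pool.Agent.YTDA.SigF

/-!
# The differential `dx₀`

In the disc at `P`, `dx₀ / ds = s ^ (d P) * gx P s` with `gx P` analytic and without zeros.
-/

set_option autoImplicit false

namespace Pool.Agent.YTDA

open Complex Set Topology Filter Metric
open Pool.Agent.YTD

noncomputable section

variable {K : Type} [Field K] [Algebra ℂ K] {T : Datum K} {q : ℕ} {D₀ : T.X.Pt →₀ ℤ}
  {An : AnCurve T.X.toCurveOrd}

theorem tendsto_ne_of_deriv {f : ℂ → ℂ} {s : ℂ} (hf : AnalyticAt ℂ f s) (hf' : deriv f s ≠ 0) :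
    Tendsto f (𝓝[≠] s) (𝓝[≠] (f s)) :=
  hf.differentiableAt.hasDerivAt.tendsto_nhdsNE hf'

/-- the chain rule for the differential -/
theorem deriv_fn_comp (x : K) {P Q : T.X.Pt} {s s' : ℂ} (hs' : s' ∈ ball (0 : ℂ) (An.r Q))
    {f : ℂ → ℂ} (hf : AnalyticAt ℂ f s) (hfs : f s = s') (hf' : deriv f s ≠ 0)
    (h : (fun σ => An.fn Q x (f σ)) =ᶠ[𝓝[≠] s] An.fn P x) :
    deriv (An.fn P x) =ᶠ[𝓝[≠] s] fun σ => deriv (An.fn Q x) (f σ) * deriv f σ := by
  have h1 : deriv (fun σ => An.fn Q x (f σ)) =ᶠ[𝓝[≠] s] deriv (An.fn P x) := h.nhdsNE_deriv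
  have h2 : ∀ᶠ σ in 𝓝[≠] s, AnalyticAt ℂ (An.fn Q x) (f σ) := by
    have := (An.fn_mero Q x s' hs').eventually_analyticAt
    have h3 := tendsto_ne_of_deriv hf hf'
    rw [hfs] at h3
    exact h3.eventually this
  have h4 : ∀ᶠ σ in 𝓝[≠] s, AnalyticAt ℂ f σ :=
    eventually_nhdsWithin_of_eventually_nhds hf.eventually_analyticAt
  filter_upwards [h1, h2, h4] with σ e1 e2 e3
  rw [← e1]
  have := e2.differentiableAt.hasDerivAt.comp σ e3.differentiableAt.hasDerivAt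
  exact this.deriv

theorem order_dx_at {x₀ : K} {d : T.X.Pt →₀ ℤ}
    (hd : ∀ P, meromorphicOrderAt (deriv (An.fn P x₀)) 0 = ((d P : ℤ) : WithTop ℤ)) (P : T.X.Pt)
    {s : ℂ} (hs : s ∈ ball (0 : ℂ) (An.r P)) :
    meromorphicOrderAt (deriv (An.fn P x₀)) s = ((d (An.c P s) : ℤ) : WithTop ℤ) := by
  obtain ⟨f, hf, hfs, hf', hfc, hfn⟩ := An.tr P (An.c P s) s hs 0
    (mem_ball_self (An.r_pos _)) (An.c_zero _).symm
  have h0 : (0 : ℂ) ∈ ball (0 : ℂ) (An.r (An.c P s)) := mem_ball_self (An.r_pos _)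
  have h1 := deriv_fn_comp x₀ h0 hf hfs hf' (hfn x₀)
  rw [meromorphicOrderAt_congr h1]
  have hm : MeromorphicAt (deriv (An.fn (An.c P s) x₀)) (f s) := by
    rw [hfs]; exact (An.fn_mero _ _ _ h0).deriv
  have hm' : MeromorphicAt (fun σ => deriv (An.fn (An.c P s) x₀) (f σ)) s :=
    hm.comp_analyticAt hf
  have h2 : meromorphicOrderAt (fun σ => deriv (An.fn (An.c P s) x₀) (f σ) * deriv f σ) s =
      meromorphicOrderAt (fun σ => deriv (An.fn (An.c P s) x₀) (f σ)) s +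
        meromorphicOrderAt (deriv f) s :=
    meromorphicOrderAt_mul hm' hf.deriv.meromorphicAt
  rw [h2]
  have h3 : meromorphicOrderAt (deriv f) s = 0 := by
    rw [hf.deriv.meromorphicOrderAt_eq, hf.deriv.analyticOrderAt_eq_zero.2 hf']
    rfl
  have h4 : meromorphicOrderAt (fun σ => deriv (An.fn (An.c P s) x₀) (f σ)) s =
      meromorphicOrderAt (deriv (An.fn (An.c P s) x₀)) (f s) :=
    meromorphicOrderAt_comp_of_deriv_ne_zero (f := deriv (An.fn (An.c P s) x₀)) hf hf'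
  rw [h3, h4, add_zero, hfs, hd]

/-- the unit part of the differential -/
def gx (An : AnCurve T.X.toCurveOrd) (x₀ : K) (d : T.X.Pt →₀ ℤ) (r : T.X.Pt → ℝ) (P : T.X.Pt) :
    ℂ → ℂ :=
  toMeromorphicNFOn (fun s => s ^ (-d P) * deriv (An.fn P x₀) s) (ball 0 (r P))

section gx

variable {x₀ : K} {d : T.X.Pt →₀ ℤ} {r : T.X.Pt → ℝ}

theorem mero_dx (P : T.X.Pt) {s : ℂ} (hs : s ∈ ball (0 : ℂ) (An.r P)) (m : ℤ) :
    MeromorphicAt (fun s => s ^ m * deriv (An.fn P x₀) s) s :=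
  ((MeromorphicAt.id s).zpow m).mul (An.fn_mero P x₀ s hs).deriv

theorem gx_spec (hd : ∀ P, meromorphicOrderAt (deriv (An.fn P x₀)) 0 = ((d P : ℤ) : WithTop ℤ))
    (hr : ∀ P, r P ≤ An.r P)
    (hiso : ∀ P, ∀ s ∈ ball (0 : ℂ) (r P), s ≠ 0 → d (An.c P s) = 0) (P : T.X.Pt) {s : ℂ}
    (hs : s ∈ ball (0 : ℂ) (r P)) :
    AnalyticAt ℂ (gx An x₀ d r P) s ∧ gx An x₀ d r P s ≠ 0 ∧
      gx An x₀ d r P =ᶠ[𝓝[≠] s] fun s => s ^ (-d P) * deriv (An.fn P x₀) s := by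
  have hm : MeromorphicOn (fun s => s ^ (-d P) * deriv (An.fn P x₀) s) (ball 0 (r P)) :=
    fun s hs => mero_dx P (ball_subset_ball (hr P) hs) _
  have hsA := ball_subset_ball (hr P) hs
  have hnf : MeromorphicNFAt (gx An x₀ d r P) s :=
    meromorphicNFOn_toMeromorphicNFOn _ _ hs
  have hord : meromorphicOrderAt (gx An x₀ d r P) s = 0 := by
    have hz : MeromorphicAt (fun s : ℂ => s ^ (-d P)) s := (MeromorphicAt.id s).zpow _
    have hmul : meromorphicOrderAt (fun s => s ^ (-d P) * deriv (An.fn P x₀) s) s =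
        meromorphicOrderAt (fun s : ℂ => s ^ (-d P)) s +
          meromorphicOrderAt (deriv (An.fn P x₀)) s :=
      meromorphicOrderAt_mul hz (An.fn_mero P x₀ s hsA).deriv
    rw [gx, meromorphicOrderAt_toMeromorphicNFOn hm hs, hmul, order_dx_at hd P hsA]
    by_cases h0 : s = 0
    · subst h0
      have : meromorphicOrderAt (fun s : ℂ => s ^ (-d P)) 0 = ((-d P : ℤ) : WithTop ℤ) := by
        have h1 := meromorphicOrderAt_zpow_id_sub_const (𝕜 := ℂ) (x := 0) (n := -d P)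
        have h2 : (fun s : ℂ => s ^ (-d P)) = (fun s : ℂ => s - 0) ^ (-d P) := by
          funext s
          simp
        rw [h2]
        exact h1
      rw [this, An.c_zero, ← WithTop.coe_add]
      simp
    · rw [hiso P s hs h0]
      have h1 : AnalyticAt ℂ (fun s : ℂ => s ^ (-d P)) s :=
        analyticAt_id.zpow h0
      rw [h1.meromorphicOrderAt_eq, h1.analyticOrderAt_eq_zero.2 (zpow_ne_zero _ h0)]
      rfl
  exact ⟨hnf.meromorphicOrderAt_nonneg_iff_analyticAt.1 hord.ge,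
    hnf.meromorphicOrderAt_eq_zero_iff.1 hord, hm.toMeromorphicNFOn_eq_self_on_nhdsNE hs⟩

/-- compatibility of the unit parts -/
theorem gx_compat (hd : ∀ P, meromorphicOrderAt (deriv (An.fn P x₀)) 0 = ((d P : ℤ) : WithTop ℤ))
    (hr : ∀ P, r P ≤ An.r P)
    (hiso : ∀ P, ∀ s ∈ ball (0 : ℂ) (r P), s ≠ 0 → d (An.c P s) = 0) {P Q : T.X.Pt} {s s' : ℂ}
    (hs : s ∈ ball (0 : ℂ) (r P)) (hs' : s' ∈ ball (0 : ℂ) (r Q)) (h0 : s ≠ 0) (h0' : s' ≠ 0)
    {f : ℂ → ℂ} (hf : AnalyticAt ℂ f s) (hfs : f s = s') (hf' : deriv f s ≠ 0)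
    (h : (fun σ => An.fn Q x₀ (f σ)) =ᶠ[𝓝[≠] s] An.fn P x₀) :
    s ^ d P * gx An x₀ d r P s = s' ^ d Q * gx An x₀ d r Q s' * deriv f s := by
  obtain ⟨a1, -, a3⟩ := gx_spec hd hr hiso P hs
  obtain ⟨b1, -, b3⟩ := gx_spec hd hr hiso Q hs'
  have h1 := deriv_fn_comp x₀ (ball_subset_ball (hr Q) hs') hf hfs hf' h
  have ht := tendsto_ne_of_deriv hf hf'
  rw [hfs] at ht
  have hev : ∀ᶠ σ in 𝓝[≠] s, σ ^ d P * gx An x₀ d r P σ =
      f σ ^ d Q * gx An x₀ d r Q (f σ) * deriv f σ := by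
    have n0 : ∀ᶠ σ in 𝓝[≠] s, σ ≠ 0 :=
      eventually_nhdsWithin_of_eventually_nhds (continuousAt_id.eventually_ne h0)
    have n0' : ∀ᶠ σ in 𝓝[≠] s, f σ ≠ 0 := by
      refine eventually_nhdsWithin_of_eventually_nhds (hf.continuousAt.eventually_ne ?_)
      rw [hfs]; exact h0'
    filter_upwards [a3, ht.eventually b3, h1, n0, n0'] with σ e1 e2 e3 e4 e5
    have k1 : σ ^ d P * σ ^ (-d P) = 1 := by rw [← zpow_add₀ e4]; simp
    have k2 : f σ ^ d Q * f σ ^ (-d Q) = 1 := by rw [← zpow_add₀ e5]; simp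
    rw [e1, e2, e3]
    linear_combination (deriv (An.fn Q x₀) (f σ) * deriv f σ) * k1 -
      (deriv (An.fn Q x₀) (f σ) * deriv f σ) * k2
  have c1 : ContinuousAt (fun σ => σ ^ d P * gx An x₀ d r P σ) s :=
    (continuousAt_zpow₀ _ _ (Or.inl h0)).mul a1.continuousAt
  have c2 : ContinuousAt (fun σ => f σ ^ d Q * gx An x₀ d r Q (f σ) * deriv f σ) s := by
    have hb : ContinuousAt (gx An x₀ d r Q) (f s) := by rw [hfs]; exact b1.continuousAt
    have hz : ContinuousAt (fun x : ℂ => x ^ d Q) (f s) :=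
      continuousAt_zpow₀ _ _ (Or.inl (by rw [hfs]; exact h0'))
    exact ((hz.comp hf.continuousAt).mul (hb.comp hf.continuousAt)).mul
      hf.deriv.continuousAt
  have := tendsto_nhds_unique_of_eventuallyEq (c1.tendsto.mono_left nhdsWithin_le_nhds)
    (c2.tendsto.mono_left nhdsWithin_le_nhds) hev
  rwa [hfs] at this

end gx

end

end Pool.Agent.YTDA
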