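import Pool.Agent.YTDA.SigModel
import Pool.Agent.YTDA.T13Defs

/-!
The surface `Σ`: exponents of the coordinates `s`, `w` and of the frames in the charts, and
labels of the coordinate axes of the charts.
-/

namespace Pool.Agent.YTDA

open Complex Set Topology Metric Filter
open Pool.Agent.YTD

noncomputable section

namespace Sig

variable {K : Type} [Field K] [Algebra ℂ K] {T : Datum K}
variable {q : ℕ} {D₀ : T.X.Pt →₀ ℤ} {An : AnCurve T.X.toCurveOrd} {r : T.X.Pt → ℝ}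

/-! ### Exponents -/

/-- the sign of a side: the fibre coordinate of the side is `w ^ sg σ` -/
def sg (σ : Bool) : ℤ := if σ then -1 else 1

theorem uw_sg (σ : Bool) (w : ℂˣ) : uw σ w = w ^ sg σ := by
  cases σ
  · exact (zpow_one w).symm
  · exact (zpow_neg_one w).symm

theorem sg_mul_self (σ : Bool) : sg σ * sg σ = 1 := by
  cases σ <;> rfl

/-- the side of a chart -/
def side (a : T.X.Pt × Fin 3) : Bool :=
  match a.2 with
  | 0 => false
  | 1 => true
  | 2 => sd T a.1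

/-- exponents of the coordinate `s` of the curve in a chart -/
def es (a : T.X.Pt × Fin 3) : Fin 2 → ℤ :=
  match a.2 with
  | 0 => ![1, 0]
  | 1 => ![1, 0]
  | 2 => ![1, 1]

open Classical in
/-- exponents of the fibre coordinate of the side of a chart -/
def ev (a : T.X.Pt × Fin 3) : Fin 2 → ℤ :=
  match a.2 with
  | 0 => if Bl T false a.1 then ![1, 1] else ![0, 1]
  | 1 => if Bl T true a.1 then ![1, 1] else ![0, 1]
  | 2 => ![1, 0]

/-- exponents of the fibre coordinate `w` in a chart -/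
def ew (a : T.X.Pt × Fin 3) (j : Fin 2) : ℤ := sg (side a) * ev a j

open Classical in
/-- exponents of the factor between the frame of a chart and the frame `o` -/
def eg (q : ℕ) (a : T.X.Pt × Fin 3) : Fin 2 → ℤ :=
  match a.2 with
  | 0 => if Bl T false a.1 then ![4 * (q : ℤ), 5 * q] else ![0, 5 * q]
  | 1 => if Bl T true a.1 then ![4 * (q : ℤ), 5 * q] else ![0, 5 * q]
  | 2 => ![4 * (q : ℤ), 0]

theorem side_ei (P : T.X.Pt) (σ : Bool) : side (P, ei σ) = σ := by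
  cases σ <;> rfl

theorem side_two (P : T.X.Pt) : side (P, 2) = sd T P := rfl

theorem es_ei (P : T.X.Pt) (σ : Bool) : es (P, ei σ) = ![1, 0] := by
  cases σ <;> rfl

theorem es_two (P : T.X.Pt) : es (P, 2) = ![1, 1] := rfl

theorem ev_pc {P : T.X.Pt} {σ : Bool} (h : ¬ Bl T σ P) : ev (P, ei σ) = ![0, 1] := by
  cases σ <;> exact if_neg h

theorem ev_bl {P : T.X.Pt} {σ : Bool} (h : Bl T σ P) : ev (P, ei σ) = ![1, 1] := by
  cases σ <;> exact if_pos h

theorem ev_two (P : T.X.Pt) : ev (P, 2) = ![1, 0] := rfl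

theorem eg_pc {P : T.X.Pt} {σ : Bool} (h : ¬ Bl T σ P) :
    eg q (P, ei σ) = ![0, 5 * (q : ℤ)] := by
  cases σ <;> exact if_neg h

theorem eg_bl {P : T.X.Pt} {σ : Bool} (h : Bl T σ P) :
    eg q (P, ei σ) = ![4 * (q : ℤ), 5 * q] := by
  cases σ <;> exact if_pos h

theorem eg_two (P : T.X.Pt) : eg q (P, 2) = ![4 * (q : ℤ), 0] := rfl

theorem kk_ei (P : T.X.Pt) (σ : Bool) : kk (P, ei σ) = ![0, sg σ] := by
  cases σ <;> rfl

theorem kk_two (P : T.X.Pt) : kk (P, 2) = ![sg (sd T P), - sg (sd T P)] := by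
  show (if sd T P then ![-1, 1] else ![1, -1]) = _
  cases sd T P
  · rfl
  · rfl

theorem mm_ei' (P : T.X.Pt) (σ : Bool) : mm q (P, ei σ) = -(5 * q * sg σ) := by
  cases σ
  · show (-5 * q : ℤ) = -(5 * q * 1)
    ring
  · show (5 * q : ℤ) = -(5 * q * -1)
    ring

theorem mm_two' (P : T.X.Pt) : mm q (P, 2) = -(4 * q * sg (sd T P)) := by
  show (if sd T P then 4 * (q : ℤ) else -4 * q) = _
  cases sd T P
  · show (-4 * q : ℤ) = -(4 * q * 1)
    ring
  · show (4 * q : ℤ) = -(4 * q * -1)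
    ring

/-- every chart is a plain end chart, a blown up end chart or a middle chart -/
theorem chart_types {p : T.X.Pt × Fin 3 → Prop} (h1 : ∀ P σ, ¬ Bl T σ P → p (P, ei σ))
    (h2 : ∀ P σ, Bl T σ P → p (P, ei σ)) (h3 : ∀ P, p (P, 2)) : ∀ a, p a := by
  apply chart_cases
  · intro P σ
    by_cases h : Bl T σ P
    · exact h2 P σ h
    · exact h1 P σ h
  · exact h3

theorem sum_es (a : T.X.Pt × Fin 3) : ∑ j, es a j * kk a j = 0 := by
  revert a
  apply chart_types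
  · intro P σ h
    rw [es_ei, kk_ei, Fin.sum_univ_two]
    simp
  · intro P σ h
    rw [es_ei, kk_ei, Fin.sum_univ_two]
    simp
  · intro P
    rw [es_two, kk_two, Fin.sum_univ_two]
    simp

theorem sum_ev (a : T.X.Pt × Fin 3) : ∑ j, ev a j * kk a j = sg (side a) := by
  revert a
  apply chart_types
  · intro P σ h
    rw [ev_pc h, kk_ei, Fin.sum_univ_two, side_ei]
    simp
  · intro P σ h
    rw [ev_bl h, kk_ei, Fin.sum_univ_two, side_ei]
    simp
  · intro P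
    rw [ev_two, kk_two, Fin.sum_univ_two, side_two]
    simp

theorem sum_ew (a : T.X.Pt × Fin 3) : ∑ j, ew a j * kk a j = 1 := by
  unfold ew
  have : ∀ j, sg (side a) * ev a j * kk a j = sg (side a) * (ev a j * kk a j) := fun j =>
    mul_assoc _ _ _
  simp_rw [this]
  rw [← Finset.mul_sum, sum_ev, sg_mul_self]

theorem sum_eg (a : T.X.Pt × Fin 3) : ∑ j, eg q a j * kk a j = - mm q a := by
  revert a
  apply chart_types
  · intro P σ h
    rw [eg_pc h, kk_ei, Fin.sum_univ_two, mm_ei']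
    simp
  · intro P σ h
    rw [eg_bl h, kk_ei, Fin.sum_univ_two, mm_ei']
    simp
  · intro P
    rw [eg_two, kk_two, Fin.sum_univ_two, mm_two']
    simp

/-- a Laurent monomial -/
def mo (e : Fin 2 → ℤ) (z₀ z₁ : ℂˣ) : ℂˣ := z₀ ^ e 0 * z₁ ^ e 1

theorem mo2 (a b : ℤ) (z₀ z₁ : ℂˣ) : mo ![a, b] z₀ z₁ = z₀ ^ a * z₁ ^ b := rfl

/-- the frames of the charts in terms of `o` -/
theorem ch_oo (a : T.X.Pt × Fin 3) (z₀ z₁ : ℂˣ) :
    ch q D₀ An a ![(z₀ : ℂ), (z₁ : ℂ)] = mo (eg q a) z₀ z₁ •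
      oo D₀ An a.1 (mo (es a) z₀ z₁ : ℂˣ) (uw (side a) (mo (ev a) z₀ z₁)) := by
  revert a
  apply chart_types
  · intro P σ h
    rw [ch_ei, endc_pc h, pc_oo, eg_pc h, es_ei, ev_pc h, side_ei, mo2, mo2, mo2, zpow_one,
      zpow_zero, zpow_zero, mul_one, one_mul, one_mul, zpow_one]
  · intro P σ h
    rw [ch_ei, endc_bl h, bl_oo, eg_bl h, es_ei, ev_bl h, side_ei, mo2, mo2, mo2, zpow_one,
      zpow_zero, mul_one, zpow_one, mul_zpow, mul_right_comm, ← zpow_add]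
    congr 3
    ring
  · intro P
    rw [ch_two, mid_oo, eg_two, es_two, ev_two, side_two, mo2, mo2, mo2, zpow_zero, mul_one,
      zpow_one, zpow_one, mul_one, Units.val_mul]

/-! ### The monomial functions on the line bundle -/

/-- the fibre coordinate (`1` outside of the main part) -/
def wv (y : YY T) : ℂˣ :=
  match y.fib with
  | .main w => w
  | _ => 1

theorem wv_smul (c : ℂˣ) (y : YY T) : wv (c • y) = wv y := rfl

theorem oo_eq (P : T.X.Pt) (s : ℂ) (w : ℂˣ) :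
    oo D₀ An P s w = ⟨An.c P s, .main w, upow s (D₀ P), trivial⟩ := mkY_of (φ := .main w) trivial _

theorem wv_ch (a : T.X.Pt × Fin 3) (z₀ z₁ : ℂˣ) :
    wv (ch q D₀ An a ![(z₀ : ℂ), (z₁ : ℂ)]) = uw (side a) (mo (ev a) z₀ z₁) := by
  rw [ch_oo, wv_smul, oo_eq]
  rfl

theorem u_ch (a : T.X.Pt × Fin 3) (z₀ z₁ : ℂˣ) :
    (ch q D₀ An a ![(z₀ : ℂ), (z₁ : ℂ)]).u =
      mo (eg q a) z₀ z₁ * mo (es a) z₀ z₁ ^ D₀ a.1 := by
  rw [ch_oo, smul_u, oo_eq]
  show _ * upow _ _ = _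
  rw [upow_eq, un_coe]

theorem base_ch (a : T.X.Pt × Fin 3) (z₀ z₁ : ℂˣ) :
    (ch q D₀ An a ![(z₀ : ℂ), (z₁ : ℂ)]).base = An.c a.1 (mo (es a) z₀ z₁ : ℂˣ) := by
  rw [ch_oo, smul_base, oo_eq]

/-- the logarithm of the square of the absolute value of a monomial -/
theorem log_mo (e : Fin 2 → ℤ) (z₀ z₁ : ℂˣ) :
    Real.log (‖((mo e z₀ z₁ : ℂˣ) : ℂ)‖ ^ 2) =
      e 0 * Real.log (‖(z₀ : ℂ)‖ ^ 2) + e 1 * Real.log (‖(z₁ : ℂ)‖ ^ 2) := by
  unfold mo
  have h0 : ‖(z₀ : ℂ)‖ ≠ 0 := norm_ne_zero_iff.2 z₀.ne_zero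
  have h1 : ‖(z₁ : ℂ)‖ ≠ 0 := norm_ne_zero_iff.2 z₁.ne_zero
  rw [Units.val_mul, Units.val_zpow_eq_zpow_val, Units.val_zpow_eq_zpow_val, norm_mul, norm_zpow,
    norm_zpow, mul_pow, Real.log_mul (pow_ne_zero _ (zpow_ne_zero _ h0))
    (pow_ne_zero _ (zpow_ne_zero _ h1)), Real.log_pow, Real.log_pow, Real.log_zpow,
    Real.log_zpow, Real.log_pow, Real.log_pow]
  push_cast
  ring

theorem log_uw (σ : Bool) (w : ℂˣ) :
    Real.log (‖((uw σ w : ℂˣ) : ℂ)‖ ^ 2) = sg σ * Real.log (‖(w : ℂ)‖ ^ 2) := by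
  rw [uw_sg, Units.val_zpow_eq_zpow_val, norm_zpow, Real.log_pow, Real.log_zpow, Real.log_pow]
  push_cast
  ring

/-- `log |w|²` in a chart -/
theorem log_wv_ch (a : T.X.Pt × Fin 3) (z₀ z₁ : ℂˣ) :
    Real.log (‖((wv (ch q D₀ An a ![(z₀ : ℂ), (z₁ : ℂ)]) : ℂˣ) : ℂ)‖ ^ 2) =
      ew a 0 * Real.log (‖(z₀ : ℂ)‖ ^ 2) + ew a 1 * Real.log (‖(z₁ : ℂ)‖ ^ 2) := by
  rw [wv_ch, log_uw, log_mo]
  unfold ew
  push_cast
  ring

/-- `log |u|²` in a chart -/
theorem log_u_ch (a : T.X.Pt × Fin 3) (z₀ z₁ : ℂˣ) :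
    Real.log (‖(((ch q D₀ An a ![(z₀ : ℂ), (z₁ : ℂ)]).u : ℂˣ) : ℂ)‖ ^ 2) =
      (eg q a 0 + D₀ a.1 * es a 0) * Real.log (‖(z₀ : ℂ)‖ ^ 2) +
      (eg q a 1 + D₀ a.1 * es a 1) * Real.log (‖(z₁ : ℂ)‖ ^ 2) := by
  rw [u_ch]
  have h : ∀ x y : ℂˣ, Real.log (‖((x * y : ℂˣ) : ℂ)‖ ^ 2) =
      Real.log (‖(x : ℂ)‖ ^ 2) + Real.log (‖(y : ℂ)‖ ^ 2) := by
    intro x y
    rw [Units.val_mul, norm_mul, mul_pow, Real.log_mul
      (pow_ne_zero _ (norm_ne_zero_iff.2 x.ne_zero)) (pow_ne_zero _ (norm_ne_zero_iff.2 y.ne_zero))]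
  have h2 : ∀ (x : ℂˣ) (d : ℤ), Real.log (‖((x ^ d : ℂˣ) : ℂ)‖ ^ 2) =
      d * Real.log (‖(x : ℂ)‖ ^ 2) := by
    intro x d
    rw [Units.val_zpow_eq_zpow_val, norm_zpow, Real.log_pow, Real.log_zpow, Real.log_pow]
    push_cast
    ring
  rw [h, h2, log_mo, log_mo]
  ring

/-! ### Labels of the axes -/

/-- the curves of `Σ` which are coordinate axes of charts -/
inductive Lab (T : Datum K)
  /-- no curve (for empty charts) -/
  | no
  /-- the section at the bottom -/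
  | zer
  /-- the section at the top -/
  | inf
  /-- the (strict transform of the) fibre over a point -/
  | fi (P : T.X.Pt)
  /-- the exceptional curve over a point -/
  | ex (P : T.X.Pt)

/-- the horizontal curve at an end -/
def hor (T : Datum K) (σ : Bool) : Lab T := if σ then .inf else .zer

open Classical in
/-- the vertical curve through the end of a fibre -/
def ver (P : T.X.Pt) (σ : Bool) : Lab T := if Bl T σ P then .ex P else .fi P

theorem ver_bl {P : T.X.Pt} {σ : Bool} (h : Bl T σ P) : ver P σ = .ex P := if_pos h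

theorem ver_pc {P : T.X.Pt} {σ : Bool} (h : ¬ Bl T σ P) : ver P σ = .fi P := if_neg h

open Classical in
/-- labels of the axes of a chart -/
def lab (a : T.X.Pt × Fin 3) : Fin 2 → Lab T :=
  match a.2 with
  | 0 => ![ver a.1 false, .zer]
  | 1 => ![ver a.1 true, .inf]
  | 2 => if Exc T a.1 then ![.ex a.1, .fi a.1] else ![.no, .no]

theorem lab_ei (P : T.X.Pt) (σ : Bool) : lab (P, ei σ) = ![ver P σ, hor T σ] := by
  cases σ <;> rfl

theorem lab_pc {P : T.X.Pt} {σ : Bool} (h : ¬ Bl T σ P) :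
    lab (P, ei σ) = ![.fi P, hor T σ] := by
  rw [lab_ei, ver_pc h]

theorem lab_bl {P : T.X.Pt} {σ : Bool} (h : Bl T σ P) :
    lab (P, ei σ) = ![.ex P, hor T σ] := by
  rw [lab_ei, ver_bl h]

theorem lab_two {P : T.X.Pt} (h : Exc T P) : lab (P, 2) = ![.ex P, .fi P] := if_pos h

theorem lab_two' {P : T.X.Pt} (h : ¬ Exc T P) : lab (P, 2) = ![.no, .no] := if_neg h

/-- every chart is a plain end chart, a blown up end chart, a nonempty or an empty middle chart -/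
theorem chart_types' {p : T.X.Pt × Fin 3 → Prop} (h1 : ∀ P σ, ¬ Bl T σ P → p (P, ei σ))
    (h2 : ∀ P σ, Bl T σ P → p (P, ei σ)) (h3 : ∀ P, Exc T P → p (P, 2))
    (h4 : ∀ P, ¬ Exc T P → p (P, 2)) : ∀ a, p a := by
  apply chart_types h1 h2
  intro P
  by_cases h : Exc T P
  · exact h3 P h
  · exact h4 P h

/-- horizontal axes: the weight of the other coordinate is zero -/
theorem lab_hor (a : T.X.Pt × Fin 3) (j : Fin 2) (σ : Bool) (h : lab a j = hor T σ) :
    kk a (1 - j) = 0 ∧ mm q a = -(5 * q * sg σ) := by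
  revert a
  have h1 : ∀ P τ, ver P τ ≠ hor T σ := by
    intro P τ
    unfold ver
    split_ifs <;> cases σ <;> exact fun h => by cases h
  have h2 : ∀ τ, hor T τ = hor T σ → τ = σ := by
    intro τ h
    cases τ <;> cases σ <;> first | rfl | cases h
  have key : ∀ P τ, lab (P, ei τ) j = hor T σ →
      kk (P, ei τ) (1 - j) = 0 ∧ mm q (P, ei τ) = -(5 * q * sg σ) := by
    intro P τ h
    rw [lab_ei] at h
    fin_cases j
    · exact (h1 P τ h).elim
    · have := h2 τ h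
      subst this
      rw [kk_ei, mm_ei']
      exact ⟨rfl, rfl⟩
  apply chart_types'
  · exact fun P τ _ => key P τ
  · exact fun P τ _ => key P τ
  · intro P hP h
    rw [lab_two hP] at h
    fin_cases j <;> cases σ <;> cases h
  · intro P hP h
    rw [lab_two' hP] at h
    fin_cases j <;> cases σ <;> cases h

end Sig

namespace Sig

variable {K : Type} [Field K] [Algebra ℂ K] {T : Datum K}
variable {q : ℕ} {D₀ : T.X.Pt →₀ ℤ} {An : AnCurve T.X.toCurveOrd} {r : T.X.Pt → ℝ}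

theorem exists_smul_of_pt {y y' : YY T} (h : pt y' = pt y) : ∃ c : ℂˣ, y' = c • y :=
  eq_smul_of_pt h

theorem pt_act (c : ℂˣ) (y : YY T) : pt (act q c y) = (y.base, actF y.base c y.fib) := rfl

/-- the isolated points of the curve -/
def IsoPt (An : AnCurve T.X.toCurveOrd) (r : T.X.Pt → ℝ) (Q : T.X.Pt) : Prop :=
  ∀ P, ∀ s ∈ ball (0 : ℂ) (r P), s ≠ 0 → An.c P s ≠ Q

theorem isoPt_exc (hr : IsRad D₀ An r) {Q : T.X.Pt} (hQ : Exc T Q) : IsoPt An r Q := by
  intro P s hs h0 he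
  apply hr.not_exc hs h0
  rw [he]
  exact hQ

theorem isoPt_D (hr : IsRad D₀ An r) {Q : T.X.Pt} (hQ : D₀ Q ≠ 0) : IsoPt An r Q := by
  intro P s hs h0 he
  apply hQ
  rw [← he]
  exact (hr.iso P s hs h0).2.2

theorem lab_fi {a : T.X.Pt × Fin 3} {j : Fin 2} {Q : T.X.Pt} (h : lab a j = .fi Q) :
    (∃ σ, ¬ Bl T σ Q ∧ a = (Q, ei σ) ∧ j = 0) ∨ (Exc T Q ∧ a = (Q, 2) ∧ j = 1) := by
  revert a
  apply chart_types'
  · intro P σ hb h
    rw [lab_pc hb] at h
    fin_cases j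
    · have h' : Lab.fi P = Lab.fi (T := T) Q := h
      injection h' with h1
      subst h1
      exact Or.inl ⟨σ, hb, rfl, rfl⟩
    · cases σ <;> cases h
  · intro P σ hb h
    rw [lab_bl hb] at h
    fin_cases j
    · cases h
    · cases σ <;> cases h
  · intro P hP h
    rw [lab_two hP] at h
    fin_cases j
    · cases h
    · have h' : Lab.fi P = Lab.fi (T := T) Q := h
      injection h' with h1
      subst h1
      exact Or.inr ⟨hP, rfl, rfl⟩
  · intro P hP h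
    rw [lab_two' hP] at h
    fin_cases j <;> cases h

theorem lab_ex {a : T.X.Pt × Fin 3} {j : Fin 2} {Q : T.X.Pt} (h : lab a j = .ex Q) :
    (∃ σ, Bl T σ Q ∧ a = (Q, ei σ) ∧ j = 0) ∨ (Exc T Q ∧ a = (Q, 2) ∧ j = 0) := by
  revert a
  apply chart_types'
  · intro P σ hb h
    rw [lab_pc hb] at h
    fin_cases j
    · cases h
    · cases σ <;> cases h
  · intro P σ hb h
    rw [lab_bl hb] at h
    fin_cases j
    · have h' : Lab.ex P = Lab.ex (T := T) Q := h
      injection h' with h1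
      subst h1
      exact Or.inl ⟨σ, hb, rfl, rfl⟩
    · cases σ <;> cases h
  · intro P hP h
    rw [lab_two hP] at h
    fin_cases j
    · have h' : Lab.ex P = Lab.ex (T := T) Q := h
      injection h' with h1
      subst h1
      exact Or.inr ⟨hP, rfl, rfl⟩
    · cases h
  · intro P hP h
    rw [lab_two' hP] at h
    fin_cases j <;> cases h

/-- `(lo, hi)` for a fibre -/
def loF (T : Datum K) (q : ℕ) (Q : T.X.Pt) : ℤ := open Classical in if Bl T false Q then -4 * q else -5 * q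

/-- `(lo, hi)` for a fibre -/
def hiF (T : Datum K) (q : ℕ) (Q : T.X.Pt) : ℤ := open Classical in if Bl T true Q then 4 * q else 5 * q

/-- `(lo, hi)` for an exceptional curve -/
def loE (T : Datum K) (q : ℕ) (Q : T.X.Pt) : ℤ := open Classical in if Bl T false Q then -5 * q else 4 * q

/-- `(lo, hi)` for an exceptional curve -/
def hiE (T : Datum K) (q : ℕ) (Q : T.X.Pt) : ℤ := open Classical in if Bl T false Q then -4 * q else 5 * q

theorem bl_sd {P : T.X.Pt} (h : Exc T P) : Bl T (sd T P) P := ⟨h, rfl⟩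

theorem not_bl_not {P : T.X.Pt} {σ : Bool} (h : Bl T σ P) : ¬ Bl T (!σ) P := by
  rintro ⟨_, h2⟩
  rw [h.2] at h2
  cases σ <;> simp at h2

theorem mem_axis_ei (hr : IsRad D₀ An r) (P : T.X.Pt) (σ : Bool) {z : E 2} (hz : z 0 = 0) :
    z ∈ UU r (P, ei σ) := by
  rw [UU_ei]
  show ‖z 0‖ < r P
  rw [hz, norm_zero]
  exact hr.pos _

theorem mem_axis_two (hr : IsRad D₀ An r) {P : T.X.Pt} (hP : Exc T P) {z : E 2} {j : Fin 2}
    (hz : z j = 0) : z ∈ UU r (P, 2) := by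
  rw [UU_two]
  refine ⟨hP, ?_⟩
  have : z 0 * z 1 = 0 := by
    fin_cases j
    · exact mul_eq_zero_of_left hz _
    · exact mul_eq_zero_of_right _ hz
  rw [this, norm_zero]
  exact hr.pos _

theorem kk_ei_one (P : T.X.Pt) (σ : Bool) : kk (P, ei σ) 1 = 1 ∨ kk (P, ei σ) 1 = -1 := by
  rw [kk_ei]
  cases σ
  · exact Or.inl rfl
  · exact Or.inr rfl

theorem kk_two_pm (P : T.X.Pt) (j : Fin 2) : kk (P, 2) j = 1 ∨ kk (P, 2) j = -1 := by
  rw [kk_two]
  cases sd T P <;> fin_cases j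
  · exact Or.inl rfl
  · exact Or.inr rfl
  · exact Or.inr rfl
  · exact Or.inl rfl

/-- the points of an axis labelled by a fibre -/
theorem orb_fi {Q : T.X.Pt} {a : T.X.Pt × Fin 3} {j : Fin 2} (h : lab a j = .fi Q) {w : ℂ}
    (hw : w ≠ 0) : ∃ w' : ℂˣ, pt (ch q D₀ An a (axis j w)) = (Q, .main w') := by
  rcases lab_fi h with ⟨σ, hb, rfl, rfl⟩ | ⟨hP, rfl, rfl⟩
  · refine ⟨uw σ (un w), ?_⟩
    rw [axis_zero, ch_ei, endc_pc hb, pt_pc]
    show (An.c Q 0, pfib σ w) = _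
    rw [An.c_zero, pfib_ne hw]
  · refine ⟨uw (sd T Q) (un w), ?_⟩
    rw [axis_one, ch_two, pt_mid_ne q D₀ An (by exact hw)]
    show (An.c Q (w * 0), Fib.main (uw (sd T Q) (un w))) = _
    rw [mul_zero, An.c_zero]

/-- the points of an axis labelled by an exceptional curve -/
theorem orb_ex {Q : T.X.Pt} {a : T.X.Pt × Fin 3} {j : Fin 2} (h : lab a j = .ex Q) {w : ℂ}
    (hw : w ≠ 0) : ∃ e : ℂˣ, pt (ch q D₀ An a (axis j w)) = (Q, .exc e) := by
  rcases lab_ex h with ⟨σ, hb, rfl, rfl⟩ | ⟨hP, rfl, rfl⟩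
  · refine ⟨un w, ?_⟩
    rw [axis_zero, ch_ei, endc_bl hb, pt_bl_exc q D₀ An hb.1 (by rfl) (by exact hw)]
    rfl
  · refine ⟨(un w)⁻¹, ?_⟩
    rw [axis_zero, ch_two, pt_mid_exc q D₀ An hP (by rfl) (by exact hw)]
    rfl

theorem axis_fi {Q : T.X.Pt} (hQ : IsoPt An r Q) (a : T.X.Pt × Fin 3) (z : E 2)
    (hz : z ∈ UU r a) {w : ℂˣ} (h1 : pt (ch q D₀ An a z) = (Q, .main w)) :
    ∃ j, lab a j = .fi Q ∧ z j = 0 := by
  have hQ' : ∀ P, ∀ s : ℂ, ‖s‖ < r P → An.c P s = Q → s = 0 ∧ P = Q := by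
    intro P s hs hc
    by_cases h0 : s = 0
    · refine ⟨h0, ?_⟩
      rw [← hc, h0, An.c_zero]
    · exact (hQ P s (mem_b.2 hs) h0 hc).elim
  revert a
  apply chart_types'
  · intro P σ hb hz h1
    rw [UU_ei] at hz
    rw [ch_ei, endc_pc hb, pt_pc] at h1
    obtain ⟨h2, h3⟩ := hQ' P (z 0) hz (congrArg Prod.fst h1)
    subst h3
    refine ⟨0, ?_, h2⟩
    rw [lab_pc hb]
    rfl
  · intro P σ hb hz h1
    rw [UU_ei] at hz
    rw [ch_ei, endc_bl hb] at h1
    by_cases h0 : z 0 = 0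
    · by_cases h0' : z 1 = 0
      · rw [pt_bl_zero q D₀ An h0 h0'] at h1
        have h2 := congrArg Prod.snd h1
        cases h2
      · rw [pt_bl_exc q D₀ An hb.1 h0 h0'] at h1
        have h2 := congrArg Prod.snd h1
        cases h2
    · rw [pt_bl_ne q D₀ An h0] at h1
      exact (h0 (hQ' P (z 0) hz (congrArg Prod.fst h1)).1).elim
  · intro P hP hz h1
    rw [UU_two] at hz
    rw [ch_two] at h1
    by_cases h0 : z 0 = 0
    · by_cases h0' : z 1 = 0
      · rw [pt_mid_node q D₀ An hP h0 h0'] at h1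
        have h2 := congrArg Prod.snd h1
        cases h2
      · rw [pt_mid_exc q D₀ An hP h0 h0'] at h1
        have h2 := congrArg Prod.snd h1
        cases h2
    · rw [pt_mid_ne q D₀ An h0] at h1
      obtain ⟨h2, h3⟩ := hQ' P _ hz.2 (congrArg Prod.fst h1)
      subst h3
      refine ⟨1, ?_, (mul_eq_zero.1 h2).resolve_left h0⟩
      rw [lab_two hP]
      rfl
  · intro P hP hz _
    rw [UU_two] at hz
    exact (hP hz.1).elim

theorem axis_ex {Q : T.X.Pt} (a : T.X.Pt × Fin 3) (z : E 2)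
    (hz : z ∈ UU r a) {e : ℂˣ} (h1 : pt (ch q D₀ An a z) = (Q, .exc e)) :
    ∃ j, lab a j = .ex Q ∧ z j = 0 := by
  revert a
  apply chart_types'
  · intro P σ hb hz h1
    rw [ch_ei, endc_pc hb, pt_pc] at h1
    exact (pfib_ne_exc (congrArg Prod.snd h1)).elim
  · intro P σ hb hz h1
    rw [ch_ei, endc_bl hb] at h1
    by_cases h0 : z 0 = 0
    · by_cases h0' : z 1 = 0
      · rw [pt_bl_zero q D₀ An h0 h0'] at h1
        have h2 := congrArg Prod.snd h1
        cases h2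
      · rw [pt_bl_exc q D₀ An hb.1 h0 h0'] at h1
        have h3 : P = Q := congrArg Prod.fst h1
        subst h3
        refine ⟨0, ?_, h0⟩
        rw [lab_bl hb]
        rfl
    · rw [pt_bl_ne q D₀ An h0] at h1
      exact (pfib_ne_exc (congrArg Prod.snd h1)).elim
  · intro P hP hz h1
    rw [ch_two] at h1
    by_cases h0 : z 0 = 0
    · by_cases h0' : z 1 = 0
      · rw [pt_mid_node q D₀ An hP h0 h0'] at h1
        have h2 := congrArg Prod.snd h1
        cases h2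
      · rw [pt_mid_exc q D₀ An hP h0 h0'] at h1
        have h3 : P = Q := congrArg Prod.fst h1
        subst h3
        refine ⟨0, ?_, h0⟩
        rw [lab_two hP]
        rfl
    · rw [pt_mid_ne q D₀ An h0] at h1
      have h2 := congrArg Prod.snd h1
      cases h2
  · intro P hP hz _
    rw [UU_two] at hz
    exact (hP hz.1).elim

theorem inj_fi {Q : T.X.Pt} (a : T.X.Pt × Fin 3) (h0 : lab a 0 = .fi Q) : lab a 1 ≠ .fi Q := by
  intro h1
  rcases lab_fi h0 with ⟨σ, _, h, _⟩ | ⟨_, _, h⟩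
  · rcases lab_fi h1 with ⟨_, _, _, h'⟩ | ⟨_, h', _⟩
    · cases h'
    · rw [h] at h'
      have : ei σ = 2 := congrArg Prod.snd h'
      cases σ <;> cases this
  · cases h

theorem inj_ex {Q : T.X.Pt} (a : T.X.Pt × Fin 3) : lab a 1 ≠ .ex Q := by
  intro h1
  rcases lab_ex h1 with ⟨_, _, _, h⟩ | ⟨_, _, h⟩ <;> cases h

theorem low_fi (hr : IsRad D₀ An r) (Q : T.X.Pt) : ∃ (a : T.X.Pt × Fin 3) (j : Fin 2), lab a j = .fi Q ∧
    kk a (1 - j) = 1 ∧ mm q a = loF T q Q ∧ axis j 0 ∈ UU r a := by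
  unfold loF
  by_cases hb : Bl T false Q
  · refine ⟨(Q, 2), 1, ?_, ?_, ?_, mem_axis_two hr hb.1 (axis_same 1 0)⟩
    · rw [lab_two hb.1]
      rfl
    · show kk (Q, 2) 0 = 1
      rw [kk_two, hb.2]
      rfl
    · rw [if_pos hb, mm_two', hb.2]
      show -(4 * (q : ℤ) * 1) = _
      ring
  · refine ⟨(Q, ei false), 0, ?_, ?_, ?_, mem_axis_ei hr Q false (axis_same 0 0)⟩
    · rw [lab_pc hb]
      rfl
    · show kk (Q, ei false) 1 = 1
      rw [kk_ei]
      rfl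
    · rw [if_neg hb, mm_ei']
      show -(5 * (q : ℤ) * 1) = _
      ring

theorem high_fi (hr : IsRad D₀ An r) (Q : T.X.Pt) : ∃ (a : T.X.Pt × Fin 3) (j : Fin 2), lab a j = .fi Q ∧
    kk a (1 - j) = -1 ∧ mm q a = hiF T q Q ∧ axis j 0 ∈ UU r a := by
  unfold hiF
  by_cases hb : Bl T true Q
  · refine ⟨(Q, 2), 1, ?_, ?_, ?_, mem_axis_two hr hb.1 (axis_same 1 0)⟩
    · rw [lab_two hb.1]
      rfl
    · show kk (Q, 2) 0 = -1
      rw [kk_two, hb.2]
      rfl
    · rw [if_pos hb, mm_two', hb.2]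
      show -(4 * (q : ℤ) * -1) = _
      ring
  · refine ⟨(Q, ei true), 0, ?_, ?_, ?_, mem_axis_ei hr Q true (axis_same 0 0)⟩
    · rw [lab_pc hb]
      rfl
    · show kk (Q, ei true) 1 = -1
      rw [kk_ei]
      rfl
    · rw [if_neg hb, mm_ei']
      show -(5 * (q : ℤ) * -1) = _
      ring

theorem low_ex (hr : IsRad D₀ An r) {Q : T.X.Pt} (hQ : Exc T Q) : ∃ (a : T.X.Pt × Fin 3) (j : Fin 2),
    lab a j = .ex Q ∧ kk a (1 - j) = 1 ∧ mm q a = loE T q Q ∧ axis j 0 ∈ UU r a := by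
  unfold loE
  by_cases hb : Bl T false Q
  · refine ⟨(Q, ei false), 0, ?_, ?_, ?_, mem_axis_ei hr Q false (axis_same 0 0)⟩
    · rw [lab_bl hb]
      rfl
    · show kk (Q, ei false) 1 = 1
      rw [kk_ei]
      rfl
    · rw [if_pos hb, mm_ei']
      show -(5 * (q : ℤ) * 1) = _
      ring
  · have hb' : sd T Q = true := by
      cases h : sd T Q
      · exact (hb ⟨hQ, h⟩).elim
      · rfl
    refine ⟨(Q, 2), 0, ?_, ?_, ?_, mem_axis_two hr hQ (axis_same 0 0)⟩
    · rw [lab_two hQ]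
      rfl
    · show kk (Q, 2) 1 = 1
      rw [kk_two, hb']
      rfl
    · rw [if_neg hb, mm_two', hb']
      show -(4 * (q : ℤ) * -1) = _
      ring

theorem high_ex (hr : IsRad D₀ An r) {Q : T.X.Pt} (hQ : Exc T Q) : ∃ (a : T.X.Pt × Fin 3) (j : Fin 2),
    lab a j = .ex Q ∧ kk a (1 - j) = -1 ∧ mm q a = hiE T q Q ∧ axis j 0 ∈ UU r a := by
  unfold hiE
  by_cases hb : Bl T false Q
  · refine ⟨(Q, 2), 0, ?_, ?_, ?_, mem_axis_two hr hQ (axis_same 0 0)⟩
    · rw [lab_two hQ]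
      rfl
    · show kk (Q, 2) 1 = -1
      rw [kk_two, hb.2]
      rfl
    · rw [if_pos hb, mm_two', hb.2]
      show -(4 * (q : ℤ) * 1) = _
      ring
  · have hb' : sd T Q = true := by
      cases h : sd T Q
      · exact (hb ⟨hQ, h⟩).elim
      · rfl
    refine ⟨(Q, ei true), 0, ?_, ?_, ?_, mem_axis_ei hr Q true (axis_same 0 0)⟩
    · rw [lab_bl ⟨hQ, hb'⟩]
      rfl
    · show kk (Q, ei true) 1 = -1
      rw [kk_ei]
      rfl
    · rw [if_neg hb, mm_ei']
      show -(5 * (q : ℤ) * -1) = _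
      ring

end Sig

end

end Pool.Agent.YTDA
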