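import Pool.Agent.YTDA.SigLab

/-!
The surface `Σ`: the labelling of the axes.
-/

namespace Pool.Agent.YTDA

open Complex Set Topology Metric Filter
open Pool.Agent.YTD

noncomputable section

namespace Sig

variable {K : Type} [Field K] [Algebra ℂ K] {T : Datum K}
variable {q : ℕ} {D₀ : T.X.Pt →₀ ℤ} {An : AnCurve T.X.toCurveOrd} {r : T.X.Pt → ℝ}

/-- the vertical labels: fibres over isolated points and exceptional curves -/
abbrev VL (An : AnCurve T.X.toCurveOrd) (r : T.X.Pt → ℝ) : Type :=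
  {Q : T.X.Pt // IsoPt An r Q} ⊕ {Q : T.X.Pt // Exc T Q}

variable (An r) in
open Classical in
/-- the label of a curve -/
def toLb : Lab T → Lb (VL An r)
  | .no => .none
  | .zer => .zero
  | .inf => .inf
  | .fi Q => if h : IsoPt An r Q then .vert (Sum.inl ⟨Q, h⟩) else .none
  | .ex Q => if h : Exc T Q then .vert (Sum.inr ⟨Q, h⟩) else .none

theorem toLb_fi {Q : T.X.Pt} (h : IsoPt An r Q) :
    toLb An r (.fi Q) = .vert (Sum.inl ⟨Q, h⟩) := dif_pos h

theorem toLb_fi' {Q : T.X.Pt} (h : ¬ IsoPt An r Q) : toLb An r (.fi Q) = .none := dif_neg h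

theorem toLb_ex {Q : T.X.Pt} (h : Exc T Q) :
    toLb An r (.ex Q) = .vert (Sum.inr ⟨Q, h⟩) := dif_pos h

theorem toLb_zero {l : Lab T} (h : toLb An r l = .zero) : l = .zer := by
  cases l with
  | no => cases h
  | zer => rfl
  | inf => cases h
  | fi Q =>
    by_cases hQ : IsoPt An r Q
    · rw [toLb_fi hQ] at h
      cases h
    · rw [toLb_fi' hQ] at h
      cases h
  | ex Q =>
    by_cases hQ : Exc T Q
    · rw [toLb_ex hQ] at h
      cases h
    · have : toLb An r (.ex Q) = .none := dif_neg hQ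
      rw [this] at h
      cases h

theorem toLb_inf {l : Lab T} (h : toLb An r l = .inf) : l = .inf := by
  cases l with
  | no => cases h
  | zer => cases h
  | inf => rfl
  | fi Q =>
    by_cases hQ : IsoPt An r Q
    · rw [toLb_fi hQ] at h
      cases h
    · rw [toLb_fi' hQ] at h
      cases h
  | ex Q =>
    by_cases hQ : Exc T Q
    · rw [toLb_ex hQ] at h
      cases h
    · have : toLb An r (.ex Q) = .none := dif_neg hQ
      rw [this] at h
      cases h

theorem toLb_inl {l : Lab T} {Q : {Q : T.X.Pt // IsoPt An r Q}}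
    (h : toLb An r l = .vert (Sum.inl Q)) : l = .fi Q.1 := by
  cases l with
  | no => cases h
  | zer => cases h
  | inf => cases h
  | fi Q' =>
    by_cases hQ : IsoPt An r Q'
    · rw [toLb_fi hQ] at h
      injection h with h1
      injection h1 with h2
      rw [← h2]
    · rw [toLb_fi' hQ] at h
      cases h
  | ex Q' =>
    by_cases hQ : Exc T Q'
    · rw [toLb_ex hQ] at h
      injection h with h1
      cases h1
    · have : toLb An r (.ex Q') = .none := dif_neg hQ
      rw [this] at h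
      cases h

theorem toLb_inr {l : Lab T} {Q : {Q : T.X.Pt // Exc T Q}}
    (h : toLb An r l = .vert (Sum.inr Q)) : l = .ex Q.1 := by
  cases l with
  | no => cases h
  | zer => cases h
  | inf => cases h
  | fi Q' =>
    by_cases hQ : IsoPt An r Q'
    · rw [toLb_fi hQ] at h
      injection h with h1
      cases h1
    · rw [toLb_fi' hQ] at h
      cases h
  | ex Q' =>
    by_cases hQ : Exc T Q'
    · rw [toLb_ex hQ] at h
      injection h with h1
      injection h1 with h2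
      rw [← h2]
    · have : toLb An r (.ex Q') = .none := dif_neg hQ
      rw [this] at h
      cases h

/-- base points of the vertical curves -/
def pV : VL An r → YY T
  | .inl Q => mkY T Q.1 (.main 1) 1
  | .inr Q => mkY T Q.1 (.exc 1) 1

/-- lower moments -/
def loV (q : ℕ) : VL An r → ℤ
  | .inl Q => loF T q Q.1
  | .inr Q => loE T q Q.1

/-- upper moments -/
def hiV (q : ℕ) : VL An r → ℤ
  | .inl Q => hiF T q Q.1
  | .inr Q => hiE T q Q.1

theorem orbit_fi {Q : T.X.Pt} {w : ℂˣ} {y : YY T} (hy : pt y = (Q, .main w)) :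
    ∃ c c' : ℂˣ, y = c • act q c' (mkY T Q (.main 1) 1) := by
  obtain ⟨c, hc⟩ := eq_smul_of_pt (y := act q w (mkY T Q (.main 1) 1)) (y' := y) (by
    rw [hy, act_mkY q w (P := Q) (φ := .main 1) trivial, pt_mkY (by trivial)]
    show _ = (Q, Fib.main (w * 1))
    rw [mul_one])
  exact ⟨c, w, hc⟩

theorem orbit_ex {Q : T.X.Pt} (hQ : Exc T Q) {e : ℂˣ} {y : YY T} (hy : pt y = (Q, .exc e)) :
    ∃ c c' : ℂˣ, y = c • act q c' (mkY T Q (.exc 1) 1) := by
  obtain ⟨c, hc⟩ := eq_smul_of_pt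
    (y := act q (uw (sd T Q) e) (mkY T Q (.exc 1) 1)) (y' := y) (by
    rw [hy, act_mkY q _ (P := Q) (φ := .exc 1) hQ, pt_mkY (by exact hQ)]
    show _ = (Q, Fib.exc (uw (sd T Q) (uw (sd T Q) e) * 1))
    rw [mul_one, uw_uw])
  exact ⟨c, _, hc⟩

theorem pt_orbit_fi {Q : T.X.Pt} (c c' : ℂˣ) :
    pt (c • act q c' (mkY T Q (.main 1) 1)) = (Q, .main c') := by
  rw [pt_smul, act_mkY q c' (P := Q) (φ := .main 1) trivial, pt_mkY (by trivial)]
  show (Q, Fib.main (c' * 1)) = _
  rw [mul_one]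

theorem pt_orbit_ex {Q : T.X.Pt} (hQ : Exc T Q) (c c' : ℂˣ) :
    pt (c • act q c' (mkY T Q (.exc 1) 1)) = (Q, .exc (uw (sd T Q) c')) := by
  rw [pt_smul, act_mkY q c' (P := Q) (φ := .exc 1) hQ, pt_mkY (by exact hQ)]
  show (Q, Fib.exc (uw (sd T Q) c' * 1)) = _
  rw [mul_one]

theorem vert_k' {a : T.X.Pt × Fin 3} {j : Fin 2} {v : VL An r}
    (h : toLb An r (lab a j) = .vert v) : kk a (1 - j) = 1 ∨ kk a (1 - j) = -1 := by
  rcases v with Q | Q
  · rcases lab_fi (toLb_inl h) with ⟨σ, _, rfl, rfl⟩ | ⟨_, rfl, rfl⟩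
    · exact kk_ei_one _ σ
    · exact kk_two_pm _ 0
  · rcases lab_ex (toLb_inr h) with ⟨σ, _, rfl, rfl⟩ | ⟨_, rfl, rfl⟩
    · exact kk_ei_one _ σ
    · exact kk_two_pm _ 1

theorem vert_ne' {a : T.X.Pt × Fin 3} {j : Fin 2} {v : VL An r}
    (h : toLb An r (lab a j) = .vert v) : toLb An r (lab a (1 - j)) ≠ .vert v := by
  intro h'
  rcases v with Q | Q
  · have h1 := toLb_inl h
    have h2 := toLb_inl h'
    fin_cases j
    · exact inj_fi a h1 h2
    · exact inj_fi a h2 h1
  · have h1 := toLb_inr h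
    have h2 := toLb_inr h'
    fin_cases j
    · exact inj_ex a h2
    · exact inj_ex a h1

variable (q) in
/-- the labelling of the axes of the charts of `Σ` -/
def labels (hr : IsRad D₀ An r) : Labels (preAtlas q hr).toAtlas (dAct q hr) where
  V := VL An r
  lab a j := toLb An r (lab a j)
  m0 := -5 * q
  mi := 5 * q
  zero_k a j h := by
    obtain ⟨h1, h2⟩ := lab_hor (q := q) a j false (toLb_zero h)
    refine ⟨h1, h2.trans ?_⟩
    show -(5 * (q : ℤ) * 1) = _
    ring
  inf_k a j h := by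
    obtain ⟨h1, h2⟩ := lab_hor (q := q) a j true (toLb_inf h)
    refine ⟨h1, h2.trans ?_⟩
    show -(5 * (q : ℤ) * -1) = _
    ring
  p := pV
  mm := loV q
  mp := hiV q
  vert_k _ _ _ h := vert_k' h
  vert_ne _ _ _ h := vert_ne' h
  vert_orb a j v h w hw _ := by
    rcases v with Q | Q
    · obtain ⟨w', h1⟩ := orb_fi (q := q) (D₀ := D₀) (An := An) (toLb_inl h) hw
      exact orbit_fi h1
    · obtain ⟨w', h1⟩ := orb_ex (q := q) (D₀ := D₀) (An := An) (toLb_inr h) hw
      exact orbit_ex Q.2 h1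
  vert_axis v a z hz c c' h := by
    rcases v with Q | Q
    · have h1 : pt (ch q D₀ An a z) = (Q.1, .main c') := by
        rw [← pt_orbit_fi (q := q) c c']
        exact congrArg pt h
      obtain ⟨j, h2, h3⟩ := axis_fi Q.2 a z hz h1
      refine ⟨j, ?_, h3⟩
      show toLb An r (lab a j) = _
      rw [h2, toLb_fi Q.2]
    · have h1 : pt (ch q D₀ An a z) = (Q.1, .exc (uw (sd T Q.1) c')) := by
        rw [← pt_orbit_ex (q := q) Q.2 c c']
        exact congrArg pt h
      obtain ⟨j, h2, h3⟩ := axis_ex a z hz h1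
      refine ⟨j, ?_, h3⟩
      show toLb An r (lab a j) = _
      rw [h2, toLb_ex Q.2]
  exists_minus v := by
    rcases v with Q | Q
    · obtain ⟨a, j, h1, h2, h3, h4⟩ := low_fi (q := q) hr Q.1
      refine ⟨a, j, ?_, h2, h3, h4⟩
      show toLb An r (lab a j) = _
      rw [h1, toLb_fi Q.2]
    · obtain ⟨a, j, h1, h2, h3, h4⟩ := low_ex (q := q) hr Q.2
      refine ⟨a, j, ?_, h2, h3, h4⟩
      show toLb An r (lab a j) = _
      rw [h1, toLb_ex Q.2]
  exists_plus v := by
    rcases v with Q | Q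
    · obtain ⟨a, j, h1, h2, h3, h4⟩ := high_fi (q := q) hr Q.1
      refine ⟨a, j, ?_, h2, h3, h4⟩
      show toLb An r (lab a j) = _
      rw [h1, toLb_fi Q.2]
    · obtain ⟨a, j, h1, h2, h3, h4⟩ := high_ex (q := q) hr Q.2
      refine ⟨a, j, ?_, h2, h3, h4⟩
      show toLb An r (lab a j) = _
      rw [h1, toLb_ex Q.2]

/-! ### Multiplicities -/

/-- multiplicities of `log |w|²` on the vertical curves -/
def mW : VL An r → ℝ
  | .inl _ => 0
  | .inr Q => sg (sd T Q.1)

/-- multiplicities of `-log |u|² + 5 q log |w|²` on the vertical curves -/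
def mU (q : ℕ) (D₀ : T.X.Pt →₀ ℤ) : VL An r → ℝ
  | .inl Q => -D₀ Q.1
  | .inr Q => 5 * q * sg (sd T Q.1) - 4 * q - D₀ Q.1

/-- multiplicities of `log |w|²` -/
theorem ew_mult (a : T.X.Pt × Fin 3) (j : Fin 2) {z : E 2} (hz : z ∈ UU r a) :
    ((ew a j : ℤ) : ℝ) = (toLb An r (lab a j)).mult 1 (-1) mW := by
  have hw : ∀ Q, (toLb An r (.fi Q)).mult 1 (-1) mW = 0 := by
    intro Q
    by_cases h : IsoPt An r Q
    · rw [toLb_fi h]
      rfl
    · rw [toLb_fi' h]
      rfl
  have hx : ∀ Q, Exc T Q → (toLb An r (.ex Q)).mult 1 (-1) mW = sg (sd T Q) := by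
    intro Q h
    rw [toLb_ex h]
    rfl
  have hh : ∀ σ, (toLb An r (hor T σ)).mult 1 (-1) mW = ((sg σ : ℤ) : ℝ) := by
    intro σ
    cases σ
    · show (1 : ℝ) = ((1 : ℤ) : ℝ)
      norm_num
    · show (-1 : ℝ) = ((-1 : ℤ) : ℝ)
      norm_num
  unfold ew
  revert a
  apply chart_types'
  · intro P σ hb _
    rw [side_ei, ev_pc hb, lab_pc hb]
    fin_cases j
    · show ((sg σ * 0 : ℤ) : ℝ) = (toLb An r (.fi P)).mult 1 (-1) mW
      rw [hw, mul_zero, Int.cast_zero]
    · show ((sg σ * 1 : ℤ) : ℝ) = (toLb An r (hor T σ)).mult 1 (-1) mW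
      rw [hh, mul_one]
  · intro P σ hb _
    rw [side_ei, ev_bl hb, lab_bl hb]
    fin_cases j
    · show ((sg σ * 1 : ℤ) : ℝ) = (toLb An r (.ex P)).mult 1 (-1) mW
      rw [hx P hb.1, mul_one, hb.2]
    · show ((sg σ * 1 : ℤ) : ℝ) = (toLb An r (hor T σ)).mult 1 (-1) mW
      rw [hh, mul_one]
  · intro P hP _
    rw [side_two, ev_two, lab_two hP]
    fin_cases j
    · show ((sg (sd T P) * 1 : ℤ) : ℝ) = (toLb An r (.ex P)).mult 1 (-1) mW
      rw [hx P hP, mul_one]
    · show ((sg (sd T P) * 0 : ℤ) : ℝ) = (toLb An r (.fi P)).mult 1 (-1) mW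
      rw [hw, mul_zero, Int.cast_zero]
  · intro P hP hz
    rw [UU_two] at hz
    exact (hP hz.1).elim

/-- multiplicities of `-log |u|² + 5 q log |w|²` -/
theorem u_mult (hr : IsRad D₀ An r) (a : T.X.Pt × Fin 3) (j : Fin 2) {z : E 2}
    (hz : z ∈ UU r a) :
    ((-(eg q a j + D₀ a.1 * es a j) + 5 * q * ew a j : ℤ) : ℝ) =
      (toLb An r (lab a j)).mult 0 (-10 * q) (mU q D₀) := by
  have hw : ∀ Q, (toLb An r (.fi Q)).mult 0 (-10 * q) (mU q D₀) = -D₀ Q := by
    intro Q
    by_cases h : IsoPt An r Q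
    · rw [toLb_fi h]
      rfl
    · rw [toLb_fi' h]
      have h0 : D₀ Q = 0 := by
        by_contra h1
        exact h (isoPt_D hr h1)
      rw [h0, Int.cast_zero, neg_zero]
      rfl
  have hx : ∀ Q, Exc T Q → (toLb An r (.ex Q)).mult 0 (-10 * q) (mU q D₀) =
      5 * q * sg (sd T Q) - 4 * q - D₀ Q := by
    intro Q h
    rw [toLb_ex h]
    rfl
  have hh : ∀ σ, (toLb An r (hor T σ)).mult 0 (-10 * q) (mU q D₀) =
      ((-(5 * q) + 5 * q * sg σ : ℤ) : ℝ) := by
    intro σ
    cases σ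
    · show (0 : ℝ) = ((-(5 * q) + 5 * q * 1 : ℤ) : ℝ)
      push_cast
      ring
    · show (-10 * q : ℝ) = ((-(5 * q) + 5 * q * (-1) : ℤ) : ℝ)
      push_cast
      ring
  unfold ew
  revert a
  apply chart_types'
  · intro P σ hb _
    rw [side_ei, ev_pc hb, lab_pc hb, eg_pc hb, es_ei]
    fin_cases j
    · show ((-(0 + D₀ P * 1) + 5 * q * (sg σ * 0) : ℤ) : ℝ) =
        (toLb An r (.fi P)).mult 0 (-10 * q) (mU q D₀)
      rw [hw]
      push_cast
      ring
    · show ((-(5 * q + D₀ P * 0) + 5 * q * (sg σ * 1) : ℤ) : ℝ) =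
        (toLb An r (hor T σ)).mult 0 (-10 * q) (mU q D₀)
      rw [hh]
      push_cast
      ring
  · intro P σ hb _
    rw [side_ei, ev_bl hb, lab_bl hb, eg_bl hb, es_ei]
    fin_cases j
    · show ((-(4 * q + D₀ P * 1) + 5 * q * (sg σ * 1) : ℤ) : ℝ) =
        (toLb An r (.ex P)).mult 0 (-10 * q) (mU q D₀)
      rw [hx P hb.1, hb.2]
      push_cast
      ring
    · show ((-(5 * q + D₀ P * 0) + 5 * q * (sg σ * 1) : ℤ) : ℝ) =
        (toLb An r (hor T σ)).mult 0 (-10 * q) (mU q D₀)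
      rw [hh]
      push_cast
      ring
  · intro P hP _
    rw [side_two, ev_two, lab_two hP, eg_two, es_two]
    fin_cases j
    · show ((-(4 * q + D₀ P * 1) + 5 * q * (sg (sd T P) * 1) : ℤ) : ℝ) =
        (toLb An r (.ex P)).mult 0 (-10 * q) (mU q D₀)
      rw [hx P hP]
      push_cast
      ring
    · show ((-(0 + D₀ P * 1) + 5 * q * (sg (sd T P) * 0) : ℤ) : ℝ) =
        (toLb An r (.fi P)).mult 0 (-10 * q) (mU q D₀)
      rw [hw]
      push_cast
      ring
  · intro P hP hz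
    rw [UU_two] at hz
    exact (hP hz.1).elim

end Sig

end

end Pool.Agent.YTDA
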