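import Pool.Agent.YTDA.SigE

/-!
The surface `Σ`: construction of `SigModel`.
-/

namespace Pool.Agent.YTDA

open Complex Set Topology Metric Filter
open Pool.Agent.YTD

noncomputable section

namespace Sig

variable {K : Type} [Field K] [Algebra ℂ K] {T : Datum K}
variable {q : ℕ} {D₀ : T.X.Pt →₀ ℤ} {An : AnCurve T.X.toCurveOrd} {r : T.X.Pt → ℝ}

theorem pc_oo (P : T.X.Pt) (σ : Bool) (s : ℂ) (v : ℂˣ) :
    pc q D₀ An P σ ![s, (v : ℂ)] = v ^ (5 * (q : ℤ)) • oo D₀ An P s (uw σ v) := by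
  unfold pc oo
  rw [smul_mkY]
  show mkY T (An.c P s) (pfib σ (v : ℂ)) (un (v : ℂ) ^ (5 * (q : ℤ)) * upow s (D₀ P)) = _
  rw [pfib_ne v.ne_zero, un_coe]

theorem bl_oo (P : T.X.Pt) (σ : Bool) (s v : ℂˣ) :
    bl q D₀ An P σ ![(s : ℂ), (v : ℂ)] =
      ((s * v) ^ (5 * (q : ℤ)) * s ^ (-(q : ℤ))) • oo D₀ An P s (uw σ (s * v)) := by
  unfold bl
  rw [if_neg (show (![(s : ℂ), (v : ℂ)] : E 2) 0 ≠ 0 from s.ne_zero)]
  show un (s : ℂ) ^ (-(q : ℤ)) • pc q D₀ An P σ ![(s : ℂ), (s : ℂ) * v] = _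
  rw [← Units.val_mul, pc_oo, smul_smul, un_coe, mul_comm]

theorem mid_oo (P : T.X.Pt) (v f : ℂˣ) :
    mid q D₀ An P ![(v : ℂ), (f : ℂ)] =
      v ^ (4 * (q : ℤ)) • oo D₀ An P (v * f) (uw (sd T P) v) := by
  unfold mid
  rw [if_neg (show (![(v : ℂ), (f : ℂ)] : E 2) 0 ≠ 0 from v.ne_zero)]
  show un (v : ℂ) ^ (9 * (q : ℤ)) • pc q D₀ An P (!sd T P) ![(v : ℂ) * f, (v : ℂ)⁻¹] = _
  rw [← Units.val_inv_eq_inv_val, pc_oo, smul_smul, un_coe, uw_not, uw_inv, inv_inv, inv_zpow',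
    ← zpow_add]
  congr 2
  ring

theorem sd_true {P : T.X.Pt} (h : P ∈ T.S) : sd T P = true := by
  unfold sd
  simp [h]

theorem sd_false {P : T.X.Pt} (h : P ∉ T.S) : sd T P = false := by
  unfold sd
  simp [h]

theorem not_S_of_S' {P : T.X.Pt} (h : P ∈ T.S') : P ∉ T.S :=
  fun h' => Finset.disjoint_left.1 T.disj h' h

/-! ### Automorphisms -/

theorem exc_symm {σ : T.X.Pt → T.X.Pt} (hS : ∀ P, P ∈ T.S ↔ σ P ∈ T.S)
    (hS' : ∀ P, P ∈ T.S' ↔ σ P ∈ T.S') (P : T.X.Pt) : Exc T P ↔ Exc T (σ P) :=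
  or_congr (hS P) (hS' P)

theorem sd_symm {σ : T.X.Pt → T.X.Pt} (hS : ∀ P, P ∈ T.S ↔ σ P ∈ T.S) (P : T.X.Pt) :
    sd T (σ P) = sd T P := by
  by_cases h : P ∈ T.S
  · rw [sd_true h, sd_true ((hS P).1 h)]
  · rw [sd_false h, sd_false fun h' => h ((hS P).2 h')]

/-- the map of the line bundle induced by an automorphism of the curve -/
def symF (σ : T.X.Pt → T.X.Pt) (y : YY T) : YY T := mkY T (σ y.base) y.fib y.u

theorem val_symm {σ : T.X.Pt → T.X.Pt} (hS : ∀ P, P ∈ T.S ↔ σ P ∈ T.S)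
    (hS' : ∀ P, P ∈ T.S' ↔ σ P ∈ T.S') {P : T.X.Pt} {φ : Fib} (h : Val T P φ) :
    Val T (σ P) φ := by
  cases φ with
  | main w => trivial
  | fin τ => trivial
  | exc e => exact (exc_symm hS hS' P).1 h
  | node => exact (exc_symm hS hS' P).1 h

theorem symF_mkY {σ : T.X.Pt → T.X.Pt} {P : T.X.Pt} {φ : Fib} (h : Val T P φ) (u : ℂˣ) :
    symF σ (mkY T P φ u) = mkY T (σ P) φ u := by
  rw [mkY_of h]
  rfl

theorem symF_smul (σ : T.X.Pt → T.X.Pt) (c : ℂˣ) (y : YY T) :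
    symF σ (c • y) = c • symF σ y := by
  unfold symF
  rw [smul_mkY]
  rfl

theorem symF_act {σ : T.X.Pt → T.X.Pt} (hS : ∀ P, P ∈ T.S ↔ σ P ∈ T.S)
    (hS' : ∀ P, P ∈ T.S' ↔ σ P ∈ T.S') (c : ℂˣ) (y : YY T) :
    symF σ (act q c y) = act q c (symF σ y) := by
  obtain ⟨P, φ, u, h⟩ := y
  show mkY T (σ P) (actF P c φ) (actU q P c φ * u) = act q c (mkY T (σ P) φ u)
  rw [act_mkY q c (val_symm hS hS' h)]
  cases φ with
  | main w => rfl
  | fin τ => rfl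
  | exc e =>
    show mkY T (σ P) (.exc (uw (sd T P) c * e)) (uw (sd T P) c ^ _ * u) =
      mkY T (σ P) (.exc (uw (sd T (σ P)) c * e)) (uw (sd T (σ P)) c ^ _ * u)
    rw [sd_symm hS]
  | node =>
    show mkY T (σ P) .node (uw (sd T P) c ^ _ * u) = mkY T (σ P) .node (uw (sd T (σ P)) c ^ _ * u)
    rw [sd_symm hS]

theorem bl_symm {σ : T.X.Pt → T.X.Pt} (hS : ∀ P, P ∈ T.S ↔ σ P ∈ T.S)
    (hS' : ∀ P, P ∈ T.S' ↔ σ P ∈ T.S') (τ : Bool) (P : T.X.Pt) :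
    Bl T τ (σ P) ↔ Bl T τ P := by
  unfold Bl
  rw [sd_symm hS, ← exc_symm hS hS']

section sym

variable {θ : K ≃ₐ[ℂ] K} {σ : T.X.Pt → T.X.Pt}

theorem symF_pc (hE : An.Equiv θ σ) (hD : ∀ P, D₀ (σ P) = D₀ P) (P : T.X.Pt) (τ : Bool)
    {z : E 2} (hz : z 0 ∈ ball (0 : ℂ) (An.r P)) :
    symF σ (pc q D₀ An P τ z) = pc q D₀ An (σ P) τ z := by
  unfold pc
  rw [symF_mkY (val_pfib _ _ _), hE.c P _ hz, hD]

theorem symF_bl (hE : An.Equiv θ σ) (hD : ∀ P, D₀ (σ P) = D₀ P) {P : T.X.Pt} (hP : Exc T P)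
    (τ : Bool) {z : E 2} (hz : z 0 ∈ ball (0 : ℂ) (An.r P)) :
    symF σ (bl q D₀ An P τ z) = bl q D₀ An (σ P) τ z := by
  unfold bl
  by_cases h0 : z 0 = 0
  · rw [if_pos h0, if_pos h0]
    by_cases h1 : z 1 = 0
    · rw [if_pos h1, symF_mkY (φ := .fin τ) trivial]
    · rw [if_neg h1, symF_mkY (by exact hP)]
  · rw [if_neg h0, if_neg h0, symF_smul, symF_pc hE hD P τ (by exact hz)]

theorem symF_mid (hE : An.Equiv θ σ) (hD : ∀ P, D₀ (σ P) = D₀ P)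
    (hS : ∀ P, P ∈ T.S ↔ σ P ∈ T.S) {P : T.X.Pt} (hP : Exc T P)
    {z : E 2} (hz : z 0 * z 1 ∈ ball (0 : ℂ) (An.r P)) :
    symF σ (mid q D₀ An P z) = mid q D₀ An (σ P) z := by
  unfold mid
  by_cases h0 : z 0 = 0
  · rw [if_pos h0, if_pos h0]
    by_cases h1 : z 1 = 0
    · rw [if_pos h1, symF_mkY (by exact hP)]
    · rw [if_neg h1, symF_mkY (by exact hP)]
  · rw [if_neg h0, if_neg h0, symF_smul, symF_pc hE hD P _ (by exact hz), sd_symm hS]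

theorem symF_ch (hr : IsRad D₀ An r) (hE : An.Equiv θ σ) (hD : ∀ P, D₀ (σ P) = D₀ P)
    (hS : ∀ P, P ∈ T.S ↔ σ P ∈ T.S) (hS' : ∀ P, P ∈ T.S' ↔ σ P ∈ T.S') (P : T.X.Pt) (i : Fin 3)
    {z : E 2} (hz : z ∈ UU r (P, i)) :
    symF σ (ch q D₀ An (P, i) z) = ch q D₀ An (σ P, i) z := by
  have key : ∀ τ, z ∈ UU r (P, ei τ) →
      symF σ (ch q D₀ An (P, ei τ) z) = ch q D₀ An (σ P, ei τ) z := by
    intro τ hz
    rw [UU_ei] at hz
    have hz' : z 0 ∈ ball (0 : ℂ) (An.r P) := hr.mem (mem_b.2 hz)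
    rw [ch_ei, ch_ei]
    by_cases hb : Bl T τ P
    · rw [endc_bl hb, endc_bl ((bl_symm hS hS' τ P).2 hb)]
      exact symF_bl hE hD hb.1 τ hz'
    · rw [endc_pc hb, endc_pc fun h => hb ((bl_symm hS hS' τ P).1 h)]
      exact symF_pc hE hD P τ hz'
  fin_cases i
  · exact key false hz
  · exact key true hz
  · exact symF_mid hE hD hS hz.1 (hr.mem (mem_b.2 hz.2))

end sym

/-! ### Automorphisms exchanging `S` and `S'` -/

/-- the exchange of the two ends of the fibre -/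
def swF : Fib → Fib
  | .main w => .main w⁻¹
  | .fin τ => .fin (!τ)
  | .exc e => .exc e
  | .node => .node

/-- the map of the line bundle induced by an automorphism of the curve -/
def swapF (σ : T.X.Pt → T.X.Pt) (y : YY T) : YY T := mkY T (σ y.base) (swF y.fib) y.u

section swap

variable {θ : K ≃ₐ[ℂ] K} {σ : T.X.Pt → T.X.Pt}

theorem S'_of_inv (hσ : ∀ P, σ (σ P) = P) (hS : ∀ P, P ∈ T.S ↔ σ P ∈ T.S') (P : T.X.Pt) :
    P ∈ T.S' ↔ σ P ∈ T.S := by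
  rw [hS (σ P), hσ]

theorem exc_swap (hσ : ∀ P, σ (σ P) = P) (hS : ∀ P, P ∈ T.S ↔ σ P ∈ T.S') (P : T.X.Pt) :
    Exc T P ↔ Exc T (σ P) := by
  unfold Exc
  rw [hS P, S'_of_inv hσ hS P, or_comm]

theorem sd_swap (hσ : ∀ P, σ (σ P) = P) (hS : ∀ P, P ∈ T.S ↔ σ P ∈ T.S') {P : T.X.Pt}
    (hP : Exc T P) : sd T (σ P) = !sd T P := by
  rcases hP with h | h
  · rw [sd_true h, sd_false (not_S_of_S' ((hS P).1 h))]
    rfl
  · rw [sd_true ((S'_of_inv hσ hS P).1 h), sd_false (not_S_of_S' h)]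
    rfl

theorem bl_swap (hσ : ∀ P, σ (σ P) = P) (hS : ∀ P, P ∈ T.S ↔ σ P ∈ T.S') (τ : Bool)
    (P : T.X.Pt) : Bl T (!τ) (σ P) ↔ Bl T τ P := by
  unfold Bl
  rw [← exc_swap hσ hS]
  constructor
  · rintro ⟨h1, h2⟩
    rw [sd_swap hσ hS h1] at h2
    exact ⟨h1, Bool.not_inj h2⟩
  · rintro ⟨h1, h2⟩
    rw [sd_swap hσ hS h1, h2]
    exact ⟨h1, rfl⟩

theorem val_swap (hσ : ∀ P, σ (σ P) = P) (hS : ∀ P, P ∈ T.S ↔ σ P ∈ T.S') {P : T.X.Pt}
    {φ : Fib} (h : Val T P φ) : Val T (σ P) (swF φ) := by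
  cases φ with
  | main w => trivial
  | fin τ => trivial
  | exc e => exact (exc_swap hσ hS P).1 h
  | node => exact (exc_swap hσ hS P).1 h

theorem swapF_mkY {P : T.X.Pt} {φ : Fib} (h : Val T P φ) (u : ℂˣ) :
    swapF σ (mkY T P φ u) = mkY T (σ P) (swF φ) u := by
  rw [mkY_of h]
  rfl

theorem swapF_smul (c : ℂˣ) (y : YY T) : swapF σ (c • y) = c • swapF σ y := by
  unfold swapF
  rw [smul_mkY]
  rfl

theorem uw_not_inv (τ : Bool) (c : ℂˣ) : uw (!τ) c⁻¹ = uw τ c := by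
  rw [uw_not, uw_inv, inv_inv]

theorem swapF_act (hσ : ∀ P, σ (σ P) = P) (hS : ∀ P, P ∈ T.S ↔ σ P ∈ T.S') (c : ℂˣ)
    (y : YY T) : swapF σ (act q c y) = act q c⁻¹ (swapF σ y) := by
  obtain ⟨P, φ, u, h⟩ := y
  show mkY T (σ P) (swF (actF P c φ)) (actU q P c φ * u) = act q c⁻¹ (mkY T (σ P) (swF φ) u)
  rw [act_mkY q _ (val_swap hσ hS h)]
  cases φ with
  | main w =>
    show mkY T (σ P) (.main (c * w)⁻¹) (1 * u) = mkY T (σ P) (.main (c⁻¹ * w⁻¹)) (1 * u)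
    rw [mul_inv]
  | fin τ =>
    show mkY T (σ P) (.fin (!τ)) (uw τ c ^ _ * u) =
      mkY T (σ P) (.fin (!τ)) (uw (!τ) c⁻¹ ^ _ * u)
    rw [uw_not_inv]
  | exc e =>
    show mkY T (σ P) (.exc (uw (sd T P) c * e)) (uw (sd T P) c ^ _ * u) =
      mkY T (σ P) (.exc (uw (sd T (σ P)) c⁻¹ * e)) (uw (sd T (σ P)) c⁻¹ ^ _ * u)
    rw [sd_swap hσ hS h, uw_not_inv]
  | node =>
    show mkY T (σ P) .node (uw (sd T P) c ^ _ * u) =
      mkY T (σ P) .node (uw (sd T (σ P)) c⁻¹ ^ _ * u)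
    rw [sd_swap hσ hS h, uw_not_inv]

theorem swF_pfib (τ : Bool) (v : ℂ) : swF (pfib τ v) = pfib (!τ) v := by
  by_cases h : v = 0
  · rw [h, pfib_zero, pfib_zero]
    rfl
  · rw [pfib_ne h, pfib_ne h]
    show Fib.main (uw τ (un v))⁻¹ = Fib.main (uw (!τ) (un v))
    rw [uw_not]

theorem swapF_pc (hE : An.Equiv θ σ) (hD : ∀ P, D₀ (σ P) = D₀ P) (P : T.X.Pt) (τ : Bool)
    {z : E 2} (hz : z 0 ∈ ball (0 : ℂ) (An.r P)) :
    swapF σ (pc q D₀ An P τ z) = pc q D₀ An (σ P) (!τ) z := by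
  unfold pc
  rw [swapF_mkY (val_pfib _ _ _), hE.c P _ hz, hD, swF_pfib]

theorem swapF_bl (hE : An.Equiv θ σ) (hD : ∀ P, D₀ (σ P) = D₀ P) {P : T.X.Pt} (hP : Exc T P)
    (τ : Bool) {z : E 2} (hz : z 0 ∈ ball (0 : ℂ) (An.r P)) :
    swapF σ (bl q D₀ An P τ z) = bl q D₀ An (σ P) (!τ) z := by
  unfold bl
  by_cases h0 : z 0 = 0
  · rw [if_pos h0, if_pos h0]
    by_cases h1 : z 1 = 0
    · rw [if_pos h1, if_pos h1, swapF_mkY (φ := .fin τ) trivial]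
      rfl
    · rw [if_neg h1, if_neg h1, swapF_mkY (by exact hP)]
      rfl
  · rw [if_neg h0, if_neg h0, swapF_smul, swapF_pc hE hD P τ (by exact hz)]

theorem swapF_mid (hE : An.Equiv θ σ) (hσ : ∀ P, σ (σ P) = P) (hD : ∀ P, D₀ (σ P) = D₀ P)
    (hS : ∀ P, P ∈ T.S ↔ σ P ∈ T.S') {P : T.X.Pt} (hP : Exc T P)
    {z : E 2} (hz : z 0 * z 1 ∈ ball (0 : ℂ) (An.r P)) :
    swapF σ (mid q D₀ An P z) = mid q D₀ An (σ P) z := by
  unfold mid
  by_cases h0 : z 0 = 0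
  · rw [if_pos h0, if_pos h0]
    by_cases h1 : z 1 = 0
    · rw [if_pos h1, swapF_mkY (by exact hP)]
      rfl
    · rw [if_neg h1, swapF_mkY (by exact hP)]
      rfl
  · rw [if_neg h0, if_neg h0, swapF_smul, swapF_pc hE hD P _ (by exact hz), sd_swap hσ hS hP]

theorem swapF_ei (hr : IsRad D₀ An r) (hE : An.Equiv θ σ) (hσ : ∀ P, σ (σ P) = P)
    (hD : ∀ P, D₀ (σ P) = D₀ P) (hS : ∀ P, P ∈ T.S ↔ σ P ∈ T.S') (P : T.X.Pt) (τ : Bool)
    {z : E 2} (hz : z ∈ UU r (P, ei τ)) :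
    swapF σ (ch q D₀ An (P, ei τ) z) = ch q D₀ An (σ P, ei (!τ)) z := by
  rw [UU_ei] at hz
  have hz' : z 0 ∈ ball (0 : ℂ) (An.r P) := hr.mem (mem_b.2 hz)
  rw [ch_ei, ch_ei]
  by_cases hb : Bl T τ P
  · rw [endc_bl hb, endc_bl ((bl_swap hσ hS τ P).2 hb)]
    exact swapF_bl hE hD hb.1 τ hz'
  · rw [endc_pc hb, endc_pc fun h => hb ((bl_swap hσ hS τ P).1 h)]
    exact swapF_pc hE hD P τ hz'

end swap

end Sig

open Sig

variable {K : Type} [Field K] [Algebra ℂ K]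

/-- **The surface `Σ` with its line bundle**, for any admissible radii. -/
def sigModelOf (T : Datum K) (q : ℕ) (D₀ : T.X.Pt →₀ ℤ) (An : AnCurve T.X.toCurveOrd)
    {r : T.X.Pt → ℝ} (hr : IsRad D₀ An r) : SigModel T q D₀ An where
  Y := YY T
  A := (preAtlas q hr).toAtlas
  D := dAct q hr
  cpt := cpt hr
  t2 := t2 hr
  e := Equiv.refl _
  r := r
  r_pos := hr.pos
  r_le := hr.le
  iso := hr.iso
  U_bot P := rfl
  U_top P := rfl
  U_mid P hP := by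
    show UU r (P, 2) = _
    rw [UU_two]
    ext z
    exact and_iff_right hP
  U_mid' P hP hP' := by
    show UU r (P, 2) = _
    rw [UU_two]
    ext z
    simp only [mem_ofPred_eq, mem_empty_iff_false, iff_false, not_and]
    rintro (h | h)
    · exact (hP h).elim
    · exact (hP' h).elim
  k_bot P := ⟨rfl, rfl⟩
  k_top P := ⟨rfl, rfl⟩
  k_mid P hP := by
    have h := sd_true hP
    constructor
    · show (if sd T P then ![-1, 1] else ![1, -1] : Fin 2 → ℤ) = _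
      rw [h, if_pos rfl]
    · show (if sd T P then 4 * (q : ℤ) else -4 * (q : ℤ)) = _
      rw [h, if_pos rfl]
  k_mid' P hP := by
    have h := sd_false (not_S_of_S' hP)
    constructor
    · show (if sd T P then ![-1, 1] else ![1, -1] : Fin 2 → ℤ) = _
      rw [h, if_neg Bool.false_ne_true]
    · show (if sd T P then 4 * (q : ℤ) else -4 * (q : ℤ)) = _
      rw [h, if_neg Bool.false_ne_true]
  o := oo D₀ An
  γ_bot P hP s _ _ w := by
    show endc q D₀ An P false ![s, (w : ℂ)] = _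
    rw [endc_pc fun h => hP (bl_false.1 h), pc_oo]
    rfl
  γ_bot' P hP s _ b := by
    show endc q D₀ An P false ![(s : ℂ), (b : ℂ)] = _
    rw [endc_bl (bl_false.2 hP), bl_oo]
    rfl
  γ_top P hP s _ _ z := by
    show endc q D₀ An P true ![s, (z : ℂ)] = _
    rw [endc_pc fun h => hP (bl_true.1 h), pc_oo]
    rfl
  γ_top' P hP s _ a := by
    show endc q D₀ An P true ![(s : ℂ), (a : ℂ)] = _
    rw [endc_bl (bl_true.2 hP), bl_oo]
    rfl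
  γ_mid P hP z f _ := by
    show mid q D₀ An P ![(z : ℂ), (f : ℂ)] = _
    rw [mid_oo, sd_true hP]
    rfl
  γ_mid' P hP w f _ := by
    show mid q D₀ An P ![(w : ℂ), (f : ℂ)] = _
    rw [mid_oo, sd_false (not_S_of_S' hP)]
    rfl
  act_o P s _ _ c w := act_oo c w P s
  o_tr P Q s _ s' _ _ _ hc w := by
    unfold oo
    rw [smul_mkY, hc, div_mul_cancel]
  o_inj P Q s _ s' _ _ _ w w' c h := by
    unfold oo at h
    rw [smul_mkY, mkY_of (φ := .main w) trivial, mkY_of (φ := .main w') trivial] at h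
    have h1 : An.c P s = An.c Q s' := congrArg YY.base h
    have h2 : Fib.main w = Fib.main w' := congrArg YY.fib h
    exact ⟨h1, by injection h2⟩
  sym θ σ hE _ _ hD hS hS' :=
    ⟨symF σ, symF_smul σ, symF_act hS hS', fun P i _ hz => symF_ch hr hE hD hS hS' P i hz⟩
  swap θ σ hE hσ _ hD hS :=
    ⟨swapF σ, swapF_smul, swapF_act hσ hS,
      fun P _ hz => swapF_ei hr hE hσ hD hS P false hz,
      fun P _ hz => swapF_ei hr hE hσ hD hS P true hz,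
      fun P _ hz => swapF_mid hE hσ hD hS hz.1 (hr.mem (mem_b.2 hz.2))⟩

/-- **The surface `Σ` with its line bundle**, for the canonical radii. -/
def sigModel (T : Datum K) (q : ℕ) (D₀ : T.X.Pt →₀ ℤ) (An : AnCurve T.X.toCurveOrd) :
    SigModel T q D₀ An :=
  sigModelOf T q D₀ An (isRad_rad D₀ An)

theorem sigModel_r (T : Datum K) (q : ℕ) (D₀ : T.X.Pt →₀ ℤ) (An : AnCurve T.X.toCurveOrd) :
    (sigModel T q D₀ An).r = rad D₀ An := rfl

/-- invariance of the canonical radii under automorphisms preserving or exchanging `S`, `S'` -/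
theorem sigModel_r_symm (T : Datum K) (q : ℕ) (D₀ : T.X.Pt →₀ ℤ) (An : AnCurve T.X.toCurveOrd)
    {θ : K ≃ₐ[ℂ] K} {σ : T.X.Pt → T.X.Pt} (hE : An.Equiv θ σ) (hD : ∀ P, D₀ (σ P) = D₀ P)
    (hS : ∀ P, Exc T P ↔ Exc T (σ P)) (P : T.X.Pt) :
    (sigModel T q D₀ An).r (σ P) = (sigModel T q D₀ An).r P := by
  rw [sigModel_r]
  refine rad_symm hE (fun P => ?_) P
  unfold Bad
  rw [hD]
  have := hS P
  unfold Exc at this
  tauto

end

end Pool.Agent.YTDA
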