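import Pool.Agent.YTDA.SigSep

/-!
# The sections of `L ^ N` on `Σ` separate points
-/

namespace Pool.Agent.YTDA

open Complex Set Topology ContDiff Filter Metric
open Pool.Agent.YTD

noncomputable section

namespace SigModel

variable {K : Type} [Field K] [Algebra ℂ K] {T : Datum K} {q : ℕ} {D₀ : T.X.Pt →₀ ℤ}
  {An : AnCurve T.X.toCurveOrd} (M : SigModel T q D₀ An)

variable {N : ℕ} {j : ℤ} {f : K}

/-- `y` lies over `Q` and in the side chart -/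
def Side (ε : ℤˣ) (Q : T.X.Pt) (y : M.Y) : Prop :=
  ∃ (b : ℂ) (c : ℂˣ), y = c • M.A.γ (M.ch ε Q) ![0, b]

/-- `y` lies over `Q` and in the middle chart -/
def Mid (Q : T.X.Pt) (y : M.Y) : Prop :=
  ∃ (z : E 2) (c : ℂˣ), z 0 * z 1 = 0 ∧ y = c • M.A.γ (M.md Q) z

theorem notMem_SE {P : T.X.Pt} {s : ℂ} (hs : s ∈ ball 0 (M.r P)) (h0 : s ≠ 0) (ε : ℤˣ) :
    An.c P s ∉ SE T ε := by
  obtain ⟨h1, h2, -⟩ := M.iso P s hs h0
  rcases Int.units_eq_one_or ε with rfl | rfl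
  · rwa [SE_one]
  · rwa [SE_neg_one]

theorem mem_ball0 (Q : T.X.Pt) : (0 : ℂ) ∈ ball (0 : ℂ) (M.r Q) := mem_ball_self (M.r_pos Q)

theorem γ_side {ε : ℤˣ} {Q : T.X.Pt} (h : Q ∉ SE T ε) (h' : Q ∉ SE T (-ε)) (w : ℂˣ) :
    M.A.γ (M.ch ε Q) ![0, ((w ^ (ε : ℤ) : ℂˣ) : ℂ)] =
      (w ^ (ε : ℤ)) ^ (5 * (q : ℤ)) • M.o Q 0 w := by
  have h1 := M.γ_ch h (M.mem_ball0 Q) (Or.inr h') (w ^ (ε : ℤ))
  have h2 : (w ^ (ε : ℤ)) ^ (ε : ℤ) = w := by
    rw [← zpow_mul, εε, zpow_one]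
  rw [h2] at h1
  exact h1

theorem o_side (ε : ℤˣ) {P : T.X.Pt} {s : ℂ} (hs : s ∈ ball 0 (M.r P)) (h0 : s ≠ 0) (w : ℂˣ) :
    ∃ c : ℂˣ, M.o P s w = c • M.A.γ (M.ch ε (An.c P s)) ![0, ((w ^ (ε : ℤ) : ℂˣ) : ℂ)] := by
  have h1 := M.notMem_SE hs h0 ε
  have h2 := M.notMem_SE hs h0 (-ε)
  rw [M.γ_side h1 h2 w]
  have hOk : Ok T P s := Or.inl h0
  have hOk' : Ok T (An.c P s) 0 := (Ok_iff ε).2 (Or.inr ⟨h1, h2⟩)
  rw [M.o_tr P (An.c P s) s hs 0 (M.mem_ball0 _) hOk hOk' (An.c_zero _).symm w, smul_smul]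
  refine ⟨((w ^ (ε : ℤ)) ^ (5 * (q : ℤ)) * (upow 0 (D₀ (An.c P s)) / upow s (D₀ P)))⁻¹, ?_⟩
  rw [inv_smul_smul]

open Classical in
/-- recentering a point of a side chart -/
theorem ch_side (ε : ℤˣ) {P : T.X.Pt} {s : ℂ} (hs : s ∈ ball 0 (M.r P)) (h0 : s ≠ 0) (b : ℂˣ) :
    ∃ c : ℂˣ, M.A.γ (M.ch ε P) ![s, b] =
      c • M.A.γ (M.ch ε (An.c P s)) ![0, (if P ∈ SE T ε then s else 1) * b] := by
  by_cases hP : P ∈ SE T ε
  · have h1 := M.γ_ch' hP (Units.mk0 s h0) (mem_ball_zero_iff.1 hs) b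
    obtain ⟨c, hc⟩ := M.o_side ε hs h0 ((Units.mk0 s h0 * b) ^ (ε : ℤ))
    rw [← zpow_mul, εε, zpow_one] at hc
    rw [Units.val_mk0] at h1
    rw [h1, hc, smul_smul, if_pos hP]
    exact ⟨_, rfl⟩
  · have h1 := M.γ_ch hP hs (Or.inl h0) b
    obtain ⟨c, hc⟩ := M.o_side ε hs h0 (b ^ (ε : ℤ))
    rw [← zpow_mul, εε, zpow_one] at hc
    rw [h1, hc, smul_smul, if_neg hP, one_mul]
    exact ⟨_, rfl⟩

theorem tendsto_pair {l : Filter ℂ} {u v : ℂ → ℂ} {a b : ℂ} (hu : Tendsto u l (𝓝 a))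
    (hv : Tendsto v l (𝓝 b)) : Tendsto (fun x => (![u x, v x] : E 2)) l (𝓝 ![a, b]) := by
  rw [tendsto_pi_nhds]
  intro i
  fin_cases i
  · exact hu
  · exact hv

theorem mem_U_ch {ε : ℤˣ} {Q : T.X.Pt} {s b : ℂ} (hs : s ∈ ball 0 (M.r Q)) :
    (![s, b] : E 2) ∈ M.A.U (M.ch ε Q) := by
  rw [M.U_ch]
  exact mem_ball_zero_iff.1 hs

/-- the point of the section `b = 0` -/
theorem ch_side_zero (ε : ℤˣ) {P : T.X.Pt} {s : ℂ} (hs : s ∈ ball 0 (M.r P)) (h0 : s ≠ 0) :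
    ∃ c : ℂˣ, M.A.γ (M.ch ε P) ![s, 0] = c • M.A.γ (M.ch ε (An.c P s)) ![0, 0] := by
  classical
  set t : ℂ := if P ∈ SE T ε then s else 1 with ht
  have hid : Tendsto (fun b : ℂ => b) (𝓝[≠] (0 : ℂ)) (𝓝 0) := tendsto_id.mono_left nhdsWithin_le_nhds
  have hmul : Tendsto (fun b : ℂ => t * b) (𝓝[≠] (0 : ℂ)) (𝓝 0) := by
    have := hid.const_mul t
    rwa [mul_zero] at this
  refine PolAtlas.eq_of_tendsto M.t2 (a := M.ch ε (An.c P s)) (b := M.ch ε P)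
    (M.mem_U_ch (M.mem_ball0 _)) (M.mem_U_ch hs) (l := 𝓝[≠] (0 : ℂ))
    (u := fun b => ![0, t * b]) (u' := fun b => ![s, b])
    (tendsto_pair tendsto_const_nhds hmul) (tendsto_pair tendsto_const_nhds hid) ?_
  filter_upwards [self_mem_nhdsWithin] with b hb
  exact M.ch_side ε hs h0 (Units.mk0 b hb)

/-- Every point is in a chart centred at its projection. -/
theorem recenter (y : M.Y) : ∃ Q, (∃ ε, M.Side ε Q y) ∨ ((∃ ε, Q ∈ SE T ε) ∧ M.Mid Q y) := by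
  classical
  obtain ⟨a, z, hz, c, rfl⟩ := M.A.cover y
  rcases M.chart_cases a hz with ⟨ε, P, rfl⟩ | ⟨ε, P, hP, rfl⟩
  · have hzz : z = ![z 0, z 1] := by ext i; fin_cases i <;> rfl
    rw [M.U_ch] at hz
    have hs : z 0 ∈ ball 0 (M.r P) := mem_ball_zero_iff.2 hz
    by_cases h0 : z 0 = 0
    · exact ⟨P, Or.inl ⟨ε, z 1, c, by rw [← h0, ← hzz]⟩⟩
    · by_cases h1 : z 1 = 0
      · obtain ⟨d, hd⟩ := M.ch_side_zero ε hs h0
        refine ⟨An.c P (z 0), Or.inl ⟨ε, 0, c * d, ?_⟩⟩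
        rw [hzz, h1]
        show c • M.A.γ (M.ch ε P) ![z 0, 0] = _
        rw [hd, smul_smul]
        rfl
      · obtain ⟨d, hd⟩ := M.ch_side ε hs h0 (Units.mk0 _ h1)
        rw [Units.val_mk0] at hd
        refine ⟨An.c P (z 0), Or.inl ⟨ε, (if P ∈ SE T ε then z 0 else 1) * z 1, c * d, ?_⟩⟩
        rw [← smul_smul, ← hd, ← hzz]
  · by_cases h0 : z 0 * z 1 = 0
    · exact ⟨P, Or.inr ⟨⟨ε, hP⟩, z, c, h0, rfl⟩⟩
    · have hzz : z = ![z 0, z 1] := by ext i; fin_cases i <;> rfl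
      rw [M.U_md hP] at hz
      have hs : z 0 * z 1 ∈ ball 0 (M.r P) := mem_ball_zero_iff.2 hz
      have h00 : z 0 ≠ 0 := left_ne_zero_of_mul h0
      have h11 : z 1 ≠ 0 := right_ne_zero_of_mul h0
      have h1 := M.γ_md hP (Units.mk0 _ h00) (Units.mk0 _ h11) (by
        rw [Units.val_mk0, Units.val_mk0]; exact hz)
      rw [Units.val_mk0, Units.val_mk0] at h1
      obtain ⟨d, hd⟩ := M.o_side 1 hs h0 (Units.mk0 _ h00 ^ (ε : ℤ))
      refine ⟨An.c P (z 0 * z 1), Or.inl ⟨1,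
        (((Units.mk0 _ h00 ^ (ε : ℤ)) ^ ((1 : ℤˣ) : ℤ) : ℂˣ) : ℂ),
        c * ((Units.mk0 _ h00) ^ (4 * (q : ℤ)) * d), ?_⟩⟩
      rw [← smul_smul, ← smul_smul, ← hd, ← h1, ← hzz]

/-- from the middle chart to the side chart `ε` -/
theorem md_side {ε : ℤˣ} {Q : T.X.Pt} (hQ : Q ∈ SE T ε) {t : ℂ} (ht : t ≠ 0) :
    M.Side ε Q (M.A.γ (M.md Q) ![0, t]) := by
  have hid : Tendsto (fun b : ℂ => b) (𝓝[≠] (0 : ℂ)) (𝓝 0) := tendsto_id.mono_left nhdsWithin_le_nhds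
  have hmul : Tendsto (fun b : ℂ => b * t) (𝓝[≠] (0 : ℂ)) (𝓝 0) := by
    have := hid.mul_const t
    rwa [zero_mul] at this
  obtain ⟨c, hc⟩ := PolAtlas.eq_of_tendsto M.t2 (a := M.ch ε Q) (b := M.md Q) (z := ![0, t⁻¹])
    (z' := ![0, t]) (M.mem_U_ch (M.mem_ball0 _)) (by
      rw [M.U_md hQ]
      show ‖(0 : ℂ) * t‖ < M.r Q
      rw [zero_mul, norm_zero]
      exact M.r_pos Q) (l := 𝓝[≠] (0 : ℂ))
    (u := fun b => ![b * t, t⁻¹]) (u' := fun b => ![b, t])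
    (tendsto_pair hmul tendsto_const_nhds) (tendsto_pair hid tendsto_const_nhds) (by
      have hball : ∀ᶠ b in 𝓝[≠] (0 : ℂ), b * t ∈ ball (0 : ℂ) (M.r Q) :=
        hmul.eventually_mem (isOpen_ball.mem_nhds (M.mem_ball0 Q))
      filter_upwards [self_mem_nhdsWithin, hball] with b hb hb'
      have hb0 : b ≠ 0 := hb
      have h1 := M.γ_md hQ (Units.mk0 b hb0) (Units.mk0 t ht) (by
        rw [Units.val_mk0, Units.val_mk0]; exact mem_ball_zero_iff.1 hb')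
      have h2 := M.γ_ch' hQ (Units.mk0 (b * t) (mul_ne_zero hb0 ht))
        (by rw [Units.val_mk0]; exact mem_ball_zero_iff.1 hb') (Units.mk0 t ht)⁻¹
      have h3 : Units.mk0 (b * t) (mul_ne_zero hb0 ht) * (Units.mk0 t ht)⁻¹ = Units.mk0 b hb0 := by
        apply Units.ext
        rw [Units.val_mul, Units.val_inv_eq_inv_val]
        simp only [Units.val_mk0]
        field_simp
      rw [h3] at h2
      simp only [Units.val_mk0, Units.val_inv_eq_inv_val] at h1 h2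
      rw [h1, h2]
      refine ⟨(Units.mk0 b hb0) ^ (4 * (q : ℤ)) * ((Units.mk0 b hb0) ^ (5 * (q : ℤ)) *
        (Units.mk0 (b * t) (mul_ne_zero hb0 ht)) ^ (-(q : ℤ)))⁻¹, ?_⟩
      rw [smul_smul, inv_mul_cancel_right])
  exact ⟨t⁻¹, c, hc⟩

/-- from the middle chart to the side chart `-ε` -/
theorem md_side' {ε : ℤˣ} {Q : T.X.Pt} (hQ : Q ∈ SE T ε) {t : ℂ} (ht : t ≠ 0) :
    M.Side (-ε) Q (M.A.γ (M.md Q) ![t, 0]) := by
  have hid : Tendsto (fun b : ℂ => b) (𝓝[≠] (0 : ℂ)) (𝓝 0) := tendsto_id.mono_left nhdsWithin_le_nhds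
  have hmul : Tendsto (fun b : ℂ => t * b) (𝓝[≠] (0 : ℂ)) (𝓝 0) := by
    have := hid.const_mul t
    rwa [mul_zero] at this
  obtain ⟨c, hc⟩ := PolAtlas.eq_of_tendsto M.t2 (a := M.ch (-ε) Q) (b := M.md Q) (z := ![0, t⁻¹])
    (z' := ![t, 0]) (M.mem_U_ch (M.mem_ball0 _)) (by
      rw [M.U_md hQ]
      show ‖t * (0 : ℂ)‖ < M.r Q
      rw [mul_zero, norm_zero]
      exact M.r_pos Q) (l := 𝓝[≠] (0 : ℂ))
    (u := fun b => ![t * b, t⁻¹]) (u' := fun b => ![t, b])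
    (tendsto_pair hmul tendsto_const_nhds) (tendsto_pair tendsto_const_nhds hid) (by
      have hball : ∀ᶠ b in 𝓝[≠] (0 : ℂ), t * b ∈ ball (0 : ℂ) (M.r Q) :=
        hmul.eventually_mem (isOpen_ball.mem_nhds (M.mem_ball0 Q))
      filter_upwards [self_mem_nhdsWithin, hball] with b hb hb'
      have hb0 : b ≠ 0 := hb
      have h1 := M.γ_md hQ (Units.mk0 t ht) (Units.mk0 b hb0) (by
        rw [Units.val_mk0, Units.val_mk0]; exact mem_ball_zero_iff.1 hb')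
      have h2 := M.γ_ch (ε := -ε) (SE_disj hQ) hb' (Or.inl (mul_ne_zero ht hb0)) (Units.mk0 t ht)⁻¹
      have h3 : ((Units.mk0 t ht)⁻¹) ^ (((-ε : ℤˣ) : ℤ)) = (Units.mk0 t ht) ^ (ε : ℤ) := by
        rw [Units.val_neg, zpow_neg, inv_zpow, inv_inv]
      rw [h3] at h2
      simp only [Units.val_mk0, Units.val_inv_eq_inv_val] at h1 h2
      rw [h1, h2]
      refine ⟨(Units.mk0 t ht) ^ (4 * (q : ℤ)) * (((Units.mk0 t ht)⁻¹) ^ (5 * (q : ℤ)))⁻¹, ?_⟩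
      rw [smul_smul, inv_mul_cancel_right])
  exact ⟨t⁻¹, c, hc⟩

/-! ### Values -/

theorem val_side (hj : |j| ≤ 5 * q * N) (hf : f ∈ T.V q D₀ N j) (ε : ℤˣ) (Q : T.X.Pt) (b : ℂ)
    (c : ℂˣ) : M.secF N j f (c • M.A.γ (M.ch ε Q) ![0, b]) =
      (c : ℂ) ^ N * (b ^ (5 * q * N + (ε : ℤ) * j).toNat * An.rg Q f (M.eC N j ε Q) 0) := by
  rw [(M.secF_isSec hj hf).hom, M.secF_ch hj hf ε Q (z := ![0, b]) (by
    show ‖(0 : ℂ)‖ < M.r Q
    rw [norm_zero]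
    exact M.r_pos Q), locC]
  rfl

theorem val_mid (hj : |j| ≤ 5 * q * N) (hf : f ∈ T.V q D₀ N j) {ε : ℤˣ} {Q : T.X.Pt}
    (hQ : Q ∈ SE T ε) {z : E 2} (hz : z 0 * z 1 = 0) (c : ℂˣ) :
    M.secF N j f (c • M.A.γ (M.md Q) z) =
      (c : ℂ) ^ N * (z 0 ^ (kap q N ε j).toNat * z 1 ^ (-kap q N ε j).toNat *
        An.rg Q f (T.dvs q D₀ N j Q) 0) := by
  rw [(M.secF_isSec hj hf).hom, M.secF_md hj hf hQ (by
    rw [hz, norm_zero]
    exact M.r_pos Q), locM, hz, M.eM_eq hQ]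

/-- all sections have proportional values at the two points -/
def Rel (N : ℕ) (t : ℂ) (y y' : M.Y) : Prop := ∀ j, ∀ F ∈ M.WS N j, F y' = t * F y

section Pts

variable (hq : 0 < q) (hD : T.X.deg D₀ = 105 * T.t * q) (hN : 5 ≤ N)

include hq hD hN

include M in
/-- the value at the centre is non-zero for a suitable section -/
theorem exists_ρ (hj : |j| ≤ 5 * q * N) (Q : T.X.Pt) : ∃ f ∈ T.V q D₀ N j, f ≠ 0 ∧
    T.X.ord Q f + T.dvs q D₀ N j Q = 0 ∧ An.rg Q f (T.dvs q D₀ N j Q) 0 ≠ 0 := by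
  obtain ⟨f, hf, hf0, ho⟩ := exists_E1 hq hD hN hj Q
  refine ⟨f, hf, hf0, ho, M.rg_ne_of_ord hf (M.mem_ball0 Q) hf0 rfl ?_⟩
  rw [An.c_zero, ho]

theorem pts_side {t : ℂ} {ε : ℤˣ} {Q : T.X.Pt} {y y' : M.Y} (h : M.Rel N t y y')
    (hy : M.Side ε Q y) (hy' : M.Side ε Q y') : ∃ c : ℂˣ, y' = c • y := by
  have hqN := qN_pos hq hN
  obtain ⟨b, c, rfl⟩ := hy
  obtain ⟨b', c', rfl⟩ := hy'
  have hj0 : |wt q N ε (-((q : ℤ) * N))| ≤ 5 * q * N := wt_le le_rfl (by linarith)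
  have hj1 : |wt q N ε (-((q : ℤ) * N) + 1)| ≤ 5 * q * N := wt_le (by linarith) (by linarith)
  obtain ⟨f, hf, hf0, -, hρ⟩ := M.exists_ρ hq hD hN hj0 Q
  obtain ⟨f', hf', hf0', -, hρ'⟩ := M.exists_ρ hq hD hN hj1 Q
  have h0 := h _ _ ⟨hj0, f, hf, rfl⟩
  have h1 := h _ _ ⟨hj1, f', hf', rfl⟩
  rw [M.val_side hj0 hf, M.val_side hj0 hf, exp_wt,
    M.eC_tight ε Q (by rw [kap_wt]; linarith),
    show ((q : ℤ) * N + -((q : ℤ) * N)).toNat = 0 by simp, pow_zero, pow_zero, one_mul] at h0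
  rw [M.val_side hj1 hf', M.val_side hj1 hf', exp_wt,
    M.eC_tight ε Q (by rw [kap_wt]; linarith),
    show ((q : ℤ) * N + (-((q : ℤ) * N) + 1)).toNat = 1 by
      rw [show (q : ℤ) * N + (-((q : ℤ) * N) + 1) = 1 by ring]; rfl, pow_one, pow_one] at h1
  have h2 : (c' : ℂ) ^ N = t * (c : ℂ) ^ N := by
    apply mul_right_cancel₀ hρ
    linear_combination h0
  have hbb : b' = b := by
    have h3 : (c' : ℂ) ^ N * An.rg Q f' (T.dvs q D₀ N (wt q N ε (-((q : ℤ) * N) + 1)) Q) 0 ≠ 0 :=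
      mul_ne_zero (pow_ne_zero _ c'.ne_zero) hρ'
    apply mul_right_cancel₀ h3
    linear_combination h1 - b * An.rg Q f' (T.dvs q D₀ N (wt q N ε (-((q : ℤ) * N) + 1)) Q) 0 * h2
  refine ⟨c' * c⁻¹, ?_⟩
  rw [hbb, smul_smul, inv_mul_cancel_right]

theorem pts_mid {t : ℂ} {ε : ℤˣ} {Q : T.X.Pt} (hQ : Q ∈ SE T ε) {y y' : M.Y}
    (h : M.Rel N t y y') (hy : M.Mid Q y) (hy' : M.Mid Q y') : ∃ c : ℂˣ, y' = c • y := by
  have hqN := qN_pos hq hN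
  obtain ⟨z, c, hz, rfl⟩ := hy
  obtain ⟨z', c', hz', rfl⟩ := hy'
  have hj0 : |wt q N ε 0| ≤ 5 * q * N := wt_le (by linarith) (by positivity)
  have hj1 : |wt q N ε 1| ≤ 5 * q * N := wt_le (by linarith) (by linarith)
  have hj2 : |wt q N ε (-1)| ≤ 5 * q * N := wt_le (by linarith) (by linarith)
  obtain ⟨f, hf, -, -, hρ⟩ := M.exists_ρ hq hD hN hj0 Q
  obtain ⟨f', hf', -, -, hρ'⟩ := M.exists_ρ hq hD hN hj1 Q
  obtain ⟨f'', hf'', -, -, hρ''⟩ := M.exists_ρ hq hD hN hj2 Q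
  have h0 := h _ _ ⟨hj0, f, hf, rfl⟩
  have h1 := h _ _ ⟨hj1, f', hf', rfl⟩
  have h2 := h _ _ ⟨hj2, f'', hf'', rfl⟩
  rw [M.val_mid hj0 hf hQ hz, M.val_mid hj0 hf hQ hz', kap_wt] at h0
  rw [M.val_mid hj1 hf' hQ hz, M.val_mid hj1 hf' hQ hz', kap_wt] at h1
  rw [M.val_mid hj2 hf'' hQ hz, M.val_mid hj2 hf'' hQ hz', kap_wt] at h2
  rw [show ((0 : ℤ)).toNat = 0 from rfl, show (-(0 : ℤ)).toNat = 0 from rfl] at h0
  rw [show ((1 : ℤ)).toNat = 1 from rfl, show (-(1 : ℤ)).toNat = 0 from rfl] at h1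
  rw [show ((-1 : ℤ)).toNat = 0 from rfl, show (-(-1 : ℤ)).toNat = 1 from rfl] at h2
  simp only [pow_zero, pow_one, one_mul, mul_one] at h0 h1 h2
  have h3 : (c' : ℂ) ^ N = t * (c : ℂ) ^ N := by
    apply mul_right_cancel₀ hρ
    linear_combination h0
  have e0 : z' 0 = z 0 := by
    have h4 := mul_ne_zero (pow_ne_zero N c'.ne_zero) hρ'
    apply mul_right_cancel₀ h4
    linear_combination h1 - z 0 * An.rg Q f' (T.dvs q D₀ N (wt q N ε 1) Q) 0 * h3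
  have e1 : z' 1 = z 1 := by
    have h4 := mul_ne_zero (pow_ne_zero N c'.ne_zero) hρ''
    apply mul_right_cancel₀ h4
    linear_combination h2 - z 1 * An.rg Q f'' (T.dvs q D₀ N (wt q N ε (-1)) Q) 0 * h3
  have e : z' = z := by
    ext i
    fin_cases i
    · exact e0
    · exact e1
  refine ⟨c' * c⁻¹, ?_⟩
  rw [e, smul_smul, inv_mul_cancel_right]

/-- the section with `k = -qN` does not vanish in the side chart -/
theorem pivot_side {t : ℂ} (ht : t ≠ 0) {ε : ℤˣ} {Q : T.X.Pt} {y y' : M.Y}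
    (h : M.Rel N t y y') (hy : M.Side ε Q y) : ∃ f ∈ T.V q D₀ N (wt q N ε (-((q : ℤ) * N))),
      M.secF N (wt q N ε (-((q : ℤ) * N))) f y' ≠ 0 := by
  have hqN := qN_pos hq hN
  obtain ⟨b, c, rfl⟩ := hy
  have hj0 : |wt q N ε (-((q : ℤ) * N))| ≤ 5 * q * N := wt_le le_rfl (by linarith)
  obtain ⟨f, hf, -, -, hρ⟩ := M.exists_ρ hq hD hN hj0 Q
  refine ⟨f, hf, ?_⟩
  rw [h _ _ ⟨hj0, f, hf, rfl⟩, M.val_side hj0 hf, exp_wt,
    M.eC_tight ε Q (by rw [kap_wt]; linarith),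
    show ((q : ℤ) * N + -((q : ℤ) * N)).toNat = 0 by simp, pow_zero, one_mul]
  exact mul_ne_zero ht (mul_ne_zero (pow_ne_zero _ c.ne_zero) hρ)

theorem promote_side {t : ℂ} (ht : t ≠ 0) {ε : ℤˣ} {Q : T.X.Pt} {y y' : M.Y}
    (h : M.Rel N t y y') (hy : M.Side ε Q y) (hy' : M.Side (-ε) Q y') : M.Side ε Q y' := by
  have hqN := qN_pos hq hN
  obtain ⟨f, hf, hne⟩ := M.pivot_side hq hD hN ht h hy
  obtain ⟨b', c', rfl⟩ := hy'
  set j := wt q N ε (-((q : ℤ) * N)) with hjdef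
  have hj0 : |j| ≤ 5 * q * N := wt_le le_rfl (by linarith)
  have hk : kap q N ε j = -((q : ℤ) * N) := kap_wt _ _
  have hk' : kap q N (-ε) j = 9 * q * N := by
    have := kap_add (q := q) (N := N) (j := j) ε
    linarith
  rw [M.val_side hj0 hf] at hne
  have hrg : An.rg Q f (M.eC N j (-ε) Q) 0 ≠ 0 := right_ne_zero_of_mul (right_ne_zero_of_mul hne)
  -- the exponent is minimal
  have htight : ¬ T.dvs q D₀ N j Q < M.eC N j (-ε) Q := fun hlt => hrg (M.rg_zero_of_lt hf hlt)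
  have hQ1 : Q ∉ SE T (-ε) := by
    intro hQ
    apply htight
    unfold eC
    rw [dvs_SE hQ, hk']
    simp only [hQ, if_true]
    rw [max_eq_left (by linarith)]
    linarith
  have hQ2 : Q ∉ SE T ε := by
    intro hQ
    apply htight
    unfold eC
    rw [dvs_SE hQ, hk]
    simp only [hQ1, if_false]
    rw [max_eq_right (by linarith)]
    linarith
  -- the coordinate is non-zero
  have hexp : (5 * (q : ℤ) * N + ((-ε : ℤˣ) : ℤ) * j).toNat ≠ 0 := by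
    have h1 : 5 * (q : ℤ) * N + ((-ε : ℤˣ) : ℤ) * j = 10 * q * N := by
      have h2 : kap q N (-ε) j = 4 * q * N + ((-ε : ℤˣ) : ℤ) * j := rfl
      linarith
    rw [h1]
    intro h2
    rw [Int.toNat_eq_zero] at h2
    linarith
  have hb' : b' ≠ 0 := by
    rintro rfl
    rw [zero_pow hexp, zero_mul, mul_zero] at hne
    exact hne rfl
  set w : ℂˣ := (Units.mk0 b' hb') ^ ((-ε : ℤˣ) : ℤ) with hw
  have hw1 : ((w ^ ((-ε : ℤˣ) : ℤ) : ℂˣ) : ℂ) = b' := by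
    rw [hw, ← zpow_mul, εε, zpow_one, Units.val_mk0]
  have h1 := M.γ_side hQ1 (by rwa [neg_neg]) w
  rw [hw1] at h1
  have h2 := M.γ_side hQ2 hQ1 w
  have h3 : M.o Q 0 w = ((w ^ (ε : ℤ)) ^ (5 * (q : ℤ)))⁻¹ •
      M.A.γ (M.ch ε Q) ![0, ((w ^ (ε : ℤ) : ℂˣ) : ℂ)] := by
    rw [h2, inv_smul_smul]
  rw [h1, h3, smul_smul, smul_smul]
  exact ⟨_, _, rfl⟩

theorem promote_mid {t : ℂ} (ht : t ≠ 0) {ε η : ℤˣ} {Q : T.X.Pt} (hQ : Q ∈ SE T ε) {y y' : M.Y}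
    (h : M.Rel N t y y') (hy : M.Side η Q y) (hy' : M.Mid Q y') : M.Side η Q y' := by
  have hqN := qN_pos hq hN
  obtain ⟨f, hf, hne⟩ := M.pivot_side hq hD hN ht h hy
  obtain ⟨z, c', hz, rfl⟩ := hy'
  have hzz : z = ![z 0, z 1] := by ext i; fin_cases i <;> rfl
  set j := wt q N η (-((q : ℤ) * N)) with hjdef
  have hj0 : |j| ≤ 5 * q * N := wt_le le_rfl (by linarith)
  rw [M.val_mid hj0 hf hQ hz] at hne
  have hηε : η = ε ∨ η = -ε := by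
    rcases Int.units_eq_one_or η with rfl | rfl <;> rcases Int.units_eq_one_or ε with rfl | rfl <;>
      simp
  rcases hηε with rfl | rfl
  · have hk : kap q N η j = -((q : ℤ) * N) := kap_wt _ _
    have h1 : z 1 ≠ 0 := by
      intro h0
      rw [h0, hk, neg_neg, zero_pow (by
        intro h2
        rw [Int.toNat_eq_zero] at h2
        linarith), mul_zero, zero_mul, mul_zero] at hne
      exact hne rfl
    have h0 : z 0 = 0 := by
      rcases mul_eq_zero.1 hz with h | h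
      · exact h
      · exact absurd h h1
    obtain ⟨b, c, hb⟩ := M.md_side hQ h1
    refine ⟨b, c' * c, ?_⟩
    rw [hzz, h0, ← smul_smul, ← hb]
  · have hk : kap q N ε j = 9 * q * N := by
      have h1 := kap_add (q := q) (N := N) (j := j) ε
      have h2 : kap q N (-ε) j = -((q : ℤ) * N) := kap_wt _ _
      linarith
    have h0 : z 0 ≠ 0 := by
      intro h0
      rw [h0, hk, zero_pow (by
        intro h2
        rw [Int.toNat_eq_zero] at h2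
        linarith), zero_mul, zero_mul, mul_zero] at hne
      exact hne rfl
    have h1 : z 1 = 0 := by
      rcases mul_eq_zero.1 hz with h | h
      · exact absurd h h0
      · exact h
    obtain ⟨b, c, hb⟩ := M.md_side' hQ h0
    refine ⟨b, c' * c, ?_⟩
    rw [hzz, h1, ← smul_smul, ← hb]

omit hq hD hN in
/-- a section that vanishes at the points over `Q'` -/
theorem vanish {Q' : T.X.Pt} (hj : |j| ≤ 5 * q * N) (hf : f ∈ T.V q D₀ N j) (hf0 : f ≠ 0)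
    (h : 1 ≤ T.X.ord Q' f + T.dvs q D₀ N j Q') {y : M.Y}
    (hy : (∃ ε, M.Side ε Q' y) ∨ ((∃ ε, Q' ∈ SE T ε) ∧ M.Mid Q' y)) : M.secF N j f y = 0 := by
  have h0 : An.rg Q' f (T.dvs q D₀ N j Q') 0 = 0 :=
    M.rg_eq_of_ord hf (M.mem_ball0 Q') hf0 rfl (by rw [An.c_zero]; exact h)
  rcases hy with ⟨ε, b, c, rfl⟩ | ⟨⟨ε, hQ⟩, z, c, hz, rfl⟩
  · rw [M.val_side hj hf]
    rcases (M.le_eC (N := N) (j := j) ε Q').lt_or_eq with hlt | heq
    · rw [M.rg_zero_of_lt hf hlt, mul_zero, mul_zero]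
    · rw [← heq, h0, mul_zero, mul_zero]
  · rw [M.val_mid hj hf hQ hz, h0, mul_zero, mul_zero]

omit hD in
/-- for every point there is a weight whose sections do not all vanish -/
theorem nonvanish {Q : T.X.Pt} {y : M.Y}
    (hy : (∃ ε, M.Side ε Q y) ∨ ((∃ ε, Q ∈ SE T ε) ∧ M.Mid Q y)) :
    ∃ j : ℤ, |j| ≤ 5 * q * N ∧ ∀ f ∈ T.V q D₀ N j, f ≠ 0 → T.X.ord Q f + T.dvs q D₀ N j Q = 0 →
      M.secF N j f y ≠ 0 := by
  have hqN := qN_pos hq hN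
  rcases hy with ⟨ε, b, c, rfl⟩ | ⟨⟨ε, hQ⟩, z, c, hz, rfl⟩
  · have hj0 : |wt q N ε (-((q : ℤ) * N))| ≤ 5 * q * N := wt_le le_rfl (by linarith)
    refine ⟨_, hj0, fun f hf hf0 ho => ?_⟩
    rw [M.val_side hj0 hf, exp_wt, M.eC_tight ε Q (by rw [kap_wt]; linarith),
      show ((q : ℤ) * N + -((q : ℤ) * N)).toNat = 0 by simp, pow_zero, one_mul]
    exact mul_ne_zero (pow_ne_zero _ c.ne_zero)
      (M.rg_ne_of_ord hf (M.mem_ball0 Q) hf0 rfl (by rw [An.c_zero, ho]))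
  · have hj0 : |wt q N ε 0| ≤ 5 * q * N := wt_le (by linarith) (by positivity)
    refine ⟨_, hj0, fun f hf hf0 ho => ?_⟩
    rw [M.val_mid hj0 hf hQ hz, kap_wt]
    simp only [Int.toNat_zero, neg_zero, pow_zero, one_mul]
    exact mul_ne_zero (pow_ne_zero _ c.ne_zero)
      (M.rg_ne_of_ord hf (M.mem_ball0 Q) hf0 rfl (by rw [An.c_zero, ho]))

theorem pts_WS (y y' : M.Y) (t : ℂ) (h : M.Rel N t y y') : ∃ c : ℂˣ, y' = c • y := by
  -- `t ≠ 0`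
  have ht : t ≠ 0 := by
    rintro rfl
    obtain ⟨j, F, hF, hF0⟩ := M.base_WS hq hD hN y'
    apply hF0
    rw [h j F hF, zero_mul]
  have h' : M.Rel N t⁻¹ y' y := by
    intro j F hF
    rw [h j F hF, inv_mul_cancel_left₀ ht]
  obtain ⟨Q, hy⟩ := M.recenter y
  obtain ⟨Q', hy'⟩ := M.recenter y'
  -- the projections agree
  have hQQ : Q = Q' := by
    by_contra hne
    obtain ⟨j, hj, hnv⟩ := M.nonvanish hq hN hy
    obtain ⟨f, hf, hf0, h1, h2⟩ := exists_E3 hq hD hN hj hne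
    have h3 := hnv f hf hf0 h1
    have h4 := M.vanish hj hf hf0 h2 hy'
    rw [h j _ ⟨hj, f, hf, rfl⟩] at h4
    exact mul_ne_zero ht h3 h4
  subst hQQ
  have inv : (∃ c : ℂˣ, y = c • y') → ∃ c : ℂˣ, y' = c • y := by
    rintro ⟨c, hc⟩
    exact ⟨c⁻¹, by rw [hc, inv_smul_smul]⟩
  rcases hy with ⟨ε, hy⟩ | ⟨⟨ε, hQ⟩, hy⟩
  · rcases hy' with ⟨ε', hy'⟩ | ⟨⟨ε', hQ'⟩, hy'⟩
    · have hεε : ε' = ε ∨ ε' = -ε := by
        rcases Int.units_eq_one_or ε with rfl | rfl <;>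
          rcases Int.units_eq_one_or ε' with rfl | rfl <;> simp
      rcases hεε with rfl | rfl
      · exact M.pts_side hq hD hN h hy hy'
      · exact M.pts_side hq hD hN h hy (M.promote_side hq hD hN ht h hy hy')
    · exact M.pts_side hq hD hN h hy (M.promote_mid hq hD hN ht hQ' h hy hy')
  · rcases hy' with ⟨ε', hy'⟩ | ⟨⟨ε', hQ'⟩, hy'⟩
    · exact inv (M.pts_side hq hD hN h' hy' (M.promote_mid hq hD hN (inv_ne_zero ht) hQ h' hy' hy))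
    · exact M.pts_mid hq hD hN hQ h hy hy'

/-- The sections of `L ^ N` on `Σ` separate points and tangent vectors. -/
theorem wsep : WSep M.A (M.WS N) where
  base := M.base_WS hq hD hN
  pts := M.pts_WS hq hD hN
  tan := by
    intro a z hz v t h
    rcases M.chart_cases a hz with ⟨ε, P, rfl⟩ | ⟨ε, P, hP, rfl⟩
    · rw [M.U_ch] at hz
      exact M.tan_ch hq hD hN ε P hz v t h
    · rw [M.U_md hP] at hz
      exact M.tan_md hq hD hN hP hz v t h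

end Pts

end SigModel

end

end Pool.Agent.YTDA
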