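import Pool.Agent.YTDA.SecFn
import Pool.Agent.YTDA.P1Sec
import Pool.Agent.YTD.Graded
import Pool.Agent.YTD.CurveRR
import Pool.Agent.YTD.UnstFilt

/-!
# The sections of `L ^ N` on `Σ` separate points and tangent vectors
-/

namespace Pool.Agent.YTDA

open Complex Set Topology ContDiff Filter Metric
open Pool.Agent.YTD

noncomputable section

section RR

variable {K : Type} [Field K] [Algebra ℂ K] {T : Datum K} {q : ℕ} {D₀ : T.X.Pt →₀ ℤ}

/-- `N` is large enough. -/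
theorem deg_large (hq : 0 < q) (hD : T.X.deg D₀ = 105 * T.t * q) {N : ℕ} (hN : 5 ≤ N) {j : ℤ}
    (hj : |j| ≤ 5 * q * N) : 2 * (T.X.genus : ℤ) + 1 ≤ T.X.deg (T.dvs q D₀ N j) := by
  rw [deg_dvs_crit T q D₀ hD, T.genus_eq]
  refine le_trans ?_ (le_dg hj)
  have h1 : (1 : ℤ) ≤ T.t := by exact_mod_cast T.t_pos
  have h2 : (1 : ℤ) ≤ q := by exact_mod_cast hq
  have h3 : (5 : ℤ) ≤ N := by exact_mod_cast hN
  push_cast
  have h4 : (5 : ℤ) ≤ q * N := by nlinarith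
  nlinarith

variable (hq : 0 < q) (hD : T.X.deg D₀ = 105 * T.t * q) {N : ℕ} (hN : 5 ≤ N) {j : ℤ}
  (hj : |j| ≤ 5 * q * N)

include hq hD hN hj

theorem exists_E1 (Q : T.X.Pt) : ∃ f ∈ T.V q D₀ N j, f ≠ 0 ∧
    T.X.ord Q f + T.dvs q D₀ N j Q = 0 := by
  obtain ⟨P₀⟩ := T.exists_pt
  have h := deg_large hq hD hN hj
  obtain ⟨f, hf, hf0, h1⟩ := T.X.exists_ord_eq P₀ (D := T.dvs q D₀ N j) (by linarith) Q
  exact ⟨f, hf, hf0, by rw [h1]; ring⟩

theorem exists_E2 (Q : T.X.Pt) : ∃ f ∈ T.V q D₀ N j, f ≠ 0 ∧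
    T.X.ord Q f + T.dvs q D₀ N j Q = 1 := by
  classical
  obtain ⟨P₀⟩ := T.exists_pt
  have h := deg_large hq hD hN hj
  obtain ⟨f, hf, hf0, h1⟩ := T.X.exists_ord_eq P₀ (D := T.dvs q D₀ N j - Finsupp.single Q 1)
    (by rw [T.X.deg_sub, T.X.deg_single]; linarith) Q
  refine ⟨f, T.X.L_mono (fun R => ?_) hf, hf0, ?_⟩
  · rw [Finsupp.sub_apply, Finsupp.single_apply]
    split_ifs <;> simp
  · rw [h1, Finsupp.sub_apply, Finsupp.single_eq_same]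
    ring

theorem exists_E3 {Q Q' : T.X.Pt} (hQ : Q ≠ Q') : ∃ f ∈ T.V q D₀ N j, f ≠ 0 ∧
    T.X.ord Q f + T.dvs q D₀ N j Q = 0 ∧ 1 ≤ T.X.ord Q' f + T.dvs q D₀ N j Q' := by
  classical
  obtain ⟨P₀⟩ := T.exists_pt
  have h := deg_large hq hD hN hj
  obtain ⟨f, hf, hf0, h1⟩ := T.X.exists_ord_eq P₀ (D := T.dvs q D₀ N j - Finsupp.single Q' 1)
    (by rw [T.X.deg_sub, T.X.deg_single]; linarith) Q
  refine ⟨f, T.X.L_mono (fun R => ?_) hf, hf0, ?_, ?_⟩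
  · rw [Finsupp.sub_apply, Finsupp.single_apply]
    split_ifs <;> simp
  · rw [h1, Finsupp.sub_apply, Finsupp.single_eq_of_ne hQ]
    ring
  · have h2 := hf hf0 Q'
    rw [Finsupp.sub_apply, Finsupp.single_eq_same] at h2
    linarith

end RR

namespace SigModel

variable {K : Type} [Field K] [Algebra ℂ K] {T : Datum K} {q : ℕ} {D₀ : T.X.Pt →₀ ℤ}
  {An : AnCurve T.X.toCurveOrd} (M : SigModel T q D₀ An)

variable {N : ℕ} {j : ℤ} {f : K}

/-- the multiplicity of the divisor vanishes outside the centre of the disc -/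
theorem dvs_iso (P : T.X.Pt) {s : ℂ} (hs : s ∈ ball 0 (M.r P)) (h0 : s ≠ 0) (N : ℕ) (j : ℤ) :
    T.dvs q D₀ N j (An.c P s) = 0 := by
  obtain ⟨h2, h3, h4⟩ := M.iso P s hs h0
  rw [dvs_not h2 h3, h4, mul_zero]

/-- order of the regular value -/
theorem ord_tight {P : T.X.Pt} {s : ℂ} {e : ℤ} (hs : s ∈ ball 0 (M.r P)) (hf0 : f ≠ 0)
    (he : e = T.dvs q D₀ N j P) : meromorphicOrderAt (An.pf P f e) s =
      ((T.X.ord (An.c P s) f + T.dvs q D₀ N j (An.c P s) : ℤ) : WithTop ℤ) := by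
  by_cases h0 : s = 0
  · rw [h0, AnCurve.ord_pf_zero hf0, An.c_zero, he]
  · rw [AnCurve.ord_pf_ne hf0 e (ball_subset_ball (M.r_le P) hs) h0, M.dvs_iso P hs h0, add_zero]

theorem rg_ne_of_ord {P : T.X.Pt} {s : ℂ} {e : ℤ} (hf : f ∈ T.V q D₀ N j)
    (hs : s ∈ ball 0 (M.r P)) (hf0 : f ≠ 0) (he : e = T.dvs q D₀ N j P)
    (h : T.X.ord (An.c P s) f + T.dvs q D₀ N j (An.c P s) = 0) : An.rg P f e s ≠ 0 := by
  rw [AnCurve.rg_ne_zero_iff (ball_subset_ball (M.r_le P) hs) (M.reg hf he.ge hs),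
    M.ord_tight hs hf0 he, h]
  rfl

theorem rg_eq_of_ord {P : T.X.Pt} {s : ℂ} {e : ℤ} (hf : f ∈ T.V q D₀ N j)
    (hs : s ∈ ball 0 (M.r P)) (hf0 : f ≠ 0) (he : e = T.dvs q D₀ N j P)
    (h : 1 ≤ T.X.ord (An.c P s) f + T.dvs q D₀ N j (An.c P s)) : An.rg P f e s = 0 := by
  by_contra hne
  change An.rg P f e s ≠ 0 at hne
  rw [AnCurve.rg_ne_zero_iff (ball_subset_ball (M.r_le P) hs) (M.reg hf he.ge hs),
    M.ord_tight hs hf0 he] at hne
  have : T.X.ord (An.c P s) f + T.dvs q D₀ N j (An.c P s) = 0 := by exact_mod_cast hne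
  linarith

theorem deriv_of_ord {P : T.X.Pt} {s : ℂ} {e : ℤ} (hs : s ∈ ball 0 (M.r P)) (hf0 : f ≠ 0)
    (he : e = T.dvs q D₀ N j P)
    (h : T.X.ord (An.c P s) f + T.dvs q D₀ N j (An.c P s) = 1) :
    An.rg P f e s = 0 ∧ deriv (An.rg P f e) s ≠ 0 := by
  apply AnCurve.deriv_rg_ne_zero (ball_subset_ball (M.r_le P) hs)
  rw [M.ord_tight hs hf0 he, h]
  rfl

include M in
/-- the value at the centre of a disc vanishes if the exponent is too large -/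
theorem rg_zero_of_lt {P : T.X.Pt} {e : ℤ} (hf : f ∈ T.V q D₀ N j)
    (he : T.dvs q D₀ N j P < e) : An.rg P f e 0 = 0 := by
  have hs : (0 : ℂ) ∈ ball (0 : ℂ) (M.r P) := mem_ball_self (M.r_pos P)
  have hs' := ball_subset_ball (M.r_le P) hs
  by_cases hf0 : f = 0
  · rw [hf0]
    exact AnCurve.rg_unique (g := fun _ => 0) hs' (AnCurve.reg_zero e hs') continuousAt_const
      (AnCurve.pf_zero_eventually e hs').symm
  · by_contra hne
    change An.rg P f e 0 ≠ 0 at hne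
    rw [AnCurve.rg_ne_zero_iff hs' (M.reg hf he.le hs), AnCurve.ord_pf_zero hf0] at hne
    have h1 : T.X.ord P f + e = 0 := by exact_mod_cast hne
    have h2 := hf hf0 P
    linarith

theorem kap_add (ε : ℤˣ) : kap q N ε j + kap q N (-ε) j = 8 * q * N := by
  unfold kap
  push_cast
  ring

/-- the exponent in the side chart is the multiplicity if `4qN + εj ≤ 0` -/
theorem eC_tight (ε : ℤˣ) (P : T.X.Pt) (h : kap q N ε j ≤ 0) :
    M.eC N j ε P = T.dvs q D₀ N j P := by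
  unfold eC
  by_cases hP : P ∈ SE T ε
  · simp only [hP, if_true]
    rw [dvs_SE hP, max_eq_right (by linarith)]
    ring
  · simp only [hP, if_false, add_zero]
    by_cases hP' : P ∈ SE T (-ε)
    · have h1 := kap_add (q := q) (N := N) (j := j) ε
      have h2 : (0 : ℤ) ≤ 8 * q * N := by positivity
      rw [dvs_SE hP', max_eq_left (by linarith)]
      ring
    · rw [dvs_not' hP hP']

/-- The sections. -/
def WS (N : ℕ) (j : ℤ) : Set (M.Y → ℂ) :=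
  {F | |j| ≤ 5 * q * N ∧ ∃ f ∈ T.V q D₀ N j, F = M.secF N j f}

theorem WS_wt {F : M.Y → ℂ} (hF : F ∈ M.WS N j) : Wt M.D N j F := by
  obtain ⟨hj, f, hf, rfl⟩ := hF
  exact ⟨M.secF_isSec hj hf, M.secF_act hj hf⟩

/-- the weight `j` with `4qN + εj = k` -/
def wt (q N : ℕ) (ε : ℤˣ) (k : ℤ) : ℤ := (ε : ℤ) * (k - 4 * q * N)

theorem kap_wt (ε : ℤˣ) (k : ℤ) : kap q N ε (wt q N ε k) = k := by
  unfold kap wt
  linear_combination (k - 4 * q * N) * εε ε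

theorem wt_le {ε : ℤˣ} {k : ℤ} (h1 : -((q : ℤ) * N) ≤ k) (h2 : k ≤ 9 * q * N) :
    |wt q N ε k| ≤ 5 * q * N := by
  unfold wt
  rw [abs_mul]
  have h3 : |((ε : ℤˣ) : ℤ)| = 1 := by
    rcases Int.units_eq_one_or ε with rfl | rfl <;> simp
  rw [h3, one_mul, abs_le]
  constructor <;> nlinarith

theorem exp_wt (ε : ℤˣ) (k : ℤ) :
    5 * (q : ℤ) * N + (ε : ℤ) * wt q N ε k = q * N + k := by
  unfold wt
  linear_combination (k - 4 * q * N) * εε ε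

/-! ### Derivatives of the local expressions -/

theorem fderiv_mono1 (m : ℕ) {g : ℂ → ℂ} {z : E 2} (hg : DifferentiableAt ℂ g (z 0)) (v : E 2) :
    fderiv ℂ (fun w : E 2 => w 1 ^ m * g (w 0)) z v =
      (m * z 1 ^ (m - 1) * v 1) * g (z 0) + z 1 ^ m * (deriv g (z 0) * v 0) := by
  have p0 : HasFDerivAt (fun w : E 2 => w 0)
      (ContinuousLinearMap.proj (R := ℂ) (φ := fun _ : Fin 2 => ℂ) 0) z :=
    (ContinuousLinearMap.proj (R := ℂ) (φ := fun _ : Fin 2 => ℂ) 0).hasFDerivAt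
  have p1 : HasFDerivAt (fun w : E 2 => w 1)
      (ContinuousLinearMap.proj (R := ℂ) (φ := fun _ : Fin 2 => ℂ) 1) z :=
    (ContinuousLinearMap.proj (R := ℂ) (φ := fun _ : Fin 2 => ℂ) 1).hasFDerivAt
  have h1 := (hasDerivAt_pow m (z 1)).comp_hasFDerivAt z p1
  have h2 := hg.hasDerivAt.comp_hasFDerivAt z p0
  have h3 := h1.fun_mul h2
  have h4 : HasFDerivAt (fun w : E 2 => w 1 ^ m * g (w 0)) _ z := h3
  rw [h4.fderiv]
  show z 1 ^ m * (deriv g (z 0) * v 0) + g (z 0) * ((m * z 1 ^ (m - 1)) * v 1) = _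
  ring

theorem fderiv_mono2 (a b : ℕ) {g : ℂ → ℂ} {z : E 2} (hg : DifferentiableAt ℂ g (z 0 * z 1))
    (v : E 2) : fderiv ℂ (fun w : E 2 => w 0 ^ a * w 1 ^ b * g (w 0 * w 1)) z v =
      (a * z 0 ^ (a - 1) * v 0 * z 1 ^ b + z 0 ^ a * (b * z 1 ^ (b - 1) * v 1)) * g (z 0 * z 1) +
      z 0 ^ a * z 1 ^ b * (deriv g (z 0 * z 1) * (v 0 * z 1 + z 0 * v 1)) := by
  have p0 : HasFDerivAt (fun w : E 2 => w 0)
      (ContinuousLinearMap.proj (R := ℂ) (φ := fun _ : Fin 2 => ℂ) 0) z :=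
    (ContinuousLinearMap.proj (R := ℂ) (φ := fun _ : Fin 2 => ℂ) 0).hasFDerivAt
  have p1 : HasFDerivAt (fun w : E 2 => w 1)
      (ContinuousLinearMap.proj (R := ℂ) (φ := fun _ : Fin 2 => ℂ) 1) z :=
    (ContinuousLinearMap.proj (R := ℂ) (φ := fun _ : Fin 2 => ℂ) 1).hasFDerivAt
  have h0 := (hasDerivAt_pow a (z 0)).comp_hasFDerivAt z p0
  have h1 := (hasDerivAt_pow b (z 1)).comp_hasFDerivAt z p1
  have h2 := HasDerivAt.comp_hasFDerivAt (h₂ := g) z hg.hasDerivAt (p0.fun_mul p1)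
  have h3 := (h0.fun_mul h1).fun_mul h2
  have h4 : HasFDerivAt (fun w : E 2 => w 0 ^ a * w 1 ^ b * g (w 0 * w 1)) _ z := h3
  rw [h4.fderiv]
  show z 0 ^ a * z 1 ^ b * (deriv g (z 0 * z 1) * (z 0 * v 1 + z 1 * v 0)) +
    g (z 0 * z 1) * (z 0 ^ a * ((b * z 1 ^ (b - 1)) * v 1) +
      z 1 ^ b * ((a * z 0 ^ (a - 1)) * v 0)) = _
  ring

/-! ### Tangent vectors -/

section Tan

variable (hq : 0 < q) (hD : T.X.deg D₀ = 105 * T.t * q) (hN : 5 ≤ N)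

include hq hN

theorem qN_pos : 5 ≤ (q : ℤ) * N := by
  have h2 : (1 : ℤ) ≤ q := by exact_mod_cast hq
  have h3 : (5 : ℤ) ≤ N := by exact_mod_cast hN
  nlinarith

include hD

theorem tan_ch (ε : ℤˣ) (P : T.X.Pt) {z : E 2} (hz : ‖z 0‖ < M.r P) (v : E 2) (t : ℂ)
    (h : ∀ j, ∀ F ∈ M.WS N j, fderiv ℂ (fun w => F (M.A.γ (M.ch ε P) w)) z v =
      t * F (M.A.γ (M.ch ε P) z)) : v = 0 := by
  have hqN := qN_pos hq hN
  have hs : z 0 ∈ ball 0 (M.r P) := mem_ball_zero_iff.2 hz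
  have hU : ∀ᶠ w in 𝓝 z, w ∈ M.A.U (M.ch ε P) :=
    (M.A.isOpen_U _).mem_nhds (by rw [M.U_ch]; exact hz)
  -- the relation for the sections with `k ≤ 0`
  have key : ∀ k : ℤ, -((q : ℤ) * N) ≤ k → k ≤ 0 → ∀ f ∈ T.V q D₀ N (wt q N ε k),
      (((q * N + k : ℤ).toNat : ℂ) * z 1 ^ ((q * N + k : ℤ).toNat - 1) * v 1) *
        An.rg P f (T.dvs q D₀ N (wt q N ε k) P) (z 0) +
        z 1 ^ (q * N + k : ℤ).toNat * (deriv (An.rg P f (T.dvs q D₀ N (wt q N ε k) P)) (z 0) *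
          v 0) = t * (z 1 ^ (q * N + k : ℤ).toNat *
            An.rg P f (T.dvs q D₀ N (wt q N ε k) P) (z 0)) := by
    intro k hk1 hk2 f hf
    have hj : |wt q N ε k| ≤ 5 * q * N := wt_le hk1 (by linarith)
    have h1 := h _ _ ⟨hj, f, hf, rfl⟩
    have hdiff : DifferentiableAt ℂ (An.rg P f (T.dvs q D₀ N (wt q N ε k) P)) (z 0) :=
      (AnCurve.analyticAt_rg (ball_subset_ball (M.r_le P) hs) (M.reg hf le_rfl hs)).differentiableAt
    have h2 : (fun w => M.secF N (wt q N ε k) f (M.A.γ (M.ch ε P) w)) =ᶠ[𝓝 z]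
        fun w => w 1 ^ (q * N + k : ℤ).toNat * An.rg P f (T.dvs q D₀ N (wt q N ε k) P) (w 0) := by
      filter_upwards [hU] with w hw
      rw [M.U_ch] at hw
      rw [M.secF_ch hj hf ε P hw, locC, M.eC_tight ε P (by rw [kap_wt]; exact hk2), exp_wt]
    rw [h2.fderiv_eq, fderiv_mono1 _ hdiff, h2.eq_of_nhds] at h1
    exact h1
  -- the pivot
  have k0 := key (-((q : ℤ) * N)) le_rfl (by linarith)
  rw [show ((q : ℤ) * N + -((q : ℤ) * N)).toNat = 0 by simp] at k0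
  have hj0 : |wt q N ε (-((q : ℤ) * N))| ≤ 5 * q * N := wt_le le_rfl (by linarith)
  obtain ⟨f₂, hf₂, hf₂0, hf₂o⟩ := exists_E2 hq hD hN hj0 (An.c P (z 0))
  obtain ⟨f₁, hf₁, hf₁0, hf₁o⟩ := exists_E1 hq hD hN hj0 (An.c P (z 0))
  obtain ⟨d1, d2⟩ := M.deriv_of_ord hs hf₂0 rfl hf₂o
  have d3 := M.rg_ne_of_ord hf₁ hs hf₁0 rfl hf₁o
  have r2 := k0 f₂ hf₂
  rw [d1] at r2
  have hv0 : v 0 = 0 := by
    have : deriv (An.rg P f₂ (T.dvs q D₀ N (wt q N ε (-((q : ℤ) * N))) P)) (z 0) * v 0 = 0 := by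
      simpa using r2
    rcases mul_eq_zero.1 this with h | h
    · exact absurd h d2
    · exact h
  have r1 := k0 f₁ hf₁
  rw [hv0] at r1
  have ht : t = 0 := by
    have : t * An.rg P f₁ (T.dvs q D₀ N (wt q N ε (-((q : ℤ) * N))) P) (z 0) = 0 := by
      simpa using r1.symm
    rcases mul_eq_zero.1 this with h | h
    · exact h
    · exact absurd h d3
  -- the second coordinate
  have k1 := key (-((q : ℤ) * N) + 1) (by linarith) (by linarith)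
  rw [show ((q : ℤ) * N + (-((q : ℤ) * N) + 1)).toNat = 1 by
    rw [show (q : ℤ) * N + (-((q : ℤ) * N) + 1) = 1 by ring]; rfl] at k1
  have hj1 : |wt q N ε (-((q : ℤ) * N) + 1)| ≤ 5 * q * N := wt_le (by linarith) (by linarith)
  obtain ⟨f₃, hf₃, hf₃0, hf₃o⟩ := exists_E1 hq hD hN hj1 (An.c P (z 0))
  have d4 := M.rg_ne_of_ord hf₃ hs hf₃0 rfl hf₃o
  have r3 := k1 f₃ hf₃
  rw [hv0, ht] at r3
  have hv1 : v 1 = 0 := by
    have : v 1 * An.rg P f₃ (T.dvs q D₀ N (wt q N ε (-((q : ℤ) * N) + 1)) P) (z 0) = 0 := by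
      simpa using r3
    rcases mul_eq_zero.1 this with h | h
    · exact h
    · exact absurd h d4
  ext i
  fin_cases i
  · exact hv0
  · exact hv1

theorem tan_md {ε : ℤˣ} {P : T.X.Pt} (hP : P ∈ SE T ε) {z : E 2} (hz : ‖z 0 * z 1‖ < M.r P)
    (v : E 2) (t : ℂ) (h : ∀ j, ∀ F ∈ M.WS N j, fderiv ℂ (fun w => F (M.A.γ (M.md P) w)) z v =
      t * F (M.A.γ (M.md P) z)) : v = 0 := by
  have hqN := qN_pos hq hN
  have hs : z 0 * z 1 ∈ ball 0 (M.r P) := mem_ball_zero_iff.2 hz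
  have hU : ∀ᶠ w in 𝓝 z, w ∈ M.A.U (M.md P) :=
    (M.A.isOpen_U _).mem_nhds (by rw [M.U_md hP]; exact hz)
  set s := z 0 * z 1 with hsdef
  have key : ∀ k : ℤ, -((q : ℤ) * N) ≤ k → k ≤ 9 * q * N → ∀ f ∈ T.V q D₀ N (wt q N ε k),
      (((k.toNat : ℂ) * z 0 ^ (k.toNat - 1) * v 0 * z 1 ^ (-k).toNat +
        z 0 ^ k.toNat * (((-k).toNat : ℂ) * z 1 ^ ((-k).toNat - 1) * v 1)) *
        An.rg P f (T.dvs q D₀ N (wt q N ε k) P) s +
        z 0 ^ k.toNat * z 1 ^ (-k).toNat *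
          (deriv (An.rg P f (T.dvs q D₀ N (wt q N ε k) P)) s * (v 0 * z 1 + z 0 * v 1))) =
        t * (z 0 ^ k.toNat * z 1 ^ (-k).toNat * An.rg P f (T.dvs q D₀ N (wt q N ε k) P) s) := by
    intro k hk1 hk2 f hf
    have hj : |wt q N ε k| ≤ 5 * q * N := wt_le hk1 hk2
    have h1 := h _ _ ⟨hj, f, hf, rfl⟩
    have hdiff : DifferentiableAt ℂ (An.rg P f (T.dvs q D₀ N (wt q N ε k) P)) s :=
      (AnCurve.analyticAt_rg (ball_subset_ball (M.r_le P) hs) (M.reg hf le_rfl hs)).differentiableAt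
    have h2 : (fun w => M.secF N (wt q N ε k) f (M.A.γ (M.md P) w)) =ᶠ[𝓝 z]
        fun w => w 0 ^ k.toNat * w 1 ^ (-k).toNat *
          An.rg P f (T.dvs q D₀ N (wt q N ε k) P) (w 0 * w 1) := by
      filter_upwards [hU] with w hw
      rw [M.U_md hP] at hw
      rw [M.secF_md hj hf hP hw, locM, M.eM_eq hP, kap_wt]
    rw [h2.fderiv_eq, fderiv_mono2 _ _ hdiff, h2.eq_of_nhds] at h1
    exact h1
  -- the pivot
  have k0 := key 0 (by linarith) (by positivity)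
  have hj0 : |wt q N ε 0| ≤ 5 * q * N := wt_le (by linarith) (by positivity)
  obtain ⟨f₂, hf₂, hf₂0, hf₂o⟩ := exists_E2 hq hD hN hj0 (An.c P s)
  obtain ⟨f₁, hf₁, hf₁0, hf₁o⟩ := exists_E1 hq hD hN hj0 (An.c P s)
  obtain ⟨d1, d2⟩ := M.deriv_of_ord hs hf₂0 rfl hf₂o
  have d3 := M.rg_ne_of_ord hf₁ hs hf₁0 rfl hf₁o
  have r2 := k0 f₂ hf₂
  rw [d1] at r2
  have hds : v 0 * z 1 + z 0 * v 1 = 0 := by
    have : deriv (An.rg P f₂ (T.dvs q D₀ N (wt q N ε 0) P)) s * (v 0 * z 1 + z 0 * v 1) = 0 := by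
      simpa using r2
    rcases mul_eq_zero.1 this with h | h
    · exact absurd h d2
    · exact h
  have r1 := k0 f₁ hf₁
  rw [hds] at r1
  have ht : t = 0 := by
    have : t * An.rg P f₁ (T.dvs q D₀ N (wt q N ε 0) P) s = 0 := by
      simpa using r1.symm
    rcases mul_eq_zero.1 this with h | h
    · exact h
    · exact absurd h d3
  -- the coordinates
  have k1 := key 1 (by linarith) (by linarith)
  have hj1 : |wt q N ε 1| ≤ 5 * q * N := wt_le (by linarith) (by linarith)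
  obtain ⟨f₃, hf₃, hf₃0, hf₃o⟩ := exists_E1 hq hD hN hj1 (An.c P s)
  have d4 := M.rg_ne_of_ord hf₃ hs hf₃0 rfl hf₃o
  have r3 := k1 f₃ hf₃
  rw [hds, ht] at r3
  have hv0 : v 0 = 0 := by
    have : v 0 * An.rg P f₃ (T.dvs q D₀ N (wt q N ε 1) P) s = 0 := by
      simpa using r3
    rcases mul_eq_zero.1 this with h | h
    · exact h
    · exact absurd h d4
  have k2 := key (-1) (by linarith) (by linarith)
  have hj2 : |wt q N ε (-1)| ≤ 5 * q * N := wt_le (by linarith) (by linarith)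
  obtain ⟨f₄, hf₄, hf₄0, hf₄o⟩ := exists_E1 hq hD hN hj2 (An.c P s)
  have d5 := M.rg_ne_of_ord hf₄ hs hf₄0 rfl hf₄o
  have r4 := k2 f₄ hf₄
  rw [hds, ht] at r4
  have hv1 : v 1 = 0 := by
    have : v 1 * An.rg P f₄ (T.dvs q D₀ N (wt q N ε (-1)) P) s = 0 := by
      simpa using r4
    rcases mul_eq_zero.1 this with h | h
    · exact h
    · exact absurd h d5
  ext i
  fin_cases i
  · exact hv0
  · exact hv1

/-- no base points -/
theorem base_WS (y : M.Y) : ∃ j, ∃ F ∈ M.WS N j, F y ≠ 0 := by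
  have hqN := qN_pos hq hN
  obtain ⟨a, z, hz, c, rfl⟩ := M.A.cover y
  rcases M.chart_cases a hz with ⟨ε, P, rfl⟩ | ⟨ε, P, hP, rfl⟩
  · rw [M.U_ch] at hz
    have hs : z 0 ∈ ball 0 (M.r P) := mem_ball_zero_iff.2 hz
    have hj0 : |wt q N ε (-((q : ℤ) * N))| ≤ 5 * q * N := wt_le le_rfl (by linarith)
    obtain ⟨f₁, hf₁, hf₁0, hf₁o⟩ := exists_E1 hq hD hN hj0 (An.c P (z 0))
    refine ⟨_, _, ⟨hj0, f₁, hf₁, rfl⟩, ?_⟩
    rw [(M.secF_isSec hj0 hf₁).hom, M.secF_ch hj0 hf₁ ε P hz, locC,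
      M.eC_tight ε P (by rw [kap_wt]; linarith), exp_wt]
    have d3 := M.rg_ne_of_ord hf₁ hs hf₁0 rfl hf₁o
    rw [show ((q : ℤ) * N + -((q : ℤ) * N)).toNat = 0 by simp, pow_zero, one_mul]
    exact mul_ne_zero (pow_ne_zero _ c.ne_zero) d3
  · rw [M.U_md hP] at hz
    have hs : z 0 * z 1 ∈ ball 0 (M.r P) := mem_ball_zero_iff.2 hz
    have hj0 : |wt q N ε 0| ≤ 5 * q * N := wt_le (by linarith) (by positivity)
    obtain ⟨f₁, hf₁, hf₁0, hf₁o⟩ := exists_E1 hq hD hN hj0 (An.c P (z 0 * z 1))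
    refine ⟨_, _, ⟨hj0, f₁, hf₁, rfl⟩, ?_⟩
    rw [(M.secF_isSec hj0 hf₁).hom, M.secF_md hj0 hf₁ hP hz, locM, M.eM_eq hP, kap_wt]
    have d3 := M.rg_ne_of_ord hf₁ hs hf₁0 rfl hf₁o
    simp only [Int.toNat_zero, neg_zero, pow_zero, one_mul]
    exact mul_ne_zero (pow_ne_zero _ c.ne_zero) d3

end Tan

end SigModel

end

end Pool.Agent.YTDA
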