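import Pool.Agent.YTDA.Defs

/-!
# The algebra of smooth functions on an open set and its commuting derivations
-/

namespace Pool.Agent.YTDA

open Complex Set Topology ContDiff ComplexOrder TopologicalSpace

noncomputable section

section Ring

set_option linter.unusedSectionVars false

variable {V : Type} [NormedAddCommGroup V] [NormedSpace ℝ V] {Ω : Opens V}

/-- extension by zero of a function on `Ω` -/
def ext (f : Ω → ℂ) : V → ℂ := Function.extend (fun z : Ω => (z : V)) f 0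

theorem ext_coe (f : Ω → ℂ) (z : Ω) : ext f z = f z :=
  Subtype.val_injective.extend_apply f 0 z

theorem ext_mk (f : Ω → ℂ) {z : V} (hz : z ∈ Ω) : ext f z = f ⟨z, hz⟩ :=
  ext_coe f ⟨z, hz⟩

theorem ext_eqOn (F : V → ℂ) : EqOn (ext (fun z : Ω => F z)) F Ω := fun _ hz => ext_mk _ hz

theorem ext_eventuallyEq (F : V → ℂ) {z : V} (hz : z ∈ Ω) :
    ext (fun z : Ω => F z) =ᶠ[𝓝 z] F :=
  Filter.eventuallyEq_of_mem (Ω.isOpen.mem_nhds hz) (ext_eqOn F)

variable (Ω) in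
/-- smooth complex functions on `Ω` -/
structure Sm : Type where
  /-- the function -/
  toFun : Ω → ℂ
  smooth' : ContDiffOn ℝ ∞ (ext toFun) Ω

theorem smooth_ext (f : Sm Ω) : ContDiffOn ℝ ∞ (ext f.1) Ω := f.2

theorem smoothAt_ext (f : Sm Ω) {z : V} (hz : z ∈ Ω) : ContDiffAt ℝ ∞ (ext f.1) z :=
  f.2.contDiffAt (Ω.isOpen.mem_nhds hz)

theorem diffAt_ext (f : Sm Ω) {z : V} (hz : z ∈ Ω) : DifferentiableAt ℝ (ext f.1) z :=
  (smoothAt_ext f hz).differentiableAt (by simp)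

theorem Sm.inj : Function.Injective (fun f : Sm Ω => f.1) := by
  rintro ⟨f, hf⟩ ⟨g, hg⟩ h
  simp only at h
  subst h
  rfl

theorem Sm.ext' {f g : Sm Ω} (h : ∀ z, f.1 z = g.1 z) : f = g := Sm.inj (funext h)

instance : Zero (Sm Ω) := ⟨⟨fun _ => 0, contDiffOn_const.congr (ext_eqOn fun _ => 0)⟩⟩

instance : One (Sm Ω) := ⟨⟨fun _ => 1, contDiffOn_const.congr (ext_eqOn fun _ => 1)⟩⟩

instance : NatCast (Sm Ω) :=
  ⟨fun n => ⟨fun _ => n, contDiffOn_const.congr (ext_eqOn fun _ => (n : ℂ))⟩⟩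

instance : IntCast (Sm Ω) :=
  ⟨fun n => ⟨fun _ => n, contDiffOn_const.congr (ext_eqOn fun _ => (n : ℂ))⟩⟩

instance : Add (Sm Ω) := ⟨fun f g => ⟨fun z => f.1 z + g.1 z, (f.2.add g.2).congr fun z hz => by
  simp only [ext_mk _ hz]⟩⟩

instance : Mul (Sm Ω) := ⟨fun f g => ⟨fun z => f.1 z * g.1 z, (f.2.mul g.2).congr fun z hz => by
  simp only [ext_mk _ hz]⟩⟩

instance : Neg (Sm Ω) := ⟨fun f => ⟨fun z => -f.1 z, f.2.neg.congr fun z hz => by
  simp only [ext_mk _ hz]⟩⟩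

instance : Sub (Sm Ω) := ⟨fun f g => ⟨fun z => f.1 z - g.1 z, (f.2.sub g.2).congr fun z hz => by
  simp only [ext_mk _ hz]⟩⟩

instance : SMul ℂ (Sm Ω) := ⟨fun c f => ⟨fun z => c * f.1 z,
  ((contDiffOn_const (c := c)).mul f.2).congr fun z hz => by
    simp only [ext_mk _ hz]⟩⟩

instance : SMul ℕ (Sm Ω) := ⟨fun c f => ⟨fun z => c • f.1 z,
  ((contDiffOn_const (c := (c : ℂ))).mul f.2).congr fun z hz => by
    simp only [ext_mk _ hz, nsmul_eq_mul]⟩⟩

instance : SMul ℤ (Sm Ω) := ⟨fun c f => ⟨fun z => c • f.1 z,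
  ((contDiffOn_const (c := (c : ℂ))).mul f.2).congr fun z hz => by
    simp only [ext_mk _ hz, zsmul_eq_mul]⟩⟩

instance : Pow (Sm Ω) ℕ := ⟨fun f k => ⟨fun z => f.1 z ^ k, (f.2.pow k).congr fun z hz => by
  simp only [ext_mk _ hz]⟩⟩

instance : CommRing (Sm Ω) := Sm.inj.commRing (fun f : Sm Ω => f.1) rfl rfl (fun _ _ => rfl)
  (fun _ _ => rfl) (fun _ => rfl) (fun _ _ => rfl) (fun _ _ => rfl) (fun _ _ => rfl)
  (fun _ _ => rfl) (fun _ => rfl) (fun _ => rfl)

@[simp] theorem Sm.add_apply (f g : Sm Ω) (z : Ω) : (f + g).1 z = f.1 z + g.1 z := rfl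
@[simp] theorem Sm.mul_apply (f g : Sm Ω) (z : Ω) : (f * g).1 z = f.1 z * g.1 z := rfl
@[simp] theorem Sm.sub_apply (f g : Sm Ω) (z : Ω) : (f - g).1 z = f.1 z - g.1 z := rfl
@[simp] theorem Sm.neg_apply (f : Sm Ω) (z : Ω) : (-f).1 z = -(f.1 z) := rfl
@[simp] theorem Sm.zero_apply (z : Ω) : (0 : Sm Ω).1 z = 0 := rfl
@[simp] theorem Sm.one_apply (z : Ω) : (1 : Sm Ω).1 z = 1 := rfl
@[simp] theorem Sm.smul_apply (c : ℂ) (f : Sm Ω) (z : Ω) : (c • f).1 z = c * f.1 z := rfl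
@[simp] theorem Sm.pow_apply (f : Sm Ω) (k : ℕ) (z : Ω) : (f ^ k).1 z = f.1 z ^ k := rfl

instance : Algebra ℂ (Sm Ω) where
  algebraMap :=
    { toFun := fun c => ⟨fun _ => c, contDiffOn_const.congr (ext_eqOn fun _ => c)⟩
      map_one' := rfl
      map_mul' := fun _ _ => rfl
      map_zero' := rfl
      map_add' := fun _ _ => rfl }
  commutes' _ _ := Sm.ext' fun _ => mul_comm _ _
  smul_def' _ _ := rfl

@[simp] theorem Sm.algebraMap_apply (c : ℂ) (z : Ω) : (algebraMap ℂ (Sm Ω) c).1 z = c := rfl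

/-- evaluation at a point -/
def evalS (z : Ω) : Sm Ω →ₐ[ℂ] ℂ where
  toFun f := f.1 z
  map_one' := rfl
  map_mul' _ _ := rfl
  map_zero' := rfl
  map_add' _ _ := rfl
  commutes' _ := rfl

@[simp] theorem evalS_apply (z : Ω) (f : Sm Ω) : evalS z f = f.1 z := rfl

theorem Sm.sum_apply {ι : Type*} (s : Finset ι) (f : ι → Sm Ω) (z : Ω) :
    (∑ i ∈ s, f i).1 z = ∑ i ∈ s, (f i).1 z := map_sum (evalS z) f s

/-- the element given by a function that is smooth on `Ω` -/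
def ofFn (F : V → ℂ) (hF : ContDiffOn ℝ ∞ F Ω) : Sm Ω :=
  ⟨fun z => F z, hF.congr (ext_eqOn F)⟩

@[simp] theorem ofFn_apply (F : V → ℂ) (hF : ContDiffOn ℝ ∞ F Ω) (z : Ω) :
    (ofFn F hF).1 z = F z := rfl

theorem ofFn_ext (f : Sm Ω) : ofFn (ext f.1) f.2 = f := Sm.ext' fun z => ext_coe _ z

theorem ext_ofFn_eventuallyEq (F : V → ℂ) (hF : ContDiffOn ℝ ∞ F Ω) {z : V} (hz : z ∈ Ω) :
    ext (ofFn F hF).1 =ᶠ[𝓝 z] F := ext_eventuallyEq F hz

theorem fderiv_ext_ofFn (F : V → ℂ) (hF : ContDiffOn ℝ ∞ F Ω) {z : V} (hz : z ∈ Ω) :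
    fderiv ℝ (ext (ofFn F hF).1) z = fderiv ℝ F z :=
  (ext_ofFn_eventuallyEq F hF hz).fderiv_eq

theorem contDiffOn_fderiv_apply (f : Sm Ω) (v : V) :
    ContDiffOn ℝ ∞ (fun z => fderiv ℝ (ext f.1) z v) Ω :=
  (f.2.fderiv_of_isOpen Ω.isOpen (by simp)).clm_apply contDiffOn_const

/-- directional derivative -/
def D (v : V) : Derivation ℂ (Sm Ω) (Sm Ω) :=
  Derivation.mk'
    { toFun := fun f => ofFn (fun z => fderiv ℝ (ext f.1) z v) (contDiffOn_fderiv_apply f v)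
      map_add' := fun f g => Sm.ext' fun z => by
        have h : ext (f + g).1 =ᶠ[𝓝 (z : V)] ext f.1 + ext g.1 :=
          Filter.eventuallyEq_of_mem (Ω.isOpen.mem_nhds z.2) fun w hw => by
            simp only [ext_mk _ hw, Sm.add_apply, Pi.add_apply]
        simp only [ofFn_apply, Sm.add_apply]
        rw [h.fderiv_eq, fderiv_add (diffAt_ext f z.2) (diffAt_ext g z.2)]
        rfl
      map_smul' := fun c f => Sm.ext' fun z => by
        have h : ext (c • f).1 =ᶠ[𝓝 (z : V)] fun w => c * ext f.1 w :=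
          Filter.eventuallyEq_of_mem (Ω.isOpen.mem_nhds z.2) fun w hw => by
            simp only [ext_mk _ hw, Sm.smul_apply]
        simp only [ofFn_apply, Sm.smul_apply, RingHom.id_apply]
        rw [h.fderiv_eq, fderiv_const_mul (diffAt_ext f z.2)]
        rfl }
    (fun f g => Sm.ext' fun z => by
      have h : ext (f * g).1 =ᶠ[𝓝 (z : V)] fun w => ext f.1 w * ext g.1 w :=
        Filter.eventuallyEq_of_mem (Ω.isOpen.mem_nhds z.2) fun w hw => by
          simp only [ext_mk _ hw, Sm.mul_apply]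
      simp only [LinearMap.coe_mk, AddHom.coe_mk, ofFn_apply, smul_eq_mul, Sm.add_apply,
        Sm.mul_apply]
      rw [h.fderiv_eq, fderiv_fun_mul (diffAt_ext f z.2) (diffAt_ext g z.2)]
      simp only [_root_.add_apply, _root_.smul_apply, smul_eq_mul,
        ext_coe])

theorem D_apply (v : V) (f : Sm Ω) (z : Ω) : (D v f).1 z = fderiv ℝ (ext f.1) z v := rfl

theorem D_ofFn (v : V) (F : V → ℂ) (hF : ContDiffOn ℝ ∞ F Ω) (z : Ω) :
    (D v (ofFn F hF)).1 z = fderiv ℝ F z v := by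
  rw [D_apply, fderiv_ext_ofFn F hF z.2]

theorem D_add (v w : V) : (D (v + w) : Derivation ℂ (Sm Ω) (Sm Ω)) = D v + D w := by
  apply Derivation.ext
  intro f
  apply Sm.ext'
  intro z
  rw [Derivation.add_apply, Sm.add_apply]
  simp only [D_apply, map_add]

theorem D_smul (r : ℝ) (v : V) :
    (D (r • v) : Derivation ℂ (Sm Ω) (Sm Ω)) =
      (r : ℂ) • (D v : Derivation ℂ (Sm Ω) (Sm Ω)) := by
  apply Derivation.ext
  intro f
  apply Sm.ext'
  intro z
  rw [Derivation.smul_apply, Sm.smul_apply]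
  simp only [D_apply, map_smul, real_smul]

theorem D_neg (v : V) : (D (-v) : Derivation ℂ (Sm Ω) (Sm Ω)) = -D v := by
  apply Derivation.ext
  intro f
  apply Sm.ext'
  intro z
  rw [Derivation.neg_apply, Sm.neg_apply]
  simp only [D_apply, map_neg]

theorem D_zero : (D (0 : V) : Derivation ℂ (Sm Ω) (Sm Ω)) = 0 := by
  apply Derivation.ext
  intro f
  apply Sm.ext'
  intro z
  simp only [D_apply, map_zero]
  rfl

theorem D_comm (v w : V) (f : Sm Ω) : D v (D w f) = D w (D v f) := by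
  apply Sm.ext'
  intro z
  have hs : IsSymmSndFDerivAt ℝ (ext f.1) (z : V) :=
    (smoothAt_ext f z.2).isSymmSndFDerivAt (by
      simp only [minSmoothness_of_isRCLikeNormedField]
      exact WithTop.coe_le_coe.2 (le_top : (2 : ℕ∞) ≤ ⊤))
  have hd : DifferentiableAt ℝ (fderiv ℝ (ext f.1)) (z : V) :=
    ((smoothAt_ext f z.2).fderiv_right (m := 1) (by norm_cast)).differentiableAt (by simp)
  have key : ∀ u t : V, (D u (D t f)).1 z = fderiv ℝ (fderiv ℝ (ext f.1)) z u t := by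
    intro u t
    have h1 : (D u (D t f)).1 z = fderiv ℝ (fun y => fderiv ℝ (ext f.1) y t) z u :=
      D_ofFn u (fun y => fderiv ℝ (ext f.1) y t) (contDiffOn_fderiv_apply f t) z
    rw [h1, fderiv_clm_apply hd (differentiableAt_const t)]
    simp
  rw [key, key]
  exact hs.eq v w

end Ring

end

end Pool.Agent.YTDA
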