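import Pool.Agent.YTDA.Smr1
import Pool.Agent.YTDA.Osgood

/-!
# The algebra of smooth functions: conjugation, units, logarithm, complex derivations
-/

namespace Pool.Agent.YTDA

open Complex Set Topology ContDiff ComplexOrder TopologicalSpace

noncomputable section

set_option linter.unusedSectionVars false

section Star

variable {V : Type} [NormedAddCommGroup V] [NormedSpace ℝ V] {Ω : Opens V}

theorem contDiffOn_conj {F : V → ℂ} {s : Set V} (h : ContDiffOn ℝ ∞ F s) :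
    ContDiffOn ℝ ∞ (fun z => (starRingEnd ℂ) (F z)) s :=
  Complex.conjCLE.contDiff.comp_contDiffOn h

instance : Star (Sm Ω) := ⟨fun f => ofFn (fun z => (starRingEnd ℂ) (ext f.1 z))
  (contDiffOn_conj f.2)⟩

@[simp] theorem star_apply (f : Sm Ω) (z : Ω) : (star f).1 z = (starRingEnd ℂ) (f.1 z) := by
  show (starRingEnd ℂ) (ext f.1 z) = _
  rw [ext_coe]

instance : StarRing (Sm Ω) where
  star_involutive f := Sm.ext' fun z => by simp
  star_mul f g := Sm.ext' fun z => by simp [mul_comm]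
  star_add f g := Sm.ext' fun z => by simp

instance : StarModule ℂ (Sm Ω) where
  star_smul c f := Sm.ext' fun z => by simp

theorem star_smul_real (r : ℝ) (f : Sm Ω) : star ((r : ℂ) • f) = (r : ℂ) • star f := by
  rw [star_smul]
  simp

theorem D_star (v : V) (f : Sm Ω) : D v (star f) = star (D v f) := by
  apply Sm.ext'
  intro z
  have h : ext (star f).1 =ᶠ[𝓝 (z : V)] fun w => conjCLE (ext f.1 w) :=
    Filter.eventuallyEq_of_mem (Ω.isOpen.mem_nhds z.2) fun w hw => by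
      simp only [ext_mk _ hw, star_apply]
      rfl
  rw [D_apply, h.fderiv_eq, star_apply, D_apply]
  have h1 : fderiv ℝ (fun w => conjCLE (ext f.1 w)) z =
      (conjCLE : ℂ →L[ℝ] ℂ).comp (fderiv ℝ (ext f.1) z) :=
    ContinuousLinearEquiv.comp_fderiv conjCLE
  rw [h1]
  rfl

end Star

section Units

variable {V : Type} [NormedAddCommGroup V] [NormedSpace ℝ V] {Ω : Opens V}

/-- the inverse of a nowhere vanishing function -/
def invS (f : Sm Ω) (hf : ∀ z, f.1 z ≠ 0) : Sm Ω :=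
  ofFn (fun z => (ext f.1 z)⁻¹) (f.2.inv fun z hz => by
    rw [ext_mk _ hz]
    exact hf _)

@[simp] theorem invS_apply (f : Sm Ω) (hf : ∀ z, f.1 z ≠ 0) (z : Ω) :
    (invS f hf).1 z = (f.1 z)⁻¹ := by
  show (ext f.1 z)⁻¹ = _
  rw [ext_coe]

theorem mul_invS (f : Sm Ω) (hf : ∀ z, f.1 z ≠ 0) : f * invS f hf = 1 :=
  Sm.ext' fun z => by simp [hf z]

theorem invS_mul (f : Sm Ω) (hf : ∀ z, f.1 z ≠ 0) : invS f hf * f = 1 :=
  Sm.ext' fun z => by simp [hf z]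

theorem isUnit_iff_ne (f : Sm Ω) : IsUnit f ↔ ∀ z, f.1 z ≠ 0 := by
  constructor
  · intro h z
    exact (h.map (evalS z)).ne_zero
  · intro h
    exact ⟨⟨f, invS f h, mul_invS f h, invS_mul f h⟩, rfl⟩

/-- the element given by a real valued smooth function -/
def ofR (φ : V → ℝ) (hφ : ContDiffOn ℝ ∞ φ Ω) : Sm Ω :=
  ofFn (fun z => (φ z : ℂ)) (ofRealCLM.contDiff.comp_contDiffOn hφ)

@[simp] theorem ofR_apply (φ : V → ℝ) (hφ : ContDiffOn ℝ ∞ φ Ω) (z : Ω) :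
    (ofR φ hφ).1 z = φ z := rfl

theorem star_ofR (φ : V → ℝ) (hφ : ContDiffOn ℝ ∞ φ Ω) : star (ofR φ hφ : Sm Ω) = ofR φ hφ :=
  Sm.ext' fun z => by simp

theorem contDiffOn_log (f : Sm Ω) (hf : ∀ z, 0 < f.1 z) :
    ContDiffOn ℝ ∞ (fun z => Real.log (ext f.1 z).re) Ω := by
  have h1 : ContDiffOn ℝ ∞ (fun z => (ext f.1 z).re) Ω := reCLM.contDiff.comp_contDiffOn f.2
  refine h1.log fun z hz => ?_
  rw [ext_mk _ hz]
  exact (pos_iff.1 (hf ⟨z, hz⟩)).1.ne'

/-- the logarithm of a positive function -/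
def logS (f : Sm Ω) (hf : ∀ z, 0 < f.1 z) : Sm Ω :=
  ofR (fun z => Real.log (ext f.1 z).re) (contDiffOn_log f hf)

theorem logS_apply (f : Sm Ω) (hf : ∀ z, 0 < f.1 z) (z : Ω) :
    (logS f hf).1 z = (Real.log (f.1 z).re : ℝ) := by
  show ((Real.log (ext f.1 z).re : ℝ) : ℂ) = _
  rw [ext_coe]

theorem star_logS (f : Sm Ω) (hf : ∀ z, 0 < f.1 z) : star (logS f hf) = logS f hf :=
  star_ofR _ _

theorem exp_logS (f : Sm Ω) (hf : ∀ z, 0 < f.1 z) (z : Ω) : exp ((logS f hf).1 z) = f.1 z := by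
  rw [logS_apply, ← ofReal_exp, Real.exp_log (pos_iff.1 (hf z)).1]
  apply Complex.ext
  · simp
  · simp [← (pos_iff.1 (hf z)).2]

theorem mul_D_logS (v : V) (f : Sm Ω) (hf : ∀ z, 0 < f.1 z) :
    f * D v (logS f hf) = D v f := by
  apply Sm.ext'
  intro z
  have h : ext f.1 =ᶠ[𝓝 (z : V)] fun w => exp (ext (logS f hf).1 w) :=
    Filter.eventuallyEq_of_mem (Ω.isOpen.mem_nhds z.2) fun w hw => by
      simp only [ext_mk _ hw, exp_logS]
  rw [Sm.mul_apply, D_apply, D_apply, h.fderiv_eq,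
    (diffAt_ext (logS f hf) z.2).hasFDerivAt.cexp.fderiv]
  rw [_root_.smul_apply, ext_coe, exp_logS, smul_eq_mul]

end Units

section Span

variable {V : Type} [NormedAddCommGroup V] [NormedSpace ℝ V] {Ω : Opens V}

variable (Ω) in
/-- the module of derivations spanned by the directional derivatives -/
def DS : Submodule (Sm Ω) (Derivation ℂ (Sm Ω) (Sm Ω)) := Submodule.span _ (range D)

variable (Ω) in
/-- the complex span of the directional derivatives -/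
def DC : Submodule ℂ (Derivation ℂ (Sm Ω) (Sm Ω)) := Submodule.span _ (range D)

theorem D_mem_DC (v : V) : (D v : Derivation ℂ (Sm Ω) (Sm Ω)) ∈ DC Ω :=
  Submodule.subset_span ⟨v, rfl⟩

theorem D_mem_DS (v : V) : (D v : Derivation ℂ (Sm Ω) (Sm Ω)) ∈ DS Ω :=
  Submodule.subset_span ⟨v, rfl⟩

theorem DC_le_DS {δ : Derivation ℂ (Sm Ω) (Sm Ω)} (h : δ ∈ DC Ω) : δ ∈ DS Ω := by
  refine Submodule.span_induction ?_ ?_ ?_ ?_ h
  · rintro _ ⟨v, rfl⟩
    exact D_mem_DS v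
  · exact Submodule.zero_mem _
  · intro x y _ _ hx hy
    exact Submodule.add_mem _ hx hy
  · intro c x _ hx
    have : c • x = (algebraMap ℂ (Sm Ω) c) • x := by
      apply Derivation.ext
      intro f
      simp only [Derivation.smul_apply, algebraMap_smul]
    rw [this]
    exact Submodule.smul_mem _ _ hx

theorem DC_comm {δ δ' : Derivation ℂ (Sm Ω) (Sm Ω)} (h : δ ∈ DC Ω) (h' : δ' ∈ DC Ω)
    (f : Sm Ω) : δ (δ' f) = δ' (δ f) := by
  refine Submodule.span_induction (p := fun δ _ => δ (δ' f) = δ' (δ f)) ?_ ?_ ?_ ?_ h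
  · rintro _ ⟨v, rfl⟩
    refine Submodule.span_induction (p := fun δ' _ => D v (δ' f) = δ' (D v f)) ?_ ?_ ?_ ?_ h'
    · rintro _ ⟨w, rfl⟩
      exact D_comm v w f
    · simp
    · intro x y _ _ hx hy
      simp only [Derivation.add_apply, map_add, hx, hy]
    · intro c x _ hx
      simp only [Derivation.smul_apply, Derivation.map_smul, hx]
  · simp
  · intro x y _ _ hx hy
    simp only [Derivation.add_apply, map_add, hx, hy]
  · intro c x _ hx
    simp only [Derivation.smul_apply, Derivation.map_smul, hx]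

theorem mul_DS_logS {δ : Derivation ℂ (Sm Ω) (Sm Ω)} (h : δ ∈ DS Ω) (f : Sm Ω)
    (hf : ∀ z, 0 < f.1 z) : f * δ (logS f hf) = δ f := by
  refine Submodule.span_induction (p := fun δ _ => f * δ (logS f hf) = δ f) ?_ ?_ ?_ ?_ h
  · rintro _ ⟨v, rfl⟩
    exact mul_D_logS v f hf
  · simp
  · intro x y _ _ hx hy
    simp only [Derivation.add_apply, mul_add, hx, hy]
  · intro c x _ hx
    rw [Derivation.smul_apply, Derivation.smul_apply, smul_eq_mul, smul_eq_mul, ← hx]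
    ring

/-- `δ f` at a point only depends on the germ of `f` -/
theorem DS_congr {δ : Derivation ℂ (Sm Ω) (Sm Ω)} (h : δ ∈ DS Ω) {f g : Sm Ω} {z : Ω}
    (hfg : ext f.1 =ᶠ[𝓝 (z : V)] ext g.1) : (δ f).1 z = (δ g).1 z := by
  refine Submodule.span_induction (p := fun δ _ => (δ f).1 z = (δ g).1 z) ?_ ?_ ?_ ?_ h
  · rintro _ ⟨v, rfl⟩
    rw [D_apply, D_apply, hfg.fderiv_eq]
  · simp
  · intro x y _ _ hx hy
    rw [Derivation.add_apply, Derivation.add_apply, Sm.add_apply, Sm.add_apply, hx, hy]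
  · intro c x _ hx
    rw [Derivation.smul_apply, Derivation.smul_apply, smul_eq_mul, smul_eq_mul, Sm.mul_apply,
      Sm.mul_apply, hx]

end Span

section Cplx

variable {V : Type} [NormedAddCommGroup V] [NormedSpace ℝ V] {Ω : Opens V} {n : ℕ}

/-- `∂/∂z_i` along an embedding `j` of `ℂⁿ` -/
def dzJ (j : E n →ₗ[ℝ] V) (i : Fin n) : Derivation ℂ (Sm Ω) (Sm Ω) :=
  (1 / 2 : ℂ) • (D (j (Pi.single i 1)) - I • D (j (Pi.single i I)))

/-- `∂/∂z̄_i` along an embedding `j` of `ℂⁿ` -/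
def dzbJ (j : E n →ₗ[ℝ] V) (i : Fin n) : Derivation ℂ (Sm Ω) (Sm Ω) :=
  (1 / 2 : ℂ) • (D (j (Pi.single i 1)) + I • D (j (Pi.single i I)))

theorem dzJ_eq (j : E n →ₗ[ℝ] V) (i : Fin n) (f : Sm Ω) :
    dzJ j i f = (1 / 2 : ℂ) • (D (j (Pi.single i 1)) f - I • D (j (Pi.single i I)) f) := rfl

theorem dzbJ_eq (j : E n →ₗ[ℝ] V) (i : Fin n) (f : Sm Ω) :
    dzbJ j i f = (1 / 2 : ℂ) • (D (j (Pi.single i 1)) f + I • D (j (Pi.single i I)) f) := rfl

theorem dzJ_mem_DC (j : E n →ₗ[ℝ] V) (i : Fin n) :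
    (dzJ j i : Derivation ℂ (Sm Ω) (Sm Ω)) ∈ DC Ω := by
  have h : (dzJ j i : Derivation ℂ (Sm Ω) (Sm Ω)) =
      (1 / 2 : ℂ) • (D (j (Pi.single i 1)) + (-I) • D (j (Pi.single i I))) := by
    apply Derivation.ext
    intro f
    simp only [dzJ, Derivation.smul_apply, Derivation.add_apply, neg_smul,
      Derivation.neg_apply, sub_eq_add_neg]
  rw [h]
  exact Submodule.smul_mem _ _
    (Submodule.add_mem _ (D_mem_DC _) (Submodule.smul_mem _ _ (D_mem_DC _)))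

theorem dzbJ_mem_DC (j : E n →ₗ[ℝ] V) (i : Fin n) :
    (dzbJ j i : Derivation ℂ (Sm Ω) (Sm Ω)) ∈ DC Ω :=
  Submodule.smul_mem _ _ (Submodule.add_mem _ (D_mem_DC _) (Submodule.smul_mem _ _ (D_mem_DC _)))

theorem star_dzJ (j : E n →ₗ[ℝ] V) (i : Fin n) (f : Sm Ω) :
    star (dzJ j i f) = dzbJ j i (star f) := by
  rw [dzJ_eq, dzbJ_eq, D_star, D_star, star_smul, star_sub, star_smul]
  have h1 : star (1 / 2 : ℂ) = 1 / 2 := by simp
  have h2 : star I = -I := conj_I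
  rw [h1, h2, neg_smul, sub_neg_eq_add]

theorem star_dzbJ (j : E n →ₗ[ℝ] V) (i : Fin n) (f : Sm Ω) :
    star (dzbJ j i f) = dzJ j i (star f) := by
  rw [dzJ_eq, dzbJ_eq, D_star, D_star, star_smul, star_add, star_smul]
  have h1 : star (1 / 2 : ℂ) = 1 / 2 := by simp
  have h2 : star I = -I := conj_I
  rw [h1, h2, neg_smul, sub_eq_add_neg]

theorem dzJ_comm (j j' : E n →ₗ[ℝ] V) (i i' : Fin n) (f : Sm Ω) :
    dzJ j i (dzJ j' i' f) = dzJ j' i' (dzJ j i f) := DC_comm (dzJ_mem_DC _ _) (dzJ_mem_DC _ _) f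

theorem dzbJ_comm (j j' : E n →ₗ[ℝ] V) (i i' : Fin n) (f : Sm Ω) :
    dzbJ j i (dzbJ j' i' f) = dzbJ j' i' (dzbJ j i f) :=
  DC_comm (dzbJ_mem_DC _ _) (dzbJ_mem_DC _ _) f

theorem dzJ_dzbJ_comm (j j' : E n →ₗ[ℝ] V) (i i' : Fin n) (f : Sm Ω) :
    dzJ j i (dzbJ j' i' f) = dzbJ j' i' (dzJ j i f) :=
  DC_comm (dzJ_mem_DC _ _) (dzbJ_mem_DC _ _) f

theorem D_dzJ_comm (v : V) (j : E n →ₗ[ℝ] V) (i : Fin n) (f : Sm Ω) :
    D v (dzJ j i f) = dzJ j i (D v f) := DC_comm (D_mem_DC _) (dzJ_mem_DC _ _) f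

theorem D_dzbJ_comm (v : V) (j : E n →ₗ[ℝ] V) (i : Fin n) (f : Sm Ω) :
    D v (dzbJ j i f) = dzbJ j i (D v f) := DC_comm (D_mem_DC _) (dzbJ_mem_DC _ _) f

end Cplx

section En

variable {n : ℕ} {Ω : Opens (E n)}

/-- `∂/∂z_i` -/
def dzD (i : Fin n) : Derivation ℂ (Sm Ω) (Sm Ω) := dzJ LinearMap.id i

/-- `∂/∂z̄_i` -/
def dzbD (i : Fin n) : Derivation ℂ (Sm Ω) (Sm Ω) := dzbJ LinearMap.id i

theorem dzD_mem_DC (i : Fin n) : (dzD i : Derivation ℂ (Sm Ω) (Sm Ω)) ∈ DC Ω := dzJ_mem_DC _ _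

theorem dzbD_mem_DC (i : Fin n) : (dzbD i : Derivation ℂ (Sm Ω) (Sm Ω)) ∈ DC Ω :=
  dzbJ_mem_DC _ _

theorem dzD_mem_DS (i : Fin n) : (dzD i : Derivation ℂ (Sm Ω) (Sm Ω)) ∈ DS Ω :=
  DC_le_DS (dzD_mem_DC i)

theorem dzbD_mem_DS (i : Fin n) : (dzbD i : Derivation ℂ (Sm Ω) (Sm Ω)) ∈ DS Ω :=
  DC_le_DS (dzbD_mem_DC i)

theorem dzD_apply (i : Fin n) (f : Sm Ω) (z : Ω) : (dzD i f).1 z = dz i (ext f.1) z := by
  show (1 / 2 : ℂ) * ((D (Pi.single i 1) f).1 z - I * (D (Pi.single i I) f).1 z) = _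
  rw [D_apply, D_apply, dz]
  ring

theorem dzbD_apply (i : Fin n) (f : Sm Ω) (z : Ω) : (dzbD i f).1 z = dzb i (ext f.1) z := by
  show (1 / 2 : ℂ) * ((D (Pi.single i 1) f).1 z + I * (D (Pi.single i I) f).1 z) = _
  rw [D_apply, D_apply, dzb]
  ring

theorem dz_congr {i : Fin n} {f g : E n → ℂ} {z : E n} (h : f =ᶠ[𝓝 z] g) :
    dz i f z = dz i g z := by rw [dz, dz, h.fderiv_eq]

theorem dzb_congr {i : Fin n} {f g : E n → ℂ} {z : E n} (h : f =ᶠ[𝓝 z] g) :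
    dzb i f z = dzb i g z := by rw [dzb, dzb, h.fderiv_eq]

theorem dzD_ofFn (i : Fin n) (F : E n → ℂ) (hF : ContDiffOn ℝ ∞ F Ω) (z : Ω) :
    (dzD i (ofFn F hF)).1 z = dz i F z := by
  rw [dzD_apply, dz_congr (ext_ofFn_eventuallyEq F hF z.2)]

theorem dzbD_ofFn (i : Fin n) (F : E n → ℂ) (hF : ContDiffOn ℝ ∞ F Ω) (z : Ω) :
    (dzbD i (ofFn F hF)).1 z = dzb i F z := by
  rw [dzbD_apply, dzb_congr (ext_ofFn_eventuallyEq F hF z.2)]

theorem star_dzD (i : Fin n) (f : Sm Ω) : star (dzD i f) = dzbD i (star f) := star_dzJ _ _ _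

theorem star_dzbD (i : Fin n) (f : Sm Ω) : star (dzbD i f) = dzD i (star f) := star_dzbJ _ _ _

theorem dzD_comm (i j : Fin n) (f : Sm Ω) : dzD i (dzD j f) = dzD j (dzD i f) :=
  dzJ_comm _ _ _ _ _

theorem dzbD_comm (i j : Fin n) (f : Sm Ω) : dzbD i (dzbD j f) = dzbD j (dzbD i f) :=
  dzbJ_comm _ _ _ _ _

theorem dzD_dzbD_comm (i j : Fin n) (f : Sm Ω) : dzD i (dzbD j f) = dzbD j (dzD i f) :=
  dzJ_dzbJ_comm _ _ _ _ _

/-- the real derivative in terms of `dz`, `dzb` -/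
theorem fderiv_eq_dz_dzb (F : E n → ℂ) (z u : E n) :
    fderiv ℝ F z u = ∑ b, (dz b F z * u b + dzb b F z * (starRingEnd ℂ) (u b)) := by
  have hu : u = ∑ b, ((u b).re • (Pi.single b 1 : E n) + (u b).im • (Pi.single b I : E n)) := by
    ext a
    simp only [Finset.sum_apply, Pi.add_apply, Pi.smul_apply, Pi.single_apply, smul_ite,
      smul_zero, real_smul, mul_one]
    rw [Finset.sum_add_distrib]
    simp [re_add_im]
  have h1 : fderiv ℝ F z u = ∑ b, ((u b).re • fderiv ℝ F z (Pi.single b 1) +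
      (u b).im • fderiv ℝ F z (Pi.single b I)) := by
    conv_lhs => rw [hu]
    simp only [map_sum, map_add, map_smul]
  rw [h1]
  refine Finset.sum_congr rfl fun b _ => ?_
  simp only [dz, dzb, real_smul]
  have h2 : u b = (u b).re + (u b).im * I := (re_add_im _).symm
  have h3 : (starRingEnd ℂ) (u b) = (u b).re - (u b).im * I := by
    apply Complex.ext <;> simp
  rw [h3]
  conv_rhs => rw [h2]
  simp only [add_re, ofReal_re, mul_re, I_re, mul_zero, ofReal_im, I_im, mul_one, sub_self,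
    add_zero, add_im, mul_im, zero_add]
  linear_combination ((u b).im * fderiv ℝ F z (Pi.single b I)) * I_sq

theorem dzb_eq_zero {F : E n → ℂ} {z : E n} (h : DifferentiableAt ℂ F z) (i : Fin n) :
    dzb i F z = 0 := by
  have h1 : fderiv ℝ F z = (fderiv ℂ F z).restrictScalars ℝ := h.fderiv_restrictScalars ℝ
  have h2 : (Pi.single i I : E n) = I • (Pi.single i 1 : E n) := by
    rw [← Pi.single_smul, smul_eq_mul, mul_one]
  rw [dzb, h1]
  simp only [ContinuousLinearMap.coe_restrictScalars', h2, map_smul, smul_eq_mul]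
  rw [← mul_assoc, I_mul_I]
  ring

theorem dz_eq_fderiv {F : E n → ℂ} {z : E n} (h : DifferentiableAt ℂ F z) (i : Fin n) :
    dz i F z = fderiv ℂ F z (Pi.single i 1) := by
  have h1 : fderiv ℝ F z = (fderiv ℂ F z).restrictScalars ℝ := h.fderiv_restrictScalars ℝ
  have h2 : (Pi.single i I : E n) = I • (Pi.single i 1 : E n) := by
    rw [← Pi.single_smul, smul_eq_mul, mul_one]
  rw [dz, h1]
  simp only [ContinuousLinearMap.coe_restrictScalars', h2, map_smul, smul_eq_mul]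
  rw [← mul_assoc, I_mul_I]
  ring

end En

end

end Pool.Agent.YTDA
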