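import Pool.Agent.YTDA.Smr2

/-!
# The algebra of smooth functions: pull-back and chain rules, derivations and determinants
-/

namespace Pool.Agent.YTDA

open Complex Set Topology ContDiff ComplexOrder TopologicalSpace

noncomputable section

set_option linter.unusedSectionVars false

section Pull

variable {V W : Type} [NormedAddCommGroup V] [NormedSpace ℝ V] [NormedAddCommGroup W]
  [NormedSpace ℝ W] {Ω : Opens V} {Ω' : Opens W} {τ : V → W}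

/-- pull-back along a smooth map -/
def pull (hτ : ContDiffOn ℝ ∞ τ Ω) (hm : MapsTo τ Ω Ω') : Sm Ω' →ₐ[ℂ] Sm Ω where
  toFun f := ofFn (fun z => ext f.1 (τ z)) (f.2.comp hτ hm)
  map_one' := Sm.ext' fun z => by
    show ext (1 : Sm Ω').1 (τ z) = 1
    rw [ext_mk _ (hm z.2)]
    rfl
  map_mul' f g := Sm.ext' fun z => by
    show ext (f * g).1 (τ z) = ext f.1 (τ z) * ext g.1 (τ z)
    rw [ext_mk _ (hm z.2), ext_mk _ (hm z.2), ext_mk _ (hm z.2)]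
    rfl
  map_zero' := Sm.ext' fun z => by
    show ext (0 : Sm Ω').1 (τ z) = 0
    rw [ext_mk _ (hm z.2)]
    rfl
  map_add' f g := Sm.ext' fun z => by
    show ext (f + g).1 (τ z) = ext f.1 (τ z) + ext g.1 (τ z)
    rw [ext_mk _ (hm z.2), ext_mk _ (hm z.2), ext_mk _ (hm z.2)]
    rfl
  commutes' c := Sm.ext' fun z => by
    show ext (algebraMap ℂ (Sm Ω') c).1 (τ z) = c
    rw [ext_mk _ (hm z.2)]
    rfl

variable (hτ : ContDiffOn ℝ ∞ τ Ω) (hm : MapsTo τ Ω Ω')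

@[simp] theorem pull_apply (f : Sm Ω') (z : Ω) :
    (pull hτ hm f).1 z = f.1 ⟨τ z, hm z.2⟩ := by
  show ext f.1 (τ z) = _
  rw [ext_mk _ (hm z.2)]

theorem ext_pull (f : Sm Ω') {z : V} (hz : z ∈ Ω) :
    ext (pull hτ hm f).1 z = ext f.1 (τ z) := by
  rw [ext_mk _ hz]
  rfl

theorem star_pull (f : Sm Ω') : star (pull hτ hm f) = pull hτ hm (star f) :=
  Sm.ext' fun z => by simp

theorem pull_ofFn (F : W → ℂ) (hF : ContDiffOn ℝ ∞ F Ω') :
    pull hτ hm (ofFn F hF) = ofFn (fun z => F (τ z)) (hF.comp hτ hm) :=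
  Sm.ext' fun z => by simp

theorem pull_ofR (φ : W → ℝ) (hφ : ContDiffOn ℝ ∞ φ Ω') :
    pull hτ hm (ofR φ hφ) = ofR (fun z => φ (τ z)) (hφ.comp hτ hm) :=
  Sm.ext' fun z => by simp

theorem pull_logS (f : Sm Ω') (hf : ∀ z, 0 < f.1 z) :
    pull hτ hm (logS f hf) = logS (pull hτ hm f) (fun z => by
      rw [pull_apply]
      exact hf _) :=
  Sm.ext' fun z => by simp [logS_apply]

theorem D_pull_apply (v : V) (f : Sm Ω') (z : Ω) :
    (D v (pull hτ hm f)).1 z = fderiv ℝ (ext f.1) (τ z) (fderiv ℝ τ z v) := by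
  have h : ext (pull hτ hm f).1 =ᶠ[𝓝 (z : V)] fun w => ext f.1 (τ w) :=
    Filter.eventuallyEq_of_mem (Ω.isOpen.mem_nhds z.2) fun w hw => ext_pull hτ hm f hw
  have h1 : DifferentiableAt ℝ τ z :=
    (hτ.contDiffAt (Ω.isOpen.mem_nhds z.2)).differentiableAt (by simp)
  have h2 : DifferentiableAt ℝ (ext f.1) (τ z) := diffAt_ext f (hm z.2)
  rw [D_apply, h.fderiv_eq]
  have h3 : fderiv ℝ (fun w => ext f.1 (τ w)) z = (fderiv ℝ (ext f.1) (τ z)).comp (fderiv ℝ τ z) :=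
    fderiv_comp (z : V) h2 h1
  rw [h3]
  rfl

end Pull

section PullE

variable {V : Type} [NormedAddCommGroup V] [NormedSpace ℝ V] {m : ℕ}
  {Ω : Opens V} {Ω' : Opens (E m)} {τ : V → E m}

/-- the components of a smooth map -/
def coS (hτ : ContDiffOn ℝ ∞ τ Ω) (b : Fin m) : Sm Ω :=
  ofFn (fun z => τ z b) (contDiffOn_pi.1 hτ b)

@[simp] theorem coS_apply (hτ : ContDiffOn ℝ ∞ τ Ω) (b : Fin m) (z : Ω) :
    (coS hτ b).1 z = τ z b := rfl

theorem D_coS (hτ : ContDiffOn ℝ ∞ τ Ω) (v : V) (b : Fin m) (z : Ω) :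
    (D v (coS hτ b)).1 z = fderiv ℝ τ z v b := by
  have h1 : DifferentiableAt ℝ τ z :=
    (hτ.contDiffAt (Ω.isOpen.mem_nhds z.2)).differentiableAt (by simp)
  rw [coS, D_ofFn]
  have h2 : fderiv ℝ (fun w => τ w b) z = _ :=
    ((ContinuousLinearMap.proj (R := ℝ) (φ := fun _ : Fin m => ℂ) b).hasFDerivAt.comp (z : V)
      h1.hasFDerivAt).fderiv
  rw [h2]
  rfl

variable (hτ : ContDiffOn ℝ ∞ τ Ω) (hm : MapsTo τ Ω Ω')

theorem D_pull (v : V) (f : Sm Ω') : D v (pull hτ hm f) =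
    ∑ b, (pull hτ hm (dzD b f) * D v (coS hτ b) +
      pull hτ hm (dzbD b f) * D v (star (coS hτ b))) := by
  apply Sm.ext'
  intro z
  rw [D_pull_apply, fderiv_eq_dz_dzb, Sm.sum_apply]
  refine Finset.sum_congr rfl fun b _ => ?_
  rw [Sm.add_apply, Sm.mul_apply, Sm.mul_apply, D_star, star_apply, D_coS, pull_apply, pull_apply,
    dzD_apply, dzbD_apply]

/-- the chain rule -/
theorem DS_pull {δ : Derivation ℂ (Sm Ω) (Sm Ω)} (hδ : δ ∈ DS Ω) (f : Sm Ω') :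
    δ (pull hτ hm f) = ∑ b, (pull hτ hm (dzD b f) * δ (coS hτ b) +
      pull hτ hm (dzbD b f) * δ (star (coS hτ b))) := by
  refine Submodule.span_induction (p := fun δ _ => δ (pull hτ hm f) =
    ∑ b, (pull hτ hm (dzD b f) * δ (coS hτ b) +
      pull hτ hm (dzbD b f) * δ (star (coS hτ b)))) ?_ ?_ ?_ ?_ hδ
  · rintro _ ⟨v, rfl⟩
    exact D_pull hτ hm v f
  · simp
  · intro x y _ _ hx hy
    simp only [Derivation.add_apply, hx, hy, ← Finset.sum_add_distrib]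
    refine Finset.sum_congr rfl fun b _ => ?_
    ring
  · intro c x _ hx
    simp only [Derivation.smul_apply, smul_eq_mul, hx, Finset.mul_sum]
    refine Finset.sum_congr rfl fun b _ => ?_
    ring

theorem DS_pull_of_star {δ : Derivation ℂ (Sm Ω) (Sm Ω)} (hδ : δ ∈ DS Ω)
    (h0 : ∀ b, δ (star (coS hτ b)) = 0) (f : Sm Ω') :
    δ (pull hτ hm f) = ∑ b, pull hτ hm (dzD b f) * δ (coS hτ b) := by
  rw [DS_pull hτ hm hδ]
  simp [h0]

theorem DS_pull_of_zero {δ : Derivation ℂ (Sm Ω) (Sm Ω)} (hδ : δ ∈ DS Ω)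
    (h0 : ∀ b, δ (coS hτ b) = 0) (f : Sm Ω') :
    δ (pull hτ hm f) = ∑ b, pull hτ hm (dzbD b f) * δ (star (coS hτ b)) := by
  rw [DS_pull hτ hm hδ]
  simp [h0]

end PullE

section Hol

variable {n m : ℕ} {Ω : Opens (E n)} {Ω' : Opens (E m)} {τ : E n → E m}

theorem smooth_of_hol (hτ : DifferentiableOn ℂ τ Ω) : ContDiffOn ℝ ∞ τ Ω :=
  contDiffOn_real_of_differentiableOn Ω.isOpen hτ

theorem smooth_of_hol' {f : E n → ℂ} (hf : DifferentiableOn ℂ f Ω) : ContDiffOn ℝ ∞ f Ω :=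
  contDiffOn_real_of_differentiableOn Ω.isOpen hf

theorem dzbD_ofFn_hol {f : E n → ℂ} (hf : DifferentiableOn ℂ f Ω) (a : Fin n) :
    dzbD a (ofFn f (smooth_of_hol' hf)) = 0 := by
  apply Sm.ext'
  intro z
  rw [dzbD_ofFn, dzb_eq_zero (hf.differentiableAt (Ω.isOpen.mem_nhds z.2)), Sm.zero_apply]

theorem dzD_ofFn_hol {f : E n → ℂ} (hf : DifferentiableOn ℂ f Ω) (a : Fin n) (z : Ω) :
    (dzD a (ofFn f (smooth_of_hol' hf))).1 z = fderiv ℂ f z (Pi.single a 1) := by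
  rw [dzD_ofFn, dz_eq_fderiv (hf.differentiableAt (Ω.isOpen.mem_nhds z.2))]

theorem dzD_star_ofFn_hol {f : E n → ℂ} (hf : DifferentiableOn ℂ f Ω) (a : Fin n) :
    dzD a (star (ofFn f (smooth_of_hol' hf))) = 0 := by
  rw [← star_dzbD, dzbD_ofFn_hol hf, star_zero]

variable (hτ : DifferentiableOn ℂ τ Ω) (hm : MapsTo τ Ω Ω')

theorem dzbD_coS (a : Fin n) (b : Fin m) : dzbD a (coS (smooth_of_hol hτ) b) = 0 :=
  dzbD_ofFn_hol (differentiableOn_pi.1 hτ b) a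

theorem dzD_star_coS (a : Fin n) (b : Fin m) : dzD a (star (coS (smooth_of_hol hτ) b)) = 0 := by
  rw [← star_dzbD, dzbD_coS hτ, star_zero]

/-- the entries of the holomorphic Jacobian matrix -/
theorem dzD_coS (a : Fin n) (b : Fin m) (z : Ω) :
    (dzD a (coS (smooth_of_hol hτ) b)).1 z = fderiv ℂ τ z (Pi.single a 1) b := by
  have h1 : DifferentiableAt ℂ τ z := hτ.differentiableAt (Ω.isOpen.mem_nhds z.2)
  have h2 : fderiv ℂ (fun w => τ w b) z = _ :=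
    ((ContinuousLinearMap.proj (R := ℂ) (φ := fun _ : Fin m => ℂ) b).hasFDerivAt.comp (z : E n)
      h1.hasFDerivAt).fderiv
  have h3 : (dzD a (coS (smooth_of_hol hτ) b)).1 z = fderiv ℂ (fun w => τ w b) z (Pi.single a 1) :=
    dzD_ofFn_hol (differentiableOn_pi.1 hτ b) a z
  rw [h3, h2]
  rfl

theorem dzD_pull (a : Fin n) (f : Sm Ω') : dzD a (pull (smooth_of_hol hτ) hm f) =
    ∑ b, pull (smooth_of_hol hτ) hm (dzD b f) * dzD a (coS (smooth_of_hol hτ) b) :=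
  DS_pull_of_star _ hm (dzD_mem_DS a) (fun b => dzD_star_coS hτ a b) f

theorem dzbD_pull (a : Fin n) (f : Sm Ω') : dzbD a (pull (smooth_of_hol hτ) hm f) =
    ∑ b, pull (smooth_of_hol hτ) hm (dzbD b f) * star (dzD a (coS (smooth_of_hol hτ) b)) := by
  rw [DS_pull_of_zero _ hm (dzbD_mem_DS a) (fun b => dzbD_coS hτ a b) f]
  simp only [star_dzD]

theorem dzD_star_dzD_coS (i j : Fin n) (b : Fin m) :
    dzD i (star (dzD j (coS (smooth_of_hol hτ) b))) = 0 := by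
  rw [← star_dzbD, ← dzD_dzbD_comm, dzbD_coS hτ, map_zero, star_zero]

/-- transformation of the complex Hessian -/
theorem hess_pull (i j : Fin n) (f : Sm Ω') :
    dzD i (dzbD j (pull (smooth_of_hol hτ) hm f)) =
    ∑ b, ∑ a, pull (smooth_of_hol hτ) hm (dzD a (dzbD b f)) *
      dzD i (coS (smooth_of_hol hτ) a) * star (dzD j (coS (smooth_of_hol hτ) b)) := by
  rw [dzbD_pull hτ, map_sum]
  refine Finset.sum_congr rfl fun b _ => ?_
  rw [Derivation.leibniz, smul_eq_mul, smul_eq_mul, dzD_star_dzD_coS hτ, mul_zero, zero_add,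
    dzD_pull hτ, Finset.mul_sum]
  refine Finset.sum_congr rfl fun a _ => ?_
  ring

end Hol

section Prod

variable {n : ℕ} {Ω : Opens (ℝ × E n)}

/-- the slice of an open set -/
def slice (Ω : Opens (ℝ × E n)) (t : ℝ) : Opens (E n) :=
  ⟨{z | (t, z) ∈ Ω}, Ω.isOpen.preimage (Continuous.prodMk_right t)⟩

theorem mem_slice (t : ℝ) (z : E n) : z ∈ slice Ω t ↔ (t, z) ∈ Ω := Iff.rfl

theorem mem_of_slice {t : ℝ} (z : slice Ω t) : (t, (z : E n)) ∈ Ω := z.2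

theorem mapsTo_slice (t : ℝ) : MapsTo (fun z : E n => (t, z)) (slice Ω t) Ω := fun _ hz => hz

/-- `∂/∂z_i` on `ℝ × ℂⁿ` -/
def dzP (i : Fin n) : Derivation ℂ (Sm Ω) (Sm Ω) := dzJ (LinearMap.inr ℝ ℝ (E n)) i

/-- `∂/∂z̄_i` on `ℝ × ℂⁿ` -/
def dzbP (i : Fin n) : Derivation ℂ (Sm Ω) (Sm Ω) := dzbJ (LinearMap.inr ℝ ℝ (E n)) i

/-- `∂/∂t` on `ℝ × ℂⁿ` -/
def dtP : Derivation ℂ (Sm Ω) (Sm Ω) := D ((1, 0) : ℝ × E n)

theorem fderiv_slice {F : ℝ × E n → ℂ} {t : ℝ} {z : E n} (hF : DifferentiableAt ℝ F (t, z))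
    (u : E n) : fderiv ℝ (fun w => F (t, w)) z u = fderiv ℝ F (t, z) (0, u) := by
  have h1 : HasFDerivAt (fun w : E n => (t, w)) (ContinuousLinearMap.inr ℝ ℝ (E n)) z :=
    hasFDerivAt_prodMk_right t z
  have h2 := (hF.hasFDerivAt.comp z h1).fderiv
  have h3 : fderiv ℝ (fun w => F (t, w)) z =
      (fderiv ℝ F (t, z)).comp (ContinuousLinearMap.inr ℝ ℝ (E n)) := h2
  rw [h3]
  rfl

theorem dzP_apply (i : Fin n) (f : Sm Ω) (t : ℝ) (z : E n) (h : (t, z) ∈ Ω) :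
    (dzP i f).1 ⟨(t, z), h⟩ = dz i (fun w => ext f.1 (t, w)) z := by
  show (1 / 2 : ℂ) * ((D ((0 : ℝ), (Pi.single i 1 : E n)) f).1 ⟨(t, z), h⟩ -
    I * (D ((0 : ℝ), (Pi.single i I : E n)) f).1 ⟨(t, z), h⟩) = _
  rw [D_apply, D_apply, dz, fderiv_slice (diffAt_ext f h), fderiv_slice (diffAt_ext f h)]
  ring

theorem dzbP_apply (i : Fin n) (f : Sm Ω) (t : ℝ) (z : E n) (h : (t, z) ∈ Ω) :
    (dzbP i f).1 ⟨(t, z), h⟩ = dzb i (fun w => ext f.1 (t, w)) z := by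
  show (1 / 2 : ℂ) * ((D ((0 : ℝ), (Pi.single i 1 : E n)) f).1 ⟨(t, z), h⟩ +
    I * (D ((0 : ℝ), (Pi.single i I : E n)) f).1 ⟨(t, z), h⟩) = _
  rw [D_apply, D_apply, dzb, fderiv_slice (diffAt_ext f h), fderiv_slice (diffAt_ext f h)]
  ring

theorem dtP_apply (f : Sm Ω) (t : ℝ) (z : E n) (h : (t, z) ∈ Ω) :
    (dtP f).1 ⟨(t, z), h⟩ = deriv (fun s => ext f.1 (s, z)) t := by
  have h1 : HasFDerivAt (fun s : ℝ => (s, z)) (ContinuousLinearMap.inl ℝ ℝ (E n)) t :=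
    hasFDerivAt_prodMk_left t z
  have h2 := ((diffAt_ext f h).hasFDerivAt.comp t h1).hasDerivAt.deriv
  have h3 : deriv (fun s => ext f.1 (s, z)) t =
      (fderiv ℝ (ext f.1) (t, z)).comp (ContinuousLinearMap.inl ℝ ℝ (E n)) 1 := h2
  rw [h3]
  rfl

theorem star_dzP (i : Fin n) (f : Sm Ω) : star (dzP i f) = dzbP i (star f) := star_dzJ _ _ _

theorem star_dzbP (i : Fin n) (f : Sm Ω) : star (dzbP i f) = dzP i (star f) := star_dzbJ _ _ _

theorem star_dtP (f : Sm Ω) : star (dtP f) = dtP (star f) := (D_star _ _).symm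

theorem dzP_comm (i j : Fin n) (f : Sm Ω) : dzP i (dzP j f) = dzP j (dzP i f) :=
  dzJ_comm _ _ _ _ _

theorem dzbP_comm (i j : Fin n) (f : Sm Ω) : dzbP i (dzbP j f) = dzbP j (dzbP i f) :=
  dzbJ_comm _ _ _ _ _

theorem dzP_dzbP_comm (i j : Fin n) (f : Sm Ω) : dzP i (dzbP j f) = dzbP j (dzP i f) :=
  dzJ_dzbJ_comm _ _ _ _ _

theorem dtP_dzP_comm (i : Fin n) (f : Sm Ω) : dtP (dzP i f) = dzP i (dtP f) :=
  D_dzJ_comm _ _ _ _

theorem dtP_dzbP_comm (i : Fin n) (f : Sm Ω) : dtP (dzbP i f) = dzbP i (dtP f) :=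
  D_dzbJ_comm _ _ _ _

theorem dzP_mem_DS (i : Fin n) : (dzP i : Derivation ℂ (Sm Ω) (Sm Ω)) ∈ DS Ω :=
  DC_le_DS (dzJ_mem_DC _ _)

theorem dzbP_mem_DS (i : Fin n) : (dzbP i : Derivation ℂ (Sm Ω) (Sm Ω)) ∈ DS Ω :=
  DC_le_DS (dzbJ_mem_DC _ _)

theorem dtP_mem_DS : (dtP : Derivation ℂ (Sm Ω) (Sm Ω)) ∈ DS Ω := D_mem_DS _

theorem smooth_slice (t : ℝ) (S : Set (E n)) : ContDiffOn ℝ ∞ (fun z : E n => (t, z)) S :=
  (contDiff_prodMk_right t).contDiffOn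

/-- restriction to a slice -/
def sl (t : ℝ) : Sm Ω →ₐ[ℂ] Sm (slice Ω t) :=
  pull (smooth_slice t _) (mapsTo_slice t)

theorem sl_apply (t : ℝ) (f : Sm Ω) (z : slice Ω t) :
    (sl t f).1 z = f.1 ⟨(t, z), mem_of_slice z⟩ := by
  rw [sl, pull_apply]

theorem dzD_sl (t : ℝ) (i : Fin n) (f : Sm Ω) : dzD i (sl t f) = sl t (dzP i f) := by
  apply Sm.ext'
  intro z
  rw [sl_apply, dzP_apply, dzD_apply]
  refine dz_congr ?_
  exact Filter.eventuallyEq_of_mem ((slice Ω t).isOpen.mem_nhds z.2) fun w hw => ext_pull _ _ f hw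

theorem dzbD_sl (t : ℝ) (i : Fin n) (f : Sm Ω) : dzbD i (sl t f) = sl t (dzbP i f) := by
  apply Sm.ext'
  intro z
  rw [sl_apply, dzbP_apply, dzbD_apply]
  refine dzb_congr ?_
  exact Filter.eventuallyEq_of_mem ((slice Ω t).isOpen.mem_nhds z.2) fun w hw => ext_pull _ _ f hw

end Prod

end

end Pool.Agent.YTDA
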