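import Pool.Agent.YTDA.XGam
import Pool.Agent.YTDA.NoField

/-!
# The three involutions in the bottom charts
-/

set_option autoImplicit false

namespace Pool.Agent.YTDA

open Complex Set Topology Filter Metric
open Pool.Agent.YTD

noncomputable section

namespace TwoP1

variable {K : Type} [Field K] [Algebra ℂ K] {T : Datum K} {q : ℕ} {D₀ : T.X.Pt →₀ ℤ}
  {An : AnCurve T.X.toCurveOrd} {M : SigModel T q D₀ An} {α : ℤ}
  (X : TwoP1 M.A M.D α 3 α (-3))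

theorem swapV_vec (b : Bool) (u : ℂ) : swapV (vec b u) = vec (!b) u := by
  apply Subtype.ext
  cases b
  · ext j
    fin_cases j <;> rfl
  · ext j
    fin_cases j <;> rfl

theorem bot_mem {P : T.X.Pt} {z : E 4} (hz : ‖z 0‖ < M.r P) :
    (![z 0, z 1] : E 2) ∈ M.A.U (M.e (P, 0)) := by
  rw [M.U_bot]
  exact hz

theorem GamX.symMaps {γ : Gam T} (G : GamX (M := M) γ) (hr : ∀ P, M.r (γ.σ P) = M.r P)
    (hr₁ : ∀ P, M.r (γ.σ₁ P) = M.r P) (hr₂ : ∀ P, M.r (γ.σ₂ P) = M.r P) :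
    SymMaps M X γ.σ γ.σ₁ γ.σ₂ (G.e₁ X) (G.e₂ X) (G.e₀ X) where
  r := hr
  r₁ := hr₁
  r₂ := hr₂
  SS := γ.S'_iff
  SS' := γ.S_iff
  e₁ P z hz := by
    refine ⟨1, ?_⟩
    unfold pt
    rw [G.e₁_mk, G.aut₁.γ _ _ _ (bot_mem hz), ← vec_neg, ← vec_neg, one_smul]
    rfl
  e₂ P z hz := by
    refine ⟨1, ?_⟩
    unfold pt
    rw [G.e₂_mk, G.aut₂.γ _ _ _ (bot_mem hz), swapV_vec, swapV_vec, one_smul]
    rfl
  e₃ P z hz := by
    refine ⟨1, ?_⟩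
    unfold pt
    rw [G.e₀_mk, G.aut₀.γ _ _ _ (bot_mem hz), one_smul]
    rfl

end TwoP1

end

end Pool.Agent.YTDA
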