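import Pool.Agent.YTDA.AnIso
import Pool.Agent.YTDA.SigModel
import Pool.Agent.YTDA.NoField
import Pool.Agent.YTDA.NoVec
import Pool.Agent.YTDA.XSym
import Pool.Agent.YTDA.P1Inst
import Pool.Agent.YTDA.SecZero
import Pool.Agent.YTDA.AmpX
import Pool.Agent.YTDA.CscFin
import Pool.Agent.YTDA.KStabFin
import Pool.Agent.YTD.GenPoint

/-!
# Final assembly
-/

set_option autoImplicit false

namespace Pool.Agent.YTDA

open Complex Set Topology Filter Metric Module Manifold ContDiff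
open Pool.Agent.YTD

noncomputable section

/-! ### The divisor -/

theorem orb_spec {K : Type} [Field K] [Algebra ℂ K] {T : Datum K} (γ : Gam T) (P : T.X.Pt)
    (m : ℤ) : T.X.deg (γ.orb P m) = 8 * m ∧ γ.Fixes (γ.orb P m) := by
  classical
  refine ⟨?_, ?_, ?_, ?_⟩
  · unfold Gam.orb
    simp only [T.X.deg_add, T.X.deg_single]
    ring
  · intro Q
    unfold Gam.orb
    simp only [Finsupp.add_apply, Finsupp.single_apply]
    have inv : ∀ A B : T.X.Pt, (γ.σ A = γ.σ B) = (A = B) := fun A B => propext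
      ⟨fun h => by rw [← γ.σσ A, h, γ.σσ], fun h => by rw [h]⟩
    have inv' : ∀ A B : T.X.Pt, (A = γ.σ B) = (γ.σ A = B) := fun A B => propext
      ⟨fun h => by rw [h, γ.σσ], fun h => by rw [← h, γ.σσ]⟩
    simp only [inv]
    simp only [inv']
    ring
  · intro Q
    unfold Gam.orb
    simp only [Finsupp.add_apply, Finsupp.single_apply]
    have inv' : ∀ A B : T.X.Pt, (A = γ.σ₁ B) = (γ.σ₁ A = B) := fun A B => propext
      ⟨fun h => by rw [h, γ.σσ₁], fun h => by rw [← h, γ.σσ₁]⟩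
    have c1 : ∀ A, γ.σ₁ (γ.σ A) = γ.σ (γ.σ₁ A) := fun A => (γ.σcomm₁ A).symm
    simp only [inv', c1, γ.σσ₁]
    ring
  · intro Q
    unfold Gam.orb
    simp only [Finsupp.add_apply, Finsupp.single_apply]
    have inv' : ∀ A B : T.X.Pt, (A = γ.σ₂ B) = (γ.σ₂ A = B) := fun A B => propext
      ⟨fun h => by rw [h, γ.σσ₂], fun h => by rw [← h, γ.σσ₂]⟩
    have c1 : ∀ A, γ.σ₂ (γ.σ A) = γ.σ (γ.σ₂ A) := fun A => (γ.σcomm₂ A).symm
    have c2 : ∀ A, γ.σ₂ (γ.σ₁ A) = γ.σ₁ (γ.σ₂ A) := fun A => (γ.σcomm₁₂ A).symm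
    simp only [inv', c1, c2, γ.σσ₂]
    ring

/-- Invariant divisors of every degree divisible by eight, away from `S` and `S'`. -/
theorem exists_fixed_divisor {K : Type} [Field K] [Algebra ℂ K] {T : Datum K} (γ : Gam T) (m : ℤ) :
    ∃ D₀ : T.X.Pt →₀ ℤ, T.X.deg D₀ = 8 * m ∧ γ.Fixes D₀ ∧ (∀ P ∈ T.S, D₀ P = 0) ∧
      ∀ P ∈ T.S', D₀ P = 0 := by
  classical
  obtain ⟨P₁⟩ := T.exists_pt
  have hinf := T.X.infinite_Pt P₁
  obtain ⟨P, hP⟩ := Infinite.exists_notMem_finset (T.S ∪ T.S')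
  rw [Finset.mem_union, not_or] at hP
  -- the orbit of `P` does not meet `S` and `S'`
  have hS'' : ∀ Q, Q ∈ T.S' ↔ γ.σ Q ∈ T.S := by
    intro Q
    have h := γ.S_iff (γ.σ Q)
    rw [γ.σσ] at h
    exact h.symm
  have a1 : ∀ Q, Q ∉ T.S ∧ Q ∉ T.S' → γ.σ Q ∉ T.S ∧ γ.σ Q ∉ T.S' := fun Q h =>
    ⟨fun h' => h.2 ((hS'' Q).2 h'), fun h' => h.1 ((γ.S_iff Q).2 h')⟩
  have a2 : ∀ Q, Q ∉ T.S ∧ Q ∉ T.S' → γ.σ₁ Q ∉ T.S ∧ γ.σ₁ Q ∉ T.S' := fun Q h =>
    ⟨fun h' => h.1 ((γ.S_iff₁ Q).2 h'), fun h' => h.2 ((γ.S'_iff₁ Q).2 h')⟩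
  have a3 : ∀ Q, Q ∉ T.S ∧ Q ∉ T.S' → γ.σ₂ Q ∉ T.S ∧ γ.σ₂ Q ∉ T.S' := fun Q h =>
    ⟨fun h' => h.1 ((γ.S_iff₂ Q).2 h'), fun h' => h.2 ((γ.S'_iff₂ Q).2 h')⟩
  have key : ∀ Q, (Q ∈ T.S ∨ Q ∈ T.S') → ∀ R, (R ∉ T.S ∧ R ∉ T.S') →
      (Finsupp.single R m : T.X.Pt →₀ ℤ) Q = 0 := by
    intro Q hQ R hR
    rw [Finsupp.single_apply, if_neg]
    rintro rfl
    rcases hQ with h | h
    · exact hR.1 h
    · exact hR.2 h
  have h0 : ∀ Q, (Q ∈ T.S ∨ Q ∈ T.S') → γ.orb P m Q = 0 := by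
    intro Q hQ
    unfold Gam.orb
    simp only [Finsupp.add_apply]
    rw [key Q hQ _ hP, key Q hQ _ (a1 _ hP), key Q hQ _ (a2 _ hP), key Q hQ _ (a1 _ (a2 _ hP)),
      key Q hQ _ (a3 _ hP), key Q hQ _ (a1 _ (a3 _ hP)), key Q hQ _ (a2 _ (a3 _ hP)),
      key Q hQ _ (a1 _ (a2 _ (a3 _ hP)))]
    simp
  refine ⟨γ.orb P m, (orb_spec γ P m).1, (orb_spec γ P m).2, fun Q hQ => h0 Q (Or.inl hQ),
    fun Q hQ => h0 Q (Or.inr hQ)⟩

/-! ### The final theorem -/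

/-- There are a compact connected complex manifold `M` of dimension four without non-zero
holomorphic vector fields and an ample line bundle `L` on `M` such that `(M, L)` is K-stable, but
there is no Kähler metric of constant scalar curvature in `c₁(L)`. -/
theorem main : ∃ (M : Type) (_ : TopologicalSpace M) (_ : ChartedSpace (E 4) M)
    (_ : IsManifold 𝓘(ℂ, E 4) ω M) (L : LineBundle 4 M),
    CompactSpace M ∧ T2Space M ∧ ConnectedSpace M ∧ NoVectorField 4 M ∧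
    L.IsAmple ∧ L.KStable ∧ Nonempty L.KMetric ∧ ∀ m : L.KMetric, ¬ m.IsCsc := by
  obtain ⟨K, i1, i2, T, γ, An, ht8, hE, hE₁, hE₂, x₀, d, hd, hdeg, hdS, hdS', hiso⟩ :=
    exists_an_iso 1 one_pos
  obtain ⟨D₀, hdegD, hfix, hS, hS'⟩ := exists_fixed_divisor γ 105
  have hD : T.X.deg D₀ = 105 * T.t * (1 : ℕ) := by
    rw [hdegD, ht8]
    norm_num
  set M := sigModel T 1 D₀ An with hM
  have hexc : ∀ P, Sig.Exc T P ↔ Sig.Exc T (γ.σ P) := by
    intro P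
    have h := γ.S_iff (γ.σ P)
    rw [γ.σσ] at h
    have h1 := γ.S_iff P
    unfold Sig.Exc
    tauto
  have hexc₁ : ∀ P, Sig.Exc T P ↔ Sig.Exc T (γ.σ₁ P) := by
    intro P
    have h := γ.S_iff₁ P
    have h1 := γ.S'_iff₁ P
    unfold Sig.Exc
    tauto
  have hexc₂ : ∀ P, Sig.Exc T P ↔ Sig.Exc T (γ.σ₂ P) := by
    intro P
    have h := γ.S_iff₂ P
    have h1 := γ.S'_iff₂ P
    unfold Sig.Exc
    tauto
  have hr : ∀ P, M.r (γ.σ P) = M.r P := sigModel_r_symm T 1 D₀ An hE hfix.1 hexc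
  have hr₁ : ∀ P, M.r (γ.σ₁ P) = M.r P := sigModel_r_symm T 1 D₀ An hE₁ hfix.2.1 hexc₁
  have hr₂ : ∀ P, M.r (γ.σ₂ P) = M.r P := sigModel_r_symm T 1 D₀ An hE₂ hfix.2.2 hexc₂
  obtain ⟨X, hXc, hXt, -, -, -⟩ := exists_twoP1 M.A M.D M.cpt M.t2 (25 * ((1 : ℕ) : ℤ)) 3
    (25 * ((1 : ℕ) : ℤ)) (-3)
  obtain ⟨G⟩ := TwoP1.exists_gamX (M := M) hE hE₁ hE₂ hr hr₁ hr₂ hfix
  have hne : Nonempty (P1Y X.D₁ (25 * ((1 : ℕ) : ℤ)) (-3)) := by
    obtain ⟨P⟩ := T.exists_pt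
    exact ⟨X.pt (M.e (P, 0)) false false 0⟩
  have hconst : ConstC An M.r := fun f hf P Q => AnCurve.const_of_hol (X := T.X) An M.r M.r_pos M.r_le f hf P Q
  have hgen : (T.X.genus : ℤ) = 9 * T.t + 1 := by
    rw [T.genus_eq]
    push_cast
    ring
  have hsum : 0 < ∑ᶠ P, An.ordd x₀ P := by
    have e : ∀ P, An.ordd x₀ P = d P := by
      intro P
      unfold AnCurve.ordd
      rw [hd P]
      rfl
    rw [finsum_congr e, finsum_eq_sum_of_support_subset (s := d.support) _ (by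
      intro P hP
      exact Finsupp.mem_support_iff.2 hP)]
    have e2 : T.X.deg d = ∑ P ∈ d.support, d P := rfl
    rw [← e2, hdeg, hgen, ht8]
    norm_num
  have hx₀ : ∀ a : ℂ, x₀ ≠ algebraMap ℂ K a := by
    rintro a rfl
    obtain ⟨P⟩ := T.exists_pt
    have h1 := hd P
    have h2 := An.fn_const P a 0 (mem_ball_self (An.r_pos P))
    have h3 : deriv (An.fn P (algebraMap ℂ K a)) =ᶠ[𝓝[≠] (0 : ℂ)] fun _ => 0 := by
      have h4 := eventually_eventually_nhdsWithin.2 h2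
      filter_upwards [h4, self_mem_nhdsWithin] with y h5 hy
      rw [isOpen_compl_singleton.nhdsWithin_eq hy] at h5
      have h6 : An.fn P (algebraMap ℂ K a) =ᶠ[𝓝 y] fun _ => a := h5
      rw [h6.deriv_eq, deriv_const]
    rw [meromorphicOrderAt_congr h3] at h1
    have h5 : meromorphicOrderAt (fun _ : ℂ => (0 : ℂ)) 0 = ⊤ := by
      rw [meromorphicOrderAt_eq_top_iff]
      exact Eventually.of_forall fun _ => rfl
    rw [h5] at h1
    exact WithTop.top_ne_coe h1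
  have hnof : NoFieldC An M.r := fun κ hκ htr =>
    AnCurve.noField (X := T.X) An M.r M.r_pos M.r_le hx₀ hsum κ hκ htr
  have hsym := G.symMaps (X := X) hr hr₁ hr₂
  exact PolAtlas.exists_manifold (A := X.B₂) hXc hXt hne (G.inv3 X) (G.free X)
    (G.isBihol_e₁ X).isHol (G.isBihol_e₂ X).isHol (G.isBihol_e₀ X).isHol
    (isSec_zero_const X)
    (fun W h₁ h₂ h₃ => TwoP1.noField hconst hnof hsym W h₁ h₂ h₃)
    (exists_ampInv G X one_pos hfix hD hXc hXt)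
    (exists_kahler G X one_pos hfix hD hXc hXt)
    (fun H hH h1 h2 _ s => noCsc G X one_pos hD hXc hXt hS hS' x₀ d hd hiso hdeg hdS hdS' H hH
      h1 h2 s)
    (kStable G X one_pos hfix hD hXc hXt)

end

end Pool.Agent.YTDA
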