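import Pool.Agent.YTDA.T17

/-!
# The manifold, together with its ring of sections

The final construction with the ring of sections of `L` as an additional output.
-/

set_option autoImplicit false

namespace Pool.Agent.YTDA

open Complex Set Topology ContDiff Manifold ComplexOrder Module Filter Metric
open Pool.Agent.YTD

noncomputable section

namespace PolAtlas

variable {n : ℕ} {Y : Type} [MulAction ℂˣ Y] {A : PolAtlas n Y}

/-- The final construction, with an arbitrary property `Pr` of the quotient. -/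
theorem exists_manifold_pred
    (Pr : ∀ (M : Type) (_ : TopologicalSpace M) (_ : ChartedSpace (E n) M), LineBundle n M → Prop)
    (hc : A.IsCpt) (ht : A.IsT2) (hne : Nonempty Y) (e : Inv3 Y)
    (he : e.Free) (h₁ : IsHol A A e.e₁) (h₂ : IsHol A A e.e₂) (h₃ : IsHol A A e.e₃)
    (hsec : ∀ F, A.IsSec 0 F → ∃ c, ∀ y, F y = c)
    (hfield : ∀ W : A.HolField, FieldInv A e.e₁ W → FieldInv A e.e₂ W → FieldInv A e.e₃ W →
      ∀ a, ∀ z ∈ A.U a, W.W a z = 0)
    (hamp : letI := e.act; haveI := e.commClass; ∃ k > 0, A.AmpInv G3 k)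
    (hK : ∃ H, A.IsKahler H ∧ (∀ y, H (e.e₁ y) = H y) ∧ (∀ y, H (e.e₂ y) = H y) ∧
      ∀ y, H (e.e₃ y) = H y)
    (hcsc : ∀ H, A.IsKahler H → (∀ y, H (e.e₁ y) = H y) → (∀ y, H (e.e₂ y) = H y) →
      (∀ y, H (e.e₃ y) = H y) → ∀ s, ¬ A.IsCsc H s)
    (hstab : letI := e.act; haveI := e.commClass; ∀ hA : A.FreeAct G3,
      Pr (A.quot hA ht).Mfd inferInstance inferInstance (A.quot hA ht).lb) :
    ∃ (M : Type) (_ : TopologicalSpace M) (_ : ChartedSpace (E n) M)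
      (_ : IsManifold 𝓘(ℂ, E n) ω M) (L : LineBundle n M),
      CompactSpace M ∧ T2Space M ∧ ConnectedSpace M ∧ NoVectorField n M ∧
      L.IsAmple ∧ Pr M inferInstance inferInstance L ∧ Nonempty L.KMetric ∧
      ∀ m : L.KMetric, ¬ m.IsCsc := by
  let _ := e.act
  have _ := e.commClass
  have hA : A.FreeAct G3 := he.freeAct h₁ h₂ h₃
  have hinv : ∀ {β : Type} (F : Y → β), (∀ (g : G3) y, F (g • y) = F y) ↔
      (∀ y, F (e.e₁ y) = F y) ∧ (∀ y, F (e.e₂ y) = F y) ∧ ∀ y, F (e.e₃ y) = F y :=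
    fun F => e.inv_iff F
  set B := A.quot hA ht with hB
  have hneQ : Nonempty (QY Y G3) := ⟨qm hne.some⟩
  refine ⟨B.Mfd, inferInstance, inferInstance, B.isManifold, B.lb,
    B.compactSpace (quot_isCpt hA ht hc), B.t2Space (quot_isT2 hA ht),
    B.connectedSpace ?_, B.noVectorField ?_, ?_, hstab hA, ?_, ?_⟩
  · intro F hF
    obtain ⟨c, hc⟩ := hsec _ ((quot_isSec_iff hA ht).1 hF)
    refine ⟨c, fun y => ?_⟩
    obtain ⟨y, rfl⟩ := exists_qm y
    exact hc y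
  · intro W
    have hW : ∀ g : G3, FieldInv A (fun y => g • y) (pullField hA ht W) :=
      pullField_fieldInv hA ht W
    apply pullField_eq_zero hA ht
    have e₁ : (fun y => (Multiplicative.ofAdd (1, 0, 0) : G3) • y) = e.e₁ := by
      funext y
      show pw e.e₁ 1 (pw e.e₂ 0 (pw e.e₃ 0 y)) = e.e₁ y
      rw [pw_zero, pw_zero, pw_one]
    have e₂ : (fun y => (Multiplicative.ofAdd (0, 1, 0) : G3) • y) = e.e₂ := by
      funext y
      show pw e.e₁ 0 (pw e.e₂ 1 (pw e.e₃ 0 y)) = e.e₂ y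
      rw [pw_zero, pw_zero, pw_one]
    have e₃ : (fun y => (Multiplicative.ofAdd (0, 0, 1) : G3) • y) = e.e₃ := by
      funext y
      show pw e.e₁ 0 (pw e.e₂ 0 (pw e.e₃ 1 y)) = e.e₃ y
      rw [pw_zero, pw_zero, pw_one]
    have h1 := hW (Multiplicative.ofAdd (1, 0, 0))
    have h2 := hW (Multiplicative.ofAdd (0, 1, 0))
    have h3 := hW (Multiplicative.ofAdd (0, 0, 1))
    rw [e₁] at h1
    rw [e₂] at h2
    rw [e₃] at h3
    exact hfield _ h1 h2 h3
  · obtain ⟨k, hk, h⟩ := hamp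
    exact (AmpInv.quot h hA ht).isAmple hk
  · obtain ⟨H, hH, i1, i2, i3⟩ := hK
    exact ⟨toKMetric (quot_isKahler_lift hA ht hH ((hinv H).2 ⟨i1, i2, i3⟩))⟩
  · intro m hm
    obtain ⟨s, hs⟩ := B.toH_isCsc hm
    have hK1 := quot_isKahler hA ht (B.toH_isKahler m)
    have hs1 := quot_isCsc hA ht hs
    have hi : ∀ (g : G3) y, (fun y => B.toH m (qm y)) (g • y) = (fun y => B.toH m (qm y)) y :=
      fun g y => congrArg (B.toH m) (qm_smul g y)
    obtain ⟨i1, i2, i3⟩ := (hinv (fun y => B.toH m (qm y))).1 hi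
    exact hcsc _ hK1 i1 i2 i3 s hs1

end PolAtlas

/-- There is a compact connected complex manifold `M` of dimension four without non-zero
holomorphic vector fields with an ample line bundle `L` without a Kähler metric of constant scalar
curvature in `c₁(L)`, whose ring of sections is the ring `⊕ secQ N`. -/
theorem main_ring : ∃ (K : Type) (_ : Field K) (_ : Algebra ℂ K) (T : Datum K) (γ : Gam T)
    (D₀ : T.X.Pt →₀ ℤ), γ.Fixes D₀ ∧ T.X.deg D₀ = 105 * T.t * (1 : ℕ) ∧ ∃ (M : Type) (_ : TopologicalSpace M) (_ : ChartedSpace (E 4) M)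
    (_ : IsManifold 𝓘(ℂ, E 4) ω M) (L : LineBundle 4 M),
    CompactSpace M ∧ T2Space M ∧ ConnectedSpace M ∧ NoVectorField 4 M ∧
    L.IsAmple ∧ Nonempty (L.RingIso (γ.secQ 1 D₀)) ∧ Nonempty L.KMetric ∧
    ∀ m : L.KMetric, ¬ m.IsCsc := by
  obtain ⟨K, i1, i2, T, γ, An, ht8, hE, hE₁, hE₂, x₀, d, hd, hdeg, hdS, hdS', hiso⟩ :=
    exists_an_iso 1 one_pos
  obtain ⟨D₀, hdegD, hfix, hS, hS'⟩ := exists_fixed_divisor γ 105
  have hD : T.X.deg D₀ = 105 * T.t * (1 : ℕ) := by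
    rw [hdegD, ht8]
    norm_num
  set M := sigModel T 1 D₀ An with hM
  have hexc : ∀ P, Sig.Exc T P ↔ Sig.Exc T (γ.σ P) := by
    intro P
    have h := γ.S_iff (γ.σ P)
    rw [γ.σσ] at h
    have h1 := γ.S_iff P
    unfold Sig.Exc
    tauto
  have hexc₁ : ∀ P, Sig.Exc T P ↔ Sig.Exc T (γ.σ₁ P) := by
    intro P
    have h := γ.S_iff₁ P
    have h1 := γ.S'_iff₁ P
    unfold Sig.Exc
    tauto
  have hexc₂ : ∀ P, Sig.Exc T P ↔ Sig.Exc T (γ.σ₂ P) := by
    intro P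
    have h := γ.S_iff₂ P
    have h1 := γ.S'_iff₂ P
    unfold Sig.Exc
    tauto
  have hr : ∀ P, M.r (γ.σ P) = M.r P := sigModel_r_symm T 1 D₀ An hE hfix.1 hexc
  have hr₁ : ∀ P, M.r (γ.σ₁ P) = M.r P := sigModel_r_symm T 1 D₀ An hE₁ hfix.2.1 hexc₁
  have hr₂ : ∀ P, M.r (γ.σ₂ P) = M.r P := sigModel_r_symm T 1 D₀ An hE₂ hfix.2.2 hexc₂
  obtain ⟨X, hXc, hXt, -, -, -⟩ := exists_twoP1 M.A M.D M.cpt M.t2 (25 * ((1 : ℕ) : ℤ)) 3
    (25 * ((1 : ℕ) : ℤ)) (-3)
  obtain ⟨G⟩ := TwoP1.exists_gamX (M := M) hE hE₁ hE₂ hr hr₁ hr₂ hfix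
  have hne : Nonempty (P1Y X.D₁ (25 * ((1 : ℕ) : ℤ)) (-3)) := by
    obtain ⟨P⟩ := T.exists_pt
    exact ⟨X.pt (M.e (P, 0)) false false 0⟩
  have hconst : ConstC An M.r := fun f hf P Q => AnCurve.const_of_hol (X := T.X) An M.r M.r_pos M.r_le f hf P Q
  have hgen : (T.X.genus : ℤ) = 9 * T.t + 1 := by
    rw [T.genus_eq]
    push_cast
    ring
  have hsum : 0 < ∑ᶠ P, An.ordd x₀ P := by
    have e : ∀ P, An.ordd x₀ P = d P := by
      intro P
      unfold AnCurve.ordd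
      rw [hd P]
      rfl
    rw [finsum_congr e, finsum_eq_sum_of_support_subset (s := d.support) _ (by
      intro P hP
      exact Finsupp.mem_support_iff.2 hP)]
    have e2 : T.X.deg d = ∑ P ∈ d.support, d P := rfl
    rw [← e2, hdeg, hgen, ht8]
    norm_num
  have hx₀ : ∀ a : ℂ, x₀ ≠ algebraMap ℂ K a := by
    rintro a rfl
    obtain ⟨P⟩ := T.exists_pt
    have h1 := hd P
    have h2 := An.fn_const P a 0 (mem_ball_self (An.r_pos P))
    have h3 : deriv (An.fn P (algebraMap ℂ K a)) =ᶠ[𝓝[≠] (0 : ℂ)] fun _ => 0 := by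
      have h4 := eventually_eventually_nhdsWithin.2 h2
      filter_upwards [h4, self_mem_nhdsWithin] with y h5 hy
      rw [isOpen_compl_singleton.nhdsWithin_eq hy] at h5
      have h6 : An.fn P (algebraMap ℂ K a) =ᶠ[𝓝 y] fun _ => a := h5
      rw [h6.deriv_eq, deriv_const]
    rw [meromorphicOrderAt_congr h3] at h1
    have h5 : meromorphicOrderAt (fun _ : ℂ => (0 : ℂ)) 0 = ⊤ := by
      rw [meromorphicOrderAt_eq_top_iff]
      exact Eventually.of_forall fun _ => rfl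
    rw [h5] at h1
    exact WithTop.top_ne_coe h1
  have hnof : NoFieldC An M.r := fun κ hκ htr =>
    AnCurve.noField (X := T.X) An M.r M.r_pos M.r_le hx₀ hsum κ hκ htr
  have hsym := G.symMaps (X := X) hr hr₁ hr₂
  refine ⟨K, i1, i2, T, γ, D₀, hfix, hD, ?_⟩
  exact PolAtlas.exists_manifold_pred (A := X.B₂)
    (fun _ _ _ L => Nonempty (L.RingIso (γ.secQ 1 D₀))) hXc hXt hne (G.inv3 X) (G.free X)
    (G.isBihol_e₁ X).isHol (G.isBihol_e₂ X).isHol (G.isBihol_e₀ X).isHol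
    (isSec_zero_const X)
    (fun W h₁ h₂ h₃ => TwoP1.noField hconst hnof hsym W h₁ h₂ h₃)
    (exists_ampInv G X one_pos hfix hD hXc hXt)
    (exists_kahler G X one_pos hfix hD hXc hXt)
    (fun H hH h1 h2 _ s => noCsc G X one_pos hD hXc hXt hS hS' x₀ d hd hiso hdeg hdS hdS' H hH
      h1 h2 s)
    (fun hA => ⟨((secCor X).invCor G hfix).ringIso (by
      intro N N' f hf f' hf'
      rw [Gam.mem_secQ] at hf hf' ⊢
      refine ⟨T.sec_mul_mem hf.1 hf'.1, ?_, ?_, ?_⟩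
      · rw [map_mul, hf.2.1, hf'.2.1]
      · rw [map_mul, hf.2.2.1, hf'.2.2.1]
      · rw [map_mul, hf.2.2.2, hf'.2.2.2]) hXt hA⟩)

end

end Pool.Agent.YTDA
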